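import Pool.Agent.Helper29.MFA.T09

section

/-!
Basic API for the Seymour project (block BASICS, helper71).

Contents: `mask`, `ind`, `dot`, supports; membership in `del`, `con`, `res`, `Z`; duality;
composition of minors; the numbers `dR A` (dimension of the rows supported inside `A`) and `dZ A`
(the same for cycles); rank; connectivity; uncrossing; `TC`; `HasMinor`.
-/

namespace SEY

open Finset Submodule

variable {E : Type} [Fintype E] [DecidableEq E]

/-! ### Elements of `ZMod 2` -/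

lemma zcases (x : ZMod 2) : x = 0 ∨ x = 1 := by
  revert x; decide

lemma z_ne_zero {x : ZMod 2} : x ≠ 0 ↔ x = 1 := by
  revert x; decide

lemma z_ne_one {x : ZMod 2} : x ≠ 1 ↔ x = 0 := by
  revert x; decide

lemma z_add_eq_zero {x y : ZMod 2} : x + y = 0 ↔ x = y := by
  revert x y; decide

lemma z_add_self (x : ZMod 2) : x + x = 0 := by
  revert x; decide

/-! ### `mask` -/

omit [Fintype E] in
@[simp] lemma mask_apply (A : Finset E) (f : E → ZMod 2) (e : E) :
    mask A f e = if e ∈ A then f e else 0 := rfl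

omit [Fintype E] in
lemma mask_mask (A B : Finset E) (f : E → ZMod 2) : mask A (mask B f) = mask (A ∩ B) f := by
  ext e
  by_cases h1 : e ∈ A <;> by_cases h2 : e ∈ B <;> simp [h1, h2]

omit [Fintype E] in
lemma mask_eq_self_iff {A : Finset E} {f : E → ZMod 2} :
    mask A f = f ↔ ∀ e, e ∉ A → f e = 0 := by
  constructor
  · intro h e he
    rw [← h]; simp [he]
  · intro h
    ext e
    by_cases he : e ∈ A
    · simp [he]
    · simp [he, h e he]

omit [Fintype E] in
lemma mask_eq_self {A : Finset E} {f : E → ZMod 2} (h : ∀ e, e ∉ A → f e = 0) :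
    mask A f = f := mask_eq_self_iff.2 h

omit [Fintype E] in
lemma mask_eq_zero_iff {A : Finset E} {f : E → ZMod 2} : mask A f = 0 ↔ ∀ e ∈ A, f e = 0 := by
  constructor
  · intro h e he
    have := congrFun h e
    simpa [he] using this
  · intro h
    ext e
    by_cases he : e ∈ A
    · simp [he, h e he]
    · simp [he]

/-! ### `ind` and supports -/

omit [Fintype E] in
@[simp] lemma ind_apply (A : Finset E) (e : E) :
    (ind A : E → ZMod 2) e = if e ∈ A then 1 else 0 := rfl

omit [Fintype E] in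
lemma ind_of_mem {A : Finset E} {e : E} (h : e ∈ A) : (ind A : E → ZMod 2) e = 1 := if_pos h

omit [Fintype E] in
lemma ind_of_notMem {A : Finset E} {e : E} (h : e ∉ A) : (ind A : E → ZMod 2) e = 0 := if_neg h

/-- the support of a vector -/
def spt (f : E → ZMod 2) : Finset E := univ.filter (fun e => f e ≠ 0)

lemma mem_spt {f : E → ZMod 2} {e : E} : e ∈ spt f ↔ f e ≠ 0 := by simp [spt]

lemma mem_spt' {f : E → ZMod 2} {e : E} : e ∈ spt f ↔ f e = 1 := by
  rw [mem_spt, z_ne_zero]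

lemma notMem_spt {f : E → ZMod 2} {e : E} : e ∉ spt f ↔ f e = 0 := by
  rw [mem_spt, not_not]

@[simp] lemma ind_spt (f : E → ZMod 2) : ind (spt f) = f := by
  ext e
  rcases zcases (f e) with h | h
  · rw [ind_of_notMem (notMem_spt.2 h), h]
  · rw [ind_of_mem (mem_spt'.2 h), h]

@[simp] lemma spt_ind (A : Finset E) : spt (ind A : E → ZMod 2) = A := by
  ext e
  rw [mem_spt']
  by_cases h : e ∈ A <;> simp [h]

omit [Fintype E] in
lemma ind_add (A B : Finset E) :
    (ind A + ind B : E → ZMod 2) = ind (symmDiff A B) := by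
  ext e
  by_cases h1 : e ∈ A <;> by_cases h2 : e ∈ B <;>
    simp [h1, h2, Finset.mem_symmDiff, z_add_self]

omit [Fintype E] in
@[simp] lemma ind_empty : (ind ∅ : E → ZMod 2) = 0 := by
  ext e; simp

omit [Fintype E] in
lemma ind_inj {A B : Finset E} : (ind A : E → ZMod 2) = ind B ↔ A = B := by
  constructor
  · intro h
    ext e
    have := congrFun h e
    by_cases h1 : e ∈ A <;> by_cases h2 : e ∈ B <;> simp [h1, h2] at this ⊢
  · rintro rfl; rfl

omit [Fintype E] in
lemma ind_eq_zero {A : Finset E} : (ind A : E → ZMod 2) = 0 ↔ A = ∅ := by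
  rw [← ind_empty, ind_inj]

lemma spt_eq_empty {f : E → ZMod 2} : spt f = ∅ ↔ f = 0 := by
  rw [← ind_eq_zero, ind_spt]

lemma spt_add (f g : E → ZMod 2) : spt (f + g) = symmDiff (spt f) (spt g) := by
  rw [← ind_inj, ← ind_add, ind_spt, ind_spt, ind_spt]

lemma spt_subset {f : E → ZMod 2} {A : Finset E} : spt f ⊆ A ↔ ∀ e, e ∉ A → f e = 0 := by
  constructor
  · intro h e he
    by_contra h1
    exact he (h (mem_spt.2 h1))
  · intro h e he
    by_contra h1
    exact mem_spt.1 he (h e h1)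

omit [Fintype E] in
lemma mask_ind (A B : Finset E) : mask A (ind B : E → ZMod 2) = ind (A ∩ B) := by
  ext e
  by_cases h1 : e ∈ A <;> by_cases h2 : e ∈ B <;> simp [h1, h2]

/-! ### The inner product -/

omit [DecidableEq E] in
lemma dot_comm (f g : E → ZMod 2) : dot f g = dot g f := by
  unfold dot
  exact Finset.sum_congr rfl (fun e _ => mul_comm _ _)

omit [DecidableEq E] in
lemma dot_add_left (f g h : E → ZMod 2) : dot (f + g) h = dot f h + dot g h := by
  simp [dot, add_mul, Finset.sum_add_distrib]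

omit [DecidableEq E] in
lemma dot_add_right (f g h : E → ZMod 2) : dot f (g + h) = dot f g + dot f h := by
  simp [dot, mul_add, Finset.sum_add_distrib]

omit [DecidableEq E] in
lemma dot_smul_left (c : ZMod 2) (f g : E → ZMod 2) : dot (c • f) g = c * dot f g := by
  simp [dot, Finset.mul_sum, mul_assoc]

omit [DecidableEq E] in
lemma dot_smul_right (c : ZMod 2) (f g : E → ZMod 2) : dot f (c • g) = c * dot f g := by
  rw [dot_comm, dot_smul_left, dot_comm]

omit [DecidableEq E] in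
@[simp] lemma dot_zero_left (f : E → ZMod 2) : dot 0 f = 0 := by simp [dot]

omit [DecidableEq E] in
@[simp] lemma dot_zero_right (f : E → ZMod 2) : dot f 0 = 0 := by simp [dot]

lemma dot_eq_sum_right {A : Finset E} {g : E → ZMod 2} (h : ∀ e, e ∉ A → g e = 0)
    (f : E → ZMod 2) : dot f g = ∑ e ∈ A, f e * g e := by
  unfold dot
  symm
  exact Finset.sum_subset (Finset.subset_univ _) (fun e _ he => by rw [h e he, mul_zero])

lemma dot_ind (f : E → ZMod 2) (A : Finset E) : dot f (ind A) = ∑ e ∈ A, f e := by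
  rw [dot_eq_sum_right (A := A) (fun e he => ind_of_notMem he)]
  exact Finset.sum_congr rfl (fun e he => by rw [ind_of_mem he, mul_one])

lemma ind_dot (f : E → ZMod 2) (A : Finset E) : dot (ind A) f = ∑ e ∈ A, f e := by
  rw [dot_comm, dot_ind]

lemma dot_ind_ind (A B : Finset E) :
    dot (ind A : E → ZMod 2) (ind B) = ((A ∩ B).card : ZMod 2) := by
  rw [dot_ind]
  simp [Finset.sum_ite_mem, Finset.inter_comm]

lemma dot_mask (A : Finset E) (f g : E → ZMod 2) : dot (mask A f) g = dot f (mask A g) := by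
  unfold dot
  exact Finset.sum_congr rfl (fun e _ => by by_cases h : e ∈ A <;> simp [h])

/-- The bilinear form. -/
def dotForm (E : Type) [Fintype E] : LinearMap.BilinForm (ZMod 2) (E → ZMod 2) :=
  LinearMap.mk₂ (ZMod 2) dot dot_add_left dot_smul_left dot_add_right dot_smul_right

omit [DecidableEq E] in
@[simp] lemma dotForm_apply (f g : E → ZMod 2) : dotForm E f g = dot f g := rfl

lemma dotForm_refl : (dotForm E).IsRefl := by
  intro f g h
  rw [dotForm_apply, dot_comm]; exact h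

lemma dotForm_nondeg : (dotForm E).Nondegenerate := by
  refine ⟨?_, ?_⟩
  · intro f h
    ext e
    have := h (ind {e})
    rw [dotForm_apply, dot_ind] at this
    simpa using this
  · intro f h
    ext e
    have := h (ind {e})
    rw [dotForm_apply, dot_comm, dot_ind] at this
    simpa using this

namespace BM

variable (M : BM E)

omit [Fintype E] [DecidableEq E] in
lemma ext' {M N : BM E} (h1 : M.S = N.S) (h2 : ∀ f, f ∈ M.R ↔ f ∈ N.R) : M = N := by
  cases M; cases N
  simp only at h1 h2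
  subst h1
  congr
  ext f
  exact h2 f

/-! ### Membership -/

omit [Fintype E] in
@[simp] lemma del_S (D : Finset E) : (M.del D).S = M.S \ D := rfl
omit [Fintype E] in
@[simp] lemma con_S (C : Finset E) : (M.con C).S = M.S \ C := rfl
omit [Fintype E] in
@[simp] lemma res_S (A : Finset E) : (M.res A).S = M.S ∩ A := rfl
omit [DecidableEq E] in
@[simp] lemma dual_S : M.dual.S = M.S := rfl
omit [DecidableEq E] in
@[simp] lemma dual_R : M.dual.R = M.Z := rfl

omit [Fintype E] in
lemma mem_con {C : Finset E} {f : E → ZMod 2} :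
    f ∈ (M.con C).R ↔ f ∈ M.R ∧ ∀ e ∈ C, f e = 0 := Iff.rfl

omit [Fintype E] in
lemma mem_del {D : Finset E} {f : E → ZMod 2} :
    f ∈ (M.del D).R ↔ ∃ g ∈ M.R, mask (M.S \ D) g = f := Iff.rfl

omit [Fintype E] in
lemma mem_del' {D : Finset E} {f : E → ZMod 2} :
    f ∈ (M.del D).R ↔
      (∀ e, e ∉ M.S \ D → f e = 0) ∧ ∃ g ∈ M.R, ∀ e ∈ M.S \ D, g e = f e := by
  constructor
  · rintro ⟨g, hg, rfl⟩
    exact ⟨fun e he => by simp only [mask_apply, if_neg he],
      g, hg, fun e he => by simp only [mask_apply, if_pos he]⟩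
  · rintro ⟨h1, g, hg, h2⟩
    refine ⟨g, hg, ?_⟩
    ext e
    by_cases he : e ∈ M.S \ D
    · rw [mask_apply, if_pos he, h2 e he]
    · rw [mask_apply, if_neg he, h1 e he]

omit [Fintype E] in
lemma mem_res {A : Finset E} {f : E → ZMod 2} :
    f ∈ (M.res A).R ↔ ∃ g ∈ M.R, mask (M.S ∩ A) g = f := Iff.rfl

omit [Fintype E] in
lemma mem_res' {A : Finset E} {f : E → ZMod 2} :
    f ∈ (M.res A).R ↔
      (∀ e, e ∉ M.S ∩ A → f e = 0) ∧ ∃ g ∈ M.R, ∀ e ∈ M.S ∩ A, g e = f e := by
  constructor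
  · rintro ⟨g, hg, rfl⟩
    exact ⟨fun e he => by simp only [mask_apply, if_neg he],
      g, hg, fun e he => by simp only [mask_apply, if_pos he]⟩
  · rintro ⟨h1, g, hg, h2⟩
    refine ⟨g, hg, ?_⟩
    ext e
    by_cases he : e ∈ M.S ∩ A
    · rw [mask_apply, if_pos he, h2 e he]
    · rw [mask_apply, if_neg he, h1 e he]

omit [DecidableEq E] in
lemma mem_Z {z : E → ZMod 2} :
    z ∈ M.Z ↔ (∀ e, e ∉ M.S → z e = 0) ∧ ∀ f ∈ M.R, dot f z = 0 := Iff.rfl

omit [DecidableEq E] in
lemma Z_supp {z : E → ZMod 2} (hz : z ∈ M.Z) {e : E} (he : e ∉ M.S) : z e = 0 := hz.1 e he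

omit [DecidableEq E] in
lemma dot_eq_zero {f z : E → ZMod 2} (hf : f ∈ M.R) (hz : z ∈ M.Z) : dot f z = 0 := hz.2 f hf

lemma spt_subset_of_mem {f : E → ZMod 2} (hf : f ∈ M.R) : spt f ⊆ M.S :=
  spt_subset.2 (fun e he => M.supp f hf e he)

lemma spt_subset_of_mem_Z {z : E → ZMod 2} (hz : z ∈ M.Z) : spt z ⊆ M.S :=
  spt_subset.2 (fun e he => hz.1 e he)

/-! ### Duality -/

/-- double dual on the level of vectors -/
lemma mem_R_iff {f : E → ZMod 2} :
    f ∈ M.R ↔ (∀ e, e ∉ M.S → f e = 0) ∧ ∀ z ∈ M.Z, dot f z = 0 := by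
  constructor
  · intro hf
    exact ⟨M.supp f hf, fun z hz => hz.2 f hf⟩
  · rintro ⟨h1, h2⟩
    have h3 : f ∈ (dotForm E).orthogonal ((dotForm E).orthogonal M.R) := by
      rw [LinearMap.BilinForm.mem_orthogonal_iff]
      intro z hz
      rw [LinearMap.BilinForm.mem_orthogonal_iff] at hz
      show dot z f = 0
      have h4 : mask M.S z ∈ M.Z := by
        refine ⟨fun e he => by simp [he], fun g hg => ?_⟩
        rw [← dot_mask, mask_eq_self (M.supp g hg)]
        exact hz g hg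
      have h5 := h2 _ h4
      rw [← dot_mask, mask_eq_self h1] at h5
      rw [dot_comm]; exact h5
    rwa [LinearMap.BilinForm.orthogonal_orthogonal dotForm_nondeg dotForm_refl] at h3

@[simp] lemma dual_dual : M.dual.dual = M := by
  refine ext' rfl (fun f => ?_)
  rw [M.mem_R_iff]
  show f ∈ M.dual.Z ↔ _
  rw [mem_Z]
  refine and_congr Iff.rfl ?_
  constructor
  · intro h z hz; rw [dot_comm]; exact h z hz
  · intro h z hz; rw [dot_comm]; exact h z hz

@[simp] lemma dual_Z : M.dual.Z = M.R := by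
  have := congrArg BM.R M.dual_dual
  exact this

/-- cycles of a deletion -/
lemma mem_Z_del {D : Finset E} {z : E → ZMod 2} :
    z ∈ (M.del D).Z ↔ z ∈ M.Z ∧ ∀ e ∈ D, z e = 0 := by
  constructor
  · rintro ⟨h1, h2⟩
    refine ⟨⟨fun e he => h1 e (fun h => he (Finset.mem_sdiff.1 h).1), fun f hf => ?_⟩,
      fun e he => h1 e (fun h => (Finset.mem_sdiff.1 h).2 he)⟩
    have := h2 _ ⟨f, hf, rfl⟩
    rw [dot_mask, mask_eq_self (A := M.S \ D) h1] at this
    exact this
  · rintro ⟨⟨h1, h2⟩, h3⟩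
    have h4 : ∀ e, e ∉ M.S \ D → z e = 0 := by
      intro e he
      by_cases h : e ∈ D
      · exact h3 e h
      · exact h1 e (fun h' => he (Finset.mem_sdiff.2 ⟨h', h⟩))
    refine ⟨h4, ?_⟩
    rintro _ ⟨g, hg, rfl⟩
    rw [dot_mask, mask_eq_self h4]
    exact h2 g hg

lemma dual_del (D : Finset E) : (M.del D).dual = M.dual.con D :=
  ext' rfl (fun _ => M.mem_Z_del)

lemma dual_con (C : Finset E) : (M.con C).dual = M.dual.del C := by
  have h := M.dual.dual_del C
  rw [dual_dual] at h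
  rw [← h, dual_dual]

/-- cycles of a contraction -/
lemma mem_Z_con {C : Finset E} {z : E → ZMod 2} :
    z ∈ (M.con C).Z ↔ ∃ w ∈ M.Z, mask (M.S \ C) w = z := by
  have h := congrArg BM.R (M.dual_con C)
  rw [dual_R] at h
  rw [h, mem_del]
  rfl

lemma mem_Z_con' {C : Finset E} {z : E → ZMod 2} :
    z ∈ (M.con C).Z ↔
      (∀ e, e ∉ M.S \ C → z e = 0) ∧ ∃ w ∈ M.Z, ∀ e ∈ M.S \ C, w e = z e := by
  have h := congrArg BM.R (M.dual_con C)
  rw [dual_R] at h
  rw [h, mem_del']
  rfl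

omit [Fintype E] in
lemma res_eq_del (A : Finset E) : M.res A = M.del (M.S \ A) := by
  have h : M.S ∩ A = M.S \ (M.S \ A) := by ext e; simp
  refine ext' h (fun f => ?_)
  rw [mem_res, mem_del, ← h]

/-- cycles of a restriction -/
lemma mem_Z_res {A : Finset E} {z : E → ZMod 2} :
    z ∈ (M.res A).Z ↔ z ∈ M.Z ∧ ∀ e, e ∉ A → z e = 0 := by
  rw [res_eq_del, mem_Z_del]
  refine and_congr_right (fun hz => ?_)
  constructor
  · intro h e he
    by_cases hS : e ∈ M.S
    · exact h e (Finset.mem_sdiff.2 ⟨hS, he⟩)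
    · exact hz.1 e hS
  · intro h e he
    exact h e (Finset.mem_sdiff.1 he).2

/-! ### Composition of minors -/

omit [Fintype E] in
@[simp] lemma del_empty : M.del ∅ = M := by
  refine ext' (by simp) (fun f => ?_)
  rw [mem_del]
  constructor
  · rintro ⟨g, hg, rfl⟩
    rwa [mask_eq_self (by simpa using M.supp g hg)]
  · intro hf
    exact ⟨f, hf, mask_eq_self (by simpa using M.supp f hf)⟩

omit [Fintype E] in
@[simp] lemma con_empty : M.con ∅ = M :=
  ext' (by simp) (fun f => by rw [mem_con]; simp)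

omit [Fintype E] in
lemma con_con (C C' : Finset E) : (M.con C).con C' = M.con (C ∪ C') := by
  refine ext' (by simp [sdiff_sdiff_left]) (fun f => ?_)
  simp only [mem_con, Finset.mem_union]
  constructor
  · rintro ⟨⟨h1, h2⟩, h3⟩
    exact ⟨h1, fun e he => he.elim (h2 e) (h3 e)⟩
  · rintro ⟨h1, h2⟩
    exact ⟨⟨h1, fun e he => h2 e (Or.inl he)⟩, fun e he => h2 e (Or.inr he)⟩

omit [Fintype E] in
lemma del_del (D D' : Finset E) : (M.del D).del D' = M.del (D ∪ D') := by
  have h : (M.S \ D) \ D' = M.S \ (D ∪ D') := by simp [sdiff_sdiff_left]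
  have h2 : (M.S \ D) \ D' ∩ (M.S \ D) = M.S \ (D ∪ D') := by ext e; simp; tauto
  refine ext' h (fun f => ?_)
  simp only [mem_del, del_S]
  constructor
  · rintro ⟨_, ⟨w, hw, rfl⟩, rfl⟩
    exact ⟨w, hw, by rw [mask_mask, h2]⟩
  · rintro ⟨w, hw, rfl⟩
    exact ⟨_, ⟨w, hw, rfl⟩, by rw [mask_mask, h2]⟩

omit [Fintype E] in
/-- deletion and contraction commute (disjoint sets) -/
lemma del_con {D C : Finset E} (h : Disjoint D C) : (M.del D).con C = (M.con C).del D := by
  refine ext' (by simp [sdiff_right_comm]) (fun f => ?_)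
  rw [mem_con, mem_del', mem_del']
  constructor
  · rintro ⟨⟨h1, g, hg, h2⟩, h3⟩
    refine ⟨fun e he => ?_, g, ⟨hg, fun e he => ?_⟩, fun e he => ?_⟩
    · by_cases hC : e ∈ C
      · exact h3 e hC
      · refine h1 e (fun h' => he ?_)
        simp only [con_S, Finset.mem_sdiff] at h' ⊢
        exact ⟨⟨h'.1, hC⟩, h'.2⟩
    · by_cases hS : e ∈ M.S
      · have hD : e ∉ D := fun h' => (Finset.disjoint_left.1 h h') he
        rw [h2 e (Finset.mem_sdiff.2 ⟨hS, hD⟩)]
        exact h3 e he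
      · exact M.supp g hg e hS
    · simp only [con_S, Finset.mem_sdiff] at he
      exact h2 e (Finset.mem_sdiff.2 ⟨he.1.1, he.2⟩)
  · rintro ⟨h1, g, ⟨hg, h0⟩, h2⟩
    have h5 : ∀ e ∈ C, f e = 0 := fun e he => h1 e (by simp [he])
    refine ⟨⟨fun e he => h1 e (fun h' => he ?_), g, hg, fun e he => ?_⟩, h5⟩
    · simp only [con_S, Finset.mem_sdiff] at h' ⊢
      exact ⟨h'.1.1, h'.2⟩
    · by_cases hC : e ∈ C
      · rw [h0 e hC, h5 e hC]
      · simp only [con_S, Finset.mem_sdiff] at he h2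
        exact h2 e ⟨⟨he.1, hC⟩, he.2⟩

omit [Fintype E] in
/-- only the part inside the ground set is deleted -/
lemma del_inter (D : Finset E) : M.del (D ∩ M.S) = M.del D := by
  have h : M.S \ (D ∩ M.S) = M.S \ D := by ext e; simp
  refine ext' h (fun f => ?_)
  rw [mem_del, mem_del, h]

omit [Fintype E] in
lemma con_inter (C : Finset E) : M.con (C ∩ M.S) = M.con C := by
  have h : M.S \ (C ∩ M.S) = M.S \ C := by ext e; simp
  refine ext' h (fun f => ?_)
  rw [mem_con, mem_con]
  refine and_congr_right (fun hf => ?_)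
  constructor
  · intro h e he
    by_cases hS : e ∈ M.S
    · exact h e (Finset.mem_inter.2 ⟨he, hS⟩)
    · exact M.supp f hf e hS
  · intro h e he
    exact h e (Finset.mem_inter.1 he).1

omit [Fintype E] in
/-- deleting elements which have been contracted does nothing -/
lemma con_del_sdiff (C D : Finset E) : (M.con C).del (D \ C) = (M.con C).del D := by
  rw [← del_inter, ← del_inter (M.con C) D]
  congr 1
  ext e; simp; tauto

end BM

open BM

/-! ### Minors -/

omit [Fintype E] in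
lemma Minor.refl (M : BM E) : Minor M M := ⟨∅, ∅, by simp⟩

omit [Fintype E] in
lemma minor_del (M : BM E) (D : Finset E) : Minor (M.del D) M := ⟨∅, D, by simp⟩

omit [Fintype E] in
lemma minor_con (M : BM E) (C : Finset E) : Minor (M.con C) M := ⟨C, ∅, by simp⟩

omit [Fintype E] in
lemma minor_res (M : BM E) (A : Finset E) : Minor (M.res A) M := by
  rw [res_eq_del]; exact minor_del _ _

omit [Fintype E] in
/-- normal form: `C`, `D` disjoint subsets of the ground set -/
lemma Minor.normal {N M : BM E} (h : Minor N M) : ∃ C D : Finset E, C ⊆ M.S ∧ D ⊆ M.S ∧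
    Disjoint C D ∧ N = (M.con C).del D ∧ N.S = M.S \ (C ∪ D) := by
  obtain ⟨C, D, rfl⟩ := h
  refine ⟨C ∩ M.S, (D ∩ M.S) \ C, Finset.inter_subset_right,
    Finset.sdiff_subset.trans Finset.inter_subset_right, ?_, ?_, ?_⟩
  · rw [Finset.disjoint_left]
    intro e he he'
    exact (Finset.mem_sdiff.1 he').2 (Finset.mem_inter.1 he).1
  · rw [con_inter, ← BM.del_inter (M.con C) D, ← BM.del_inter (M.con C) ((D ∩ M.S) \ C)]
    congr 1
    ext e; simp; tauto
  · ext e; simp; tauto

omit [Fintype E] in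
lemma Minor.trans {N' N M : BM E} (h1 : Minor N' N) (h2 : Minor N M) : Minor N' M := by
  obtain ⟨C', D', hC', hD', hCD', rfl, -⟩ := h1.normal
  obtain ⟨C, D, hC, hD, hCD, rfl, -⟩ := h2.normal
  refine ⟨C ∪ C', D ∪ D', ?_⟩
  have h3 : Disjoint D C' := by
    rw [Finset.disjoint_left]
    intro e he he'
    have := hC' he'
    simp at this
    exact this.2 he
  rw [BM.del_con _ h3, BM.con_con, BM.del_del]

lemma Minor.dual {N M : BM E} (h : Minor N M) : Minor N.dual M.dual := by
  obtain ⟨C, D, hC, hD, hCD, rfl, -⟩ := h.normal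
  refine ⟨D, C, ?_⟩
  rw [BM.dual_del, BM.dual_con, BM.del_con _ hCD]

namespace BM

variable (M : BM E)

/-! ### Rows and cycles inside a set -/

/-- the rows supported inside `A` -/
def RIn (A : Finset E) : Submodule (ZMod 2) (E → ZMod 2) where
  carrier := {f | f ∈ M.R ∧ ∀ e, e ∉ A → f e = 0}
  add_mem' := by
    rintro f g ⟨hf, hf'⟩ ⟨hg, hg'⟩
    exact ⟨M.R.add_mem hf hg, fun e he => by simp [hf' e he, hg' e he]⟩
  zero_mem' := ⟨M.R.zero_mem, fun e _ => rfl⟩
  smul_mem' := by
    rintro c f ⟨hf, hf'⟩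
    exact ⟨M.R.smul_mem c hf, fun e he => by simp [hf' e he]⟩

/-- the cycles supported inside `A` -/
def ZIn (A : Finset E) : Submodule (ZMod 2) (E → ZMod 2) := M.dual.RIn A

/-- dimension of the space of rows supported inside `A` -/
noncomputable def dR (A : Finset E) : ℕ := Module.finrank (ZMod 2) (M.RIn A)

/-- dimension of the space of cycles supported inside `A` -/
noncomputable def dZ (A : Finset E) : ℕ := Module.finrank (ZMod 2) (M.ZIn A)

/-- rank of the matroid -/
noncomputable def rk : ℕ := Module.finrank (ZMod 2) M.R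

/-- nullity of the matroid -/
noncomputable def nul : ℕ := Module.finrank (ZMod 2) M.Z

omit [Fintype E] [DecidableEq E] in
lemma mem_RIn {A : Finset E} {f : E → ZMod 2} :
    f ∈ M.RIn A ↔ f ∈ M.R ∧ ∀ e, e ∉ A → f e = 0 := Iff.rfl

omit [DecidableEq E] in
lemma mem_ZIn {A : Finset E} {z : E → ZMod 2} :
    z ∈ M.ZIn A ↔ z ∈ M.Z ∧ ∀ e, e ∉ A → z e = 0 := Iff.rfl

omit [DecidableEq E] in
@[simp] lemma dual_dR (A : Finset E) : M.dual.dR A = M.dZ A := rfl

@[simp] lemma dual_dZ (A : Finset E) : M.dual.dZ A = M.dR A := by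
  rw [← dual_dR, dual_dual]

omit [DecidableEq E] in
@[simp] lemma dual_rk : M.dual.rk = M.nul := rfl

lemma RIn_inf (A B : Finset E) : M.RIn A ⊓ M.RIn B = M.RIn (A ∩ B) := by
  ext f
  simp only [Submodule.mem_inf, mem_RIn, Finset.mem_inter]
  constructor
  · rintro ⟨⟨h1, h2⟩, _, h3⟩
    refine ⟨h1, fun e he => ?_⟩
    by_cases hA : e ∈ A
    · exact h3 e (fun hB => he ⟨hA, hB⟩)
    · exact h2 e hA
  · rintro ⟨h1, h2⟩
    exact ⟨⟨h1, fun e he => h2 e (fun h => he h.1)⟩, h1, fun e he => h2 e (fun h => he h.2)⟩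

omit [Fintype E] [DecidableEq E] in
lemma RIn_mono {A B : Finset E} (h : A ⊆ B) : M.RIn A ≤ M.RIn B :=
  fun _ hf => ⟨hf.1, fun e he => hf.2 e (fun h' => he (h h'))⟩

omit [DecidableEq E] in
lemma dR_mono {A B : Finset E} (h : A ⊆ B) : M.dR A ≤ M.dR B :=
  Submodule.finrank_mono (M.RIn_mono h)

omit [DecidableEq E] in
lemma dZ_mono {A B : Finset E} (h : A ⊆ B) : M.dZ A ≤ M.dZ B := M.dual.dR_mono h

lemma dR_super (A B : Finset E) : M.dR A + M.dR B ≤ M.dR (A ∪ B) + M.dR (A ∩ B) := by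
  unfold dR
  have h := Submodule.finrank_sup_add_finrank_inf_eq (M.RIn A) (M.RIn B)
  rw [RIn_inf] at h
  have h2 : M.RIn A ⊔ M.RIn B ≤ M.RIn (A ∪ B) :=
    sup_le (M.RIn_mono Finset.subset_union_left) (M.RIn_mono Finset.subset_union_right)
  have h3 := Submodule.finrank_mono h2
  omega

lemma dZ_super (A B : Finset E) : M.dZ A + M.dZ B ≤ M.dZ (A ∪ B) + M.dZ (A ∩ B) :=
  M.dual.dR_super A B

lemma RIn_congr {A B : Finset E} (h : A ∩ M.S = B ∩ M.S) : M.RIn A = M.RIn B := by
  have key : ∀ A B : Finset E, A ∩ M.S = B ∩ M.S → M.RIn A ≤ M.RIn B := by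
    intro A B h f hf
    refine ⟨hf.1, fun e he => ?_⟩
    by_cases hS : e ∈ M.S
    · refine hf.2 e (fun hA => he ?_)
      have := Finset.ext_iff.1 h e
      simp only [Finset.mem_inter] at this
      exact (this.1 ⟨hA, hS⟩).1
    · exact M.supp f hf.1 e hS
  exact le_antisymm (key A B h) (key B A h.symm)

lemma dR_congr {A B : Finset E} (h : A ∩ M.S = B ∩ M.S) : M.dR A = M.dR B := by
  unfold dR; rw [M.RIn_congr h]

lemma dZ_congr {A B : Finset E} (h : A ∩ M.S = B ∩ M.S) : M.dZ A = M.dZ B := M.dual.dR_congr h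

lemma RIn_of_S_subset {A : Finset E} (h : M.S ⊆ A) : M.RIn A = M.R := by
  ext f
  exact ⟨fun hf => hf.1, fun hf => ⟨hf, fun e he => M.supp f hf e (fun h' => he (h h'))⟩⟩

lemma dR_of_S_subset {A : Finset E} (h : M.S ⊆ A) : M.dR A = M.rk := by
  unfold dR rk; rw [M.RIn_of_S_subset h]

lemma dZ_of_S_subset {A : Finset E} (h : M.S ⊆ A) : M.dZ A = M.nul := M.dual.dR_of_S_subset h

lemma dR_S : M.dR M.S = M.rk := M.dR_of_S_subset (Finset.Subset.refl _)

lemma dZ_S : M.dZ M.S = M.nul := M.dual.dR_S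

@[simp] lemma dR_empty : M.dR ∅ = 0 := by
  unfold dR
  have : M.RIn ∅ = ⊥ := by
    rw [eq_bot_iff]
    rintro f ⟨_, h⟩
    rw [Submodule.mem_bot]
    ext e
    exact h e (by simp)
  rw [this]; exact finrank_bot _ _

@[simp] lemma dZ_empty : M.dZ ∅ = 0 := M.dual.dR_empty

lemma dR_eq_zero_iff {A : Finset E} :
    M.dR A = 0 ↔ ∀ f ∈ M.R, (∀ e, e ∉ A → f e = 0) → f = 0 := by
  unfold dR
  rw [Submodule.finrank_eq_zero, Submodule.eq_bot_iff]
  exact ⟨fun h f hf hf' => h f ⟨hf, hf'⟩, fun h f hf => h f hf.1 hf.2⟩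

lemma dZ_eq_zero_iff {A : Finset E} :
    M.dZ A = 0 ↔ ∀ z ∈ M.Z, (∀ e, e ∉ A → z e = 0) → z = 0 := M.dual.dR_eq_zero_iff

lemma dR_pos_iff {A : Finset E} :
    0 < M.dR A ↔ ∃ f ∈ M.R, f ≠ 0 ∧ ∀ e, e ∉ A → f e = 0 := by
  rw [Nat.pos_iff_ne_zero, Ne, dR_eq_zero_iff]
  push_neg
  exact ⟨fun ⟨f, h1, h2, h3⟩ => ⟨f, h1, h3, h2⟩, fun ⟨f, h1, h2, h3⟩ => ⟨f, h1, h3, h2⟩⟩

lemma dZ_pos_iff {A : Finset E} :
    0 < M.dZ A ↔ ∃ z ∈ M.Z, z ≠ 0 ∧ ∀ e, e ∉ A → z e = 0 := M.dual.dR_pos_iff

/-! ### Rank -/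

lemma r_add_dR (A : Finset E) : M.r A + M.dR Aᶜ = M.rk := by
  unfold r dR rk
  have h := LinearMap.finrank_range_add_finrank_ker ((mask A).domRestrict M.R)
  rw [LinearMap.range_domRestrict] at h
  rw [← h]
  congr 1
  have : M.RIn Aᶜ = (LinearMap.ker ((mask A).domRestrict M.R)).map M.R.subtype := by
    ext v
    constructor
    · rintro ⟨h1, h2⟩
      refine ⟨⟨v, h1⟩, ?_, rfl⟩
      simp only [SetLike.mem_coe, LinearMap.mem_ker, LinearMap.domRestrict_apply]
      exact mask_eq_zero_iff.2 (fun e he => h2 e (by simp [he]))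
    · rintro ⟨⟨w, hw⟩, h1, rfl⟩
      simp only [SetLike.mem_coe, LinearMap.mem_ker, LinearMap.domRestrict_apply] at h1
      rw [mask_eq_zero_iff] at h1
      exact ⟨hw, fun e he => h1 e (by simpa using he)⟩
  rw [this]
  exact (LinearEquiv.finrank_eq (Submodule.equivMapOfInjective _
    (Submodule.injective_subtype M.R) _)).symm

lemma r_add_dR_sdiff (A : Finset E) : M.r A + M.dR (M.S \ A) = M.rk := by
  rw [← M.r_add_dR A, M.dR_congr (A := M.S \ A) (B := Aᶜ)]
  ext e; simp; tauto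

lemma r_congr {A B : Finset E} (h : A ∩ M.S = B ∩ M.S) : M.r A = M.r B := by
  have h1 := M.r_add_dR A
  have h2 := M.r_add_dR B
  have h3 : M.dR Aᶜ = M.dR Bᶜ := by
    refine M.dR_congr ?_
    ext e
    have := Finset.ext_iff.1 h e
    simp only [Finset.mem_inter] at this
    simp only [Finset.mem_inter, Finset.mem_compl]
    tauto
  omega

lemma r_inter_S (A : Finset E) : M.r (A ∩ M.S) = M.r A := M.r_congr (by ext e; simp)

lemma r_mono {A B : Finset E} (h : A ⊆ B) : M.r A ≤ M.r B := by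
  have h1 := M.r_add_dR A
  have h2 := M.r_add_dR B
  have h3 := M.dR_mono (Finset.compl_subset_compl.2 h)
  omega

lemma r_submod (A B : Finset E) : M.r (A ∪ B) + M.r (A ∩ B) ≤ M.r A + M.r B := by
  have h1 := M.r_add_dR A
  have h2 := M.r_add_dR B
  have h3 := M.r_add_dR (A ∪ B)
  have h4 := M.r_add_dR (A ∩ B)
  have h5 := M.dR_super Aᶜ Bᶜ
  rw [← Finset.compl_inter, ← Finset.compl_union] at h5
  omega

lemma r_of_S_subset {A : Finset E} (h : M.S ⊆ A) : M.r A = M.rk := by
  have h1 := M.r_add_dR A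
  have h2 : M.dR Aᶜ = 0 := by
    rw [M.dR_congr (B := ∅), dR_empty]
    ext e; simp; intro h3 h4; exact h3 (h h4)
  omega

@[simp] lemma r_S : M.r M.S = M.rk := M.r_of_S_subset (Finset.Subset.refl _)

@[simp] lemma r_empty : M.r ∅ = 0 := by
  have h1 := M.r_add_dR ∅
  rw [M.dR_of_S_subset (by simp)] at h1
  omega

lemma r_le_rk (A : Finset E) : M.r A ≤ M.rk := by
  have h1 := M.r_add_dR A
  omega

lemma r_union_le (A B : Finset E) : M.r (A ∪ B) ≤ M.r A + M.r B := by
  have := M.r_submod A B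
  (clear * - this; omega)

lemma r_singleton_le (e : E) : M.r {e} ≤ 1 := by
  unfold r
  have h : M.R.map (mask {e}) ≤ Submodule.span (ZMod 2) {ind {e}} := by
    rintro _ ⟨v, _, rfl⟩
    rw [Submodule.mem_span_singleton]
    refine ⟨v e, ?_⟩
    ext f
    by_cases hf : f = e
    · subst hf; simp
    · simp [hf]
  exact (Submodule.finrank_mono h).trans
    (by simpa using finrank_span_le_card (R := ZMod 2) ({ind {e}} : Set (E → ZMod 2)))

lemma r_insert_le (A : Finset E) (e : E) : M.r (insert e A) ≤ M.r A + 1 := by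
  have h1 := M.r_submod A {e}
  have h2 := M.r_singleton_le e
  have : A ∪ {e} = insert e A := by ext f; simp
  rw [this] at h1
  omega

lemma r_le_card (A : Finset E) : M.r A ≤ A.card := by
  induction A using Finset.induction_on with
  | empty => simp
  | insert e A he ih =>
    have := M.r_insert_le A e
    rw [Finset.card_insert_of_notMem he]
    omega

/-- rank is one for an element in some row -/
lemma r_singleton_of_ne {e : E} {f : E → ZMod 2} (hf : f ∈ M.R) (he : f e ≠ 0) :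
    M.r {e} = 1 := by
  have h1 := M.r_singleton_le e
  have h2 : M.r {e} ≠ 0 := by
    intro h
    unfold r at h
    rw [Submodule.finrank_eq_zero, Submodule.eq_bot_iff] at h
    have := h _ ⟨f, hf, rfl⟩
    rw [mask_eq_zero_iff] at this
    exact he (this e (by simp))
  omega

lemma r_singleton_eq_zero_iff {e : E} : M.r {e} = 0 ↔ ∀ f ∈ M.R, f e = 0 := by
  constructor
  · intro h f hf
    by_contra h1
    have := M.r_singleton_of_ne hf h1
    omega
  · intro h
    unfold r
    rw [Submodule.finrank_eq_zero, Submodule.eq_bot_iff]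
    rintro _ ⟨f, hf, rfl⟩
    rw [mask_eq_zero_iff]
    intro x hx
    rw [Finset.mem_singleton] at hx
    subst hx
    exact h f hf

lemma finrank_range_mask (A : Finset E) :
    Module.finrank (ZMod 2) (mask (E := E) A).range = A.card := by
  let F : BM E := ⟨univ, ⊤, fun f _ e he => absurd (Finset.mem_univ e) he⟩
  have hr : ∀ B : Finset E, F.r B = Module.finrank (ZMod 2) (mask (E := E) B).range := by
    intro B
    show Module.finrank (ZMod 2) ((⊤ : Submodule (ZMod 2) (E → ZMod 2)).map (mask B)) = _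
    rw [Submodule.map_top]
  have hd : F.dR Aᶜ = F.r Aᶜ := by
    rw [hr]
    unfold dR
    have : F.RIn Aᶜ = (mask (E := E) Aᶜ).range := by
      ext f
      constructor
      · rintro ⟨_, h⟩
        exact ⟨f, mask_eq_self h⟩
      · rintro ⟨g, rfl⟩
        exact ⟨Submodule.mem_top, fun e he => by rw [mask_apply, if_neg he]⟩
    rw [this]
  have h1 := F.r_add_dR A
  have h2 : F.rk = Fintype.card E := by
    show Module.finrank (ZMod 2) (⊤ : Submodule (ZMod 2) (E → ZMod 2)) = _
    simp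
  have h3 := F.r_le_card A
  have h4 := F.r_le_card Aᶜ
  have h5 := Finset.card_compl A
  have h6 := Finset.card_le_univ A
  rw [← hr]
  omega

/-- rank plus nullity -/
lemma rk_add_nul : M.rk + M.nul = M.S.card := by
  unfold rk nul
  have h1 := LinearMap.BilinForm.finrank_orthogonal dotForm_nondeg M.R
  have h0 : Module.finrank (ZMod 2) (E → ZMod 2) = Fintype.card E := by simp
  rw [h0] at h1
  -- the orthogonal complement is `Z` plus the vectors supported outside `S`
  have h2 : (dotForm E).orthogonal M.R = M.Z ⊔ (mask (E := E) M.Sᶜ).range := by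
    ext f
    constructor
    · intro hf
      rw [LinearMap.BilinForm.mem_orthogonal_iff] at hf
      rw [Submodule.mem_sup]
      refine ⟨mask M.S f, ⟨fun e he => by simp [he], fun g hg => ?_⟩, mask M.Sᶜ f,
        ⟨f, rfl⟩, ?_⟩
      · rw [← dot_mask, mask_eq_self (M.supp g hg)]
        exact hf g hg
      · ext e
        by_cases h : e ∈ M.S <;> simp [h]
    · intro hf
      rw [LinearMap.BilinForm.mem_orthogonal_iff]
      rw [Submodule.mem_sup] at hf
      obtain ⟨y, hy, _, ⟨w, rfl⟩, rfl⟩ := hf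
      intro g hg
      show dot g (y + mask M.Sᶜ w) = 0
      rw [dot_add_right, hy.2 g hg, ← dot_mask]
      have : mask M.Sᶜ g = 0 := mask_eq_zero_iff.2 (fun e he => M.supp g hg e (by simpa using he))
      rw [this]; simp
  have h3 : M.Z ⊓ (mask (E := E) M.Sᶜ).range = ⊥ := by
    rw [Submodule.eq_bot_iff]
    rintro f ⟨hf, ⟨w, rfl⟩⟩
    ext e
    by_cases h : e ∈ M.S
    · simp [h]
    · exact hf.1 e h
  have h4 := Submodule.finrank_sup_add_finrank_inf_eq M.Z (mask (E := E) M.Sᶜ).range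
  rw [h3, finrank_bot, ← h2] at h4
  have h5 := finrank_range_mask (M.Sᶜ)
  have h6 : Module.finrank (ZMod 2) M.R ≤ Fintype.card E := by
    rw [← h0]; exact Submodule.finrank_le _
  have h7 := Finset.card_compl M.S
  have h8 := Finset.card_le_univ M.S
  omega

lemma ZIn_eq_res (A : Finset E) : M.ZIn A = (M.res A).Z := by
  ext z
  rw [mem_Z_res, mem_ZIn]

lemma rk_res {A : Finset E} (hA : A ⊆ M.S) : (M.res A).rk = M.r A := by
  have : M.S ∩ A = A := Finset.inter_eq_right.2 hA
  show Module.finrank (ZMod 2) (M.R.map (mask (M.S ∩ A))) = _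
  rw [this]; rfl

/-- rank and nullity of a subset of the ground set -/
lemma r_add_dZ {A : Finset E} (hA : A ⊆ M.S) : M.r A + M.dZ A = A.card := by
  have h := (M.res A).rk_add_nul
  rw [M.rk_res hA, res_S, Finset.inter_eq_right.2 hA] at h
  have h2 : (M.res A).nul = M.dZ A := by
    show Module.finrank (ZMod 2) (M.res A).Z = Module.finrank (ZMod 2) (M.ZIn A)
    rw [ZIn_eq_res]
  rw [h2] at h
  exact h

/-- dual rank and `dR` of a subset of the ground set -/
lemma dual_r_add_dR {A : Finset E} (hA : A ⊆ M.S) : M.dual.r A + M.dR A = A.card := by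
  have := M.dual.r_add_dZ (A := A) hA
  rwa [dual_dZ] at this

lemma dual_r_add_dZ (A : Finset E) : M.dual.r A + M.dZ (M.S \ A) = M.nul :=
  M.dual.r_add_dR_sdiff A

/-- formula for the dual rank -/
lemma dual_r_add_rk {A : Finset E} (hA : A ⊆ M.S) :
    M.dual.r A + M.rk = A.card + M.r (M.S \ A) := by
  have h1 := M.dual_r_add_dZ A
  have h2 := M.r_add_dZ (A := M.S \ A) Finset.sdiff_subset
  have h3 := M.rk_add_nul
  have h4 := Finset.card_sdiff_add_card_eq_card hA
  (clear * - h1 h2 h3 h4; omega)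

/-- `e` is in the span of `A` -/
lemma r_insert_eq_iff {A : Finset E} {e : E} (hA : A ⊆ M.S) (he : e ∈ M.S) (heA : e ∉ A) :
    M.r (insert e A) = M.r A ↔
      ∃ z ∈ M.Z, z e = 1 ∧ ∀ x, x ∉ insert e A → z x = 0 := by
  have h1 := M.r_add_dZ hA
  have h2 := M.r_add_dZ (A := insert e A) (Finset.insert_subset he hA)
  rw [Finset.card_insert_of_notMem heA] at h2
  have h3 := M.dZ_mono (Finset.subset_insert e A)
  constructor
  · intro h
    have h4 : M.dZ A < M.dZ (insert e A) := by omega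
    by_contra hcon
    push_neg at hcon
    have : M.ZIn (insert e A) ≤ M.ZIn A := by
      rintro z ⟨hz, hz2⟩
      refine ⟨hz, fun x hx => ?_⟩
      by_cases hxe : x = e
      · subst hxe
        by_contra h5
        obtain ⟨y, hy1, hy2⟩ := hcon z hz (z_ne_zero.1 h5)
        exact hy2 (hz2 y hy1)
      · exact hz2 x (by simp [hxe, hx])
    have := Submodule.finrank_mono this
    unfold dZ at h4
    omega
  · rintro ⟨z, hz, hze, hz2⟩
    have h4 : M.ZIn A < M.ZIn (insert e A) := by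
      refine lt_of_le_of_ne (M.dual.RIn_mono (Finset.subset_insert e A)) (fun h => ?_)
      have h5 : z ∈ M.ZIn (insert e A) := ⟨hz, hz2⟩
      rw [← h] at h5
      have := h5.2 e heA
      rw [hze] at this
      exact one_ne_zero this
    have h5 := Submodule.finrank_lt_finrank_of_lt h4
    have h6 := M.r_mono (Finset.subset_insert e A)
    unfold dZ at h1 h2
    omega

/-! ### Connectivity -/

lemma lam_add_dR (A : Finset E) : M.lam A + M.dR A + M.dR (M.S \ A) = M.rk := by
  have h1 := M.r_add_dR_sdiff A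
  have h2 := M.r_add_dR_sdiff (M.S \ A)
  have h3 : M.dR (M.S \ (M.S \ A)) = M.dR A := M.dR_congr (by ext e; simp)
  have h4 := M.dR_super A (M.S \ A)
  rw [M.dR_of_S_subset (A := A ∪ M.S \ A) (by intro e he; simp; tauto)] at h4
  have h5 : A ∩ (M.S \ A) = ∅ := by ext e; simp
  rw [h5, dR_empty] at h4
  unfold lam
  rw [r_S]
  omega

lemma lam_add_rk (A : Finset E) : M.lam A + M.rk = M.r A + M.r (M.S \ A) := by
  have h1 := M.r_add_dR_sdiff A
  have h2 := M.r_add_dR_sdiff (M.S \ A)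
  have h3 : M.dR (M.S \ (M.S \ A)) = M.dR A := M.dR_congr (by ext e; simp)
  have h4 := M.lam_add_dR A
  omega

lemma lam_congr {A B : Finset E} (h : A ∩ M.S = B ∩ M.S) : M.lam A = M.lam B := by
  have h1 := M.lam_add_rk A
  have h2 := M.lam_add_rk B
  have h3 := M.r_congr h
  have h4 : M.S \ A = M.S \ B := by
    ext e
    have := Finset.ext_iff.1 h e
    simp only [Finset.mem_inter] at this
    simp only [Finset.mem_sdiff]
    tauto
  rw [h4] at h1
  omega

lemma lam_add_dZ (A : Finset E) : M.lam A + M.dZ A + M.dZ (M.S \ A) = M.nul := by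
  have h0 : M.dZ A = M.dZ (A ∩ M.S) := M.dZ_congr (by ext e; simp)
  have h0' : M.r A = M.r (A ∩ M.S) := (M.r_inter_S A).symm
  have h1 := M.lam_add_rk A
  have h2 := M.r_add_dZ (A := A ∩ M.S) Finset.inter_subset_right
  have h3 := M.r_add_dZ (A := M.S \ A) Finset.sdiff_subset
  have h4 := M.rk_add_nul
  have h5 : (A ∩ M.S).card + (M.S \ A).card = M.S.card := by
    rw [Finset.inter_comm]; exact Finset.card_inter_add_card_sdiff M.S A
  omega

@[simp] lemma lam_dual (A : Finset E) : M.dual.lam A = M.lam A := by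
  have h1 := M.lam_add_dZ A
  have h2 := M.dual.lam_add_dR A
  rw [dual_dR, dual_S, dual_dR, dual_rk] at h2
  omega

@[simp] lemma lam_compl (A : Finset E) : M.lam (M.S \ A) = M.lam A := by
  have h1 := M.lam_add_rk A
  have h2 := M.lam_add_rk (M.S \ A)
  have h3 : M.r (M.S \ (M.S \ A)) = M.r A := M.r_congr (by ext e; simp)
  omega

lemma lam_submod (A B : Finset E) : M.lam (A ∪ B) + M.lam (A ∩ B) ≤ M.lam A + M.lam B := by
  have h1 := M.dR_super A B
  have h2 := M.dR_super (M.S \ A) (M.S \ B)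
  have h3 : M.S \ A ∪ M.S \ B = M.S \ (A ∩ B) := by ext e; simp; tauto
  have h4 : (M.S \ A) ∩ (M.S \ B) = M.S \ (A ∪ B) := by ext e; simp; tauto
  rw [h3, h4] at h2
  have h5 := M.lam_add_dR A
  have h6 := M.lam_add_dR B
  have h7 := M.lam_add_dR (A ∪ B)
  have h8 := M.lam_add_dR (A ∩ B)
  (clear * - h1 h2 h5 h6 h7 h8; omega)

lemma lam_le_r (A : Finset E) : M.lam A ≤ M.r A := by
  have h1 := M.lam_add_rk A
  have h2 := M.r_le_rk (M.S \ A)
  omega

lemma lam_le_card (A : Finset E) : M.lam A ≤ A.card := (M.lam_le_r A).trans (M.r_le_card A)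

lemma lam_insert_le (A : Finset E) (e : E) : M.lam (insert e A) ≤ M.lam A + 1 := by
  have h1 := M.lam_submod A {e}
  have h3 := M.lam_le_card {e}
  have : A ∪ {e} = insert e A := by ext f; simp
  rw [this] at h1
  simp at h3
  (clear * - h1 h3; omega)

/-- `lam A = r A - dim R(A)` -/
lemma lam_add_dR_eq_r (A : Finset E) : M.lam A + M.dR A = M.r A := by
  have h1 := M.lam_add_dR A
  have h2 := M.r_add_dR_sdiff A
  omega

/-! ### Rank and connectivity of minors -/

lemma dR_con (C A : Finset E) : (M.con C).dR A = M.dR (A \ C) := by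
  unfold dR
  have : (M.con C).RIn A = M.RIn (A \ C) := by
    ext f
    rw [mem_RIn, mem_con, mem_RIn]
    constructor
    · rintro ⟨⟨h1, h2⟩, h3⟩
      refine ⟨h1, fun e he => ?_⟩
      by_cases h : e ∈ C
      · exact h2 e h
      · exact h3 e (fun h' => he (Finset.mem_sdiff.2 ⟨h', h⟩))
    · rintro ⟨h1, h2⟩
      exact ⟨⟨h1, fun e he => h2 e (by simp [he])⟩, fun e he => h2 e (by simp [he])⟩
  rw [this]

lemma dZ_del (D A : Finset E) : (M.del D).dZ A = M.dZ (A \ D) := by
  rw [← dual_dR, dual_del, dR_con, dual_dR]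

lemma rk_con_add (C : Finset E) : (M.con C).rk + M.r C = M.rk := by
  have h1 := M.r_add_dR C
  have h2 := (M.con C).dR_of_S_subset (A := Finset.univ) (Finset.subset_univ _)
  rw [dR_con] at h2
  have h3 : Finset.univ \ C = Cᶜ := by ext e; simp
  rw [h3] at h2
  omega

lemma r_con_add (C A : Finset E) : (M.con C).r A + M.r C = M.r (A ∪ C) := by
  have h1 := (M.con C).r_add_dR A
  rw [dR_con] at h1
  have h2 := M.rk_con_add C
  have h3 := M.r_add_dR (A ∪ C)
  have : Aᶜ \ C = (A ∪ C)ᶜ := by ext e; simp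
  rw [this] at h1
  omega

lemma r_del (D A : Finset E) : (M.del D).r A = M.r (A \ D) := by
  have h : (M.del D).R.map (mask A) = M.R.map (mask ((A \ D) ∩ M.S)) := by
    ext f
    constructor
    · rintro ⟨_, ⟨g, hg, rfl⟩, rfl⟩
      refine ⟨g, hg, ?_⟩
      rw [mask_mask]
      congr 2
      ext e; simp; tauto
    · rintro ⟨g, hg, rfl⟩
      refine ⟨_, ⟨g, hg, rfl⟩, ?_⟩
      rw [mask_mask]
      congr 2
      ext e; simp; tauto
  rw [← M.r_inter_S (A \ D)]
  unfold r
  rw [h]

lemma rk_del (D : Finset E) : (M.del D).rk = M.r (M.S \ D) := by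
  rw [← (M.del D).r_S, r_del]
  exact M.r_congr (by ext e; simp)

lemma dR_del_add (D A : Finset E) : (M.del D).dR A + M.dR D = M.dR (A ∪ D) := by
  have h1 := (M.del D).r_add_dR_sdiff ((M.del D).S \ A)
  have h2 : (M.del D).dR ((M.del D).S \ ((M.del D).S \ A)) = (M.del D).dR A :=
    (M.del D).dR_congr (by ext e; simp)
  rw [h2, r_del, rk_del, del_S] at h1
  have h3 := M.r_add_dR_sdiff (M.S \ D)
  have h4 : M.dR (M.S \ (M.S \ D)) = M.dR D := M.dR_congr (by ext e; simp)
  have h5 := M.r_add_dR_sdiff (((M.S \ D) \ A) \ D)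
  have h6 : M.dR (M.S \ (((M.S \ D) \ A) \ D)) = M.dR (A ∪ D) :=
    M.dR_congr (by ext e; simp; tauto)
  (clear * - h1 h2 h3 h4 h5 h6; omega)

lemma dZ_con_add (C A : Finset E) : (M.con C).dZ A + M.dZ C = M.dZ (A ∪ C) := by
  have := M.dual.dR_del_add C A
  rw [← dual_con] at this
  exact this

lemma lam_con_add (C A : Finset E) :
    (M.con C).lam A + M.rk + M.r C = M.r (A ∪ C) + M.r ((M.S \ A) ∪ C) := by
  have h0 := (M.con C).lam_add_rk A
  have h1 := M.r_con_add C A
  have h2 := M.r_con_add C ((M.con C).S \ A)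
  have h3 := M.rk_con_add C
  have : ((M.con C).S \ A) ∪ C = (M.S \ A) ∪ C := by
    ext e; simp; tauto
  rw [this] at h2
  omega

lemma lam_del_add (D A : Finset E) :
    (M.del D).lam A + M.r (M.S \ D) = M.r (A \ D) + M.r ((M.S \ A) \ D) := by
  have h0 := (M.del D).lam_add_rk A
  rw [r_del, rk_del, r_del, del_S] at h0
  have : ((M.S \ D) \ A) \ D = (M.S \ A) \ D := by ext e; simp; tauto
  rw [this] at h0
  exact h0

lemma lam_con_le (C A : Finset E) : (M.con C).lam A ≤ M.lam A := by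
  have h0 := M.lam_con_add C A
  have h0' := M.lam_add_rk A
  have h1 := M.r_submod A C
  have h2 := M.r_submod (M.S \ A) C
  have h3 := M.r_submod (A ∩ C) ((M.S \ A) ∩ C)
  have h4 := M.r_congr (A := (A ∩ C) ∪ ((M.S \ A) ∩ C)) (B := C) (by
    ext e; simp; tauto)
  omega

lemma lam_del_le (D A : Finset E) : (M.del D).lam A ≤ M.lam A := by
  have h := M.dual.lam_con_le D A
  rwa [← dual_del, lam_dual, lam_dual] at h

end BM

lemma Minor.lam_le {N M : BM E} (h : Minor N M) (A : Finset E) : N.lam A ≤ M.lam A := by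
  obtain ⟨C, D, rfl⟩ := h
  exact ((M.con C).lam_del_le D A).trans (M.lam_con_le C A)

namespace BM

variable (M : BM E)

/-- uncrossing a deletion and a contraction of one element -/
lemma uncross {e : E} (he : e ∈ M.S) {A C : Finset E} (hA : e ∉ A) (hC : e ∉ C) :
    M.lam (A ∩ C) + M.lam (insert e (A ∪ C)) ≤ (M.del {e}).lam A + (M.con {e}).lam C + 1 := by
  have g1 := M.lam_con_add {e} C
  have g2 := M.lam_del_add {e} A
  have g3 := M.lam_add_rk (A ∩ C)
  have g4 := M.lam_add_rk (insert e (A ∪ C))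
  have h1 := M.r_submod A (C ∪ {e})
  have h2 := M.r_submod ((M.S \ A) \ {e}) ((M.S \ C) ∪ {e})
  have h3 : A ∪ (C ∪ {e}) = insert e (A ∪ C) := by ext f; simp
  have h4 : A ∩ (C ∪ {e}) = A ∩ C := by
    ext f
    simp only [Finset.mem_inter, Finset.mem_union, Finset.mem_singleton]
    constructor
    · rintro ⟨h5, h6 | h6⟩
      · exact ⟨h5, h6⟩
      · subst h6; exact absurd h5 hA
    · rintro ⟨h5, h6⟩; exact ⟨h5, Or.inl h6⟩
  have h5 : ((M.S \ A) \ {e}) ∪ ((M.S \ C) ∪ {e}) = M.S \ (A ∩ C) := by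
    ext f
    simp only [Finset.mem_inter, Finset.mem_union, Finset.mem_singleton, Finset.mem_sdiff]
    by_cases hf : f = e
    · subst hf; simp [he, hA]
    · simp [hf]; tauto
  have h6 : ((M.S \ A) \ {e}) ∩ ((M.S \ C) ∪ {e}) = M.S \ (insert e (A ∪ C)) := by
    ext f
    simp only [Finset.mem_inter, Finset.mem_union, Finset.mem_singleton, Finset.mem_sdiff,
      Finset.mem_insert]
    tauto
  rw [h3, h4] at h1
  rw [h5, h6] at h2
  have h7 : A \ {e} = A := by
    ext f
    simp only [Finset.mem_sdiff, Finset.mem_singleton]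
    constructor
    · exact fun h => h.1
    · exact fun h => ⟨h, fun h' => hA (h' ▸ h)⟩
  rw [h7] at g2
  have h8 := M.r_singleton_le e
  have h9 := M.r_le_rk (M.S \ {e})
  omega

end BM

end SEY

end

section

/-!
Basic API for the Seymour project, second part: 3-connected matroids (`TC`), minimal cycles,
`HasMinor`, `IsIso`, `NoF`, duality for the concrete matroids.
-/

namespace SEY

open Finset Submodule BM

variable {E : Type} [Fintype E] [DecidableEq E]

namespace BM

variable {M : BM E}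

/-! ### 3-connected matroids -/

lemma TC.card (h : M.TC) : 4 ≤ M.S.card := h.1

lemma TC.of_lam_zero (h : M.TC) {A : Finset E} (hA : A ⊆ M.S) (h0 : M.lam A = 0) :
    A = ∅ ∨ A = M.S := (h.2 A hA).1 h0

lemma TC.of_lam_one (h : M.TC) {A : Finset E} (hA : A ⊆ M.S) (h0 : M.lam A ≤ 1) :
    A.card ≤ 1 ∨ (M.S \ A).card ≤ 1 := (h.2 A hA).2 h0

lemma TC.two_le_lam (h : M.TC) {A : Finset E} (hA : A ⊆ M.S) (h1 : 2 ≤ A.card)
    (h2 : 2 ≤ (M.S \ A).card) : 2 ≤ M.lam A := by
  by_contra h3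
  rcases h.of_lam_one hA (by omega) with h4 | h4 <;> omega

lemma TC.one_le_lam (h : M.TC) {A : Finset E} (hA : A ⊆ M.S) (h1 : A ≠ ∅)
    (h2 : A ≠ M.S) : 1 ≤ M.lam A := by
  by_contra h3
  rcases h.of_lam_zero hA (by omega) with h4 | h4
  · exact h1 h4
  · exact h2 h4

lemma TC.dual (h : M.TC) : M.dual.TC := by
  refine ⟨h.1, fun A hA => ?_⟩
  rw [lam_dual]
  exact h.2 A hA

/-- every nonzero row of a 3-connected matroid has weight at least 3 -/
lemma TC.row_weight (h : M.TC) {f : E → ZMod 2} (hf : f ∈ M.R) (h0 : f ≠ 0) :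
    3 ≤ (spt f).card := by
  by_contra hlt
  have hA := M.spt_subset_of_mem hf
  have h1 : 0 < M.dR (spt f) :=
    M.dR_pos_iff.2 ⟨f, hf, h0, fun e he => notMem_spt.1 he⟩
  have h2 := M.lam_add_dR_eq_r (spt f)
  have h3 := M.r_le_card (spt f)
  have h4 : (spt f).card ≠ 0 := by
    rw [Ne, Finset.card_eq_zero, spt_eq_empty]; exact h0
  have h5 := Finset.card_sdiff_add_card_eq_card hA
  have h6 := h.card
  by_cases h7 : (spt f).card = 1
  · rcases h.of_lam_zero hA (by omega) with h8 | h8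
    · rw [h8] at h4; simp at h4
    · rw [← h8] at h6; omega
  · rcases h.of_lam_one hA (by omega) with h8 | h8 <;> omega

/-- every nonzero cycle of a 3-connected matroid has weight at least 3 -/
lemma TC.cycle_weight (h : M.TC) {z : E → ZMod 2} (hz : z ∈ M.Z) (h0 : z ≠ 0) :
    3 ≤ (spt z).card := h.dual.row_weight (f := z) hz h0

lemma TC.exists_cycle (h : M.TC) {e : E} (he : e ∈ M.S) : ∃ z ∈ M.Z, z e = 1 := by
  by_contra hcon
  push_neg at hcon
  have h1 : ind {e} ∈ M.R := by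
    rw [mem_R_iff]
    refine ⟨fun x hx => ?_, fun z hz => ?_⟩
    · rw [ind_of_notMem]
      simp only [Finset.mem_singleton]
      rintro rfl
      exact hx he
    · rw [ind_dot, Finset.sum_singleton]
      exact z_ne_one.1 (hcon z hz)
  have h2 := h.row_weight h1 (by rw [Ne, ind_eq_zero]; simp)
  rw [spt_ind, Finset.card_singleton] at h2
  (clear * - h2; omega)

lemma TC.exists_cycle_ne (h : M.TC) {e e' : E} (he : e ∈ M.S) (he' : e' ∈ M.S) (hne : e ≠ e') :
    ∃ z ∈ M.Z, z e = 1 ∧ z e' = 0 := by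
  by_contra hcon
  push_neg at hcon
  obtain ⟨w, hw, hw1⟩ := h.exists_cycle he'
  have h0 : ∀ z ∈ M.Z, z e = z e' := by
    intro z hz
    rcases zcases (z e) with h1 | h1
    · rcases zcases (z e') with h2 | h2
      · rw [h1, h2]
      · exfalso
        rcases zcases (w e) with h3 | h3
        · -- no cycle with `e` at all would contradict `exists_cycle`
          obtain ⟨u, hu, hu1⟩ := h.exists_cycle he
          have hu2 := z_ne_zero.1 (hcon u hu hu1)
          have h4 := hcon (u + z) (M.Z.add_mem hu hz) (by simp [hu1, h1])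
          exact h4 (by simp [hu2, h2, z_add_self])
        · have h5 := z_ne_zero.1 (hcon w hw h3)
          have h4 := hcon (w + z) (M.Z.add_mem hw hz) (by simp [h3, h1])
          exact h4 (by simp [h5, h2, z_add_self])
    · rw [h1, z_ne_zero.1 (hcon z hz h1)]
  have h1 : ind {e, e'} ∈ M.R := by
    rw [mem_R_iff]
    refine ⟨fun x hx => ?_, fun z hz => ?_⟩
    · rw [ind_of_notMem]
      simp only [Finset.mem_insert, Finset.mem_singleton]
      rintro (rfl | rfl)
      · exact hx he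
      · exact hx he'
    · rw [ind_dot, Finset.sum_pair hne, z_add_eq_zero]
      exact h0 z hz
  have h2 := h.row_weight h1 (by rw [Ne, ind_eq_zero]; simp)
  rw [spt_ind, Finset.card_pair hne] at h2
  omega

lemma TC.exists_row_ne (h : M.TC) {e e' : E} (he : e ∈ M.S) (he' : e' ∈ M.S) (hne : e ≠ e') :
    ∃ f ∈ M.R, f e = 1 ∧ f e' = 0 := by
  obtain ⟨z, hz, h1⟩ := h.dual.exists_cycle_ne (e := e) (e' := e') he he' hne
  rw [dual_Z] at hz
  exact ⟨z, hz, h1⟩

lemma TC.not_ser (h : M.TC) {e e' : E} (he : e ∈ M.S) (he' : e' ∈ M.S) (hne : e ≠ e') :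
    ¬ M.Ser e e' := by
  intro hs
  obtain ⟨z, hz, h1, h2⟩ := h.exists_cycle_ne he he' hne
  have := hs z hz
  rw [h1, h2] at this
  exact one_ne_zero this

/-- sets with at most two elements are independent -/
lemma TC.r_small (h : M.TC) {A : Finset E} (hA : A ⊆ M.S) (h2 : A.card ≤ 2) :
    M.r A = A.card := by
  have h1 := M.r_add_dZ hA
  have h3 : M.dZ A = 0 := by
    rw [dZ_eq_zero_iff]
    intro z hz hzA
    by_contra h0
    have h4 := h.cycle_weight hz h0
    have h5 := Finset.card_le_card (spt_subset.2 hzA)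
    omega
  (clear * - h1 h3; omega)

lemma TC.r_singleton (h : M.TC) {e : E} (he : e ∈ M.S) : M.r {e} = 1 := by
  rw [h.r_small (by simpa using he) (by simp)]; simp

lemma TC.r_pair (h : M.TC) {e e' : E} (he : e ∈ M.S) (he' : e' ∈ M.S) (hne : e ≠ e') :
    M.r {e, e'} = 2 := by
  rw [h.r_small (by intro x; simp; rintro (rfl | rfl) <;> assumption)
    (by rw [Finset.card_pair hne]), Finset.card_pair hne]

lemma TC.lam_singleton (h : M.TC) {e : E} (he : e ∈ M.S) : M.lam {e} = 1 := by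
  have h1 := h.one_le_lam (A := {e}) (by simpa using he) (by simp) (by
    intro h2
    have := h.card
    rw [← h2] at this
    simp at this)
  have h2 := M.lam_le_card {e}
  simp at h2
  omega

end BM

/-! ### Minimal vectors of a space -/

/-- `c` is a minimal nonzero vector of `Z` -/
def IsMin (Z : Submodule (ZMod 2) (E → ZMod 2)) (c : E → ZMod 2) : Prop :=
  c ∈ Z ∧ c ≠ 0 ∧ ∀ w ∈ Z, w ≠ 0 → spt w ⊆ spt c → w = c

lemma spt_add_of_subset {z w : E → ZMod 2} (h : spt w ⊆ spt z) :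
    spt (z + w) = spt z \ spt w := by
  rw [spt_add, symmDiff_def, Finset.sup_eq_union]
  ext e
  simp only [Finset.mem_union, Finset.mem_sdiff]
  constructor
  · rintro (h1 | h1)
    · exact h1
    · exact absurd (h h1.1) h1.2
  · exact Or.inl

/-- every nonzero vector contains a minimal one through a given element of its support -/
lemma exists_isMin (Z : Submodule (ZMod 2) (E → ZMod 2)) :
    ∀ (n : ℕ) (z : E → ZMod 2), (spt z).card ≤ n → z ∈ Z → ∀ e, z e = 1 →
      ∃ c, IsMin Z c ∧ c e = 1 ∧ spt c ⊆ spt z := by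
  intro n
  induction n with
  | zero =>
    intro z hn hz e he
    have := Finset.card_eq_zero.1 (Nat.le_zero.1 hn)
    have h2 := mem_spt'.2 he
    rw [this] at h2
    simp at h2
  | succ n ih =>
    intro z hn hz e he
    by_cases hmin : ∀ w ∈ Z, w ≠ 0 → spt w ⊆ spt z → w = z
    · refine ⟨z, ⟨hz, ?_, hmin⟩, he, Finset.Subset.refl _⟩
      rintro rfl
      simp at he
    · push_neg at hmin
      obtain ⟨w, hw, hw0, hws, hwz⟩ := hmin
      have hlt : (spt w).card < (spt z).card := by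
        refine Finset.card_lt_card (lt_of_le_of_ne hws (fun h => hwz ?_))
        have := congrArg (ind (E := E)) h
        rwa [ind_spt, ind_spt] at this
      rcases zcases (w e) with h1 | h1
      · have hz2 : spt (z + w) = spt z \ spt w := spt_add_of_subset hws
        have hpos : (spt w).card ≠ 0 := by
          rw [Ne, Finset.card_eq_zero, spt_eq_empty]; exact hw0
        have h3 := Finset.card_sdiff_add_card_eq_card hws
        obtain ⟨c, hc, hce, hcs⟩ := ih (z + w) (by rw [hz2]; omega) (Z.add_mem hz hw) e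
          (by simp [he, h1])
        exact ⟨c, hc, hce, hcs.trans (by rw [hz2]; exact Finset.sdiff_subset)⟩
      · obtain ⟨c, hc, hce, hcs⟩ := ih w (by omega) hw e h1
        exact ⟨c, hc, hce, hcs.trans hws⟩

lemma exists_isMin_of_mem {Z : Submodule (ZMod 2) (E → ZMod 2)} {z : E → ZMod 2} (hz : z ∈ Z)
    {e : E} (he : z e = 1) : ∃ c, IsMin Z c ∧ c e = 1 ∧ spt c ⊆ spt z :=
  exists_isMin Z _ z le_rfl hz e he

/-! ### Complementary lists of rows -/

/-- `rows` and `duals` span orthogonal complements of each other (with a certificate). -/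
def Compl {r s k : ℕ} (rows : Fin r → Fin k → ZMod 2) (duals : Fin s → Fin k → ZMod 2) : Prop :=
  (∀ i j, ∑ e, rows i e * duals j e = 0) ∧
    ∃ (L : Fin r → Fin k → ZMod 2) (U : Fin s → Fin k → ZMod 2),
      ∀ e e', (∑ i, rows i e * L i e') + (∑ j, U j e * duals j e') = if e = e' then 1 else 0

lemma Compl.symm {r s k : ℕ} {rows : Fin r → Fin k → ZMod 2} {duals : Fin s → Fin k → ZMod 2}
    (h : Compl rows duals) : Compl duals rows := by
  obtain ⟨h1, L, U, h2⟩ := h
  refine ⟨fun i j => ?_, U, L, fun e e' => ?_⟩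
  · rw [← h1 j i]
    exact Finset.sum_congr rfl (fun e _ => mul_comm _ _)
  · have h3 := h2 e' e
    rw [add_comm] at h3
    rw [show (if e = e' then (1 : ZMod 2) else 0) = if e' = e then 1 else 0 by
      by_cases h : e = e'
      · subst h; rfl
      · rw [if_neg h, if_neg (fun h' => h h'.symm)]]
    rw [← h3]
    congr 1
    · exact Finset.sum_congr rfl (fun j _ => mul_comm _ _)
    · exact Finset.sum_congr rfl (fun j _ => mul_comm _ _)

/-- the row space is the orthogonal complement of the dual rows -/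
lemma Compl.span {r s k : ℕ} {rows : Fin r → Fin k → ZMod 2} {duals : Fin s → Fin k → ZMod 2}
    (h : Compl rows duals) (g : Fin k → ZMod 2) :
    (∃ c : Fin r → ZMod 2, ∀ e, g e = ∑ i, c i * rows i e) ↔ ∀ j, ∑ e, g e * duals j e = 0 := by
  obtain ⟨h1, L, U, h2⟩ := h
  constructor
  · rintro ⟨c, hc⟩ j
    calc ∑ e, g e * duals j e = ∑ e, ∑ i, c i * (rows i e * duals j e) := by
          refine Finset.sum_congr rfl (fun e _ => ?_)
          rw [hc e, Finset.sum_mul]
          exact Finset.sum_congr rfl (fun i _ => by ring)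
      _ = ∑ i, c i * ∑ e, rows i e * duals j e := by
          rw [Finset.sum_comm]
          exact Finset.sum_congr rfl (fun i _ => by rw [Finset.mul_sum])
      _ = 0 := by simp [h1]
  · intro hg
    refine ⟨fun i => ∑ e', L i e' * g e', fun e => ?_⟩
    have h3 : g e = ∑ e', (if e = e' then 1 else 0) * g e' := by simp
    rw [h3]
    calc ∑ e', (if e = e' then 1 else 0) * g e'
        = ∑ e', ((∑ i, rows i e * L i e') + (∑ j, U j e * duals j e')) * g e' := by
          exact Finset.sum_congr rfl (fun e' _ => by rw [h2])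
      _ = (∑ e', ∑ i, rows i e * L i e' * g e') + ∑ e', ∑ j, U j e * duals j e' * g e' := by
          rw [← Finset.sum_add_distrib]
          exact Finset.sum_congr rfl (fun e' _ => by rw [add_mul, Finset.sum_mul, Finset.sum_mul])
      _ = (∑ i, (∑ e', L i e' * g e') * rows i e) + ∑ j, U j e * ∑ e', g e' * duals j e' := by
          congr 1
          · rw [Finset.sum_comm]
            refine Finset.sum_congr rfl (fun i _ => ?_)
            rw [Finset.sum_mul]
            exact Finset.sum_congr rfl (fun e' _ => by ring)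
          · rw [Finset.sum_comm]
            refine Finset.sum_congr rfl (fun j _ => ?_)
            rw [Finset.mul_sum]
            exact Finset.sum_congr rfl (fun e' _ => by ring)
      _ = ∑ i, (∑ e', L i e' * g e') * rows i e := by simp [hg]

/-! ### `HasMinor` -/

section hasMinor

variable {r s k : ℕ} {rows : Fin r → Fin k → ZMod 2} {duals : Fin s → Fin k → ZMod 2}
  {M N : BM E}

/-- sums over a set whose relevant part is the image of `φ` -/
lemma dot_eq_sum_map {φ : Fin k → E} (hφ : Function.Injective φ) {f g : E → ZMod 2}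
    (h : ∀ e, (∀ i, φ i ≠ e) → f e * g e = 0) : dot f g = ∑ i, f (φ i) * g (φ i) := by
  unfold dot
  rw [← Finset.sum_image (s := Finset.univ) (g := φ) (f := fun e => f e * g e)
    (fun a _ b _ hab => hφ hab)]
  symm
  refine Finset.sum_subset (Finset.subset_univ _) (fun e _ he => h e (fun i hi => he ?_))
  exact Finset.mem_image.2 ⟨i, Finset.mem_univ _, hi⟩

/-- the dual of a minor -/
theorem HasMinor.dual (hc : Compl rows duals) (h : HasMinor rows M) :
    HasMinor duals M.dual := by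
  obtain ⟨φ, C, hφ, hS, hC, hd, h1, h2⟩ := h
  set I : Finset E := Finset.univ.image φ with hI
  have hmI : ∀ i, φ i ∈ I := fun i => Finset.mem_image.2 ⟨i, Finset.mem_univ _, rfl⟩
  have hIm : ∀ e, e ∈ I → ∃ i, φ i = e := by
    intro e he
    obtain ⟨i, _, hi⟩ := Finset.mem_image.1 he
    exact ⟨i, hi⟩
  refine ⟨φ, (M.S \ C) \ I, hφ, hS, ?_, ?_, ?_, ?_⟩
  · exact Finset.sdiff_subset.trans Finset.sdiff_subset
  · intro i h'
    exact (Finset.mem_sdiff.1 h').2 (hmI i)
  · intro j
    -- the vector on the image of `φ`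
    let z' : E → ZMod 2 := fun e => ∑ i, if φ i = e then duals j i else 0
    have hz'φ : ∀ i, z' (φ i) = duals j i := by
      intro i
      show (∑ i', if φ i' = φ i then duals j i' else 0) = _
      rw [Finset.sum_eq_single i]
      · simp
      · intro i' _ hne
        rw [if_neg (fun h' => hne (hφ h'))]
      · intro h'; exact absurd (Finset.mem_univ _) h'
    have hz'0 : ∀ e, e ∉ I → z' e = 0 := by
      intro e he
      refine Finset.sum_eq_zero (fun i _ => if_neg (fun h' => he ?_))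
      rw [← h']; exact hmI i
    have hz'S : ∀ e, e ∉ M.S \ C → z' e = 0 := by
      intro e he
      refine hz'0 e (fun hI' => he ?_)
      obtain ⟨i, rfl⟩ := hIm e hI'
      exact Finset.mem_sdiff.2 ⟨hS i, hd i⟩
    have hz' : z' ∈ (M.con C).Z := by
      refine ⟨hz'S, fun f hf => ?_⟩
      rw [mem_con] at hf
      rw [dot_eq_sum_map hφ (fun e he => by
        rw [hz'0 e (fun hI' => by
          obtain ⟨i, hi⟩ := hIm e hI'
          exact he i hi), mul_zero])]
      simp only [hz'φ]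
      exact (hc.span _).1 (h2 f hf.1 hf.2) j
    rw [mem_Z_con'] at hz'
    obtain ⟨-, w, hw, hw2⟩ := hz'
    refine ⟨w, hw, fun e he => ?_, fun i => ?_⟩
    · rw [hw2 e (Finset.mem_sdiff.1 he).1]
      exact hz'0 e (Finset.mem_sdiff.1 he).2
    · rw [hw2 (φ i) (Finset.mem_sdiff.2 ⟨hS i, hd i⟩), hz'φ]
  · intro z hz hz2
    rw [hc.symm.span (fun i => z (φ i))]
    intro i
    obtain ⟨f, hf, hfC, hfφ⟩ := h1 i
    have h3 := M.dot_eq_zero hf (show z ∈ M.Z from hz)
    rw [dot_eq_sum_map hφ (fun e he => by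
      by_cases hS' : e ∈ M.S
      · by_cases hC' : e ∈ C
        · rw [hfC e hC', zero_mul]
        · rw [hz2 e (Finset.mem_sdiff.2 ⟨Finset.mem_sdiff.2 ⟨hS', hC'⟩, fun hI' => by
            obtain ⟨i, hi⟩ := hIm e hI'
            exact he i hi⟩), mul_zero]
      · rw [M.supp f hf e hS', zero_mul])] at h3
    rw [← h3]
    exact Finset.sum_congr rfl (fun e _ => by rw [hfφ, mul_comm])

theorem hasMinor_dual_iff (hc : Compl rows duals) : HasMinor rows M.dual ↔ HasMinor duals M := by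
  constructor
  · intro h
    have := h.dual hc
    rwa [dual_dual] at this
  · intro h
    exact h.dual hc.symm

/-- minors of minors -/
theorem HasMinor.of_minor (h : HasMinor rows N) (hNM : Minor N M) : HasMinor rows M := by
  obtain ⟨C', D', hC', hD', hCD, rfl, hS'⟩ := hNM.normal
  obtain ⟨φ, C, hφ, hS, hC, hd, h1, h2⟩ := h
  rw [hS'] at hC
  have hS2 : ∀ i, φ i ∈ M.S ∧ φ i ∉ C' ∧ φ i ∉ D' := by
    intro i
    have := hS i
    rw [hS'] at this
    simp only [Finset.mem_sdiff, Finset.mem_union, not_or] at this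
    exact this
  have hCm : ∀ e ∈ C, e ∈ M.S ∧ e ∉ C' ∧ e ∉ D' := by
    intro e he
    have := hC he
    simp only [Finset.mem_sdiff, Finset.mem_union, not_or] at this
    exact this
  have hin : ∀ e, e ∈ M.S → e ∉ C' → e ∉ D' → e ∈ (M.con C').S \ D' := by
    intro e a b c
    simp [a, b, c]
  refine ⟨φ, C' ∪ C, hφ, fun i => (hS2 i).1,
    Finset.union_subset hC' (fun e he => (hCm e he).1), ?_, ?_, ?_⟩
  · intro i h'
    rcases Finset.mem_union.1 h' with h' | h'
    · exact (hS2 i).2.1 h'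
    · exact hd i h'
  · intro i
    obtain ⟨f, hf, hfC, hfφ⟩ := h1 i
    rw [mem_del'] at hf
    obtain ⟨-, g, hg, hgf⟩ := hf
    rw [mem_con] at hg
    refine ⟨g, hg.1, fun c hc => ?_, fun j => ?_⟩
    · rcases Finset.mem_union.1 hc with hc | hc
      · exact hg.2 c hc
      · obtain ⟨a, b, d⟩ := hCm c hc
        rw [hgf c (hin c a b d)]
        exact hfC c hc
    · obtain ⟨a, b, d⟩ := hS2 j
      rw [hgf _ (hin _ a b d)]
      exact hfφ j
  · intro f hf hfC
    have hg : mask ((M.con C').S \ D') f ∈ ((M.con C').del D').R :=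
      ⟨f, ⟨hf, fun e he => hfC e (Finset.mem_union_left _ he)⟩, rfl⟩
    obtain ⟨c, hc⟩ := h2 _ hg (fun e he => by
      rw [mask_apply]
      by_cases h : e ∈ (M.con C').S \ D'
      · rw [if_pos h]; exact hfC e (Finset.mem_union_right _ he)
      · rw [if_neg h])
    refine ⟨c, fun j => ?_⟩
    obtain ⟨a, b, d⟩ := hS2 j
    rw [← hc j, mask_apply, if_pos (hin _ a b d)]

lemma HasMinor.of_con (C : Finset E) (h : HasMinor rows (M.con C)) : HasMinor rows M :=
  h.of_minor (minor_con M C)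

lemma HasMinor.of_del (D : Finset E) (h : HasMinor rows (M.del D)) : HasMinor rows M :=
  h.of_minor (minor_del M D)

omit [Fintype E] in
/-- an isomorphic copy is a minor -/
lemma IsIso.hasMinor (h : IsIso rows M) : HasMinor rows M := by
  obtain ⟨φ, hφ, hS, h1, h2⟩ := h
  exact ⟨φ, ∅, hφ, fun i => (hS _).2 ⟨i, rfl⟩, by simp, by simp,
    fun i => by
      obtain ⟨f, hf, hf2⟩ := h1 i
      exact ⟨f, hf, by simp, hf2⟩, fun f hf _ => h2 f hf⟩

/-- the dual of an isomorphism -/
theorem IsIso.dual (hc : Compl rows duals) (h : IsIso rows M) : IsIso duals M.dual := by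
  obtain ⟨φ, hφ, hS, h1, h2⟩ := h
  have hz0 : ∀ z ∈ M.Z, ∀ f : E → ZMod 2, ∀ e, (∀ i, φ i ≠ e) → f e * z e = 0 := by
    intro z hz f e he
    rw [M.Z_supp hz (fun h' => by
      obtain ⟨i, hi⟩ := (hS e).1 h'
      exact he i hi), mul_zero]
  refine ⟨φ, hφ, hS, ?_, ?_⟩
  · intro j
    let z' : E → ZMod 2 := fun e => ∑ i, if φ i = e then duals j i else 0
    have hz'φ : ∀ i, z' (φ i) = duals j i := by
      intro i
      show (∑ i', if φ i' = φ i then duals j i' else 0) = _
      rw [Finset.sum_eq_single i]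
      · simp
      · intro i' _ hne
        rw [if_neg (fun h' => hne (hφ h'))]
      · intro h'; exact absurd (Finset.mem_univ _) h'
    have hz'0 : ∀ e, (∀ i, φ i ≠ e) → z' e = 0 := by
      intro e he
      exact Finset.sum_eq_zero (fun i _ => if_neg (he i))
    refine ⟨z', ⟨fun e he => hz'0 e (fun i hi => he ((hS e).2 ⟨i, hi⟩)), fun f hf => ?_⟩, hz'φ⟩
    rw [dot_eq_sum_map hφ (fun e he => by rw [hz'0 e he, mul_zero])]
    simp only [hz'φ]
    exact (hc.span _).1 (h2 f hf) j
  · intro z hz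
    rw [hc.symm.span (fun i => z (φ i))]
    intro i
    obtain ⟨f, hf, hfφ⟩ := h1 i
    have h3 := M.dot_eq_zero hf (show z ∈ M.Z from hz)
    rw [dot_eq_sum_map hφ (hz0 z hz f)] at h3
    rw [← h3]
    exact Finset.sum_congr rfl (fun e _ => by rw [hfφ, mul_comm])

/-- reorder the elements of the concrete matroid -/
lemma HasMinor.perm (σ : Equiv.Perm (Fin k)) (h : HasMinor (fun i e => rows i (σ e)) M) :
    HasMinor rows M := by
  obtain ⟨φ, C, hφ, hS, hC, hd, h1, h2⟩ := h
  refine ⟨fun e => φ (σ.symm e), C, hφ.comp σ.symm.injective, fun i => hS _, hC, fun i => hd _,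
    ?_, ?_⟩
  · intro i
    obtain ⟨f, hf, hfC, hfφ⟩ := h1 i
    exact ⟨f, hf, hfC, fun j => by rw [hfφ]; simp⟩
  · intro f hf hfC
    obtain ⟨c, hc⟩ := h2 f hf hfC
    exact ⟨c, fun j => by rw [hc]; simp⟩

omit [Fintype E] in
lemma IsIso.perm (σ : Equiv.Perm (Fin k)) (h : IsIso (fun i e => rows i (σ e)) M) :
    IsIso rows M := by
  obtain ⟨φ, hφ, hS, h1, h2⟩ := h
  refine ⟨fun e => φ (σ.symm e), hφ.comp σ.symm.injective, fun e => ?_, ?_, ?_⟩
  · rw [hS e]
    exact ⟨fun ⟨i, hi⟩ => ⟨σ i, by simpa using hi⟩, fun ⟨i, hi⟩ => ⟨_, hi⟩⟩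
  · intro i
    obtain ⟨f, hf, hfφ⟩ := h1 i
    exact ⟨f, hf, fun j => by rw [hfφ]; simp⟩
  · intro f hf
    obtain ⟨c, hc⟩ := h2 f hf
    exact ⟨c, fun j => by rw [hc]; simp⟩

/-- Certificate: the matroid on `Fin k` spanned by `rows` is a minor of the matroid on `Fin k'`
spanned by `rows'`.  `φ` injects, `C` is contracted, `a i` are the coefficients of the row `i`,
`z j` are the cycles.  Everything can be checked by `decide`. -/
def FinCert {r s k r' k' : ℕ} (rows : Fin r → Fin k → ZMod 2) (duals : Fin s → Fin k → ZMod 2)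
    (rows' : Fin r' → Fin k' → ZMod 2) (φ : Fin k → Fin k') (C : Finset (Fin k'))
    (a : Fin r → Fin r' → ZMod 2) (z : Fin s → Fin k' → ZMod 2) : Prop :=
  (∀ i j, φ i = φ j → i = j) ∧ (∀ i, φ i ∉ C) ∧
    (∀ i, ∀ c ∈ C, ∑ i', a i i' * rows' i' c = 0) ∧
    (∀ i e, ∑ i', a i i' * rows' i' (φ e) = rows i e) ∧
    (∀ j i', ∑ e, rows' i' e * z j e = 0) ∧
    (∀ j e, z j (φ e) = duals j e) ∧
    (∀ j e, z j e ≠ 0 → e ∈ C ∨ ∃ i, φ i = e)

instance {r s k r' k' : ℕ} (rows : Fin r → Fin k → ZMod 2) (duals : Fin s → Fin k → ZMod 2)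
    (rows' : Fin r' → Fin k' → ZMod 2) (φ : Fin k → Fin k') (C : Finset (Fin k'))
    (a : Fin r → Fin r' → ZMod 2) (z : Fin s → Fin k' → ZMod 2) :
    Decidable (FinCert rows duals rows' φ C a z) := by
  unfold FinCert; infer_instance

/-- minors of a concrete minor -/
theorem HasMinor.of_finCert {r' k' : ℕ} {rows' : Fin r' → Fin k' → ZMod 2}
    (h : HasMinor rows' M) (hc : Compl rows duals) {φ : Fin k → Fin k'} {C : Finset (Fin k')}
    {a : Fin r → Fin r' → ZMod 2} {z : Fin s → Fin k' → ZMod 2}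
    (hcert : FinCert rows duals rows' φ C a z) : HasMinor rows M := by
  obtain ⟨g1, g2, g3, g4, g5, g6, g7⟩ := hcert
  obtain ⟨ψ, C', hψ, hS, hC', hd, h1, h2⟩ := h
  refine ⟨fun i => ψ (φ i), C' ∪ C.image ψ, fun i j hij => g1 i j (hψ hij), fun i => hS _,
    ?_, ?_, ?_, ?_⟩
  · refine Finset.union_subset hC' (fun e he => ?_)
    obtain ⟨i, _, rfl⟩ := Finset.mem_image.1 he
    exact hS i
  · intro i h'
    rcases Finset.mem_union.1 h' with h' | h'
    · exact hd _ h'
    · obtain ⟨j, hj, hji⟩ := Finset.mem_image.1 h'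
      rw [hψ hji] at hj
      exact g2 i hj
  · intro i
    choose f hf hfC hfφ using h1
    refine ⟨∑ i', a i i' • f i', Submodule.sum_mem _ (fun i' _ => M.R.smul_mem _ (hf i')),
      fun c hc => ?_, fun j => ?_⟩
    · rw [Finset.sum_apply]
      rcases Finset.mem_union.1 hc with hc | hc
      · exact Finset.sum_eq_zero (fun i' _ => by
          rw [Pi.smul_apply, hfC i' c hc, smul_zero])
      · obtain ⟨j, hj, rfl⟩ := Finset.mem_image.1 hc
        rw [← g3 i j hj]
        exact Finset.sum_congr rfl (fun i' _ => by rw [Pi.smul_apply, hfφ, smul_eq_mul])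
    · rw [Finset.sum_apply, ← g4 i j]
      exact Finset.sum_congr rfl (fun i' _ => by rw [Pi.smul_apply, hfφ, smul_eq_mul])
  · intro f hf hfC
    rw [hc.span (fun e => f (ψ (φ e)))]
    obtain ⟨c, hc'⟩ := h2 f hf (fun c hc => hfC c (Finset.mem_union_left _ hc))
    intro j
    -- the pairing of `f ∘ ψ` with the cycle `z j`
    have h3 : ∑ e, f (ψ e) * z j e = 0 := by
      calc ∑ e, f (ψ e) * z j e = ∑ e, ∑ i, c i * (rows' i e * z j e) := by
            refine Finset.sum_congr rfl (fun e _ => ?_)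
            rw [hc' e, Finset.sum_mul]
            exact Finset.sum_congr rfl (fun i _ => by ring)
        _ = ∑ i, c i * ∑ e, rows' i e * z j e := by
            rw [Finset.sum_comm]
            exact Finset.sum_congr rfl (fun i _ => by rw [Finset.mul_sum])
        _ = 0 := by simp [g5]
    have h4 : ∑ e, f (ψ e) * z j e = ∑ i, f (ψ (φ i)) * z j (φ i) := by
      have h5 := dot_eq_sum_map (E := Fin k') (k := k) (φ := φ) (fun a b h => g1 a b h)
        (f := fun e => f (ψ e)) (g := z j) (fun e he => by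
          by_cases h0 : z j e = 0
          · rw [h0, mul_zero]
          · rcases g7 j e h0 with h6 | ⟨i, hi⟩
            · rw [hfC (ψ e) (Finset.mem_union_right _ (Finset.mem_image.2 ⟨e, h6, rfl⟩)),
                zero_mul]
            · exact absurd hi (he i))
      exact h5
    rw [h4] at h3
    rw [← h3]
    exact Finset.sum_congr rfl (fun e _ => by rw [g6])

end hasMinor

/-! ### Concrete matroids -/

lemma compl_F7 : Compl F7 F7s := by
  refine ⟨by decide, ![![1, 0, 0, 0, 0, 0, 0],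
      ![0, 1, 0, 0, 0, 0, 0],
      ![0, 0, 1, 0, 0, 0, 0]],
    ![![0, 0, 0, 1, 0, 0, 0],
      ![0, 0, 0, 0, 1, 0, 0],
      ![0, 0, 0, 0, 0, 1, 0],
      ![0, 0, 0, 0, 0, 0, 1]], by decide⟩

lemma compl_K33 : Compl K33 K33s := by
  refine ⟨by decide, ![![0, 0, 1, 0, 0, 0, 0, 0, 0],
      ![1, 0, 1, 1, 0, 0, 0, 0, 0],
      ![1, 0, 1, 0, 0, 0, 1, 0, 0],
      ![1, 0, 1, 0, 0, 0, 0, 0, 0],
      ![0, 1, 1, 0, 0, 0, 0, 0, 0],
      ![0, 0, 0, 0, 0, 0, 0, 0, 0]],
    ![![0, 0, 0, 0, 1, 0, 0, 0, 0],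
      ![0, 0, 0, 0, 0, 1, 0, 0, 0],
      ![0, 0, 0, 0, 0, 0, 0, 1, 0],
      ![0, 0, 0, 0, 0, 0, 0, 0, 1]], by decide⟩

lemma compl_K5 : Compl K5 K5s := by
  refine ⟨by decide, ![![0, 0, 0, 1, 0, 0, 0, 0, 0, 0],
      ![1, 0, 0, 1, 0, 0, 0, 0, 0, 0],
      ![0, 1, 0, 1, 0, 0, 0, 0, 0, 0],
      ![0, 0, 1, 1, 0, 0, 0, 0, 0, 0],
      ![0, 0, 0, 0, 0, 0, 0, 0, 0, 0]],
    ![![0, 0, 0, 0, 1, 0, 0, 0, 0, 0],
      ![0, 0, 0, 0, 0, 1, 0, 0, 0, 0],
      ![0, 0, 0, 0, 0, 0, 1, 0, 0, 0],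
      ![0, 0, 0, 0, 0, 0, 0, 1, 0, 0],
      ![0, 0, 0, 0, 0, 0, 0, 0, 1, 0],
      ![0, 0, 0, 0, 0, 0, 0, 0, 0, 1]], by decide⟩

/-- rows spanning the cycle space of `K4` (triangles at vertex 0) -/
def K4s : Fin 3 → Fin 6 → ZMod 2 :=
  ![![1, 1, 0, 1, 0, 0],
    ![1, 0, 1, 0, 1, 0],
    ![0, 1, 1, 0, 0, 1]]

lemma compl_K4 : Compl K4 K4s := by
  refine ⟨by decide, ![![0, 0, 1, 0, 0, 0],
      ![1, 0, 1, 0, 0, 0],
      ![0, 1, 1, 0, 0, 0],
      ![0, 0, 0, 0, 0, 0]],
    ![![0, 0, 0, 1, 0, 0],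
      ![0, 0, 0, 0, 1, 0],
      ![0, 0, 0, 0, 0, 1]], by decide⟩

/-- a permutation carrying `R10` to its dual -/
def r10perm : Equiv.Perm (Fin 10) where
  toFun := ![0, 1, 3, 4, 7, 9, 8, 6, 5, 2]
  invFun := ![0, 1, 9, 2, 3, 8, 7, 4, 6, 5]
  left_inv := by decide
  right_inv := by decide

lemma compl_R10 : Compl R10 (fun i e => R10 i (r10perm e)) := by
  refine ⟨by decide, ![![1, 0, 0, 0, 0, 0, 0, 0, 0, 0],
      ![0, 1, 0, 0, 0, 0, 0, 0, 0, 0],
      ![0, 0, 1, 0, 0, 0, 0, 0, 0, 0],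
      ![0, 0, 0, 1, 0, 0, 0, 0, 0, 0],
      ![0, 0, 0, 0, 1, 0, 0, 0, 0, 0]],
    ![![0, 0, 0, 0, 0, 1, 1, 0, 0, 1],
      ![0, 0, 0, 0, 0, 1, 1, 1, 0, 0],
      ![0, 0, 0, 0, 0, 0, 0, 0, 0, 1],
      ![0, 0, 0, 0, 0, 0, 1, 1, 1, 0],
      ![0, 0, 0, 0, 0, 0, 0, 1, 1, 1]], by decide⟩

/-- a permutation carrying `R12` to its dual (exchange the two halves) -/
def r12perm : Equiv.Perm (Fin 12) where
  toFun := ![6, 7, 8, 9, 10, 11, 0, 1, 2, 3, 4, 5]
  invFun := ![6, 7, 8, 9, 10, 11, 0, 1, 2, 3, 4, 5]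
  left_inv := by decide
  right_inv := by decide

lemma compl_R12 : Compl R12 (fun i e => R12 i (r12perm e)) := by
  refine ⟨by decide, ![![1, 0, 0, 0, 0, 0, 0, 0, 0, 0, 0, 0],
      ![0, 1, 0, 0, 0, 0, 0, 0, 0, 0, 0, 0],
      ![1, 0, 0, 1, 0, 0, 0, 0, 0, 0, 0, 0],
      ![0, 1, 0, 0, 1, 0, 0, 0, 0, 0, 0, 0],
      ![0, 0, 0, 0, 0, 0, 1, 0, 0, 0, 0, 0],
      ![0, 0, 0, 0, 0, 0, 0, 0, 0, 1, 0, 0]],
    ![![0, 0, 0, 0, 0, 0, 0, 1, 1, 0, 0, 0],
      ![0, 0, 0, 0, 0, 0, 0, 1, 0, 0, 0, 0],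
      ![0, 0, 0, 0, 0, 0, 0, 1, 1, 0, 1, 1],
      ![0, 0, 0, 0, 0, 0, 0, 1, 0, 0, 1, 0],
      ![0, 0, 1, 0, 0, 0, 0, 1, 0, 0, 1, 0],
      ![0, 0, 0, 0, 0, 1, 0, 1, 0, 0, 1, 0]], by decide⟩

section concrete

variable {M N : BM E}

lemma hasMinor_F7_dual : HasMinor F7 M.dual ↔ HasMinor F7s M := hasMinor_dual_iff compl_F7
lemma hasMinor_F7s_dual : HasMinor F7s M.dual ↔ HasMinor F7 M := hasMinor_dual_iff compl_F7.symm
lemma hasMinor_K33_dual : HasMinor K33 M.dual ↔ HasMinor K33s M := hasMinor_dual_iff compl_K33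
lemma hasMinor_K33s_dual : HasMinor K33s M.dual ↔ HasMinor K33 M :=
  hasMinor_dual_iff compl_K33.symm
lemma hasMinor_K5_dual : HasMinor K5 M.dual ↔ HasMinor K5s M := hasMinor_dual_iff compl_K5
lemma hasMinor_K5s_dual : HasMinor K5s M.dual ↔ HasMinor K5 M := hasMinor_dual_iff compl_K5.symm

lemma hasMinor_R10_dual : HasMinor R10 M.dual ↔ HasMinor R10 M := by
  have key : ∀ M : BM E, HasMinor R10 M → HasMinor R10 M.dual :=
    fun M h => (h.dual compl_R10).perm r10perm
  exact ⟨fun h => by simpa using key _ h, key M⟩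

lemma hasMinor_R12_dual : HasMinor R12 M.dual ↔ HasMinor R12 M := by
  have key : ∀ M : BM E, HasMinor R12 M → HasMinor R12 M.dual :=
    fun M h => (h.dual compl_R12).perm r12perm
  exact ⟨fun h => by simpa using key _ h, key M⟩

/-! ### `NoF` -/

lemma NoF.minor (h : NoF M) (hN : Minor N M) : NoF N :=
  ⟨fun h' => h.1 (h'.of_minor hN), fun h' => h.2 (h'.of_minor hN)⟩

lemma NoF.con (h : NoF M) (C : Finset E) : NoF (M.con C) := h.minor (minor_con M C)

lemma NoF.del (h : NoF M) (D : Finset E) : NoF (M.del D) := h.minor (minor_del M D)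

lemma NoF.res (h : NoF M) (A : Finset E) : NoF (M.res A) := h.minor (minor_res M A)

lemma NoF.dual (h : NoF M) : NoF M.dual :=
  ⟨fun h' => h.2 (hasMinor_F7_dual.1 h'), fun h' => h.1 (hasMinor_F7s_dual.1 h')⟩

lemma noF_dual_iff : NoF M.dual ↔ NoF M := ⟨fun h => by simpa using h.dual, fun h => h.dual⟩

end concrete

end SEY

end
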