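import Pool.Agent.Helper29.MFA.T09
import Pool.Agent.Helper29.MFA.T10

section

/-!
Block SC: the definitions `ofRows` and `BM.Two`.
-/

namespace SEY

open Finset

variable {E : Type} [Fintype E] [DecidableEq E]

/-- The matroid on `Fin k` with row space spanned by `rows`. -/
def ofRows {r k : ℕ} (rows : Fin r → Fin k → ZMod 2) : BM (Fin k) where
  S := Finset.univ
  R := Submodule.span (ZMod 2) (Set.range rows)
  supp := fun _ _ e he => absurd (Finset.mem_univ e) he

/-- All series classes have at most two elements. -/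
def BM.Two (M : BM E) : Prop :=
  ∀ a ∈ M.S, ∀ b ∈ M.S, ∀ c ∈ M.S, M.Ser a b → M.Ser a c → a = b ∨ a = c ∨ b = c

end SEY

end

section

/-!
Block SC, part 1: basic facts on `SC` matroids.
-/

namespace SEY

open Finset

variable {E : Type} [Fintype E] [DecidableEq E]

namespace BM

variable {M : BM E}

omit [DecidableEq E] in
lemma Ser.symm {a b : E} (h : M.Ser a b) : M.Ser b a := fun z hz => (h z hz).symm

omit [DecidableEq E] in
lemma Ser.trans {a b c : E} (h : M.Ser a b) (h' : M.Ser b c) : M.Ser a c :=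
  fun z hz => (h z hz).trans (h' z hz)

omit [DecidableEq E] in
lemma Ser.refl (M : BM E) (a : E) : M.Ser a a := fun _ _ => rfl

/-- `lam X` plus the nullity of `X` is the dual rank of `X`. -/
lemma sc_lam_add_dZ_eq (M : BM E) (X : Finset E) : M.lam X + M.dZ X = M.dual.r X := by
  have := M.dual.lam_add_dR_eq_r X
  rwa [lam_dual, dual_dR] at this

omit [Fintype E] [DecidableEq E] in
lemma sc_two_le_aux : ∀ s t a1 b1 a2 b2 a3 b3 : ZMod 2, a1 ≠ 0 → b2 ≠ 0 → a3 ≠ b3 →
    s * a1 + t * b1 = 0 → s * a2 + t * b2 = 0 → s * a3 + t * b3 = 0 → s = 0 ∧ t = 0 := by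
  decide

omit [Fintype E] [DecidableEq E] in
lemma sc_fin4_aux : ∀ i j : Fin 4, ∃ k l : Fin 4, k ≠ l ∧ k ≠ i ∧ k ≠ j ∧ l ≠ i ∧ l ≠ j := by
  decide

lemma sc_two_le_r (M : BM E) {X : Finset E} {f g : E → ZMod 2} (hf : f ∈ M.R) (hg : g ∈ M.R)
    (h1 : ∃ e ∈ X, f e ≠ 0) (h2 : ∃ e ∈ X, g e ≠ 0) (h3 : ∃ e ∈ X, f e ≠ g e) : 2 ≤ M.r X := by
  have hr := M.r_add_dR Xᶜ
  unfold r
  have hli : LinearIndependent (ZMod 2) ![(⟨mask X f, f, hf, rfl⟩ : M.R.map (mask X)),
      (⟨mask X g, g, hg, rfl⟩ : M.R.map (mask X))] := by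
    rw [LinearIndependent.pair_iff]
    intro s t hst
    have hst' : ∀ e ∈ X, s * f e + t * g e = 0 := by
      intro e he
      have := congrFun (congrArg Subtype.val hst) e
      simpa [he] using this
    obtain ⟨e1, he1, hf1⟩ := h1
    obtain ⟨e2, he2, hg2⟩ := h2
    obtain ⟨e3, he3, h3⟩ := h3
    have k1 := hst' e1 he1
    have k2 := hst' e2 he2
    have k3 := hst' e3 he3
    exact sc_two_le_aux s t _ _ _ _ _ _ hf1 hg2 h3 k1 k2 k3
  have := hli.fintype_card_le_finrank
  simpa using this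

/-- two elements which are not in series and not coloops have dual rank 2 -/
lemma sc_two_le_dual_r (M : BM E) {X : Finset E} {x y : E} (hx : x ∈ X) (hy : y ∈ X)
    (hs : ¬ M.Ser x y) (hcx : ∃ z ∈ M.Z, z x = 1) (hcy : ∃ z ∈ M.Z, z y = 1) :
    2 ≤ M.dual.r X := by
  unfold Ser at hs
  push Not at hs
  obtain ⟨z, hz, hxy⟩ := hs
  have key : ∀ x y : E, x ∈ X → y ∈ X → z x = 1 → z y = 0 → (∃ z ∈ M.Z, z y = 1) →
      2 ≤ M.dual.r X := by
    intro x y hx hy h1 h0 ⟨w, hw, hw1⟩
    exact M.dual.sc_two_le_r (f := z) (g := w) hz hw ⟨x, hx, by rw [h1]; decide⟩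
      ⟨y, hy, by rw [hw1]; decide⟩ ⟨y, hy, by rw [h0, hw1]; decide⟩
  rcases zcases (z x) with h1 | h1 <;> rcases zcases (z y) with h2 | h2
  · exact absurd (h1.trans h2.symm) hxy
  · exact key y x hy hx h2 h1 hcx
  · exact key x y hx hy h1 h2 hcy
  · exact absurd (h1.trans h2.symm) hxy

/-- (K): a set without cycles and with connectivity at most 1 lies in one series class. -/
lemma sc_ser_of_lam_le (M : BM E) {X : Finset E} (hc : ∀ x ∈ X, ∃ z ∈ M.Z, z x = 1)
    (h0 : ∀ z ∈ M.Z, (∀ e, e ∉ X → z e = 0) → z = 0) (h1 : M.lam X ≤ 1) :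
    ∀ x ∈ X, ∀ y ∈ X, M.Ser x y := by
  intro x hx y hy
  by_contra hs
  have h2 := M.sc_two_le_dual_r hx hy hs (hc x hx) (hc y hy)
  have h3 := M.sc_lam_add_dZ_eq X
  have h4 := M.dZ_eq_zero_iff.2 h0
  omega

/-- if the restrictions to `A` of all cycles are cycles then `lam A = 0` -/
lemma sc_lam_eq_zero_of (M : BM E) {A : Finset E}
    (h : ∀ w ∈ M.Z, ∃ u ∈ M.Z, (∀ e, e ∉ A → u e = 0) ∧ ∀ e ∈ A, w e = u e) : M.lam A = 0 := by
  have h1 := M.lam_add_dZ A
  have h2 : M.Z ≤ M.ZIn A ⊔ M.ZIn (M.S \ A) := by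
    intro w hw
    obtain ⟨u, hu, hu0, hu1⟩ := h w hw
    have h3 : w = u + (w + u) := by
      ext e
      simp only [Pi.add_apply]
      rw [← add_assoc, add_comm (u e) (w e), add_assoc, z_add_self, add_zero]
    rw [h3]
    refine Submodule.add_mem_sup ⟨hu, hu0⟩ ⟨M.Z.add_mem hw hu, fun e he => ?_⟩
    rw [Finset.mem_sdiff, not_and, not_not] at he
    by_cases hS : e ∈ M.S
    · rw [Pi.add_apply, hu1 e (he hS), z_add_self]
    · rw [Pi.add_apply, hw.1 e hS, hu.1 e hS, add_zero]
  have h3 : M.nul ≤ M.dZ A + M.dZ (M.S \ A) := by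
    unfold nul
    exact (Submodule.finrank_mono h2).trans (Submodule.finrank_add_le_finrank_add_finrank _ _)
  omega

/-- if all cycles are constant on `A` then `lam A ≤ 1` -/
lemma sc_lam_le_one_of (M : BM E) {A : Finset E} (hs : ∀ a ∈ A, ∀ b ∈ A, M.Ser a b) :
    M.lam A ≤ 1 := by
  have h1 := M.sc_lam_add_dZ_eq A
  suffices h : M.dual.r A ≤ 1 by omega
  unfold r
  have h : M.dual.R.map (mask A) ≤ Submodule.span (ZMod 2) {ind A} := by
    rintro _ ⟨v, hv, rfl⟩
    rw [Submodule.mem_span_singleton]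
    by_cases hA : ∃ a ∈ A, v a = 1
    · obtain ⟨a, ha, hva⟩ := hA
      refine ⟨1, ?_⟩
      rw [one_smul]
      ext e
      by_cases he : e ∈ A
      · rw [ind_of_mem he, mask_apply, if_pos he, hs e he a ha v hv, hva]
      · rw [ind_of_notMem he, mask_apply, if_neg he]
    · refine ⟨0, ?_⟩
      rw [zero_smul]
      symm
      rw [mask_eq_zero_iff]
      intro e he
      by_contra h3
      exact hA ⟨e, he, z_ne_zero.1 h3⟩
  have h5 := Submodule.finrank_mono h
  have h6 := finrank_span_le_card (R := ZMod 2) ({ind A} : Set (E → ZMod 2))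
  simp at h6
  omega

namespace SC

/-- two elements outside of two classes -/
lemma exists_two (h : M.SC) (a b : E) : ∃ x ∈ M.S, ∃ y ∈ M.S, ¬ M.Ser x y ∧ ¬ M.Ser x a ∧
    ¬ M.Ser x b ∧ ¬ M.Ser y a ∧ ¬ M.Ser y b := by
  obtain ⟨⟨s, hs, hne⟩, -⟩ := h
  have h1 : ∃ i, ∀ k, k ≠ i → ¬ M.Ser (s k) a := by
    by_cases hi : ∃ i, M.Ser (s i) a
    · obtain ⟨i, hi⟩ := hi
      exact ⟨i, fun k hk hka => hne k i hk (hka.trans hi.symm)⟩
    · push Not at hi
      exact ⟨0, fun k _ => hi k⟩
  have h2 : ∃ j, ∀ k, k ≠ j → ¬ M.Ser (s k) b := by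
    by_cases hi : ∃ i, M.Ser (s i) b
    · obtain ⟨i, hi⟩ := hi
      exact ⟨i, fun k hk hka => hne k i hk (hka.trans hi.symm)⟩
    · push Not at hi
      exact ⟨0, fun k _ => hi k⟩
  obtain ⟨i, hi⟩ := h1
  obtain ⟨j, hj⟩ := h2
  obtain ⟨k, l, hkl, k1, k2, l1, l2⟩ := sc_fin4_aux i j
  exact ⟨s k, hs k, s l, hs l, hne k l hkl, hi k k1, hj k k2, hi l l1, hj l l2⟩

lemma exists_not_ser (h : M.SC) (a : E) : ∃ x ∈ M.S, ¬ M.Ser x a := by
  obtain ⟨x, hx, -, -, -, h1, -⟩ := h.exists_two a a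
  exact ⟨x, hx, h1⟩

/-- a set covered by two classes, with `lam ≤ 1`, lies in one class -/
lemma of_cover (h : M.SC) {A : Finset E} (hA : A ⊆ M.S) (h1 : M.lam A ≤ 1) {a b : E}
    (hc : ∀ e ∈ A, M.Ser e a ∨ M.Ser e b) : ∀ e ∈ A, ∀ f ∈ A, M.Ser e f := by
  rcases h.2 A hA h1 with h2 | h2
  · exact h2
  · exfalso
    obtain ⟨x, hx, y, hy, hxy, xa, xb, ya, yb⟩ := h.exists_two a b
    refine hxy (h2 x (Finset.mem_sdiff.2 ⟨hx, fun hxA => ?_⟩) y
      (Finset.mem_sdiff.2 ⟨hy, fun hyA => ?_⟩))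
    · rcases hc x hxA with h3 | h3
      · exact xa h3
      · exact xb h3
    · rcases hc y hyA with h3 | h3
      · exact ya h3
      · exact yb h3

lemma lam_zero (h : M.SC) {A : Finset E} (hA : A ⊆ M.S) (h0 : M.lam A = 0) :
    A = ∅ ∨ A = M.S := by
  have key : ∀ A ⊆ M.S, M.lam A = 0 → (∀ e ∈ A, ∀ f ∈ A, M.Ser e f) → A = ∅ := by
    intro A hA h0 hs
    by_contra hne
    obtain ⟨a, ha⟩ := Finset.nonempty_iff_ne_empty.2 hne
    obtain ⟨x, hx, hxa⟩ := h.exists_not_ser a
    have h1 := M.lam_insert_le A x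
    have h2 := h.of_cover (A := insert x A) (Finset.insert_subset hx hA) (by omega)
      (a := a) (b := x) (fun e he => by
        rcases Finset.mem_insert.1 he with rfl | he
        · exact Or.inr (Ser.refl M _)
        · exact Or.inl (hs e he a ha))
    exact hxa (h2 x (Finset.mem_insert_self _ _) a (Finset.mem_insert_of_mem ha))
  rcases h.2 A hA (by omega) with h1 | h1
  · exact Or.inl (key A hA h0 h1)
  · right
    have h2 := key (M.S \ A) Finset.sdiff_subset (by rw [M.lam_compl]; exact h0) h1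
    exact Finset.Subset.antisymm hA (Finset.sdiff_eq_empty_iff_subset.1 h2)

lemma not_coloop (h : M.SC) {e : E} (he : e ∈ M.S) : ∃ z ∈ M.Z, z e = 1 := by
  by_contra hcon
  push Not at hcon
  have h0 : M.lam {e} = 0 := by
    refine M.sc_lam_eq_zero_of (fun w hw => ⟨0, M.Z.zero_mem, fun _ _ => rfl, fun x hx => ?_⟩)
    rw [Finset.mem_singleton.1 hx]
    exact z_ne_one.1 (hcon w hw)
  obtain ⟨x, hx, hxe⟩ := h.exists_not_ser e
  rcases h.lam_zero (by simpa using he) h0 with h1 | h1
  · simp at h1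
  · rw [← h1, Finset.mem_singleton] at hx
    exact hxe (hx ▸ Ser.refl M _)

lemma cycle (h : M.SC) {z : E → ZMod 2} (hz : z ∈ M.Z) (h0 : z ≠ 0) :
    ∃ a b, z a = 1 ∧ z b = 1 ∧ ¬ M.Ser a b := by
  by_contra hcon
  push Not at hcon
  have h1 : M.lam (spt z) = 0 := by
    refine M.sc_lam_eq_zero_of (fun w hw => ?_)
    by_cases hA : ∃ a ∈ spt z, w a = 1
    · obtain ⟨a, ha, hwa⟩ := hA
      refine ⟨z, hz, fun e he => notMem_spt.1 he, fun e he => ?_⟩
      rw [mem_spt'.1 he, ← hwa]
      exact hcon e a (mem_spt'.1 he) (mem_spt'.1 ha) w hw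
    · refine ⟨0, M.Z.zero_mem, fun _ _ => rfl, fun e he => ?_⟩
      by_contra h3
      exact hA ⟨e, he, z_ne_zero.1 h3⟩
  rcases h.lam_zero (M.spt_subset_of_mem_Z hz) h1 with h2 | h2
  · exact h0 (spt_eq_empty.1 h2)
  · obtain ⟨x, hx, y, hy, hxy, -⟩ := h.exists_two (M := M) (h.1.choose 0) (h.1.choose 0)
    rw [← h2] at hx hy
    exact hxy (hcon x y (mem_spt'.1 hx) (mem_spt'.1 hy))

lemma no_cycle (h : M.SC) {A : Finset E} (hs : ∀ a ∈ A, ∀ b ∈ A, M.Ser a b)
    {z : E → ZMod 2} (hz : z ∈ M.Z) (h0 : ∀ e, e ∉ A → z e = 0) : z = 0 := by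
  by_contra hne
  obtain ⟨a, b, ha, hb, hab⟩ := h.cycle hz hne
  refine hab (hs a ?_ b ?_)
  · by_contra h1
    rw [h0 a h1] at ha; exact absurd ha (by decide)
  · by_contra h1
    rw [h0 b h1] at hb; exact absurd hb (by decide)

lemma lam_class (h : M.SC) {A : Finset E} (hA : A ⊆ M.S) (h0 : A.Nonempty)
    (hs : ∀ a ∈ A, ∀ b ∈ A, M.Ser a b) : M.lam A = 1 := by
  have h1 := M.sc_lam_le_one_of hs
  have h2 : M.lam A ≠ 0 := by
    intro h3
    rcases h.lam_zero hA h3 with h4 | h4
    · exact h0.ne_empty h4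
    · obtain ⟨x, hx, y, hy, hxy, -⟩ := h.exists_two (M := M) (h.1.choose 0) (h.1.choose 0)
      rw [← h4] at hx hy
      exact hxy (hs x hx y hy)
  omega

end SC

end BM

theorem SC_not_coloop (M : BM E) (h : M.SC) (e : E) (he : e ∈ M.S) : ∃ z ∈ M.Z, z e = 1 :=
  h.not_coloop he

theorem SC_cycle (M : BM E) (h : M.SC) (z : E → ZMod 2) (hz : z ∈ M.Z) (h0 : z ≠ 0) :
    ∃ a b, z a = 1 ∧ z b = 1 ∧ ¬ M.Ser a b :=
  h.cycle hz h0

theorem SC_lam_zero (M : BM E) (h : M.SC) (A : Finset E) (hA : A ⊆ M.S) (h0 : M.lam A = 0) :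
    A = ∅ ∨ A = M.S :=
  h.lam_zero hA h0

theorem SC_lam_class (M : BM E) (h : M.SC) (A : Finset E) (hA : A ⊆ M.S) (h0 : A.Nonempty)
    (hs : ∀ a ∈ A, ∀ b ∈ A, M.Ser a b) : M.lam A = 1 :=
  h.lam_class hA h0 hs

theorem TC_iff_SC (M : BM E) :
    M.TC ↔ M.SC ∧ ∀ a ∈ M.S, ∀ b ∈ M.S, M.Ser a b → a = b := by
  constructor
  · intro h
    refine ⟨⟨?_, fun A hA h1 => ?_⟩, fun a ha b hb hs => ?_⟩
    · obtain ⟨T, hT, hcard⟩ := Finset.exists_subset_card_eq h.card
      let e := T.equivFin.trans (finCongr hcard)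
      refine ⟨fun i => (e.symm i : E), fun i => hT (e.symm i).2, fun i j hij hs => ?_⟩
      refine h.not_ser (hT (e.symm i).2) (hT (e.symm j).2) (fun h1 => hij ?_) hs
      exact e.symm.injective (Subtype.ext h1)
    · rcases h.of_lam_one hA h1 with h2 | h2
      · left
        intro e he f hf
        rw [Finset.card_le_one.1 h2 e he f hf]
        exact BM.Ser.refl M _
      · right
        intro e he f hf
        rw [Finset.card_le_one.1 h2 e he f hf]
        exact BM.Ser.refl M _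
    · by_contra hne
      exact h.not_ser ha hb hne hs
  · rintro ⟨h, hs⟩
    refine ⟨?_, fun A hA => ⟨fun h0 => h.lam_zero hA h0, fun h1 => ?_⟩⟩
    · obtain ⟨⟨s, hsS, hne⟩, -⟩ := h
      have hinj : Function.Injective s := by
        intro i j hij
        by_contra h1
        exact hne i j h1 (hij ▸ BM.Ser.refl M _)
      calc 4 = (Finset.univ.image s).card := by
            rw [Finset.card_image_of_injective _ hinj]; simp
        _ ≤ M.S.card := Finset.card_le_card (by
            intro x hx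
            obtain ⟨i, -, rfl⟩ := Finset.mem_image.1 hx
            exact hsS i)
    · rcases h.2 A hA h1 with h2 | h2
      · left
        exact Finset.card_le_one.2 (fun a ha b hb => hs a (hA ha) b (hA hb) (h2 a ha b hb))
      · right
        exact Finset.card_le_one.2 (fun a ha b hb =>
          hs a (Finset.mem_sdiff.1 ha).1 b (Finset.mem_sdiff.1 hb).1 (h2 a ha b hb))

end SEY

end

section

/-!
Block SC, part 2: `SC_con`, `SC_of_con`, `SC_ext`.
-/

namespace SEY

open Finset

variable {E : Type} [Fintype E] [DecidableEq E]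

namespace BM

/-- `lam X ≤ 1` means: one of `X`, `S - X` is inside a class; reduction to one side. -/
lemma sc_of_half (M : BM E) (s : Fin 4 → E) (hs : ∀ i, s i ∈ M.S)
    (hne : ∀ i j, i ≠ j → ¬ M.Ser (s i) (s j)) (P : Finset E → Prop)
    (hP : ∀ X ⊆ M.S, M.lam X ≤ 1 → P X ∨ P (M.S \ X))
    (h : ∀ X ⊆ M.S, M.lam X ≤ 1 → P X →
      (∀ e ∈ X, ∀ f ∈ X, M.Ser e f) ∨ (∀ e ∈ M.S \ X, ∀ f ∈ M.S \ X, M.Ser e f)) : M.SC := by
  refine ⟨⟨s, hs, hne⟩, fun X hX h1 => ?_⟩
  rcases hP X hX h1 with h2 | h2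
  · exact h X hX h1 h2
  · have h3 := h (M.S \ X) Finset.sdiff_subset (by rw [M.lam_compl]; exact h1) h2
    have h4 : M.S \ (M.S \ X) = X := by
      rw [sdiff_sdiff_right_self]; exact Finset.inter_eq_right.2 hX
    rw [h4] at h3
    exact h3.symm

lemma sc_ser_con_iff (M : BM E) {a x y : E} (hx : x ∈ M.S) (hxa : x ≠ a) (hy : y ∈ M.S)
    (hya : y ≠ a) : (M.con {a}).Ser x y ↔ M.Ser x y := by
  constructor
  · intro h z hz
    have h1 := h (mask (M.S \ {a}) z) (by rw [mem_Z_con]; exact ⟨z, hz, rfl⟩)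
    rwa [mask_apply, mask_apply, if_pos (by simp [hx, hxa]), if_pos (by simp [hy, hya])] at h1
  · intro h z hz
    rw [mem_Z_con] at hz
    obtain ⟨w, hw, rfl⟩ := hz
    rw [mask_apply, mask_apply, if_pos (by simp [hx, hxa]), if_pos (by simp [hy, hya])]
    exact h w hw

/-- cycles of `M con a` extend to cycles of `M`, and are determined by the series partner -/
lemma sc_ext_cycle (M : BM E) {a b : E} (hab : a ≠ b) (hs : M.Ser a b)
    {z : E → ZMod 2} (hz : z ∈ (M.con {a}).Z) :
    ∃ w ∈ M.Z, w a = z b ∧ ∀ e, e ≠ a → w e = z e := by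
  rw [mem_Z_con] at hz
  obtain ⟨w, hw, rfl⟩ := hz
  have h : ∀ e, e ≠ a → w e = mask (M.S \ {a}) w e := by
    intro e he
    rw [mask_apply]
    split_ifs with h1
    · rfl
    · refine hw.1 e (fun h2 => h1 ?_)
      simp [h2, he]
  exact ⟨w, hw, by rw [hs w hw]; exact h b hab.symm, h⟩

lemma sc_con_cycle (M : BM E) {a : E} {w : E → ZMod 2} (hw : w ∈ M.Z) :
    ∃ z ∈ (M.con {a}).Z, z a = 0 ∧ ∀ e, e ≠ a → w e = z e := by
  refine ⟨mask (M.S \ {a}) w, (M.mem_Z_con).2 ⟨w, hw, rfl⟩, ?_, fun e he => ?_⟩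
  · rw [mask_apply, if_neg (by simp)]
  · rw [mask_apply]
    split_ifs with h1
    · rfl
    · refine hw.1 e (fun h2 => h1 ?_)
      simp [h2, he]

end BM

open BM in
theorem SC_con (M : BM E) (h : M.SC) (a b : E) (ha : a ∈ M.S) (hb : b ∈ M.S) (hab : a ≠ b)
    (hs : M.Ser a b) : (M.con {a}).SC ∧
      ∀ x ∈ M.S, x ≠ a → ∀ y ∈ M.S, y ≠ a → ((M.con {a}).Ser x y ↔ M.Ser x y) := by
  refine ⟨?_, fun x hx hxa y hy hya => M.sc_ser_con_iff hx hxa hy hya⟩
  obtain ⟨s, hsS, hne⟩ := h.1
  have hrep : ∀ i, ∃ x ∈ M.S, x ≠ a ∧ M.Ser x (s i) := by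
    intro i
    by_cases hi : s i = a
    · exact ⟨b, hb, hab.symm, by rw [hi]; exact hs.symm⟩
    · exact ⟨s i, hsS i, hi, Ser.refl M _⟩
  choose t ht hta hts using hrep
  have hmem : ∀ x, x ∈ (M.con {a}).S ↔ x ∈ M.S ∧ x ≠ a := by intro x; simp
  refine (M.con {a}).sc_of_half t (fun i => (hmem _).2 ⟨ht i, hta i⟩) (fun i j hij hser => ?_)
    (fun X => b ∈ X) (fun X hX _ => ?_) (fun X hX h1 hbX => ?_)
  · rw [M.sc_ser_con_iff (ht i) (hta i) (ht j) (hta j)] at hser
    exact hne i j hij (((hts i).symm.trans hser).trans (hts j))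
  · by_cases hbX : b ∈ X
    · exact Or.inl hbX
    · exact Or.inr (Finset.mem_sdiff.2 ⟨(hmem b).2 ⟨hb, hab.symm⟩, hbX⟩)
  · -- `b ∈ X`
    have haX : a ∉ X := fun h2 => ((hmem a).1 (hX h2)).2 rfl
    have hXS : insert a X ⊆ M.S := by
      intro x hx
      rcases Finset.mem_insert.1 hx with rfl | hx
      · exact ha
      · exact ((hmem x).1 (hX hx)).1
    have hlam : M.lam (insert a X) ≤ 1 := by
      have g1 := (M.con {a}).lam_add_dZ X
      have g2 := M.dZ_con_add {a} X
      have g3 := M.dZ_con_add {a} ((M.con {a}).S \ X)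
      have g4 := M.dZ_con_add {a} (M.con {a}).S
      rw [(M.con {a}).dZ_S] at g4
      have g5 : M.dZ ((M.con {a}).S ∪ {a}) = M.nul := by
        refine M.dZ_of_S_subset (fun x hx => ?_)
        by_cases hxa : x = a
        · simp [hxa]
        · simp [hxa, hx]
      have g6 := M.lam_add_dZ (insert a X)
      have g7 : X ∪ {a} = insert a X := by ext x; simp
      have g8 : M.dZ ((M.con {a}).S \ X ∪ {a}) = M.dZ (M.S \ insert a X) := by
        have : M.ZIn ((M.con {a}).S \ X ∪ {a}) = M.ZIn (M.S \ insert a X) := by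
          ext z
          rw [mem_ZIn, mem_ZIn]
          refine and_congr_right (fun hz => ⟨fun h2 e he => ?_, fun h2 e he => ?_⟩)
          · have hzb : z b = 0 := h2 b (by simp [hab.symm, hbX])
            by_cases hea : e = a
            · rw [hea, hs z hz, hzb]
            · refine h2 e (fun h3 => he ?_)
              simp only [Finset.mem_union, Finset.mem_sdiff, Finset.mem_singleton, hmem,
                Finset.mem_insert] at h3 ⊢
              tauto
          · refine h2 e (fun h3 => he ?_)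
            simp only [Finset.mem_union, Finset.mem_sdiff, Finset.mem_singleton, hmem,
              Finset.mem_insert] at h3 ⊢
            tauto
        show Module.finrank (ZMod 2) _ = Module.finrank (ZMod 2) _
        rw [this]
      have g9 : M.dZ {a} = 0 := by
        rw [M.dZ_eq_zero_iff]
        intro z hz h2
        refine h.no_cycle (A := {a}) ?_ hz h2
        intro x hx y hy
        rw [Finset.mem_singleton.1 hx, Finset.mem_singleton.1 hy]
        exact Ser.refl M _
      rw [g7] at g2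
      rw [g8] at g3
      rw [g5] at g4
      omega
    rcases h.2 _ hXS hlam with h2 | h2
    · left
      intro e he f hf
      have he' := (hmem e).1 (hX he)
      have hf' := (hmem f).1 (hX hf)
      rw [M.sc_ser_con_iff he'.1 he'.2 hf'.1 hf'.2]
      exact h2 e (Finset.mem_insert_of_mem he) f (Finset.mem_insert_of_mem hf)
    · right
      intro e he f hf
      have he' := (hmem e).1 (Finset.mem_sdiff.1 he).1
      have hf' := (hmem f).1 (Finset.mem_sdiff.1 hf).1
      rw [M.sc_ser_con_iff he'.1 he'.2 hf'.1 hf'.2]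
      have he'' := (Finset.mem_sdiff.1 he).2
      have hf'' := (Finset.mem_sdiff.1 hf).2
      exact h2 e (by simp [he'.1, he'.2, he'']) f (by simp [hf'.1, hf'.2, hf''])

open BM in
theorem SC_of_con (M : BM E) (a b : E) (ha : a ∈ M.S) (hb : b ∈ M.S) (hab : a ≠ b)
    (hs : M.Ser a b) (hcl : ∃ z ∈ M.Z, z a = 1) (h : (M.con {a}).SC) : M.SC ∧
      ∀ x ∈ M.S, x ≠ a → ∀ y ∈ M.S, y ≠ a → ((M.con {a}).Ser x y ↔ M.Ser x y) := by
  refine ⟨?_, fun x hx hxa y hy hya => M.sc_ser_con_iff hx hxa hy hya⟩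
  have hmem : ∀ x, x ∈ (M.con {a}).S ↔ x ∈ M.S ∧ x ≠ a := by intro x; simp
  have hcol : ∀ x ∈ M.S, ∃ z ∈ M.Z, z x = 1 := by
    intro x hx
    by_cases hxa : x = a
    · rw [hxa]; exact hcl
    · obtain ⟨z, hz, h1⟩ := h.not_coloop ((hmem x).2 ⟨hx, hxa⟩)
      obtain ⟨w, hw, -, h2⟩ := M.sc_ext_cycle hab hs hz
      exact ⟨w, hw, by rw [h2 x hxa]; exact h1⟩
  obtain ⟨s, hsS, hne⟩ := h.1
  -- cycles of `M` inside a class of `M con a` and avoiding `a` vanish
  have hno : ∀ X : Finset E, (∀ e ∈ X, ∀ f ∈ X, (M.con {a}).Ser e f) → ∀ w ∈ M.Z,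
      (∀ e, e ∉ X → w e = 0) → w a = 0 → w = 0 := by
    intro X hX w hw h0 hwa
    obtain ⟨z, hz, hza, hze⟩ := M.sc_con_cycle (a := a) hw
    have h1 : z = 0 := by
      refine h.no_cycle hX hz (fun e he => ?_)
      by_cases hea : e = a
      · rw [hea, hza]
      · rw [← hze e hea]; exact h0 e he
    ext e
    by_cases hea : e = a
    · rw [hea, hwa]; rfl
    · rw [hze e hea, h1]
  refine M.sc_of_half s (fun i => ((hmem _).1 (hsS i)).1) (fun i j hij hser => ?_)
    (fun X => a ∈ X) (fun X hX _ => ?_) (fun X hX h1 haX => ?_)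
  · have hi := (hmem _).1 (hsS i)
    have hj := (hmem _).1 (hsS j)
    exact hne i j hij ((M.sc_ser_con_iff hi.1 hi.2 hj.1 hj.2).2 hser)
  · by_cases haX : a ∈ X
    · exact Or.inl haX
    · exact Or.inr (Finset.mem_sdiff.2 ⟨ha, haX⟩)
  · have hXa : X.erase a ⊆ (M.con {a}).S := by
      intro x hx
      exact (hmem x).2 ⟨hX (Finset.mem_erase.1 hx).2, (Finset.mem_erase.1 hx).1⟩
    have hlam : (M.con {a}).lam (X.erase a) ≤ 1 := by
      have h2 := M.lam_con_le {a} X
      have h3 : (M.con {a}).lam (X.erase a) = (M.con {a}).lam X := by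
        refine lam_congr _ ?_
        ext x
        simp only [Finset.mem_inter, hmem, Finset.mem_erase]
        tauto
      omega
    by_cases hbX : b ∈ X
    · rcases h.2 _ hXa hlam with h2 | h2
      · left
        have h3 : ∀ e ∈ X, M.Ser e b := by
          intro e he
          by_cases hea : e = a
          · rw [hea]; exact hs
          · exact (M.sc_ser_con_iff (hX he) hea hb hab.symm).1
              (h2 e (Finset.mem_erase.2 ⟨hea, he⟩) b (Finset.mem_erase.2 ⟨hab.symm, hbX⟩))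
        intro e he f hf
        exact (h3 e he).trans (h3 f hf).symm
      · right
        intro e he f hf
        have he' := Finset.mem_sdiff.1 he
        have hf' := Finset.mem_sdiff.1 hf
        have hea : e ≠ a := fun h3 => he'.2 (h3 ▸ haX)
        have hfa : f ≠ a := fun h3 => hf'.2 (h3 ▸ haX)
        refine (M.sc_ser_con_iff he'.1 hea hf'.1 hfa).1 (h2 e ?_ f ?_)
        · rw [Finset.mem_sdiff, hmem, Finset.mem_erase]; tauto
        · rw [Finset.mem_sdiff, hmem, Finset.mem_erase]; tauto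
    · rcases h.2 _ hXa hlam with h2 | h2
      · left
        refine M.sc_ser_of_lam_le (fun x hx => hcol x (hX hx)) (fun w hw h0 => ?_) h1
        have hwa : w a = 0 := by rw [hs w hw]; exact h0 b hbX
        refine hno _ h2 w hw (fun e he => ?_) hwa
        by_cases hea : e = a
        · rw [hea, hwa]
        · exact h0 e (fun h3 => he (Finset.mem_erase.2 ⟨hea, h3⟩))
      · right
        intro e he f hf
        have he' := Finset.mem_sdiff.1 he
        have hf' := Finset.mem_sdiff.1 hf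
        have hea : e ≠ a := fun h3 => he'.2 (h3 ▸ haX)
        have hfa : f ≠ a := fun h3 => hf'.2 (h3 ▸ haX)
        refine (M.sc_ser_con_iff he'.1 hea hf'.1 hfa).1 (h2 e ?_ f ?_)
        · rw [Finset.mem_sdiff, hmem, Finset.mem_erase]; tauto
        · rw [Finset.mem_sdiff, hmem, Finset.mem_erase]; tauto

open BM in
/-- (EXT): adding an ear `P` which is not spanned by one series class. -/
theorem SC_ext (M : BM E) (P : Finset E) (hP : P ⊆ M.S) (hne : P.Nonempty)
    (h : (M.del P).SC) (z0 : E → ZMod 2) (hz0 : z0 ∈ M.Z) (h01 : ∀ p ∈ P, z0 p = 1)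
    (hear : ∀ z ∈ M.Z, (∀ p ∈ P, z p = 0) ∨ (∀ p ∈ P, z p = 1))
    (hout : ∀ z ∈ M.Z, (∀ p ∈ P, z p = 1) →
      ∃ a b, a ∉ P ∧ b ∉ P ∧ z a = 1 ∧ z b = 1 ∧ ¬ (M.del P).Ser a b) :
    M.SC ∧ ∀ a ∈ M.S, ∀ b ∈ M.S, (M.Ser a b ↔ (a ∈ P ∧ b ∈ P) ∨
      (a ∉ P ∧ b ∉ P ∧ (M.del P).Ser a b ∧ z0 a = z0 b)) := by
  have hmem : ∀ x, x ∈ (M.del P).S ↔ x ∈ M.S ∧ x ∉ P := by intro x; simp
  -- Ser of M implies Ser of the deletion
  have hser : ∀ a b, M.Ser a b → (M.del P).Ser a b :=
    fun a b hab z hz => hab z ((M.mem_Z_del).1 hz).1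
  have hcolN : ∀ x ∈ M.S, x ∉ P → ∃ z ∈ M.Z, z x = 1 ∧ ∀ p ∈ P, z p = 0 := by
    intro x hx hxP
    obtain ⟨z, hz, h1⟩ := h.not_coloop ((hmem x).2 ⟨hx, hxP⟩)
    exact ⟨z, ((M.mem_Z_del).1 hz).1, h1, ((M.mem_Z_del).1 hz).2⟩
  have hcol : ∀ x ∈ M.S, ∃ z ∈ M.Z, z x = 1 := by
    intro x hx
    by_cases hxP : x ∈ P
    · exact ⟨z0, hz0, h01 x hxP⟩
    · obtain ⟨z, hz, h1, -⟩ := hcolN x hx hxP
      exact ⟨z, hz, h1⟩
  have hPs : ∀ a ∈ P, ∀ b ∈ P, M.Ser a b := by
    intro a ha b hb z hz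
    rcases hear z hz with h1 | h1
    · rw [h1 a ha, h1 b hb]
    · rw [h1 a ha, h1 b hb]
  have hPout : ∀ a ∈ P, ∀ b ∈ M.S, b ∉ P → ¬ M.Ser a b := by
    intro a ha b hb hbP hab
    obtain ⟨z, hz, h1, h2⟩ := hcolN b hb hbP
    have := hab z hz
    rw [h1, h2 a ha] at this
    exact absurd this (by decide)
  refine ⟨?_, fun a ha b hb => ?_⟩
  · obtain ⟨s, hsS, hsne⟩ := h.1
    refine M.sc_of_half s (fun i => ((hmem _).1 (hsS i)).1)
      (fun i j hij hs => hsne i j hij (hser _ _ hs))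
      (fun X => ∀ e ∈ X \ P, ∀ f ∈ X \ P, (M.del P).Ser e f) (fun X hX h1 => ?_)
      (fun X hX h1 hXs => ?_)
    · have h2 : (M.del P).lam (X \ P) ≤ 1 := by
        have h3 := M.lam_del_le P X
        have h4 : (M.del P).lam (X \ P) = (M.del P).lam X := by
          refine lam_congr _ ?_
          ext x
          simp only [Finset.mem_inter, hmem, Finset.mem_sdiff]
          tauto
        omega
      rcases h.2 (X \ P) (fun x hx => (hmem x).2
        ⟨hX (Finset.mem_sdiff.1 hx).1, (Finset.mem_sdiff.1 hx).2⟩) h2 with h3 | h3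
      · exact Or.inl h3
      · right
        intro e he f hf
        refine h3 e ?_ f ?_
        · simp only [Finset.mem_sdiff, hmem] at he ⊢; tauto
        · simp only [Finset.mem_sdiff, hmem] at hf ⊢; tauto
    · left
      by_cases hPX : P ⊆ X ∨ Disjoint P X
      · -- no cycle inside `X`
        refine M.sc_ser_of_lam_le (fun x hx => hcol x (hX hx)) (fun z hz h0 => ?_) h1
        have hz0' : ∀ p ∈ P, z p = 0 := by
          rcases hear z hz with h2 | h2
          · exact h2
          · exfalso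
            obtain ⟨a, b, haP, hbP, hza, hzb, hab⟩ := hout z hz h2
            refine hab (hXs a ?_ b ?_)
            · rw [Finset.mem_sdiff]
              refine ⟨?_, haP⟩
              by_contra h3
              rw [h0 a h3] at hza; exact absurd hza (by decide)
            · rw [Finset.mem_sdiff]
              refine ⟨?_, hbP⟩
              by_contra h3
              rw [h0 b h3] at hzb; exact absurd hzb (by decide)
        refine h.no_cycle hXs ((M.mem_Z_del).2 ⟨hz, hz0'⟩) (fun e he => ?_)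
        by_cases heX : e ∈ X
        · have : e ∈ P := by
            by_contra h3
            exact he (Finset.mem_sdiff.2 ⟨heX, h3⟩)
          exact hz0' e this
        · exact h0 e heX
      · -- `P` meets both sides
        push Not at hPX
        obtain ⟨hPX1, hPX2⟩ := hPX
        obtain ⟨p1, hp1, hp1X⟩ := Finset.not_subset.1 hPX1
        obtain ⟨p2, hp2, hp2X⟩ := Finset.not_disjoint_iff.1 hPX2
        have hz1 : ∀ z ∈ M.Z, (∀ e, e ∉ X → z e = 0) → ∀ p ∈ P, z p = 0 := by
          intro z hz h2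
          rcases hear z hz with h3 | h3
          · exact h3
          · have := h3 p1 hp1
            rw [h2 p1 hp1X] at this
            exact absurd this (by decide)
        have hz2 : ∀ z ∈ M.Z, (∀ e, e ∉ M.S \ X → z e = 0) → ∀ p ∈ P, z p = 0 := by
          intro z hz h2
          rcases hear z hz with h3 | h3
          · exact h3
          · have := h3 p2 hp2
            rw [h2 p2 (by simp [hp2X])] at this
            exact absurd this (by decide)
        have g1 := M.lam_add_dZ X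
        have g2 := (M.del P).lam_add_dZ X
        have g3 := M.dZ_del P X
        have g4 := M.dZ_del P ((M.del P).S \ X)
        have g5 : M.dZ (X \ P) = M.dZ X := by
          have : M.ZIn (X \ P) = M.ZIn X := by
            ext z
            rw [mem_ZIn, mem_ZIn]
            refine and_congr_right (fun hz => ⟨fun h2 e he => h2 e (by simp [he]),
              fun h2 e he => ?_⟩)
            by_cases heX : e ∈ X
            · exact hz1 z hz h2 e (by
                by_contra h3; exact he (Finset.mem_sdiff.2 ⟨heX, h3⟩))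
            · exact h2 e heX
          show Module.finrank (ZMod 2) _ = Module.finrank (ZMod 2) _
          rw [this]
        have g6 : M.dZ (((M.del P).S \ X) \ P) = M.dZ (M.S \ X) := by
          have : M.ZIn (((M.del P).S \ X) \ P) = M.ZIn (M.S \ X) := by
            ext z
            rw [mem_ZIn, mem_ZIn]
            refine and_congr_right (fun hz => ⟨fun h2 e he => h2 e (fun h3 => he ?_),
              fun h2 e he => ?_⟩)
            · simp only [Finset.mem_sdiff, hmem] at h3 ⊢; tauto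
            · by_cases heX : e ∈ M.S \ X
              · exact hz2 z hz h2 e (by
                  by_contra h3
                  refine he ?_
                  simp only [Finset.mem_sdiff, hmem] at heX ⊢; tauto)
              · exact h2 e heX
          show Module.finrank (ZMod 2) _ = Module.finrank (ZMod 2) _
          rw [this]
        have g7 : (M.del P).nul < M.nul := by
          have h2 : (M.del P).Z < M.Z := by
            refine lt_of_le_of_ne (fun z hz => ((M.mem_Z_del).1 hz).1) (fun h3 => ?_)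
            rw [← h3] at hz0
            obtain ⟨p, hp⟩ := hne
            have h4 := ((M.mem_Z_del).1 hz0).2 p hp
            rw [h01 p hp] at h4
            exact absurd h4 (by decide)
          exact Submodule.finrank_lt_finrank_of_lt h2
        have g8 : (M.del P).lam X = 0 := by omega
        have g9 : (M.del P).lam (X \ P) = 0 := by
          rw [← g8]
          refine lam_congr _ ?_
          ext x
          simp only [Finset.mem_inter, hmem, Finset.mem_sdiff]
          tauto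
        have hsub : X \ P ⊆ (M.del P).S := fun x hx => (hmem x).2
          ⟨hX (Finset.mem_sdiff.1 hx).1, (Finset.mem_sdiff.1 hx).2⟩
        rcases h.lam_zero hsub g9 with h2 | h2
        · intro e he f hf
          rw [Finset.sdiff_eq_empty_iff_subset] at h2
          exact hPs e (h2 he) f (h2 hf)
        · exfalso
          have h3 := hXs (s 0) (by rw [h2]; exact hsS 0) (s 1) (by rw [h2]; exact hsS 1)
          exact hsne 0 1 (by decide) h3
  · constructor
    · intro hab
      by_cases haP : a ∈ P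
      · by_cases hbP : b ∈ P
        · exact Or.inl ⟨haP, hbP⟩
        · exact absurd hab (hPout a haP b hb hbP)
      · by_cases hbP : b ∈ P
        · exact absurd hab.symm (hPout b hbP a ha haP)
        · exact Or.inr ⟨haP, hbP, hser a b hab, hab z0 hz0⟩
    · rintro (⟨haP, hbP⟩ | ⟨haP, hbP, hab, h0⟩)
      · exact hPs a haP b hbP
      · intro z hz
        rcases hear z hz with h2 | h2
        · exact hab z ((M.mem_Z_del).2 ⟨hz, h2⟩)
        · have h3 := hab (z + z0) ((M.mem_Z_del).2 ⟨M.Z.add_mem hz hz0, fun p hp => by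
            rw [Pi.add_apply, h2 p hp, h01 p hp]; decide⟩)
          rw [Pi.add_apply, Pi.add_apply, h0] at h3
          exact add_right_cancel h3

end SEY

end
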