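import Pool.Agent.Helper29.MFA.T09
import Pool.Agent.Helper29.MFA.T12
import Pool.Agent.Helper29.MFA.T13
import Pool.Agent.Helper29.MFA.T14

section

/-!
Block SC (helper49, helper71), sections 0 and 1 of /team-store/helper25_SEY.md: facts on `SC` and
`HasT`.

Proved in the imports, with these names and statements (namespace `SEY`):
`ofRows`, `BM.Two`, `SC_not_coloop`, `SC_cycle`, `SC_lam_zero`, `SC_lam_class`, `TC_iff_SC`,
`SC_con`, `SC_of_con`, `SC_ext`, `SC_of_Sub`, `SC_of_map`, `HasT_of_del`, `HasT_con`,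
`HasT_of_con`, `HasT_switch`.
-/

namespace SEY

open Finset

variable {E : Type} [Fintype E] [DecidableEq E]

theorem K4_tc : (ofRows K4).TC := K4_tc'

theorem K33_tc : (ofRows K33).TC := K33_tc'

theorem HasMinor_of_HasT {r k : ℕ} {rows : Fin r → Fin k → ZMod 2} {M : BM E}
    (h : HasT rows M) : HasMinor rows M :=
  HasMinor_of_HasT' h

end SEY

end
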