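import Pool.Agent.Helper29.MFA.T15
import Pool.Agent.Helper29.MFA.T10

section

/-!
# Seymour, block FRAME: definitions (taken from Pool/Agent/Helper25/SEY/Frame.lean, word for word)

This file is imported by all modules of the block; in the end Helper25/SEY/Frame.lean will import
the modules. Do not import Helper25/SEY/Frame.lean in a module of the block.
-/

set_option autoImplicit false

namespace SEY

open Finset

variable {E : Type} [Fintype E] [DecidableEq E]
variable {V : Type} [Fintype V] [DecidableEq V]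

/-- `x` joins `u` and `v`. -/
def Jn (h t : E → V) (x : E) (u v : V) : Prop := (h x = u ∧ t x = v) ∨ (h x = v ∧ t x = u)

instance (h t : E → V) (x : E) (u v : V) : Decidable (Jn h t x u v) := by
  unfold Jn
  infer_instance

/-- Replace the vertex `u` by `v`. -/
def mg (u v : V) : V → V := fun w => if w = u then v else w

/-- The vertex set `T` after swapping at the vertices of `SS`. -/
def swT (S : Finset E) (h t : E → V) (U T SS : Finset V) : Finset V :=
  U.filter (fun v => Odd ((if v ∈ T then 1 else 0) +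
    ∑ s ∈ SS, (S.filter (fun x => Jn h t x s v)).card))

end SEY

end

section

/-!
# Seymour, block FRAME: elementary facts on `cob` and `IsGr`
-/

set_option autoImplicit false
set_option linter.unusedSectionVars false

namespace SEY

open Finset Module

variable {E : Type} [Fintype E] [DecidableEq E] {V V' : Type} [DecidableEq V] [DecidableEq V']

/-! ### arithmetic in `ZMod 2` -/

theorem z2_ne {a : ZMod 2} (h : a ≠ 0) : a = 1 := by revert a; decide

theorem z2_cases (a : ZMod 2) : a = 0 ∨ a = 1 := by revert a; decide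

theorem z2_add_self (a : ZMod 2) : a + a = 0 := by revert a; decide

theorem z2_add_eq_zero {a b : ZMod 2} : a + b = 0 ↔ a = b := by revert a b; decide

theorem z2_vec_add_self {X : Type} (f : X → ZMod 2) : f + f = 0 := by
  funext e; exact z2_add_self _

/-! ### `cob` -/

theorem cob_mem {S : Finset E} {h t : E → V} {π : V → ZMod 2} {e : E} (he : e ∈ S) :
    cob S h t π e = π (h e) + π (t e) := if_pos he

theorem cob_notMem {S : Finset E} {h t : E → V} {π : V → ZMod 2} {e : E} (he : e ∉ S) :
    cob S h t π e = 0 := if_neg he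

/-- The coboundary as a linear map. -/
def cobL (S : Finset E) (h t : E → V) : (V → ZMod 2) →ₗ[ZMod 2] (E → ZMod 2) where
  toFun π := cob S h t π
  map_add' π ρ := by
    funext e
    by_cases he : e ∈ S
    · rw [Pi.add_apply, cob_mem he, cob_mem he, cob_mem he, Pi.add_apply, Pi.add_apply]; ring
    · rw [Pi.add_apply, cob_notMem he, cob_notMem he, cob_notMem he, add_zero]
  map_smul' c π := by
    funext e
    by_cases he : e ∈ S
    · rw [Pi.smul_apply, cob_mem he, cob_mem he, Pi.smul_apply, Pi.smul_apply]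
      simp only [smul_eq_mul, RingHom.id_apply]; ring
    · rw [Pi.smul_apply, cob_notMem he, cob_notMem he, smul_zero]

theorem cobL_apply (S : Finset E) (h t : E → V) (π : V → ZMod 2) :
    cobL S h t π = cob S h t π := rfl

theorem cob_add (S : Finset E) (h t : E → V) (π ρ : V → ZMod 2) :
    cob S h t (π + ρ) = cob S h t π + cob S h t ρ := (cobL S h t).map_add π ρ

theorem cob_zero (S : Finset E) (h t : E → V) : cob S h t 0 = 0 := (cobL S h t).map_zero

theorem cob_const (S : Finset E) (h t : E → V) (c : ZMod 2) : cob S h t (fun _ => c) = 0 := by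
  funext e
  by_cases he : e ∈ S
  · rw [cob_mem he]; exact z2_add_self c
  · exact cob_notMem he

/-- `cob` only depends on the values at the ends. -/
theorem cob_congr {S : Finset E} {h t : E → V} {π ρ : V → ZMod 2} {U : Finset V}
    (hU : ∀ e ∈ S, h e ∈ U ∧ t e ∈ U) (hπ : ∀ v ∈ U, π v = ρ v) :
    cob S h t π = cob S h t ρ := by
  funext e
  by_cases he : e ∈ S
  · rw [cob_mem he, cob_mem he, hπ _ (hU e he).1, hπ _ (hU e he).2]
  · rw [cob_notMem he, cob_notMem he]

theorem mask_mem {A : Finset E} {f : E → ZMod 2} {e : E} (he : e ∈ A) : mask A f e = f e :=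
  if_pos he

theorem mask_notMem {A : Finset E} {f : E → ZMod 2} {e : E} (he : e ∉ A) : mask A f e = 0 :=
  if_neg he

theorem mask_cob (X S : Finset E) (h t : E → V) (π : V → ZMod 2) (hX : X ⊆ S) :
    mask X (cob S h t π) = cob X h t π := by
  funext e
  by_cases he : e ∈ X
  · rw [mask_mem he, cob_mem he, cob_mem (hX he)]
  · rw [mask_notMem he, cob_notMem he]

/-- The indicator of a set of vertices. -/
def indV (A : Finset V) : V → ZMod 2 := fun v => if v ∈ A then 1 else 0

theorem indV_mem {A : Finset V} {v : V} (hv : v ∈ A) : indV A v = 1 := if_pos hv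

theorem indV_notMem {A : Finset V} {v : V} (hv : v ∉ A) : indV A v = 0 := if_neg hv

theorem ind_mem {A : Finset E} {e : E} (he : e ∈ A) : ind A e = 1 := if_pos he

theorem ind_notMem {A : Finset E} {e : E} (he : e ∉ A) : ind A e = 0 := if_neg he

/-- `v` is an end of `e`. -/
def Inc (h t : E → V) (v : V) (e : E) : Prop := h e = v ∨ t e = v

instance (h t : E → V) (v : V) (e : E) : Decidable (Inc h t v e) :=
  inferInstanceAs (Decidable (h e = v ∨ t e = v))

theorem mem_star {S : Finset E} {h t : E → V} {v : V} {e : E} :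
    e ∈ star S h t v ↔ e ∈ S ∧ Inc h t v e := by
  rw [star, mem_filter]; rfl

/-- `cob` of the indicator of `A` vanishes at edges without end in `A`. -/
theorem cob_indV_disj {S : Finset E} {h t : E → V} {A : Finset V} {e : E}
    (hA : ∀ v, Inc h t v e → v ∉ A) : cob S h t (indV A) e = 0 := by
  by_cases he : e ∈ S
  · rw [cob_mem he, indV_notMem (hA _ (Or.inl rfl)), indV_notMem (hA _ (Or.inr rfl)), add_zero]
  · exact cob_notMem he

/-- `cob` of the indicator of `A` vanishes at edges with both ends in `A`. -/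
theorem cob_indV_sub {S : Finset E} {h t : E → V} {A : Finset V} {e : E}
    (hA : ∀ v, Inc h t v e → v ∈ A) : cob S h t (indV A) e = 0 := by
  by_cases he : e ∈ S
  · rw [cob_mem he, indV_mem (hA _ (Or.inl rfl)), indV_mem (hA _ (Or.inr rfl))]
    exact z2_add_self 1
  · exact cob_notMem he

/-- `cob` of the indicator of `A` at an edge with one end in `A` and one outside. -/
theorem cob_indV_one {S : Finset E} {h t : E → V} {A : Finset V} {e : E} (he : e ∈ S) {v w : V}
    (hv : v ∈ A) (hw : w ∉ A) (hve : Inc h t v e) (hwe : Inc h t w e) :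
    cob S h t (indV A) e = 1 := by
  rw [cob_mem he]
  rcases hve with rfl | rfl <;> rcases hwe with rfl | rfl
  · exact absurd hv hw
  · rw [indV_mem hv, indV_notMem hw, add_zero]
  · rw [indV_mem hv, indV_notMem hw, zero_add]
  · exact absurd hv hw

/-- `cob` of the indicator of `B ∩ A` and of `B` agree at the edges with both ends in `A`. -/
theorem cob_indV_inter {S : Finset E} {h t : E → V} {A B : Finset V} {e : E}
    (hA : ∀ v, Inc h t v e → v ∈ A) :
    cob S h t (indV (B ∩ A)) e = cob S h t (indV B) e := by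
  by_cases he : e ∈ S
  · have h1 : ∀ v, Inc h t v e → indV (B ∩ A) v = indV B v := by
      intro v hv
      by_cases hB : v ∈ B
      · rw [indV_mem hB, indV_mem (mem_inter.2 ⟨hB, hA v hv⟩)]
      · rw [indV_notMem hB, indV_notMem fun h => hB (mem_inter.1 h).1]
    rw [cob_mem he, cob_mem he, h1 _ (Or.inl rfl), h1 _ (Or.inr rfl)]
  · rw [cob_notMem he, cob_notMem he]

/-! ### `IsGr` -/

variable {M : BM E} {U : Finset V} {h t : E → V}

/-- The rows of a graph are the coboundaries of subsets. -/
theorem IsGr.mem_R (hG : IsGr M U h t) (π : V → ZMod 2) : cob M.S h t π ∈ M.R :=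
  (hG.rows _).2 ⟨π, rfl⟩

theorem IsGr.inc_mem (hG : IsGr M U h t) {e : E} (he : e ∈ M.S) {v : V} (hv : Inc h t v e) :
    v ∈ U := by
  rcases hv with rfl | rfl
  · exact (hG.ends e he).1
  · exact (hG.ends e he).2.1

/-- The two ends of an edge. -/
theorem IsGr.two_ends (hG : IsGr M U h t) {e : E} (he : e ∈ M.S) {v : V} (hv : Inc h t v e) :
    ∃ w ∈ U, w ≠ v ∧ Inc h t w e ∧ ∀ u, Inc h t u e → u = v ∨ u = w := by
  obtain ⟨h1, h2, h3⟩ := hG.ends e he
  rcases hv with rfl | rfl
  · refine ⟨t e, h2, h3.symm, Or.inr rfl, ?_⟩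
    rintro u (rfl | rfl)
    · exact Or.inl rfl
    · exact Or.inr rfl
  · refine ⟨h e, h1, h3, Or.inl rfl, ?_⟩
    rintro u (rfl | rfl)
    · exact Or.inr rfl
    · exact Or.inl rfl

theorem inc_le {h t : E → V} {e : E} {a b c : V} (ha : Inc h t a e) (hb : Inc h t b e)
    (hc : Inc h t c e) (hab : a ≠ b) : c = a ∨ c = b := by
  rcases ha with rfl | rfl <;> rcases hb with rfl | rfl <;> rcases hc with rfl | rfl <;> tauto

/-- Every row is the coboundary of a set of vertices. -/
theorem IsGr.exists_indV (hG : IsGr M U h t) {f : E → ZMod 2} (hf : f ∈ M.R) :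
    ∃ A ⊆ U, f = cob M.S h t (indV A) := by
  obtain ⟨π, rfl⟩ := (hG.rows f).1 hf
  refine ⟨U.filter fun v => π v ≠ 0, filter_subset _ _, ?_⟩
  refine cob_congr (U := U) (fun e he => ⟨(hG.ends e he).1, (hG.ends e he).2.1⟩) fun v hv => ?_
  by_cases h0 : π v = 0
  · rw [h0, indV_notMem]
    rw [mem_filter]; exact fun h => h.2 h0
  · rw [z2_ne h0, indV_mem]
    rw [mem_filter]; exact ⟨hv, h0⟩

/-- Complement. -/
theorem IsGr.cob_sdiff (hG : IsGr M U h t) (A : Finset V) :
    cob M.S h t (indV (U \ A)) = cob M.S h t (indV A) := by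
  have h1 : cob M.S h t (indV (U \ A)) = cob M.S h t (indV A + fun _ => 1) := by
    refine cob_congr (U := U) (fun e he => ⟨(hG.ends e he).1, (hG.ends e he).2.1⟩)
      fun v hv => ?_
    rw [Pi.add_apply]
    by_cases hA : v ∈ A
    · rw [indV_mem hA, indV_notMem fun h => (mem_sdiff.1 h).2 hA, z2_add_self]
    · rw [indV_notMem hA, indV_mem (mem_sdiff.2 ⟨hv, hA⟩), zero_add]
  rw [h1, cob_add, cob_const, add_zero]

/-- Every row is the coboundary of a set of vertices avoiding `w`. -/
theorem IsGr.exists_indV_notMem (hG : IsGr M U h t) (w : V) {f : E → ZMod 2} (hf : f ∈ M.R) :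
    ∃ A ⊆ U, w ∉ A ∧ f = cob M.S h t (indV A) := by
  obtain ⟨A, hA, rfl⟩ := hG.exists_indV hf
  by_cases hw : w ∈ A
  · exact ⟨U \ A, sdiff_subset, fun h => (mem_sdiff.1 h).2 hw, (hG.cob_sdiff A).symm⟩
  · exact ⟨A, hA, hw, rfl⟩

/-- The star as a vector. -/
theorem IsGr.cob_singleton (hG : IsGr M U h t) (v : V) :
    cob M.S h t (indV {v}) = ind (star M.S h t v) := by
  funext e
  by_cases he : e ∈ M.S
  · by_cases hv : Inc h t v e
    · rw [ind_mem (mem_star.2 ⟨he, hv⟩)]
      obtain ⟨w, -, hw, hwe, -⟩ := hG.two_ends he hv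
      exact cob_indV_one he (mem_singleton_self v) (by simpa using hw) hv hwe
    · rw [ind_notMem fun h => hv (mem_star.1 h).2]
      exact cob_indV_disj fun u hu huv => hv (by rw [mem_singleton] at huv; exact huv ▸ hu)
  · rw [cob_notMem he, ind_notMem fun h => he (mem_star.1 h).1]

theorem IsGr.star_mem0 (hG : IsGr M U h t) (v : V) : ind (star M.S h t v) ∈ M.R := by
  rw [← hG.cob_singleton]; exact hG.mem_R _

/-- Every vertex has an edge. -/
theorem IsGr.exists_inc (hG : IsGr M U h t) {v : V} (hv : v ∈ U) : ∃ e ∈ M.S, Inc h t v e :=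
  hG.ne v hv

/-- The only relations between the stars. -/
theorem IsGr.indV_eq_zero (hG : IsGr M U h t) {A : Finset V} (hA : A ⊆ U)
    (h0 : cob M.S h t (indV A) = 0) : A = ∅ ∨ A = U := by
  by_contra hne
  push Not at hne
  obtain ⟨⟨v, hv⟩, h2⟩ := hne
  obtain ⟨w, hw, hwA⟩ : ∃ w ∈ U, w ∉ A := by
    by_contra hn
    push Not at hn
    exact h2 (Subset.antisymm hA hn)
  have h3 := hG.conn _ h0 v (hA hv) w hw
  rw [indV_mem hv, indV_notMem hwA] at h3
  exact one_ne_zero h3

/-! ### ranks -/

/-- Extension by `0`. -/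
def extV (K : Finset V) : ({v // v ∈ K} → ZMod 2) →ₗ[ZMod 2] (V → ZMod 2) where
  toFun c := fun v => if hv : v ∈ K then c ⟨v, hv⟩ else 0
  map_add' c d := by
    funext v
    simp only [Pi.add_apply]
    split_ifs <;> simp
  map_smul' c d := by
    funext v
    simp only [Pi.smul_apply, RingHom.id_apply]
    split_ifs <;> simp

theorem extV_mem {K : Finset V} (c : {v // v ∈ K} → ZMod 2) {v : V} (hv : v ∈ K) :
    extV K c v = c ⟨v, hv⟩ := dif_pos hv

theorem IsGr.map_mask (hG : IsGr M U h t) {X : Finset E} (hX : X ⊆ M.S) {K : Finset V}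
    (hK : ∀ e ∈ X, h e ∈ K ∧ t e ∈ K) :
    M.R.map (mask X) = LinearMap.range (cobL X h t ∘ₗ extV K) := by
  ext f
  rw [Submodule.mem_map, LinearMap.mem_range]
  constructor
  · rintro ⟨g, hg, rfl⟩
    obtain ⟨π, rfl⟩ := (hG.rows g).1 hg
    refine ⟨fun v => π v.1, ?_⟩
    rw [mask_cob X M.S h t π hX, LinearMap.comp_apply, cobL_apply]
    exact cob_congr hK fun v hv => extV_mem _ hv
  · rintro ⟨c, rfl⟩
    refine ⟨cob M.S h t (extV K c), hG.mem_R _, ?_⟩
    rw [mask_cob X M.S h t _ hX]
    rfl

/-- A set of edges with all ends in `K` has rank less than `|K|`. -/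
theorem IsGr.r_lt (hG : IsGr M U h t) {X : Finset E} (hX : X ⊆ M.S) {K : Finset V}
    (hKn : K.Nonempty) (hK : ∀ e ∈ X, ∀ v, Inc h t v e → v ∈ K) : M.r X + 1 ≤ K.card := by
  have hK' : ∀ e ∈ X, h e ∈ K ∧ t e ∈ K := fun e he =>
    ⟨hK e he _ (Or.inl rfl), hK e he _ (Or.inr rfl)⟩
  unfold BM.r
  rw [hG.map_mask hX hK']
  have h1 := LinearMap.finrank_range_add_finrank_ker (cobL X h t ∘ₗ extV K)
  have h2 : 1 ≤ finrank (ZMod 2) (LinearMap.ker (cobL X h t ∘ₗ extV K)) := by
    rw [Submodule.one_le_finrank_iff]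
    intro h0
    have h3 : (fun _ => 1 : {v // v ∈ K} → ZMod 2) ∈
        LinearMap.ker (cobL X h t ∘ₗ extV K) := by
      rw [LinearMap.mem_ker, LinearMap.comp_apply, cobL_apply, ← cob_const X h t 1]
      exact cob_congr hK' fun v hv => extV_mem _ hv
    rw [h0, Submodule.mem_bot] at h3
    obtain ⟨v, hv⟩ := hKn
    exact one_ne_zero (congrFun h3 ⟨v, hv⟩)
  rw [finrank_fintype_fun_eq_card, Fintype.card_coe] at h1
  omega

/-- The rank of a graph. -/
theorem IsGr.rank (hG : IsGr M U h t) (hU : U.Nonempty) : M.r M.S + 1 = U.card := by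
  have hK' : ∀ e ∈ M.S, h e ∈ U ∧ t e ∈ U := fun e he =>
    ⟨(hG.ends e he).1, (hG.ends e he).2.1⟩
  unfold BM.r
  rw [hG.map_mask (Subset.refl _) hK']
  have h1 := LinearMap.finrank_range_add_finrank_ker (cobL M.S h t ∘ₗ extV U)
  have h2 : LinearMap.ker (cobL M.S h t ∘ₗ extV U) =
      Submodule.span (ZMod 2) {(fun _ => 1 : {v // v ∈ U} → ZMod 2)} := by
    apply le_antisymm
    · intro c hc
      rw [LinearMap.mem_ker, LinearMap.comp_apply, cobL_apply] at hc
      have h3 := hG.conn _ hc
      obtain ⟨v0, hv0⟩ := hU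
      rw [Submodule.mem_span_singleton]
      refine ⟨c ⟨v0, hv0⟩, ?_⟩
      funext v
      rw [Pi.smul_apply, smul_eq_mul, mul_one]
      have := h3 v0 hv0 v.1 v.2
      rwa [extV_mem _ hv0, extV_mem _ v.2] at this
    · rw [Submodule.span_le, Set.singleton_subset_iff, SetLike.mem_coe, LinearMap.mem_ker,
        LinearMap.comp_apply, cobL_apply, ← cob_const M.S h t 1]
      exact cob_congr hK' fun v hv => extV_mem _ hv
  rw [h2, finrank_span_singleton] at h1
  · rw [finrank_fintype_fun_eq_card, Fintype.card_coe] at h1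
    exact h1
  · intro h0
    obtain ⟨v, hv⟩ := hU
    exact one_ne_zero (congrFun h0 ⟨v, hv⟩)

/-- The edges meeting `Z`. -/
def meet (S : Finset E) (h t : E → V) (Z : Finset V) : Finset E :=
  S.filter fun e => h e ∈ Z ∨ t e ∈ Z

theorem mem_meet {S : Finset E} {h t : E → V} {Z : Finset V} {e : E} :
    e ∈ meet S h t Z ↔ e ∈ S ∧ ∃ z ∈ Z, Inc h t z e := by
  rw [meet, mem_filter]
  constructor
  · rintro ⟨h1, h2 | h2⟩
    · exact ⟨h1, _, h2, Or.inl rfl⟩
    · exact ⟨h1, _, h2, Or.inr rfl⟩
  · rintro ⟨h1, z, hz, rfl | rfl⟩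
    · exact ⟨h1, Or.inl hz⟩
    · exact ⟨h1, Or.inr hz⟩

theorem meet_subset (S : Finset E) (h t : E → V) (Z : Finset V) : meet S h t Z ⊆ S :=
  filter_subset _ _

/-- (SEP): a set `Z` of vertices attached to `T` only. -/
theorem IsGr.sep0 (hG : IsGr M U h t) {Z T : Finset V} (hTn : T.Nonempty)
    (hZ : Z.Nonempty) (hZU : Z ⊆ U) (hZc : ∃ v ∈ U, v ∉ Z)
    (hT : ∀ e ∈ M.S, ∀ z ∈ Z, Inc h t z e → ∀ v, Inc h t v e → v ∈ Z ∪ T) :
    M.lam (meet M.S h t Z) + 1 ≤ T.card := by
  have h1 : M.r (meet M.S h t Z) + 1 ≤ (Z ∪ T).card := by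
    refine hG.r_lt (meet_subset _ _ _ _) (hZ.mono subset_union_left) fun e he v hv => ?_
    obtain ⟨he', z, hz, hze⟩ := mem_meet.1 he
    exact hT e he' z hz hze v hv
  have h2 : M.r (M.S \ meet M.S h t Z) + 1 ≤ (U \ Z).card := by
    refine hG.r_lt sdiff_subset ?_ fun e he v hv => ?_
    · obtain ⟨v, hv, hvZ⟩ := hZc
      exact ⟨v, mem_sdiff.2 ⟨hv, hvZ⟩⟩
    · rw [mem_sdiff] at he ⊢
      exact ⟨hG.inc_mem he.1 hv, fun hvZ => he.2 (mem_meet.2 ⟨he.1, v, hvZ, hv⟩)⟩
  have h3 := card_union_le Z T
  have h4 := card_sdiff_add_card_eq_card hZU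
  have h5 := hG.rank (hZ.mono hZU)
  have h6 := card_pos.2 hTn
  unfold BM.lam
  omega

end SEY

end

section

/-!
# FRAME module FR-4: separations of graphs, degrees, parallel edges

`IsGr.sep`: let `T = U \ (X ∪ Y)`. If `T` is nonempty use `IsGr.sep0` of GrBasic with `Z = X` (an edge with one end in `X` has its
other end in `U \ Y`; the set of edges is `meet M.S h t X` by definition). If `T = ∅` then `U = X ∪ Y` and
`cob (indV X) = 0` (no edge between `X` and `Y`), so `X = ∅` or `X = U` by `IsGr.indV_eq_zero`, contradiction.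

`IsGr.card_U`: `IsGr.rank`.

`IsGr.two_le_deg`: the star of `v` is nonempty (`exists_inc`). If it is `{x}` then `ind {x} ∈ M.R` (`IsGr.star_mem0`), but there
is `z ∈ M.Z` with `z x = 1` (`SC_not_coloop`), `dot (ind {x}) z = z x = 1 ≠ 0`.

`IsGr.no_par`: suppose `x ≠ y`. All rows agree at `x` and `y`, so `ind {x, y} ∈ M.Z`; `SC_cycle` gives `a, b` in `{x, y}`, not in series,
so `¬ Ser x y` (`Ser` is symmetric and reflexive). `M.lam {x, y} ≤ M.r {x, y} ≤ 1` (`lam_le_r`; rank `≤ 1`: for example
`r_add_dZ` with `dZ {x,y} ≥ 1` by `dZ_pos_iff`). The second clause of `SC` for `A = {x, y}`: either `x, y` are in series, contradiction, or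
all elements of `S \ {x, y}` are in series; then of the four elements `s 0, .., s 3` of the first clause of `SC` two are
equal or both in `S \ {x, y}` (pigeonhole; `Ser a a` holds), contradiction.
-/

set_option autoImplicit false

namespace SEY

open Finset

variable {E : Type} [Fintype E] [DecidableEq E]
variable {V : Type} [Fintype V] [DecidableEq V]

/-- Separation by vertices. -/
theorem IsGr.sep {M : BM E} {U : Finset V} {h t : E → V} (hg : IsGr M U h t) (X Y : Finset V)
    (hX : X ⊆ U) (hY : Y ⊆ U) (hXY : Disjoint X Y) (hX0 : X.Nonempty) (hY0 : Y.Nonempty)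
    (hno : ∀ x ∈ M.S, ∀ u ∈ X, ∀ v ∈ Y, ¬ Jn h t x u v) :
    M.lam (M.S.filter (fun x => h x ∈ X ∨ t x ∈ X)) + 1 ≤ (U \ (X ∪ Y)).card := by
  by_cases hT : (U \ (X ∪ Y)).Nonempty
  · refine hg.sep0 hT hX0 hX ?_ ?_
    · obtain ⟨y, hy⟩ := hY0
      exact ⟨y, hY hy, fun hyX => disjoint_left.1 hXY hyX hy⟩
    · intro e he z hz hze v hv
      have hvU := hg.inc_mem he hv
      by_cases hvX : v ∈ X
      · exact mem_union_left _ hvX
      · have hvz : v ≠ z := fun h' => hvX (h' ▸ hz)
        have hvY : v ∉ Y := by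
          intro hvY
          apply hno e he z hz v hvY
          rcases hze with h1 | h1 <;> rcases hv with h2 | h2
          · exact absurd (h2.symm.trans h1) hvz
          · exact Or.inl ⟨h1, h2⟩
          · exact Or.inr ⟨h2, h1⟩
          · exact absurd (h2.symm.trans h1) hvz
        refine mem_union_right _ (mem_sdiff.2 ⟨hvU, fun h' => ?_⟩)
        rcases mem_union.1 h' with h' | h'
        · exact hvX h'
        · exact hvY h'
  · exfalso
    rw [not_nonempty_iff_eq_empty, sdiff_eq_empty_iff_subset] at hT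
    have h0 : cob M.S h t (indV X) = 0 := by
      funext e
      by_cases he : e ∈ M.S
      · obtain ⟨h1, h2, -⟩ := hg.ends e he
        have key : ∀ v w, Jn h t e v w → v ∈ X → w ∈ U → w ∈ X := by
          intro v w hj hv hw
          rcases mem_union.1 (hT hw) with h' | h'
          · exact h'
          · exact absurd hj (hno e he v hv w h')
        by_cases hh : h e ∈ X
        · have ht := key _ _ (Or.inl ⟨rfl, rfl⟩) hh h2
          refine cob_indV_sub fun v hv => ?_
          rcases hv with rfl | rfl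
          · exact hh
          · exact ht
        · have ht : t e ∉ X := fun ht => hh (key _ _ (Or.inr ⟨rfl, rfl⟩) ht h1)
          refine cob_indV_disj fun v hv => ?_
          rcases hv with rfl | rfl
          · exact hh
          · exact ht
      · exact cob_notMem he
    rcases hg.indV_eq_zero hX h0 with h1 | h1
    · exact hX0.ne_empty h1
    · obtain ⟨y, hy⟩ := hY0
      exact disjoint_left.1 hXY (h1 ▸ hY hy) hy

theorem IsGr.card_U {M : BM E} {U : Finset V} {h t : E → V} (hg : IsGr M U h t)
    (hne : M.S.Nonempty) : M.r M.S + 1 = U.card := by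
  obtain ⟨e, he⟩ := hne
  exact hg.rank ⟨h e, (hg.ends e he).1⟩

/-- In an `SC` graph all degrees are at least two. -/
theorem IsGr.two_le_deg {M : BM E} {U : Finset V} {h t : E → V} (hg : IsGr M U h t)
    (hsc : M.SC) {v : V} (hv : v ∈ U) : 2 ≤ (star M.S h t v).card := by
  obtain ⟨e, he, hi⟩ := hg.exists_inc hv
  have h1 : 0 < (star M.S h t v).card := card_pos.2 ⟨e, mem_star.2 ⟨he, hi⟩⟩
  by_contra h2
  have h3 : (star M.S h t v).card = 1 := by omega
  obtain ⟨x, hx⟩ := card_eq_one.1 h3
  have hxS : x ∈ M.S := by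
    have : x ∈ star M.S h t v := by
      rw [hx]
      exact mem_singleton_self x
    exact (mem_star.1 this).1
  have h4 := hg.star_mem0 v
  rw [hx] at h4
  obtain ⟨z, hz, hz1⟩ := SC_not_coloop M hsc x hxS
  have h5 := M.dot_eq_zero h4 hz
  rw [ind_dot, sum_singleton, hz1] at h5
  exact one_ne_zero h5

/-- If `S \ A` is contained in a series class and `A` in the union of two series classes, there are at
most three series classes. -/
theorem SC_three {M : BM E} (hsc : M.SC) (c : E → Fin 3)
    (hc : ∀ a ∈ M.S, ∀ b ∈ M.S, c a = c b → M.Ser a b) : False := by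
  obtain ⟨⟨s, hs, hs2⟩, -⟩ := hsc
  obtain ⟨i, j, hij, hcij⟩ := Fintype.exists_ne_map_eq_of_card_lt (fun i => c (s i)) (by simp)
  exact hs2 i j hij (hc _ (hs i) _ (hs j) hcij)

/-- There are no parallel edges in an `SC` graph. -/
theorem IsGr.no_par {M : BM E} {U : Finset V} {h t : E → V} (hg : IsGr M U h t)
    (hsc : M.SC) {x y : E} (hx : x ∈ M.S) (hy : y ∈ M.S) {u v : V} (hju : Jn h t x u v)
    (hjv : Jn h t y u v) : x = y := by
  by_contra hxy
  have hA : ({x, y} : Finset E) ⊆ M.S := by
    intro e he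
    rw [mem_insert, mem_singleton] at he
    rcases he with rfl | rfl
    · exact hx
    · exact hy
  have hrow : ∀ f ∈ M.R, f x = f y := by
    intro f hf
    obtain ⟨π, rfl⟩ := (hg.rows f).1 hf
    rw [cob_mem hx, cob_mem hy]
    rcases hju with ⟨a1, a2⟩ | ⟨a1, a2⟩ <;> rcases hjv with ⟨b1, b2⟩ | ⟨b1, b2⟩ <;>
      rw [a1, a2, b1, b2]
    · exact add_comm _ _
    · exact add_comm _ _
  have hz : ind ({x, y} : Finset E) ∈ M.Z := by
    rw [BM.mem_Z]
    refine ⟨fun e he => ind_notMem fun h' => he (hA h'), fun f hf => ?_⟩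
    rw [dot_ind, sum_pair hxy, hrow f hf]
    exact z2_add_self _
  have hz0 : (ind ({x, y} : Finset E) : E → ZMod 2) ≠ 0 := by
    intro h0
    have := congrFun h0 x
    rw [ind_mem (mem_insert_self x _)] at this
    exact one_ne_zero this
  have hser : ¬ M.Ser x y := by
    obtain ⟨a, b, ha, hb, hab⟩ := SC_cycle M hsc _ hz hz0
    have hmem : ∀ a : E, ind ({x, y} : Finset E) a = 1 → a = x ∨ a = y := by
      intro a ha
      by_contra h'
      push Not at h'
      rw [ind_notMem (by
        rw [mem_insert, mem_singleton]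
        rintro (h'' | h'')
        · exact h'.1 h''
        · exact h'.2 h'')] at ha
      exact zero_ne_one ha
    intro hs
    rcases hmem a ha with rfl | rfl <;> rcases hmem b hb with rfl | rfl
    · exact hab fun _ _ => rfl
    · exact hab hs
    · exact hab fun z hz => (hs z hz).symm
    · exact hab fun _ _ => rfl
  have hlam : M.lam {x, y} ≤ 1 := by
    have h1 := M.r_add_dZ hA
    rw [card_pair hxy] at h1
    have h2 : 0 < M.dZ {x, y} := by
      rw [BM.dZ_pos_iff]
      exact ⟨_, hz, hz0, fun e he => ind_notMem he⟩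
    have h3 := M.lam_le_r {x, y}
    omega
  rcases hsc.2 _ hA hlam with h1 | h1
  · exact hser (h1 x (mem_insert_self x _) y (mem_insert_of_mem (mem_singleton_self y)))
  · refine SC_three hsc (fun e => if e = x then 0 else if e = y then 1 else 2) ?_
    intro a ha b hb hab
    by_cases hax : a = x
    · by_cases hbx : b = x
      · rw [hax, hbx]
        exact fun _ _ => rfl
      · exfalso
        rw [if_pos hax, if_neg hbx] at hab
        by_cases hby : b = y
        · rw [if_pos hby] at hab
          exact absurd hab (by decide)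
        · rw [if_neg hby] at hab
          exact absurd hab (by decide)
    · rw [if_neg hax] at hab
      by_cases hbx : b = x
      · exfalso
        rw [if_pos hbx] at hab
        by_cases hay : a = y
        · rw [if_pos hay] at hab
          exact absurd hab (by decide)
        · rw [if_neg hay] at hab
          exact absurd hab (by decide)
      · rw [if_neg hbx] at hab
        by_cases hay : a = y
        · by_cases hby : b = y
          · rw [hay, hby]
            exact fun _ _ => rfl
          · exfalso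
            rw [if_pos hay, if_neg hby] at hab
            exact absurd hab (by decide)
        · by_cases hby : b = y
          · exfalso
            rw [if_neg hay, if_pos hby] at hab
            exact absurd hab (by decide)
          · apply h1
            · rw [mem_sdiff, mem_insert, mem_singleton]
              exact ⟨ha, fun h' => h'.elim hax hay⟩
            · rw [mem_sdiff, mem_insert, mem_singleton]
              exact ⟨hb, fun h' => h'.elim hbx hby⟩

end SEY

end
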