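import Pool.Agent.Helper29.MFA.T19

section

/-!
# FRAME module FR-1: closure properties of `Graphic`

Library: GrBasic (cob_mem, cob_notMem, cob_add, cob_const, cob_congr, mask_cob, ...), SEYApi (helper71:
mem_con, mem_del, mem_R_iff, dot_ind, ...).

`Graphic_con`: `M.R = {cob S h t π}`. Let `q : V → V'` be the quotient of `V` by the equivalence relation
generated by `h c ~ t c`, `c ∈ C ∩ M.S` (`Relation.EqvGen`, `Quotient`, `Fintype.ofFinite` / classical). A row
`cob π` of `M` vanishes on `C` iff `π (h c) = π (t c)` for all `c ∈ C ∩ M.S` iff `π` is constant on the classes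
iff `π = π' ∘ q`. So the rows of `M.con C` are `cob (S \ C) (q ∘ h) (q ∘ t) π'`.

`Graphic_del`: same `V, h, t`; `mask (S \ D) (cob S h t π) = cob (S \ D) h t π` (`mask_cob`).

`Graphic_of_con`: `Ser a b` gives `ind {a, b} ∈ M.R` (`mem_R_iff`: `dot (ind {a,b}) z = z a + z b = 0`). `M.con {a}` has
`V, h, t`. Take `Option V` as new vertex set; all `x ≠ a, b`: `some (h x), some (t x)`; `b`: `some (h b), none`; `a`: `none,
some (t b)`. Rows of the new graph: `cob' π'` with `c := π' none + π' (some (t b))`: if `c = 0` it is the row `cob (S \ {a})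
h t π` of `M.con {a}` (value `0` at `a`); if `c = 1` it is that row plus `ind {a, b}`. Conversely `f ∈ M.R`: `f` or
`f + ind {a, b}` vanishes at `a`, so it is a row of `M.con {a}`, `cob (S\{a}) h t π`; extend `π` to `none` by `π (t b)`
or `π (t b) + 1`. (The hypothesis `hcl` is not needed.)

`Graphic_of_IsIso`: `V := Option (Fin n)` (an additional vertex because `n` may be `0`), `h (φ j) = some (ends j).1`, `t (φ j) =
some (ends j).2`, `none` outside the range of `φ`. `∑ i, c i * grRows ends i j = c (ends j).1 + c (ends j).2`.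
-/

set_option autoImplicit false

namespace SEY

open Finset

variable {E : Type} [Fintype E] [DecidableEq E]
variable {V : Type} [Fintype V] [DecidableEq V]

theorem Graphic_con {M : BM E} (h : Graphic M) (C : Finset E) : Graphic (M.con C) := by
  classical
  obtain ⟨V, _, hh, tt, hrows⟩ := h
  let rel : V → V → Prop := fun u v => ∃ c, c ∈ C ∧ c ∈ M.S ∧ u = hh c ∧ v = tt c
  have hfin : Finite (Quot rel) := Finite.of_surjective (Quot.mk rel) Quot.exists_rep
  refine ⟨Quot rel, Fintype.ofFinite _, fun e => Quot.mk rel (hh e), fun e => Quot.mk rel (tt e),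
    fun f => ?_⟩
  constructor
  · rintro ⟨hf, hf0⟩
    obtain ⟨π, rfl⟩ := (hrows f).1 hf
    have hπ : ∀ u v, rel u v → π u = π v := by
      rintro u v ⟨c, hc, hcS, rfl, rfl⟩
      have := hf0 c hc
      rw [cob_mem hcS] at this
      exact z2_add_eq_zero.1 this
    refine ⟨Quot.lift π hπ, ?_⟩
    funext e
    by_cases he : e ∈ M.S \ C
    · rw [BM.con_S, cob_mem he, cob_mem (mem_sdiff.1 he).1]
    · rw [BM.con_S, cob_notMem he]
      by_cases heC : e ∈ C
      · exact hf0 e heC
      · exact cob_notMem fun h => he (mem_sdiff.2 ⟨h, heC⟩)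
  · rintro ⟨π, rfl⟩
    have hz : ∀ e ∈ M.S, e ∈ C → π (Quot.mk rel (hh e)) + π (Quot.mk rel (tt e)) = 0 := by
      intro e he heC
      rw [show Quot.mk rel (hh e) = Quot.mk rel (tt e) from
        Quot.sound ⟨e, heC, he, rfl, rfl⟩]
      exact z2_add_self _
    have h1 : cob (M.con C).S (fun e => Quot.mk rel (hh e)) (fun e => Quot.mk rel (tt e)) π =
        cob M.S hh tt (fun v => π (Quot.mk rel v)) := by
      funext e
      by_cases he : e ∈ M.S
      · by_cases heC : e ∈ C
        · rw [BM.con_S, cob_notMem (fun h => (mem_sdiff.1 h).2 heC), cob_mem he]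
          exact (hz e he heC).symm
        · rw [BM.con_S, cob_mem (mem_sdiff.2 ⟨he, heC⟩), cob_mem he]
      · rw [BM.con_S, cob_notMem (fun h => he (mem_sdiff.1 h).1), cob_notMem he]
    rw [h1, BM.mem_con]
    refine ⟨(hrows _).2 ⟨_, rfl⟩, fun e he => ?_⟩
    by_cases heS : e ∈ M.S
    · rw [cob_mem heS]; exact hz e heS he
    · exact cob_notMem heS

/-- Series extensions of graphic matroids are graphic. -/
theorem Graphic_of_con {M : BM E} {a b : E} (ha : a ∈ M.S) (hb : b ∈ M.S) (hab : a ≠ b)
    (hs : M.Ser a b) (hcl : ∃ z ∈ M.Z, z a = 1) (h : Graphic (M.con {a})) : Graphic M := by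
  classical
  have hind : (ind {a, b} : E → ZMod 2) ∈ M.R := by
    rw [BM.mem_R_iff]
    constructor
    · intro e he
      refine ind_notMem fun h => ?_
      rw [mem_insert, mem_singleton] at h
      rcases h with rfl | rfl
      · exact he ha
      · exact he hb
    · intro z hz
      rw [ind_dot, sum_pair hab, hs z hz]
      exact z2_add_self _
  have hia : (ind {a, b} : E → ZMod 2) a = 1 := ind_mem (by simp)
  have hib : (ind {a, b} : E → ZMod 2) b = 1 := ind_mem (by simp)
  have hie : ∀ e, e ≠ a → e ≠ b → (ind {a, b} : E → ZMod 2) e = 0 := fun e h1 h2 =>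
    ind_notMem (by simp [h1, h2])
  obtain ⟨V, iV, hh, tt, hrows⟩ := h
  have hba : b ≠ a := hab.symm
  let h' : E → Option V := fun x => if x = a then none else some (hh x)
  let t' : E → Option V := fun x =>
    if x = b then none else if x = a then some (tt b) else some (tt x)
  have key : ∀ π' : Option V → ZMod 2, cob M.S h' t' π' =
      cob (M.S \ {a}) hh tt (fun v => π' (some v)) +
        (π' none + π' (some (tt b))) • (ind {a, b} : E → ZMod 2) := by
    intro π'
    funext e
    rw [Pi.add_apply, Pi.smul_apply, smul_eq_mul]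
    by_cases hea : e = a
    · subst hea
      rw [cob_mem ha, cob_notMem (by simp), hia]
      simp [h', t', hab]
    · by_cases heb : e = b
      · subst heb
        rw [cob_mem hb, cob_mem (by simp [hb, hba]), hib]
        simp only [h', t', if_neg hba, if_true]
        generalize π' (some (hh e)) = u
        generalize π' (some (tt e)) = v
        generalize π' none = w
        revert u v w
        decide
      · rw [hie e hea heb, mul_zero, add_zero]
        by_cases heS : e ∈ M.S
        · rw [cob_mem heS, cob_mem (by simp [heS, hea])]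
          simp only [h', t', if_neg hea, if_neg heb]
        · rw [cob_notMem heS, cob_notMem (by simp [heS])]
  refine ⟨Option V, inferInstance, h', t', fun f => ?_⟩
  constructor
  · intro hf
    have hg : f + f a • (ind {a, b} : E → ZMod 2) ∈ (M.con {a}).R := by
      refine ⟨M.R.add_mem hf (M.R.smul_mem _ hind), fun e he => ?_⟩
      rw [mem_singleton] at he
      subst he
      rw [Pi.add_apply, Pi.smul_apply, smul_eq_mul, hia, mul_one]
      exact z2_add_self _
    obtain ⟨π, hπ⟩ := (hrows _).1 hg
    let π' : Option V → ZMod 2 := fun o => match o with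
      | none => π (tt b) + f a
      | some v => π v
    refine ⟨π', ?_⟩
    have e1 : π' none + π' (some (tt b)) = f a := by
      show π (tt b) + f a + π (tt b) = f a
      generalize π (tt b) = u
      generalize f a = v
      revert u v
      decide
    rw [key π', e1]
    show f = cob (M.S \ {a}) hh tt π + f a • (ind {a, b} : E → ZMod 2)
    rw [BM.con_S] at hπ
    rw [← hπ, add_assoc, z2_vec_add_self, add_zero]
  · rintro ⟨π', rfl⟩
    rw [key π']
    refine M.R.add_mem ?_ (M.R.smul_mem _ hind)
    exact ((hrows _).2 ⟨_, rfl⟩ : _ ∈ (M.con {a}).R).1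

theorem Graphic_of_IsIso {n k : ℕ} (ends : Fin k → Fin n × Fin n) {M : BM E}
    (h : IsIso (grRows ends) M) : Graphic M := by
  classical
  obtain ⟨φ, hφ, hS, h1, h2⟩ := h
  choose F hF hF' using h1
  have hsum : ∀ (c : Fin n → ZMod 2) (j : Fin k),
      ∑ i, c i * grRows ends i j = c (ends j).1 + c (ends j).2 := by
    intro c j
    simp [grRows, mul_add, Finset.sum_add_distrib]
  let hh : E → Option (Fin n) := fun e =>
    if he : ∃ j, φ j = e then some (ends he.choose).1 else none
  let tt : E → Option (Fin n) := fun e =>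
    if he : ∃ j, φ j = e then some (ends he.choose).2 else none
  have hch : ∀ j, (⟨j, rfl⟩ : ∃ i, φ i = φ j).choose = j := fun j =>
    hφ (⟨j, rfl⟩ : ∃ i, φ i = φ j).choose_spec
  have hhφ : ∀ j, hh (φ j) = some (ends j).1 := by
    intro j
    simp only [hh]
    rw [dif_pos ⟨j, rfl⟩, hch]
  have htφ : ∀ j, tt (φ j) = some (ends j).2 := by
    intro j
    simp only [tt]
    rw [dif_pos ⟨j, rfl⟩, hch]
  refine ⟨Option (Fin n), inferInstance, hh, tt, fun f => ?_⟩
  constructor
  · intro hf
    obtain ⟨c, hc⟩ := h2 f hf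
    refine ⟨fun o => match o with
      | none => 0
      | some i => c i, ?_⟩
    funext e
    by_cases he : e ∈ M.S
    · obtain ⟨j, rfl⟩ := (hS e).1 he
      rw [cob_mem he, hc, hsum, hhφ, htφ]
    · rw [cob_notMem he, M.supp f hf e he]
  · rintro ⟨π, rfl⟩
    have h3 : cob M.S hh tt π = ∑ i, π (some i) • F i := by
      funext e
      rw [Finset.sum_apply]
      by_cases he : e ∈ M.S
      · obtain ⟨j, rfl⟩ := (hS e).1 he
        rw [cob_mem he, hhφ, htφ]
        simp only [Pi.smul_apply, smul_eq_mul, hF']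
        exact (hsum (fun i => π (some i)) j).symm
      · rw [cob_notMem he]
        symm
        refine Finset.sum_eq_zero fun i _ => ?_
        rw [Pi.smul_apply, M.supp _ (hF i) e he, smul_zero]
    rw [h3]
    exact Submodule.sum_mem _ fun i _ => M.R.smul_mem _ (hF i)

end SEY

end

section

/-!
# FRAME module FR-2: graphs of `SC` graphic matroids; the graphs `K4`, `K33`

`exists_IsGr`: `M.R = {cob S h t π}`, `V` finite. Take `U := {v | ∃ e ∈ S, h e = v ∨ t e = v}` (classical decidable
equality on `V`). No loops: if `h e = t e` then all rows vanish at `e`, so `ind {e} ∈ M.Z`, and `SC_cycle` gives `a, b` with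
`ind {e} a = 1 = ind {e} b`, so `a = b = e`, and `¬ Ser e e`, absurd. `conn`: let `cob π = 0`, `π u ≠ π v`, `u, v ∈ U`. Let `X =
{e ∈ S | π (h e) = 1}` (`π (h e) = π (t e)` for all `e ∈ S`). `X` and `S \ X` are nonempty (an edge at `u`, an edge at `v`). For every
row `f = cob ρ`: `mask X f = cob (ρ * π)` is a row. So `M.lam X = 0` (for example: `M.lam_add_dR X`; every row is the sum of a row
in `X` and a row in `S \ X`, so `rk ≤ dR X + dR (S \ X)`), so `X = ∅` or `X = S` by `SC_lam_zero`, contradiction.
The helper lemma `lam_eq_zero_of_mask` states this.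

`K4_gr`, `K33_gr`: `ofRows` has all of `Fin k` as ground set and row space `span (range (grRows ends))`.
`f ∈ span (range (grRows ends)) ↔ ∃ c, ∑ i, c i • grRows ends i = f` (`Submodule.mem_span_range_iff_exists_fun`) and
`∑ i, c i * grRows ends i e = c (ends e).1 + c (ends e).2` (`grRows_sum`). `ends`, `ne`: `decide`. `conn`: evaluate `cob = 0` at
the edges (all vertices of K33 are joined to vertex 3 or via 0 to it), or `decide` after generalising.
-/

set_option autoImplicit false
set_option linter.unusedSectionVars false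

namespace SEY

open Finset

variable {E : Type} [Fintype E] [DecidableEq E]
variable {V : Type} [Fintype V] [DecidableEq V]

/-- If the restrictions of all rows to `X` are rows then `X` is a union of components. -/
theorem lam_eq_zero_of_mask {M : BM E} {X : Finset E} (hX : X ⊆ M.S)
    (hm : ∀ f ∈ M.R, mask X f ∈ M.R) : M.lam X = 0 := by
  have h1 : M.R.map (mask X) ≤ M.R := by
    rintro _ ⟨f, hf, rfl⟩
    exact hm f hf
  have h2 : M.R.map (mask (M.S \ X)) ≤ M.R := by
    rintro _ ⟨f, hf, rfl⟩
    have h3 : mask (M.S \ X) f = f - mask X f := by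
      funext e
      rw [Pi.sub_apply]
      by_cases he : e ∈ X
      · rw [mask_mem he, mask_notMem (fun h => (mem_sdiff.1 h).2 he), sub_self]
      · rw [mask_notMem he, sub_zero]
        by_cases heS : e ∈ M.S
        · rw [mask_mem (mem_sdiff.2 ⟨heS, he⟩)]
        · rw [mask_notMem (fun h => heS (mem_sdiff.1 h).1), M.supp f hf e heS]
    rw [h3]
    exact M.R.sub_mem hf (hm f hf)
  have h3 : Disjoint (M.R.map (mask X)) (M.R.map (mask (M.S \ X))) := by
    rw [Submodule.disjoint_def]
    rintro x ⟨f, hf, rfl⟩ ⟨g, hg, hfg⟩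
    funext e
    by_cases he : e ∈ X
    · rw [← congrFun hfg e, mask_notMem (fun h => (mem_sdiff.1 h).2 he)]; rfl
    · rw [mask_notMem he]; rfl
  have h4 := Submodule.finrank_sup_add_finrank_inf_eq (M.R.map (mask X))
    (M.R.map (mask (M.S \ X)))
  rw [h3.eq_bot, finrank_bot, add_zero] at h4
  have h5 := Submodule.finrank_mono (sup_le h1 h2)
  have h6 := M.lam_add_rk X
  unfold BM.r BM.rk at h6
  (clear * - h4 h5 h6; omega)

/-- The graph of an `SC` matroid whose rows are the coboundaries. -/
theorem isGr_of_rows {M : BM E} (hsc : M.SC) {h t : E → V}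
    (hr : ∀ f, f ∈ M.R ↔ ∃ π : V → ZMod 2, f = cob M.S h t π) :
    IsGr M (univ.filter fun v => ∃ x ∈ M.S, Inc h t v x) h t := by
  refine ⟨fun x hx => ⟨?_, ?_, ?_⟩, hr, ?_, ?_⟩
  · rw [mem_filter]; exact ⟨mem_univ _, x, hx, Or.inl rfl⟩
  · rw [mem_filter]; exact ⟨mem_univ _, x, hx, Or.inr rfl⟩
  · intro hxx
    have h1 : (ind {x} : E → ZMod 2) ∈ M.Z := by
      refine ⟨fun y hy => ind_notMem fun h2 => hy ?_, fun f hf => ?_⟩
      · rw [mem_singleton] at h2; rw [h2]; exact hx
      · obtain ⟨π, rfl⟩ := (hr f).1 hf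
        rw [dot_ind, sum_singleton, cob_mem hx, hxx]
        exact z2_add_self _
    obtain ⟨a, b, ha, hb, hab⟩ := SC_cycle M hsc _ h1 (fun h2 => by
      have := congrFun h2 x
      rw [ind_mem (mem_singleton_self x)] at this
      exact one_ne_zero this)
    have ha' : a = x := by
      by_contra hne
      rw [ind_notMem (by simpa using hne)] at ha
      exact zero_ne_one ha
    have hb' : b = x := by
      by_contra hne
      rw [ind_notMem (by simpa using hne)] at hb
      exact zero_ne_one hb
    subst ha'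
    subst hb'
    exact hab fun z _ => rfl
  · intro π hπ u hu v hv
    by_contra huv
    rw [mem_filter] at hu hv
    obtain ⟨-, x, hx, hux⟩ := hu
    obtain ⟨-, y, hy, hvy⟩ := hv
    have hpar : ∀ z ∈ M.S, π (h z) = π (t z) := by
      intro z hz
      have := congrFun hπ z
      rw [cob_mem hz] at this
      exact z2_add_eq_zero.1 this
    have hinc : ∀ z ∈ M.S, ∀ w, Inc h t w z → π (h z) = π w := by
      rintro z hz w (rfl | rfl)
      · rfl
      · exact hpar z hz
    set X : Finset E := M.S.filter fun z => π (h z) = 1 with hX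
    have hl : M.lam X = 0 := by
      refine lam_eq_zero_of_mask (filter_subset _ _) fun f hf => ?_
      obtain ⟨ρ, rfl⟩ := (hr f).1 hf
      refine (hr _).2 ⟨fun w => ρ w * π w, ?_⟩
      funext z
      by_cases hz : z ∈ M.S
      · rw [cob_mem hz, ← hpar z hz]
        by_cases hzX : z ∈ X
        · rw [mask_mem hzX, cob_mem hz]
          have := (mem_filter.1 hzX).2
          rw [this]; ring
        · rw [mask_notMem hzX]
          have h0 : π (h z) = 0 := by
            by_contra h0
            exact hzX (mem_filter.2 ⟨hz, z2_ne h0⟩)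
          rw [h0]; ring
      · rw [mask_notMem (fun h1 => hz (mem_filter.1 h1).1), cob_notMem hz]
    have hxX : π u = 1 → x ∈ X := fun h1 => mem_filter.2 ⟨hx, by rw [hinc x hx u hux, h1]⟩
    have hyX : π v = 1 → y ∈ X := fun h1 => mem_filter.2 ⟨hy, by rw [hinc y hy v hvy, h1]⟩
    have hxX' : π u = 0 → x ∉ X := fun h1 h2 => by
      have := (mem_filter.1 h2).2
      rw [hinc x hx u hux, h1] at this
      exact zero_ne_one this
    have hyX' : π v = 0 → y ∉ X := fun h1 h2 => by
      have := (mem_filter.1 h2).2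
      rw [hinc y hy v hvy, h1] at this
      exact zero_ne_one this
    rcases SC_lam_zero M hsc X (filter_subset _ _) hl with h1 | h1
    · rw [h1] at hxX hyX
      rcases z2_cases (π u) with h2 | h2 <;> rcases z2_cases (π v) with h3 | h3
      · exact huv (h2.trans h3.symm)
      · exact absurd (hyX h3) (notMem_empty _)
      · exact absurd (hxX h2) (notMem_empty _)
      · exact absurd (hxX h2) (notMem_empty _)
    · rw [h1] at hxX' hyX'
      rcases z2_cases (π u) with h2 | h2 <;> rcases z2_cases (π v) with h3 | h3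
      · exact hxX' h2 hx
      · exact hxX' h2 hx
      · exact hyX' h3 hy
      · exact huv (h2.trans h3.symm)
  · intro v hv
    obtain ⟨-, x, hx, hvx⟩ := mem_filter.1 hv
    exact ⟨x, hx, hvx⟩

/-- An `SC` graphic matroid is the matroid of a connected loopless graph. -/
theorem exists_IsGr {M : BM E} (hsc : M.SC) (h : Graphic M) :
    ∃ (V : Type) (_ : Fintype V) (_ : DecidableEq V) (U : Finset V) (hd tl : E → V),
      IsGr M U hd tl := by
  obtain ⟨V, hV, hd, tl, hr⟩ := h
  classical
  exact ⟨V, hV, inferInstance, _, hd, tl, isGr_of_rows hsc hr⟩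

theorem grRows_sum {n k : ℕ} (ends : Fin k → Fin n × Fin n) (c : Fin n → ZMod 2) (e : Fin k) :
    ∑ i, c i * grRows ends i e = c (ends e).1 + c (ends e).2 := by
  unfold grRows
  simp only [mul_add, mul_ite, mul_one, mul_zero, sum_add_distrib, sum_ite_eq, mem_univ, if_true]

theorem ofRows_gr {n k : ℕ} (ends : Fin k → Fin n × Fin n) (f : Fin k → ZMod 2) :
    f ∈ (ofRows (grRows ends)).R ↔ ∃ π : Fin n → ZMod 2,
      f = cob (ofRows (grRows ends)).S (fun j => (ends j).1) (fun j => (ends j).2) π := by
  have hS : (ofRows (grRows ends)).S = univ := rfl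
  have hR : (ofRows (grRows ends)).R = Submodule.span (ZMod 2) (Set.range (grRows ends)) := rfl
  rw [hR, hS, Submodule.mem_span_range_iff_exists_fun]
  constructor
  · rintro ⟨c, rfl⟩
    refine ⟨c, ?_⟩
    funext e
    rw [cob_mem (mem_univ e), ← grRows_sum, Finset.sum_apply]
    rfl
  · rintro ⟨c, rfl⟩
    refine ⟨c, ?_⟩
    funext e
    rw [cob_mem (mem_univ e), ← grRows_sum, Finset.sum_apply]
    rfl

theorem K4_gr : IsGr (ofRows K4) Finset.univ (fun j => (K4e j).1) (fun j => (K4e j).2) := by
  refine ⟨fun e _ => ⟨mem_univ _, mem_univ _, ?_⟩, ofRows_gr K4e, ?_, ?_⟩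
  · revert e; decide
  · intro π hπ u _ v _
    have h1 : ∀ j, π (K4e j).1 = π (K4e j).2 := fun j => by
      have := congrFun hπ j
      rw [cob_mem (show j ∈ (ofRows K4).S from mem_univ j)] at this
      exact z2_add_eq_zero.1 this
    have h0 : ∀ v, π v = π 0 := by
      intro v
      fin_cases v
      · rfl
      · exact (h1 0).symm
      · exact (h1 1).symm
      · exact (h1 2).symm
    rw [h0 u, h0 v]
  · intro v _
    have : ∃ e : Fin 6, (K4e e).1 = v ∨ (K4e e).2 = v := by revert v; decide
    obtain ⟨e, he⟩ := this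
    exact ⟨e, mem_univ _, he⟩

theorem K33_gr : IsGr (ofRows K33) Finset.univ (fun j => (K33e j).1) (fun j => (K33e j).2) := by
  refine ⟨fun e _ => ⟨mem_univ _, mem_univ _, ?_⟩, ofRows_gr K33e, ?_, ?_⟩
  · revert e; decide
  · intro π hπ u _ v _
    have h1 : ∀ j, π (K33e j).1 = π (K33e j).2 := fun j => by
      have := congrFun hπ j
      rw [cob_mem (show j ∈ (ofRows K33).S from mem_univ j)] at this
      exact z2_add_eq_zero.1 this
    have h0 : ∀ v, π v = π 0 := by
      intro v
      fin_cases v
      · rfl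
      · exact (h1 3).trans (h1 0).symm
      · exact (h1 6).trans (h1 0).symm
      · exact (h1 0).symm
      · exact (h1 1).symm
      · exact (h1 2).symm
    rw [h0 u, h0 v]
  · intro v _
    have : ∃ e : Fin 9, (K33e e).1 = v ∨ (K33e e).2 = v := by revert v; decide
    obtain ⟨e, he⟩ := this
    exact ⟨e, mem_univ _, he⟩

end SEY

end

section

/-!
# FRAME module FR-6: grafts

Write `N = M.del {e}`, `N.S = M.S \ {e}`.

`exists_graft`: `e` is not a coloop (`z ∈ M.Z`, `z e = 1`). Every row `g` of `N` has a unique lift: a row `f ∈ M.R` with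
`mask (M.S \ {e}) f = g` (two lifts differ by a row supported in `{e}`, which is `0` by `z`); its value at `e` is `dot f z - (the rest) `, in
fact `f e = ∑ x ∈ M.S \ {e}, f x * z x = dot g z`. So the lift of `g` has the value `dot g z` at `e` (this is the shortest way: `0 = dot f z =
f e * 1 + dot g z`). Put `T = {v ∈ U | dot (ind (star N.S h t v)) z = 1}`. For `π`: `cob N.S h t π = ∑ v ∈ U, π v • ind (star v)`
(`IsGr.cob_singleton`, linearity; helper lemma `cob_eq_sum`), so the lift of `cob π` has the value `∑ v ∈ U, π v * dot (ind (star v)) z = ∑ v ∈ T, π v` at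
`e`. `even`: `π = 1`: `cob 1 = 0`, its value at `e` is `0 = |T|`. `rows`: `f ∈ M.R` iff `f` is a lift of some `cob π`.

`IsGraft.star_mem`: the row of `π = indV {v}`: at `e` the value is `∑ x ∈ T, indV {v} x = [v ∈ T]`; at the other elements
`hg.gr.cob_singleton v`.

`IsGraft.graphic`: `|T|` is even, so `T = ∅` or `T = {x, y}`, `x ≠ y`. Same `V`; `h' = update h e x`, `t' = update t e y` (if `T = ∅`
take `x = y` = any vertex, for example `h e`). `cob M.S h' t' π` has the value `π x + π y = ∑ v ∈ T, π v` at `e` and is equal to `cob (M.S \ {e}) h t π` at the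
others.

`IsGraft.congr`: `IsGr.congr`-like: `{h' x, t' x} = {h x, t x}` for all `x ∈ M.S \ {e}`, so `cob` is the same and `IsGr` holds.

`IsGraft.del`: `(M.del {x}).del {e} = (M.del {e}).del {x}`: its `IsGr` is `IsGr.del` of FrMinor applied to `hg.gr` with `hc`. The rows: apply `mask
(M.S \ {x})` to the rows of `M`.
-/

set_option autoImplicit false

namespace SEY

open Finset

variable {E : Type} [Fintype E] [DecidableEq E]
variable {V : Type} [Fintype V] [DecidableEq V]

theorem IsGr.cob_eq_sum {M : BM E} {U : Finset V} {h t : E → V} (hg : IsGr M U h t)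
    (π : V → ZMod 2) : cob M.S h t π = ∑ v ∈ U, π v • (ind (star M.S h t v) : E → ZMod 2) := by
  funext e
  rw [Finset.sum_apply]
  by_cases he : e ∈ M.S
  · rw [cob_mem he]
    obtain ⟨h1, h2, h3⟩ := hg.ends e he
    have h4 : ∀ v ∈ U, (π v • (ind (star M.S h t v) : E → ZMod 2)) e =
        (if v = h e then π v else 0) + (if v = t e then π v else 0) := by
      intro v _
      rw [Pi.smul_apply, smul_eq_mul]
      by_cases hv : Inc h t v e
      · rw [ind_mem (mem_star.2 ⟨he, hv⟩), mul_one]
        rcases hv with hv | hv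
        · rw [if_pos hv.symm, if_neg (fun h5 => h3 (hv.trans h5)), add_zero]
        · rw [if_neg (fun h5 => h3 (h5.symm.trans hv.symm)), if_pos hv.symm, zero_add]
      · rw [ind_notMem (fun h5 => hv (mem_star.1 h5).2), mul_zero,
          if_neg (fun h5 => hv (Or.inl h5.symm)), if_neg (fun h5 => hv (Or.inr h5.symm)), add_zero]
    rw [Finset.sum_congr rfl h4, Finset.sum_add_distrib, Finset.sum_ite_eq', Finset.sum_ite_eq',
      if_pos h1, if_pos h2]
  · rw [cob_notMem he]
    symm
    refine Finset.sum_eq_zero fun v _ => ?_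
    rw [Pi.smul_apply, ind_notMem (fun h5 => he (mem_star.1 h5).1), smul_zero]

/-- The value of a row at `e` is determined by a cycle through `e`. -/
theorem graft_val {M : BM E} {e : E} {z : E → ZMod 2} (hz : z ∈ M.Z) (hze : z e = 1)
    {f : E → ZMod 2} (hf : f ∈ M.R) : f e = dot (mask (M.S \ {e}) f) z := by
  have h1 : f = mask (M.S \ {e}) f + f e • (ind {e} : E → ZMod 2) := by
    funext x
    rw [Pi.add_apply, Pi.smul_apply, smul_eq_mul]
    by_cases hx : x = e
    · subst hx
      rw [mask_notMem (by simp), ind_mem (Finset.mem_singleton_self x), mul_one, zero_add]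
    · rw [ind_notMem (by simpa using hx), mul_zero, add_zero]
      by_cases hxS : x ∈ M.S
      · rw [mask_mem (Finset.mem_sdiff.2 ⟨hxS, by simpa using hx⟩)]
      · rw [mask_notMem (fun h5 => hxS (Finset.mem_sdiff.1 h5).1)]
        exact M.supp f hf x hxS
  have h2 : dot f z = 0 := hz.2 f hf
  rw [h1, dot_add_left, dot_smul_left, ind_dot, Finset.sum_singleton, hze, mul_one] at h2
  exact (z2_add_eq_zero.1 h2).symm

theorem graft_dot_sum (s : Finset V) (F : V → (E → ZMod 2)) (z : E → ZMod 2) :
    dot (∑ v ∈ s, F v) z = ∑ v ∈ s, dot (F v) z := by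
  induction s using Finset.induction_on with
  | empty => rw [Finset.sum_empty, Finset.sum_empty, dot_zero_left]
  | insert a s ha ih => rw [Finset.sum_insert ha, Finset.sum_insert ha, dot_add_left, ih]

theorem exists_graft {M : BM E} {e : E} {U : Finset V} {h t : E → V} (he : e ∈ M.S)
    (hg : IsGr (M.del {e}) U h t) (hc : ∃ z ∈ M.Z, z e = 1) : ∃ T, IsGraft M e U h t T := by
  obtain ⟨z, hz, hze⟩ := hc
  have hS : (M.del {e}).S = M.S \ {e} := rfl
  have heS : e ∉ M.S \ {e} := by simp
  let T : Finset V := U.filter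
    (fun v => dot (ind (star (M.S \ {e}) h t v) : E → ZMod 2) z = 1)
  have hval : ∀ π : V → ZMod 2, dot (cob (M.S \ {e}) h t π) z = ∑ v ∈ T, π v := by
    intro π
    have h1 := hg.cob_eq_sum π
    rw [hS] at h1
    rw [h1]
    have h2 : dot (∑ v ∈ U, π v • (ind (star (M.S \ {e}) h t v) : E → ZMod 2)) z =
        ∑ v ∈ U, π v * dot (ind (star (M.S \ {e}) h t v) : E → ZMod 2) z := by
      rw [graft_dot_sum]
      exact Finset.sum_congr rfl fun v _ => dot_smul_left _ _ _
    rw [h2, Finset.sum_filter]
    refine Finset.sum_congr rfl fun v _ => ?_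
    rcases z2_cases (dot (ind (star (M.S \ {e}) h t v) : E → ZMod 2) z) with h4 | h4
    · rw [h4, mul_zero, if_neg (by decide)]
    · rw [h4, mul_one, if_pos rfl]
  have hlift : ∀ g ∈ M.R, ∀ π : V → ZMod 2, mask (M.S \ {e}) g = cob (M.S \ {e}) h t π →
      g = fun x => if x = e then ∑ v ∈ T, π v else cob (M.S \ {e}) h t π x := by
    intro g hgR π hgπ
    funext x
    by_cases hx : x = e
    · rw [if_pos hx, hx, graft_val hz hze hgR, hgπ, hval]
    · rw [if_neg hx, ← hgπ]
      by_cases hxS : x ∈ M.S
      · rw [mask_mem (Finset.mem_sdiff.2 ⟨hxS, by simpa using hx⟩)]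
      · rw [mask_notMem (fun h5 => hxS (Finset.mem_sdiff.1 h5).1)]
        exact M.supp g hgR x hxS
  have hrows : ∀ f, f ∈ M.R ↔ ∃ π : V → ZMod 2,
      f = fun x => if x = e then ∑ v ∈ T, π v else cob (M.S \ {e}) h t π x := by
    intro f
    constructor
    · intro hf
      have h1 : mask (M.S \ {e}) f ∈ (M.del {e}).R := ⟨f, hf, rfl⟩
      obtain ⟨π, hπ⟩ := (hg.rows _).1 h1
      exact ⟨π, hlift f hf π hπ⟩
    · rintro ⟨π, rfl⟩
      obtain ⟨g, hgR, hgm⟩ := hg.mem_R π
      rw [← hlift g hgR π hgm]
      exact hgR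
  refine ⟨T, he, hg, Finset.filter_subset _ _, ?_, hrows⟩
  have h1 := (hrows _).2 ⟨fun _ => 1, rfl⟩
  have h2 := graft_val hz hze h1
  have h3 : mask (M.S \ {e}) (fun x => if x = e then ∑ v ∈ T, (1 : ZMod 2) else
      cob (M.S \ {e}) h t (fun _ => 1) x) = 0 := by
    funext x
    by_cases hx : x ∈ M.S \ {e}
    · have hxe : x ≠ e := fun h5 => heS (h5 ▸ hx)
      rw [mask_mem hx, if_neg hxe, cob_const]
    · rw [mask_notMem hx]
      rfl
  rw [h3, dot_zero_left, if_pos rfl, Finset.sum_const, nsmul_eq_mul, mul_one] at h2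
  exact ZMod.natCast_eq_zero_iff_even.1 h2

/-- `v ∈ T` iff `e` lies in the lift of the star of `v`. -/
theorem IsGraft.star_mem {M : BM E} {e : E} {U : Finset V} {h t : E → V} {T : Finset V}
    (hg : IsGraft M e U h t T) {v : V} (hv : v ∈ U) :
    ind (if v ∈ T then insert e (star (M.S \ {e}) h t v) else star (M.S \ {e}) h t v) ∈ M.R := by
  refine (hg.rows _).2 ⟨indV {v}, ?_⟩
  have h1 := hg.gr.cob_singleton v
  have hS : (M.del {e}).S = M.S \ {e} := rfl
  rw [hS] at h1
  have h2 : ∑ w ∈ T, indV {v} w = if v ∈ T then (1 : ZMod 2) else 0 := by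
    simp only [indV, Finset.mem_singleton]
    rw [Finset.sum_ite_eq' T v (fun _ => (1 : ZMod 2))]
  have heS : e ∉ star (M.S \ {e}) h t v := by
    intro h5
    exact absurd (mem_star.1 h5).1 (by simp)
  funext x
  rw [h1, h2]
  by_cases hx : x = e
  · rw [if_pos hx, hx]
    by_cases hvT : v ∈ T
    · rw [if_pos hvT, if_pos hvT, ind_mem (Finset.mem_insert_self _ _)]
    · rw [if_neg hvT, if_neg hvT, ind_notMem heS]
  · rw [if_neg hx]
    by_cases hvT : v ∈ T
    · rw [if_pos hvT]
      by_cases hxs : x ∈ star (M.S \ {e}) h t v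
      · rw [ind_mem (Finset.mem_insert_of_mem hxs), ind_mem hxs]
      · rw [ind_notMem hxs, ind_notMem]
        intro h5
        rcases Finset.mem_insert.1 h5 with h6 | h6
        · exact hx h6
        · exact hxs h6
    · rw [if_neg hvT]

theorem IsGraft.graphic_of {M : BM E} {e : E} {U : Finset V} {h t : E → V} {T : Finset V}
    (hg : IsGraft M e U h t T) (x y : V) (hxy : ∀ π : V → ZMod 2, π x + π y = ∑ v ∈ T, π v) :
    Graphic M := by
  refine ⟨V, inferInstance, Function.update h e x, Function.update t e y, ?_⟩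
  intro f
  rw [hg.rows f]
  have h1 : ∀ π : V → ZMod 2, (fun x => if x = e then ∑ v ∈ T, π v else
      cob (M.S \ {e}) h t π x) = cob M.S (Function.update h e x) (Function.update t e y) π := by
    intro π
    funext w
    by_cases hw : w = e
    · rw [if_pos hw, hw, cob_mem hg.mem, Function.update_self, Function.update_self, hxy]
    · rw [if_neg hw]
      by_cases hwS : w ∈ M.S
      · rw [cob_mem hwS, cob_mem (Finset.mem_sdiff.2 ⟨hwS, by simpa using hw⟩),
          Function.update_of_ne hw, Function.update_of_ne hw]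
      · rw [cob_notMem hwS, cob_notMem (fun h5 => hwS (Finset.mem_sdiff.1 h5).1)]
  constructor
  · rintro ⟨π, rfl⟩
    exact ⟨π, h1 π⟩
  · rintro ⟨π, rfl⟩
    exact ⟨π, (h1 π).symm⟩

theorem IsGraft.graphic {M : BM E} {e : E} {U : Finset V} {h t : E → V} {T : Finset V}
    (hg : IsGraft M e U h t T) (hT : T.card ≤ 2) : Graphic M := by
  have heven := hg.even
  have h0 : T.card = 0 ∨ T.card = 2 := by
    rcases heven with ⟨k, hk⟩
    omega
  rcases h0 with h0 | h0
  · rw [Finset.card_eq_zero] at h0
    refine hg.graphic_of (h e) (h e) fun π => ?_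
    rw [h0, Finset.sum_empty]
    exact z2_add_self _
  · obtain ⟨x, y, hxy, rfl⟩ := Finset.card_eq_two.1 h0
    refine hg.graphic_of x y fun π => ?_
    rw [Finset.sum_pair hxy]

end SEY

end
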