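import Pool.Agent.Helper29.MFA.T19

section

/-!
# FRAME module FR-3: deletion and contraction of an edge

`IsGr.star_mem` is `IsGr.star_mem0` of GrBasic.

`IsGr.del`: `rows`: `mask (S \ {x}) (cob S h t π) = cob (S \ {x}) h t π` (`mask_cob`). `conn`: if `cob (S \ {x}) h t π = 0` then the row
`f = cob S h t π` vanishes outside `x`, so `0 = dot f z = f x * z x = f x`, so `f = 0`, use `hg.conn`. `ne`: if the only edge at
`v` is `x` then `star v = {x}`, `ind {x} ∈ M.R`, but `dot (ind {x}) z = z x = 1`.

`IsGr.con`: `u ≠ v` by `hg.ends`. Put `μ = mg u v`. `cob (S \ {x}) (μ ∘ h) (μ ∘ t) π = cob S h t (π ∘ μ)` (at `x` both sides are `0`). A row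
`cob π` of `M` vanishes at `x` iff `π u = π v` iff `π ∘ μ = π`. `ends`: `μ (h y) ≠ μ (t y)` for `y ≠ x`: otherwise `{h y, t y} = {u, v}`,
excluded by `hp`. `conn`: `cob (..) (π) = 0` gives `π ∘ μ` constant on `U`, and `μ w = w` for `w ∈ U.erase u`.
`ne`: let `w ∈ U.erase u`. If `w ≠ v`: an edge of `M` at `w` is not `x`, and `μ w = w`. If `w = v`: if all edges `≠ x` have no end in
`{u, v}` then `cob (indV {u, v}) = 0` (also at `x`), so `U = {u, v}` by `IsGr.indV_eq_zero`; but there is an edge `y ≠ x` (`h2`), its ends are in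
`U`; contradiction. So some `y ≠ x` has an end `u` or `v`, `μ` of it is `v`.

`IsGr.congr`: by `hj`, for `x ∈ M.S`, `{h' x, t' x} = {h x, t x}`; so `cob` is the same.
-/

set_option autoImplicit false

namespace SEY

open Finset

variable {E : Type} [Fintype E] [DecidableEq E]
variable {V : Type} [Fintype V] [DecidableEq V]

theorem IsGr.star_mem {M : BM E} {U : Finset V} {h t : E → V} (hg : IsGr M U h t) {v : V}
    (hv : v ∈ U) : ind (star M.S h t v) ∈ M.R := by
  have _ := hv
  exact hg.star_mem0 v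

theorem IsGr.del {M : BM E} {U : Finset V} {h t : E → V} (hg : IsGr M U h t) {x : E}
    (hx : x ∈ M.S) (hc : ∃ z ∈ M.Z, z x = 1) : IsGr (M.del {x}) U h t := by
  obtain ⟨z, hz, hzx⟩ := hc
  have hsub : M.S \ {x} ⊆ M.S := sdiff_subset
  have hdot : ∀ f ∈ M.R, (∀ e, e ≠ x → f e = 0) → f x = 0 := by
    intro f hf h0
    have h1 := hz.2 f hf
    unfold dot at h1
    rw [Finset.sum_eq_single x (fun e _ he => by rw [h0 e he, zero_mul])
      (fun h => absurd (Finset.mem_univ x) h), hzx, mul_one] at h1
    exact h1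
  constructor
  · intro e he
    exact hg.ends e (hsub he)
  · intro f
    constructor
    · rintro ⟨g, hg', rfl⟩
      obtain ⟨π, rfl⟩ := (hg.rows g).1 hg'
      exact ⟨π, mask_cob _ _ _ _ _ hsub⟩
    · rintro ⟨π, rfl⟩
      exact ⟨cob M.S h t π, hg.mem_R π, mask_cob _ _ _ _ _ hsub⟩
  · intro π hπ
    refine hg.conn π ?_
    have h1 : ∀ e, e ≠ x → cob M.S h t π e = 0 := by
      intro e he
      by_cases heS : e ∈ M.S
      · have h2 : e ∈ M.S \ {x} := mem_sdiff.2 ⟨heS, by simpa using he⟩
        have h3 : cob (M.S \ {x}) h t π e = 0 := congrFun hπ e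
        rw [cob_mem h2] at h3
        rw [cob_mem heS, h3]
      · exact cob_notMem heS
    funext e
    by_cases he : e = x
    · rw [he]
      exact hdot _ (hg.mem_R π) h1
    · exact h1 e he
  · intro v hv
    by_contra hn
    push Not at hn
    obtain ⟨e, heS, hev⟩ := hg.ne v hv
    have hex : ∀ e ∈ M.S, (h e = v ∨ t e = v) → e = x := by
      intro e he hev
      by_contra hne
      have h1 := hn e (mem_sdiff.2 ⟨he, by simpa using hne⟩)
      rcases hev with h2 | h2
      · exact h1.1 h2
      · exact h1.2 h2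
    have hstar : star M.S h t v = {x} := by
      ext y
      rw [mem_star, mem_singleton]
      constructor
      · rintro ⟨h1, h2⟩
        exact hex y h1 h2
      · rintro rfl
        have := hex e heS hev
        rw [this] at hev
        exact ⟨hx, hev⟩
    have h1 := hg.star_mem0 v
    rw [hstar] at h1
    have h2 := hdot _ h1 fun y hy => ind_notMem (by simpa using hy)
    rw [ind_mem (mem_singleton_self x)] at h2
    exact one_ne_zero h2

theorem mg_self (u v : V) : mg u v u = v := if_pos rfl

theorem mg_of_ne {u v w : V} (h : w ≠ u) : mg u v w = w := if_neg h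

theorem cob_mg {M : BM E} {h t : E → V} {x : E} {u v : V} (hj : Jn h t x u v) (huv : u ≠ v)
    (π : V → ZMod 2) :
    cob (M.S \ {x}) (fun e => mg u v (h e)) (fun e => mg u v (t e)) π =
      cob M.S h t (fun w => π (mg u v w)) := by
  funext e
  by_cases heS : e ∈ M.S
  · by_cases hex : e = x
    · have h1 : e ∉ M.S \ {x} := fun h => (mem_sdiff.1 h).2 (by simpa using hex)
      rw [cob_notMem h1, cob_mem heS, hex]
      have h2 : mg u v v = v := mg_of_ne huv.symm
      rcases hj with ⟨h3, h4⟩ | ⟨h3, h4⟩ <;>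
        rw [h3, h4, mg_self, h2] <;> exact (z2_add_self _).symm
    · have h1 : e ∈ M.S \ {x} := mem_sdiff.2 ⟨heS, by simpa using hex⟩
      rw [cob_mem h1, cob_mem heS]
  · have h1 : e ∉ M.S \ {x} := fun h => heS (mem_sdiff.1 h).1
    rw [cob_notMem h1, cob_notMem heS]

theorem IsGr.con {M : BM E} {U : Finset V} {h t : E → V} (hg : IsGr M U h t) {x : E} {u v : V}
    (hx : x ∈ M.S) (hj : Jn h t x u v) (hp : ∀ y ∈ M.S, y ≠ x → ¬ Jn h t y u v)
    (h2 : 2 ≤ M.S.card) :
    IsGr (M.con {x}) (U.erase u) (fun e => mg u v (h e)) (fun e => mg u v (t e)) := by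
  have hex := hg.ends x hx
  have huv : u ≠ v := by
    rintro rfl
    rcases hj with ⟨h1, h2⟩ | ⟨h1, h2⟩ <;> exact hex.2.2 (h1.trans h2.symm)
  have huU : u ∈ U := by
    rcases hj with ⟨h1, h2⟩ | ⟨h1, h2⟩
    · rw [← h1]; exact hex.1
    · rw [← h2]; exact hex.2.1
  have hvU : v ∈ U := by
    rcases hj with ⟨h1, h2⟩ | ⟨h1, h2⟩
    · rw [← h2]; exact hex.2.1
    · rw [← h1]; exact hex.1
  have hinc : ∀ w, Inc h t w x → w = u ∨ w = v := by
    intro w hw
    rcases hj with ⟨h1, h2⟩ | ⟨h1, h2⟩ <;> rcases hw with h3 | h3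
    · exact Or.inl (h3.symm.trans h1)
    · exact Or.inr (h3.symm.trans h2)
    · exact Or.inr (h3.symm.trans h1)
    · exact Or.inl (h3.symm.trans h2)
  have hmg : ∀ w ∈ U, mg u v w ∈ U.erase u := by
    intro w hw
    by_cases h1 : w = u
    · rw [h1, mg_self, mem_erase]
      exact ⟨huv.symm, hvU⟩
    · rw [mg_of_ne h1, mem_erase]
      exact ⟨h1, hw⟩
  constructor
  · intro e he
    have heS : e ∈ M.S := (mem_sdiff.1 he).1
    have hne : e ≠ x := fun h => (mem_sdiff.1 he).2 (by simpa using h)
    have h1 := hg.ends e heS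
    refine ⟨hmg _ h1.1, hmg _ h1.2.1, ?_⟩
    intro h2
    have h3 := hp e heS hne
    unfold Jn at h3
    push Not at h3
    by_cases h4 : h e = u <;> by_cases h5 : t e = u
    · exact h1.2.2 (h4.trans h5.symm)
    · rw [h4, mg_self, mg_of_ne h5] at h2
      exact h3.1 h4 h2.symm
    · rw [h5, mg_self, mg_of_ne h4] at h2
      exact h3.2 h2 h5
    · rw [mg_of_ne h4, mg_of_ne h5] at h2
      exact h1.2.2 h2
  · intro f
    constructor
    · rintro ⟨hf, hf0⟩
      obtain ⟨π, rfl⟩ := (hg.rows f).1 hf
      have h1 : π u = π v := by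
        have h2 := hf0 x (mem_singleton_self x)
        rw [cob_mem hx, z2_add_eq_zero] at h2
        rcases hj with ⟨h3, h4⟩ | ⟨h3, h4⟩
        · rw [h3, h4] at h2; exact h2
        · rw [h3, h4] at h2; exact h2.symm
      refine ⟨π, ?_⟩
      change cob M.S h t π = cob (M.S \ {x}) (fun e => mg u v (h e)) (fun e => mg u v (t e)) π
      rw [cob_mg hj huv]
      congr 1
      funext w
      by_cases h2 : w = u
      · rw [h2, mg_self, h1]
      · rw [mg_of_ne h2]
    · rintro ⟨π, hπ⟩
      change f = cob (M.S \ {x}) (fun e => mg u v (h e)) (fun e => mg u v (t e)) π at hπ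
      refine ⟨?_, ?_⟩
      · rw [hπ, cob_mg hj huv]
        exact hg.mem_R _
      · intro e he
        rw [hπ]
        exact cob_notMem fun h => (mem_sdiff.1 h).2 he
  · intro π hπ a ha b hb
    change cob (M.S \ {x}) (fun e => mg u v (h e)) (fun e => mg u v (t e)) π = 0 at hπ
    rw [cob_mg hj huv] at hπ
    have h1 := hg.conn _ hπ a (mem_erase.1 ha).2 b (mem_erase.1 hb).2
    rwa [mg_of_ne (mem_erase.1 ha).1, mg_of_ne (mem_erase.1 hb).1] at h1
  · intro w hw
    rw [mem_erase] at hw
    by_cases hwv : w = v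
    · by_contra hn
      push Not at hn
      have hno : ∀ e ∈ M.S, e ≠ x → ∀ a, Inc h t a e → a ∉ ({u, v} : Finset V) := by
        intro e heS hne a ha haA
        have h1 := hn e (mem_sdiff.2 ⟨heS, by simpa using hne⟩)
        rw [mem_insert, mem_singleton] at haA
        have h2 : mg u v a = w := by
          rcases haA with h3 | h3
          · rw [h3, mg_self, hwv]
          · rw [h3, mg_of_ne huv.symm, hwv]
        rcases ha with h3 | h3
        · exact h1.1 (by rw [h3]; exact h2)
        · exact h1.2 (by rw [h3]; exact h2)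
      have h0 : cob M.S h t (indV {u, v}) = 0 := by
        funext e
        by_cases hex' : e = x
        · rw [hex']
          refine cob_indV_sub fun a ha => ?_
          rw [mem_insert, mem_singleton]
          exact hinc a ha
        · by_cases heS : e ∈ M.S
          · exact cob_indV_disj (hno e heS hex')
          · exact cob_notMem heS
      have hsub : ({u, v} : Finset V) ⊆ U := by
        intro a ha
        rw [mem_insert, mem_singleton] at ha
        rcases ha with h1 | h1
        · rw [h1]; exact huU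
        · rw [h1]; exact hvU
      rcases hg.indV_eq_zero hsub h0 with h1 | h1
      · exact (Finset.insert_ne_empty _ _) h1
      · obtain ⟨y, hy, hyx⟩ := Finset.exists_mem_ne (s := M.S) (by omega) x
        have h3 := (hg.ends y hy).1
        rw [← h1] at h3
        exact hno y hy hyx _ (Or.inl rfl) h3
    · obtain ⟨e, heS, he⟩ := hg.ne w hw.2
      have hne : e ≠ x := by
        rintro rfl
        rcases hinc w he with h1 | h1
        · exact hw.1 h1
        · exact hwv h1
      refine ⟨e, mem_sdiff.2 ⟨heS, by simpa using hne⟩, ?_⟩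
      have h2 : mg u v w = w := mg_of_ne hw.1
      rcases he with h1 | h1
      · left
        rw [h1, h2]
      · right
        rw [h1, h2]

/-- The ends of the edges may be exchanged. -/
theorem IsGr.congr {M : BM E} {U : Finset V} {h t h' t' : E → V} (hg : IsGr M U h t)
    (hj : ∀ x ∈ M.S, Jn h t x (h' x) (t' x)) : IsGr M U h' t' := by
  have hcob : ∀ π : V → ZMod 2, cob M.S h' t' π = cob M.S h t π := by
    intro π
    funext e
    by_cases he : e ∈ M.S
    · rw [cob_mem he, cob_mem he]
      rcases hj e he with ⟨h1, h2⟩ | ⟨h1, h2⟩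
      · rw [h1, h2]
      · rw [h1, h2, add_comm]
    · rw [cob_notMem he, cob_notMem he]
  constructor
  · intro e he
    have h0 := hg.ends e he
    rcases hj e he with ⟨h1, h2⟩ | ⟨h1, h2⟩
    · rw [← h1, ← h2]; exact h0
    · rw [← h1, ← h2]; exact ⟨h0.2.1, h0.1, h0.2.2.symm⟩
  · intro f
    rw [hg.rows f]
    exact exists_congr fun π => by rw [hcob]
  · intro π hπ
    rw [hcob] at hπ
    exact hg.conn π hπ
  · intro v hv
    obtain ⟨e, he, hev⟩ := hg.ne v hv
    refine ⟨e, he, ?_⟩
    rcases hj e he with ⟨h1, h2⟩ | ⟨h1, h2⟩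
    · rw [← h1, ← h2]; exact hev
    · rw [← h1, ← h2]; exact hev.symm

end SEY

end

section

/-!
# FRAME module FR-5: series pairs are the stars of vertices of degree two

`Ser` is an equivalence relation. `ind {a, b} ∈ M.R ↔ Ser a b` for `a ≠ b` in `M.S` (`mem_R_iff`, `dot (ind {a,b}) z = z a + z b`).

`IsGr.star2` (←): `ind (star s) ∈ M.R` (`IsGr.star_mem0`). (→): `ind {a, b} = cob (indV X)`, `X ⊆ U` (`IsGr.exists_indV`), `X` nonempty and
`X ≠ U` (the row is not zero). Let `A = {e ∈ S | h e ∈ X ∧ t e ∈ X}` and `A' = {e ∈ S | h e ∉ X ∧ t e ∉ X}`; `S` is the disjoint union of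
`A`, `A'`, `{a, b}` (the edges with exactly one end in `X` are `a` and `b`). Helper lemma `lam_inside`: `M.lam A ≤ 1`, and
the same for `A'` (with `U \ X` in place of `X`, `IsGr.cob_sdiff`). Proof of `lam_inside`: `lam_add_dR`: `lam A + dR A + dR (S \ A) =
rk = |U| - 1` (`IsGr.rank`, `r_S`). `dR A ≥ |X| - 2`: the rows `cob (indV Y)`, `Y ⊆ X \ {ends of a and b in X}`, are supported in `A`
(the edges at `Y` have both ends in `X`, because `a, b` are not at `Y`). `dR (S \ A) ≥ |U \ X|`: the rows `cob (indV Y)`, `Y ⊆ U \ X`.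
Dimensions: `extV` of GrBasic composed with `cobL` is injective on functions on a set `K ⊆ U`, `K ≠ U` (`IsGr.conn`: `cob π = 0` implies `π`
constant on `U`, and it is `0` at a vertex outside `K`); `LinearMap.finrank_range_of_inj`, `Submodule.finrank_mono` (helper lemma
`card_le_dR`). [Alternatively use ranks: `r A + 1 ≤ |X|`, `IsGr.r_lt`, is the bound for `A` if `X` nonempty, and `r (S \ A) + 1 ≤ |U \ X| + 2`,
as the edges of `S \ A` have their ends in `(U \ X) ∪ {ends of a, b}`; so `lam A = r A + r (S \ A) - r S ≤ (|X| - 1) + (|U \ X| + 1) -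
(|U| - 1) = 1`. This is shorter: no dimension of `dR` is needed.]
Now `SC` for `A`: either `A` is in one class or `S \ A` is in one class; same for `A'`. If `A` and `A'` are both in one class:
three classes `A`, `A'`, `{a, b}` (`a`, `b` in series), contradiction (`SC_three` of FrSep). So (symmetric) `S \ A` is in one class; it
contains `a, b, A'`, so `A' = ∅` by `Two`. Take `s ∈ U \ X`; every edge at `s` is not in `A`, so it is `a` or `b`: `star s ⊆ {a, b}`, and
`2 ≤ |star s|` (`two_le_deg`): `star s = {a, b}`. In the other case take `s ∈ X`.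

`IsGr.deg2`: `star s = {a, b}`, `a ≠ b` (`card_eq_two`). `a` joins `s` to `u`, `b` joins `s` to `w`, `u, w ∈ U`, `u ≠ s ≠ w` (no loops). `u = w`
would make `a, b` parallel, `no_par`. `Ser a b` by `star2`. `3 ≤ |star u|`: it is `≥ 2`; if it is `2`, `star u = {a, c}`, `c ≠ b` (the ends of `b` are `s, w`,
`w ≠ u`), so `Ser a c` by `star2`, contradiction to `Two` for `a, b, c`. Same for `w`.
No edge `x` joins `u` and `w`: otherwise `ind {a, b, x} ∈ M.Z` (a triangle), all rows have rank... `A = {a, b, x}`: `r A ≤ 2` and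
`r A` ..., `lam A = r A + r (S \ A) - r S`; use `lam_add_dR_eq_r`: `lam A + dR A = r A`; `r A ≤ 2` (`r_add_dZ`, `dZ A ≥ 1`), `dR A ≥ 1` (`ind {a, b}`), so
`lam A ≤ 1`. `SC`: `A` in one class: `Two` contradiction. `S \ A` in one class: then classes: `{a, b}`, `{x}`, `S \ A`: `SC_three`.
If `s' ≠ s` has degree two and its edges `x, y` join it to `u` and `w`: `star s' = {x, y}`, `x ≠ y`, `A = {a, b, x, y}` is a cycle,
`dZ A ≥ 1`, `r A ≤ 3`, `dR A ≥ 2` (`ind {a, b}`, `ind {x, y}` independent; `{a, b}` and `{x, y}` are disjoint: `a = x` would join `s` to `s'`, so `u = s'`, but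
`x` joins `s'` to `u`, a loop), `lam A ≤ 1`: `A` in one class contradicts `Two`, `S \ A` in one class: three classes.
-/

set_option autoImplicit false

namespace SEY

open Finset

variable {E : Type} [Fintype E] [DecidableEq E]
variable {V : Type} [Fintype V] [DecidableEq V]

theorem ser_iff_ind {M : BM E} {a b : E} (ha : a ∈ M.S) (hb : b ∈ M.S) (hab : a ≠ b) :
    M.Ser a b ↔ ind {a, b} ∈ M.R := by
  rw [M.mem_R_iff]
  have h1 : ∀ z : E → ZMod 2, dot (ind {a, b}) z = z a + z b := by
    intro z
    rw [ind_dot, Finset.sum_pair hab]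
  constructor
  · intro h
    refine ⟨fun e he => ind_notMem ?_, fun z hz => ?_⟩
    · intro h2
      rw [mem_insert, mem_singleton] at h2
      rcases h2 with rfl | rfl
      · exact he ha
      · exact he hb
    · rw [h1, h z hz]
      exact z2_add_self _
  · rintro ⟨-, h⟩ z hz
    have h2 := h z hz
    rw [h1] at h2
    exact z2_add_eq_zero.1 h2

theorem ser_symm_fs {M : BM E} {a b : E} (h : M.Ser a b) : M.Ser b a :=
  fun z hz => (h z hz).symm

/-- the edges inside a set of vertices which is left by at most two edges -/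
theorem IsGr.lam_inside_fs {M : BM E} {U : Finset V} {h t : E → V} (hg : IsGr M U h t)
    {X : Finset V} (hX : X ⊆ U) (hXn : X.Nonempty) (hXc : (U \ X).Nonempty) (va vb : V)
    (hab : ∀ e ∈ M.S, ∀ v ∈ X, ∀ w ∈ U \ X, Inc h t v e → Inc h t w e → v = va ∨ v = vb) :
    M.lam (M.S.filter (fun e => h e ∈ X ∧ t e ∈ X)) ≤ 1 := by
  have h1 : M.r (M.S.filter (fun e => h e ∈ X ∧ t e ∈ X)) + 1 ≤ X.card := by
    refine hg.r_lt (filter_subset _ _) hXn ?_
    intro e he v hv
    rw [mem_filter] at he
    rcases hv with rfl | rfl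
    · exact he.2.1
    · exact he.2.2
  have h2 : M.r (M.S \ M.S.filter (fun e => h e ∈ X ∧ t e ∈ X)) + 1 ≤
      ((U \ X) ∪ {va, vb}).card := by
    refine hg.r_lt sdiff_subset (hXc.mono subset_union_left) ?_
    intro e he v hv
    rw [mem_sdiff, mem_filter] at he
    obtain ⟨he1, he2⟩ := he
    rw [mem_union, mem_sdiff]
    by_cases hvX : v ∈ X
    · right
      obtain ⟨w, hw, hwv, hwe, hall⟩ := hg.two_ends he1 hv
      have hwX : w ∉ X := by
        intro hwX
        apply he2
        refine ⟨he1, ?_, ?_⟩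
        · rcases hall (h e) (Or.inl rfl) with h' | h' <;> rw [h'] <;> assumption
        · rcases hall (t e) (Or.inr rfl) with h' | h' <;> rw [h'] <;> assumption
      rw [mem_insert, mem_singleton]
      exact hab e he1 v hvX w (mem_sdiff.2 ⟨hw, hwX⟩) hv hwe
    · left
      exact ⟨hg.inc_mem he1 hv, hvX⟩
  have h3 : ((U \ X) ∪ {va, vb}).card ≤ (U \ X).card + 2 :=
    (card_union_le _ _).trans (Nat.add_le_add_left card_le_two _)
  have h4 := card_sdiff_add_card_eq_card hX
  have h5 := hg.rank (hXn.mono hX)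
  unfold BM.lam
  omega

theorem IsGr.star2_aux_fs {M : BM E} {U : Finset V} {h t : E → V} (hg : IsGr M U h t)
    (hsc : M.SC) (h2 : M.Two) {a b : E} (ha : a ∈ M.S) (hb : b ∈ M.S) (hab : a ≠ b)
    (hs : M.Ser a b) {X : Finset V} (hXc : (U \ X).Nonempty)
    (hc : ind {a, b} = cob M.S h t (indV X))
    (hcl : ∀ e ∈ M.S \ M.S.filter (fun e => h e ∈ X ∧ t e ∈ X),
      ∀ f ∈ M.S \ M.S.filter (fun e => h e ∈ X ∧ t e ∈ X), M.Ser e f) :
    ∃ s ∈ U, star M.S h t s = {a, b} := by
  obtain ⟨s, hs'⟩ := hXc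
  rw [mem_sdiff] at hs'
  have haA : a ∈ M.S \ M.S.filter (fun e => h e ∈ X ∧ t e ∈ X) := by
    rw [mem_sdiff, mem_filter]
    refine ⟨ha, ?_⟩
    rintro ⟨-, h3, h4⟩
    have h5 := congrFun hc a
    rw [ind_mem (by simp), cob_indV_sub] at h5
    · exact one_ne_zero h5
    · rintro v (rfl | rfl)
      · exact h3
      · exact h4
  refine ⟨s, hs'.1, ?_⟩
  apply eq_of_subset_of_card_le
  · intro e he
    rw [mem_star] at he
    have heA : e ∈ M.S \ M.S.filter (fun e => h e ∈ X ∧ t e ∈ X) := by
      rw [mem_sdiff, mem_filter]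
      refine ⟨he.1, ?_⟩
      rintro ⟨-, h3, h4⟩
      rcases he.2 with h5 | h5
      · rw [h5] at h3; exact hs'.2 h3
      · rw [h5] at h4; exact hs'.2 h4
    rw [mem_insert, mem_singleton]
    rcases h2 a ha b hb e he.1 hs (hcl a haA e heA) with h6 | h6 | h6
    · exact absurd h6 hab
    · exact Or.inl h6.symm
    · exact Or.inr h6.symm
  · rw [card_pair hab]
    exact hg.two_le_deg hsc hs'.1

/-- (STAR2): the two-element series classes are the stars of the vertices of degree two. -/
theorem IsGr.star2 {M : BM E} {U : Finset V} {h t : E → V} (hg : IsGr M U h t)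
    (hsc : M.SC) (h2 : M.Two) {a b : E} (ha : a ∈ M.S) (hb : b ∈ M.S) (hab : a ≠ b) :
    M.Ser a b ↔ ∃ s ∈ U, star M.S h t s = {a, b} := by
  constructor
  swap
  · rintro ⟨s, hs, hst⟩
    rw [ser_iff_ind ha hb hab, ← hst]
    exact hg.star_mem0 s
  intro hs
  obtain ⟨X, hX, hc⟩ := hg.exists_indV ((ser_iff_ind ha hb hab).1 hs)
  have hXn : X.Nonempty := by
    rw [nonempty_iff_ne_empty]
    rintro rfl
    have h5 := congrFun hc a
    rw [ind_mem (by simp), cob_indV_disj (by simp)] at h5
    exact one_ne_zero h5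
  have hXc : (U \ X).Nonempty := by
    rw [sdiff_nonempty]
    intro hUX
    have h5 := congrFun hc a
    rw [ind_mem (by simp), cob_indV_sub (fun v hv => hUX (hg.inc_mem ha hv))] at h5
    exact one_ne_zero h5
  -- edges leaving `X`
  have hlv : ∀ e ∈ M.S, ∀ v ∈ X, ∀ w ∈ U \ X, Inc h t v e → Inc h t w e → e = a ∨ e = b := by
    intro e he v hv w hw hve hwe
    have h5 := congrFun hc e
    rw [cob_indV_one he hv (mem_sdiff.1 hw).2 hve hwe] at h5
    by_contra hne
    rw [ind_notMem (by simpa using hne)] at h5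
    exact one_ne_zero h5.symm
  have hend : ∀ e ∈ M.S, e = a ∨ e = b → ∃ v ∈ X, ∃ w ∈ U \ X, ∀ u, Inc h t u e →
      u = v ∨ u = w := by
    intro e he heab
    have h5 := congrFun hc e
    rw [ind_mem (by simpa using heab), cob_mem he] at h5
    obtain ⟨h6, h7, h8⟩ := hg.ends e he
    by_cases h9 : h e ∈ X
    · have h10 : t e ∉ X := by
        intro h10
        rw [indV_mem h9, indV_mem h10, z2_add_self] at h5
        exact one_ne_zero h5
      refine ⟨h e, h9, t e, mem_sdiff.2 ⟨h7, h10⟩, ?_⟩
      rintro u (rfl | rfl)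
      · exact Or.inl rfl
      · exact Or.inr rfl
    · have h10 : t e ∈ X := by
        by_contra h10
        rw [indV_notMem h9, indV_notMem h10, add_zero] at h5
        exact one_ne_zero h5
      refine ⟨t e, h10, h e, mem_sdiff.2 ⟨h6, h9⟩, ?_⟩
      rintro u (rfl | rfl)
      · exact Or.inr rfl
      · exact Or.inl rfl
  obtain ⟨va, hva, wa, hwa, hia⟩ := hend a ha (Or.inl rfl)
  obtain ⟨vb, hvb, wb, hwb, hib⟩ := hend b hb (Or.inr rfl)
  have hl1 : M.lam (M.S.filter (fun e => h e ∈ X ∧ t e ∈ X)) ≤ 1 := by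
    refine hg.lam_inside_fs hX hXn hXc va vb ?_
    intro e he v hv w hw hve hwe
    rcases hlv e he v hv w hw hve hwe with rfl | rfl
    · rcases hia v hve with h6 | h6
      · exact Or.inl h6
      · rw [h6] at hv; exact absurd hv (mem_sdiff.1 hwa).2
    · rcases hib v hve with h6 | h6
      · exact Or.inr h6
      · rw [h6] at hv; exact absurd hv (mem_sdiff.1 hwb).2
  have hcc : U \ (U \ X) = X := by
    rw [sdiff_sdiff_right_self]
    exact inf_eq_right.2 hX
  have hl2 : M.lam (M.S.filter (fun e => h e ∈ U \ X ∧ t e ∈ U \ X)) ≤ 1 := by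
    refine hg.lam_inside_fs sdiff_subset hXc (by rw [hcc]; exact hXn) wa wb ?_
    intro e he v hv w hw hve hwe
    rw [hcc] at hw
    rcases hlv e he w hw v hv hwe hve with rfl | rfl
    · rcases hia v hve with h6 | h6
      · rw [h6] at hv; exact absurd hva (mem_sdiff.1 hv).2
      · exact Or.inl h6
    · rcases hib v hve with h6 | h6
      · rw [h6] at hv; exact absurd hvb (mem_sdiff.1 hv).2
      · exact Or.inr h6
  rcases hsc.2 _ (filter_subset _ _) hl1 with hA | hA
  swap
  · exact hg.star2_aux_fs hsc h2 ha hb hab hs hXc hc hA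
  rcases hsc.2 _ (filter_subset _ _) hl2 with hA' | hA'
  swap
  · refine hg.star2_aux_fs hsc h2 ha hb hab hs (X := U \ X) (by rw [hcc]; exact hXn) ?_ hA'
    rw [hg.cob_sdiff]
    exact hc
  exfalso
  refine SC_three hsc (fun e => if e ∈ M.S.filter (fun e => h e ∈ X ∧ t e ∈ X) then 0 else
    if e ∈ M.S.filter (fun e => h e ∈ U \ X ∧ t e ∈ U \ X) then 1 else 2) ?_
  have h2c : ∀ e ∈ M.S, e ∉ M.S.filter (fun e => h e ∈ X ∧ t e ∈ X) →
      e ∉ M.S.filter (fun e => h e ∈ U \ X ∧ t e ∈ U \ X) → e = a ∨ e = b := by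
    intro e he h3 h4
    rw [mem_filter] at h3 h4
    obtain ⟨h6, h7, h8⟩ := hg.ends e he
    by_cases h9 : h e ∈ X
    · have h10 : t e ∉ X := fun h10 => h3 ⟨he, h9, h10⟩
      exact hlv e he (h e) h9 (t e) (mem_sdiff.2 ⟨h7, h10⟩) (Or.inl rfl) (Or.inr rfl)
    · have h10 : t e ∈ X := by
        by_contra h10
        exact h4 ⟨he, mem_sdiff.2 ⟨h6, h9⟩, mem_sdiff.2 ⟨h7, h10⟩⟩
      exact hlv e he (t e) h10 (h e) (mem_sdiff.2 ⟨h6, h9⟩) (Or.inr rfl) (Or.inl rfl)
  intro e he f hf hef
  by_cases e1 : e ∈ M.S.filter (fun e => h e ∈ X ∧ t e ∈ X)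
  · by_cases f1 : f ∈ M.S.filter (fun e => h e ∈ X ∧ t e ∈ X)
    · exact hA e e1 f f1
    · simp only [if_pos e1, if_neg f1] at hef
      split_ifs at hef
      · exact absurd hef (by decide)
      · exact absurd hef (by decide)
  · by_cases f1 : f ∈ M.S.filter (fun e => h e ∈ X ∧ t e ∈ X)
    · simp only [if_neg e1, if_pos f1] at hef
      split_ifs at hef
      · exact absurd hef (by decide)
      · exact absurd hef (by decide)
    · simp only [if_neg e1, if_neg f1] at hef
      by_cases e2 : e ∈ M.S.filter (fun e => h e ∈ U \ X ∧ t e ∈ U \ X)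
      · by_cases f2 : f ∈ M.S.filter (fun e => h e ∈ U \ X ∧ t e ∈ U \ X)
        · exact hA' e e2 f f2
        · simp only [if_pos e2, if_neg f2] at hef
          exact absurd hef (by decide)
      · by_cases f2 : f ∈ M.S.filter (fun e => h e ∈ U \ X ∧ t e ∈ U \ X)
        · simp only [if_neg e2, if_pos f2] at hef
          exact absurd hef (by decide)
        · rcases h2c e he e1 e2 with rfl | rfl <;> rcases h2c f hf f1 f2 with rfl | rfl
          · exact fun z hz => rfl
          · exact hs
          · exact ser_symm_fs hs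
          · exact fun z hz => rfl

/-- two series pairs (or a series pair and one more element) inside a small separation -/
theorem SC_small_fs {M : BM E} (hsc : M.SC) (h2 : M.Two) {a b : E} (ha : a ∈ M.S) (hb : b ∈ M.S)
    (hab : a ≠ b) (hs : M.Ser a b) (B : Finset E) (hB : B ⊆ M.S) (hBn : B.Nonempty)
    (haB : a ∉ B) (hbB : b ∉ B) (hBs : ∀ e ∈ B, ∀ f ∈ B, M.Ser e f)
    (hl : M.lam ({a, b} ∪ B) ≤ 1) : False := by
  have hsub : {a, b} ∪ B ⊆ M.S := by
    intro e he
    rw [mem_union, mem_insert, mem_singleton] at he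
    rcases he with (rfl | rfl) | he
    · exact ha
    · exact hb
    · exact hB he
  rcases hsc.2 _ hsub hl with hA | hA
  · obtain ⟨x, hx⟩ := hBn
    rcases h2 a ha b hb x (hB hx) hs (hA a (by simp) x (by simp [hx])) with h3 | h3 | h3
    · exact hab h3
    · rw [← h3] at hx; exact haB hx
    · rw [← h3] at hx; exact hbB hx
  · refine SC_three hsc (fun e => if e = a ∨ e = b then 0 else if e ∈ B then 1 else 2) ?_
    intro e he f hf hef
    by_cases e1 : e = a ∨ e = b
    · by_cases f1 : f = a ∨ f = b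
      · rcases e1 with rfl | rfl <;> rcases f1 with rfl | rfl
        · exact fun z hz => rfl
        · exact hs
        · exact ser_symm_fs hs
        · exact fun z hz => rfl
      · simp only [if_pos e1, if_neg f1] at hef
        split_ifs at hef
        · exact absurd hef (by decide)
        · exact absurd hef (by decide)
    · by_cases f1 : f = a ∨ f = b
      · simp only [if_neg e1, if_pos f1] at hef
        split_ifs at hef
        · exact absurd hef (by decide)
        · exact absurd hef (by decide)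
      · simp only [if_neg e1, if_neg f1] at hef
        by_cases e2 : e ∈ B
        · by_cases f2 : f ∈ B
          · exact hBs e e2 f f2
          · simp only [if_pos e2, if_neg f2] at hef
            exact absurd hef (by decide)
        · by_cases f2 : f ∈ B
          · simp only [if_neg e2, if_pos f2] at hef
            exact absurd hef (by decide)
          · refine hA e ?_ f ?_
            · rw [mem_sdiff, mem_union, mem_insert, mem_singleton]
              exact ⟨he, fun h3 => h3.elim e1 e2⟩
            · rw [mem_sdiff, mem_union, mem_insert, mem_singleton]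
              exact ⟨hf, fun h3 => h3.elim f1 f2⟩

theorem jn_of_inc_fs {h t : E → V} {e : E} {u v : V} (hu : Inc h t u e) (hv : Inc h t v e)
    (huv : u ≠ v) : Jn h t e u v := by
  rcases hu with h1 | h1 <;> rcases hv with h2 | h2
  · exact absurd (h1.symm.trans h2) huv
  · exact Or.inl ⟨h1, h2⟩
  · exact Or.inr ⟨h2, h1⟩
  · exact absurd (h1.symm.trans h2) huv

theorem jn_inc_left_fs {h t : E → V} {e : E} {u v : V} (hj : Jn h t e u v) : Inc h t u e := by
  rcases hj with h1 | h1
  · exact Or.inl h1.1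
  · exact Or.inr h1.2

theorem jn_inc_right_fs {h t : E → V} {e : E} {u v : V} (hj : Jn h t e u v) : Inc h t v e := by
  rcases hj with h1 | h1
  · exact Or.inr h1.2
  · exact Or.inl h1.1

theorem jn_ends_fs {h t : E → V} {e : E} {u v w : V} (hj : Jn h t e u v) (hw : Inc h t w e) :
    w = u ∨ w = v := by
  rcases hj with h1 | h1 <;> rcases hw with h2 | h2
  · exact Or.inl (h2.symm.trans h1.1)
  · exact Or.inr (h2.symm.trans h1.2)
  · exact Or.inr (h2.symm.trans h1.1)
  · exact Or.inl (h2.symm.trans h1.2)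

theorem jn_cob_fs {S : Finset E} {h t : E → V} {e : E} {u v : V} (he : e ∈ S) (hj : Jn h t e u v)
    (π : V → ZMod 2) : cob S h t π e = π u + π v := by
  rw [cob_mem he]
  rcases hj with h1 | h1
  · rw [h1.1, h1.2]
  · rw [h1.1, h1.2, add_comm]

theorem IsGr.jn_ne_fs {M : BM E} {U : Finset V} {h t : E → V} (hg : IsGr M U h t) {e : E}
    (he : e ∈ M.S) {u v : V} (hj : Jn h t e u v) : u ≠ v := by
  have h1 := (hg.ends e he).2.2
  rcases hj with h2 | h2
  · rw [h2.1, h2.2] at h1; exact h1
  · rw [h2.1, h2.2] at h1; exact h1.symm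

theorem IsGr.deg_ge_fs {M : BM E} {U : Finset V} {h t : E → V} (hg : IsGr M U h t)
    (hsc : M.SC) (h2 : M.Two) {a b : E} (ha : a ∈ M.S) (hb : b ∈ M.S) (hab : a ≠ b)
    (hs : M.Ser a b) {u : V} (hu : u ∈ U) (hua : Inc h t u a) (hub : ¬ Inc h t u b) :
    3 ≤ (star M.S h t u).card := by
  have h3 := hg.two_le_deg hsc hu
  by_contra h4
  have h5 : (star M.S h t u).card = 2 := by omega
  obtain ⟨c, d, hcd, h6⟩ := card_eq_two.1 h5
  have key : ∀ c', c' ∈ M.S → a ≠ c' → star M.S h t u = {a, c'} → False := by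
    intro c' hc' hac h7
    have h8 : M.Ser a c' := (hg.star2 hsc h2 ha hc' hac).2 ⟨u, hu, h7⟩
    rcases h2 a ha b hb c' hc' hs h8 with h9 | h9 | h9
    · exact hab h9
    · exact hac h9
    · apply hub
      rw [h9]
      have : c' ∈ star M.S h t u := by rw [h7]; simp
      exact (mem_star.1 this).2
  have h7 : a ∈ star M.S h t u := mem_star.2 ⟨ha, hua⟩
  have hc' : c ∈ M.S := by
    have : c ∈ star M.S h t u := by rw [h6]; simp
    exact (mem_star.1 this).1
  have hd' : d ∈ M.S := by
    have : d ∈ star M.S h t u := by rw [h6]; simp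
    exact (mem_star.1 this).1
  rw [h6, mem_insert, mem_singleton] at h7
  rcases h7 with rfl | rfl
  · exact key d hd' hcd h6
  · exact key c hc' hcd.symm (by rw [h6, pair_comm])

/-- (DEG): the neighbours of the vertices of degree two. -/
theorem IsGr.deg2 {M : BM E} {U : Finset V} {h t : E → V} (hg : IsGr M U h t)
    (hsc : M.SC) (h2 : M.Two) {s : V} (hs : s ∈ U) (hd : (star M.S h t s).card = 2) :
    ∃ a b u w, a ∈ M.S ∧ b ∈ M.S ∧ a ≠ b ∧ star M.S h t s = {a, b} ∧ Jn h t a s u ∧
      Jn h t b s w ∧ u ∈ U ∧ w ∈ U ∧ u ≠ w ∧ u ≠ s ∧ w ≠ s ∧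
      3 ≤ (star M.S h t u).card ∧ 3 ≤ (star M.S h t w).card ∧
      (∀ x ∈ M.S, ¬ Jn h t x u w) ∧
      (∀ s' ∈ U, s' ≠ s → (star M.S h t s').card = 2 → ∀ x ∈ M.S, ∀ y ∈ M.S,
        Jn h t x s' u → ¬ Jn h t y s' w) := by
  obtain ⟨a, b, hab, hst⟩ := card_eq_two.1 hd
  have ha' : a ∈ star M.S h t s := by rw [hst]; simp
  have hb' : b ∈ star M.S h t s := by rw [hst]; simp
  rw [mem_star] at ha' hb'
  obtain ⟨ha, hsa⟩ := ha'
  obtain ⟨hb, hsb⟩ := hb'
  obtain ⟨u, hu, hus, hua, hua'⟩ := hg.two_ends ha hsa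
  obtain ⟨w, hw, hws, hwb, hwb'⟩ := hg.two_ends hb hsb
  have hser : M.Ser a b := (hg.star2 hsc h2 ha hb hab).2 ⟨s, hs, hst⟩
  have hja : Jn h t a s u := jn_of_inc_fs hsa hua hus.symm
  have hjb : Jn h t b s w := jn_of_inc_fs hsb hwb hws.symm
  have huw : u ≠ w := by
    intro huw
    rw [← huw] at hjb
    exact hab (hg.no_par hsc ha hb hja hjb)
  have hub : ¬ Inc h t u b := by
    intro h3
    rcases hwb' u h3 with h4 | h4
    · exact hus h4
    · exact huw h4
  have hwa : ¬ Inc h t w a := by
    intro h3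
    rcases hua' w h3 with h4 | h4
    · exact hws h4
    · exact huw h4.symm
  have hind : ind {a, b} ∈ M.R := (ser_iff_ind ha hb hab).1 hser
  have hdR : ∀ B : Finset E, 1 ≤ M.dR ({a, b} ∪ B) := by
    intro B
    rw [Nat.one_le_iff_ne_zero, ← Nat.pos_iff_ne_zero, M.dR_pos_iff]
    refine ⟨ind {a, b}, hind, ?_, ?_⟩
    · intro h0
      have := congrFun h0 a
      rw [ind_mem (by simp)] at this
      exact one_ne_zero this
    · intro e he
      apply ind_notMem
      intro h3
      exact he (mem_union_left _ h3)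
  refine ⟨a, b, u, w, ha, hb, hab, hst, hja, hjb, hu, hw, huw, hus, hws,
    hg.deg_ge_fs hsc h2 ha hb hab hser hu hua hub,
    hg.deg_ge_fs hsc h2 hb ha hab.symm (ser_symm_fs hser) hw hwb hwa, ?_, ?_⟩
  · intro x hx hjx
    have hxa : x ≠ a := by
      rintro rfl
      exact hwa (jn_inc_right_fs hjx)
    have hxb : x ≠ b := by
      rintro rfl
      exact hub (jn_inc_left_fs hjx)
    refine SC_small_fs hsc h2 ha hb hab hser {x} (by simpa using hx) (by simp)
      (by simpa using hxa.symm) (by simpa using hxb.symm) ?_ ?_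
    · intro e he f hf
      rw [mem_singleton] at he hf
      rw [he, hf]
      exact fun z hz => rfl
    · have h3 : M.r ({a, b} ∪ {x}) + M.dZ ({a, b} ∪ {x}) = ({a, b} ∪ {x} : Finset E).card :=
        M.r_add_dZ (by
          intro e he
          simp only [mem_union, mem_insert, mem_singleton] at he
          rcases he with (rfl | rfl) | rfl <;> assumption)
      have h4 : ({a, b} ∪ {x} : Finset E).card ≤ 3 :=
        (card_union_le _ _).trans (by rw [card_pair hab, card_singleton])
      have h5 := M.lam_add_dR_eq_r ({a, b} ∪ {x})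
      have h6 := hdR {x}
      have h7 : 0 < M.dZ ({a, b} ∪ {x}) := by
        rw [M.dZ_pos_iff]
        refine ⟨ind ({a, b} ∪ {x}), ⟨?_, ?_⟩, ?_, ?_⟩
        · intro e he
          apply ind_notMem
          intro h8
          simp only [mem_union, mem_insert, mem_singleton] at h8
          rcases h8 with (rfl | rfl) | rfl <;> exact he (by assumption)
        · intro f hf
          obtain ⟨π, rfl⟩ := (hg.rows f).1 hf
          rw [dot_ind, sum_union (by
            rw [disjoint_singleton_right, mem_insert, mem_singleton]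
            tauto), sum_pair hab, sum_singleton, jn_cob_fs ha hja, jn_cob_fs hb hjb, jn_cob_fs hx hjx]
          generalize π s = p
          generalize π u = q
          generalize π w = r
          revert p q r
          decide
        · intro h0
          have := congrFun h0 a
          rw [ind_mem (by simp)] at this
          exact one_ne_zero this
        · intro e he
          exact ind_notMem he
      omega
  · intro s' hs' hss hd' x hx y hy hjx hjy
    have hxy : x ≠ y := by
      rintro rfl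
      rcases jn_ends_fs hjx (jn_inc_right_fs hjy) with h3 | h3
      · exact hg.jn_ne_fs hx hjy h3.symm
      · exact huw h3.symm
    have hst' : star M.S h t s' = {x, y} := by
      symm
      apply eq_of_subset_of_card_le
      · intro e he
        rw [mem_insert, mem_singleton] at he
        rw [mem_star]
        rcases he with rfl | rfl
        · exact ⟨hx, jn_inc_left_fs hjx⟩
        · exact ⟨hy, jn_inc_left_fs hjy⟩
      · rw [hd', card_pair hxy]
    have hser' : M.Ser x y := (hg.star2 hsc h2 hx hy hxy).2 ⟨s', hs', hst'⟩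
    have hs'u : s' ≠ u := hg.jn_ne_fs hx hjx
    have hs'w : s' ≠ w := hg.jn_ne_fs hy hjy
    have hxa : a ≠ x := by
      rintro rfl
      rcases jn_ends_fs hja (jn_inc_left_fs hjx) with h3 | h3
      · exact hss h3
      · exact hs'u h3
    have hxb : b ≠ x := by
      rintro rfl
      exact hub (jn_inc_right_fs hjx)
    have hya : a ≠ y := by
      rintro rfl
      exact hwa (jn_inc_right_fs hjy)
    have hyb : b ≠ y := by
      rintro rfl
      rcases jn_ends_fs hjb (jn_inc_left_fs hjy) with h3 | h3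
      · exact hss h3
      · exact hs'w h3
    refine SC_small_fs hsc h2 ha hb hab hser {x, y} ?_ (by simp) (by simp [hxa, hya])
      (by simp [hxb, hyb]) ?_ ?_
    · intro e he
      rw [mem_insert, mem_singleton] at he
      rcases he with rfl | rfl <;> assumption
    · intro e he f hf
      rw [mem_insert, mem_singleton] at he hf
      rcases he with rfl | rfl <;> rcases hf with rfl | rfl
      · exact fun z hz => rfl
      · exact hser'
      · exact ser_symm_fs hser'
      · exact fun z hz => rfl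
    · have hdis : Disjoint ({a, b} : Finset E) {x, y} := by
        rw [disjoint_left]
        intro e he he'
        rw [mem_insert, mem_singleton] at he he'
        rcases he with rfl | rfl <;> rcases he' with h3 | h3
        · exact hxa h3
        · exact hya h3
        · exact hxb h3
        · exact hyb h3
      have h3 : M.r ({a, b} ∪ {x, y}) + M.dZ ({a, b} ∪ {x, y}) =
          ({a, b} ∪ {x, y} : Finset E).card :=
        M.r_add_dZ (by
          intro e he
          simp only [mem_union, mem_insert, mem_singleton] at he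
          rcases he with (rfl | rfl) | (rfl | rfl) <;> assumption)
      have h4 : ({a, b} ∪ {x, y} : Finset E).card ≤ 4 :=
        (card_union_le _ _).trans (by rw [card_pair hab, card_pair hxy])
      have h5 := M.lam_add_dR_eq_r ({a, b} ∪ {x, y})
      have h6 := hdR ∅
      have h6' : 1 ≤ M.dR {x, y} := by
        rw [Nat.one_le_iff_ne_zero, ← Nat.pos_iff_ne_zero, M.dR_pos_iff]
        refine ⟨ind {x, y}, (ser_iff_ind hx hy hxy).1 hser', ?_, fun e he => ind_notMem he⟩
        intro h0
        have := congrFun h0 x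
        rw [ind_mem (by simp)] at this
        exact one_ne_zero this
      rw [union_empty] at h6
      have h8 := M.dR_super {a, b} {x, y}
      rw [disjoint_iff_inter_eq_empty.1 hdis, M.dR_empty] at h8
      have h7 : 0 < M.dZ ({a, b} ∪ {x, y}) := by
        rw [M.dZ_pos_iff]
        refine ⟨ind ({a, b} ∪ {x, y}), ⟨?_, ?_⟩, ?_, ?_⟩
        · intro e he
          apply ind_notMem
          intro h8
          simp only [mem_union, mem_insert, mem_singleton] at h8
          rcases h8 with (rfl | rfl) | (rfl | rfl) <;> exact he (by assumption)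
        · intro f hf
          obtain ⟨π, rfl⟩ := (hg.rows f).1 hf
          rw [dot_ind, sum_union hdis, sum_pair hab, sum_pair hxy, jn_cob_fs ha hja, jn_cob_fs hb hjb,
            jn_cob_fs hx hjx, jn_cob_fs hy hjy]
          generalize π s = p
          generalize π u = q
          generalize π w = r
          generalize π s' = p'
          revert p q r p'
          decide
        · intro h0
          have := congrFun h0 a
          rw [ind_mem (by simp)] at this
          exact one_ne_zero this
        · intro e he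
          exact ind_notMem he
      omega

end SEY

end

section

/-!
# Seymour, block FRAME: the frame of a 3-connected graphic matroid is unique (Whitney)
-/

set_option autoImplicit false
set_option linter.unusedSectionVars false

namespace SEY

open Finset Module

variable {E : Type} [Fintype E] [DecidableEq E] {V V' : Type} [DecidableEq V] [DecidableEq V']

variable {M : BM E} {U : Finset V} {h t : E → V}

/-- There is no cut vertex. -/
theorem IsGr.no_cut_one (hG : IsGr M U h t)
    (hc : ∀ A ⊆ M.S, M.lam A = 0 → A = ∅ ∨ A = M.S) {Z : Finset V} {w : V}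
    (hZ : Z.Nonempty) (hZU : Z ⊆ U)
    (hT : ∀ e ∈ M.S, ∀ z ∈ Z, Inc h t z e → ∀ v, Inc h t v e → v ∈ Z ∨ v = w) :
    ∀ v ∈ U, v ∈ Z ∨ v = w := by
  by_contra hne
  push Not at hne
  obtain ⟨v1, hv1U, hv1, hv1'⟩ := hne
  have h2 := hG.sep0 (T := {w}) (singleton_nonempty w) hZ hZU ⟨v1, hv1U, hv1⟩
    (by
      intro e he z hz hze v hv
      rw [mem_union, mem_singleton]
      exact hT e he z hz hze v hv)
  rw [card_singleton] at h2
  rcases hc _ (meet_subset M.S h t Z) (by omega) with h3 | h3
  · obtain ⟨z, hz⟩ := hZ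
    obtain ⟨e, he, hze⟩ := hG.exists_inc (hZU hz)
    have : e ∈ meet M.S h t Z := mem_meet.2 ⟨he, z, hz, hze⟩
    rw [h3] at this
    exact notMem_empty _ this
  · obtain ⟨e, he, hve⟩ := hG.exists_inc hv1U
    rw [← h3] at he
    obtain ⟨he', z, hz, hze⟩ := mem_meet.1 he
    rcases hT e he' z hz hze v1 hve with h | h
    · exact hv1 h
    · exact hv1' h

/-- There is no vertex cut of size two in a 3-connected matroid. -/
theorem IsGr.no_cut_two (hG : IsGr M U h t)
    (hc : ∀ A ⊆ M.S, M.lam A ≤ 1 → A.card ≤ 1 ∨ (M.S \ A).card ≤ 1)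
    (hst : ∀ v ∈ U, 2 ≤ (star M.S h t v).card) {Z : Finset V} {u w : V}
    (hZ : Z.Nonempty) (hZU : Z ⊆ U)
    (hT : ∀ e ∈ M.S, ∀ z ∈ Z, Inc h t z e → ∀ v, Inc h t v e → v ∈ Z ∨ v = u ∨ v = w) :
    ∀ v ∈ U, v ∈ Z ∨ v = u ∨ v = w := by
  by_contra hne
  push Not at hne
  obtain ⟨v1, hv1U, hv1, hv1'⟩ := hne
  have h2 := hG.sep0 (T := {u, w}) (insert_nonempty _ _) hZ hZU ⟨v1, hv1U, hv1⟩
    (by
      intro e he z hz hze v hv
      rw [mem_union, mem_insert, mem_singleton]
      exact hT e he z hz hze v hv)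
  have h2' : ({u, w} : Finset V).card ≤ 2 := card_le_two
  rcases hc _ (meet_subset M.S h t Z) (by omega) with h3 | h3
  · obtain ⟨z, hz⟩ := hZ
    have h4 := hst z (hZU hz)
    have h5 : star M.S h t z ⊆ meet M.S h t Z := fun e he => by
      rw [mem_star] at he
      exact mem_meet.2 ⟨he.1, z, hz, he.2⟩
    have := card_le_card h5
    omega
  · have h4 := hst v1 hv1U
    have h5 : star M.S h t v1 ⊆ M.S \ meet M.S h t Z := fun e he => by
      rw [mem_star] at he
      rw [mem_sdiff]
      refine ⟨he.1, fun he2 => ?_⟩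
      obtain ⟨-, z, hz, hze⟩ := mem_meet.1 he2
      rcases hT e he.1 z hz hze v1 he.2 with h | h | h
      · exact hv1 h
      · exact hv1'.1 h
      · exact hv1'.2 h
    have := card_le_card h5
    omega

/-- Stars are minimal nonzero rows. -/
theorem IsGr.cocircuit (hG : IsGr M U h t)
    (hc : ∀ A ⊆ M.S, M.lam A = 0 → A = ∅ ∨ A = M.S) {w : V} (hw : w ∈ U)
    {f : E → ZMod 2} (hf : f ∈ M.R) (hsub : ∀ e, f e ≠ 0 → Inc h t w e) :
    f = 0 ∨ f = cob M.S h t (indV {w}) := by
  obtain ⟨B, hBU, hwB, rfl⟩ := hG.exists_indV_notMem w hf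
  rcases B.eq_empty_or_nonempty with rfl | hB
  · left
    funext e
    exact cob_indV_disj fun v _ => notMem_empty v
  right
  have h1 := hG.no_cut_one (w := w) hc hB hBU (by
    intro e he z hz hze v hve
    by_cases hv : v ∈ B
    · exact Or.inl hv
    right
    have h2 := hsub e (by rw [cob_indV_one he hz hv hze hve]; exact one_ne_zero)
    have hzv : z ≠ v := fun h => hv (h ▸ hz)
    rcases inc_le hze hve h2 hzv with h3 | h3
    · exact absurd (h3 ▸ hz) hwB
    · exact h3.symm)
  have h2 : U \ B = {w} := by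
    ext v
    rw [mem_sdiff, mem_singleton]
    constructor
    · rintro ⟨hv, hvB⟩
      exact (h1 v hv).resolve_left hvB
    · rintro rfl
      exact ⟨hw, hwB⟩
  rw [← hG.cob_sdiff, h2]

/-- Uniqueness of the frame of a 3-connected matroid, general form. -/
theorem IsGr.uniq_aux {U' : Finset V'} {h' t' : E → V'} (hG : IsGr M U h t)
    (hG' : IsGr M U' h' t')
    (hc1 : ∀ A ⊆ M.S, M.lam A = 0 → A = ∅ ∨ A = M.S)
    (hc : ∀ A ⊆ M.S, M.lam A ≤ 1 → A.card ≤ 1 ∨ (M.S \ A).card ≤ 1)
    (hst : ∀ v ∈ U', 2 ≤ (star M.S h' t' v).card) {w : V'} (hw : w ∈ U') :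
    ∃ v ∈ U, cob M.S h' t' (indV {w}) = cob M.S h t (indV {v}) := by
  by_contra hno
  push Not at hno
  obtain ⟨A, hAU, hA⟩ := hG.exists_indV (hG'.mem_R (indV {w}))
  have hw0 : cob M.S h' t' (indV {w}) ≠ 0 := by
    intro h0
    obtain ⟨e, he, hwe⟩ := hG'.exists_inc hw
    have := congrFun h0 e
    rw [hG'.cob_singleton, ind_mem (mem_star.2 ⟨he, hwe⟩)] at this
    exact one_ne_zero this
  have hA0 : A.Nonempty := by
    rw [nonempty_iff_ne_empty]
    rintro rfl
    refine hw0 (hA.trans ?_)
    funext e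
    exact cob_indV_disj fun v _ => notMem_empty v
  have hA1 : (U \ A).Nonempty := by
    rw [nonempty_iff_ne_empty]
    intro h1
    refine hw0 (hA.trans ?_)
    rw [← hG.cob_sdiff, h1]
    funext e
    exact cob_indV_disj fun v _ => notMem_empty v
  -- edges outside the star of `w`
  have hw1 : ∀ e ∈ M.S, cob M.S h' t' (indV {w}) e = 0 → ¬ Inc h' t' w e := by
    intro e he h0 hwe
    rw [hG'.cob_singleton, ind_mem (mem_star.2 ⟨he, hwe⟩)] at h0
    exact one_ne_zero h0
  have hw2 : ∀ e, ¬ Inc h' t' w e → cob M.S h' t' (indV {w}) e = 0 := by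
    intro e h0
    exact cob_indV_disj fun v hv hvw => h0 (by rw [mem_singleton] at hvw; exact hvw ▸ hv)
  have hends : ∀ e ∈ M.S, ¬ Inc h' t' w e → ∀ v1 v2, Inc h t v1 e → Inc h t v2 e → v1 ∈ A →
      v2 ∈ A := by
    intro e he h0 v1 v2 h1 h2 h3
    by_contra h4
    have := cob_indV_one he h3 h4 h1 h2
    rw [← hA, hw2 e h0] at this
    exact zero_ne_one this
  set X : Finset E := M.S.filter fun e => ¬ Inc h' t' w e ∧ h e ∈ A with hX
  set Y : Finset E := M.S.filter fun e => ¬ Inc h' t' w e ∧ h e ∉ A with hY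
  have mX : ∀ e, e ∈ X ↔ e ∈ M.S ∧ ¬ Inc h' t' w e ∧ h e ∈ A := by
    intro e; rw [hX, mem_filter]
  have mY : ∀ e, e ∈ Y ↔ e ∈ M.S ∧ ¬ Inc h' t' w e ∧ h e ∉ A := by
    intro e; rw [hY, mem_filter]
  have hXA : ∀ e ∈ X, ∀ v, Inc h t v e → v ∈ A := by
    intro e he v hv
    obtain ⟨h1, h2, h3⟩ := (mX e).1 he
    exact hends e h1 h2 _ v (Or.inl rfl) hv h3
  have hYA : ∀ e ∈ Y, ∀ v, Inc h t v e → v ∉ A := by
    intro e he v hv hvA
    obtain ⟨h1, h2, h3⟩ := (mY e).1 he
    exact h3 (hends e h1 h2 v _ hv (Or.inl rfl) hvA)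
  have hXY : ∀ e ∈ M.S, ¬ Inc h' t' w e → e ∈ X ∨ e ∈ Y := by
    intro e he h1
    by_cases hvA : h e ∈ A
    · exact Or.inl ((mX e).2 ⟨he, h1, hvA⟩)
    · exact Or.inr ((mY e).2 ⟨he, h1, hvA⟩)
  have hstar : ∀ v ∈ U, ∃ e ∈ M.S, Inc h t v e ∧ ¬ Inc h' t' w e := by
    intro v hv
    by_contra hne
    push Not at hne
    rcases hG'.cocircuit hc1 hw (hG.mem_R (indV {v})) (fun e he => by
      rw [hG.cob_singleton] at he
      have h1 : e ∈ star M.S h t v := by
        by_contra h1
        exact he (ind_notMem h1)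
      rw [mem_star] at h1
      exact hne e h1.1 h1.2) with h1 | h1
    · obtain ⟨e, he, hve⟩ := hG.exists_inc hv
      have := congrFun h1 e
      rw [hG.cob_singleton, ind_mem (mem_star.2 ⟨he, hve⟩)] at this
      exact one_ne_zero this
    · exact hno v hv h1.symm
  have hXn : ∃ e, e ∈ X := by
    obtain ⟨v, hv⟩ := hA0
    obtain ⟨e, he, he1, he2⟩ := hstar v (hAU hv)
    refine ⟨e, (mX e).2 ⟨he, he2, hends e he he2 v _ he1 (Or.inl rfl) hv⟩⟩
  have hYn : ∃ e, e ∈ Y := by
    obtain ⟨v, hv⟩ := hA1
    rw [mem_sdiff] at hv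
    obtain ⟨e, he, he1, he2⟩ := hstar v hv.1
    refine ⟨e, (mY e).2 ⟨he, he2, fun h3 => hv.2 ?_⟩⟩
    exact hends e he he2 _ v (Or.inl rfl) he1 h3
  -- no vertex meets both `X` and `Y`
  have hmeet : ∀ u ∈ U', u ≠ w → ∀ x ∈ X, ∀ y ∈ Y, Inc h' t' u x → Inc h' t' u y → False := by
    intro u huU huw x hx y hy hux huy
    obtain ⟨B, hBU, hB⟩ := hG.exists_indV (hG'.mem_R (indV {u}))
    obtain ⟨C, hCU, hwC, hC⟩ := hG'.exists_indV_notMem w (hG.mem_R (indV (B ∩ A)))
    have hCX : ∀ e ∈ X, cob M.S h' t' (indV C) e = cob M.S h' t' (indV {u}) e := by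
      intro e he
      rw [← hC, hB]
      exact cob_indV_inter (hXA e he)
    have hCX' : ∀ e ∈ X, Inc h' t' u e → cob M.S h' t' (indV C) e = 1 := by
      intro e he hue
      rw [hCX e he, hG'.cob_singleton, ind_mem (mem_star.2 ⟨((mX e).1 he).1, hue⟩)]
    have hCX'' : ∀ e ∈ X, cob M.S h' t' (indV C) e ≠ 0 → Inc h' t' u e := by
      intro e he h0
      by_contra hue
      rw [hCX e he, hG'.cob_singleton] at h0
      exact h0 (ind_notMem fun h => hue (mem_star.1 h).2)
    have hCY : ∀ e ∈ Y, cob M.S h' t' (indV C) e = 0 := by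
      intro e he
      rw [← hC]
      exact cob_indV_disj fun v hv hvA => hYA e he v hv (mem_inter.1 hvA).2
    obtain ⟨hxS, hxw, -⟩ := (mX x).1 hx
    obtain ⟨hyS, hyw, -⟩ := (mY y).1 hy
    by_cases hu : u ∈ C
    · -- `Z = C.erase u`
      have hZn : (C.erase u).Nonempty := by
        obtain ⟨v, hvU, hv1, hv2, -⟩ := hG'.two_ends hyS huy
        refine ⟨v, mem_erase.2 ⟨hv1, ?_⟩⟩
        by_contra hvC
        have := cob_indV_one hyS hu hvC huy hv2
        rw [hCY y hy] at this
        exact zero_ne_one this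
      have h1 := hG'.no_cut_two (u := u) (w := w) hc hst hZn ((erase_subset _ _).trans hCU) (by
        intro e he z hz hze v hve
        rw [mem_erase] at hz
        by_contra hv
        push Not at hv
        obtain ⟨hv1, hv2, hv3⟩ := hv
        have hvC : v ∉ C := fun hvC => hv1 (mem_erase.2 ⟨hv2, hvC⟩)
        have hzv : z ≠ v := fun hzv => hvC (hzv ▸ hz.2)
        have hew : ¬ Inc h' t' w e := by
          intro hne
          rcases inc_le hze hve hne hzv with h2 | h2
          · exact hwC (h2 ▸ hz.2)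
          · exact hv3 h2.symm
        have h2 := cob_indV_one he hz.2 hvC hze hve
        rcases hXY e he hew with h3 | h3
        · rcases inc_le hze hve (hCX'' e h3 (by rw [h2]; exact one_ne_zero)) hzv with h4 | h4
          · exact hz.1 h4.symm
          · exact hv2 h4.symm
        · rw [hCY e h3] at h2
          exact zero_ne_one h2)
      obtain ⟨v, hvU, hv1, hv2, hv3⟩ := hG'.two_ends hxS hux
      have hvC : v ∈ C := by
        rcases h1 v hvU with h2 | h2 | h2
        · exact mem_of_mem_erase h2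
        · exact absurd h2 hv1
        · exact absurd (h2 ▸ hv2) hxw
      have h2 : cob M.S h' t' (indV C) x = 0 := cob_indV_sub fun v' hv' => by
        rcases hv3 v' hv' with rfl | rfl <;> assumption
      rw [hCX' x hx hux] at h2
      exact one_ne_zero h2
    · -- `Z = C`
      have hZn : C.Nonempty := by
        rw [nonempty_iff_ne_empty]
        rintro rfl
        have h2 := hCX' x hx hux
        rw [cob_indV_disj fun v _ => notMem_empty v] at h2
        exact zero_ne_one h2
      have h1 := hG'.no_cut_two (u := u) (w := w) hc hst hZn hCU (by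
        intro e he z hz hze v hve
        by_contra hv
        push Not at hv
        obtain ⟨hvC, hv2, hv3⟩ := hv
        have hzv : z ≠ v := fun hzv => hvC (hzv ▸ hz)
        have hew : ¬ Inc h' t' w e := by
          intro hne
          rcases inc_le hze hve hne hzv with h2 | h2
          · exact hwC (h2 ▸ hz)
          · exact hv3 h2.symm
        have h2 := cob_indV_one he hz hvC hze hve
        rcases hXY e he hew with h3 | h3
        · rcases inc_le hze hve (hCX'' e h3 (by rw [h2]; exact one_ne_zero)) hzv with h4 | h4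
          · exact hu (h4 ▸ hz)
          · exact hv2 h4.symm
        · rw [hCY e h3] at h2
          exact zero_ne_one h2)
      obtain ⟨v, hvU, hv1, hv2, hv3⟩ := hG'.two_ends hyS huy
      have hvC : v ∈ C := by
        rcases h1 v hvU with h2 | h2 | h2
        · exact h2
        · exact absurd h2 hv1
        · exact absurd (h2 ▸ hv2) hyw
      have h2 := cob_indV_one hyS hvC hu hv2 huy
      rw [hCY y hy] at h2
      exact zero_ne_one h2
  -- `w` is a cut vertex
  set P : Finset V' := U'.filter fun u => u ≠ w ∧ ∃ x ∈ X, Inc h' t' u x with hP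
  have mP : ∀ u, u ∈ P ↔ u ∈ U' ∧ u ≠ w ∧ ∃ x ∈ X, Inc h' t' u x := by
    intro u; rw [hP, mem_filter]
  have hPn : P.Nonempty := by
    obtain ⟨x, hx⟩ := hXn
    obtain ⟨hxS, hxw, -⟩ := (mX x).1 hx
    exact ⟨h' x, (mP _).2 ⟨(hG'.ends x hxS).1, fun h => hxw (Or.inl h), x, hx, Or.inl rfl⟩⟩
  have h1 := hG'.no_cut_one (w := w) hc1 hPn (filter_subset _ _) (by
    intro e he z hz hze v hve
    by_cases hvz : v = z
    · exact Or.inl (hvz ▸ hz)
    by_cases hvw : v = w
    · exact Or.inr hvw
    left
    obtain ⟨hzU, hzw, x, hx, hzx⟩ := (mP z).1 hz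
    have hew : ¬ Inc h' t' w e := by
      intro hne
      rcases inc_le hze hve hne (Ne.symm hvz) with h2 | h2
      · exact hzw h2.symm
      · exact hvw h2.symm
    rcases hXY e he hew with h3 | h3
    · exact (mP v).2 ⟨hG'.inc_mem he hve, hvw, e, h3, hve⟩
    · exact (hmeet z hzU hzw x hx e h3 hzx hze).elim)
  obtain ⟨y, hy⟩ := hYn
  obtain ⟨hyS, hyw, -⟩ := (mY y).1 hy
  have huw : h' y ≠ w := fun h => hyw (Or.inl h)
  have huU := (hG'.ends y hyS).1
  obtain ⟨-, -, x, hx, hux⟩ := (mP _).1 ((h1 _ huU).resolve_right huw)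
  exact hmeet _ huU huw x hx y hy hux (Or.inl rfl)

end SEY

end
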