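import Pool.Agent.Helper29.MFA.T20
import Pool.Agent.Helper29.MFA.T21

section

/-!
# FRAME module FR-8: (EXTG)

`N = M.del {e}`. Case 1: `e` is a coloop of `M` (`∀ z ∈ M.Z, z e = 0`)? It is not excluded a priori, but `IsGraft` excludes it: if `ind {e}` is a
row then some `π` has `cob N.S h t π = 0` and `∑ v ∈ T, π v = 1`; by `conn` `π` is constant on `U`, `T ⊆ U` even: the sum is `0`. So `ind {e} ∉ M.R`, by
`mem_R_iff` there is `z0 ∈ M.Z` with `z0 e = 1`.
Case 2: for all `z ∈ M.Z` with `z e = 1` there are `a, b ≠ e` with `z a = z b = 1`, not `N.Ser a b`. Then `SC_ext` with `P = {e}` (`hear` is trivial) gives `M.SC` and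
the classes: `M.Ser a b ↔ (a = e ∧ b = e) ∨ (a ≠ e ∧ b ≠ e ∧ N.Ser a b ∧ z0 a = z0 b)`. `Two`: of three elements `a, b, c` in series either all are
`e` or all are not `e`, use `h2`.
Case 3: there is `z ∈ M.Z`, `z e = 1`, and any two elements `a, b ≠ e` of the support of `z` are in series in `N`. By `Two` the support of `z` minus `e` has at
most two elements (they are in `N.S`). The support is `{e}`, `{e, a}` or `{e, a, b}`, `a ≠ b`, `N.Ser a b`. For all `π`: `dot (row π) z = 0`: `∑ v ∈ T, π v = ∑` of `cob π` over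
the support of `z` minus `e`. Support `{e}`: `π = indV {v}` shows `T = ∅`. Support `{e, a}`: `T = {h a, t a}` (test `π = indV {v}`). Support `{e, a, b}`: `ind {a, b} ∈ N.R`
(`ser_iff_ind`-like, `mem_R_iff`) ... then there is a short way: `M` is graphic because `T = {h a} ∆ {t a} ∆ {h b} ∆ {t b}`; by `IsGr.star2` (FrStar2, may be imported)
`a, b` are the two edges at a vertex `s`, so `T = {u, w}`, the other ends. In all cases `|T| ≤ 2`, use `IsGraft.graphic`.
-/

set_option autoImplicit false

namespace SEY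

open Finset

variable {E : Type} [Fintype E] [DecidableEq E]
variable {V : Type} [Fintype V] [DecidableEq V]

/-- The graft element is not a coloop. -/
theorem IsGraft.exists_cycle {M : BM E} {e : E} {U : Finset V} {h t : E → V} {T : Finset V}
    (hg : IsGraft M e U h t T) : ∃ z ∈ M.Z, z e = 1 := by
  by_contra hno
  push Not at hno
  have h1 : (ind {e} : E → ZMod 2) ∈ M.R := by
    rw [M.mem_R_iff]
    refine ⟨fun x hx => ind_notMem ?_, fun z hz => ?_⟩
    · intro h2
      rw [mem_singleton] at h2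
      exact hx (h2 ▸ hg.mem)
    · rw [ind_dot, sum_singleton]
      rcases z2_cases (z e) with h2 | h2
      · exact h2
      · exact absurd h2 (hno z hz)
  obtain ⟨π, hπ⟩ := (hg.rows _).1 h1
  have h2 : (1 : ZMod 2) = ∑ v ∈ T, π v := by
    have := congrFun hπ e
    rw [ind_mem (mem_singleton_self e)] at this
    simpa using this
  have h3 : cob (M.del {e}).S h t π = 0 := by
    funext x
    by_cases hx : x = e
    · rw [hx]
      exact cob_notMem (by simp)
    · have := congrFun hπ x
      rw [ind_notMem (by simpa using hx)] at this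
      simp only [if_neg hx] at this
      exact this.symm
  have h4 := hg.gr.conn π h3
  by_cases hT : T = ∅
  · rw [hT, sum_empty] at h2
    exact one_ne_zero h2
  · obtain ⟨v0, hv0⟩ := nonempty_iff_ne_empty.2 hT
    have h5 : ∑ v ∈ T, π v = ∑ v ∈ T, π v0 :=
      sum_congr rfl fun v hv => h4 v (hg.sub hv) v0 (hg.sub hv0)
    rw [h5, sum_const, nsmul_eq_mul, ZMod.natCast_eq_zero_iff_even.2 hg.even, zero_mul] at h2
    exact one_ne_zero h2

/-- The sum over `T` is the sum of the coboundary over a cycle through `e`. -/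
theorem IsGraft.sum_T_ex {M : BM E} {e : E} {U : Finset V} {h t : E → V} {T : Finset V}
    (hg : IsGraft M e U h t T) {z : E → ZMod 2} (hz : z ∈ M.Z) (hze : z e = 1)
    (π : V → ZMod 2) :
    ∑ v ∈ T, π v = ∑ x ∈ (spt z).erase e, cob (M.del {e}).S h t π x := by
  have h1 := graft_val hz hze ((hg.rows _).2 ⟨π, rfl⟩)
  have h2 : mask (M.S \ {e}) (fun x => if x = e then ∑ v ∈ T, π v else
      cob (M.S \ {e}) h t π x) = cob (M.S \ {e}) h t π := by
    funext x
    by_cases hx : x ∈ M.S \ {e}
    · have hxe : x ≠ e := fun h5 => by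
        rw [h5] at hx
        simp at hx
      rw [mask_mem hx, if_neg hxe]
    · rw [mask_notMem hx, cob_notMem hx]
  rw [h2, if_pos rfl] at h1
  rw [h1]
  have h3 : dot (cob (M.S \ {e}) h t π) z =
      ∑ x ∈ (spt z).erase e, cob (M.S \ {e}) h t π x * z x := by
    unfold dot
    symm
    refine sum_subset (subset_univ _) fun x _ hx => ?_
    rw [mem_erase, not_and_or, not_not, notMem_spt] at hx
    rcases hx with hx | hx
    · rw [cob_notMem (by rw [hx]; simp), zero_mul]
    · rw [hx, mul_zero]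
  rw [h3]
  refine sum_congr rfl fun x hx => ?_
  rw [mem_spt'.1 (mem_of_mem_erase hx), mul_one]
  rfl

/-- (EXTG). -/
theorem extg {M : BM E} {e : E} {U : Finset V} {h t : E → V} {T : Finset V}
    (hg : IsGraft M e U h t T) (hsc : (M.del {e}).SC) (h2 : (M.del {e}).Two) :
    (M.SC ∧ M.Two) ∨ Graphic M := by
  obtain ⟨z0, hz0, hz0e⟩ := hg.exists_cycle
  by_cases hP : ∀ z ∈ M.Z, z e = 1 →
      ∃ a b, a ≠ e ∧ b ≠ e ∧ z a = 1 ∧ z b = 1 ∧ ¬ (M.del {e}).Ser a b
  · left
    obtain ⟨h3, h4⟩ := SC_ext M {e} (by simpa using hg.mem) ⟨e, by simp⟩ hsc z0 hz0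
      (by simpa using hz0e)
      (fun z hz => by
        rcases z2_cases (z e) with h5 | h5
        · left; simpa using h5
        · right; simpa using h5)
      (fun z hz hz1 => by
        obtain ⟨a, b, hae, hbe, h5, h6, h7⟩ := hP z hz (hz1 e (by simp))
        exact ⟨a, b, by simpa using hae, by simpa using hbe, h5, h6, h7⟩)
    refine ⟨h3, ?_⟩
    intro a ha b hb c hc hab hac
    rcases (h4 a ha b hb).1 hab with h5 | h5
    · left
      rw [mem_singleton.1 h5.1, mem_singleton.1 h5.2]
    · rcases (h4 a ha c hc).1 hac with h6 | h6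
      · exact absurd h6.1 h5.1
      · refine h2 a ?_ b ?_ c ?_ h5.2.2.1 h6.2.2.1
        · exact mem_sdiff.2 ⟨ha, h5.1⟩
        · exact mem_sdiff.2 ⟨hb, h5.2.1⟩
        · exact mem_sdiff.2 ⟨hc, h6.2.1⟩
  · right
    push Not at hP
    obtain ⟨z, hz, hze, hser⟩ := hP
    have hA : ∀ x ∈ (spt z).erase e, x ∈ (M.del {e}).S ∧ x ≠ e ∧ z x = 1 := by
      intro x hx
      rw [mem_erase, mem_spt'] at hx
      refine ⟨mem_sdiff.2 ⟨?_, by simpa using hx.1⟩, hx.1, hx.2⟩
      by_contra hxS
      rw [M.Z_supp hz hxS] at hx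
      exact absurd hx.2 (by decide)
    have hcard : ((spt z).erase e).card ≤ 2 := by
      by_contra hc
      obtain ⟨a, b, c, ha, hb, hc, hab, hac, hbc⟩ :=
        two_lt_card_iff.1 (not_le.1 hc)
      obtain ⟨ha1, ha2, ha3⟩ := hA a ha
      obtain ⟨hb1, hb2, hb3⟩ := hA b hb
      obtain ⟨hc1, hc2, hc3⟩ := hA c hc
      rcases h2 a ha1 b hb1 c hc1 (hser a b ha2 hb2 ha3 hb3) (hser a c ha2 hc2 ha3 hc3) with
        h5 | h5 | h5
      · exact hab h5
      · exact hac h5
      · exact hbc h5
    have hsum := hg.sum_T_ex hz hze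
    have h3 : ((spt z).erase e).card = 0 ∨ ((spt z).erase e).card = 1 ∨
        ((spt z).erase e).card = 2 := by omega
    rcases h3 with h3 | h3 | h3
    · rw [card_eq_zero] at h3
      refine hg.graphic_of (h e) (h e) fun π => ?_
      rw [hsum, h3, sum_empty]
      exact z2_add_self _
    · obtain ⟨a, h4⟩ := card_eq_one.1 h3
      obtain ⟨ha1, ha2, ha3⟩ := hA a (by rw [h4]; simp)
      refine hg.graphic_of (h a) (t a) fun π => ?_
      rw [hsum, h4, sum_singleton, cob_mem ha1]
    · obtain ⟨a, b, hab, h4⟩ := card_eq_two.1 h3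
      obtain ⟨ha1, ha2, ha3⟩ := hA a (by rw [h4]; simp)
      obtain ⟨hb1, hb2, hb3⟩ := hA b (by rw [h4]; simp)
      obtain ⟨s, hs, hst⟩ := (hg.gr.star2 hsc h2 ha1 hb1 hab).1 (hser a b ha2 hb2 ha3 hb3)
      have hsa : Inc h t s a := (mem_star.1 (by rw [hst]; simp :
        a ∈ star (M.del {e}).S h t s)).2
      have hsb : Inc h t s b := (mem_star.1 (by rw [hst]; simp :
        b ∈ star (M.del {e}).S h t s)).2
      obtain ⟨u, hu, hus, hua, -⟩ := hg.gr.two_ends ha1 hsa
      obtain ⟨w, hw, hws, hwb, -⟩ := hg.gr.two_ends hb1 hsb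
      refine hg.graphic_of u w fun π => ?_
      rw [hsum, h4, sum_pair hab, jn_cob_fs ha1 (jn_of_inc_fs hsa hua hus.symm),
        jn_cob_fs hb1 (jn_of_inc_fs hsb hwb hws.symm)]
      generalize π s = p
      generalize π u = q
      generalize π w = r
      revert p q r
      decide

end SEY

end
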