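import Pool.Agent.Helper29.MFA.T41
import Pool.Agent.Helper29.MFA.T15
import Pool.Agent.Helper29.MFA.T20
import Pool.Agent.Helper29.MFA.T21
import Pool.Agent.Helper29.MFA.T19
import Pool.Agent.Helper29.MFA.T22
import Pool.Agent.Helper29.MFA.T23
import Pool.Agent.Helper29.MFA.T24

section

/-!
Induced 3-separation of R12 (block IND, section 5 of /team-store/helper25_SEY.md): definitions.

The columns of `R12` are `a1 a2 a3 b1 b2 b3 y1 y2 y3 z1 z2 z3` (numbers 0, ..., 11).  The first half is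
`A` (columns 0, ..., 5), the second half is `B` (columns 6, ..., 11).
-/

namespace SEY.Ind

open Finset BM SEY.Sp

variable {E : Type} [Fintype E] [DecidableEq E]

/-- The pairs `(a1, b1)`, `(a2, b2)`, `(a3, b3)`, `(y1, z1)`. -/
def P1 : Fin 4 → Fin 12 := ![0, 1, 2, 6]
def P2 : Fin 4 → Fin 12 := ![3, 4, 5, 9]

/-- The pairs `(y1, z1)`, `(y2, z2)`, `(y3, z3)`, `(a1, b1)` (the dual types). -/
def Q1 : Fin 4 → Fin 12 := ![6, 7, 8, 0]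
def Q2 : Fin 4 → Fin 12 := ![9, 10, 11, 3]

/-- The conclusion: a separation of order at most 2 between the two halves. -/
def Good (M : BM E) (φ : Fin 12 → E) : Prop :=
  ∃ X ⊆ M.S, (∀ i : Fin 12, i < 6 → φ i ∈ X) ∧ (∀ i : Fin 12, 6 ≤ i → φ i ∉ X) ∧ M.lam X ≤ 2

/-- Induction hypothesis. -/
def IH (E : Type) [Fintype E] [DecidableEq E] (m : ℕ) : Prop :=
  ∀ M : BM E, NoF M → M.S.card < m → ∀ (φ : Fin 12 → E) (C : Finset E),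
    Lab R12 M φ C → Good M φ

/-- The columns of the one-element extensions of `R12` without Fano minors. -/
def OKcol (v : Fin 6 → ZMod 2) : Prop :=
  (∀ i, v i = 0) ∨ (∃ j : Fin 12, ∀ i, v i = R12 i j) ∨
    ∃ t : Fin 4, ∀ i, v i = R12 i (P1 t) + R12 i (P2 t)

instance (v : Fin 6 → ZMod 2) : Decidable (OKcol v) := by unfold OKcol; infer_instance

/-- `R12`, one more column (the element `d`, the sum of the columns `P1 t` and `P2 t`), one more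
row `{a1, b1, d, c}` and one more column (the element `c`, last). -/
def pairRows (t : Fin 4) : Fin 7 → Fin 14 → ZMod 2 :=
  Fin.snoc (α := fun _ => Fin 14 → ZMod 2)
    (fun i => Fin.snoc (α := fun _ => ZMod 2)
      (ext R12 (fun i => R12 i (P1 t) + R12 i (P2 t)) i) 0)
    ![1, 0, 0, 1, 0, 0, 0, 0, 0, 0, 0, 0, 1, 1]

end SEY.Ind

end

section

/-!
IND-1 (connectivity lemmas for the induced 3-separation of R12).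

lam_le_two: every `f ∈ M.R` is `u + w + a • g1 + b • g2` with `u = mask X (f + a • g1 + b • g2)` in
`M.RIn X` and `w = (f + a • g1 + b • g2) + u` in `M.RIn (M.S \ X)` (characteristic 2).  So
`M.R ≤ M.RIn X ⊔ M.RIn (M.S \ X) ⊔ span {g1, g2}` and `rk ≤ dR X + dR (S \ X) + 2`; `lam_add_dR`.

lam_one_comb: let `W = M.RIn X ⊔ M.RIn (M.S \ X)`.  The two spaces meet in `0`, so
`finrank W = dR X + dR (S \ X) = rk - lam X ≥ rk - 1`.  If `g1 ∈ W` take `(a, b) = (1, 0)`.  Otherwise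
`W ⊔ span {g1}` has dimension at least `rk` and is contained in `M.R`, so it is `M.R` and contains
`g2`: `g2 = w + a • g1` with `w ∈ W`, take `(a, 1)`.  If `g ∈ W`, `g = u + w`, then `mask X g = u ∈ M.R`.

two_le_lam_del: suppose `lam Y ≤ 1` in `M' = M.del {d, φ j}`.  Take the rows `f2`, `f3` of `M` with
`f|C = 0`, `f ∘ φ = R12 2`, `R12 3` (field r1 of `Lab`), `g1`, `g2` = their masks to `M.S \ {d, φ j}`.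
`lam_one_comb` gives `(a, b) ≠ 0` and (`mem_del'`) a row `f ∈ M.R` which agrees with
`mask Y (a • f2 + b • f3)` on `M.S \ {d, φ j}`.  `f` vanishes on `C` (`d ∉ C`, `φ j ∉ C`), so by field r2
`f (φ i) = ∑ k, w k * R12 k i`, and for `i ≠ j` (injectivity, `φ i ≠ d`) this is
`a * R12 2 i + b * R12 3 i` if `i < 6` and `0` if `6 ≤ i`.  This contradicts the finite check
`fin_check` below (by `decide`, possibly after writing it over the 64 vectors, or use cycles: for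
each `j` and each `(a, b)` there is a cycle of `R12` avoiding `j` which meets the `A` part in an odd
number of elements).

fin_row: a row of `R12` with at most one nonzero entry is zero (`decide`, or use cycles).
-/

namespace SEY.Ind

open Finset BM SEY.Sp

variable {E : Type} [Fintype E] [DecidableEq E] {M : BM E} {φ : Fin 12 → E} {C : Finset E}

private theorem zid1 : ∀ x y z a b : ZMod 2,
    x = x + a * y + b * z + (x + a * y + b * z + (x + a * y + b * z)) + (a * y + b * z) := by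
  decide

private theorem zid2 : ∀ x y z a b : ZMod 2,
    x = 0 + (x + a * y + b * z + 0) + (a * y + b * z) := by
  decide

private theorem zid3 : ∀ x y : ZMod 2, x + (y + x) = y := by
  decide

theorem lam_le_two {X : Finset E} (hX : X ⊆ M.S) {g1 g2 : E → ZMod 2} (h1 : g1 ∈ M.R)
    (h2 : g2 ∈ M.R) (h : ∀ f ∈ M.R, ∃ a b : ZMod 2, mask X (f + a • g1 + b • g2) ∈ M.R) :
    M.lam X ≤ 2 := by
  classical
  have hle : M.R ≤ M.RIn X ⊔ M.RIn (M.S \ X) ⊔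
      Submodule.span (ZMod 2) (({g1, g2} : Finset (E → ZMod 2)) : Set (E → ZMod 2)) := by
    intro f hf
    obtain ⟨a, b, hab⟩ := h f hf
    have hF : f + a • g1 + b • g2 ∈ M.R :=
      M.R.add_mem (M.R.add_mem hf (M.R.smul_mem a h1)) (M.R.smul_mem b h2)
    have hu : mask X (f + a • g1 + b • g2) ∈ M.RIn X := by
      refine M.mem_RIn.2 ⟨hab, fun e he => ?_⟩
      rw [mask_apply, if_neg he]
    have hw : (f + a • g1 + b • g2) + mask X (f + a • g1 + b • g2) ∈ M.RIn (M.S \ X) := by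
      refine M.mem_RIn.2 ⟨M.R.add_mem hF hab, fun e he => ?_⟩
      rw [Pi.add_apply, mask_apply]
      by_cases heX : e ∈ X
      · rw [if_pos heX, z_add_self]
      · rw [if_neg heX, add_zero]
        refine M.supp _ hF e (fun heS => he ?_)
        exact Finset.mem_sdiff.2 ⟨heS, heX⟩
    have hs1 : g1 ∈ Submodule.span (ZMod 2)
        (({g1, g2} : Finset (E → ZMod 2)) : Set (E → ZMod 2)) :=
      Submodule.subset_span (by simp)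
    have hs2 : g2 ∈ Submodule.span (ZMod 2)
        (({g1, g2} : Finset (E → ZMod 2)) : Set (E → ZMod 2)) :=
      Submodule.subset_span (by simp)
    have hf2 : f = (mask X (f + a • g1 + b • g2) +
        ((f + a • g1 + b • g2) + mask X (f + a • g1 + b • g2))) + (a • g1 + b • g2) := by
      funext e
      simp only [Pi.add_apply, Pi.smul_apply, smul_eq_mul, mask_apply]
      by_cases heX : e ∈ X
      · simp only [if_pos heX]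
        exact zid1 (f e) (g1 e) (g2 e) a b
      · simp only [if_neg heX]
        exact zid2 (f e) (g1 e) (g2 e) a b
    rw [hf2]
    refine Submodule.add_mem_sup (Submodule.add_mem_sup hu hw) ?_
    exact Submodule.add_mem _ (Submodule.smul_mem _ a hs1) (Submodule.smul_mem _ b hs2)
  have e1 : M.rk ≤ M.dR X + M.dR (M.S \ X) + 2 := by
    have e2 := Submodule.finrank_mono hle
    have e3 := Submodule.finrank_add_le_finrank_add_finrank (M.RIn X ⊔ M.RIn (M.S \ X))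
      (Submodule.span (ZMod 2) (({g1, g2} : Finset (E → ZMod 2)) : Set (E → ZMod 2)))
    have e4 := Submodule.finrank_add_le_finrank_add_finrank (M.RIn X) (M.RIn (M.S \ X))
    have e5 : Module.finrank (ZMod 2) (Submodule.span (ZMod 2)
        (({g1, g2} : Finset (E → ZMod 2)) : Set (E → ZMod 2))) ≤
        ({g1, g2} : Finset (E → ZMod 2)).card :=
      finrank_span_finset_le_card (R := ZMod 2) ({g1, g2} : Finset (E → ZMod 2))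
    have e6 : ({g1, g2} : Finset (E → ZMod 2)).card ≤ 2 := Finset.card_le_two
    unfold BM.rk BM.dR
    omega
  have e7 := M.lam_add_dR X
  omega

theorem lam_one_comb {X : Finset E} (hX : X ⊆ M.S) (h : M.lam X ≤ 1) {g1 g2 : E → ZMod 2}
    (h1 : g1 ∈ M.R) (h2 : g2 ∈ M.R) :
    ∃ a b : ZMod 2, (a ≠ 0 ∨ b ≠ 0) ∧ mask X (a • g1 + b • g2) ∈ M.R := by
  classical
  have key : ∀ g ∈ M.RIn X ⊔ M.RIn (M.S \ X), mask X g ∈ M.R := by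
    intro g hg
    obtain ⟨u, hu, w, hw, rfl⟩ := Submodule.mem_sup.1 hg
    have hu' := M.mem_RIn.1 hu
    have hw' := M.mem_RIn.1 hw
    have : mask X (u + w) = u := by
      funext e
      rw [mask_apply, Pi.add_apply]
      by_cases he : e ∈ X
      · rw [if_pos he, hw'.2 e (fun h => (Finset.mem_sdiff.1 h).2 he), add_zero]
      · rw [if_neg he, hu'.2 e he]
    rw [this]
    exact hu'.1
  by_cases hg : g1 ∈ M.RIn X ⊔ M.RIn (M.S \ X)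
  · refine ⟨1, 0, Or.inl one_ne_zero, ?_⟩
    rw [one_smul, zero_smul, add_zero]
    exact key g1 hg
  · have hle : (M.RIn X ⊔ M.RIn (M.S \ X)) ⊔ Submodule.span (ZMod 2) {g1} ≤ M.R := by
      refine sup_le (sup_le (fun f hf => (M.mem_RIn.1 hf).1) (fun f hf => (M.mem_RIn.1 hf).1)) ?_
      rw [Submodule.span_singleton_le_iff_mem]
      exact h1
    have hlt : M.RIn X ⊔ M.RIn (M.S \ X) <
        (M.RIn X ⊔ M.RIn (M.S \ X)) ⊔ Submodule.span (ZMod 2) {g1} := by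
      refine lt_of_le_of_ne le_sup_left (fun heq => hg ?_)
      rw [heq]
      exact Submodule.mem_sup_right (Submodule.mem_span_singleton_self g1)
    have e1 := Submodule.finrank_lt_finrank_of_lt hlt
    have e2 := Submodule.finrank_sup_add_finrank_inf_eq (M.RIn X) (M.RIn (M.S \ X))
    have e3 : M.RIn X ⊓ M.RIn (M.S \ X) = ⊥ := by
      rw [eq_bot_iff]
      intro f hf
      obtain ⟨hf1, hf2⟩ := Submodule.mem_inf.1 hf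
      rw [Submodule.mem_bot]
      funext e
      by_cases he : e ∈ X
      · exact (M.mem_RIn.1 hf2).2 e (fun h => (Finset.mem_sdiff.1 h).2 he)
      · exact (M.mem_RIn.1 hf1).2 e he
    rw [e3, finrank_bot, add_zero] at e2
    have e4 := M.lam_add_dR X
    unfold BM.rk BM.dR at e4
    have e5 : Module.finrank (ZMod 2) M.R ≤ Module.finrank (ZMod 2)
        ((M.RIn X ⊔ M.RIn (M.S \ X)) ⊔ Submodule.span (ZMod 2) {g1} :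
          Submodule (ZMod 2) (E → ZMod 2)) := by omega
    have e6 := Submodule.eq_of_le_of_finrank_le hle e5
    rw [← e6] at h2
    obtain ⟨w, hw, v, hv, hwv⟩ := Submodule.mem_sup.1 h2
    obtain ⟨a, rfl⟩ := Submodule.mem_span_singleton.1 hv
    refine ⟨a, 1, Or.inr one_ne_zero, ?_⟩
    have e7 : a • g1 + (1 : ZMod 2) • g2 = w := by
      rw [one_smul, ← hwv]
      funext e
      simp only [Pi.add_apply]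
      exact zid3 _ _
    rw [e7]
    exact key w hw

private theorem sum12 (w : Fin 6 → ZMod 2) :
    (∑ k, w k * R12 k 0 = w 0) ∧ (∑ k, w k * R12 k 1 = w 1) ∧
    (∑ k, w k * R12 k 2 = w 0 + w 1) ∧ (∑ k, w k * R12 k 3 = w 0 + w 2) ∧
    (∑ k, w k * R12 k 4 = w 1 + w 3) ∧ (∑ k, w k * R12 k 5 = w 0 + w 1 + w 2 + w 3) ∧
    (∑ k, w k * R12 k 6 = w 4) ∧ (∑ k, w k * R12 k 7 = w 2 + w 3 + w 4) ∧
    (∑ k, w k * R12 k 8 = w 3 + w 4) ∧ (∑ k, w k * R12 k 9 = w 5) ∧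
    (∑ k, w k * R12 k 10 = w 2 + w 3 + w 5) ∧ (∑ k, w k * R12 k 11 = w 3 + w 5) := by
  simp [Fin.sum_univ_succ, R12]
  refine ⟨?_, ?_, ?_⟩ <;> ring

private theorem aux12 : ∀ (j : Fin 12) (a b w0 w1 w2 w3 w4 w5 : ZMod 2),
    (∀ i : Fin 12, i ≠ j → ![w0, w1, w0 + w1, w0 + w2, w1 + w3, w0 + w1 + w2 + w3,
      w4, w2 + w3 + w4, w3 + w4, w5, w2 + w3 + w5, w3 + w5] i =
      ![0, 0, 0, a, b, a + b, 0, 0, 0, 0, 0, 0] i) → a = 0 ∧ b = 0 := by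
  decide +kernel

theorem fin_check (j : Fin 12) (a b : ZMod 2) (hab : a ≠ 0 ∨ b ≠ 0) (w : Fin 6 → ZMod 2)
    (h1 : ∀ i : Fin 12, i < 6 → i ≠ j → ∑ k, w k * R12 k i = a * R12 2 i + b * R12 3 i)
    (h2 : ∀ i : Fin 12, 6 ≤ i → i ≠ j → ∑ k, w k * R12 k i = 0) : False := by
  obtain ⟨c0, c1, c2, c3, c4, c5, c6, c7, c8, c9, c10, c11⟩ := sum12 w
  have k0 := h1 0 (by decide)
  have k1 := h1 1 (by decide)
  have k2 := h1 2 (by decide)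
  have k3 := h1 3 (by decide)
  have k4 := h1 4 (by decide)
  have k5 := h1 5 (by decide)
  have k6 := h2 6 (by decide)
  have k7 := h2 7 (by decide)
  have k8 := h2 8 (by decide)
  have k9 := h2 9 (by decide)
  have k10 := h2 10 (by decide)
  have k11 := h2 11 (by decide)
  rw [c0] at k0
  rw [c1] at k1
  rw [c2] at k2
  rw [c3] at k3
  rw [c4] at k4
  rw [c5] at k5
  rw [c6] at k6
  rw [c7] at k7
  rw [c8] at k8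
  rw [c9] at k9
  rw [c10] at k10
  rw [c11] at k11
  clear h1 h2 c0 c1 c2 c3 c4 c5 c6 c7 c8 c9 c10 c11
  generalize w 0 = w0 at *
  generalize w 1 = w1 at *
  generalize w 2 = w2 at *
  generalize w 3 = w3 at *
  generalize w 4 = w4 at *
  generalize w 5 = w5 at *
  clear w
  have r0 : R12 2 0 = 0 ∧ R12 3 0 = 0 ∧ R12 2 1 = 0 ∧ R12 3 1 = 0 ∧ R12 2 2 = 0 ∧ R12 3 2 = 0 ∧
      R12 2 3 = 1 ∧ R12 3 3 = 0 ∧ R12 2 4 = 0 ∧ R12 3 4 = 1 ∧ R12 2 5 = 1 ∧ R12 3 5 = 1 := by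
    decide
  obtain ⟨q1, q2, q3, q4, q5, q6, q7, q8, q9, q10, q11, q12⟩ := r0
  rw [q1, q2, mul_zero, mul_zero, add_zero] at k0
  rw [q3, q4, mul_zero, mul_zero, add_zero] at k1
  rw [q5, q6, mul_zero, mul_zero, add_zero] at k2
  rw [q7, q8, mul_zero, mul_one, add_zero] at k3
  rw [q9, q10, mul_zero, mul_one, zero_add] at k4
  rw [q11, q12, mul_one, mul_one] at k5
  clear q1 q2 q3 q4 q5 q6 q7 q8 q9 q10 q11 q12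
  have hz := aux12 j a b w0 w1 w2 w3 w4 w5 (by
    intro i hi
    fin_cases i
    · exact k0 hi
    · exact k1 hi
    · exact k2 hi
    · exact k3 hi
    · exact k4 hi
    · exact k5 hi
    · exact k6 hi
    · exact k7 hi
    · exact k8 hi
    · exact k9 hi
    · exact k10 hi
    · exact k11 hi)
  rcases hab with h | h
  · exact h hz.1
  · exact h hz.2

theorem fin_row (j : Fin 12) (w : Fin 6 → ZMod 2)
    (h : ∀ i : Fin 12, i ≠ j → ∑ k, w k * R12 k i = 0) : ∑ k, w k * R12 k j = 0 := by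
  obtain ⟨c0, c1, c2, c3, c4, c5, c6, c7, c8, c9, c10, c11⟩ := sum12 w
  have k0 := h 0
  have k1 := h 1
  have k2 := h 2
  have k3 := h 3
  have k4 := h 4
  have k5 := h 5
  have k6 := h 6
  have k7 := h 7
  have k8 := h 8
  have k9 := h 9
  have k10 := h 10
  have k11 := h 11
  rw [c0] at k0
  rw [c1] at k1
  rw [c2] at k2
  rw [c3] at k3
  rw [c4] at k4
  rw [c5] at k5
  rw [c6] at k6
  rw [c7] at k7
  rw [c8] at k8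
  rw [c9] at k9
  rw [c10] at k10
  rw [c11] at k11
  clear h
  have key : (∀ i : Fin 12, i ≠ j → ![w 0, w 1, w 0 + w 1, w 0 + w 2, w 1 + w 3,
      w 0 + w 1 + w 2 + w 3, w 4, w 2 + w 3 + w 4, w 3 + w 4, w 5, w 2 + w 3 + w 5,
      w 3 + w 5] i = 0) → ![w 0, w 1, w 0 + w 1, w 0 + w 2, w 1 + w 3,
      w 0 + w 1 + w 2 + w 3, w 4, w 2 + w 3 + w 4, w 3 + w 4, w 5, w 2 + w 3 + w 5,
      w 3 + w 5] j = 0 := by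
    clear k0 k1 k2 k3 k4 k5 k6 k7 k8 k9 k10 k11 c0 c1 c2 c3 c4 c5 c6 c7 c8 c9 c10 c11
    generalize w 0 = w0
    generalize w 1 = w1
    generalize w 2 = w2
    generalize w 3 = w3
    generalize w 4 = w4
    generalize w 5 = w5
    clear w
    revert j w0 w1 w2 w3 w4 w5
    decide +kernel
  have hj : ∑ k, w k * R12 k j = ![w 0, w 1, w 0 + w 1, w 0 + w 2, w 1 + w 3,
      w 0 + w 1 + w 2 + w 3, w 4, w 2 + w 3 + w 4, w 3 + w 4, w 5, w 2 + w 3 + w 5,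
      w 3 + w 5] j := by
    clear key k0 k1 k2 k3 k4 k5 k6 k7 k8 k9 k10 k11
    fin_cases j
    · exact c0
    · exact c1
    · exact c2
    · exact c3
    · exact c4
    · exact c5
    · exact c6
    · exact c7
    · exact c8
    · exact c9
    · exact c10
    · exact c11
  rw [hj]
  refine key ?_
  intro i hi
  clear hj key c0 c1 c2 c3 c4 c5 c6 c7 c8 c9 c10 c11
  fin_cases i
  · exact k0 hi
  · exact k1 hi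
  · exact k2 hi
  · exact k3 hi
  · exact k4 hi
  · exact k5 hi
  · exact k6 hi
  · exact k7 hi
  · exact k8 hi
  · exact k9 hi
  · exact k10 hi
  · exact k11 hi

theorem two_le_lam_del (h : Lab R12 M φ C) (j : Fin 12) {d : E} (hd : d ∉ C)
    (hd' : ∀ i, φ i ≠ d) {Y : Finset E} (hY : Y ⊆ M.S \ {d, φ j})
    (h1 : ∀ i : Fin 12, i < 6 → i ≠ j → φ i ∈ Y) (h2 : ∀ i : Fin 12, 6 ≤ i → i ≠ j → φ i ∉ Y) :
    2 ≤ (M.del {d, φ j}).lam Y := by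
  by_contra hcon
  have hlam : (M.del {d, φ j}).lam Y ≤ 1 := by omega
  obtain ⟨f2, hf2, hc2, hp2⟩ := h.r1 2
  obtain ⟨f3, hf3, hc3, hp3⟩ := h.r1 3
  have hg1 : mask (M.S \ {d, φ j}) f2 ∈ (M.del {d, φ j}).R := M.mem_del.2 ⟨f2, hf2, rfl⟩
  have hg2 : mask (M.S \ {d, φ j}) f3 ∈ (M.del {d, φ j}).R := M.mem_del.2 ⟨f3, hf3, rfl⟩
  obtain ⟨a, b, hab, hm⟩ := lam_one_comb (M := M.del {d, φ j}) hY hlam hg1 hg2
  obtain ⟨-, g, hg, hge⟩ := M.mem_del'.1 hm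
  have hgC : ∀ c ∈ C, g c = 0 := by
    intro c hc
    have hcS : c ∈ M.S \ {d, φ j} := by
      refine Finset.mem_sdiff.2 ⟨h.sub hc, ?_⟩
      rw [Finset.mem_insert, Finset.mem_singleton]
      rintro (rfl | rfl)
      · exact hd hc
      · exact h.out j hc
    rw [hge c hcS, mask_apply]
    by_cases hcY : c ∈ Y
    · rw [if_pos hcY, Pi.add_apply, Pi.smul_apply, Pi.smul_apply, mask_apply, mask_apply,
        if_pos hcS, if_pos hcS, hc2 c hc, hc3 c hc, smul_zero, smul_zero, add_zero]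
    · rw [if_neg hcY]
  obtain ⟨w, hw⟩ := h.r2 g hg hgC
  have hmem : ∀ i, i ≠ j → φ i ∈ M.S \ {d, φ j} := by
    intro i hij
    refine Finset.mem_sdiff.2 ⟨h.mem i, ?_⟩
    rw [Finset.mem_insert, Finset.mem_singleton]
    rintro (h' | h')
    · exact hd' i h'
    · exact hij (h.inj h')
  refine fin_check j a b hab w ?_ ?_
  · intro i hi hij
    rw [← hw i, hge _ (hmem i hij), mask_apply, if_pos (h1 i hi hij), Pi.add_apply,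
      Pi.smul_apply, Pi.smul_apply, mask_apply, mask_apply, if_pos (hmem i hij),
      if_pos (hmem i hij), hp2 i, hp3 i, smul_eq_mul, smul_eq_mul]
  · intro i hi hij
    rw [← hw i, hge _ (hmem i hij), mask_apply, if_neg (h2 i hi hij)]

end SEY.Ind

end

section

/-!
Two-element extensions of R12 (block IND): certificates of Fano minors.
-/

namespace SEY.Ind

open Finset BM SEY.Sp

variable {E : Type} [Fintype E] [DecidableEq E] {M : BM E}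

theorem pair0 (hF : NoF M) (h : HasMinor (pairRows 0) M) : False :=
  hF.1 (h.of_finCert compl_F7 (φ := ![2, 7, 13, 5, 0, 12, 3]) (C := {1, 4, 6, 9})
    (a := ![![1, 0, 0, 0, 0, 0, 0], ![0, 0, 1, 0, 0, 0, 0], ![0, 0, 0, 0, 0, 0, 1]])
    (z := ![![0, 0, 1, 0, 0, 1, 1, 1, 0, 0, 0, 0, 0, 0], ![1, 1, 1, 0, 0, 0, 0, 0, 0, 0, 0, 0, 0, 1], ![0, 1, 0, 0, 1, 0, 1, 1, 0, 0, 0, 0, 1, 1], ![0, 0, 1, 1, 1, 0, 1, 1, 0, 0, 0, 0, 0, 1]])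
    (by decide))

theorem pair1 (hF : NoF M) (h : HasMinor (pairRows 1) M) : False :=
  hF.1 (h.of_finCert compl_F7 (φ := ![13, 1, 7, 2, 12, 4, 5]) (C := {0, 3, 6, 9})
    (a := ![![1, 0, 0, 0, 0, 0, 1], ![0, 1, 0, 0, 0, 0, 0], ![0, 0, 0, 1, 0, 0, 0]])
    (z := ![![1, 1, 1, 0, 0, 0, 0, 0, 0, 0, 0, 0, 0, 1], ![1, 0, 0, 1, 0, 0, 1, 1, 0, 0, 0, 0, 1, 1], ![1, 1, 0, 1, 1, 0, 1, 1, 0, 0, 0, 0, 0, 0], ![1, 1, 0, 0, 0, 1, 1, 1, 0, 0, 0, 0, 0, 1]])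
    (by decide))

theorem pair2 (hF : NoF M) (h : HasMinor (pairRows 2) M) : False :=
  hF.1 (h.of_finCert compl_F7 (φ := ![13, 1, 7, 2, 12, 4, 5]) (C := {0, 3, 6, 9})
    (a := ![![1, 0, 0, 0, 0, 0, 1], ![0, 1, 0, 0, 0, 0, 0], ![0, 0, 0, 1, 0, 0, 0]])
    (z := ![![1, 1, 1, 0, 0, 0, 0, 0, 0, 0, 0, 0, 0, 1], ![0, 0, 0, 0, 0, 0, 1, 1, 0, 0, 0, 0, 1, 1], ![1, 1, 0, 1, 1, 0, 1, 1, 0, 0, 0, 0, 0, 0], ![1, 1, 0, 0, 0, 1, 1, 1, 0, 0, 0, 0, 0, 1]])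
    (by decide))

theorem pair3 (hF : NoF M) (h : HasMinor (pairRows 3) M) : False :=
  hF.1 (h.of_finCert compl_F7 (φ := ![2, 4, 6, 5, 9, 7, 10]) (C := {0, 1, 3, 12})
    (a := ![![1, 0, 0, 0, 0, 1, 1], ![0, 0, 0, 1, 0, 0, 0], ![0, 0, 0, 0, 1, 1, 0]])
    (z := ![![1, 1, 1, 1, 1, 1, 0, 0, 0, 0, 0, 0, 0, 0], ![1, 1, 1, 0, 0, 0, 1, 0, 0, 1, 0, 0, 1, 0], ![1, 1, 0, 1, 1, 0, 1, 1, 0, 0, 0, 0, 0, 0], ![0, 0, 1, 1, 1, 0, 1, 0, 0, 0, 1, 0, 1, 0]])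
    (by decide))

theorem pair (hF : NoF M) (t : Fin 4) (h : HasMinor (pairRows t) M) : False := by
  fin_cases t
  · exact pair0 hF h
  · exact pair1 hF h
  · exact pair2 hF h
  · exact pair3 hF h

end SEY.Ind

end

section

/-!
IND-5 (the pairs of an element `c` of type `(a1, b1)` and a deleted element `d`).

pair_zero: suppose `ρ d = 1`.  Then `HasMinor (pairRows t) M`, contradiction to `pair` (IndPair).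
The function is `Fin.snoc (Fin.snoc φ d) c : Fin 14 → E`, the contracted set is `C.erase c`.
Injective: `φ` is injective, `d ≠ φ i`, `c ≠ φ i`, `c ≠ d` (`mem_rest`, field out of `Lab`).
Rows: for `i : Fin 6` the row `F i` of r1 (it vanishes on `C`, so at `c`, its value at `d` is
`R12 i (P1 t) + R12 i (P2 t)` by `ht`), it is the row `pairRows t i.castSucc`; the last row of
`pairRows t` is `![1, 0, 0, 1, 0, ..., 0, 1, 1]` = the values of `ρ` (`h3`, `ρ d = 1`, `ρ c = 1`).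
Conversely let `f ∈ M.R` vanish on `C.erase c`.  Then `g = f + f c • ρ` vanishes on `C`, so
`g (φ j) = ∑ a i * R12 i j` (r2), `g d = g (φ (P1 t)) + g (φ (P2 t))`, `g c = 0`, and `f = g + f c • ρ`: the
coefficients are `Fin.snoc a (f c)` (`Fin.sum_univ_castSucc`).
-/

namespace SEY.Ind

open Finset BM SEY.Sp

variable {E : Type} [Fintype E] [DecidableEq E] {M : BM E} {φ : Fin 12 → E} {C : Finset E}

theorem snoc_inj {α : Type} {n : ℕ} {f : Fin n → α} {a : α} (hf : Function.Injective f)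
    (ha : ∀ i, f i ≠ a) : Function.Injective (Fin.snoc (α := fun _ => α) f a) := by
  intro i j hij
  induction i using Fin.lastCases with
  | last =>
    induction j using Fin.lastCases with
    | last => rfl
    | cast j =>
      rw [Fin.snoc_last, Fin.snoc_castSucc] at hij
      exact absurd hij.symm (ha j)
  | cast i =>
    induction j using Fin.lastCases with
    | last =>
      rw [Fin.snoc_last, Fin.snoc_castSucc] at hij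
      exact absurd hij (ha i)
    | cast j =>
      rw [Fin.snoc_castSucc, Fin.snoc_castSucc] at hij
      rw [hf hij]

theorem lastRow (t : Fin 4) (j : Fin 12) : pairRows t (Fin.last 6) j.castSucc.castSucc =
    if j = Q1 3 ∨ j = Q2 3 then 1 else 0 := by
  unfold pairRows
  rw [Fin.snoc_last]
  revert j
  decide

theorem pairRows_c (t : Fin 4) (i : Fin 6) : pairRows t i.castSucc (Fin.last 13) = 0 := by
  unfold pairRows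
  rw [Fin.snoc_castSucc, Fin.snoc_last]

theorem pairRows_d (t : Fin 4) (i : Fin 6) : pairRows t i.castSucc (Fin.last 12).castSucc =
    R12 i (P1 t) + R12 i (P2 t) := by
  unfold pairRows SEY.Sp.ext
  rw [Fin.snoc_castSucc, Fin.snoc_castSucc, Fin.snoc_last]

theorem pairRows_j (t : Fin 4) (i : Fin 6) (j : Fin 12) :
    pairRows t i.castSucc j.castSucc.castSucc = R12 i j := by
  unfold pairRows SEY.Sp.ext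
  rw [Fin.snoc_castSucc, Fin.snoc_castSucc, Fin.snoc_castSucc]

theorem pair_zero (hF : NoF M) (h : Lab R12 M φ C) {c : E} (hc : c ∈ C) {ρ : E → ZMod 2}
    (hρ : ρ ∈ M.R) (h1 : ∀ x ∈ C.erase c, ρ x = 0) (h2 : ρ c = 1)
    (h3 : ∀ i, ρ (φ i) = if i = Q1 3 ∨ i = Q2 3 then 1 else 0) {d : E} (hd : d ∈ rest M φ C)
    {t : Fin 4}
    (ht : ∀ f ∈ M.R, (∀ c ∈ C, f c = 0) → f d = f (φ (P1 t)) + f (φ (P2 t))) : ρ d = 0 := by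
  classical
  by_contra hne
  have hd1 : ρ d = 1 := (zcases (ρ d)).resolve_left hne
  have hdm := mem_rest.1 hd
  have hcS := h.sub hc
  set ψ : Fin 14 → E := Fin.snoc (α := fun _ => E) (Fin.snoc (α := fun _ => E) φ d) c with hψ
  have ψc : ψ (Fin.last 13) = c := by rw [hψ, Fin.snoc_last]
  have ψd : ψ (Fin.last 12).castSucc = d := by rw [hψ, Fin.snoc_castSucc, Fin.snoc_last]
  have ψj : ∀ j : Fin 12, ψ j.castSucc.castSucc = φ j := fun j => by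
    rw [hψ, Fin.snoc_castSucc, Fin.snoc_castSucc]
  have hlast : ∀ j, ρ (ψ j) = pairRows t (Fin.last 6) j := by
    intro j
    induction j using Fin.lastCases with
    | last =>
      rw [ψc, h2]
      unfold pairRows
      rw [Fin.snoc_last]
      rfl
    | cast j =>
      induction j using Fin.lastCases with
      | last =>
        rw [ψd, hd1]
        unfold pairRows
        rw [Fin.snoc_last]
        rfl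
      | cast j => rw [ψj, lastRow, h3]
  have hcomb : ∀ g ∈ M.R, (∀ x ∈ C, g x = 0) → ∀ a : Fin 6 → ZMod 2,
      (∀ j, g (φ j) = ∑ i, a i * R12 i j) →
      ∀ j, g (ψ j) = ∑ i : Fin 6, a i * pairRows t i.castSucc j := by
    intro g hg hgC a ha j
    induction j using Fin.lastCases with
    | last =>
      rw [ψc, hgC c hc]
      symm
      refine Finset.sum_eq_zero fun i _ => ?_
      rw [pairRows_c, mul_zero]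
    | cast j =>
      induction j using Fin.lastCases with
      | last =>
        rw [ψd, ht g hg hgC, ha, ha, ← Finset.sum_add_distrib]
        refine Finset.sum_congr rfl fun i _ => ?_
        rw [pairRows_d, mul_add]
      | cast j =>
        rw [ψj, ha]
        refine Finset.sum_congr rfl fun i _ => ?_
        rw [pairRows_j]
  refine pair hF t (hasMinor_iff.2 ⟨ψ, C.erase c, ?_, ?_, ?_, ?_, ?_, ?_⟩)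
  · refine snoc_inj (snoc_inj h.inj hdm.2.2) fun i => ?_
    induction i using Fin.lastCases with
    | last =>
      rw [Fin.snoc_last]
      intro hdc
      exact hdm.2.1 (by rw [hdc]; exact hc)
    | cast i =>
      rw [Fin.snoc_castSucc]
      intro hdc
      exact h.out i (by rw [hdc]; exact hc)
  · intro i
    induction i using Fin.lastCases with
    | last => rw [ψc]; exact hcS
    | cast i =>
      induction i using Fin.lastCases with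
      | last => rw [ψd]; exact hdm.1
      | cast i => rw [ψj]; exact h.mem i
  · exact fun x hx => h.sub (Finset.mem_erase.1 hx).2
  · intro i hi
    rw [Finset.mem_erase] at hi
    induction i using Fin.lastCases with
    | last => exact hi.1 ψc
    | cast i =>
      induction i using Fin.lastCases with
      | last =>
        rw [ψd] at hi
        exact hdm.2.1 hi.2
      | cast i =>
        rw [ψj] at hi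
        exact h.out i hi.2
  · intro i
    induction i using Fin.lastCases with
    | last => exact ⟨ρ, hρ, h1, hlast⟩
    | cast i =>
      obtain ⟨f, hf, hfC, hfφ⟩ := h.r1 i
      refine ⟨f, hf, fun x hx => hfC x (Finset.mem_erase.1 hx).2, fun j => ?_⟩
      rw [hcomb f hf hfC (Pi.single i 1) (fun j => by
        rw [hfφ, Finset.sum_eq_single i]
        · rw [Pi.single_eq_same, one_mul]
        · intro i' _ hi'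
          rw [Pi.single_eq_of_ne hi', zero_mul]
        · intro hi'
          exact absurd (Finset.mem_univ _) hi') j, Finset.sum_eq_single i]
      · rw [Pi.single_eq_same, one_mul]
      · intro i' _ hi'
        rw [Pi.single_eq_of_ne hi', zero_mul]
      · intro hi'
        exact absurd (Finset.mem_univ _) hi'
  · intro f hf hfC
    have hg : f + f c • ρ ∈ M.R := M.R.add_mem hf (M.R.smul_mem _ hρ)
    have hgC : ∀ x ∈ C, (f + f c • ρ) x = 0 := by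
      intro x hx
      by_cases hxc : x = c
      · rw [hxc, Pi.add_apply, Pi.smul_apply, h2, smul_eq_mul, mul_one]
        rcases zcases (f c) with h0 | h0 <;> rw [h0] <;> decide
      · rw [Pi.add_apply, Pi.smul_apply, hfC x (Finset.mem_erase.2 ⟨hxc, hx⟩),
          h1 x (Finset.mem_erase.2 ⟨hxc, hx⟩), smul_zero, add_zero]
    obtain ⟨a, ha⟩ := h.r2 _ hg hgC
    refine ⟨Fin.snoc (α := fun _ => ZMod 2) a (f c), fun j => ?_⟩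
    have h5 := hcomb _ hg hgC a ha j
    rw [Fin.sum_univ_castSucc, Fin.snoc_last, ← hlast]
    simp only [Fin.snoc_castSucc]
    rw [← h5, Pi.add_apply, Pi.smul_apply, smul_eq_mul]
    rcases zcases (f c) with h0 | h0
    · rw [h0]
      ring
    · rw [h0, one_mul, add_assoc]
      rcases zcases (ρ (ψ j)) with h6 | h6 <;> rw [h6]
      · rw [add_zero, add_zero]
      · have h7 : (1 : ZMod 2) + 1 = 0 := by decide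
        rw [h7, add_zero]

end SEY.Ind

end

section

/-!
IND-6 (assembly of the separation).  Choose `t c`, `ρ c` for `c ∈ C` (hC) and `u d` for
`d ∈ rest M φ C` (hD).  `X = image of {i | i < 6} under φ, union {c ∈ C | t c = 3}`.  `X ⊆ M.S`, `X` contains
the `φ i` with `i < 6` and no `φ i` with `6 ≤ i` (`φ` injective, `φ i ∉ C`).  `M.lam X ≤ 2` by `lam_le_two`
with `g1`, `g2` = the rows `F 2`, `F 3`, where `F k ∈ M.R`, `F k|C = 0`, `F k (φ j) = R12 k j` (field r1).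

(1) Each `mask X (ρ c)` is in `M.R`: if `t c = 3` then `ρ c` vanishes outside `X` (on `C.erase c`; on the
`φ i` except `i = Q1 3 = 0` and `i = Q2 3 = 3`, both `< 6`; on `rest M φ C` by `pair_zero`; outside `M.S`),
so `mask X (ρ c) = ρ c`.  If `t c ≠ 3` then `ρ c` vanishes on `X` (`c ∉ X`; `Q1 (t c)`, `Q2 (t c)` are `≥ 6`),
so `mask X (ρ c) = 0`.
(2) Let `f ∈ M.R`, `f1 = f + ∑ c ∈ C, f c • ρ c`; it vanishes on `C`.  Field r2: `f1 (φ j) = ∑ a k * R12 k j`.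
Let `f2 = f1 + a 2 • F 2 + a 3 • F 3`: `f2 (φ j) = a 0 * R12 0 j + a 1 * R12 1 j + a 4 * R12 4 j + a 5 * R12 5 j`.
Let `g = a 0 • F 0 + a 1 • F 1`.  Then `mask X f2 = g`: on `φ j`, `j < 6`: rows 4 and 5 of `R12` are zero
there; on `φ j`, `6 ≤ j`: rows 0 and 1 are zero there; on `C` both sides are zero; on
`d ∈ rest M φ C`: `g d = g (φ (P1 t)) + g (φ (P2 t)) = 0` by hD for all four `t` (rows 0 and 1 of `R12` agree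
on the columns `P1 t`, `P2 t`, by `decide`) and `d ∉ X`; outside `M.S` both are zero.
So `mask X (f + a 2 • F 2 + a 3 • F 3) = g + ∑ c ∈ C, f c • mask X (ρ c)` (characteristic 2) is in `M.R`.
-/

namespace SEY.Ind

open Finset BM SEY.Sp

variable {E : Type} [Fintype E] [DecidableEq E] {M : BM E} {φ : Fin 12 → E} {C : Finset E}

private lemma ia_dec1 : ∀ i : Fin 12, ¬ i < 6 → ¬ (i = Q1 3 ∨ i = Q2 3) := by decide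

private lemma ia_dec2 : ∀ t : Fin 4, t ≠ 3 → ∀ i : Fin 12, i < 6 → ¬ (i = Q1 t ∨ i = Q2 t) := by
  decide

private lemma ia_dec3 : ∀ j : Fin 12, (j < 6 → R12 4 j = 0 ∧ R12 5 j = 0) ∧
    (¬ j < 6 → R12 0 j = 0 ∧ R12 1 j = 0) := by decide

private lemma ia_dec4 : ∀ t : Fin 4, R12 0 (P1 t) = R12 0 (P2 t) ∧
    R12 1 (P1 t) = R12 1 (P2 t) := by decide

private lemma ia_char2 (a0 a1 a2 a3 x0 x1 x2 x3 : ZMod 2) :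
    a0 * x0 + a1 * x1 + a2 * x2 + a3 * x3 + 0 + 0 + a2 * x2 + a3 * x3 = a0 * x0 + a1 * x1 := by
  have h2 : (2 : ZMod 2) = 0 := rfl
  linear_combination (a2 * x2 + a3 * x3) * h2

theorem assembly (hF : NoF M) (h : Lab R12 M φ C)
    (hD : ∀ d ∈ rest M φ C, ∃ t : Fin 4, ∀ f ∈ M.R, (∀ c ∈ C, f c = 0) →
      f d = f (φ (P1 t)) + f (φ (P2 t)))
    (hC : ∀ c ∈ C, ∃ t : Fin 4, ∃ ρ ∈ M.R, (∀ x ∈ C.erase c, ρ x = 0) ∧ ρ c = 1 ∧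
      ∀ i, ρ (φ i) = if i = Q1 t ∨ i = Q2 t then 1 else 0) : Good M φ := by
  classical
  choose F hFR hFC hFφ using h.r1
  have hC' : ∀ c : E, ∃ (t : Fin 4) (ρ : E → ZMod 2), c ∈ C → (ρ ∈ M.R ∧
      (∀ x ∈ C.erase c, ρ x = 0) ∧ ρ c = 1 ∧
      ∀ i, ρ (φ i) = if i = Q1 t ∨ i = Q2 t then 1 else 0) := by
    intro c
    by_cases hc : c ∈ C
    · obtain ⟨t, ρ, h1, h2, h3, h4⟩ := hC c hc
      exact ⟨t, ρ, fun _ => ⟨h1, h2, h3, h4⟩⟩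
    · exact ⟨0, 0, fun h => absurd h hc⟩
  choose t ρ hρ using hC'
  obtain ⟨X, hX⟩ : ∃ X : Finset E, X = (univ.filter (fun i : Fin 12 => i < 6)).image φ ∪
      C.filter (fun c => t c = 3) := ⟨_, rfl⟩
  have memX : ∀ e, e ∈ X ↔ (∃ i : Fin 12, i < 6 ∧ φ i = e) ∨ (e ∈ C ∧ t e = 3) := by
    intro e
    rw [hX]
    simp only [Finset.mem_union, Finset.mem_image, Finset.mem_filter, Finset.mem_univ, true_and]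
  have hXS : X ⊆ M.S := by
    intro e he
    rcases (memX e).1 he with ⟨i, -, rfl⟩ | ⟨h1, -⟩
    · exact h.mem i
    · exact h.sub h1
  have hXφ : ∀ i, φ i ∈ X ↔ i < 6 := by
    intro i
    rw [memX]
    constructor
    · rintro (⟨j, hj, hij⟩ | ⟨h1, -⟩)
      · rwa [← h.inj hij]
      · exact absurd h1 (h.out i)
    · intro hi
      exact Or.inl ⟨i, hi, rfl⟩
  have hXC : ∀ c ∈ C, c ∈ X ↔ t c = 3 := by
    intro c hc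
    rw [memX]
    constructor
    · rintro (⟨j, -, hj⟩ | ⟨-, h1⟩)
      · exact absurd (hj ▸ hc) (h.out j)
      · exact h1
    · intro h1
      exact Or.inr ⟨hc, h1⟩
  have hXr : ∀ d ∈ rest M φ C, d ∉ X := by
    intro d hd hdX
    rw [mem_rest] at hd
    rcases (memX d).1 hdX with ⟨i, -, hi⟩ | ⟨h1, -⟩
    · exact hd.2.2 i hi
    · exact hd.2.1 h1
  have cases4 : ∀ e, (∃ i, φ i = e) ∨ e ∈ C ∨ e ∈ rest M φ C ∨ e ∉ M.S := by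
    intro e
    by_cases h1 : ∃ i, φ i = e
    · exact Or.inl h1
    by_cases h2 : e ∈ C
    · exact Or.inr (Or.inl h2)
    by_cases h3 : e ∈ M.S
    · refine Or.inr (Or.inr (Or.inl ?_))
      rw [mem_rest]
      exact ⟨h3, h2, fun i hi => h1 ⟨i, hi⟩⟩
    · exact Or.inr (Or.inr (Or.inr h3))
  have hmρ : ∀ c ∈ C, mask X (ρ c) ∈ M.R := by
    intro c hc
    obtain ⟨h1, h2, h3, h4⟩ := hρ c hc
    by_cases htc : t c = 3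
    · have h5 : mask X (ρ c) = ρ c := by
        apply mask_eq_self
        intro e he
        rcases cases4 e with ⟨i, rfl⟩ | h6 | h6 | h6
        · rw [h4 i, htc, if_neg]
          exact ia_dec1 i (fun h7 => he ((hXφ i).2 h7))
        · apply h2
          rw [Finset.mem_erase]
          refine ⟨?_, h6⟩
          rintro rfl
          exact he ((hXC e h6).2 htc)
        · obtain ⟨t', ht'⟩ := hD e h6
          rw [htc] at h4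
          exact pair_zero hF h hc h1 h2 h3 h4 h6 ht'
        · exact M.supp _ h1 e h6
      rw [h5]
      exact h1
    · have h5 : mask X (ρ c) = 0 := by
        rw [mask_eq_zero_iff]
        intro e he
        rcases (memX e).1 he with ⟨i, hi, rfl⟩ | ⟨h6, h7⟩
        · rw [h4 i, if_neg]
          exact ia_dec2 _ htc i hi
        · apply h2
          rw [Finset.mem_erase]
          refine ⟨?_, h6⟩
          rintro rfl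
          exact htc h7
      rw [h5]
      exact M.R.zero_mem
  refine ⟨X, hXS, fun i hi => (hXφ i).2 hi,
    fun i hi h' => absurd ((hXφ i).1 h') (not_lt.2 hi), ?_⟩
  apply lam_le_two hXS (hFR 2) (hFR 3)
  intro f hf
  obtain ⟨s, hs⟩ : ∃ s : E → ZMod 2, s = ∑ c ∈ C, f c • ρ c := ⟨_, rfl⟩
  have hsR : s ∈ M.R := by
    rw [hs]
    exact M.R.sum_mem fun c hc => M.R.smul_mem _ (hρ c hc).1
  have hsC : ∀ x ∈ C, s x = f x := by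
    intro x hx
    rw [hs, Finset.sum_apply, Finset.sum_eq_single_of_mem x hx]
    · rw [Pi.smul_apply, (hρ x hx).2.2.1, smul_eq_mul, mul_one]
    · intro c hc hcx
      rw [Pi.smul_apply, (hρ c hc).2.1 x (Finset.mem_erase.2 ⟨hcx.symm, hx⟩), smul_zero]
  have hmsR : mask X s ∈ M.R := by
    rw [hs, map_sum]
    refine M.R.sum_mem fun c hc => ?_
    rw [map_smul]
    exact M.R.smul_mem _ (hmρ c hc)
  have hf1R : f + s ∈ M.R := M.R.add_mem hf hsR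
  have hf1C : ∀ c ∈ C, (f + s) c = 0 := by
    intro c hc
    rw [Pi.add_apply, hsC c hc, z_add_self]
  obtain ⟨a, ha⟩ := h.r2 (f + s) hf1R hf1C
  refine ⟨a 2, a 3, ?_⟩
  obtain ⟨g, hg⟩ : ∃ g : E → ZMod 2, g = a 0 • F 0 + a 1 • F 1 := ⟨_, rfl⟩
  have hgR : g ∈ M.R := by
    rw [hg]
    exact M.R.add_mem (M.R.smul_mem _ (hFR 0)) (M.R.smul_mem _ (hFR 1))
  have hgC : ∀ c ∈ C, g c = 0 := by
    intro c hc
    rw [hg]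
    simp only [Pi.add_apply, Pi.smul_apply, hFC _ c hc, smul_zero, add_zero]
  have hgφ : ∀ i, g (φ i) = a 0 * R12 0 i + a 1 * R12 1 i := by
    intro i
    rw [hg]
    simp only [Pi.add_apply, Pi.smul_apply, hFφ, smul_eq_mul]
  have key : mask X (f + s + a 2 • F 2 + a 3 • F 3) = g := by
    funext e
    rw [mask_apply]
    rcases cases4 e with ⟨i, rfl⟩ | h6 | h6 | h6
    · rw [hgφ]
      by_cases hi : i < 6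
      · rw [if_pos ((hXφ i).2 hi)]
        obtain ⟨h7, h8⟩ := (ia_dec3 i).1 hi
        have h9 : (f + s + a 2 • F 2 + a 3 • F 3) (φ i) =
            (f + s) (φ i) + a 2 * R12 2 i + a 3 * R12 3 i := by
          simp only [Pi.add_apply, Pi.smul_apply, hFφ, smul_eq_mul]
        rw [h9, ha, Fin.sum_univ_six, h7, h8, mul_zero, mul_zero]
        exact ia_char2 _ _ _ _ _ _ _ _
      · rw [if_neg (fun h => hi ((hXφ i).1 h))]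
        obtain ⟨h7, h8⟩ := (ia_dec3 i).2 hi
        rw [h7, h8, mul_zero, mul_zero, add_zero]
    · rw [hgC e h6]
      have h9 : (f + s + a 2 • F 2 + a 3 • F 3) e = 0 := by
        have h10 := hf1C e h6
        simp only [Pi.add_apply, Pi.smul_apply, hFC _ e h6, smul_zero, add_zero] at h10 ⊢
        exact h10
      rw [h9, ite_self]
    · rw [if_neg (hXr e h6)]
      obtain ⟨t', ht'⟩ := hD e h6
      rw [ht' g hgR hgC, hgφ, hgφ, (ia_dec4 t').1, (ia_dec4 t').2, z_add_self]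
    · rw [if_neg (fun h => h6 (hXS h)), M.supp g hgR e h6]
  have h10 : f + a 2 • F 2 + a 3 • F 3 = (f + s + a 2 • F 2 + a 3 • F 3) + s := by
    funext e
    simp only [Pi.add_apply, Pi.smul_apply, smul_eq_mul]
    have h2 : (2 : ZMod 2) = 0 := rfl
    linear_combination (-s e) * h2
  rw [h10, map_add, key]
  exact M.R.add_mem hgR hmsR

end SEY.Ind

end

section

/-!
Outcome O1: a one-element extension of a graphic matroid given by `ends`.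
-/

set_option autoImplicit false
set_option linter.unusedSectionVars false
set_option linter.unusedSimpArgs false

namespace SEY

open Finset

variable {E : Type} [Fintype E] [DecidableEq E]

/-- Star rows of a graph with an additional column `t`. -/
def graftRows {n k : ℕ} (ends : Fin k → Fin n × Fin n) (t : Fin n → ZMod 2) :
    Fin n → Fin (k + 1) → ZMod 2 :=
  fun v j => if hj : (j : ℕ) < k then grRows ends v ⟨j, hj⟩ else t v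

theorem O1_lift {n k : ℕ} (ends : Fin k → Fin n × Fin n) (M : BM E) (e : E) (he : e ∈ M.S)
    (hz : ∃ z ∈ M.Z, z e = 1) (h : IsIso (grRows ends) (M.del {e})) :
    ∃ t : Fin n → ZMod 2, ∑ v, t v = 0 ∧ IsIso (graftRows ends t) M := by
  obtain ⟨φ, hφ, hS, h1, h2⟩ := h
  obtain ⟨z, hz, hze⟩ := hz
  have hφS : ∀ j, φ j ∈ M.S ∧ φ j ≠ e := by
    intro j
    have := (hS (φ j)).2 ⟨j, rfl⟩
    simpa [BM.del] using this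
  -- rows vanishing off `e` vanish
  have hzero : ∀ f ∈ M.R, (∀ j, f (φ j) = 0) → f e = 0 := by
    intro f hf hf0
    have h3 : dot f z = 0 := hz.2 f hf
    have h4 : dot f z = f e * z e := by
      unfold dot
      refine Finset.sum_eq_single e (fun x _ hx => ?_) (fun h => absurd (mem_univ e) h)
      by_cases hxS : x ∈ M.S
      · have : x ∈ (M.del {e}).S := by simp [BM.del, hxS, hx]
        obtain ⟨j, rfl⟩ := (hS x).1 this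
        rw [hf0 j, zero_mul]
      · rw [M.supp f hf x hxS, zero_mul]
    rw [h4, hze, mul_one] at h3
    exact h3
  have h1' : ∀ i, ∃ g ∈ M.R, ∀ j, g (φ j) = grRows ends i j := by
    intro i
    obtain ⟨f, hf, hf'⟩ := h1 i
    obtain ⟨g, hg, rfl⟩ := hf
    refine ⟨g, hg, fun j => ?_⟩
    rw [← hf' j]
    have : φ j ∈ M.S \ {e} := by simp [hφS j]
    simp [mask, this, hφS j]
  choose g hg hgφ using h1'
  refine ⟨fun v => g v e, ?_, ?_⟩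
  · have h5 : ∑ v, g v ∈ M.R := M.R.sum_mem fun v _ => hg v
    have h6 := hzero _ h5 (by
      intro j
      rw [Finset.sum_apply]
      rw [Finset.sum_congr rfl fun v _ => hgφ v j]
      unfold grRows
      rw [Finset.sum_add_distrib]
      simp
      decide)
    rw [Finset.sum_apply] at h6
    exact h6
  · refine ⟨fun j => if hj : (j : ℕ) < k then φ ⟨j, hj⟩ else e, ?_, ?_, ?_, ?_⟩
    · intro i j hij
      by_cases hi : (i : ℕ) < k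
      · by_cases hj : (j : ℕ) < k
        · simp only [hi, hj, dif_pos] at hij
          have := hφ hij
          simp only [Fin.mk.injEq] at this
          exact Fin.ext this
        · simp only [hi, hj, dif_pos, dif_neg, not_false_eq_true] at hij
          exact absurd hij (hφS _).2
      · by_cases hj : (j : ℕ) < k
        · simp only [hi, hj, dif_pos, dif_neg, not_false_eq_true] at hij
          exact absurd hij.symm (hφS _).2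
        · apply Fin.ext
          have := i.isLt
          have := j.isLt
          omega
    · intro x
      constructor
      · intro hx
        by_cases hxe : x = e
        · exact ⟨⟨k, by omega⟩, by simp [hxe]⟩
        · have : x ∈ (M.del {e}).S := by simp [BM.del, hx, hxe]
          obtain ⟨j, rfl⟩ := (hS x).1 this
          exact ⟨⟨j, by omega⟩, by simp⟩
      · rintro ⟨j, rfl⟩
        by_cases hj : (j : ℕ) < k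
        · simp only [hj, dif_pos]
          exact (hφS _).1
        · simp only [hj, dif_neg, not_false_eq_true]
          exact he
    · intro v
      refine ⟨g v, hg v, fun j => ?_⟩
      by_cases hj : (j : ℕ) < k
      · simp only [hj, dif_pos, graftRows, hgφ]
      · simp only [hj, dif_neg, not_false_eq_true, graftRows]
    · intro f hf
      have hm : mask (M.S \ {e}) f ∈ (M.del {e}).R := ⟨f, hf, rfl⟩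
      obtain ⟨c, hc⟩ := h2 _ hm
      have hc' : ∀ j, f (φ j) = ∑ i, c i * grRows ends i j := by
        intro j
        rw [← hc j]
        have : φ j ∈ M.S \ {e} := by simp [hφS j]
        simp [mask, this, hφS j]
      refine ⟨c, fun j => ?_⟩
      by_cases hj : (j : ℕ) < k
      · simp only [hj, dif_pos, graftRows, hc']
      · simp only [hj, dif_neg, not_false_eq_true, graftRows]
        have h7 := hzero (f - ∑ v, c v • g v)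
          (M.R.sub_mem hf (M.R.sum_mem fun v _ => M.R.smul_mem _ (hg v))) (by
            intro j
            rw [Pi.sub_apply, Finset.sum_apply, hc' j, sub_eq_zero]
            exact Finset.sum_congr rfl fun v _ => by rw [Pi.smul_apply, hgφ, smul_eq_mul])
        rw [Pi.sub_apply, Finset.sum_apply, sub_eq_zero] at h7
        rw [h7]
        exact Finset.sum_congr rfl fun v _ => by rw [Pi.smul_apply, smul_eq_mul]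

/-- If the new column has at most two entries the matroid is graphic. -/
theorem graft_graphic {n k : ℕ} (ends : Fin k → Fin n × Fin n) (t : Fin n → ZMod 2) (M : BM E)
    (h : IsIso (graftRows ends t) M) (u v : Fin n)
    (ht : ∀ w, t w = (if u = w then 1 else 0) + (if v = w then 1 else 0)) : Graphic M := by
  have h2 : graftRows ends t =
      grRows (fun j : Fin (k + 1) => if hj : (j : ℕ) < k then ends ⟨j, hj⟩ else (u, v)) := by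
    funext w j
    by_cases hj : (j : ℕ) < k
    · simp only [graftRows, grRows, hj, dif_pos]
    · simp only [graftRows, grRows, hj, dif_neg, not_false_eq_true, ht]
  rw [h2] at h
  exact Graphic_of_IsIso _ h

end SEY

end

section

/-!
Certificates (generated by a program) for the finite checks of outcomes O1 and O4.
-/

set_option autoImplicit false
set_option maxRecDepth 100000

namespace SEY

open Finset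

/-- A certificate as bit masks. -/
structure CD where
  φ : List ℕ
  C : ℕ
  A : List ℕ
  B : List ℕ
  D : List ℕ

/-- A bit mask as a function. -/
def bt (l : List ℕ) (i j : ℕ) : ZMod 2 := if (l.getD i 0).testBit j then 1 else 0

/-- The certificate given by the bit masks is correct. -/
def CD.Good {r k r' k' : ℕ} [NeZero k] (small : Fin r' → Fin k' → ZMod 2)
    (big : Fin r → Fin k → ZMod 2) (c : CD) : Prop :=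
  Cert small big (fun j => Fin.ofNat k (c.φ.getD j 0)) (fun j => c.C.testBit j)
    (fun l i => bt c.A l i) (fun i l => bt c.B i l) (fun i j => bt c.D i j)

instance {r k r' k' : ℕ} [NeZero k] (small : Fin r' → Fin k' → ZMod 2)
    (big : Fin r → Fin k → ZMod 2) (c : CD) : Decidable (CD.Good small big c) := by
  unfold CD.Good
  infer_instance

def cF7 : CD := ⟨[0, 1, 2, 3, 4, 5, 6], 0, [2, 4, 7], [7, 1, 2, 4], [0, 0, 0, 0, 0, 0, 0]⟩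
def cR10 : CD := ⟨[0, 1, 3, 8, 6, 7, 4, 9, 5, 2], 0, [17, 16, 2, 31, 27], [3, 4, 24, 21, 2, 8], [0, 0, 0, 0, 0, 0, 0, 0, 0, 0]⟩
def dK4 : List CD :=
  [⟨[], 0, [], [], []⟩,
   ⟨[], 0, [], [], []⟩,
   ⟨[], 0, [], [], []⟩,
   ⟨[], 0, [], [], []⟩,
   ⟨[], 0, [], [], []⟩,
   ⟨[], 0, [], [], []⟩,
   ⟨[], 0, [], [], []⟩,
   ⟨[], 0, [], [], []⟩,
   ⟨[], 0, [], [], []⟩,
   ⟨[], 0, [], [], []⟩,
   ⟨[], 0, [], [], []⟩,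
   ⟨[0, 2, 7, 3, 5, 4, 8, 1, 6], 0, [5, 13, 1, 15], [4, 10, 5, 3, 8], [0, 0, 0, 0, 0, 0, 0, 0, 0]⟩,
   ⟨[], 0, [], [], []⟩,
   ⟨[], 0, [], [], []⟩,
   ⟨[0, 1, 7, 4, 5, 3, 8, 2, 6], 0, [9, 13, 1, 15], [4, 10, 3, 5, 8], [0, 0, 0, 0, 0, 0, 0, 0, 0]⟩,
   ⟨[], 0, [], [], []⟩,
   ⟨[], 0, [], [], []⟩,
   ⟨[], 0, [], [], []⟩,
   ⟨[], 0, [], [], []⟩,
   ⟨[], 0, [], [], []⟩,
   ⟨[], 0, [], [], []⟩,
   ⟨[], 0, [], [], []⟩,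
   ⟨[], 0, [], [], []⟩,
   ⟨[0, 2, 4, 6, 7, 5, 8, 1, 3], 0, [14, 6, 1, 2], [4, 8, 10, 3, 5], [0, 0, 0, 0, 0, 0, 0, 0, 0]⟩,
   ⟨[], 0, [], [], []⟩,
   ⟨[], 0, [], [], []⟩,
   ⟨[], 0, [], [], []⟩,
   ⟨[], 0, [], [], []⟩,
   ⟨[], 0, [], [], []⟩,
   ⟨[0, 1, 7, 2, 8, 6, 4, 5, 3], 0, [1, 14, 9, 2], [1, 8, 15, 5, 3], [0, 0, 0, 0, 0, 0, 0, 0, 0]⟩,
   ⟨[], 0, [], [], []⟩,
   ⟨[], 0, [], [], []⟩,
   ⟨[], 0, [], [], []⟩,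
   ⟨[], 0, [], [], []⟩,
   ⟨[], 0, [], [], []⟩,
   ⟨[], 0, [], [], []⟩,
   ⟨[], 0, [], [], []⟩,
   ⟨[], 0, [], [], []⟩,
   ⟨[0, 1, 3, 6, 7, 5, 8, 2, 4], 0, [14, 10, 1, 2], [4, 8, 3, 10, 5], [0, 0, 0, 0, 0, 0, 0, 0, 0]⟩,
   ⟨[], 0, [], [], []⟩,
   ⟨[], 0, [], [], []⟩,
   ⟨[0, 1, 3, 2, 8, 5, 7, 6, 4], 0, [1, 5, 14, 2], [1, 8, 3, 15, 5], [0, 0, 0, 0, 0, 0, 0, 0, 0]⟩,
   ⟨[], 0, [], [], []⟩,
   ⟨[], 0, [], [], []⟩,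
   ⟨[], 0, [], [], []⟩,
   ⟨[], 0, [], [], []⟩,
   ⟨[], 0, [], [], []⟩,
   ⟨[], 0, [], [], []⟩,
   ⟨[], 0, [], [], []⟩,
   ⟨[], 0, [], [], []⟩,
   ⟨[], 0, [], [], []⟩,
   ⟨[0, 2, 4, 6, 5, 7, 8, 1, 3], 0, [5, 13, 1, 2], [4, 8, 5, 3, 10], [0, 0, 0, 0, 0, 0, 0, 0, 0]⟩,
   ⟨[], 0, [], [], []⟩,
   ⟨[], 0, [], [], []⟩,
   ⟨[], 0, [], [], []⟩,
   ⟨[], 0, [], [], []⟩,
   ⟨[], 0, [], [], []⟩,
   ⟨[], 0, [], [], []⟩,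
   ⟨[], 0, [], [], []⟩,
   ⟨[], 0, [], [], []⟩,
   ⟨[0, 2, 4, 3, 5, 8, 7, 1, 6], 0, [10, 2, 1, 13], [4, 2, 15, 3, 10], [0, 0, 0, 0, 0, 0, 0, 0, 0]⟩,
   ⟨[], 0, [], [], []⟩,
   ⟨[], 0, [], [], []⟩,
   ⟨[], 0, [], [], []⟩,
   ⟨[], 0, [], [], []⟩,
   ⟨[], 0, [], [], []⟩,
   ⟨[0, 1, 3, 6, 5, 7, 8, 2, 4], 0, [9, 13, 1, 2], [4, 8, 3, 5, 10], [0, 0, 0, 0, 0, 0, 0, 0, 0]⟩,
   ⟨[], 0, [], [], []⟩,
   ⟨[], 0, [], [], []⟩,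
   ⟨[], 0, [], [], []⟩,
   ⟨[], 0, [], [], []⟩,
   ⟨[], 0, [], [], []⟩,
   ⟨[0, 1, 3, 4, 5, 8, 7, 2, 6], 0, [6, 2, 1, 13], [4, 2, 3, 15, 10], [0, 0, 0, 0, 0, 0, 0, 0, 0]⟩,
   ⟨[], 0, [], [], []⟩,
   ⟨[], 0, [], [], []⟩,
   ⟨[], 0, [], [], []⟩,
   ⟨[], 0, [], [], []⟩,
   ⟨[], 0, [], [], []⟩,
   ⟨[], 0, [], [], []⟩,
   ⟨[], 0, [], [], []⟩,
   ⟨[], 0, [], [], []⟩,
   ⟨[0, 1, 3, 2, 8, 5, 4, 6, 7], 0, [1, 5, 9, 2], [1, 8, 3, 5, 15], [0, 0, 0, 0, 0, 0, 0, 0, 0]⟩,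
   ⟨[], 0, [], [], []⟩,
   ⟨[], 0, [], [], []⟩,
   ⟨[0, 1, 3, 2, 7, 6, 4, 5, 8], 0, [1, 10, 6, 2], [1, 8, 12, 10, 15], [0, 0, 0, 0, 0, 0, 0, 0, 0]⟩,
   ⟨[], 0, [], [], []⟩,
   ⟨[], 0, [], [], []⟩,
   ⟨[], 0, [], [], []⟩,
   ⟨[], 0, [], [], []⟩,
   ⟨[], 0, [], [], []⟩,
   ⟨[], 0, [], [], []⟩,
   ⟨[], 0, [], [], []⟩,
   ⟨[], 0, [], [], []⟩,
   ⟨[], 0, [], [], []⟩,
   ⟨[], 0, [], [], []⟩,
   ⟨[], 0, [], [], []⟩]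
def dT4 : List CD :=
  [⟨[], 0, [], [], []⟩,
   ⟨[], 0, [], [], []⟩,
   ⟨[], 0, [], [], []⟩,
   ⟨[], 0, [], [], []⟩,
   ⟨[], 0, [], [], []⟩,
   ⟨[], 0, [], [], []⟩,
   ⟨[], 0, [], [], []⟩,
   ⟨[], 0, [], [], []⟩,
   ⟨[], 0, [], [], []⟩,
   ⟨[], 0, [], [], []⟩,
   ⟨[], 0, [], [], []⟩,
   ⟨[], 0, [], [], []⟩,
   ⟨[], 0, [], [], []⟩,
   ⟨[], 0, [], [], []⟩,
   ⟨[], 0, [], [], []⟩,
   ⟨[0, 2, 6, 3, 7, 9, 8], 34, [12, 29, 4], [5, 5, 4, 5, 6, 7], [0, 14, 0, 0, 0, 5, 0, 0, 0, 0]⟩,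
   ⟨[], 0, [], [], []⟩,
   ⟨[], 0, [], [], []⟩,
   ⟨[], 0, [], [], []⟩,
   ⟨[], 0, [], [], []⟩,
   ⟨[], 0, [], [], []⟩,
   ⟨[], 0, [], [], []⟩,
   ⟨[], 0, [], [], []⟩,
   ⟨[1, 2, 6, 4, 7, 8, 9], 33, [16, 29, 4], [7, 7, 4, 0, 1, 5], [4, 0, 0, 0, 0, 15, 0, 0, 0, 0]⟩,
   ⟨[], 0, [], [], []⟩,
   ⟨[], 0, [], [], []⟩,
   ⟨[], 0, [], [], []⟩,
   ⟨[0, 1, 3, 7, 5, 9, 4], 68, [14, 16, 2], [5, 4, 0, 5, 2, 6], [0, 0, 14, 0, 0, 0, 8, 0, 0, 0]⟩,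
   ⟨[], 0, [], [], []⟩,
   ⟨[0, 1, 6, 4, 8, 9, 7], 12, [14, 16, 4], [5, 0, 4, 5, 2, 6], [0, 0, 14, 8, 0, 0, 0, 0, 0, 0]⟩,
   ⟨[1, 2, 6, 4, 7, 8, 9], 33, [16, 29, 4], [0, 7, 4, 7, 1, 5], [3, 0, 0, 0, 0, 15, 0, 0, 0, 0]⟩,
   ⟨[], 0, [], [], []⟩,
   ⟨[], 0, [], [], []⟩,
   ⟨[], 0, [], [], []⟩,
   ⟨[], 0, [], [], []⟩,
   ⟨[], 0, [], [], []⟩,
   ⟨[], 0, [], [], []⟩,
   ⟨[], 0, [], [], []⟩,
   ⟨[], 0, [], [], []⟩,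
   ⟨[1, 2, 6, 5, 7, 8, 9], 17, [18, 31, 4], [7, 7, 4, 0, 6, 2], [4, 0, 0, 0, 15, 0, 0, 0, 0, 0]⟩,
   ⟨[], 0, [], [], []⟩,
   ⟨[], 0, [], [], []⟩,
   ⟨[], 0, [], [], []⟩,
   ⟨[0, 2, 3, 8, 4, 9, 5], 66, [14, 31, 2], [5, 4, 0, 5, 6, 2], [0, 14, 0, 0, 0, 0, 8, 0, 0, 0]⟩,
   ⟨[], 0, [], [], []⟩,
   ⟨[0, 2, 6, 5, 7, 9, 8], 10, [14, 31, 4], [5, 0, 4, 5, 6, 2], [0, 14, 0, 8, 0, 0, 0, 0, 0, 0]⟩,
   ⟨[1, 2, 6, 5, 7, 8, 9], 17, [18, 31, 4], [0, 7, 4, 7, 6, 2], [3, 0, 0, 0, 15, 0, 0, 0, 0, 0]⟩,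
   ⟨[], 0, [], [], []⟩,
   ⟨[], 0, [], [], []⟩,
   ⟨[], 0, [], [], []⟩,
   ⟨[], 0, [], [], []⟩,
   ⟨[1, 2, 3, 8, 4, 5, 9], 129, [20, 31, 2], [7, 4, 0, 0, 1, 2], [4, 0, 0, 0, 0, 0, 0, 8, 0, 0]⟩,
   ⟨[], 0, [], [], []⟩,
   ⟨[1, 2, 6, 5, 7, 8, 9], 17, [18, 31, 4], [7, 0, 4, 0, 1, 2], [4, 0, 0, 0, 8, 0, 0, 0, 0, 0]⟩,
   ⟨[0, 2, 6, 5, 7, 9, 8], 10, [14, 31, 4], [0, 5, 4, 0, 3, 2], [0, 3, 0, 5, 0, 0, 0, 0, 0, 0]⟩,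
   ⟨[], 0, [], [], []⟩,
   ⟨[], 0, [], [], []⟩,
   ⟨[0, 1, 2, 4, 5, 8, 9], 136, [10, 20, 31], [7, 6, 5, 7, 7, 4], [0, 0, 0, 6, 0, 0, 0, 13, 0, 0]⟩,
   ⟨[1, 2, 3, 8, 4, 5, 9], 129, [20, 31, 2], [0, 4, 0, 7, 1, 2], [3, 0, 0, 0, 0, 0, 0, 8, 0, 0]⟩,
   ⟨[], 0, [], [], []⟩,
   ⟨[1, 2, 6, 5, 7, 8, 9], 17, [18, 31, 4], [0, 0, 4, 7, 1, 2], [3, 0, 0, 0, 8, 0, 0, 0, 0, 0]⟩,
   ⟨[], 0, [], [], []⟩,
   ⟨[], 0, [], [], []⟩,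
   ⟨[], 0, [], [], []⟩]
def dF7 : List CD :=
  [⟨[], 0, [], [], []⟩,
   ⟨[], 0, [], [], []⟩,
   ⟨[], 0, [], [], []⟩,
   ⟨[], 0, [], [], []⟩,
   ⟨[], 0, [], [], []⟩,
   ⟨[], 0, [], [], []⟩,
   ⟨[], 0, [], [], []⟩,
   ⟨[], 0, [], [], []⟩,
   ⟨[], 0, [], [], []⟩,
   ⟨[], 0, [], [], []⟩,
   ⟨[0, 1, 3, 10, 11, 8, 9], 84, [63, 30, 12], [6, 6, 5, 1, 0, 5, 1], [0, 0, 13, 0, 10, 0, 13, 0, 0, 0, 0, 0]⟩,
   ⟨[0, 2, 3, 10, 11, 7, 9], 98, [63, 46, 12], [6, 6, 5, 1, 5, 0, 1], [0, 13, 0, 0, 0, 10, 13, 0, 0, 0, 0, 0]⟩,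
   ⟨[], 0, [], [], []⟩,
   ⟨[], 0, [], [], []⟩,
   ⟨[], 0, [], [], []⟩,
   ⟨[], 0, [], [], []⟩,
   ⟨[0, 1, 4, 10, 11, 5, 9], 140, [63, 30, 10], [6, 5, 6, 1, 0, 5, 1], [0, 0, 13, 9, 0, 0, 0, 14, 0, 0, 0, 0]⟩,
   ⟨[0, 2, 4, 10, 9, 5, 11], 266, [63, 36, 10], [7, 5, 7, 1, 0, 5, 1], [0, 4, 0, 9, 0, 0, 0, 0, 7, 0, 0, 0]⟩,
   ⟨[], 0, [], [], []⟩,
   ⟨[], 0, [], [], []⟩,
   ⟨[], 0, [], [], []⟩,
   ⟨[], 0, [], [], []⟩,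
   ⟨[], 0, [], [], []⟩,
   ⟨[], 0, [], [], []⟩,
   ⟨[], 0, [], [], []⟩,
   ⟨[0, 1, 3, 10, 11, 8, 9], 84, [63, 30, 12], [6, 0, 5, 1, 6, 5, 1], [0, 0, 13, 0, 12, 0, 13, 0, 0, 0, 0, 0]⟩,
   ⟨[0, 1, 4, 10, 11, 5, 9], 140, [63, 30, 10], [6, 5, 0, 1, 6, 5, 1], [0, 0, 13, 9, 0, 0, 0, 8, 0, 0, 0, 0]⟩,
   ⟨[], 0, [], [], []⟩,
   ⟨[], 0, [], [], []⟩,
   ⟨[], 0, [], [], []⟩,
   ⟨[], 0, [], [], []⟩,
   ⟨[0, 2, 3, 10, 11, 7, 9], 98, [63, 46, 12], [6, 0, 5, 1, 5, 6, 1], [0, 13, 0, 0, 0, 12, 13, 0, 0, 0, 0, 0]⟩,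
   ⟨[0, 2, 4, 10, 9, 5, 11], 266, [63, 36, 10], [7, 5, 0, 1, 0, 2, 1], [0, 4, 0, 9, 0, 0, 0, 0, 8, 0, 0, 0]⟩,
   ⟨[], 0, [], [], []⟩,
   ⟨[], 0, [], [], []⟩,
   ⟨[], 0, [], [], []⟩,
   ⟨[], 0, [], [], []⟩,
   ⟨[], 0, [], [], []⟩,
   ⟨[], 0, [], [], []⟩,
   ⟨[], 0, [], [], []⟩,
   ⟨[], 0, [], [], []⟩,
   ⟨[], 0, [], [], []⟩,
   ⟨[], 0, [], [], []⟩,
   ⟨[], 0, [], [], []⟩,
   ⟨[], 0, [], [], []⟩,
   ⟨[0, 1, 4, 10, 8, 11, 9], 140, [30, 63, 20], [5, 5, 6, 0, 2, 6, 2], [0, 0, 14, 9, 0, 0, 0, 14, 0, 0, 0, 0]⟩,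
   ⟨[], 0, [], [], []⟩,
   ⟨[1, 2, 4, 10, 11, 7, 9], 97, [63, 50, 16], [6, 6, 5, 0, 4, 0, 1], [13, 0, 0, 0, 0, 10, 13, 0, 0, 0, 0, 0]⟩,
   ⟨[], 0, [], [], []⟩,
   ⟨[], 0, [], [], []⟩,
   ⟨[], 0, [], [], []⟩,
   ⟨[0, 1, 3, 10, 5, 11, 9], 84, [30, 63, 18], [5, 6, 5, 0, 2, 6, 2], [0, 0, 14, 0, 10, 0, 13, 0, 0, 0, 0, 0]⟩,
   ⟨[], 0, [], [], []⟩,
   ⟨[1, 2, 4, 10, 9, 7, 11], 265, [63, 36, 16], [7, 0, 2, 0, 4, 0, 1], [4, 0, 0, 4, 0, 0, 0, 0, 10, 0, 0, 0]⟩,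
   ⟨[], 0, [], [], []⟩,
   ⟨[0, 1, 4, 10, 8, 11, 9], 140, [30, 63, 20], [5, 0, 6, 5, 2, 6, 2], [0, 0, 14, 12, 0, 0, 0, 14, 0, 0, 0, 0]⟩,
   ⟨[0, 1, 3, 10, 5, 11, 9], 84, [30, 63, 18], [5, 6, 0, 5, 2, 6, 2], [0, 0, 14, 0, 10, 0, 8, 0, 0, 0, 0, 0]⟩,
   ⟨[], 0, [], [], []⟩,
   ⟨[], 0, [], [], []⟩,
   ⟨[], 0, [], [], []⟩,
   ⟨[], 0, [], [], []⟩,
   ⟨[], 0, [], [], []⟩,
   ⟨[], 0, [], [], []⟩,
   ⟨[], 0, [], [], []⟩,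
   ⟨[], 0, [], [], []⟩,
   ⟨[], 0, [], [], []⟩,
   ⟨[], 0, [], [], []⟩,
   ⟨[1, 2, 4, 10, 11, 7, 9], 97, [63, 50, 16], [6, 0, 5, 0, 4, 6, 1], [13, 0, 0, 0, 0, 12, 13, 0, 0, 0, 0, 0]⟩,
   ⟨[1, 2, 4, 10, 9, 7, 11], 265, [63, 36, 16], [7, 0, 5, 0, 4, 7, 1], [4, 0, 0, 4, 0, 0, 0, 0, 5, 0, 0, 0]⟩,
   ⟨[], 0, [], [], []⟩,
   ⟨[], 0, [], [], []⟩,
   ⟨[], 0, [], [], []⟩,
   ⟨[], 0, [], [], []⟩,
   ⟨[], 0, [], [], []⟩,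
   ⟨[], 0, [], [], []⟩,
   ⟨[], 0, [], [], []⟩,
   ⟨[], 0, [], [], []⟩,
   ⟨[], 0, [], [], []⟩,
   ⟨[], 0, [], [], []⟩,
   ⟨[], 0, [], [], []⟩,
   ⟨[], 0, [], [], []⟩,
   ⟨[0, 2, 5, 10, 8, 11, 9], 138, [42, 63, 32], [5, 5, 6, 0, 0, 4, 2], [0, 14, 0, 9, 0, 0, 0, 14, 0, 0, 0, 0]⟩,
   ⟨[1, 2, 5, 10, 8, 11, 9], 81, [50, 63, 32], [5, 5, 6, 0, 0, 4, 2], [14, 0, 0, 0, 9, 0, 14, 0, 0, 0, 0, 0]⟩,
   ⟨[], 0, [], [], []⟩,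
   ⟨[], 0, [], [], []⟩,
   ⟨[], 0, [], [], []⟩,
   ⟨[], 0, [], [], []⟩,
   ⟨[0, 2, 5, 10, 8, 9, 11], 82, [12, 63, 32], [7, 0, 1, 0, 0, 4, 2], [0, 4, 0, 0, 4, 0, 9, 0, 0, 0, 0, 0]⟩,
   ⟨[1, 2, 5, 10, 8, 9, 11], 137, [20, 63, 32], [7, 0, 1, 0, 0, 4, 2], [4, 0, 0, 4, 0, 0, 0, 9, 0, 0, 0, 0]⟩,
   ⟨[], 0, [], [], []⟩,
   ⟨[], 0, [], [], []⟩,
   ⟨[0, 2, 5, 10, 8, 11, 9], 138, [42, 63, 32], [5, 0, 6, 5, 0, 4, 2], [0, 14, 0, 12, 0, 0, 0, 14, 0, 0, 0, 0]⟩,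
   ⟨[0, 2, 5, 10, 8, 9, 11], 82, [12, 63, 32], [7, 0, 6, 7, 0, 4, 2], [0, 4, 0, 0, 4, 0, 6, 0, 0, 0, 0, 0]⟩,
   ⟨[], 0, [], [], []⟩,
   ⟨[], 0, [], [], []⟩,
   ⟨[], 0, [], [], []⟩,
   ⟨[], 0, [], [], []⟩,
   ⟨[1, 2, 5, 10, 8, 11, 9], 81, [50, 63, 32], [5, 0, 6, 0, 5, 4, 2], [14, 0, 0, 0, 12, 0, 14, 0, 0, 0, 0, 0]⟩,
   ⟨[1, 2, 5, 10, 8, 9, 11], 137, [20, 63, 32], [7, 0, 6, 0, 7, 4, 2], [4, 0, 0, 4, 0, 0, 0, 6, 0, 0, 0, 0]⟩,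
   ⟨[], 0, [], [], []⟩,
   ⟨[], 0, [], [], []⟩,
   ⟨[], 0, [], [], []⟩,
   ⟨[], 0, [], [], []⟩,
   ⟨[], 0, [], [], []⟩,
   ⟨[], 0, [], [], []⟩,
   ⟨[], 0, [], [], []⟩,
   ⟨[], 0, [], [], []⟩,
   ⟨[], 0, [], [], []⟩,
   ⟨[], 0, [], [], []⟩,
   ⟨[], 0, [], [], []⟩,
   ⟨[], 0, [], [], []⟩,
   ⟨[], 0, [], [], []⟩,
   ⟨[0, 2, 3, 8, 11, 10, 9], 98, [12, 29, 63], [6, 6, 0, 1, 5, 0, 4], [0, 13, 0, 0, 0, 10, 8, 0, 0, 0, 0, 0]⟩,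
   ⟨[0, 1, 3, 7, 11, 10, 9], 84, [12, 45, 63], [6, 6, 0, 1, 0, 5, 4], [0, 0, 13, 0, 10, 0, 8, 0, 0, 0, 0, 0]⟩,
   ⟨[], 0, [], [], []⟩,
   ⟨[], 0, [], [], []⟩,
   ⟨[], 0, [], [], []⟩,
   ⟨[], 0, [], [], []⟩,
   ⟨[], 0, [], [], []⟩,
   ⟨[], 0, [], [], []⟩,
   ⟨[], 0, [], [], []⟩,
   ⟨[], 0, [], [], []⟩,
   ⟨[], 0, [], [], []⟩,
   ⟨[], 0, [], [], []⟩,
   ⟨[1, 3, 4, 11, 5, 10, 9], 133, [41, 63, 61], [0, 6, 0, 7, 5, 6, 2], [15, 0, 14, 0, 0, 0, 0, 8, 0, 0, 0, 0]⟩,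
   ⟨[2, 3, 4, 11, 5, 9, 10], 259, [36, 63, 61], [0, 6, 0, 5, 0, 1, 2], [5, 4, 0, 0, 0, 0, 0, 0, 8, 0, 0, 0]⟩,
   ⟨[], 0, [], [], []⟩,
   ⟨[], 0, [], [], []⟩,
   ⟨[], 0, [], [], []⟩,
   ⟨[], 0, [], [], []⟩,
   ⟨[], 0, [], [], []⟩,
   ⟨[], 0, [], [], []⟩,
   ⟨[0, 2, 3, 8, 11, 10, 9], 98, [12, 29, 63], [5, 6, 0, 1, 6, 0, 4], [0, 14, 0, 0, 0, 10, 8, 0, 0, 0, 0, 0]⟩,
   ⟨[], 0, [], [], []⟩,
   ⟨[1, 3, 4, 11, 5, 10, 9], 133, [41, 63, 61], [0, 6, 5, 7, 0, 6, 2], [15, 0, 14, 0, 0, 0, 0, 13, 0, 0, 0, 0]⟩,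
   ⟨[], 0, [], [], []⟩,
   ⟨[], 0, [], [], []⟩,
   ⟨[], 0, [], [], []⟩,
   ⟨[0, 1, 3, 7, 11, 10, 9], 84, [12, 45, 63], [5, 6, 0, 1, 0, 6, 4], [0, 0, 14, 0, 10, 0, 8, 0, 0, 0, 0, 0]⟩,
   ⟨[], 0, [], [], []⟩,
   ⟨[2, 3, 4, 11, 5, 9, 10], 259, [36, 63, 61], [0, 6, 7, 5, 0, 6, 2], [5, 4, 0, 0, 0, 0, 0, 0, 7, 0, 0, 0]⟩,
   ⟨[], 0, [], [], []⟩,
   ⟨[], 0, [], [], []⟩,
   ⟨[], 0, [], [], []⟩,
   ⟨[], 0, [], [], []⟩,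
   ⟨[], 0, [], [], []⟩,
   ⟨[], 0, [], [], []⟩,
   ⟨[1, 2, 4, 8, 11, 10, 9], 161, [20, 29, 63], [6, 6, 0, 5, 1, 0, 4], [13, 0, 0, 0, 0, 10, 0, 8, 0, 0, 0, 0]⟩,
   ⟨[], 0, [], [], []⟩,
   ⟨[0, 1, 4, 7, 10, 11, 9], 76, [49, 16, 63], [5, 5, 0, 0, 2, 6, 4], [0, 0, 14, 9, 0, 0, 8, 0, 0, 0, 0, 0]⟩,
   ⟨[], 0, [], [], []⟩,
   ⟨[], 0, [], [], []⟩,
   ⟨[], 0, [], [], []⟩,
   ⟨[], 0, [], [], []⟩,
   ⟨[], 0, [], [], []⟩,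
   ⟨[], 0, [], [], []⟩,
   ⟨[], 0, [], [], []⟩,
   ⟨[], 0, [], [], []⟩,
   ⟨[], 0, [], [], []⟩,
   ⟨[0, 3, 4, 5, 11, 10, 9], 70, [49, 61, 63], [0, 6, 6, 5, 1, 0, 4], [0, 9, 8, 0, 0, 0, 14, 0, 0, 0, 0, 0]⟩,
   ⟨[], 0, [], [], []⟩,
   ⟨[2, 3, 4, 5, 11, 9, 10], 259, [36, 61, 63], [0, 6, 6, 0, 3, 7, 4], [2, 3, 0, 0, 0, 0, 0, 0, 14, 0, 0, 0]⟩,
   ⟨[1, 2, 4, 8, 11, 10, 9], 161, [20, 29, 63], [5, 6, 0, 6, 1, 0, 4], [14, 0, 0, 0, 0, 10, 0, 8, 0, 0, 0, 0]⟩,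
   ⟨[], 0, [], [], []⟩,
   ⟨[0, 3, 4, 5, 11, 10, 9], 70, [49, 61, 63], [0, 6, 5, 6, 1, 0, 4], [0, 9, 8, 0, 0, 0, 13, 0, 0, 0, 0, 0]⟩,
   ⟨[], 0, [], [], []⟩,
   ⟨[], 0, [], [], []⟩,
   ⟨[], 0, [], [], []⟩,
   ⟨[], 0, [], [], []⟩,
   ⟨[], 0, [], [], []⟩,
   ⟨[], 0, [], [], []⟩,
   ⟨[], 0, [], [], []⟩,
   ⟨[], 0, [], [], []⟩,
   ⟨[], 0, [], [], []⟩,
   ⟨[0, 1, 4, 7, 10, 11, 9], 76, [49, 16, 63], [6, 5, 0, 0, 2, 5, 4], [0, 0, 13, 9, 0, 0, 8, 0, 0, 0, 0, 0]⟩,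
   ⟨[], 0, [], [], []⟩,
   ⟨[2, 3, 4, 5, 11, 9, 10], 259, [36, 61, 63], [0, 6, 7, 0, 3, 6, 4], [2, 3, 0, 0, 0, 0, 0, 0, 7, 0, 0, 0]⟩,
   ⟨[], 0, [], [], []⟩,
   ⟨[], 0, [], [], []⟩,
   ⟨[], 0, [], [], []⟩,
   ⟨[], 0, [], [], []⟩,
   ⟨[], 0, [], [], []⟩,
   ⟨[], 0, [], [], []⟩,
   ⟨[1, 2, 5, 8, 10, 11, 9], 145, [41, 32, 63], [5, 5, 0, 6, 0, 2, 4], [14, 0, 0, 0, 9, 0, 0, 8, 0, 0, 0, 0]⟩,
   ⟨[0, 2, 5, 8, 10, 11, 9], 74, [49, 32, 63], [5, 5, 0, 0, 6, 2, 4], [0, 14, 0, 9, 0, 0, 8, 0, 0, 0, 0, 0]⟩,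
   ⟨[], 0, [], [], []⟩,
   ⟨[], 0, [], [], []⟩,
   ⟨[], 0, [], [], []⟩,
   ⟨[], 0, [], [], []⟩,
   ⟨[], 0, [], [], []⟩,
   ⟨[], 0, [], [], []⟩,
   ⟨[], 0, [], [], []⟩,
   ⟨[], 0, [], [], []⟩,
   ⟨[], 0, [], [], []⟩,
   ⟨[], 0, [], [], []⟩,
   ⟨[0, 3, 5, 4, 11, 10, 9], 70, [49, 61, 63], [0, 6, 6, 5, 0, 1, 4], [0, 8, 9, 0, 0, 0, 14, 0, 0, 0, 0, 0]⟩,
   ⟨[1, 3, 5, 4, 11, 9, 10], 133, [20, 61, 63], [0, 6, 6, 0, 7, 3, 4], [2, 0, 3, 0, 0, 0, 0, 14, 0, 0, 0, 0]⟩,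
   ⟨[], 0, [], [], []⟩,
   ⟨[1, 2, 5, 8, 10, 11, 9], 145, [41, 32, 63], [6, 5, 0, 5, 0, 2, 4], [13, 0, 0, 0, 9, 0, 0, 8, 0, 0, 0, 0]⟩,
   ⟨[], 0, [], [], []⟩,
   ⟨[0, 3, 5, 4, 11, 10, 9], 70, [49, 61, 63], [0, 6, 5, 6, 0, 1, 4], [0, 8, 9, 0, 0, 0, 13, 0, 0, 0, 0, 0]⟩,
   ⟨[], 0, [], [], []⟩,
   ⟨[], 0, [], [], []⟩,
   ⟨[], 0, [], [], []⟩,
   ⟨[0, 2, 5, 8, 10, 11, 9], 74, [49, 32, 63], [6, 5, 0, 0, 5, 2, 4], [0, 13, 0, 9, 0, 0, 8, 0, 0, 0, 0, 0]⟩,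
   ⟨[], 0, [], [], []⟩,
   ⟨[1, 3, 5, 4, 11, 9, 10], 133, [20, 61, 63], [0, 6, 7, 0, 6, 3, 4], [2, 0, 3, 0, 0, 0, 0, 7, 0, 0, 0, 0]⟩,
   ⟨[], 0, [], [], []⟩,
   ⟨[], 0, [], [], []⟩,
   ⟨[], 0, [], [], []⟩,
   ⟨[], 0, [], [], []⟩,
   ⟨[], 0, [], [], []⟩,
   ⟨[], 0, [], [], []⟩,
   ⟨[], 0, [], [], []⟩,
   ⟨[], 0, [], [], []⟩,
   ⟨[], 0, [], [], []⟩,
   ⟨[], 0, [], [], []⟩,
   ⟨[], 0, [], [], []⟩,
   ⟨[], 0, [], [], []⟩,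
   ⟨[], 0, [], [], []⟩,
   ⟨[0, 6, 7, 11, 8, 10, 9], 42, [42, 63, 59], [0, 0, 6, 7, 5, 6, 2], [0, 9, 0, 14, 0, 14, 0, 0, 0, 0, 0, 0]⟩,
   ⟨[0, 6, 7, 11, 8, 9, 10], 28, [33, 63, 59], [0, 0, 6, 5, 0, 1, 2], [0, 0, 9, 4, 4, 0, 0, 0, 0, 0, 0, 0]⟩,
   ⟨[], 0, [], [], []⟩,
   ⟨[], 0, [], [], []⟩,
   ⟨[], 0, [], [], []⟩,
   ⟨[], 0, [], [], []⟩,
   ⟨[1, 6, 7, 11, 8, 10, 9], 21, [41, 63, 59], [0, 0, 6, 7, 5, 6, 2], [15, 0, 14, 0, 8, 0, 0, 0, 0, 0, 0, 0]⟩,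
   ⟨[2, 6, 7, 11, 8, 9, 10], 35, [34, 63, 59], [0, 0, 6, 5, 0, 1, 2], [5, 4, 0, 0, 0, 8, 0, 0, 0, 0, 0, 0]⟩,
   ⟨[], 0, [], [], []⟩,
   ⟨[], 0, [], [], []⟩,
   ⟨[], 0, [], [], []⟩,
   ⟨[], 0, [], [], []⟩,
   ⟨[], 0, [], [], []⟩,
   ⟨[], 0, [], [], []⟩,
   ⟨[], 0, [], [], []⟩,
   ⟨[], 0, [], [], []⟩,
   ⟨[], 0, [], [], []⟩,
   ⟨[], 0, [], [], []⟩,
   ⟨[], 0, [], [], []⟩,
   ⟨[], 0, [], [], []⟩,
   ⟨[0, 6, 7, 11, 8, 10, 9], 42, [42, 63, 59], [5, 0, 6, 7, 0, 6, 2], [0, 12, 0, 14, 0, 14, 0, 0, 0, 0, 0, 0]⟩,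
   ⟨[1, 6, 7, 11, 8, 10, 9], 21, [41, 63, 59], [0, 5, 6, 7, 0, 6, 2], [15, 0, 14, 0, 13, 0, 0, 0, 0, 0, 0, 0]⟩,
   ⟨[], 0, [], [], []⟩,
   ⟨[], 0, [], [], []⟩,
   ⟨[], 0, [], [], []⟩,
   ⟨[], 0, [], [], []⟩,
   ⟨[0, 6, 7, 11, 8, 9, 10], 28, [33, 63, 59], [7, 0, 6, 5, 0, 6, 2], [0, 0, 6, 4, 4, 0, 0, 0, 0, 0, 0, 0]⟩,
   ⟨[2, 6, 7, 11, 8, 9, 10], 35, [34, 63, 59], [0, 7, 6, 5, 0, 6, 2], [5, 4, 0, 0, 0, 7, 0, 0, 0, 0, 0, 0]⟩,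
   ⟨[], 0, [], [], []⟩,
   ⟨[], 0, [], [], []⟩,
   ⟨[], 0, [], [], []⟩,
   ⟨[], 0, [], [], []⟩,
   ⟨[], 0, [], [], []⟩,
   ⟨[], 0, [], [], []⟩,
   ⟨[], 0, [], [], []⟩,
   ⟨[1, 6, 7, 8, 11, 10, 9], 49, [50, 59, 63], [6, 0, 6, 5, 1, 0, 4], [15, 0, 0, 0, 8, 8, 0, 0, 0, 0, 0, 0]⟩,
   ⟨[], 0, [], [], []⟩,
   ⟨[0, 6, 7, 8, 11, 9, 10], 28, [33, 59, 63], [6, 0, 6, 0, 3, 7, 4], [0, 0, 15, 3, 3, 0, 0, 0, 0, 0, 0, 0]⟩,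
   ⟨[], 0, [], [], []⟩,
   ⟨[], 0, [], [], []⟩,
   ⟨[], 0, [], [], []⟩,
   ⟨[0, 6, 7, 8, 11, 10, 9], 14, [49, 59, 63], [0, 6, 6, 5, 1, 0, 4], [0, 9, 8, 14, 0, 0, 0, 0, 0, 0, 0, 0]⟩,
   ⟨[], 0, [], [], []⟩,
   ⟨[2, 6, 7, 8, 11, 9, 10], 35, [34, 59, 63], [0, 6, 6, 0, 3, 7, 4], [2, 3, 0, 0, 0, 14, 0, 0, 0, 0, 0, 0]⟩,
   ⟨[], 0, [], [], []⟩,
   ⟨[], 0, [], [], []⟩,
   ⟨[], 0, [], [], []⟩,
   ⟨[], 0, [], [], []⟩,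
   ⟨[], 0, [], [], []⟩,
   ⟨[], 0, [], [], []⟩,
   ⟨[1, 6, 7, 8, 11, 10, 9], 49, [50, 59, 63], [5, 0, 6, 6, 1, 0, 4], [12, 0, 0, 0, 8, 8, 0, 0, 0, 0, 0, 0]⟩,
   ⟨[0, 6, 7, 8, 11, 10, 9], 14, [49, 59, 63], [0, 5, 6, 6, 1, 0, 4], [0, 9, 8, 13, 0, 0, 0, 0, 0, 0, 0, 0]⟩,
   ⟨[], 0, [], [], []⟩,
   ⟨[], 0, [], [], []⟩,
   ⟨[], 0, [], [], []⟩,
   ⟨[], 0, [], [], []⟩,
   ⟨[], 0, [], [], []⟩,
   ⟨[], 0, [], [], []⟩,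
   ⟨[], 0, [], [], []⟩,
   ⟨[], 0, [], [], []⟩,
   ⟨[], 0, [], [], []⟩,
   ⟨[], 0, [], [], []⟩,
   ⟨[0, 6, 7, 8, 11, 9, 10], 28, [33, 59, 63], [7, 0, 6, 0, 3, 6, 4], [0, 0, 6, 3, 3, 0, 0, 0, 0, 0, 0, 0]⟩,
   ⟨[2, 6, 7, 8, 11, 9, 10], 35, [34, 59, 63], [0, 7, 6, 0, 3, 6, 4], [2, 3, 0, 0, 0, 7, 0, 0, 0, 0, 0, 0]⟩,
   ⟨[], 0, [], [], []⟩,
   ⟨[], 0, [], [], []⟩,
   ⟨[], 0, [], [], []⟩,
   ⟨[], 0, [], [], []⟩,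
   ⟨[], 0, [], [], []⟩,
   ⟨[], 0, [], [], []⟩,
   ⟨[], 0, [], [], []⟩,
   ⟨[1, 6, 8, 7, 11, 10, 9], 49, [50, 59, 63], [6, 0, 6, 5, 0, 1, 4], [15, 0, 0, 0, 9, 9, 0, 0, 0, 0, 0, 0]⟩,
   ⟨[0, 6, 8, 7, 11, 9, 10], 42, [17, 59, 63], [6, 0, 6, 0, 7, 3, 4], [0, 15, 0, 3, 0, 3, 0, 0, 0, 0, 0, 0]⟩,
   ⟨[], 0, [], [], []⟩,
   ⟨[], 0, [], [], []⟩,
   ⟨[], 0, [], [], []⟩,
   ⟨[], 0, [], [], []⟩,
   ⟨[0, 6, 8, 7, 11, 10, 9], 14, [49, 59, 63], [0, 6, 6, 5, 0, 1, 4], [0, 8, 9, 14, 0, 0, 0, 0, 0, 0, 0, 0]⟩,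
   ⟨[1, 6, 8, 7, 11, 9, 10], 21, [18, 59, 63], [0, 6, 6, 0, 7, 3, 4], [2, 0, 3, 0, 14, 0, 0, 0, 0, 0, 0, 0]⟩,
   ⟨[], 0, [], [], []⟩,
   ⟨[], 0, [], [], []⟩,
   ⟨[], 0, [], [], []⟩,
   ⟨[], 0, [], [], []⟩,
   ⟨[], 0, [], [], []⟩,
   ⟨[], 0, [], [], []⟩,
   ⟨[], 0, [], [], []⟩,
   ⟨[1, 6, 8, 7, 11, 10, 9], 49, [50, 59, 63], [5, 0, 6, 6, 0, 1, 4], [12, 0, 0, 0, 9, 9, 0, 0, 0, 0, 0, 0]⟩,
   ⟨[0, 6, 8, 7, 11, 10, 9], 14, [49, 59, 63], [0, 5, 6, 6, 0, 1, 4], [0, 8, 9, 13, 0, 0, 0, 0, 0, 0, 0, 0]⟩,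
   ⟨[], 0, [], [], []⟩,
   ⟨[], 0, [], [], []⟩,
   ⟨[], 0, [], [], []⟩,
   ⟨[], 0, [], [], []⟩,
   ⟨[0, 6, 8, 7, 11, 9, 10], 42, [17, 59, 63], [7, 0, 6, 0, 6, 3, 4], [0, 6, 0, 3, 0, 3, 0, 0, 0, 0, 0, 0]⟩,
   ⟨[1, 6, 8, 7, 11, 9, 10], 21, [18, 59, 63], [0, 7, 6, 0, 6, 3, 4], [2, 0, 3, 0, 7, 0, 0, 0, 0, 0, 0, 0]⟩,
   ⟨[], 0, [], [], []⟩,
   ⟨[], 0, [], [], []⟩,
   ⟨[], 0, [], [], []⟩,
   ⟨[], 0, [], [], []⟩,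
   ⟨[], 0, [], [], []⟩,
   ⟨[], 0, [], [], []⟩,
   ⟨[], 0, [], [], []⟩,
   ⟨[], 0, [], [], []⟩,
   ⟨[], 0, [], [], []⟩,
   ⟨[], 0, [], [], []⟩]
def dR12 : List CD :=
  [⟨[], 0, [], [], []⟩,
   ⟨[], 0, [], [], []⟩,
   ⟨[], 0, [], [], []⟩,
   ⟨[], 0, [], [], []⟩,
   ⟨[], 0, [], [], []⟩,
   ⟨[], 0, [], [], []⟩,
   ⟨[], 0, [], [], []⟩,
   ⟨[], 0, [], [], []⟩,
   ⟨[0, 3, 11, 10, 6, 9, 4, 1, 7, 5, 2, 8], 0, [63, 8, 62, 58, 16, 32], [5, 58, 12, 2, 16, 32, 1], [0, 0, 0, 0, 0, 0, 0, 0, 0, 0, 0, 0]⟩,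
   ⟨[], 0, [], [], []⟩,
   ⟨[], 0, [], [], []⟩,
   ⟨[], 0, [], [], []⟩,
   ⟨[], 0, [], [], []⟩,
   ⟨[0, 6, 11, 10, 3, 9, 7, 1, 4, 8, 2, 5], 0, [63, 8, 62, 60, 16, 32], [5, 12, 58, 2, 16, 32, 1], [0, 0, 0, 0, 0, 0, 0, 0, 0, 0, 0, 0]⟩,
   ⟨[], 0, [], [], []⟩,
   ⟨[], 0, [], [], []⟩,
   ⟨[], 0, [], [], []⟩,
   ⟨[], 0, [], [], []⟩,
   ⟨[], 0, [], [], []⟩,
   ⟨[], 0, [], [], []⟩,
   ⟨[], 0, [], [], []⟩,
   ⟨[], 0, [], [], []⟩,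
   ⟨[], 0, [], [], []⟩,
   ⟨[], 0, [], [], []⟩,
   ⟨[], 0, [], [], []⟩,
   ⟨[], 0, [], [], []⟩,
   ⟨[], 0, [], [], []⟩,
   ⟨[], 0, [], [], []⟩,
   ⟨[], 0, [], [], []⟩,
   ⟨[0, 2, 10, 11, 1, 9, 5, 3, 4, 8, 6, 7], 0, [63, 62, 8, 24, 2, 4], [3, 16, 32, 4, 12, 58, 1], [0, 0, 0, 0, 0, 0, 0, 0, 0, 0, 0, 0]⟩,
   ⟨[], 0, [], [], []⟩,
   ⟨[], 0, [], [], []⟩,
   ⟨[], 0, [], [], []⟩,
   ⟨[], 0, [], [], []⟩,
   ⟨[0, 1, 10, 11, 2, 9, 4, 3, 5, 7, 6, 8], 0, [63, 62, 8, 40, 2, 4], [3, 16, 32, 4, 58, 12, 1], [0, 0, 0, 0, 0, 0, 0, 0, 0, 0, 0, 0]⟩,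
   ⟨[], 0, [], [], []⟩,
   ⟨[], 0, [], [], []⟩,
   ⟨[], 0, [], [], []⟩,
   ⟨[], 0, [], [], []⟩,
   ⟨[], 0, [], [], []⟩,
   ⟨[], 0, [], [], []⟩,
   ⟨[], 0, [], [], []⟩,
   ⟨[], 0, [], [], []⟩,
   ⟨[], 0, [], [], []⟩,
   ⟨[1, 4, 11, 10, 7, 9, 3, 0, 6, 5, 2, 8], 0, [63, 16, 62, 58, 8, 32], [5, 58, 12, 16, 2, 32, 1], [0, 0, 0, 0, 0, 0, 0, 0, 0, 0, 0, 0]⟩,
   ⟨[], 0, [], [], []⟩,
   ⟨[], 0, [], [], []⟩,
   ⟨[], 0, [], [], []⟩,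
   ⟨[], 0, [], [], []⟩,
   ⟨[1, 7, 11, 10, 4, 9, 6, 0, 3, 8, 2, 5], 0, [63, 16, 62, 60, 8, 32], [5, 12, 58, 16, 2, 32, 1], [0, 0, 0, 0, 0, 0, 0, 0, 0, 0, 0, 0]⟩,
   ⟨[], 0, [], [], []⟩,
   ⟨[], 0, [], [], []⟩,
   ⟨[], 0, [], [], []⟩,
   ⟨[], 0, [], [], []⟩,
   ⟨[], 0, [], [], []⟩,
   ⟨[], 0, [], [], []⟩,
   ⟨[], 0, [], [], []⟩,
   ⟨[], 0, [], [], []⟩,
   ⟨[], 0, [], [], []⟩,
   ⟨[0, 9, 11, 2, 10, 1, 4, 3, 5, 7, 6, 8], 0, [1, 63, 9, 41, 2, 4], [1, 16, 32, 5, 58, 12, 2], [0, 0, 0, 0, 0, 0, 0, 0, 0, 0, 0, 0]⟩,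
   ⟨[], 0, [], [], []⟩,
   ⟨[], 0, [], [], []⟩,
   ⟨[], 0, [], [], []⟩,
   ⟨[], 0, [], [], []⟩,
   ⟨[], 0, [], [], []⟩,
   ⟨[], 0, [], [], []⟩,
   ⟨[], 0, [], [], []⟩,
   ⟨[], 0, [], [], []⟩,
   ⟨[], 0, [], [], []⟩,
   ⟨[0, 1, 10, 2, 11, 9, 4, 3, 5, 7, 6, 8], 0, [62, 63, 54, 22, 2, 4], [3, 16, 32, 5, 56, 12, 2], [0, 0, 0, 0, 0, 0, 0, 0, 0, 0, 0, 0]⟩,
   ⟨[], 0, [], [], []⟩,
   ⟨[], 0, [], [], []⟩,
   ⟨[], 0, [], [], []⟩,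
   ⟨[], 0, [], [], []⟩,
   ⟨[], 0, [], [], []⟩,
   ⟨[], 0, [], [], []⟩,
   ⟨[], 0, [], [], []⟩,
   ⟨[], 0, [], [], []⟩,
   ⟨[], 0, [], [], []⟩,
   ⟨[], 0, [], [], []⟩,
   ⟨[2, 5, 11, 10, 8, 9, 3, 0, 6, 4, 1, 7], 0, [63, 32, 62, 58, 8, 16], [5, 58, 12, 16, 32, 2, 1], [0, 0, 0, 0, 0, 0, 0, 0, 0, 0, 0, 0]⟩,
   ⟨[], 0, [], [], []⟩,
   ⟨[], 0, [], [], []⟩,
   ⟨[], 0, [], [], []⟩,
   ⟨[], 0, [], [], []⟩,
   ⟨[2, 8, 11, 10, 5, 9, 6, 0, 3, 7, 1, 4], 0, [63, 32, 62, 60, 8, 16], [5, 12, 58, 16, 32, 2, 1], [0, 0, 0, 0, 0, 0, 0, 0, 0, 0, 0, 0]⟩,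
   ⟨[], 0, [], [], []⟩,
   ⟨[], 0, [], [], []⟩,
   ⟨[], 0, [], [], []⟩,
   ⟨[], 0, [], [], []⟩,
   ⟨[], 0, [], [], []⟩,
   ⟨[], 0, [], [], []⟩,
   ⟨[], 0, [], [], []⟩,
   ⟨[], 0, [], [], []⟩,
   ⟨[0, 9, 11, 1, 10, 2, 5, 3, 4, 8, 6, 7], 0, [1, 63, 9, 25, 2, 4], [1, 16, 32, 5, 12, 58, 2], [0, 0, 0, 0, 0, 0, 0, 0, 0, 0, 0, 0]⟩,
   ⟨[], 0, [], [], []⟩,
   ⟨[], 0, [], [], []⟩,
   ⟨[], 0, [], [], []⟩,
   ⟨[], 0, [], [], []⟩,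
   ⟨[0, 2, 10, 1, 11, 9, 5, 3, 4, 8, 6, 7], 0, [62, 63, 54, 38, 2, 4], [3, 16, 32, 5, 12, 56, 2], [0, 0, 0, 0, 0, 0, 0, 0, 0, 0, 0, 0]⟩,
   ⟨[], 0, [], [], []⟩,
   ⟨[], 0, [], [], []⟩,
   ⟨[], 0, [], [], []⟩,
   ⟨[], 0, [], [], []⟩,
   ⟨[], 0, [], [], []⟩,
   ⟨[], 0, [], [], []⟩,
   ⟨[], 0, [], [], []⟩,
   ⟨[], 0, [], [], []⟩,
   ⟨[], 0, [], [], []⟩,
   ⟨[], 0, [], [], []⟩,
   ⟨[0, 3, 11, 6, 10, 9, 4, 1, 7, 5, 2, 8], 0, [8, 63, 9, 13, 16, 32], [5, 58, 12, 1, 16, 32, 2], [0, 0, 0, 0, 0, 0, 0, 0, 0, 0, 0, 0]⟩,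
   ⟨[], 0, [], [], []⟩,
   ⟨[], 0, [], [], []⟩,
   ⟨[], 0, [], [], []⟩,
   ⟨[], 0, [], [], []⟩,
   ⟨[], 0, [], [], []⟩,
   ⟨[], 0, [], [], []⟩,
   ⟨[], 0, [], [], []⟩,
   ⟨[], 0, [], [], []⟩,
   ⟨[], 0, [], [], []⟩,
   ⟨[0, 9, 10, 6, 11, 3, 4, 1, 7, 5, 2, 8], 0, [55, 63, 54, 50, 16, 32], [5, 56, 12, 3, 16, 32, 2], [0, 0, 0, 0, 0, 0, 0, 0, 0, 0, 0, 0]⟩,
   ⟨[], 0, [], [], []⟩,
   ⟨[], 0, [], [], []⟩,
   ⟨[], 0, [], [], []⟩,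
   ⟨[], 0, [], [], []⟩,
   ⟨[], 0, [], [], []⟩,
   ⟨[], 0, [], [], []⟩,
   ⟨[], 0, [], [], []⟩,
   ⟨[], 0, [], [], []⟩,
   ⟨[], 0, [], [], []⟩,
   ⟨[], 0, [], [], []⟩,
   ⟨[], 0, [], [], []⟩,
   ⟨[], 0, [], [], []⟩,
   ⟨[], 0, [], [], []⟩,
   ⟨[], 0, [], [], []⟩,
   ⟨[], 0, [], [], []⟩,
   ⟨[], 0, [], [], []⟩,
   ⟨[3, 5, 10, 11, 4, 9, 2, 0, 1, 8, 6, 7], 0, [63, 61, 8, 24, 1, 4], [16, 3, 32, 4, 12, 58, 1], [0, 0, 0, 0, 0, 0, 0, 0, 0, 0, 0, 0]⟩,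
   ⟨[], 0, [], [], []⟩,
   ⟨[], 0, [], [], []⟩,
   ⟨[], 0, [], [], []⟩,
   ⟨[], 0, [], [], []⟩,
   ⟨[3, 4, 10, 11, 5, 9, 1, 0, 2, 7, 6, 8], 0, [63, 61, 8, 40, 1, 4], [16, 3, 32, 4, 58, 12, 1], [0, 0, 0, 0, 0, 0, 0, 0, 0, 0, 0, 0]⟩,
   ⟨[], 0, [], [], []⟩,
   ⟨[], 0, [], [], []⟩,
   ⟨[], 0, [], [], []⟩,
   ⟨[1, 4, 11, 7, 10, 9, 3, 0, 6, 5, 2, 8], 0, [16, 63, 17, 21, 8, 32], [5, 58, 12, 16, 1, 32, 2], [0, 0, 0, 0, 0, 0, 0, 0, 0, 0, 0, 0]⟩,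
   ⟨[], 0, [], [], []⟩,
   ⟨[], 0, [], [], []⟩,
   ⟨[], 0, [], [], []⟩,
   ⟨[], 0, [], [], []⟩,
   ⟨[], 0, [], [], []⟩,
   ⟨[], 0, [], [], []⟩,
   ⟨[], 0, [], [], []⟩,
   ⟨[], 0, [], [], []⟩,
   ⟨[], 0, [], [], []⟩,
   ⟨[1, 9, 10, 7, 11, 4, 3, 0, 6, 5, 2, 8], 0, [47, 63, 46, 42, 8, 32], [5, 56, 12, 16, 3, 32, 2], [0, 0, 0, 0, 0, 0, 0, 0, 0, 0, 0, 0]⟩,
   ⟨[], 0, [], [], []⟩,
   ⟨[], 0, [], [], []⟩,
   ⟨[], 0, [], [], []⟩,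
   ⟨[], 0, [], [], []⟩,
   ⟨[], 0, [], [], []⟩,
   ⟨[], 0, [], [], []⟩,
   ⟨[], 0, [], [], []⟩,
   ⟨[], 0, [], [], []⟩,
   ⟨[], 0, [], [], []⟩,
   ⟨[], 0, [], [], []⟩,
   ⟨[3, 9, 11, 5, 10, 4, 1, 0, 2, 7, 6, 8], 0, [2, 63, 10, 42, 1, 4], [16, 1, 32, 5, 58, 12, 2], [0, 0, 0, 0, 0, 0, 0, 0, 0, 0, 0, 0]⟩,
   ⟨[], 0, [], [], []⟩,
   ⟨[], 0, [], [], []⟩,
   ⟨[], 0, [], [], []⟩,
   ⟨[], 0, [], [], []⟩,
   ⟨[], 0, [], [], []⟩,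
   ⟨[], 0, [], [], []⟩,
   ⟨[], 0, [], [], []⟩,
   ⟨[], 0, [], [], []⟩,
   ⟨[], 0, [], [], []⟩,
   ⟨[3, 4, 10, 5, 11, 9, 1, 0, 2, 7, 6, 8], 0, [61, 63, 53, 21, 1, 4], [16, 3, 32, 5, 56, 12, 2], [0, 0, 0, 0, 0, 0, 0, 0, 0, 0, 0, 0]⟩,
   ⟨[], 0, [], [], []⟩,
   ⟨[], 0, [], [], []⟩,
   ⟨[], 0, [], [], []⟩,
   ⟨[], 0, [], [], []⟩,
   ⟨[2, 5, 11, 8, 10, 9, 3, 0, 6, 4, 1, 7], 0, [32, 63, 33, 37, 8, 16], [5, 58, 12, 16, 32, 1, 2], [0, 0, 0, 0, 0, 0, 0, 0, 0, 0, 0, 0]⟩,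
   ⟨[], 0, [], [], []⟩,
   ⟨[], 0, [], [], []⟩,
   ⟨[], 0, [], [], []⟩,
   ⟨[], 0, [], [], []⟩,
   ⟨[], 0, [], [], []⟩,
   ⟨[], 0, [], [], []⟩,
   ⟨[], 0, [], [], []⟩,
   ⟨[], 0, [], [], []⟩,
   ⟨[], 0, [], [], []⟩,
   ⟨[2, 9, 10, 8, 11, 5, 3, 0, 6, 4, 1, 7], 0, [31, 63, 30, 26, 8, 16], [5, 56, 12, 16, 32, 3, 2], [0, 0, 0, 0, 0, 0, 0, 0, 0, 0, 0, 0]⟩,
   ⟨[], 0, [], [], []⟩,
   ⟨[], 0, [], [], []⟩,
   ⟨[], 0, [], [], []⟩,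
   ⟨[], 0, [], [], []⟩,
   ⟨[], 0, [], [], []⟩,
   ⟨[], 0, [], [], []⟩,
   ⟨[], 0, [], [], []⟩,
   ⟨[], 0, [], [], []⟩,
   ⟨[], 0, [], [], []⟩,
   ⟨[3, 9, 11, 4, 10, 5, 2, 0, 1, 8, 6, 7], 0, [2, 63, 10, 26, 1, 4], [16, 1, 32, 5, 12, 58, 2], [0, 0, 0, 0, 0, 0, 0, 0, 0, 0, 0, 0]⟩,
   ⟨[], 0, [], [], []⟩,
   ⟨[], 0, [], [], []⟩,
   ⟨[], 0, [], [], []⟩,
   ⟨[], 0, [], [], []⟩,
   ⟨[3, 5, 10, 4, 11, 9, 2, 0, 1, 8, 6, 7], 0, [61, 63, 53, 37, 1, 4], [16, 3, 32, 5, 12, 56, 2], [0, 0, 0, 0, 0, 0, 0, 0, 0, 0, 0, 0]⟩,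
   ⟨[], 0, [], [], []⟩,
   ⟨[], 0, [], [], []⟩,
   ⟨[], 0, [], [], []⟩,
   ⟨[], 0, [], [], []⟩,
   ⟨[], 0, [], [], []⟩,
   ⟨[], 0, [], [], []⟩,
   ⟨[], 0, [], [], []⟩,
   ⟨[], 0, [], [], []⟩,
   ⟨[], 0, [], [], []⟩,
   ⟨[0, 6, 11, 3, 10, 9, 7, 1, 4, 8, 2, 5], 0, [8, 63, 9, 11, 16, 32], [5, 12, 58, 1, 16, 32, 2], [0, 0, 0, 0, 0, 0, 0, 0, 0, 0, 0, 0]⟩,
   ⟨[], 0, [], [], []⟩,
   ⟨[], 0, [], [], []⟩,
   ⟨[], 0, [], [], []⟩,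
   ⟨[], 0, [], [], []⟩,
   ⟨[0, 9, 10, 3, 11, 6, 7, 1, 4, 8, 2, 5], 0, [55, 63, 54, 52, 16, 32], [5, 12, 56, 3, 16, 32, 2], [0, 0, 0, 0, 0, 0, 0, 0, 0, 0, 0, 0]⟩,
   ⟨[], 0, [], [], []⟩,
   ⟨[], 0, [], [], []⟩,
   ⟨[], 0, [], [], []⟩,
   ⟨[], 0, [], [], []⟩,
   ⟨[], 0, [], [], []⟩,
   ⟨[], 0, [], [], []⟩,
   ⟨[], 0, [], [], []⟩,
   ⟨[], 0, [], [], []⟩,
   ⟨[], 0, [], [], []⟩,
   ⟨[], 0, [], [], []⟩,
   ⟨[], 0, [], [], []⟩,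
   ⟨[], 0, [], [], []⟩,
   ⟨[], 0, [], [], []⟩,
   ⟨[], 0, [], [], []⟩,
   ⟨[], 0, [], [], []⟩,
   ⟨[], 0, [], [], []⟩,
   ⟨[], 0, [], [], []⟩,
   ⟨[], 0, [], [], []⟩,
   ⟨[], 0, [], [], []⟩,
   ⟨[], 0, [], [], []⟩,
   ⟨[], 0, [], [], []⟩,
   ⟨[], 0, [], [], []⟩,
   ⟨[6, 8, 10, 11, 7, 9, 2, 0, 1, 5, 3, 4], 0, [63, 59, 8, 24, 1, 2], [16, 32, 3, 4, 12, 58, 1], [0, 0, 0, 0, 0, 0, 0, 0, 0, 0, 0, 0]⟩,
   ⟨[], 0, [], [], []⟩,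
   ⟨[], 0, [], [], []⟩,
   ⟨[], 0, [], [], []⟩,
   ⟨[], 0, [], [], []⟩,
   ⟨[6, 7, 10, 11, 8, 9, 1, 0, 2, 4, 3, 5], 0, [63, 59, 8, 40, 1, 2], [16, 32, 3, 4, 58, 12, 1], [0, 0, 0, 0, 0, 0, 0, 0, 0, 0, 0, 0]⟩,
   ⟨[], 0, [], [], []⟩,
   ⟨[], 0, [], [], []⟩,
   ⟨[1, 7, 11, 4, 10, 9, 6, 0, 3, 8, 2, 5], 0, [16, 63, 17, 19, 8, 32], [5, 12, 58, 16, 1, 32, 2], [0, 0, 0, 0, 0, 0, 0, 0, 0, 0, 0, 0]⟩,
   ⟨[], 0, [], [], []⟩,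
   ⟨[], 0, [], [], []⟩,
   ⟨[], 0, [], [], []⟩,
   ⟨[], 0, [], [], []⟩,
   ⟨[1, 9, 10, 4, 11, 7, 6, 0, 3, 8, 2, 5], 0, [47, 63, 46, 44, 8, 32], [5, 12, 56, 16, 3, 32, 2], [0, 0, 0, 0, 0, 0, 0, 0, 0, 0, 0, 0]⟩,
   ⟨[], 0, [], [], []⟩,
   ⟨[], 0, [], [], []⟩,
   ⟨[], 0, [], [], []⟩,
   ⟨[], 0, [], [], []⟩,
   ⟨[], 0, [], [], []⟩,
   ⟨[], 0, [], [], []⟩,
   ⟨[], 0, [], [], []⟩,
   ⟨[], 0, [], [], []⟩,
   ⟨[], 0, [], [], []⟩,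
   ⟨[], 0, [], [], []⟩,
   ⟨[], 0, [], [], []⟩,
   ⟨[], 0, [], [], []⟩,
   ⟨[], 0, [], [], []⟩,
   ⟨[], 0, [], [], []⟩,
   ⟨[], 0, [], [], []⟩,
   ⟨[], 0, [], [], []⟩,
   ⟨[6, 9, 11, 8, 10, 7, 1, 0, 2, 4, 3, 5], 0, [4, 63, 12, 44, 1, 2], [16, 32, 1, 5, 58, 12, 2], [0, 0, 0, 0, 0, 0, 0, 0, 0, 0, 0, 0]⟩,
   ⟨[], 0, [], [], []⟩,
   ⟨[], 0, [], [], []⟩,
   ⟨[], 0, [], [], []⟩,
   ⟨[], 0, [], [], []⟩,
   ⟨[], 0, [], [], []⟩,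
   ⟨[], 0, [], [], []⟩,
   ⟨[], 0, [], [], []⟩,
   ⟨[], 0, [], [], []⟩,
   ⟨[], 0, [], [], []⟩,
   ⟨[6, 7, 10, 8, 11, 9, 1, 0, 2, 4, 3, 5], 0, [59, 63, 51, 19, 1, 2], [16, 32, 3, 5, 56, 12, 2], [0, 0, 0, 0, 0, 0, 0, 0, 0, 0, 0, 0]⟩,
   ⟨[], 0, [], [], []⟩,
   ⟨[], 0, [], [], []⟩,
   ⟨[], 0, [], [], []⟩,
   ⟨[2, 8, 11, 5, 10, 9, 6, 0, 3, 7, 1, 4], 0, [32, 63, 33, 35, 8, 16], [5, 12, 58, 16, 32, 1, 2], [0, 0, 0, 0, 0, 0, 0, 0, 0, 0, 0, 0]⟩,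
   ⟨[], 0, [], [], []⟩,
   ⟨[], 0, [], [], []⟩,
   ⟨[], 0, [], [], []⟩,
   ⟨[], 0, [], [], []⟩,
   ⟨[2, 9, 10, 5, 11, 8, 6, 0, 3, 7, 1, 4], 0, [31, 63, 30, 28, 8, 16], [5, 12, 56, 16, 32, 3, 2], [0, 0, 0, 0, 0, 0, 0, 0, 0, 0, 0, 0]⟩,
   ⟨[], 0, [], [], []⟩,
   ⟨[], 0, [], [], []⟩,
   ⟨[], 0, [], [], []⟩,
   ⟨[], 0, [], [], []⟩,
   ⟨[], 0, [], [], []⟩,
   ⟨[], 0, [], [], []⟩,
   ⟨[], 0, [], [], []⟩,
   ⟨[], 0, [], [], []⟩,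
   ⟨[], 0, [], [], []⟩,
   ⟨[], 0, [], [], []⟩,
   ⟨[], 0, [], [], []⟩,
   ⟨[], 0, [], [], []⟩,
   ⟨[], 0, [], [], []⟩,
   ⟨[], 0, [], [], []⟩,
   ⟨[], 0, [], [], []⟩,
   ⟨[6, 9, 11, 7, 10, 8, 2, 0, 1, 5, 3, 4], 0, [4, 63, 12, 28, 1, 2], [16, 32, 1, 5, 12, 58, 2], [0, 0, 0, 0, 0, 0, 0, 0, 0, 0, 0, 0]⟩,
   ⟨[], 0, [], [], []⟩,
   ⟨[], 0, [], [], []⟩,
   ⟨[], 0, [], [], []⟩,
   ⟨[], 0, [], [], []⟩,
   ⟨[6, 8, 10, 7, 11, 9, 2, 0, 1, 5, 3, 4], 0, [59, 63, 51, 35, 1, 2], [16, 32, 3, 5, 12, 56, 2], [0, 0, 0, 0, 0, 0, 0, 0, 0, 0, 0, 0]⟩,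
   ⟨[], 0, [], [], []⟩,
   ⟨[], 0, [], [], []⟩,
   ⟨[], 0, [], [], []⟩,
   ⟨[], 0, [], [], []⟩,
   ⟨[], 0, [], [], []⟩,
   ⟨[], 0, [], [], []⟩,
   ⟨[], 0, [], [], []⟩,
   ⟨[], 0, [], [], []⟩]

end SEY

end
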