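import Pool.Agent.Helper29.MFA.T40
import Pool.Agent.Helper29.MFA.T46

section

/-!
The finite checks of outcomes O1 and O4, by the kernel.
-/

set_option autoImplicit false
set_option maxRecDepth 100000

namespace SEY

open Finset

variable {E : Type} [Fintype E] [DecidableEq E]

def cd0 : CD := ⟨[], 0, [], [], []⟩

end SEY

end
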