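import Pool.Agent.Helper29.MFA.K0

section

/-!
The finite checks of outcomes O1 and O4, by the kernel.
-/

set_option autoImplicit false
set_option maxRecDepth 100000

namespace SEY

open Finset

variable {E : Type} [Fintype E] [DecidableEq E]

theorem good_K33_1 : ∀ (f : Fin 9), f.val / 3 = 1 → ∀ (c d : Fin 6), c ≠ d → c ≠ (K33e f).1 →
    c ≠ (K33e f).2 → d ≠ (K33e f).1 → d ≠ (K33e f).2 →
    CD.Good F7 (O4rows K33e f c d) (dF7.getD (36 * f + 6 * c + d) cd0) ∨
    CD.Good R12 (O4rows K33e f c d) (dR12.getD (36 * f + 6 * c + d) cd0) := by decide +kernel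

end SEY

end
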