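import Mathlib

section

/-!
Short rainbow circuits in regular matroids: definitions.

A regular matroid is given by a finite family of vectors `v : ι → V` in a rational vector
space whose set of vectors is unimodular (`Uni`).  Colourings are maps `c : ι → κ`.
-/

namespace RC

open Submodule Module

/-- A set of vectors is unimodular if the coordinates of each of its vectors with respect to
each finite linearly independent subset are `0`, `1` or `-1`. -/
def Uni {V : Type} [AddCommGroup V] [Module ℚ V] (X : Set V) : Prop :=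
  ∀ (s : Finset V) (c : V → ℚ), (s : Set V) ⊆ X → LinearIndepOn ℚ id (s : Set V) →
    (∑ a ∈ s, c a • a) ∈ X → ∀ a ∈ s, c a = 0 ∨ c a = 1 ∨ c a = -1

/-- A class of vector sets. -/
abbrev ClsT : Type 1 := ∀ (V : Type) [AddCommGroup V] [Module ℚ V], Set V → Prop

/-- Closure properties used in the proof. -/
structure Cls (C : ClsT) : Prop where
  uni : ∀ {V : Type} [AddCommGroup V] [Module ℚ V] {X : Set V}, C V X → Uni X
  mono : ∀ {V : Type} [AddCommGroup V] [Module ℚ V] {X Y : Set V}, C V Y →
    (∀ x ∈ X, x = 0 ∨ x ∈ Y ∨ -x ∈ Y) → C V X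
  map : ∀ {V W : Type} [AddCommGroup V] [Module ℚ V] [AddCommGroup W] [Module ℚ W]
    (f : V →ₗ[ℚ] W) {X : Set V}, C V X → (∀ y ∈ span ℚ X, f y = 0 → y = 0) → C W (f '' X)
  con : ∀ {V W : Type} [AddCommGroup V] [Module ℚ V] [AddCommGroup W] [Module ℚ W]
    (f : V →ₗ[ℚ] W) {X : Set V} {x : V}, C V X → x ∈ X → f x = 0 →
    (∀ y ∈ span ℚ X, f y = 0 → y ∈ span ℚ {x}) → C W (f '' X)
  claw : ∀ {V : Type} [AddCommGroup V] [Module ℚ V] {X : Set V} {p q : V}, C V X →
    p ∈ X → q ∈ X → p + q ∈ X → LinearIndependent ℚ ![p, q] →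
    C (V × ℚ) ((fun x : V => (x, (0 : ℚ))) '' X ∪ {((0 : V), (1 : ℚ)), (p, 1), (-q, 1)})

/-- There is a rainbow dependent set with at most `k` elements inside `E`. -/
def Short {ι κ V : Type} [AddCommGroup V] [Module ℚ V] (v : ι → V) (c : ι → κ)
    (E : Finset ι) (k : ℕ) : Prop :=
  ∃ T : Finset ι, T ⊆ E ∧ T.card ≤ k ∧ Set.InjOn c (T : Set ι) ∧
    ¬ LinearIndepOn ℚ v (T : Set ι)

/-- Rank of a set of elements. -/
noncomputable def rk {ι V : Type} [AddCommGroup V] [Module ℚ V] (v : ι → V)
    (E : Finset ι) : ℕ := finrank ℚ (span ℚ (v '' (E : Set ι)))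

open Classical in
/-- Number of colours met by a set of elements. -/
noncomputable def nc {ι κ : Type} (c : ι → κ) (E : Finset ι) : ℕ := (E.image c).card

/-- A coloured system: colour classes have one or two elements, no loops, no monochromatic
parallel pair, and the rank is smaller than the number of colours. -/
structure Sys (C : ClsT) {ι κ V : Type} [AddCommGroup V] [Module ℚ V] (v : ι → V)
    (c : ι → κ) (E : Finset ι) : Prop where
  cls : C V (v '' (E : Set ι))
  ne : ∀ e ∈ E, v e ≠ 0
  two : ∀ e ∈ E, ∀ e' ∈ E, ∀ e'' ∈ E, c e = c e' → c e = c e'' → e = e' ∨ e = e'' ∨ e' = e''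
  par : ∀ e ∈ E, ∀ e' ∈ E, c e = c e' → e ≠ e' → LinearIndependent ℚ ![v e, v e']
  rank : rk v E + 1 ≤ nc c E

/-- The bound for a system with `n` colours and `m` elements (`2 * n - m` colours of size one,
`m - n` colours of size two). -/
def bd (n m : ℕ) : ℕ := if m = 2 * n then (n + 1) / 2 else (2 * n - m) + (m - n) / 2

/-- The theorem for all systems of the class `C` with `n` colours. -/
def GC (C : ClsT) (n : ℕ) : Prop :=
  ∀ (ι κ V : Type) [AddCommGroup V] [Module ℚ V] (v : ι → V) (c : ι → κ) (E : Finset ι),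
    Sys C v c E → nc c E = n → Short v c E (bd n E.card)

/-- A minimal counterexample, reduced: `2 * h` colours, exactly one of them (that of `e0`)
of size one, rank `2 * h - 1`, no rainbow dependent set with at most `h` elements. -/
structure Bad (C : ClsT) (h : ℕ) {ι κ V : Type} [AddCommGroup V] [Module ℚ V] (v : ι → V)
    (c : ι → κ) (E : Finset ι) (e0 : ι) : Prop where
  ih : ∀ n < 2 * h, GC C n
  sys : Sys C v c E
  nc_eq : nc c E = 2 * h
  card : E.card + 1 = 4 * h
  mem0 : e0 ∈ E
  single : ∀ e ∈ E, c e = c e0 → e = e0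
  partner : ∀ e ∈ E, e ≠ e0 → ∃ e' ∈ E, e' ≠ e ∧ c e' = c e
  rank : rk v E + 1 = 2 * h
  tri : ∀ e ∈ E, ∀ e' ∈ E, c e = c e' → e ≠ e' → LinearIndependent ℚ ![v e0, v e, v e']
  short : ¬ Short v c E h

/-! ### Decomposable sets -/

/-- The ten vectors of the matroid `R10`. -/
def R10 : Fin 10 → Fin 5 → ℚ :=
  ![![1, 0, 0, 0, 0], ![0, 1, 0, 0, 0], ![0, 0, 1, 0, 0], ![0, 0, 0, 1, 0], ![0, 0, 0, 0, 1],
    ![-1, 1, 0, 0, 1], ![1, -1, 1, 0, 0], ![0, 1, -1, 1, 0], ![0, 0, 1, -1, 1],
    ![1, 0, 0, 1, -1]]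

/-- The class of all vector sets obtained from graphic ones, cographic ones and `R10` by
1-, 2- and 3-sums, deleting, adding loops and parallel elements, and changing signs.
`graphic`: up to a linear map injective on the span, the vectors are differences of unit
vectors of `W → ℚ` (edges of a graph with vertex set `W`).
`cographic`: the linear dependencies are the potential differences of a graph.
`sum`: for linearly independent `p`, `q` this is the 3-sum of the two sets along the triangle
`p, q, p + q`; for `q = 0` it is the 2-sum along `p`; for `p = q = 0` the 1-sum. -/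
inductive Dec : (V : Type) → [AddCommGroup V] → [Module ℚ V] → Set V → Prop
  | graphic {V : Type} [AddCommGroup V] [Module ℚ V] (X : Set V) (W : Type) [Fintype W]
      [DecidableEq W] (φ : V →ₗ[ℚ] (W → ℚ)) (inj : ∀ y ∈ span ℚ X, φ y = 0 → y = 0)
      (edge : ∀ x ∈ X, ∃ a b : W, φ x = Pi.single a 1 - Pi.single b 1) : Dec V X
  | cographic {V : Type} [AddCommGroup V] [Module ℚ V] (X : Set V) (E W : Type) [Fintype E]
      [Fintype W] (u : E → V) (hd tl : E → W)
      (dep : ∀ a : E → ℚ, ∑ e, a e • u e = 0 ↔ ∃ π : W → ℚ, ∀ e, a e = π (hd e) - π (tl e))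
      (cov : ∀ x ∈ X, ∃ e, x = u e) : Dec V X
  | r10 {V : Type} [AddCommGroup V] [Module ℚ V] (X : Set V) (φ : V →ₗ[ℚ] (Fin 5 → ℚ))
      (inj : ∀ y ∈ span ℚ X, φ y = 0 → y = 0) (col : ∀ x ∈ X, ∃ j, φ x = R10 j) : Dec V X
  | emb {V V' : Type} [AddCommGroup V] [Module ℚ V] [AddCommGroup V'] [Module ℚ V']
      (X : Set V) (Y : Set V') (f : V →ₗ[ℚ] V') (inj : ∀ y ∈ span ℚ X, f y = 0 → y = 0)
      (sub : ∀ x ∈ X, f x = 0 ∨ f x ∈ Y ∨ -f x ∈ Y) (h : Dec V' Y) : Dec V X
  | sum {V : Type} [AddCommGroup V] [Module ℚ V] (A B : Set V) (p q : V)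
      (hpq : LinearIndependent ℚ ![p, q] ∨ q = 0)
      (h : span ℚ (A ∪ {p, q}) ⊓ span ℚ (B ∪ {p, q}) = span ℚ {p, q})
      (hA : Dec V (A ∪ {p, q, p + q})) (hB : Dec V (B ∪ {p, q, p + q})) : Dec V (A ∪ B)

end RC

end

section

/-!
Module RC-U1.  Basic facts on unimodular sets.

`uni_mono`: let `s` be a finite independent subset of `X`, `x = ∑ c a • a` in `X`.  Every
`a` in `s` is nonzero, so `a` or `-a` is in `Y`; put `t a = a` if `a` is in `Y`, else `-a`.
`t` is injective on `s` (`a = -b` contradicts independence unless `a = b = 0`), the image is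
independent, and `x` or `-x` or `0` is in `Y`.  If `x = 0` all coefficients vanish.

`uni_coord`: the same as the definition for a family; `v` is injective on `T` by independence
(`LinearIndepOn.injOn`), apply the definition to `T.image v`.

`uni_circ`: by `hmin` a nontrivial relation on `T` has no zero coefficient.  For `i, j` in `T`,
`i ≠ j`, solve for `v j`: the coordinates `- c i / c j` are `0, 1, -1` by `uni_coord`.

`uni_par`: `y` is a multiple of `x`, apply `uni_coord` to the set `{x}`.
`uni_of_map`: an independent subset of `X` is mapped to an independent set (`f` is injective on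
the span), apply the definition for `f '' X`.
-/

namespace RC

open Submodule Module

variable {ι V W : Type} [AddCommGroup V] [Module ℚ V] [AddCommGroup W] [Module ℚ W]

theorem uni_coord {X : Set V} (hX : Uni X) (v : ι → V) (T : Finset ι) (hT : ∀ i ∈ T, v i ∈ X)
    (hli : LinearIndepOn ℚ v (T : Set ι)) (c : ι → ℚ) (hx : ∑ i ∈ T, c i • v i ∈ X) :
    ∀ i ∈ T, c i = 0 ∨ c i = 1 ∨ c i = -1 := by
  classical
  intro i hi
  have : Nonempty ι := ⟨i⟩
  have hinj : Set.InjOn v (T : Set ι) := hli.injOn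
  have hinv : ∀ j ∈ T, Function.invFunOn v (T : Set ι) (v j) = j := fun j hj =>
    hinj.leftInvOn_invFunOn (Finset.mem_coe.2 hj)
  have hs : ((T.image v : Finset V) : Set V) ⊆ X := by
    intro a ha
    rw [Finset.mem_coe, Finset.mem_image] at ha
    obtain ⟨j, hj, rfl⟩ := ha
    exact hT j hj
  have hl : LinearIndepOn ℚ id ((T.image v : Finset V) : Set V) := by
    rw [Finset.coe_image]
    exact hli.id_image
  have hsum : ∑ a ∈ T.image v, c (Function.invFunOn v (T : Set ι) a) • a
      = ∑ j ∈ T, c j • v j := by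
    rw [Finset.sum_image (fun a ha b hb h => hinj ha hb h)]
    exact Finset.sum_congr rfl fun j hj => by rw [hinv j hj]
  have h := hX (T.image v) (fun a => c (Function.invFunOn v (T : Set ι) a)) hs hl
    (by rw [hsum]; exact hx) (v i) (Finset.mem_image_of_mem v hi)
  simpa only [hinv i hi] using h

theorem uni_mono {X Y : Set V} (hY : Uni Y) (h : ∀ x ∈ X, x = 0 ∨ x ∈ Y ∨ -x ∈ Y) : Uni X := by
  classical
  intro s c hs hli hx a ha
  have hne : ∀ b ∈ s, b ≠ 0 := fun b hb => hli.ne_zero (Finset.mem_coe.2 hb)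
  set sg : V → ℚ := fun b => if b ∈ Y then 1 else -1 with hsg
  have hsq : ∀ b, sg b * sg b = 1 := by
    intro b
    simp only [hsg]
    split_ifs <;> norm_num
  have hmem : ∀ b ∈ s, sg b • b ∈ Y := by
    intro b hb
    simp only [hsg]
    split_ifs with hbY
    · rwa [one_smul]
    · rcases h b (hs hb) with h0 | h1 | h2
      · exact absurd h0 (hne b hb)
      · exact absurd h1 hbY
      · rwa [neg_one_smul]
  have hli0 := linearIndepOn_finset_iff.1 hli
  have hli' : LinearIndepOn ℚ (fun b => sg b • b) (s : Set V) := by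
    rw [linearIndepOn_finset_iff]
    intro f hf b hb
    have h1 : ∑ x ∈ s, (f x * sg x) • id x = 0 := by
      rw [← hf]
      exact Finset.sum_congr rfl fun x _ => by rw [id, smul_smul]
    have h2 := hli0 _ h1 b hb
    have h3 : f b = (f b * sg b) * sg b := by rw [mul_assoc, hsq, mul_one]
    rw [h3, h2, zero_mul]
  have key : ∀ e : ℚ, (e = 1 ∨ e = -1) → e • (∑ b ∈ s, c b • b) ∈ Y →
      c a = 0 ∨ c a = 1 ∨ c a = -1 := by
    intro e he hY'
    have hsum : ∑ b ∈ s, (e * (c b * sg b)) • (sg b • b) = e • ∑ b ∈ s, c b • b := by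
      rw [Finset.smul_sum]
      refine Finset.sum_congr rfl fun b _ => ?_
      rw [smul_smul, smul_smul]
      congr 1
      rw [mul_assoc, mul_assoc, hsq, mul_one]
    have h1 := uni_coord hY (fun b => sg b • b) s hmem hli' (fun b => e * (c b * sg b))
      (by rw [hsum]; exact hY') a ha
    have h2 : sg a = 1 ∨ sg a = -1 := by
      simp only [hsg]
      split_ifs <;> simp
    rcases he with rfl | rfl <;> rcases h2 with h2 | h2 <;> rw [h2] at h1 <;>
      rcases h1 with h1 | h1 | h1
    all_goals first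
      | (left; (clear * - h1; linarith))
      | (right; left; linarith)
      | (right; right; (clear * - h1; linarith))
  rcases h _ hx with h0 | h1 | h2
  · left
    exact hli0 c (by simpa using h0) a ha
  · exact key 1 (Or.inl rfl) (by rwa [one_smul])
  · exact key (-1) (Or.inr rfl) (by rwa [neg_one_smul])

theorem uni_circ [DecidableEq ι] {X : Set V} (hX : Uni X) (v : ι → V) (T : Finset ι)
    (hT : ∀ i ∈ T, v i ∈ X) (hmin : ∀ i ∈ T, LinearIndepOn ℚ v ((T.erase i : Finset ι) : Set ι))
    (c : ι → ℚ) (h0 : ∑ i ∈ T, c i • v i = 0) (hne : ∃ i ∈ T, c i ≠ 0) :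
    ∀ i ∈ T, c i ≠ 0 ∧ ∀ j ∈ T, c i = c j ∨ c i = -c j := by
  have hall : ∀ i ∈ T, c i ≠ 0 := by
    intro i hi hci
    have h1 : ∑ j ∈ T.erase i, c j • v j = 0 := by
      rw [← Finset.add_sum_erase T _ hi, hci, zero_smul, zero_add] at h0
      exact h0
    have h2 := linearIndepOn_finset_iff.1 (hmin i hi) c h1
    obtain ⟨j, hj, hcj⟩ := hne
    by_cases hij : j = i
    · exact hcj (hij ▸ hci)
    · exact hcj (h2 j (Finset.mem_erase.2 ⟨hij, hj⟩))
  intro i hi
  refine ⟨hall i hi, fun j hj => ?_⟩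
  by_cases hij : i = j
  · left
    rw [hij]
  have hcj := hall j hj
  have hsum : ∑ k ∈ T.erase j, (-(c k / c j)) • v k = v j := by
    rw [← Finset.add_sum_erase T _ hj] at h0
    have h1 : ∑ k ∈ T.erase j, (-(c k / c j)) • v k
        = (-(1 / c j)) • ∑ k ∈ T.erase j, c k • v k := by
      rw [Finset.smul_sum]
      refine Finset.sum_congr rfl fun k _ => ?_
      rw [smul_smul]
      congr 1
      (clear * - hcj; field_simp)
    have h2 : ∑ k ∈ T.erase j, c k • v k = -(c j • v j) := by
      rw [eq_neg_iff_add_eq_zero, add_comm]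
      exact h0
    rw [h1, h2, smul_neg, neg_smul, neg_neg, smul_smul, one_div, inv_mul_cancel₀ hcj, one_smul]
  have h3 := uni_coord hX v (T.erase j) (fun k hk => hT k (Finset.mem_of_mem_erase hk))
    (hmin j hj) (fun k => -(c k / c j)) (by rw [hsum]; exact hT j hj) i
    (Finset.mem_erase.2 ⟨hij, hi⟩)
  have hci := hall i hi
  rcases h3 with h3 | h3 | h3
  · exfalso
    apply hci
    field_simp at h3
    (clear * - h3; linarith)
  · right
    field_simp at h3
    (clear * - h3; linarith)
  · left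
    field_simp at h3
    (clear * - h3; linarith)

theorem uni_par {X : Set V} (hX : Uni X) {x y : V} (hx : x ∈ X) (hy : y ∈ X) (hx0 : x ≠ 0)
    (hy0 : y ≠ 0) (h : ¬ LinearIndependent ℚ ![x, y]) : y = x ∨ y = -x := by
  rw [LinearIndependent.pair_iff' hx0] at h
  push Not at h
  obtain ⟨a, ha⟩ := h
  have h1 := uni_coord hX (fun _ : Unit => x) {()} (fun _ _ => hx)
    (by
      rw [linearIndepOn_finset_iff]
      intro f hf i _
      simp only [Finset.sum_singleton, smul_eq_zero] at hf
      rcases hf with hf | hf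
      · cases i
        exact hf
      · exact absurd hf hx0)
    (fun _ => a) (by simpa [ha] using hy) () (by simp)
  rcases h1 with h1 | h1 | h1
  · exfalso
    apply hy0
    rw [← ha, h1, zero_smul]
  · left
    rw [← ha, h1, one_smul]
  · right
    rw [← ha, h1, neg_one_smul]

theorem uni_of_map (f : V →ₗ[ℚ] W) {X : Set V} (hf : ∀ y ∈ span ℚ X, f y = 0 → y = 0)
    (h : Uni (f '' X)) : Uni X := by
  intro s c hs hli hx
  have hli0 := linearIndepOn_finset_iff.1 hli
  refine uni_coord h (fun a => f a) s (fun a ha => ⟨a, hs ha, rfl⟩) ?_ c ?_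
  · rw [linearIndepOn_finset_iff]
    intro g hg a ha
    refine hli0 g ?_ a ha
    apply hf
    · refine Submodule.sum_mem _ fun b hb => Submodule.smul_mem _ _ (subset_span (hs hb))
    · rw [map_sum]
      simpa only [id, map_smul] using hg
  · refine ⟨_, hx, ?_⟩
    rw [map_sum]
    simp only [map_smul]

end RC

end

section

/-!
Module RC-U2.  Images and contractions of unimodular sets.

`uni_con`: let `s` be a finite independent subset of `f '' X`, `∑ c a • a = f x` with `x ∈ X`.
Choose preimages `g a ∈ X` of `a ∈ s`.  Then `x - ∑ c a • g a` is in `span X` and is killed by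
`f`, so it lies in `span S`.  Choose an independent subset `B ⊆ S` with `span B = span S`
(`exists_linearIndependent`), write the difference as a finite combination `∑ d b • b`, `b ∈ B'`,
`B' ⊆ B` finite.  The family consisting of `g a` (`a ∈ s`) and `b ∈ B'` is independent: apply `f`
to a relation (`f b = 0`) and use independence of `s`, then of `B'`.  Now apply `uni_coord` with
index type `V ⊕ V` or `↥s ⊕ ↥B'`.

`uni_map` is the special case `S = ∅`.

`exists_factor`: `f` induces an isomorphism from `U / (U ⊓ ker f)` onto `f U`; the restriction of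
`g` to `U` factors through it; extend the resulting map `f U → U'` to `W` (vector spaces:
`LinearMap.exists_extend`).
-/

namespace RC

open Submodule Module

variable {V W W' : Type} [AddCommGroup V] [Module ℚ V] [AddCommGroup W] [Module ℚ W]
  [AddCommGroup W'] [Module ℚ W']

theorem uni_con (f : V →ₗ[ℚ] W) {X S : Set V} (hX : Uni X) (hS : S ⊆ X)
    (h0 : ∀ s ∈ S, f s = 0) (hk : ∀ y ∈ span ℚ X, f y = 0 → y ∈ span ℚ S) : Uni (f '' X) := by
  classical
  intro s c hs hli hx
  obtain ⟨x, hxX, hfx⟩ := hx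
  have hg : ∀ a : W, ∃ g : V, a ∈ s → g ∈ X ∧ f g = a := by
    intro a
    by_cases ha : a ∈ s
    · obtain ⟨g, hg1, hg2⟩ := hs (Finset.mem_coe.2 ha)
      exact ⟨g, fun _ => ⟨hg1, hg2⟩⟩
    · exact ⟨0, fun h => absurd h ha⟩
  choose g hg using hg
  have hd : x - ∑ a ∈ s, c a • g a ∈ span ℚ S := by
    apply hk
    · refine Submodule.sub_mem _ (subset_span hxX) (Submodule.sum_mem _ fun a ha => ?_)
      exact Submodule.smul_mem _ _ (subset_span (hg a ha).1)
    · rw [map_sub, hfx, map_sum, sub_eq_zero]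
      exact Finset.sum_congr rfl fun a ha => by rw [map_smul, (hg a ha).2]
  obtain ⟨B, hBS, hBspan, hBli⟩ := exists_linearIndependent ℚ S
  rw [← hBspan, mem_span_set] at hd
  obtain ⟨e, he1, he2⟩ := hd
  have heB : ∀ b ∈ e.support, b ∈ B := fun b hb => he1 (Finset.mem_coe.2 hb)
  have hliB : LinearIndepOn ℚ id (e.support : Set V) := by
    have h1 : LinearIndepOn ℚ id B := hBli
    exact h1.mono he1
  have hli0 := linearIndepOn_finset_iff.1 hli
  have hliB0 := linearIndepOn_finset_iff.1 hliB
  have hliT : LinearIndepOn ℚ (Sum.elim g id : W ⊕ V → V)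
      ((s.disjSum e.support : Finset (W ⊕ V)) : Set (W ⊕ V)) := by
    rw [linearIndepOn_finset_iff]
    intro h hh
    rw [Finset.sum_disjSum] at hh
    simp only [Sum.elim_inl, Sum.elim_inr] at hh
    have hA : ∀ a ∈ s, h (Sum.inl a) = 0 := by
      have h1 := congrArg f hh
      rw [map_add, map_zero, map_sum, map_sum] at h1
      have h2 : ∑ b ∈ e.support, f (h (Sum.inr b) • id b) = 0 := by
        refine Finset.sum_eq_zero fun b hb => ?_
        rw [map_smul, id, h0 b (hBS (heB b hb)), smul_zero]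
      rw [h2, add_zero] at h1
      refine hli0 (fun a => h (Sum.inl a)) ?_
      rw [← h1]
      exact Finset.sum_congr rfl fun a ha => by rw [map_smul, (hg a ha).2, id]
    have hB : ∀ b ∈ e.support, h (Sum.inr b) = 0 := by
      refine hliB0 (fun b => h (Sum.inr b)) ?_
      have h1 : ∑ a ∈ s, h (Sum.inl a) • g a = 0 := by
        refine Finset.sum_eq_zero fun a ha => ?_
        rw [hA a ha, zero_smul]
      rw [h1, zero_add] at hh
      exact hh
    intro i hi
    rcases i with a | b
    · exact hA a (Finset.inl_mem_disjSum.1 hi)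
    · exact hB b (Finset.inr_mem_disjSum.1 hi)
  have hmem : ∀ i ∈ s.disjSum e.support, (Sum.elim g id : W ⊕ V → V) i ∈ X := by
    intro i hi
    rcases i with a | b
    · exact (hg a (Finset.inl_mem_disjSum.1 hi)).1
    · exact hS (hBS (heB b (Finset.inr_mem_disjSum.1 hi)))
  have hsum : ∑ i ∈ s.disjSum e.support,
      (Sum.elim c e : W ⊕ V → ℚ) i • (Sum.elim g id : W ⊕ V → V) i = x := by
    rw [Finset.sum_disjSum]
    simp only [Sum.elim_inl, Sum.elim_inr, id]
    have h1 : ∑ b ∈ e.support, e b • b = x - ∑ a ∈ s, c a • g a := he2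
    rw [h1]
    abel
  intro a ha
  exact uni_coord hX _ _ hmem hliT _ (by rw [hsum]; exact hxX) (Sum.inl a)
    (Finset.inl_mem_disjSum.2 ha)

theorem uni_map (f : V →ₗ[ℚ] W) {X : Set V} (hX : Uni X)
    (hk : ∀ y ∈ span ℚ X, f y = 0 → y = 0) : Uni (f '' X) :=
  uni_con f hX (Set.empty_subset X) (fun s hs => absurd hs (Set.notMem_empty s))
    (fun y hy h => by rw [hk y hy h]; exact Submodule.zero_mem _)

/-- A linear map on a subspace that vanishes on the kernel of `f` factors through `f`. -/
theorem exists_factor (f : V →ₗ[ℚ] W) (g : V →ₗ[ℚ] W') (U : Submodule ℚ V)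
    (h : ∀ y ∈ U, f y = 0 → g y = 0) : ∃ k : W →ₗ[ℚ] W', ∀ y ∈ U, k (f y) = g y := by
  have hker : LinearMap.ker (f.domRestrict U) ≤ LinearMap.ker (g.domRestrict U) := by
    intro y hy
    rw [LinearMap.mem_ker, LinearMap.domRestrict_apply] at hy ⊢
    exact h y y.2 hy
  obtain ⟨k, hk⟩ := LinearMap.exists_leftInverse_of_injective
    ((LinearMap.ker (f.domRestrict U)).liftQ (f.domRestrict U) le_rfl)
    (Submodule.ker_liftQ_eq_bot _ _ _ le_rfl)
  refine ⟨((LinearMap.ker (f.domRestrict U)).liftQ (g.domRestrict U) hker).comp k, ?_⟩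
  intro y hy
  have h1 : f y = (LinearMap.ker (f.domRestrict U)).liftQ (f.domRestrict U) le_rfl
      (Submodule.Quotient.mk ⟨y, hy⟩) := by
    rw [Submodule.liftQ_apply]
    rfl
  rw [LinearMap.comp_apply, h1]
  have h2 := LinearMap.congr_fun hk (Submodule.Quotient.mk ⟨y, hy⟩)
  rw [LinearMap.comp_apply, LinearMap.id_apply] at h2
  rw [h2, Submodule.liftQ_apply]
  rfl

end RC

end

section

/-!
The number of colours, with any decidability instance.
-/

namespace RC

theorem nc_image {ι κ : Type} [inst : DecidableEq κ] (c : ι → κ) (S : Finset ι) :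
    nc c S = (S.image c).card := by
  unfold nc
  have h : inst = fun a b => Classical.propDecidable (a = b) := Subsingleton.elim _ _
  subst h
  rfl

end RC

end

section

/-!
Definitions for the cost lemma.
`u i` (`i < N`) are the levels of a chain, `u i false`, `u i true` are the two vectors of level
`i` (equal for `i = 0`), `FF u i` is the span of the first `i` levels; `a j` (`j < k`) are
further pairs whose two vectors are congruent modulo `FF u N` and which form a circuit modulo
`FF u N`.
-/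

namespace RC

open Submodule Module Finset

variable {V : Type} [AddCommGroup V] [Module ℚ V]

/-- Span of the first `i` levels. -/
def FF (u : ℕ → Bool → V) (i : ℕ) : Submodule ℚ V := span ℚ {w | ∃ j < i, w = u j false}

structure Chain (X : Set V) (u : ℕ → Bool → V) (N : ℕ) : Prop where
  mem : ∀ i < N, ∀ b, u i b ∈ X
  ind : ∀ i < N, u i false ∉ FF u i
  dif : ∀ i < N, u i false - u i true ∈ FF u i
  dne : ∀ i < N, 0 < i → u i false ≠ u i true

structure Circ (X : Set V) (u : ℕ → Bool → V) (N : ℕ) (a : ℕ → Bool → V) (k : ℕ) : Prop where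
  pos : 0 < k
  mem : ∀ j < k, ∀ b, a j b ∈ X
  dif : ∀ j < k, a j false - a j true ∈ FF u N
  dne : ∀ j < k, a j false ≠ a j true
  one : k = 1 → a 0 false ≠ 0 ∧ a 0 true ≠ 0 ∧ a 0 false ≠ -a 0 true
  sum : ∑ j ∈ range k, a j false ∈ FF u N
  min : ∀ μ : ℕ → ℚ, ∑ j ∈ range k, μ j • a j false ∈ FF u N → ∀ i < k, ∀ j < k, μ i = μ j

/-- A nontrivial rainbow relation with at most `m` vectors. -/
def RelP (u a : ℕ → Bool → V) (N k m : ℕ) : Prop :=
  ∃ (α μ : ℕ → ℚ) (f g : ℕ → Bool), ((∃ i < N, α i ≠ 0) ∨ ∃ j < k, μ j ≠ 0) ∧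
    ∑ i ∈ range N, α i • u i (f i) + ∑ j ∈ range k, μ j • a j (g j) = 0 ∧
    ((range N).filter (fun i => α i ≠ 0)).card + ((range k).filter (fun j => μ j ≠ 0)).card ≤ m

/-- `q` is a combination of at most `m` vectors, at most one from each level. -/
def RelQ (u : ℕ → Bool → V) (q : V) (N m : ℕ) : Prop :=
  ∃ (α : ℕ → ℚ) (f : ℕ → Bool), q = ∑ i ∈ range N, α i • u i (f i) ∧
    ((range N).filter (fun i => α i ≠ 0)).card ≤ m

def CostQ (N : ℕ) : Prop :=
  ∀ (V : Type) [AddCommGroup V] [Module ℚ V] (X : Set V) (u : ℕ → Bool → V) (q : V),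
    Uni X → Chain X u N → q ∈ X → q ∈ FF u N → q ≠ 0 → RelQ u q N ((N + 1) / 2)

def CostP (N k : ℕ) : Prop :=
  ∀ (V : Type) [AddCommGroup V] [Module ℚ V] (X : Set V) (u a : ℕ → Bool → V),
    Uni X → Chain X u N → Circ X u N a k → RelP u a N k (k + (N + 1 - k) / 2)

end RC

end

section

/-!
Module RC-C1.  Chains: independence and the crossing lemma.

`chain_expand` / `chain_li`: induction on `N`.  `u i (f i)` is congruent to `u i false` modulo
`FF u i`, and `FF u (i + 1) = FF u i ⊔ span {u i false} = FF u i ⊔ span {u i (f i)}`, with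
`u i (f i) ∉ FF u i`.

`chain_cross` (induction on `N`): let `w, w'` be nonzero in `FF u (N+1)`.  Let
`w - c • u N false ∈ FF u N`, `w' - c' • u N false ∈ FF u N`.
* `c, c'` both nonzero: any `f`, the coordinate at `N` is nonzero for both.
* `c = c' = 0`: induction hypothesis.
* `c ≠ 0`, `c' = 0` (or symmetric): `N > 0` (for `N = 0`, `w' ∈ FF u 0 = ⊥`).  The vectors
  `w - c • u N false` and `w - c • u N true` of `FF u N` differ by
  `c • (u N false - u N true) ≠ 0`, so one of them, `w₁ = w - c • u N b`, is nonzero.  Apply the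
  induction hypothesis to `w₁, w'` and put `f N = b`, `α N = c`, `α' N = 0`.
-/

namespace RC

open Submodule Module Finset

variable {V : Type} [AddCommGroup V] [Module ℚ V]

theorem FF_succ (u : ℕ → Bool → V) (N : ℕ) : FF u (N + 1) = FF u N ⊔ span ℚ {u N false} := by
  unfold FF
  rw [← span_union]
  congr 1
  ext w
  simp only [Set.mem_setOf_eq, Set.mem_union, Set.mem_singleton_iff]
  constructor
  · rintro ⟨j, hj, rfl⟩
    rcases Nat.lt_succ_iff_lt_or_eq.mp hj with h | h
    · exact Or.inl ⟨j, h, rfl⟩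
    · exact Or.inr (by rw [h])
  · rintro (⟨j, hj, rfl⟩ | rfl)
    · exact ⟨j, by (clear * - hj; omega), rfl⟩
    · exact ⟨N, by omega, rfl⟩

theorem FF_mono (u : ℕ → Bool → V) {i j : ℕ} (h : i ≤ j) : FF u i ≤ FF u j := by
  apply span_mono
  rintro w ⟨k, hk, rfl⟩
  exact ⟨k, by omega, rfl⟩

private theorem cu_pred {X : Set V} {u : ℕ → Bool → V} {N : ℕ} (h : Chain X u (N + 1)) :
    Chain X u N where
  mem := fun i hi b => h.mem i (by omega) b
  ind := fun i hi => h.ind i (by omega)
  dif := fun i hi => h.dif i (by omega)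
  dne := fun i hi h0 => h.dne i (by omega) h0

private theorem cu_dif {X : Set V} {u : ℕ → Bool → V} {N : ℕ} (h : Chain X u N) {i : ℕ}
    (hi : i < N) (b : Bool) : u i false - u i b ∈ FF u i := by
  cases b
  · simp
  · exact h.dif i hi

private theorem cu_self (u : ℕ → Bool → V) {i N : ℕ} (hi : i < N) : u i false ∈ FF u N :=
  subset_span ⟨i, hi, rfl⟩

private theorem cu_mem {X : Set V} {u : ℕ → Bool → V} {N : ℕ} (h : Chain X u N) {i : ℕ}
    (hi : i < N) (b : Bool) : u i b ∈ FF u N := by
  have h1 := FF_mono u (le_of_lt hi) (cu_dif h hi b)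
  have h2 := sub_mem (cu_self u hi) h1
  simpa using h2

private theorem cu_sum (u : ℕ → Bool → V) (N : ℕ) (f : ℕ → Bool) (α : ℕ → ℚ) (c : ℚ) (b : Bool)
    (w y : V) (hy : y = ∑ i ∈ range N, α i • u i (f i)) (hw : w = y + c • u N b) :
    w = ∑ i ∈ range (N + 1), (Function.update α N c) i • u i ((Function.update f N b) i) := by
  rw [sum_range_succ, hw, hy, Function.update_self, Function.update_self]
  congr 1
  apply sum_congr rfl
  intro i hi
  have : i ≠ N := by
    have := mem_range.mp hi
    (clear * - this; omega)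
  rw [Function.update_of_ne this, Function.update_of_ne this]

private theorem cu_split (u : ℕ → Bool → V) (N : ℕ) {w : V} (hw : w ∈ FF u (N + 1)) :
    ∃ y ∈ FF u N, ∃ c : ℚ, w = y + c • u N false := by
  rw [FF_succ] at hw
  obtain ⟨y, hy, z, hz, rfl⟩ := mem_sup.mp hw
  obtain ⟨c, rfl⟩ := mem_span_singleton.mp hz
  exact ⟨y, hy, c, rfl⟩

private theorem cu_zero (u : ℕ → Bool → V) {w : V} (hw : w ∈ FF u 0) : w = 0 := by
  unfold FF at hw
  simpa using hw

theorem chain_expand {X : Set V} {u : ℕ → Bool → V} {N : ℕ} (h : Chain X u N) (f : ℕ → Bool)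
    {w : V} (hw : w ∈ FF u N) : ∃ α : ℕ → ℚ, w = ∑ i ∈ range N, α i • u i (f i) := by
  induction N generalizing w with
  | zero => exact ⟨fun _ => 0, by simpa using cu_zero u hw⟩
  | succ N ih =>
    obtain ⟨y, hy, c, rfl⟩ := cu_split u N hw
    have hd := cu_dif h (Nat.lt_succ_self N) (f N)
    obtain ⟨α, hα⟩ := ih (cu_pred h) (w := y + c • (u N false - u N (f N)))
      (add_mem hy (smul_mem _ _ hd))
    refine ⟨Function.update α N c, ?_⟩
    have := cu_sum u N f α c (f N) (y + c • u N false) (y + c • (u N false - u N (f N))) hα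
      (by module)
    simpa using this

theorem chain_li {X : Set V} {u : ℕ → Bool → V} {N : ℕ} (h : Chain X u N) (f : ℕ → Bool) :
    LinearIndepOn ℚ (fun i => u i (f i)) (range N : Set ℕ) := by
  induction N with
  | zero => simp
  | succ N ih =>
    have ih' := ih (cu_pred h)
    rw [linearIndepOn_finset_iff] at ih' ⊢
    intro g hg
    rw [sum_range_succ] at hg
    have hmem : ∑ i ∈ range N, g i • u i (f i) ∈ FF u N :=
      sum_mem fun i hi => smul_mem _ _ (cu_mem (cu_pred h) (mem_range.mp hi) _)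
    have hN : g N = 0 := by
      by_contra hne
      apply h.ind N (Nat.lt_succ_self N)
      have h1 : g N • u N (f N) ∈ FF u N := by
        have : g N • u N (f N) = - ∑ i ∈ range N, g i • u i (f i) := by
          rw [eq_neg_iff_add_eq_zero, add_comm]; exact hg
        rw [this]
        exact neg_mem hmem
      have h2 : u N (f N) ∈ FF u N := by
        have := smul_mem (FF u N) (g N)⁻¹ h1
        rwa [smul_smul, inv_mul_cancel₀ hne, one_smul] at this
      have h3 := add_mem (cu_dif h (Nat.lt_succ_self N) (f N)) h2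
      simpa using h3
    rw [hN, zero_smul, add_zero] at hg
    intro i hi
    rcases Nat.lt_succ_iff_lt_or_eq.mp (mem_range.mp hi) with h1 | h1
    · exact ih' g hg i (mem_range.mpr h1)
    · rw [h1]; exact hN

theorem chain_mem {X : Set V} {u : ℕ → Bool → V} {N : ℕ} (h : Chain X u N) (f : ℕ → Bool)
    (α : ℕ → ℚ) : ∑ i ∈ range N, α i • u i (f i) ∈ FF u N := by
  exact sum_mem fun i hi => smul_mem _ _ (cu_mem h (mem_range.mp hi) _)

private theorem cu_lift (u : ℕ → Bool → V) (N : ℕ) {w w' y y' : V} (c c' : ℚ) (b : Bool)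
    (hw : w = y + c • u N b) (hw' : w' = y' + c' • u N b)
    (h : ∃ (f : ℕ → Bool) (α α' : ℕ → ℚ), y = ∑ i ∈ range N, α i • u i (f i) ∧
      y' = ∑ i ∈ range N, α' i • u i (f i) ∧ ∃ i < N, α i ≠ 0 ∧ α' i ≠ 0) :
    ∃ (f : ℕ → Bool) (α α' : ℕ → ℚ), w = ∑ i ∈ range (N + 1), α i • u i (f i) ∧
      w' = ∑ i ∈ range (N + 1), α' i • u i (f i) ∧ ∃ i < N + 1, α i ≠ 0 ∧ α' i ≠ 0 := by
  obtain ⟨f, α, α', h1, h2, i, hi, h3, h4⟩ := h
  refine ⟨Function.update f N b, Function.update α N c, Function.update α' N c',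
    cu_sum u N f α c b w y h1 hw, cu_sum u N f α' c' b w' y' h2 hw', i, by omega, ?_, ?_⟩
  · rwa [Function.update_of_ne (by omega)]
  · rwa [Function.update_of_ne (by omega)]

private theorem cu_one {X : Set V} {u : ℕ → Bool → V} {N : ℕ} (h : Chain X u (N + 1))
    (ih : ∀ {w w' : V}, w ∈ FF u N → w' ∈ FF u N → w ≠ 0 → w' ≠ 0 →
      ∃ (f : ℕ → Bool) (α α' : ℕ → ℚ), w = ∑ i ∈ range N, α i • u i (f i) ∧
      w' = ∑ i ∈ range N, α' i • u i (f i) ∧ ∃ i < N, α i ≠ 0 ∧ α' i ≠ 0)
    {y y' : V} (hy : y ∈ FF u N) (hy' : y' ∈ FF u N) {c : ℚ} (hc : c ≠ 0) (h0' : y' ≠ 0) :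
    ∃ (f : ℕ → Bool) (α α' : ℕ → ℚ), y + c • u N false = ∑ i ∈ range (N + 1), α i • u i (f i) ∧
      y' = ∑ i ∈ range (N + 1), α' i • u i (f i) ∧ ∃ i < N + 1, α i ≠ 0 ∧ α' i ≠ 0 := by
  have hN : 0 < N := by
    rcases Nat.eq_zero_or_pos N with rfl | hN
    · exact absurd (cu_zero u hy') h0'
    · exact hN
  have hne := h.dne N (Nat.lt_succ_self N) hN
  by_cases hy0 : y = 0
  · have hmem : y + c • (u N false - u N true) ∈ FF u N :=
      add_mem hy (smul_mem _ _ (h.dif N (Nat.lt_succ_self N)))
    have hne0 : y + c • (u N false - u N true) ≠ 0 := by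
      rw [hy0, zero_add]
      exact smul_ne_zero hc (sub_ne_zero.mpr hne)
    exact cu_lift u N c 0 true (by module) (by module) (ih hmem hy' hne0 h0')
  · exact cu_lift u N c 0 false (by module) (by module) (ih hy hy' hy0 h0')

theorem chain_cross {X : Set V} {u : ℕ → Bool → V} {N : ℕ} (h : Chain X u N) {w w' : V}
    (hw : w ∈ FF u N) (hw' : w' ∈ FF u N) (h0 : w ≠ 0) (h0' : w' ≠ 0) :
    ∃ (f : ℕ → Bool) (α α' : ℕ → ℚ), w = ∑ i ∈ range N, α i • u i (f i) ∧
      w' = ∑ i ∈ range N, α' i • u i (f i) ∧ ∃ i < N, α i ≠ 0 ∧ α' i ≠ 0 := by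
  induction N generalizing w w' with
  | zero => exact absurd (cu_zero u hw) h0
  | succ N ih =>
    have ih' := fun {w w' : V} => ih (w := w) (w' := w') (cu_pred h)
    obtain ⟨y, hy, c, rfl⟩ := cu_split u N hw
    obtain ⟨y', hy', c', rfl⟩ := cu_split u N hw'
    by_cases hc : c = 0
    · subst hc
      by_cases hc' : c' = 0
      · subst hc'
        simp only [zero_smul, add_zero] at h0 h0'
        exact cu_lift u N 0 0 false rfl rfl (ih' hy hy' h0 h0')
      · simp only [zero_smul, add_zero] at h0 ⊢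
        obtain ⟨f, α, α', h1, h2, i, hi, h3, h4⟩ := cu_one h ih' hy' hy hc' h0
        exact ⟨f, α', α, h2, h1, i, hi, h4, h3⟩
    · by_cases hc' : c' = 0
      · subst hc'
        simp only [zero_smul, add_zero] at h0' ⊢
        exact cu_one h ih' hy hy' hc h0'
      · obtain ⟨α, hα⟩ := chain_expand (cu_pred h) (fun _ => false) hy
        obtain ⟨α', hα'⟩ := chain_expand (cu_pred h) (fun _ => false) hy'
        refine ⟨Function.update (fun _ => false) N false, Function.update α N c,
          Function.update α' N c', cu_sum u N _ α c false _ y hα rfl,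
          cu_sum u N _ α' c' false _ y' hα' rfl, N, Nat.lt_succ_self N, ?_, ?_⟩
        · rwa [Function.update_self]
        · rwa [Function.update_self]

end RC

end

section

/-!
Module RC-C2.  Integrality of coordinates.

`circ_sum_mem`: `a j true` is congruent to `a j false`.
`circ_min`: the same remark and `Circ.min`.
`circ_coord`: the vectors `u i (f i)` (`i < N`) and `a j (g j)` (`j + 1 < k`, that is all `j < k`
except `k - 1`) are independent: a relation gives, modulo `FF u N`, a combination of the `a j`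
with `μ (k-1) = 0`, so all `μ j = 0` (`circ_min`), then `chain_li`.  The vector `a (k-1) (g (k-1))`
is `- ∑_{j < k-1} a j (g j) + ∑ α i • u i (f i)`; apply `uni_coord` (index type `ℕ ⊕ ℕ` or
similar).
`diff_coord`: `e ∉ FF u N`, so `e` together with `u i (f i)` is independent and
`e' = e - ∑ α i • u i (f i)`.
`fst_coord`: `uni_coord` for the family `u i (f i)`.
`circ_notMem`: for `2 ≤ k` apply `Circ.min` to `μ = Pi.single j 1`.
-/

namespace RC

open Submodule Module Finset

variable {V : Type} [AddCommGroup V] [Module ℚ V]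

private theorem ci_dif {X : Set V} {u a : ℕ → Bool → V} {N k : ℕ} (h : Circ X u N a k) {j : ℕ}
    (hj : j < k) (b : Bool) : a j false - a j b ∈ FF u N := by
  cases b
  · simp
  · exact h.dif j hj

theorem circ_sum_mem {X : Set V} {u a : ℕ → Bool → V} {N k : ℕ} (h : Circ X u N a k)
    (g : ℕ → Bool) : ∑ j ∈ range k, a j (g j) ∈ FF u N := by
  have h1 : ∑ j ∈ range k, (a j false - a j (g j)) ∈ FF u N :=
    sum_mem fun j hj => ci_dif h (mem_range.mp hj) _
  have h2 := sub_mem h.sum h1
  rw [sum_sub_distrib] at h2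
  simpa using h2

theorem circ_min {X : Set V} {u a : ℕ → Bool → V} {N k : ℕ} (h : Circ X u N a k)
    (g : ℕ → Bool) (μ : ℕ → ℚ) (hμ : ∑ j ∈ range k, μ j • a j (g j) ∈ FF u N) :
    ∀ i < k, ∀ j < k, μ i = μ j := by
  apply h.min μ
  have h1 : ∑ j ∈ range k, μ j • (a j false - a j (g j)) ∈ FF u N :=
    sum_mem fun j hj => smul_mem _ _ (ci_dif h (mem_range.mp hj) _)
  have h2 := add_mem hμ h1
  rw [← sum_add_distrib] at h2
  have h3 : ∀ j ∈ range k, μ j • a j (g j) + μ j • (a j false - a j (g j)) = μ j • a j false := by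
    intro j _
    module
  rwa [sum_congr rfl h3] at h2

theorem circ_coord {X : Set V} (hU : Uni X) {u a : ℕ → Bool → V} {N k : ℕ}
    (hc : Chain X u N) (h : Circ X u N a k) (f g : ℕ → Bool) (α : ℕ → ℚ)
    (hα : ∑ j ∈ range k, a j (g j) = ∑ i ∈ range N, α i • u i (f i)) :
    ∀ i < N, α i = 0 ∨ α i = 1 ∨ α i = -1 := by
  obtain ⟨m, rfl⟩ : ∃ m, k = m + 1 := ⟨k - 1, by have := h.pos; omega⟩
  intro i hi
  have key := uni_coord hU (Sum.elim (fun i => u i (f i)) (fun j => a j (g j)))
    ((range N).disjSum (range m)) ?_ ?_ (Sum.elim α (fun _ => -1)) ?_ (Sum.inl i) ?_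
  · simpa using key
  · intro x hx
    rcases Finset.mem_disjSum.mp hx with ⟨i, hi, rfl⟩ | ⟨j, hj, rfl⟩
    · exact hc.mem i (mem_range.mp hi) _
    · exact h.mem j (by have := mem_range.mp hj; omega) _
  · rw [linearIndepOn_finset_iff]
    intro c hs
    rw [Finset.sum_disjSum] at hs
    simp only [Sum.elim_inl, Sum.elim_inr] at hs
    have hμ : ∑ j ∈ range (m + 1), (if j < m then c (Sum.inr j) else 0) • a j (g j) ∈ FF u N := by
      rw [sum_range_succ]
      have h1 : ∑ j ∈ range m, (if j < m then c (Sum.inr j) else 0) • a j (g j)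
          = ∑ j ∈ range m, c (Sum.inr j) • a j (g j) := by
        apply sum_congr rfl
        intro j hj
        rw [if_pos (mem_range.mp hj)]
      rw [h1, if_neg (lt_irrefl m), zero_smul, add_zero]
      have h2 : ∑ j ∈ range m, c (Sum.inr j) • a j (g j)
          = - ∑ i ∈ range N, c (Sum.inl i) • u i (f i) := by
        rw [eq_neg_iff_add_eq_zero, add_comm]
        exact hs
      rw [h2]
      exact neg_mem (chain_mem hc f _)
    have h3 := circ_min h g _ hμ
    have h4 : ∀ j < m, c (Sum.inr j) = 0 := by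
      intro j hj
      have := h3 j (by omega) m (by omega)
      simpa [hj] using this
    have h5 : ∑ i ∈ range N, c (Sum.inl i) • u i (f i) = 0 := by
      have h6 : ∑ j ∈ range m, c (Sum.inr j) • a j (g j) = 0 := by
        apply sum_eq_zero
        intro j hj
        rw [h4 j (mem_range.mp hj), zero_smul]
      rwa [h6, add_zero] at hs
    have h7 := chain_li hc f
    rw [linearIndepOn_finset_iff] at h7
    have h8 := h7 (fun i => c (Sum.inl i)) h5
    intro x hx
    rcases Finset.mem_disjSum.mp hx with ⟨i, hi, rfl⟩ | ⟨j, hj, rfl⟩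
    · exact h8 i hi
    · exact h4 j (mem_range.mp hj)
  · rw [Finset.sum_disjSum]
    simp only [Sum.elim_inl, Sum.elim_inr]
    rw [← hα, sum_range_succ]
    have : ∑ x ∈ range m, a x (g x) + a m (g m) + ∑ j ∈ range m, (-1 : ℚ) • a j (g j)
        = a m (g m) := by
      simp only [neg_smul, one_smul, sum_neg_distrib]
      abel
    rw [this]
    exact h.mem m (by omega) _
  · exact Finset.mem_disjSum.mpr (Or.inl ⟨i, mem_range.mpr hi, rfl⟩)

theorem diff_coord {X : Set V} (hU : Uni X) {u : ℕ → Bool → V} {N : ℕ} (hc : Chain X u N)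
    {e e' : V} (he : e ∈ X) (he' : e' ∈ X) (hn : e ∉ FF u N) (f : ℕ → Bool) (α : ℕ → ℚ)
    (hα : e - e' = ∑ i ∈ range N, α i • u i (f i)) :
    ∀ i < N, α i = 0 ∨ α i = 1 ∨ α i = -1 := by
  intro i hi
  have key := uni_coord hU (Sum.elim (fun _ : Unit => e) (fun i => u i (f i)))
    (({()} : Finset Unit).disjSum (range N)) ?_ ?_ (Sum.elim (fun _ => 1) (fun i => - α i)) ?_
    (Sum.inr i) ?_
  · simp only [Sum.elim_inr] at key
    rcases key with h | h | h
    · left; (clear * - h; linarith)
    · right; right; (clear * - h; linarith)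
    · right; left; (clear * - h; linarith)
  · intro x hx
    rcases Finset.mem_disjSum.mp hx with ⟨i, hi, rfl⟩ | ⟨j, hj, rfl⟩
    · exact he
    · exact hc.mem j (mem_range.mp hj) _
  · rw [linearIndepOn_finset_iff]
    intro c hs
    rw [Finset.sum_disjSum] at hs
    simp only [Sum.elim_inl, Sum.elim_inr, sum_singleton] at hs
    have h0 : c (Sum.inl ()) = 0 := by
      by_contra hne
      apply hn
      have h1 : c (Sum.inl ()) • e ∈ FF u N := by
        have : c (Sum.inl ()) • e = - ∑ i ∈ range N, c (Sum.inr i) • u i (f i) := by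
          rw [eq_neg_iff_add_eq_zero]
          exact hs
        rw [this]
        exact neg_mem (chain_mem hc f _)
      have h2 := smul_mem (FF u N) (c (Sum.inl ()))⁻¹ h1
      rwa [smul_smul, inv_mul_cancel₀ hne, one_smul] at h2
    rw [h0, zero_smul, zero_add] at hs
    have h7 := chain_li hc f
    rw [linearIndepOn_finset_iff] at h7
    have h8 := h7 (fun i => c (Sum.inr i)) hs
    intro x hx
    rcases Finset.mem_disjSum.mp hx with ⟨i, hi, rfl⟩ | ⟨j, hj, rfl⟩
    · exact h0
    · exact h8 j hj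
  · rw [Finset.sum_disjSum]
    simp only [Sum.elim_inl, Sum.elim_inr, sum_singleton, one_smul, neg_smul, sum_neg_distrib]
    rw [← hα]
    have : e + -(e - e') = e' := by abel
    rw [this]
    exact he'
  · exact Finset.mem_disjSum.mpr (Or.inr ⟨i, mem_range.mpr hi, rfl⟩)

theorem fst_coord {X : Set V} (hU : Uni X) {u : ℕ → Bool → V} {N : ℕ} (hc : Chain X u N)
    {q : V} (hq : q ∈ X) (f : ℕ → Bool) (α : ℕ → ℚ)
    (hα : q = ∑ i ∈ range N, α i • u i (f i)) :
    ∀ i < N, α i = 0 ∨ α i = 1 ∨ α i = -1 := by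
  intro i hi
  exact uni_coord hU (fun i => u i (f i)) (range N) (fun i hi => hc.mem i (mem_range.mp hi) _)
    (chain_li hc f) α (by rw [← hα]; exact hq) i (mem_range.mpr hi)

theorem circ_notMem {X : Set V} {u a : ℕ → Bool → V} {N k : ℕ} (h : Circ X u N a k)
    (hk : 2 ≤ k) {j : ℕ} (hj : j < k) (b : Bool) : a j b ∉ FF u N := by
  intro hb
  have h0 : a j false ∈ FF u N := by
    have := add_mem (ci_dif h hj b) hb
    simpa using this
  have h1 := h.min (Pi.single j 1) (by
    rw [Finset.sum_eq_single j]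
    · simpa using h0
    · intro i _ hij
      rw [Pi.single_eq_of_ne hij, zero_smul]
    · intro hj'
      exact absurd (mem_range.mpr hj) hj')
  obtain ⟨i, hi, hij⟩ : ∃ i < k, i ≠ j := by
    by_cases h2 : j = 0
    · exact ⟨1, by omega, by omega⟩
    · exact ⟨0, by omega, by omega⟩
  have h3 := h1 i hi j hj
  rw [Pi.single_eq_of_ne hij, Pi.single_eq_same] at h3
  exact zero_ne_one h3

end RC

end

section

/-!
Module RC-C3.  Degenerate configurations.  Write `δ j = a j false - a j true`.

`deg_pair`: `i ≠ j`, `δ i = δ j` or `δ i = - δ j`.  Let `q = ∑_{l<k} a l false`.  Since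
`2 ≤ k`, all `a l b ∉ FF u N` (`circ_notMem`), so the coordinates of `δ i` with respect to every
basis `u l (f l)` are `0, 1, -1` (`diff_coord`); the same holds for all sums
`∑ a l (g l)` (`circ_coord`).
* `δ i = δ j = δ`: let `w = q - δ` = the sum with `g i = true`.  Suppose `w ≠ 0`.
  `chain_cross` for `w, δ` gives a basis and an index with coordinates `w_l ≠ 0`, `δ_l ≠ 0`.
  `q_l = w_l + δ_l`, `w_l`, and `(q - 2 δ)_l = w_l - δ_l` (the sum with `g i = g j = true`) are all
  in `{0,1,-1}`, `δ_l = ± 1`: then `w_l = 0`, contradiction.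
* `δ j = - δ i`: `q`, `q - δ i`, `q + δ i` are sums; if `q ≠ 0` take the index with `q_l ≠ 0`,
  `(δ i)_l ≠ 0`: `q_l, q_l ± (δ i)_l ∈ {0,1,-1}` forces `q_l = 0`, contradiction.

`deg_two`: `k = 2`, `2 q = δ 0 + δ 1`, `q = a 0 false + a 1 false`.  Let `w = q`,
`w' = q - δ 1 = a 0 false + a 1 true`.  `w + w' = δ 0`, `w - w' = δ 1`.  If `w, w' ≠ 0` take the
index with `w_l, w'_l ≠ 0`, both are `± 1`, so `w_l + w'_l` or `w_l - w'_l` is `± 2`, but both
are coordinates of `δ 0`, `δ 1`.  Contradiction; so `w = 0` or `w' = 0`.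
-/

namespace RC

open Submodule Module Finset

variable {V : Type} [AddCommGroup V] [Module ℚ V]

omit [Module ℚ V] in
private theorem cd_upd (a : ℕ → Bool → V) (k : ℕ) (g : ℕ → Bool) {i : ℕ} (hi : i < k)
    (b : Bool) : ∑ l ∈ range k, a l (Function.update g i b l) =
      ∑ l ∈ range k, a l (g l) + (a i b - a i (g i)) := by
  have h1 : (fun l => a l (Function.update g i b l)) =
      Function.update (fun l => a l (g l)) i (a i b) := by
    funext l
    by_cases hl : l = i
    · subst hl
      rw [Function.update_self, Function.update_self]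
    · rw [Function.update_of_ne hl, Function.update_of_ne hl]
  rw [h1, sum_update_of_mem (mem_range.mpr hi), ← add_sum_erase (range k)
    (fun l => a l (g l)) (mem_range.mpr hi), erase_eq]
  abel

private theorem cd_arith {x y : ℚ} (hx0 : x ≠ 0) (hy0 : y ≠ 0) (hx : x = 0 ∨ x = 1 ∨ x = -1)
    (hy : y = 0 ∨ y = 1 ∨ y = -1) (h1 : x + y = 0 ∨ x + y = 1 ∨ x + y = -1)
    (h2 : x - y = 0 ∨ x - y = 1 ∨ x - y = -1) : False := by
  rcases hx with hx | hx | hx
  · exact hx0 hx
  · rcases hy with hy | hy | hy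
    · exact hy0 hy
    · rw [hx, hy] at h1
      norm_num at h1
    · rw [hx, hy] at h2
      norm_num at h2
  · rcases hy with hy | hy | hy
    · exact hy0 hy
    · rw [hx, hy] at h2
      norm_num at h2
    · rw [hx, hy] at h1
      norm_num at h1

private theorem cd_add (u : ℕ → Bool → V) (N : ℕ) (f : ℕ → Bool) (α β : ℕ → ℚ) {x y : V}
    (hx : x = ∑ i ∈ range N, α i • u i (f i)) (hy : y = ∑ i ∈ range N, β i • u i (f i)) :
    x + y = ∑ i ∈ range N, (α i + β i) • u i (f i) := by
  rw [hx, hy, ← sum_add_distrib]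
  exact sum_congr rfl fun i _ => (add_smul _ _ _).symm

private theorem cd_sub (u : ℕ → Bool → V) (N : ℕ) (f : ℕ → Bool) (α β : ℕ → ℚ) {x y : V}
    (hx : x = ∑ i ∈ range N, α i • u i (f i)) (hy : y = ∑ i ∈ range N, β i • u i (f i)) :
    x - y = ∑ i ∈ range N, (α i - β i) • u i (f i) := by
  rw [hx, hy, ← sum_sub_distrib]
  exact sum_congr rfl fun i _ => (sub_smul _ _ _).symm

theorem deg_pair {X : Set V} (hU : Uni X) {u a : ℕ → Bool → V} {N k : ℕ} (hc : Chain X u N)
    (h : Circ X u N a k) {i j : ℕ} (hi : i < k) (hj : j < k) (hij : i ≠ j)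
    (hd : a i false - a i true = a j false - a j true ∨
      a i false - a i true = -(a j false - a j true)) :
    ∃ g : ℕ → Bool, ∑ l ∈ range k, a l (g l) = 0 := by
  have hk : 2 ≤ k := by omega
  have hδ0 : a i false - a i true ≠ 0 := sub_ne_zero.mpr (h.dne i hi)
  have hδF := h.dif i hi
  have hq : ∑ l ∈ range k, a l ((fun _ : ℕ => false) l) = ∑ l ∈ range k, a l false := rfl
  have s1 : ∑ l ∈ range k, a l (Function.update (fun _ : ℕ => false) i true l) =
      ∑ l ∈ range k, a l false - (a i false - a i true) := by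
    rw [cd_upd a k _ hi true]
    abel
  have s2 : ∑ l ∈ range k, a l (Function.update (fun _ : ℕ => false) j true l) =
      ∑ l ∈ range k, a l false - (a j false - a j true) := by
    rw [cd_upd a k _ hj true]
    abel
  have s3 : ∑ l ∈ range k, a l (Function.update
      (Function.update (fun _ : ℕ => false) i true) j true l) =
      ∑ l ∈ range k, a l false - (a i false - a i true) - (a j false - a j true) := by
    rw [cd_upd a k _ hj true, cd_upd a k _ hi true, Function.update_of_ne hij.symm]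
    abel
  rcases hd with hd | hd
  · by_cases hw : ∑ l ∈ range k, a l (Function.update (fun _ : ℕ => false) i true l) = 0
    · exact ⟨_, hw⟩
    exfalso
    obtain ⟨f, α, β, e1, e2, m, hm, hα, hβ⟩ :=
      chain_cross hc (circ_sum_mem h _) hδF hw hδ0
    have c1 := circ_coord hU hc h f _ α e1 m hm
    have c2 := diff_coord hU hc (h.mem i hi false) (h.mem i hi true)
      (circ_notMem h hk hi false) f β e2 m hm
    have e3 := cd_add u N f α β e1 e2
    have e4 := cd_sub u N f α β e1 e2
    have c3 := circ_coord hU hc h f (fun _ : ℕ => false) (fun i => α i + β i)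
      (by rw [← e3, s1]; abel) m hm
    have c4 := circ_coord hU hc h f
      (Function.update (Function.update (fun _ : ℕ => false) i true) j true)
      (fun i => α i - β i) (by rw [← e4, s1, s3, ← hd]) m hm
    exact cd_arith hα hβ c1 c2 c3 c4
  · by_cases hw : ∑ l ∈ range k, a l ((fun _ : ℕ => false) l) = 0
    · exact ⟨_, hw⟩
    exfalso
    obtain ⟨f, α, β, e1, e2, m, hm, hα, hβ⟩ :=
      chain_cross hc (circ_sum_mem h _) hδF hw hδ0
    have c1 := circ_coord hU hc h f _ α e1 m hm
    have c2 := diff_coord hU hc (h.mem i hi false) (h.mem i hi true)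
      (circ_notMem h hk hi false) f β e2 m hm
    have e3 := cd_add u N f α β e1 e2
    have e4 := cd_sub u N f α β e1 e2
    have hd' : a j false - a j true = -(a i false - a i true) := by rw [hd, neg_neg]
    have c3 := circ_coord hU hc h f (Function.update (fun _ : ℕ => false) j true)
      (fun i => α i + β i) (by rw [← e3, s2, hd', sub_neg_eq_add]) m hm
    have c4 := circ_coord hU hc h f (Function.update (fun _ : ℕ => false) i true)
      (fun i => α i - β i) (by rw [← e4, s1]) m hm
    exact cd_arith hα hβ c1 c2 c3 c4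

theorem deg_two {X : Set V} (hU : Uni X) {u a : ℕ → Bool → V} {N : ℕ} (hc : Chain X u N)
    (h : Circ X u N a 2)
    (hd : (2 : ℚ) • (a 0 false + a 1 false) =
      (a 0 false - a 0 true) + (a 1 false - a 1 true)) :
    ∃ g : ℕ → Bool, ∑ l ∈ range 2, a l (g l) = 0 := by
  have s0 : ∑ l ∈ range 2, a l ((fun _ : ℕ => false) l) = a 0 false + a 1 false := by
    rw [sum_range_succ, sum_range_one]
  have s1 : ∑ l ∈ range 2, a l (Function.update (fun _ : ℕ => false) 1 true l) =
      a 0 false + a 1 true := by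
    rw [cd_upd a 2 _ (by norm_num : 1 < 2) true, s0]
    abel
  by_cases hw : ∑ l ∈ range 2, a l ((fun _ : ℕ => false) l) = 0
  · exact ⟨_, hw⟩
  by_cases hw' : ∑ l ∈ range 2, a l (Function.update (fun _ : ℕ => false) 1 true l) = 0
  · exact ⟨_, hw'⟩
  exfalso
  obtain ⟨f, α, β, e1, e2, m, hm, hα, hβ⟩ :=
    chain_cross hc (circ_sum_mem h _) (circ_sum_mem h _) hw hw'
  have c1 := circ_coord hU hc h f _ α e1 m hm
  have c2 := circ_coord hU hc h f _ β e2 m hm
  have e3 := cd_add u N f α β e1 e2
  have e4 := cd_sub u N f α β e1 e2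
  rw [s0, s1] at e3 e4
  have h2 : a 0 false + a 1 false + (a 0 false + a 1 false) =
      (a 0 false - a 0 true) + (a 1 false - a 1 true) := by
    rw [← hd, two_smul]
  have c3 := diff_coord hU hc (h.mem 0 (by norm_num) false) (h.mem 0 (by norm_num) true)
    (circ_notMem h le_rfl (by norm_num) false) f (fun i => α i + β i)
    (by
      rw [← e3]
      have h3 : a 0 false - a 0 true = (a 0 false - a 0 true) + (a 1 false - a 1 true) -
          (a 1 false - a 1 true) := by abel
      rw [h3, ← h2]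
      abel) m hm
  have c4 := diff_coord hU hc (h.mem 1 (by norm_num) false) (h.mem 1 (by norm_num) true)
    (circ_notMem h le_rfl (by norm_num) false) f (fun i => α i - β i)
    (by rw [← e4]; abel) m hm
  exact cd_arith hα hβ c1 c2 c3 c4

/-- A vanishing sum is a relation with `k` vectors. -/
theorem relP_of_sum {u a : ℕ → Bool → V} {N k m : ℕ} (hk : 0 < k) (hm : k ≤ m)
    (h : ∃ g : ℕ → Bool, ∑ l ∈ range k, a l (g l) = 0) : RelP u a N k m := by
  obtain ⟨g, hg⟩ := h
  refine ⟨fun _ => 0, fun _ => 1, fun _ => false, g, Or.inr ⟨0, hk, one_ne_zero⟩, ?_, ?_⟩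
  · simpa using hg
  · have h1 : ((range k).filter (fun _ : ℕ => (1 : ℚ) ≠ 0)).card ≤ k := by
      have := card_filter_le (range k) (fun _ : ℕ => (1 : ℚ) ≠ 0)
      rwa [card_range] at this
    have h2 : ((range N).filter (fun _ : ℕ => (0 : ℚ) ≠ 0)).card = 0 := by simp
    rw [h2, zero_add]
    exact h1.trans hm

end RC

end

section

/-!
Module RC-C4.  Renaming of the pairs: permutations `σ` of the indices (`σ` maps `range k`
bijectively to itself) and exchanges of the two vectors of a pair (`τ`).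
All proofs are rewriting of finite sums (`Finset.sum_bij`, `Finset.sum_nbij`); for the flips use
that `a j true - a j false ∈ FF u N`.
-/

namespace RC

open Submodule Module Finset

variable {V : Type} [AddCommGroup V] [Module ℚ V]

theorem costSym_sum {M : Type} [AddCommMonoid M] {k : ℕ} (σ : Equiv.Perm ℕ)
    (hσ : ∀ j, j < k ↔ σ j < k) (F : ℕ → M) :
    ∑ j ∈ range k, F (σ j) = ∑ j ∈ range k, F j :=
  Finset.sum_equiv σ (fun j => by simp [hσ j]) (fun _ _ => rfl)

theorem costSym_card {k : ℕ} (σ : Equiv.Perm ℕ) (hσ : ∀ j, j < k ↔ σ j < k) (μ : ℕ → ℚ) :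
    ((range k).filter (fun j => μ (σ.symm j) ≠ 0)).card =
      ((range k).filter (fun j => μ j ≠ 0)).card := by
  symm
  apply Finset.card_equiv σ
  intro j
  simp [hσ j]

theorem costSym_ext (α : ℕ → ℚ) (N : ℕ) (w : ℕ → V) :
    ∑ i ∈ range (N + 1), (if i < N then α i else 0) • w i = ∑ i ∈ range N, α i • w i := by
  rw [Finset.sum_range_succ]
  simp only [lt_irrefl, if_false, zero_smul, add_zero]
  apply Finset.sum_congr rfl
  intro i hi
  rw [if_pos (Finset.mem_range.1 hi)]

theorem costSym_extcard (α : ℕ → ℚ) (N : ℕ) :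
    ((range (N + 1)).filter (fun i => (if i < N then α i else 0) ≠ 0)).card =
      ((range N).filter (fun i => α i ≠ 0)).card := by
  congr 1
  ext i
  simp only [Finset.mem_filter, Finset.mem_range]
  constructor
  · rintro ⟨_, h2⟩
    by_cases hi : i < N
    · rw [if_pos hi] at h2
      exact ⟨hi, h2⟩
    · rw [if_neg hi] at h2
      exact absurd rfl h2
  · rintro ⟨h1, h2⟩
    rw [if_pos h1]
    exact ⟨by omega, h2⟩

theorem circ_perm {X : Set V} {u a : ℕ → Bool → V} {N k : ℕ} (h : Circ X u N a k)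
    (σ : Equiv.Perm ℕ) (hσ : ∀ j, j < k ↔ σ j < k) : Circ X u N (fun j b => a (σ j) b) k where
  pos := h.pos
  mem j hj b := h.mem (σ j) ((hσ j).1 hj) b
  dif j hj := h.dif (σ j) ((hσ j).1 hj)
  dne j hj := h.dne (σ j) ((hσ j).1 hj)
  one hk := by
    have h0 : σ 0 = 0 := by
      have := (hσ 0).1 h.pos
      omega
    simp only [h0]
    exact h.one hk
  sum := by
    rw [costSym_sum σ hσ (fun j => a j false)]
    exact h.sum
  min μ hμ i hi j hj := by
    have h1 : ∑ j ∈ range k, μ j • a (σ j) false =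
        ∑ j ∈ range k, μ (σ.symm j) • a j false := by
      rw [← costSym_sum σ hσ (fun j => μ (σ.symm j) • a j false)]
      simp
    have h2 := h.min (fun j => μ (σ.symm j)) (h1 ▸ hμ) (σ i) ((hσ i).1 hi) (σ j)
      ((hσ j).1 hj)
    simpa using h2

theorem relP_perm {u a : ℕ → Bool → V} {N k m : ℕ} (σ : Equiv.Perm ℕ)
    (hσ : ∀ j, j < k ↔ σ j < k) (h : RelP u (fun j b => a (σ j) b) N k m) :
    RelP u a N k m := by
  obtain ⟨α, μ, f, g, h1, h2, h3⟩ := h
  refine ⟨α, fun j => μ (σ.symm j), f, fun j => g (σ.symm j), ?_, ?_, ?_⟩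
  · rcases h1 with h1 | ⟨j, hj, h1⟩
    · exact Or.inl h1
    · refine Or.inr ⟨σ j, (hσ j).1 hj, ?_⟩
      simpa using h1
  · rw [← costSym_sum σ hσ (fun j => μ (σ.symm j) • a j (g (σ.symm j)))]
    simpa using h2
  · rw [costSym_card σ hσ μ]
    exact h3

theorem circ_flip {X : Set V} {u a : ℕ → Bool → V} {N k : ℕ} (h : Circ X u N a k)
    (τ : ℕ → Bool) : Circ X u N (fun j b => a j (xor b (τ j))) k where
  pos := h.pos
  mem j hj b := h.mem j hj _
  dif j hj := by
    cases hτ : τ j
    · simpa [hτ] using h.dif j hj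
    · have := (FF u N).neg_mem (h.dif j hj)
      simpa [hτ] using this
  dne j hj := by
    cases hτ : τ j
    · simpa [hτ] using h.dne j hj
    · simpa [hτ] using (h.dne j hj).symm
  one hk := by
    obtain ⟨h1, h2, h3⟩ := h.one hk
    cases hτ : τ 0
    · simpa [hτ] using ⟨h1, h2, h3⟩
    · have h4 : a 0 true ≠ -a 0 false := fun h => h3 (by rw [h, neg_neg])
      simpa [hτ] using ⟨h2, h1, h4⟩
  sum := circ_sum_mem h (fun j => xor false (τ j))
  min μ hμ := circ_min h (fun j => xor false (τ j)) μ hμ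

theorem relP_flip {u a : ℕ → Bool → V} {N k m : ℕ} (τ : ℕ → Bool)
    (h : RelP u (fun j b => a j (xor b (τ j))) N k m) : RelP u a N k m := by
  obtain ⟨α, μ, f, g, h1, h2, h3⟩ := h
  exact ⟨α, μ, f, fun j => xor (g j) (τ j), h1, h2, h3⟩

/-- More room. -/
theorem relP_mono {u a : ℕ → Bool → V} {N k m m' : ℕ} (hm : m ≤ m')
    (h : RelP u a N k m) : RelP u a N k m' := by
  obtain ⟨α, μ, f, g, h1, h2, h3⟩ := h
  exact ⟨α, μ, f, g, h1, h2, h3.trans hm⟩

/-- One more level, not used. -/
theorem relP_succ {u a : ℕ → Bool → V} {N k m : ℕ}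
    (h : RelP u a N k m) : RelP u a (N + 1) k m := by
  obtain ⟨α, μ, f, g, h1, h2, h3⟩ := h
  refine ⟨fun i => if i < N then α i else 0, μ, f, g, ?_, ?_, ?_⟩
  · rcases h1 with ⟨i, hi, h1⟩ | h1
    · refine Or.inl ⟨i, by omega, ?_⟩
      simp only [hi, if_true]
      exact h1
    · exact Or.inr h1
  · rw [costSym_ext α N (fun i => u i (f i))]
    exact h2
  · rw [costSym_extcard]
    exact h3

theorem relQ_succ {u : ℕ → Bool → V} {q : V} {N m : ℕ}
    (h : RelQ u q N m) : RelQ u q (N + 1) m := by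
  obtain ⟨α, f, h1, h2⟩ := h
  refine ⟨fun i => if i < N then α i else 0, f, ?_, ?_⟩
  · rw [costSym_ext α N (fun i => u i (f i))]
    exact h1
  · rw [costSym_extcard]
    exact h2

end RC

end

section

/-!
Module RC-C8.  Top coordinates.  Chain of length `N + 1`, `k ≥ 2` pairs.

`top_coord`: `w ∈ FF u (N+1) = FF u N ⊔ span {u N false}`.
`dirs`: choose `γ j` with `(a j false - a j true) - γ j • u N false ∈ FF u N` and `c0` with
`∑ a j false - c0 • u N false ∈ FF u N`.  For `S ⊆ range k` the sum with `g = true` on `S`,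
`false` elsewhere, has top coordinate `c0 - ∑_S γ j`, which is the coordinate at level `N` in the
basis `u i false`, `i < N + 1` (coordinates are unique, `chain_li`), so it is `0,1,-1` by
`circ_coord`.  `γ j ∈ {0,1,-1}` by `diff_coord`.
At most two `γ j` are nonzero: if three are nonzero, take `S` = those among them with `γ = 1` and
`S'` = those with `γ = -1`: the two values differ by `3`.
The case distinction: no nonzero `γ` and `c0 = 0`; no nonzero `γ` and `c0 = ± 1`; exactly one,
`γ j ≠ 0`; exactly two.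
-/

namespace RC

open Submodule Module Finset

variable {V : Type} [AddCommGroup V] [Module ℚ V]

theorem top_coord {u : ℕ → Bool → V} {N : ℕ} {w : V} (hw : w ∈ FF u (N + 1)) :
    ∃ c : ℚ, w - c • u N false ∈ FF u N := by
  rw [FF_succ] at hw
  obtain ⟨y, hy, z, hz, rfl⟩ := mem_sup.mp hw
  obtain ⟨c, rfl⟩ := mem_span_singleton.mp hz
  exact ⟨c, by simpa using hy⟩

private theorem cd_pred {X : Set V} {u : ℕ → Bool → V} {N : ℕ} (h : Chain X u (N + 1)) :
    Chain X u N where
  mem := fun i hi b => h.mem i (by omega) b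
  ind := fun i hi => h.ind i (by omega)
  dif := fun i hi => h.dif i (by omega)
  dne := fun i hi h0 => h.dne i (by omega) h0

/-- an element with top coordinate `c` as a combination of the `u i false` -/
private theorem cd_expand {X : Set V} {u : ℕ → Bool → V} {N : ℕ} (h : Chain X u (N + 1)) {w : V}
    {c : ℚ} (hw : w - c • u N false ∈ FF u N) :
    ∃ α : ℕ → ℚ, α N = c ∧ w = ∑ i ∈ range (N + 1), α i • u i ((fun _ => false) i) := by
  obtain ⟨α, hα⟩ := chain_expand (cd_pred h) (fun _ => false) hw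
  refine ⟨Function.update α N c, Function.update_self .., ?_⟩
  rw [sum_range_succ, Function.update_self]
  have : ∑ i ∈ range N, Function.update α N c i • u i false = ∑ i ∈ range N, α i • u i false := by
    apply sum_congr rfl
    intro i hi
    have : i ≠ N := by
      have := mem_range.mp hi
      omega
    rw [Function.update_of_ne this]
  rw [this, ← hα]
  simp

theorem dirs {X : Set V} (hU : Uni X) {u a : ℕ → Bool → V} {N k : ℕ}
    (hc : Chain X u (N + 1)) (h : Circ X u (N + 1) a k) (hk : 2 ≤ k) :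
    ∃ (γ : ℕ → ℚ) (c0 : ℚ),
      (∀ j < k, (a j false - a j true) - γ j • u N false ∈ FF u N) ∧
      (∑ j ∈ range k, a j false) - c0 • u N false ∈ FF u N ∧
      (∀ j < k, γ j = 0 ∨ γ j = 1 ∨ γ j = -1) ∧
      (∀ S ⊆ range k, c0 - ∑ j ∈ S, γ j = 0 ∨ c0 - ∑ j ∈ S, γ j = 1 ∨
        c0 - ∑ j ∈ S, γ j = -1) ∧
      ((∀ j < k, γ j = 0) ∨ (∃ i < k, γ i ≠ 0 ∧ ∀ j < k, j ≠ i → γ j = 0) ∨
        (∃ i < k, ∃ i' < k, i ≠ i' ∧ γ i ≠ 0 ∧ γ i' ≠ 0 ∧
          ∀ j < k, j ≠ i → j ≠ i' → γ j = 0)) := by
  classical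
  have hex : ∀ j, ∃ c : ℚ, j < k → (a j false - a j true) - c • u N false ∈ FF u N := by
    intro j
    by_cases hj : j < k
    · obtain ⟨c, hc'⟩ := top_coord (h.dif j hj)
      exact ⟨c, fun _ => hc'⟩
    · exact ⟨0, fun h' => absurd h' hj⟩
  choose γ hγ using hex
  obtain ⟨c0, hc0⟩ := top_coord h.sum
  have h3 : ∀ j < k, γ j = 0 ∨ γ j = 1 ∨ γ j = -1 := by
    intro j hj
    obtain ⟨α, hαN, hα⟩ := cd_expand hc (hγ j hj)
    have := diff_coord hU hc (h.mem j hj false) (h.mem j hj true) (circ_notMem h hk hj false)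
      (fun _ => false) α hα N (Nat.lt_succ_self N)
    rwa [hαN] at this
  have h4 : ∀ S ⊆ range k, c0 - ∑ j ∈ S, γ j = 0 ∨ c0 - ∑ j ∈ S, γ j = 1 ∨
      c0 - ∑ j ∈ S, γ j = -1 := by
    intro S hS
    have key : (∑ j ∈ range k, a j (decide (j ∈ S))) - (c0 - ∑ j ∈ S, γ j) • u N false ∈
        FF u N := by
      have e1 : ∑ j ∈ range k, a j (decide (j ∈ S)) =
          ∑ j ∈ range k, a j false - ∑ j ∈ S, (a j false - a j true) := by
        have e2 : ∑ j ∈ S, (a j false - a j true) =
            ∑ j ∈ range k, if j ∈ S then (a j false - a j true) else 0 := by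
          rw [← sum_filter]
          apply sum_congr _ fun _ _ => rfl
          ext j
          simp only [mem_filter]
          exact ⟨fun hj => ⟨hS hj, hj⟩, fun hj => hj.2⟩
        rw [e2, ← sum_sub_distrib]
        apply sum_congr rfl
        intro j _
        by_cases hj : j ∈ S
        · simp [hj]
        · simp [hj]
      have e3 : (∑ j ∈ range k, a j (decide (j ∈ S))) - (c0 - ∑ j ∈ S, γ j) • u N false =
          ((∑ j ∈ range k, a j false) - c0 • u N false) -
            ∑ j ∈ S, ((a j false - a j true) - γ j • u N false) := by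
        rw [e1, sum_sub_distrib (f := fun j => a j false - a j true), sub_smul, sum_smul]
        abel
      rw [e3]
      exact sub_mem hc0 (sum_mem fun j hj => hγ j (mem_range.mp (hS hj)))
    obtain ⟨α, hαN, hα⟩ := cd_expand hc key
    have := circ_coord hU hc h (fun _ => false) (fun j => decide (j ∈ S)) α hα N
      (Nat.lt_succ_self N)
    rwa [hαN] at this
  refine ⟨γ, c0, hγ, hc0, h3, h4, ?_⟩
  -- at most two of the coordinates are nonzero
  have hP := h4 ((range k).filter fun j => γ j = 1) (filter_subset _ _)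
  have hM := h4 ((range k).filter fun j => γ j = -1) (filter_subset _ _)
  have sP : ∑ j ∈ (range k).filter (fun j => γ j = 1), γ j =
      (((range k).filter fun j => γ j = 1).card : ℚ) := by
    rw [sum_congr rfl (g := fun _ => (1 : ℚ)) fun j hj => (mem_filter.mp hj).2]
    simp
  have sM : ∑ j ∈ (range k).filter (fun j => γ j = -1), γ j =
      -(((range k).filter fun j => γ j = -1).card : ℚ) := by
    rw [sum_congr rfl (g := fun _ => (-1 : ℚ)) fun j hj => (mem_filter.mp hj).2]
    simp
  rw [sP] at hP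
  rw [sM] at hM
  have hsum : (((range k).filter fun j => γ j = 1).card : ℚ) +
      (((range k).filter fun j => γ j = -1).card : ℚ) ≤ 2 := by
    rcases hP with hP | hP | hP <;> rcases hM with hM | hM | hM <;> (clear * - hP hM; linarith)
  have hsum' : ((range k).filter fun j => γ j = 1).card +
      ((range k).filter fun j => γ j = -1).card ≤ 2 := by exact_mod_cast hsum
  have hT : (range k).filter (fun j => γ j ≠ 0) ⊆
      (range k).filter (fun j => γ j = 1) ∪ (range k).filter (fun j => γ j = -1) := by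
    intro j hj
    obtain ⟨hj1, hj2⟩ := mem_filter.mp hj
    rcases h3 j (mem_range.mp hj1) with h0 | h0 | h0
    · exact absurd h0 hj2
    · exact mem_union_left _ (mem_filter.mpr ⟨hj1, h0⟩)
    · exact mem_union_right _ (mem_filter.mpr ⟨hj1, h0⟩)
  have hcard : ((range k).filter fun j => γ j ≠ 0).card ≤ 2 :=
    (card_le_card hT).trans ((card_union_le _ _).trans hsum')
  have hmem : ∀ j, j ∈ (range k).filter (fun j => γ j ≠ 0) ↔ j < k ∧ γ j ≠ 0 := by
    intro j
    rw [mem_filter, mem_range]
  have hcases : ((range k).filter fun j => γ j ≠ 0).card = 0 ∨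
      ((range k).filter fun j => γ j ≠ 0).card = 1 ∨
      ((range k).filter fun j => γ j ≠ 0).card = 2 := by omega
  rcases hcases with h0 | h0 | h0
  · left
    intro j hj
    by_contra hne
    have := (hmem j).mpr ⟨hj, hne⟩
    rw [card_eq_zero.mp h0] at this
    exact absurd this (notMem_empty _)
  · right; left
    obtain ⟨i, hi⟩ := card_eq_one.mp h0
    have hi' : i ∈ (range k).filter (fun j => γ j ≠ 0) := by rw [hi]; exact mem_singleton_self i
    obtain ⟨hik, hine⟩ := (hmem i).mp hi'
    refine ⟨i, hik, hine, ?_⟩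
    intro j hj hji
    by_contra hne
    have := (hmem j).mpr ⟨hj, hne⟩
    rw [hi, mem_singleton] at this
    exact hji this
  · right; right
    obtain ⟨i, i', hii, hi⟩ := card_eq_two.mp h0
    have hi1 : i ∈ (range k).filter (fun j => γ j ≠ 0) := by rw [hi]; simp
    have hi2 : i' ∈ (range k).filter (fun j => γ j ≠ 0) := by rw [hi]; simp
    obtain ⟨hik, hine⟩ := (hmem i).mp hi1
    obtain ⟨hik', hine'⟩ := (hmem i').mp hi2
    refine ⟨i, hik, i', hik', hii, hine, hine', ?_⟩
    intro j hj hji hji'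
    by_contra hne
    have := (hmem j).mpr ⟨hj, hne⟩
    rw [hi, mem_insert, mem_singleton] at this
    rcases this with h1 | h1
    · exact hji h1
    · exact hji' h1

end RC

end
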