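import Pool.Agent.Helper29.MFA.T01

section

/-!
Module RC-U3.  Unimodular sets and planes.

`uni_plane`: write `x = α p + β q`; by `uni_coord` for the basis `p, q` both are `0, 1, -1`;
for the basis `p, p + q`: `x = (α - β) p + β (p + q)`, so `α - β` is `0, 1, -1`.

`uni_cut`: let `U = span A ⊓ span {p, q}`.  If `U = ⊥` or `U` is the plane, done; otherwise
`finrank U = 1`.  Let `x ≠ 0` in `U`, `x = α p + β q`.  Choose a finite independent subset
`A₀ ⊆ A` with `x ∈ span A₀`.
* If `p ∈ span A` then `p ∈ U`, so `U = span {p}`.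
* Otherwise `p ∉ span A₀`, `β ≠ 0` (else `x = α p`), so `q = - (α/β) p + (1/β) x` and the
  coordinate of `q` at `p` in the basis `A₀ ∪ {p}` is `λ = - α/β`; the coordinate of `p + q` is
  `1 + λ`.  Both are `0, 1, -1`, so `λ = 0` (then `α = 0`, `U = span {q}`) or `λ = -1` (then
  `α = β`, `U = span {p + q}`).
-/

namespace RC

open Submodule Module

variable {V : Type} [AddCommGroup V] [Module ℚ V]

theorem uni_plane {X : Set V} (hX : Uni X) {p q x : V} (hp : p ∈ X) (hq : q ∈ X)
    (hs : p + q ∈ X) (li : LinearIndependent ℚ ![p, q]) (hx : x ∈ X) (hxs : x ∈ span ℚ {p, q}) :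
    x = 0 ∨ x = p ∨ x = -p ∨ x = q ∨ x = -q ∨ x = p + q ∨ x = -(p + q) := by
  obtain ⟨α, β, rfl⟩ := mem_span_pair.1 hxs
  have li' : LinearIndependent ℚ ![p, p + q] := by
    rw [LinearIndependent.pair_iff] at li ⊢
    intro s t hst
    have h1 := li (s + t) t (by rw [← hst]; module)
    exact ⟨by (clear * - h1; linarith [h1.1, h1.2]), h1.2⟩
  have h1 := uni_coord hX ![p, q] Finset.univ
    (by intro i _; fin_cases i <;> simp [hp, hq])
    (by rw [Finset.coe_univ, linearIndepOn_univ_iff]; exact li) ![α, β]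
    (by simpa [Fin.sum_univ_two] using hx)
  have h2 := uni_coord hX ![p, p + q] Finset.univ
    (by intro i _; fin_cases i <;> simp [hp, hs])
    (by rw [Finset.coe_univ, linearIndepOn_univ_iff]; exact li') ![α - β, β]
    (by
      have h3 : ∑ i : Fin 2, (![α - β, β] : Fin 2 → ℚ) i • (![p, p + q] : Fin 2 → V) i
          = α • p + β • q := by
        simp only [Fin.sum_univ_two, Matrix.cons_val_zero, Matrix.cons_val_one]
        module
      rw [h3]
      exact hx)
  have ha := h1 0 (Finset.mem_univ _)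
  have hb := h1 1 (Finset.mem_univ _)
  have hc := h2 0 (Finset.mem_univ _)
  simp only [Matrix.cons_val_zero, Matrix.cons_val_one] at ha hb hc
  rcases ha with rfl | rfl | rfl <;> rcases hb with rfl | rfl | rfl
  · left; simp
  · right; right; right; left; simp
  · right; right; right; right; left; simp
  · right; left; simp
  · right; right; right; right; right; left; simp
  · exfalso; rcases hc with hc | hc | hc <;> norm_num at hc
  · right; right; left; simp
  · exfalso; rcases hc with hc | hc | hc <;> norm_num at hc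
  · right; right; right; right; right; right; simp only [neg_smul, one_smul]; abel

/-- The coordinate of a vector of `X` at `p`. -/
theorem uni_cut_coord {A X : Set V} {p : V} (hX : Uni X) (hA : A ⊆ X) (hp : p ∈ X)
    (hpA : p ∉ span ℚ A) {x : V} (hx : x ∈ span ℚ A) (l : ℚ) (h : l • p + x ∈ X) :
    l = 0 ∨ l = 1 ∨ l = -1 := by
  classical
  obtain ⟨b, hbA, hbs, hbl⟩ := exists_linearIndependent ℚ A
  rw [← hbs] at hx
  obtain ⟨T, hT, hxT⟩ := Submodule.mem_span_finite_of_mem_span hx
  have hTl : LinearIndepOn ℚ id (T : Set V) := LinearIndepOn.mono hbl hT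
  have hTA : (T : Set V) ⊆ A := hT.trans hbA
  have hpT : p ∉ span ℚ (T : Set V) := fun h1 => hpA (span_mono hTA h1)
  have hpT' : p ∉ T := fun h1 => hpT (subset_span (Finset.mem_coe.2 h1))
  obtain ⟨c, hc⟩ := (Submodule.mem_span_finset (R := ℚ)).1 hxT
  have hli : LinearIndepOn ℚ id ((insert p T : Finset V) : Set V) := by
    rw [Finset.coe_insert]
    exact hTl.id_insert hpT
  have hsub : ((insert p T : Finset V) : Set V) ⊆ X := by
    rw [Finset.coe_insert]
    intro y hy
    rcases hy with rfl | hy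
    · exact hp
    · exact hA (hTA hy)
  have hsum : ∑ a ∈ insert p T, (if a = p then l else c a) • a = l • p + x := by
    rw [Finset.sum_insert hpT', if_pos rfl, ← hc.2]
    congr 1
    refine Finset.sum_congr rfl fun a ha => ?_
    have h2 : a ≠ p := by
      rintro rfl
      exact hpT' ha
    rw [if_neg h2]
  have h1 := hX (insert p T) (fun a => if a = p then l else c a) hsub hli
    (by rw [hsum]; exact h) p (Finset.mem_insert_self _ _)
  simpa using h1

theorem uni_cut {A : Set V} {p q : V} (hX : Uni (A ∪ {p, q, p + q}))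
    (li : LinearIndependent ℚ ![p, q]) :
    span ℚ A ⊓ span ℚ {p, q} = ⊥ ∨ span ℚ A ⊓ span ℚ {p, q} = span ℚ {p} ∨
      span ℚ A ⊓ span ℚ {p, q} = span ℚ {q} ∨ span ℚ A ⊓ span ℚ {p, q} = span ℚ {p + q} ∨
      span ℚ A ⊓ span ℚ {p, q} = span ℚ {p, q} := by
  have hAX : A ⊆ A ∪ {p, q, p + q} := Set.subset_union_left
  have hpX : p ∈ A ∪ {p, q, p + q} := Or.inr (by simp)
  have hqX : q ∈ A ∪ {p, q, p + q} := Or.inr (by simp)
  have hsX : p + q ∈ A ∪ {p, q, p + q} := Or.inr (by simp)
  have hpP : p ∈ span ℚ {p, q} := subset_span (by simp)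
  have hqP : q ∈ span ℚ {p, q} := subset_span (by simp)
  have hdiv : ∀ (t : ℚ) (y : V), t ≠ 0 → t • y ∈ span ℚ A → y ∈ span ℚ A := by
    intro t y ht hy
    have h1 := Submodule.smul_mem (span ℚ A) t⁻¹ hy
    rwa [smul_smul, inv_mul_cancel₀ ht, one_smul] at h1
  by_cases hp : p ∈ span ℚ A
  · by_cases hq : q ∈ span ℚ A
    · right; right; right; right
      apply inf_eq_right.2
      rw [span_le]
      intro y hy
      rcases hy with rfl | hy
      · exact hp
      · rw [Set.mem_singleton_iff] at hy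
        rw [hy]
        exact hq
    · right; left
      apply le_antisymm
      · rintro x ⟨hxA, hxP⟩
        obtain ⟨α, β, rfl⟩ := mem_span_pair.1 hxP
        have h1 : β • q ∈ span ℚ A := by
          have h2 := Submodule.sub_mem _ hxA (Submodule.smul_mem _ α hp)
          rwa [add_sub_cancel_left] at h2
        have h3 : β = 0 := by
          by_contra h4
          exact hq (hdiv β q h4 h1)
        rw [h3, zero_smul, add_zero]
        exact Submodule.smul_mem _ _ (mem_span_singleton_self p)
      · rw [span_singleton_le_iff_mem]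
        exact ⟨hp, hpP⟩
  by_cases hq : q ∈ span ℚ A
  · right; right; left
    apply le_antisymm
    · rintro x ⟨hxA, hxP⟩
      obtain ⟨α, β, rfl⟩ := mem_span_pair.1 hxP
      have h1 : α • p ∈ span ℚ A := by
        have h2 := Submodule.sub_mem _ hxA (Submodule.smul_mem _ β hq)
        rwa [add_sub_cancel_right] at h2
      have h3 : α = 0 := by
        by_contra h4
        exact hp (hdiv α p h4 h1)
      rw [h3, zero_smul, zero_add]
      exact Submodule.smul_mem _ _ (mem_span_singleton_self q)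
    · rw [span_singleton_le_iff_mem]
      exact ⟨hq, hqP⟩
  by_cases hs : p + q ∈ span ℚ A
  · right; right; right; left
    apply le_antisymm
    · rintro x ⟨hxA, hxP⟩
      obtain ⟨α, β, rfl⟩ := mem_span_pair.1 hxP
      have h1 : (α - β) • p ∈ span ℚ A := by
        have h2 := Submodule.sub_mem _ hxA (Submodule.smul_mem _ β hs)
        have h3 : α • p + β • q - β • (p + q) = (α - β) • p := by module
        rwa [h3] at h2
      have h3 : α = β := by
        by_contra h4
        exact hp (hdiv _ p (sub_ne_zero.2 h4) h1)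
      rw [h3, ← smul_add]
      exact Submodule.smul_mem _ _ (mem_span_singleton_self _)
    · rw [span_singleton_le_iff_mem]
      exact ⟨hs, Submodule.add_mem _ hpP hqP⟩
  left
  rw [eq_bot_iff]
  rintro x ⟨hxA, hxP⟩
  obtain ⟨α, β, rfl⟩ := mem_span_pair.1 hxP
  rw [Submodule.mem_bot]
  by_contra hx0
  have hβ : β ≠ 0 := by
    rintro rfl
    rw [zero_smul, add_zero] at hxA hx0
    have hα : α ≠ 0 := by
      rintro rfl
      exact hx0 (zero_smul _ _)
    exact hp (hdiv α p hα hxA)
  have hα : α ≠ 0 := by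
    rintro rfl
    rw [zero_smul, zero_add] at hxA
    exact hq (hdiv β q hβ hxA)
  have hy : β⁻¹ • (α • p + β • q) ∈ span ℚ A := Submodule.smul_mem _ _ hxA
  have e1 : (-(α / β)) • p + β⁻¹ • (α • p + β • q) = q := by
    rw [smul_add, smul_smul, smul_smul, inv_mul_cancel₀ hβ, one_smul, ← add_assoc, ← add_smul]
    have : -(α / β) + β⁻¹ * α = 0 := by
      rw [div_eq_inv_mul]
      ring
    rw [this, zero_smul, zero_add]
  have e2 : (1 + -(α / β)) • p + β⁻¹ • (α • p + β • q) = p + q := by
    rw [add_smul, one_smul, add_assoc, e1]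
  have c1 := uni_cut_coord hX hAX hpX hp hy (-(α / β)) (by rw [e1]; exact hqX)
  have c2 := uni_cut_coord hX hAX hpX hp hy (1 + -(α / β)) (by rw [e2]; exact hsX)
  have hne : α / β ≠ 0 := div_ne_zero hα hβ
  have hab : α / β = 1 := by
    rcases c1 with c1 | c1 | c1
    · exact absurd (neg_eq_zero.1 c1) hne
    · exfalso
      rw [c1] at c2
      rcases c2 with c2 | c2 | c2 <;> norm_num at c2
    · linarith
  have hab' : α = β := by
    rw [div_eq_one_iff_eq hβ] at hab
    exact hab
  apply hs
  apply hdiv β (p + q) hβ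
  rw [hab'] at hxA
  rwa [smul_add]

end RC

end

section

/-!
Module RC-U4.  The 3-sum (2-sum, 1-sum) of unimodular sets is unimodular.

Write `D = {p, q, p + q}`, `A' = A ∪ D`, `B' = B ∪ D`, `L = span D = span {p, q}`.
Let `s` be a finite independent subset of `A ∪ B ∪ D` and `x = ∑ c a • a` in `A ∪ B ∪ D`.
By symmetry let `x ∈ A'`.  Put `s_B = s ∩ B` minus `A'`, `s_A = s` minus `s_B`, so `s_A ⊆ A'`,
`s_B ⊆ B`, and `w = ∑_{s_B} c b • b = x - ∑_{s_A} c a • a` lies in
`span A' ⊓ span B' = L` (note `span A' = span (A ∪ {p,q})`).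
* `w = 0`: all `c b = 0` for `b ∈ s_B`, and `c a ∈ {0,1,-1}` for `a ∈ s_A` by `Uni A'`.
* `w ≠ 0`.  Let `U = span s_B ⊓ L`, it contains `w`.
  If `q = 0`: `L = span {p}`, `p ≠ 0`, `U = span {p}`.  Otherwise `p, q` are independent and by
  `uni_cut` (for `s_B ∪ D`, a subset of `B'`) `U` is `span {d}` with `d ∈ D` or `U = L`.
  (a) `U = span {d}`, `d ∈ D`, `d ≠ 0`: `w = λ d`.  `s_A ∪ {d}` is independent, because
      `d ∈ span s_B` and `span s_A ⊓ span s_B = ⊥` (`s` independent).
      `x = ∑_{s_A} c a • a + λ d`, so `c a, λ ∈ {0,1,-1}` (`Uni A'`), and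
      `d = ∑_{s_B} e b • b` with `e b ∈ {0,1,-1}` (`Uni B'`), `c b = λ e b`.
  (b) `U = L`, `p, q` independent: `w = α p + β q`; `s_A ∪ {p, q}` is independent, so
      `c a, α, β ∈ {0,1,-1}`; using `s_A ∪ {p, p + q}`: `w = (α - β) p + β (p + q)`, so
      `α - β ∈ {0,1,-1}`.  Hence `w = ± d` with `d ∈ D`, and `d ∈ span s_B` has coordinates
      `0,1,-1` (`Uni B'`), so `c b ∈ {0,1,-1}`.
-/

namespace RC

open Submodule Module

variable {V : Type} [AddCommGroup V] [Module ℚ V]

/-- A vector outside the line of `z` stays outside the span of a complementary set and `z`. -/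
theorem glue_not_mem {S T : Set V} (hd : Disjoint (span ℚ S) (span ℚ T)) {y z : V}
    (hy : y ∈ span ℚ T) (hz : z ∈ span ℚ T) (h : ∀ t : ℚ, y ≠ t • z) :
    y ∉ span ℚ (S ∪ {z}) := by
  intro hm
  rw [span_union, mem_sup] at hm
  obtain ⟨u, hu, v, hv, huv⟩ := hm
  obtain ⟨t, rfl⟩ := mem_span_singleton.1 hv
  have h1 : u ∈ span ℚ T := by
    have h2 : u = y - t • z := by rw [← huv]; abel
    rw [h2]
    exact Submodule.sub_mem _ hy (Submodule.smul_mem _ _ hz)
  have h3 : u = 0 := (Submodule.disjoint_def.1 hd) u hu h1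
  exact h t (by rw [← huv, h3, zero_add])

/-- The case of a sum which lies on the left side. -/
theorem glue_aux {A B : Set V} {p q : V} (hpq : LinearIndependent ℚ ![p, q] ∨ q = 0)
    (hA : Uni (A ∪ {p, q, p + q})) (hB : Uni (B ∪ {p, q, p + q}))
    (h : span ℚ (A ∪ {p, q}) ⊓ span ℚ (B ∪ {p, q}) = span ℚ {p, q})
    (s : Finset V) (c : V → ℚ) (hs : (s : Set V) ⊆ A ∪ B ∪ {p, q, p + q})
    (hli : LinearIndepOn ℚ id (s : Set V)) (hx : ∑ a ∈ s, c a • a ∈ A ∪ {p, q, p + q}) :
    ∀ a ∈ s, c a = 0 ∨ c a = 1 ∨ c a = -1 := by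
  classical
  set sA : Finset V := s.filter (· ∈ A ∪ {p, q, p + q}) with hsA
  set sB : Finset V := s.filter (¬ · ∈ A ∪ {p, q, p + q}) with hsB
  have hAsub : (sA : Set V) ⊆ A ∪ {p, q, p + q} := fun a ha =>
    (Finset.mem_filter.1 (Finset.mem_coe.1 ha)).2
  have hBsub : (sB : Set V) ⊆ B := by
    intro a ha
    obtain ⟨h1, h2⟩ := Finset.mem_filter.1 (Finset.mem_coe.1 ha)
    rcases hs (Finset.mem_coe.2 h1) with (h3 | h3) | h3
    · exact absurd (Or.inl h3) h2
    · exact h3
    · exact absurd (Or.inr h3) h2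
  have hunion : s = sA ∪ sB := (Finset.filter_union_filter_not_eq _ s).symm
  have hdisj : Disjoint sA sB := Finset.disjoint_filter_filter_not s s _
  have hsum : ∑ a ∈ s, c a • a = ∑ a ∈ sA, c a • a + ∑ a ∈ sB, c a • a := by
    conv_lhs => rw [hunion]
    exact Finset.sum_union hdisj
  have hli' := hli
  rw [hunion, Finset.coe_union, linearIndepOn_id_union_iff (Finset.disjoint_coe.2 hdisj)] at hli'
  obtain ⟨liA, liB, hd⟩ := hli'
  set w : V := ∑ a ∈ sB, c a • a with hw
  have hwB : w ∈ span ℚ (sB : Set V) :=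
    Submodule.sum_mem _ fun a ha => Submodule.smul_mem _ _ (subset_span (Finset.mem_coe.2 ha))
  have hxA : ∑ a ∈ sA, c a • a ∈ span ℚ (sA : Set V) :=
    Submodule.sum_mem _ fun a ha => Submodule.smul_mem _ _ (subset_span (Finset.mem_coe.2 ha))
  -- the span of the left side
  have hAspan : ∀ y ∈ A ∪ {p, q, p + q}, y ∈ span ℚ (A ∪ {p, q}) := by
    intro y hy
    have hp1 : p ∈ span ℚ (A ∪ {p, q}) := subset_span (Or.inr (by simp))
    have hq1 : q ∈ span ℚ (A ∪ {p, q}) := subset_span (Or.inr (by simp))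
    rcases hy with hy | hy | hy | hy
    · exact subset_span (Or.inl hy)
    · rw [hy]; exact hp1
    · rw [hy]; exact hq1
    · rw [Set.mem_singleton_iff] at hy
      rw [hy]; exact Submodule.add_mem _ hp1 hq1
  have hwL : w ∈ span ℚ {p, q} := by
    rw [← h]
    constructor
    · have h1 : w = ∑ a ∈ s, c a • a - ∑ a ∈ sA, c a • a := by
        rw [hsum]; abel
      rw [h1]
      refine Submodule.sub_mem _ (hAspan _ hx) (Submodule.sum_mem _ fun a ha => ?_)
      exact Submodule.smul_mem _ _ (hAspan a (hAsub (Finset.mem_coe.2 ha)))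
    · exact span_mono (hBsub.trans Set.subset_union_left) hwB
  -- the final step
  have key : ∀ (l : ℚ) (d : V), d ∈ ({p, q, p + q} : Set V) → w = l • d → w ≠ 0 →
      ∀ a ∈ s, c a = 0 ∨ c a = 1 ∨ c a = -1 := by
    intro l d hdD hwd hw0
    have hl0 : l ≠ 0 := by
      rintro rfl
      exact hw0 (by rw [hwd, zero_smul])
    have hdB : d ∈ span ℚ (sB : Set V) := by
      have h1 : d = l⁻¹ • w := by
        rw [hwd, smul_smul, inv_mul_cancel₀ hl0, one_smul]
      rw [h1]
      exact Submodule.smul_mem _ _ hwB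
    have hd0 : d ≠ 0 := by
      rintro rfl
      exact hw0 (by rw [hwd, smul_zero])
    have hdA : d ∉ span ℚ (sA : Set V) := fun h1 =>
      hd0 ((Submodule.disjoint_def.1 hd) d h1 hdB)
    have hdsA : d ∉ sA := fun h1 => hdA (subset_span (Finset.mem_coe.2 h1))
    have hiA := hA (insert d sA) (fun a => if a = d then l else c a)
      (by
        rw [Finset.coe_insert]
        intro y hy
        rcases hy with rfl | hy
        · exact Or.inr hdD
        · exact hAsub hy)
      (by
        rw [Finset.coe_insert]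
        exact liA.id_insert hdA)
      (by
        have h1 : ∑ a ∈ insert d sA, (if a = d then l else c a) • a = ∑ a ∈ s, c a • a := by
          rw [Finset.sum_insert hdsA, if_pos rfl, hsum, ← hwd, add_comm]
          congr 1
          refine Finset.sum_congr rfl fun a ha => ?_
          have h2 : a ≠ d := by
            rintro rfl
            exact hdsA ha
          rw [if_neg h2]
        rw [h1]
        exact hx)
    have hl : l = 1 ∨ l = -1 := by
      have h1 := hiA d (Finset.mem_insert_self _ _)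
      simp only [if_true] at h1
      rcases h1 with h1 | h1 | h1
      · exact absurd h1 hl0
      · exact Or.inl h1
      · exact Or.inr h1
    have hll : l * l = 1 := by
      rcases hl with rfl | rfl <;> norm_num
    have hiB := hB sB (fun a => l * c a) (hBsub.trans Set.subset_union_left) liB
      (by
        have h1 : ∑ a ∈ sB, (l * c a) • a = d := by
          have h2 : ∑ a ∈ sB, (l * c a) • a = l • w := by
            rw [hw, Finset.smul_sum]
            exact Finset.sum_congr rfl fun a _ => by rw [smul_smul]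
          rw [h2, hwd, smul_smul, hll, one_smul]
        rw [h1]
        exact Or.inr hdD)
    intro a ha
    rw [hunion] at ha
    rcases Finset.mem_union.1 ha with ha | ha
    · have h1 := hiA a (Finset.mem_insert_of_mem ha)
      have h2 : a ≠ d := by
        rintro rfl
        exact hdsA ha
      simpa only [if_neg h2] using h1
    · have h1 := hiB a ha
      rcases hl with rfl | rfl <;> rcases h1 with h1 | h1 | h1
      all_goals first
        | (left; (clear * - h1; linarith))
        | (right; left; (clear * - h1; linarith))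
        | (right; right; (clear * - h1; linarith))
  by_cases hw0 : w = 0
  · intro a ha
    rw [hunion] at ha
    rcases Finset.mem_union.1 ha with ha | ha
    · refine hA sA c hAsub liA ?_ a ha
      have h1 : ∑ a ∈ s, c a • a = ∑ a ∈ sA, c a • a := by rw [hsum, hw0, add_zero]
      rw [← h1]
      exact hx
    · left
      exact linearIndepOn_finset_iff.1 liB c (by simpa [hw] using hw0) a ha
  rcases hpq with li | hq0
  · have hX : Uni ((sB : Set V) ∪ {p, q, p + q}) := uni_mono hB fun y hy => by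
      rcases hy with hy | hy
      · exact Or.inr (Or.inl (Or.inl (hBsub hy)))
      · exact Or.inr (Or.inl (Or.inr hy))
    have hwU : w ∈ span ℚ (sB : Set V) ⊓ span ℚ {p, q} := ⟨hwB, hwL⟩
    rcases uni_cut hX li with h1 | h1 | h1 | h1 | h1
    · rw [h1, Submodule.mem_bot] at hwU
      exact absurd hwU hw0
    · rw [h1] at hwU
      obtain ⟨l, hl⟩ := mem_span_singleton.1 hwU
      exact key l p (by simp) hl.symm hw0
    · rw [h1] at hwU
      obtain ⟨l, hl⟩ := mem_span_singleton.1 hwU
      exact key l q (by simp) hl.symm hw0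
    · rw [h1] at hwU
      obtain ⟨l, hl⟩ := mem_span_singleton.1 hwU
      exact key l (p + q) (by simp) hl.symm hw0
    · have hle : span ℚ {p, q} ≤ span ℚ (sB : Set V) := inf_eq_right.1 h1
      have hpB : p ∈ span ℚ (sB : Set V) := hle (subset_span (by simp))
      have hqB : q ∈ span ℚ (sB : Set V) := hle (subset_span (by simp))
      have hpqB : p + q ∈ span ℚ (sB : Set V) := Submodule.add_mem _ hpB hqB
      obtain ⟨α, β, hαβ⟩ := mem_span_pair.1 hwL
      have li' := LinearIndependent.pair_iff.1 li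
      have n1 : p ∉ span ℚ ((sA : Set V) ∪ {q}) := glue_not_mem hd hpB hqB fun t ht => by
        have h2 := li' 1 (-t) (by rw [one_smul, neg_smul, ← ht]; abel)
        exact one_ne_zero h2.1
      have n2 : q ∉ span ℚ ((sA : Set V) ∪ {p}) := glue_not_mem hd hqB hpB fun t ht => by
        have h2 := li' (-t) 1 (by rw [one_smul, neg_smul, ← ht]; abel)
        exact one_ne_zero h2.2
      have n3 : p ∉ span ℚ ((sA : Set V) ∪ {p + q}) := glue_not_mem hd hpB hpqB fun t ht => by
        have h2 := li' (1 - t) (-t) (by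
          have h3 : (1 - t) • p + (-t) • q = p - t • (p + q) := by module
          rw [h3, ← ht, sub_self])
        have h4 : t = 0 := by (clear * - h2; linarith [h2.2])
        have h5 := h2.1
        rw [h4] at h5
        norm_num at h5
      have hpX : p ∈ A ∪ {p, q, p + q} := Or.inr (by simp)
      have hqX : q ∈ A ∪ {p, q, p + q} := Or.inr (by simp)
      have hsX : p + q ∈ A ∪ {p, q, p + q} := Or.inr (by simp)
      have hsub : ∀ z ∈ A ∪ {p, q, p + q}, (sA : Set V) ∪ {z} ⊆ A ∪ {p, q, p + q} := by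
        intro z hz y hy
        rcases hy with hy | hy
        · exact hAsub hy
        · rw [Set.mem_singleton_iff] at hy
          rw [hy]
          exact hz
      have hin : ∀ (z : V) (t : ℚ), t • z + ∑ a ∈ sA, c a • a ∈ span ℚ ((sA : Set V) ∪ {z}) := by
        intro z t
        refine Submodule.add_mem _ (Submodule.smul_mem _ _ (subset_span (Or.inr rfl))) ?_
        exact span_mono Set.subset_union_left hxA
      have c1 := uni_cut_coord hA (hsub q hqX) hpX n1 (hin q β) α (by
        have h2 : α • p + (β • q + ∑ a ∈ sA, c a • a) = ∑ a ∈ s, c a • a := by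
          rw [hsum, ← hαβ]; abel
        rw [h2]
        exact hx)
      have c2 := uni_cut_coord hA (hsub p hpX) hqX n2 (hin p α) β (by
        have h2 : β • q + (α • p + ∑ a ∈ sA, c a • a) = ∑ a ∈ s, c a • a := by
          rw [hsum, ← hαβ]; abel
        rw [h2]
        exact hx)
      have c3 := uni_cut_coord hA (hsub (p + q) hsX) hpX n3 (hin (p + q) β) (α - β) (by
        have h2 : (α - β) • p + (β • (p + q) + ∑ a ∈ sA, c a • a) = ∑ a ∈ s, c a • a := by
          rw [hsum, ← hαβ]; module
        rw [h2]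
        exact hx)
      by_cases hα : α = 0
      · exact key β q (by simp) (by rw [← hαβ, hα, zero_smul, zero_add]) hw0
      by_cases hβ : β = 0
      · exact key α p (by simp) (by rw [← hαβ, hβ, zero_smul, add_zero]) hw0
      have hab : α = β := by
        rcases c1 with c1 | c1 | c1
        · exact absurd c1 hα
        · rcases c2 with c2 | c2 | c2
          · exact absurd c2 hβ
          · rw [c1, c2]
          · exfalso
            rw [c1, c2] at c3
            rcases c3 with c3 | c3 | c3 <;> norm_num at c3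
        · rcases c2 with c2 | c2 | c2
          · exact absurd c2 hβ
          · exfalso
            rw [c1, c2] at c3
            rcases c3 with c3 | c3 | c3 <;> norm_num at c3
          · rw [c1, c2]
      exact key α (p + q) (by simp) (by rw [← hαβ, hab, smul_add]) hw0
  · obtain ⟨α, β, hαβ⟩ := mem_span_pair.1 hwL
    exact key α p (by simp) (by rw [← hαβ, hq0, smul_zero, add_zero]) hw0

theorem uni_glue {A B : Set V} {p q : V} (hpq : LinearIndependent ℚ ![p, q] ∨ q = 0)
    (hA : Uni (A ∪ {p, q, p + q})) (hB : Uni (B ∪ {p, q, p + q}))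
    (h : span ℚ (A ∪ {p, q}) ⊓ span ℚ (B ∪ {p, q}) = span ℚ {p, q}) :
    Uni (A ∪ B ∪ {p, q, p + q}) := by
  intro s c hs hli hx
  have hx' : ∑ a ∈ s, c a • a ∈ A ∪ {p, q, p + q} ∨ ∑ a ∈ s, c a • a ∈ B ∪ {p, q, p + q} := by
    rcases hx with (hx | hx) | hx
    · exact Or.inl (Or.inl hx)
    · exact Or.inr (Or.inl hx)
    · exact Or.inl (Or.inr hx)
  rcases hx' with hx' | hx'
  · exact glue_aux hpq hA hB h s c hs hli hx'
  · refine glue_aux hpq hB hA (by rw [inf_comm]; exact h) s c ?_ hli hx'
    rw [Set.union_comm B A]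
    exact hs

end RC

end

section

/-!
Module RC-U7.  Graphic sets are unimodular.

By `uni_of_map` and `uni_mono` it suffices that the set `Y` of all vectors
`Pi.single a 1 - Pi.single b 1` of `W → ℚ` is unimodular.  Let `s ⊆ Y` be finite and independent,
`x = ∑ c a • a ∈ Y`, `a₀ ∈ s`.  Let `U = span (s.erase a₀)`.  Define `w ~ w'` if
`single w 1 - single w' 1 ∈ U`; this is an equivalence relation.  `a₀ = single u 1 - single u' 1`
is not in `U`, so `u` is not equivalent to `u'`.  Let `χ (g) = ∑_{w ~ u} g w` (linear).  `χ`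
vanishes on every `b = single w 1 - single w' 1` of `s.erase a₀` (`w ~ w'`), `χ a₀ = 1`, and
`χ x ∈ {0, 1, -1}`.  So `c a₀ = χ x`.
-/

namespace RC

open Submodule Module

variable {V : Type} [AddCommGroup V] [Module ℚ V]

/-- The set of all differences of two unit vectors is unimodular. -/
theorem uni_edges (W : Type) [Fintype W] [DecidableEq W] :
    Uni {y : W → ℚ | ∃ a b : W, y = Pi.single a 1 - Pi.single b 1} := by
  classical
  intro s c hs hli hx a₀ ha₀
  obtain ⟨u, u', hu⟩ := hs (Finset.mem_coe.2 ha₀)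
  obtain ⟨x, x', hxx⟩ := hx
  set U : Submodule ℚ (W → ℚ) := span ℚ ((s.erase a₀ : Finset (W → ℚ)) : Set (W → ℚ)) with hU
  have hnot : a₀ ∉ U := by
    have h1 := (linearIndepOn_iff_notMem_span.1 hli) a₀ (Finset.mem_coe.2 ha₀)
    simpa [hU, Finset.coe_erase] using h1
  set P : W → Prop := fun w => (Pi.single w 1 - Pi.single u 1 : W → ℚ) ∈ U with hP
  have hPu : P u := by
    simp only [hP, sub_self]
    exact U.zero_mem
  have hPu' : ¬ P u' := by
    intro h
    apply hnot
    have h1 := U.neg_mem h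
    rw [neg_sub, ← hu] at h1
    exact h1
  have hPP : ∀ w w' : W, (Pi.single w 1 - Pi.single w' 1 : W → ℚ) ∈ U → (P w ↔ P w') := by
    intro w w' h
    constructor
    · intro h1
      have h2 := U.sub_mem h1 h
      have h3 : (Pi.single w 1 - Pi.single u 1 - (Pi.single w 1 - Pi.single w' 1) : W → ℚ)
          = Pi.single w' 1 - Pi.single u 1 := by abel
      rw [h3] at h2
      exact h2
    · intro h1
      have h2 := U.add_mem h h1
      have h3 : (Pi.single w 1 - Pi.single w' 1 + (Pi.single w' 1 - Pi.single u 1) : W → ℚ)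
          = Pi.single w 1 - Pi.single u 1 := by abel
      rw [h3] at h2
      exact h2
  let χ : (W → ℚ) →ₗ[ℚ] ℚ := ∑ w ∈ Finset.univ.filter P, LinearMap.proj w
  have hχ : ∀ w, χ (Pi.single w 1) = if P w then 1 else 0 := by
    intro w
    simp only [χ, LinearMap.sum_apply, LinearMap.proj_apply, Pi.single_apply]
    rw [Finset.sum_ite_eq']
    simp
  have hχ0 : ∀ b ∈ s, b ≠ a₀ → χ b = 0 := by
    intro b hb hne
    obtain ⟨w, w', hw⟩ := hs (Finset.mem_coe.2 hb)
    have hbU : b ∈ U := subset_span (Finset.mem_coe.2 (Finset.mem_erase.2 ⟨hne, hb⟩))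
    have h1 := hPP w w' (hw ▸ hbU)
    rw [hw, map_sub, hχ, hχ]
    by_cases h2 : P w
    · rw [if_pos h2, if_pos (h1.1 h2), sub_self]
    · rw [if_neg h2, if_neg (fun h3 => h2 (h1.2 h3)), sub_self]
  have hχ1 : χ a₀ = 1 := by
    rw [hu, map_sub, hχ, hχ, if_pos hPu, if_neg hPu', sub_zero]
  have hsum : χ (∑ a ∈ s, c a • a) = c a₀ := by
    rw [map_sum, Finset.sum_eq_single a₀]
    · rw [map_smul, hχ1, smul_eq_mul, mul_one]
    · intro b hb hne
      rw [map_smul, hχ0 b hb hne, smul_zero]
    · intro h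
      exact absurd ha₀ h
  rw [hxx, map_sub, hχ, hχ] at hsum
  rw [← hsum]
  split_ifs <;> simp

theorem uni_graphic (X : Set V) (W : Type) [Fintype W] [DecidableEq W] (φ : V →ₗ[ℚ] (W → ℚ))
    (inj : ∀ y ∈ span ℚ X, φ y = 0 → y = 0)
    (edge : ∀ x ∈ X, ∃ a b : W, φ x = Pi.single a 1 - Pi.single b 1) : Uni X := by
  refine uni_of_map φ inj (uni_mono (uni_edges W) ?_)
  rintro _ ⟨x, hx, rfl⟩
  exact Or.inr (Or.inl (edge x hx))

end RC

end

section

/-!
Module RC-U6.  Adding a claw to a triangle.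

`claw_graphic`: there are functionals `P, Q : V → ℚ` with `P p = Q q = 1`, `P q = Q p = 0`
(extend the dual basis of the independent pair).  Put
`φ (x, t) = P x • (ε 0 - ε 1) + Q x • (ε 2 - ε 0) + t • (ε 3 - ε 0)`, `ε i = Pi.single i 1`.
Then `(p,0) ↦ ε0 - ε1`, `(q,0) ↦ ε2 - ε0`, `(p+q,0) ↦ ε2 - ε1`, `(0,1) ↦ ε3 - ε0`,
`(p,1) ↦ ε3 - ε1`, `(-q,1) ↦ ε3 - ε2`.  The span of the six vectors is
`{(α p + β q, t)}` and `φ` is injective on it.

`claw_span`: `span (inl '' X ∪ {p', q'})` consists of vectors with second coordinate `0`; an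
element `(α p + β q, t)` of `span (claw ∪ {p', q'})` with `t = 0` is in `span {p', q'}`.

`uni_claw`: `uni_glue` with `A = inl '' X`, `B` = the claw, `p' = (p, 0)`, `q' = (q, 0)`
(`A ∪ D = A` up to `uni_mono`; `inl '' X` is unimodular by `uni_map`; `B ∪ D` by `uni_graphic`).

`cls_uni`: `mono = uni_mono`, `map = uni_map`, `con = uni_con` with `S = {x}`, `claw = uni_claw`.
-/

namespace RC

open Submodule Module

variable {V : Type} [AddCommGroup V] [Module ℚ V]

/-- The claw attached to the triangle `p, q, p + q`. -/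
def clawSet (p q : V) : Set (V × ℚ) := {((0 : V), (1 : ℚ)), (p, 1), (-q, 1)}

private theorem dual_pair {p q : V} (li : LinearIndependent ℚ ![p, q]) :
    ∃ P Q : V →ₗ[ℚ] ℚ, P p = 1 ∧ P q = 0 ∧ Q p = 0 ∧ Q q = 1 := by
  have hinj := linearIndependent_iff_injective_fintypeLinearCombination.1 li
  obtain ⟨g, hg⟩ := LinearMap.exists_leftInverse_of_injective
    (Fintype.linearCombination ℚ ![p, q]) (LinearMap.ker_eq_bot.2 hinj)
  have h0 : g p = Pi.single 0 1 := by
    have h := LinearMap.congr_fun hg (Pi.single (0 : Fin 2) (1 : ℚ))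
    simpa [Fintype.linearCombination_apply_single] using h
  have h1 : g q = Pi.single 1 1 := by
    have h := LinearMap.congr_fun hg (Pi.single (1 : Fin 2) (1 : ℚ))
    simpa [Fintype.linearCombination_apply_single] using h
  refine ⟨(LinearMap.proj 0).comp g, (LinearMap.proj 1).comp g, ?_, ?_, ?_, ?_⟩ <;>
    simp [h0, h1]

/-- The functional of the claw. -/
private noncomputable def clawMap (P Q : V →ₗ[ℚ] ℚ) : (V × ℚ) →ₗ[ℚ] (Fin 4 → ℚ) :=
  LinearMap.coprod
    (P.smulRight (Pi.single 0 1 - Pi.single 1 1) + Q.smulRight (Pi.single 2 1 - Pi.single 0 1))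
    (LinearMap.toSpanSingleton ℚ _ (Pi.single 3 1 - Pi.single 0 1))

private theorem clawMap_apply (P Q : V →ₗ[ℚ] ℚ) (x : V) (t : ℚ) :
    clawMap P Q (x, t) = P x • (Pi.single 0 1 - Pi.single 1 1) +
      Q x • (Pi.single 2 1 - Pi.single 0 1) + t • (Pi.single 3 1 - Pi.single 0 1) := by
  simp [clawMap]

private theorem claw_fst {p q : V} {y : V × ℚ}
    (hy : y ∈ span ℚ (clawSet p q ∪ {((p : V), (0 : ℚ)), (q, 0), (p + q, 0)})) :
    y.1 ∈ span ℚ {p, q} := by
  have hp : p ∈ span ℚ ({p, q} : Set V) := subset_span (by simp)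
  have hq : q ∈ span ℚ ({p, q} : Set V) := subset_span (by simp)
  have hle : span ℚ (clawSet p q ∪ {((p : V), (0 : ℚ)), (q, 0), (p + q, 0)}) ≤
      (span ℚ ({p, q} : Set V)).comap (LinearMap.fst ℚ V ℚ) := by
    rw [span_le]
    rintro x ((rfl | rfl | rfl) | (rfl | rfl | rfl))
    · exact zero_mem (span ℚ ({p, q} : Set V))
    · exact hp
    · exact neg_mem hq
    · exact hp
    · exact hq
    · exact add_mem hp hq
  exact hle hy

theorem claw_graphic {p q : V} (li : LinearIndependent ℚ ![p, q]) :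
    ∃ φ : (V × ℚ) →ₗ[ℚ] (Fin 4 → ℚ),
      (∀ y ∈ span ℚ (clawSet p q ∪ {((p : V), (0 : ℚ)), (q, 0), (p + q, 0)}),
        φ y = 0 → y = 0) ∧
      ∀ x ∈ clawSet p q ∪ {((p : V), (0 : ℚ)), (q, 0), (p + q, 0)},
        ∃ a b, φ x = Pi.single a 1 - Pi.single b 1 := by
  obtain ⟨P, Q, hPp, hPq, hQp, hQq⟩ := dual_pair li
  refine ⟨clawMap P Q, ?_, ?_⟩
  · rintro ⟨x, t⟩ hy h0
    obtain ⟨α, β, hx⟩ := mem_span_pair.1 (claw_fst hy)
    dsimp only at hx
    rw [clawMap_apply, ← hx] at h0
    simp only [map_add, map_smul, hPp, hPq, hQp, hQq, smul_eq_mul, mul_one, mul_zero, add_zero,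
      zero_add] at h0
    have h1 := congrFun h0 1
    have h2 := congrFun h0 2
    have h3 := congrFun h0 3
    simp at h1 h2 h3
    subst h1 h2 h3
    rw [← hx]
    simp
  · rintro x ((rfl | rfl | rfl) | (rfl | rfl | rfl))
    · exact ⟨3, 0, by rw [clawMap_apply]; simp⟩
    · refine ⟨3, 1, ?_⟩
      rw [clawMap_apply, hPp, hQp, one_smul, one_smul, zero_smul]
      abel
    · refine ⟨3, 2, ?_⟩
      rw [clawMap_apply, map_neg, map_neg, hPq, hQq, neg_zero, zero_smul, neg_smul, one_smul,
        one_smul]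
      abel
    · exact ⟨0, 1, by rw [clawMap_apply, hPp, hQp]; simp⟩
    · exact ⟨2, 0, by rw [clawMap_apply, hPq, hQq]; simp⟩
    · refine ⟨2, 1, ?_⟩
      rw [clawMap_apply, map_add, map_add, hPp, hPq, hQp, hQq, add_zero, zero_add, one_smul,
        one_smul, zero_smul]
      abel

theorem claw_span (X : Set V) (p q : V) (hp : p ∈ span ℚ X) (hq : q ∈ span ℚ X) :
    span ℚ ((fun x : V => (x, (0 : ℚ))) '' X ∪ {((p : V), (0 : ℚ)), (q, 0)}) ⊓
      span ℚ (clawSet p q ∪ {((p : V), (0 : ℚ)), (q, 0)}) =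
    span ℚ {((p : V), (0 : ℚ)), (q, 0)} := by
  apply le_antisymm
  · rintro ⟨x, t⟩ ⟨h1, h2⟩
    have ht : t = 0 := by
      have hle : span ℚ ((fun x : V => (x, (0 : ℚ))) '' X ∪ {((p : V), (0 : ℚ)), (q, 0)}) ≤
          LinearMap.ker (LinearMap.snd ℚ V ℚ) := by
        rw [span_le]
        rintro x (⟨x, _, rfl⟩ | (rfl | rfl)) <;> simp
      simpa using hle h1
    have hx : x ∈ span ℚ ({p, q} : Set V) := by
      have h3 : ((x, t) : V × ℚ) ∈
          span ℚ (clawSet p q ∪ {((p : V), (0 : ℚ)), (q, 0), (p + q, 0)}) := by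
        refine span_mono (Set.union_subset_union_right _ ?_) h2
        intro y hy
        simp only [Set.mem_insert_iff, Set.mem_singleton_iff] at hy ⊢
        tauto
      exact claw_fst h3
    obtain ⟨α, β, rfl⟩ := mem_span_pair.1 hx
    subst ht
    rw [mem_span_pair]
    exact ⟨α, β, by simp⟩
  · exact le_inf (span_mono Set.subset_union_right) (span_mono Set.subset_union_right)

theorem uni_claw {X : Set V} {p q : V} (hX : Uni X) (hp : p ∈ X) (hq : q ∈ X)
    (hs : p + q ∈ X) (li : LinearIndependent ℚ ![p, q]) :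
    Uni ((fun x : V => (x, (0 : ℚ))) '' X ∪ {((0 : V), (1 : ℚ)), (p, 1), (-q, 1)}) := by
  have hpq' : ((p, (0 : ℚ)) : V × ℚ) + (q, 0) = (p + q, 0) := by simp
  have hX' : Uni ((fun x : V => (x, (0 : ℚ))) '' X) := by
    have h := uni_map (LinearMap.inl ℚ V ℚ) hX (fun y _ hy => by simpa using hy)
    have he : (⇑(LinearMap.inl ℚ V ℚ)) = fun x : V => (x, (0 : ℚ)) := by
      funext x
      rfl
    rwa [he] at h
  have li' : LinearIndependent ℚ ![((p : V), (0 : ℚ)), (q, 0)] := by
    rw [LinearIndependent.pair_iff] at li ⊢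
    intro s t hst
    apply li s t
    simpa using congrArg Prod.fst hst
  have hA : Uni ((fun x : V => (x, (0 : ℚ))) '' X ∪
      {((p : V), (0 : ℚ)), (q, 0), ((p : V), (0 : ℚ)) + (q, 0)}) := by
    refine uni_mono hX' ?_
    rintro x (hx | (rfl | rfl | rfl))
    · exact Or.inr (Or.inl hx)
    · exact Or.inr (Or.inl ⟨p, hp, rfl⟩)
    · exact Or.inr (Or.inl ⟨q, hq, rfl⟩)
    · exact Or.inr (Or.inl ⟨p + q, hs, hpq'.symm⟩)
  have hB : Uni (clawSet p q ∪
      {((p : V), (0 : ℚ)), (q, 0), ((p : V), (0 : ℚ)) + (q, 0)}) := by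
    obtain ⟨φ, h1, h2⟩ := claw_graphic li
    rw [hpq']
    exact uni_graphic _ (Fin 4) φ h1 h2
  refine uni_mono (uni_glue (Or.inl li') hA hB
    (claw_span X p q (subset_span hp) (subset_span hq))) ?_
  rintro x (hx | hx)
  · exact Or.inr (Or.inl (Or.inl (Or.inl hx)))
  · exact Or.inr (Or.inl (Or.inl (Or.inr hx)))

theorem cls_uni : Cls (fun V _ _ X => Uni X) where
  uni := fun h => h
  mono := fun hY h => uni_mono hY h
  map := fun f _ hX hk => uni_map f hX hk
  con := fun f X x hX hx h0 hk => by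
    refine uni_con f hX (S := {x}) (by simpa using hx) ?_ hk
    intro s hs
    rw [Set.mem_singleton_iff] at hs
    rw [hs, h0]
  claw := fun hX hp hq hs li => uni_claw hX hp hq hs li

end RC

end

section

/-!
Definitions for the structure induction: no bad system is dominated by a decomposable set, nor by
a decomposable set with one additional claw.
-/

namespace RC.Str

open Submodule Module

/-- `X` is contained in `Y` up to zero vectors and signs. -/
def Dom {V : Type} [AddCommGroup V] (X Y : Set V) : Prop :=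
  ∀ x ∈ X, x = 0 ∨ x ∈ Y ∨ -x ∈ Y

/-- The class `Dec` as a class of vector sets. -/
abbrev DecC : ClsT := fun V _ _ X => Dec V X

/-- No bad system is dominated by `Y`. -/
def NB0 {V : Type} [AddCommGroup V] [Module ℚ V] (Y : Set V) : Prop :=
  ∀ (h : ℕ) (ι κ : Type) (v : ι → V) (c : ι → κ) (E : Finset ι) (e0 : ι),
    Bad DecC h v c E e0 → ¬ Dom (v '' (E : Set ι)) Y

/-- No bad system is dominated by `Y` with a claw on the triangle `p, q, p + q`. -/
def NB1 {V : Type} [AddCommGroup V] [Module ℚ V] (Y : Set V) : Prop :=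
  ∀ (p q : V), LinearIndependent ℚ ![p, q] → Dom {p, q, p + q} Y →
    NB0 ((fun x : V => (x, (0 : ℚ))) '' Y ∪ clawSet p q)

end RC.Str

end

section

/-!
Elementary properties of `Dom`, `NB0`, `NB1`.
-/

namespace RC.Str

open Submodule Module

variable {V : Type} [AddCommGroup V] [Module ℚ V]

theorem dom_of_subset {X Y : Set V} (h : X ⊆ Y) : Dom X Y := fun x hx => Or.inr (Or.inl (h hx))

theorem dom_refl (X : Set V) : Dom X X := dom_of_subset subset_rfl

theorem dom_trans {X Y Z : Set V} (h : Dom X Y) (h' : Dom Y Z) : Dom X Z := by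
  intro x hx
  rcases h x hx with h0 | h0 | h0
  · exact Or.inl h0
  · exact h' x h0
  · rcases h' _ h0 with h1 | h1 | h1
    · exact Or.inl (neg_eq_zero.1 h1)
    · exact Or.inr (Or.inr h1)
    · exact Or.inr (Or.inl (by rwa [neg_neg] at h1))

theorem dom_union {X Y Z : Set V} (h : Dom X Z) (h' : Dom Y Z) : Dom (X ∪ Y) Z := by
  rintro x (hx | hx)
  · exact h x hx
  · exact h' x hx

theorem dom_union_left {X Y : Set V} (Z : Set V) (h : Dom X Y) : Dom X (Y ∪ Z) :=
  dom_trans h (dom_of_subset Set.subset_union_left)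

theorem dom_union_right {X Y : Set V} (Z : Set V) (h : Dom X Y) : Dom X (Z ∪ Y) :=
  dom_trans h (dom_of_subset Set.subset_union_right)

theorem dom_image {W : Type} [AddCommGroup W] [Module ℚ W] (f : V →ₗ[ℚ] W) {X Y : Set V}
    (h : Dom X Y) : Dom (f '' X) (f '' Y) := by
  rintro _ ⟨x, hx, rfl⟩
  rcases h x hx with h0 | h0 | h0
  · exact Or.inl (by rw [h0, map_zero])
  · exact Or.inr (Or.inl ⟨x, h0, rfl⟩)
  · exact Or.inr (Or.inr ⟨-x, h0, by rw [map_neg]⟩)

theorem dom_inl {X Y : Set V} (h : Dom X Y) :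
    Dom ((fun x : V => (x, (0 : ℚ))) '' X) ((fun x : V => (x, (0 : ℚ))) '' Y) :=
  dom_image (LinearMap.inl ℚ V ℚ) h

theorem dom_span {X Y : Set V} (h : Dom X Y) : span ℚ X ≤ span ℚ Y := by
  rw [span_le]
  intro x hx
  rcases h x hx with h0 | h0 | h0
  · rw [h0]; exact zero_mem _
  · exact subset_span h0
  · have := neg_mem (subset_span h0 : -x ∈ span ℚ Y)
    rwa [neg_neg] at this

theorem dec_dom {X Y : Set V} (hY : Dec V Y) (h : Dom X Y) : Dec V X := by
  refine Dec.emb X Y LinearMap.id (fun y _ hy => hy) ?_ hY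
  intro x hx
  exact h x hx

theorem nb0_dom {X Y : Set V} (hY : NB0 Y) (h : Dom X Y) : NB0 X := by
  intro m ι κ v c E e0 hb hd
  exact hY m ι κ v c E e0 hb (dom_trans hd h)

theorem nb1_dom {X Y : Set V} (hY : NB1 Y) (h : Dom X Y) : NB1 X := by
  intro p q li hd
  refine nb0_dom (hY p q li (dom_trans hd h)) ?_
  exact dom_union (dom_union_left _ (dom_inl h)) (dom_union_right _ (dom_refl _))

theorem inl_mem_span {X : Set V} {y : V × ℚ}
    (h : y ∈ span ℚ ((fun x : V => (x, (0 : ℚ))) '' X)) : y.1 ∈ span ℚ X ∧ y.2 = 0 := by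
  have hle : span ℚ ((fun x : V => (x, (0 : ℚ))) '' X) ≤
      (span ℚ X).comap (LinearMap.fst ℚ V ℚ) ⊓ LinearMap.ker (LinearMap.snd ℚ V ℚ) := by
    rw [span_le]
    rintro _ ⟨x, hx, rfl⟩
    exact ⟨subset_span hx, rfl⟩
  have := hle h
  exact ⟨this.1, this.2⟩

theorem mem_span_inl {X : Set V} {y : V} (h : y ∈ span ℚ X) :
    (y, (0 : ℚ)) ∈ span ℚ ((fun x : V => (x, (0 : ℚ))) '' X) := by
  have := Submodule.mem_map_of_mem (f := LinearMap.inl ℚ V ℚ) h
  rw [LinearMap.map_span] at this
  exact this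

/-- Elements of the span of `inl '' X` with a claw on a triangle in `span X`. -/
theorem fst_mem_span {X : Set V} {p q : V} (hp : p ∈ span ℚ X) (hq : q ∈ span ℚ X) {y : V × ℚ}
    (h : y ∈ span ℚ ((fun x : V => (x, (0 : ℚ))) '' X ∪ clawSet p q)) : y.1 ∈ span ℚ X := by
  have hle : span ℚ ((fun x : V => (x, (0 : ℚ))) '' X ∪ clawSet p q) ≤
      (span ℚ X).comap (LinearMap.fst ℚ V ℚ) := by
    rw [span_le]
    rintro x (⟨x, hx, rfl⟩ | (rfl | rfl | rfl))
    · exact subset_span hx
    · exact zero_mem (span ℚ X)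
    · exact hp
    · exact neg_mem hq
  exact hle h

end RC.Str

end

section

/-!
Module RC-U9.  `R10` is unimodular.

`r10_del`: deleting element `j` leaves the graph `K_{3,3}`.  Matrices (rows = the six vertices,
each row a functional on `Fin 5 → ℚ`), found by computer; `i : (a, b)` means
`φ (R10 i) = single a 1 - single b 1`:
del 0 [[1,1,0,0,0],[1,0,0,0,1],[-1,-1,0,1,0],[-1,0,1,0,-1],[-1,0,0,0,0],[1,0,-1,-1,0]]
  1:(0,2) 2:(3,5) 3:(2,5) 4:(1,3) 5:(4,5) 6:(1,4) 7:(0,3) 8:(1,2) 9:(0,4)
del 1 [[1,1,0,0,0],[-1,-1,0,1,0],[0,1,0,-1,-1],[0,-1,-1,0,1],[0,1,1,0,0],[0,-1,0,0,0]]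
  0:(0,1) 2:(4,3) 3:(1,2) 4:(3,2) 5:(4,5) 6:(5,2) 7:(0,5) 8:(4,1) 9:(0,3)
del 2 [[0,0,1,0,0],[0,1,1,0,-1],[1,0,-1,0,1],[0,-1,-1,0,0],[0,0,-1,-1,0],[-1,0,1,1,0]]
  0:(2,5) 1:(1,3) 3:(5,4) 4:(2,1) 5:(5,3) 6:(0,4) 7:(2,0) 8:(0,3) 9:(1,4)
del 3 [[0,0,0,1,0],[1,1,0,-1,0],[0,-1,0,1,1],[0,0,0,-1,-1],[0,0,-1,-1,0],[-1,0,1,1,0]]
  0:(1,5) 1:(1,2) 2:(5,4) 4:(2,3) 5:(5,3) 6:(2,4) 7:(0,3) 8:(1,0) 9:(0,4)
del 4 [[0,0,0,0,1],[-1,0,0,0,-1],[0,-1,0,1,1],[0,1,1,0,-1],[1,0,-1,0,1],[0,0,0,-1,-1]]
  0:(4,1) 1:(3,2) 2:(3,4) 3:(2,5) 5:(0,5) 6:(2,1) 7:(4,5) 8:(0,1) 9:(3,0)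
del 5 [[0,0,0,0,1],[0,-1,-1,0,0],[0,0,0,-1,-1],[1,0,0,0,0],[-1,0,1,1,0],[0,1,0,0,0]]
  0:(3,4) 1:(5,1) 2:(4,1) 3:(4,2) 4:(0,2) 6:(3,5) 7:(5,2) 8:(0,1) 9:(3,0)
del 6 [[0,0,1,0,0],[-1,0,0,0,-1],[0,-1,0,1,1],[0,0,-1,-1,0],[1,0,0,0,0],[0,1,0,0,0]]
  0:(4,1) 1:(5,2) 2:(0,3) 3:(2,3) 4:(2,1) 5:(5,4) 7:(5,0) 8:(0,1) 9:(4,3)
del 7 [[1,1,0,0,0],[0,0,0,-1,0],[0,0,-1,0,0],[-1,0,1,0,-1],[0,0,0,1,1],[0,-1,0,0,0]]
  0:(0,3) 1:(0,5) 2:(3,2) 3:(4,1) 4:(4,3) 5:(4,5) 6:(5,2) 8:(1,2) 9:(0,1)
del 8 [[0,0,0,1,0],[0,0,0,0,1],[0,0,1,0,0],[-1,0,0,0,-1],[1,1,0,-1,0],[0,-1,-1,0,0]]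
  0:(4,3) 1:(4,5) 2:(2,5) 3:(0,4) 4:(1,3) 5:(1,5) 6:(2,3) 7:(0,2) 9:(0,1)
del 9 [[1,1,0,0,0],[0,0,0,-1,0],[0,0,0,0,-1],[0,-1,-1,0,1],[0,0,1,1,0],[-1,0,0,0,0]]
  0:(0,5) 1:(0,3) 2:(4,3) 3:(4,1) 4:(3,2) 5:(5,2) 6:(4,5) 7:(0,1) 8:(1,2)
Use `Matrix.toLin'` or `Matrix.mulVecLin` of these matrices; injectivity: rank 5, solve.

`uni_r10`: by `uni_of_map`, `uni_mono` it suffices that `Set.range R10` is unimodular.  If `s` is
a finite independent subset and `x` in the range then `s` has at most 5 elements, so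
`s ∪ {x}` has at most 6 and some `R10 j` is not in it; `s ∪ {x}` is a subset of
`R10 '' {i | i ≠ j}`, which is unimodular by `r10_del` and `uni_graphic`.
-/

namespace RC

open Submodule Module

/-- The ten matrices. -/
def r10MZ : Fin 10 → Fin 6 → Fin 5 → ℤ :=
  ![![![1, 1, 0, 0, 0], ![1, 0, 0, 0, 1], ![-1, -1, 0, 1, 0], ![-1, 0, 1, 0, -1], ![-1, 0, 0, 0, 0], ![1, 0, -1, -1, 0]],
    ![![1, 1, 0, 0, 0], ![-1, -1, 0, 1, 0], ![0, 1, 0, -1, -1], ![0, -1, -1, 0, 1], ![0, 1, 1, 0, 0], ![0, -1, 0, 0, 0]],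
    ![![0, 0, 1, 0, 0], ![0, 1, 1, 0, -1], ![1, 0, -1, 0, 1], ![0, -1, -1, 0, 0], ![0, 0, -1, -1, 0], ![-1, 0, 1, 1, 0]],
    ![![0, 0, 0, 1, 0], ![1, 1, 0, -1, 0], ![0, -1, 0, 1, 1], ![0, 0, 0, -1, -1], ![0, 0, -1, -1, 0], ![-1, 0, 1, 1, 0]],
    ![![0, 0, 0, 0, 1], ![-1, 0, 0, 0, -1], ![0, -1, 0, 1, 1], ![0, 1, 1, 0, -1], ![1, 0, -1, 0, 1], ![0, 0, 0, -1, -1]],
    ![![0, 0, 0, 0, 1], ![0, -1, -1, 0, 0], ![0, 0, 0, -1, -1], ![1, 0, 0, 0, 0], ![-1, 0, 1, 1, 0], ![0, 1, 0, 0, 0]],
    ![![0, 0, 1, 0, 0], ![-1, 0, 0, 0, -1], ![0, -1, 0, 1, 1], ![0, 0, -1, -1, 0], ![1, 0, 0, 0, 0], ![0, 1, 0, 0, 0]],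
    ![![1, 1, 0, 0, 0], ![0, 0, 0, -1, 0], ![0, 0, -1, 0, 0], ![-1, 0, 1, 0, -1], ![0, 0, 0, 1, 1], ![0, -1, 0, 0, 0]],
    ![![0, 0, 0, 1, 0], ![0, 0, 0, 0, 1], ![0, 0, 1, 0, 0], ![-1, 0, 0, 0, -1], ![1, 1, 0, -1, 0], ![0, -1, -1, 0, 0]],
    ![![1, 1, 0, 0, 0], ![0, 0, 0, -1, 0], ![0, 0, 0, 0, -1], ![0, -1, -1, 0, 1], ![0, 0, 1, 1, 0], ![-1, 0, 0, 0, 0]]]

/-- Left inverses. -/
def r10LZ : Fin 10 → Fin 5 → Fin 6 → ℤ :=
  ![![![0, 0, 0, 0, -1, 0], ![1, 0, 0, 0, 1, 0], ![0, 1, 0, 1, 0, 0], ![1, 0, 1, 0, 0, 0], ![0, 1, 0, 0, 1, 0]],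
    ![![0, -1, -1, -1, -1, 0], ![1, 1, 1, 1, 1, 0], ![-1, -1, -1, -1, 0, 0], ![1, 1, 0, 0, 0, 0], ![0, 0, 0, 1, 1, 0]],
    ![![1, 1, 1, 1, 0, 0], ![-1, 0, 0, -1, 0, 0], ![1, 0, 0, 0, 0, 0], ![-1, 0, 0, 0, -1, 0], ![0, -1, 0, -1, 0, 0]],
    ![![1, 1, 1, 1, 0, 0], ![0, 0, -1, -1, 0, 0], ![-1, 0, 0, 0, -1, 0], ![1, 0, 0, 0, 0, 0], ![-1, 0, 0, -1, 0, 0]],
    ![![-1, -1, 0, 0, 0, 0], ![1, 1, 0, 1, 1, 0], ![0, -1, 0, 0, -1, 0], ![0, 1, 1, 1, 1, 0], ![1, 0, 0, 0, 0, 0]],
    ![![0, 0, 0, 1, 0, 0], ![-1, -1, -1, -1, -1, 0], ![1, 0, 1, 1, 1, 0], ![-1, 0, -1, 0, 0, 0], ![1, 0, 0, 0, 0, 0]],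
    ![![0, 0, 0, 0, 1, 0], ![-1, -1, -1, -1, -1, 0], ![1, 0, 0, 0, 0, 0], ![-1, 0, 0, -1, 0, 0], ![0, -1, 0, 0, -1, 0]],
    ![![0, -1, -1, -1, -1, 0], ![1, 1, 1, 1, 1, 0], ![0, 0, -1, 0, 0, 0], ![0, -1, 0, 0, 0, 0], ![0, 1, 0, 0, 1, 0]],
    ![![0, -1, 0, -1, 0, 0], ![1, 1, 0, 1, 1, 0], ![0, 0, 1, 0, 0, 0], ![1, 0, 0, 0, 0, 0], ![0, 1, 0, 0, 0, 0]],
    ![![1, 1, 1, 1, 1, 0], ![0, -1, -1, -1, -1, 0], ![0, 1, 0, 0, 1, 0], ![0, -1, 0, 0, 0, 0], ![0, 0, -1, 0, 0, 0]]]

/-- Integral form of `R10`. -/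
def r10RZ : Fin 10 → Fin 5 → ℤ :=
  ![![1, 0, 0, 0, 0], ![0, 1, 0, 0, 0], ![0, 0, 1, 0, 0], ![0, 0, 0, 1, 0], ![0, 0, 0, 0, 1], ![-1, 1, 0, 0, 1], ![1, -1, 1, 0, 0], ![0, 1, -1, 1, 0], ![0, 0, 1, -1, 1], ![1, 0, 0, 1, -1]]

/-- Heads. -/
def r10AZ : Fin 10 → Fin 10 → Fin 6 :=
  ![![0, 0, 3, 2, 1, 4, 1, 0, 1, 0],
    ![0, 0, 4, 1, 3, 4, 5, 0, 4, 0],
    ![2, 1, 0, 5, 2, 5, 0, 2, 0, 1],
    ![1, 1, 5, 0, 2, 5, 2, 0, 1, 0],
    ![4, 3, 3, 2, 0, 0, 2, 4, 0, 3],
    ![3, 5, 4, 4, 0, 0, 3, 5, 0, 3],
    ![4, 5, 0, 2, 2, 5, 0, 5, 0, 4],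
    ![0, 0, 3, 4, 4, 4, 5, 0, 1, 0],
    ![4, 4, 2, 0, 1, 1, 2, 0, 0, 0],
    ![0, 0, 4, 4, 3, 5, 4, 0, 1, 0]]

/-- Tails. -/
def r10BZ : Fin 10 → Fin 10 → Fin 6 :=
  ![![0, 2, 5, 5, 3, 5, 4, 3, 2, 4],
    ![1, 0, 3, 2, 2, 5, 2, 5, 1, 3],
    ![5, 3, 0, 4, 1, 3, 4, 0, 3, 4],
    ![5, 2, 4, 0, 3, 3, 4, 3, 0, 4],
    ![1, 2, 4, 5, 0, 5, 1, 5, 1, 0],
    ![4, 1, 1, 2, 2, 0, 5, 2, 1, 0],
    ![1, 2, 3, 3, 1, 4, 0, 0, 1, 3],
    ![3, 5, 2, 1, 3, 5, 2, 0, 2, 1],
    ![3, 5, 5, 4, 3, 5, 3, 2, 0, 1],
    ![5, 3, 3, 1, 2, 2, 5, 1, 2, 0]]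

theorem r10_colZ : ∀ j i : Fin 10, i ≠ j → ∀ k : Fin 6, ∑ l : Fin 5, r10MZ j k l * r10RZ i l =
    (if k = r10AZ j i then 1 else 0) - (if k = r10BZ j i then 1 else 0) := by decide +kernel

theorem r10_invZ : ∀ j : Fin 10, ∀ r l : Fin 5, ∑ k : Fin 6, r10LZ j r k * r10MZ j k l =
    if r = l then 1 else 0 := by decide +kernel

theorem r10_injZ : ∀ i i' : Fin 10, r10RZ i = r10RZ i' → i = i' := by decide +kernel

theorem r10_R10_eq (i : Fin 10) (l : Fin 5) : R10 i l = (r10RZ i l : ℚ) := by
  fin_cases i <;> fin_cases l <;> simp [R10, r10RZ]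

theorem r10_R10_inj : Function.Injective R10 := by
  intro i i' h
  apply r10_injZ
  funext l
  have h2 := congrFun h l
  rw [r10_R10_eq, r10_R10_eq] at h2
  exact_mod_cast h2

theorem r10_del (j : Fin 10) : ∃ φ : (Fin 5 → ℚ) →ₗ[ℚ] (Fin 6 → ℚ), (∀ y, φ y = 0 → y = 0) ∧
    ∀ i, i ≠ j → ∃ a b, φ (R10 i) = Pi.single a 1 - Pi.single b 1 := by
  refine ⟨Matrix.mulVecLin (Matrix.of fun k l => (r10MZ j k l : ℚ)), ?_, ?_⟩
  · intro y hy
    have h1 : (Matrix.of fun r k => (r10LZ j r k : ℚ)) * (Matrix.of fun k l => (r10MZ j k l : ℚ)) = 1 := by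
      ext r l
      rw [Matrix.mul_apply]
      have h2 := r10_invZ j r l
      simp only [Matrix.of_apply, Matrix.one_apply]
      exact_mod_cast h2
    rw [Matrix.mulVecLin_apply] at hy
    have h3 : (Matrix.of fun r k => (r10LZ j r k : ℚ)).mulVec
        ((Matrix.of fun k l => (r10MZ j k l : ℚ)).mulVec y) = y := by
      rw [Matrix.mulVec_mulVec, h1, Matrix.one_mulVec]
    rw [← h3, hy, Matrix.mulVec_zero]
  · intro i hi
    refine ⟨r10AZ j i, r10BZ j i, ?_⟩
    ext k
    have h2 := r10_colZ j i hi k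
    rw [Matrix.mulVecLin_apply, Matrix.mulVec, dotProduct, Pi.sub_apply, Pi.single_apply,
      Pi.single_apply]
    simp only [Matrix.of_apply, r10_R10_eq]
    exact_mod_cast h2

theorem uni_r10 {V : Type} [AddCommGroup V] [Module ℚ V] (X : Set V)
    (φ : V →ₗ[ℚ] (Fin 5 → ℚ)) (inj : ∀ y ∈ span ℚ X, φ y = 0 → y = 0)
    (col : ∀ x ∈ X, ∃ j, φ x = R10 j) : Uni X := by
  classical
  apply uni_of_map φ inj
  have hR : Uni (Set.range R10) := by
    intro s c hs hli hx a ha
    have hcard : s.card ≤ 5 := by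
      have h1 : LinearIndependent ℚ (fun z : (s : Set (Fin 5 → ℚ)) => (z : Fin 5 → ℚ)) := hli
      have h2 := h1.fintype_card_le_finrank
      simpa using h2
    obtain ⟨j, hj⟩ : ∃ j, R10 j ∉ insert (∑ a ∈ s, c a • a) s := by
      by_contra hcon
      push Not at hcon
      have h1 : (Finset.univ.image R10) ⊆ insert (∑ a ∈ s, c a • a) s := by
        intro z hz
        obtain ⟨j, -, rfl⟩ := Finset.mem_image.1 hz
        exact hcon j
      have h2 := Finset.card_le_card h1
      rw [Finset.card_image_of_injective _ r10_R10_inj, Finset.card_univ, Fintype.card_fin] at h2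
      have h3 := Finset.card_insert_le (∑ a ∈ s, c a • a) s
      omega
    rw [Finset.mem_insert, not_or] at hj
    obtain ⟨ψ, hψ, he⟩ := r10_del j
    have hU : Uni (R10 '' {i | i ≠ j}) := by
      apply uni_graphic _ (Fin 6) ψ (fun y _ hy => hψ y hy)
      rintro x ⟨i, hi, rfl⟩
      exact he i hi
    refine hU s c ?_ hli ?_ a ha
    · intro z hz
      obtain ⟨i, rfl⟩ := hs hz
      refine ⟨i, ?_, rfl⟩
      rintro rfl
      exact hj.2 hz
    · obtain ⟨i, hi⟩ := hx
      refine ⟨i, ?_, hi⟩
      rintro rfl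
      exact hj.1 hi
  apply uni_mono hR
  rintro x ⟨y, hy, rfl⟩
  obtain ⟨j, hj⟩ := col y hy
  exact Or.inr (Or.inl ⟨j, hj.symm⟩)

end RC

end

section

/-!
Module RC-U8.  Cographic sets are unimodular.

Let `s ⊆ X` be finite and independent, `x = ∑ c a • a ∈ X`.  Choose `e a` with `u (e a) = a`
(`a ∈ s`) and `e x` with `u (e x) = x`.  If `x ∈ s` the coordinates are `1` at `x` and `0`
elsewhere.  Otherwise `e x` differs from all `e a`, and the function `b : E → ℚ` with
`b (e x) = -1`, `b (e a) = c a`, `0` elsewhere, satisfies `∑ b e • u e = 0`, so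
`b e = π (hd e) - π (tl e)`.  Let `θ = π (tl (e x))`, so `π (hd (e x)) = θ - 1`, and let
`χ w = 1` if `π w ≥ θ`, else `0`; `b' e = χ (hd e) - χ (tl e)`.  By `dep` (with the potential
`χ`) `∑ b' e • u e = 0`, `b' e = 0` whenever `b e = 0`, `b' (e x) = -1`, all values of `b'` are
`0, 1, -1`.  So `b - b'` is a dependency supported on the `e a`, hence `b = b'` there by the
independence of `s`.  Thus `c a = b' (e a)`.
-/

namespace RC

open Submodule Module

variable {V : Type} [AddCommGroup V] [Module ℚ V]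

theorem uni_cographic_eq {s : Finset V} (hind : LinearIndepOn ℚ id (s : Set V)) (c d : V → ℚ)
    (h : ∑ a ∈ s, c a • a = ∑ a ∈ s, d a • a) : ∀ a ∈ s, c a = d a := by
  intro a ha
  have h1 := linearIndepOn_finset_iff.1 hind (fun a => c a - d a) (by
    simp only [sub_smul, Finset.sum_sub_distrib, id]
    rw [h, sub_self]) a ha
  exact sub_eq_zero.1 h1

theorem uni_cographic (X : Set V) (E W : Type) [Fintype E] [Fintype W] (u : E → V)
    (hd tl : E → W)
    (dep : ∀ a : E → ℚ, ∑ e, a e • u e = 0 ↔ ∃ π : W → ℚ, ∀ e, a e = π (hd e) - π (tl e))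
    (cov : ∀ x ∈ X, ∃ e, x = u e) : Uni X := by
  classical
  intro s c hs hind hx
  set x := ∑ a ∈ s, c a • a with hxdef
  by_cases hxs : x ∈ s
  · intro a ha
    have h1 : ∑ a ∈ s, c a • a = ∑ a ∈ s, (if a = x then (1 : ℚ) else 0) • a := by
      rw [← hxdef]
      simp [ite_smul, Finset.sum_ite_eq', hxs]
    have h2 := uni_cographic_eq hind c _ h1 a ha
    rw [h2]
    split_ifs <;> simp
  · have : Nonempty E := ⟨(cov x hx).choose⟩
    choose! e he using cov
    have hex : x = u (e x) := he x hx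
    have hea : ∀ a ∈ s, a = u (e a) := fun a ha => he a (hs ha)
    have hinj : Set.InjOn e (s : Set V) := by
      intro a ha b hb hab
      rw [hea a ha, hea b hb, hab]
    have hne : ∀ a ∈ s, e a ≠ e x := by
      intro a ha hab
      apply hxs
      rw [hex, ← hab, ← hea a ha]
      exact ha
    let b : E → ℚ := fun f => (∑ a ∈ s, if e a = f then c a else 0) - if e x = f then 1 else 0
    have hbx : b (e x) = -1 := by
      simp only [b]
      rw [Finset.sum_eq_zero]
      · simp
      · intro a ha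
        rw [if_neg (hne a ha)]
    have hba : ∀ a ∈ s, b (e a) = c a := by
      intro a ha
      simp only [b]
      rw [if_neg (fun h => hne a ha h.symm), sub_zero]
      rw [Finset.sum_eq_single a]
      · simp
      · intro a' ha' hne'
        rw [if_neg]
        intro h
        exact hne' (hinj ha' ha h)
      · intro h
        exact absurd ha h
    have hb0 : ∀ f, f ≠ e x → (∀ a ∈ s, e a ≠ f) → b f = 0 := by
      intro f hf hfa
      simp only [b]
      rw [if_neg (fun h => hf h.symm), sub_zero]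
      apply Finset.sum_eq_zero
      intro a ha
      rw [if_neg (hfa a ha)]
    -- general summation formula
    have hsum : ∀ g : E → ℚ, (∀ f, f ≠ e x → (∀ a ∈ s, e a ≠ f) → g f = 0) →
        ∑ f, g f • u f = ∑ a ∈ s, g (e a) • a + g (e x) • x := by
      intro g hg
      have h1 : ∑ f, g f • u f = ∑ f ∈ insert (e x) (s.image e), g f • u f := by
        symm
        apply Finset.sum_subset (Finset.subset_univ _)
        intro f _ hf
        rw [Finset.mem_insert, not_or] at hf
        rw [hg f hf.1, zero_smul]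
        intro a ha h
        exact hf.2 (Finset.mem_image.2 ⟨a, ha, h⟩)
      rw [h1, Finset.sum_insert, Finset.sum_image hinj, ← hex, add_comm]
      · congr 1
        apply Finset.sum_congr rfl
        intro a ha
        rw [← hea a ha]
      · intro h
        obtain ⟨a, ha, h⟩ := Finset.mem_image.1 h
        exact hne a ha h
    have hbs : ∑ f, b f • u f = 0 := by
      rw [hsum b hb0, hbx]
      have : ∑ a ∈ s, b (e a) • a = x := by
        rw [hxdef]
        apply Finset.sum_congr rfl
        intro a ha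
        rw [hba a ha]
      rw [this]
      simp
    obtain ⟨π, hπ⟩ := (dep b).1 hbs
    let χ : W → ℚ := fun w => if π (tl (e x)) ≤ π w then 1 else 0
    let b' : E → ℚ := fun f => χ (hd f) - χ (tl f)
    have hb's : ∑ f, b' f • u f = 0 := (dep b').2 ⟨χ, fun f => rfl⟩
    have hb'0 : ∀ f, b f = 0 → b' f = 0 := by
      intro f hf
      have h1 := hπ f
      rw [hf] at h1
      have h2 : π (hd f) = π (tl f) := by linarith
      simp only [b', χ, h2, sub_self]
    have hb'x : b' (e x) = -1 := by
      have h1 := hπ (e x)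
      rw [hbx] at h1
      simp only [b', χ]
      rw [if_neg (by (clear * - h1; linarith)), if_pos le_rfl]
      norm_num
    have hval : ∀ f, b' f = 0 ∨ b' f = 1 ∨ b' f = -1 := by
      intro f
      simp only [b', χ]
      split_ifs <;> simp
    have h3 := hsum b' (fun f h1 h2 => hb'0 f (hb0 f h1 h2))
    rw [hb's, hb'x] at h3
    have h4 : ∑ a ∈ s, c a • a = ∑ a ∈ s, b' (e a) • a := by
      rw [← hxdef]
      have : (0 : V) = ∑ a ∈ s, b' (e a) • a - x := by
        rw [h3]
        simp [sub_eq_add_neg]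
      exact (sub_eq_zero.1 this.symm).symm
    intro a ha
    rw [uni_cographic_eq hind c _ h4 a ha]
    exact hval _

end RC

end

section

/-!
Module RC-D1.  First properties of `Dec`.

`dec_uni`: induction on the derivation; `uni_graphic`, `uni_cographic`, `uni_r10`; for `emb` use
`uni_mono` (in `V'`) for `f '' X` and `uni_of_map`; for `sum` use `uni_glue` and `uni_mono`
(the hypotheses are literally those of `uni_glue`).

`dec_mono`: `Dec.emb` with `f = id`.
`dec_map`: `Dec.emb` with a map `k : W → V`, `k (f y) = y` on `span X` (`exists_factor` with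
`g = id`); `span (f '' X) = (span X).map f`.
`dec_mkQ`: `Dec.emb` with `k : W → V / span {x}`, `k (f y) = mkQ y` on `span X`
(`exists_factor`); `k (f y) = 0` means `y ∈ span {x}`, so `f y = 0`.
`dec_claw`: `Dec.sum` in `V × ℚ` with `A = inl '' X`, `B = clawSet p q`, `p' = (p,0)`,
`q' = (q,0)` (independent), span condition `claw_span`; `Dec (A ∪ {p', q', p' + q'})` by `emb`
with `f = LinearMap.fst`; `Dec (B ∪ ...)` is `Dec.graphic` with `claw_graphic`.
-/

namespace RC

open Submodule Module

variable {V W : Type} [AddCommGroup V] [Module ℚ V] [AddCommGroup W] [Module ℚ W]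

theorem dec_uni {X : Set V} (h : Dec V X) : Uni X := by
  induction h with
  | graphic X W φ inj edge => exact uni_graphic X W φ inj edge
  | cographic X E W u hd tl dep cov => exact uni_cographic X E W u hd tl dep cov
  | r10 X φ inj col => exact uni_r10 X φ inj col
  | emb X Y f inj sub h ih =>
    refine uni_of_map f inj (uni_mono ih ?_)
    rintro _ ⟨x, hx, rfl⟩
    exact sub x hx
  | sum A B p q hpq h hA hB ihA ihB =>
    exact uni_mono (uni_glue hpq ihA ihB h) (fun x hx => Or.inr (Or.inl (Or.inl hx)))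

theorem dec_mono {X Y : Set V} (hY : Dec V Y) (h : ∀ x ∈ X, x = 0 ∨ x ∈ Y ∨ -x ∈ Y) :
    Dec V X :=
  Dec.emb X Y LinearMap.id (fun _ _ h0 => h0) (fun x hx => h x hx) hY

theorem dec_map (f : V →ₗ[ℚ] W) {X : Set V} (hX : Dec V X)
    (hk : ∀ y ∈ span ℚ X, f y = 0 → y = 0) : Dec W (f '' X) := by
  obtain ⟨k, hkf⟩ := exists_factor f (LinearMap.id : V →ₗ[ℚ] V) (span ℚ X)
    (fun y hy h0 => hk y hy h0)
  refine Dec.emb (f '' X) X k ?_ ?_ hX
  · intro y hy h0
    rw [← Submodule.map_span] at hy
    obtain ⟨z, hz, rfl⟩ := hy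
    have hz0 : z = 0 := by
      have := hkf z hz
      rw [h0] at this
      exact this.symm
    rw [hz0, map_zero]
  · rintro _ ⟨x, hx, rfl⟩
    refine Or.inr (Or.inl ?_)
    rw [hkf x (subset_span hx)]
    exact hx

theorem dec_mkQ (f : V →ₗ[ℚ] W) {X : Set V} {x : V} (hx : x ∈ X) (h0 : f x = 0)
    (hk : ∀ y ∈ span ℚ X, f y = 0 → y ∈ span ℚ {x})
    (h : Dec (V ⧸ span ℚ {x}) ((span ℚ {x}).mkQ '' X)) : Dec W (f '' X) := by
  obtain ⟨k, hkf⟩ := exists_factor f ((span ℚ {x}).mkQ) (span ℚ X) (fun y hy h1 => by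
    rw [Submodule.mkQ_apply, Submodule.Quotient.mk_eq_zero]
    exact hk y hy h1)
  refine Dec.emb (f '' X) ((span ℚ {x}).mkQ '' X) k ?_ ?_ h
  · intro y hy h1
    rw [← Submodule.map_span] at hy
    obtain ⟨z, hz, rfl⟩ := hy
    have hz0 : z ∈ span ℚ {x} := by
      have h2 := hkf z hz
      rw [h1, Submodule.mkQ_apply] at h2
      exact (Submodule.Quotient.mk_eq_zero _).1 h2.symm
    obtain ⟨t, rfl⟩ := Submodule.mem_span_singleton.1 hz0
    rw [map_smul, h0, smul_zero]
  · rintro _ ⟨y, hy, rfl⟩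
    refine Or.inr (Or.inl ?_)
    rw [hkf y (subset_span hy)]
    exact ⟨y, hy, rfl⟩

theorem dec_claw {X : Set V} {p q : V} (hX : Dec V X) (hp : p ∈ X) (hq : q ∈ X)
    (hs : p + q ∈ X) (li : LinearIndependent ℚ ![p, q]) :
    Dec (V × ℚ)
      ((fun x : V => (x, (0 : ℚ))) '' X ∪ {((0 : V), (1 : ℚ)), (p, 1), (-q, 1)}) := by
  have hpq' : ((p, (0 : ℚ)) : V × ℚ) + (q, (0 : ℚ)) = (p + q, (0 : ℚ)) := by
    rw [Prod.mk_add_mk, add_zero]
  have key := Dec.sum (V := V × ℚ) ((fun x : V => (x, (0 : ℚ))) '' X) (clawSet p q)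
    ((p, (0 : ℚ)) : V × ℚ) ((q, (0 : ℚ)) : V × ℚ) ?_
    (claw_span X p q (subset_span hp) (subset_span hq)) ?_ ?_
  · exact key
  · left
    have h1 := li.map' (LinearMap.inl ℚ V ℚ)
      (LinearMap.ker_eq_bot.2 LinearMap.inl_injective)
    have h2 : (⇑(LinearMap.inl ℚ V ℚ) ∘ ![p, q]) =
        ![((p, (0 : ℚ)) : V × ℚ), (q, (0 : ℚ))] := by
      funext i
      fin_cases i <;> rfl
    rw [h2] at h1
    exact h1
  · rw [hpq']
    refine Dec.emb _ X (LinearMap.fst ℚ V ℚ) ?_ ?_ hX
    · intro y hy h0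
      have hle : span ℚ ((fun x : V => (x, (0 : ℚ))) '' X ∪
          {((p : V), (0 : ℚ)), (q, 0), (p + q, 0)}) ≤ LinearMap.ker (LinearMap.snd ℚ V ℚ) := by
        rw [Submodule.span_le]
        rintro z hz
        rw [SetLike.mem_coe, LinearMap.mem_ker, LinearMap.snd_apply]
        rcases hz with ⟨x, -, rfl⟩ | hz
        · rfl
        · rcases hz with rfl | rfl | rfl <;> rfl
      have h2 := hle hy
      rw [LinearMap.mem_ker, LinearMap.snd_apply] at h2
      rw [LinearMap.fst_apply] at h0
      exact Prod.ext h0 h2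
    · rintro z hz
      refine Or.inr (Or.inl ?_)
      rw [LinearMap.fst_apply]
      rcases hz with ⟨x, hx, rfl⟩ | hz
      · exact hx
      · rcases hz with rfl | rfl | rfl
        · exact hp
        · exact hq
        · exact hs
  · rw [hpq']
    obtain ⟨φ, h1, h2⟩ := claw_graphic li
    exact Dec.graphic _ (Fin 4) φ h1 h2

end RC

end

section

/-!
Module RC-D3.  Restriction and contraction of cographic sets.

`cographic_restrict`: let `E₁` be the subtype `P`.  Let `r` be the equivalence relation on `W`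
generated by `hd e ~ tl e` for all `e` with `¬ P e`; `W₁ = Quot r` (finite), `hd₁, tl₁` the
compositions.  A function `a₁` on `E₁` extended by `0` is a dependency iff it is the difference
of a potential `π` with `π (hd e) = π (tl e)` for all `e` with `¬ P e`, that is of a potential
which factors through `W₁`.

`con_cographic`: choose for the set `X` the subtype `P e := u e ∈ X`; by `cographic_restrict`
we may work with a family `u₁ : E₁ → V` whose range is `X`.  Let `u₁ e₀ = x` and
`E₂ = {e : E₁ // e ≠ e₀}`.  For `a : E₂ → ℚ`: `∑ a e • mkQ (u₁ e) = 0` iff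
`∑ a e • u₁ e = - t • x` for some `t` iff (dependency of `u₁`) there are `t, π` with
`a e = π (hd e) - π (tl e)` on `E₂` and `t = π (hd e₀) - π (tl e₀)` iff there is `π` with the
first property.  So `mkQ ∘ u₁` on `E₂` is a cographic family, `Dec.cographic` for its range, and
`mkQ '' X` is contained in the range together with `0` (`dec_mono`).
-/

namespace RC

open Submodule Module

theorem cographic_restrict {V : Type} [AddCommGroup V] [Module ℚ V] (E W : Type) [Fintype E]
    [Fintype W] (u : E → V) (hd tl : E → W)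
    (dep : ∀ a : E → ℚ, ∑ e, a e • u e = 0 ↔ ∃ π : W → ℚ, ∀ e, a e = π (hd e) - π (tl e))
    (P : E → Prop) [Fintype {e : E // P e}] :
    ∃ (W₁ : Type) (_ : Fintype W₁) (hd₁ tl₁ : {e : E // P e} → W₁),
      ∀ a : {e : E // P e} → ℚ, ∑ e, a e • u e.1 = 0 ↔
        ∃ π : W₁ → ℚ, ∀ e, a e = π (hd₁ e) - π (tl₁ e) := by
  classical
  let r : W → W → Prop := fun w w' => ∃ e, ¬ P e ∧ w = hd e ∧ w' = tl e
  refine ⟨Quot r, Fintype.ofFinite _, fun e => Quot.mk r (hd e.1), fun e => Quot.mk r (tl e.1),
    fun a => ?_⟩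
  let b : E → ℚ := fun e => if h : P e then a ⟨e, h⟩ else 0
  have hb1 : ∀ e : {e : E // P e}, b e.1 = a e := fun e => dif_pos e.2
  have hb2 : ∀ e : E, ¬ P e → b e = 0 := fun e he => dif_neg he
  have hsum : ∑ e : {e : E // P e}, a e • u e.1 = ∑ e, b e • u e := by
    have h1 : ∑ e ∈ Finset.univ.filter P, b e • u e = ∑ e, b e • u e := by
      refine Finset.sum_subset (Finset.subset_univ _) fun e _ he => ?_
      rw [hb2 e (fun h => he (Finset.mem_filter.2 ⟨Finset.mem_univ _, h⟩)), zero_smul]
    rw [← h1, Finset.sum_subtype (Finset.univ.filter P) (p := P)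
      (fun x => by rw [Finset.mem_filter]; exact ⟨fun h => h.2, fun h => ⟨Finset.mem_univ _, h⟩⟩)]
    exact Finset.sum_congr rfl fun e _ => by rw [hb1 e]
  rw [hsum, dep b]
  constructor
  · rintro ⟨π, hπ⟩
    refine ⟨Quot.lift π ?_, fun e => ?_⟩
    · rintro w w' ⟨e, he, rfl, rfl⟩
      have h1 := hπ e
      rw [hb2 e he] at h1
      exact sub_eq_zero.1 h1.symm
    · rw [← hb1 e]
      exact hπ e.1
  · rintro ⟨π, hπ⟩
    refine ⟨fun w => π (Quot.mk r w), fun e => ?_⟩
    by_cases he : P e
    · have h1 := hπ ⟨e, he⟩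
      rw [← hb1 ⟨e, he⟩] at h1
      exact h1
    · have h1 : Quot.mk r (hd e) = Quot.mk r (tl e) := Quot.sound ⟨e, he, rfl, rfl⟩
      show b e = π (Quot.mk r (hd e)) - π (Quot.mk r (tl e))
      rw [hb2 e he, h1, sub_self]

theorem con_cographic {V : Type} [AddCommGroup V] [Module ℚ V] (X : Set V) (E W : Type)
    [Fintype E] [Fintype W] (u : E → V) (hd tl : E → W)
    (dep : ∀ a : E → ℚ, ∑ e, a e • u e = 0 ↔ ∃ π : W → ℚ, ∀ e, a e = π (hd e) - π (tl e))
    (cov : ∀ x ∈ X, ∃ e, x = u e) {x : V} (hx : x ∈ X) :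
    Dec (V ⧸ span ℚ {x}) ((span ℚ {x}).mkQ '' X) := by
  classical
  obtain ⟨e₀, rfl⟩ := cov x hx
  have hsplit : ∀ b : E → ℚ, ∑ e, b e • u e =
      b e₀ • u e₀ + ∑ e : {e : E // e ≠ e₀}, b e.1 • u e.1 := by
    intro b
    rw [← Finset.add_sum_erase Finset.univ (fun e => b e • u e) (Finset.mem_univ e₀),
      Finset.sum_subtype (Finset.univ.erase e₀) (p := fun e => e ≠ e₀)
        (fun y => by
          rw [Finset.mem_erase]
          exact ⟨fun h => h.1, fun h => ⟨h, Finset.mem_univ _⟩⟩)]
  let u₂ : {e : E // e ≠ e₀} → V ⧸ span ℚ {u e₀} := fun e => (span ℚ {u e₀}).mkQ (u e.1)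
  refine dec_mono (Dec.cographic (Set.range u₂) {e : E // e ≠ e₀} W u₂ (fun e => hd e.1)
    (fun e => tl e.1) (fun a => ?_) ?_) ?_
  · have h1 : ∑ e, a e • u₂ e = (span ℚ {u e₀}).mkQ (∑ e, a e • u e.1) := by
      rw [map_sum]
      exact Finset.sum_congr rfl fun e _ => (map_smul _ _ _).symm
    rw [h1, Submodule.mkQ_apply, Submodule.Quotient.mk_eq_zero, Submodule.mem_span_singleton]
    constructor
    · rintro ⟨t, ht⟩
      let b : E → ℚ := fun e => if h : e ≠ e₀ then a ⟨e, h⟩ else -t
      have hb1 : ∀ e : {e : E // e ≠ e₀}, b e.1 = a e := fun e => dif_pos e.2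
      have hb0 : b e₀ = -t := dif_neg (fun h => h rfl)
      have h2 : ∑ e, b e • u e = 0 := by
        rw [hsplit b, hb0, Finset.sum_congr rfl (fun e _ => by rw [hb1 e]), ← ht, neg_smul,
          neg_add_cancel]
      obtain ⟨π, hπ⟩ := (dep b).1 h2
      refine ⟨π, fun e => ?_⟩
      rw [← hb1 e]
      exact hπ e.1
    · rintro ⟨π, hπ⟩
      have h2 := (dep (fun e => π (hd e) - π (tl e))).2 ⟨π, fun e => rfl⟩
      rw [hsplit (fun e => π (hd e) - π (tl e))] at h2
      refine ⟨-(π (hd e₀) - π (tl e₀)), ?_⟩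
      have h3 : ∑ e : {e : E // e ≠ e₀}, a e • u e.1 =
          ∑ e : {e : E // e ≠ e₀}, (π (hd e.1) - π (tl e.1)) • u e.1 :=
        Finset.sum_congr rfl fun e _ => by rw [hπ e]
      rw [h3, neg_smul]
      exact neg_eq_of_add_eq_zero_right h2
  · rintro _ ⟨e, rfl⟩
    exact ⟨e, rfl⟩
  · rintro _ ⟨y, hy, rfl⟩
    obtain ⟨e, rfl⟩ := cov y hy
    by_cases he : e = e₀
    · left
      rw [he, Submodule.mkQ_apply, Submodule.Quotient.mk_eq_zero]
      exact subset_span rfl
    · exact Or.inr (Or.inl ⟨⟨e, he⟩, rfl⟩)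

end RC

end

section

/-!
Module RC-R1.  Elementary facts on `Short`, `rk`, `nc`, `bd`, `Sys`.

`short_min`: take a dependent rainbow set of minimal cardinality.
`short_congr`: multiplying the vectors by nonzero scalars does not change dependence.
`short_map`: an injective linear map on the span does not change dependence
(`LinearIndepOn.map` / `linearIndepOn` iff).
`short_two`: the set `{e, e'}`.
`sys_card`: every colour class has one or two elements.
`short_drop`: some colour can be deleted.  If there is a colour with a single element `e`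
(`E.card < 2 * n`) delete it: `E' = E.erase e`, `nc c E' = n - 1`, `E'.card = E.card - 1`,
`rk v E' ≤ rk v E`, and `bd (n-1) (E.card-1) ≤ bd n E.card`
(`a - 1` colours of size one, `b` of size two).  Otherwise delete a colour with two elements:
`a = 0`, `bd (n-1) (E.card - 2) ≤ bd n E.card`.  `Sys` for `E'`: `cls` by `hC.mono`.
-/

namespace RC.Red

open Submodule Module

variable {ι κ V W : Type} [AddCommGroup V] [Module ℚ V] [AddCommGroup W] [Module ℚ W]

theorem short_mono {v : ι → V} {c : ι → κ} {E E' : Finset ι} {k k' : ℕ} (h : Short v c E k)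
    (hE : E ⊆ E') (hk : k ≤ k') : Short v c E' k' := by
  obtain ⟨T, hT, hc, hi, hd⟩ := h
  exact ⟨T, hT.trans hE, hc.trans hk, hi, hd⟩

theorem short_min [DecidableEq ι] {v : ι → V} {c : ι → κ} {E : Finset ι} {k : ℕ}
    (h : Short v c E k) : ∃ T : Finset ι, T ⊆ E ∧ T.card ≤ k ∧ Set.InjOn c (T : Set ι) ∧
    ¬ LinearIndepOn ℚ v (T : Set ι) ∧
    ∀ e ∈ T, LinearIndepOn ℚ v ((T.erase e : Finset ι) : Set ι) := by
  obtain ⟨T, hT, hc, hi, hd⟩ := h
  induction T using Finset.strongInduction with
  | H T ih =>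
    by_cases hall : ∀ e ∈ T, LinearIndepOn ℚ v ((T.erase e : Finset ι) : Set ι)
    · exact ⟨T, hT, hc, hi, hd, hall⟩
    · push Not at hall
      obtain ⟨e, he, hdep⟩ := hall
      refine ih (T.erase e) (Finset.erase_ssubset he) ((Finset.erase_subset e T).trans hT)
        ((Finset.card_le_card (Finset.erase_subset e T)).trans hc) (hi.mono ?_) hdep
      exact Finset.coe_subset.2 (Finset.erase_subset e T)

theorem short_map (f : V →ₗ[ℚ] W) {v : ι → V} {c : ι → κ} {E : Finset ι} {k : ℕ}
    (hf : ∀ y ∈ span ℚ (v '' (E : Set ι)), f y = 0 → y = 0) :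
    Short (fun e => f (v e)) c E k ↔ Short v c E k := by
  have key : ∀ T : Finset ι, T ⊆ E →
      (LinearIndepOn ℚ (fun e => f (v e)) (T : Set ι) ↔ LinearIndepOn ℚ v (T : Set ι)) := by
    intro T hT
    constructor
    · intro h
      exact LinearIndepOn.of_comp f h
    · intro h
      refine h.map_injOn f ?_
      intro x hx y hy hxy
      have hle : span ℚ (v '' (T : Set ι)) ≤ span ℚ (v '' (E : Set ι)) :=
        span_mono (Set.image_mono (Finset.coe_subset.2 hT))
      exact sub_eq_zero.1 (hf (x - y) (sub_mem (hle hx) (hle hy)) (by rw [map_sub, hxy, sub_self]))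
  constructor
  · rintro ⟨T, hT, hc, hi, hd⟩
    exact ⟨T, hT, hc, hi, fun h => hd ((key T hT).2 h)⟩
  · rintro ⟨T, hT, hc, hi, hd⟩
    exact ⟨T, hT, hc, hi, fun h => hd ((key T hT).1 h)⟩

theorem rk_map (f : V →ₗ[ℚ] W) {v : ι → V} {E : Finset ι}
    (hf : ∀ y ∈ span ℚ (v '' (E : Set ι)), f y = 0 → y = 0) :
    rk (fun e => f (v e)) E = rk v E := by
  have h1 : span ℚ ((fun e => f (v e)) '' (E : Set ι)) =
      (span ℚ (v '' (E : Set ι))).map f := by
    rw [Submodule.map_span, Set.image_image]
  have h2 : Function.Injective (f.domRestrict (span ℚ (v '' (E : Set ι)))) := by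
    rw [injective_iff_map_eq_zero]
    rintro ⟨y, hy⟩ h0
    exact Subtype.ext (hf y hy h0)
  unfold rk
  rw [h1, ← LinearMap.range_domRestrict, LinearMap.finrank_range_of_inj h2]

theorem rk_mono {v : ι → V} {E E' : Finset ι} (h : E ⊆ E') : rk v E ≤ rk v E' := by
  have : FiniteDimensional ℚ (span ℚ (v '' (E' : Set ι))) :=
    FiniteDimensional.span_of_finite ℚ (E'.finite_toSet.image v)
  exact Submodule.finrank_mono (span_mono (Set.image_mono (Finset.coe_subset.2 h)))

private theorem class_card {C : ClsT} {v : ι → V} {c : ι → κ} {E : Finset ι} (h : Sys C v c E)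
    [DecidableEq κ] (a : κ) : (E.filter (fun x => c x = a)).card ≤ 2 := by
  by_contra hlt
  rw [not_le, Finset.two_lt_card] at hlt
  obtain ⟨x, hx, y, hy, z, hz, hxy, hxz, hyz⟩ := hlt
  rw [Finset.mem_filter] at hx hy hz
  rcases h.two x hx.1 y hy.1 z hz.1 (hx.2.trans hy.2.symm) (hx.2.trans hz.2.symm) with h1 | h1 | h1
  · exact hxy h1
  · exact hxz h1
  · exact hyz h1

theorem sys_card {C : ClsT} {v : ι → V} {c : ι → κ} {E : Finset ι} (h : Sys C v c E) :
    nc c E ≤ E.card ∧ E.card ≤ 2 * nc c E := by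
  classical
  unfold nc
  refine ⟨?_, ?_⟩
  · convert Finset.card_image_le (s := E) (f := c)
  · convert Finset.card_le_mul_card_image (f := c) E 2 (fun a _ => class_card h a)

/-- Subsystems (without the rank condition, which is a hypothesis). -/
theorem sys_sub {C : ClsT} (hC : Cls C) {v : ι → V} {c : ι → κ} {E E' : Finset ι}
    (h : Sys C v c E) (hE : E' ⊆ E) (hr : rk v E' + 1 ≤ nc c E') : Sys C v c E' where
  cls := hC.mono h.cls (fun x hx =>
    Or.inr (Or.inl (Set.image_mono (Finset.coe_subset.2 hE) hx)))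
  ne := fun e he => h.ne e (hE he)
  two := fun e he e' he' e'' he'' => h.two e (hE he) e' (hE he') e'' (hE he'')
  par := fun e he e' he' => h.par e (hE he) e' (hE he')
  rank := hr

private theorem bd_aux {n m m' : ℕ} (hn : 1 ≤ n) (h1 : n - 1 ≤ m') (h2 : m' ≤ 2 * (n - 1))
    (h3 : n ≤ m) (h4 : m ≤ 2 * n) (h5 : m' + 1 = m ∨ m' + 2 = m) :
    bd (n - 1) m' ≤ bd n m := by
  unfold bd
  split_ifs <;> omega

theorem short_drop {C : ClsT} (hC : Cls C) {n : ℕ} (ih : ∀ n' < n, GC C n') {v : ι → V}
    {c : ι → κ} {E : Finset ι} (h : Sys C v c E) (hn : nc c E = n) (hr : rk v E + 1 < n) :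
    Short v c E (bd n E.card) := by
  classical
  have hE : E.Nonempty := by
    rw [Finset.nonempty_iff_ne_empty]
    rintro rfl
    have : nc c (∅ : Finset ι) = 0 := by simp [nc]
    omega
  obtain ⟨e, he⟩ := hE
  have hsub : E.filter (fun x => c x ≠ c e) ⊆ E := Finset.filter_subset _ _
  have hnc : nc c (E.filter (fun x => c x ≠ c e)) = n - 1 := by
    have h1 : (E.filter (fun x => c x ≠ c e)).image c = (E.image c).erase (c e) := by
      ext a
      simp only [Finset.mem_image, Finset.mem_filter, Finset.mem_erase]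
      constructor
      · rintro ⟨x, ⟨hx, hne⟩, rfl⟩
        exact ⟨hne, x, hx, rfl⟩
      · rintro ⟨hne, x, hx, rfl⟩
        exact ⟨x, ⟨hx, hne⟩, rfl⟩
    have h2 : nc c E = (E.image c).card := by
      unfold nc
      congr
    have h3 : nc c (E.filter (fun x => c x ≠ c e)) =
        ((E.filter (fun x => c x ≠ c e)).image c).card := by
      unfold nc
      congr
    rw [h3, h1, Finset.card_erase_of_mem (Finset.mem_image_of_mem c he), ← h2, hn]
  have hr' : rk v (E.filter (fun x => c x ≠ c e)) + 1 ≤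
      nc c (E.filter (fun x => c x ≠ c e)) := by
    have := rk_mono (v := v) hsub
    omega
  have hs := sys_sub hC h hsub hr'
  have hc1 := sys_card h
  have hc2 := sys_card hs
  have hcard : (E.filter (fun x => c x = c e)).card + (E.filter (fun x => c x ≠ c e)).card =
      E.card := Finset.card_filter_add_card_filter_not _
  have hk1 : 1 ≤ (E.filter (fun x => c x = c e)).card :=
    Finset.card_pos.2 ⟨e, Finset.mem_filter.2 ⟨he, rfl⟩⟩
  have hk2 := class_card h (c e)
  rw [hn] at hc1
  rw [hnc] at hc2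
  have hS := ih (n - 1) (by omega) ι κ V v c _ hs hnc
  refine short_mono hS hsub ?_
  refine bd_aux (by omega) hc2.1 hc2.2 hc1.1 hc1.2 ?_
  omega

end RC.Red

end

section

/-!
Module RC-C5.  The cost lemma for `N = 1`.  `FF u 1 = span {u 0 false}`.

`costQ_one`: `q = t • u 0 false`, one level, `(1 + 1) / 2 = 1`.

`costP_one`: let `w = u 0 false ≠ 0`.
* `k = 1`: `a 0 false`, `a 0 true` are nonzero multiples of `w` in `X`, so each is `± w`
  (`uni_par`), hence `a 0 false = ± a 0 true`, contradiction to `dne`, `one`.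
* `k ≥ 2`: `δ j = a j false - a j true = ε j • w` with `ε j = ± 1` (`diff_coord`,
  `circ_notMem`, `dne`), `∑ a j false = α • w`.  For every `S ⊆ range k` the sum with `g = true`
  on `S` equals `(α - ∑_{S} ε j) • w`, so `α - ∑_S ε j ∈ {0,1,-1}` (`circ_coord`).
  Taking `S = {ε = 1}` and `S = {ε = -1}`: the two values differ by `k`, so `k ≤ 2`.
  For `k = 2`: `α, α - ε 0, α - ε 1, α - ε 0 - ε 1` are in `{0,1,-1}`, so one of them is `0`
  (if `ε 0 = ε 1` then `α = ε 0` and `α - ε 0 = 0`; otherwise `α = 0`).  `relP_of_sum`;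
  the bound is `2 + (1 + 1 - 2) / 2 = 2`.
-/

namespace RC

open Submodule Module Finset

theorem costQ_one : CostQ 1 := by
  intro V _ _ X u q hU hc hq hqF hq0
  obtain ⟨α, hα⟩ := chain_expand hc (fun _ => false) hqF
  refine ⟨α, fun _ => false, hα, ?_⟩
  calc ((range 1).filter (fun i => α i ≠ 0)).card ≤ (range 1).card := card_filter_le _ _
    _ ≤ (1 + 1) / 2 := by simp

theorem costP_one (k : ℕ) (hk : 1 ≤ k) : CostP 1 k := by
  intro V _ _ X u a hU hc h
  have hb : k ≤ k + (1 + 1 - k) / 2 := Nat.le_add_right _ _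
  have hw : u 0 false ≠ 0 := by
    intro h0
    apply hc.ind 0 Nat.zero_lt_one
    rw [h0]
    exact zero_mem _
  rcases Nat.lt_or_ge 1 k with h2 | h2
  · apply relP_of_sum h.pos hb
    have key : ∀ g : ℕ → Bool, ∃ c : ℚ, ∑ j ∈ range k, a j (g j) = c • u 0 false ∧
        (c = 0 ∨ c = 1 ∨ c = -1) := by
      intro g
      obtain ⟨α, hα⟩ := chain_expand hc (fun _ => false) (circ_sum_mem h g)
      exact ⟨α 0, by simpa using hα,
        circ_coord hU hc h (fun _ => false) g α hα 0 Nat.zero_lt_one⟩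
    obtain ⟨e, he, he'⟩ : ∃ e : ℚ, a 0 false - a 0 true = e • u 0 false ∧
        (e = 1 ∨ e = -1) := by
      obtain ⟨α, hα⟩ := chain_expand hc (fun _ => false) (h.dif 0 h.pos)
      have h3 := diff_coord hU hc (h.mem 0 h.pos false) (h.mem 0 h.pos true)
        (circ_notMem h h2 h.pos false) (fun _ => false) α hα 0 Nat.zero_lt_one
      have h4 : a 0 false - a 0 true = α 0 • u 0 false := by simpa using hα
      refine ⟨α 0, h4, ?_⟩
      rcases h3 with h3 | h3
      · exfalso
        apply h.dne 0 h.pos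
        rw [h3, zero_smul, sub_eq_zero] at h4
        exact h4
      · exact h3
    obtain ⟨c1, hc1, hc1'⟩ := key (fun _ => false)
    obtain ⟨c2, hc2, hc2'⟩ := key (fun j => decide (j = 0))
    have hs : ∑ j ∈ range k, a j false - ∑ j ∈ range k, a j (decide (j = 0)) =
        a 0 false - a 0 true := by
      rw [← Finset.add_sum_erase (range k) (fun j => a j false) (mem_range.2 h.pos),
        ← Finset.add_sum_erase (range k) (fun j => a j (decide (j = 0))) (mem_range.2 h.pos)]
      have : ∑ j ∈ (range k).erase 0, a j (decide (j = 0)) =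
          ∑ j ∈ (range k).erase 0, a j false := by
        apply sum_congr rfl
        intro j hj
        rw [decide_eq_false (ne_of_mem_erase hj)]
      rw [this]
      simp
    have hdiff : c1 - c2 = e := by
      have h5 : (c1 - c2 - e) • u 0 false = 0 := by
        rw [sub_smul, sub_smul, ← hc1, ← hc2, ← he, hs, sub_self]
      rcases smul_eq_zero.1 h5 with h5 | h5
      · (clear * - h5; linarith)
      · exact absurd h5 hw
    by_cases h6 : c1 = 0
    · exact ⟨fun _ => false, by rw [hc1, h6, zero_smul]⟩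
    by_cases h7 : c2 = 0
    · exact ⟨fun j => decide (j = 0), by rw [hc2, h7, zero_smul]⟩
    exfalso
    rcases hc1' with h8 | h8 | h8 <;> rcases hc2' with h9 | h9 | h9 <;>
      rcases he' with h10 | h10 <;> first
      | exact h6 h8
      | exact h7 h9
      | (rw [h8, h9, h10] at hdiff; norm_num at hdiff)
  · exfalso
    have hk1 : k = 1 := by omega
    subst hk1
    obtain ⟨n1, n2, n3⟩ := h.one rfl
    have hpar : ∀ y ∈ X, y ∈ FF u 1 → y ≠ 0 → y = u 0 false ∨ y = -u 0 false := by
      intro y hyX hyF hy0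
      refine uni_par hU (hc.mem 0 Nat.zero_lt_one false) hyX hw hy0 ?_
      obtain ⟨α, hα⟩ := chain_expand hc (fun _ => false) hyF
      rw [LinearIndependent.pair_iff' hw]
      intro hn
      exact hn (α 0) (by simpa using hα.symm)
    have hF0 : a 0 false ∈ FF u 1 := by simpa using h.sum
    have hF1 : a 0 true ∈ FF u 1 := by
      have := sub_mem hF0 (h.dif 0 h.pos)
      simpa using this
    have hd := h.dne 0 h.pos
    rcases hpar _ (h.mem 0 h.pos false) hF0 n1 with h3 | h3 <;>
      rcases hpar _ (h.mem 0 h.pos true) hF1 n2 with h4 | h4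
    · exact hd (by rw [h3, h4])
    · exact n3 (by rw [h3, h4, neg_neg])
    · exact n3 (by rw [h3, h4])
    · exact hd (by rw [h3, h4])

end RC

end

section

/-!
Module RC-C6.  `CostQ N`, `CostP N 1`, `1 ≤ N` imply `CostQ (N + 1)`.

Let `q ∈ X ⊓ FF u (N+1)`, `q ≠ 0`, `q - c • u N false ∈ FF u N`.
* `c = 0`: `CostQ N`, `relQ_succ`, `(N + 1)/2 ≤ (N + 2)/2`.
* `c ≠ 0`: by `fst_coord` `c = ± 1`.  If `q = ± u N b` for some `b`, done (one level).
  Otherwise let `m = mkQ (span {q})`, `X' = m '' X` (unimodular by `uni_con` with `S = {q}`),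
  `u' i b = m (u i b)`, and `a' 0 b = m (u N b)` (any value for other indices), `k = 1`.
  `FF u N ⊓ span {q} = ⊥` (as `c ≠ 0`), so `m` is injective on `FF u N` and
  `FF u' i = (FF u i).map m`.
  `Chain X' u' N`: clear (`u i false ∉ FF u i ⊔ span {q}` because `q ∉ FF u N` and `i < N`).
  `Circ X' u' N a' 1`: `dif`: `u N false - u N true ∈ FF u N`; `dne`: this difference is nonzero
  (`0 < N`) and in `FF u N`, so its image is nonzero; `sum`: `m (u N false)`
  `= m (u N false - c⁻¹ • q) ∈ (FF u N).map m`; `min` trivial.  `one`: `m (u N b) ≠ 0`, as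
  `u N b = t • q` would give `u N b = ± q` (`uni_par`).  Suppose
  `m (u N false) = - m (u N true)`: `u N false + u N true = t • q`, modulo `FF u N`:
  `2 = t c`, so `t = 2 c` (`c = ± 1`) and `d = u N false - u N true`
  `= 2 • (u N false - c • q)`.  In a basis `u i (f i)` (`i < N`) the coordinates of `d` are
  `0,1,-1` (`diff_coord` with `e = u N false`), those of `u N false - c • q` also
  (`diff_coord` with `e = u N false`, `e' = c • q`, allow `-q ∈ X` by replacing `X` by
  `X ∪ -X`, or `fst_coord` for `q` with the basis `u i (f i)`, `i < N + 1`), so `d = 0`,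
  contradiction.
  `CostP N 1` gives a nontrivial relation `∑ α i • u i (f i) + μ • u N (g 0) = t • q` with at most
  `1 + N / 2` nonzero coefficients.  `t ≠ 0`, since the levels `0..N` are independent
  (`chain_li` for `N + 1`).  Divide by `t`: `RelQ u q (N+1) (1 + N/2)` and
  `1 + N / 2 = (N + 2) / 2`.
-/

namespace RC

open Submodule Module Finset

theorem costQ_succ {N : ℕ} (hN : 1 ≤ N) (hQ : CostQ N) (hP : CostP N 1) : CostQ (N + 1) := by
  intro V _ _ X u q hU hc hqX hq hq0
  classical
  have hcN : Chain X u N :=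
    { mem := fun i hi b => hc.mem i (by omega) b
      ind := fun i hi => hc.ind i (by omega)
      dif := fun i hi => hc.dif i (by omega)
      dne := fun i hi h0 => hc.dne i (by omega) h0 }
  have hNnot : u N false ∉ FF u N := hc.ind N (by omega)
  have hδ : u N false - u N true ∈ FF u N := hc.dif N (by omega)
  have hNnot' : u N true ∉ FF u N := by
    intro h
    apply hNnot
    have := add_mem hδ h
    rwa [sub_add_cancel] at this
  obtain ⟨w, hw, y, hy, hwy⟩ := Submodule.mem_sup.1 (FF_succ u N ▸ hq)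
  obtain ⟨c, rfl⟩ := mem_span_singleton.1 hy
  by_cases hc0 : c = 0
  · subst hc0
    have hqw : q = w := by rw [← hwy, zero_smul, add_zero]
    obtain ⟨α, f, h1, h2⟩ := relQ_succ (hQ V X u q hU hcN hqX (hqw ▸ hw) hq0)
    exact ⟨α, f, h1, h2.trans (by omega)⟩
  have hqnot : q ∉ FF u N := by
    intro h
    apply hNnot
    have h1 : c • u N false ∈ FF u N := by
      have : c • u N false = q - w := by rw [← hwy]; abel
      rw [this]
      exact sub_mem h hw
    have h2 := Submodule.smul_mem _ c⁻¹ h1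
    rwa [smul_smul, inv_mul_cancel₀ hc0, one_smul] at h2
  -- coordinates of `q`
  obtain ⟨α, hα⟩ := chain_expand hcN (fun _ => false) hw
  have hcoord : ∀ i < N + 1, (if i = N then c else α i) = 0 ∨ (if i = N then c else α i) = 1 ∨
      (if i = N then c else α i) = -1 := by
    refine fst_coord hU hc hqX (fun _ => false) (fun i => if i = N then c else α i) ?_
    rw [sum_range_succ, if_pos rfl, ← hwy, hα]
    congr 1
    refine sum_congr rfl fun i hi => ?_
    rw [if_neg (ne_of_lt (mem_range.1 hi))]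
  have hcc : c = 1 ∨ c = -1 := by
    rcases hcoord N (by omega) with h | h | h <;> rw [if_pos rfl] at h
    · exact absurd h hc0
    · exact Or.inl h
    · exact Or.inr h
  have hcoordα : ∀ i < N, α i = 0 ∨ α i = 1 ∨ α i = -1 := by
    intro i hi
    have := hcoord i (by omega)
    rwa [if_neg (ne_of_lt hi)] at this
  have hc2 : c * c = 1 := by rcases hcc with h | h <;> rw [h] <;> norm_num
  by_cases hone : ∃ b, q = u N b ∨ q = -u N b
  · obtain ⟨b, hb⟩ := hone
    have h1 : ∃ s : ℚ, q = s • u N b := by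
      rcases hb with hb | hb
      · exact ⟨1, by rw [one_smul]; exact hb⟩
      · exact ⟨-1, by rw [neg_smul, one_smul]; exact hb⟩
    obtain ⟨s, hs⟩ := h1
    refine ⟨fun i => if i = N then s else 0, fun _ => b, ?_, ?_⟩
    · rw [sum_range_succ]
      beta_reduce
      rw [if_pos rfl, sum_eq_zero, zero_add]
      · exact hs
      · intro i hi
        rw [if_neg (ne_of_lt (mem_range.1 hi)), zero_smul]
    · have : ((range (N + 1)).filter (fun i => (if i = N then s else 0) ≠ 0)) ⊆ {N} := by
        intro i hi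
        rw [mem_filter] at hi
        by_contra h
        rw [mem_singleton] at h
        exact hi.2 (if_neg h)
      refine (card_le_card this).trans ?_
      rw [card_singleton]
      omega
  push Not at hone
  -- the quotient
  set m : V →ₗ[ℚ] (V ⧸ span ℚ {q}) := (span ℚ {q}).mkQ with hm
  have hker : ∀ y : V, m y = 0 → ∃ t : ℚ, t • q = y := by
    intro y hy
    have : y ∈ span ℚ {q} := by
      rw [hm, mkQ_apply, Submodule.Quotient.mk_eq_zero] at hy
      exact hy
    exact mem_span_singleton.1 this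
  have hmq : m q = 0 := by
    rw [hm, mkQ_apply, Submodule.Quotient.mk_eq_zero]
    exact mem_span_singleton_self q
  have hinj : ∀ y ∈ FF u N, m y = 0 → y = 0 := by
    intro y hy h0
    obtain ⟨t, ht⟩ := hker y h0
    by_cases ht0 : t = 0
    · rw [← ht, ht0, zero_smul]
    · exfalso
      apply hqnot
      have h2 := Submodule.smul_mem _ t⁻¹ hy
      rwa [← ht, smul_smul, inv_mul_cancel₀ ht0, one_smul] at h2
  have hU' : Uni (m '' X) := by
    refine uni_con m hU (S := {q}) (Set.singleton_subset_iff.2 hqX) ?_ ?_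
    · intro s hs
      rw [Set.mem_singleton_iff] at hs
      rw [hs, hmq]
    · intro y _ hy
      obtain ⟨t, ht⟩ := hker y hy
      exact mem_span_singleton.2 ⟨t, ht⟩
  have hFF : ∀ i, FF (fun i b => m (u i b)) i = (FF u i).map m := by
    intro i
    unfold FF
    rw [Submodule.map_span]
    congr 1
    ext z
    constructor
    · rintro ⟨j, hj, rfl⟩
      exact ⟨u j false, ⟨j, hj, rfl⟩, rfl⟩
    · rintro ⟨_, ⟨j, hj, rfl⟩, rfl⟩
      exact ⟨j, hj, rfl⟩
  have hc' : Chain (m '' X) (fun i b => m (u i b)) N := by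
    refine ⟨fun i hi b => ⟨_, hcN.mem i hi b, rfl⟩, ?_, ?_, ?_⟩
    · intro i hi h
      rw [hFF] at h
      obtain ⟨z, hz, hzi⟩ := h
      have h1 : u i false - z = 0 := by
        refine hinj _ (sub_mem ?_ (FF_mono u (by omega) hz)) ?_
        · exact subset_span ⟨i, hi, rfl⟩
        · rw [map_sub, hzi, sub_self]
      rw [sub_eq_zero] at h1
      exact hcN.ind i hi (h1 ▸ hz)
    · intro i hi
      rw [hFF, ← map_sub]
      exact ⟨_, hcN.dif i hi, rfl⟩
    · intro i hi h0 h
      have h1 : u i false - u i true = 0 := by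
        refine hinj _ (FF_mono u (by omega) (hcN.dif i hi)) ?_
        rw [map_sub]
        exact sub_eq_zero.2 h
      exact hcN.dne i hi h0 (sub_eq_zero.1 h1)
  have hNX : ∀ b, u N b ∈ X := fun b => hc.mem N (by omega) b
  have hNne : ∀ b, u N b ≠ 0 := by
    intro b h
    cases b
    · exact hNnot (h ▸ zero_mem _)
    · exact hNnot' (h ▸ zero_mem _)
  have hmne : ∀ b, m (u N b) ≠ 0 := by
    intro b h
    obtain ⟨t, ht⟩ := hker _ h
    have h1 : ¬ LinearIndependent ℚ ![q, u N b] := by
      rw [LinearIndependent.pair_iff' hq0]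
      push Not
      exact ⟨t, ht⟩
    rcases uni_par hU hqX (hNX b) hq0 (hNne b) h1 with h2 | h2
    · exact (hone b).1 h2.symm
    · apply (hone b).2
      rw [h2, neg_neg]
  have hcirc : Circ (m '' X) (fun i b => m (u i b)) N (fun _ b => m (u N b)) 1 := by
    refine ⟨one_pos, fun j _ b => ⟨_, hNX b, rfl⟩, ?_, ?_, ?_, ?_, ?_⟩
    · intro j _
      rw [hFF, ← map_sub]
      exact ⟨_, hδ, rfl⟩
    · intro j _ h
      have h1 : u N false - u N true = 0 := by
        refine hinj _ hδ ?_
        rw [map_sub]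
        exact sub_eq_zero.2 h
      exact hc.dne N (by omega) (by omega) (sub_eq_zero.1 h1)
    · intro _
      refine ⟨hmne false, hmne true, ?_⟩
      intro h
      have h1 : m (u N false + u N true) = 0 := by
        rw [map_add]
        exact eq_neg_iff_add_eq_zero.1 h
      obtain ⟨t, ht⟩ := hker _ h1
      -- `t * c = 2`
      have h2 : (2 - t * c) • u N false ∈ FF u N := by
        have : (2 - t * c) • u N false = t • w + (u N false - u N true) := by
          have h3 : u N true = t • q - u N false := by rw [ht]; abel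
          rw [h3, ← hwy]
          module
        rw [this]
        exact add_mem (Submodule.smul_mem _ _ hw) hδ
      have h3 : 2 - t * c = 0 := by
        by_contra h4
        apply hNnot
        have h5 := Submodule.smul_mem _ (2 - t * c)⁻¹ h2
        rwa [smul_smul, inv_mul_cancel₀ h4, one_smul] at h5
      have htc : t = 2 * c := by
        have : t * (c * c) = 2 * c := by
          have : t * c = 2 := by (clear * - h3; linarith)
          rw [← mul_assoc, this]
        rwa [hc2, mul_one] at this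
      have hd : u N false - u N true = ∑ i ∈ range N, (-(2 * c) * α i) • u i false := by
        have h3 : u N true = t • q - u N false := by rw [ht]; abel
        have h4 : u N false - u N true = -(2 * c) • w := by
          rw [h3, ← hwy, htc]
          have : ((2 * c) * c) • u N false = (2 : ℚ) • u N false := by
            rw [mul_assoc, hc2, mul_one]
          rw [smul_add, smul_smul, this]
          module
        rw [h4, hα, smul_sum]
        refine sum_congr rfl fun i _ => ?_
        rw [smul_smul]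
      have h5 := diff_coord hU hcN (hNX false) (hNX true) hNnot (fun _ => false) _ hd
      have h6 : ∀ i < N, α i = 0 := by
        intro i hi
        have h7 := h5 i hi
        rcases hcoordα i hi with h8 | h8 | h8
        · exact h8
        · exfalso
          rw [h8] at h7
          rcases hcc with h9 | h9 <;> rw [h9] at h7 <;> norm_num at h7
        · exfalso
          rw [h8] at h7
          rcases hcc with h9 | h9 <;> rw [h9] at h7 <;> norm_num at h7
      have h7 : u N false - u N true = 0 := by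
        rw [hd]
        refine sum_eq_zero fun i hi => ?_
        rw [h6 i (mem_range.1 hi), mul_zero, zero_smul]
      exact hc.dne N (by omega) (by omega) (sub_eq_zero.1 h7)
    · rw [sum_range_one, hFF]
      refine ⟨-(c⁻¹ • w), neg_mem (Submodule.smul_mem _ _ hw), ?_⟩
      have h1 : -(c⁻¹ • w) = u N false - c⁻¹ • q := by
        rw [← hwy, smul_add, smul_smul, inv_mul_cancel₀ hc0, one_smul]
        abel
      rw [h1, map_sub, map_smul, hmq, smul_zero, sub_zero]
    · intro μ _ i hi j hj
      have h1 : i = 0 := by omega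
      have h2 : j = 0 := by omega
      rw [h1, h2]
  obtain ⟨β, μ, f, g, hnt, hsum, hcard⟩ := hP _ (m '' X) _ _ hU' hc' hcirc
  rw [sum_range_one] at hsum
  have hsum' : m (∑ i ∈ range N, β i • u i (f i) + μ 0 • u N (g 0)) = 0 := by
    rw [map_add, map_sum, map_smul]
    simp only [map_smul]
    exact hsum
  obtain ⟨t, ht⟩ := hker _ hsum'
  set β' : ℕ → ℚ := fun i => if i = N then μ 0 else β i with hβ'
  set f' : ℕ → Bool := fun i => if i = N then g 0 else f i with hf'
  have hsumN : ∑ i ∈ range (N + 1), β' i • u i (f' i) = t • q := by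
    rw [sum_range_succ, ht]
    simp only [hβ', hf', if_true]
    congr 1
    refine sum_congr rfl fun i hi => ?_
    rw [if_neg (ne_of_lt (mem_range.1 hi)), if_neg (ne_of_lt (mem_range.1 hi))]
  have ht0 : t ≠ 0 := by
    rintro rfl
    rw [zero_smul] at hsumN
    have h1 := linearIndepOn_finset_iff.1 (chain_li hc f') β' hsumN
    rcases hnt with ⟨i, hi, hi0⟩ | ⟨j, hj, hj0⟩
    · have h2 := h1 i (mem_range.2 (by omega))
      rw [hβ'] at h2
      simp only [if_neg (ne_of_lt hi)] at h2
      exact hi0 h2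
    · have hj' : j = 0 := by (clear * - N β μ hj; omega)
      subst hj'
      have h2 := h1 N (mem_range.2 (by omega))
      rw [hβ'] at h2
      simp only [if_true] at h2
      exact hj0 h2
  refine ⟨fun i => t⁻¹ * β' i, f', ?_, ?_⟩
  · have h1 : q = t⁻¹ • (t • q) := by rw [smul_smul, inv_mul_cancel₀ ht0, one_smul]
    rw [h1, ← hsumN, smul_sum]
    refine sum_congr rfl fun i _ => ?_
    rw [smul_smul]
  · have h1 : ((range (N + 1)).filter (fun i => t⁻¹ * β' i ≠ 0)) ⊆
        ((range N).filter (fun i => β i ≠ 0)) ∪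
          (((range 1).filter (fun j => μ j ≠ 0)).image (fun _ => N)) := by
      intro i hi
      rw [mem_filter, mem_range] at hi
      rw [mem_union, mem_filter, mem_image, mem_range]
      have h2 : β' i ≠ 0 := right_ne_zero_of_mul hi.2
      by_cases hiN : i = N
      · right
        refine ⟨0, ?_, hiN.symm⟩
        rw [mem_filter]
        refine ⟨by simp, ?_⟩
        rw [hβ'] at h2
        simpa only [if_pos hiN] using h2
      · left
        refine ⟨by omega, ?_⟩
        rw [hβ'] at h2
        simpa only [if_neg hiN] using h2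
    refine (card_le_card h1).trans ((card_union_le _ _).trans ?_)
    have h2 := card_image_le (s := (range 1).filter (fun j => μ j ≠ 0)) (f := fun _ => N)
    omega

end RC

end

section

/-!
Module RC-C7.  `CostP (N + 1) 1`.  Let `x = a 0 false`, `y = a 0 true`, both in
`X ⊓ FF u (N+1)`, nonzero, `x ≠ ± y`.  (`dif` and `sum` give `x, y ∈ FF u (N+1)`.)
Let `cx, cy` be the coordinates at level `N`: `x - cx • u N false ∈ FF u N`; they are `0, 1, -1`
(`fst_coord`).  The bound is `1 + (N + 1) / 2`.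
* `cx = cy = 0`: `Circ X u N a 1`, `CostP N 1`, `relP_succ`, bound `1 + N/2`.
* `cx = 0`, `cy ≠ 0`: `CostQ N` for `q = x`: `x = ∑ α i • u i (f i)` with at most `(N+1)/2`
  terms; relation with `μ 0 = -1`, `g 0 = false`: at most `1 + (N+1)/2` terms.
  `cy = 0`, `cx ≠ 0`: the same with `g 0 = true`.
* both nonzero: put `s = - cx⁻¹`, `s' = - cy⁻¹` (both `± 1`) and define pairs
  `b 0 = (u N false, u N true)`, `b 1 = (s • x, s' • y)` in the unimodular set
  `X' = X ∪ {z | -z ∈ X}` (`uni_mono`).  `Circ X' u N b 2`: `s • x + u N false ∈ FF u N`,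
  `s • x - s' • y ∈ FF u N`, `s • x ≠ s' • y` (as `x ≠ ± y`), `u N false ≠ u N true` (`0 < N`),
  `min`: `μ 0 • u N false + μ 1 • (s • x) ∈ FF u N` iff `μ 0 = μ 1`.
  `CostP N 2`: relation with at most `2 + (N + 1 - 2) / 2 = 1 + (N + 1) / 2` terms (`N ≥ 1`),
  which is a relation for `N + 1`, `a` (the pair `b 0` is level `N`).
-/

namespace RC

open Submodule Module Finset

private theorem cs1_expand {V : Type} [AddCommGroup V] [Module ℚ V] {u : ℕ → Bool → V} {N : ℕ}
    {x : V} (hx : x ∈ FF u (N + 1)) : ∃ c : ℚ, x - c • u N false ∈ FF u N := by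
  rw [FF_succ, Submodule.mem_sup] at hx
  obtain ⟨y, hy, z, hz, rfl⟩ := hx
  obtain ⟨c, rfl⟩ := Submodule.mem_span_singleton.1 hz
  exact ⟨c, by rw [add_sub_cancel_right]; exact hy⟩

private theorem cs1_coord {V : Type} [AddCommGroup V] [Module ℚ V] {X : Set V} (hU : Uni X)
    {u : ℕ → Bool → V} {N : ℕ} (hc : Chain X u (N + 1)) (hcN : Chain X u N) {x : V} (hx : x ∈ X)
    {c : ℚ} (h : x - c • u N false ∈ FF u N) : c = 0 ∨ c = 1 ∨ c = -1 := by
  obtain ⟨α, hα⟩ := chain_expand hcN (fun _ => false) h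
  have h1 := fst_coord hU hc hx (fun _ => false) (fun i => if i < N then α i else c) (by
    rw [Finset.sum_range_succ, if_neg (lt_irrefl N)]
    have h2 : ∑ i ∈ range N, (if i < N then α i else c) • u i false =
        ∑ i ∈ range N, α i • u i false := by
      refine Finset.sum_congr rfl fun i hi => ?_
      rw [if_pos (Finset.mem_range.1 hi)]
    rw [h2, ← hα, sub_add_cancel])
  have h3 := h1 N (Nat.lt_succ_self N)
  rwa [if_neg (lt_irrefl N)] at h3

private theorem cs1_chain {V : Type} [AddCommGroup V] [Module ℚ V] {X X' : Set V}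
    {u : ℕ → Bool → V} {N : ℕ} (hc : Chain X u (N + 1)) (hX : X ⊆ X') : Chain X' u N where
  mem i hi b := hX (hc.mem i (by omega) b)
  ind i hi := hc.ind i (by omega)
  dif i hi := hc.dif i (by omega)
  dne i hi h0 := hc.dne i (by omega) h0

private theorem cs1_easy {V : Type} [AddCommGroup V] [Module ℚ V] {X : Set V} (hU : Uni X)
    {u a : ℕ → Bool → V} {N : ℕ} (hQ : CostQ N) (hcN : Chain X u N) (b : Bool)
    (hx : a 0 b ∈ X) (hF : a 0 b ∈ FF u N) (h0 : a 0 b ≠ 0) :
    RelP u a (N + 1) 1 (1 + (N + 1) / 2) := by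
  obtain ⟨α, f, h1, h2⟩ := hQ V X u (a 0 b) hU hcN hx hF h0
  apply relP_succ
  refine ⟨α, fun _ => -1, f, fun _ => b, Or.inr ⟨0, by norm_num, by norm_num⟩, ?_, ?_⟩
  · rw [← h1, Finset.sum_range_one, neg_one_smul, add_neg_cancel]
  · exact (Nat.add_le_add h2 ((Finset.card_filter_le _ _).trans
      (le_of_eq (Finset.card_range 1)))).trans (by omega)

theorem costP_succ_one {N : ℕ} (hN : 1 ≤ N) (hQ : CostQ N) (hP : CostP N 1) (hP2 : CostP N 2) :
    CostP (N + 1) 1 := by
  intro V _ _ X u a hU hc h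
  have hcN : Chain X u N := cs1_chain hc (fun _ hx => hx)
  have hbd : 1 + (N + 1 + 1 - 1) / 2 = 1 + (N + 1) / 2 := rfl
  rw [hbd]
  have hxX : a 0 false ∈ X := h.mem 0 h.pos false
  have hyX : a 0 true ∈ X := h.mem 0 h.pos true
  obtain ⟨hx0, hy0, hxy⟩ := h.one rfl
  have hne : a 0 false ≠ a 0 true := h.dne 0 h.pos
  have hxF : a 0 false ∈ FF u (N + 1) := by
    have := h.sum
    rwa [Finset.sum_range_one] at this
  have hyF : a 0 true ∈ FF u (N + 1) := by
    have h1 := (FF u (N + 1)).sub_mem hxF (h.dif 0 h.pos)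
    rwa [sub_sub_cancel] at h1
  obtain ⟨cx, hcx⟩ := cs1_expand hxF
  obtain ⟨cy, hcy⟩ := cs1_expand hyF
  have hcx1 := cs1_coord hU hc hcN hxX hcx
  have hcy1 := cs1_coord hU hc hcN hyX hcy
  by_cases hcx0 : cx = 0
  · refine cs1_easy hU hQ hcN false hxX ?_ hx0
    rwa [hcx0, zero_smul, sub_zero] at hcx
  by_cases hcy0 : cy = 0
  · refine cs1_easy hU hQ hcN true hyX ?_ hy0
    rwa [hcy0, zero_smul, sub_zero] at hcy
  have hcx2 : cx = 1 ∨ cx = -1 := hcx1.resolve_left hcx0
  have hcy2 : cy = 1 ∨ cy = -1 := hcy1.resolve_left hcy0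
  set sx : ℚ := -cx with hsx
  set sy : ℚ := -cy with hsy
  have hxs : sx • a 0 false + u N false ∈ FF u N := by
    have h1 := (FF u N).smul_mem sx hcx
    have h2 : sx • (a 0 false - cx • u N false) = sx • a 0 false + u N false := by
      rw [smul_sub, smul_smul]
      have : sx * cx = -1 := by rcases hcx2 with h | h <;> rw [hsx, h] <;> norm_num
      rw [this, neg_one_smul, sub_neg_eq_add]
    rwa [h2] at h1
  have hys : sy • a 0 true + u N false ∈ FF u N := by
    have h1 := (FF u N).smul_mem sy hcy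
    have h2 : sy • (a 0 true - cy • u N false) = sy • a 0 true + u N false := by
      rw [smul_sub, smul_smul]
      have : sy * cy = -1 := by rcases hcy2 with h | h <;> rw [hsy, h] <;> norm_num
      rw [this, neg_one_smul, sub_neg_eq_add]
    rwa [h2] at h1
  have hsx1 : sx = 1 ∨ sx = -1 := by
    rcases hcx2 with h | h
    · right; rw [hsx, h]
    · left; rw [hsx, h, neg_neg]
  have hsy1 : sy = 1 ∨ sy = -1 := by
    rcases hcy2 with h | h
    · right; rw [hsy, h]
    · left; rw [hsy, h, neg_neg]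
  let b : ℕ → Bool → V := fun j t => if j = 0 then u N t else
    (if t then sy • a 0 true else sx • a 0 false)
  have hb0 : ∀ t, b 0 t = u N t := fun t => rfl
  have hb1f : b 1 false = sx • a 0 false := rfl
  have hb1t : b 1 true = sy • a 0 true := rfl
  have hU' : Uni (X ∪ {z | -z ∈ X}) := uni_mono hU (fun x hx => by
    rcases hx with hx | hx
    · exact Or.inr (Or.inl hx)
    · exact Or.inr (Or.inr hx))
  have hsgn : ∀ (t : ℚ) (x : V), (t = 1 ∨ t = -1) → x ∈ X → t • x ∈ X ∪ {z | -z ∈ X} := by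
    rintro t x (rfl | rfl) hx
    · left; rwa [one_smul]
    · right
      show -((-1 : ℚ) • x) ∈ X
      rwa [neg_one_smul, neg_neg]
  have hcirc : Circ (X ∪ {z | -z ∈ X}) u N b 2 := by
    refine ⟨by norm_num, ?_, ?_, ?_, ?_, ?_, ?_⟩
    · intro j hj t
      rcases Nat.eq_zero_or_pos j with rfl | hj0
      · exact Or.inl (hc.mem N (Nat.lt_succ_self N) t)
      · have : j = 1 := by omega
        subst this
        cases t
        · rw [hb1f]; exact hsgn _ _ hsx1 hxX
        · rw [hb1t]; exact hsgn _ _ hsy1 hyX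
    · intro j hj
      rcases Nat.eq_zero_or_pos j with rfl | hj0
      · exact hc.dif N (Nat.lt_succ_self N)
      · have : j = 1 := by omega
        subst this
        rw [hb1f, hb1t]
        have h1 := (FF u N).sub_mem hxs hys
        rwa [add_sub_add_right_eq_sub] at h1
    · intro j hj
      rcases Nat.eq_zero_or_pos j with rfl | hj0
      · exact hc.dne N (Nat.lt_succ_self N) hN
      · have : j = 1 := by omega
        subst this
        rw [hb1f, hb1t]
        intro he
        rcases hsx1 with h1 | h1 <;> rcases hsy1 with h2 | h2 <;>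
          rw [h1, h2] at he <;> simp only [one_smul, neg_one_smul] at he
        · exact hne he
        · exact hxy he
        · exact hxy (by rw [← he, neg_neg])
        · exact hne (neg_injective he)
    · intro h1
      exact absurd h1 (by norm_num)
    · rw [Finset.sum_range_succ, Finset.sum_range_one, hb0, hb1f, add_comm]
      exact hxs
    · intro μ hμ
      rw [Finset.sum_range_succ, Finset.sum_range_one, hb0, hb1f] at hμ
      have h1 : (μ 0 - μ 1) • u N false ∈ FF u N := by
        have h2 := (FF u N).sub_mem hμ ((FF u N).smul_mem (μ 1) hxs)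
        have h3 : μ 0 • u N false + μ 1 • sx • a 0 false -
            μ 1 • (sx • a 0 false + u N false) = (μ 0 - μ 1) • u N false := by
          rw [smul_add, sub_smul]; abel
        rwa [h3] at h2
      have h4 : μ 0 = μ 1 := by
        by_contra hne'
        have h5 : μ 0 - μ 1 ≠ 0 := sub_ne_zero.2 hne'
        have h6 := (FF u N).smul_mem (μ 0 - μ 1)⁻¹ h1
        rw [smul_smul, inv_mul_cancel₀ h5, one_smul] at h6
        exact hc.ind N (Nat.lt_succ_self N) h6
      intro i hi j hj
      have hi' : i = 0 ∨ i = 1 := by (clear * - N hi j; omega)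
      have hj' : j = 0 ∨ j = 1 := by omega
      rcases hi' with rfl | rfl <;> rcases hj' with rfl | rfl
      · rfl
      · exact h4
      · exact h4.symm
      · rfl
  obtain ⟨α, μ, f, g, h1, h2, h3⟩ := hP2 V _ u b hU' (cs1_chain hc (fun _ hx => Or.inl hx)) hcirc
  set sg : ℚ := if g 1 then sy else sx with hsg
  have hsg0 : sg ≠ 0 := by
    rw [hsg]
    cases g 1
    · rcases hsx1 with h | h <;> simp [h]
    · rcases hsy1 with h | h <;> simp [h]
  have hbg : b 1 (g 1) = sg • a 0 (g 1) := by
    rw [hsg]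
    cases g 1
    · rw [hb1f]; simp
    · rw [hb1t]; simp
  have e1 : ∑ i ∈ range (N + 1), (if i < N then α i else μ 0) • u i (if i < N then f i else g 0) =
      ∑ i ∈ range N, α i • u i (f i) + μ 0 • u N (g 0) := by
    rw [Finset.sum_range_succ, if_neg (lt_irrefl N), if_neg (lt_irrefl N)]
    congr 1
    refine Finset.sum_congr rfl fun i hi => ?_
    rw [if_pos (Finset.mem_range.1 hi), if_pos (Finset.mem_range.1 hi)]
  have e2 : ((range (N + 1)).filter (fun i => (if i < N then α i else μ 0) ≠ 0)).card =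
      ((range N).filter (fun i => α i ≠ 0)).card + (if μ 0 ≠ 0 then 1 else 0) := by
    rw [Finset.range_add_one, Finset.filter_insert]
    have h4 : (range N).filter (fun i => (if i < N then α i else μ 0) ≠ 0) =
        (range N).filter (fun i => α i ≠ 0) := by
      refine Finset.filter_congr fun i hi => ?_
      rw [if_pos (Finset.mem_range.1 hi)]
    rw [h4, if_neg (lt_irrefl N)]
    by_cases h5 : μ 0 = 0
    · simp [h5]
    · rw [if_pos h5, if_pos h5, Finset.card_insert_of_notMem]
      simp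
  have e3 : ((range 2).filter (fun j => μ j ≠ 0)).card =
      (if μ 0 ≠ 0 then 1 else 0) + (if μ 1 ≠ 0 then 1 else 0) := by
    have h4 : range 2 = {0, 1} := by decide
    rw [h4, Finset.filter_insert, Finset.filter_singleton]
    by_cases h5 : μ 0 = 0 <;> by_cases h6 : μ 1 = 0 <;> simp [h5, h6]
  have e4 : ((range 1).filter (fun _ => μ 1 * sg ≠ 0)).card = (if μ 1 ≠ 0 then 1 else 0) := by
    by_cases h6 : μ 1 = 0
    · simp [h6]
    · have h7 : μ 1 * sg ≠ 0 := mul_ne_zero h6 hsg0
      simp [h6, hsg0]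
  refine ⟨fun i => if i < N then α i else μ 0, fun _ => μ 1 * sg,
    fun i => if i < N then f i else g 0, fun _ => g 1, ?_, ?_, ?_⟩
  · rcases h1 with ⟨i, hi, h1⟩ | ⟨j, hj, h1⟩
    · left
      refine ⟨i, by (clear * - cx cy α μ g hi; omega), ?_⟩
      simp only [if_pos hi]
      exact h1
    · have hj' : j = 0 ∨ j = 1 := by omega
      rcases hj' with rfl | rfl
      · left
        refine ⟨N, Nat.lt_succ_self N, ?_⟩
        simp only [lt_irrefl, if_false]
        exact h1
      · right
        exact ⟨0, by norm_num, mul_ne_zero h1 hsg0⟩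
  · rw [e1, Finset.sum_range_one, mul_smul, ← hbg, add_assoc]
    rw [Finset.sum_range_succ, Finset.sum_range_one, hb0] at h2
    exact h2
  · rw [e2, e4]
    rw [e3] at h3
    omega

end RC

end

section

/-!
Module RC-C12.  A circuit modulo a chain of length `N` has at most `N + 1` pairs.

`k ≤ 1`: trivial.  Let `k ≥ 2`, `δ j = a j false - a j true ∈ FF u N`, nonzero.
(1) For every `f` and every `i < N` at most two of the coordinates `(δ j)_i` (`j < k`) with
respect to the basis `u l (f l)` are nonzero: for `S ⊆ range k` the sum of the `a j (g j)` with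
`g = true` exactly on `S` has `i`-th coordinate `c - ∑_S (δ j)_i`, which is `0, 1, -1`
(`circ_coord`), and `(δ j)_i ∈ {0,1,-1}` (`diff_coord`, `circ_notMem`).  If three are nonzero, take
for `S` those among the three with coordinate `1`, and those with coordinate `-1`: the two values
differ by `3`.
(2) Let `∑ ρ j • δ j = 0` with `ρ 0 = 0`.  Let `0 < l < k`.  By `chain_cross` for `δ 0, δ l` there
are `f`, `i` with both `i`-th coordinates nonzero; by (1) all other `(δ j)_i` are zero, so the
`i`-th coordinate of the relation is `ρ 0 * (δ 0)_i + ρ l * (δ l)_i = 0` (uniqueness of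
coordinates, `chain_li`), so `ρ l = 0`.  Hence `δ 1, ..., δ (k-1)` are linearly independent in
`FF u N`, whose dimension is at most `N` (it is spanned by `N` vectors).  So `k - 1 ≤ N`.
-/

namespace RC

open Submodule Module Finset

variable {V : Type} [AddCommGroup V] [Module ℚ V]

theorem circ_le_swap {u a : ℕ → Bool → V} {N k : ℕ} (f : ℕ → Bool) (c : ℕ → ℚ) (D : ℕ → ℕ → ℚ)
    (hc : ∑ j ∈ range k, a j false = ∑ i ∈ range N, c i • u i (f i))
    (hD : ∀ j < k, a j false - a j true = ∑ i ∈ range N, D j i • u i (f i))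
    (S : Finset ℕ) (hS : S ⊆ range k) :
    ∑ j ∈ range k, a j (decide (j ∈ S)) =
      ∑ i ∈ range N, (c i - ∑ j ∈ S, D j i) • u i (f i) := by
  have h1 : ∀ j ∈ range k, a j (decide (j ∈ S)) =
      a j false - (if j ∈ S then a j false - a j true else 0) := by
    intro j _
    by_cases hj : j ∈ S
    · simp [hj]
    · simp [hj]
  rw [Finset.sum_congr rfl h1, Finset.sum_sub_distrib, hc]
  have h2 : ∑ j ∈ range k, (if j ∈ S then a j false - a j true else 0) =
      ∑ j ∈ S, (a j false - a j true) := by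
    rw [Finset.sum_ite_mem, Finset.inter_eq_right.2 hS]
  have h3 : ∑ j ∈ S, (a j false - a j true) = ∑ i ∈ range N, (∑ j ∈ S, D j i) • u i (f i) := by
    have h4 : ∑ j ∈ S, (a j false - a j true) = ∑ j ∈ S, ∑ i ∈ range N, D j i • u i (f i) :=
      Finset.sum_congr rfl fun j hj => hD j (Finset.mem_range.1 (hS hj))
    rw [h4, Finset.sum_comm]
    exact Finset.sum_congr rfl fun i _ => (Finset.sum_smul).symm
  rw [h2, h3, ← Finset.sum_sub_distrib]
  exact Finset.sum_congr rfl fun i _ => (sub_smul _ _ _).symm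

theorem circ_le_bd {x : ℚ} (h : x = 0 ∨ x = 1 ∨ x = -1) : -1 ≤ x ∧ x ≤ 1 := by
  rcases h with rfl | rfl | rfl <;> norm_num

theorem circ_le_three {X : Set V} (hU : Uni X) {u a : ℕ → Bool → V} {N k : ℕ}
    (hc : Chain X u N) (h : Circ X u N a k) (hk : 2 ≤ k) (f : ℕ → Bool) (D : ℕ → ℕ → ℚ)
    (hD : ∀ j < k, a j false - a j true = ∑ i ∈ range N, D j i • u i (f i))
    {i : ℕ} (hi : i < N) {p q r : ℕ} (hp : p < k) (hq : q < k) (hr : r < k)
    (hpq : p ≠ q) (hpr : p ≠ r) (hqr : q ≠ r) (h1 : D p i ≠ 0) (h2 : D q i ≠ 0) : D r i = 0 := by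
  obtain ⟨c, hcc⟩ := chain_expand hc f h.sum
  have hS : ∀ S ⊆ range k, -1 ≤ c i - ∑ j ∈ S, D j i ∧ c i - ∑ j ∈ S, D j i ≤ 1 := by
    intro S hS
    exact circ_le_bd (circ_coord hU hc h f (fun j => decide (j ∈ S)) _
      (circ_le_swap f c D hcc hD S hS) i hi)
  have hv : ∀ j < k, D j i = 0 ∨ D j i = 1 ∨ D j i = -1 := by
    intro j hj
    exact diff_coord hU hc (h.mem j hj false) (h.mem j hj true) (circ_notMem h hk hj false) f _
      (hD j hj) i hi
  by_contra h3
  have mp : p ∈ range k := Finset.mem_range.2 hp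
  have mq : q ∈ range k := Finset.mem_range.2 hq
  have mr : r ∈ range k := Finset.mem_range.2 hr
  have e0 := hS ∅ (Finset.empty_subset _)
  have e1 := hS {p} (by simpa using hp)
  have e2 := hS {q} (by simpa using hq)
  have e3 := hS {r} (by simpa using hr)
  have e4 := hS {p, q} (by
    intro x hx
    simp only [Finset.mem_insert, Finset.mem_singleton] at hx
    rcases hx with rfl | rfl <;> assumption)
  have e5 := hS {p, r} (by
    intro x hx
    simp only [Finset.mem_insert, Finset.mem_singleton] at hx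
    rcases hx with rfl | rfl <;> assumption)
  have e6 := hS {q, r} (by
    intro x hx
    simp only [Finset.mem_insert, Finset.mem_singleton] at hx
    rcases hx with rfl | rfl <;> assumption)
  have e7 := hS {p, q, r} (by
    intro x hx
    simp only [Finset.mem_insert, Finset.mem_singleton] at hx
    rcases hx with rfl | rfl | rfl <;> assumption)
  have hpqr : p ∉ ({q, r} : Finset ℕ) := by simp [hpq, hpr]
  have hqr' : q ∉ ({r} : Finset ℕ) := by simp [hqr]
  have hpq' : p ∉ ({q} : Finset ℕ) := by simp [hpq]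
  have hpr' : p ∉ ({r} : Finset ℕ) := by simp [hpr]
  rw [Finset.sum_empty] at e0
  rw [Finset.sum_singleton] at e1 e2 e3
  rw [Finset.sum_insert hpq', Finset.sum_singleton] at e4
  rw [Finset.sum_insert hpr', Finset.sum_singleton] at e5
  rw [Finset.sum_insert hqr', Finset.sum_singleton] at e6
  rw [Finset.sum_insert hpqr, Finset.sum_insert hqr', Finset.sum_singleton] at e7
  rcases hv p hp with g1 | g1 | g1
  · exact h1 g1
  all_goals rcases hv q hq with g2 | g2 | g2
  · exact h2 g2
  pick_goal 3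
  · exact h2 g2
  all_goals rcases hv r hr with g3 | g3 | g3
  all_goals first
    | exact h3 g3
    | (rw [g1, g2, g3] at e7; rw [g1, g2] at e4; rw [g1, g3] at e5; rw [g2, g3] at e6
       rw [g1] at e1; rw [g2] at e2; rw [g3] at e3
       (clear * - e0 e7 e1 e2 e3 e4 e5 e6; linarith [e0.1, e0.2, e1.1, e1.2, e2.1, e2.2, e3.1, e3.2, e4.1, e4.2, e5.1, e5.2,
         e6.1, e6.2, e7.1, e7.2]))

theorem circ_le {X : Set V} (hU : Uni X) {u a : ℕ → Bool → V} {N k : ℕ} (hN : 1 ≤ N)
    (hc : Chain X u N) (h : Circ X u N a k) : k ≤ N + 1 := by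
  classical
  by_cases hk : 2 ≤ k
  swap
  · omega
  have hmem : ∀ j < k, a j false - a j true ∈ FF u N := h.dif
  have hne : ∀ j < k, a j false - a j true ≠ 0 := fun j hj => sub_ne_zero.2 (h.dne j hj)
  -- the key step
  have key : ∀ ρ : ℕ → ℚ, ρ 0 = 0 → ∑ j ∈ range k, ρ j • (a j false - a j true) = 0 →
      ∀ l, 0 < l → l < k → ρ l = 0 := by
    intro ρ h0 hρ l hl0 hl
    obtain ⟨f, α, α', e1, e2, i, hi, n1, n2⟩ :=
      chain_cross hc (hmem 0 (by omega)) (hmem l hl) (hne 0 (by omega)) (hne l hl)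
    have hex : ∀ j, ∃ β : ℕ → ℚ, j < k → a j false - a j true = ∑ i ∈ range N, β i • u i (f i) := by
      intro j
      by_cases hj : j < k
      · obtain ⟨β, hβ⟩ := chain_expand hc f (hmem j hj)
        exact ⟨β, fun _ => hβ⟩
      · exact ⟨0, fun hh => absurd hh hj⟩
    choose D hD using hex
    have hli := linearIndepOn_finset_iff.1 (chain_li hc f)
    have huniq : ∀ β β' : ℕ → ℚ, ∑ i ∈ range N, β i • u i (f i) = ∑ i ∈ range N, β' i • u i (f i) →
        ∀ i < N, β i = β' i := by
      intro β β' hb i hi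
      have h1 : ∑ i ∈ range N, (β i - β' i) • u i (f i) = 0 := by
        simp only [sub_smul, Finset.sum_sub_distrib, hb, sub_self]
      exact sub_eq_zero.1 (hli (fun i => β i - β' i) h1 i (Finset.mem_range.2 hi))
    have d0 : D 0 i ≠ 0 := by
      rw [huniq (D 0) α (by rw [← hD 0 (by omega), e1]) i hi]
      exact n1
    have dl : D l i ≠ 0 := by
      rw [huniq (D l) α' (by rw [← hD l hl, e2]) i hi]
      exact n2
    have hoth : ∀ j < k, j ≠ 0 → j ≠ l → D j i = 0 := by
      intro j hj hj0 hjl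
      exact circ_le_three hU hc h hk f D hD hi (by omega) hl hj (by omega) (Ne.symm hj0)
        (Ne.symm hjl) d0 dl
    have h1 : ∑ i ∈ range N, (∑ j ∈ range k, ρ j * D j i) • u i (f i) =
        ∑ i ∈ range N, (0 : ℚ) • u i (f i) := by
      simp only [zero_smul, Finset.sum_const_zero]
      rw [← hρ]
      have h2 : ∑ j ∈ range k, ρ j • (a j false - a j true) =
          ∑ j ∈ range k, ∑ i ∈ range N, (ρ j * D j i) • u i (f i) := by
        refine Finset.sum_congr rfl fun j hj => ?_
        rw [hD j (Finset.mem_range.1 hj), Finset.smul_sum]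
        exact Finset.sum_congr rfl fun i _ => smul_smul _ _ _
      rw [h2, Finset.sum_comm]
      exact Finset.sum_congr rfl fun i _ => Finset.sum_smul
    have h3 : ∑ j ∈ range k, ρ j * D j i = 0 := huniq _ _ h1 i hi
    have h4 : ∑ j ∈ range k, ρ j * D j i = ρ l * D l i := by
      refine Finset.sum_eq_single l ?_ ?_
      · intro j hj hjl
        by_cases hj0 : j = 0
        · rw [hj0, h0, zero_mul]
        · rw [hoth j (Finset.mem_range.1 hj) hj0 hjl, mul_zero]
      · intro hh
        exact absurd (Finset.mem_range.2 hl) hh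
    rw [h4] at h3
    rcases mul_eq_zero.1 h3 with h5 | h5
    · exact h5
    · exact absurd h5 dl
  -- linear independence
  have hlin : LinearIndependent ℚ (fun j : Fin (k - 1) =>
      (⟨a (j + 1) false - a (j + 1) true, hmem _ (by omega)⟩ : FF u N)) := by
    rw [Fintype.linearIndependent_iff]
    intro g hg j
    have h1 : ∑ j : Fin (k - 1), g j • (a (j + 1) false - a (j + 1) true) = 0 := by
      have := congrArg (fun x : FF u N => (x : V)) hg
      simpa using this
    have h2 := key (fun l => if hl : 0 < l ∧ l - 1 < k - 1 then g ⟨l - 1, hl.2⟩ else 0)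
      (by simp) ?_ (j + 1) (Nat.succ_pos _) (by omega)
    · have h3 : 0 < (j : ℕ) + 1 ∧ (j : ℕ) + 1 - 1 < k - 1 := ⟨Nat.succ_pos _, by omega⟩
      rw [dif_pos h3] at h2
      simpa using h2
    · obtain ⟨k', rfl⟩ : ∃ k', k = k' + 1 := ⟨k - 1, by omega⟩
      rw [Finset.sum_range_succ']
      simp only [lt_irrefl, false_and, dif_neg, not_false_eq_true, zero_smul, add_zero]
      have h4 : (k' + 1 - 1) = k' := by (clear * - N hk; omega)
      rw [Finset.sum_range]
      rw [← h1]
      refine Finset.sum_bij (fun (x : Fin k') _ => (⟨x, by omega⟩ : Fin (k' + 1 - 1))) ?_ ?_ ?_ ?_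
      · intro x _
        exact Finset.mem_univ _
      · intro x _ y _ hxy
        simpa [Fin.ext_iff] using hxy
      · intro x _
        exact ⟨⟨x, by omega⟩, Finset.mem_univ _, rfl⟩
      · intro x _
        have h5 : 0 < (x : ℕ) + 1 ∧ (x : ℕ) + 1 - 1 < k' + 1 - 1 := ⟨Nat.succ_pos _, by omega⟩
        rw [dif_pos h5]
        rfl
  have hFF : FF u N = span ℚ (((range N).image fun j => u j false : Finset V) : Set V) := by
    rw [FF]
    congr 1
    ext w
    simp only [Set.mem_ofPred_eq, Finset.coe_image, Set.mem_image, Finset.mem_coe,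
      Finset.mem_range]
    constructor
    · rintro ⟨j, hj, rfl⟩
      exact ⟨j, hj, rfl⟩
    · rintro ⟨j, hj, rfl⟩
      exact ⟨j, hj, rfl⟩
  have hfin : Module.Finite ℚ (FF u N) := by
    rw [hFF]
    exact FiniteDimensional.span_finset ℚ _
  have hrank : finrank ℚ (FF u N) ≤ N := by
    rw [hFF]
    refine (finrank_span_finset_le_card _).trans ?_
    refine Finset.card_image_le.trans ?_
    rw [Finset.card_range]
  have h6 := hlin.fintype_card_le_finrank
  rw [Fintype.card_fin] at h6
  omega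

end RC

end

section

/-!
Module RC-C9.  No direction changes (all `γ j = 0`): all differences are in `FF u N`.

`costA` (`c0 = 0`): then `Circ X u N a k` (`min`: `FF u N ≤ FF u (N+1)`), `CostP N k`,
`relP_succ`; `k + (N + 1 - k)/2 ≤ k + (N + 2 - k)/2`.

`costB` (`c0 = ± 1`): let `s = - c0`.  Put `b j = a j` for `j < k` and
`b k = (s • u N false, s • u N true)` in `X' = X ∪ {z | -z ∈ X}` (`uni_mono`).
`Circ X' u N b (k+1)`: `sum`: `∑_{j<k} a j false + s • u N false ∈ FF u N`; `min`: if
`∑_{j<k} μ j • a j false + μ k • s • u N false ∈ FF u N` then in particular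
`∑_{j<k} μ j • a j false ∈ FF u (N+1)`, so `μ j = μ 0` for all `j < k` (`Circ.min`), and then
`μ 0 • (∑ a j false) + μ k • s • u N false ∈ FF u N` gives `(μ 0 * c0 + μ k * s) = 0`
(`u N false ∉ FF u N`), so `μ k = μ 0`.  `dne` for `b k`: `0 < N`.
`circ_le` gives `k + 1 ≤ N + 1`, and `CostP N (k+1)` a relation with at most
`k + 1 + (N + 1 - (k + 1))/2 = k + (N + 2 - k)/2` terms; it is a relation for `N + 1`, `k`.
-/

namespace RC

open Submodule Module Finset

variable {V : Type} [AddCommGroup V] [Module ℚ V]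

private theorem costAB_pred {X : Set V} {u : ℕ → Bool → V} {N : ℕ} (h : Chain X u (N + 1)) :
    Chain X u N where
  mem := fun i hi b => h.mem i (by omega) b
  ind := fun i hi => h.ind i (by omega)
  dif := fun i hi => h.dif i (by omega)
  dne := fun i hi h0 => h.dne i (by omega) h0

theorem costA {X : Set V} (hU : Uni X) {u a : ℕ → Bool → V} {N k : ℕ} (hP : CostP N k)
    (hc : Chain X u (N + 1)) (h : Circ X u (N + 1) a k)
    (hd : ∀ j < k, a j false - a j true ∈ FF u N)
    (hs : ∑ j ∈ range k, a j false ∈ FF u N) :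
    RelP u a (N + 1) k (k + (N + 2 - k) / 2) := by
  have hc' := costAB_pred hc
  have h' : Circ X u N a k :=
    { pos := h.pos
      mem := h.mem
      dif := hd
      dne := h.dne
      one := h.one
      sum := hs
      min := fun μ hμ => h.min μ (FF_mono u (Nat.le_succ N) hμ) }
  exact relP_mono (by omega) (relP_succ (hP V X u a hU hc' h'))

theorem costB {X : Set V} (hU : Uni X) {u a : ℕ → Bool → V} {N k : ℕ} (hN : 1 ≤ N)
    (hP : CostP N (k + 1)) (hc : Chain X u (N + 1)) (h : Circ X u (N + 1) a k)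
    (hk : 2 ≤ k) (hd : ∀ j < k, a j false - a j true ∈ FF u N) (c0 : ℚ)
    (h0 : c0 = 1 ∨ c0 = -1)
    (hs : (∑ j ∈ range k, a j false) - c0 • u N false ∈ FF u N) :
    RelP u a (N + 1) k (k + (N + 2 - k) / 2) := by
  classical
  have hc' := costAB_pred hc
  have hs0 : c0 ≠ 0 := by rcases h0 with rfl | rfl <;> norm_num
  have hNN : N < N + 1 := Nat.lt_succ_self N
  have huN : u N false ∈ FF u (N + 1) := subset_span ⟨N, hNN, rfl⟩
  set X' : Set V := X ∪ {z | -z ∈ X} with hX'
  have hU' : Uni X' := uni_mono hU (by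
    rintro x (hx | hx)
    · exact Or.inr (Or.inl hx)
    · exact Or.inr (Or.inr hx))
  have hcX : Chain X' u N :=
    { mem := fun i hi b => Or.inl (hc'.mem i hi b)
      ind := hc'.ind
      dif := hc'.dif
      dne := hc'.dne }
  set b : ℕ → Bool → V := fun j t => if j < k then a j t else (-c0) • u N t with hb
  have hbj : ∀ j < k, ∀ t, b j t = a j t := fun j hj t => if_pos hj
  have hbk : ∀ t, b k t = (-c0) • u N t := fun t => if_neg (lt_irrefl k)
  have hsum : ∀ (μ : ℕ → ℚ) (g : ℕ → Bool), ∑ j ∈ range (k + 1), μ j • b j (g j) =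
      ∑ j ∈ range k, μ j • a j (g j) + (μ k * (-c0)) • u N (g k) := by
    intro μ g
    rw [sum_range_succ, hbk, smul_smul]
    congr 1
    apply sum_congr rfl
    intro j hj
    rw [hbj j (mem_range.mp hj)]
  have hsum1 : ∑ j ∈ range (k + 1), b j false =
      ∑ j ∈ range k, a j false + (-c0) • u N false := by
    have := hsum (fun _ => 1) (fun _ => false)
    simpa using this
  have hC : Circ X' u N b (k + 1) := by
    refine ⟨Nat.succ_pos k, ?_, ?_, ?_, ?_, ?_, ?_⟩
    · intro j hj t
      rcases Nat.lt_succ_iff_lt_or_eq.mp hj with hj' | rfl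
      · rw [hbj j hj']
        exact Or.inl (h.mem j hj' t)
      · rw [hbk]
        rcases h0 with rfl | rfl
        · right
          change -((-1 : ℚ) • u N t) ∈ X
          have : -((-1 : ℚ) • u N t) = u N t := by simp
          rw [this]
          exact hc.mem N hNN t
        · left
          have : (-(-1 : ℚ)) • u N t = u N t := by simp
          rw [this]
          exact hc.mem N hNN t
    · intro j hj
      rcases Nat.lt_succ_iff_lt_or_eq.mp hj with hj' | rfl
      · rw [hbj j hj', hbj j hj']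
        exact hd j hj'
      · rw [hbk, hbk, ← smul_sub]
        exact smul_mem _ _ (hc.dif N hNN)
    · intro j hj
      rcases Nat.lt_succ_iff_lt_or_eq.mp hj with hj' | rfl
      · rw [hbj j hj', hbj j hj']
        exact h.dne j hj'
      · rw [hbk, hbk]
        intro he
        exact hc.dne N hNN hN (smul_right_injective V (neg_ne_zero.mpr hs0) he)
    · intro hk1
      omega
    · rw [hsum1, neg_smul, ← sub_eq_add_neg]
      exact hs
    · intro μ hμ
      rw [hsum μ (fun _ => false)] at hμ
      have h1 : ∑ j ∈ range k, μ j • a j false ∈ FF u (N + 1) := by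
        have h2 := sub_mem (FF_mono u (Nat.le_succ N) hμ)
          (smul_mem _ (μ k * (-c0)) huN)
        simpa using h2
      have h3 := h.min μ h1
      have h4 : ∑ j ∈ range k, μ j • a j false = μ 0 • ∑ j ∈ range k, a j false := by
        rw [smul_sum]
        apply sum_congr rfl
        intro j hj
        rw [h3 j (mem_range.mp hj) 0 h.pos]
      have h5 : (c0 * (μ 0 - μ k)) • u N false ∈ FF u N := by
        have h6 := sub_mem hμ (smul_mem _ (μ 0) hs)
        rw [h4] at h6
        have h7 : μ 0 • ∑ j ∈ range k, a j false + (μ k * -c0) • u N false -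
            μ 0 • (∑ j ∈ range k, a j false - c0 • u N false) =
            (c0 * (μ 0 - μ k)) • u N false := by
          module
        rwa [h7] at h6
      have h8 : μ 0 = μ k := by
        by_contra hne
        have h9 : c0 * (μ 0 - μ k) ≠ 0 := mul_ne_zero hs0 (sub_ne_zero.mpr hne)
        apply hc.ind N hNN
        have h10 := smul_mem (FF u N) (c0 * (μ 0 - μ k))⁻¹ h5
        rwa [smul_smul, inv_mul_cancel₀ h9, one_smul] at h10
      have h11 : ∀ i < k + 1, μ i = μ 0 := by
        intro i hi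
        rcases Nat.lt_succ_iff_lt_or_eq.mp hi with hi' | rfl
        · exact h3 i hi' 0 h.pos
        · exact h8.symm
      intro i hi j hj
      rw [h11 i hi, h11 j hj]
  have hle : k + 1 ≤ N + 1 := circ_le hU' hN hcX hC
  obtain ⟨α, μ, f, g, h1, h2, h3⟩ := hP V X' u b hU' hcX hC
  rw [hsum μ g] at h2
  refine ⟨fun i => if i < N then α i else μ k * (-c0), μ,
    fun i => if i < N then f i else g k, g, ?_, ?_, ?_⟩
  · rcases h1 with ⟨i, hi, h1⟩ | ⟨j, hj, h1⟩
    · left
      exact ⟨i, by omega, by simpa [hi] using h1⟩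
    · rcases Nat.lt_succ_iff_lt_or_eq.mp hj with hj' | rfl
      · exact Or.inr ⟨j, hj', h1⟩
      · left
        refine ⟨N, hNN, ?_⟩
        simp only [lt_irrefl, if_false]
        exact mul_ne_zero h1 (neg_ne_zero.mpr hs0)
  · rw [sum_range_succ]
    simp only [lt_irrefl, if_false]
    have h4 : ∑ i ∈ range N, (if i < N then α i else μ k * -c0) •
        u i (if i < N then f i else g k) = ∑ i ∈ range N, α i • u i (f i) := by
      apply sum_congr rfl
      intro i hi
      rw [if_pos (mem_range.mp hi), if_pos (mem_range.mp hi)]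
    rw [h4, ← h2]
    abel
  · have h5 : ((range (N + 1)).filter
        (fun i => (if i < N then α i else μ k * -c0) ≠ 0)).card =
        ((range N).filter (fun i => α i ≠ 0)).card + (if μ k ≠ 0 then 1 else 0) := by
      rw [card_filter, card_filter, sum_range_succ]
      congr 1
      · apply sum_congr rfl
        intro i hi
        rw [if_pos (mem_range.mp hi)]
      · simp [hs0]
    have h6 : ((range (k + 1)).filter (fun j => μ j ≠ 0)).card =
        ((range k).filter (fun j => μ j ≠ 0)).card + (if μ k ≠ 0 then 1 else 0) := by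
      rw [card_filter, card_filter, sum_range_succ]
    rw [h5]
    rw [h6] at h3
    omega

end RC

end

section

/-!
Module RC-C10.  Exactly one direction changes; normalised: it is the last pair `K = k - 1 ≥ 1`
(so `k = K + 1`), and the sum of all `a j false` is in `FF u N`.

Write `x = a K false`.  If some sum `∑_{l<k} a l (g l)` vanishes, use `relP_of_sum`.  Let `m = mkQ (span {x})`, `X' = m '' X`
(`uni_con`, `S = {x}`), `u' = m ∘ u`, `a' j b = m (a j b)`, `K` pairs, `N` levels.
`x ∉ FF u (N+1)` (`circ_notMem`, `k ≥ 2`), so `m` is injective on `FF u (N+1)` and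
`FF u' i = (FF u i).map m` (`i ≤ N`).
`Chain X' u' N`: `u i false ∉ FF u i ⊔ span {x}`.
`Circ X' u' N a' K`:
* `dif`, `dne`: for `j < K` the difference is in `FF u N` and nonzero.
* `sum`: `m (∑_{j<K} a j false) = m (∑_{j<k} a j false)`, in `(FF u N).map m`.
* `min`: `∑_{j<K} μ j • a j false - t • x ∈ FF u N ≤ FF u (N+1)` gives all `μ j` equal
  (`Circ.min` with `μ K = -t`).
* `one` (`K = 1`): `a 0 b = t • x` would give, modulo `FF u (N+1)`, (`circ_min`) `t = -1`, so
  `a 0 b + x = 0`: a vanishing sum, excluded.  If `a 0 false + a 0 true = t • x` then modulo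
  `FF u (N+1)` (`a 0 true` is congruent to `a 0 false`) `t = -2`, so with
  `q = a 0 false + x`, `δ = a 0 false - a 0 true`: `2 q = δ`; coordinates of `q`
  (`circ_coord`) and of `δ` (`diff_coord`) are `0,1,-1`, so `δ = 0`, contradiction.
`CostP N K` gives a relation in the quotient with at most `K + (N + 1 - K)/2`
terms; lifted: `∑ α i • u i (f i) + ∑_{j<K} μ j • a j (g j) = t • x`, one more term:
`K + 1 + (N + 1 - K)/2 = k + (N + 2 - k)/2`.
-/

namespace RC

open Submodule Module Finset

variable {V : Type} [AddCommGroup V] [Module ℚ V]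

variable {W : Type} [AddCommGroup W] [Module ℚ W]

private theorem cc_map (m : V →ₗ[ℚ] W) (u : ℕ → Bool → V) (i : ℕ) :
    FF (fun i b => m (u i b)) i = (FF u i).map m := by
  unfold FF
  rw [Submodule.map_span]
  congr 1
  ext w
  constructor
  · rintro ⟨j, hj, rfl⟩
    exact ⟨_, ⟨j, hj, rfl⟩, rfl⟩
  · rintro ⟨_, ⟨j, hj, rfl⟩, rfl⟩
    exact ⟨j, hj, rfl⟩

theorem costC {X : Set V} (hU : Uni X) {u a : ℕ → Bool → V} {N K : ℕ} (hK : 1 ≤ K)
    (hP : CostP N K) (hc : Chain X u (N + 1)) (h : Circ X u (N + 1) a (K + 1))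
    (hd : ∀ j < K, a j false - a j true ∈ FF u N)
    (hs : ∑ j ∈ range (K + 1), a j false ∈ FF u N) :
    RelP u a (N + 1) (K + 1) (K + 1 + (N + 2 - (K + 1)) / 2) := by
  classical
  by_cases hnv : ∃ g : ℕ → Bool, ∑ l ∈ range (K + 1), a l (g l) = 0
  · exact relP_of_sum (by omega) (by omega) hnv
  have hx : a K false ∉ FF u (N + 1) := circ_notMem h (by omega) (Nat.lt_succ_self K) false
  have hF1 : ∀ t : ℚ, t • a K false ∈ FF u (N + 1) → t = 0 := by
    intro t ht
    by_contra h0
    apply hx
    have := smul_mem (FF u (N + 1)) t⁻¹ ht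
    rwa [smul_smul, inv_mul_cancel₀ h0, one_smul] at this
  have hu1 : ∀ z ∈ FF u N, z ∈ FF u (N + 1) := fun z hz => FF_mono u (Nat.le_succ N) hz
  set S : Submodule ℚ V := span ℚ ({a K false} : Set V) with hS
  set m : V →ₗ[ℚ] V ⧸ S := S.mkQ with hm
  have hm0 : ∀ z, m z = 0 → ∃ t : ℚ, z = t • a K false := by
    intro z hz
    rw [hm, Submodule.mkQ_apply, Submodule.Quotient.mk_eq_zero] at hz
    obtain ⟨t, rfl⟩ := Submodule.mem_span_singleton.1 hz
    exact ⟨t, rfl⟩
  have hmx : m (a K false) = 0 := by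
    rw [hm, Submodule.mkQ_apply, Submodule.Quotient.mk_eq_zero]
    exact subset_span (by simp)
  have hinj : ∀ w ∈ FF u (N + 1), m w = 0 → w = 0 := by
    intro w hw hz
    obtain ⟨t, ht⟩ := hm0 w hz
    rw [ht] at hw
    rw [ht, hF1 t hw, zero_smul]
  have hmem' : ∀ i w, m w ∈ FF (fun i b => m (u i b)) i →
      ∃ w' ∈ FF u i, ∃ t : ℚ, w = w' + t • a K false := by
    intro i w hw
    rw [cc_map] at hw
    obtain ⟨w', hw', he⟩ := Submodule.mem_map.1 hw
    obtain ⟨t, ht⟩ := hm0 (w - w') (by rw [map_sub, he, sub_self])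
    exact ⟨w', hw', t, by rw [← ht]; abel⟩
  have hmem : ∀ i w, w ∈ FF u i → m w ∈ FF (fun i b => m (u i b)) i := by
    intro i w hw
    rw [cc_map]
    exact Submodule.mem_map_of_mem hw
  have hUX : Uni (m '' X) := by
    refine uni_con m (S := {a K false}) hU ?_ ?_ ?_
    · rintro z rfl
      exact h.mem K (Nat.lt_succ_self K) false
    · rintro z rfl
      exact hmx
    · intro z _ hz
      rwa [hm, Submodule.mkQ_apply, Submodule.Quotient.mk_eq_zero] at hz
  have hchain : Chain (m '' X) (fun i b => m (u i b)) N := by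
    refine ⟨fun i hi b => ⟨_, hc.mem i (by omega) b, rfl⟩, fun i hi hin => ?_,
      fun i hi => ?_, fun i hi hi0 he => ?_⟩
    · obtain ⟨w', hw', t, he⟩ := hmem' i _ hin
      have hlt : FF u i ≤ FF u (N + 1) := FF_mono u (by omega)
      have h3 : t • a K false ∈ FF u (N + 1) := by
        have h4 : u i false ∈ FF u (N + 1) := subset_span ⟨i, by omega, rfl⟩
        have h5 := sub_mem h4 (hlt hw')
        rwa [he, add_sub_cancel_left] at h5
      have h6 := hF1 t h3
      subst h6
      apply hc.ind i (by omega)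
      rw [he, zero_smul, add_zero]
      exact hw'
    · have := hmem i _ (hc.dif i (by omega))
      simpa only [map_sub] using this
    · apply hc.dne i (by omega) hi0
      apply sub_eq_zero.1
      apply hinj _ (FF_mono u (by omega) (hc.dif i (by omega)))
      rw [map_sub, sub_eq_zero]
      exact he
  have hcirc : Circ (m '' X) (fun i b => m (u i b)) N (fun j b => m (a j b)) K := by
    refine ⟨by omega, fun j hj b => ⟨_, h.mem j (by omega) b, rfl⟩, fun j hj => ?_,
      fun j hj he => ?_, fun hK1 => ?_, ?_, fun μ hμ i hi j hj => ?_⟩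
    · have h3 := hmem N _ (hd j hj)
      rwa [map_sub] at h3
    · apply h.dne j (by omega)
      apply sub_eq_zero.1
      apply hinj _ (hu1 _ (hd j hj))
      rw [map_sub, sub_eq_zero]
      exact he
    · -- one
      subst hK1
      have hsum2 : ∀ g : ℕ → Bool, ∑ l ∈ range 2, a l (g l) = a 0 (g 0) + a 1 (g 1) := by
        intro g
        rw [Finset.sum_range_succ, Finset.sum_range_one]
      have hne : ∀ b : Bool, a 0 b + a 1 false ≠ 0 := by
        intro b he
        apply hnv
        refine ⟨fun l => if l = 0 then b else false, ?_⟩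
        rw [hsum2]
        simpa using he
      have hmin2 : ∀ (b : Bool) (t : ℚ), a 0 b = t • a 1 false → t = -1 := by
        intro b t he
        have h3 := circ_min h (fun l => if l = 0 then b else false)
          (fun i => if i = 0 then 1 else -t) (by
            rw [Finset.sum_range_succ, Finset.sum_range_one]
            simp only [if_true, one_smul, one_ne_zero, if_false, neg_smul]
            rw [he, add_neg_cancel]
            exact zero_mem _) 0 (by omega) 1 (by omega)
        simp only [if_true, one_ne_zero, if_false] at h3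
        (clear * - h3; linarith)
      have hone : ∀ b : Bool, m (a 0 b) ≠ 0 := by
        intro b he
        obtain ⟨t, ht⟩ := hm0 _ he
        rw [hmin2 b t ht] at ht
        exact hne b (by rw [ht]; module)
      refine ⟨hone false, hone true, fun he => ?_⟩
      obtain ⟨t, ht⟩ := hm0 (a 0 false + a 0 true) (by
        rw [map_add]
        exact add_eq_zero_iff_eq_neg.2 he)
      have hd0 := h.dif 0 (by omega)
      have hl : t = -2 := by
        have h3 := h.min (fun i => if i = 0 then 2 else -t) (by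
          rw [Finset.sum_range_succ, Finset.sum_range_one]
          simp only [if_true, one_ne_zero, if_false]
          have h4 : (2 : ℚ) • a 0 false + -t • a 1 false = (a 0 false - a 0 true) := by
            have h5 : (2 : ℚ) • a 0 false + -t • a 1 false
              = (a 0 false + a 0 true) + (a 0 false - a 0 true) - t • a 1 false := by module
            rw [h5, ht]
            module
          rw [h4]
          exact hd0) 0 (by omega) 1 (by omega)
        simp only [if_true, one_ne_zero, if_false] at h3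
        (clear * - h3; linarith)
      rw [hl] at ht
      -- `2 q = δ`
      obtain ⟨β, hβ⟩ := chain_expand hc (fun _ => false) hd0
      have hq : ∑ j ∈ range 2, a j ((fun _ : ℕ => false) j) =
          ∑ i ∈ range (N + 1), (β i / 2) • u i ((fun _ : ℕ => false) i) := by
        rw [hsum2]
        have h5 : ∑ i ∈ range (N + 1), (β i / 2) • u i ((fun _ : ℕ => false) i) =
            (1 / 2 : ℚ) • ∑ i ∈ range (N + 1), β i • u i ((fun _ : ℕ => false) i) := by
          rw [Finset.smul_sum]
          refine Finset.sum_congr rfl fun i _ => ?_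
          rw [smul_smul]
          congr 1
          ring
        rw [h5, ← hβ]
        have h6 : a 0 false + a 1 false = (1 / 2 : ℚ) • ((a 0 false + a 0 true) +
            (a 0 false - a 0 true) + (2 : ℚ) • a 1 false) := by module
        rw [h6, ht]
        module
      have hβ0 : ∀ i < N + 1, β i = 0 := by
        intro i hi
        have c1 := circ_coord hU hc h (fun _ => false) (fun _ => false) (fun i => β i / 2) hq i hi
        have c2 := diff_coord hU hc (h.mem 0 (by (clear * - N i; omega)) false) (h.mem 0 (by omega) true)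
          (circ_notMem h le_rfl (by omega) false) (fun _ => false) β hβ i hi
        rcases c1 with c1 | c1 | c1 <;> rcases c2 with c2 | c2 | c2
        all_goals (clear * - c1 c2; linarith)
      apply h.dne 0 (by omega)
      rw [← sub_eq_zero, hβ]
      exact Finset.sum_eq_zero fun i hi => by rw [hβ0 i (Finset.mem_range.1 hi), zero_smul]
    · have h3 := hmem N _ hs
      rw [Finset.sum_range_succ, map_add, hmx, add_zero, map_sum] at h3
      exact h3
    · have h3 : m (∑ j ∈ range K, μ j • a j false) ∈ FF (fun i b => m (u i b)) N := by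
        rw [map_sum]
        simpa only [map_smul] using hμ
      obtain ⟨w', hw', t, he⟩ := hmem' N _ h3
      have h4 := h.min (fun i => if i < K then μ i else -t) (by
        rw [Finset.sum_range_succ]
        simp only [lt_irrefl, if_false]
        have h5 : ∑ j ∈ range K, (if j < K then μ j else -t) • a j false
            = ∑ j ∈ range K, μ j • a j false :=
          Finset.sum_congr rfl fun j hj => by rw [if_pos (Finset.mem_range.1 hj)]
        rw [h5, he]
        have h6 : w' + t • a K false + -t • a K false = w' := by module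
        rw [h6]
        exact hu1 _ hw') i (by omega) j (by omega)
      simpa only [hi, hj, if_true] using h4
  -- the relation in the quotient
  obtain ⟨α, μ, f, g, hnt, hrel, hcard⟩ := hP (V ⧸ S) (m '' X) _ _ hUX hchain hcirc
  have hrel' : m (∑ i ∈ range N, α i • u i (f i) + ∑ j ∈ range K, μ j • a j (g j)) = 0 := by
    rw [map_add, map_sum, map_sum]
    simpa only [map_smul] using hrel
  obtain ⟨t, ht⟩ := hm0 _ hrel'
  refine ⟨fun i => if i < N then α i else 0, fun j => if j < K then μ j else -t, f,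
    fun j => if j < K then g j else false, ?_, ?_, ?_⟩
  · rcases hnt with ⟨i, hi, h8⟩ | ⟨j, hj, h8⟩
    · exact Or.inl ⟨i, by omega, by simpa only [hi, if_true] using h8⟩
    · exact Or.inr ⟨j, by (clear * - N α μ hj; omega), by simpa only [hj, if_true] using h8⟩
  · rw [costSym_ext α N (fun i => u i (f i)), Finset.sum_range_succ]
    have h5 : ∑ j ∈ range K, (if j < K then μ j else -t) • a j (if j < K then g j else false)
        = ∑ j ∈ range K, μ j • a j (g j) :=
      Finset.sum_congr rfl fun j hj => by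
        rw [if_pos (Finset.mem_range.1 hj), if_pos (Finset.mem_range.1 hj)]
    rw [h5]
    simp only [lt_irrefl, if_false]
    rw [← add_assoc, ht]
    module
  · rw [costSym_extcard]
    have h5 : ((range (K + 1)).filter (fun j => (if j < K then μ j else -t) ≠ 0)).card ≤
        ((range K).filter (fun j => μ j ≠ 0)).card + 1 := by
      have h6 : (range (K + 1)).filter (fun j => (if j < K then μ j else -t) ≠ 0) ⊆
          insert K ((range K).filter (fun j => μ j ≠ 0)) := by
        intro j hj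
        rw [Finset.mem_filter, Finset.mem_range] at hj
        rw [Finset.mem_insert, Finset.mem_filter, Finset.mem_range]
        by_cases hjK : j < K
        · right
          refine ⟨hjK, ?_⟩
          have := hj.2
          rwa [if_pos hjK] at this
        · left
          omega
      exact (Finset.card_le_card h6).trans (Finset.card_insert_le _ _)
    refine (Nat.add_le_add_left h5 _).trans ?_
    omega

end RC

end

section

/-!
Module RC-R2.  Contraction of finitely many elements in a class `C`.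

`cls_con_finset`: induction on `T`.  `T = ∅`: `hC.map`.  `insert x T`: let
`g = (span {x}).mkQ : V → V₁`, `f = f₁ ∘ g` (`Submodule.liftQ`, as `f x = 0`).  By `hC.con`
`C V₁ (g '' X)`.  `f₁` kills `g '' T`; if `z = g y ∈ span (g '' X)`, `y ∈ span X`, and
`f₁ z = f y = 0`, then `y ∈ span (insert x T)`, so `z ∈ span (g '' T)`.  The induction
hypothesis must be general in `V` and `X`.
`cls_mkQ`: `f = (span T).mkQ`.
`cls_empty` etc. are not needed.
-/

namespace RC.Red

open Submodule Module

theorem cls_con_card {C : ClsT} (hC : Cls C) {W : Type} [AddCommGroup W] [Module ℚ W] (n : ℕ) :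
    ∀ {V : Type} [AddCommGroup V] [Module ℚ V] (f : V →ₗ[ℚ] W) {X : Set V} (T : Finset V),
      T.card ≤ n → (T : Set V) ⊆ X → (∀ t ∈ T, f t = 0) →
      (∀ y ∈ span ℚ X, f y = 0 → y ∈ span ℚ (T : Set V)) → C V X → C W (f '' X) := by
  classical
  induction n with
  | zero =>
    intro V _ _ f X T hn _ _ hk h
    have hT : T = ∅ := Finset.card_eq_zero.1 (Nat.le_zero.1 hn)
    subst hT
    refine hC.map f h fun y hy hfy => ?_
    have := hk y hy hfy
    simpa using this
  | succ n ih =>
    intro V _ _ f X T hn hT h0 hk h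
    by_cases hne : T = ∅
    · subst hne
      refine hC.map f h fun y hy hfy => ?_
      have := hk y hy hfy
      simpa using this
    · obtain ⟨x, hx⟩ := Finset.nonempty_iff_ne_empty.2 hne
      have hfx : f x = 0 := h0 x hx
      have hle : span ℚ ({x} : Set V) ≤ LinearMap.ker f := by
        rw [span_singleton_le_iff_mem, LinearMap.mem_ker]
        exact hfx
      have hgx : (span ℚ ({x} : Set V)).mkQ x = 0 := by
        rw [mkQ_apply, Quotient.mk_eq_zero]
        exact mem_span_singleton_self x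
      have h1 : C (V ⧸ span ℚ ({x} : Set V)) ((span ℚ ({x} : Set V)).mkQ '' X) := by
        refine hC.con _ h (hT hx) hgx fun y _ hy => ?_
        rwa [mkQ_apply, Quotient.mk_eq_zero] at hy
      have h2 := ih ((span ℚ ({x} : Set V)).liftQ f hle) (X := (span ℚ ({x} : Set V)).mkQ '' X)
        ((T.erase x).image (span ℚ ({x} : Set V)).mkQ) ?_ ?_ ?_ ?_ h1
      · rw [Set.image_image] at h2
        have h3 : (fun y => (span ℚ ({x} : Set V)).liftQ f hle ((span ℚ ({x} : Set V)).mkQ y)) =
            f := by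
          ext y
          rw [mkQ_apply, liftQ_apply]
        rw [h3] at h2
        exact h2
      · have h3 := Finset.card_erase_of_mem hx
        have h4 : ((T.erase x).image (span ℚ ({x} : Set V)).mkQ).card ≤ (T.erase x).card :=
          Finset.card_image_le
        omega
      · intro z hz
        rw [Finset.coe_image] at hz
        obtain ⟨y, hy, rfl⟩ := hz
        exact ⟨y, hT (Finset.mem_of_mem_erase hy), rfl⟩
      · intro t ht
        obtain ⟨y, hy, rfl⟩ := Finset.mem_image.1 ht
        rw [mkQ_apply, liftQ_apply]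
        exact h0 y (Finset.mem_of_mem_erase hy)
      · intro z hz hfz
        rw [span_image] at hz
        obtain ⟨y, hy, rfl⟩ := hz
        rw [mkQ_apply, liftQ_apply] at hfz
        have h3 := hk y hy hfz
        have h4 : (span ℚ ({x} : Set V)).mkQ y ∈
            (span ℚ (T : Set V)).map (span ℚ ({x} : Set V)).mkQ := ⟨y, h3, rfl⟩
        rw [← span_image] at h4
        refine span_le.2 ?_ h4
        rintro _ ⟨t, ht, rfl⟩
        by_cases htx : t = x
        · subst htx
          rw [SetLike.mem_coe, hgx]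
          exact zero_mem _
        · refine subset_span ?_
          rw [Finset.coe_image]
          exact ⟨t, Finset.mem_coe.2 (Finset.mem_erase.2 ⟨htx, ht⟩), rfl⟩

theorem cls_con_finset {C : ClsT} (hC : Cls C) {V W : Type} [AddCommGroup V] [Module ℚ V]
    [AddCommGroup W] [Module ℚ W] (f : V →ₗ[ℚ] W) {X : Set V} (T : Finset V)
    (hT : (T : Set V) ⊆ X) (h0 : ∀ t ∈ T, f t = 0)
    (hk : ∀ y ∈ span ℚ X, f y = 0 → y ∈ span ℚ (T : Set V)) (h : C V X) : C W (f '' X) :=
  cls_con_card hC T.card f T le_rfl hT h0 hk h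

theorem cls_mkQ {C : ClsT} (hC : Cls C) {V : Type} [AddCommGroup V] [Module ℚ V] {X : Set V}
    (T : Finset V) (hT : (T : Set V) ⊆ X) (h : C V X) :
    C (V ⧸ span ℚ (T : Set V)) ((span ℚ (T : Set V)).mkQ '' X) := by
  refine cls_con_finset hC _ T hT (fun t ht => ?_) (fun y _ hy => ?_) h
  · rw [mkQ_apply, Quotient.mk_eq_zero]
    exact subset_span ht
  · rwa [mkQ_apply, Quotient.mk_eq_zero] at hy

end RC.Red

end

section

/-!
Module RC-U5.  The columns of a totally unimodular matrix form a unimodular set.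

Let `s` be a finite independent set of columns, `x = ∑ c a • a` a column.  Choose column indices
`e a` for `a ∈ s` and `e x`.  The `m × s` matrix of the columns in `s` has rank `|s|`, so there
are `|s|` rows with nonzero determinant (for instance `Matrix.exists_submatrix...` or: the row
space of the `m × s` matrix is everything, choose a basis among the rows).  This determinant is
`1` or `-1`.  By Cramer's rule (`Matrix.mulVec_cramer`, `Matrix.cramer_apply`) `c a` is the
quotient of the determinant of a square submatrix (column `a` replaced by column `x`; it is a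
submatrix up to repeated columns, when it is `0`) and `± 1`.
-/

namespace RC

open Submodule Module

theorem uni_of_TU {m E : Type} [Fintype m] (A : Matrix m E ℚ) (hA : A.IsTotallyUnimodular) :
    Uni (Set.range fun e => (fun i => A i e : m → ℚ)) := by
  classical
  intro s c hs hli hx a0 ha0
  have hcol : ∀ a : s, ∃ e : E, (fun i => A i e) = (a : m → ℚ) := fun a => hs a.2
  choose g hg using hcol
  obtain ⟨gx, hgx⟩ := hx
  have hli' : LinearIndependent ℚ (fun a : s => (a : m → ℚ)) := hli
  set B : Matrix m s ℚ := fun i a => (a : m → ℚ) i with hB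
  have hr1 : B.transpose.rank = Fintype.card s :=
    LinearIndependent.rank_matrix (M := B.transpose) hli'
  have hspan : span ℚ (Set.range B.row) = ⊤ := by
    apply Submodule.eq_top_of_finrank_eq
    rw [Matrix.rank_eq_finrank_span_cols] at hr1
    rw [Module.finrank_pi]
    exact hr1
  obtain ⟨κ, r, hrinj, hrspan, hrli⟩ := exists_linearIndependent' ℚ B.row
  rw [hspan] at hrspan
  have hfk : Finite κ := Finite.of_injective r hrinj
  have : Fintype κ := Fintype.ofFinite κ
  have hcard : Fintype.card κ = Fintype.card s := by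
    have h1 := finrank_span_eq_card hrli
    rw [hrspan, finrank_top, Module.finrank_pi] at h1
    exact h1.symm
  let eq : s ≃ κ := (Fintype.equivOfCardEq hcard).symm
  set f : s → m := fun j => r (eq j) with hf
  set M : Matrix s s ℚ := fun j a => A (f j) (g a) with hM
  have hAB : ∀ i (a : s), A i (g a) = B i a := fun i a => congrFun (hg a) i
  have hMrow : LinearIndependent ℚ M.row := by
    have h1 : M.row = (B.row ∘ r) ∘ eq := by
      funext j a
      exact hAB (f j) a
    rw [h1]
    exact hrli.comp _ eq.injective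
  have hMu : IsUnit M := Matrix.linearIndependent_rows_iff_isUnit.1 hMrow
  have hdet : M.det ≠ 0 := ((Matrix.isUnit_iff_isUnit_det M).1 hMu).ne_zero
  rw [Matrix.isTotallyUnimodular_iff_fintype] at hA
  have hd1 : M.det ∈ Set.range SignType.cast := hA s f g
  set cv : s → ℚ := fun a => c a with hcv
  have hb : M.mulVec cv = fun j => A (f j) gx := by
    funext j
    have h1 : A (f j) gx = (∑ a ∈ s, c a • a) (f j) := congrFun hgx (f j)
    rw [h1, ← Finset.sum_coe_sort s (fun a => c a • a), Finset.sum_apply]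
    simp only [Matrix.mulVec, dotProduct, hcv, hM]
    refine Finset.sum_congr rfl fun a _ => ?_
    rw [hAB]
    simp [hB, mul_comm]
  have hcr : M.det * cv ⟨a0, ha0⟩ = (M.updateCol ⟨a0, ha0⟩ (fun j => A (f j) gx)).det := by
    rw [← Matrix.cramer_apply, ← hb, Matrix.cramer_eq_adjugate_mulVec, Matrix.mulVec_mulVec,
      Matrix.adjugate_mul, Matrix.smul_mulVec, Matrix.one_mulVec]
    rfl
  have hup : M.updateCol ⟨a0, ha0⟩ (fun j => A (f j) gx)
      = A.submatrix f (Function.update g ⟨a0, ha0⟩ gx) := by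
    ext j a
    by_cases h : a = ⟨a0, ha0⟩
    · subst h
      simp
    · simp [h, hM]
  have hd2 : (M.updateCol ⟨a0, ha0⟩ (fun j => A (f j) gx)).det ∈ Set.range SignType.cast := by
    rw [hup]
    exact hA s f _
  rw [← hcr] at hd2
  have hc : cv ⟨a0, ha0⟩ = c a0 := rfl
  rw [hc] at hd2
  obtain ⟨t1, ht1⟩ := hd1
  obtain ⟨t2, ht2⟩ := hd2
  rw [← ht1] at ht2 hdet
  rcases t1 with _ | _ | _
  · exact absurd (by simp) hdet
  · rcases t2 with _ | _ | _
    · left
      simpa using ht2.symm
    · right; left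
      have h3 : (-1 : ℚ) = -c a0 := by simpa using ht2
      (clear * - h3; linarith)
    · right; right
      have h3 : (1 : ℚ) = -c a0 := by simpa using ht2
      (clear * - h3; linarith)
  · rcases t2 with _ | _ | _
    · left
      simpa using ht2.symm
    · right; right
      have h3 : (-1 : ℚ) = c a0 := by simpa using ht2
      (clear * - h3; linarith)
    · right; left
      have h3 : (1 : ℚ) = c a0 := by simpa using ht2
      (clear * - h3; linarith)

end RC

end

section

/-!
From systems of vectors to matroids on arbitrary types; from totally unimodular matrices over the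
reals to unimodular sets of rational vectors.
-/

namespace RC

open Submodule Module

/-- The theorem for matroids, from the theorem for systems of vectors. -/
theorem rainbow_gen {C : ClsT} (hC : Cls C) {n : ℕ} (hG : GC C n) {α : Type*} {V : Type}
    [AddCommGroup V] [Module ℚ V] (v : α → V) (M : Matroid α) (hv : C V (v '' M.E))
    (hM : ∀ S ⊆ M.E, (M.Indep S ↔ LinearIndepOn ℚ v S))
    (hs : ∀ D, M.IsCircuit D → 3 ≤ D.encard) (hr : M.eRank + 1 ≤ (n : ℕ∞)) (c : α → Fin n)
    (hc : ∀ i, ∃ e ∈ M.E, ∃ f ∈ M.E, e ≠ f ∧ c e = i ∧ c f = i) :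
    ∃ D, M.IsCircuit D ∧ Set.InjOn c D ∧ D.encard ≤ ((n + 1) / 2 : ℕ) := by
  classical
  have hsmall : ∀ S : Set α, S ⊆ M.E → S.encard < 3 → M.Indep S := by
    intro S hSE hS
    by_contra hcon
    have hdep : M.Dep S := ⟨hcon, hSE⟩
    obtain ⟨D, hDS, hD⟩ := hdep.exists_isCircuit_subset
    have h1 := hs D hD
    have h2 := Set.encard_le_encard hDS
    exact absurd (lt_of_le_of_lt (h1.trans h2) hS) (lt_irrefl _)
  choose a haE b hbE hab ha hb using hc
  let g : Fin n × Bool → α := fun x => if x.2 then b x.1 else a x.1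
  have hgE : ∀ x, g x ∈ M.E := by
    rintro ⟨i, t⟩
    cases t
    · exact haE i
    · exact hbE i
  have hgc : ∀ x, c (g x) = x.1 := by
    rintro ⟨i, t⟩
    cases t
    · exact ha i
    · exact hb i
  have hginj : Function.Injective g := by
    rintro ⟨i, t⟩ ⟨j, s⟩ h
    have h1 : i = j := by
      have := congrArg c h
      rwa [hgc, hgc] at this
    subst h1
    cases t <;> cases s
    · rfl
    · exact absurd h (hab i)
    · exact absurd h.symm (hab i)
    · rfl
  have hne : ∀ x, v (g x) ≠ 0 := by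
    intro x
    have h1 := (hM {g x} (by simpa using hgE x)).1
      (hsmall {g x} (by simpa using hgE x) (by rw [Set.encard_singleton]; norm_num))
    exact h1.ne_zero (Set.mem_singleton _)
  have hpar : ∀ x y, x ≠ y → LinearIndependent ℚ ![v (g x), v (g y)] := by
    intro x y hxy
    have hsub : ({g x, g y} : Set α) ⊆ M.E := by
      rintro z (rfl | rfl)
      · exact hgE x
      · exact hgE y
    have hne' : g x ≠ g y := fun h => hxy (hginj h)
    have h1 := (hM {g x, g y} hsub).1
      (hsmall _ hsub (by rw [Set.encard_pair hne']; norm_num))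
    rw [LinearIndependent.pair_iff]
    exact (LinearIndepOn.pair_iff v hne').1 h1
  have hcard : (Finset.univ : Finset (Fin n × Bool)).card = 2 * n := by
    rw [Finset.card_univ, Fintype.card_prod, Fintype.card_fin, Fintype.card_bool, mul_comm]
  have hnc : nc (fun x : Fin n × Bool => x.1) Finset.univ = n := by
    rw [nc_image]
    have h1 : ∀ i, i ∈ Finset.image (fun x : Fin n × Bool => x.1) Finset.univ := by
      intro i
      rw [Finset.mem_image]
      exact ⟨(i, false), Finset.mem_univ _, rfl⟩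
    have h2 := Finset.eq_univ_iff_forall.2 h1
    rw [h2, Finset.card_univ, Fintype.card_fin]
  have hrk : rk (fun x => v (g x)) Finset.univ + 1 ≤ n := by
    unfold rk
    obtain ⟨t, -, -, htspan, htli⟩ := exists_linearIndepOn_extension
      (K := ℚ) (v := fun x => v (g x)) (s := ∅) (t := (Finset.univ : Finset (Fin n × Bool)))
      (linearIndepOn_empty ℚ _) (Set.empty_subset _)
    have htf : Fintype t := Fintype.ofFinite t
    have h1 : span ℚ ((fun x => v (g x)) '' ((Finset.univ : Finset (Fin n × Bool)) : Set _)) =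
        span ℚ (Set.range fun x : t => v (g x)) := by
      apply le_antisymm
      · rw [span_le]
        refine htspan.trans ?_
        rw [Set.image_eq_range]
      · apply span_mono
        rintro _ ⟨x, rfl⟩
        exact ⟨x, by simp, rfl⟩
    rw [h1, finrank_span_eq_card htli]
    have hli : LinearIndepOn ℚ v (g '' t) := by
      have h5 : LinearIndepOn ℚ (v ∘ g) t := htli
      exact h5.image_of_comp
    have hsub : g '' t ⊆ M.E := by
      rintro _ ⟨x, -, rfl⟩
      exact hgE x
    have h2 := ((hM _ hsub).2 hli).encard_le_eRank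
    rw [hginj.injOn.encard_image] at h2
    have h3 : t.encard = (Fintype.card t : ℕ∞) := by
      rw [Set.encard_eq_coe_toFinset_card, Set.toFinset_card]
    rw [h3] at h2
    have h4 : ((Fintype.card t : ℕ) : ℕ∞) + 1 ≤ (n : ℕ∞) := le_trans (by (clear * - h2; gcongr)) hr
    exact_mod_cast h4
  have hsys : Sys C (fun x => v (g x)) (fun x : Fin n × Bool => x.1) Finset.univ := by
    refine ⟨hC.mono hv ?_, fun x _ => hne x, ?_, fun x _ y _ _ hxy => hpar x y hxy, ?_⟩
    · rintro _ ⟨x, _, rfl⟩
      exact Or.inr (Or.inl ⟨g x, hgE x, rfl⟩)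
    · rintro ⟨i, t⟩ _ ⟨j, s⟩ _ ⟨k, r⟩ _ h1 h2
      simp only at h1 h2
      subst h1 h2
      cases t <;> cases s <;> cases r <;> simp
    · rw [hnc]; exact hrk
  obtain ⟨T, hT, hTc, hinj, hdep⟩ := hG (Fin n × Bool) (Fin n) V _ _ _ hsys hnc
  have hbd : bd n (Finset.univ : Finset (Fin n × Bool)).card = (n + 1) / 2 := by
    rw [hcard]; unfold bd; rw [if_pos rfl]
  rw [hbd] at hTc
  have hsub : g '' (T : Set (Fin n × Bool)) ⊆ M.E := by
    rintro _ ⟨x, -, rfl⟩
    exact hgE x
  have hdepM : M.Dep (g '' (T : Set (Fin n × Bool))) := by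
    refine ⟨fun h => hdep ?_, hsub⟩
    have h1 := (hM _ hsub).1 h
    exact h1.comp_of_image hginj.injOn
  obtain ⟨D, hDT, hD⟩ := hdepM.exists_isCircuit_subset
  refine ⟨D, hD, ?_, ?_⟩
  · intro x hx y hy hxy
    obtain ⟨x', hx', rfl⟩ := hDT hx
    obtain ⟨y', hy', rfl⟩ := hDT hy
    rw [hgc, hgc] at hxy
    rw [hinj hx' hy' hxy]
  · refine (Set.encard_le_encard hDT).trans ?_
    refine (Set.encard_image_le _ _).trans ?_
    rw [Set.encard_coe_eq_coe_finsetCard]
    exact_mod_cast hTc

/-- Linear independence of rational vectors over the reals and over the rationals. -/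
theorem li_real_iff {ι : Type*} {m : ℕ} (w : ι → Fin m → ℚ) :
    LinearIndependent ℝ (fun i j => ((w i j : ℚ) : ℝ)) ↔ LinearIndependent ℚ w := by
  classical
  constructor
  · intro h
    rw [linearIndependent_iff'] at h ⊢
    intro s g hg i hi
    have h1 := h s (fun i => ((g i : ℚ) : ℝ)) (by
      funext j
      have h2 := congrFun hg j
      rw [Finset.sum_apply] at h2 ⊢
      simp only [Pi.smul_apply, smul_eq_mul, Pi.zero_apply] at h2 ⊢
      exact_mod_cast h2) i hi
    exact_mod_cast h1
  · intro h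
    rw [linearIndependent_iff'] at ⊢
    intro s g hg i hi
    have hs : LinearIndependent ℚ (fun x : s => w x) := h.comp _ Subtype.val_injective
    have hinj := linearIndependent_iff_injective_fintypeLinearCombination.1 hs
    obtain ⟨f, hf⟩ := LinearMap.exists_leftInverse_of_injective
      (Fintype.linearCombination ℚ (fun x : s => w x)) (LinearMap.ker_eq_bot.2 hinj)
    have hfw : ∀ x : s, f (w x) = Pi.single x 1 := by
      intro x
      have h1 := LinearMap.congr_fun hf (Pi.single x (1 : ℚ))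
      simpa [Fintype.linearCombination_apply_single] using h1
    -- the coordinates of `f`
    let F : Fin m → ℚ := fun j => f (Pi.single j 1) ⟨i, hi⟩
    have hF : ∀ x : s, ∑ j, F j * w x j = if x = ⟨i, hi⟩ then 1 else 0 := by
      intro x
      have h1 : w x = ∑ j, w x j • (Pi.single j (1 : ℚ) : Fin m → ℚ) := by
        funext k
        rw [Finset.sum_apply, Finset.sum_eq_single k]
        · simp
        · intro b _ hb
          simp [Pi.single_eq_of_ne' hb]
        · intro hk
          exact absurd (Finset.mem_univ k) hk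
      have h2 := congrFun (hfw x) ⟨i, hi⟩
      rw [h1, map_sum, Finset.sum_apply] at h2
      simp only [map_smul, Pi.smul_apply, smul_eq_mul] at h2
      have h3 : (∑ j, F j * w x j) = ∑ j, w x j * f (Pi.single j 1) ⟨i, hi⟩ :=
        Finset.sum_congr rfl fun j _ => by rw [mul_comm]
      rw [h3, h2]
      by_cases hx : x = ⟨i, hi⟩
      · rw [if_pos hx, hx, Pi.single_eq_same]
      · rw [if_neg hx, Pi.single_eq_of_ne (fun h => hx h.symm)]
    have h4 : ∑ j, (F j : ℝ) * (∑ x ∈ s, g x • (fun j => ((w x j : ℚ) : ℝ)) : Fin m → ℝ) j = 0 := by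
      rw [hg]
      simp
    simp only [Finset.sum_apply, Pi.smul_apply, smul_eq_mul, Finset.mul_sum] at h4
    rw [Finset.sum_comm] at h4
    have h5 : ∀ x ∈ s, ∑ j, (F j : ℝ) * (g x * ((w x j : ℚ) : ℝ)) =
        if x = i then g x else 0 := by
      intro x hx
      have h6 := hF ⟨x, hx⟩
      have h7 : ∑ j, (F j : ℝ) * (g x * ((w x j : ℚ) : ℝ)) =
          g x * ((∑ j, F j * w x j : ℚ) : ℝ) := by
        push_cast
        rw [Finset.mul_sum]
        exact Finset.sum_congr rfl fun j _ => by ring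
      rw [h7, h6]
      by_cases hxi : x = i
      · subst hxi
        simp
      · rw [if_neg (fun h => hxi (congrArg Subtype.val h)), if_neg hxi]
        simp
    rw [Finset.sum_congr rfl h5, Finset.sum_ite_eq' s i, if_pos hi] at h4
    exact h4

/-- A real totally unimodular matrix is rational. -/
theorem exists_rat {m : ℕ} {α : Type*} (A : Matrix (Fin m) α ℝ) (hA : A.IsTotallyUnimodular) :
    ∃ B : Matrix (Fin m) α ℚ, B.IsTotallyUnimodular ∧ ∀ i e, A i e = ((B i e : ℚ) : ℝ) := by
  classical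
  have h1 : ∀ i e, ∃ q : ℚ, A i e = (q : ℝ) := by
    intro i e
    obtain ⟨s, hs⟩ := hA.apply i e
    refine ⟨(s : ℚ), ?_⟩
    rw [← hs]
    cases s <;> simp
  obtain ⟨B, hB⟩ : ∃ B : Matrix (Fin m) α ℚ, ∀ i e, A i e = ((B i e : ℚ) : ℝ) :=
    ⟨fun i e => Classical.choose (h1 i e), fun i e => Classical.choose_spec (h1 i e)⟩
  refine ⟨B, ?_, hB⟩
  intro k f g hf hg
  obtain ⟨s, hs⟩ := hA k f g hf hg
  refine ⟨s, ?_⟩
  have h2 : (A.submatrix f g).det = (((B.submatrix f g).det : ℚ) : ℝ) := by
    have h3 : A.submatrix f g = (B.submatrix f g).map (algebraMap ℚ ℝ) := by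
      ext i j
      simp only [Matrix.submatrix_apply, Matrix.map_apply]
      rw [hB]
      rfl
    rw [h3, ← RingHom.mapMatrix_apply, ← RingHom.map_det]
    rfl
  rw [h2] at hs
  have h4 : ((s : ℚ) : ℝ) = (s : ℝ) := by cases s <;> simp
  rw [← h4] at hs
  exact_mod_cast hs

end RC

end

section

/-!
Module RG-8.  Small unimodular sets are decomposable, and the elementary steps of the induction.

`dec_empty`, `dec_single`: `Dec.graphic` with `W = Fin 2`; for `{x}`, `x ≠ 0`, choose a linear
functional `f` with `f x = 1` and `φ y = f y • (Pi.single 0 1 - Pi.single 1 1)`; for `x = 0` or the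
empty set `φ = 0`.
`dec_tri`: `Dec.graphic` with `W = Fin 3`; `P, Q` dual functionals of `p, q`,
`φ y = P y • (ε 0 - ε 1) + Q y • (ε 1 - ε 2)`.
`dec_sub`: `Dec.emb` with the identity.
`dec_sum0`, `dec_sum1`: `Dec.sum` with `p = q = 0`, and with `q = 0`.
-/

namespace RC.Gut

open Submodule Module

variable {V : Type} [AddCommGroup V] [Module ℚ V]

theorem dec_sub {X Y : Set V} (hY : Dec V Y) (h : ∀ x ∈ X, x = 0 ∨ x ∈ Y ∨ -x ∈ Y) :
    Dec V X :=
  Dec.emb X Y LinearMap.id (fun y _ hy => hy) (fun x hx => h x hx) hY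

theorem exists_dual {x : V} (hx : x ≠ 0) : ∃ f : V →ₗ[ℚ] ℚ, f x = 1 := by
  obtain ⟨f, hf⟩ := LinearMap.exists_leftInverse_of_injective
    (LinearMap.toSpanSingleton ℚ V x) (LinearMap.ker_toSpanSingleton ℚ hx)
  refine ⟨f, ?_⟩
  have h := LinearMap.congr_fun hf 1
  simpa using h

theorem dec_empty : Dec V (∅ : Set V) := by
  refine Dec.graphic ∅ (Fin 2) 0 ?_ ?_
  · intro y hy _
    simpa using hy
  · intro x hx
    exact absurd hx (Set.notMem_empty x)

theorem dec_single {x : V} (hx : x ≠ 0) : Dec V ({x} : Set V) := by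
  obtain ⟨f, hf⟩ := exists_dual hx
  refine Dec.graphic {x} (Fin 2) (f.smulRight (Pi.single 0 1 - Pi.single 1 1)) ?_ ?_
  · intro y hy h0
    obtain ⟨t, rfl⟩ := mem_span_singleton.1 hy
    have h1 := congrFun h0 0
    simp [hf] at h1
    rw [h1, zero_smul]
  · intro y hy
    rw [Set.mem_singleton_iff] at hy
    subst hy
    refine ⟨0, 1, ?_⟩
    simp [hf]

theorem dec_tri {p q : V} (li : LinearIndependent ℚ ![p, q]) :
    Dec V ({p, q, p + q} : Set V) := by
  have hinj := linearIndependent_iff_injective_fintypeLinearCombination.1 li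
  obtain ⟨g, hg⟩ := LinearMap.exists_leftInverse_of_injective
    (Fintype.linearCombination ℚ ![p, q]) (LinearMap.ker_eq_bot.2 hinj)
  have h0 : g p = Pi.single 0 1 := by
    have h := LinearMap.congr_fun hg (Pi.single (0 : Fin 2) (1 : ℚ))
    simpa [Fintype.linearCombination_apply_single] using h
  have h1 : g q = Pi.single 1 1 := by
    have h := LinearMap.congr_fun hg (Pi.single (1 : Fin 2) (1 : ℚ))
    simpa [Fintype.linearCombination_apply_single] using h
  let P : V →ₗ[ℚ] ℚ := (LinearMap.proj 0).comp g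
  let Q : V →ₗ[ℚ] ℚ := (LinearMap.proj 1).comp g
  have hPp : P p = 1 := by simp [P, h0]
  have hPq : P q = 0 := by simp [P, h1]
  have hQp : Q p = 0 := by simp [Q, h0]
  have hQq : Q q = 1 := by simp [Q, h1]
  refine Dec.graphic {p, q, p + q} (Fin 3)
    (P.smulRight (Pi.single 0 1 - Pi.single 1 1) + Q.smulRight (Pi.single 1 1 - Pi.single 2 1))
    ?_ ?_
  · intro y hy hz
    have hy' : y ∈ span ℚ ({p, q} : Set V) := by
      have hle : span ℚ ({p, q, p + q} : Set V) ≤ span ℚ ({p, q} : Set V) := by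
        rw [span_le]
        rintro w (rfl | rfl | rfl)
        · exact subset_span (by simp)
        · exact subset_span (by simp)
        · exact add_mem (subset_span (by simp)) (subset_span (by simp))
      exact hle hy
    obtain ⟨s, t, rfl⟩ := mem_span_pair.1 hy'
    have e0 := congrFun hz 0
    have e2 := congrFun hz 2
    simp [hPp, hPq, hQp, hQq] at e0 e2
    rw [e0, e2, zero_smul, zero_smul, add_zero]
  · rintro x (rfl | rfl | rfl)
    · exact ⟨0, 1, by simp [hPp, hQp]⟩
    · exact ⟨1, 2, by simp [hPq, hQq]⟩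
    · refine ⟨0, 2, ?_⟩
      simp [hPp, hPq, hQp, hQq]

theorem dec_sum0 {A B : Set V} (h : span ℚ A ⊓ span ℚ B = ⊥) (hA : Dec V A) (hB : Dec V B) :
    Dec V (A ∪ B) := by
  have key : ∀ X : Set V, span ℚ (X ∪ {(0 : V), 0}) = span ℚ X := by
    intro X
    rw [Set.pair_eq_singleton, Set.union_singleton, span_insert_zero]
  refine Dec.sum A B 0 0 (Or.inr rfl) ?_ ?_ ?_
  · rw [key, key, h, Set.pair_eq_singleton, span_zero_singleton]
  · refine dec_sub hA ?_
    rintro x (hx | (rfl | rfl | hx))
    · exact Or.inr (Or.inl hx)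
    · exact Or.inl rfl
    · exact Or.inl rfl
    · left
      rw [Set.mem_singleton_iff] at hx
      rw [hx, add_zero]
  · refine dec_sub hB ?_
    rintro x (hx | (rfl | rfl | hx))
    · exact Or.inr (Or.inl hx)
    · exact Or.inl rfl
    · exact Or.inl rfl
    · left
      rw [Set.mem_singleton_iff] at hx
      rw [hx, add_zero]

theorem dec_sum1 {A B : Set V} {p : V} (h : span ℚ A ⊓ span ℚ B = span ℚ {p})
    (hA : Dec V (A ∪ {p})) (hB : Dec V (B ∪ {p})) : Dec V (A ∪ B) := by
  have hpA : p ∈ span ℚ A := by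
    have : p ∈ span ℚ A ⊓ span ℚ B := by rw [h]; exact mem_span_singleton_self p
    exact this.1
  have hpB : p ∈ span ℚ B := by
    have : p ∈ span ℚ A ⊓ span ℚ B := by rw [h]; exact mem_span_singleton_self p
    exact this.2
  have key : ∀ X : Set V, p ∈ span ℚ X → span ℚ (X ∪ {p, (0 : V)}) = span ℚ X := by
    intro X hX
    apply le_antisymm
    · rw [span_le]
      rintro y (hy | (rfl | rfl))
      · exact subset_span hy
      · exact hX
      · exact zero_mem _
    · exact span_mono Set.subset_union_left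
  have hd : ∀ X : Set V, Dec V (X ∪ {p}) → Dec V (X ∪ {p, 0, p + 0}) := by
    intro X hX
    refine dec_sub hX ?_
    rintro x (hx | (rfl | rfl | hx))
    · exact Or.inr (Or.inl (Or.inl hx))
    · exact Or.inr (Or.inl (Or.inr rfl))
    · exact Or.inl rfl
    · rw [Set.mem_singleton_iff, add_zero] at hx
      exact Or.inr (Or.inl (Or.inr hx))
  refine Dec.sum A B p 0 (Or.inr rfl) ?_ (hd A hA) (hd B hB)
  rw [key A hpA, key B hpB, h, Set.pair_comm, span_insert_zero]

theorem dec_sum2 {A B : Set V} {p q : V} (li : LinearIndependent ℚ ![p, q])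
    (h : span ℚ A ⊓ span ℚ B = span ℚ {p, q})
    (hA : Dec V (A ∪ {p, q, p + q})) (hB : Dec V (B ∪ {p, q, p + q})) : Dec V (A ∪ B) := by
  have hsub : ({p, q} : Set V) ⊆ (span ℚ A : Set V) ∩ (span ℚ B : Set V) := by
    intro x hx
    have : x ∈ span ℚ A ⊓ span ℚ B := by rw [h]; exact subset_span hx
    exact this
  have key : ∀ X : Set V, ({p, q} : Set V) ⊆ (span ℚ X : Set V) →
      span ℚ (X ∪ {p, q}) = span ℚ X := by
    intro X hX
    apply le_antisymm
    · rw [span_le]
      rintro y (hy | hy)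
      · exact subset_span hy
      · exact hX hy
    · exact span_mono Set.subset_union_left
  refine Dec.sum A B p q (Or.inl li) ?_ hA hB
  rw [key A (fun x hx => (hsub hx).1), key B (fun x hx => (hsub hx).2), h]

end RC.Gut

end
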