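import Mathlib
import Pool.Agent.Helper29.MFA.T01

section

/-!
Separation step for short rainbow circuits in regular matroids (MP_2ac654): definitions.
Guide: `/team-store/helper73_RCS_Guide.md`.
-/

namespace RC

open Submodule Module

/-- `w` lies in the span of a rainbow subset of `S` with at most `k` elements. -/
def Spn {ι κ V : Type} [AddCommGroup V] [Module ℚ V] (v : ι → V) (c : ι → κ)
    (S : Finset ι) (w : V) (k : ℕ) : Prop :=
  ∃ T : Finset ι, T ⊆ S ∧ T.card ≤ k ∧ Set.InjOn c (T : Set ι) ∧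
    w ∈ span ℚ (v '' (T : Set ι))

/-- The bound `bd` in terms of the number `a` of singles and the number `b` of pairs. -/
def bb (a b : ℕ) : ℕ := if a = 0 then (b + 1) / 2 else a + b / 2

theorem bd_eq_bb (a b : ℕ) : bd (a + b) (a + 2 * b) = bb a b := by
  unfold bd bb
  split_ifs <;> omega

/-- The triangle `x, y, z` (with `x + y + z = 0`) of a separation, seen from the side `X`. -/
structure Side (C : ClsT) {ι V : Type} [AddCommGroup V] [Module ℚ V] (v : ι → V)
    (X : Finset ι) (x y z : V) : Prop where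
  sum : x + y + z = 0
  li : LinearIndependent ℚ ![x, y]
  cls : C V (v '' (X : Set ι) ∪ {x, y, z})
  memx : x ∈ span ℚ (v '' (X : Set ι))
  memy : y ∈ span ℚ (v '' (X : Set ι))

/-- The numbers belonging to a piece `S`: it contains `b` full colour classes of size two and
`a` classes with one element. -/
def Cnt {ι κ : Type} (c : ι → κ) (S : Finset ι) (a b : ℕ) : Prop :=
  S.card = a + 2 * b ∧ nc c S = a + b

theorem Spn.mono {ι κ V : Type} [AddCommGroup V] [Module ℚ V] {v : ι → V} {c : ι → κ}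
    {S S' : Finset ι} {w : V} {k k' : ℕ} (h : Spn v c S w k) (hS : S ⊆ S') (hk : k ≤ k') :
    Spn v c S' w k' := by
  obtain ⟨T, h1, h2, h3, h4⟩ := h
  exact ⟨T, h1.trans hS, h2.trans hk, h3, h4⟩

theorem rk_mono {ι V : Type} [AddCommGroup V] [Module ℚ V] (v : ι → V) {S T : Finset ι}
    (h : S ⊆ T) : rk v S ≤ rk v T := by
  unfold rk
  have : span ℚ (v '' (S : Set ι)) ≤ span ℚ (v '' (T : Set ι)) :=
    span_mono (Set.image_mono (by exact_mod_cast h))
  have hf : FiniteDimensional ℚ (span ℚ (v '' (T : Set ι))) :=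
    FiniteDimensional.span_of_finite ℚ ((Finset.finite_toSet T).image v)
  exact LinearMap.finrank_le_finrank_of_injective (Submodule.inclusion_injective this)

end RC

end

section

/-!
RCS-3 (recolouring and subsystems of a bad system).

recolour: if `Short v c' S (bd ..)` then the same set is rainbow for `c` (as `c'` is coarser on `S`) so
`Short v c E h` if the bound is at most `h`: contradiction.  `Sys C v c' S`: `cls` by `hC.mono`,
`ne` from `hB.sys`, `two` is `h2`, `par`: if `c e = c e'` from `hB.sys.par`, otherwise `e, e'` is a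
rainbow set with two elements, `2 ≤ h` (`two_le`), so it is linearly independent.  Then `hB.ih`.

two_le (`2 ≤ h`): `h = 0` gives `E.card + 1 = 0`; `h = 1`: `E.card = 3`, rank 1, two elements of the
same colour different from `e0` (`hB.partner`) are independent, rank at least 2.

select: in a piece `X` with `a` singles and `b` pairs one can choose `b' ≤ b` of the pairs and
`a' ≤ a` of the singles.

merge: if `S` has `a ≥ 2` singles then there is a coarser colouring with `a - 2` singles, `b + 1` pairs.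

sub_ineq: put `b = |F| - nc F`, `a = nc F - b`.  If `rk F + 1 ≤ b` select `rk F + 1` pairs and no single:
`recolour` with `c' = c` gives `h < (rk F + 2) / 2`, so `2 * h ≤ rk F`: contradiction to `h2`.  Otherwise select
all pairs and `u = rk F + 1 - b ≤ a` singles: `h < u + b / 2` (`u > 0`), that is the claim.

sub_merge: if `rk F < b` then `sub_ineq` gives a contradiction as before.  Otherwise select all pairs and
`u = rk F + 2 - b ≥ 2` singles (`u ≤ a` by `h1`), merge two of them: `h < bb (u - 2) (b + 1)`.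
-/

namespace RC

open Submodule Module

variable {C : ClsT} {ι κ V : Type} [AddCommGroup V] [Module ℚ V] {h : ℕ} {v : ι → V}
  {c : ι → κ} {E : Finset ι} {e0 : ι}

theorem sub_two_le_finrank {W : Type} [AddCommGroup W] [Module ℚ W] {x y : W}
    (U : Submodule ℚ W) [FiniteDimensional ℚ U] (hx : x ∈ U) (hy : y ∈ U)
    (h : LinearIndependent ℚ ![x, y]) : 2 ≤ finrank ℚ U := by
  have h1 : LinearIndependent ℚ ![(⟨x, hx⟩ : U), ⟨y, hy⟩] := by
    apply LinearIndependent.of_comp U.subtype
    have h2 : (U.subtype ∘ ![(⟨x, hx⟩ : U), ⟨y, hy⟩]) = ![x, y] := by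
      ext i
      fin_cases i <;> rfl
    rw [h2]
    exact h
  simpa using h1.fintype_card_le_finrank

theorem Bad.two_le (hB : Bad C h v c E e0) : 2 ≤ h := by
  have h1 := hB.card
  have h2 := hB.rank
  by_contra hlt
  have h3 : h = 0 ∨ h = 1 := by (clear * - v h1 hlt; omega)
  rcases h3 with h3 | h3
  · omega
  · subst h3
    have h4 : ∃ e ∈ E, e ≠ e0 := by
      by_contra hno
      push Not at hno
      have h5 : E ⊆ {e0} := fun e he => Finset.mem_singleton.2 (hno e he)
      have h6 := Finset.card_le_card h5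
      rw [Finset.card_singleton] at h6
      omega
    obtain ⟨e, he, hne⟩ := h4
    obtain ⟨e', he', hne', hc⟩ := hB.partner e he hne
    have h5 := hB.sys.par e he e' he' hc.symm hne'.symm
    have hf : FiniteDimensional ℚ (span ℚ (v '' (E : Set ι))) :=
      FiniteDimensional.span_of_finite ℚ ((Finset.finite_toSet E).image v)
    have h6 := sub_two_le_finrank (span ℚ (v '' (E : Set ι)))
      (subset_span ⟨e, he, rfl⟩) (subset_span ⟨e', he', rfl⟩) h5
    unfold rk at h2
    omega

/-- Two elements of a bad system are never parallel. -/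
theorem Bad.par' (hB : Bad C h v c E e0) {e e' : ι} (he : e ∈ E) (he' : e' ∈ E)
    (hne : e ≠ e') : LinearIndependent ℚ ![v e, v e'] := by
  classical
  by_cases hc : c e = c e'
  · exact hB.sys.par e he e' he' hc hne
  · by_contra hli
    apply hB.short
    refine ⟨{e, e'}, ?_, ?_, ?_, ?_⟩
    · intro x hx
      rw [Finset.mem_insert, Finset.mem_singleton] at hx
      rcases hx with rfl | rfl
      · exact he
      · exact he'
    · exact (Finset.card_le_two).trans hB.two_le
    · intro x hx y hy hxy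
      rw [Finset.coe_insert, Finset.coe_singleton] at hx hy
      rcases hx with rfl | hx <;> rcases hy with rfl | hy
      · rfl
      · rw [Set.mem_singleton_iff] at hy
        subst hy
        exact absurd hxy hc
      · rw [Set.mem_singleton_iff] at hx
        subst hx
        exact absurd hxy.symm hc
      · rw [Set.mem_singleton_iff] at hx hy
        rw [hx, hy]
    · intro hind
      apply hli
      rw [Finset.coe_insert, Finset.coe_singleton] at hind
      rw [linearIndepOn_pair_iff v hne (hB.sys.ne e he)] at hind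
      rw [LinearIndependent.pair_iff' (hB.sys.ne e he)]
      exact hind

theorem recolour (hC : Cls C) (hB : Bad C h v c E e0) {S : Finset ι} (hS : S ⊆ E)
    {κ' : Type} (c' : ι → κ') (hc : ∀ e ∈ S, ∀ e' ∈ S, c e = c e' → c' e = c' e')
    (h2 : ∀ e ∈ S, ∀ e' ∈ S, ∀ e'' ∈ S, c' e = c' e' → c' e = c' e'' →
      e = e' ∨ e = e'' ∨ e' = e'')
    (hr : rk v S + 1 ≤ nc c' S) (hn : nc c' S < 2 * h) : h < bd (nc c' S) S.card := by
  by_contra hlt
  have hsys : Sys C v c' S := by
    refine ⟨?_, fun e he => hB.sys.ne e (hS he), h2, fun e he e' he' _ hne =>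
      hB.par' (hS he) (hS he') hne, hr⟩
    refine hC.mono hB.sys.cls ?_
    rintro _ ⟨e, he, rfl⟩
    exact Or.inr (Or.inl ⟨e, hS he, rfl⟩)
  obtain ⟨T, hTS, hTc, hTi, hTd⟩ := hB.ih (nc c' S) hn ι κ' V v c' S hsys rfl
  apply hB.short
  refine ⟨T, hTS.trans hS, by omega, ?_, hTd⟩
  intro x hx y hy hxy
  exact hTi hx hy (hc x (hTS hx) y (hTS hy) hxy)

theorem sub_fib (hB : Bad C h v c E e0) {X : Finset ι} (hX : X ⊆ E) (k : κ) [DecidableEq κ] :
    (X.filter fun x => c x = k).card ≤ 2 := by
  by_contra hlt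
  push Not at hlt
  obtain ⟨x, hx, y, hy, z, hz, hxy, hxz, hyz⟩ := Finset.two_lt_card.1 hlt
  rw [Finset.mem_filter] at hx hy hz
  have := hB.sys.two x (hX hx.1) y (hX hy.1) z (hX hz.1) (hx.2.trans hy.2.symm)
    (hx.2.trans hz.2.symm)
  rcases this with h | h | h
  · exact hxy h
  · exact hxz h
  · exact hyz h

/-- In a bad system the number of colours of a piece is at most its number of elements, which is at
most twice the number of colours. -/
theorem cnt_exists (hB : Bad C h v c E e0) {X : Finset ι} (hX : X ⊆ E) :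
    ∃ a b : ℕ, Cnt c X a b := by
  classical
  have h1 : nc c X ≤ X.card := by
    unfold nc
    convert Finset.card_image_le (s := X) (f := c)
  have h2 : X.card ≤ 2 * nc c X := by
    unfold nc
    convert Finset.card_le_mul_card_image (f := c) X 2 (fun k _ => sub_fib hB hX k)
  exact ⟨2 * nc c X - X.card, X.card - nc c X, by omega, by omega⟩

/-- The colours with one and with two elements. -/
theorem sub_split (hB : Bad C h v c E e0) [DecidableEq κ] {X : Finset ι} (hX : X ⊆ E) {a b : ℕ}
    (hcnt : Cnt c X a b) :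
    ((X.image c).filter fun k => (X.filter fun x => c x = k).card = 1).card = a ∧
    ((X.image c).filter fun k => (X.filter fun x => c x = k).card = 2).card = b := by
  obtain ⟨h1, h2⟩ := hcnt
  have h2' : (X.image c).card = a + b := by
    rw [← h2]
    exact (nc_image c X).symm
  have h3 : ∀ k ∈ X.image c, (X.filter fun x => c x = k).card = 1 ∨
      (X.filter fun x => c x = k).card = 2 := by
    intro k hk
    have h4 := sub_fib hB hX k
    have h5 : 0 < (X.filter fun x => c x = k).card := by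
      rw [Finset.card_pos]
      obtain ⟨x, hx, hxk⟩ := Finset.mem_image.1 hk
      exact ⟨x, Finset.mem_filter.2 ⟨hx, hxk⟩⟩
    omega
  have h4 := Finset.card_eq_sum_card_image c X
  have h5 : ((X.image c).filter fun k => (X.filter fun x => c x = k).card = 1).card +
      ((X.image c).filter fun k => (X.filter fun x => c x = k).card = 2).card =
      (X.image c).card := by
    rw [← Finset.card_filter_add_card_filter_not (s := X.image c)
      (fun k => (X.filter fun x => c x = k).card = 1)]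
    congr 2
    ext k
    simp only [Finset.mem_filter]
    constructor
    · rintro ⟨hk, h⟩
      exact ⟨hk, by omega⟩
    · rintro ⟨hk, h⟩
      have := h3 k hk
      exact ⟨hk, by (clear * - a b h this; omega)⟩
  have h6 : X.card = ((X.image c).filter fun k => (X.filter fun x => c x = k).card = 1).card +
      2 * ((X.image c).filter fun k => (X.filter fun x => c x = k).card = 2).card := by
    rw [h4, Finset.card_filter, Finset.card_filter, Finset.mul_sum, ← Finset.sum_add_distrib]
    refine Finset.sum_congr rfl fun k hk => ?_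
    rcases h3 k hk with h | h <;> rw [h] <;> simp
  omega

theorem select (hB : Bad C h v c E e0) {X : Finset ι} (hX : X ⊆ E) {a b a' b' : ℕ}
    (hcnt : Cnt c X a b) (ha : a' ≤ a) (hb : b' ≤ b) : ∃ S ⊆ X, Cnt c S a' b' := by
  classical
  obtain ⟨h1, h2⟩ := sub_split hB hX hcnt
  rw [← h1] at ha
  rw [← h2] at hb
  obtain ⟨K1, hK1, hc1⟩ := Finset.exists_subset_card_eq ha
  obtain ⟨K2, hK2, hc2⟩ := Finset.exists_subset_card_eq hb
  have hdis : Disjoint K1 K2 := by
    rw [Finset.disjoint_left]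
    intro k hk1 hk2
    have h3 := (Finset.mem_filter.1 (hK1 hk1)).2
    have h4 := (Finset.mem_filter.1 (hK2 hk2)).2
    (clear * - a b a' b' K1 K2 h3 h4; omega)
  have him : (X.filter fun x => c x ∈ K1 ∪ K2).image c = K1 ∪ K2 := by
    ext k
    rw [Finset.mem_image]
    constructor
    · rintro ⟨x, hx, rfl⟩
      exact (Finset.mem_filter.1 hx).2
    · intro hk
      have hkX : k ∈ X.image c := by
        rcases Finset.mem_union.1 hk with hk | hk
        · exact (Finset.mem_filter.1 (hK1 hk)).1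
        · exact (Finset.mem_filter.1 (hK2 hk)).1
      obtain ⟨x, hx, rfl⟩ := Finset.mem_image.1 hkX
      exact ⟨x, Finset.mem_filter.2 ⟨hx, hk⟩, rfl⟩
  refine ⟨X.filter fun x => c x ∈ K1 ∪ K2, Finset.filter_subset _ _, ?_, ?_⟩
  · rw [Finset.card_eq_sum_card_image c, him, Finset.sum_union hdis]
    have hf : ∀ k ∈ K1 ∪ K2, ((X.filter fun x => c x ∈ K1 ∪ K2).filter fun x => c x = k) =
        X.filter fun x => c x = k := by
      intro k hk
      ext x
      simp only [Finset.mem_filter]
      constructor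
      · rintro ⟨⟨h1, -⟩, h2⟩
        exact ⟨h1, h2⟩
      · rintro ⟨h1, h2⟩
        exact ⟨⟨h1, h2 ▸ hk⟩, h2⟩
    have hs1 : ∑ k ∈ K1, ((X.filter fun x => c x ∈ K1 ∪ K2).filter fun x => c x = k).card =
        ∑ k ∈ K1, 1 := by
      refine Finset.sum_congr rfl fun k hk => ?_
      rw [hf k (Finset.mem_union_left _ hk)]
      exact (Finset.mem_filter.1 (hK1 hk)).2
    have hs2 : ∑ k ∈ K2, ((X.filter fun x => c x ∈ K1 ∪ K2).filter fun x => c x = k).card =
        ∑ k ∈ K2, 2 := by
      refine Finset.sum_congr rfl fun k hk => ?_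
      rw [hf k (Finset.mem_union_right _ hk)]
      exact (Finset.mem_filter.1 (hK2 hk)).2
    rw [hs1, hs2, Finset.sum_const, Finset.sum_const, hc1, hc2]
    simp only [smul_eq_mul]
    ring
  · have h3 : ((X.filter fun x => c x ∈ K1 ∪ K2).image c).card = a' + b' := by
      rw [him, Finset.card_union_of_disjoint hdis, hc1, hc2]
    rw [← h3]
    exact nc_image _ _

theorem merge (hB : Bad C h v c E e0) {S : Finset ι} (hS : S ⊆ E) {a b : ℕ}
    (hcnt : Cnt c S a b) (ha : 2 ≤ a) : ∃ c' : ι → ℕ,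
      (∀ e ∈ S, ∀ e' ∈ S, c e = c e' → c' e = c' e') ∧
      (∀ e ∈ S, ∀ e' ∈ S, ∀ e'' ∈ S, c' e = c' e' → c' e = c' e'' →
        e = e' ∨ e = e'' ∨ e' = e'') ∧ Cnt c' S (a - 2) (b + 1) := by
  classical
  obtain ⟨h1, h2⟩ := sub_split hB hS hcnt
  have h3 : 1 < ((S.image c).filter fun k => (S.filter fun x => c x = k).card = 1).card := by
    omega
  obtain ⟨k1, k2, hk1, hk2, hne⟩ := Finset.one_lt_card_iff.1 h3
  obtain ⟨hk1m, hk1c⟩ := Finset.mem_filter.1 hk1
  obtain ⟨hk2m, hk2c⟩ := Finset.mem_filter.1 hk2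
  obtain ⟨e1, he1⟩ := Finset.card_eq_one.1 hk1c
  obtain ⟨e2, he2⟩ := Finset.card_eq_one.1 hk2c
  let K := S.image c
  let r : κ → κ := fun k => if k = k2 then k1 else k
  let g : κ → ℕ := fun k => if hk : k ∈ K then (K.equivFin ⟨k, hk⟩ : ℕ) else 0
  have hg : ∀ k ∈ K, ∀ k' ∈ K, g k = g k' → k = k' := by
    intro k hk k' hk' hkk
    simp only [g, dif_pos hk, dif_pos hk'] at hkk
    have := K.equivFin.injective (Fin.ext hkk)
    exact congrArg Subtype.val this
  have hrK : ∀ k ∈ K, r k ∈ K := by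
    intro k hk
    simp only [r]
    split_ifs
    · exact hk1m
    · exact hk
  have hcK : ∀ e ∈ S, c e ∈ K := fun e he => Finset.mem_image_of_mem c he
  have hiff : ∀ e ∈ S, ∀ e' ∈ S, g (r (c e)) = g (r (c e')) → r (c e) = r (c e') :=
    fun e he e' he' h => hg _ (hrK _ (hcK e he)) _ (hrK _ (hcK e' he')) h
  have hone : ∀ e ∈ S, r (c e) = k1 → e = e1 ∨ e = e2 := by
    intro e he hr
    simp only [r] at hr
    split_ifs at hr with hk
    · right
      have : e ∈ S.filter fun x => c x = k2 := Finset.mem_filter.2 ⟨he, hk⟩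
      rw [he2, Finset.mem_singleton] at this
      exact this
    · left
      have : e ∈ S.filter fun x => c x = k1 := Finset.mem_filter.2 ⟨he, hr⟩
      rw [he1, Finset.mem_singleton] at this
      exact this
  refine ⟨fun e => g (r (c e)), fun e _ e' _ hc => by simp only [hc], ?_, ?_, ?_⟩
  · intro e he e' he' e'' he'' hc hc'
    have hc1 := hiff e he e' he' hc
    have hc2 := hiff e he e'' he'' hc'
    by_cases hk : r (c e) = k1
    · have h4 := hone e he hk
      have h5 := hone e' he' (hc1 ▸ hk)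
      have h6 := hone e'' he'' (hc2 ▸ hk)
      rcases h4 with rfl | rfl <;> rcases h5 with rfl | rfl <;> rcases h6 with rfl | rfl <;>
        simp
    · have hce : ∀ x ∈ S, r (c e) = r (c x) → c e = c x := by
        intro x hx hxr
        simp only [r] at hk hxr
        by_cases ha1 : c e = k2
        · rw [if_pos ha1] at hk
          exact absurd rfl hk
        · rw [if_neg ha1] at hk hxr
          by_cases ha2 : c x = k2
          · rw [if_pos ha2] at hxr
            exact absurd hxr hk
          · rw [if_neg ha2] at hxr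
            exact hxr
      exact hB.sys.two e (hS he) e' (hS he') e'' (hS he'') (hce e' he' hc1) (hce e'' he'' hc2)
  · have := hcnt.1
    omega
  · have h4 : nc (fun e => g (r (c e))) S = (K.erase k2).card := by
      have h5 : S.image (fun e => g (r (c e))) = (K.erase k2).image g := by
        ext n
        rw [Finset.mem_image, Finset.mem_image]
        constructor
        · rintro ⟨e, he, rfl⟩
          refine ⟨r (c e), Finset.mem_erase.2 ⟨?_, hrK _ (hcK e he)⟩, rfl⟩
          simp only [r]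
          split_ifs with hk
          · exact hne
          · exact hk
        · rintro ⟨k, hk, rfl⟩
          obtain ⟨hk1', hk2'⟩ := Finset.mem_erase.1 hk
          obtain ⟨e, he, rfl⟩ := Finset.mem_image.1 hk2'
          refine ⟨e, he, ?_⟩
          simp only [r, if_neg hk1']
      rw [nc_image]
      have h6 : ((K.erase k2).image g).card = (K.erase k2).card :=
        Finset.card_image_of_injOn fun k hk k' hk' hkk =>
          hg k (Finset.mem_of_mem_erase hk) k' (Finset.mem_of_mem_erase hk') hkk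
      rw [← h6, ← h5]
    rw [h4, Finset.card_erase_of_mem hk2m]
    have h5 := hcnt.2
    have h6 : (S.image c).card = nc c S := (nc_image c S).symm
    (clear * - ha h1 h2 k1 k2 h5 h6; omega)

theorem sub_pairs (hC : Cls C) (hB : Bad C h v c E e0) {F : Finset ι} (hF : F ⊆ E) {a b : ℕ}
    (hcnt : Cnt c F a b) (h2 : rk v F + 2 ≤ 2 * h) : b ≤ rk v F := by
  by_contra hlt
  obtain ⟨S, hS, hSc⟩ := select hB hF hcnt (Nat.zero_le a) (show rk v F + 1 ≤ b by omega)
  have h3 := rk_mono v hS
  have h4 := hSc.2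
  have h5 := recolour hC hB (hS.trans hF) c (fun _ _ _ _ h => h)
    (fun e he e' he' e'' he'' => hB.sys.two e (hF (hS he)) e' (hF (hS he')) e'' (hF (hS he'')))
    (by (clear * - h b h3 h4; omega)) (by omega)
  rw [hSc.1, hSc.2, bd_eq_bb] at h5
  unfold bb at h5
  rw [if_pos rfl] at h5
  omega

theorem sub_ineq (hC : Cls C) (hB : Bad C h v c E e0) {F : Finset ι} (hF : F ⊆ E)
    (h1 : rk v F + 1 ≤ nc c F) (h2 : rk v F + 2 ≤ 2 * h) :
    h + (F.card - nc c F + 1) / 2 ≤ rk v F := by
  obtain ⟨a, b, hcnt⟩ := cnt_exists hB hF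
  have hb := sub_pairs hC hB hF hcnt h2
  obtain ⟨hc1, hc2⟩ := hcnt
  obtain ⟨S, hS, hSc⟩ := select hB hF ⟨hc1, hc2⟩ (show rk v F + 1 - b ≤ a by omega) le_rfl
  have h3 := rk_mono v hS
  have h4 := hSc.2
  have h5 := recolour hC hB (hS.trans hF) c (fun _ _ _ _ h => h)
    (fun e he e' he' e'' he'' => hB.sys.two e (hF (hS he)) e' (hF (hS he')) e'' (hF (hS he'')))
    (by omega) (by omega)
  rw [hSc.1, hSc.2, bd_eq_bb] at h5
  unfold bb at h5
  rw [if_neg (by omega)] at h5
  omega

theorem sub_merge (hC : Cls C) (hB : Bad C h v c E e0) {F : Finset ι} (hF : F ⊆ E)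
    (h1 : rk v F + 2 ≤ nc c F) (h2 : rk v F + 2 ≤ 2 * h) :
    h + 1 + (F.card - nc c F) / 2 ≤ rk v F := by
  obtain ⟨a, b, hcnt⟩ := cnt_exists hB hF
  have hb := sub_pairs hC hB hF hcnt h2
  obtain ⟨hc1, hc2⟩ := hcnt
  obtain ⟨S, hS, hSc⟩ := select hB hF ⟨hc1, hc2⟩ (show rk v F + 2 - b ≤ a by omega) le_rfl
  obtain ⟨c', hm1, hm2, hm3⟩ := merge hB (hS.trans hF) hSc (by omega)
  have h3 := rk_mono v hS
  have h4 := hm3.2
  have h5 := recolour hC hB (hS.trans hF) c' hm1 hm2 (by omega) (by omega)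
  rw [hm3.1, hm3.2, bd_eq_bb] at h5
  unfold bb at h5
  split_ifs at h5 <;> omega

end RC

end

section

/-!
RCS-4 (cocircuits of a bad system).  `D ⊆ E`, `rk (E \ D) + 2 ≤ 2 * h` (so `D` is not empty).  Put
`F = E \ D`, `|F| = 4 h - 1 - |D|`.

coc_notin (`e0 ∉ D`): suppose `|D| ≤ 3`.  If `D` contains no full colour class then `nc F = 2 h` and
`sub_merge` gives `h + 1 + (2 h - 1 - |D|) / 2 ≤ rk F ≤ 2 h - 2`, false.  Otherwise it contains exactly one,
`nc F = 2 h - 1` and `sub_ineq` gives `h + (2 h - |D| + 1) / 2 ≤ rk F`, false.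

coc_in (`e0 ∈ D`): if `|D| ≤ 3` and `D \ {e0}` is not a colour class then `nc F = 2 h - 1` and `sub_ineq`
gives `h + (2 h - |D| + 1) / 2 ≤ rk F ≤ 2 h - 2`, false.
-/

namespace RC

open Submodule Module

variable {C : ClsT} {ι κ V : Type} [DecidableEq ι] [AddCommGroup V] [Module ℚ V] {h : ℕ}
  {v : ι → V} {c : ι → κ} {E : Finset ι} {e0 : ι}

theorem h47_nc_le_insert (c : ι → κ) (E F : Finset ι) (k : κ)
    (h : ∀ e ∈ E, c e = k ∨ ∃ f ∈ F, c f = c e) : nc c E ≤ nc c F + 1 := by
  classical
  unfold nc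
  refine le_trans (Finset.card_le_card (t := insert k (F.image c)) ?_) (Finset.card_insert_le _ _)
  intro a ha
  obtain ⟨e, he, rfl⟩ := Finset.mem_image.mp ha
  rcases h e he with h1 | ⟨f, hf, h2⟩
  · rw [h1]; exact Finset.mem_insert_self _ _
  · exact Finset.mem_insert_of_mem (Finset.mem_image.mpr ⟨f, hf, h2⟩)

theorem h47_nc_le (c : ι → κ) (E F : Finset ι)
    (h : ∀ e ∈ E, ∃ f ∈ F, c f = c e) : nc c E ≤ nc c F := by
  classical
  unfold nc
  refine Finset.card_le_card ?_
  intro a ha
  obtain ⟨e, he, rfl⟩ := Finset.mem_image.mp ha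
  obtain ⟨f, hf, h2⟩ := h e he
  exact Finset.mem_image.mpr ⟨f, hf, h2⟩

theorem h47_nc_lt (c : ι → κ) (E F : Finset ι) (x : ι) (hx : x ∈ E) (hF : F ⊆ E)
    (h : ∀ f ∈ F, c f ≠ c x) : nc c F + 1 ≤ nc c E := by
  classical
  unfold nc
  refine Finset.card_lt_card ?_
  rw [Finset.ssubset_iff_of_subset (Finset.image_subset_image hF)]
  refine ⟨c x, Finset.mem_image_of_mem c hx, ?_⟩
  intro hm
  obtain ⟨f, hf, h2⟩ := Finset.mem_image.mp hm
  exact h f hf h2

theorem coc_notin (hC : Cls C) (hB : Bad C h v c E e0) {D : Finset ι} (hD : D ⊆ E)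
    (he : e0 ∉ D) (hr : rk v (E \ D) + 2 ≤ 2 * h) : 4 ≤ D.card := by
  by_contra hcon
  have hh := hB.two_le
  have hFc : (E \ D).card + D.card = E.card := Finset.card_sdiff_add_card_eq_card hD
  have hE := hB.card
  have hn := hB.nc_eq
  have hsub : E \ D ⊆ E := Finset.sdiff_subset
  by_cases hp : ∃ x ∈ D, ∃ y ∈ D, x ≠ y ∧ c x = c y
  · obtain ⟨x, hx, y, hy, hxy, hc⟩ := hp
    have hlow : nc c E ≤ nc c (E \ D) + 1 := by
      refine h47_nc_le_insert c E (E \ D) (c x) ?_
      intro e heE
      by_cases hce : c e = c x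
      · exact Or.inl hce
      · right
        by_cases heD : e ∈ D
        · have hne0 : e ≠ e0 := fun h => he (h ▸ heD)
          obtain ⟨e', he', hne', hc'⟩ := hB.partner e heE hne0
          refine ⟨e', Finset.mem_sdiff.mpr ⟨he', ?_⟩, hc'⟩
          intro heD'
          have h4 : ({x, y, e, e'} : Finset ι) ⊆ D := by
            intro z hz
            simp only [Finset.mem_insert, Finset.mem_singleton] at hz
            rcases hz with rfl | rfl | rfl | rfl <;> assumption
          have hcard : ({x, y, e, e'} : Finset ι).card = 4 := by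
            rw [Finset.card_insert_of_notMem, Finset.card_insert_of_notMem,
              Finset.card_insert_of_notMem, Finset.card_singleton]
            · simpa using hne'.symm
            · simp only [Finset.mem_insert, Finset.mem_singleton, not_or]
              exact ⟨fun h => hce (by rw [← h, hc]), fun h => hce (by rw [← hc', ← h, hc])⟩
            · simp only [Finset.mem_insert, Finset.mem_singleton, not_or]
              exact ⟨hxy, fun h => hce (by rw [← h]), fun h => hce (by rw [← hc', ← h])⟩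
          have := Finset.card_le_card h4
          omega
        · exact ⟨e, Finset.mem_sdiff.mpr ⟨heE, heD⟩, rfl⟩
    have hup : nc c (E \ D) + 1 ≤ nc c E := by
      refine h47_nc_lt c E (E \ D) x (hD hx) hsub ?_
      intro f hf hcf
      rw [Finset.mem_sdiff] at hf
      rcases hB.sys.two x (hD hx) y (hD hy) f hf.1 hc hcf.symm with h | h | h
      · exact hxy h
      · exact hf.2 (h ▸ hx)
      · exact hf.2 (h ▸ hy)
    have h1 : rk v (E \ D) + 1 ≤ nc c (E \ D) := by omega
    have h2 := sub_ineq hC hB hsub h1 hr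
    omega
  · have hlow : nc c E ≤ nc c (E \ D) := by
      refine h47_nc_le c E (E \ D) ?_
      intro e heE
      by_cases heD : e ∈ D
      · have hne0 : e ≠ e0 := fun h => he (h ▸ heD)
        obtain ⟨e', he', hne', hc'⟩ := hB.partner e heE hne0
        refine ⟨e', Finset.mem_sdiff.mpr ⟨he', ?_⟩, hc'⟩
        intro heD'
        exact hp ⟨e, heD, e', heD', hne'.symm, hc'.symm⟩
      · exact ⟨e, Finset.mem_sdiff.mpr ⟨heE, heD⟩, rfl⟩
    have hup : nc c (E \ D) ≤ nc c E := h47_nc_le c (E \ D) E (fun e he => ⟨e, hsub he, rfl⟩)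
    have h1 : rk v (E \ D) + 2 ≤ nc c (E \ D) := by omega
    have h2 := sub_merge hC hB hsub h1 hr
    (clear * - hr hcon hFc hE hn hlow hup h1 h2; omega)

theorem coc_in (hC : Cls C) (hB : Bad C h v c E e0) {D : Finset ι} (hD : D ⊆ E)
    (he : e0 ∈ D) (hr : rk v (E \ D) + 2 ≤ 2 * h) :
    3 ≤ D.card ∧ (D.card = 3 → ∃ x ∈ D, ∃ y ∈ D, x ≠ y ∧ x ≠ e0 ∧ y ≠ e0 ∧ c x = c y ∧
      ∀ d ∈ D, d = e0 ∨ d = x ∨ d = y) := by
  by_cases h4 : 4 ≤ D.card
  · exact ⟨by omega, fun h3 => by omega⟩
  have hh := hB.two_le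
  have hFc : (E \ D).card + D.card = E.card := Finset.card_sdiff_add_card_eq_card hD
  have hE := hB.card
  have hn := hB.nc_eq
  have hsub : E \ D ⊆ E := Finset.sdiff_subset
  have key : ∃ x ∈ D, ∃ y ∈ D, x ≠ y ∧ x ≠ e0 ∧ y ≠ e0 ∧ c x = c y := by
    by_contra hp
    have hlow : nc c E ≤ nc c (E \ D) + 1 := by
      refine h47_nc_le_insert c E (E \ D) (c e0) ?_
      intro e heE
      by_cases hce : e = e0
      · exact Or.inl (by rw [hce])
      · right
        by_cases heD : e ∈ D
        · obtain ⟨e', he', hne', hc'⟩ := hB.partner e heE hce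
          refine ⟨e', Finset.mem_sdiff.mpr ⟨he', ?_⟩, hc'⟩
          intro heD'
          refine hp ⟨e, heD, e', heD', hne'.symm, hce, ?_, hc'.symm⟩
          intro h
          apply hce
          apply hB.single e heE
          rw [← hc', h]
        · exact ⟨e, Finset.mem_sdiff.mpr ⟨heE, heD⟩, rfl⟩
    have hup : nc c (E \ D) + 1 ≤ nc c E := by
      refine h47_nc_lt c E (E \ D) e0 hB.mem0 hsub ?_
      intro f hf hcf
      rw [Finset.mem_sdiff] at hf
      have := hB.single f hf.1 hcf
      exact hf.2 (this ▸ he)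
    have h1 : rk v (E \ D) + 1 ≤ nc c (E \ D) := by omega
    have h2 := sub_ineq hC hB hsub h1 hr
    omega
  obtain ⟨x, hx, y, hy, hxy, hx0, hy0, hc⟩ := key
  have h3s : ({e0, x, y} : Finset ι) ⊆ D := by
    intro z hz
    simp only [Finset.mem_insert, Finset.mem_singleton] at hz
    rcases hz with rfl | rfl | rfl <;> assumption
  have hcard : ({e0, x, y} : Finset ι).card = 3 := by
    rw [Finset.card_insert_of_notMem, Finset.card_insert_of_notMem, Finset.card_singleton]
    · simpa using hxy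
    · simp only [Finset.mem_insert, Finset.mem_singleton, not_or]
      exact ⟨hx0.symm, hy0.symm⟩
  have hle := Finset.card_le_card h3s
  refine ⟨by (clear * - v c h4 hFc hE hcard hle; omega), fun h3 => ⟨x, hx, y, hy, hxy, hx0, hy0, hc, ?_⟩⟩
  have heq : ({e0, x, y} : Finset ι) = D := Finset.eq_of_subset_of_card_le h3s (by (clear * - v c hFc hE hcard h3; omega))
  intro d hd
  rw [← heq] at hd
  simpa using hd

end RC

end

section

/-!
Numerical part of the separation step.
-/

namespace RC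

/-- Separations with intersection of dimension 0. -/
theorem num1 {h bA bB s rA rB : ℕ} (hbb : bA + bB + s + 1 = 2 * h) (hr : rA + rB + 1 = 2 * h)
    (h1 : 1 ≤ rA) (h2 : 1 ≤ rB)
    (a1 : rA + 1 ≤ s + bA → h + (bA + 1) / 2 ≤ rA)
    (a2 : rA + 2 ≤ s + bA → h + 1 + bA / 2 ≤ rA)
    (b1 : rB + 1 ≤ s + 1 + bB → h + (bB + 1) / 2 ≤ rB)
    (b2 : rB + 2 ≤ s + 1 + bB → h + 1 + bB / 2 ≤ rB) : False := by
  omega

/-- Separations with intersection of dimension 1. -/
theorem num2 {h bA bB s rA rB : ℕ} (hbb : bA + bB + s + 1 = 2 * h) (hr : rA + rB = 2 * h)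
    (h1 : 2 ≤ rA) (h2 : 2 ≤ rB)
    (a1 : rA + 1 ≤ s + bA → h + (bA + 1) / 2 ≤ rA)
    (a2 : rA + 2 ≤ s + bA → h + 1 + bA / 2 ≤ rA)
    (b1 : rB + 1 ≤ s + 1 + bB → h + (bB + 1) / 2 ≤ rB)
    (b2 : rB + 2 ≤ s + 1 + bB → h + 1 + bB / 2 ≤ rB) :
    s = 0 ∧ rA = bA ∧ rB = bB + 1 := by
  omega

/-- Separations with intersection of dimension 2. -/
theorem num3 {h bA bB s rA rB : ℕ} (hbb : bA + bB + s + 1 = 2 * h) (hr : rA + rB = 2 * h + 1)
    (h1 : 3 ≤ rA) (h2 : 3 ≤ rB) (cA : 4 ≤ s + 2 * bA) (cB : 4 ≤ s + 1 + 2 * bB)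
    (a1 : rA + 1 ≤ s + bA → h + (bA + 1) / 2 ≤ rA)
    (a2 : rA + 2 ≤ s + bA → h + 1 + bA / 2 ≤ rA)
    (b1 : rB + 1 ≤ s + 1 + bB → h + (bB + 1) / 2 ≤ rB)
    (b2 : rB + 2 ≤ s + 1 + bB → h + 1 + bB / 2 ≤ rB) :
    (s = 0 ∧ rA = bA ∧ rB = bB + 2) ∨ (s = 0 ∧ rA = bA + 1 ∧ rB = bB + 1) ∨
      (s = 1 ∧ rA = bA + 1 ∧ rB = bB + 2) ∨ (s + 2 * bA = 4 ∧ rA = 3) ∨
      (s + 1 + 2 * bB = 4 ∧ rB = 3 ∧ bB = 0) := by
  by_cases c1 : rA + 2 ≤ s + bA
  · have a2' := a2 c1
    have a1' := a1 (by omega)
    clear a1 a2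
    by_cases c2 : rB + 2 ≤ s + 1 + bB
    · have b2' := b2 c2
      clear b1 b2
      omega
    · by_cases c3 : rB + 1 ≤ s + 1 + bB
      · have b1' := b1 c3
        clear b1 b2
        (clear * - hbb hr cB c1 a2' c2 c3; omega)
      · clear b1 b2
        omega
  · by_cases c4 : rA + 1 ≤ s + bA
    · have a1' := a1 c4
      clear a1 a2
      by_cases c2 : rB + 2 ≤ s + 1 + bB
      · have b2' := b2 c2
        clear b1 b2
        omega
      · by_cases c3 : rB + 1 ≤ s + 1 + bB
        · have b1' := b1 c3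
          clear b1 b2
          omega
        · clear b1 b2
          omega
    · clear a1 a2
      by_cases c2 : rB + 2 ≤ s + 1 + bB
      · have b2' := b2 c2
        clear b1 b2
        omega
      · by_cases c3 : rB + 1 ≤ s + 1 + bB
        · have b1' := b1 c3
          clear b1 b2
          (clear * - hbb hr h1 h2 cA cB c4 c2 c3 b1'; omega)
        · clear b1 b2
          omega

end RC

end

section

/-!
RCS-5 (counting for a partition `A, B` of the bad system).

counts: `s` is the number of the colours which have an element in `A` and an element in `B`, `bA` and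
`bB` the numbers of colour classes of size two inside `A`, inside `B`.  All classes except `{e0}`
have exactly two elements (`hB.two`, `hB.partner`).  So `|A| = 2 bA + s`, `nc A = bA + s`,
`|B| = 2 bB + s + 1`, `nc B = bB + s + 1`.  The number of colours is `2 h = bA + bB + s + 1`.

Possible proof: `nc c E = nc c A + nc c B - s` with `s` the number of colours in
`A.image c ∩ B.image c`; `|E| = ∑` over the colours of the size of the class; for a colour in the
intersection the class has exactly one element in `A` and one in `B`; for a colour only in `A` the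
class is contained in `A` and has two elements.

The last three parts: if `s = 0` no colour is common.  If `s = 1` there is exactly one common
colour, its elements are `a1 ∈ A`, `b1 ∈ B`; the sets `A \ {a1}`, `B \ {b1}` have one colour and one
element less (`b1 ≠ e0` as the class of `e0` is `{e0}`).  If `bB = 0` two different elements of `B`
never have the same colour.

rank_sum: `Submodule.finrank_sup_add_finrank_inf_eq`.
-/

namespace RC

open Submodule Module

variable {C : ClsT} {ι κ V : Type} [DecidableEq ι] [AddCommGroup V] [Module ℚ V] {h : ℕ}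
  {v : ι → V} {c : ι → κ} {E : Finset ι} {e0 : ι}

omit [DecidableEq ι] in
private theorem nc_eq_card [DecidableEq κ] (S : Finset ι) : nc c S = (S.image c).card :=
  nc_image c S

private theorem cnt_pairs (S : Finset ι)
    (hp : ∀ a ∈ S, ∃ a' ∈ S, a' ≠ a ∧ c a' = c a)
    (h2 : ∀ a ∈ S, ∀ a' ∈ S, ∀ a'' ∈ S, c a = c a' → c a = c a'' → a = a' ∨ a = a'' ∨ a' = a'') :
    S.card = 2 * nc c S := by
  classical
  have h1 := Finset.card_eq_sum_card_image c S
  have h3 : ∀ k ∈ S.image c, (S.filter (fun a => c a = k)).card = 2 := by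
    intro k hk
    obtain ⟨a, ha, rfl⟩ := Finset.mem_image.1 hk
    obtain ⟨a', ha', hne, hc⟩ := hp a ha
    have : S.filter (fun x => c x = c a) = {a, a'} := by
      ext x
      simp only [Finset.mem_filter, Finset.mem_insert, Finset.mem_singleton]
      constructor
      · rintro ⟨hx, hxc⟩
        rcases h2 a ha a' ha' x hx hc.symm hxc.symm with h | h | h
        · exact absurd h.symm hne
        · exact Or.inl h.symm
        · exact Or.inr h.symm
      · rintro (rfl | rfl)
        · exact ⟨ha, rfl⟩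
        · exact ⟨ha', hc⟩
    rw [this, Finset.card_pair (Ne.symm hne)]
  rw [Finset.sum_congr rfl h3, Finset.sum_const, smul_eq_mul] at h1
  rw [nc_eq_card, h1, mul_comm]

private theorem nc_union_disj (S T : Finset ι) (hd : ∀ a ∈ S, ∀ b ∈ T, c a ≠ c b) :
    nc c (S ∪ T) = nc c S + nc c T := by
  classical
  rw [nc_eq_card, nc_eq_card, nc_eq_card, Finset.image_union]
  apply Finset.card_union_of_disjoint
  rw [Finset.disjoint_left]
  intro k hk hk'
  obtain ⟨a, ha, rfl⟩ := Finset.mem_image.1 hk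
  obtain ⟨b, hb, hbc⟩ := Finset.mem_image.1 hk'
  exact hd a ha b hb hbc.symm

omit [DecidableEq ι] in
private theorem nc_inj (S : Finset ι) (hi : Set.InjOn c (S : Set ι)) : nc c S = S.card := by
  classical
  rw [nc_eq_card]
  exact Finset.card_image_of_injOn hi

theorem counts (hB : Bad C h v c E e0) {A B : Finset ι} (hU : A ∪ B = E) (hd : Disjoint A B)
    (he : e0 ∈ B) : ∃ bA bB s : ℕ, Cnt c A s bA ∧ Cnt c B (s + 1) bB ∧ bA + bB + s + 1 = 2 * h ∧
      (s = 0 → ∀ a ∈ A, ∀ b ∈ B, c a ≠ c b) ∧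
      (s = 1 → ∃ a1 ∈ A, ∃ b1 ∈ B, c a1 = c b1 ∧ (∀ a ∈ A, ∀ b ∈ B, c a = c b → a = a1 ∧ b = b1) ∧
        Cnt c (A.erase a1) 0 bA ∧ Cnt c (B.erase b1) 1 bB) ∧
      (bB = 0 → ∀ b ∈ B, ∀ b' ∈ B, c b = c b' → b = b') := by
  classical
  have hAE : ∀ a ∈ A, a ∈ E := fun a ha => hU ▸ Finset.mem_union_left _ ha
  have hBE : ∀ b ∈ B, b ∈ E := fun b hb => hU ▸ Finset.mem_union_right _ hb
  have hAB : ∀ a ∈ A, ∀ b ∈ B, a ≠ b := fun a ha b hb => Finset.disjoint_iff_ne.1 hd a ha b hb
  set A1 := A.filter (fun a => ∃ b ∈ B, c a = c b) with hA1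
  set A2 := A.filter (fun a => ¬ ∃ b ∈ B, c a = c b) with hA2
  set B1 := B.filter (fun b => ∃ a ∈ A, c a = c b) with hB1
  set B2 := B.filter (fun b => ¬ (∃ a ∈ A, c a = c b) ∧ b ≠ e0) with hB2
  have he0A : ∀ a ∈ A, c a ≠ c e0 := fun a ha hc =>
    hAB a ha e0 he (hB.single a (hAE a ha) hc)
  have mA1 : ∀ a, a ∈ A1 ↔ a ∈ A ∧ ∃ b ∈ B, c a = c b := fun a => Finset.mem_filter
  have mA2 : ∀ a, a ∈ A2 ↔ a ∈ A ∧ ¬ ∃ b ∈ B, c a = c b := fun a => Finset.mem_filter
  have mB1 : ∀ b, b ∈ B1 ↔ b ∈ B ∧ ∃ a ∈ A, c a = c b := fun b => Finset.mem_filter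
  have mB2 : ∀ b, b ∈ B2 ↔ b ∈ B ∧ ¬ (∃ a ∈ A, c a = c b) ∧ b ≠ e0 := fun b => Finset.mem_filter
  have iA1 : Set.InjOn c (A1 : Set ι) := by
    intro a ha a' ha' hc
    rw [Finset.mem_coe, mA1] at ha ha'
    obtain ⟨haA, b, hb, hcb⟩ := ha
    rcases hB.sys.two b (hBE b hb) a (hAE a haA) a' (hAE a' ha'.1) hcb.symm
      (hcb.symm.trans hc) with h | h | h
    · exact absurd h.symm (hAB a haA b hb)
    · exact absurd h.symm (hAB a' ha'.1 b hb)
    · exact h
  have iB1 : Set.InjOn c (B1 : Set ι) := by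
    intro b hb b' hb' hc
    rw [Finset.mem_coe, mB1] at hb hb'
    obtain ⟨hbB, a, ha, hca⟩ := hb
    rcases hB.sys.two a (hAE a ha) b (hBE b hbB) b' (hBE b' hb'.1) hca
      (hca.trans hc) with h | h | h
    · exact absurd h (hAB a ha b hbB)
    · exact absurd h (hAB a ha b' hb'.1)
    · exact h
  have imAB : A1.image c = B1.image c := by
    ext k
    simp only [Finset.mem_image]
    constructor
    · rintro ⟨a, ha, rfl⟩
      obtain ⟨haA, b, hb, hcb⟩ := (mA1 a).1 ha
      exact ⟨b, (mB1 b).2 ⟨hb, a, haA, hcb⟩, hcb.symm⟩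
    · rintro ⟨b, hb, rfl⟩
      obtain ⟨hbB, a, ha, hca⟩ := (mB1 b).1 hb
      exact ⟨a, (mA1 a).2 ⟨ha, b, hbB, hca⟩, hca⟩
  have nA1 : nc c A1 = A1.card := nc_inj A1 iA1
  have nB1 : nc c B1 = B1.card := nc_inj B1 iB1
  have eAB : B1.card = A1.card := by
    rw [← nA1, ← nB1, nc_eq_card, nc_eq_card, imAB]
  have pA2 : A2.card = 2 * nc c A2 := by
    apply cnt_pairs
    · intro a ha
      obtain ⟨haA, hn⟩ := (mA2 a).1 ha
      obtain ⟨a', ha', hne, hc⟩ := hB.partner a (hAE a haA) (fun h => hAB a haA e0 he h)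
      refine ⟨a', (mA2 a').2 ⟨?_, ?_⟩, hne, hc⟩
      · rcases Finset.mem_union.1 (hU.symm ▸ ha' : a' ∈ A ∪ B) with h | h
        · exact h
        · exact absurd ⟨a', h, hc.symm⟩ hn
      · rintro ⟨b, hb, hcb⟩
        exact hn ⟨b, hb, hc.symm.trans hcb⟩
    · intro a ha a' ha' a'' ha'' h1 h2
      exact hB.sys.two a (hAE a ((mA2 a).1 ha).1) a' (hAE a' ((mA2 a').1 ha').1) a''
        (hAE a'' ((mA2 a'').1 ha'').1) h1 h2
  have pB2 : B2.card = 2 * nc c B2 := by
    apply cnt_pairs
    · intro b hb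
      obtain ⟨hbB, hn, hb0⟩ := (mB2 b).1 hb
      obtain ⟨b', hb', hne, hc⟩ := hB.partner b (hBE b hbB) hb0
      refine ⟨b', (mB2 b').2 ⟨?_, ?_, ?_⟩, hne, hc⟩
      · rcases Finset.mem_union.1 (hU.symm ▸ hb' : b' ∈ A ∪ B) with h | h
        · exact absurd ⟨b', h, hc⟩ hn
        · exact h
      · rintro ⟨a, ha, hca⟩
        exact hn ⟨a, ha, hca.trans hc⟩
      · rintro rfl
        exact hb0 (hB.single b (hBE b hbB) hc.symm)
    · intro a ha a' ha' a'' ha'' h1 h2
      exact hB.sys.two a (hBE a ((mB2 a).1 ha).1) a' (hBE a' ((mB2 a').1 ha').1) a''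
        (hBE a'' ((mB2 a'').1 ha'').1) h1 h2
  have uA : A = A1 ∪ A2 := by
    ext a
    rw [Finset.mem_union, mA1, mA2]
    constructor
    · intro ha
      by_cases h1 : ∃ b ∈ B, c a = c b
      · exact Or.inl ⟨ha, h1⟩
      · exact Or.inr ⟨ha, h1⟩
    · rintro (⟨ha, _⟩ | ⟨ha, _⟩) <;> exact ha
  have hdA : ∀ a ∈ A1, ∀ b ∈ A2, c a ≠ c b := by
    intro a ha b hb hc
    obtain ⟨_, x, hx, hcx⟩ := (mA1 a).1 ha
    exact ((mA2 b).1 hb).2 ⟨x, hx, hc.symm.trans hcx⟩
  have dA : Disjoint A1 A2 := by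
    rw [Finset.disjoint_left]
    intro a h1 h2
    exact hdA a h1 a h2 rfl
  have cA : A.card = A1.card + A2.card := by
    conv_lhs => rw [uA]
    exact Finset.card_union_of_disjoint dA
  have ncA : nc c A = A1.card + nc c A2 := by
    conv_lhs => rw [uA]
    rw [nc_union_disj _ _ hdA, nA1]
  -- the set `{e0} ∪ B2`
  have n0 : nc c ({e0} : Finset ι) = 1 := by
    rw [nc_inj _ (by simp)]
    simp
  have hd0 : ∀ a ∈ ({e0} : Finset ι), ∀ b ∈ B2, c a ≠ c b := by
    intro a ha b hb hc
    rw [Finset.mem_singleton] at ha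
    subst ha
    obtain ⟨hbB, hn, hb0⟩ := (mB2 b).1 hb
    exact hb0 (hB.single b (hBE b hbB) hc.symm)
  have n02 : nc c ({e0} ∪ B2) = 1 + nc c B2 := by
    rw [nc_union_disj _ _ hd0, n0]
  have c02 : ({e0} ∪ B2).card = 1 + B2.card := by
    rw [Finset.card_union_of_disjoint, Finset.card_singleton]
    rw [Finset.disjoint_left]
    intro a h1 h2
    exact hd0 a h1 a h2 rfl
  have uB : B = B1 ∪ ({e0} ∪ B2) := by
    ext b
    rw [Finset.mem_union, Finset.mem_union, mB1, mB2, Finset.mem_singleton]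
    constructor
    · intro hb
      by_cases h1 : ∃ a ∈ A, c a = c b
      · exact Or.inl ⟨hb, h1⟩
      · by_cases h2 : b = e0
        · exact Or.inr (Or.inl h2)
        · exact Or.inr (Or.inr ⟨hb, h1, h2⟩)
    · rintro (⟨hb, _⟩ | rfl | ⟨hb, _⟩)
      · exact hb
      · exact he
      · exact hb
  have hdB : ∀ a ∈ B1, ∀ b ∈ {e0} ∪ B2, c a ≠ c b := by
    intro b hb b' hb' hc
    obtain ⟨hbB, a, ha, hca⟩ := (mB1 b).1 hb
    rcases Finset.mem_union.1 hb' with h | h
    · rw [Finset.mem_singleton] at h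
      subst h
      exact he0A a ha (hca.trans hc)
    · exact ((mB2 b').1 h).2.1 ⟨a, ha, hca.trans hc⟩
  have dB : Disjoint B1 ({e0} ∪ B2) := by
    rw [Finset.disjoint_left]
    intro a h1 h2
    exact hdB a h1 a h2 rfl
  have cB : B.card = A1.card + (1 + B2.card) := by
    conv_lhs => rw [uB]
    rw [Finset.card_union_of_disjoint dB, c02, eAB]
  have ncB : nc c B = A1.card + (1 + nc c B2) := by
    conv_lhs => rw [uB]
    rw [nc_union_disj _ _ hdB, nB1, n02, eAB]
  have cE : E.card = A.card + B.card := by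
    rw [← hU]
    exact Finset.card_union_of_disjoint hd
  have hcard := hB.card
  refine ⟨nc c A2, nc c B2, A1.card, ⟨by omega, by omega⟩, ⟨by omega, by (clear * - h E eAB pA2 pB2 cA ncA n02 cB ncB; omega)⟩, by (clear * - eAB pA2 pB2 cA ncA n02 cB ncB cE hcard; omega),
    ?_, ?_, ?_⟩
  · intro hs a ha b hb hc
    have : a ∈ A1 := (mA1 a).2 ⟨ha, b, hb, hc⟩
    rw [Finset.card_eq_zero.1 hs] at this
    exact absurd this (Finset.notMem_empty a)
  · intro hs
    obtain ⟨a1, ha1⟩ := Finset.card_eq_one.1 hs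
    obtain ⟨b1, hb1⟩ := Finset.card_eq_one.1 (eAB.trans hs)
    have m1 : a1 ∈ A1 := ha1 ▸ Finset.mem_singleton_self a1
    have m2 : b1 ∈ B1 := hb1 ▸ Finset.mem_singleton_self b1
    have hu : ∀ a ∈ A, ∀ b ∈ B, c a = c b → a = a1 ∧ b = b1 := by
      intro a ha b hb hc
      have h1 : a ∈ A1 := (mA1 a).2 ⟨ha, b, hb, hc⟩
      have h2 : b ∈ B1 := (mB1 b).2 ⟨hb, a, ha, hc⟩
      rw [ha1, Finset.mem_singleton] at h1
      rw [hb1, Finset.mem_singleton] at h2
      exact ⟨h1, h2⟩
    refine ⟨a1, ((mA1 a1).1 m1).1, b1, ((mB1 b1).1 m2).1, ?_, hu, ?_, ?_⟩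
    · obtain ⟨haA, b, hb, hcb⟩ := (mA1 a1).1 m1
      rw [hcb, (hu a1 haA b hb hcb).2]
    · have e1 : A.erase a1 = A2 := by
        ext a
        rw [Finset.mem_erase]
        constructor
        · rintro ⟨hne, ha⟩
          refine (mA2 a).2 ⟨ha, ?_⟩
          rintro ⟨b, hb, hcb⟩
          exact hne (hu a ha b hb hcb).1
        · intro ha
          refine ⟨?_, ((mA2 a).1 ha).1⟩
          rintro rfl
          exact hdA a m1 a ha rfl
      rw [e1]
      exact ⟨by omega, by omega⟩
    · have e1 : B.erase b1 = {e0} ∪ B2 := by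
        ext b
        rw [Finset.mem_erase]
        constructor
        · rintro ⟨hne, hb⟩
          rw [uB, Finset.mem_union] at hb
          rcases hb with h | h
          · rw [hb1, Finset.mem_singleton] at h
            exact absurd h hne
          · exact h
        · intro hb
          refine ⟨?_, ?_⟩
          · rintro rfl
            exact hdB b m2 b hb rfl
          · rw [uB]
            exact Finset.mem_union_right _ hb
      rw [e1]
      exact ⟨by omega, by omega⟩
  · intro hs b hb b' hb' hc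
    have hB2e : B2 = ∅ := by
      rw [← Finset.card_eq_zero]
      omega
    rw [uB, hB2e, Finset.union_empty, Finset.mem_union, Finset.mem_singleton] at hb hb'
    have hE0 : ∀ x ∈ B1, c x ≠ c e0 := fun x hx =>
      hdB x hx e0 (Finset.mem_union_left _ (Finset.mem_singleton_self e0))
    rcases hb with h | h <;> rcases hb' with h' | h'
    · exact iB1 h h' hc
    · subst h'
      exact absurd hc (hE0 b h)
    · subst h
      exact absurd hc.symm (hE0 b' h')
    · rw [h, h']

theorem rank_sum (hB : Bad C h v c E e0) {A B : Finset ι} (hU : A ∪ B = E) :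
    rk v A + rk v B + 1 = 2 * h + finrank ℚ
      (span ℚ (v '' (A : Set ι)) ⊓ span ℚ (v '' (B : Set ι)) : Submodule ℚ V) := by
  have h1 := hB.rank
  have fA : FiniteDimensional ℚ (span ℚ (v '' (A : Set ι))) :=
    FiniteDimensional.span_of_finite ℚ ((Finset.finite_toSet A).image v)
  have fB : FiniteDimensional ℚ (span ℚ (v '' (B : Set ι))) :=
    FiniteDimensional.span_of_finite ℚ ((Finset.finite_toSet B).image v)
  have h2 := Submodule.finrank_sup_add_finrank_inf_eq (span ℚ (v '' (A : Set ι)))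
    (span ℚ (v '' (B : Set ι)))
  have h3 : span ℚ (v '' (E : Set ι)) =
      span ℚ (v '' (A : Set ι)) ⊔ span ℚ (v '' (B : Set ι)) := by
    rw [← hU, Finset.coe_union, Set.image_union, span_union]
  unfold rk at h1 ⊢
  rw [h3] at h1
  omega

end RC

end

section

/-!
RCS-1 (rank 2 and rank 3 lemmas).  A unimodular set of rank 2 has at most 3, of rank 3 at most 6
pairwise non-parallel vectors.

rank_two: four vectors `u1, u2, u3, u4`; `u1, u2` is a basis of the span; `u3 = e u1 + f u2` and
`u4 = e' u1 + f' u2` with `e, f, e', f'` equal to `1` or `-1` (unimodularity and not parallel);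
`u4` is not parallel to `u3`, so `u4 = e' u1 + f' u2` and `e f' + f e' = 0`; in the basis
`u1, u3` the first coordinate of `u4` is `e' - f' f e = 2 e'`: contradiction.

rank_three: if the rank is at most 2 use rank_two.  Otherwise choose three independent ones of
the seven vectors as a basis.  The other four have coordinates in `0, 1, -1`, at least two of them
nonzero.  By rank_two at most one has support `i, j` (for each pair of coordinates).  At most one
has full support: two of them, not parallel, differ (after changing the sign of one) in exactly one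
coordinate, so `w' = w - 2 b_i` (up to sign), and `w, b_i, b_j` is independent: contradiction to
unimodularity.  So there is one of each type; if the one with full support is `w = sum e_i b_i`, the
one of support `i, j` is `+-(e_i b_i + e_j b_j)` (otherwise `e_i b_i - e_j b_j = 2 e_i b_i + e_k b_k - w`
has a coordinate `2` in the basis `b_i, b_k, w`), and then `e_2 b_2 + e_3 b_3 = (e_1 b_1 + e_2 b_2) +
(e_1 b_1 + e_3 b_3) - 2 e_1 b_1`: contradiction.  (Any other proof is fine, for instance a reduction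
to `decide` on sign matrices.)
-/

namespace RC

open Submodule Module

variable {ι V : Type} [AddCommGroup V] [Module ℚ V]

private theorem h34_int {n : ℕ} (M : Matrix (Fin n) (Fin n) ℚ)
    (h : ∀ i j, M i j = 0 ∨ M i j = 1 ∨ M i j = -1) : ∃ z : ℤ, M.det = (z : ℚ) := by
  have h1 : ∀ i j, ∃ z : ℤ, (z : ℚ) = M i j := by
    intro i j
    rcases h i j with h | h | h
    · exact ⟨0, by rw [h]; norm_num⟩
    · exact ⟨1, by rw [h]; norm_num⟩
    · exact ⟨-1, by rw [h]; norm_num⟩
  choose A hA using h1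
  refine ⟨(Matrix.of A).det, ?_⟩
  have h2 : M = (Int.castRingHom ℚ).mapMatrix (Matrix.of A) := by
    ext i j
    exact (hA i j).symm
  rw [h2, ← RingHom.map_det]
  rfl

/-- Determinants of coordinate vectors of a unimodular set. -/
theorem h34_det {X : Set V} (hX : Uni X) {n : ℕ} (b : Fin n → V) (hb : ∀ i, b i ∈ X)
    (hbi : LinearIndependent ℚ b) (x : Fin n → V) (hx : ∀ i, x i ∈ X)
    (M : Matrix (Fin n) (Fin n) ℚ) (hM : ∀ j, x j = ∑ i, M j i • b i) :
    M.det = 0 ∨ M.det = 1 ∨ M.det = -1 := by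
  classical
  by_cases h0 : M.det = 0
  · exact Or.inl h0
  right
  have hunit : IsUnit M.det := isUnit_iff_ne_zero.2 h0
  have hinv : M⁻¹ * M = 1 := Matrix.nonsing_inv_mul M hunit
  have hinv' : M * M⁻¹ = 1 := Matrix.mul_nonsing_inv M hunit
  -- integrality of `M`
  have hM1 : ∀ j i, M j i = 0 ∨ M j i = 1 ∨ M j i = -1 := by
    intro j i
    have h1 := uni_coord hX b Finset.univ (fun i _ => hb i)
      (by rw [Finset.coe_univ]; exact linearIndepOn_univ.2 hbi) (M j)
      (by rw [← hM j]; exact hx j)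
    exact h1 i (Finset.mem_univ i)
  -- the `x` are independent
  have hxi : LinearIndependent ℚ x := by
    rw [Fintype.linearIndependent_iff]
    intro c hc
    have h1 : ∑ i, (∑ j, c j * M j i) • b i = 0 := by
      rw [← hc]
      simp only [hM, Finset.smul_sum, smul_smul, Finset.sum_smul]
      rw [Finset.sum_comm]
    have h2 := Fintype.linearIndependent_iff.1 hbi _ h1
    have h3 : Matrix.vecMul c M = 0 := by
      funext i
      exact h2 i
    have h4 : c = 0 := by
      have h5 := congrArg (fun w => Matrix.vecMul w M⁻¹) h3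
      simp only [Matrix.vecMul_vecMul, hinv', Matrix.vecMul_one, Matrix.zero_vecMul] at h5
      exact h5
    intro i
    rw [h4]
    rfl
  have hM2 : ∀ i j, M⁻¹ i j = 0 ∨ M⁻¹ i j = 1 ∨ M⁻¹ i j = -1 := by
    intro i j
    have h1 := uni_coord hX x Finset.univ (fun i _ => hx i)
      (by rw [Finset.coe_univ]; exact linearIndepOn_univ.2 hxi) (M⁻¹ i)
      (by
        have h2 : ∑ j, M⁻¹ i j • x j = b i := by
          simp only [hM, Finset.smul_sum, smul_smul]
          rw [Finset.sum_comm]
          have h3 : ∀ l, ∑ j, (M⁻¹ i j * M j l) • b l = (if i = l then (1 : ℚ) else 0) • b l := by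
            intro l
            rw [← Finset.sum_smul]
            congr 1
            have h4 := congrFun (congrFun hinv i) l
            rw [Matrix.mul_apply, Matrix.one_apply] at h4
            exact h4
          simp only [h3, ite_smul, one_smul, zero_smul, Finset.sum_ite_eq, Finset.mem_univ,
            if_true]
        rw [h2]
        exact hb i)
    exact h1 j (Finset.mem_univ j)
  obtain ⟨z, hz⟩ := h34_int M hM1
  obtain ⟨z', hz'⟩ := h34_int M⁻¹ hM2
  have h5 : M.det * (M⁻¹).det = 1 := by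
    rw [← Matrix.det_mul, hinv', Matrix.det_one]
  rw [hz, hz'] at h5
  have h6 : z * z' = 1 := by exact_mod_cast h5
  rcases Int.eq_one_or_neg_one_of_mul_eq_one h6 with h | h
  · left; rw [hz, h]; norm_num
  · right; rw [hz, h]; norm_num

private theorem h34_par {x y : V} (h : LinearIndependent ℚ ![x, y]) (t : ℚ) : y ≠ t • x := by
  intro he
  have h1 := LinearIndependent.pair_iff.1 h t (-1) (by rw [he]; module)
  have := h1.2
  norm_num at this

theorem rank_two {X : Set V} (hX : Uni X) (A : Finset ι) (v : ι → V) (hv : ∀ e ∈ A, v e ∈ X)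
    (hpar : ∀ e ∈ A, ∀ e' ∈ A, e ≠ e' → LinearIndependent ℚ ![v e, v e'])
    (hr : finrank ℚ (span ℚ (v '' (A : Set ι))) ≤ 2) : A.card ≤ 3 := by
  classical
  by_contra hA
  push Not at hA
  obtain ⟨B, hBA, hB⟩ := Finset.exists_subset_card_eq (show 4 ≤ A.card from hA)
  let e : Fin 4 ≃ B := (Finset.equivFinOfCardEq hB).symm
  have hne : ∀ i j : Fin 4, i ≠ j → ((e i : B) : ι) ≠ ((e j : B) : ι) := fun i j hij h =>
    hij (e.injective (Subtype.ext h))
  have hmA : ∀ i : Fin 4, ((e i : B) : ι) ∈ A := fun i => hBA (e i).2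
  let w : Fin 4 → V := fun i => v (e i)
  have hwX : ∀ i, w i ∈ X := fun i => hv _ (hmA i)
  have hwp : ∀ i j, i ≠ j → LinearIndependent ℚ ![w i, w j] := fun i j hij =>
    hpar _ (hmA i) _ (hmA j) (hne i j hij)
  have hfin : FiniteDimensional ℚ (span ℚ (v '' (A : Set ι))) :=
    FiniteDimensional.span_of_finite ℚ ((Finset.finite_toSet A).image v)
  have hwA : ∀ i, w i ∈ span ℚ (v '' (A : Set ι)) := fun i =>
    subset_span ⟨_, hmA i, rfl⟩
  have hb01 := hwp 0 1 (by decide)
  have hsp : span ℚ (Set.range ![w 0, w 1]) = span ℚ (v '' (A : Set ι)) := by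
    apply Submodule.eq_of_le_of_finrank_le
    · rw [Submodule.span_le]
      rintro _ ⟨i, rfl⟩
      fin_cases i
      · exact hwA 0
      · exact hwA 1
    · rw [finrank_span_eq_card hb01]
      exact hr
  have hco : ∀ i, ∃ c : Fin 2 → ℚ, w i = ∑ j, c j • ![w 0, w 1] j := by
    intro i
    have h1 : w i ∈ span ℚ (Set.range ![w 0, w 1]) := by rw [hsp]; exact hwA i
    obtain ⟨c, hc⟩ := (Submodule.mem_span_range_iff_exists_fun ℚ).1 h1
    exact ⟨c, hc.symm⟩
  have hbX : ∀ i, ![w 0, w 1] i ∈ X := by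
    intro i
    fin_cases i
    · exact hwX 0
    · exact hwX 1
  have hcoord : ∀ (x : V) (c : Fin 2 → ℚ), x ∈ X → x = ∑ j, c j • ![w 0, w 1] j →
      ∀ i, c i = 0 ∨ c i = 1 ∨ c i = -1 := by
    intro x c hx hc i
    exact uni_coord hX ![w 0, w 1] Finset.univ (fun i _ => hbX i)
      (by rw [Finset.coe_univ]; exact linearIndepOn_univ.2 hb01) c (by rw [← hc]; exact hx) i
      (Finset.mem_univ i)
  obtain ⟨c, hc⟩ := hco 2
  obtain ⟨d, hd⟩ := hco 3
  have hc' := hcoord _ c (hwX 2) hc
  have hd' := hcoord _ d (hwX 3) hd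
  have hdet := h34_det hX ![w 0, w 1] hbX hb01 ![w 2, w 3] (by
    intro i
    fin_cases i
    · exact hwX 2
    · exact hwX 3) (Matrix.of ![c, d]) (by
    intro j
    fin_cases j
    · exact hc
    · exact hd)
  rw [Matrix.det_fin_two] at hdet
  simp only [Matrix.of_apply, Matrix.cons_val_zero, Matrix.cons_val_one] at hdet
  simp only [Fin.sum_univ_two, Matrix.cons_val_zero, Matrix.cons_val_one] at hc hd
  have hc0 : c 0 ≠ 0 := by
    intro h
    rw [h, zero_smul, zero_add] at hc
    exact h34_par (hwp 1 2 (by decide)) _ hc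
  have hc1 : c 1 ≠ 0 := by
    intro h
    rw [h, zero_smul, add_zero] at hc
    exact h34_par (hwp 0 2 (by decide)) _ hc
  have hd0 : d 0 ≠ 0 := by
    intro h
    rw [h, zero_smul, zero_add] at hd
    exact h34_par (hwp 1 3 (by decide)) _ hd
  have hd1 : d 1 ≠ 0 := by
    intro h
    rw [h, zero_smul, add_zero] at hd
    exact h34_par (hwp 0 3 (by decide)) _ hd
  have hnz : c 0 * d 1 - c 1 * d 0 ≠ 0 := by
    intro h
    apply h34_par (hwp 2 3 (by decide)) (d 0 / c 0)
    rw [hc, hd, smul_add, smul_smul, smul_smul]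
    congr 2
    · field_simp
    · field_simp
      (clear * - h; linarith)
  have e0 := (hc' 0).resolve_left hc0
  have e1 := (hc' 1).resolve_left hc1
  have e2 := (hd' 0).resolve_left hd0
  have e3 := (hd' 1).resolve_left hd1
  rcases e0 with e0 | e0 <;> rcases e1 with e1 | e1 <;> rcases e2 with e2 | e2 <;>
    rcases e3 with e3 | e3 <;> rw [e0, e1, e2, e3] at hdet hnz <;>
    first
    | (exfalso; norm_num at hdet; done)
    | (exfalso; apply hnz; norm_num; done)

/-- the finite check -/
private theorem h34_fin (m : Fin 4 → Fin 3 → ℚ)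
    (hm : ∀ j i, m j i = 0 ∨ m j i = 1 ∨ m j i = -1)
    (hS : ∀ j, ¬ (m j 0 = 0 ∧ m j 1 = 0) ∧ ¬ (m j 0 = 0 ∧ m j 2 = 0) ∧ ¬ (m j 1 = 0 ∧ m j 2 = 0))
    (hP : ∀ j l, j ≠ l → ∀ i k, m j i * m l k - m j k * m l i = 0 ∨
      m j i * m l k - m j k * m l i = 1 ∨ m j i * m l k - m j k * m l i = -1)
    (hN : ∀ j l, j ≠ l → ¬ (m j 0 * m l 1 - m j 1 * m l 0 = 0 ∧
      m j 0 * m l 2 - m j 2 * m l 0 = 0 ∧ m j 1 * m l 2 - m j 2 * m l 1 = 0))
    (hT : ∀ j l n, m j 0 * (m l 1 * m n 2 - m l 2 * m n 1) - m j 1 * (m l 0 * m n 2 -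
      m l 2 * m n 0) + m j 2 * (m l 0 * m n 1 - m l 1 * m n 0) = 0 ∨
      m j 0 * (m l 1 * m n 2 - m l 2 * m n 1) - m j 1 * (m l 0 * m n 2 -
      m l 2 * m n 0) + m j 2 * (m l 0 * m n 1 - m l 1 * m n 0) = 1 ∨
      m j 0 * (m l 1 * m n 2 - m l 2 * m n 1) - m j 1 * (m l 0 * m n 2 -
      m l 2 * m n 0) + m j 2 * (m l 0 * m n 1 - m l 1 * m n 0) = -1) : False := by
  classical
  -- a minor with nonzero entries vanishes
  have hev : ∀ j l, j ≠ l → ∀ i k, m j i ≠ 0 → m j k ≠ 0 → m l i ≠ 0 → m l k ≠ 0 →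
      m j i * m l k - m j k * m l i = 0 := by
    intro j l hjl i k h1 h2 h3 h4
    rcases hP j l hjl i k with h | h
    · exact h
    · exfalso
      rcases (hm j i).resolve_left h1 with e1 | e1 <;>
      rcases (hm j k).resolve_left h2 with e2 | e2 <;>
      rcases (hm l i).resolve_left h3 with e3 | e3 <;>
      rcases (hm l k).resolve_left h4 with e4 | e4 <;>
      rw [e1, e2, e3, e4] at h <;> norm_num at h
  let ty : Fin 4 → Fin 4 := fun j => if m j 2 = 0 then 0 else if m j 1 = 0 then 1 else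
    if m j 0 = 0 then 2 else 3
  have ty0 : ∀ j, ty j = 0 → m j 2 = 0 ∧ m j 0 ≠ 0 ∧ m j 1 ≠ 0 := by
    intro j hj
    simp only [ty] at hj
    split_ifs at hj with h1 h2 h3
    · exact ⟨h1, fun h => (hS j).2.1 ⟨h, h1⟩, fun h => (hS j).2.2 ⟨h, h1⟩⟩
    all_goals exact absurd hj (by decide)
  have ty1 : ∀ j, ty j = 1 → m j 1 = 0 ∧ m j 0 ≠ 0 ∧ m j 2 ≠ 0 := by
    intro j hj
    simp only [ty] at hj
    split_ifs at hj with h1 h2 h3
    · exact absurd hj (by decide)
    · exact ⟨h2, fun h => (hS j).1 ⟨h, h2⟩, h1⟩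
    all_goals exact absurd hj (by decide)
  have ty2 : ∀ j, ty j = 2 → m j 0 = 0 ∧ m j 1 ≠ 0 ∧ m j 2 ≠ 0 := by
    intro j hj
    simp only [ty] at hj
    split_ifs at hj with h1 h2 h3
    · exact absurd hj (by decide)
    · exact absurd hj (by decide)
    · exact ⟨h3, h2, h1⟩
    · exact absurd hj (by decide)
  have ty3 : ∀ j, ty j = 3 → m j 0 ≠ 0 ∧ m j 1 ≠ 0 ∧ m j 2 ≠ 0 := by
    intro j hj
    simp only [ty] at hj
    split_ifs at hj with h1 h2 h3
    · exact absurd hj (by decide)
    · exact absurd hj (by decide)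
    · exact absurd hj (by decide)
    · exact ⟨h3, h2, h1⟩
  have hinj : Function.Injective ty := by
    intro j l hjl
    by_contra hne
    apply hN j l hne
    have hcase : ty j = 0 ∨ ty j = 1 ∨ ty j = 2 ∨ ty j = 3 := by
      generalize ty j = t
      fin_cases t <;> simp
    rcases hcase with h | h | h | h
    · obtain ⟨a1, a2, a3⟩ := ty0 j h
      obtain ⟨b1, b2, b3⟩ := ty0 l (hjl ▸ h)
      refine ⟨hev j l hne 0 1 a2 a3 b2 b3, ?_, ?_⟩
      · rw [a1, b1]; ring
      · rw [a1, b1]; ring
    · obtain ⟨a1, a2, a3⟩ := ty1 j h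
      obtain ⟨b1, b2, b3⟩ := ty1 l (hjl ▸ h)
      refine ⟨?_, hev j l hne 0 2 a2 a3 b2 b3, ?_⟩
      · rw [a1, b1]; ring
      · rw [a1, b1]; ring
    · obtain ⟨a1, a2, a3⟩ := ty2 j h
      obtain ⟨b1, b2, b3⟩ := ty2 l (hjl ▸ h)
      refine ⟨?_, ?_, hev j l hne 1 2 a2 a3 b2 b3⟩
      · rw [a1, b1]; ring
      · rw [a1, b1]; ring
    · obtain ⟨a1, a2, a3⟩ := ty3 j h
      obtain ⟨b1, b2, b3⟩ := ty3 l (hjl ▸ h)
      exact ⟨hev j l hne 0 1 a1 a2 b1 b2, hev j l hne 0 2 a1 a3 b1 b3,
        hev j l hne 1 2 a2 a3 b2 b3⟩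
  have hsurj : Function.Surjective ty := Finite.injective_iff_surjective.1 hinj
  obtain ⟨j0, h0⟩ := hsurj 0
  obtain ⟨j1, h1⟩ := hsurj 1
  obtain ⟨j2, h2⟩ := hsurj 2
  obtain ⟨j3, h3⟩ := hsurj 3
  have n03 : j0 ≠ j3 := fun h => by rw [h, h3] at h0; exact absurd h0 (by decide)
  have n13 : j1 ≠ j3 := fun h => by rw [h, h3] at h1; exact absurd h1 (by decide)
  have n23 : j2 ≠ j3 := fun h => by rw [h, h3] at h2; exact absurd h2 (by decide)
  obtain ⟨c2, c0, c1⟩ := ty0 j0 h0
  obtain ⟨d1, d0, d2⟩ := ty1 j1 h1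
  obtain ⟨f0, f1, f2⟩ := ty2 j2 h2
  obtain ⟨a0, a1, a2⟩ := ty3 j3 h3
  have r1 := hev j0 j3 n03 0 1 c0 c1 a0 a1
  have r2 := hev j1 j3 n13 0 2 d0 d2 a0 a2
  have r3 := hev j2 j3 n23 1 2 f1 f2 a1 a2
  have hdet := hT j0 j1 j2
  rw [c2, d1, f0] at hdet
  rcases (hm j0 0).resolve_left c0 with e1 | e1 <;>
  rcases (hm j0 1).resolve_left c1 with e2 | e2 <;>
  rcases (hm j1 0).resolve_left d0 with e3 | e3 <;>
  rcases (hm j1 2).resolve_left d2 with e4 | e4 <;>
  rcases (hm j2 1).resolve_left f1 with e5 | e5 <;>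
  rcases (hm j2 2).resolve_left f2 with e6 | e6 <;>
  rw [e1, e2, e3, e4, e5, e6] at hdet <;> norm_num at hdet <;>
  rw [e1, e2] at r1 <;> rw [e3, e4] at r2 <;> rw [e5, e6] at r3 <;>
  (apply a0; linarith)

theorem rank_three {X : Set V} (hX : Uni X) (u : Fin 7 → V) (hu : ∀ i, u i ∈ X)
    (hpar : ∀ i j, i ≠ j → LinearIndependent ℚ ![u i, u j])
    (hr : finrank ℚ (span ℚ (Set.range u)) ≤ 3) : False := by
  classical
  by_cases hr2 : finrank ℚ (span ℚ (Set.range u)) ≤ 2
  · have h1 := rank_two hX (Finset.univ : Finset (Fin 7)) u (fun e _ => hu e)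
      (fun e _ e' _ h => hpar e e' h) (by rw [Finset.coe_univ, Set.image_univ]; exact hr2)
    rw [Finset.card_univ, Fintype.card_fin] at h1
    omega
  have hr3 : finrank ℚ (span ℚ (Set.range u)) = 3 := by omega
  obtain ⟨κ, a, ha, hspan, hind⟩ := exists_linearIndependent' ℚ u
  have hfin : Finite κ := Finite.of_injective a ha
  have := Fintype.ofFinite κ
  have hcard : Fintype.card κ = 3 := by
    rw [← finrank_span_eq_card hind, hspan, hr3]
  let e : Fin 3 ≃ κ := (Fintype.equivFinOfCardEq hcard).symm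
  let b : Fin 3 → V := fun i => u (a (e i))
  have hbi : LinearIndependent ℚ b := hind.comp e e.injective
  have hbX : ∀ i, b i ∈ X := fun i => hu _
  have hbsp : span ℚ (Set.range b) = span ℚ (Set.range u) := by
    rw [← hspan]
    congr 1
    ext x
    constructor
    · rintro ⟨i, rfl⟩; exact ⟨e i, rfl⟩
    · rintro ⟨i, rfl⟩; exact ⟨e.symm i, by simp [b]⟩
  -- the other four
  let A : Finset (Fin 7) := Finset.univ.image (fun i : Fin 3 => a (e i))
  have hA : A.card = 3 := by
    have hinj : Function.Injective (fun i : Fin 3 => a (e i)) := ha.comp e.injective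
    rw [Finset.card_image_of_injective _ hinj, Finset.card_univ, Fintype.card_fin]
  have hAc : Aᶜ.card = 4 := by
    rw [Finset.card_compl, hA, Fintype.card_fin]
  let g : Fin 4 ≃ (Aᶜ : Finset (Fin 7)) := (Finset.equivFinOfCardEq hAc).symm
  let w : Fin 4 → V := fun j => u (g j)
  have hgA : ∀ (j : Fin 4) (i : Fin 3), a (e i) ≠ ((g j : (Aᶜ : Finset (Fin 7))) : Fin 7) := by
    intro j i h
    have h1 := (g j).2
    rw [Finset.mem_compl] at h1
    apply h1
    rw [← h]
    exact Finset.mem_image_of_mem _ (Finset.mem_univ i)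
  have hco : ∀ j, ∃ c : Fin 3 → ℚ, w j = ∑ i, c i • b i := by
    intro j
    have h1 : w j ∈ span ℚ (Set.range b) := by rw [hbsp]; exact subset_span ⟨_, rfl⟩
    obtain ⟨c, hc⟩ := (Submodule.mem_span_range_iff_exists_fun ℚ).1 h1
    exact ⟨c, hc.symm⟩
  choose m hm using hco
  have hwX : ∀ j, w j ∈ X := fun j => hu _
  have hm1 : ∀ j i, m j i = 0 ∨ m j i = 1 ∨ m j i = -1 := fun j i =>
    uni_coord hX b Finset.univ (fun i _ => hbX i)
      (by rw [Finset.coe_univ]; exact linearIndepOn_univ.2 hbi) (m j)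
      (by rw [← hm j]; exact hwX j) i (Finset.mem_univ i)
  have hbw : ∀ i j, LinearIndependent ℚ ![b i, w j] := fun i j => hpar _ _ (hgA j i)
  have hww : ∀ j l, j ≠ l → LinearIndependent ℚ ![w j, w l] := fun j l h => hpar _ _ (fun h1 =>
    h (g.injective (Subtype.ext h1)))
  have hm' : ∀ j, w j = m j 0 • b 0 + m j 1 • b 1 + m j 2 • b 2 := fun j => by
    rw [hm j, Fin.sum_univ_three]
  refine h34_fin m hm1 ?_ ?_ ?_ ?_
  · intro j
    refine ⟨?_, ?_, ?_⟩
    · rintro ⟨h1, h2⟩
      apply h34_par (hbw 2 j) (m j 2)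
      rw [hm' j, h1, h2]; module
    · rintro ⟨h1, h2⟩
      apply h34_par (hbw 1 j) (m j 1)
      rw [hm' j, h1, h2]; module
    · rintro ⟨h1, h2⟩
      apply h34_par (hbw 0 j) (m j 0)
      rw [hm' j, h1, h2]; module
  · -- minors
    intro j l _
    have hd : ∀ k : Fin 3, (Matrix.of ![Pi.single k 1, m j, m l] : Matrix (Fin 3) (Fin 3) ℚ).det = 0
        ∨ (Matrix.of ![Pi.single k 1, m j, m l] : Matrix (Fin 3) (Fin 3) ℚ).det = 1 ∨
        (Matrix.of ![Pi.single k 1, m j, m l] : Matrix (Fin 3) (Fin 3) ℚ).det = -1 := by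
      intro k
      refine h34_det hX b hbX hbi ![b k, w j, w l] ?_ _ ?_
      · intro i
        fin_cases i
        · exact hbX k
        · exact hwX j
        · exact hwX l
      · intro i
        fin_cases i
        · show b k = ∑ i, (Pi.single k (1 : ℚ) : Fin 3 → ℚ) i • b i
          rw [Finset.sum_eq_single k]
          · rw [Pi.single_eq_same, one_smul]
          · intro i _ hi
            rw [Pi.single_eq_of_ne hi, zero_smul]
          · intro h
            exact absurd (Finset.mem_univ k) h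
        · exact hm j
        · exact hm l
    have hd0 := hd 0
    have hd1 := hd 1
    have hd2 := hd 2
    rw [Matrix.det_fin_three] at hd0 hd1 hd2
    simp [Matrix.of_apply, Pi.single_apply] at hd0 hd1 hd2
    intro i k
    fin_cases i <;> fin_cases k <;> simp only [Fin.zero_eta, Fin.mk_one, Fin.reduceFinMk]
    · left; ring
    · rcases hd2 with h | h | h
      · left; (clear * - h; linarith)
      · right; left; (clear * - h; linarith)
      · right; right; (clear * - h; linarith)
    · rcases hd1 with h | h | h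
      · left; (clear * - h; linarith)
      · right; right; (clear * - h; linarith)
      · right; left; (clear * - h; linarith)
    · rcases hd2 with h | h | h
      · left; (clear * - h; linarith)
      · right; right; (clear * - h; linarith)
      · right; left; (clear * - h; linarith)
    · left; ring
    · rcases hd0 with h | h | h
      · left; (clear * - h; linarith)
      · right; left; (clear * - h; linarith)
      · right; right; (clear * - h; linarith)
    · rcases hd1 with h | h | h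
      · left; (clear * - h; linarith)
      · right; left; (clear * - h; linarith)
      · right; right; (clear * - h; linarith)
    · rcases hd0 with h | h | h
      · left; (clear * - h; linarith)
      · right; right; (clear * - h; linarith)
      · right; left; (clear * - h; linarith)
    · left; ring
  · intro j l hjl ⟨h1, h2, h3⟩
    -- `w l` is a multiple of `w j`
    have key : ∀ i : Fin 3, m j i ≠ 0 → (∀ k, m j i * m l k = m j k * m l i) → False := by
      intro i hi hk
      apply h34_par (hww j l hjl) (m l i / m j i)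
      rw [hm' j, hm' l, smul_add, smul_add, smul_smul, smul_smul, smul_smul]
      have hk' : ∀ k, m l i / m j i * m j k = m l k := by
        intro k
        field_simp
        (clear * - hk; linarith [hk k])
      rw [hk' 0, hk' 1, hk' 2]
    by_cases h0 : m j 0 = 0
    · by_cases h0' : m j 1 = 0
      · by_cases h0'' : m j 2 = 0
        · have := hm' j
          rw [h0, h0', h0''] at this
          have h4 : w j = (0 : ℚ) • b 0 := by rw [this]; module
          exact h34_par (hbw 0 j) 0 h4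
        · apply key 2 h0''
          intro k
          fin_cases k <;> simp only [Fin.zero_eta, Fin.mk_one, Fin.reduceFinMk] <;> (clear * - h2 h3; linarith)
      · apply key 1 h0'
        intro k
        fin_cases k <;> simp only [Fin.zero_eta, Fin.mk_one, Fin.reduceFinMk] <;> (clear * - h1 h3; linarith)
    · apply key 0 h0
      intro k
      fin_cases k <;> simp only [Fin.zero_eta, Fin.mk_one, Fin.reduceFinMk] <;> (clear * - h1 h2; linarith)
  · intro j l n
    have hd := h34_det hX b hbX hbi ![w j, w l, w n] (by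
      intro i
      fin_cases i
      · exact hwX j
      · exact hwX l
      · exact hwX n) (Matrix.of ![m j, m l, m n]) (by
      intro i
      fin_cases i
      · exact hm j
      · exact hm l
      · exact hm n)
    rw [Matrix.det_fin_three] at hd
    simp [Matrix.of_apply] at hd
    rcases hd with h | h | h
    · left; (clear * - h; linarith)
    · right; left; (clear * - h; linarith)
    · right; right; (clear * - h; linarith)

end RC

end

section

/-!
Symmetries of `Side` and first consequences.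
-/

namespace RC

open Submodule Module

variable {C : ClsT} {ι V : Type} [AddCommGroup V] [Module ℚ V] {v : ι → V} {X : Finset ι}
  {x y z : V}

theorem Side.ne_x (hs : Side C v X x y z) : x ≠ 0 := by
  have := hs.li.ne_zero 0
  simpa using this

theorem Side.ne_y (hs : Side C v X x y z) : y ≠ 0 := by
  have := hs.li.ne_zero 1
  simpa using this

theorem Side.eq_z (hs : Side C v X x y z) : z = -x - y := by
  have h := hs.sum
  have : z = (x + y + z) - x - y := by abel
  rw [this, h]; abel

theorem Side.memz (hs : Side C v X x y z) : z ∈ span ℚ (v '' (X : Set ι)) := by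
  rw [hs.eq_z]
  exact sub_mem (neg_mem hs.memx) hs.memy

theorem li_swap {x y : V} (h : LinearIndependent ℚ ![x, y]) : LinearIndependent ℚ ![y, x] := by
  rw [LinearIndependent.pair_iff] at h ⊢
  intro s t hst
  have := h t s (by rw [add_comm]; exact hst)
  exact ⟨this.2, this.1⟩

theorem li_rot {x y z : V} (h : LinearIndependent ℚ ![x, y]) (hs : x + y + z = 0) :
    LinearIndependent ℚ ![y, z] := by
  have hz : z = -x - y := by
    have : z = (x + y + z) - x - y := by abel
    rw [this, hs]; abel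
  rw [LinearIndependent.pair_iff] at h ⊢
  intro s t hst
  rw [hz] at hst
  have h1 : (-t) • x + (s - t) • y = 0 := by
    rw [← hst]; module
  have := h _ _ h1
  constructor
  · linarith [this.1, this.2]
  · (clear * - this; linarith [this.1, this.2])

theorem Side.swap (hs : Side C v X x y z) : Side C v X y x z where
  sum := by rw [add_comm y x]; exact hs.sum
  li := li_swap hs.li
  cls := by
    have h := hs.cls
    have e : v '' (X : Set ι) ∪ {y, x, z} = v '' (X : Set ι) ∪ {x, y, z} := by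
      rw [Set.insert_comm]
    rw [e]; exact h
  memx := hs.memy
  memy := hs.memx

theorem Side.rot (hs : Side C v X x y z) : Side C v X y z x where
  sum := by
    have h := hs.sum
    have e : y + z + x = x + y + z := by abel
    rw [e]; exact h
  li := li_rot hs.li hs.sum
  cls := by
    have h := hs.cls
    have e : v '' (X : Set ι) ∪ {y, z, x} = v '' (X : Set ι) ∪ {x, y, z} := by
      congr 1
      ext w
      simp only [Set.mem_insert_iff, Set.mem_singleton_iff]
      tauto
    rw [e]; exact h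
  memx := hs.memy
  memy := hs.memz

theorem Side.ne_z (hs : Side C v X x y z) : z ≠ 0 := hs.rot.ne_y

end RC

end

section

/-!
RCS-9 (sides with four elements and rank 3).

quadA: `A ∪ B = E`, `e0 ∈ B`.  Let `D` be the set of the `a ∈ A` with `v a ∉ span (v '' B)`.  Then
`span (v '' (E \ D)) = span (v '' B)`, so `rk v (E \ D) = rk v B` and by `coc_notin` (`e0 ∉ D`) `4 ≤ D.card`, so
`D = A`: no element of `A` is in the span of `B`.  But `x, y, z` are.  So the four vectors of `A` and
`x, y, z` are seven pairwise non-parallel vectors (`hB.par'` in `A`; `v a` and `x`: `v a` is not in the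
span of `B`) of a unimodular set (`hs.cls`) inside the span of `v '' A`, of rank at most 3: contradiction
to `rank_three`.

quadB: `D` = the `b ∈ B` with `v b ∉ span (v '' A)`.  `rk v (E \ D) = rk v A`.  If `e0 ∉ D` then
`4 ≤ D.card` but `D ⊆ B \ {e0}`.  So `e0 ∈ D`, by `coc_in` `3 ≤ D.card`, and if `D.card = 3` there are two
different elements with the same colour in `B`: contradiction to `hcol`.  So `D = B`.  The rest is the
same.
-/

namespace RC

open Submodule Module

variable {C : ClsT} {ι κ V : Type} [DecidableEq ι] [AddCommGroup V] [Module ℚ V] {h : ℕ}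
  {v : ι → V} {c : ι → κ} {E : Finset ι} {e0 : ι}

private theorem h19_li {U : Submodule ℚ V} {p w : V} (hp : p ∉ U) (hw : w ∈ U) (hw0 : w ≠ 0) :
    LinearIndependent ℚ ![p, w] := by
  rw [LinearIndependent.pair_iff]
  intro s t hst
  have hs : s = 0 := by
    by_contra hs
    apply hp
    have h1 : p = (-(s⁻¹ * t)) • w := by
      have h2 : s⁻¹ • (s • p + t • w) = 0 := by rw [hst, smul_zero]
      rw [smul_add, smul_smul, smul_smul, inv_mul_cancel₀ hs, one_smul] at h2
      rw [neg_smul]
      exact eq_neg_of_add_eq_zero_left h2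
    rw [h1]
    exact U.smul_mem _ hw
  refine ⟨hs, ?_⟩
  rw [hs, zero_smul, zero_add] at hst
  exact (smul_eq_zero.1 hst).resolve_right hw0

/-- seven vectors in rank 3 -/
private theorem h19_seven (hC : Cls C) (hB : Bad C h v c E e0) {S S' : Finset ι} (hS : S ⊆ E)
    {x y z : V} (hs : Side C v S x y z)
    (hx : x ∈ span ℚ (v '' (S' : Set ι))) (hy : y ∈ span ℚ (v '' (S' : Set ι)))
    (hcard : S.card = 4) (hr : rk v S ≤ 3)
    (hno : ∀ a ∈ S, v a ∉ span ℚ (v '' (S' : Set ι))) : False := by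
  let e : Fin 4 ≃ S := (Finset.equivFinOfCardEq hcard).symm
  have hz : z ∈ span ℚ (v '' (S' : Set ι)) := by
    rw [hs.eq_z]
    exact sub_mem (neg_mem hx) hy
  have hne : ∀ i j : Fin 4, i ≠ j → ((e i : S) : ι) ≠ ((e j : S) : ι) := fun i j hij h =>
    hij (e.injective (Subtype.ext h))
  let u : Fin (4 + 3) → V := Fin.append (fun i : Fin 4 => v (e i)) ![x, y, z]
  have hul : ∀ i : Fin 4, u (Fin.castAdd 3 i) = v (e i) := fun i => Fin.append_left _ _ i
  have hur : ∀ i : Fin 3, u (Fin.natAdd 4 i) = ![x, y, z] i := fun i => Fin.append_right _ _ i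
  have hw : ∀ i : Fin 3, ![x, y, z] i ∈ span ℚ (v '' (S' : Set ι)) := by
    intro i
    fin_cases i
    · exact hx
    · exact hy
    · exact hz
  have hw' : ∀ i : Fin 3, ![x, y, z] i ∈ span ℚ (v '' (S : Set ι)) := by
    intro i
    fin_cases i
    · exact hs.memx
    · exact hs.memy
    · exact hs.memz
  have hw0 : ∀ i : Fin 3, ![x, y, z] i ≠ 0 := by
    intro i
    fin_cases i
    · exact hs.ne_x
    · exact hs.ne_y
    · exact hs.ne_z
  have hww : ∀ i j : Fin 3, i ≠ j → LinearIndependent ℚ ![![x, y, z] i, ![x, y, z] j] := by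
    intro i j hij
    fin_cases i <;> fin_cases j
    · exact absurd rfl hij
    · exact hs.li
    · exact li_swap hs.rot.rot.li
    · exact li_swap hs.li
    · exact absurd rfl hij
    · exact hs.rot.li
    · exact hs.rot.rot.li
    · exact li_swap hs.rot.li
    · exact absurd rfl hij
  have hu1 : ∀ i : Fin (4 + 3), u i ∈ v '' (S : Set ι) ∪ {x, y, z} := by
    intro i
    refine Fin.addCases (fun i => ?_) (fun i => ?_) i
    · rw [hul]
      exact Or.inl ⟨_, (e i).2, rfl⟩
    · rw [hur]
      refine Or.inr ?_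
      fin_cases i
      · exact Or.inl rfl
      · exact Or.inr (Or.inl rfl)
      · exact Or.inr (Or.inr rfl)
  have hu2 : ∀ i j : Fin (4 + 3), i ≠ j → LinearIndependent ℚ ![u i, u j] := by
    intro i j
    refine Fin.addCases (fun i => ?_) (fun i => ?_) i <;>
      refine Fin.addCases (fun j => ?_) (fun j => ?_) j
    · intro hij
      rw [hul, hul]
      exact hB.par' (hS (e i).2) (hS (e j).2) (hne i j fun h => hij (by rw [h]))
    · intro _
      rw [hul, hur]
      exact h19_li (hno _ (e i).2) (hw j) (hw0 j)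
    · intro _
      rw [hul, hur]
      exact li_swap (h19_li (hno _ (e j).2) (hw i) (hw0 i))
    · intro hij
      rw [hur, hur]
      exact hww i j fun h => hij (by rw [h])
  refine rank_three (hC.uni hs.cls) u hu1 hu2 ?_
  · have hf : FiniteDimensional ℚ (span ℚ (v '' (S : Set ι))) :=
      FiniteDimensional.span_of_finite ℚ ((Finset.finite_toSet S).image v)
    have hle : span ℚ (Set.range u) ≤ span ℚ (v '' (S : Set ι)) := by
      rw [span_le]
      rintro _ ⟨i, rfl⟩
      refine Fin.addCases (fun i => ?_) (fun i => ?_) i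
      · rw [hul]
        exact subset_span ⟨_, (e i).2, rfl⟩
      · rw [hur]
        exact hw' i
    exact (Submodule.finrank_mono hle).trans hr

omit [DecidableEq ι] in
private theorem h19_rk_le {T S' : Finset ι}
    (hT : ∀ t ∈ T, v t ∈ span ℚ (v '' (S' : Set ι))) : rk v T ≤ rk v S' := by
  have hf : FiniteDimensional ℚ (span ℚ (v '' (S' : Set ι))) :=
    FiniteDimensional.span_of_finite ℚ ((Finset.finite_toSet S').image v)
  refine Submodule.finrank_mono ?_
  rw [span_le]
  rintro _ ⟨t, ht, rfl⟩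
  exact hT t ht

theorem quadA (hC : Cls C) (hB : Bad C h v c E e0) {A B : Finset ι} (hU : A ∪ B = E)
    (hd : Disjoint A B) (he : e0 ∈ B) {x y z : V} (hs : Side C v A x y z)
    (hx : x ∈ span ℚ (v '' (B : Set ι))) (hy : y ∈ span ℚ (v '' (B : Set ι)))
    (hcard : A.card = 4) (hrA : rk v A ≤ 3) (hrB : rk v B + 2 ≤ 2 * h) : False := by
  classical
  set D := A.filter fun a => v a ∉ span ℚ (v '' (B : Set ι)) with hDdef
  have hDA : D ⊆ A := Finset.filter_subset _ _
  have hAE : A ⊆ E := by rw [← hU]; exact Finset.subset_union_left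
  have he0 : e0 ∉ D := fun h0 => (Finset.disjoint_left.1 hd (hDA h0)) he
  have hrk : rk v (E \ D) ≤ rk v B := by
    refine h19_rk_le fun t ht => ?_
    rw [Finset.mem_sdiff, ← hU, Finset.mem_union] at ht
    by_contra hno
    rcases ht with ⟨h1 | h1, h2⟩
    · exact h2 (Finset.mem_filter.2 ⟨h1, hno⟩)
    · exact hno (subset_span ⟨t, h1, rfl⟩)
  have h4 := coc_notin hC hB (hDA.trans hAE) he0 (by omega)
  have hDeq : D = A := Finset.eq_of_subset_of_card_le hDA (by omega)
  refine h19_seven hC hB hAE hs hx hy hcard hrA fun a ha => ?_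
  rw [← hDeq] at ha
  exact (Finset.mem_filter.1 ha).2

theorem quadB (hC : Cls C) (hB : Bad C h v c E e0) {A B : Finset ι} (hU : A ∪ B = E)
    (hd : Disjoint A B) (he : e0 ∈ B) {x y z : V} (hs : Side C v B x y z)
    (hx : x ∈ span ℚ (v '' (A : Set ι))) (hy : y ∈ span ℚ (v '' (A : Set ι)))
    (hcard : B.card = 4) (hcol : ∀ b ∈ B, ∀ b' ∈ B, c b = c b' → b = b')
    (hrB : rk v B ≤ 3) (hrA : rk v A + 2 ≤ 2 * h) : False := by
  classical
  set D := B.filter fun a => v a ∉ span ℚ (v '' (A : Set ι)) with hDdef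
  have hDB : D ⊆ B := Finset.filter_subset _ _
  have hBE : B ⊆ E := by rw [← hU]; exact Finset.subset_union_right
  have hrk : rk v (E \ D) ≤ rk v A := by
    refine h19_rk_le fun t ht => ?_
    rw [Finset.mem_sdiff, ← hU, Finset.mem_union] at ht
    by_contra hno
    rcases ht with ⟨h1 | h1, h2⟩
    · exact hno (subset_span ⟨t, h1, rfl⟩)
    · exact h2 (Finset.mem_filter.2 ⟨h1, hno⟩)
  have h4 : 4 ≤ D.card := by
    by_cases he0 : e0 ∈ D
    · obtain ⟨h3, h3'⟩ := coc_in hC hB (hDB.trans hBE) he0 (by omega)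
      by_contra hlt
      obtain ⟨p, hp, q, hq, hpq, -, -, hc, -⟩ := h3' (by omega)
      exact hpq (hcol p (hDB hp) q (hDB hq) hc)
    · exact coc_notin hC hB (hDB.trans hBE) he0 (by omega)
  have hDeq : D = B := Finset.eq_of_subset_of_card_le hDB (by omega)
  refine h19_seven hC hB hBE hs hx hy hcard hrB fun a ha => ?_
  rw [← hDeq] at ha
  exact (Finset.mem_filter.1 ha).2

end RC

end

section

/-!
A partition of the bad system along a triangle, and its symmetries.
-/

namespace RC

open Submodule Module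

/-- A partition `A, B` of the bad system (`e0 ∈ B`) with a triangle `x, y, z` in both spans. -/
structure Part (C : ClsT) (h : ℕ) {ι κ V : Type} [DecidableEq ι] [AddCommGroup V] [Module ℚ V]
    (v : ι → V) (c : ι → κ) (E : Finset ι) (e0 : ι) (A B : Finset ι) (x y z : V) : Prop where
  bad : Bad C h v c E e0
  hU : A ∪ B = E
  hd : Disjoint A B
  he : e0 ∈ B
  sA : Side C v A x y z
  sB : Side C v B x y z

variable {C : ClsT} {ι κ V : Type} [DecidableEq ι] [AddCommGroup V] [Module ℚ V] {h : ℕ}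
  {v : ι → V} {c : ι → κ} {E A B : Finset ι} {e0 : ι} {x y z : V}

theorem Part.rot (hP : Part C h v c E e0 A B x y z) : Part C h v c E e0 A B y z x :=
  ⟨hP.bad, hP.hU, hP.hd, hP.he, hP.sA.rot, hP.sB.rot⟩

theorem Part.swap (hP : Part C h v c E e0 A B x y z) : Part C h v c E e0 A B y x z :=
  ⟨hP.bad, hP.hU, hP.hd, hP.he, hP.sA.swap, hP.sB.swap⟩

theorem Part.subA (hP : Part C h v c E e0 A B x y z) : A ⊆ E := by
  rw [← hP.hU]; exact Finset.subset_union_left

theorem Part.subB (hP : Part C h v c E e0 A B x y z) : B ⊆ E := by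
  rw [← hP.hU]; exact Finset.subset_union_right

theorem two_of_three {α : Type} {P : α → Prop} {x y z : α} (h1 : P x ∨ P y) (h2 : P y ∨ P z)
    (h3 : P z ∨ P x) : (P x ∧ P y) ∨ (P y ∧ P z) ∨ (P z ∧ P x) := by
  tauto

end RC

end

section

/-!
RCS-8 (combination).  If a nonzero vector `w` is in the span of a rainbow `T ⊆ S` and of a rainbow
`T' ⊆ S'` and no colour occurs in `S` and in `S'`, then `T ∪ T'` is rainbow and dependent (`T`, `T'` are
disjoint; if `T ∪ T'` is independent then the spans of `T` and `T'` intersect in `0`: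
`LinearIndepOn.disjoint_span_image` or similar), with at most `k + l ≤ h` elements.

spn_zero: the span of the empty set is `0`.
-/

namespace RC

open Submodule Module

variable {C : ClsT} {ι κ V : Type} [AddCommGroup V] [Module ℚ V] {h : ℕ}
  {v : ι → V} {c : ι → κ} {E : Finset ι} {e0 : ι}

theorem comb (hB : Bad C h v c E e0) {S S' : Finset ι} (hS : S ⊆ E) (hS' : S' ⊆ E)
    (hc : ∀ e ∈ S, ∀ e' ∈ S', c e ≠ c e') {w : V} (hw : w ≠ 0) {k l : ℕ}
    (h1 : Spn v c S w k) (h2 : Spn v c S' w l) (hkl : k + l ≤ h) : False := by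
  classical
  obtain ⟨T, hTS, hTk, hTc, hwT⟩ := h1
  obtain ⟨T', hTS', hTl, hTc', hwT'⟩ := h2
  have hdj : Disjoint (T : Set ι) (T' : Set ι) := by
    rw [Set.disjoint_left]
    intro x hx hx'
    exact hc x (hTS hx) x (hTS' hx') rfl
  apply hB.short
  refine ⟨T ∪ T', Finset.union_subset (hTS.trans hS) (hTS'.trans hS'),
    ((Finset.card_union_le _ _).trans (Nat.add_le_add hTk hTl)).trans hkl, ?_, ?_⟩
  · intro x hx y hy hxy
    rw [Finset.coe_union] at hx hy
    rcases hx with hx | hx <;> rcases hy with hy | hy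
    · exact hTc hx hy hxy
    · exact absurd hxy (hc x (hTS hx) y (hTS' hy))
    · exact absurd hxy.symm (hc y (hTS hy) x (hTS' hx))
    · exact hTc' hx hy hxy
  · intro hli
    rw [Finset.coe_union] at hli
    have h3 := (linearIndepOn_union_iff hdj).1 hli
    exact hw (Submodule.disjoint_def.1 h3.2.2 w hwT hwT')

theorem spn_zero {S : Finset ι} {w : V} (hw : w ≠ 0) (h1 : Spn v c S w 0) : False := by
  obtain ⟨T, _, hT0, _, hwT⟩ := h1
  have hT : T = ∅ := Finset.card_eq_zero.1 (Nat.le_zero.1 hT0)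
  rw [hT, Finset.coe_empty, Set.image_empty, span_empty, Submodule.mem_bot] at hwT
  exact hw hwT

end RC

end

section

/-!
RCS-6 (adding gadget vectors to a piece of the bad system).

`S ⊆ E` has `u` colours with one element and `b` colours with two elements.  `j : V → W` is injective
on the span of `S`; `g 0, …, g (k-1)` are further vectors of `W`, `g i` gets the colour `γ i`, which is
either an old colour `Sum.inl q` of an element `a` which is alone in `S` with this colour, or one of
`m` new colours.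

Proof: put `ι' = ι ⊕ Fin k`, `v' = Sum.elim (j ∘ v) g`, `c' = Sum.elim (Sum.inl ∘ c) γ`,
`E' = S.disjSum Finset.univ`.  Then `E'.card = u + 2 b + k`, `nc c' E' = u + b + m` (by `h1` the
colours `Sum.inl q` of gadgets are colours of elements of `S`, by `h3` all `m` new colours occur).
`Sys C v' c' E'`: `cls` is `hcls` (`v' '' E' = j '' (v '' S) ∪ range g`), `ne` from `hB.sys.ne`, `hj` and
`hg`, `two` from `hB.sys.two`, `h1`, `h1'`, `h2` (two gadgets with the same colour have a new colour),
`par` from `hB.sys.par` and `hj` (injective on the span preserves independence), `h1`, `h1'`, `rank` is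
`hr`.  By `hB.ih` there is a rainbow dependent `T' ⊆ E'` with at most `bd ..` elements.  Let `T` be the
part of `T'` in `ι`, `G` the part in `Fin k`.  A nontrivial relation
`∑ e ∈ T, α e • j (v e) = ∑ i ∈ G, β i • g i` (put `β i = 0` for `i ∉ G`).  If `β = 0` then
`j (∑ α e • v e) = 0`, so `∑ α e • v e = 0` and `T` is dependent, rainbow (for `c`), with at most
`h` elements: contradiction to `hB.short`.  So `β ≠ 0` and `y = ∑ α e • v e` is as wanted.
-/

namespace RC

open Submodule Module

variable {C : ClsT} {ι κ V : Type} [AddCommGroup V] [Module ℚ V] {h : ℕ}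
  {v : ι → V} {c : ι → κ} {E : Finset ι} {e0 : ι}

theorem ext_lemma (hB : Bad C h v c E e0) {S : Finset ι} (hS : S ⊆ E)
    {W : Type} [AddCommGroup W] [Module ℚ W] (j : V →ₗ[ℚ] W)
    (hj : ∀ y ∈ span ℚ (v '' (S : Set ι)), j y = 0 → y = 0)
    {k m u b : ℕ} (hcnt : Cnt c S u b) (g : Fin k → W) (γ : Fin k → κ ⊕ Fin m)
    (hcls : C W (j '' (v '' (S : Set ι)) ∪ Set.range g))
    (hg : ∀ i, g i ≠ 0)
    (h1 : ∀ i q, γ i = Sum.inl q → ∃ a ∈ S, c a = q ∧ (∀ e ∈ S, c e = q → e = a) ∧
      LinearIndependent ℚ ![j (v a), g i])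
    (h1' : ∀ i i', i ≠ i' → γ i = γ i' → (∃ t, γ i = Sum.inr t) ∧
      LinearIndependent ℚ ![g i, g i'])
    (h2 : ∀ i i' i'', γ i = γ i' → γ i = γ i'' → i = i' ∨ i = i'' ∨ i' = i'')
    (h3 : ∀ t, ∃ i, γ i = Sum.inr t)
    (hr : finrank ℚ (span ℚ (j '' (v '' (S : Set ι)) ∪ Set.range g)) + 1 ≤ u + b + m)
    (hn : u + b + m < 2 * h)
    (hbd : bd (u + b + m) (u + 2 * b + k) ≤ h) :
    ∃ (T : Finset ι) (β : Fin k → ℚ) (y : V), T ⊆ S ∧ Set.InjOn c (T : Set ι) ∧
      T.card + (Finset.univ.filter fun i => β i ≠ 0).card ≤ bd (u + b + m) (u + 2 * b + k) ∧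
      (∃ i, β i ≠ 0) ∧
      (∀ i i', β i ≠ 0 → β i' ≠ 0 → γ i = γ i' → i = i') ∧
      (∀ i, β i ≠ 0 → ∀ e ∈ T, γ i ≠ Sum.inl (c e)) ∧
      y ∈ span ℚ (v '' (T : Set ι)) ∧ j y = ∑ i, β i • g i := by
  classical
  let v' : ι ⊕ Fin k → W := Sum.elim (fun e => j (v e)) g
  let c' : ι ⊕ Fin k → κ ⊕ Fin m := Sum.elim (fun e => Sum.inl (c e)) γ
  let E' : Finset (ι ⊕ Fin k) := S.disjSum Finset.univ
  have hcard : E'.card = u + 2 * b + k := by
    simp only [E', Finset.card_disjSum, Finset.card_univ, Fintype.card_fin, hcnt.1]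
  have himg : E'.image c' = (S.image c).disjSum (Finset.univ : Finset (Fin m)) := by
    ext x
    rcases x with q | t
    · simp only [Finset.mem_image, E', Finset.inl_mem_disjSum]
      constructor
      · rintro ⟨y, hy, hyq⟩
        rcases y with e | i
        · exact ⟨e, Finset.inl_mem_disjSum.1 hy, Sum.inl_injective hyq⟩
        · obtain ⟨a, ha, haq, -⟩ := h1 i q hyq
          exact ⟨a, ha, haq⟩
      · rintro ⟨e, he, rfl⟩
        exact ⟨Sum.inl e, Finset.inl_mem_disjSum.2 he, rfl⟩
    · simp only [Finset.mem_image, E', Finset.inr_mem_disjSum, Finset.mem_univ, iff_true]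
      obtain ⟨i, hi⟩ := h3 t
      exact ⟨Sum.inr i, Finset.inr_mem_disjSum.2 (Finset.mem_univ _), hi⟩
  have hnc : nc c' E' = u + b + m := by
    have h4 : (E'.image c').card = u + b + m := by
      rw [himg, Finset.card_disjSum, Finset.card_univ, Fintype.card_fin, ← hcnt.2,
        nc_image]
    rw [← h4]
    exact nc_image _ _
  have hset : v' '' (E' : Set (ι ⊕ Fin k)) = j '' (v '' (S : Set ι)) ∪ Set.range g := by
    ext x
    constructor
    · rintro ⟨y, hy, rfl⟩
      rcases y with e | i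
      · exact Or.inl ⟨v e, ⟨e, Finset.inl_mem_disjSum.1 (Finset.mem_coe.1 hy), rfl⟩, rfl⟩
      · exact Or.inr ⟨i, rfl⟩
    · rintro (⟨_, ⟨e, he, rfl⟩, rfl⟩ | ⟨i, rfl⟩)
      · exact ⟨Sum.inl e, Finset.mem_coe.2 (Finset.inl_mem_disjSum.2 he), rfl⟩
      · exact ⟨Sum.inr i, Finset.mem_coe.2 (Finset.inr_mem_disjSum.2 (Finset.mem_univ _)), rfl⟩
  have hvS : ∀ e ∈ S, v e ∈ span ℚ (v '' (S : Set ι)) := fun e he =>
    subset_span ⟨e, Finset.mem_coe.2 he, rfl⟩
  have hpar1 : ∀ a ∈ S, ∀ i, γ i = Sum.inl (c a) → LinearIndependent ℚ ![j (v a), g i] := by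
    intro a ha i hi
    obtain ⟨a0, ha0, -, huniq, hli⟩ := h1 i (c a) hi
    have h4 := huniq a ha rfl
    rw [h4]
    exact hli
  have hdup : ∀ i i', γ i = γ i' → ∀ q, γ i = Sum.inl q → i = i' := by
    intro i i' hii q hq
    by_contra hne
    obtain ⟨⟨t, ht⟩, -⟩ := h1' i i' hne hii
    rw [hq] at ht
    cases ht
  have hold : ∀ a ∈ S, ∀ a' ∈ S, ∀ i, γ i = Sum.inl (c a) → c a' = c a → a = a' := by
    intro a ha a' ha' i hi haa
    obtain ⟨a0, ha0, -, huniq, -⟩ := h1 i (c a) hi
    rw [huniq a ha rfl, huniq a' ha' haa]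
  have hsys : Sys C v' c' E' := by
    refine ⟨?_, ?_, ?_, ?_, ?_⟩
    · rw [hset]
      exact hcls
    · intro x hx hx0
      rcases x with e | i
      · have he : e ∈ S := Finset.inl_mem_disjSum.1 hx
        exact hB.sys.ne e (hS he) (hj _ (hvS e he) hx0)
      · exact hg i hx0
    · intro x hx y hy z hz hxy hxz
      rcases x with e | i <;> rcases y with e' | i' <;> rcases z with e'' | i''
      · have he : e ∈ S := Finset.inl_mem_disjSum.1 hx
        have he' : e' ∈ S := Finset.inl_mem_disjSum.1 hy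
        have he'' : e'' ∈ S := Finset.inl_mem_disjSum.1 hz
        have h4 := hB.sys.two e (hS he) e' (hS he') e'' (hS he'') (Sum.inl_injective hxy)
          (Sum.inl_injective hxz)
        rcases h4 with h4 | h4 | h4
        · exact Or.inl (by rw [h4])
        · exact Or.inr (Or.inl (by rw [h4]))
        · exact Or.inr (Or.inr (by rw [h4]))
      · have he : e ∈ S := Finset.inl_mem_disjSum.1 hx
        have he' : e' ∈ S := Finset.inl_mem_disjSum.1 hy
        left
        rw [hold e he e' he' i'' hxz.symm (Sum.inl_injective hxy).symm]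
      · have he : e ∈ S := Finset.inl_mem_disjSum.1 hx
        have he'' : e'' ∈ S := Finset.inl_mem_disjSum.1 hz
        right; left
        rw [hold e he e'' he'' i' hxy.symm (Sum.inl_injective hxz).symm]
      · right; right
        rw [hdup i' i'' ((hxy.symm.trans hxz)) (c e) hxy.symm]
      · have he' : e' ∈ S := Finset.inl_mem_disjSum.1 hy
        have he'' : e'' ∈ S := Finset.inl_mem_disjSum.1 hz
        right; right
        rw [hold e' he' e'' he'' i hxy (Sum.inl_injective (hxy.symm.trans hxz)).symm]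
      · right; left
        rw [hdup i i'' hxz (c e') hxy]
      · left
        rw [hdup i i' hxy (c e'') hxz]
      · have h4 := h2 i i' i'' hxy hxz
        rcases h4 with h4 | h4 | h4
        · exact Or.inl (by rw [h4])
        · exact Or.inr (Or.inl (by rw [h4]))
        · exact Or.inr (Or.inr (by rw [h4]))
    · intro x hx y hy hxy hne
      rcases x with e | i <;> rcases y with e' | i'
      · have he : e ∈ S := Finset.inl_mem_disjSum.1 hx
        have he' : e' ∈ S := Finset.inl_mem_disjSum.1 hy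
        have h4 := hB.sys.par e (hS he) e' (hS he') (Sum.inl_injective hxy)
          (fun h5 => hne (by rw [h5]))
        rw [LinearIndependent.pair_iff] at h4 ⊢
        intro s t hst
        apply h4
        apply hj
        · exact Submodule.add_mem _ (Submodule.smul_mem _ _ (hvS e he))
            (Submodule.smul_mem _ _ (hvS e' he'))
        · rw [map_add, map_smul, map_smul]
          exact hst
      · have he : e ∈ S := Finset.inl_mem_disjSum.1 hx
        exact hpar1 e he i' hxy.symm
      · have he' : e' ∈ S := Finset.inl_mem_disjSum.1 hy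
        exact LinearIndependent.pair_symm_iff.1 (hpar1 e' he' i hxy)
      · exact (h1' i i' (fun h5 => hne (by rw [h5])) hxy).2
    · rw [hnc]
      unfold rk
      rw [hset]
      exact hr
  obtain ⟨T', hTE, hTc, hTi, hTd⟩ := hB.ih (u + b + m) hn (ι ⊕ Fin k) (κ ⊕ Fin m) W v' c' E' hsys
    hnc
  rw [hcard] at hTc
  rw [linearIndepOn_finset_iff] at hTd
  push Not at hTd
  obtain ⟨f, hf, x0, hx0, hfx0⟩ := hTd
  have hsum : ∑ x ∈ T', f x • v' x = ∑ e ∈ T'.toLeft, f (Sum.inl e) • j (v e) +
      ∑ i ∈ T'.toRight, f (Sum.inr i) • g i := by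
    conv_lhs => rw [← Finset.toLeft_disjSum_toRight (u := T')]
    rw [Finset.sum_disjSum]
    rfl
  have hTS : T'.toLeft ⊆ S := by
    intro e he
    exact Finset.inl_mem_disjSum.1 (hTE (Finset.mem_toLeft.1 he))
  have hci : Set.InjOn c (T'.toLeft : Set ι) := by
    intro e he e' he' hee
    have h4 := hTi (Finset.mem_coe.2 (Finset.mem_toLeft.1 (Finset.mem_coe.1 he)))
      (Finset.mem_coe.2 (Finset.mem_toLeft.1 (Finset.mem_coe.1 he')))
      (show Sum.inl (c e) = Sum.inl (c e') by rw [hee])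
    exact Sum.inl_injective h4
  have hcardT : T'.toLeft.card + T'.toRight.card = T'.card :=
    Finset.card_toLeft_add_card_toRight
  let β : Fin k → ℚ := fun i => if i ∈ T'.toRight then - f (Sum.inr i) else 0
  have hβG : ∀ i, β i ≠ 0 → i ∈ T'.toRight := by
    intro i hi
    by_contra hno
    exact hi (if_neg hno)
  have hβsum : ∑ i, β i • g i = - ∑ i ∈ T'.toRight, f (Sum.inr i) • g i := by
    rw [← Finset.sum_subset (Finset.subset_univ T'.toRight) (f := fun i => β i • g i)]
    · rw [← Finset.sum_neg_distrib]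
      refine Finset.sum_congr rfl fun i hi => ?_
      simp only [β, if_pos hi, neg_smul]
    · intro i _ hi
      simp only [β, if_neg hi, zero_smul]
  have hjy : j (∑ e ∈ T'.toLeft, f (Sum.inl e) • v e) = ∑ i, β i • g i := by
    rw [map_sum, hβsum, eq_neg_iff_add_eq_zero, ← hf, hsum]
    congr 1
    exact Finset.sum_congr rfl fun e _ => by rw [map_smul]
  have hyT : ∑ e ∈ T'.toLeft, f (Sum.inl e) • v e ∈ span ℚ (v '' (T'.toLeft : Set ι)) :=
    Submodule.sum_mem _ fun e he => Submodule.smul_mem _ _ (subset_span ⟨e, he, rfl⟩)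
  refine ⟨T'.toLeft, β, ∑ e ∈ T'.toLeft, f (Sum.inl e) • v e, hTS, hci, ?_, ?_, ?_, ?_, hyT, hjy⟩
  · have h4 : (Finset.univ.filter fun i => β i ≠ 0).card ≤ T'.toRight.card :=
      Finset.card_le_card fun i hi => hβG i (Finset.mem_filter.1 hi).2
    omega
  · by_contra hno
    push Not at hno
    have hj0 : j (∑ e ∈ T'.toLeft, f (Sum.inl e) • v e) = 0 := by
      rw [hjy]
      exact Finset.sum_eq_zero fun i _ => by rw [hno i, zero_smul]
    have hy0 : ∑ e ∈ T'.toLeft, f (Sum.inl e) • v e = 0 :=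
      hj _ (span_mono (Set.image_mono (Finset.coe_subset.2 hTS)) hyT) hj0
    apply hB.short
    refine ⟨T'.toLeft, hTS.trans hS, by omega, hci, ?_⟩
    intro hli
    rw [linearIndepOn_finset_iff] at hli
    have h4 := hli (fun e => f (Sum.inl e)) hy0
    apply hfx0
    rcases x0 with e | i
    · exact h4 e (Finset.mem_toLeft.2 hx0)
    · have h5 := hno i
      simp only [β, if_pos (Finset.mem_toRight.2 hx0), neg_eq_zero] at h5
      exact h5
  · intro i i' hi hi' hii
    have h4 := hTi (Finset.mem_coe.2 (Finset.mem_toRight.1 (hβG i hi)))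
      (Finset.mem_coe.2 (Finset.mem_toRight.1 (hβG i' hi'))) (show γ i = γ i' from hii)
    exact Sum.inr_injective h4
  · intro i hi e he hie
    have h4 := hTi (Finset.mem_coe.2 (Finset.mem_toRight.1 (hβG i hi)))
      (Finset.mem_coe.2 (Finset.mem_toLeft.1 he)) (show γ i = Sum.inl (c e) from hie)
    cases h4

/-- The version with gadgets in `V`: all gadget vectors are in a set `Y` inside the span of
`X ⊇ S`, and `X` together with `Y` is in the class.  From `ext_lemma` with `j` the identity,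
`hC.mono`, and `finrank ≤ rk v X` since the span of `v '' S ∪ range g` is contained in the span of
`v '' X`. -/
theorem ext_id (hC : Cls C) (hB : Bad C h v c E e0) {S X : Finset ι} (hS : S ⊆ X) (hX : X ⊆ E)
    {Y : Set V} (hcls : C V (v '' (X : Set ι) ∪ Y)) (hY : Y ⊆ span ℚ (v '' (X : Set ι)))
    {k m u b : ℕ} (hcnt : Cnt c S u b) (g : Fin k → V) (γ : Fin k → κ ⊕ Fin m)
    (hgY : ∀ i, g i ∈ Y) (hg : ∀ i, g i ≠ 0)
    (h1 : ∀ i q, γ i = Sum.inl q → ∃ a ∈ S, c a = q ∧ (∀ e ∈ S, c e = q → e = a) ∧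
      LinearIndependent ℚ ![v a, g i])
    (h1' : ∀ i i', i ≠ i' → γ i = γ i' → (∃ t, γ i = Sum.inr t) ∧
      LinearIndependent ℚ ![g i, g i'])
    (h2 : ∀ i i' i'', γ i = γ i' → γ i = γ i'' → i = i' ∨ i = i'' ∨ i' = i'')
    (h3 : ∀ t, ∃ i, γ i = Sum.inr t)
    (hr : rk v X + 1 ≤ u + b + m)
    (hn : u + b + m < 2 * h)
    (hbd : bd (u + b + m) (u + 2 * b + k) ≤ h) :
    ∃ (T : Finset ι) (β : Fin k → ℚ), T ⊆ S ∧ Set.InjOn c (T : Set ι) ∧
      T.card + (Finset.univ.filter fun i => β i ≠ 0).card ≤ bd (u + b + m) (u + 2 * b + k) ∧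
      (∃ i, β i ≠ 0) ∧
      (∀ i i', β i ≠ 0 → β i' ≠ 0 → γ i = γ i' → i = i') ∧
      (∀ i, β i ≠ 0 → ∀ e ∈ T, γ i ≠ Sum.inl (c e)) ∧
      ∑ i, β i • g i ∈ span ℚ (v '' (T : Set ι)) := by
  have hsub : (LinearMap.id : V →ₗ[ℚ] V) '' (v '' (S : Set ι)) ∪ Set.range g ⊆
      (span ℚ (v '' (X : Set ι)) : Set V) := by
    rintro x (⟨_, ⟨e, he, rfl⟩, rfl⟩ | ⟨i, rfl⟩)
    · exact subset_span ⟨e, Finset.mem_coe.2 (hS he), rfl⟩
    · exact hY (hgY i)
  have hfin : finrank ℚ (span ℚ ((LinearMap.id : V →ₗ[ℚ] V) '' (v '' (S : Set ι)) ∪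
      Set.range g)) ≤ rk v X := by
    unfold rk
    have hle : span ℚ ((LinearMap.id : V →ₗ[ℚ] V) '' (v '' (S : Set ι)) ∪ Set.range g) ≤
        span ℚ (v '' (X : Set ι)) := span_le.2 hsub
    have hf : FiniteDimensional ℚ (span ℚ (v '' (X : Set ι))) :=
      FiniteDimensional.span_of_finite ℚ ((Finset.finite_toSet X).image v)
    exact LinearMap.finrank_le_finrank_of_injective (Submodule.inclusion_injective hle)
  obtain ⟨T, β, y, hT, hi, hc, hne, hinj, hnew, hy, hjy⟩ :=
    ext_lemma hB (hS.trans hX) (LinearMap.id : V →ₗ[ℚ] V) (fun y _ hy => hy) hcnt g γ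
      (by
        refine hC.mono hcls ?_
        rintro x (⟨_, ⟨e, he, rfl⟩, rfl⟩ | ⟨i, rfl⟩)
        · exact Or.inr (Or.inl (Or.inl ⟨e, Finset.mem_coe.2 (hS he), rfl⟩))
        · exact Or.inr (Or.inl (Or.inr (hgY i))))
      hg (fun i q hq => h1 i q hq) h1' h2 h3 (by omega) hn hbd
  refine ⟨T, β, hT, hi, hc, hne, hinj, hnew, ?_⟩
  rw [← hjy]
  exact hy

end RC

end

section

/-!
RCS-2 (the guts line of a separation).  `x + y + z = 0`, `x, y` independent, `X ∪ {x, y, z}`
unimodular.

span_line: if the span of `T ⊆ X` contains a nonzero vector `w` of `span {x, y}`, then it contains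
`x`, `y` or `z`.  Proof: suppose not.  Then `span T ⊓ span {x, y} = span {w}`.  Write
`w = ∑ a ∈ t, k a • a` with `t` a finite linearly independent subset of `T` and all `k a ≠ 0`, pick
`a0 ∈ t`, and `w = α • x + β • y`.  The set `t \ {a0} ∪ {x, y}` is linearly independent (a relation
`u + γ x + δ y = 0` gives `γ x + δ y ∈ span T`, so it is a multiple of `w`; if not zero then
`w ∈ span (t \ {a0})`, contradiction), in particular `x, y ∉ t`.  Since
`a0 = (α / k0) x + (β / k0) y - ∑ (k a / k0) a ∈ X`, `α / k0` and `β / k0` are in `0, 1, -1`.  With the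
independent set `t \ {a0} ∪ {x, z}` (same span) and `α x + β y = (α - β) x - β z` also
`(α - β) / k0` is in `0, 1, -1`.  So `α = 0` (then `y ∈ span T`) or `β = 0` (`x ∈ span T`) or `α = β`
(`z ∈ span T`).

guts: `w ∈ X`, `w ≠ 0`, `w ∈ span {x, y}` is `x, y, z` or the negative of one of them: the same
computation with `w = α x + β y` and the sets `{x, y}`, `{x, z}`.
-/

namespace RC

open Submodule Module

variable {V : Type} [AddCommGroup V] [Module ℚ V]

private theorem h93_pair_zero {p q : V} (li : LinearIndependent ℚ ![p, q]) {a b : ℚ}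
    (h : a • p + b • q = 0) : a = 0 ∧ b = 0 :=
  LinearIndependent.pair_iff.1 li a b h

private theorem h93_li_xz {x y z : V} (hs : x + y + z = 0)
    (li : LinearIndependent ℚ ![x, y]) : LinearIndependent ℚ ![x, z] := by
  have hz : z = -x - y := by
    have h1 : z = (x + y + z) - x - y := by abel
    rw [h1, hs]
    abel
  refine LinearIndependent.pair_iff.2 fun a b h => ?_
  have h2 : (a - b) • x + (-b) • y = 0 := by
    rw [← h, hz]
    module
  obtain ⟨h3, h4⟩ := h93_pair_zero li h2
  have hb : b = 0 := by linarith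
  exact ⟨by linarith, hb⟩

/-- The computation with two independent vectors outside the span of `T`. -/
private theorem h93_core {Y : Set V} {p q : V} (hX : Uni Y) (hp : p ∈ Y) (hq : q ∈ Y)
    {T : Set V} (hT : T ⊆ Y) (t : Finset V) (ht : (t : Set V) ⊆ T)
    (hli : LinearIndepOn ℚ id (t : Set V)) (k : V → ℚ) {a0 : V} (ha0 : a0 ∈ t)
    (hk0 : k a0 ≠ 0) {w : V} (hw0 : w ≠ 0) (hw : ∑ a ∈ t, k a • a = w) {α β : ℚ}
    (hpq : w = α • p + β • q) (hpT : p ∉ span ℚ T) (hqT : q ∉ span ℚ T)  :
    (α / k a0 = 0 ∨ α / k a0 = 1 ∨ α / k a0 = -1) ∧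
      (β / k a0 = 0 ∨ β / k a0 = 1 ∨ β / k a0 = -1) := by
  classical
  set s0 : Finset V := t.erase a0 with hs0
  have hins : insert a0 s0 = t := Finset.insert_erase ha0
  have ha0s : a0 ∉ s0 := Finset.notMem_erase a0 t
  have hwT : w ∈ span ℚ T := by
    rw [← hw]
    exact Submodule.sum_mem _ fun a ha => Submodule.smul_mem _ _ (subset_span (ht ha))
  have hs0T : span ℚ (s0 : Set V) ≤ span ℚ T :=
    span_mono fun a ha => ht (Finset.mem_of_mem_erase ha)
  have hsum : k a0 • a0 + ∑ a ∈ s0, k a • a = w := by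
    rw [← hw, ← hins, Finset.sum_insert ha0s]
  have hliI : LinearIndepOn ℚ id (insert a0 (s0 : Set V)) := by
    rw [← Finset.coe_insert, hins]
    exact hli
  have ha0sp : a0 ∉ span ℚ (s0 : Set V) := by
    have h1 := (linearIndepOn_id_insert (K := ℚ) (s := (s0 : Set V)) (x := a0)
      (by exact_mod_cast ha0s)).1 hliI
    exact h1.2
  have hs0li : LinearIndepOn ℚ id (s0 : Set V) := hliI.mono (Set.subset_insert _ _)
  have hs0sum : ∑ a ∈ s0, k a • a ∈ span ℚ (s0 : Set V) :=
    Submodule.sum_mem _ fun a ha => Submodule.smul_mem _ _ (subset_span ha)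
  have hwns : w ∉ span ℚ (s0 : Set V) := by
    intro h
    apply ha0sp
    have h2 : a0 = (k a0)⁻¹ • (w - ∑ a ∈ s0, k a • a) := by
      rw [← hsum, add_sub_cancel_right, smul_smul, inv_mul_cancel₀ hk0, one_smul]
    rw [h2]
    exact Submodule.smul_mem _ _ (Submodule.sub_mem _ h hs0sum)
  have hqs : q ∉ s0 := fun h => hqT (hs0T (subset_span h))
  have hqsp : q ∉ span ℚ (s0 : Set V) := fun h => hqT (hs0T h)
  have hpsp : p ∉ span ℚ (insert q (s0 : Set V)) := by
    intro h
    obtain ⟨γ, u, hu, hpu⟩ := Submodule.mem_span_insert.1 h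
    have hr : u ∈ span ℚ T := hs0T hu
    have h3 : (γ * α + β) • p ∈ span ℚ T := by
      have h4 : (γ * α + β) • p = γ • w + β • u := by
        have h5 : u = p - γ • q := by
          rw [hpu]
          abel
        rw [h5, hpq]
        module
      rw [h4]
      exact Submodule.add_mem _ (Submodule.smul_mem _ _ hwT) (Submodule.smul_mem _ _ hr)
    have h6 : γ * α + β = 0 := by
      by_contra hne
      apply hpT
      have h7 := Submodule.smul_mem _ (γ * α + β)⁻¹ h3
      rwa [smul_smul, inv_mul_cancel₀ hne, one_smul] at h7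
    apply hwns
    have h8 : w = α • u := by
      have h5 : u = p - γ • q := by
        rw [hpu]
        abel
      have h9 : β = -(γ * α) := by (clear * - h6; linarith)
      rw [h5, hpq, h9]
      module
    rw [h8]
    exact Submodule.smul_mem _ _ hu
  have hpq' : p ∉ insert q s0 := by
    intro h
    apply hpsp
    apply subset_span
    exact_mod_cast h
  have hli2 : LinearIndepOn ℚ id ((insert p (insert q s0) : Finset V) : Set V) := by
    rw [Finset.coe_insert, Finset.coe_insert]
    refine (linearIndepOn_id_insert (by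
      rw [← Finset.coe_insert]
      exact_mod_cast hpq')).2 ⟨?_, hpsp⟩
    exact (linearIndepOn_id_insert (by exact_mod_cast hqs)).2 ⟨hs0li, hqsp⟩
  let c : V → ℚ := fun v => if v = p then α / k a0 else if v = q then β / k a0
    else -(k v / k a0)
  have hqp : q ≠ p := by
    rintro rfl
    exact hpq' (Finset.mem_insert_self _ _)
  have hcp : c p = α / k a0 := by simp [c]
  have hcq : c q = β / k a0 := by simp [c, hqp]
  have hcs : ∑ a ∈ insert p (insert q s0), c a • a = a0 := by
    rw [Finset.sum_insert hpq', Finset.sum_insert hqs, hcp, hcq]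
    have h1 : ∑ a ∈ s0, c a • a = -((k a0)⁻¹ • ∑ a ∈ s0, k a • a) := by
      rw [Finset.smul_sum, ← Finset.sum_neg_distrib]
      refine Finset.sum_congr rfl fun a ha => ?_
      have hap : a ≠ p := by
        rintro rfl
        exact hpq' (Finset.mem_insert_of_mem ha)
      have haq : a ≠ q := by
        rintro rfl
        exact hqs ha
      simp only [c, hap, haq, if_false]
      rw [smul_smul, ← neg_smul]
      congr 1
      ring
    rw [h1]
    have h2 : ∑ a ∈ s0, k a • a = w - k a0 • a0 := by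
      rw [← hsum]
      abel
    rw [h2, hpq, smul_sub, smul_smul, inv_mul_cancel₀ hk0, one_smul]
    rw [div_eq_mul_inv, div_eq_mul_inv]
    module
  have hsub : ((insert p (insert q s0) : Finset V) : Set V) ⊆ Y := by
    intro v hv
    rw [Finset.mem_coe, Finset.mem_insert, Finset.mem_insert] at hv
    rcases hv with rfl | rfl | hv
    · exact hp
    · exact hq
    · exact hT (ht (Finset.mem_of_mem_erase hv))
  have ha0Y : a0 ∈ Y := hT (ht ha0)
  have hfin := hX (insert p (insert q s0)) c hsub hli2 (by rw [hcs]; exact ha0Y)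
  have e1 := hfin p (Finset.mem_insert_self _ _)
  have e2 := hfin q (Finset.mem_insert_of_mem (Finset.mem_insert_self _ _))
  rw [hcp] at e1
  rw [hcq] at e2
  exact ⟨e1, e2⟩

private theorem h93_cases {a b : ℚ} (ha : a = 0 ∨ a = 1 ∨ a = -1) (hb : b = 0 ∨ b = 1 ∨ b = -1)
    (hab : a - b = 0 ∨ a - b = 1 ∨ a - b = -1) : a = 0 ∨ b = 0 ∨ a = b := by
  rcases ha with rfl | rfl | rfl
  · left; rfl
  · rcases hb with rfl | rfl | rfl
    · right; left; rfl
    · right; right; rfl
    · norm_num at hab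
  · rcases hb with rfl | rfl | rfl
    · right; left; rfl
    · norm_num at hab
    · right; right; rfl

/-- The coordinates of a vector of `X` with respect to an independent pair. -/
private theorem h93_pair {Y : Set V} {p q : V} (hX : Uni Y) (hp : p ∈ Y) (hq : q ∈ Y)
    (li : LinearIndependent ℚ ![p, q]) {w : V} (hw : w ∈ Y) {α β : ℚ}
    (hpq : w = α • p + β • q) :
    (α = 0 ∨ α = 1 ∨ α = -1) ∧ (β = 0 ∨ β = 1 ∨ β = -1) := by
  classical
  have hne : p ≠ q := by
    rintro rfl
    have := h93_pair_zero li (a := 1) (b := -1) (by module)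
    exact one_ne_zero this.1
  have hq0 : q ≠ 0 := by
    rintro rfl
    have := h93_pair_zero li (a := 0) (b := 1) (by module)
    exact one_ne_zero this.2
  let c : V → ℚ := fun v => if v = p then α else β
  have hcp : c p = α := by simp [c]
  have hcq : c q = β := by simp [c, hne.symm]
  have hli2 : LinearIndepOn ℚ id (({p, q} : Finset V) : Set V) := by
    rw [Finset.coe_insert, Finset.coe_singleton]
    refine (linearIndepOn_id_insert (by simpa using hne)).2 ⟨?_, ?_⟩
    · exact (linearIndepOn_singleton_iff ℚ).2 hq0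
    · intro h
      obtain ⟨g, hg⟩ := Submodule.mem_span_singleton.1 h
      have := h93_pair_zero li (a := 1) (b := -g) (by rw [← hg]; module)
      exact one_ne_zero this.1
  have hcs : ∑ a ∈ ({p, q} : Finset V), c a • a = w := by
    rw [Finset.sum_pair hne, hcp, hcq, hpq]
  have hsub : (({p, q} : Finset V) : Set V) ⊆ Y := by
    intro v hv
    rw [Finset.mem_coe, Finset.mem_insert, Finset.mem_singleton] at hv
    rcases hv with rfl | rfl
    · exact hp
    · exact hq
  have hfin := hX {p, q} c hsub hli2 (by rw [hcs]; exact hw)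
  have e1 := hfin p (by simp)
  have e2 := hfin q (by simp)
  rw [hcp] at e1
  rw [hcq] at e2
  exact ⟨e1, e2⟩

theorem span_line {X : Set V} {x y z : V} (hX : Uni (X ∪ {x, y, z})) (hs : x + y + z = 0)
    (li : LinearIndependent ℚ ![x, y]) {T : Set V} (hT : T ⊆ X) {w : V} (hw : w ∈ span ℚ T)
    (hw' : w ∈ span ℚ ({x, y} : Set V)) (hw0 : w ≠ 0) :
    x ∈ span ℚ T ∨ y ∈ span ℚ T ∨ z ∈ span ℚ T := by
  classical
  by_contra hcon
  push Not at hcon
  obtain ⟨hx, hy, hz⟩ := hcon
  have hzeq : z = -x - y := by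
    have h1 : z = (x + y + z) - x - y := by abel
    rw [h1, hs]
    abel
  -- a finite independent subset with nonzero coefficients
  obtain ⟨T', hT'T, hwT'⟩ := Submodule.mem_span_finite_of_mem_span hw
  obtain ⟨b, hbT', hbspan, hbli⟩ := exists_linearIndependent ℚ (T' : Set V)
  have hbfin : b.Finite := (Finset.finite_toSet T').subset hbT'
  have hwb : w ∈ span ℚ b := by
    rw [hbspan]
    exact hwT'
  have hwb' : w ∈ span ℚ ((hbfin.toFinset : Finset V) : Set V) := by
    rw [Set.Finite.coe_toFinset]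
    exact hwb
  obtain ⟨k, -, hk⟩ := Submodule.mem_span_finset.1 hwb'
  set t : Finset V := hbfin.toFinset.filter (fun a => k a ≠ 0) with htdef
  have htb : (t : Set V) ⊆ b := by
    intro a ha
    have h1 : a ∈ hbfin.toFinset := (Finset.mem_filter.1 (Finset.mem_coe.1 ha)).1
    exact hbfin.mem_toFinset.1 h1
  have htT : (t : Set V) ⊆ T := fun a ha => hT'T (hbT' (htb ha))
  have hsumt : ∑ a ∈ t, k a • a = w := by
    rw [← hk, htdef]
    refine Finset.sum_filter_of_ne fun a _ ha h0 => ha ?_
    rw [h0, zero_smul]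
  have htli : LinearIndepOn ℚ id (t : Set V) := by
    have h1 : LinearIndepOn ℚ id b := hbli
    exact h1.mono htb
  have htne : t.Nonempty := by
    rw [Finset.nonempty_iff_ne_empty]
    intro h0
    apply hw0
    rw [← hsumt, h0, Finset.sum_empty]
  obtain ⟨a0, ha0⟩ := htne
  have hk0 : k a0 ≠ 0 := (Finset.mem_filter.1 ha0).2
  obtain ⟨α, β, hαβ⟩ := Submodule.mem_span_pair.1 hw'
  have hTY : T ⊆ X ∪ {x, y, z} := fun a ha => Or.inl (hT ha)
  have hxY : x ∈ X ∪ {x, y, z} := Or.inr (by simp)
  have hyY : y ∈ X ∪ {x, y, z} := Or.inr (by simp)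
  have hzY : z ∈ X ∪ {x, y, z} := Or.inr (by simp)
  obtain ⟨e1, e2⟩ := h93_core hX hxY hyY hTY t htT htli k ha0 hk0 hw0 hsumt hαβ.symm hx hy
  have hαβ2 : w = (α - β) • x + (-β) • z := by
    rw [← hαβ, hzeq]
    module
  obtain ⟨e3, -⟩ := h93_core hX hxY hzY hTY t htT htli k ha0 hk0 hw0 hsumt hαβ2 hx hz
  rw [sub_div] at e3
  rcases h93_cases e1 e2 e3 with h | h | h
  · have hα : α = 0 := by
      rcases div_eq_zero_iff.1 h with h' | h'
      · exact h'
      · exact absurd h' hk0
    have hwy : w = β • y := by rw [← hαβ, hα, zero_smul, zero_add]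
    have hβ : β ≠ 0 := by
      rintro rfl
      exact hw0 (by rw [hwy, zero_smul])
    apply hy
    have h7 := Submodule.smul_mem _ β⁻¹ hw
    rwa [hwy, smul_smul, inv_mul_cancel₀ hβ, one_smul] at h7
  · have hβ : β = 0 := by
      rcases div_eq_zero_iff.1 h with h' | h'
      · exact h'
      · exact absurd h' hk0
    have hwx : w = α • x := by rw [← hαβ, hβ, zero_smul, add_zero]
    have hα : α ≠ 0 := by
      rintro rfl
      exact hw0 (by rw [hwx, zero_smul])
    apply hx
    have h7 := Submodule.smul_mem _ α⁻¹ hw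
    rwa [hwx, smul_smul, inv_mul_cancel₀ hα, one_smul] at h7
  · have hαβe : α = β := by
      have := congrArg (fun r => r * k a0) h
      simpa [div_mul_cancel₀ _ hk0] using this
    have hwz : w = (-α) • z := by
      rw [← hαβ, hzeq, ← hαβe]
      module
    have hα : -α ≠ 0 := by
      intro h0
      exact hw0 (by rw [hwz, h0, zero_smul])
    apply hz
    have h7 := Submodule.smul_mem _ (-α)⁻¹ hw
    rwa [hwz, smul_smul, inv_mul_cancel₀ hα, one_smul] at h7

theorem guts {X : Set V} {x y z : V} (hX : Uni (X ∪ {x, y, z})) (hs : x + y + z = 0)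
    (li : LinearIndependent ℚ ![x, y]) {w : V} (hw : w ∈ X) (hw' : w ∈ span ℚ ({x, y} : Set V))
    (hw0 : w ≠ 0) :
    (w = x ∨ w = y ∨ w = z) ∨ (w = -x ∨ w = -y ∨ w = -z) := by
  have hzeq : z = -x - y := by
    have h1 : z = (x + y + z) - x - y := by abel
    rw [h1, hs]
    abel
  obtain ⟨α, β, hαβ⟩ := Submodule.mem_span_pair.1 hw'
  have hwY : w ∈ X ∪ {x, y, z} := Or.inl hw
  have hxY : x ∈ X ∪ {x, y, z} := Or.inr (by simp)
  have hyY : y ∈ X ∪ {x, y, z} := Or.inr (by simp)
  have hzY : z ∈ X ∪ {x, y, z} := Or.inr (by simp)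
  obtain ⟨e1, e2⟩ := h93_pair hX hxY hyY li hwY hαβ.symm
  have hαβ2 : w = (α - β) • x + (-β) • z := by
    rw [← hαβ, hzeq]
    module
  obtain ⟨e3, -⟩ := h93_pair hX hxY hzY (h93_li_xz hs li) hwY hαβ2
  rcases h93_cases e1 e2 e3 with rfl | rfl | rfl
  · have hwy : w = β • y := by rw [← hαβ, zero_smul, zero_add]
    rcases e2 with rfl | rfl | rfl
    · exact absurd (by rw [hwy, zero_smul]) hw0
    · left; right; left
      rw [hwy, one_smul]
    · right; right; left
      rw [hwy, neg_smul, one_smul]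
  · have hwx : w = α • x := by rw [← hαβ, zero_smul, add_zero]
    rcases e1 with rfl | rfl | rfl
    · exact absurd (by rw [hwx, zero_smul]) hw0
    · left; left
      rw [hwx, one_smul]
    · right; left
      rw [hwx, neg_smul, one_smul]
  · have hwz : w = (-α) • z := by
      rw [← hαβ, hzeq]
      module
    rcases e1 with rfl | rfl | rfl
    · exact absurd (by rw [hwz, neg_zero, zero_smul]) hw0
    · right; right; right
      rw [hwz, neg_smul, one_smul]
    · left; right; right
      rw [hwz, neg_neg, one_smul]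

end RC

end

section

/-!
A combination of two of the three vectors `x, y, z` in the span of a subset `T` of a side.
-/

namespace RC

open Submodule Module

variable {C : ClsT} {ι V : Type} [AddCommGroup V] [Module ℚ V] {v : ι → V} {X : Finset ι}
  {x y z : V}

theorem line3 (hC : Cls C) (hs : Side C v X x y z) {T : Finset ι} (hT : T ⊆ X) {α β : ℚ}
    (hab : α ≠ 0 ∨ β ≠ 0) (hw : α • x + β • y ∈ span ℚ (v '' (T : Set ι))) :
    x ∈ span ℚ (v '' (T : Set ι)) ∨ y ∈ span ℚ (v '' (T : Set ι)) ∨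
      z ∈ span ℚ (v '' (T : Set ι)) := by
  have h1 : Uni (v '' (X : Set ι) ∪ {x, y, z}) := hC.uni hs.cls
  have h2 : α • x + β • y ∈ span ℚ ({x, y} : Set V) := by
    refine add_mem (smul_mem _ _ (subset_span (by simp))) (smul_mem _ _ (subset_span (by simp)))
  have h3 : α • x + β • y ≠ 0 := by
    intro h0
    have := (LinearIndependent.pair_iff.1 hs.li) α β h0
    rcases hab with h | h
    · exact h this.1
    · exact h this.2
  exact span_line h1 hs.sum hs.li (Set.image_mono (by exact_mod_cast hT)) hw h2 h3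

/-- The same for `x` and `z`. -/
theorem line3' (hC : Cls C) (hs : Side C v X x y z) {T : Finset ι} (hT : T ⊆ X) {α β : ℚ}
    (hab : α ≠ 0 ∨ β ≠ 0) (hw : α • x + β • z ∈ span ℚ (v '' (T : Set ι))) :
    x ∈ span ℚ (v '' (T : Set ι)) ∨ y ∈ span ℚ (v '' (T : Set ι)) ∨
      z ∈ span ℚ (v '' (T : Set ι)) := by
  have hs' : Side C v X x z y := hs.rot.rot.swap
  rcases line3 hC hs' hT hab hw with h | h | h
  · exact Or.inl h
  · exact Or.inr (Or.inr h)
  · exact Or.inr (Or.inl h)

/-- The same for `y` and `z`. -/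
theorem line3'' (hC : Cls C) (hs : Side C v X x y z) {T : Finset ι} (hT : T ⊆ X) {α β : ℚ}
    (hab : α ≠ 0 ∨ β ≠ 0) (hw : α • y + β • z ∈ span ℚ (v '' (T : Set ι))) :
    x ∈ span ℚ (v '' (T : Set ι)) ∨ y ∈ span ℚ (v '' (T : Set ι)) ∨
      z ∈ span ℚ (v '' (T : Set ι)) := by
  rcases line3 hC hs.rot hT hab hw with h | h | h
  · exact Or.inr (Or.inl h)
  · exact Or.inr (Or.inr h)
  · exact Or.inl h

end RC

end

section

/-!
RCS-16a (moving the elements on the line of the triangle).  Put `L = span {x, y}`.  Call `e ∈ E` a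
line element if `v e ∈ L`.  Put

`B' = {e ∈ B, v e ∉ L} ∪ {e ∈ E, v e ∈ L and there is f ∈ B with v f ∉ L, c f = c e}`, `A' = E \ B'`.

So the elements not on the line stay on their side, and a line element goes to the side of its
partner if the partner is not on the line and in `B`, otherwise to `A`.

Split colours: let `a ∈ A'`, `b ∈ B'`, `c a = c b` (`a ≠ b`).  If `v a ∈ L`: as `a ∉ B'` there is no `f ∈ B` with
`v f ∉ L`, `c f = c a`; but `b ∈ B'` is itself such an `f` or gives one: contradiction.  So `v a ∉ L`, `a ∈ A`.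
If `v b ∈ L` there is `f ∈ B`, `v f ∉ L`, `c f = c b`: then `a, b, f` are three different elements of the
same colour, contradiction to `hB.sys.two`.

Class: each `e ∈ A'` is in `A` or `v e ∈ L`; in the latter case `v e ≠ 0` (`hB.sys.ne`) and by `guts` (with
`X = v '' A` or `X = v '' B`) `v e` is one of `x, y, z` or the negative of one: `hC.mono`.  The same for `B'`.

Spans: `span (v '' A') ≤ span (v '' A ∪ {x, y})`, `span (v '' B') ≤ span (v '' B ∪ {x, y})`.
-/

namespace RC

open Submodule Module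

variable {C : ClsT} {ι κ V : Type} [DecidableEq ι] [AddCommGroup V] [Module ℚ V] {h : ℕ}
  {v : ι → V} {c : ι → κ} {E : Finset ι} {e0 : ι}

theorem rearr (hC : Cls C) (hB : Bad C h v c E e0) {A B : Finset ι} (hU : A ∪ B = E)
    (hd : Disjoint A B) {x y z : V} (hs : x + y + z = 0) (li : LinearIndependent ℚ ![x, y])
    (hsp : span ℚ (v '' (A : Set ι) ∪ {x, y}) ⊓ span ℚ (v '' (B : Set ι) ∪ {x, y}) ≤
      span ℚ {x, y})
    (hA : C V (v '' (A : Set ι) ∪ {x, y, z})) (hB' : C V (v '' (B : Set ι) ∪ {x, y, z})) :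
    ∃ A' B' : Finset ι, A' ∪ B' = E ∧ Disjoint A' B' ∧
      (∀ e ∈ A, v e ∉ span ℚ {x, y} → e ∈ A') ∧ (∀ e ∈ B, v e ∉ span ℚ {x, y} → e ∈ B') ∧
      C V (v '' (A' : Set ι) ∪ {x, y, z}) ∧ C V (v '' (B' : Set ι) ∪ {x, y, z}) ∧
      span ℚ (v '' (A' : Set ι)) ⊓ span ℚ (v '' (B' : Set ι)) ≤ span ℚ {x, y} ∧
      (∀ a ∈ A', ∀ b ∈ B', c a = c b → v a ∉ span ℚ {x, y} ∧ v b ∉ span ℚ {x, y}) := by
  classical
  have hAE : ∀ a ∈ A, a ∈ E := fun a ha => hU ▸ Finset.mem_union_left _ ha
  have hBE : ∀ b ∈ B, b ∈ E := fun b hb => hU ▸ Finset.mem_union_right _ hb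
  have hAB : ∀ a ∈ A, a ∉ B := fun a ha hb => Finset.disjoint_left.1 hd ha hb
  have hEAB : ∀ e ∈ E, e ∈ A ∨ e ∈ B := fun e he => Finset.mem_union.1 (hU.symm ▸ he)
  have xL : x ∈ span ℚ ({x, y} : Set V) := subset_span (by simp)
  have yL : y ∈ span ℚ ({x, y} : Set V) := subset_span (by simp)
  -- the classes of the elements on the line
  have gA : ∀ e ∈ A, v e ∈ span ℚ ({x, y} : Set V) →
      (v e = x ∨ v e = y ∨ v e = z) ∨ (v e = -x ∨ v e = -y ∨ v e = -z) := fun e he hl =>
    guts (X := v '' (A : Set ι)) (hC.uni hA) hs li ⟨e, he, rfl⟩ hl (hB.sys.ne e (hAE e he))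
  have gB : ∀ e ∈ B, v e ∈ span ℚ ({x, y} : Set V) →
      (v e = x ∨ v e = y ∨ v e = z) ∨ (v e = -x ∨ v e = -y ∨ v e = -z) := fun e he hl =>
    guts (X := v '' (B : Set ι)) (hC.uni hB') hs li ⟨e, he, rfl⟩ hl (hB.sys.ne e (hBE e he))
  have fin6 : ∀ (Y : Set V) (w : V),
      (w = x ∨ w = y ∨ w = z) ∨ (w = -x ∨ w = -y ∨ w = -z) →
      w = 0 ∨ w ∈ Y ∪ {x, y, z} ∨ -w ∈ Y ∪ {x, y, z} := by
    intro Y w hw
    rcases hw with hw | hw
    · right; left; right
      simpa using hw
    · right; right; right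
      rcases hw with rfl | rfl | rfl <;> simp
  set P : ι → Prop := fun e => (e ∈ B ∧ v e ∉ span ℚ ({x, y} : Set V)) ∨
    (v e ∈ span ℚ ({x, y} : Set V) ∧ ∃ f ∈ B, v f ∉ span ℚ ({x, y} : Set V) ∧ c f = c e) with hP
  have mA : ∀ e, e ∈ E.filter (fun e => ¬ P e) ↔ e ∈ E ∧ ¬ P e := fun e => Finset.mem_filter
  have mB : ∀ e, e ∈ E.filter P ↔ e ∈ E ∧ P e := fun e => Finset.mem_filter
  have kA : ∀ e ∈ E.filter (fun e => ¬ P e), e ∈ A ∨ (e ∈ B ∧ v e ∈ span ℚ ({x, y} : Set V)) := by
    intro e he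
    obtain ⟨heE, hn⟩ := (mA e).1 he
    rcases hEAB e heE with h1 | h1
    · exact Or.inl h1
    · right
      refine ⟨h1, ?_⟩
      by_contra h2
      exact hn (Or.inl ⟨h1, h2⟩)
  have kB : ∀ e ∈ E.filter P, e ∈ B ∨ (e ∈ A ∧ v e ∈ span ℚ ({x, y} : Set V)) := by
    intro e he
    obtain ⟨heE, hn⟩ := (mB e).1 he
    rcases hEAB e heE with h1 | h1
    · right
      refine ⟨h1, ?_⟩
      rcases hn with h2 | h2
      · exact absurd h2.1 (hAB e h1)
      · exact h2.1
    · exact Or.inl h1
  refine ⟨E.filter (fun e => ¬ P e), E.filter P, ?_, ?_, ?_, ?_, ?_, ?_, ?_, ?_⟩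
  · rw [Finset.union_comm]
    exact Finset.filter_union_filter_not_eq _ _
  · exact (Finset.disjoint_filter_filter_not _ _ _).symm
  · intro e he hl
    refine (mA e).2 ⟨hAE e he, ?_⟩
    rintro (h1 | h1)
    · exact hAB e he h1.1
    · exact hl h1.1
  · intro e he hl
    exact (mB e).2 ⟨hBE e he, Or.inl ⟨he, hl⟩⟩
  · refine hC.mono hA ?_
    rintro w (⟨e, he, rfl⟩ | hw)
    · rcases kA e he with h1 | h1
      · exact Or.inr (Or.inl (Or.inl ⟨e, h1, rfl⟩))
      · exact fin6 _ _ (gB e h1.1 h1.2)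
    · exact Or.inr (Or.inl (Or.inr hw))
  · refine hC.mono hB' ?_
    rintro w (⟨e, he, rfl⟩ | hw)
    · rcases kB e he with h1 | h1
      · exact Or.inr (Or.inl (Or.inl ⟨e, h1, rfl⟩))
      · exact fin6 _ _ (gA e h1.1 h1.2)
    · exact Or.inr (Or.inl (Or.inr hw))
  · refine le_trans (inf_le_inf ?_ ?_) hsp
    · rw [span_le]
      rintro w ⟨e, he, rfl⟩
      rcases kA e he with h1 | h1
      · exact subset_span (Or.inl ⟨e, h1, rfl⟩)
      · exact span_mono Set.subset_union_right h1.2
    · rw [span_le]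
      rintro w ⟨e, he, rfl⟩
      rcases kB e he with h1 | h1
      · exact subset_span (Or.inl ⟨e, h1, rfl⟩)
      · exact span_mono Set.subset_union_right h1.2
  · intro a ha b hb hc
    obtain ⟨haE, hna⟩ := (mA a).1 ha
    obtain ⟨hbE, hpb⟩ := (mB b).1 hb
    have hva : v a ∉ span ℚ ({x, y} : Set V) := by
      intro hl
      apply hna
      right
      refine ⟨hl, ?_⟩
      rcases hpb with h1 | ⟨_, f, hf, hfl, hfc⟩
      · exact ⟨b, h1.1, h1.2, hc.symm⟩
      · exact ⟨f, hf, hfl, hfc.trans hc.symm⟩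
    refine ⟨hva, ?_⟩
    intro hl
    rcases hpb with h1 | ⟨_, f, hf, hfl, hfc⟩
    · exact h1.2 hl
    · have haA : a ∈ A := by
        rcases kA a ha with h1 | h1
        · exact h1
        · exact absurd h1.2 hva
      rcases hB.sys.two a haE b hbE f (hBE f hf) hc (hc.trans hfc.symm) with h1 | h1 | h1
      · subst h1
        exact hva hl
      · subst h1
        exact hAB a haA hf
      · subst h1
        exact hfl hl

end RC

end
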