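import Pool.Agent.Helper29.MFA.T02
import Pool.Agent.Helper29.MFA.T03

section

/-!
Module RC-P6.  Triangles of a cographic set are three-edge cuts of the graph.

`CogCut u hd tl X p q e1 e2 e3`: the linear dependencies of `u` are the potential differences of
the graph `hd, tl`; `u e1 = p`, `u e2 = q`, `u e3 = - (p + q)`; the edges `e1, e2, e3` lead from
outside `X` into `X`, all other edges have both ends in `X` or both outside `X`.

`CogCut.symm`: replace `X` by its complement and exchange `hd` and `tl` (potential `- π`).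

`cog_cut`: each of `p, q, p + q` is nonzero and is `± u e` for some `e`; choose `e1, e2, e3` with
`p = ± u e1`, `q = ± u e2`, `p + q = ± u e3`.  They are distinct since `p, q, p + q` are pairwise
nonproportional.  Let `u' = u` except that the sign is changed at `e1, e2, e3` if
necessary, so that `u' e1 = p`, `u' e2 = q`, `u' e3 = -(p + q)`, and exchange `hd` and `tl`
for the edges whose sign is changed.  The dependencies of `u'` are the potential differences
for `hd', tl'`.  Since `u' e1 + u' e2 + u' e3 = 0` there is `π0 : W → ℚ` with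
`π0 (hd' e) - π0 (tl' e) = 1` for `e = e1, e2, e3` and `= 0` for all other `e`.  Let
`X = {w | π0 (hd' e1) ≤ π0 w}` and `χ` its indicator function.  For `e ≠ e1, e2, e3`,
`hd' e ∈ X ↔ tl' e ∈ X`.  `hd' e1 ∈ X`, `tl' e1 ∉ X`.  For `e = e2, e3`:
`χ (hd' e) - χ (tl' e)` is `0` or `1` (if `tl' e ∈ X` then `hd' e ∈ X`).  The dependency of `χ` is
`p + x • q - y • (p + q) = 0` with `x, y ∈ {0, 1}`; since `p, q` are independent `y = 1`, `x = y`.
So `hd' e ∈ X`, `tl' e ∉ X` for `e = e1, e2, e3`.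

`cog_sep`: let `y` be in the intersection.  The left side gives
`y = ∑_{e inside X} a e • u e + α • p + β • q` and the right side
`y = ∑_{e outside X} b e • u e + α' • p + β' • q`.  So
`a - b + (α - α') e1 + (β - β') e2` is a dependency, the difference of a potential `π`.  Let
`π' = π` on `X` and `π' = 0` outside `X`.  Its dependency has coefficient `a e` at `e` inside `X`,
`0` outside `X` and `π (hd e)` at `e = e1, e2, e3`; so
`∑_{e inside X} a e • u e = - ∑_{e = e1, e2, e3} π (hd e) • u e ∈ span {p, q}`, and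
`y ∈ span {p, q}`.  The other inclusion is clear.
-/

namespace RC.Str

open Submodule Module

variable {V E W : Type} [AddCommGroup V] [Module ℚ V] [Fintype E] [Fintype W]

/-- A triangle of a cographic family as a three-edge cut. -/
structure CogCut (u : E → V) (hd tl : E → W) (X : Set W) (p q : V) (e1 e2 e3 : E) : Prop where
  dep : ∀ a : E → ℚ, ∑ e, a e • u e = 0 ↔ ∃ π : W → ℚ, ∀ e, a e = π (hd e) - π (tl e)
  li : LinearIndependent ℚ ![p, q]
  u1 : u e1 = p
  u2 : u e2 = q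
  u3 : u e3 = -(p + q)
  h1 : hd e1 ∈ X
  h2 : hd e2 ∈ X
  h3 : hd e3 ∈ X
  t1 : tl e1 ∉ X
  t2 : tl e2 ∉ X
  t3 : tl e3 ∉ X
  cut : ∀ e, e ≠ e1 → e ≠ e2 → e ≠ e3 → (hd e ∈ X ↔ tl e ∈ X)

theorem CogCut.symm {u : E → V} {hd tl : E → W} {X : Set W} {p q : V} {e1 e2 e3 : E}
    (h : CogCut u hd tl X p q e1 e2 e3) : CogCut u tl hd Xᶜ p q e1 e2 e3 := by
  refine ⟨fun a => ?_, h.li, h.u1, h.u2, h.u3, h.t1, h.t2, h.t3, fun hh => hh h.h1,
    fun hh => hh h.h2, fun hh => hh h.h3, fun e n1 n2 n3 => ?_⟩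
  · rw [h.dep a]
    constructor
    · rintro ⟨π, hπ⟩
      refine ⟨fun w => -π w, fun e => ?_⟩
      rw [hπ e]
      ring
    · rintro ⟨π, hπ⟩
      refine ⟨fun w => -π w, fun e => ?_⟩
      rw [hπ e]
      ring
  · exact (not_congr (h.cut e n1 n2 n3)).symm

open Classical in
/-- a function with support in three points -/
private noncomputable def tri (e1 e2 e3 : E) (x y z : ℚ) (e : E) : ℚ :=
  if e = e1 then x else if e = e2 then y else if e = e3 then z else 0

private theorem tri_sum (u : E → V) {e1 e2 e3 : E} (h12 : e1 ≠ e2) (h13 : e1 ≠ e3)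
    (h23 : e2 ≠ e3) (x y z : ℚ) :
    ∑ e, tri e1 e2 e3 x y z e • u e = x • u e1 + y • u e2 + z • u e3 := by
  classical
  have h : ∀ e, tri e1 e2 e3 x y z e • u e = (if e = e1 then x • u e1 else 0) +
      (if e = e2 then y • u e2 else 0) + (if e = e3 then z • u e3 else 0) := by
    intro e
    unfold tri
    by_cases a1 : e = e1
    · subst a1
      simp [h12, h13]
    · by_cases a2 : e = e2
      · subst a2
        simp [a1, h23]
      · by_cases a3 : e = e3
        · subst a3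
          simp [a1, a2]
        · simp [a1, a2, a3]
  rw [Finset.sum_congr rfl fun e _ => h e, Finset.sum_add_distrib, Finset.sum_add_distrib]
  simp

private theorem tri_1 (e1 e2 e3 : E) (x y z : ℚ) : tri e1 e2 e3 x y z e1 = x := by
  unfold tri
  simp

private theorem tri_2 {e1 e2 : E} (e3 : E) (h12 : e1 ≠ e2) (x y z : ℚ) :
    tri e1 e2 e3 x y z e2 = y := by
  unfold tri
  simp [h12.symm]

private theorem tri_3 {e1 e2 e3 : E} (h13 : e1 ≠ e3) (h23 : e2 ≠ e3) (x y z : ℚ) :
    tri e1 e2 e3 x y z e3 = z := by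
  unfold tri
  simp [h13.symm, h23.symm]

private theorem tri_0 {e1 e2 e3 e : E} (h1 : e ≠ e1) (h2 : e ≠ e2) (h3 : e ≠ e3) (x y z : ℚ) :
    tri e1 e2 e3 x y z e = 0 := by
  unfold tri
  simp [h1, h2, h3]

/-- change of signs -/
private theorem dep_flip (u : E → V) (hd tl : E → W)
    (dep : ∀ a : E → ℚ, ∑ e, a e • u e = 0 ↔ ∃ π : W → ℚ, ∀ e, a e = π (hd e) - π (tl e))
    (b : E → Bool) (a : E → ℚ) :
    ∑ e, a e • (if b e then -u e else u e) = 0 ↔
      ∃ π : W → ℚ, ∀ e, a e = π (if b e then tl e else hd e) - π (if b e then hd e else tl e) := by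
  have h1 : ∑ e, a e • (if b e then -u e else u e) = ∑ e, (if b e then -a e else a e) • u e := by
    refine Finset.sum_congr rfl fun e _ => ?_
    cases b e <;> simp
  rw [h1, dep]
  refine exists_congr fun π => forall_congr' fun e => ?_
  cases b e
  · simp
  · simp only [if_true]
    constructor <;> intro h <;> (clear * - h; linarith)

theorem cog_cut (u : E → V) (hd tl : E → W)
    (dep : ∀ a : E → ℚ, ∑ e, a e • u e = 0 ↔ ∃ π : W → ℚ, ∀ e, a e = π (hd e) - π (tl e))
    {p q : V} (li : LinearIndependent ℚ ![p, q]) (hD : Dom {p, q, p + q} (Set.range u)) :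
    ∃ (u' : E → V) (hd' tl' : E → W) (X : Set W) (e1 e2 e3 : E),
      (∀ e, u' e = u e ∨ u' e = -u e) ∧ CogCut u' hd' tl' X p q e1 e2 e3 := by
  classical
  have li' := LinearIndependent.pair_iff.1 li
  have hp : p ≠ 0 := by
    rintro rfl
    have := (li' 1 0 (by simp)).1
    exact one_ne_zero this
  have hq : q ≠ 0 := by
    rintro rfl
    have := (li' 0 1 (by simp)).2
    exact one_ne_zero this
  have hpq : p + q ≠ 0 := by
    intro h
    have := (li' 1 1 (by simpa using h)).1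
    exact one_ne_zero this
  have key : ∀ x ∈ ({p, q, p + q} : Set V), x ≠ 0 →
      ∃ (e : E) (b : Bool), (if b then -u e else u e) = x := by
    intro x hx hx0
    rcases hD x hx with h | ⟨e, h⟩ | ⟨e, h⟩
    · exact absurd h hx0
    · exact ⟨e, false, by simpa using h⟩
    · exact ⟨e, true, by simp [h]⟩
  obtain ⟨e1, b1, hb1⟩ := key p (by simp) hp
  obtain ⟨e2, b2, hb2⟩ := key q (by simp) hq
  obtain ⟨e3, b3, hb3⟩ := key (p + q) (by simp) hpq
  have sgn : ∀ (b : Bool) (x : V), (if b then -x else x) = (if b then (-1 : ℚ) else 1) • x := by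
    intro b x
    cases b <;> simp
  have sgn0 : ∀ b : Bool, (if b then (-1 : ℚ) else 1) ≠ 0 := by
    intro b
    cases b <;> simp
  have h12 : e1 ≠ e2 := by
    rintro rfl
    rw [sgn] at hb1 hb2
    have := (li' (if b2 then (-1 : ℚ) else 1) (-(if b1 then (-1 : ℚ) else 1)) (by
      rw [← hb1, ← hb2, smul_smul, smul_smul, ← add_smul]
      have : (if b2 then (-1 : ℚ) else 1) * (if b1 then (-1 : ℚ) else 1) +
        -(if b1 then (-1 : ℚ) else 1) * (if b2 then (-1 : ℚ) else 1) = 0 := by ring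
      rw [this, zero_smul])).1
    exact sgn0 _ this
  have h13 : e1 ≠ e3 := by
    rintro rfl
    rw [sgn] at hb1 hb3
    have := (li' ((if b1 then (-1 : ℚ) else 1) - (if b3 then (-1 : ℚ) else 1))
      (if b1 then (-1 : ℚ) else 1) (by
      have e : ((if b1 then (-1 : ℚ) else 1) - (if b3 then (-1 : ℚ) else 1)) • p +
          (if b1 then (-1 : ℚ) else 1) • q
          = (if b1 then (-1 : ℚ) else 1) • (p + q) - (if b3 then (-1 : ℚ) else 1) • p := by
        rw [sub_smul, smul_add]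
        abel
      rw [e, ← hb3, ← hb1, smul_smul, smul_smul, mul_comm, sub_self])).2
    exact sgn0 _ this
  have h23 : e2 ≠ e3 := by
    rintro rfl
    rw [sgn] at hb2 hb3
    have := (li' (if b2 then (-1 : ℚ) else 1)
      ((if b2 then (-1 : ℚ) else 1) - (if b3 then (-1 : ℚ) else 1)) (by
      have e : (if b2 then (-1 : ℚ) else 1) • p +
          ((if b2 then (-1 : ℚ) else 1) - (if b3 then (-1 : ℚ) else 1)) • q
          = (if b2 then (-1 : ℚ) else 1) • (p + q) - (if b3 then (-1 : ℚ) else 1) • q := by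
        rw [sub_smul, smul_add]
        abel
      rw [e, ← hb3, ← hb2, smul_smul, smul_smul, mul_comm, sub_self])).1
    exact sgn0 _ this
  set b : E → Bool := fun e => if e = e1 then b1 else if e = e2 then b2 else
    if e = e3 then !b3 else false with hb
  set u' : E → V := fun e => if b e then -u e else u e with hu'
  set hd' : E → W := fun e => if b e then tl e else hd e with hhd'
  set tl' : E → W := fun e => if b e then hd e else tl e with htl'
  have dep' : ∀ a : E → ℚ, ∑ e, a e • u' e = 0 ↔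
      ∃ π : W → ℚ, ∀ e, a e = π (hd' e) - π (tl' e) := fun a => dep_flip u hd tl dep b a
  have be1 : b e1 = b1 := by simp [hb]
  have be2 : b e2 = b2 := by simp [hb, h12.symm]
  have be3 : b e3 = !b3 := by simp [hb, h13.symm, h23.symm]
  have u1 : u' e1 = p := by
    simp only [hu', be1]
    exact hb1
  have u2 : u' e2 = q := by
    simp only [hu', be2]
    exact hb2
  have u3 : u' e3 = -(p + q) := by
    simp only [hu', be3]
    rw [← hb3]
    cases b3 <;> simp
  have dep3 : ∀ x y z : ℚ, ∑ e, tri e1 e2 e3 x y z e • u' e = (x - z) • p + (y - z) • q := by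
    intro x y z
    rw [tri_sum u' h12 h13 h23, u1, u2, u3, sub_smul, sub_smul, smul_neg, smul_add]
    abel
  obtain ⟨π0, hπ0⟩ := (dep' (tri e1 e2 e3 1 1 1)).1 (by rw [dep3]; simp)
  set X : Set W := {w | π0 (hd' e1) ≤ π0 w} with hX
  set χ : W → ℚ := fun w => if w ∈ X then 1 else 0 with hχ
  have cut : ∀ e, e ≠ e1 → e ≠ e2 → e ≠ e3 → (hd' e ∈ X ↔ tl' e ∈ X) := by
    intro e n1 n2 n3
    have h := hπ0 e
    rw [tri_0 n1 n2 n3] at h
    have h' : π0 (hd' e) = π0 (tl' e) := by (clear * - h; linarith)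
    change π0 (hd' e1) ≤ π0 (hd' e) ↔ π0 (hd' e1) ≤ π0 (tl' e)
    rw [h']
  have m1 : hd' e1 ∈ X := le_refl (π0 (hd' e1))
  have n1 : tl' e1 ∉ X := by
    have h := hπ0 e1
    rw [tri_1] at h
    intro hh
    have hh' : π0 (hd' e1) ≤ π0 (tl' e1) := hh
    (clear * - h hh'; linarith)
  have hdep : ∀ e, tri e1 e2 e3 1 (χ (hd' e2) - χ (tl' e2)) (χ (hd' e3) - χ (tl' e3)) e
      = χ (hd' e) - χ (tl' e) := by
    intro e
    by_cases a1 : e = e1
    · subst a1
      rw [tri_1]
      simp only [hχ, if_pos m1, if_neg n1]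
      norm_num
    · by_cases a2 : e = e2
      · subst a2
        rw [tri_2 e3 h12]
      · by_cases a3 : e = e3
        · subst a3
          rw [tri_3 h13 h23]
        · rw [tri_0 a1 a2 a3]
          by_cases hm : hd' e ∈ X
          · have hm' := (cut e a1 a2 a3).1 hm
            simp only [hχ, if_pos hm, if_pos hm']
            norm_num
          · have hm' := fun hh => hm ((cut e a1 a2 a3).2 hh)
            simp only [hχ, if_neg hm, if_neg hm']
            norm_num
  have hz := (dep' _).2 ⟨χ, hdep⟩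
  rw [dep3] at hz
  obtain ⟨z1, z2⟩ := li' _ _ hz
  have hval : ∀ x y : W, χ x - χ y = 1 → x ∈ X ∧ y ∉ X := by
    intro x y h
    by_cases hx : x ∈ X
    · refine ⟨hx, fun hy => ?_⟩
      simp only [hχ, if_pos hx, if_pos hy] at h
      norm_num at h
    · exfalso
      by_cases hy : y ∈ X
      · simp only [hχ, if_neg hx, if_pos hy] at h
        norm_num at h
      · simp only [hχ, if_neg hx, if_neg hy] at h
        norm_num at h
  have v3 : χ (hd' e3) - χ (tl' e3) = 1 := by (clear * - z1; linarith)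
  have v2 : χ (hd' e2) - χ (tl' e2) = 1 := by linarith
  refine ⟨u', hd', tl', X, e1, e2, e3, fun e => ?_, ⟨dep', li, u1, u2, u3, m1, (hval _ _ v2).1,
    (hval _ _ v3).1, n1, (hval _ _ v2).2, (hval _ _ v3).2, cut⟩⟩
  simp only [hu']
  cases b e <;> simp

private theorem rep_span (u : E → V) (A : Set E) {y : V} (h : y ∈ span ℚ (u '' A)) :
    ∃ a : E → ℚ, (∀ e, e ∉ A → a e = 0) ∧ y = ∑ e, a e • u e := by
  classical
  induction h using Submodule.span_induction with
  | mem x hx =>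
    obtain ⟨e, he, rfl⟩ := hx
    refine ⟨Pi.single e 1, fun e' he' => ?_, ?_⟩
    · rw [Pi.single_eq_of_ne]
      rintro rfl
      exact he' he
    · rw [Finset.sum_eq_single e]
      · simp
      · intro e' _ hne
        rw [Pi.single_eq_of_ne hne, zero_smul]
      · intro hh
        exact absurd (Finset.mem_univ e) hh
  | zero => exact ⟨fun _ => 0, fun _ _ => rfl, by simp⟩
  | add x y _ _ hx hy =>
    obtain ⟨a, ha, rfl⟩ := hx
    obtain ⟨b, hb, rfl⟩ := hy
    refine ⟨fun e => a e + b e, fun e he => by simp [ha e he, hb e he], ?_⟩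
    rw [← Finset.sum_add_distrib]
    exact Finset.sum_congr rfl fun e _ => (add_smul _ _ _).symm
  | smul c x _ hx =>
    obtain ⟨a, ha, rfl⟩ := hx
    refine ⟨fun e => c * a e, fun e he => by simp [ha e he], ?_⟩
    rw [Finset.smul_sum]
    exact Finset.sum_congr rfl fun e _ => by rw [smul_smul]

theorem cog_sep {u : E → V} {hd tl : E → W} {X : Set W} {p q : V} {e1 e2 e3 : E}
    (h : CogCut u hd tl X p q e1 e2 e3) :
    span ℚ (u '' {e | hd e ∈ X ∧ tl e ∈ X} ∪ {p, q}) ⊓
      span ℚ (u '' {e | hd e ∉ X ∧ tl e ∉ X} ∪ {p, q}) = span ℚ {p, q} := by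
  classical
  have li' := LinearIndependent.pair_iff.1 h.li
  have h12 : e1 ≠ e2 := by
    rintro rfl
    have := (li' 1 (-1) (by rw [← h.u1, ← h.u2]; simp)).1
    exact one_ne_zero this
  have h13 : e1 ≠ e3 := by
    rintro rfl
    have := (li' 2 1 (by
      have e : p = -(p + q) := by rw [← h.u3, h.u1]
      have e' : (2 : ℚ) • p + (1 : ℚ) • q = p - (-(p + q)) := by
        rw [two_smul, one_smul]
        abel
      rw [e', ← e, sub_self])).2
    exact one_ne_zero this
  have h23 : e2 ≠ e3 := by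
    rintro rfl
    have := (li' 1 2 (by
      have e : q = -(p + q) := by rw [← h.u3, h.u2]
      have e' : (1 : ℚ) • p + (2 : ℚ) • q = q - (-(p + q)) := by
        rw [two_smul, one_smul]
        abel
      rw [e', ← e, sub_self])).1
    exact one_ne_zero this
  apply le_antisymm
  · rintro y ⟨hy1, hy2⟩
    rw [SetLike.mem_coe, span_union, mem_sup] at hy1 hy2
    obtain ⟨yA, hyA, z, hz, hyz⟩ := hy1
    obtain ⟨yB, hyB, z', hz', hyz'⟩ := hy2
    obtain ⟨a, ha, rfl⟩ := rep_span u _ hyA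
    obtain ⟨b, hb, rfl⟩ := rep_span u _ hyB
    obtain ⟨α, β, hαβ⟩ := mem_span_pair.1 hz
    obtain ⟨α', β', hαβ'⟩ := mem_span_pair.1 hz'
    have hc : ∑ e, (a e - b e + tri e1 e2 e3 (α - α') (β - β') 0 e) • u e = 0 := by
      have e1' : ∑ e, (a e - b e + tri e1 e2 e3 (α - α') (β - β') 0 e) • u e
          = ∑ e, a e • u e - ∑ e, b e • u e +
            ∑ e, tri e1 e2 e3 (α - α') (β - β') 0 e • u e := by
        rw [← Finset.sum_sub_distrib, ← Finset.sum_add_distrib]
        exact Finset.sum_congr rfl fun e _ => by rw [add_smul, sub_smul]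
      rw [e1', tri_sum u h12 h13 h23, h.u1, h.u2, zero_smul, add_zero]
      have e2' : ∑ e, a e • u e = y - z := by rw [← hyz]; abel
      have e3' : ∑ e, b e • u e = y - z' := by rw [← hyz']; abel
      rw [e2', e3', ← hαβ, ← hαβ', sub_smul, sub_smul]
      abel
    obtain ⟨π, hπ⟩ := (h.dep _).1 hc
    have hs : ∑ e, (a e + tri e1 e2 e3 (π (hd e1)) (π (hd e2)) (π (hd e3)) e) • u e = 0 := by
      refine (h.dep _).2 ⟨fun w => if w ∈ X then π w else 0, fun e => ?_⟩
      change _ = (if hd e ∈ X then π (hd e) else 0) - (if tl e ∈ X then π (tl e) else 0)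
      by_cases a1 : e = e1
      · subst a1
        rw [tri_1, ha e (fun hh => h.t1 hh.2), if_pos h.h1, if_neg h.t1]
        ring
      · by_cases a2 : e = e2
        · subst a2
          rw [tri_2 e3 h12, ha e (fun hh => h.t2 hh.2), if_pos h.h2, if_neg h.t2]
          ring
        · by_cases a3 : e = e3
          · subst a3
            rw [tri_3 h13 h23, ha e (fun hh => h.t3 hh.2), if_pos h.h3, if_neg h.t3]
            ring
          · rw [tri_0 a1 a2 a3]
            by_cases hm : hd e ∈ X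
            · have hm' := (h.cut e a1 a2 a3).1 hm
              have h5 := hπ e
              rw [tri_0 a1 a2 a3, hb e (fun hh => hh.1 hm)] at h5
              rw [if_pos hm, if_pos hm', ← h5]
              ring
            · have hm' := fun hh => hm ((h.cut e a1 a2 a3).2 hh)
              rw [if_neg hm, if_neg hm', ha e (fun hh => hm hh.1)]
              ring
    have hs' : ∑ e, a e • u e = -(π (hd e1) • p + π (hd e2) • q + π (hd e3) • -(p + q)) := by
      have e1' : ∑ e, (a e + tri e1 e2 e3 (π (hd e1)) (π (hd e2)) (π (hd e3)) e) • u e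
          = ∑ e, a e • u e + ∑ e, tri e1 e2 e3 (π (hd e1)) (π (hd e2)) (π (hd e3)) e • u e := by
        rw [← Finset.sum_add_distrib]
        exact Finset.sum_congr rfl fun e _ => add_smul _ _ _
      rw [e1', tri_sum u h12 h13 h23, h.u1, h.u2, h.u3] at hs
      exact eq_neg_of_add_eq_zero_left hs
    have hp : p ∈ span ℚ ({p, q} : Set V) := subset_span (by simp)
    have hq : q ∈ span ℚ ({p, q} : Set V) := subset_span (by simp)
    rw [← hyz, hs']
    exact add_mem (neg_mem (add_mem (add_mem (smul_mem _ _ hp) (smul_mem _ _ hq))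
      (smul_mem _ _ (neg_mem (add_mem hp hq))))) hz
  · exact le_inf (span_mono Set.subset_union_right) (span_mono Set.subset_union_right)

end RC.Str

end

section

/-!
Module RC-K4.  A bad system is not cographic.

Let the dependencies of `v` on `E` be the potential differences of the graph with vertex set `W`
and edges `hd e, tl e` (`e ∈ E`).  For `w ∈ W` let `S w ⊆ E` be the set of `e` with exactly one of
`hd e = w`, `tl e = w`.  The potential `π = single w 1` gives a dependency with support exactly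
`S w`; so `S w` is dependent if it is nonempty.  Let `U` = set of `w` with `S w ≠ ∅`.
(1) `|U| ≥ 2 h + 1`: the space of dependencies has dimension `|E| - rk v E = (4 h - 1) - (2 h - 1)`
    `= 2 h`; it is the image of `W → ℚ` under `π ↦ dπ`.  For `w ∉ U`, `d (single w 1) = 0`, and
    `∑_{w ∈ U} d (single w 1) = d 1 = 0`; so the dimension is at most `|U| - 1` (`U` nonempty,
    since `h ≥ 1`).
(2) `∑_{w ∈ U} |S w| ≤ 2 |E| = 8 h - 2`.
(3) `|S w| ≥ 3` for `w ∈ U`: otherwise a nontrivial relation between at most two elements,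
    contradiction to `Bad.par'` and `Sys.ne`; `2 ≤ h` is `Bad.two_le`.
(4) If `S w` (`w ∈ U`) contains no two elements of the same colour, it is a rainbow dependent set,
    so `|S w| ≥ h + 1` (`Bad.short`).
(5) A colour `{x, y}` is contained in at most one `S w`: if `x, y ∈ S w ∩ S w'`, `w ≠ w'`, then
    both `x` and `y` join `w` and `w'`, so every dependency has `a x = ± a y` with a fixed sign;
    hence `x ∉ span` of `E \ {x, y}` and `rk v (E \ {x, y}) + 1 ≤ rk v E` (a relation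
    expressing `x` by `E \ {x, y}` would be a dependency with `a x ≠ 0`, `a y = 0`), so
    `RC.coc_notin` with `D = {x, y}` (`e0 ∉ D`: colours of size two) gives `4 ≤ 2`.
(6) So at most `2 h - 1` of the sets `S w`, `w ∈ U`, contain a complete colour of size two, at
    least two do not.
    `8 h - 2 ≥ ∑ |S w| ≥ 3 (|U| - 2) + 2 (h + 1) ≥ 3 (2 h - 1) + 2 h + 2 = 8 h - 1`,
    contradiction.
-/

namespace RC.Base

open Submodule Module

variable {ι κ V : Type} [AddCommGroup V] [Module ℚ V]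

namespace Cog

open Classical in
/-- incidence coefficient -/
noncomputable def sg {W : Type} (hd tl : ι → W) (w : W) (e : ι) : ℚ :=
  (if hd e = w then 1 else 0) - (if tl e = w then 1 else 0)

open Classical in
/-- the star of a vertex -/
noncomputable def St {W : Type} (hd tl : ι → W) (E : Finset ι) (w : W) : Finset ι :=
  E.filter (fun e => sg hd tl w e ≠ 0)

theorem sg_ne {W : Type} {hd tl : ι → W} {w : W} {e : ι} (h : sg hd tl w e ≠ 0) :
    (hd e = w ∧ tl e ≠ w) ∨ (hd e ≠ w ∧ tl e = w) := by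
  classical
  unfold sg at h
  by_cases h1 : hd e = w
  · by_cases h2 : tl e = w
    · exfalso
      apply h
      rw [if_pos h1, if_pos h2, sub_self]
    · exact Or.inl ⟨h1, h2⟩
  · by_cases h2 : tl e = w
    · exact Or.inr ⟨h1, h2⟩
    · exfalso
      apply h
      rw [if_neg h1, if_neg h2, sub_self]

theorem sg_dep {v : ι → V} {E : Finset ι} {W : Type} {hd tl : ι → W}
    (dep : ∀ a : ι → ℚ, ∑ e ∈ E, a e • v e = 0 ↔
      ∃ π : W → ℚ, ∀ e ∈ E, a e = π (hd e) - π (tl e)) (w : W) :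
    ∑ e ∈ E, sg hd tl w e • v e = 0 := by
  classical
  rw [dep]
  exact ⟨fun x => if x = w then 1 else 0, fun e _ => rfl⟩

theorem star_dep {v : ι → V} {E : Finset ι} {W : Type} {hd tl : ι → W}
    (dep : ∀ a : ι → ℚ, ∑ e ∈ E, a e • v e = 0 ↔
      ∃ π : W → ℚ, ∀ e ∈ E, a e = π (hd e) - π (tl e)) (w : W)
    (hne : (St hd tl E w).Nonempty) : ¬ LinearIndepOn ℚ v (St hd tl E w : Set ι) := by
  classical
  intro hli
  have h1 : ∑ e ∈ St hd tl E w, sg hd tl w e • v e = 0 := by
    rw [← sg_dep dep w]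
    unfold St
    rw [Finset.sum_filter]
    refine Finset.sum_congr rfl fun e _ => ?_
    split_ifs with h
    · rfl
    · rw [not_not] at h
      rw [h, zero_smul]
  obtain ⟨e, he⟩ := hne
  have h2 := linearIndepOn_finset_iff.1 hli _ h1 e he
  unfold St at he
  rw [Finset.mem_filter] at he
  exact he.2 h2

/-- the number of vertices with nonempty star -/
theorem card_vertices {v : ι → V} {E : Finset ι} {W : Type} [Fintype W] {hd tl : ι → W}
    (dep : ∀ a : ι → ℚ, ∑ e ∈ E, a e • v e = 0 ↔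
      ∃ π : W → ℚ, ∀ e ∈ E, a e = π (hd e) - π (tl e)) (U : Finset W)
    (hU : ∀ w, w ∈ U ↔ (St hd tl E w).Nonempty) (hlt : rk v E < E.card) :
    E.card + 1 ≤ rk v E + U.card := by
  classical
  set Φ : (E → ℚ) →ₗ[ℚ] V := Fintype.linearCombination ℚ (fun e : E => v e) with hΦ
  set δ : (W → ℚ) →ₗ[ℚ] (E → ℚ) :=
    LinearMap.pi (fun e : E => (LinearMap.proj (hd e) : (W → ℚ) →ₗ[ℚ] ℚ) -
      LinearMap.proj (tl e)) with hδ
  have hδa : ∀ π (e : E), δ π e = π (hd e) - π (tl e) := fun π e => rfl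
  have hr : finrank ℚ (LinearMap.range Φ) = rk v E := by
    unfold rk
    rw [hΦ, Fintype.range_linearCombination]
    have : Set.range (fun e : E => v e) = v '' (E : Set ι) := by
      ext x
      simp
    rw [this]
  have hk : LinearMap.ker Φ = LinearMap.range δ := by
    ext a
    rw [LinearMap.mem_ker, LinearMap.mem_range]
    have h1 : Φ a = ∑ e ∈ E, (if h : e ∈ E then a ⟨e, h⟩ else 0) • v e := by
      rw [hΦ, Fintype.linearCombination_apply, ← Finset.sum_coe_sort E]
      refine Finset.sum_congr rfl fun e _ => ?_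
      rw [dif_pos e.2]
    rw [h1, dep]
    constructor
    · rintro ⟨π, hπ⟩
      refine ⟨π, ?_⟩
      ext e
      rw [hδa, ← hπ e e.2, dif_pos e.2]
    · rintro ⟨π, hπ⟩
      refine ⟨π, fun e he => ?_⟩
      rw [dif_pos he, ← hπ, hδa]
  have hrn := LinearMap.finrank_range_add_finrank_ker Φ
  rw [hr, hk, Module.finrank_fintype_fun_eq_card, Fintype.card_coe] at hrn
  -- the range of `δ`
  set b : W → (E → ℚ) := fun w => fun e => sg hd tl w e with hb
  have hb0 : ∀ w, w ∉ U → b w = 0 := by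
    intro w hw
    rw [hU, Finset.not_nonempty_iff_eq_empty] at hw
    ext e
    by_contra h
    have : (e : ι) ∈ St hd tl E w := by
      unfold St
      rw [Finset.mem_filter]
      exact ⟨e.2, h⟩
    rw [hw] at this
    simp at this
  have hδb : ∀ π, δ π = ∑ w, π w • b w := by
    intro π
    ext e
    rw [hδa, Finset.sum_apply]
    simp only [hb, Pi.smul_apply, smul_eq_mul]
    unfold sg
    simp [mul_sub, Finset.sum_sub_distrib]
  have hbs : ∑ w, b w = 0 := by
    have h1 := hδb (fun _ => 1)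
    simp only [one_smul] at h1
    rw [← h1]
    ext e
    rw [hδa]
    simp
  have hUne : U.Nonempty := by
    rw [Finset.nonempty_iff_ne_empty]
    intro h
    have : LinearMap.range δ = ⊥ := by
      rw [eq_bot_iff]
      rintro _ ⟨π, rfl⟩
      rw [hδb, Submodule.mem_bot]
      refine Finset.sum_eq_zero fun w _ => ?_
      rw [hb0 w (by rw [h]; simp), smul_zero]
    rw [this, finrank_bot] at hrn
    omega
  obtain ⟨w0, hw0⟩ := hUne
  have hle : LinearMap.range δ ≤ span ℚ (((U.erase w0).image b : Finset (E → ℚ)) :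
      Set (E → ℚ)) := by
    rintro _ ⟨π, rfl⟩
    have h1 : δ π = ∑ w, (π w - π w0) • b w := by
      simp only [sub_smul, Finset.sum_sub_distrib]
      rw [← Finset.smul_sum, hbs, smul_zero, sub_zero, hδb]
    rw [h1]
    refine Submodule.sum_mem _ fun w _ => ?_
    by_cases hw : w = w0
    · rw [hw, sub_self, zero_smul]
      exact zero_mem _
    · by_cases hwU : w ∈ U
      · refine Submodule.smul_mem _ _ (subset_span ?_)
        rw [Finset.coe_image]
        exact ⟨w, by simp [hw, hwU], rfl⟩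
      · rw [hb0 w hwU, smul_zero]
        exact zero_mem _
  have h2 : finrank ℚ (LinearMap.range δ) ≤ U.card - 1 := by
    refine (Submodule.finrank_mono hle).trans ((finrank_span_finset_le_card _).trans ?_)
    refine Finset.card_image_le.trans ?_
    rw [Finset.card_erase_of_mem hw0]
  have h3 : 0 < U.card := Finset.card_pos.2 ⟨w0, hw0⟩
  (clear * - hr hrn h2 h3; omega)

end Cog

theorem bad_not_cographic {C : ClsT} (hC : Cls C) {h : ℕ} {v : ι → V} {c : ι → κ}
    {E : Finset ι} {e0 : ι} (hb : Bad C h v c E e0) (W : Type) [Fintype W] (hd tl : ι → W)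
    (dep : ∀ a : ι → ℚ, ∑ e ∈ E, a e • v e = 0 ↔
      ∃ π : W → ℚ, ∀ e ∈ E, a e = π (hd e) - π (tl e)) : False := by
  classical
  have hh := hb.two_le
  have hcard := hb.card
  have hrank := hb.rank
  set U : Finset W := Finset.univ.filter (fun w => (Cog.St hd tl E w).Nonempty) with hUdef
  have hU : ∀ w, w ∈ U ↔ (Cog.St hd tl E w).Nonempty := by
    intro w
    rw [hUdef, Finset.mem_filter]
    simp
  have h1 := Cog.card_vertices dep U hU (by omega)
  have hSE : ∀ w, Cog.St hd tl E w ⊆ E := fun w => Finset.filter_subset _ _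
  -- (3)
  have h3 : ∀ w ∈ U, 3 ≤ (Cog.St hd tl E w).card := by
    intro w hw
    have hne := (hU w).1 hw
    have hdep := Cog.star_dep dep w hne
    by_contra hlt
    have hc : (Cog.St hd tl E w).card = 1 ∨ (Cog.St hd tl E w).card = 2 := by
      have := Finset.card_pos.2 hne
      (clear * - h v hlt this; omega)
    apply hdep
    rcases hc with hc | hc
    · obtain ⟨e, he⟩ := Finset.card_eq_one.1 hc
      have heE : e ∈ E := hSE w (by rw [he]; simp)
      rw [he, Finset.coe_singleton]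
      exact LinearIndepOn.singleton (hb.sys.ne e heE)
    · obtain ⟨e, e', hee, he⟩ := Finset.card_eq_two.1 hc
      have heE : e ∈ E := hSE w (by rw [he]; simp)
      have heE' : e' ∈ E := hSE w (by rw [he]; simp)
      have hli := hb.par' heE heE' hee
      rw [he, Finset.coe_insert, Finset.coe_singleton,
        linearIndepOn_pair_iff v hee (hb.sys.ne e heE)]
      rw [LinearIndependent.pair_iff' (hb.sys.ne e heE)] at hli
      exact hli
  -- (2)
  have h2 : ∑ w ∈ U, (Cog.St hd tl E w).card ≤ 2 * E.card := by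
    calc ∑ w ∈ U, (Cog.St hd tl E w).card ≤ ∑ w, (Cog.St hd tl E w).card :=
          Finset.sum_le_sum_of_subset (Finset.subset_univ _)
      _ = ∑ w, ∑ e ∈ E, (if Cog.sg hd tl w e ≠ 0 then 1 else 0) := by
          refine Finset.sum_congr rfl fun w _ => ?_
          unfold Cog.St
          rw [Finset.card_filter]
      _ = ∑ e ∈ E, ∑ w, (if Cog.sg hd tl w e ≠ 0 then 1 else 0) := Finset.sum_comm
      _ ≤ ∑ e ∈ E, 2 := by
          refine Finset.sum_le_sum fun e _ => ?_
          rw [← Finset.card_filter]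
          have hs : Finset.univ.filter (fun w => Cog.sg hd tl w e ≠ 0) ⊆ {hd e, tl e} := by
            intro w hw
            rw [Finset.mem_filter] at hw
            rw [Finset.mem_insert, Finset.mem_singleton]
            rcases Cog.sg_ne hw.2 with ⟨h, _⟩ | ⟨_, h⟩
            · exact Or.inl h.symm
            · exact Or.inr h.symm
          exact (Finset.card_le_card hs).trans Finset.card_le_two
      _ = 2 * E.card := by rw [Finset.sum_const, smul_eq_mul, mul_comm]
  -- (5)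
  have h5 : ∀ w w', w ≠ w' → ∀ x y, x ≠ y → c x = c y → x ∈ Cog.St hd tl E w →
      y ∈ Cog.St hd tl E w → x ∈ Cog.St hd tl E w' → y ∈ Cog.St hd tl E w' → False := by
    intro w w' hww x y hxy hcxy hx hy hx' hy'
    have hxE := hSE w hx
    have hyE := hSE w hy
    have hends : ∀ z, z ∈ Cog.St hd tl E w → z ∈ Cog.St hd tl E w' →
        (hd z = w ∧ tl z = w') ∨ (hd z = w' ∧ tl z = w) := by
      intro z hz hz'
      unfold Cog.St at hz hz'
      rw [Finset.mem_filter] at hz hz'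
      rcases Cog.sg_ne hz.2 with ⟨a1, a2⟩ | ⟨a1, a2⟩ <;>
        rcases Cog.sg_ne hz'.2 with ⟨b1, b2⟩ | ⟨b1, b2⟩
      · exact absurd (a1.symm.trans b1) hww
      · exact Or.inl ⟨a1, b2⟩
      · exact Or.inr ⟨b1, a2⟩
      · exact absurd (a2.symm.trans b2) hww
    have hsign : ∃ s : ℚ, ∀ π : W → ℚ, π (hd x) - π (tl x) = s * (π (hd y) - π (tl y)) := by
      rcases hends x hx hx' with ⟨a1, a2⟩ | ⟨a1, a2⟩ <;>
        rcases hends y hy hy' with ⟨b1, b2⟩ | ⟨b1, b2⟩
      · exact ⟨1, fun π => by rw [a1, a2, b1, b2]; ring⟩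
      · exact ⟨-1, fun π => by rw [a1, a2, b1, b2]; ring⟩
      · exact ⟨-1, fun π => by rw [a1, a2, b1, b2]; ring⟩
      · exact ⟨1, fun π => by rw [a1, a2, b1, b2]; ring⟩
    obtain ⟨s, hs⟩ := hsign
    have hD : ({x, y} : Finset ι) ⊆ E := by
      intro z hz
      rw [Finset.mem_insert, Finset.mem_singleton] at hz
      rcases hz with rfl | rfl <;> assumption
    have he0 : e0 ∉ ({x, y} : Finset ι) := by
      rw [Finset.mem_insert, Finset.mem_singleton]
      rintro (h | h)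
      · subst h
        exact hxy (hb.single y hyE hcxy.symm).symm
      · subst h
        exact hxy (hb.single x hxE hcxy)
    have hrk : rk v (E \ {x, y}) + 2 ≤ 2 * h := by
      by_contra hcon
      have hfin : FiniteDimensional ℚ (span ℚ (v '' (E : Set ι))) :=
        FiniteDimensional.span_of_finite ℚ ((Finset.finite_toSet E).image v)
      have hle : span ℚ (v '' ((E \ {x, y} : Finset ι) : Set ι)) ≤ span ℚ (v '' (E : Set ι)) := by
        apply span_mono
        apply Set.image_mono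
        rw [Finset.coe_subset]
        exact Finset.sdiff_subset
      have heq : span ℚ (v '' ((E \ {x, y} : Finset ι) : Set ι)) = span ℚ (v '' (E : Set ι)) := by
        apply Submodule.eq_of_le_of_finrank_le hle
        unfold rk at hcon hrank
        omega
      have hvx : v x ∈ span ℚ (v '' ((E \ {x, y} : Finset ι) : Set ι)) := by
        rw [heq]
        exact subset_span ⟨x, hxE, rfl⟩
      rw [Submodule.mem_span_image_finset_iff_exists_fun] at hvx
      obtain ⟨b₀, hbv⟩ := hvx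
      set b : ι → ℚ := fun z => if hz : z ∈ E \ {x, y} then b₀ ⟨z, hz⟩ else 0 with hbdef
      have hbv : ∑ z ∈ E \ {x, y}, b z • v z = v x := by
        rw [← hbv, ← Finset.sum_coe_sort (E \ {x, y})]
        refine Finset.sum_congr rfl fun z _ => ?_
        rw [hbdef]
        simp only [dif_pos z.2]
      have hsum : ∑ e ∈ E, (if e = x then 1 else if e = y then 0 else - b e : ℚ) • v e = 0 := by
        have hE : E = insert x (insert y (E \ {x, y})) := by
          ext z
          simp only [Finset.mem_insert, Finset.mem_sdiff, Finset.mem_singleton, not_or]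
          constructor
          · intro hz
            by_cases h1 : z = x
            · exact Or.inl h1
            · by_cases h2 : z = y
              · exact Or.inr (Or.inl h2)
              · exact Or.inr (Or.inr ⟨hz, h1, h2⟩)
          · rintro (rfl | rfl | ⟨hz, _⟩)
            · exact hxE
            · exact hyE
            · exact hz
        rw [hE, Finset.sum_insert, Finset.sum_insert]
        · rw [if_pos rfl, if_neg hxy.symm, if_pos rfl, one_smul, zero_smul, zero_add, ← hbv,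
            ← Finset.sum_add_distrib]
          refine Finset.sum_eq_zero fun e he => ?_
          rw [Finset.mem_sdiff, Finset.mem_insert, Finset.mem_singleton, not_or] at he
          rw [if_neg he.2.1, if_neg he.2.2, neg_smul, add_neg_cancel]
        · simp
        · simp [hxy]
      rw [dep] at hsum
      obtain ⟨π, hπ⟩ := hsum
      have hπx := hπ x hxE
      have hπy := hπ y hyE
      rw [if_pos rfl] at hπx
      rw [if_neg hxy.symm, if_pos rfl] at hπy
      rw [hs π, ← hπy, mul_zero] at hπx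
      exact one_ne_zero hπx
    have h4 := coc_notin hC hb hD he0 hrk
    have h5 : ({x, y} : Finset ι).card ≤ 2 := Finset.card_le_two
    omega
  -- (6)
  set P : Finset W := U.filter (fun w => ¬ Set.InjOn c (Cog.St hd tl E w : Set ι)) with hPdef
  have hPx : ∀ w ∈ P, ∃ x y, x ≠ y ∧ c x = c y ∧ x ∈ Cog.St hd tl E w ∧
      y ∈ Cog.St hd tl E w := by
    intro w hw
    rw [hPdef, Finset.mem_filter] at hw
    obtain ⟨_, hw⟩ := hw
    unfold Set.InjOn at hw
    push Not at hw
    obtain ⟨x, hx, y, hy, hcxy, hxy⟩ := hw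
    exact ⟨x, y, hxy, hcxy, hx, hy⟩
  have hP : P.card + 1 ≤ 2 * h := by
    have hcol : ∀ w ∈ P, ∃ k, k ∈ (E.image c).erase (c e0) ∧
        ∃ x y, x ≠ y ∧ c x = k ∧ c y = k ∧ x ∈ Cog.St hd tl E w ∧ y ∈ Cog.St hd tl E w := by
      intro w hw
      obtain ⟨x, y, hxy, hcxy, hx, hy⟩ := hPx w hw
      refine ⟨c x, ?_, x, y, hxy, rfl, hcxy.symm, hx, hy⟩
      rw [Finset.mem_erase]
      refine ⟨?_, Finset.mem_image_of_mem c (hSE w hx)⟩
      intro h
      apply hxy
      rw [hb.single x (hSE w hx) h, hb.single y (hSE w hy) (hcxy.symm.trans h)]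
    have : Nonempty κ := ⟨c e0⟩
    choose! k hk hk' using hcol
    have hinj : Set.InjOn k (P : Set W) := by
      intro w hw w' hw' hkk
      by_contra hww
      obtain ⟨x, y, hxy, hcx, hcy, hx, hy⟩ := hk' w hw
      obtain ⟨x', y', hxy', hcx', hcy', hx', hy'⟩ := hk' w' hw'
      -- the colour class has two elements
      have hxx : ∀ z, z = x ∨ z = y → z ∈ Cog.St hd tl E w' := by
        intro z hz
        have hzE : z ∈ E := by
          rcases hz with rfl | rfl
          · exact hSE w hx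
          · exact hSE w hy
        have hcz : c z = k w := by
          rcases hz with rfl | rfl <;> assumption
        rcases hb.sys.two z hzE x' (hSE w' hx') y' (hSE w' hy')
          (by rw [hcz, hcx', hkk]) (by rw [hcz, hcy', hkk]) with h | h | h
        · rw [h]; exact hx'
        · rw [h]; exact hy'
        · exact absurd h hxy'
      exact h5 w w' hww x y hxy (hcx.trans hcy.symm) hx hy (hxx x (Or.inl rfl))
        (hxx y (Or.inr rfl))
    have h7 : P.card ≤ ((E.image c).erase (c e0)).card :=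
      Finset.card_le_card_of_injOn k (fun w hw => hk w hw) hinj
    rw [Finset.card_erase_of_mem (Finset.mem_image_of_mem c hb.mem0)] at h7
    have h8 : (E.image c).card = 2 * h := by
      have := hb.nc_eq
      unfold nc at this
      convert this
    omega
  have hPU : P ⊆ U := Finset.filter_subset _ _
  have hQ : ∀ w ∈ U \ P, h + 1 ≤ (Cog.St hd tl E w).card := by
    intro w hw
    rw [Finset.mem_sdiff] at hw
    obtain ⟨hwU, hwP⟩ := hw
    have hinj : Set.InjOn c (Cog.St hd tl E w : Set ι) := by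
      by_contra hni
      apply hwP
      rw [hPdef]
      exact Finset.mem_filter.2 ⟨hwU, hni⟩
    by_contra hlt
    apply hb.short
    exact ⟨Cog.St hd tl E w, hSE w, by omega, hinj,
      Cog.star_dep dep w ((hU w).1 hwU)⟩
  have hsum : 3 * P.card + (h + 1) * (U \ P).card ≤ 2 * E.card := by
    refine le_trans ?_ h2
    rw [← Finset.sum_sdiff hPU, add_comm]
    refine add_le_add ?_ ?_
    · calc (h + 1) * (U \ P).card = ∑ _w ∈ U \ P, (h + 1) := by
            rw [Finset.sum_const, smul_eq_mul, mul_comm]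
        _ ≤ _ := Finset.sum_le_sum hQ
    · calc 3 * P.card = ∑ _w ∈ P, 3 := by rw [Finset.sum_const, smul_eq_mul, mul_comm]
        _ ≤ _ := Finset.sum_le_sum fun w hw => h3 w (hPU hw)
  have hUP : (U \ P).card + P.card = U.card := Finset.card_sdiff_add_card_eq_card hPU
  obtain ⟨p', hp'⟩ : ∃ p', 2 * h = P.card + 1 + p' := ⟨2 * h - (P.card + 1), by omega⟩
  obtain ⟨x, hx⟩ : ∃ x, (U \ P).card = 2 + p' + x := ⟨(U \ P).card - (2 + p'), by omega⟩
  obtain ⟨h', hh'⟩ : ∃ h', h = h' + 2 := ⟨h - 2, by omega⟩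
  have h9 : (h + 1) * (U \ P).card = (h + 1) * 2 + 3 * p' + h' * p' + (h + 1) * x := by
    rw [hx, hh']; ring
  have h10 : 0 ≤ h' * p' := Nat.zero_le _
  have h11 : 0 ≤ (h + 1) * x := Nat.zero_le _
  omega

end RC.Base

end

section

/-!
Module RC-P5.  Cographic sets, first part.

`nb0_cographic`: let `v, E0` be a bad system dominated by `Set.range u`.  For `i ∈ E0`:
`v i ≠ 0`, so there are `f i : E` and a sign `s i = 1` or `-1` with `v i = s i • u (f i)`.  `f` is
injective on `E0`: `f i = f j`, `i ≠ j` would make `v i` and `v j` proportional, against `Bad.par'`.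
Let `P e := e ∈ f '' E0`.  By `cographic_restrict` there is a graph `W₁, hd₁, tl₁` for the
restriction of `u` to `{e // P e}`.  `f` induces a bijection `E0 ≃ {e // P e}`.  For `a : ι → ℚ`,
`∑ i ∈ E0, a i • v i = ∑ e : {e // P e}, b e • u e` with `b (f i) = s i * a i`.  So it vanishes
iff there is `π` with `s i * a i = π (hd₁ (f i)) - π (tl₁ (f i))` for `i ∈ E0`.  Put
`hd' i = hd₁ (f i)`, `tl' i = tl₁ (f i)` if `s i = 1` and exchange them if `s i = -1` (for
`i ∉ E0` take any element of `W₁`, which is nonempty since `e0 ∈ E0`); apply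
`RC.Base.bad_not_cographic`.
-/

namespace RC.Str

open Submodule Module

theorem nb0_cographic (hC : Cls DecC) {V E W : Type} [AddCommGroup V] [Module ℚ V] [Fintype E]
    [Fintype W] (u : E → V) (hd tl : E → W)
    (dep : ∀ a : E → ℚ, ∑ e, a e • u e = 0 ↔ ∃ π : W → ℚ, ∀ e, a e = π (hd e) - π (tl e)) :
    NB0 (Set.range u) := by
  classical
  intro h ι κ v c E0 e0 hb hdom
  have hex : ∀ i ∈ E0, ∃ (e : E) (s : ℚ), (s = 1 ∨ s = -1) ∧ v i = s • u e := by
    intro i hi
    rcases hdom (v i) ⟨i, hi, rfl⟩ with h0 | ⟨e, he⟩ | ⟨e, he⟩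
    · exact absurd h0 (hb.sys.ne i hi)
    · exact ⟨e, 1, Or.inl rfl, by rw [one_smul, he]⟩
    · exact ⟨e, -1, Or.inr rfl, by rw [he, neg_smul, one_smul, neg_neg]⟩
  have hE : Nonempty E := by
    obtain ⟨e, -⟩ := hex e0 hb.mem0
    exact ⟨e⟩
  choose! f s hs hv using hex
  have hinj : ∀ i ∈ E0, ∀ j ∈ E0, f i = f j → i = j := by
    intro i hi j hj hij
    by_contra hne
    have hli := hb.par' hi hj hne
    rw [LinearIndependent.pair_iff] at hli
    have h1 : s j • v i + (- s i) • v j = 0 := by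
      rw [hv i hi, hv j hj, hij, smul_smul, smul_smul, ← add_smul]
      have h2 : s j * s i + -s i * s j = 0 := by ring
      rw [h2, zero_smul]
    have h3 := (hli _ _ h1).1
    rcases hs j hj with h4 | h4 <;> rw [h4] at h3 <;> norm_num at h3
  set P : E → Prop := fun e => ∃ i ∈ E0, f i = e with hP
  obtain ⟨W₁, hW₁, hd₁, tl₁, dep₁⟩ := cographic_restrict E W u hd tl dep P
  have hg : ∀ e : {e : E // P e}, ∃ i ∈ E0, f i = e.1 := fun e => e.2
  choose g hgE hgf using hg
  have hgi : ∀ i (hi : i ∈ E0), g ⟨f i, i, hi, rfl⟩ = i := fun i hi =>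
    hinj _ (hgE _) i hi (hgf ⟨f i, i, hi, rfl⟩)
  have hsum : ∀ a : ι → ℚ, ∑ i ∈ E0, a i • v i =
      ∑ e : {e : E // P e}, (s (g e) * a (g e)) • u e.1 := by
    intro a
    refine Finset.sum_bij (fun i hi => (⟨f i, i, hi, rfl⟩ : {e : E // P e})) (fun i hi =>
      Finset.mem_univ _) (fun i hi j hj hij => hinj i hi j hj (congrArg Subtype.val hij)) ?_ ?_
    · rintro ⟨e, i, hi, hie⟩ -
      exact ⟨i, hi, Subtype.ext hie⟩
    · intro i hi
      rw [hgi i hi, mul_comm, mul_smul]
      change a i • v i = a i • s i • u (f i)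
      rw [← hv i hi]
  set hd' : ι → W₁ := fun i => if hi : i ∈ E0 then
    (if s i = 1 then hd₁ ⟨f i, i, hi, rfl⟩ else tl₁ ⟨f i, i, hi, rfl⟩)
    else hd₁ ⟨f e0, e0, hb.mem0, rfl⟩ with hhd'
  set tl' : ι → W₁ := fun i => if hi : i ∈ E0 then
    (if s i = 1 then tl₁ ⟨f i, i, hi, rfl⟩ else hd₁ ⟨f i, i, hi, rfl⟩)
    else hd₁ ⟨f e0, e0, hb.mem0, rfl⟩ with htl'
  have hkey : ∀ (π : W₁ → ℚ) (i : ι) (hi : i ∈ E0), π (hd' i) - π (tl' i) =
      s i * (π (hd₁ ⟨f i, i, hi, rfl⟩) - π (tl₁ ⟨f i, i, hi, rfl⟩)) := by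
    intro π i hi
    rw [hhd', htl']
    simp only [dif_pos hi]
    rcases hs i hi with h1 | h1
    · rw [if_pos h1, if_pos h1, h1, one_mul]
    · have h2 : ¬ s i = 1 := by rw [h1]; norm_num
      rw [if_neg h2, if_neg h2, h1]
      ring
  have hss : ∀ i ∈ E0, s i * s i = 1 := by
    intro i hi
    rcases hs i hi with h1 | h1 <;> rw [h1] <;> norm_num
  refine RC.Base.bad_not_cographic hC hb W₁ hd' tl' fun a => ?_
  rw [hsum a, dep₁ (fun e => s (g e) * a (g e))]
  constructor
  · rintro ⟨π, hπ⟩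
    refine ⟨π, fun i hi => ?_⟩
    have h1 := hπ ⟨f i, i, hi, rfl⟩
    rw [hgi i hi] at h1
    rw [hkey π i hi, ← h1, ← mul_assoc, hss i hi, one_mul]
  · rintro ⟨π, hπ⟩
    refine ⟨π, ?_⟩
    rintro ⟨e, i, hi, rfl⟩
    rw [hgi i hi, hπ i hi, hkey π i hi, ← mul_assoc, hss i hi, one_mul]

end RC.Str

end

section

/-!
Module RC-P7.  Replacing one side of a three-edge cut by a triangle.

Let `K = {e // ¬ (hd e ∈ X ∧ tl e ∈ X)}` (the edges `e1, e2, e3` and the edges outside `X`).

`cog_const`: let `π` be a potential with `π (hd e) = π (tl e)` for all `e` with both ends in `X`.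
Then `π (hd e1) = π (hd e2) = π (hd e3)`.  Proof: let `π' = π` on `X` and `π' = 0` outside `X`;
its difference is `0` at all edges except `e1, e2, e3`, where it is `π (hd e)`.  So
`π (hd e1) • p + π (hd e2) • q - π (hd e3) • (p + q) = 0`, and `p, q` are independent.

`cog_claw`: the family `K ⊕ Fin 3 → V × ℚ` given by `e ↦ (u e, 0)`, `0 ↦ (0, 1)`,
`1 ↦ (p, 1)`, `2 ↦ (-q, 1)` is cographic with the graph with vertex set
`{w // w ∉ X} ⊕ Fin 3`: an edge outside `X` keeps its ends; `e1, e2, e3` have the heads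
`inr 0, inr 1, inr 2` and their old tails; the three new edges are (hd, tl):
`0 : (inr 0, inr 1)`, `1 : (inr 2, inr 0)`, `2 : (inr 1, inr 2)`.
Proof: let `a : K → ℚ`, `α : Fin 3 → ℚ`.  `∑ a e • (u e, 0) + α 0 • (0,1) + α 1 • (p,1)`
`+ α 2 • (-q,1) = 0` iff `α 0 + α 1 + α 2 = 0` and `∑ a e • u e + α 1 • p - α 2 • q = 0` iff
`α 0 + α 1 + α 2 = 0` and there is `π : W → ℚ` with `0 = π (hd e) - π (tl e)` inside `X`,
`a e = π (hd e) - π (tl e)` for `e` outside `X`, `a e1 + α 1 = π (hd e1) - π (tl e1)`,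
`a e2 - α 2 = π (hd e2) - π (tl e2)`, `a e3 = π (hd e3) - π (tl e3)`.
Given such `π`, let `s` be the common value of `π (hd ei)` (`cog_const`) and put
`ρ = π` on `{w // w ∉ X}`, `ρ (inr 0) = s - α 1`, `ρ (inr 1) = s + α 2`, `ρ (inr 2) = s`:
`ρ (inr 0) - π (tl e1) = a e1`, `ρ (inr 1) - π (tl e2) = a e2`, `ρ (inr 2) - π (tl e3) = a e3`,
`ρ (inr 0) - ρ (inr 1) = - α 1 - α 2 = α 0`, `ρ (inr 2) - ρ (inr 0) = α 1`,
`ρ (inr 1) - ρ (inr 2) = α 2`.
Conversely, given `ρ`, put `π = ρ` outside `X` and `π = ρ (inr 2)` on `X`.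

`nb0_cog_claw`: `nb0_cographic` for the family of `cog_claw` and `nb0_dom`.
-/

namespace RC.Str

open Submodule Module

variable {V E W : Type} [AddCommGroup V] [Module ℚ V] [Fintype E] [Fintype W]

private theorem cog_ne {u : E → V} {hd tl : E → W} {X : Set W} {p q : V} {e1 e2 e3 : E}
    (h : CogCut u hd tl X p q e1 e2 e3) : e1 ≠ e2 ∧ e1 ≠ e3 ∧ e2 ≠ e3 := by
  have hli := LinearIndependent.pair_iff.1 h.li
  refine ⟨?_, ?_, ?_⟩
  · intro he
    have h1 : p = q := by rw [← h.u1, ← h.u2, he]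
    have h2 := hli 1 (-1) (by rw [h1]; module)
    exact one_ne_zero h2.1
  · intro he
    have h1 : p = -(p + q) := by rw [← h.u3, ← he, h.u1]
    have h2 := hli 2 1 (by
      have h3 : p + (p + q) = 0 := by nth_rewrite 1 [h1]; exact neg_add_cancel _
      rw [← h3]; module)
    exact one_ne_zero h2.2
  · intro he
    have h1 : q = -(p + q) := by rw [← h.u3, ← he, h.u2]
    have h2 := hli 1 2 (by
      have h3 : q + (p + q) = 0 := by nth_rewrite 1 [h1]; exact neg_add_cancel _
      rw [← h3]; module)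
    exact one_ne_zero h2.1

private theorem sum_three {u : E → V} {a : E → ℚ} {e1 e2 e3 : E} (h12 : e1 ≠ e2) (h13 : e1 ≠ e3)
    (h23 : e2 ≠ e3) (h0 : ∀ e, e ≠ e1 → e ≠ e2 → e ≠ e3 → a e = 0) :
    ∑ e, a e • u e = a e1 • u e1 + a e2 • u e2 + a e3 • u e3 := by
  classical
  have h1 : ∑ e, a e • u e = ∑ e ∈ ({e1, e2, e3} : Finset E), a e • u e := by
    symm
    apply Finset.sum_subset (Finset.subset_univ _)
    intro e _ he
    simp only [Finset.mem_insert, Finset.mem_singleton, not_or] at he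
    rw [h0 e he.1 he.2.1 he.2.2, zero_smul]
  rw [h1, Finset.sum_insert (by simp [h12, h13]), Finset.sum_insert (by simp [h23]),
    Finset.sum_singleton, add_assoc]

theorem cog_const {u : E → V} {hd tl : E → W} {X : Set W} {p q : V} {e1 e2 e3 : E}
    (h : CogCut u hd tl X p q e1 e2 e3) (π : W → ℚ)
    (hπ : ∀ e, hd e ∈ X → tl e ∈ X → π (hd e) = π (tl e)) :
    π (hd e1) = π (hd e3) ∧ π (hd e2) = π (hd e3) := by
  classical
  obtain ⟨h12, h13, h23⟩ := cog_ne h
  set π' : W → ℚ := fun w => if w ∈ X then π w else 0 with hπ'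
  set a : E → ℚ := fun e => π' (hd e) - π' (tl e) with ha
  have h0 : ∀ e, e ≠ e1 → e ≠ e2 → e ≠ e3 → a e = 0 := by
    intro e he1 he2 he3
    have hc := h.cut e he1 he2 he3
    by_cases hX : hd e ∈ X
    · have hX' := hc.1 hX
      simp only [ha, hπ', hX, hX', if_true]
      rw [hπ e hX hX', sub_self]
    · have hX' : tl e ∉ X := fun h' => hX (hc.2 h')
      simp only [ha, hπ', hX, hX', if_false, sub_self]
  have hs := (h.dep a).2 ⟨π', fun e => rfl⟩
  rw [sum_three h12 h13 h23 h0, h.u1, h.u2, h.u3] at hs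
  have a1 : a e1 = π (hd e1) := by simp only [ha, hπ', h.h1, h.t1, if_true, if_false, sub_zero]
  have a2 : a e2 = π (hd e2) := by simp only [ha, hπ', h.h2, h.t2, if_true, if_false, sub_zero]
  have a3 : a e3 = π (hd e3) := by simp only [ha, hπ', h.h3, h.t3, if_true, if_false, sub_zero]
  have hli := LinearIndependent.pair_iff.1 h.li (a e1 - a e3) (a e2 - a e3) (by
    rw [← hs]; module)
  rw [a1, a2, a3] at hli
  exact ⟨sub_eq_zero.1 hli.1, sub_eq_zero.1 hli.2⟩

private theorem cog_claw (hC : Cls DecC) {u : E → V} {hd tl : E → W} {X : Set W} {p q : V}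
    {e1 e2 e3 : E} (h : CogCut u hd tl X p q e1 e2 e3) :
    ∃ w : {e // ¬ (hd e ∈ X ∧ tl e ∈ X)} ⊕ Fin 3 → V × ℚ,
      (∀ e, w (Sum.inl e) = (u e.1, 0)) ∧ w (Sum.inr 0) = (0, 1) ∧ w (Sum.inr 1) = (p, 1) ∧
      w (Sum.inr 2) = (-q, 1) ∧ NB0 (Set.range w) := by
  classical
  obtain ⟨h12, h13, h23⟩ := cog_ne h
  -- edges outside `X` other than the three
  have htl : ∀ e : {e // ¬ (hd e ∈ X ∧ tl e ∈ X)}, tl e.1 ∉ X := by
    intro e hX
    by_cases he1 : e.1 = e1
    · exact h.t1 (he1 ▸ hX)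
    by_cases he2 : e.1 = e2
    · exact h.t2 (he2 ▸ hX)
    by_cases he3 : e.1 = e3
    · exact h.t3 (he3 ▸ hX)
    exact e.2 ⟨(h.cut e.1 he1 he2 he3).2 hX, hX⟩
  have hk1 : ¬ (hd e1 ∈ X ∧ tl e1 ∈ X) := fun h' => h.t1 h'.2
  have hk2 : ¬ (hd e2 ∈ X ∧ tl e2 ∈ X) := fun h' => h.t2 h'.2
  have hk3 : ¬ (hd e3 ∈ X ∧ tl e3 ∈ X) := fun h' => h.t3 h'.2
  set w : {e // ¬ (hd e ∈ X ∧ tl e ∈ X)} ⊕ Fin 3 → V × ℚ :=
    Sum.elim (fun e => (u e.1, 0)) ![(0, 1), (p, 1), (-q, 1)] with hw
  set hd' : {e // ¬ (hd e ∈ X ∧ tl e ∈ X)} ⊕ Fin 3 → {w // w ∉ X} ⊕ Fin 3 :=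
    Sum.elim (fun e => if e.1 = e1 then Sum.inr 0 else if e.1 = e2 then Sum.inr 1 else
      if hX : hd e.1 ∈ X then Sum.inr 2 else Sum.inl ⟨hd e.1, hX⟩)
      ![Sum.inr 0, Sum.inr 2, Sum.inr 1] with hhd'
  set tl' : {e // ¬ (hd e ∈ X ∧ tl e ∈ X)} ⊕ Fin 3 → {w // w ∉ X} ⊕ Fin 3 :=
    Sum.elim (fun e => Sum.inl ⟨tl e.1, htl e⟩) ![Sum.inr 1, Sum.inr 0, Sum.inr 2] with htl'
  refine ⟨w, fun e => rfl, rfl, rfl, rfl, ?_⟩
  apply nb0_cographic hC w hd' tl'
  intro b
  set a : E → ℚ := fun e =>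
    (if hK : ¬ (hd e ∈ X ∧ tl e ∈ X) then b (Sum.inl ⟨e, hK⟩) else 0) +
      (if e = e1 then b (Sum.inr 1) else 0) - (if e = e2 then b (Sum.inr 2) else 0) with ha
  have haK : ∀ (e : E) (hK : ¬ (hd e ∈ X ∧ tl e ∈ X)), a e = b (Sum.inl ⟨e, hK⟩) +
      (if e = e1 then b (Sum.inr 1) else 0) - (if e = e2 then b (Sum.inr 2) else 0) := by
    intro e hK
    simp only [ha]
    rw [dif_pos hK]
  have hsum1 : ∑ e, (if hK : ¬ (hd e ∈ X ∧ tl e ∈ X) then b (Sum.inl ⟨e, hK⟩) else 0) • u e =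
      ∑ e : {e // ¬ (hd e ∈ X ∧ tl e ∈ X)}, b (Sum.inl e) • u e.1 := by
    rw [← Finset.sum_filter_of_ne (p := fun e => ¬ (hd e ∈ X ∧ tl e ∈ X))]
    · rw [Finset.sum_subtype (p := fun e => ¬ (hd e ∈ X ∧ tl e ∈ X)) _ (by simp)]
      apply Finset.sum_congr rfl
      intro e _
      rw [dif_pos e.2]
    · intro e _ hne hK
      apply hne
      rw [dif_neg (not_not.2 hK), zero_smul]
  have hsumu : ∑ e, a e • u e =
      ∑ e : {e // ¬ (hd e ∈ X ∧ tl e ∈ X)}, b (Sum.inl e) • u e.1 + b (Sum.inr 1) • p -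
        b (Sum.inr 2) • q := by
    rw [← hsum1]
    simp only [ha, sub_smul, add_smul, Finset.sum_sub_distrib, Finset.sum_add_distrib, ite_smul,
      zero_smul, Finset.sum_ite_eq', Finset.mem_univ, if_true, h.u1, h.u2]
  have hsum : ∑ i, b i • w i = (∑ e, a e • u e, b (Sum.inr 0) + b (Sum.inr 1) + b (Sum.inr 2)) := by
    rw [Fintype.sum_sum_type, Fin.sum_univ_three, hsumu]
    have h1 : ∑ x : {e // ¬ (hd e ∈ X ∧ tl e ∈ X)}, b (Sum.inl x) • w (Sum.inl x) =
        (∑ e : {e // ¬ (hd e ∈ X ∧ tl e ∈ X)}, b (Sum.inl e) • u e.1, 0) := by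
      have h2 : ∀ x : {e // ¬ (hd e ∈ X ∧ tl e ∈ X)}, b (Sum.inl x) • w (Sum.inl x) =
          LinearMap.inl ℚ V ℚ (b (Sum.inl x) • u x.1) := by
        intro x
        simp [hw]
      rw [Finset.sum_congr rfl (fun x _ => h2 x), ← map_sum]
      rfl
    rw [h1]
    have h3 : w (Sum.inr 0) = (0, 1) := rfl
    have h4 : w (Sum.inr 1) = (p, 1) := rfl
    have h5 : w (Sum.inr 2) = (-q, 1) := rfl
    rw [h3, h4, h5]
    ext
    · simp [sub_eq_add_neg, add_assoc]
    · simp
  rw [hsum, Prod.mk_eq_zero]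
  constructor
  · rintro ⟨h1, h2⟩
    obtain ⟨π, hπ⟩ := (h.dep a).1 h1
    have hin : ∀ e, hd e ∈ X → tl e ∈ X → π (hd e) = π (tl e) := by
      intro e hX hX'
      have h3 := hπ e
      have hn1 : e ≠ e1 := fun he => h.t1 (he ▸ hX')
      have hn2 : e ≠ e2 := fun he => h.t2 (he ▸ hX')
      simp only [ha, hX, hX', and_self, not_true_eq_false, dite_false, hn1, hn2, if_false] at h3
      (clear * - h3; linarith)
    obtain ⟨c1, c2⟩ := cog_const h π hin
    refine ⟨Sum.elim (fun w => π w.1)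
      ![π (hd e3) - b (Sum.inr 1), π (hd e3) + b (Sum.inr 2), π (hd e3)], ?_⟩
    rintro (e | i)
    · have h3 := hπ e.1
      by_cases he1 : e.1 = e1
      · obtain ⟨e, hK⟩ := e
        dsimp only at he1 h3
        subst he1
        have hn2 : e ≠ e2 := h12
        simp only [ha, hK, not_false_eq_true, dite_true, hn2, if_false, if_true] at h3
        simp only [hhd', htl', Sum.elim_inl, Sum.elim_inr, if_true, Matrix.cons_val_zero]
        rw [← c1]
        (clear * - h3; linarith)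
      by_cases he2 : e.1 = e2
      · obtain ⟨e, hK⟩ := e
        dsimp only at he2 h3 he1
        subst he2
        simp only [ha, hK, not_false_eq_true, dite_true, he1, if_false, if_true] at h3
        simp only [hhd', htl', Sum.elim_inl, Sum.elim_inr, if_true, he1, if_false,
          Matrix.cons_val_one, Matrix.cons_val_zero]
        rw [← c2]
        (clear * - h3; linarith)
      obtain ⟨e, hK⟩ := e
      dsimp only at he2 h3 he1
      simp only [ha, hK, not_false_eq_true, dite_true, he1, he2, if_false, add_zero,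
        sub_zero] at h3
      by_cases hX : hd e ∈ X
      · have he3 : e = e3 := by
          by_contra he3
          exact hK ⟨hX, (h.cut e he1 he2 he3).1 hX⟩
        simp only [hhd', htl', Sum.elim_inl, Sum.elim_inr, he1, he2, if_false, hX, dite_true,
          Matrix.cons_val_two, Matrix.cons_val_zero, Matrix.tail_cons, Matrix.head_cons,
          Matrix.cons_val]
        rw [h3, he3]
      · simp only [hhd', htl', Sum.elim_inl, he1, he2, if_false, hX, dite_false]
        exact h3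
    · fin_cases i
      · simp [hhd', htl']
        (clear * - h2; linarith)
      · simp [hhd', htl']
      · simp [hhd', htl']
  · rintro ⟨ρ, hρ⟩
    have g0 : b (Sum.inr 0) = ρ (Sum.inr 0) - ρ (Sum.inr 1) := hρ (Sum.inr 0)
    have g1 : b (Sum.inr 1) = ρ (Sum.inr 2) - ρ (Sum.inr 0) := hρ (Sum.inr 1)
    have g2 : b (Sum.inr 2) = ρ (Sum.inr 1) - ρ (Sum.inr 2) := hρ (Sum.inr 2)
    refine ⟨?_, by rw [g0, g1, g2]; ring⟩
    rw [h.dep]
    refine ⟨fun w => if hX : w ∈ X then ρ (Sum.inr 2) else ρ (Sum.inl ⟨w, hX⟩), ?_⟩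
    intro e
    by_cases hK : hd e ∈ X ∧ tl e ∈ X
    · have hn1 : e ≠ e1 := fun he => h.t1 (he ▸ hK.2)
      have hn2 : e ≠ e2 := fun he => h.t2 (he ▸ hK.2)
      simp [ha, hK, hn1, hn2]
    · have ht := htl ⟨e, hK⟩
      have h3 := hρ (Sum.inl ⟨e, hK⟩)
      by_cases he1 : e = e1
      · subst he1
        simp only [hhd', htl', Sum.elim_inl, if_true] at h3
        rw [haK _ hK, h3, g1]
        simp only [h12, if_true, if_false, h.h1, h.t1, dite_true, dite_false]
        ring
      by_cases he2 : e = e2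
      · subst he2
        simp only [hhd', htl', Sum.elim_inl, he1, if_false, if_true] at h3
        rw [haK _ hK, h3, g2]
        simp only [he1, if_true, if_false, h.h2, h.t2, dite_true, dite_false]
        ring
      by_cases hX : hd e ∈ X
      · simp only [hhd', htl', Sum.elim_inl, he1, he2, if_false, hX, dite_true] at h3
        rw [haK _ hK, h3]
        simp only [he1, he2, if_false, hX, ht, dite_true, dite_false]
        ring
      · simp only [hhd', htl', Sum.elim_inl, he1, he2, if_false, hX, dite_false] at h3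
        rw [haK _ hK, h3]
        simp only [he1, he2, if_false, hX, ht, dite_true, dite_false]
        ring

theorem nb0_cog_claw (hC : Cls DecC) {u : E → V} {hd tl : E → W} {X : Set W} {p q : V}
    {e1 e2 e3 : E} (h : CogCut u hd tl X p q e1 e2 e3) :
    NB0 ((fun x : V => (x, (0 : ℚ))) '' (u '' {e | ¬ (hd e ∈ X ∧ tl e ∈ X)}) ∪
      clawSet p q) := by
  obtain ⟨w, hw, w0, w1, w2, hN⟩ := cog_claw hC h
  refine nb0_dom hN (dom_of_subset ?_)
  rintro x (⟨_, ⟨e, he, rfl⟩, rfl⟩ | (rfl | rfl | rfl))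
  · exact ⟨Sum.inl ⟨e, he⟩, hw _⟩
  · exact ⟨Sum.inr 0, w0⟩
  · exact ⟨Sum.inr 1, w1⟩
  · exact ⟨Sum.inr 2, w2⟩

end RC.Str

end

section

/-!
Module RC-D2.  Contraction of a graphic set.

`φ x = single a 1 - single b 1`.  If `a = b` then `φ x = 0`, so `x = 0` and `span {x} = ⊥`:
use `Dec.graphic` with the map `k : V / span {x} → (W → ℚ)`, `k (mkQ y) = φ y`
(`Submodule.liftQ`).  If `a ≠ b` let `r : W → W`, `r b = a`, `r w = w` otherwise, and let
`R : (W → ℚ) → (W → ℚ)` be linear with `R (single w 1) = single (r w) 1` (explicitly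
`R g w = ∑ w' with r w' = w, g w'`).  The kernel of `R` is `span {single a 1 - single b 1}`:
`R g = 0` says `g w = 0` for `w ≠ a, b` and `g a + g b = 0`.  `R ∘ φ` kills `x`, lift it to
`V / span {x}`; it is injective on `span (mkQ '' X)`: `R (φ y) = 0` with `y ∈ span X` gives
`φ y = t • φ x`, so `y = t • x`.  Edges go to edges.
-/

namespace RC

open Submodule Module

/-- the push forward of functions along a map of the vertices -/
private def cgPush {W : Type} [Fintype W] [DecidableEq W] (r : W → W) :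
    (W → ℚ) →ₗ[ℚ] (W → ℚ) :=
  ∑ w', (LinearMap.proj w' : (W → ℚ) →ₗ[ℚ] ℚ).smulRight (Pi.single (r w') (1 : ℚ))

private theorem cgPush_apply {W : Type} [Fintype W] [DecidableEq W] (r : W → W) (g : W → ℚ)
    (w : W) : cgPush r g w = ∑ w', if r w' = w then g w' else 0 := by
  unfold cgPush
  rw [LinearMap.sum_apply, Finset.sum_apply]
  refine Finset.sum_congr rfl fun w' _ => ?_
  rw [LinearMap.smulRight_apply, LinearMap.proj_apply, Pi.smul_apply, Pi.single_apply,
    smul_eq_mul]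
  by_cases h : r w' = w
  · rw [if_pos h.symm, if_pos h, mul_one]
  · rw [if_neg (Ne.symm h), if_neg h, mul_zero]

private theorem cgPush_single {W : Type} [Fintype W] [DecidableEq W] (r : W → W) (w : W) :
    cgPush r (Pi.single w 1) = Pi.single (r w) 1 := by
  funext v
  rw [cgPush_apply, Finset.sum_eq_single w]
  · rw [Pi.single_eq_same, Pi.single_apply]
    by_cases h : r w = v
    · rw [if_pos h, if_pos h.symm]
    · rw [if_neg h, if_neg (Ne.symm h)]
  · intro w' _ hw
    rw [Pi.single_eq_of_ne hw, ite_self]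
  · intro h
    exact absurd (Finset.mem_univ w) h

private theorem cgPush_ker {W : Type} [Fintype W] [DecidableEq W] (a b : W) (g : W → ℚ)
    (h : cgPush (fun w => if w = b then a else w) g = 0) :
    ∃ t : ℚ, g = t • (Pi.single a 1 - Pi.single b 1) := by
  have h1 : ∀ w, (∑ w', if (if w' = b then a else w') = w then g w' else 0) = 0 := by
    intro w
    have := congrFun h w
    rw [cgPush_apply] at this
    exact this
  have h2 : ∀ w, w ≠ a → w ≠ b → g w = 0 := by
    intro w hwa hwb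
    have h3 := h1 w
    rw [Finset.sum_eq_single w] at h3
    · rwa [if_neg hwb, if_pos rfl] at h3
    · intro w' _ hw
      by_cases hb : w' = b
      · rw [if_pos hb, if_neg (Ne.symm hwa)]
      · rw [if_neg hb, if_neg hw]
    · intro h4
      exact absurd (Finset.mem_univ w) h4
  by_cases hab : a = b
  · subst hab
    refine ⟨0, ?_⟩
    funext w
    rw [zero_smul]
    by_cases hwa : w = a
    · subst hwa
      have h3 := h1 w
      rw [Finset.sum_eq_single w] at h3
      · rwa [if_pos rfl, if_pos rfl] at h3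
      · intro w' _ hw
        rw [if_neg hw, if_neg hw]
      · intro h4
        exact absurd (Finset.mem_univ w) h4
    · exact h2 w hwa hwa
  · have h3 := h1 a
    have h4 : g a + g b = 0 := by
      rw [← h3, ← Finset.sum_pair (f := g) hab]
      symm
      rw [← Finset.sum_subset (Finset.subset_univ ({a, b} : Finset W))]
      · refine Finset.sum_congr rfl fun w hw => ?_
        rw [Finset.mem_insert, Finset.mem_singleton] at hw
        rcases hw with rfl | rfl
        · rw [if_neg hab, if_pos rfl]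
        · rw [if_pos rfl, if_pos rfl]
      · intro w _ hw
        rw [Finset.mem_insert, Finset.mem_singleton, not_or] at hw
        rw [if_neg hw.2, if_neg hw.1]
    refine ⟨g a, ?_⟩
    funext w
    rw [Pi.smul_apply, Pi.sub_apply, smul_eq_mul]
    by_cases hwa : w = a
    · subst hwa
      rw [Pi.single_eq_same, Pi.single_eq_of_ne hab, sub_zero, mul_one]
    · by_cases hwb : w = b
      · subst hwb
        rw [Pi.single_eq_same, Pi.single_eq_of_ne hwa]
        (clear * - h4; linarith)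
      · rw [h2 w hwa hwb, Pi.single_eq_of_ne hwa, Pi.single_eq_of_ne hwb, sub_zero, mul_zero]

theorem con_graphic {V : Type} [AddCommGroup V] [Module ℚ V] (X : Set V) (W : Type) [Fintype W]
    [DecidableEq W] (φ : V →ₗ[ℚ] (W → ℚ)) (inj : ∀ y ∈ span ℚ X, φ y = 0 → y = 0)
    (edge : ∀ x ∈ X, ∃ a b : W, φ x = Pi.single a 1 - Pi.single b 1) {x : V} (hx : x ∈ X) :
    Dec (V ⧸ span ℚ {x}) ((span ℚ {x}).mkQ '' X) := by
  obtain ⟨a, b, hab⟩ := edge x hx
  have hle : span ℚ {x} ≤ LinearMap.ker ((cgPush fun w => if w = b then a else w).comp φ) := by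
    rw [Submodule.span_le, Set.singleton_subset_iff, SetLike.mem_coe, LinearMap.mem_ker,
      LinearMap.comp_apply, hab, map_sub, cgPush_single, cgPush_single, if_pos rfl]
    by_cases h : a = b
    · rw [if_pos h, sub_self]
    · rw [if_neg h, sub_self]
  refine Dec.graphic _ W ((span ℚ {x}).liftQ _ hle) ?_ ?_
  · intro y hy h0
    rw [← Submodule.map_span] at hy
    obtain ⟨z, hz, rfl⟩ := hy
    rw [Submodule.mkQ_apply, Submodule.liftQ_apply, LinearMap.comp_apply] at h0
    obtain ⟨t, ht⟩ := cgPush_ker a b (φ z) h0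
    have h1 : z - t • x = 0 := by
      apply inj
      · exact Submodule.sub_mem _ hz (Submodule.smul_mem _ _ (subset_span hx))
      · rw [map_sub, map_smul, hab, ht, sub_self]
    rw [Submodule.mkQ_apply, Submodule.Quotient.mk_eq_zero, sub_eq_zero.1 h1]
    exact Submodule.mem_span_singleton.2 ⟨t, rfl⟩
  · rintro _ ⟨z, hz, rfl⟩
    obtain ⟨a', b', h⟩ := edge z hz
    exact ⟨(if a' = b then a else a'), (if b' = b then a else b'), by
      rw [Submodule.mkQ_apply, Submodule.liftQ_apply, LinearMap.comp_apply, h, map_sub,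
        cgPush_single, cgPush_single]⟩

end RC

end

section

/-!
Module RC-D4.  Contraction of `R10`.

`r10_con`: `R10 / j` is the bond matroid of `K_{3,3}`.  For `i ≠ j` the table gives
`i : (hd, tl)` (vertices `0..5`), and the last list the coefficient `k w` of `R10 j` in the
dependency belonging to vertex `w`:  for every `a` on `{i ≠ j}`,
`∑ a i • R10 i ∈ span {R10 j}` iff there is `π` with `a i = π (hd i) - π (tl i)`; then
`∑ a i • R10 i + (∑ w, k w * π w) • R10 j = 0`.
con 0 1:(2,3) 2:(3,5) 3:(0,4) 4:(2,0) 5:(1,2) 6:(4,3) 7:(4,1) 8:(5,1) 9:(5,0)  k=[1,1,-1,1,-1,-1]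
con 1 0:(3,5) 2:(4,5) 3:(0,4) 4:(2,3) 5:(3,0) 6:(5,1) 7:(4,2) 8:(1,2) 9:(1,0)  k=[1,-1,1,-1,-1,1]
con 2 0:(2,3) 1:(1,2) 3:(1,0) 4:(0,4) 5:(4,5) 6:(4,2) 7:(5,1) 8:(3,0) 9:(3,5)  k=[1,-1,1,-1,-1,1]
con 3 0:(5,2) 1:(0,4) 2:(4,1) 4:(2,1) 5:(3,0) 6:(3,5) 7:(4,5) 8:(1,3) 9:(2,0)  k=[1,1,-1,-1,-1,1]
con 4 0:(3,2) 1:(0,3) 2:(5,1) 3:(1,2) 5:(3,5) 6:(4,5) 7:(4,0) 8:(1,0) 9:(2,4)  k=[1,-1,1,-1,-1,1]
con 5 0:(3,1) 1:(0,3) 2:(4,5) 3:(0,2) 4:(4,3) 6:(2,4) 7:(1,5) 8:(1,2) 9:(5,0)  k=[-1,-1,1,1,-1,1]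
con 6 0:(2,3) 1:(0,2) 2:(2,5) 3:(1,3) 4:(4,5) 5:(5,1) 7:(3,4) 8:(1,0) 9:(4,0)  k=[1,-1,-1,1,-1,1]
con 7 0:(3,1) 1:(0,2) 2:(2,5) 3:(3,2) 4:(0,4) 5:(5,1) 6:(4,3) 8:(1,0) 9:(5,4)  k=[-1,1,1,-1,1,-1]
con 8 0:(3,5) 1:(0,1) 2:(2,5) 3:(4,2) 4:(2,1) 5:(3,4) 6:(0,4) 7:(1,3) 9:(5,0)  k=[-1,1,-1,-1,1,1]
con 9 0:(4,2) 1:(0,1) 2:(4,5) 3:(0,2) 4:(2,3) 5:(5,0) 6:(3,1) 7:(3,5) 8:(1,4)  k=[-1,1,1,-1,-1,1]
For the direction from the dependency to `π`: the five coordinate equations of
`∑ a i • R10 i + t • R10 j = 0` determine everything; put `π 0 = 0` and define `π` along a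
spanning tree of the graph by `a`, then check the remaining edges linearly (`linarith`).

`con_r10`: `φ x = R10 j`; the map `V / span {x} → (Fin 5 → ℚ) / span {R10 j}` induced by `φ` is
injective on `span (mkQ '' X)`; use `Dec.emb` and `r10_con`.
-/

namespace RC

open Submodule Module

private theorem R10_sum (a : Fin 10 → ℚ) : (∑ e, a e • R10 e) =
    ![a 0 - a 5 + a 6 + a 9, a 1 + a 5 - a 6 + a 7, a 2 + a 6 - a 7 + a 8,
      a 3 + a 7 - a 8 + a 9, a 4 + a 5 + a 8 - a 9] := by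
  ext c
  simp only [Finset.sum_apply, Pi.smul_apply, smul_eq_mul, Fin.sum_univ_succ, Fin.sum_univ_zero]
  fin_cases c <;> simp [R10] <;> ring_nf

private theorem con_0 (a : Fin 10 → ℚ) : (∃ t : ℚ, t • R10 0 = ∑ e, a e • R10 e) ↔
    ∃ π : Fin 7 → ℚ, ∀ e, a e = π ((![6, 2, 3, 0, 2, 1, 4, 4, 5, 5] : Fin 10 → Fin 7) e) -
      π ((![0, 3, 5, 4, 0, 2, 3, 1, 1, 0] : Fin 10 → Fin 7) e) := by
  rw [R10_sum]
  constructor
  · rintro ⟨t, ht⟩
    have h0 := congrFun ht 0
    have h1 := congrFun ht 1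
    have h2 := congrFun ht 2
    have h3 := congrFun ht 3
    have h4 := congrFun ht 4
    simp [R10] at h0 h1 h2 h3 h4
    refine ⟨![0, 0 + a 4 + a 5, 0 + a 4, 0 - a 3 - a 6, 0 - a 3, 0 + a 4 + a 5 + a 8, 0 + a 0], ?_⟩
    intro e
    fin_cases e <;> simp <;> (clear * - h1 h3 h4 h2; linarith)
  · rintro ⟨π, hπ⟩
    have e0 := hπ 0
    have e1 := hπ 1
    have e2 := hπ 2
    have e3 := hπ 3
    have e4 := hπ 4
    have e5 := hπ 5
    have e6 := hπ 6
    have e7 := hπ 7
    have e8 := hπ 8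
    have e9 := hπ 9
    simp at e0 e1 e2 e3 e4 e5 e6 e7 e8 e9
    refine ⟨a 0 - π 0 - π 1 + π 2 - π 3 + π 4 + π 5, ?_⟩
    ext c
    fin_cases c <;> simp [R10] <;> (clear * - e5 e6 e9 e1 e7 e2 e8 e3 e4; linarith)

private theorem con_1 (a : Fin 10 → ℚ) : (∃ t : ℚ, t • R10 1 = ∑ e, a e • R10 e) ↔
    ∃ π : Fin 7 → ℚ, ∀ e, a e = π ((![3, 6, 4, 0, 2, 3, 5, 4, 1, 1] : Fin 10 → Fin 7) e) -
      π ((![5, 0, 5, 4, 3, 0, 1, 2, 2, 0] : Fin 10 → Fin 7) e) := by
  rw [R10_sum]
  constructor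
  · rintro ⟨t, ht⟩
    have h0 := congrFun ht 0
    have h1 := congrFun ht 1
    have h2 := congrFun ht 2
    have h3 := congrFun ht 3
    have h4 := congrFun ht 4
    simp [R10] at h0 h1 h2 h3 h4
    refine ⟨![0, 0 - a 3 - a 7 + a 8, 0 - a 3 - a 7, 0 + a 5, 0 - a 3, 0 + a 5 - a 0, 0 + a 1], ?_⟩
    intro e
    fin_cases e <;> simp <;> linarith
  · rintro ⟨π, hπ⟩
    have e0 := hπ 0
    have e1 := hπ 1
    have e2 := hπ 2
    have e3 := hπ 3
    have e4 := hπ 4
    have e5 := hπ 5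
    have e6 := hπ 6
    have e7 := hπ 7
    have e8 := hπ 8
    have e9 := hπ 9
    simp at e0 e1 e2 e3 e4 e5 e6 e7 e8 e9
    refine ⟨a 1 - π 0 + π 1 - π 2 + π 3 + π 4 - π 5, ?_⟩
    ext c
    fin_cases c <;> simp [R10] <;> (clear * - e0 e5 e6 e9 e7 e2 e8 e3 e4; linarith)

private theorem con_2 (a : Fin 10 → ℚ) : (∃ t : ℚ, t • R10 2 = ∑ e, a e • R10 e) ↔
    ∃ π : Fin 7 → ℚ, ∀ e, a e = π ((![2, 1, 6, 1, 0, 4, 4, 5, 3, 3] : Fin 10 → Fin 7) e) -
      π ((![3, 2, 0, 0, 4, 5, 2, 1, 0, 5] : Fin 10 → Fin 7) e) := by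
  rw [R10_sum]
  constructor
  · rintro ⟨t, ht⟩
    have h0 := congrFun ht 0
    have h1 := congrFun ht 1
    have h2 := congrFun ht 2
    have h3 := congrFun ht 3
    have h4 := congrFun ht 4
    simp [R10] at h0 h1 h2 h3 h4
    refine ⟨![0, 0 + a 3, 0 - a 4 - a 6, 0 + a 8, 0 - a 4, 0 - a 4 - a 5, 0 + a 2], ?_⟩
    intro e
    fin_cases e <;> simp <;> (clear * - h0 h4 h1 h3; linarith)
  · rintro ⟨π, hπ⟩
    have e0 := hπ 0
    have e1 := hπ 1
    have e2 := hπ 2
    have e3 := hπ 3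
    have e4 := hπ 4
    have e5 := hπ 5
    have e6 := hπ 6
    have e7 := hπ 7
    have e8 := hπ 8
    have e9 := hπ 9
    simp at e0 e1 e2 e3 e4 e5 e6 e7 e8 e9
    refine ⟨a 2 - π 0 + π 1 - π 2 + π 3 + π 4 - π 5, ?_⟩
    ext c
    fin_cases c <;> simp [R10] <;> linarith

private theorem con_3 (a : Fin 10 → ℚ) : (∃ t : ℚ, t • R10 3 = ∑ e, a e • R10 e) ↔
    ∃ π : Fin 7 → ℚ, ∀ e, a e = π ((![5, 0, 4, 6, 2, 3, 3, 4, 1, 2] : Fin 10 → Fin 7) e) -
      π ((![2, 4, 1, 0, 1, 0, 5, 5, 3, 0] : Fin 10 → Fin 7) e) := by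
  rw [R10_sum]
  constructor
  · rintro ⟨t, ht⟩
    have h0 := congrFun ht 0
    have h1 := congrFun ht 1
    have h2 := congrFun ht 2
    have h3 := congrFun ht 3
    have h4 := congrFun ht 4
    simp [R10] at h0 h1 h2 h3 h4
    refine ⟨![0, 0 - a 1 - a 2, 0 - a 1 - a 2 + a 4, 0 + a 5, 0 - a 1, 0 + a 5 - a 6, 0 + a 3], ?_⟩
    intro e
    fin_cases e <;> simp <;> (clear * - h0 h1 h2 h4; linarith)
  · rintro ⟨π, hπ⟩
    have e0 := hπ 0
    have e1 := hπ 1
    have e2 := hπ 2
    have e3 := hπ 3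
    have e4 := hπ 4
    have e5 := hπ 5
    have e6 := hπ 6
    have e7 := hπ 7
    have e8 := hπ 8
    have e9 := hπ 9
    simp at e0 e1 e2 e3 e4 e5 e6 e7 e8 e9
    refine ⟨a 3 - π 0 - π 1 + π 2 + π 3 + π 4 - π 5, ?_⟩
    ext c
    fin_cases c <;> simp [R10] <;> (clear * - e0 e5 e6 e9 e1 e7 e2 e8 e4; linarith)

private theorem con_4 (a : Fin 10 → ℚ) : (∃ t : ℚ, t • R10 4 = ∑ e, a e • R10 e) ↔
    ∃ π : Fin 7 → ℚ, ∀ e, a e = π ((![3, 0, 5, 1, 6, 3, 4, 4, 1, 2] : Fin 10 → Fin 7) e) -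
      π ((![2, 3, 1, 2, 0, 5, 5, 0, 0, 4] : Fin 10 → Fin 7) e) := by
  rw [R10_sum]
  constructor
  · rintro ⟨t, ht⟩
    have h0 := congrFun ht 0
    have h1 := congrFun ht 1
    have h2 := congrFun ht 2
    have h3 := congrFun ht 3
    have h4 := congrFun ht 4
    simp [R10] at h0 h1 h2 h3 h4
    refine ⟨![0, 0 + a 8, 0 - a 1 - a 5 + a 6 + a 9, 0 - a 1, 0 - a 1 - a 5 + a 6, 0 - a 1 - a 5, 0 + a 4], ?_⟩
    intro e
    fin_cases e <;> simp <;> (clear * - h0 h1 h2 h3; linarith)
  · rintro ⟨π, hπ⟩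
    have e0 := hπ 0
    have e1 := hπ 1
    have e2 := hπ 2
    have e3 := hπ 3
    have e4 := hπ 4
    have e5 := hπ 5
    have e6 := hπ 6
    have e7 := hπ 7
    have e8 := hπ 8
    have e9 := hπ 9
    simp at e0 e1 e2 e3 e4 e5 e6 e7 e8 e9
    refine ⟨a 4 - π 0 + π 1 - π 2 + π 3 + π 4 - π 5, ?_⟩
    ext c
    fin_cases c <;> simp [R10] <;> (clear * - e0 e5 e6 e9 e1 e7 e2 e8 e3; linarith)

private theorem con_5 (a : Fin 10 → ℚ) : (∃ t : ℚ, t • R10 5 = ∑ e, a e • R10 e) ↔
    ∃ π : Fin 7 → ℚ, ∀ e, a e = π ((![3, 0, 4, 0, 4, 6, 2, 1, 1, 5] : Fin 10 → Fin 7) e) -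
      π ((![1, 3, 5, 2, 3, 0, 4, 5, 2, 0] : Fin 10 → Fin 7) e) := by
  rw [R10_sum]
  constructor
  · rintro ⟨t, ht⟩
    have h0 := congrFun ht 0
    have h1 := congrFun ht 1
    have h2 := congrFun ht 2
    have h3 := congrFun ht 3
    have h4 := congrFun ht 4
    simp [R10] at h0 h1 h2 h3 h4
    refine ⟨![0, 0 - a 3 + a 8, 0 - a 3, 0 - a 1, 0 - a 1 + a 4, 0 + a 9, 0 + a 5], ?_⟩
    intro e
    fin_cases e <;> simp <;> (clear * - h0 h1 h3 h2 h4; linarith)
  · rintro ⟨π, hπ⟩
    have e0 := hπ 0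
    have e1 := hπ 1
    have e2 := hπ 2
    have e3 := hπ 3
    have e4 := hπ 4
    have e5 := hπ 5
    have e6 := hπ 6
    have e7 := hπ 7
    have e8 := hπ 8
    have e9 := hπ 9
    simp at e0 e1 e2 e3 e4 e5 e6 e7 e8 e9
    refine ⟨a 5 + π 0 + π 1 - π 2 - π 3 + π 4 - π 5, ?_⟩
    ext c
    fin_cases c <;> simp [R10] <;> (clear * - e0 e6 e9 e1 e7 e2 e8 e3 e4; linarith)

private theorem con_6 (a : Fin 10 → ℚ) : (∃ t : ℚ, t • R10 6 = ∑ e, a e • R10 e) ↔
    ∃ π : Fin 7 → ℚ, ∀ e, a e = π ((![2, 0, 2, 1, 4, 5, 6, 3, 1, 4] : Fin 10 → Fin 7) e) -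
      π ((![3, 2, 5, 3, 5, 1, 0, 4, 0, 0] : Fin 10 → Fin 7) e) := by
  rw [R10_sum]
  constructor
  · rintro ⟨t, ht⟩
    have h0 := congrFun ht 0
    have h1 := congrFun ht 1
    have h2 := congrFun ht 2
    have h3 := congrFun ht 3
    have h4 := congrFun ht 4
    simp [R10] at h0 h1 h2 h3 h4
    refine ⟨![0, 0 - a 1 - a 2 - a 5, 0 - a 1, 0 - a 1 - a 2 + a 4 + a 7, 0 - a 1 - a 2 + a 4, 0 - a 1 - a 2, 0 + a 6], ?_⟩
    intro e
    fin_cases e <;> simp <;> linarith
  · rintro ⟨π, hπ⟩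
    have e0 := hπ 0
    have e1 := hπ 1
    have e2 := hπ 2
    have e3 := hπ 3
    have e4 := hπ 4
    have e5 := hπ 5
    have e6 := hπ 6
    have e7 := hπ 7
    have e8 := hπ 8
    have e9 := hπ 9
    simp at e0 e1 e2 e3 e4 e5 e6 e7 e8 e9
    refine ⟨a 6 - π 0 + π 1 + π 2 - π 3 + π 4 - π 5, ?_⟩
    ext c
    fin_cases c <;> simp [R10] <;> (clear * - e0 e5 e9 e1 e7 e2 e8 e3 e4; linarith)

private theorem con_7 (a : Fin 10 → ℚ) : (∃ t : ℚ, t • R10 7 = ∑ e, a e • R10 e) ↔
    ∃ π : Fin 7 → ℚ, ∀ e, a e = π ((![3, 0, 2, 3, 0, 5, 4, 6, 1, 5] : Fin 10 → Fin 7) e) -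
      π ((![1, 2, 5, 2, 4, 1, 3, 0, 0, 4] : Fin 10 → Fin 7) e) := by
  rw [R10_sum]
  constructor
  · rintro ⟨t, ht⟩
    have h0 := congrFun ht 0
    have h1 := congrFun ht 1
    have h2 := congrFun ht 2
    have h3 := congrFun ht 3
    have h4 := congrFun ht 4
    simp [R10] at h0 h1 h2 h3 h4
    refine ⟨![0, 0 - a 1 - a 2 - a 5, 0 - a 1, 0 - a 1 + a 3, 0 - a 4, 0 - a 1 - a 2, 0 + a 7], ?_⟩
    intro e
    fin_cases e <;> simp <;> (clear * - h0 h2 h3 h1 h4; linarith)
  · rintro ⟨π, hπ⟩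
    have e0 := hπ 0
    have e1 := hπ 1
    have e2 := hπ 2
    have e3 := hπ 3
    have e4 := hπ 4
    have e5 := hπ 5
    have e6 := hπ 6
    have e7 := hπ 7
    have e8 := hπ 8
    have e9 := hπ 9
    simp at e0 e1 e2 e3 e4 e5 e6 e7 e8 e9
    refine ⟨a 7 + π 0 - π 1 - π 2 + π 3 - π 4 + π 5, ?_⟩
    ext c
    fin_cases c <;> simp [R10] <;> (clear * - e0 e5 e6 e9 e1 e2 e8 e3 e4; linarith)

private theorem con_8 (a : Fin 10 → ℚ) : (∃ t : ℚ, t • R10 8 = ∑ e, a e • R10 e) ↔
    ∃ π : Fin 7 → ℚ, ∀ e, a e = π ((![3, 0, 2, 4, 2, 3, 0, 1, 6, 5] : Fin 10 → Fin 7) e) -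
      π ((![5, 1, 5, 2, 1, 4, 4, 3, 0, 0] : Fin 10 → Fin 7) e) := by
  rw [R10_sum]
  constructor
  · rintro ⟨t, ht⟩
    have h0 := congrFun ht 0
    have h1 := congrFun ht 1
    have h2 := congrFun ht 2
    have h3 := congrFun ht 3
    have h4 := congrFun ht 4
    simp [R10] at h0 h1 h2 h3 h4
    refine ⟨![0, 0 - a 1, 0 - a 1 + a 4, 0 - a 1 - a 7, 0 - a 6, 0 + a 9, 0 + a 8], ?_⟩
    intro e
    fin_cases e <;> simp <;> linarith
  · rintro ⟨π, hπ⟩
    have e0 := hπ 0
    have e1 := hπ 1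
    have e2 := hπ 2
    have e3 := hπ 3
    have e4 := hπ 4
    have e5 := hπ 5
    have e6 := hπ 6
    have e7 := hπ 7
    have e8 := hπ 8
    have e9 := hπ 9
    simp at e0 e1 e2 e3 e4 e5 e6 e7 e8 e9
    refine ⟨a 8 + π 0 - π 1 + π 2 + π 3 - π 4 - π 5, ?_⟩
    ext c
    fin_cases c <;> simp [R10] <;> (clear * - e0 e5 e6 e9 e1 e7 e2 e3 e4; linarith)

private theorem con_9 (a : Fin 10 → ℚ) : (∃ t : ℚ, t • R10 9 = ∑ e, a e • R10 e) ↔
    ∃ π : Fin 7 → ℚ, ∀ e, a e = π ((![4, 0, 4, 0, 2, 5, 3, 3, 1, 6] : Fin 10 → Fin 7) e) -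
      π ((![2, 1, 5, 2, 3, 0, 1, 5, 4, 0] : Fin 10 → Fin 7) e) := by
  rw [R10_sum]
  constructor
  · rintro ⟨t, ht⟩
    have h0 := congrFun ht 0
    have h1 := congrFun ht 1
    have h2 := congrFun ht 2
    have h3 := congrFun ht 3
    have h4 := congrFun ht 4
    simp [R10] at h0 h1 h2 h3 h4
    refine ⟨![0, 0 - a 1, 0 - a 3, 0 - a 3 - a 4, 0 - a 1 - a 8, 0 + a 5, 0 + a 9], ?_⟩
    intro e
    fin_cases e <;> simp <;> (clear * - h0 h1 h3 h2 h4; linarith)
  · rintro ⟨π, hπ⟩
    have e0 := hπ 0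
    have e1 := hπ 1
    have e2 := hπ 2
    have e3 := hπ 3
    have e4 := hπ 4
    have e5 := hπ 5
    have e6 := hπ 6
    have e7 := hπ 7
    have e8 := hπ 8
    have e9 := hπ 9
    simp at e0 e1 e2 e3 e4 e5 e6 e7 e8 e9
    refine ⟨a 9 + π 0 - π 1 - π 2 + π 3 + π 4 - π 5, ?_⟩
    ext c
    fin_cases c <;> simp [R10] <;> linarith

private theorem con_aux (j : Fin 10) (hd tl : Fin 10 → Fin 7)
    (h : ∀ a : Fin 10 → ℚ, (∃ t : ℚ, t • R10 j = ∑ e, a e • R10 e) ↔
      ∃ π : Fin 7 → ℚ, ∀ e, a e = π (hd e) - π (tl e)) :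
    Dec ((Fin 5 → ℚ) ⧸ span ℚ {R10 j}) ((span ℚ {R10 j}).mkQ '' Set.range R10) := by
  refine Dec.cographic _ (Fin 10) (Fin 7) (fun e => (span ℚ {R10 j}).mkQ (R10 e)) hd tl ?_ ?_
  · intro a
    rw [← h a]
    have : ∑ e, a e • (span ℚ {R10 j}).mkQ (R10 e) =
        (span ℚ {R10 j}).mkQ (∑ e, a e • R10 e) := by
      simp only [map_sum, map_smul]
    rw [this, mkQ_apply, Quotient.mk_eq_zero, mem_span_singleton]
  · rintro x ⟨y, ⟨e, rfl⟩, rfl⟩
    exact ⟨e, rfl⟩

theorem r10_con (j : Fin 10) :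
    Dec ((Fin 5 → ℚ) ⧸ span ℚ {R10 j}) ((span ℚ {R10 j}).mkQ '' Set.range R10) := by
  fin_cases j
  · exact con_aux 0 _ _ con_0
  · exact con_aux 1 _ _ con_1
  · exact con_aux 2 _ _ con_2
  · exact con_aux 3 _ _ con_3
  · exact con_aux 4 _ _ con_4
  · exact con_aux 5 _ _ con_5
  · exact con_aux 6 _ _ con_6
  · exact con_aux 7 _ _ con_7
  · exact con_aux 8 _ _ con_8
  · exact con_aux 9 _ _ con_9

theorem con_r10 {V : Type} [AddCommGroup V] [Module ℚ V] (X : Set V)
    (φ : V →ₗ[ℚ] (Fin 5 → ℚ)) (inj : ∀ y ∈ span ℚ X, φ y = 0 → y = 0)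
    (col : ∀ x ∈ X, ∃ j, φ x = R10 j) {x : V} (hx : x ∈ X) :
    Dec (V ⧸ span ℚ {x}) ((span ℚ {x}).mkQ '' X) := by
  obtain ⟨j, hj⟩ := col x hx
  have hle : span ℚ {x} ≤ (span ℚ {R10 j}).comap φ := by
    rw [span_le, Set.singleton_subset_iff]
    change φ x ∈ span ℚ {R10 j}
    rw [hj]
    exact mem_span_singleton_self _
  refine Dec.emb _ _ ((span ℚ {x}).mapQ (span ℚ {R10 j}) φ hle) ?_ ?_ (r10_con j)
  · intro y hy h0
    rw [span_image] at hy
    obtain ⟨z, hz, rfl⟩ := hy
    have h1 : φ z ∈ span ℚ {R10 j} := by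
      rw [mkQ_apply, mapQ_apply, Quotient.mk_eq_zero] at h0
      exact h0
    rw [mem_span_singleton] at h1
    obtain ⟨t, ht⟩ := h1
    have h2 : φ (z - t • x) = 0 := by
      rw [map_sub, map_smul, hj, ht, sub_self]
    have h3 : z - t • x = 0 :=
      inj _ (sub_mem hz (smul_mem _ _ (subset_span hx))) h2
    rw [mkQ_apply, Quotient.mk_eq_zero, mem_span_singleton]
    exact ⟨t, (sub_eq_zero.mp h3).symm⟩
  · rintro _ ⟨y, hy, rfl⟩
    obtain ⟨i, hi⟩ := col y hy
    right; left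
    refine ⟨R10 i, ⟨i, rfl⟩, ?_⟩
    rw [← hi]
    rfl

end RC

end

section

/-!
Module RC-D5.  Contraction of a sum.  Write `D = {p, q, p + q}`, `Q = V / span {x}`,
`m = mkQ`.  `span (A ∪ D) = span (A ∪ {p, q})`.

`con_sum_aux` (the case `x ∈ A`; the case `x ∈ B` is symmetric, swap `A` and `B`):
`Uni (A ∪ D)` and `Uni (B ∪ D)` by `dec_uni`.
(1) `x ∉ span {p, q}`.  Then `x ∉ span (B ∪ {p, q})` (otherwise `x` is in the intersection), so
    `m` is injective on `span (B ∪ D)` and `Dec Q (m '' (B ∪ D))` by `dec_map`;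
    `Dec Q (m '' (A ∪ D))` by `cA x`.  `m p, m q` are independent (or `m q = 0` if `q = 0`).
    `span (m '' (A ∪ {p,q})) ⊓ span (m '' (B ∪ {p,q})) = span {m p, m q}`: if
    `m a = m b` with `a ∈ span (A ∪ {p,q})`, `b ∈ span (B ∪ {p,q})`, then `b - a ∈ span {x}`, so
    `b ∈ span (A ∪ {p,q})`, `b ∈ span {p, q}`.  `Dec.sum` gives `Dec Q (m '' A ∪ m '' B)`.
(2) `x ∈ span {p, q}`, `x ≠ 0`.  By `uni_plane` (if `p, q` are independent) or `uni_par` (if
    `q = 0`, then `p ≠ 0`) `x = ± d` with `d ∈ D`, `d ≠ 0`, so `span {x} = span {d}`.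
    `Dec Q (m '' (A ∪ D))` by `cA x`, `Dec Q (m '' (B ∪ D))` by `cB d` (transport along
    `span {x} = span {d}`, for example with `dec_mkQ` for `f = (span {x}).mkQ`).
    The three vectors `m p, m q, m p + m q` are `0, r, r` up to sign, for one vector `r`
    (`d = p`: `r = m q`; `d = q`: `r = m p`; `d = p + q`: `r = m p`, `m q = - m p`;
    if `q = 0`, `d = p`: `r = 0`).
    Since `x ∈ span (A ∪ D) ⊓ span (B ∪ D)`, the images satisfy
    `m (span (A ∪ D)) ⊓ m (span (B ∪ D)) = m (span (A ∪ D) ⊓ span (B ∪ D)) = span {r}`.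
    `Dec.sum` with `p := r`, `q := 0` and `dec_mono`.
(3) `x = 0`: `m` is injective, everything by `dec_map` (or from `Dec.sum` itself).
-/

namespace RC

open Submodule Module

private theorem con_neg {V : Type} [AddCommGroup V] [Module ℚ V] (d : V) :
    span ℚ {-d} = span ℚ {d} := by
  apply le_antisymm
  · rw [Submodule.span_singleton_le_iff_mem]
    exact Submodule.neg_mem _ (subset_span rfl)
  · rw [Submodule.span_singleton_le_iff_mem]
    have h1 : - -d ∈ span ℚ {-d} := Submodule.neg_mem _ (subset_span rfl)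
    rwa [neg_neg] at h1

private theorem con_inter {V : Type} [AddCommGroup V] [Module ℚ V] (A B : Set V) (p q x : V)
    (h : span ℚ (A ∪ {p, q}) ⊓ span ℚ (B ∪ {p, q}) = span ℚ {p, q})
    (hx : x ∈ span ℚ (A ∪ {p, q})) (r s : V ⧸ span ℚ {x})
    (hrs : span ℚ {r, s} = (span ℚ {p, q}).map (span ℚ {x}).mkQ) :
    span ℚ ((span ℚ {x}).mkQ '' A ∪ {r, s}) ⊓ span ℚ ((span ℚ {x}).mkQ '' B ∪ {r, s}) =
      span ℚ {r, s} := by
  have e1 : ∀ C : Set V, span ℚ ((span ℚ {x}).mkQ '' C ∪ {r, s}) =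
      (span ℚ (C ∪ {p, q})).map (span ℚ {x}).mkQ := by
    intro C
    rw [span_union, span_union, Submodule.map_sup, hrs, Submodule.map_span _ C]
  rw [e1 A, e1 B, hrs]
  apply le_antisymm
  · rintro z ⟨⟨a, ha, rfl⟩, ⟨b, hb, hab⟩⟩
    have h1 : b - a ∈ span ℚ {x} := by
      rw [← Submodule.ker_mkQ (span ℚ {x}), LinearMap.mem_ker, map_sub, hab, sub_self]
    have h2 : span ℚ {x} ≤ span ℚ (A ∪ {p, q}) := by
      rw [Submodule.span_singleton_le_iff_mem]
      exact hx
    have h3 : b ∈ span ℚ (A ∪ {p, q}) := by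
      have h4 := Submodule.add_mem _ ha (h2 h1)
      rwa [add_sub_cancel] at h4
    have h4 : b ∈ span ℚ {p, q} := by
      rw [← h]
      exact ⟨h3, hb⟩
    exact ⟨b, h4, hab⟩
  · rw [← h]
    exact le_inf (Submodule.map_mono inf_le_left) (Submodule.map_mono inf_le_right)

private theorem con_core {V : Type} [AddCommGroup V] [Module ℚ V] (A B : Set V) (p q x : V)
    (h : span ℚ (A ∪ {p, q}) ⊓ span ℚ (B ∪ {p, q}) = span ℚ {p, q})
    (hx : x ∈ span ℚ (A ∪ {p, q})) (r s : V ⧸ span ℚ {x})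
    (hrs : span ℚ {r, s} = (span ℚ {p, q}).map (span ℚ {x}).mkQ)
    (hli : LinearIndependent ℚ ![r, s] ∨ s = 0)
    (dA : Dec (V ⧸ span ℚ {x}) ((span ℚ {x}).mkQ '' A ∪ {r, s, r + s}))
    (dB : Dec (V ⧸ span ℚ {x}) ((span ℚ {x}).mkQ '' B ∪ {r, s, r + s})) :
    Dec (V ⧸ span ℚ {x}) ((span ℚ {x}).mkQ '' (A ∪ B)) := by
  rw [Set.image_union]
  exact Dec.sum _ _ r s hli (con_inter A B p q x h hx r s hrs) dA dB

private theorem con_sum_aux {V : Type} [AddCommGroup V] [Module ℚ V] (A B : Set V) (p q : V)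
    (hpq : LinearIndependent ℚ ![p, q] ∨ q = 0)
    (h : span ℚ (A ∪ {p, q}) ⊓ span ℚ (B ∪ {p, q}) = span ℚ {p, q})
    (hA : Dec V (A ∪ {p, q, p + q})) (hB : Dec V (B ∪ {p, q, p + q}))
    (cA : ∀ x ∈ A ∪ {p, q, p + q},
      Dec (V ⧸ span ℚ {x}) ((span ℚ {x}).mkQ '' (A ∪ {p, q, p + q})))
    (cB : ∀ x ∈ B ∪ {p, q, p + q},
      Dec (V ⧸ span ℚ {x}) ((span ℚ {x}).mkQ '' (B ∪ {p, q, p + q})))
    {x : V} (hx : x ∈ A) : Dec (V ⧸ span ℚ {x}) ((span ℚ {x}).mkQ '' (A ∪ B)) := by
  have hxA : x ∈ span ℚ (A ∪ {p, q}) := subset_span (Or.inl hx)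
  have hmk : ∀ y : V, (span ℚ {x}).mkQ y = 0 ↔ y ∈ span ℚ {x} := by
    intro y
    rw [← LinearMap.mem_ker, Submodule.ker_mkQ]
  by_cases hx0 : x = 0
  · have hAB : Dec V (A ∪ B) := Dec.sum A B p q hpq h hA hB
    refine dec_map _ hAB ?_
    intro y _ hy
    rw [hmk, hx0, Submodule.span_zero_singleton, Submodule.mem_bot] at hy
    exact hy
  by_cases hxs : x ∈ span ℚ {p, q}
  · -- `x` in the span of `p, q`
    have hcase : (x = p ∨ x = -p) ∨ (x = q ∨ x = -q) ∨ (x = p + q ∨ x = -(p + q)) := by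
      rcases hpq with li | hq0
      · rcases uni_plane (dec_uni hA) (Or.inr (Or.inl rfl)) (Or.inr (Or.inr (Or.inl rfl)))
          (Or.inr (Or.inr (Or.inr rfl))) li (Or.inl hx) hxs with
          h0 | h1 | h1 | h1 | h1 | h1 | h1
        · exact absurd h0 hx0
        · exact Or.inl (Or.inl h1)
        · exact Or.inl (Or.inr h1)
        · exact Or.inr (Or.inl (Or.inl h1))
        · exact Or.inr (Or.inl (Or.inr h1))
        · exact Or.inr (Or.inr (Or.inl h1))
        · exact Or.inr (Or.inr (Or.inr h1))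
      · left
        have hxp : x ∈ span ℚ {p} := by
          rw [hq0] at hxs
          have h1 : span ℚ ({p, 0} : Set V) = span ℚ {p} := by
            rw [Set.pair_comm, Submodule.span_insert_zero]
          rwa [h1] at hxs
        obtain ⟨t, rfl⟩ := Submodule.mem_span_singleton.1 hxp
        have hp0 : p ≠ 0 := by
          rintro rfl
          exact hx0 (smul_zero t)
        have ht : t ≠ 0 := by
          rintro rfl
          exact hx0 (zero_smul ℚ p)
        refine uni_par (dec_uni hA) (x := p) (y := t • p) (Or.inr (Or.inl rfl)) (Or.inl hx)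
          hp0 hx0 ?_
        rw [LinearIndependent.pair_iff' hp0]
        push Not
        exact ⟨t, rfl⟩
    -- common part
    have key : ∀ (d : V), (x = d ∨ x = -d) → d ∈ ({p, q, p + q} : Set V) →
        ∀ r : V ⧸ span ℚ {x}, (r = (span ℚ {x}).mkQ p ∨ r = (span ℚ {x}).mkQ q) →
        (((span ℚ {x}).mkQ p = 0 ∧ (span ℚ {x}).mkQ q = r) ∨
          ((span ℚ {x}).mkQ p = r ∧ (span ℚ {x}).mkQ q = 0) ∨
          ((span ℚ {x}).mkQ p = r ∧ (span ℚ {x}).mkQ q = -r)) →
        Dec (V ⧸ span ℚ {x}) ((span ℚ {x}).mkQ '' (A ∪ B)) := by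
      intro d hd hdD r hr hcs
      have hsp : span ℚ {x} = span ℚ {d} := by
        rcases hd with hd | hd
        · rw [hd]
        · rw [hd]
          exact con_neg d
      have hdx : d ∈ span ℚ {x} := by
        rw [hsp]
        exact subset_span rfl
      have hB2 : Dec (V ⧸ span ℚ {x}) ((span ℚ {x}).mkQ '' (B ∪ {p, q, p + q})) := by
        refine dec_mkQ _ (x := d) (Or.inr hdD) ((hmk d).2 hdx) ?_ (cB d (Or.inr hdD))
        intro y _ hy
        rw [← hsp]
        exact (hmk y).1 hy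
      have hA2 := cA x (Or.inl hx)
      have hmono : ∀ C : Set V, Dec (V ⧸ span ℚ {x}) ((span ℚ {x}).mkQ '' (C ∪ {p, q, p + q})) →
          Dec (V ⧸ span ℚ {x}) ((span ℚ {x}).mkQ '' C ∪ {r, 0, r + 0}) := by
        intro C hC
        refine dec_mono hC ?_
        have hr2 : r ∈ (span ℚ {x}).mkQ '' (C ∪ {p, q, p + q}) := by
          rcases hr with hr | hr
          · exact ⟨p, Or.inr (Or.inl rfl), hr.symm⟩
          · exact ⟨q, Or.inr (Or.inr (Or.inl rfl)), hr.symm⟩
        rintro z (⟨c, hc, rfl⟩ | rfl | rfl | rfl)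
        · exact Or.inr (Or.inl ⟨c, Or.inl hc, rfl⟩)
        · exact Or.inr (Or.inl hr2)
        · exact Or.inl rfl
        · right
          left
          rw [add_zero]
          exact hr2
      refine con_core A B p q x h hxA r 0 ?_ (Or.inr rfl) (hmono A hA2) (hmono B hB2)
      have h1 : span ℚ ({r, 0} : Set (V ⧸ span ℚ {x})) = span ℚ {r} := by
        rw [Set.pair_comm, Submodule.span_insert_zero]
      rw [h1, Submodule.map_span, Set.image_pair]
      rcases hcs with ⟨e1, e2⟩ | ⟨e1, e2⟩ | ⟨e1, e2⟩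
      · rw [e1, e2, Submodule.span_insert_zero]
      · rw [e1, e2, h1]
      · rw [e1, e2]
        apply le_antisymm
        · exact Submodule.span_mono (by intro z hz; left; exact hz)
        · rw [Submodule.span_le]
          rintro z (rfl | rfl)
          · exact subset_span rfl
          · exact Submodule.neg_mem _ (subset_span rfl)
    have hz : ∀ d : V, (x = d ∨ x = -d) → (span ℚ {x}).mkQ d = 0 := by
      intro d hd
      rw [hmk]
      rcases hd with hd | hd
      · rw [hd]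
        exact subset_span rfl
      · rw [hd, con_neg]
        exact subset_span rfl
    rcases hcase with hd | hd | hd
    · exact key p hd (Or.inl rfl) _ (Or.inr rfl) (Or.inl ⟨hz p hd, rfl⟩)
    · exact key q hd (Or.inr (Or.inl rfl)) _ (Or.inl rfl) (Or.inr (Or.inl ⟨rfl, hz q hd⟩))
    · refine key (p + q) hd (Or.inr (Or.inr rfl)) _ (Or.inl rfl) (Or.inr (Or.inr ⟨rfl, ?_⟩))
      have h1 := hz (p + q) hd
      rw [map_add, add_eq_zero_iff_eq_neg'] at h1
      exact h1
  · -- `x` not in the span of `p, q`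
    have himg : ∀ C : Set V, (span ℚ {x}).mkQ '' (C ∪ {p, q, p + q}) =
        (span ℚ {x}).mkQ '' C ∪ {(span ℚ {x}).mkQ p, (span ℚ {x}).mkQ q,
          (span ℚ {x}).mkQ p + (span ℚ {x}).mkQ q} := by
      intro C
      rw [Set.image_union, Set.image_insert_eq, Set.image_insert_eq, Set.image_singleton,
        map_add]
    have hspan : span ℚ (B ∪ {p, q, p + q}) = span ℚ (B ∪ {p, q}) := by
      rw [span_union, span_union]
      congr 1
      apply le_antisymm
      · rw [Submodule.span_le]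
        rintro z (rfl | rfl | rfl)
        · exact subset_span (Or.inl rfl)
        · exact subset_span (Or.inr rfl)
        · exact Submodule.add_mem _ (subset_span (Or.inl rfl)) (subset_span (Or.inr rfl))
      · refine Submodule.span_mono ?_
        rintro z (rfl | rfl)
        · exact Or.inl rfl
        · exact Or.inr (Or.inl rfl)
    refine con_core A B p q x h hxA ((span ℚ {x}).mkQ p) ((span ℚ {x}).mkQ q) ?_ ?_ ?_ ?_
    · rw [Submodule.map_span, Set.image_pair]
    · rcases hpq with li | hq0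
      · left
        have h1 : LinearIndependent ℚ (⇑(span ℚ {x}).mkQ ∘ ![p, q]) := by
          refine li.map ?_
          rw [Submodule.ker_mkQ, Matrix.range_cons, Matrix.range_cons, Matrix.range_empty,
            Set.union_empty, Submodule.disjoint_def]
          intro y hy1 hy2
          obtain ⟨t, rfl⟩ := Submodule.mem_span_singleton.1 hy2
          by_cases ht : t = 0
          · rw [ht, zero_smul]
          · exfalso
            apply hxs
            have h2 := Submodule.smul_mem _ t⁻¹ hy1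
            rw [smul_smul, inv_mul_cancel₀ ht, one_smul] at h2
            exact h2
        have h2 : (⇑(span ℚ {x}).mkQ ∘ ![p, q]) =
            ![(span ℚ {x}).mkQ p, (span ℚ {x}).mkQ q] := by
          funext i
          fin_cases i <;> rfl
        rwa [h2] at h1
      · right
        rw [hq0, map_zero]
    · rw [← himg]
      exact cA x (Or.inl hx)
    · rw [← himg]
      refine dec_map _ hB ?_
      intro y hy hy0
      rw [hspan] at hy
      rw [hmk] at hy0
      obtain ⟨t, rfl⟩ := Submodule.mem_span_singleton.1 hy0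
      by_cases ht : t = 0
      · rw [ht, zero_smul]
      · exfalso
        apply hxs
        have h2 := Submodule.smul_mem _ t⁻¹ hy
        rw [smul_smul, inv_mul_cancel₀ ht, one_smul] at h2
        rw [← h]
        exact ⟨hxA, h2⟩

theorem con_sum {V : Type} [AddCommGroup V] [Module ℚ V] (A B : Set V) (p q : V)
    (hpq : LinearIndependent ℚ ![p, q] ∨ q = 0)
    (h : span ℚ (A ∪ {p, q}) ⊓ span ℚ (B ∪ {p, q}) = span ℚ {p, q})
    (hA : Dec V (A ∪ {p, q, p + q})) (hB : Dec V (B ∪ {p, q, p + q}))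
    (cA : ∀ x ∈ A ∪ {p, q, p + q},
      Dec (V ⧸ span ℚ {x}) ((span ℚ {x}).mkQ '' (A ∪ {p, q, p + q})))
    (cB : ∀ x ∈ B ∪ {p, q, p + q},
      Dec (V ⧸ span ℚ {x}) ((span ℚ {x}).mkQ '' (B ∪ {p, q, p + q})))
    {x : V} (hx : x ∈ A ∪ B) : Dec (V ⧸ span ℚ {x}) ((span ℚ {x}).mkQ '' (A ∪ B)) := by
  rcases hx with hx | hx
  · exact con_sum_aux A B p q hpq h hA hB cA cB hx
  · rw [Set.union_comm A B]
    rw [inf_comm] at h
    exact con_sum_aux B A p q hpq h hB hA cB cA hx

end RC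

end
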