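import Pool.Agent.Helper29.MFA.T03

section

/-!
RCS-7a (gadgets of new single elements).

gad1: `ext_id` with `k = 1`, `m = 1`, `g = ![x]`, `γ = ![Sum.inr 0]`, `Y = {x}`.  `bd (u + b + 1)
(u + 2 b + 1) = bb (u + 1) b = u + 1 + b / 2` (`bd_eq_bb`).  The result: `T` with `T.card + 1 ≤ u + 1 + b / 2`
and `β 0 • x ∈ span T`, `β 0 ≠ 0`, so `x ∈ span T`.

gad2: `ext_id` with `k = 2`, `m = 2`, `g = ![x, y]`, `γ = ![Sum.inr 0, Sum.inr 1]`, `Y = {x, y, z}`.
`bd (u + b + 2) (u + 2 b + 2) = bb (u + 2) b = u + 2 + b / 2`.  If `β 1 = 0` then `x ∈ span T`, `T.card ≤ u + 1 + b / 2`.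
If `β 0 = 0` the same for `y`.  If both are not zero then `T.card ≤ u + b / 2` and
`β 0 • x + β 1 • y ∈ span T`, by `line3` `x`, `y` or `z` is in the span of `T`.
-/

namespace RC

open Submodule Module

variable {C : ClsT} {ι κ V : Type} [AddCommGroup V] [Module ℚ V] {h : ℕ}
  {v : ι → V} {c : ι → κ} {E : Finset ι} {e0 : ι}

theorem gadA_one {k : ℕ} {β : Fin k → ℚ} {i : Fin k} (hi : β i ≠ 0) :
    1 ≤ (Finset.univ.filter fun i => β i ≠ 0).card :=
  Finset.card_pos.2 ⟨i, Finset.mem_filter.2 ⟨Finset.mem_univ _, hi⟩⟩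

theorem gadA_two {k : ℕ} {β : Fin k → ℚ} {i i' : Fin k} (hi : β i ≠ 0) (hi' : β i' ≠ 0)
    (hne : i ≠ i') : 2 ≤ (Finset.univ.filter fun i => β i ≠ 0).card := by
  have h1 : ({i, i'} : Finset (Fin k)) ⊆ Finset.univ.filter fun i => β i ≠ 0 := by
    intro j hj
    rw [Finset.mem_insert, Finset.mem_singleton] at hj
    rcases hj with rfl | rfl
    · exact Finset.mem_filter.2 ⟨Finset.mem_univ _, hi⟩
    · exact Finset.mem_filter.2 ⟨Finset.mem_univ _, hi'⟩
  have h2 := Finset.card_le_card h1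
  rwa [Finset.card_pair hne] at h2

theorem gadA_smul {U : Submodule ℚ V} {r : ℚ} {y : V} (hr : r ≠ 0) (h : r • y ∈ U) : y ∈ U := by
  have := U.smul_mem r⁻¹ h
  rwa [smul_smul, inv_mul_cancel₀ hr, one_smul] at this

theorem gadA_Y {X : Finset ι} {x y z : V} (hs : Side C v X x y z) :
    ({x, y, z} : Set V) ⊆ span ℚ (v '' (X : Set ι)) := by
  intro w hw
  simp only [Set.mem_insert_iff, Set.mem_singleton_iff] at hw
  rcases hw with rfl | rfl | rfl
  · exact hs.memx
  · exact hs.memy
  · exact hs.memz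

theorem gad1 (hC : Cls C) (hB : Bad C h v c E e0) {S X : Finset ι} (hS : S ⊆ X) (hX : X ⊆ E)
    {x : V} (hcls : C V (v '' (X : Set ι) ∪ {x})) (hx0 : x ≠ 0)
    (hx : x ∈ span ℚ (v '' (X : Set ι))) {u b : ℕ} (hcnt : Cnt c S u b)
    (hr : rk v X ≤ u + b) (hn : u + b + 1 < 2 * h) (hb : u + 1 + b / 2 ≤ h) :
    Spn v c S x (u + b / 2) := by
  have hbd : bd (u + b + 1) (u + 2 * b + 1) = u + 1 + b / 2 := by
    unfold bd
    rw [if_neg (by omega)]
    omega
  obtain ⟨T, β, hT, hi, hc, hne, hinj, hnew, hw⟩ := ext_id hC hB hS hX hcls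
    (by intro w hw; rw [Set.mem_singleton_iff] at hw; rw [hw]; exact hx)
    (k := 1) (m := 1) hcnt ![x] ![Sum.inr 0]
    (by intro i; fin_cases i; simp)
    (by intro i; fin_cases i; exact hx0)
    (by
      intro i q hq
      fin_cases i
      cases hq)
    (by
      intro i i' hne _
      exact absurd (Subsingleton.elim i i') hne)
    (by
      intro i i' i'' _ _
      exact Or.inl (Subsingleton.elim i i'))
    (by
      intro t
      refine ⟨0, ?_⟩
      have : t = 0 := Subsingleton.elim _ _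
      rw [this]
      rfl)
    (by omega) (by omega)
    (by rw [hbd]; exact hb)
  rw [hbd] at hc
  rw [Fin.sum_univ_one] at hw
  have hw' : β 0 • x ∈ span ℚ (v '' (T : Set ι)) := hw
  have h0 : β 0 ≠ 0 := by
    obtain ⟨i, hi⟩ := hne
    fin_cases i
    exact hi
  have h2 := gadA_one h0
  exact ⟨T, hT, by omega, hi, gadA_smul h0 hw'⟩

theorem gad2 (hC : Cls C) (hB : Bad C h v c E e0) {S X : Finset ι} (hS : S ⊆ X) (hX : X ⊆ E)
    {x y z : V} (hs : Side C v X x y z) {u b : ℕ} (hcnt : Cnt c S u b)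
    (hr : rk v X ≤ u + b + 1) (hn : u + b + 2 < 2 * h) (hb : u + 2 + b / 2 ≤ h) :
    Spn v c S x (u + 1 + b / 2) ∨ Spn v c S y (u + 1 + b / 2) ∨ Spn v c S z (u + b / 2) := by
  have hbd : bd (u + b + 2) (u + 2 * b + 2) = u + 2 + b / 2 := by
    unfold bd
    rw [if_neg (by omega)]
    omega
  obtain ⟨T, β, hT, hi, hc, hne, hinj, hnew, hw⟩ := ext_id hC hB hS hX hs.cls (gadA_Y hs)
    (k := 2) (m := 2) hcnt ![x, y] ![Sum.inr 0, Sum.inr 1]
    (by intro i; fin_cases i <;> simp)
    (by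
      intro i
      fin_cases i
      · exact hs.ne_x
      · exact hs.ne_y)
    (by
      intro i q hq
      fin_cases i
      · cases hq
      · cases hq)
    (by
      intro i i' hne hii
      fin_cases i <;> fin_cases i'
      · exact absurd rfl hne
      · exact absurd hii (by simp)
      · exact absurd hii (by simp)
      · exact absurd rfl hne)
    (by
      intro i i' i'' _ _
      fin_cases i <;> fin_cases i' <;> fin_cases i'' <;> simp)
    (by
      intro t
      fin_cases t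
      · exact ⟨0, rfl⟩
      · exact ⟨1, rfl⟩)
    (by (clear * - h hr hbd; omega)) (by omega)
    (by rw [hbd]; exact hb)
  rw [hbd] at hc
  rw [Fin.sum_univ_two] at hw
  have hw' : β 0 • x + β 1 • y ∈ span ℚ (v '' (T : Set ι)) := hw
  by_cases h0 : β 0 = 0
  · have h1 : β 1 ≠ 0 := by
      obtain ⟨i, hi⟩ := hne
      fin_cases i
      · exact absurd h0 hi
      · exact hi
    have h2 := gadA_one h1
    rw [h0, zero_smul, zero_add] at hw'
    exact Or.inr (Or.inl ⟨T, hT, by (clear * - h v X hbd hc h2; omega), hi, gadA_smul h1 hw'⟩)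
  · by_cases h1 : β 1 = 0
    · have h2 := gadA_one h0
      rw [h1, zero_smul, add_zero] at hw'
      exact Or.inl ⟨T, hT, by omega, hi, gadA_smul h0 hw'⟩
    · have h2 := gadA_two h0 h1 (by decide)
      rcases line3 hC hs (hT.trans hS) (Or.inl h0) hw' with h3 | h3 | h3
      · exact Or.inl ⟨T, hT, by omega, hi, h3⟩
      · exact Or.inr (Or.inl ⟨T, hT, by omega, hi, h3⟩)
      · exact Or.inr (Or.inr ⟨T, hT, by omega, hi, h3⟩)

end RC

end

section

/-!
RCS-7b (gadgets with a pair `{x, y}` of the same new colour).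

gad3: `ext_id` with `k = 2`, `m = 1`, `g = ![x, y]`, `γ = ![Sum.inr 0, Sum.inr 0]`, `Y = {x, y, z}`.
`bd (u + b + 1) (u + 2 b + 2) = bb u (b + 1)` (`bd_eq_bb`).  At most one of `β 0`, `β 1` is not zero (same
colour), so `x ∈ span T` or `y ∈ span T` with `T.card + 1 ≤ bb u (b + 1)`.

gad4: `ext_id` with `k = 3`, `m = 2`, `g = ![x, y, z]`, `γ = ![Sum.inr 0, Sum.inr 0, Sum.inr 1]`,
`Y = {x, y, z}`.  `bd (u + b + 2) (u + 2 b + 3) = bb (u + 1) (b + 1) = u + 1 + (b + 1) / 2`.  At most one of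
`β 0`, `β 1` is not zero.  If only one `β i` is not zero then `g i ∈ span T`.  If `β 2 ≠ 0` and one of
`β 0`, `β 1` is not zero then `line3'` (`line3''`) gives one of `x, y, z` in `span T`.  In all cases
`T.card ≤ u + (b + 1) / 2`.
-/

namespace RC

open Submodule Module

variable {C : ClsT} {ι κ V : Type} [AddCommGroup V] [Module ℚ V] {h : ℕ}
  {v : ι → V} {c : ι → κ} {E : Finset ι} {e0 : ι}

theorem gad3 (hC : Cls C) (hB : Bad C h v c E e0) {S X : Finset ι} (hS : S ⊆ X) (hX : X ⊆ E)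
    {x y z : V} (hs : Side C v X x y z) {u b : ℕ} (hcnt : Cnt c S u b)
    (hr : rk v X ≤ u + b) (hn : u + b + 1 < 2 * h) (hb : bb u (b + 1) ≤ h) :
    Spn v c S x (bb u (b + 1) - 1) ∨ Spn v c S y (bb u (b + 1) - 1) := by
  have hbd : bd (u + b + 1) (u + 2 * b + 2) = bb u (b + 1) := by
    rw [← bd_eq_bb]
    congr 1
  obtain ⟨T, β, hT, hi, hc, hne, hinj, hnew, hw⟩ := ext_id hC hB hS hX hs.cls (gadA_Y hs)
    (k := 2) (m := 1) hcnt ![x, y] ![Sum.inr 0, Sum.inr 0]
    (by intro i; fin_cases i <;> simp)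
    (by
      intro i
      fin_cases i
      · exact hs.ne_x
      · exact hs.ne_y)
    (by
      intro i q hq
      fin_cases i
      · cases hq
      · cases hq)
    (by
      intro i i' hne hii
      fin_cases i <;> fin_cases i'
      · exact absurd rfl hne
      · exact ⟨⟨0, rfl⟩, hs.li⟩
      · exact ⟨⟨0, rfl⟩, li_swap hs.li⟩
      · exact absurd rfl hne)
    (by
      intro i i' i'' _ _
      fin_cases i <;> fin_cases i' <;> fin_cases i'' <;> simp)
    (by
      intro t
      refine ⟨0, ?_⟩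
      have : t = 0 := Subsingleton.elim _ _
      rw [this]
      rfl)
    (by (clear * - h hr; omega)) (by omega)
    (by rw [hbd]; exact hb)
  rw [hbd] at hc
  rw [Fin.sum_univ_two] at hw
  have hw' : β 0 • x + β 1 • y ∈ span ℚ (v '' (T : Set ι)) := hw
  have h01 : β 0 = 0 ∨ β 1 = 0 := by
    by_contra hno
    push Not at hno
    have := hinj 0 1 hno.1 hno.2 rfl
    exact absurd this (by decide)
  by_cases h0 : β 0 = 0
  · have h1 : β 1 ≠ 0 := by
      obtain ⟨i, hi⟩ := hne
      fin_cases i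
      · exact absurd h0 hi
      · exact hi
    have h2 := gadA_one h1
    rw [h0, zero_smul, zero_add] at hw'
    exact Or.inr ⟨T, hT, by omega, hi, gadA_smul h1 hw'⟩
  · have h1 : β 1 = 0 := h01.resolve_left h0
    have h2 := gadA_one h0
    rw [h1, zero_smul, add_zero] at hw'
    exact Or.inl ⟨T, hT, by omega, hi, gadA_smul h0 hw'⟩

theorem gad4 (hC : Cls C) (hB : Bad C h v c E e0) {S X : Finset ι} (hS : S ⊆ X) (hX : X ⊆ E)
    {x y z : V} (hs : Side C v X x y z) {u b : ℕ} (hcnt : Cnt c S u b)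
    (hr : rk v X ≤ u + b + 1) (hn : u + b + 2 < 2 * h) (hb : u + 1 + (b + 1) / 2 ≤ h) :
    Spn v c S x (u + (b + 1) / 2) ∨ Spn v c S y (u + (b + 1) / 2) ∨
      Spn v c S z (u + (b + 1) / 2) := by
  have hbd : bd (u + b + 2) (u + 2 * b + 3) = u + 1 + (b + 1) / 2 := by
    unfold bd
    rw [if_neg (by omega)]
    omega
  obtain ⟨T, β, hT, hi, hc, hne, hinj, hnew, hw⟩ := ext_id hC hB hS hX hs.cls (gadA_Y hs)
    (k := 3) (m := 2) hcnt ![x, y, z] ![Sum.inr 0, Sum.inr 0, Sum.inr 1]
    (by intro i; fin_cases i <;> simp)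
    (by
      intro i
      fin_cases i
      · exact hs.ne_x
      · exact hs.ne_y
      · exact hs.ne_z)
    (by
      intro i q hq
      fin_cases i
      · cases hq
      · cases hq
      · cases hq)
    (by
      intro i i' hne hii
      fin_cases i <;> fin_cases i'
      · exact absurd rfl hne
      · exact ⟨⟨0, rfl⟩, hs.li⟩
      · exact absurd hii (by simp)
      · exact ⟨⟨0, rfl⟩, li_swap hs.li⟩
      · exact absurd rfl hne
      · exact absurd hii (by simp)
      · exact absurd hii (by simp)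
      · exact absurd hii (by simp)
      · exact absurd rfl hne)
    (by
      intro i i' i'' h1 h2
      fin_cases i <;> fin_cases i' <;> fin_cases i'' <;>
        first
          | exact Or.inl rfl
          | exact Or.inr (Or.inl rfl)
          | exact Or.inr (Or.inr rfl)
          | (exfalso; simp at h1 h2; done))
    (by
      intro t
      fin_cases t
      · exact ⟨0, rfl⟩
      · exact ⟨2, rfl⟩)
    (by (clear * - h hr hbd; omega)) (by omega) (by rw [hbd]; exact hb)
  rw [hbd] at hc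
  rw [Fin.sum_univ_three] at hw
  have hw' : β 0 • x + β 1 • y + β 2 • z ∈ span ℚ (v '' (T : Set ι)) := hw
  have h01 : β 0 = 0 ∨ β 1 = 0 := by
    by_contra hno
    push Not at hno
    have := hinj 0 1 hno.1 hno.2 rfl
    exact absurd this (by decide)
  have hpos : 1 ≤ (Finset.univ.filter fun i => β i ≠ 0).card := by
    obtain ⟨i, hi⟩ := hne
    exact gadA_one hi
  have fin : (x ∈ span ℚ (v '' (T : Set ι)) ∨ y ∈ span ℚ (v '' (T : Set ι)) ∨
      z ∈ span ℚ (v '' (T : Set ι))) → Spn v c S x (u + (b + 1) / 2) ∨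
      Spn v c S y (u + (b + 1) / 2) ∨ Spn v c S z (u + (b + 1) / 2) := by
    rintro (h3 | h3 | h3)
    · exact Or.inl ⟨T, hT, by omega, hi, h3⟩
    · exact Or.inr (Or.inl ⟨T, hT, by omega, hi, h3⟩)
    · exact Or.inr (Or.inr ⟨T, hT, by omega, hi, h3⟩)
  apply fin
  rcases h01 with h0 | h1
  · rw [h0, zero_smul, zero_add] at hw'
    refine line3'' hC hs (hT.trans hS) ?_ hw'
    obtain ⟨i, hi⟩ := hne
    fin_cases i
    · exact absurd h0 hi
    · exact Or.inl hi
    · exact Or.inr hi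
  · rw [h1, zero_smul, add_zero] at hw'
    refine line3' hC hs (hT.trans hS) ?_ hw'
    obtain ⟨i, hi⟩ := hne
    fin_cases i
    · exact Or.inl hi
    · exact absurd h1 hi
    · exact Or.inr hi

end RC

end

section

/-!
RCS-7d (the claw gadget).  `ext_lemma` with `W = V × ℚ`, `j = LinearMap.inl ℚ V ℚ`, `k = 3`, `m = 2`,
`g = ![(0, 1), (x, 1), (-y, 1)]`, `γ = ![Sum.inr 0, Sum.inr 1, Sum.inr 1]`.

`hcls`: `hC.claw` with `p = x`, `q = y` and the set `v '' X ∪ {x, y, x + y}` (in the class by `hC.mono`,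
since `-(x + y) = z`), then `hC.mono`.  Independence of `(x, 1)`, `(-y, 1)`: second coordinates, and
`x`, `y` independent.  Rank: the span is contained in `span (v '' X) × ℚ`, of dimension
`rk v X + 1` (`x, y ∈ span (v '' X)`), so at most `u + b + 1`.  `bd (u + b + 2) (u + 2 b + 3) =
bb (u + 1) (b + 1) = u + 1 + (b + 1) / 2`.

The result: `(y', 0) = β 0 • (0, 1) + β 1 • (x, 1) + β 2 • (-y, 1)` with `y' ∈ span T`, at most one of
`β 1`, `β 2` nonzero.  The second coordinate: `β 0 + β 1 + β 2 = 0`, so (`β ≠ 0`) `β 0 ≠ 0` and exactly one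
of `β 1`, `β 2` is not zero: `y' = β 1 x` or `y' = - β 2 y`, and `T.card + 2 ≤ u + 1 + (b + 1) / 2`.
-/

namespace RC

open Submodule Module

variable {C : ClsT} {ι κ V : Type} [AddCommGroup V] [Module ℚ V] {h : ℕ}
  {v : ι → V} {c : ι → κ} {E : Finset ι} {e0 : ι}

theorem gad7 (hC : Cls C) (hB : Bad C h v c E e0) {S X : Finset ι} (hS : S ⊆ X) (hX : X ⊆ E)
    {x y z : V} (hs : Side C v X x y z) {u b : ℕ} (hcnt : Cnt c S u b)
    (hr : rk v X ≤ u + b) (hn : u + b + 2 < 2 * h) (hb : u + 1 + (b + 1) / 2 ≤ h) :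
    Spn v c S x (u + (b + 1) / 2 - 1) ∨ Spn v c S y (u + (b + 1) / 2 - 1) := by
  classical
  have hbd : bd (u + b + 2) (u + 2 * b + 3) = u + 1 + (b + 1) / 2 := by
    have h1 := bd_eq_bb (u + 1) (b + 1)
    have e1 : u + 1 + (b + 1) = u + b + 2 := by omega
    have e2 : u + 1 + 2 * (b + 1) = u + 2 * b + 3 := by omega
    rw [e1, e2] at h1
    rw [h1]
    unfold bb
    rw [if_neg (by omega)]
  have hSX : v '' (S : Set ι) ⊆ v '' (X : Set ι) := Set.image_mono (by exact_mod_cast hS)
  set g : Fin 3 → V × ℚ := ![(0, 1), (x, 1), (-y, 1)] with hgdef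
  set γ : Fin 3 → κ ⊕ Fin 2 := ![Sum.inr 0, Sum.inr 1, Sum.inr 1] with hγdef
  have g0 : g 0 = (0, 1) := rfl
  have g1 : g 1 = (x, 1) := rfl
  have g2 : g 2 = (-y, 1) := rfl
  have γ0 : γ 0 = Sum.inr 0 := rfl
  have γ1 : γ 1 = Sum.inr 1 := rfl
  have γ2 : γ 2 = Sum.inr 1 := rfl
  have hjinl : ∀ w : V, LinearMap.inl ℚ V ℚ w = (w, 0) := fun w => rfl
  -- the class
  have hX' : C V (v '' (X : Set ι) ∪ {x, y, x + y}) := by
    refine hC.mono hs.cls ?_
    intro w hw
    rcases hw with hw | hw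
    · exact Or.inr (Or.inl (Or.inl hw))
    · simp only [Set.mem_insert_iff, Set.mem_singleton_iff] at hw
      rcases hw with rfl | rfl | rfl
      · exact Or.inr (Or.inl (Or.inr (by simp)))
      · exact Or.inr (Or.inl (Or.inr (by simp)))
      · refine Or.inr (Or.inr (Or.inr ?_))
        have h1 : -(x + y) = z := by
          rw [hs.eq_z]
          abel
        rw [h1]
        simp
  have hcl := hC.claw hX' (p := x) (q := y) (Or.inr (by simp)) (Or.inr (by simp))
    (Or.inr (by simp)) hs.li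
  have hcls : C (V × ℚ) (LinearMap.inl ℚ V ℚ '' (v '' (S : Set ι)) ∪ Set.range g) := by
    refine hC.mono hcl ?_
    intro w hw
    refine Or.inr (Or.inl ?_)
    rcases hw with ⟨w', hw', rfl⟩ | ⟨i, rfl⟩
    · exact Or.inl ⟨w', Or.inl (hSX hw'), rfl⟩
    · refine Or.inr ?_
      fin_cases i
      · simp [hgdef]
      · simp [hgdef]
      · simp [hgdef]
  -- the rank
  have hfin : FiniteDimensional ℚ (span ℚ (v '' (X : Set ι))) :=
    FiniteDimensional.span_of_finite ℚ ((Finset.finite_toSet X).image v)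
  have hrank : finrank ℚ (span ℚ (LinearMap.inl ℚ V ℚ '' (v '' (S : Set ι)) ∪ Set.range g)) + 1
      ≤ u + b + 2 := by
    set A : Submodule ℚ (V × ℚ) := (span ℚ (v '' (X : Set ι))).map (LinearMap.inl ℚ V ℚ) with hA
    set B : Submodule ℚ (V × ℚ) := span ℚ {((0 : V), (1 : ℚ))} with hB'
    have hfA : FiniteDimensional ℚ A := by
      rw [hA]
      infer_instance
    have hfB : FiniteDimensional ℚ B := by
      rw [hB']
      infer_instance
    have hle : span ℚ (LinearMap.inl ℚ V ℚ '' (v '' (S : Set ι)) ∪ Set.range g) ≤ A ⊔ B := by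
      rw [span_le]
      have hb1 : ((0 : V), (1 : ℚ)) ∈ A ⊔ B := le_sup_right (a := A) (subset_span rfl)
      have ha1 : ∀ w ∈ span ℚ (v '' (X : Set ι)), ((w, 0) : V × ℚ) ∈ A ⊔ B := by
        intro w hw
        exact le_sup_left (b := B) (mem_map_of_mem (f := LinearMap.inl ℚ V ℚ) hw)
      intro w hw
      rcases hw with ⟨w', hw', rfl⟩ | ⟨i, rfl⟩
      · exact ha1 w' (subset_span (hSX hw'))
      · fin_cases i
        · exact hb1
        · have h1 := (A ⊔ B).add_mem (ha1 x hs.memx) hb1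
          have h2 : (x, (0 : ℚ)) + ((0 : V), (1 : ℚ)) = (x, 1) := by simp
          rw [h2] at h1
          exact h1
        · have h1 := (A ⊔ B).add_mem (ha1 (-y) (neg_mem hs.memy)) hb1
          have h2 : (-y, (0 : ℚ)) + ((0 : V), (1 : ℚ)) = (-y, 1) := by simp
          rw [h2] at h1
          exact h1
    have h1 : finrank ℚ (span ℚ (LinearMap.inl ℚ V ℚ '' (v '' (S : Set ι)) ∪ Set.range g))
        ≤ finrank ℚ (A ⊔ B : Submodule ℚ (V × ℚ)) :=
      LinearMap.finrank_le_finrank_of_injective (Submodule.inclusion_injective hle)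
    have h2 := Submodule.finrank_add_le_finrank_add_finrank A B
    have h3 : finrank ℚ A ≤ rk v X := Submodule.finrank_map_le _ _
    have h4 : finrank ℚ B ≤ 1 := by
      rw [hB']
      have h5 := finrank_span_le_card (R := ℚ) ({((0 : V), (1 : ℚ))} : Set (V × ℚ))
      simpa using h5
    omega
  -- independence of the pair of gadgets
  have hli12 : LinearIndependent ℚ ![g 1, g 2] := by
    rw [g1, g2, LinearIndependent.pair_iff]
    intro s t hst
    have h1 : s • x + t • (-y) = 0 := by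
      have := congrArg Prod.fst hst
      simpa using this
    have h2 := LinearIndependent.pair_iff.1 hs.li s (-t) (by
      rw [← h1, smul_neg, neg_smul])
    exact ⟨h2.1, by (clear * - h2; linarith [h2.2])⟩
  have hkey := ext_lemma (k := 3) (m := 2) hB (hS.trans hX) (LinearMap.inl ℚ V ℚ)
    (fun y _ hy => by
      rw [hjinl] at hy
      exact congrArg Prod.fst hy) hcnt g γ hcls
    (by
      intro i hi
      have h1 : (g i).2 = 1 := by
        fin_cases i <;> rfl
      rw [hi] at h1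
      simp at h1)
    (by
      intro i q hi
      fin_cases i
      · rw [show γ ⟨0, by omega⟩ = Sum.inr 0 from rfl] at hi
        cases hi
      · rw [show γ ⟨1, by omega⟩ = Sum.inr 1 from rfl] at hi
        cases hi
      · rw [show γ ⟨2, by omega⟩ = Sum.inr 1 from rfl] at hi
        cases hi)
    (by
      intro i i' hne heq
      have h01 : γ 0 ≠ γ 1 := by
        rw [γ0, γ1]
        simp
      have h02 : γ 0 ≠ γ 2 := by
        rw [γ0, γ2]
        simp
      fin_cases i <;> fin_cases i'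
      · exact absurd rfl hne
      · exact absurd heq h01
      · exact absurd heq h02
      · exact absurd heq.symm h01
      · exact absurd rfl hne
      · exact ⟨⟨1, rfl⟩, hli12⟩
      · exact absurd heq.symm h02
      · exact ⟨⟨1, rfl⟩, li_swap hli12⟩
      · exact absurd rfl hne)
    (by
      intro i i' i'' h1 h2
      have h01 : γ 0 ≠ γ 1 := by
        rw [γ0, γ1]
        simp
      have h02 : γ 0 ≠ γ 2 := by
        rw [γ0, γ2]
        simp
      fin_cases i <;> fin_cases i' <;> fin_cases i'' <;>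
        first
          | exact Or.inl rfl
          | exact Or.inr (Or.inl rfl)
          | exact Or.inr (Or.inr rfl)
          | exact absurd h1 h01
          | exact absurd h1 h02
          | exact absurd h1.symm h01
          | exact absurd h1.symm h02
          | exact absurd h2 h01
          | exact absurd h2 h02
          | exact absurd h2.symm h01)
    (by
      intro t
      fin_cases t
      · exact ⟨0, rfl⟩
      · exact ⟨1, rfl⟩)
    hrank hn (by
      rw [hbd]
      exact hb)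
  obtain ⟨T, β, y', hTS, hTc, hcard, ⟨i0, hi0⟩, hsame, -, hy', hsum⟩ := hkey
  rw [hbd] at hcard
  rw [hjinl, Fin.sum_univ_three, g0, g1, g2] at hsum
  have hfst : y' = β 1 • x + β 2 • (-y) := by
    have := congrArg Prod.fst hsum
    simpa using this
  have hsnd : 0 = β 0 + β 1 + β 2 := by
    have := congrArg Prod.snd hsum
    simpa using this
  by_cases hβ1 : β 1 = 0
  · have hβ2 : β 2 ≠ 0 := by
      intro h2
      have h0 : β 0 = 0 := by
        rw [hβ1, h2] at hsnd
        (clear * - hsnd; linarith)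
      apply hi0
      fin_cases i0
      · exact h0
      · exact hβ1
      · exact h2
    have hβ0 : β 0 ≠ 0 := by
      intro h0
      apply hβ2
      rw [hβ1, h0] at hsnd
      (clear * - hsnd; linarith)
    right
    refine ⟨T, hTS, ?_, hTc, ?_⟩
    · have h1 : ({0, 2} : Finset (Fin 3)) ⊆ Finset.univ.filter fun i => β i ≠ 0 := by
        intro i hi
        simp only [Finset.mem_insert, Finset.mem_singleton] at hi
        rcases hi with rfl | rfl
        · simpa using hβ0
        · simpa using hβ2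
      have h2 := Finset.card_le_card h1
      have h3 : ({0, 2} : Finset (Fin 3)).card = 2 := by decide
      omega
    · rw [hβ1, zero_smul, zero_add] at hfst
      have h1 : y = (-(β 2)⁻¹) • y' := by
        rw [hfst, smul_smul, smul_neg, neg_mul, inv_mul_cancel₀ hβ2, neg_smul, neg_neg, one_smul]
      rw [h1]
      exact smul_mem _ _ hy'
  · have hβ2 : β 2 = 0 := by
      by_contra h2
      have h3 := hsame 1 2 hβ1 h2 (by rw [γ1, γ2])
      exact absurd h3 (by decide)
    have hβ0 : β 0 ≠ 0 := by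
      intro h0
      apply hβ1
      rw [hβ2, h0] at hsnd
      (clear * - hsnd; linarith)
    left
    refine ⟨T, hTS, ?_, hTc, ?_⟩
    · have h1 : ({0, 1} : Finset (Fin 3)) ⊆ Finset.univ.filter fun i => β i ≠ 0 := by
        intro i hi
        simp only [Finset.mem_insert, Finset.mem_singleton] at hi
        rcases hi with rfl | rfl
        · simpa using hβ0
        · simpa using hβ1
      have h2 := Finset.card_le_card h1
      have h3 : ({0, 1} : Finset (Fin 3)).card = 2 := by decide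
      (clear * - h v S X x y hbd hcard h2 h3; omega)
    · rw [hβ2, zero_smul, add_zero] at hfst
      have h1 : x = (β 1)⁻¹ • y' := by
        rw [hfst, smul_smul, inv_mul_cancel₀ hβ1, one_smul]
      rw [h1]
      exact smul_mem _ _ hy'

end RC

end

section

/-!
RCS-12, 13 (separations without split colour).  Write `α v ≤ k` for `Spn v c A v k`, `β v ≤ k` for
`Spn v c B v k` (`v` one of `x, y, z`).  By `comb` (`hcol`): `α v ≤ k` and `β v ≤ l` with `k + l ≤ h` is
impossible.  `Part`, `Side` may be permuted by `rot` and `swap`; `Part.subA`, `Part.subB`; all divisions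
are handled by `omega`.

case022 (`rk A = bA + 1`, `rk B = bB + 1`), `2 h = bA + bB + 1`.
`bA` even (`bB` odd): `gad4` on `A` (`S = X = A`, `u = 0`, `b = bA`): `α v ≤ bA / 2` for some `v` of `x, y, z`.
`gad1` on `B` (`S = X = B`, `u = 1`, `b = bB`; the class condition of `gad1` follows from `sB.cls` by `hC.mono`):
`β v ≤ (bB + 1) / 2` for all `v`.  The sum is `h`.
`bA` odd (`bB` even): `gad3` on `B` (`u = 1`, `b = bB`; `bb 1 (bB + 1) - 1 = bB / 2`) for each pair of labels: at
least two of the three have `β ≤ bB / 2` (`two_of_three`); by rotating we may assume `x`, `y`.  `gad1` on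
`B`: `β z ≤ 1 + bB / 2`.  `gad2` on `A` (`u = 0`): `α x ≤ (bA + 1) / 2` or `α y ≤ (bA + 1) / 2` or
`α z ≤ (bA - 1) / 2`.  In each case the sum is `h`.

case013 (`rk A = bA`, `rk B = bB + 2`), `2 h = bA + bB + 1`.
`bA` odd (`bB` even): `gad1` on `A` (`u = 0`): `α v ≤ (bA - 1) / 2` for all `v`.  `gad4` on `B` (`u = 1`):
`β v ≤ 1 + bB / 2` for some `v`.  The sum is `h`.
`bA` even (so `bA ≥ 4`, `bB` odd, `bB ≥ 3`): `gad1` on `A`: `α v ≤ bA / 2` for all `v`.  `gad2` on `B` (`u = 1`) for
each pair `v, v'`, third `v''`: `β v ≤ (bB + 3) / 2` or `β v' ≤ (bB + 3) / 2` or `β v'' ≤ (bB + 1) / 2`, the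
last is impossible.  So (`two_of_three`) two of them, after rotating `x` and `y`, have
`β ≤ (bB + 3) / 2`.  `gad7` on `A` (`u = 0`): `α x ≤ bA / 2 - 1` or `α y ≤ bA / 2 - 1`.  The sum is `h`.
-/

namespace RC

open Submodule Module

variable {C : ClsT} {ι κ V : Type} [DecidableEq ι] [AddCommGroup V] [Module ℚ V] {h : ℕ}
  {v : ι → V} {c : ι → κ} {E A B : Finset ι} {e0 : ι} {x y z : V}

theorem h85_cls1 (hC : Cls C) {X : Finset ι} (hs : Side C v X x y z) :
    C V (v '' (X : Set ι) ∪ {x}) := by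
  refine hC.mono hs.cls ?_
  intro w hw
  rcases hw with hw | hw
  · exact Or.inr (Or.inl (Or.inl hw))
  · rw [Set.mem_singleton_iff] at hw
    subst hw
    exact Or.inr (Or.inl (Or.inr (by simp)))

theorem h85_c022_bx (hC : Cls C) (hP : Part C h v c E e0 A B x y z) {bA bB : ℕ}
    (cB : Cnt c B 1 bB) (hsum : bA + bB + 1 = 2 * h) (rB : rk v B = bB + 1)
    (hA : 2 ≤ bA) : Spn v c B x (1 + bB / 2) :=
  gad1 hC hP.bad (Finset.Subset.refl B) hP.subB (h85_cls1 hC hP.sB) hP.sB.ne_x hP.sB.memx cB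
    (by omega) (by omega) (by (clear * - hsum rB hA; omega))

theorem h85_c022_even (hC : Cls C) (hP : Part C h v c E e0 A B x y z) {bA bB : ℕ}
    (cB : Cnt c B 1 bB) (hsum : bA + bB + 1 = 2 * h)
    (hcol : ∀ a ∈ A, ∀ b ∈ B, c a ≠ c b) (rB : rk v B = bB + 1)
    (hA : 2 ≤ bA) (h2 : bA % 2 = 0) (hx : Spn v c A x (0 + (bA + 1) / 2)) : False :=
  comb hP.bad hP.subA hP.subB hcol hP.sA.ne_x hx (h85_c022_bx hC hP cB hsum rB hA) (by (clear * - hsum rB h2; omega))

theorem h85_c022_odd (hC : Cls C) (hP : Part C h v c E e0 A B x y z) {bA bB : ℕ}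
    (cA : Cnt c A 0 bA) (cB : Cnt c B 1 bB) (hsum : bA + bB + 1 = 2 * h)
    (hcol : ∀ a ∈ A, ∀ b ∈ B, c a ≠ c b) (rA : rk v A = bA + 1) (rB : rk v B = bB + 1)
    (hA : 2 ≤ bA) (hB : 2 ≤ bB) (h2 : bA % 2 = 1) (hx : Spn v c B x (bb 1 (bB + 1) - 1))
    (hy : Spn v c B y (bb 1 (bB + 1) - 1)) : False := by
  have hbb : bb 1 (bB + 1) = 1 + (bB + 1) / 2 := by
    unfold bb
    rw [if_neg (by omega)]
  have hz : Spn v c B z (1 + bB / 2) := h85_c022_bx hC hP.rot.rot cB hsum rB hA
  rcases gad2 hC hP.bad (Finset.Subset.refl A) hP.subA hP.sA cA (by omega) (by (clear * - hsum rA rB hB h2; omega)) (by (clear * - hsum rA rB hB h2; omega))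
    with h1 | h1 | h1
  · exact comb hP.bad hP.subA hP.subB hcol hP.sA.ne_x h1 hx (by omega)
  · exact comb hP.bad hP.subA hP.subB hcol hP.sA.ne_y h1 hy (by omega)
  · exact comb hP.bad hP.subA hP.subB hcol hP.sA.ne_z h1 hz (by omega)

theorem h85_c022_pair (hC : Cls C) (hP : Part C h v c E e0 A B x y z) {bA bB : ℕ}
    (cB : Cnt c B 1 bB) (hsum : bA + bB + 1 = 2 * h) (rB : rk v B = bB + 1)
    (hA : 2 ≤ bA) (h2 : bA % 2 = 1) :
    Spn v c B x (bb 1 (bB + 1) - 1) ∨ Spn v c B y (bb 1 (bB + 1) - 1) := by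
  have hbb : bb 1 (bB + 1) = 1 + (bB + 1) / 2 := by
    unfold bb
    rw [if_neg (by omega)]
  exact gad3 hC hP.bad (Finset.Subset.refl B) hP.subB hP.sB cB (by omega) (by omega) (by omega)

theorem case022 (hC : Cls C) (hP : Part C h v c E e0 A B x y z) {bA bB : ℕ}
    (cA : Cnt c A 0 bA) (cB : Cnt c B 1 bB) (hsum : bA + bB + 1 = 2 * h)
    (hcol : ∀ a ∈ A, ∀ b ∈ B, c a ≠ c b) (rA : rk v A = bA + 1) (rB : rk v B = bB + 1)
    (hA : 2 ≤ bA) (hB : 2 ≤ bB) : False := by
  rcases Nat.mod_two_eq_zero_or_one bA with h2 | h2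
  · rcases gad4 hC hP.bad (Finset.Subset.refl A) hP.subA hP.sA cA (by omega) (by omega) (by omega)
      with h1 | h1 | h1
    · exact h85_c022_even hC hP cB hsum hcol rB hA h2 h1
    · exact h85_c022_even hC hP.rot cB hsum hcol rB hA h2 h1
    · exact h85_c022_even hC hP.rot.rot cB hsum hcol rB hA h2 h1
  · rcases two_of_three (P := fun w => Spn v c B w (bb 1 (bB + 1) - 1))
      (h85_c022_pair hC hP cB hsum rB hA h2) (h85_c022_pair hC hP.rot cB hsum rB hA h2)
      (h85_c022_pair hC hP.rot.rot cB hsum rB hA h2) with h1 | h1 | h1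
    · exact h85_c022_odd hC hP cA cB hsum hcol rA rB hA hB h2 h1.1 h1.2
    · exact h85_c022_odd hC hP.rot cA cB hsum hcol rA rB hA hB h2 h1.1 h1.2
    · exact h85_c022_odd hC hP.rot.rot cA cB hsum hcol rA rB hA hB h2 h1.1 h1.2

end RC

end

section

/-!
RCS-12, 13 (separations without split colour).  Write `α v ≤ k` for `Spn v c A v k`, `β v ≤ k` for
`Spn v c B v k` (`v` one of `x, y, z`).  By `comb` (`hcol`): `α v ≤ k` and `β v ≤ l` with `k + l ≤ h` is
impossible.  `Part`, `Side` may be permuted by `rot` and `swap`; `Part.subA`, `Part.subB`; all divisions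
are handled by `omega`.

case022 (`rk A = bA + 1`, `rk B = bB + 1`), `2 h = bA + bB + 1`.
`bA` even (`bB` odd): `gad4` on `A` (`S = X = A`, `u = 0`, `b = bA`): `α v ≤ bA / 2` for some `v` of `x, y, z`.
`gad1` on `B` (`S = X = B`, `u = 1`, `b = bB`; the class condition of `gad1` follows from `sB.cls` by `hC.mono`):
`β v ≤ (bB + 1) / 2` for all `v`.  The sum is `h`.
`bA` odd (`bB` even): `gad3` on `B` (`u = 1`, `b = bB`; `bb 1 (bB + 1) - 1 = bB / 2`) for each pair of labels: at
least two of the three have `β ≤ bB / 2` (`two_of_three`); by rotating we may assume `x`, `y`.  `gad1` on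
`B`: `β z ≤ 1 + bB / 2`.  `gad2` on `A` (`u = 0`): `α x ≤ (bA + 1) / 2` or `α y ≤ (bA + 1) / 2` or
`α z ≤ (bA - 1) / 2`.  In each case the sum is `h`.

case013 (`rk A = bA`, `rk B = bB + 2`), `2 h = bA + bB + 1`.
`bA` odd (`bB` even): `gad1` on `A` (`u = 0`): `α v ≤ (bA - 1) / 2` for all `v`.  `gad4` on `B` (`u = 1`):
`β v ≤ 1 + bB / 2` for some `v`.  The sum is `h`.
`bA` even (so `bA ≥ 4`, `bB` odd, `bB ≥ 3`): `gad1` on `A`: `α v ≤ bA / 2` for all `v`.  `gad2` on `B` (`u = 1`) for
each pair `v, v'`, third `v''`: `β v ≤ (bB + 3) / 2` or `β v' ≤ (bB + 3) / 2` or `β v'' ≤ (bB + 1) / 2`, the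
last is impossible.  So (`two_of_three`) two of them, after rotating `x` and `y`, have
`β ≤ (bB + 3) / 2`.  `gad7` on `A` (`u = 0`): `α x ≤ bA / 2 - 1` or `α y ≤ bA / 2 - 1`.  The sum is `h`.
-/

namespace RC

open Submodule Module

variable {C : ClsT} {ι κ V : Type} [DecidableEq ι] [AddCommGroup V] [Module ℚ V] {h : ℕ}
  {v : ι → V} {c : ι → κ} {E A B : Finset ι} {e0 : ι} {x y z : V}

/-- Every label on the first side. -/
private theorem c013_alpha (hC : Cls C) (hP : Part C h v c E e0 A B x y z) {bA bB : ℕ}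
    (cA : Cnt c A 0 bA) (hsum : bA + bB + 1 = 2 * h) (rA : rk v A = bA) (hB : 2 ≤ bB) :
    Spn v c A x (bA / 2) := by
  have h1 := gad1 hC hP.bad (S := A) (X := A) subset_rfl hP.subA (x := x)
    (hC.mono hP.sA.cls (fun w hw => Or.inr (Or.inl (by
      rcases hw with hw | hw
      · exact Or.inl hw
      · rw [Set.mem_singleton_iff] at hw
        rw [hw]
        exact Or.inr (by simp)))))
    hP.sA.ne_x hP.sA.memx cA (by omega) (by omega) (by omega)
  rwa [Nat.zero_add] at h1

/-- Two labels on the second side. -/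
private theorem c013_beta (hC : Cls C) (hP : Part C h v c E e0 A B x y z) {bA bB : ℕ}
    (cA : Cnt c A 0 bA) (cB : Cnt c B 1 bB) (hsum : bA + bB + 1 = 2 * h)
    (hcol : ∀ a ∈ A, ∀ b ∈ B, c a ≠ c b) (rA : rk v A = bA) (rB : rk v B = bB + 2)
    (hA : 4 ≤ bA) (hB : 3 ≤ bB) (hev : bA % 2 = 0) :
    Spn v c B x (2 + bB / 2) ∨ Spn v c B y (2 + bB / 2) := by
  rcases gad2 hC hP.bad (S := B) (X := B) subset_rfl hP.subB hP.sB cB (by omega) (by omega)
    (by omega) with h1 | h1 | h1
  · exact Or.inl h1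
  · exact Or.inr h1
  · have h2 := c013_alpha hC hP.rot.rot (bB := bB) cA hsum rA (by omega)
    exact (comb hP.bad hP.subA hP.subB hcol hP.sA.ne_z h2 h1 (by omega)).elim

private theorem c013_fin (hC : Cls C) (hP : Part C h v c E e0 A B x y z) {bA bB : ℕ}
    (cA : Cnt c A 0 bA) (hsum : bA + bB + 1 = 2 * h)
    (hcol : ∀ a ∈ A, ∀ b ∈ B, c a ≠ c b) (rA : rk v A = bA)
    (hB : 3 ≤ bB) (hA : 4 ≤ bA) (hev : bA % 2 = 0)
    (hx : Spn v c B x (2 + bB / 2)) (hy : Spn v c B y (2 + bB / 2)) : False := by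
  rcases gad7 hC hP.bad (S := A) (X := A) subset_rfl hP.subA hP.sA cA (by omega) (by omega)
    (by omega) with h1 | h1
  · exact comb hP.bad hP.subA hP.subB hcol hP.sA.ne_x h1 hx (by (clear * - hsum rA hA hev; omega))
  · exact comb hP.bad hP.subA hP.subB hcol hP.sA.ne_y h1 hy (by (clear * - hsum rA hA hev; omega))

theorem case013 (hC : Cls C) (hP : Part C h v c E e0 A B x y z) {bA bB : ℕ}
    (cA : Cnt c A 0 bA) (cB : Cnt c B 1 bB) (hsum : bA + bB + 1 = 2 * h)
    (hcol : ∀ a ∈ A, ∀ b ∈ B, c a ≠ c b) (rA : rk v A = bA) (rB : rk v B = bB + 2)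
    (hA : 3 ≤ bA) (hB : 2 ≤ bB) : False := by
  rcases Nat.mod_two_eq_zero_or_one bA with hpar | hpar
  · -- `bA` even
    have hA' : 4 ≤ bA := by omega
    have hB' : 3 ≤ bB := by omega
    rcases two_of_three (P := fun w => Spn v c B w (2 + bB / 2))
      (c013_beta hC hP cA cB hsum hcol rA rB hA' hB' hpar)
      (c013_beta hC hP.rot cA cB hsum hcol rA rB hA' hB' hpar)
      (c013_beta hC hP.rot.rot cA cB hsum hcol rA rB hA' hB' hpar) with h1 | h1 | h1
    · exact c013_fin hC hP cA hsum hcol rA hB' hA' hpar h1.1 h1.2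
    · exact c013_fin hC hP.rot cA hsum hcol rA hB' hA' hpar h1.1 h1.2
    · exact c013_fin hC hP.rot.rot cA hsum hcol rA hB' hA' hpar h1.1 h1.2
  · -- `bA` odd
    rcases gad4 hC hP.bad (S := B) (X := B) subset_rfl hP.subB hP.sB cB (by omega) (by omega)
      (by omega) with h1 | h1 | h1
    · exact comb hP.bad hP.subA hP.subB hcol hP.sA.ne_x (c013_alpha hC hP cA hsum rA hB) h1
        (by (clear * - hsum rA rB hpar; omega))
    · exact comb hP.bad hP.subA hP.subB hcol hP.sA.ne_y (c013_alpha hC hP.rot cA hsum rA hB) h1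
        (by (clear * - hsum rA rB hpar; omega))
    · exact comb hP.bad hP.subA hP.subB hcol hP.sA.ne_z (c013_alpha hC hP.rot.rot cA hsum rA hB)
        h1 (by omega)

end RC

end

section

/-!
RCS-7c (gadgets where an element `a` which is alone in `S` with its colour gets a partner).

gad5: `ext_id` with `k = 2`, `m = 1`, `g = ![x, y]`, `γ = ![Sum.inl (c a), Sum.inr 0]`, `Y = {x, y, z}`.
`bd (u + b + 1) (u + 2 b + 2) = bb u (b + 1) = u + (b + 1) / 2` (`u ≥ 1`).  If `β 0 = 0` then `y ∈ span T`,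
`T.card + 1 ≤ u + (b + 1) / 2`.  If `β 0 ≠ 0` then no element of `T` has the colour of `a`, so
`T ⊆ S.erase a`; if also `β 1 = 0` then `x ∈ span T`, `T.card + 1 ≤ u + (b + 1) / 2`; if `β 1 ≠ 0` then
`T.card + 2 ≤ u + (b + 1) / 2` and by `line3` one of `x, y, z` is in `span T`.

gad6: `ext_id` with `k = 3`, `m = 1`, `g = ![x, y, z]`, `γ = ![Sum.inr 0, Sum.inr 0, Sum.inl (c a)]`.
`bd (u + b + 1) (u + 2 b + 3) = bb (u - 1) (b + 2)` (`u ≥ 1`).  At most one of `β 0`, `β 1` is not zero.  If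
`β 2 = 0` then `x ∈ span T` or `y ∈ span T`.  If `β 2 ≠ 0` then `T ⊆ S.erase a`, and `z ∈ span T`
or (`line3'`, `line3''`) one of `x, y, z` is in `span T`.
-/

namespace RC

open Submodule Module

variable {C : ClsT} {ι κ V : Type} [DecidableEq ι] [AddCommGroup V] [Module ℚ V] {h : ℕ}
  {v : ι → V} {c : ι → κ} {E : Finset ι} {e0 : ι}

theorem gadC_one {k : ℕ} {β : Fin k → ℚ} {i : Fin k} (hi : β i ≠ 0) :
    1 ≤ (Finset.univ.filter fun i => β i ≠ 0).card :=
  Finset.card_pos.2 ⟨i, Finset.mem_filter.2 ⟨Finset.mem_univ _, hi⟩⟩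

theorem gadC_two {k : ℕ} {β : Fin k → ℚ} {i i' : Fin k} (hi : β i ≠ 0) (hi' : β i' ≠ 0)
    (hne : i ≠ i') : 2 ≤ (Finset.univ.filter fun i => β i ≠ 0).card := by
  have h1 : ({i, i'} : Finset (Fin k)) ⊆ Finset.univ.filter fun i => β i ≠ 0 := by
    intro j hj
    rw [Finset.mem_insert, Finset.mem_singleton] at hj
    rcases hj with rfl | rfl
    · exact Finset.mem_filter.2 ⟨Finset.mem_univ _, hi⟩
    · exact Finset.mem_filter.2 ⟨Finset.mem_univ _, hi'⟩
  have h2 := Finset.card_le_card h1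
  rwa [Finset.card_pair hne] at h2

theorem gadC_smul {U : Submodule ℚ V} {r : ℚ} {y : V} (hr : r ≠ 0) (h : r • y ∈ U) : y ∈ U := by
  have := U.smul_mem r⁻¹ h
  rwa [smul_smul, inv_mul_cancel₀ hr, one_smul] at this

omit [DecidableEq ι] in
theorem gadC_Y {X : Finset ι} {x y z : V} (hs : Side C v X x y z) :
    ({x, y, z} : Set V) ⊆ span ℚ (v '' (X : Set ι)) := by
  intro w hw
  simp only [Set.mem_insert_iff, Set.mem_singleton_iff] at hw
  rcases hw with rfl | rfl | rfl
  · exact hs.memx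
  · exact hs.memy
  · exact hs.memz

theorem gad5 (hC : Cls C) (hB : Bad C h v c E e0) {S X : Finset ι} (hS : S ⊆ X) (hX : X ⊆ E)
    {x y z : V} (hs : Side C v X x y z) {u b : ℕ} (hcnt : Cnt c S u b) (hu : 1 ≤ u)
    {a : ι} (ha : a ∈ S) (hsg : ∀ e ∈ S, c e = c a → e = a)
    (hli : LinearIndependent ℚ ![v a, x])
    (hr : rk v X ≤ u + b) (hn : u + b + 1 < 2 * h) (hb : u + (b + 1) / 2 ≤ h) :
    Spn v c S y (u + (b + 1) / 2 - 1) ∨ Spn v c (S.erase a) x (u + (b + 1) / 2 - 1) ∨
      Spn v c (S.erase a) z (u + (b + 1) / 2 - 2) := by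
  obtain ⟨T, β, hT, hi, hc, hne, hinj, hnew, hw⟩ := ext_id hC hB hS hX hs.cls (gadC_Y hs)
    (k := 2) (m := 1) hcnt ![x, y] ![Sum.inl (c a), Sum.inr 0]
    (by intro i; fin_cases i <;> simp)
    (by
      intro i
      fin_cases i
      · exact hs.ne_x
      · exact hs.ne_y)
    (by
      intro i q hq
      fin_cases i
      · have hq' : c a = q := Sum.inl_injective hq
        subst hq'
        exact ⟨a, ha, rfl, hsg, hli⟩
      · cases hq)
    (by
      intro i i' hne hii
      fin_cases i <;> fin_cases i'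
      · exact absurd rfl hne
      · cases hii
      · cases hii
      · exact absurd rfl hne)
    (by
      intro i i' i'' _ _
      fin_cases i <;> fin_cases i' <;> fin_cases i'' <;> simp)
    (by
      intro t
      refine ⟨1, ?_⟩
      have : t = 0 := Subsingleton.elim _ _
      rw [this]
      rfl)
    (by omega) (by omega)
    (by
      have : bd (u + b + 1) (u + 2 * b + 2) = u + (b + 1) / 2 := by
        unfold bd
        rw [if_neg (by omega)]
        omega
      rw [this]; exact hb)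
  have hbd : bd (u + b + 1) (u + 2 * b + 2) = u + (b + 1) / 2 := by
    unfold bd
    rw [if_neg (by omega)]
    (clear * - h v X hu T β; omega)
  rw [hbd] at hc
  rw [Fin.sum_univ_two] at hw
  have hw' : β 0 • x + β 1 • y ∈ span ℚ (v '' (T : Set ι)) := hw
  by_cases h0 : β 0 = 0
  · have h1 : β 1 ≠ 0 := by
      obtain ⟨i, hi⟩ := hne
      fin_cases i
      · exact absurd h0 hi
      · exact hi
    left
    have h2 := gadC_one h1
    rw [h0, zero_smul, zero_add] at hw'
    exact ⟨T, hT, by omega, hi, gadC_smul h1 hw'⟩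
  · have haT : a ∉ T := fun haT => hnew 0 h0 a haT rfl
    have hTe : T ⊆ S.erase a := fun e he =>
      Finset.mem_erase.2 ⟨fun h => haT (h ▸ he), hT he⟩
    by_cases h1 : β 1 = 0
    · right; left
      have h2 := gadC_one h0
      rw [h1, zero_smul, add_zero] at hw'
      exact ⟨T, hTe, by omega, hi, gadC_smul h0 hw'⟩
    · have h2 := gadC_two h0 h1 (by decide)
      rcases line3 hC hs (hT.trans hS) (Or.inl h0) hw' with h3 | h3 | h3
      · exact Or.inr (Or.inl ⟨T, hTe, by omega, hi, h3⟩)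
      · exact Or.inl ⟨T, hT, by omega, hi, h3⟩
      · exact Or.inr (Or.inr ⟨T, hTe, by omega, hi, h3⟩)

theorem gad6 (hC : Cls C) (hB : Bad C h v c E e0) {S X : Finset ι} (hS : S ⊆ X) (hX : X ⊆ E)
    {x y z : V} (hs : Side C v X x y z) {u b : ℕ} (hcnt : Cnt c S u b) (hu : 1 ≤ u)
    {a : ι} (ha : a ∈ S) (hsg : ∀ e ∈ S, c e = c a → e = a)
    (hli : LinearIndependent ℚ ![v a, z])
    (hr : rk v X ≤ u + b) (hn : u + b + 1 < 2 * h) (hb : bb (u - 1) (b + 2) ≤ h) :
    Spn v c S x (bb (u - 1) (b + 2) - 1) ∨ Spn v c S y (bb (u - 1) (b + 2) - 1) ∨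
      Spn v c (S.erase a) z (bb (u - 1) (b + 2) - 1) := by
  have hbd : bd (u + b + 1) (u + 2 * b + 3) = bb (u - 1) (b + 2) := by
    rw [← bd_eq_bb]
    congr 1 <;> omega
  obtain ⟨T, β, hT, hi, hc, hne, hinj, hnew, hw⟩ := ext_id hC hB hS hX hs.cls (gadC_Y hs)
    (k := 3) (m := 1) hcnt ![x, y, z] ![Sum.inr 0, Sum.inr 0, Sum.inl (c a)]
    (by intro i; fin_cases i <;> simp)
    (by
      intro i
      fin_cases i
      · exact hs.ne_x
      · exact hs.ne_y
      · exact hs.ne_z)
    (by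
      intro i q hq
      fin_cases i
      · cases hq
      · cases hq
      · have hq' : c a = q := Sum.inl_injective hq
        subst hq'
        exact ⟨a, ha, rfl, hsg, hli⟩)
    (by
      intro i i' hne hii
      fin_cases i <;> fin_cases i'
      · exact absurd rfl hne
      · exact ⟨⟨0, rfl⟩, hs.li⟩
      · cases hii
      · exact ⟨⟨0, rfl⟩, li_swap hs.li⟩
      · exact absurd rfl hne
      · cases hii
      · cases hii
      · cases hii
      · exact absurd rfl hne)
    (by
      intro i i' i'' h1 h2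
      fin_cases i <;> fin_cases i' <;> fin_cases i'' <;>
        first
          | exact Or.inl rfl
          | exact Or.inr (Or.inl rfl)
          | exact Or.inr (Or.inr rfl)
          | (cases h1; done)
          | (cases h2; done))
    (by
      intro t
      refine ⟨0, ?_⟩
      have : t = 0 := Subsingleton.elim _ _
      rw [this]
      rfl)
    (by (clear * - h hr; omega)) (by omega) (by rw [hbd]; exact hb)
  rw [hbd] at hc
  rw [Fin.sum_univ_three] at hw
  have hw' : β 0 • x + β 1 • y + β 2 • z ∈ span ℚ (v '' (T : Set ι)) := hw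
  have h01 : β 0 = 0 ∨ β 1 = 0 := by
    by_contra hno
    push Not at hno
    have := hinj 0 1 hno.1 hno.2 rfl
    exact absurd this (by decide)
  by_cases h2 : β 2 = 0
  · rw [h2, zero_smul, add_zero] at hw'
    by_cases h0 : β 0 = 0
    · have h1 : β 1 ≠ 0 := by
        obtain ⟨i, hi⟩ := hne
        fin_cases i
        · exact absurd h0 hi
        · exact hi
        · exact absurd h2 hi
      have h3 := gadC_one h1
      rw [h0, zero_smul, zero_add] at hw'
      exact Or.inr (Or.inl ⟨T, hT, by omega, hi, gadC_smul h1 hw'⟩)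
    · have h1 : β 1 = 0 := h01.resolve_left h0
      have h3 := gadC_one h0
      rw [h1, zero_smul, add_zero] at hw'
      exact Or.inl ⟨T, hT, by omega, hi, gadC_smul h0 hw'⟩
  · have haT : a ∉ T := fun haT => hnew 2 h2 a haT rfl
    have hTe : T ⊆ S.erase a := fun e he =>
      Finset.mem_erase.2 ⟨fun h => haT (h ▸ he), hT he⟩
    have h3 := gadC_one h2
    by_cases h0 : β 0 = 0
    · rw [h0, zero_smul, zero_add] at hw'
      by_cases h1 : β 1 = 0
      · rw [h1, zero_smul, zero_add] at hw'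
        exact Or.inr (Or.inr ⟨T, hTe, by omega, hi, gadC_smul h2 hw'⟩)
      · rcases line3'' hC hs (hT.trans hS) (Or.inl h1) hw' with h4 | h4 | h4
        · exact Or.inl ⟨T, hT, by omega, hi, h4⟩
        · exact Or.inr (Or.inl ⟨T, hT, by omega, hi, h4⟩)
        · exact Or.inr (Or.inr ⟨T, hTe, by omega, hi, h4⟩)
    · have h1 : β 1 = 0 := h01.resolve_left h0
      rw [h1, zero_smul, add_zero] at hw'
      rcases line3' hC hs (hT.trans hS) (Or.inl h0) hw' with h4 | h4 | h4
      · exact Or.inl ⟨T, hT, by omega, hi, h4⟩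
      · exact Or.inr (Or.inl ⟨T, hT, by omega, hi, h4⟩)
      · exact Or.inr (Or.inr ⟨T, hTe, by omega, hi, h4⟩)

end RC

end

section

/-!
RCS-14, 15 (separations with exactly one split colour `{a1, b1}`).  Write `α w ≤ k` for
`Spn v c A w k`, `α0 w ≤ k` for `Spn v c (A.erase a1) w k`, `β w ≤ k` for `Spn v c B w k`, `β0 w ≤ k`
for `Spn v c (B.erase b1) w k` (`w` one of `x, y, z`).  By `comb`: `α0 w ≤ k`, `β w ≤ l`, `k + l ≤ h` is
impossible, `α w ≤ k`, `β0 w ≤ l`, `k + l ≤ h` is impossible (no common colour of `A \ {a1}` and `B`, of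
`A` and `B \ {b1}`, by `huniq`).  `a1` is alone in `A` with its colour, `b1` in `B` (`huniq`).
`2 h = bA + bB + 2`.  All permutations of `x, y, z` are allowed (`rot`, `swap`).

case1odd (`bA`, `bB` odd, so `bA ≥ 3`).
`gad1` on `A` (`S = X = A`, `u = 1`, `b = bA`): `α w ≤ (bA + 1) / 2` for all `w`.
`gad6` on `B` (`S = X = B`, `u = 2`, `b = bB`, `a = b1`) for each labelling: `β x ≤ (bB + 1) / 2` or
`β y ≤ (bB + 1) / 2` or `β0 z ≤ (bB + 1) / 2` (`bb 1 (bB + 2) - 1 = (bB + 1) / 2`); the last contradicts the bound for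
`α z`.  So (`two_of_three`) two of the three, after rotating `x`, `y`, have `β ≤ (bB + 1) / 2`.
`gad2` with `S = A.erase a1`, `X = A`, `u = 0`, `b = bA`: `α0 x ≤ (bA + 1) / 2` or `α0 y ≤ (bA + 1) / 2`: the sum
with `β` is `h`; or `α0 z ≤ (bA - 1) / 2`: `gad1` on `B` (`u = 2`) gives `β z ≤ (bB + 3) / 2`, the sum is `h`.

case1even (`bA`, `bB` even, `bA, bB ≥ 2`), `h = bA / 2 + bB / 2 + 1`.
P0: `gad4` with `S = A.erase a1`, `X = A`, `u = 0`: `α0 w ≤ bA / 2` for some `w`.
P1: `gad3` on `A` (`u = 1`) for each pair: at least two of the three have `α w ≤ bA / 2`.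
Q1: `gad3` on `B` (`u = 2`) for each pair: at least two of the three have `β w ≤ 1 + bB / 2`.
R1: `gad4` with `S = B.erase b1`, `X = B`, `u = 1`: `β0 w ≤ 1 + bB / 2` for some `w`.
`P0 ∩ Q1` is empty, `P1 ∩ R1` is empty (sum `h`).  `R1 ⊆ Q1` (`Spn.mono`), `P0 ⊆ P1`.  So there is exactly one
`v0` in P0, Q1 is the rest; there is exactly one `w` in R1, P1 is the rest, `w ≠ v0` as `w ∈ Q1`.  Let `u` be
the third: `u ∈ P1 ∩ Q1`.  `gad5` on `A` (`u = 1`, `b = bA`, `a = a1`, `x := u`, `y := w`, `z := v0`):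
`α w ≤ bA / 2`: impossible by `w ∈ R1`; or `α0 u ≤ bA / 2`: impossible by `u ∈ Q1`; or
`α0 v0 ≤ bA / 2 - 1`.  If `bA = 2` this is impossible by `spn_zero`.  If `bA ≥ 4`: `gad1` on `B` (`u = 2`)
gives `β v0 ≤ 2 + bB / 2`, the sum is `h`.
(It is convenient to prove the final step for fixed labels `u, w, v0` = `x, y, z` as a lemma and then to
go through the six permutations.)
-/

namespace RC

open Submodule Module

variable {C : ClsT} {ι κ V : Type} [DecidableEq ι] [AddCommGroup V] [Module ℚ V] {h : ℕ}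
  {v : ι → V} {c : ι → κ} {E A B : Finset ι} {e0 : ι} {x y z : V}

omit [DecidableEq ι] in
private theorem h19_cls (hC : Cls C) {X : Finset ι} (hs : Side C v X x y z) :
    C V (v '' (X : Set ι) ∪ {x}) := by
  refine hC.mono hs.cls ?_
  intro w hw
  refine Or.inr (Or.inl ?_)
  rcases hw with hw | hw
  · exact Or.inl hw
  · refine Or.inr ?_
    rw [Set.mem_singleton_iff] at hw
    rw [hw]
    exact Set.mem_insert _ _

/-- the final step for fixed labels -/
private theorem h19_odd (hC : Cls C) (hP : Part C h v c E e0 A B x y z) {bA bB : ℕ} {a1 b1 : ι}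
    (huniq : ∀ a ∈ A, ∀ b ∈ B, c a = c b → a = a1 ∧ b = b1)
    (cB : Cnt c B 2 bB) (cA0 : Cnt c (A.erase a1) 0 bA)
    (hsum : bA + bB + 2 = 2 * h)
    (rA : rk v A = bA + 1) (rB : rk v B = bB + 2)
    (hA : 2 ≤ bA) (hB : 1 ≤ bB) (hodd : bA % 2 = 1)
    (hx : Spn v c B x ((bB + 1) / 2)) (hy : Spn v c B y ((bB + 1) / 2)) : False := by
  have hcomb : ∀ w : V, w ≠ 0 → ∀ k l : ℕ, Spn v c (A.erase a1) w k → Spn v c B w l →
      k + l ≤ h → False := by
    intro w hw k l h1 h2 h3
    refine comb hP.bad ((Finset.erase_subset _ _).trans hP.subA) hP.subB ?_ hw h1 h2 h3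
    intro e he e' he' hc
    rw [Finset.mem_erase] at he
    exact he.1 (huniq e he.2 e' he' hc).1
  rcases gad2 hC hP.bad (Finset.erase_subset a1 A) hP.subA hP.sA cA0 (by omega) (by omega)
    (by (clear * - hsum rA rB hB hodd; omega)) with h1 | h1 | h1
  · exact hcomb x hP.sA.ne_x _ _ h1 hx (by omega)
  · exact hcomb y hP.sA.ne_y _ _ h1 hy (by (clear * - hsum rA rB hodd; omega))
  · have hz := gad1 hC hP.bad (Finset.Subset.refl B) hP.subB (h19_cls hC hP.sB.rot.rot)
      hP.sB.ne_z hP.sB.memz cB (by omega) (by (clear * - hsum rA rB hA hodd; omega)) (by omega)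
    exact hcomb z hP.sA.ne_z _ _ h1 hz (by (clear * - hsum rA rB hodd; omega))

/-- two of the three triangle elements -/
private theorem h19_two (hC : Cls C) (hP : Part C h v c E e0 A B x y z) {bA bB : ℕ} {a1 b1 : ι}
    (ha1 : a1 ∈ A) (hb1 : b1 ∈ B) (hab : c a1 = c b1)
    (huniq : ∀ a ∈ A, ∀ b ∈ B, c a = c b → a = a1 ∧ b = b1)
    (cA : Cnt c A 1 bA) (cB : Cnt c B 2 bB) (hsum : bA + bB + 2 = 2 * h)
    (rA : rk v A = bA + 1) (rB : rk v B = bB + 2)
    (hlb : LinearIndependent ℚ ![v b1, z])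
    (hA : 2 ≤ bA) (hB : 1 ≤ bB) (hodd : bA % 2 = 1) :
    Spn v c B x ((bB + 1) / 2) ∨ Spn v c B y ((bB + 1) / 2) := by
  have hsgB : ∀ e ∈ B, c e = c b1 → e = b1 := fun e he hc =>
    (huniq a1 ha1 e he (hab.trans hc.symm)).2
  have hbb : bb (2 - 1) (bB + 2) = 1 + (bB + 2) / 2 := by
    unfold bb
    rw [if_neg (by omega)]
  have hcomb : ∀ w : V, w ≠ 0 → ∀ k l : ℕ, Spn v c A w k → Spn v c (B.erase b1) w l →
      k + l ≤ h → False := by
    intro w hw k l h1 h2 h3
    refine comb hP.bad hP.subA ((Finset.erase_subset _ _).trans hP.subB) ?_ hw h1 h2 h3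
    intro e he e' he' hc
    rw [Finset.mem_erase] at he'
    exact he'.1 (huniq e he e' he'.2 hc).2
  rcases gad6 hC hP.bad (Finset.Subset.refl B) hP.subB hP.sB cB (by omega) hb1 hsgB hlb
    (by omega) (by omega) (by rw [hbb]; omega) with h1 | h1 | h1
  · exact Or.inl (h1.mono (Finset.Subset.refl _) (by rw [hbb]; (clear * - hsum rA rB hB hodd; omega)))
  · exact Or.inr (h1.mono (Finset.Subset.refl _) (by rw [hbb]; (clear * - hsum rA rB hB hodd; omega)))
  · exfalso
    have hz := gad1 hC hP.bad (Finset.Subset.refl A) hP.subA (h19_cls hC hP.sA.rot.rot)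
      hP.sA.ne_z hP.sA.memz cA (by omega) (by omega) (by (clear * - hsum rA rB hB hodd; omega))
    exact hcomb z hP.sA.ne_z _ _ hz h1 (by rw [hbb]; omega)

theorem case1odd (hC : Cls C) (hP : Part C h v c E e0 A B x y z) {bA bB : ℕ} {a1 b1 : ι}
    (ha1 : a1 ∈ A) (hb1 : b1 ∈ B) (hab : c a1 = c b1)
    (huniq : ∀ a ∈ A, ∀ b ∈ B, c a = c b → a = a1 ∧ b = b1)
    (cA : Cnt c A 1 bA) (cB : Cnt c B 2 bB) (cA0 : Cnt c (A.erase a1) 0 bA)
    (cB0 : Cnt c (B.erase b1) 1 bB) (hsum : bA + bB + 2 = 2 * h)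
    (rA : rk v A = bA + 1) (rB : rk v B = bB + 2)
    (hla : ∀ w ∈ ({x, y, z} : Set V), LinearIndependent ℚ ![v a1, w])
    (hlb : ∀ w ∈ ({x, y, z} : Set V), LinearIndependent ℚ ![v b1, w])
    (hA : 2 ≤ bA) (hB : 1 ≤ bB) (hodd : bA % 2 = 1) : False := by
  have h1 := h19_two hC hP ha1 hb1 hab huniq cA cB hsum rA rB (hlb z (by simp)) hA hB hodd
  have h2 := h19_two hC hP.rot ha1 hb1 hab huniq cA cB hsum rA rB (hlb x (by simp)) hA hB hodd
  have h3 := h19_two hC hP.rot.rot ha1 hb1 hab huniq cA cB hsum rA rB (hlb y (by simp)) hA hB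
    hodd
  rcases two_of_three (P := fun w => Spn v c B w ((bB + 1) / 2)) h1 h2 h3 with h | h | h
  · exact h19_odd hC hP huniq cB cA0 hsum rA rB hA hB hodd h.1 h.2
  · exact h19_odd hC hP.rot huniq cB cA0 hsum rA rB hA hB hodd h.1 h.2
  · exact h19_odd hC hP.rot.rot huniq cB cA0 hsum rA rB hA hB hodd h.1 h.2

end RC

end

section

/-!
RCS-14, 15 (separations with exactly one split colour `{a1, b1}`).  Write `α w ≤ k` for
`Spn v c A w k`, `α0 w ≤ k` for `Spn v c (A.erase a1) w k`, `β w ≤ k` for `Spn v c B w k`, `β0 w ≤ k`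
for `Spn v c (B.erase b1) w k` (`w` one of `x, y, z`).  By `comb`: `α0 w ≤ k`, `β w ≤ l`, `k + l ≤ h` is
impossible, `α w ≤ k`, `β0 w ≤ l`, `k + l ≤ h` is impossible (no common colour of `A \ {a1}` and `B`, of
`A` and `B \ {b1}`, by `huniq`).  `a1` is alone in `A` with its colour, `b1` in `B` (`huniq`).
`2 h = bA + bB + 2`.  All permutations of `x, y, z` are allowed (`rot`, `swap`).

case1odd (`bA`, `bB` odd, so `bA ≥ 3`).
`gad1` on `A` (`S = X = A`, `u = 1`, `b = bA`): `α w ≤ (bA + 1) / 2` for all `w`.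
`gad6` on `B` (`S = X = B`, `u = 2`, `b = bB`, `a = b1`) for each labelling: `β x ≤ (bB + 1) / 2` or
`β y ≤ (bB + 1) / 2` or `β0 z ≤ (bB + 1) / 2` (`bb 1 (bB + 2) - 1 = (bB + 1) / 2`); the last contradicts the bound for
`α z`.  So (`two_of_three`) two of the three, after rotating `x`, `y`, have `β ≤ (bB + 1) / 2`.
`gad2` with `S = A.erase a1`, `X = A`, `u = 0`, `b = bA`: `α0 x ≤ (bA + 1) / 2` or `α0 y ≤ (bA + 1) / 2`: the sum
with `β` is `h`; or `α0 z ≤ (bA - 1) / 2`: `gad1` on `B` (`u = 2`) gives `β z ≤ (bB + 3) / 2`, the sum is `h`.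

case1even (`bA`, `bB` even, `bA, bB ≥ 2`), `h = bA / 2 + bB / 2 + 1`.
P0: `gad4` with `S = A.erase a1`, `X = A`, `u = 0`: `α0 w ≤ bA / 2` for some `w`.
P1: `gad3` on `A` (`u = 1`) for each pair: at least two of the three have `α w ≤ bA / 2`.
Q1: `gad3` on `B` (`u = 2`) for each pair: at least two of the three have `β w ≤ 1 + bB / 2`.
R1: `gad4` with `S = B.erase b1`, `X = B`, `u = 1`: `β0 w ≤ 1 + bB / 2` for some `w`.
`P0 ∩ Q1` is empty, `P1 ∩ R1` is empty (sum `h`).  `R1 ⊆ Q1` (`Spn.mono`), `P0 ⊆ P1`.  So there is exactly one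
`v0` in P0, Q1 is the rest; there is exactly one `w` in R1, P1 is the rest, `w ≠ v0` as `w ∈ Q1`.  Let `u` be
the third: `u ∈ P1 ∩ Q1`.  `gad5` on `A` (`u = 1`, `b = bA`, `a = a1`, `x := u`, `y := w`, `z := v0`):
`α w ≤ bA / 2`: impossible by `w ∈ R1`; or `α0 u ≤ bA / 2`: impossible by `u ∈ Q1`; or
`α0 v0 ≤ bA / 2 - 1`.  If `bA = 2` this is impossible by `spn_zero`.  If `bA ≥ 4`: `gad1` on `B` (`u = 2`)
gives `β v0 ≤ 2 + bB / 2`, the sum is `h`.
(It is convenient to prove the final step for fixed labels `u, w, v0` = `x, y, z` as a lemma and then to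
go through the six permutations.)
-/

namespace RC

open Submodule Module

variable {C : ClsT} {ι κ V : Type} [DecidableEq ι] [AddCommGroup V] [Module ℚ V] {h : ℕ}
  {v : ι → V} {c : ι → κ} {E A B : Finset ι} {e0 : ι} {x y z : V}

omit [DecidableEq ι] in
private theorem h65_cls (hC : Cls C) {X : Finset ι} (hs : Side C v X x y z) :
    C V (v '' (X : Set ι) ∪ {x}) := by
  refine hC.mono hs.cls ?_
  intro w hw
  refine Or.inr (Or.inl ?_)
  rcases hw with hw | hw
  · exact Or.inl hw
  · refine Or.inr ?_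
    rw [Set.mem_singleton_iff] at hw
    rw [hw]
    exact Set.mem_insert _ _

/-- the final step for fixed labels: `x` is in `Q1`, `y` is in `R1` -/
private theorem h65_final (hC : Cls C) (hP : Part C h v c E e0 A B x y z) {bA bB : ℕ}
    {a1 b1 : ι} (ha1 : a1 ∈ A) (hb1 : b1 ∈ B) (hab : c a1 = c b1)
    (huniq : ∀ a ∈ A, ∀ b ∈ B, c a = c b → a = a1 ∧ b = b1)
    (cA : Cnt c A 1 bA) (cB : Cnt c B 2 bB) (hsum : bA + bB + 2 = 2 * h)
    (rA : rk v A = bA + 1) (rB : rk v B = bB + 2)
    (hla : LinearIndependent ℚ ![v a1, x])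
    (hA : 2 ≤ bA) (hB : 1 ≤ bB) (heven : bA % 2 = 0)
    (hx : Spn v c B x (1 + bB / 2)) (hy : Spn v c (B.erase b1) y (1 + bB / 2)) : False := by
  have hsgA : ∀ e ∈ A, c e = c a1 → e = a1 := fun e he hc =>
    (huniq e he b1 hb1 (hc.trans hab)).1
  have hcomb1 : ∀ w : V, w ≠ 0 → ∀ k l : ℕ, Spn v c (A.erase a1) w k → Spn v c B w l →
      k + l ≤ h → False := by
    intro w hw k l h1 h2 h3
    refine comb hP.bad ((Finset.erase_subset _ _).trans hP.subA) hP.subB ?_ hw h1 h2 h3
    intro e he e' he' hc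
    rw [Finset.mem_erase] at he
    exact he.1 (huniq e he.2 e' he' hc).1
  have hcomb2 : ∀ w : V, w ≠ 0 → ∀ k l : ℕ, Spn v c A w k → Spn v c (B.erase b1) w l →
      k + l ≤ h → False := by
    intro w hw k l h1 h2 h3
    refine comb hP.bad hP.subA ((Finset.erase_subset _ _).trans hP.subB) ?_ hw h1 h2 h3
    intro e he e' he' hc
    rw [Finset.mem_erase] at he'
    exact he'.1 (huniq e he e' he'.2 hc).2
  rcases gad5 hC hP.bad (Finset.Subset.refl A) hP.subA hP.sA cA le_rfl ha1 hsgA hla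
    (by omega) (by omega) (by omega) with h1 | h1 | h1
  · exact hcomb2 y hP.sA.ne_y _ _ h1 hy (by omega)
  · exact hcomb1 x hP.sA.ne_x _ _ h1 hx (by (clear * - hsum rA rB hA heven; omega))
  · by_cases h2 : bA = 2
    · have h3 : Spn v c (A.erase a1) z 0 := h1.mono (Finset.Subset.refl _) (by omega)
      exact spn_zero hP.sA.ne_z h3
    · have hz := gad1 hC hP.bad (Finset.Subset.refl B) hP.subB (h65_cls hC hP.sB.rot.rot)
        hP.sB.ne_z hP.sB.memz cB (by omega) (by omega) (by (clear * - hsum rA rB hA heven h2; omega))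
      exact hcomb1 z hP.sA.ne_z _ _ h1 hz (by omega)

/-- `y` is not in `R1` -/
private theorem h65_step (hC : Cls C) (hP : Part C h v c E e0 A B x y z) {bA bB : ℕ}
    {a1 b1 : ι} (ha1 : a1 ∈ A) (hb1 : b1 ∈ B) (hab : c a1 = c b1)
    (huniq : ∀ a ∈ A, ∀ b ∈ B, c a = c b → a = a1 ∧ b = b1)
    (cA : Cnt c A 1 bA) (cB : Cnt c B 2 bB) (hsum : bA + bB + 2 = 2 * h)
    (rA : rk v A = bA + 1) (rB : rk v B = bB + 2)
    (hlx : LinearIndependent ℚ ![v a1, x]) (hlz : LinearIndependent ℚ ![v a1, z])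
    (hA : 2 ≤ bA) (hB : 1 ≤ bB) (heven : bA % 2 = 0)
    (hy : Spn v c (B.erase b1) y (1 + bB / 2)) : False := by
  have hbb : bb 2 (bB + 1) = 2 + (bB + 1) / 2 := by
    unfold bb
    rw [if_neg (by omega)]
  rcases gad3 hC hP.bad (Finset.Subset.refl B) hP.subB hP.swap.rot.sB cB (by omega) (by omega)
    (by rw [hbb]; omega) with h1 | h1
  · exact h65_final hC hP ha1 hb1 hab huniq cA cB hsum rA rB hlx hA hB heven
      (h1.mono (Finset.Subset.refl _) (by rw [hbb]; (clear * - hsum rA rB hB heven; omega))) hy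
  · exact h65_final hC hP.rot.swap ha1 hb1 hab huniq cA cB hsum rA rB hlz hA hB heven
      (h1.mono (Finset.Subset.refl _) (by rw [hbb]; (clear * - hsum rA rB hB heven; omega))) hy

theorem case1even (hC : Cls C) (hP : Part C h v c E e0 A B x y z) {bA bB : ℕ} {a1 b1 : ι}
    (ha1 : a1 ∈ A) (hb1 : b1 ∈ B) (hab : c a1 = c b1)
    (huniq : ∀ a ∈ A, ∀ b ∈ B, c a = c b → a = a1 ∧ b = b1)
    (cA : Cnt c A 1 bA) (cB : Cnt c B 2 bB) (cA0 : Cnt c (A.erase a1) 0 bA)
    (cB0 : Cnt c (B.erase b1) 1 bB) (hsum : bA + bB + 2 = 2 * h)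
    (rA : rk v A = bA + 1) (rB : rk v B = bB + 2)
    (hla : ∀ w ∈ ({x, y, z} : Set V), LinearIndependent ℚ ![v a1, w])
    (hlb : ∀ w ∈ ({x, y, z} : Set V), LinearIndependent ℚ ![v b1, w])
    (hA : 2 ≤ bA) (hB : 1 ≤ bB) (heven : bA % 2 = 0) : False := by
  have hx := hla x (by simp)
  have hy := hla y (by simp)
  have hz := hla z (by simp)
  rcases gad4 hC hP.bad (Finset.erase_subset b1 B) hP.subB hP.sB cB0 (by (clear * - hsum rA rB; omega)) (by omega)
    (by omega) with h1 | h1 | h1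
  · exact h65_step hC hP.rot.rot ha1 hb1 hab huniq cA cB hsum rA rB hz hy hA hB heven
      (h1.mono (Finset.Subset.refl _) (by omega))
  · exact h65_step hC hP ha1 hb1 hab huniq cA cB hsum rA rB hx hz hA hB heven
      (h1.mono (Finset.Subset.refl _) (by (clear * - hsum rA rB heven; omega)))
  · exact h65_step hC hP.rot ha1 hb1 hab huniq cA cB hsum rA rB hy hx hA hB heven
      (h1.mono (Finset.Subset.refl _) (by omega))

end RC

end

section

/-!
The separation step, 3-separations with both vectors of the triangle in both spans.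
-/

namespace RC

open Submodule Module

variable {C : ClsT} {ι κ V : Type} [DecidableEq ι] [AddCommGroup V] [Module ℚ V] {h : ℕ}
  {v : ι → V} {c : ι → κ} {E A B : Finset ι} {e0 : ι} {x y z : V}

omit [DecidableEq ι] in
theorem rk_ge_three (hC : Cls C) (hB : Bad C h v c E e0) (hA : A ⊆ E) (hcard : 4 ≤ A.card) :
    3 ≤ rk v A := by
  by_contra hcon
  have h1 : A.card ≤ 3 := by
    refine rank_two (hC.uni hB.sys.cls) A v (fun e he => ⟨e, by exact_mod_cast hA he, rfl⟩) ?_ ?_
    · intro e he e' he' hne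
      exact hB.par' (hA he) (hA he') hne
    · have : rk v A ≤ 2 := by omega
      exact this
  omega

omit [DecidableEq ι] in
theorem finrank_span_pair (li : LinearIndependent ℚ ![x, y]) :
    finrank ℚ (span ℚ ({x, y} : Set V)) = 2 := by
  have h1 := finrank_span_eq_card li
  have h2 : Set.range ![x, y] = {x, y} := by
    simp [Matrix.range_cons, Matrix.range_empty, Set.pair_comm]
  rw [h2] at h1
  simpa using h1

omit [DecidableEq ι] in
theorem li_of_not_mem (hw0 : z ≠ 0) (hz : z ∈ span ℚ ({x, y} : Set V)) {w : V}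
    (hw : w ∉ span ℚ ({x, y} : Set V)) : LinearIndependent ℚ ![w, z] := by
  rw [LinearIndependent.pair_iff]
  intro s t hst
  by_cases hs : s = 0
  · subst hs
    rw [zero_smul, zero_add] at hst
    exact ⟨rfl, (smul_eq_zero.1 hst).resolve_right hw0⟩
  · exfalso
    apply hw
    have : w = (-(s⁻¹ * t)) • z := by
      have h1 : s • w = -(t • z) := eq_neg_of_add_eq_zero_left hst
      have h2 : w = s⁻¹ • (s • w) := by rw [smul_smul, inv_mul_cancel₀ hs, one_smul]
      rw [h2, h1, smul_neg, smul_smul, neg_smul]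
    rw [this]
    exact smul_mem _ _ hz

theorem core3 (hC : Cls C) (hP : Part C h v c E e0 A B x y z)
    (hinf : span ℚ (v '' (A : Set ι)) ⊓ span ℚ (v '' (B : Set ι)) ≤ span ℚ {x, y})
    (hA4 : 4 ≤ A.card) (hB4 : 4 ≤ B.card)
    (hg : ∀ a ∈ A, ∀ b ∈ B, c a = c b → v a ∉ span ℚ {x, y} ∧ v b ∉ span ℚ {x, y}) :
    False := by
  have hB := hP.bad
  have hAE := hP.subA
  have hBE := hP.subB
  obtain ⟨bA, bB, s, cA, cB, hsum, hs0, hs1, hfull⟩ := counts hB hP.hU hP.hd hP.he
  have hrs := rank_sum hB hP.hU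
  have hinf' : span ℚ (v '' (A : Set ι)) ⊓ span ℚ (v '' (B : Set ι)) = span ℚ {x, y} := by
    refine le_antisymm hinf ?_
    rw [span_le]
    intro w hw
    simp only [Set.mem_insert_iff, Set.mem_singleton_iff] at hw
    rcases hw with rfl | rfl
    · exact ⟨hP.sA.memx, hP.sB.memx⟩
    · exact ⟨hP.sA.memy, hP.sB.memy⟩
  rw [hinf', finrank_span_pair hP.sA.li] at hrs
  have rA3 := rk_ge_three hC hB hAE hA4
  have rB3 := rk_ge_three hC hB hBE hB4
  have hcA := cA.1
  have hnA := cA.2
  have hcB := cB.1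
  have hnB := cB.2
  have a1 : rk v A + 1 ≤ s + bA → h + (bA + 1) / 2 ≤ rk v A := by
    intro h1
    have := sub_ineq hC hB hAE (by omega) (by omega)
    rw [hcA, hnA] at this
    have e : s + 2 * bA - (s + bA) = bA := by (clear * - v hsum hnA hnB; omega)
    rwa [e] at this
  have a2 : rk v A + 2 ≤ s + bA → h + 1 + bA / 2 ≤ rk v A := by
    intro h1
    have := sub_merge hC hB hAE (by (clear * - hsum hrs hnA h1; omega)) (by omega)
    rw [hcA, hnA] at this
    have e : s + 2 * bA - (s + bA) = bA := by omega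
    rwa [e] at this
  have b1 : rk v B + 1 ≤ s + 1 + bB → h + (bB + 1) / 2 ≤ rk v B := by
    intro h1
    have := sub_ineq hC hB hBE (by omega) (by omega)
    rw [hcB, hnB] at this
    have e : s + 1 + 2 * bB - (s + 1 + bB) = bB := by omega
    rwa [e] at this
  have b2 : rk v B + 2 ≤ s + 1 + bB → h + 1 + bB / 2 ≤ rk v B := by
    intro h1
    have := sub_merge hC hB hBE (by omega) (by (clear * - c bA bB s hrs rA3; omega))
    rw [hcB, hnB] at this
    have e : s + 1 + 2 * bB - (s + 1 + bB) = bB := by (clear * - v B hsum hnA; omega)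
    rwa [e] at this
  have key := num3 (h := h) (bA := bA) (bB := bB) (s := s) (rA := rk v A) (rB := rk v B)
    (by omega) (by omega) rA3 rB3 (by omega) (by omega) a1 a2 b1 b2
  rcases key with ⟨k1, k2, k3⟩ | ⟨k1, k2, k3⟩ | ⟨k1, k2, k3⟩ | ⟨k1, k2⟩ | ⟨k1, k2, k3⟩
  · subst k1
    exact case013 hC hP cA cB (by omega) (hs0 rfl) k2 k3 (by omega) (by omega)
  · subst k1
    exact case022 hC hP cA cB (by omega) (hs0 rfl) k2 k3 (by omega) (by (clear * - hB4 hrs k2 k3 hnA hcB hnB; omega))
  · subst k1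
    obtain ⟨p, hp, q, hq, hpq, hu, cA0, cB0⟩ := hs1 rfl
    obtain ⟨g1, g2⟩ := hg p hp q hq hpq
    have zmem : z ∈ span ℚ ({x, y} : Set V) := by
      rw [hP.sA.eq_z]
      exact sub_mem (neg_mem (subset_span (by simp))) (subset_span (by simp))
    have hw : ∀ w' : V, w' ∉ span ℚ ({x, y} : Set V) →
        ∀ w ∈ ({x, y, z} : Set V), LinearIndependent ℚ ![w', w] := by
      intro w' hw' w hw
      simp only [Set.mem_insert_iff, Set.mem_singleton_iff] at hw
      rcases hw with rfl | rfl | rfl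
      · exact li_of_not_mem hP.sA.ne_x (subset_span (by simp)) hw'
      · exact li_of_not_mem hP.sA.ne_y (subset_span (by simp)) hw'
      · exact li_of_not_mem hP.sA.ne_z zmem hw'
    rcases Nat.mod_two_eq_zero_or_one bA with hpar | hpar
    · exact case1even hC hP hp hq hpq hu cA cB cA0 cB0 (by omega) k2 k3 (hw _ g1) (hw _ g2)
        (by omega) (by omega) hpar
    · exact case1odd hC hP hp hq hpq hu cA cB cA0 cB0 (by omega) k2 k3 (hw _ g1) (hw _ g2)
        (by omega) (by (clear * - hB4 hrs k2 k3 hnA hcB hnB hpar; omega)) hpar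
  · exact quadA hC hB hP.hU hP.hd hP.he hP.sA hP.sB.memx hP.sB.memy (by omega) (by omega)
      (by (clear * - c bA bB s hrs k2; omega))
  · exact quadB hC hB hP.hU hP.hd hP.he hP.sB hP.sA.memx hP.sA.memy (by omega) (hfull k3)
      (by omega) (by omega)

end RC

end

section

/-!
RCS-11 (1- and 2-separations of the bad system).

sep1: suppose `A`, `B` nonempty.  We may assume `e0 ∈ B` (the statement is symmetric).  `counts` gives
`bA, bB, s`; the ranks satisfy `rk A + rk B + 1 = 2 h` (`rank_sum`, the intersection is `0`), both are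
positive (`hB.sys.ne`).  `sub_ineq` and `sub_merge` for `F = A` and `F = B` (`nc c A = s + bA`,
`A.card - nc c A = bA`, `nc c B = s + 1 + bB`, `B.card - nc c B = bB`; `rk F + 2 ≤ 2 h`): `num1`.

sep2: suppose `A`, `B` have at least two elements.  The intersection of the spans of `A` and `B` is
contained in `span {p}`.  If it is `0` then `sep1` gives a contradiction.  Otherwise it is `span {p}`,
and `p` is in both spans.  We may assume `e0 ∈ B`.  `rank_sum`: `rk A + rk B = 2 h`.  Both ranks are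
at least 2 (two elements are not parallel, `hB.par'`).  `num2` gives `s = 0`, `rk A = bA`,
`rk B = bB + 1`, `bA + bB + 1 = 2 h`, `bA ≥ 2`, `bB ≥ 1`.  `gad1` on `A` (`S = X = A`, `u = 0`, `b = bA`):
`Spn v c A p (bA / 2)`.  `gad1` on `B` (`u = 1`, `b = bB`): `Spn v c B p (1 + bB / 2)`.  The sum is `h`
(one of `bA`, `bB` is odd): contradiction by `comb` (no common colour as `s = 0`).
-/

namespace RC

open Submodule Module

variable {C : ClsT} {ι κ V : Type} [DecidableEq ι] [AddCommGroup V] [Module ℚ V] {h : ℕ}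
  {v : ι → V} {c : ι → κ} {E : Finset ι} {e0 : ι}

omit [DecidableEq ι] in
theorem sp12_pos {A : Finset ι} {e : ι} (he : e ∈ A) (h0 : v e ≠ 0) : 1 ≤ rk v A := by
  unfold rk
  have hf : FiniteDimensional ℚ (span ℚ (v '' (A : Set ι))) :=
    FiniteDimensional.span_of_finite ℚ ((Finset.finite_toSet A).image v)
  have hn : Nontrivial (span ℚ (v '' (A : Set ι))) := by
    refine ⟨⟨⟨v e, subset_span ⟨e, Finset.mem_coe.2 he, rfl⟩⟩, 0, fun h => h0 ?_⟩⟩
    exact congrArg Subtype.val h
  exact finrank_pos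

omit [DecidableEq ι] in
theorem sp12_two (hB : Bad C h v c E e0) {A : Finset ι} (hA : A ⊆ E) (h2 : 2 ≤ A.card) :
    2 ≤ rk v A := by
  obtain ⟨a, ha, b, hb, hab⟩ := Finset.one_lt_card.1 h2
  have hf : FiniteDimensional ℚ (span ℚ (v '' (A : Set ι))) :=
    FiniteDimensional.span_of_finite ℚ ((Finset.finite_toSet A).image v)
  exact sub_two_le_finrank (span ℚ (v '' (A : Set ι))) (subset_span ⟨a, ha, rfl⟩)
    (subset_span ⟨b, hb, rfl⟩) (hB.par' (hA ha) (hA hb) hab)

omit [DecidableEq ι] in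
/-- the inequality for one side -/
theorem sp12_ineq (hC : Cls C) (hB : Bad C h v c E e0) {A : Finset ι} (hA : A ⊆ E) {a b : ℕ}
    (hcnt : Cnt c A a b) (h2 : rk v A + 2 ≤ 2 * h) :
    (rk v A + 1 ≤ a + b → h + (b + 1) / 2 ≤ rk v A) ∧
      (rk v A + 2 ≤ a + b → h + 1 + b / 2 ≤ rk v A) := by
  obtain ⟨h3, h4⟩ := hcnt
  have h5 : A.card - nc c A = b := by omega
  constructor
  · intro h6
    have h7 := sub_ineq hC hB hA (by omega) h2
    rwa [h5] at h7
  · intro h6
    have h7 := sub_merge hC hB hA (by omega) h2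
    rwa [h5] at h7

theorem sp12_one (hC : Cls C) (hB : Bad C h v c E e0) {A B : Finset ι} (hU : A ∪ B = E)
    (hd : Disjoint A B)
    (hsp : span ℚ (v '' (A : Set ι)) ⊓ span ℚ (v '' (B : Set ι)) = ⊥) (he : e0 ∈ B) :
    A = ∅ := by
  by_contra hne
  have hAE : A ⊆ E := hU ▸ Finset.subset_union_left
  have hBE : B ⊆ E := hU ▸ Finset.subset_union_right
  obtain ⟨a, ha⟩ := Finset.nonempty_of_ne_empty hne
  obtain ⟨bA, bB, s, hcA, hcB, hbb, -, -, -⟩ := counts hB hU hd he
  have hr := rank_sum hB hU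
  rw [hsp, finrank_bot] at hr
  have h1 : 1 ≤ rk v A := sp12_pos ha (hB.sys.ne a (hAE ha))
  have h2 : 1 ≤ rk v B := sp12_pos he (hB.sys.ne e0 (hBE he))
  have iA := sp12_ineq hC hB hAE hcA (by omega)
  have iB := sp12_ineq hC hB hBE hcB (by omega)
  exact num1 hbb (by omega) h1 h2 iA.1 iA.2 iB.1 iB.2

theorem sep1 (hC : Cls C) (hB : Bad C h v c E e0) {A B : Finset ι} (hU : A ∪ B = E)
    (hd : Disjoint A B)
    (hsp : span ℚ (v '' (A : Set ι)) ⊓ span ℚ (v '' (B : Set ι)) = ⊥) : A = ∅ ∨ B = ∅ := by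
  have he : e0 ∈ A ∪ B := hU.symm ▸ hB.mem0
  rcases Finset.mem_union.1 he with he | he
  · exact Or.inr (sp12_one hC hB ((Finset.union_comm B A).trans hU) hd.symm
      ((inf_comm _ _).trans hsp) he)
  · exact Or.inl (sp12_one hC hB hU hd hsp he)

theorem sp12_sep (hC : Cls C) (hB : Bad C h v c E e0) {A B : Finset ι} (hU : A ∪ B = E)
    (hd : Disjoint A B) {p : V} (hp : p ≠ 0)
    (hsp : span ℚ (v '' (A : Set ι)) ⊓ span ℚ (v '' (B : Set ι)) ≤ span ℚ {p})
    (hA : C V (v '' (A : Set ι) ∪ {p})) (hB' : C V (v '' (B : Set ι) ∪ {p}))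
    (h2A : 2 ≤ A.card) (h2B : 2 ≤ B.card) (he : e0 ∈ B) : False := by
  have hAE : A ⊆ E := hU ▸ Finset.subset_union_left
  have hBE : B ⊆ E := hU ▸ Finset.subset_union_right
  by_cases hbot : span ℚ (v '' (A : Set ι)) ⊓ span ℚ (v '' (B : Set ι)) = ⊥
  · rcases sep1 hC hB hU hd hbot with h1 | h1
    · rw [h1, Finset.card_empty] at h2A
      omega
    · rw [h1, Finset.card_empty] at h2B
      omega
  obtain ⟨y, hy, hy0⟩ := Submodule.exists_mem_ne_zero_of_ne_bot hbot
  obtain ⟨t, ht⟩ := Submodule.mem_span_singleton.1 (hsp hy)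
  have ht0 : t ≠ 0 := by
    intro h0
    rw [h0, zero_smul] at ht
    exact hy0 ht.symm
  have hpI : p ∈ span ℚ (v '' (A : Set ι)) ⊓ span ℚ (v '' (B : Set ι)) := by
    have h1 : p = t⁻¹ • y := by rw [← ht, smul_smul, inv_mul_cancel₀ ht0, one_smul]
    rw [h1]
    exact Submodule.smul_mem _ _ hy
  have hI : span ℚ (v '' (A : Set ι)) ⊓ span ℚ (v '' (B : Set ι)) = span ℚ {p} :=
    le_antisymm hsp (span_le.2 (Set.singleton_subset_iff.2 hpI))
  obtain ⟨bA, bB, s, hcA, hcB, hbb, hs0, -, -⟩ := counts hB hU hd he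
  have hr := rank_sum hB hU
  rw [hI, finrank_span_singleton hp] at hr
  have h1 : 2 ≤ rk v A := sp12_two hB hAE h2A
  have h2 : 2 ≤ rk v B := sp12_two hB hBE h2B
  have iA := sp12_ineq hC hB hAE hcA (by omega)
  have iB := sp12_ineq hC hB hBE hcB (by omega)
  obtain ⟨e1, e2, e3⟩ := num2 hbb (by omega) h1 h2 iA.1 iA.2 iB.1 iB.2
  subst e1
  have gA := gad1 hC hB (Finset.Subset.refl A) hAE hA hp hpI.1 (u := 0) (b := bA)
    hcA (by (clear * - bB hr e2; omega)) (by omega) (by (clear * - hr h2 e2 e3; omega))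
  have gB := gad1 hC hB (Finset.Subset.refl B) hBE hB' hp hpI.2 (u := 1) (b := bB)
    (by simpa using hcB) (by omega) (by omega) (by omega)
  exact comb hB hAE hBE (hs0 rfl) hp gA gB (by omega)

theorem sep2 (hC : Cls C) (hB : Bad C h v c E e0) {A B : Finset ι} (hU : A ∪ B = E)
    (hd : Disjoint A B) {p : V} (hp : p ≠ 0)
    (hsp : span ℚ (v '' (A : Set ι)) ⊓ span ℚ (v '' (B : Set ι)) ≤ span ℚ {p})
    (hA : C V (v '' (A : Set ι) ∪ {p})) (hB' : C V (v '' (B : Set ι) ∪ {p})) :
    A.card ≤ 1 ∨ B.card ≤ 1 := by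
  by_contra hno
  push Not at hno
  have he : e0 ∈ A ∪ B := hU.symm ▸ hB.mem0
  rcases Finset.mem_union.1 he with he | he
  · exact sp12_sep hC hB ((Finset.union_comm B A).trans hU) hd.symm hp
      ((inf_comm _ _).le.trans hsp) hB' hA hno.2 hno.1 he
  · exact sp12_sep hC hB hU hd hp hsp hA hB' hno.1 hno.2 he

end RC

end

section

/-!
The separation step for bad systems: `sep1`, `sep2` (in `Sep12.lean`) and `sep3`.
-/

namespace RC

open Submodule Module

variable {C : ClsT} {ι κ V : Type} [DecidableEq ι] [AddCommGroup V] [Module ℚ V] {h : ℕ}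
  {v : ι → V} {c : ι → κ} {E : Finset ι} {e0 : ι} {x y z : V}

/-- A nonzero vector of the line in both spans: then one of `x, y, z` is in both spans. -/
theorem common_point {X Y : Set V} (hX : Uni (X ∪ {x, y, z})) (hY : Uni (Y ∪ {x, y, z}))
    (hs : x + y + z = 0) (li : LinearIndependent ℚ ![x, y]) {w : V} (hw0 : w ≠ 0)
    (hwX : w ∈ span ℚ X) (hwY : w ∈ span ℚ Y) (hw : w ∈ span ℚ ({x, y} : Set V)) :
    ∃ p ∈ ({x, y, z} : Set V), p ∈ span ℚ X ∧ p ∈ span ℚ Y := by
  have zmem : z ∈ span ℚ ({x, y} : Set V) := by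
    have hz : z = -x - y := by
      have : z = (x + y + z) - x - y := by abel
      rw [this, hs]; abel
    rw [hz]
    exact sub_mem (neg_mem (subset_span (by simp))) (subset_span (by simp))
  have hmem : ∀ p ∈ ({x, y, z} : Set V), p ∈ span ℚ ({x, y} : Set V) := by
    intro p hp
    simp only [Set.mem_insert_iff, Set.mem_singleton_iff] at hp
    rcases hp with rfl | rfl | rfl
    · exact subset_span (by simp)
    · exact subset_span (by simp)
    · exact zmem
  have h1 : ∃ p ∈ ({x, y, z} : Set V), p ∈ span ℚ X := by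
    rcases span_line hX hs li le_rfl hwX hw hw0 with h | h | h
    · exact ⟨x, by simp, h⟩
    · exact ⟨y, by simp, h⟩
    · exact ⟨z, by simp, h⟩
  have h2 : ∃ p ∈ ({x, y, z} : Set V), p ∈ span ℚ Y := by
    rcases span_line hY hs li le_rfl hwY hw hw0 with h | h | h
    · exact ⟨x, by simp, h⟩
    · exact ⟨y, by simp, h⟩
    · exact ⟨z, by simp, h⟩
  obtain ⟨p, hp, hpX⟩ := h1
  obtain ⟨q, hq, hqY⟩ := h2
  by_cases hc : p ∈ span ℚ ({w} : Set V)
  · refine ⟨p, hp, hpX, ?_⟩
    have : span ℚ ({w} : Set V) ≤ span ℚ Y := by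
      rw [span_le]; simpa using hwY
    exact this hc
  · refine ⟨q, hq, ?_, hqY⟩
    -- `w, p` span the plane
    have li2 : LinearIndependent ℚ ![w, p] := by
      rw [LinearIndependent.pair_iff]
      intro s t hst
      by_cases ht : t = 0
      · subst ht
        rw [zero_smul, add_zero] at hst
        exact ⟨(smul_eq_zero.1 hst).resolve_right hw0, rfl⟩
      · exfalso
        apply hc
        have h1 : t • p = -(s • w) := eq_neg_of_add_eq_zero_right hst
        have h2 : p = t⁻¹ • (t • p) := by rw [smul_smul, inv_mul_cancel₀ ht, one_smul]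
        rw [h2, h1]
        exact smul_mem _ _ (neg_mem (smul_mem _ _ (mem_span_singleton_self w)))
    have hle : span ℚ ({w, p} : Set V) ≤ span ℚ ({x, y} : Set V) := by
      rw [span_le]
      intro u hu
      simp only [Set.mem_insert_iff, Set.mem_singleton_iff] at hu
      rcases hu with rfl | rfl
      · exact hw
      · exact hmem _ hp
    have hfin : FiniteDimensional ℚ (span ℚ ({x, y} : Set V)) :=
      FiniteDimensional.span_of_finite ℚ (Set.toFinite _)
    have heq : span ℚ ({w, p} : Set V) = span ℚ ({x, y} : Set V) :=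
      Submodule.eq_of_le_of_finrank_eq hle
        (by rw [finrank_span_pair li2, finrank_span_pair li])
    have hq' : q ∈ span ℚ ({w, p} : Set V) := by rw [heq]; exact hmem _ hq
    have hle2 : span ℚ ({w, p} : Set V) ≤ span ℚ X := by
      rw [span_le]
      intro u hu
      simp only [Set.mem_insert_iff, Set.mem_singleton_iff] at hu
      rcases hu with rfl | rfl
      · exact hwX
      · exact hpX
    exact hle2 hq'

/-- The core of `sep3`: a partition without split colours on the line, both sides with at least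
four elements. -/
theorem core3' (hC : Cls C) (hB : Bad C h v c E e0) {A B : Finset ι} (hU : A ∪ B = E)
    (hd : Disjoint A B) (hs : x + y + z = 0) (li : LinearIndependent ℚ ![x, y])
    (hA : C V (v '' (A : Set ι) ∪ {x, y, z})) (hB' : C V (v '' (B : Set ι) ∪ {x, y, z}))
    (hinf : span ℚ (v '' (A : Set ι)) ⊓ span ℚ (v '' (B : Set ι)) ≤ span ℚ {x, y})
    (hg : ∀ a ∈ A, ∀ b ∈ B, c a = c b → v a ∉ span ℚ {x, y} ∧ v b ∉ span ℚ {x, y})
    (hA4 : 4 ≤ A.card) (hB4 : 4 ≤ B.card) : False := by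
  have hfin : FiniteDimensional ℚ (span ℚ ({x, y} : Set V)) :=
    FiniteDimensional.span_of_finite ℚ (Set.toFinite _)
  by_cases hbot : span ℚ (v '' (A : Set ι)) ⊓ span ℚ (v '' (B : Set ι)) = ⊥
  · rcases sep1 hC hB hU hd hbot with h | h
    · rw [h] at hA4; simp at hA4
    · rw [h] at hB4; simp at hB4
  · obtain ⟨w, hw, hw0⟩ := (Submodule.ne_bot_iff _).1 hbot
    obtain ⟨p, hp, hpA, hpB⟩ := common_point (hC.uni hA) (hC.uni hB') hs li hw0 hw.1 hw.2
      (hinf hw)
    have hpsub : ({p} : Set V) ⊆ ({x, y, z} : Set V) := by simpa using hp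
    have monoA : C V (v '' (A : Set ι) ∪ {p}) :=
      hC.mono hA (fun u hu => Or.inr (Or.inl (Set.union_subset_union_right _ hpsub hu)))
    have monoB : C V (v '' (B : Set ι) ∪ {p}) :=
      hC.mono hB' (fun u hu => Or.inr (Or.inl (Set.union_subset_union_right _ hpsub hu)))
    have hxne : x ≠ 0 := by simpa using li.ne_zero 0
    have hyne : y ≠ 0 := by simpa using li.ne_zero 1
    have hzne : z ≠ 0 := by simpa using (li_rot li hs).ne_zero 1
    have hp0 : p ≠ 0 := by
      simp only [Set.mem_insert_iff, Set.mem_singleton_iff] at hp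
      rcases hp with rfl | rfl | rfl
      · exact hxne
      · exact hyne
      · exact hzne
    by_cases hfull : x ∈ span ℚ (v '' (A : Set ι)) ⊓ span ℚ (v '' (B : Set ι)) ∧
        y ∈ span ℚ (v '' (A : Set ι)) ⊓ span ℚ (v '' (B : Set ι))
    · obtain ⟨⟨hx1, hx2⟩, ⟨hy1, hy2⟩⟩ := hfull
      have he : e0 ∈ A ∪ B := by rw [hU]; exact hB.mem0
      rcases Finset.mem_union.1 he with he | he
      · refine core3 hC (A := B) (B := A) (x := x) (y := y) (z := z)
          ⟨hB, by rw [Finset.union_comm]; exact hU, hd.symm, he, ⟨hs, li, hB', hx2, hy2⟩,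
            ⟨hs, li, hA, hx1, hy1⟩⟩ (by rw [inf_comm]; exact hinf) hB4 hA4 ?_
        intro a ha b hb hab
        exact (hg b hb a ha hab.symm).symm
      · exact core3 hC (A := A) (B := B) (x := x) (y := y) (z := z)
          ⟨hB, hU, hd, he, ⟨hs, li, hA, hx1, hy1⟩, ⟨hs, li, hB', hx2, hy2⟩⟩ hinf hA4 hB4 hg
    · -- the intersection has dimension one
      have hle : span ℚ (v '' (A : Set ι)) ⊓ span ℚ (v '' (B : Set ι)) ≤ span ℚ {p} := by
        intro w' hw'
        by_contra hcon
        apply hfull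
        have li2 : LinearIndependent ℚ ![p, w'] := by
          rw [LinearIndependent.pair_iff]
          intro s t hst
          by_cases ht : t = 0
          · subst ht
            rw [zero_smul, add_zero] at hst
            exact ⟨(smul_eq_zero.1 hst).resolve_right hp0, rfl⟩
          · exfalso
            apply hcon
            have h1 : t • w' = -(s • p) := eq_neg_of_add_eq_zero_right hst
            have h2 : w' = t⁻¹ • (t • w') := by rw [smul_smul, inv_mul_cancel₀ ht, one_smul]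
            rw [h2, h1]
            exact smul_mem _ _ (neg_mem (smul_mem _ _ (mem_span_singleton_self p)))
        have hle2 : span ℚ ({p, w'} : Set V) ≤
            span ℚ (v '' (A : Set ι)) ⊓ span ℚ (v '' (B : Set ι)) := by
          rw [span_le]
          intro u hu
          simp only [Set.mem_insert_iff, Set.mem_singleton_iff] at hu
          rcases hu with rfl | rfl
          · exact ⟨hpA, hpB⟩
          · exact hw'
        have heq : span ℚ ({p, w'} : Set V) = span ℚ ({x, y} : Set V) :=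
          Submodule.eq_of_le_of_finrank_eq (hle2.trans hinf)
            (by rw [finrank_span_pair li2, finrank_span_pair li])
        rw [heq] at hle2
        exact ⟨hle2 (subset_span (by simp)), hle2 (subset_span (by simp))⟩
      rcases sep2 hC hB hU hd hp0 hle monoA monoB with h | h <;> omega

open Classical in
/-- 3-separations of a bad system: one side has at most three elements outside the line of the
triangle. -/
theorem sep3 (hC : Cls C) (hB : Bad C h v c E e0) {A B : Finset ι} (hU : A ∪ B = E)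
    (hd : Disjoint A B) {p q : V} (li : LinearIndependent ℚ ![p, q])
    (hsp : span ℚ (v '' (A : Set ι) ∪ {p, q}) ⊓ span ℚ (v '' (B : Set ι) ∪ {p, q}) ≤
      span ℚ {p, q})
    (hA : C V (v '' (A : Set ι) ∪ {p, q, p + q}))
    (hB' : C V (v '' (B : Set ι) ∪ {p, q, p + q})) :
    (A.filter fun e => v e ∉ span ℚ {p, q}).card ≤ 3 ∨
      (B.filter fun e => v e ∉ span ℚ {p, q}).card ≤ 3 := by
  have hs : p + q + (-(p + q)) = 0 := add_neg_cancel _
  have mono : ∀ Y : Set V, C V (Y ∪ {p, q, p + q}) → C V (Y ∪ {p, q, -(p + q)}) := by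
    intro Y hY
    refine hC.mono hY ?_
    intro u hu
    rcases hu with hu | hu
    · exact Or.inr (Or.inl (Or.inl hu))
    · simp only [Set.mem_insert_iff, Set.mem_singleton_iff] at hu
      rcases hu with rfl | rfl | rfl
      · exact Or.inr (Or.inl (Or.inr (by simp)))
      · exact Or.inr (Or.inl (Or.inr (by simp)))
      · exact Or.inr (Or.inr (Or.inr (by simp)))
  obtain ⟨A', B', hU', hd', hAA, hBB, cA, cB, hinf, hg⟩ :=
    rearr hC hB hU hd hs li hsp (mono _ hA) (mono _ hB')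
  by_contra hcon
  push Not at hcon
  obtain ⟨h1, h2⟩ := hcon
  have hA4 : 4 ≤ A'.card := by
    refine le_trans h1 (Finset.card_le_card ?_)
    intro e he
    rw [Finset.mem_filter] at he
    exact hAA e he.1 he.2
  have hB4 : 4 ≤ B'.card := by
    refine le_trans h2 (Finset.card_le_card ?_)
    intro e he
    rw [Finset.mem_filter] at he
    exact hBB e he.1 he.2
  exact core3' hC hB hU' hd' hs li cA cB hinf hg hA4 hB4

end RC

end
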