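import Pool.Agent.Helper29.MFA.T03
import Pool.Agent.Helper29.MFA.T02
import Pool.Agent.Helper29.MFA.T05
import Pool.Agent.Helper29.MFA.T04

section

/-!
Module RC-K3.  A bad system is not graphic.

Let `φ : V → (W → ℚ)` be as in the hypothesis: for `e ∈ E`, `φ (v e) = single a 1 - single b 1`
with `a ≠ b` (`v e ≠ 0`), call `a, b` the ends of `e`.  For `w ∈ W` let `D w ⊆ E` be the set of
elements with end `w`, that is with `φ (v e) w ≠ 0`.  Let `U ⊆ W` be the set of `w` with `D w`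
nonempty.
(1) `|U| ≥ 2 h`: `φ` maps `span (v '' E)` (dimension `2 h - 1`) injectively into the space of
    functions supported on `U` with sum `0`, of dimension at most `|U| - 1`
    (`U` nonempty).
(2) For `w ∈ U`: the functional `g ↦ g w` is nonzero on `φ (span (v '' E))` and vanishes on
    `φ (v e)` for `e ∉ D w`; so `rk v (E \ D w) + 1 ≤ rk v E`, `rk v (E \ D w) + 2 ≤ 2 h`.
    So `|D w| ≥ 4` if `e0 ∉ D w` (`RC.coc_notin`), and `|D w| ≥ 3` if `e0 ∈ D w`, with equality only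
    for `{e0, x, y}`, `c x = c y` (`RC.coc_in`).
(3) Double counting: `∑_{w ∈ U} |D w| = 2 |E| = 8 h - 2`; exactly two vertices, the ends `p, q` of
    `e0`, have `e0 ∈ D w`.  `8 h - 2 ≥ 4 (|U| - 2) + 6 ≥ 8 h - 2`, so `|U| = 2 h`,
    `|D p| = |D q| = 3`, `|D w| = 4` for the others.  `D p = {e0, x1, y1}`,
    `D q = {e0, x2, y2}`.
(4) Two elements with the same two ends are parallel, impossible (`Bad.par'`).  So for every colour
    `{x, y}` there is at most one `w` with `x, y ∈ D w`; the colour of `x1, y1` is different from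
    that of `x2, y2` (else `x1` would join `p` and `q`, parallel to `e0`).  The `2 h - 2`
    vertices `w ∈ U`, `w ≠ p, q`, can contain only colours other than those of `e0, x1, x2`
    completely: at most `2 h - 3` colours.  So there is `r ∈ U`, `r ≠ p, q`, such that `D r`
    (4 elements) contains no complete colour (note `e0 ∉ D r`).
(5) Let `F = E \ (D p ∪ D q ∪ D r)`.  The three functionals `g ↦ g p, g q, g r` are linearly
    independent on `φ (span (v '' E))`: this space has dimension `2 h - 1 = |U| - 1`, so it is the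
    space of all functions supported on `U` with sum `0`, and `|U| = 2 h ≥ 4`.  So
    `rk v F ≤ 2 h - 4`.
    Colours: `D p ∪ D q` has 5 elements (`D p ∩ D q = {e0}`).  Let `i = |D r ∩ (D p ∪ D q)|`;
    `i ≤ 2` is not needed.  `|F| = 4 h - 1 - 5 - 4 + i = 4 h - 10 + i`.  `nc c F = 2 h - 3`: the
    colours of `e0`, `x1`, `x2` are not in `F`; every other colour has at most one element in `D r`
    and none in `D p ∪ D q`, so it meets `F`.
    `RC.sub_ineq` (`rk v F + 1 ≤ 2 h - 3 = nc c F`): `h + (4 h - 10 + i - (2 h - 3) + 1)/2 ≤ rk v F`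
    `≤ 2 h - 4`, so `(2 h - 6 + i)/2 ≤ h - 4`, false.
    (If `rk v F + 1 ≤ nc c F` fails there is nothing to show; it holds as `rk v F ≤ 2 h - 4`.)
-/

namespace RC.Base

open Submodule Module

variable {ι κ V : Type} [AddCommGroup V] [Module ℚ V]

theorem h85_single_ne {W : Type} [DecidableEq W] {a b : W} (hab : a ≠ b) (w : W) :
    (Pi.single a (1 : ℚ) - Pi.single b 1 : W → ℚ) w ≠ 0 ↔ w = a ∨ w = b := by
  by_cases h1 : w = a
  · subst h1; simp [hab]
  · by_cases h2 : w = b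
    · subst h2; simp [h1]
    · simp [h1, h2]

theorem h85_rank {v : ι → V} {X : Finset ι} {W : Type} [Fintype W] [DecidableEq W]
    (φ : V →ₗ[ℚ] (W → ℚ)) (inj : ∀ y ∈ span ℚ (v '' (X : Set ι)), φ y = 0 → y = 0)
    (edge : ∀ e ∈ X, ∃ a b : W, φ (v e) = Pi.single a 1 - Pi.single b 1)
    (K : Finset W) (hK : K.Nonempty) (hs : ∀ e ∈ X, ∀ w, w ∉ K → φ (v e) w = 0) :
    rk v X + 1 ≤ K.card := by
  obtain ⟨k0, hk0⟩ := hK
  have h1 : ∀ y ∈ span ℚ (v '' (X : Set ι)), ∀ w, w ∉ K → φ y w = 0 := by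
    intro y hy
    induction hy using span_induction with
    | mem x hx =>
      obtain ⟨e, he, rfl⟩ := hx
      exact hs e he
    | zero => intro w _; simp
    | add x y _ _ hx hy => intro w hw; simp [hx w hw, hy w hw]
    | smul a x _ hx => intro w hw; simp [hx w hw]
  have h2 : ∀ y ∈ span ℚ (v '' (X : Set ι)), ∑ w, φ y w = 0 := by
    intro y hy
    induction hy using span_induction with
    | mem x hx =>
      obtain ⟨e, he, rfl⟩ := hx
      obtain ⟨a, b, hab⟩ := edge e he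
      rw [hab]
      simp
    | zero => simp
    | add x y _ _ hx hy =>
      simp only [map_add, Pi.add_apply, Finset.sum_add_distrib, hx, hy, add_zero]
    | smul a x _ hx =>
      simp only [map_smul, Pi.smul_apply, smul_eq_mul, ← Finset.mul_sum, hx, mul_zero]
  let f : span ℚ (v '' (X : Set ι)) →ₗ[ℚ] (↥(K.erase k0) → ℚ) :=
    (LinearMap.funLeft ℚ ℚ (fun w : ↥(K.erase k0) => (w : W))) ∘ₗ φ ∘ₗ
      (span ℚ (v '' (X : Set ι))).subtype
  have hf : Function.Injective f := by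
    rw [← LinearMap.ker_eq_bot, LinearMap.ker_eq_bot']
    rintro ⟨y, hy⟩ h
    have h3 : ∀ w, w ∈ K → w ≠ k0 → φ y w = 0 := fun w hw hne =>
      congrFun h ⟨w, Finset.mem_erase.2 ⟨hne, hw⟩⟩
    have h5 : ∀ w, w ≠ k0 → φ y w = 0 := by
      intro w hw
      by_cases hk : w ∈ K
      · exact h3 w hk hw
      · exact h1 y hy w hk
    have h6 := h2 y hy
    rw [Finset.sum_eq_single k0 (fun w _ hw => h5 w hw) (by simp)] at h6
    have h4 : φ y = 0 := by
      funext w
      by_cases hw : w = k0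
      · subst hw; exact h6
      · exact h5 w hw
    exact Subtype.ext (inj y hy h4)
  have h7 := LinearMap.finrank_le_finrank_of_injective hf
  rw [finrank_fintype_fun_eq_card, Fintype.card_coe, Finset.card_erase_of_mem hk0] at h7
  have h8 := Finset.card_pos.2 ⟨k0, hk0⟩
  unfold rk
  omega

theorem h85_drop {v : ι → V} {E F : Finset ι} (hF : F ⊆ E) (f : V →ₗ[ℚ] ℚ)
    (hf : ∀ e ∈ F, f (v e) = 0) {e : ι} (he : e ∈ E) (hne : f (v e) ≠ 0) :
    rk v F + 1 ≤ rk v E := by
  unfold rk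
  have hlt : span ℚ (v '' (F : Set ι)) < span ℚ (v '' (E : Set ι)) := by
    refine lt_of_le_of_ne (span_mono (Set.image_mono (by exact_mod_cast hF))) ?_
    intro heq
    have h1 : v e ∈ span ℚ (v '' (F : Set ι)) := heq ▸ subset_span ⟨e, he, rfl⟩
    have hle : span ℚ (v '' (F : Set ι)) ≤ LinearMap.ker f := span_le.2 (by
      rintro _ ⟨x, hx, rfl⟩
      exact hf x hx)
    exact hne (hle h1)
  have hfin : FiniteDimensional ℚ (span ℚ (v '' (E : Set ι))) :=
    FiniteDimensional.span_of_finite ℚ ((Finset.finite_toSet E).image v)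
  exact Submodule.finrank_lt_finrank_of_lt hlt

theorem bad_not_graphic {C : ClsT} (hC : Cls C) {h : ℕ} {v : ι → V} {c : ι → κ}
    {E : Finset ι} {e0 : ι} (hb : Bad C h v c E e0) (W : Type) [Fintype W] [DecidableEq W]
    (φ : V →ₗ[ℚ] (W → ℚ)) (inj : ∀ y ∈ span ℚ (v '' (E : Set ι)), φ y = 0 → y = 0)
    (edge : ∀ e ∈ E, ∃ a b : W, φ (v e) = Pi.single a 1 - Pi.single b 1) : False := by
  classical
  have hh := hb.two_le
  have hmem : ∀ e ∈ E, v e ∈ span ℚ (v '' (E : Set ι)) := fun e he => subset_span ⟨e, he, rfl⟩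
  -- ends
  have hend : ∀ e ∈ E, ∃ a b : W, a ≠ b ∧ φ (v e) = Pi.single a 1 - Pi.single b 1 := by
    intro e he
    obtain ⟨a, b, hab⟩ := edge e he
    refine ⟨a, b, ?_, hab⟩
    rintro rfl
    apply hb.sys.ne e he
    apply inj _ (hmem e he)
    rw [hab, sub_self]
  let D : W → Finset ι := fun w => E.filter (fun e => φ (v e) w ≠ 0)
  have hD : ∀ w e, e ∈ D w ↔ e ∈ E ∧ φ (v e) w ≠ 0 := fun w e => Finset.mem_filter
  have hDE : ∀ w, D w ⊆ E := fun w => Finset.filter_subset _ _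
  let U : Finset W := Finset.univ.filter (fun w => (D w).Nonempty)
  have hU : ∀ w, w ∈ U ↔ (D w).Nonempty := fun w => by simp [U]
  -- no two elements with the same two ends
  have hpar : ∀ x ∈ E, ∀ y ∈ E, x ≠ y → ∀ w w' : W, w ≠ w' → x ∈ D w → x ∈ D w' → y ∈ D w →
      y ∈ D w' → False := by
    intro x hx y hy hxy w w' hww h1 h2 h3 h4
    rw [hD] at h1 h2 h3 h4
    obtain ⟨a, b, hab, he⟩ := hend x hx
    obtain ⟨a', b', hab', he'⟩ := hend y hy
    rw [he, h85_single_ne hab] at h1 h2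
    rw [he', h85_single_ne hab'] at h3 h4
    have hcase : φ (v x) = φ (v y) ∨ φ (v x) = - φ (v y) := by
      have hab2 : (a = a' ∧ b = b') ∨ (a = b' ∧ b = a') := by
        have e1 := h1.2
        have e2 := h2.2
        have e3 := h3.2
        have e4 := h4.2
        clear h1 h2 h3 h4 he he' edge inj
        grind
      rw [he, he', neg_sub]
      rcases hab2 with ⟨rfl, rfl⟩ | ⟨rfl, rfl⟩
      · exact Or.inl rfl
      · exact Or.inr rfl
    have hli := hb.par' hx hy hxy
    rw [LinearIndependent.pair_iff] at hli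
    rcases hcase with h | h
    · have h5 : v x - v y = 0 := by
        apply inj _ (sub_mem (hmem x hx) (hmem y hy))
        rw [map_sub, h, sub_self]
      have h6 := hli 1 (-1) (by rw [one_smul, neg_smul, one_smul, ← sub_eq_add_neg]; exact h5)
      exact one_ne_zero h6.1
    · have h5 : v x + v y = 0 := by
        apply inj _ (add_mem (hmem x hx) (hmem y hy))
        rw [map_add, h, neg_add_cancel]
      have h6 := hli 1 1 (by rw [one_smul, one_smul]; exact h5)
      exact one_ne_zero h6.1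
  -- (1)
  have hUne : ∀ e ∈ E, ∀ w, φ (v e) w ≠ 0 → w ∈ U := fun e he w hw =>
    (hU w).2 ⟨e, (hD w e).2 ⟨he, hw⟩⟩
  obtain ⟨p, q, hpq, he0⟩ := hend e0 hb.mem0
  have hp0 : e0 ∈ D p := (hD p e0).2 ⟨hb.mem0, by rw [he0, h85_single_ne hpq]; exact Or.inl rfl⟩
  have hq0 : e0 ∈ D q := (hD q e0).2 ⟨hb.mem0, by rw [he0, h85_single_ne hpq]; exact Or.inr rfl⟩
  have hpU : p ∈ U := (hU p).2 ⟨e0, hp0⟩
  have hqU : q ∈ U := (hU q).2 ⟨e0, hq0⟩
  have hrE := hb.rank
  have h1 : 2 * h ≤ U.card := by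
    have := h85_rank φ inj edge U ⟨p, hpU⟩ (fun e he w hw => by
      by_contra hne
      exact hw (hUne e he w hne))
    omega
  -- (2)
  have h2 : ∀ w ∈ U, rk v (E \ D w) + 2 ≤ 2 * h := by
    intro w hw
    obtain ⟨e, he⟩ := (hU w).1 hw
    have := h85_drop (v := v) (E := E) (F := E \ D w) Finset.sdiff_subset
      ((LinearMap.proj w) ∘ₗ φ) (by
        intro x hx
        rw [Finset.mem_sdiff, hD] at hx
        by_contra hne
        exact hx.2 ⟨hx.1, hne⟩) ((hD w e).1 he).1 ((hD w e).1 he).2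
    omega
  have hn0 : ∀ w, w ≠ p → w ≠ q → e0 ∉ D w := by
    intro w hwp hwq hw
    have := ((hD w e0).1 hw).2
    rw [he0, h85_single_ne hpq] at this
    rcases this with h | h
    · exact hwp h
    · exact hwq h
  have h4 : ∀ w ∈ U, w ≠ p → w ≠ q → 4 ≤ (D w).card := fun w hw hwp hwq =>
    coc_notin hC hb (hDE w) (hn0 w hwp hwq) (h2 w hw)
  have hP := coc_in hC hb (hDE p) hp0 (h2 p hpU)
  have hQ := coc_in hC hb (hDE q) hq0 (h2 q hqU)
  -- (3)
  have hcount : ∑ w, (D w).card = 2 * E.card := by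
    have : ∀ w, (D w).card = ∑ e ∈ E, if φ (v e) w ≠ 0 then 1 else 0 := fun w => by
      rw [Finset.card_filter]
    rw [Finset.sum_congr rfl (fun w _ => this w), Finset.sum_comm,
      Finset.sum_congr rfl (g := fun _ => 2) ?_]
    · rw [Finset.sum_const, smul_eq_mul, mul_comm]
    · intro e he
      obtain ⟨a, b, hab, hee⟩ := hend e he
      rw [← Finset.card_filter]
      have : Finset.univ.filter (fun w => φ (v e) w ≠ 0) = {a, b} := by
        ext w
        rw [Finset.mem_filter, hee, h85_single_ne hab]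
        simp
      rw [this, Finset.card_pair hab]
  have hsumU : ∑ w ∈ U, (D w).card = 2 * E.card := by
    rw [← hcount]
    apply Finset.sum_subset (Finset.subset_univ _)
    intro w _ hw
    rw [hU, Finset.not_nonempty_iff_eq_empty] at hw
    rw [hw, Finset.card_empty]
  have hsplit : ∑ w ∈ U, (D w).card = (D p).card + ((D q).card +
      ∑ w ∈ (U.erase p).erase q, (D w).card) := by
    rw [← Finset.add_sum_erase U (fun w => (D w).card) hpU,
      ← Finset.add_sum_erase (U.erase p) (fun w => (D w).card)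
        (Finset.mem_erase.2 ⟨hpq.symm, hqU⟩)]
  have hcardR : ((U.erase p).erase q).card + 2 = U.card := by
    rw [Finset.card_erase_of_mem (Finset.mem_erase.2 ⟨hpq.symm, hqU⟩),
      Finset.card_erase_of_mem hpU]
    omega
  have hlow : 4 * ((U.erase p).erase q).card ≤ ∑ w ∈ (U.erase p).erase q, (D w).card := by
    have := Finset.card_nsmul_le_sum ((U.erase p).erase q) (fun w => (D w).card) 4 (by
      intro w hw
      rw [Finset.mem_erase, Finset.mem_erase] at hw
      exact h4 w hw.2.2 hw.2.1 hw.1)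
    rw [smul_eq_mul] at this
    omega
  have hE := hb.card
  have hUc : U.card = 2 * h := by omega
  have hPc : (D p).card = 3 := by omega
  have hQc : (D q).card = 3 := by (clear * - hQ hsumU hsplit hcardR hlow hE hUc hPc; omega)
  obtain ⟨x1, hx1, y1, hy1, hxy1, hx10, hy10, hc1, hall1⟩ := hP.2 hPc
  obtain ⟨x2, hx2, y2, hy2, hxy2, hx20, hy20, hc2, hall2⟩ := hQ.2 hQc
  have hle4 : ∀ r ∈ U, r ≠ p → r ≠ q → (D r).card ≤ 4 := by
    intro r hr hrp hrq
    have hrm : r ∈ (U.erase p).erase q :=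
      Finset.mem_erase.2 ⟨hrq, Finset.mem_erase.2 ⟨hrp, hr⟩⟩
    have hs := Finset.add_sum_erase ((U.erase p).erase q) (fun w => (D w).card) hrm
    have hlow' := Finset.card_nsmul_le_sum (((U.erase p).erase q).erase r)
      (fun w => (D w).card) 4 (by
        intro w hw
        rw [Finset.mem_erase, Finset.mem_erase, Finset.mem_erase] at hw
        exact h4 w hw.2.2.2 hw.2.2.1 hw.2.1)
    rw [smul_eq_mul, Finset.card_erase_of_mem hrm] at hlow'
    omega
  -- (4)
  have hex : ∃ r ∈ U, ∀ x ∈ D r, ∀ y ∈ D r, c x = c y → x = y := by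
    by_contra hno
    push Not at hno
    have : Nonempty ι := ⟨e0⟩
    choose! X hX Y hY hXY hne using hno
    have hinj : Set.InjOn (fun w => c (X w)) (U : Set W) := by
      intro w hw w' hw' heq
      by_contra hww
      simp only at heq
      have hw1 : w ∈ U := hw
      have hw1' : w' ∈ U := hw'
      have a1 := hDE w (hX w hw1)
      have a2 := hDE w (hY w hw1)
      have a3 := hDE w' (hX w' hw1')
      have a4 := hDE w' (hY w' hw1')
      have b1 := hXY w hw1
      have b2 := hXY w' hw1'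
      have b3 := hne w hw1
      have b4 := hne w' hw1'
      have k1 : X w ∈ D w' := by
        rcases hb.sys.two _ a3 _ a4 _ a1 b2 heq.symm with h | h | h
        · exact absurd h b4
        · rw [← h]; exact hX w' hw1'
        · rw [← h]; exact hY w' hw1'
      have k2 : Y w ∈ D w' := by
        rcases hb.sys.two _ a3 _ a4 _ a2 b2 (heq.symm.trans b1) with h | h | h
        · exact absurd h b4
        · rw [← h]; exact hX w' hw1'
        · rw [← h]; exact hY w' hw1'
      exact hpar _ a1 _ a2 b3 w w' hww (hX w hw1) k1 (hY w hw1) k2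
    have hmaps : ∀ w ∈ U, (fun w => c (X w)) w ∈ (E.image c).erase (c e0) := by
      intro w hw
      rw [Finset.mem_erase]
      refine ⟨?_, Finset.mem_image_of_mem c (hDE w (hX w hw))⟩
      intro h
      have e1 := hb.single _ (hDE w (hX w hw)) h
      have e2 := hb.single _ (hDE w (hY w hw)) ((hXY w hw).symm.trans h)
      exact hne w hw (e1.trans e2.symm)
    have hcc := Finset.card_le_card_of_injOn _ hmaps hinj
    rw [Finset.card_erase_of_mem (Finset.mem_image_of_mem c hb.mem0)] at hcc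
    have hnc : (E.image c).card = 2 * h := by
      rw [← hb.nc_eq]
      unfold nc
      congr!
    omega
  obtain ⟨r, hrU, hr⟩ := hex
  have hrp : r ≠ p := by
    rintro rfl
    exact hxy1 (hr x1 hx1 y1 hy1 hc1)
  have hrq : r ≠ q := by
    rintro rfl
    exact hxy2 (hr x2 hx2 y2 hy2 hc2)
  have hr4 := hle4 r hrU hrp hrq
  -- colours of x1, x2
  have hc12 : c x1 ≠ c x2 := by
    intro heq
    have k1 : x1 ∈ D q := by
      rcases hb.sys.two _ (hDE q hx2) _ (hDE q hy2) _ (hDE p hx1) hc2 heq.symm with h | h | h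
      · exact absurd h hxy2
      · rw [← h]; exact hx2
      · rw [← h]; exact hy2
    exact hpar e0 hb.mem0 x1 (hDE p hx1) hx10.symm p q hpq hp0 hq0 hx1 k1
  have hc01 : c x1 ≠ c e0 := fun h => hx10 (hb.single _ (hDE p hx1) h)
  have hc02 : c x2 ≠ c e0 := fun h => hx20 (hb.single _ (hDE q hx2) h)
  -- (5)
  let F : Finset ι := E \ (D p ∪ D q ∪ D r)
  have hFE : F ⊆ E := Finset.sdiff_subset
  have hF : ∀ e, e ∈ F ↔ e ∈ E ∧ e ∉ D p ∧ e ∉ D q ∧ e ∉ D r := by
    intro e
    simp only [F, Finset.mem_sdiff, Finset.mem_union, not_or, and_assoc]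
  have hKc : (((U.erase p).erase q).erase r).card + 3 = 2 * h := by
    rw [Finset.card_erase_of_mem (Finset.mem_erase.2 ⟨hrq, Finset.mem_erase.2 ⟨hrp, hrU⟩⟩)]
    omega
  have hFrk : rk v F + 1 ≤ (((U.erase p).erase q).erase r).card := by
    refine h85_rank φ (fun y hy => inj y (span_mono (Set.image_mono (by exact_mod_cast hFE)) hy))
      (fun e he => edge e (hFE he)) _ (Finset.card_pos.1 (by omega)) ?_
    intro e he w hw
    by_contra hne
    apply hw
    have he' := (hF e).1 he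
    rw [Finset.mem_erase, Finset.mem_erase, Finset.mem_erase]
    refine ⟨?_, ?_, ?_, hUne e he'.1 w hne⟩
    · rintro rfl
      exact he'.2.2.2 ((hD _ e).2 ⟨he'.1, hne⟩)
    · rintro rfl
      exact he'.2.2.1 ((hD _ e).2 ⟨he'.1, hne⟩)
    · rintro rfl
      exact he'.2.1 ((hD _ e).2 ⟨he'.1, hne⟩)
  have hpq1 : (D p ∪ D q).card ≤ 5 := by
    have a1 := Finset.card_union_add_card_inter (D p) (D q)
    have a2 : 0 < (D p ∩ D q).card := Finset.card_pos.2 ⟨e0, Finset.mem_inter.2 ⟨hp0, hq0⟩⟩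
    omega
  have hFc : 4 * h ≤ F.card + 10 := by
    have a1 := Finset.card_union_le (D p ∪ D q) (D r)
    have a2 : E.card ≤ F.card + (D p ∪ D q ∪ D r).card := by
      have := Finset.le_card_sdiff (D p ∪ D q ∪ D r) E
      simp only [F]
      omega
    omega
  have hncE : (E.image c).card = 2 * h := by
    rw [← hb.nc_eq]
    unfold nc
    congr!
  have hthree : ((((E.image c).erase (c e0)).erase (c x1)).erase (c x2)).card + 3 = 2 * h := by
    rw [Finset.card_erase_of_mem (Finset.mem_erase.2 ⟨hc12.symm, Finset.mem_erase.2 ⟨hc02,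
      Finset.mem_image_of_mem c (hDE q hx2)⟩⟩), Finset.card_erase_of_mem (Finset.mem_erase.2
      ⟨hc01, Finset.mem_image_of_mem c (hDE p hx1)⟩), Finset.card_erase_of_mem
      (Finset.mem_image_of_mem c hb.mem0)]
    omega
  have hcp : ∀ e ∈ D p, c e = c e0 ∨ c e = c x1 := by
    intro e he
    rcases hall1 e he with h | h | h
    · exact Or.inl (by rw [h])
    · exact Or.inr (by rw [h])
    · exact Or.inr (by rw [h, hc1])
  have hcq : ∀ e ∈ D q, c e = c e0 ∨ c e = c x2 := by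
    intro e he
    rcases hall2 e he with h | h | h
    · exact Or.inl (by rw [h])
    · exact Or.inr (by rw [h])
    · exact Or.inr (by rw [h, hc2])
  have himg : F.image c = (((E.image c).erase (c e0)).erase (c x1)).erase (c x2) := by
    ext k
    rw [Finset.mem_erase, Finset.mem_erase, Finset.mem_erase, Finset.mem_image, Finset.mem_image]
    constructor
    · rintro ⟨e, he, rfl⟩
      have he' := (hF e).1 he
      refine ⟨?_, ?_, ?_, e, he'.1, rfl⟩
      · intro h
        rcases hb.sys.two _ (hDE q hx2) _ (hDE q hy2) _ he'.1 hc2 h.symm with h | h | h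
        · exact hxy2 h
        · exact he'.2.2.1 (h ▸ hx2)
        · exact he'.2.2.1 (h ▸ hy2)
      · intro h
        rcases hb.sys.two _ (hDE p hx1) _ (hDE p hy1) _ he'.1 hc1 h.symm with h | h | h
        · exact hxy1 h
        · exact he'.2.1 (h ▸ hx1)
        · exact he'.2.1 (h ▸ hy1)
      · intro h
        have := hb.single e he'.1 h
        exact he'.2.1 (this ▸ hp0)
    · rintro ⟨n1, n2, n3, e, he, rfl⟩
      have hee0 : e ≠ e0 := fun h => n3 (by rw [h])
      obtain ⟨e', he', hne', hce'⟩ := hb.partner e he hee0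
      have m1 : e ∉ D p := fun h => by
        rcases hcp e h with h | h
        · exact n3 h
        · exact n2 h
      have m2 : e ∉ D q := fun h => by
        rcases hcq e h with h | h
        · exact n3 h
        · exact n1 h
      have m1' : e' ∉ D p := fun h => by
        rcases hcp e' h with h | h
        · exact n3 (hce'.symm.trans h)
        · exact n2 (hce'.symm.trans h)
      have m2' : e' ∉ D q := fun h => by
        rcases hcq e' h with h | h
        · exact n3 (hce'.symm.trans h)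
        · exact n1 (hce'.symm.trans h)
      by_cases m3 : e ∈ D r
      · refine ⟨e', (hF e').2 ⟨he', m1', m2', ?_⟩, hce'⟩
        intro m4
        exact hne' (hr e' m4 e m3 hce')
      · exact ⟨e, (hF e).2 ⟨he, m1, m2, m3⟩, rfl⟩
  have hncF : nc c F + 3 = 2 * h := by
    have : nc c F = (F.image c).card := by
      unfold nc
      congr!
    rw [this, himg]
    exact hthree
  have hfin := sub_ineq hC hb hFE (by (clear * - e0 x1 x2 hKc hFrk hncF; omega)) (by omega)
  omega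

end RC.Base

end

section

/-!
Module RC-P4.  Graphic sets.

`nb0_graphic`: let `v, E` be a bad system dominated by `Y`.  Then `span (v '' E) ≤ span Y`
(`dom_span`), so `φ` is injective on it, and for `e ∈ E`, `v e ≠ 0`, `v e ∈ Y` or `- v e ∈ Y`, so
`φ (v e) = single a 1 - single b 1` for some `a b` (swap `a` and `b` for the negative).  Apply
`RC.Base.bad_not_graphic` with `hC` = `cls_dec`; to avoid importing `DecClass` the hypothesis
`hC : Cls DecC` is an argument.

`graph_claw`: `φ p = ε a - ε b`, `φ q = ε c - ε d`, `φ (p + q) = ε e - ε f` with `a ≠ b`,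
`c ≠ d`, `e ≠ f` (the three vectors are nonzero elements of `span Y`; `ε w = Pi.single w 1`).
The sum `ε a - ε b + ε c - ε d = ε e - ε f` shows `b = c` or `a = d` (otherwise, evaluating at `a`
and `c`: if `a = c` the value at `a` is `2`; if `a ≠ c` both have value `1`, but the right side
has only one positive value).
Let `j : (W → ℚ) →ₗ (Option W → ℚ)` be the extension by `0` at `none`.  Put
`φ' (y, t) = j (φ y) + t • (ε (some b) - ε none)` if `b = c`; then `φ' (0,1) = ε b - ε none`,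
`φ' (p,1) = ε a - ε none`, `φ' (-q,1) = ε d - ε none`.
`φ' (y, t) = j (φ y) + t • (ε none - ε (some a))` if `a = d`; then `φ' (0,1) = ε none - ε a`,
`φ' (p,1) = ε none - ε b`, `φ' (-q,1) = ε none - ε c`.
Injective on the span: `φ' (y, t) = 0` at `none` gives `t = 0`, then `φ y = 0`, and
`y ∈ span Y` by `fst_mem_span`.

`nb1_graphic`: `graph_claw` and `nb0_graphic`.
-/

namespace RC.Str

open Submodule Module

theorem nb0_graphic (hC : Cls DecC) {V : Type} [AddCommGroup V] [Module ℚ V] (Y : Set V)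
    (W : Type) [Fintype W] [DecidableEq W] (φ : V →ₗ[ℚ] (W → ℚ))
    (inj : ∀ y ∈ span ℚ Y, φ y = 0 → y = 0)
    (edge : ∀ x ∈ Y, ∃ a b : W, φ x = Pi.single a 1 - Pi.single b 1) : NB0 Y := by
  intro h ι κ v c E e0 hb hd
  refine RC.Base.bad_not_graphic hC hb W φ (fun y hy => inj y (dom_span hd hy)) ?_
  intro e he
  rcases hd (v e) ⟨e, he, rfl⟩ with h0 | h0 | h0
  · exact absurd h0 (hb.sys.ne e he)
  · exact edge _ h0
  · obtain ⟨a, b, hab⟩ := edge _ h0
    refine ⟨b, a, ?_⟩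
    rw [map_neg] at hab
    rw [← neg_neg (φ (v e)), hab, neg_sub]

theorem claw_ends {W : Type} [DecidableEq W] {a b c d e f : W} (hab : a ≠ b) (hcd : c ≠ d)
    (H : (Pi.single a 1 - Pi.single b 1 : W → ℚ) + (Pi.single c 1 - Pi.single d 1) =
      Pi.single e 1 - Pi.single f 1) : b = c ∨ a = d := by
  by_contra hno
  push Not at hno
  obtain ⟨hbc, had⟩ := hno
  have ha := congrFun H a
  have hc := congrFun H c
  simp only [Pi.add_apply, Pi.sub_apply, Pi.single_apply, if_true, if_neg hab, if_neg hcd,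
    if_neg had, if_neg hbc.symm] at ha hc
  have e1 : a = e := by
    by_contra h
    rw [if_neg h] at ha
    split_ifs at ha <;> (clear * - ha; linarith)
  have e2 : c = e := by
    by_contra h
    rw [if_neg h] at hc
    split_ifs at hc <;> (clear * - hc; linarith)
  have e3 : a = c := e1.trans e2.symm
  rw [if_pos e3, if_pos e1] at ha
  split_ifs at ha <;> (clear * - ha; linarith)

/-- Extension of a function by zero. -/
def ext0 (W : Type) : (W → ℚ) →ₗ[ℚ] (Option W → ℚ) where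
  toFun g := fun o => o.elim 0 g
  map_add' g h := by
    funext o
    cases o <;> simp
  map_smul' r g := by
    funext o
    cases o <;> simp

theorem ext0_none {W : Type} (g : W → ℚ) : ext0 W g none = 0 := rfl

theorem ext0_some {W : Type} (g : W → ℚ) (w : W) : ext0 W g (some w) = g w := rfl

theorem ext0_single {W : Type} [DecidableEq W] (w : W) :
    ext0 W (Pi.single w 1) = Pi.single (some w) 1 := by
  funext o
  cases o with
  | none => rw [ext0_none, Pi.single_apply, if_neg (by simp)]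
  | some x =>
    rw [ext0_some, Pi.single_apply, Pi.single_apply]
    simp

theorem graph_claw {V : Type} [AddCommGroup V] [Module ℚ V] (Y : Set V)
    (W : Type) [Fintype W] [DecidableEq W] (φ : V →ₗ[ℚ] (W → ℚ))
    (inj : ∀ y ∈ span ℚ Y, φ y = 0 → y = 0)
    (edge : ∀ x ∈ Y, ∃ a b : W, φ x = Pi.single a 1 - Pi.single b 1) {p q : V}
    (li : LinearIndependent ℚ ![p, q]) (hd : Dom {p, q, p + q} Y) :
    ∃ φ' : (V × ℚ) →ₗ[ℚ] (Option W → ℚ),
      (∀ y ∈ span ℚ ((fun x : V => (x, (0 : ℚ))) '' Y ∪ clawSet p q), φ' y = 0 → y = 0) ∧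
      ∀ x ∈ (fun x : V => (x, (0 : ℚ))) '' Y ∪ clawSet p q,
        ∃ a b : Option W, φ' x = Pi.single a 1 - Pi.single b 1 := by
  have hspan := dom_span hd
  have hpY : p ∈ span ℚ Y := hspan (subset_span (by simp))
  have hqY : q ∈ span ℚ Y := hspan (subset_span (by simp))
  have hpqY : p + q ∈ span ℚ Y := hspan (subset_span (by simp))
  rw [LinearIndependent.pair_iff] at li
  have hp0 : p ≠ 0 := by
    intro h
    have := li 1 0 (by rw [h]; simp)
    exact one_ne_zero this.1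
  have hq0 : q ≠ 0 := by
    intro h
    have := li 0 1 (by rw [h]; simp)
    exact one_ne_zero this.2
  have hpq0 : p + q ≠ 0 := by
    intro h
    have := li 1 1 (by rw [one_smul, one_smul]; exact h)
    exact one_ne_zero this.1
  have key : ∀ x : V, x ≠ 0 → x ∈ span ℚ Y → (x = 0 ∨ x ∈ Y ∨ -x ∈ Y) →
      ∃ a b : W, a ≠ b ∧ φ x = Pi.single a 1 - Pi.single b 1 := by
    intro x hx hxs hxY
    have h1 : ∃ a b : W, φ x = Pi.single a 1 - Pi.single b 1 := by
      rcases hxY with h0 | h0 | h0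
      · exact absurd h0 hx
      · exact edge _ h0
      · obtain ⟨a, b, hab⟩ := edge _ h0
        refine ⟨b, a, ?_⟩
        rw [map_neg] at hab
        rw [← neg_neg (φ x), hab, neg_sub]
    obtain ⟨a, b, hab⟩ := h1
    refine ⟨a, b, ?_, hab⟩
    rintro rfl
    exact hx (inj x hxs (by rw [hab, sub_self]))
  obtain ⟨a, b, hab, hφp⟩ := key p hp0 hpY (hd p (by simp))
  obtain ⟨c, d, hcd, hφq⟩ := key q hq0 hqY (hd q (by simp))
  obtain ⟨e, f, -, hφpq⟩ := key (p + q) hpq0 hpqY (hd (p + q) (by simp))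
  have H := hφpq
  rw [map_add, hφp, hφq] at H
  have main : ∀ u : Option W → ℚ, u none ≠ 0 →
      (∃ x y : Option W, u = Pi.single x 1 - Pi.single y 1) →
      (∃ x y : Option W, ext0 W (φ p) + u = Pi.single x 1 - Pi.single y 1) →
      (∃ x y : Option W, - ext0 W (φ q) + u = Pi.single x 1 - Pi.single y 1) →
      ∃ φ' : (V × ℚ) →ₗ[ℚ] (Option W → ℚ),
        (∀ y ∈ span ℚ ((fun x : V => (x, (0 : ℚ))) '' Y ∪ clawSet p q), φ' y = 0 → y = 0) ∧
        ∀ x ∈ (fun x : V => (x, (0 : ℚ))) '' Y ∪ clawSet p q,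
          ∃ a b : Option W, φ' x = Pi.single a 1 - Pi.single b 1 := by
    intro u hu h1 h2 h3
    have hval : ∀ z : V × ℚ, ((ext0 W) ∘ₗ φ ∘ₗ (LinearMap.fst ℚ V ℚ) +
        (LinearMap.snd ℚ V ℚ).smulRight u) z = ext0 W (φ z.1) + z.2 • u := by
      intro z
      simp
    refine ⟨(ext0 W) ∘ₗ φ ∘ₗ (LinearMap.fst ℚ V ℚ) + (LinearMap.snd ℚ V ℚ).smulRight u, ?_, ?_⟩
    · intro z hz h0
      rw [hval] at h0
      have hz1 := fst_mem_span hpY hqY hz
      have h4 := congrFun h0 none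
      rw [Pi.add_apply, ext0_none, Pi.smul_apply, smul_eq_mul, zero_add, Pi.zero_apply,
        mul_eq_zero] at h4
      have h5 : z.2 = 0 := h4.resolve_right hu
      rw [h5, zero_smul, add_zero] at h0
      have h6 : φ z.1 = 0 := by
        funext w
        have := congrFun h0 (some w)
        rwa [ext0_some] at this
      exact Prod.ext (inj _ hz1 h6) h5
    · rintro x (⟨x, hx, rfl⟩ | hx)
      · obtain ⟨a', b', hab'⟩ := edge x hx
        refine ⟨some a', some b', ?_⟩
        rw [hval]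
        simp only [zero_smul, add_zero]
        rw [hab', map_sub, ext0_single, ext0_single]
      · rcases hx with rfl | rfl | rfl
        · rw [hval]
          simpa using h1
        · rw [hval]
          simpa using h2
        · rw [hval]
          simpa using h3
  rcases claw_ends hab hcd H with rfl | rfl
  · refine main (Pi.single (some b) 1 - Pi.single none 1) ?_ ⟨_, _, rfl⟩
      ⟨some a, none, ?_⟩ ⟨some d, none, ?_⟩
    · simp
    · rw [hφp, map_sub, ext0_single, ext0_single]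
      abel
    · rw [hφq, map_sub, ext0_single, ext0_single]
      abel
  · refine main (Pi.single none 1 - Pi.single (some a) 1) ?_ ⟨_, _, rfl⟩
      ⟨none, some b, ?_⟩ ⟨none, some c, ?_⟩
    · simp
    · rw [hφp, map_sub, ext0_single, ext0_single]
      abel
    · rw [hφq, map_sub, ext0_single, ext0_single]
      abel

theorem nb1_graphic (hC : Cls DecC) {V : Type} [AddCommGroup V] [Module ℚ V] (Y : Set V)
    (W : Type) [Fintype W] [DecidableEq W] (φ : V →ₗ[ℚ] (W → ℚ))
    (inj : ∀ y ∈ span ℚ Y, φ y = 0 → y = 0)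
    (edge : ∀ x ∈ Y, ∃ a b : W, φ x = Pi.single a 1 - Pi.single b 1) : NB1 Y := by
  intro p q li hd
  obtain ⟨φ', inj', edge'⟩ := graph_claw Y W φ inj edge li hd
  exact nb0_graphic hC _ (Option W) φ' inj' edge'

end RC.Str

end

section

/-!
Module RC-P2.  The general form of the separation theorem, from `RC.sep1`, `RC.sep2`, `RC.sep3`
(`Pool/Agent/Helper73/RCS/Sep.lean`; add this import).

Let `L = span {p, q}`, `U = span (v '' A) ⊓ span (v '' B)`; `U ≤ L` by `hsp`.
* `U = ⊥`: `sep1`: `A` or `B` is empty.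
* `U = span {d}` with `d ∈ {p, q, p + q}`, `d ≠ 0`: `sep2` for `d` (the sets `v '' A ∪ {d}`,
  `v '' B ∪ {d}` are in `C` by `hC.mono`): `A` or `B` has at most one element.
* `U = L`, `p, q` independent: `sep3`.
One of these cases holds: if `q = 0`, `L = span {p}`.  If `p, q` are independent, by `uni_cut`
`span (v '' A) ⊓ L` and `span (v '' B) ⊓ L` are `⊥`, `span {d}` with `d ∈ {p, q, p + q}`, or `L`, and
`U` is the intersection of the two; two different lines `span {d}`, `span {d'}` meet in `⊥`.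
-/

namespace RC.Str

open Submodule Module

open Classical in
theorem sep_gen {C : ClsT} (hC : Cls C) {V : Type} [AddCommGroup V] [Module ℚ V] {h : ℕ}
    {ι κ : Type} {v : ι → V} {c : ι → κ} {E : Finset ι} {e0 : ι} (hb : Bad C h v c E e0)
    (A B : Finset ι) (hAB : A ∪ B = E) (hd : Disjoint A B) (p q : V)
    (hpq : LinearIndependent ℚ ![p, q] ∨ q = 0)
    (hsp : span ℚ (v '' (A : Set ι) ∪ {p, q}) ⊓ span ℚ (v '' (B : Set ι) ∪ {p, q}) =
      span ℚ {p, q})
    (hA : C V (v '' (A : Set ι) ∪ {p, q, p + q})) (hB : C V (v '' (B : Set ι) ∪ {p, q, p + q})) :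
    (A.filter (fun e => v e ∉ span ℚ {p, q})).card ≤ 3 ∨
      (B.filter (fun e => v e ∉ span ℚ {p, q})).card ≤ 3 := by
  rcases hpq with li | hq
  · exact sep3 hC hb hAB hd li hsp.le hA hB
  · subst hq
    have hmono : ∀ X : Finset ι, span ℚ (v '' (X : Set ι)) ≤
        span ℚ (v '' (X : Set ι) ∪ {p, 0}) := fun X => span_mono Set.subset_union_left
    have hline : span ℚ ({p, 0} : Set V) = span ℚ {p} := by
      rw [Set.pair_comm, span_insert_zero]
    by_cases hp : p = 0
    · subst hp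
      have h0 : span ℚ (v '' (A : Set ι)) ⊓ span ℚ (v '' (B : Set ι)) = ⊥ := by
        rw [eq_bot_iff]
        refine le_trans (inf_le_inf (hmono A) (hmono B)) ?_
        rw [hsp, hline, span_zero_singleton]
      rcases sep1 hC hb hAB hd h0 with h | h
      · left; rw [h]; simp
      · right; rw [h]; simp
    · have h1 : span ℚ (v '' (A : Set ι)) ⊓ span ℚ (v '' (B : Set ι)) ≤ span ℚ {p} := by
        refine le_trans (inf_le_inf (hmono A) (hmono B)) ?_
        rw [hsp, hline]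
      have hsub : ({p} : Set V) ⊆ {p, 0, p + 0} := by simp
      have m : ∀ X : Finset ι, C V (v '' (X : Set ι) ∪ {p, 0, p + 0}) →
          C V (v '' (X : Set ι) ∪ {p}) := fun X hX =>
        hC.mono hX (fun u hu => Or.inr (Or.inl (Set.union_subset_union_right _ hsub hu)))
      rcases sep2 hC hb hAB hd hp h1 (m A hA) (m B hB) with h | h
      · left
        exact le_trans (Finset.card_le_card (Finset.filter_subset _ _)) (by omega)
      · right
        exact le_trans (Finset.card_le_card (Finset.filter_subset _ _)) (by omega)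

end RC.Str

end

section

/-!
Module RC-P3.  Small sides of separations of a bad system.

Notation: `L = span {p, q}`, `B' = B.filter (v e ∉ L)`, `F = E \ B'`.
`span (v '' F) ≤ span (v '' A ∪ {p, q})` (elements of `B \ B'` are in `L`).

`small_card`: assume `B'` nonempty.
(a) `rk v F + 2 ≤ 2 h`: otherwise `rk v F = rk v E`, `span (v '' F) = span (v '' E)`, so
    `v b ∈ span (v '' A ∪ {p,q}) ⊓ span (v '' B ∪ {p,q}) = L` for `b ∈ B'`, contradiction.
(b) `RC.coc_notin`, `RC.coc_in` for `D = B'` (at most 3 elements): `B' = {e0, x, y}`, `c x = c y`.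
(c) For `b ∈ B'` and `D = B'.erase b` (two elements) `RC.coc_notin`, `RC.coc_in` show that
    `rk v (E \ D) + 2 ≤ 2 h` is false, so `v b ∉ span (v '' F)` and
    `span (v '' E) = span (v '' F) ⊔ span {v b}`, `rk v F + 1 = rk v E`.
(d) There is a linear `ψ : V → ℚ` that vanishes on `span (v '' F)` with `ψ (v e0) = 1`; then
    `ψ (v b) ≠ 0` for all `b ∈ B'`, and every `w ∈ span (v '' B')` with `ψ w = 0` is in
    `span (v '' F) ⊓ span (v '' B) ≤ L`.  (`w ∈ span (v '' E)`, `ψ w = 0` implies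
    `w ∈ span (v '' F)` by (c).)

`small_claw`: by `Bad.tri` `v e0, v x, v y` are independent.  `w1 = ψ (v x) • v e0 - v x`,
`w2 = ψ (v y) • v e0 - v y` are independent elements of `L`; so `L` is a plane (`p, q`
independent, because `q = 0` gives dimension at most 1), `L = span {w1, w2}`, `ψ` vanishes on `L`
and `L ≤ span (v '' B')`.
The coordinates of `p`, `q`, `p + q` in the basis `v e0, v x, v y` are `0, 1, -1` (`uni_coord`
for `v '' B ∪ {p, q, p + q}`, `Uni` from `hC.uni hB`); since `ψ p = 0` and all `ψ (v b) ≠ 0` each of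
`p`, `q`, `p + q` has at least two nonzero coordinates.  Combinatorics: none of the three has three
nonzero coordinates (if `p` has, then `q i ∈ {0, - p i}` for all `i` because
`p i + q i ∈ {0,1,-1}`, and `q`, `p + q` have complementary supports, one has at most one element;
the same for `q`, and for `p + q` with `- q`); `p` and `q` do not have the same support (then
`p + q` or `p - q`... : `q i ∈ {0, -p i}` or `q i = p i` gives `2 p i`; so `q = -p` on the
support, dependent).  So the supports of `p, q` are `{k, 1}`, `{k, 2}` with `{k, 1, 2}` = the three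
elements, and `p k = - q k`.  Let `b_k, b_1, b_2` be the elements and put
`β = q k • v b_k`; then `p = p 1 • v b_1 - β`, `q = β + q 2 • v b_2`; that is
`p 1 • v b_1 = β + p`, `- (q 2 • v b_2) = β - q`.
`ψ β ≠ 0` and `ψ (β + p) = ψ β = ψ (β - q)`.  Let `ψ' = (ψ β)⁻¹ • ψ` and
`Φ w = (w - ψ' w • β, ψ' w)`.  `Φ` is injective, `Φ (v e) = (v e, 0)` for `e ∈ F`,
`Φ β = (0, 1)`, `Φ (β + p) = (p, 1)`, `Φ (β - q) = (-q, 1)`.
-/

namespace RC.Str

open Submodule Module

private theorem span_eq_of_rk {V ι : Type} [AddCommGroup V] [Module ℚ V] {v : ι → V}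
    {S T : Finset ι} (hST : S ⊆ T) (h : rk v T ≤ rk v S) :
    span ℚ (v '' (S : Set ι)) = span ℚ (v '' (T : Set ι)) := by
  have : FiniteDimensional ℚ (span ℚ (v '' (T : Set ι))) :=
    FiniteDimensional.span_of_finite ℚ ((Finset.finite_toSet T).image v)
  exact Submodule.eq_of_le_of_finrank_le
    (span_mono (Set.image_mono (Finset.coe_subset.2 hST))) h

open Classical in
theorem small_card {C : ClsT} (hC : Cls C) {V : Type} [AddCommGroup V] [Module ℚ V] {h : ℕ}
    {ι κ : Type} {v : ι → V} {c : ι → κ} {E : Finset ι} {e0 : ι} (hb : Bad C h v c E e0)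
    (A B : Finset ι) (hAB : A ∪ B = E) (hd : Disjoint A B) (p q : V)
    (hsp : span ℚ (v '' (A : Set ι) ∪ {p, q}) ⊓ span ℚ (v '' (B : Set ι) ∪ {p, q}) =
      span ℚ {p, q})
    (h3 : (B.filter (fun e => v e ∉ span ℚ {p, q})).card ≤ 3)
    (hne : (B.filter (fun e => v e ∉ span ℚ {p, q})).Nonempty) :
    ∃ x y : ι, x ≠ y ∧ x ≠ e0 ∧ y ≠ e0 ∧ c x = c y ∧
      B.filter (fun e => v e ∉ span ℚ {p, q}) = {e0, x, y} ∧
      ∃ ψ : V →ₗ[ℚ] ℚ, (∀ e ∈ E, e ≠ e0 → e ≠ x → e ≠ y → ψ (v e) = 0) ∧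
        ψ (v e0) = 1 ∧ ψ (v x) ≠ 0 ∧ ψ (v y) ≠ 0 ∧
        ∀ w ∈ span ℚ {v e0, v x, v y}, ψ w = 0 → w ∈ span ℚ {p, q} := by
  set L : Submodule ℚ V := span ℚ {p, q} with hL
  set B' : Finset ι := B.filter (fun e => v e ∉ L) with hB'
  have hBE : B ⊆ E := by rw [← hAB]; exact Finset.subset_union_right
  have hB'B : B' ⊆ B := Finset.filter_subset _ _
  have hB'E : B' ⊆ E := hB'B.trans hBE
  have memB' : ∀ e, e ∈ B' ↔ e ∈ B ∧ v e ∉ L := fun e => by rw [hB', Finset.mem_filter]
  -- the span of the complement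
  have hFA : span ℚ (v '' ((E \ B' : Finset ι) : Set ι)) ≤
      span ℚ (v '' (A : Set ι) ∪ {p, q}) := by
    rw [span_le]
    rintro _ ⟨e, he, rfl⟩
    rw [Finset.mem_coe, Finset.mem_sdiff] at he
    obtain ⟨heE, heB⟩ := he
    rw [← hAB, Finset.mem_union] at heE
    rcases heE with h1 | h1
    · exact subset_span (Or.inl ⟨e, Finset.mem_coe.2 h1, rfl⟩)
    · have h2 : v e ∈ L := by
        by_contra h3
        exact heB ((memB' e).2 ⟨h1, h3⟩)
      exact span_mono Set.subset_union_right h2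
  have hvB : ∀ e ∈ B, v e ∈ span ℚ (v '' (B : Set ι) ∪ {p, q}) := fun e he =>
    subset_span (Or.inl ⟨e, Finset.mem_coe.2 he, rfl⟩)
  -- (a)
  have hEr := hb.rank
  have ha : rk v (E \ B') + 2 ≤ 2 * h := by
    by_contra hcon
    have h1 : rk v E ≤ rk v (E \ B') := by omega
    have h2 := span_eq_of_rk (Finset.sdiff_subset : E \ B' ⊆ E) h1
    obtain ⟨b, hbB⟩ := hne
    obtain ⟨hb1, hb2⟩ := (memB' b).1 hbB
    apply hb2
    rw [← hsp]
    refine ⟨hFA ?_, hvB b hb1⟩
    rw [h2]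
    exact subset_span ⟨b, Finset.mem_coe.2 (hBE hb1), rfl⟩
  -- (b)
  have he0 : e0 ∈ B' := by
    by_contra hcon
    have := coc_notin hC hb hB'E hcon ha
    omega
  obtain ⟨hc3, hc4⟩ := coc_in hC hb hB'E he0 ha
  obtain ⟨x, hx, y, hy, hxy, hx0, hy0, hcxy, hall⟩ := hc4 (le_antisymm h3 hc3)
  have hcard : B'.card = 3 := le_antisymm h3 hc3
  -- (c)
  have hcc : ∀ b ∈ B', span ℚ (v '' (E : Set ι)) =
      span ℚ (v '' ((E \ B' : Finset ι) : Set ι)) ⊔ span ℚ {v b} := by
    intro b hbB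
    have hD : B'.erase b ⊆ E := (Finset.erase_subset _ _).trans hB'E
    have hDc : (B'.erase b).card = 2 := by rw [Finset.card_erase_of_mem hbB, hcard]
    have h1 : ¬ rk v (E \ B'.erase b) + 2 ≤ 2 * h := by
      intro h2
      by_cases h3 : e0 ∈ B'.erase b
      · have := (coc_in hC hb hD h3 h2).1
        omega
      · have := coc_notin hC hb hD h3 h2
        omega
    have h1' : rk v E ≤ rk v (E \ B'.erase b) := by omega
    have h2 := span_eq_of_rk (Finset.sdiff_subset : E \ B'.erase b ⊆ E) h1'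
    rw [← h2, ← span_union]
    congr 1
    ext w
    constructor
    · rintro ⟨e, he, rfl⟩
      rw [Finset.mem_coe, Finset.mem_sdiff] at he
      by_cases heb : e = b
      · right; rw [heb]; rfl
      · left
        refine ⟨e, ?_, rfl⟩
        rw [Finset.mem_coe, Finset.mem_sdiff]
        exact ⟨he.1, fun h4 => he.2 (Finset.mem_erase.2 ⟨heb, h4⟩)⟩
    · rintro (⟨e, he, rfl⟩ | h4)
      · refine ⟨e, ?_, rfl⟩
        rw [Finset.mem_coe, Finset.mem_sdiff] at he ⊢
        exact ⟨he.1, fun h4 => he.2 (Finset.mem_of_mem_erase h4)⟩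
      · rw [Set.mem_singleton_iff] at h4
        rw [h4]
        refine ⟨b, ?_, rfl⟩
        rw [Finset.mem_coe, Finset.mem_sdiff]
        exact ⟨hB'E hbB, Finset.notMem_erase _ _⟩
  have hmemE : ∀ e ∈ E, v e ∈ span ℚ (v '' (E : Set ι)) := fun e he =>
    subset_span ⟨e, Finset.mem_coe.2 he, rfl⟩
  have he0F : v e0 ∉ span ℚ (v '' ((E \ B' : Finset ι) : Set ι)) := by
    intro h1
    have h2 := hcc e0 he0
    rw [sup_eq_left.2 ((span_singleton_le_iff_mem _ _).2 h1)] at h2
    have h4 : rk v E = rk v (E \ B') := by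
      unfold rk
      rw [h2]
    omega
  -- (d)
  obtain ⟨ψ0, hψ0, hker⟩ := Submodule.exists_le_ker_of_notMem he0F
  set ψ : V →ₗ[ℚ] ℚ := (ψ0 (v e0))⁻¹ • ψ0 with hψ
  have hψF : ∀ w ∈ span ℚ (v '' ((E \ B' : Finset ι) : Set ι)), ψ w = 0 := by
    intro w hw
    have h1 : ψ0 w = 0 := hker hw
    rw [hψ, LinearMap.smul_apply, h1, smul_zero]
  have hψe : ψ (v e0) = 1 := by
    rw [hψ, LinearMap.smul_apply, smul_eq_mul, inv_mul_cancel₀ hψ0]
  have hψb : ∀ b ∈ B', ψ (v b) ≠ 0 := by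
    intro b hbB h1
    have h2 := hmemE e0 (hB'E he0)
    rw [hcc b hbB] at h2
    obtain ⟨f, hf, g, hg, hfg⟩ := Submodule.mem_sup.1 h2
    obtain ⟨t, rfl⟩ := mem_span_singleton.1 hg
    have h4 : ψ (v e0) = 0 := by
      rw [← hfg, map_add, map_smul, hψF f hf, h1, smul_zero, add_zero]
    rw [h4] at hψe
    exact zero_ne_one hψe
  have hB'eq : B' = {e0, x, y} := by
    ext e
    simp only [Finset.mem_insert, Finset.mem_singleton]
    constructor
    · exact hall e
    · rintro (rfl | rfl | rfl) <;> assumption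
  refine ⟨x, y, hxy, hx0, hy0, hcxy, hB'eq, ψ, ?_, hψe, hψb x hx, hψb y hy, ?_⟩
  · intro e he h0 h1 h2
    apply hψF
    apply subset_span
    refine ⟨e, ?_, rfl⟩
    rw [Finset.mem_coe, Finset.mem_sdiff]
    refine ⟨he, fun h4 => ?_⟩
    rcases hall e h4 with h5 | h5 | h5
    · exact h0 h5
    · exact h1 h5
    · exact h2 h5
  · intro w hw hw0
    have hwE : w ∈ span ℚ (v '' (E : Set ι)) := by
      refine span_mono ?_ hw
      intro z hz
      simp only [Set.mem_insert_iff, Set.mem_singleton_iff] at hz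
      rcases hz with rfl | rfl | rfl
      · exact ⟨e0, Finset.mem_coe.2 (hB'E he0), rfl⟩
      · exact ⟨x, Finset.mem_coe.2 (hB'E hx), rfl⟩
      · exact ⟨y, Finset.mem_coe.2 (hB'E hy), rfl⟩
    have hwF : w ∈ span ℚ (v '' ((E \ B' : Finset ι) : Set ι)) := by
      rw [hcc e0 he0] at hwE
      obtain ⟨f, hf, g, hg, hfg⟩ := Submodule.mem_sup.1 hwE
      obtain ⟨t, rfl⟩ := mem_span_singleton.1 hg
      have h4 : t = 0 := by
        rw [← hfg, map_add, map_smul, hψF f hf, hψe, zero_add, smul_eq_mul, mul_one] at hw0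
        exact hw0
      rw [h4, zero_smul, add_zero] at hfg
      rw [← hfg]
      exact hf
    have hwB : w ∈ span ℚ (v '' (B : Set ι) ∪ {p, q}) := by
      refine span_mono ?_ hw
      intro z hz
      simp only [Set.mem_insert_iff, Set.mem_singleton_iff] at hz
      left
      rcases hz with rfl | rfl | rfl
      · exact ⟨e0, Finset.mem_coe.2 (hB'B he0), rfl⟩
      · exact ⟨x, Finset.mem_coe.2 (hB'B hx), rfl⟩
      · exact ⟨y, Finset.mem_coe.2 (hB'B hy), rfl⟩
    rw [← hsp]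
    exact ⟨hFA hwF, hwB⟩

private theorem claw_sign {V : Type} [AddCommGroup V] [Module ℚ V] {p q u : V} {s : ℚ}
    (hs : s = 1 ∨ s = -1) (Φ : V →ₗ[ℚ] V × ℚ) {z : V × ℚ} (hz : z ∈ clawSet p q)
    (h : Φ (s • u) = z ∨ Φ (-(s • u)) = z) : Φ u ∈ clawSet p q ∨ -Φ u ∈ clawSet p q := by
  rcases hs with rfl | rfl <;> rcases h with h | h
  · left; rw [one_smul] at h; rw [h]; exact hz
  · right; rw [one_smul, map_neg] at h; rw [h]; exact hz
  · right; rw [neg_one_smul, map_neg] at h; rw [h]; exact hz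
  · left; rw [neg_one_smul, neg_neg] at h; rw [h]; exact hz

private theorem small_mk {V : Type} [AddCommGroup V] [Module ℚ V] {ι : Type} {v : ι → V}
    {E B' : Finset ι} {p q : V} (bk b1 b2 : ι) {sk s1 s2 : ℚ} (hk : sk = 1 ∨ sk = -1)
    (h1 : s1 = 1 ∨ s1 = -1) (h2 : s2 = 1 ∨ s2 = -1)
    (hp : p = s1 • v b1 - sk • v bk) (hq : q = sk • v bk + s2 • v b2)
    (hB : ∀ e ∈ B', e = bk ∨ e = b1 ∨ e = b2) (ψ : V →ₗ[ℚ] ℚ)
    (h0 : ∀ e ∈ E, e ∉ B' → ψ (v e) = 0) (hψ : ψ (v bk) ≠ 0) (hψp : ψ p = 0) (hψq : ψ q = 0) :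
    ∃ Φ : V →ₗ[ℚ] V × ℚ, (∀ w, Φ w = 0 → w = 0) ∧
      (∀ e ∈ E, e ∉ B' → Φ (v e) = (v e, 0)) ∧
      ∀ e ∈ B', Φ (v e) ∈ clawSet p q ∨ -Φ (v e) ∈ clawSet p q := by
  obtain ⟨β, hβ⟩ : ∃ β : V, β = sk • v bk := ⟨_, rfl⟩
  have hsk : sk ≠ 0 := by rcases hk with rfl | rfl <;> norm_num
  have hβ0 : ψ β ≠ 0 := by
    rw [hβ, map_smul, smul_eq_mul]
    exact mul_ne_zero hsk hψ
  obtain ⟨ψ', hψ'⟩ : ∃ ψ' : V →ₗ[ℚ] ℚ, ψ' = (ψ β)⁻¹ • ψ := ⟨_, rfl⟩
  have e1 : ψ' β = 1 := by rw [hψ', LinearMap.smul_apply, smul_eq_mul, inv_mul_cancel₀ hβ0]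
  have e2 : ∀ w, ψ w = 0 → ψ' w = 0 := fun w hw => by
    rw [hψ', LinearMap.smul_apply, hw, smul_zero]
  obtain ⟨Φ, hΦ⟩ : ∃ Φ : V →ₗ[ℚ] V × ℚ, ∀ w, Φ w = (w - ψ' w • β, ψ' w) :=
    ⟨(LinearMap.id - ψ'.smulRight β).prod ψ', fun w => rfl⟩
  refine ⟨Φ, ?_, ?_, ?_⟩
  · intro w hw
    rw [hΦ] at hw
    have h3 : ψ' w = 0 := congrArg Prod.snd hw
    have h4 : w - ψ' w • β = 0 := congrArg Prod.fst hw
    rwa [h3, zero_smul, sub_zero] at h4
  · intro e he heB
    rw [hΦ, e2 _ (h0 e he heB), zero_smul, sub_zero]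
  · intro e he
    have m1 : ((0 : V), (1 : ℚ)) ∈ clawSet p q := Or.inl rfl
    have m2 : (p, (1 : ℚ)) ∈ clawSet p q := Or.inr (Or.inl rfl)
    have m3 : (-q, (1 : ℚ)) ∈ clawSet p q := Or.inr (Or.inr rfl)
    rcases hB e he with h5 | h5 | h5
    · refine claw_sign hk Φ m1 (Or.inl ?_)
      rw [h5, ← hβ, hΦ, e1, one_smul, sub_self]
    · refine claw_sign h1 Φ m2 (Or.inl ?_)
      have h6 : s1 • v e = p + β := by rw [hp, hβ, h5]; abel
      rw [h6, hΦ, map_add, e2 p hψp, e1, zero_add, one_smul, add_sub_cancel_right]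
    · refine claw_sign h2 Φ m3 (Or.inr ?_)
      have h6 : -(s2 • v e) = β - q := by rw [hq, hβ, h5]; abel
      rw [h6, hΦ, map_sub, e2 q hψq, e1, sub_zero, one_smul]
      congr 1
      abel

private theorem coord_type {P Q : ℚ} (hP : P = 0 ∨ P = 1 ∨ P = -1) (hQ : Q = 0 ∨ Q = 1 ∨ Q = -1)
    (hR : P + Q = 0 ∨ P + Q = 1 ∨ P + Q = -1) :
    (P = 0 ∧ Q = 0 ∧ P + Q = 0) ∨ ((P = 1 ∨ P = -1) ∧ Q = 0) ∨ (P = 0 ∧ (Q = 1 ∨ Q = -1)) ∨
      ((Q = 1 ∨ Q = -1) ∧ P = -Q ∧ P + Q = 0) := by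
  rcases hP with rfl | rfl | rfl <;> rcases hQ with rfl | rfl | rfl
  · left; norm_num
  · right; right; left; norm_num
  · right; right; left; norm_num
  · right; left; norm_num
  · exfalso; norm_num at hR
  · right; right; right; norm_num
  · right; left; norm_num
  · right; right; right; norm_num
  · exfalso; norm_num at hR

/-- the distribution of the types -/
private def Good3 (Pk Qk P1 Q1 P2 Q2 : ℚ) : Prop :=
  ((Qk = 1 ∨ Qk = -1) ∧ Pk = -Qk) ∧ ((P1 = 1 ∨ P1 = -1) ∧ Q1 = 0) ∧ (P2 = 0 ∧ (Q2 = 1 ∨ Q2 = -1))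

private theorem comb3 {P0 P1 P2 Q0 Q1 Q2 : ℚ}
    (t0 : (P0 = 0 ∧ Q0 = 0 ∧ P0 + Q0 = 0) ∨ ((P0 = 1 ∨ P0 = -1) ∧ Q0 = 0) ∨
      (P0 = 0 ∧ (Q0 = 1 ∨ Q0 = -1)) ∨ ((Q0 = 1 ∨ Q0 = -1) ∧ P0 = -Q0 ∧ P0 + Q0 = 0))
    (t1 : (P1 = 0 ∧ Q1 = 0 ∧ P1 + Q1 = 0) ∨ ((P1 = 1 ∨ P1 = -1) ∧ Q1 = 0) ∨
      (P1 = 0 ∧ (Q1 = 1 ∨ Q1 = -1)) ∨ ((Q1 = 1 ∨ Q1 = -1) ∧ P1 = -Q1 ∧ P1 + Q1 = 0))
    (t2 : (P2 = 0 ∧ Q2 = 0 ∧ P2 + Q2 = 0) ∨ ((P2 = 1 ∨ P2 = -1) ∧ Q2 = 0) ∨
      (P2 = 0 ∧ (Q2 = 1 ∨ Q2 = -1)) ∨ ((Q2 = 1 ∨ Q2 = -1) ∧ P2 = -Q2 ∧ P2 + Q2 = 0))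
    (p01 : ¬ (P0 = 0 ∧ P1 = 0)) (p02 : ¬ (P0 = 0 ∧ P2 = 0)) (p12 : ¬ (P1 = 0 ∧ P2 = 0))
    (q01 : ¬ (Q0 = 0 ∧ Q1 = 0)) (q02 : ¬ (Q0 = 0 ∧ Q2 = 0)) (q12 : ¬ (Q1 = 0 ∧ Q2 = 0))
    (r01 : ¬ (P0 + Q0 = 0 ∧ P1 + Q1 = 0)) (r02 : ¬ (P0 + Q0 = 0 ∧ P2 + Q2 = 0))
    (r12 : ¬ (P1 + Q1 = 0 ∧ P2 + Q2 = 0)) :
    Good3 P0 Q0 P1 Q1 P2 Q2 ∨ Good3 P0 Q0 P2 Q2 P1 Q1 ∨ Good3 P1 Q1 P0 Q0 P2 Q2 ∨
      Good3 P1 Q1 P2 Q2 P0 Q0 ∨ Good3 P2 Q2 P0 Q0 P1 Q1 ∨ Good3 P2 Q2 P1 Q1 P0 Q0 := by
  rcases t0 with ⟨a1, a2, a3⟩ | ⟨a1, a2⟩ | ⟨a1, a2⟩ | ⟨a1, a2, a3⟩ <;>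
    rcases t1 with ⟨b1, b2, b3⟩ | ⟨b1, b2⟩ | ⟨b1, b2⟩ | ⟨b1, b2, b3⟩ <;>
    rcases t2 with ⟨c1, c2, c3⟩ | ⟨c1, c2⟩ | ⟨c1, c2⟩ | ⟨c1, c2, c3⟩ <;>
    first
      | exact (p01 ⟨a1, b1⟩).elim
      | exact (p02 ⟨a1, c1⟩).elim
      | exact (p12 ⟨b1, c1⟩).elim
      | exact (q01 ⟨a2, b2⟩).elim
      | exact (q02 ⟨a2, c2⟩).elim
      | exact (q12 ⟨b2, c2⟩).elim
      | exact (r01 ⟨a3, b3⟩).elim
      | exact (r02 ⟨a3, c3⟩).elim
      | exact (r12 ⟨b3, c3⟩).elim
      | exact Or.inl ⟨⟨a1, a2⟩, ⟨b1, b2⟩, ⟨c1, c2⟩⟩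
      | exact Or.inr (Or.inl ⟨⟨a1, a2⟩, ⟨c1, c2⟩, ⟨b1, b2⟩⟩)
      | exact Or.inr (Or.inr (Or.inl ⟨⟨b1, b2⟩, ⟨a1, a2⟩, ⟨c1, c2⟩⟩))
      | exact Or.inr (Or.inr (Or.inr (Or.inl ⟨⟨b1, b2⟩, ⟨c1, c2⟩, ⟨a1, a2⟩⟩)))
      | exact Or.inr (Or.inr (Or.inr (Or.inr (Or.inl ⟨⟨c1, c2⟩, ⟨a1, a2⟩, ⟨b1, b2⟩⟩))))
      | exact Or.inr (Or.inr (Or.inr (Or.inr (Or.inr ⟨⟨c1, c2⟩, ⟨b1, b2⟩, ⟨a1, a2⟩⟩))))

private theorem no_two {a1 a2 P0 P1 P2 : ℚ} (h1 : a1 ≠ 0) (h2 : a2 ≠ 0)
    (h : P0 + P1 * a1 + P2 * a2 = 0) (hne : ¬ (P0 = 0 ∧ P1 = 0 ∧ P2 = 0)) :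
    ¬ (P0 = 0 ∧ P1 = 0) ∧ ¬ (P0 = 0 ∧ P2 = 0) ∧ ¬ (P1 = 0 ∧ P2 = 0) := by
  refine ⟨?_, ?_, ?_⟩
  · rintro ⟨rfl, rfl⟩
    have : P2 * a2 = 0 := by (clear * - h; linarith)
    exact hne ⟨rfl, rfl, (mul_eq_zero.1 this).resolve_right h2⟩
  · rintro ⟨rfl, rfl⟩
    have : P1 * a1 = 0 := by (clear * - h; linarith)
    exact hne ⟨rfl, (mul_eq_zero.1 this).resolve_right h1, rfl⟩
  · rintro ⟨rfl, rfl⟩
    exact hne ⟨by (clear * - h; linarith), rfl, rfl⟩

open Classical in
theorem small_claw {C : ClsT} (hC : Cls C) {V : Type} [AddCommGroup V] [Module ℚ V] {h : ℕ}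
    {ι κ : Type} {v : ι → V} {c : ι → κ} {E : Finset ι} {e0 : ι} (hb : Bad C h v c E e0)
    (A B : Finset ι) (hAB : A ∪ B = E) (hd : Disjoint A B) (p q : V)
    (hpq : LinearIndependent ℚ ![p, q] ∨ q = 0)
    (hsp : span ℚ (v '' (A : Set ι) ∪ {p, q}) ⊓ span ℚ (v '' (B : Set ι) ∪ {p, q}) =
      span ℚ {p, q})
    (hB : C V (v '' (B : Set ι) ∪ {p, q, p + q}))
    (h3 : (B.filter (fun e => v e ∉ span ℚ {p, q})).card ≤ 3) :
    B.filter (fun e => v e ∉ span ℚ {p, q}) = ∅ ∨
      (LinearIndependent ℚ ![p, q] ∧ e0 ∈ B ∧ v e0 ∉ span ℚ {p, q} ∧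
        (B.filter (fun e => v e ∉ span ℚ {p, q})).card = 3 ∧
        ∃ Φ : V →ₗ[ℚ] V × ℚ, (∀ w, Φ w = 0 → w = 0) ∧
          (∀ e ∈ E, e ∉ B.filter (fun e => v e ∉ span ℚ {p, q}) → Φ (v e) = (v e, 0)) ∧
          ∀ e ∈ B.filter (fun e => v e ∉ span ℚ {p, q}),
            Φ (v e) ∈ clawSet p q ∨ -Φ (v e) ∈ clawSet p q) := by
  by_cases hne : (B.filter (fun e => v e ∉ span ℚ {p, q})).Nonempty
  swap
  · left; exact Finset.not_nonempty_iff_eq_empty.1 hne
  right
  obtain ⟨x, y, hxy, hx0, hy0, hcxy, hBeq, ψ, hψF, hψ0, hψx, hψy, hψL⟩ :=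
    small_card hC hb A B hAB hd p q hsp h3 hne
  have hBE : B ⊆ E := by rw [← hAB]; exact Finset.subset_union_right
  have hmem : ∀ e, e ∈ B.filter (fun e => v e ∉ span ℚ {p, q}) ↔ e = e0 ∨ e = x ∨ e = y := by
    intro e
    rw [hBeq, Finset.mem_insert, Finset.mem_insert, Finset.mem_singleton]
  have h0B := (Finset.mem_filter.1 ((hmem e0).2 (Or.inl rfl)))
  have hxB := (Finset.mem_filter.1 ((hmem x).2 (Or.inr (Or.inl rfl))))
  have hyB := (Finset.mem_filter.1 ((hmem y).2 (Or.inr (Or.inr rfl))))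
  have hli := hb.tri x (hBE hxB.1) y (hBE hyB.1) hcxy hxy
  have key : ∀ c0 c1 c2 : ℚ, c0 • v e0 + c1 • v x + c2 • v y = 0 → c0 = 0 ∧ c1 = 0 ∧ c2 = 0 := by
    intro c0 c1 c2 h1
    have h2 := Fintype.linearIndependent_iff.1 hli ![c0, c1, c2]
      (by simpa [Fin.sum_univ_three] using h1)
    exact ⟨h2 0, h2 1, h2 2⟩
  have hs0 : v e0 ∈ span ℚ {v e0, v x, v y} := subset_span (by simp)
  have hs1 : v x ∈ span ℚ {v e0, v x, v y} := subset_span (by simp)
  have hs2 : v y ∈ span ℚ {v e0, v x, v y} := subset_span (by simp)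
  have hw1 : ψ (v x) • v e0 - v x ∈ span ℚ {p, q} := by
    apply hψL
    · exact Submodule.sub_mem _ (Submodule.smul_mem _ _ hs0) hs1
    · rw [map_sub, map_smul, hψ0, smul_eq_mul, mul_one, sub_self]
  have hw2 : ψ (v y) • v e0 - v y ∈ span ℚ {p, q} := by
    apply hψL
    · exact Submodule.sub_mem _ (Submodule.smul_mem _ _ hs0) hs2
    · rw [map_sub, map_smul, hψ0, smul_eq_mul, mul_one, sub_self]
  obtain ⟨α1, β1, e1⟩ := mem_span_pair.1 hw1
  obtain ⟨α2, β2, e2⟩ := mem_span_pair.1 hw2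
  -- `p`, `q` are independent
  have lipq : LinearIndependent ℚ ![p, q] := by
    rcases hpq with h1 | h1
    · exact h1
    · exfalso
      rw [h1, smul_zero, add_zero] at e1 e2
      have h2 := key (α2 * ψ (v x) - α1 * ψ (v y)) (-α2) α1 (by
        have h4 : α2 • (α1 • p) - α1 • (α2 • p) = 0 := by module
        rw [e1, e2] at h4
        rw [← h4]
        module)
      have h5 := key (ψ (v x)) (-1) 0 (by
        rw [h2.2.2, zero_smul] at e1
        rw [e1]
        module)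
      exact absurd h5.2.1 (by norm_num)
  -- the determinant
  have hdet : α1 * β2 - α2 * β1 ≠ 0 := by
    intro h1
    have h2 := key (β2 * ψ (v x) - β1 * ψ (v y)) (-β2) β1 (by
      have h4 : β2 • (α1 • p + β1 • q) - β1 • (α2 • p + β2 • q) = (α1 * β2 - α2 * β1) • p := by
        module
      rw [e1, e2, h1, zero_smul] at h4
      rw [← h4]
      module)
    have h3 := key (α2 * ψ (v x) - α1 * ψ (v y)) (-α2) α1 (by
      have h4 : α2 • (α1 • p + β1 • q) - α1 • (α2 • p + β2 • q) = -((α1 * β2 - α2 * β1) • q) := by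
        module
      rw [e1, e2, h1, zero_smul, neg_zero] at h4
      rw [← h4]
      module)
    have h5 := key (ψ (v x)) (-1) 0 (by
      rw [h3.2.2, h2.2.2, zero_smul, zero_smul, add_zero] at e1
      rw [e1]
      module)
    exact absurd h5.2.1 (by norm_num)
  set d := α1 * β2 - α2 * β1 with hddef
  obtain ⟨P0, P1, P2, hp, hPψ⟩ : ∃ P0 P1 P2 : ℚ, p = P0 • v e0 + P1 • v x + P2 • v y ∧
      P0 + P1 * ψ (v x) + P2 * ψ (v y) = 0 := by
    refine ⟨d⁻¹ * (β2 * ψ (v x) - β1 * ψ (v y)), d⁻¹ * (-β2), d⁻¹ * β1, ?_, by ring⟩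
    have h4 : β2 • (α1 • p + β1 • q) - β1 • (α2 • p + β2 • q) = d • p := by
      rw [hddef]; module
    rw [e1, e2] at h4
    have h5 : p = d⁻¹ • (d • p) := by rw [smul_smul, inv_mul_cancel₀ hdet, one_smul]
    rw [h5, ← h4]
    module
  obtain ⟨Q0, Q1, Q2, hq, hQψ⟩ : ∃ Q0 Q1 Q2 : ℚ, q = Q0 • v e0 + Q1 • v x + Q2 • v y ∧
      Q0 + Q1 * ψ (v x) + Q2 * ψ (v y) = 0 := by
    refine ⟨d⁻¹ * (α1 * ψ (v y) - α2 * ψ (v x)), d⁻¹ * α2, d⁻¹ * (-α1), ?_, by ring⟩
    have h4 : α1 • (α2 • p + β2 • q) - α2 • (α1 • p + β1 • q) = d • q := by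
      rw [hddef]; module
    rw [e1, e2] at h4
    have h5 : q = d⁻¹ • (d • q) := by rw [smul_smul, inv_mul_cancel₀ hdet, one_smul]
    rw [h5, ← h4]
    module
  have hψp : ψ p = 0 := by
    rw [hp, map_add, map_add, map_smul, map_smul, map_smul, hψ0, smul_eq_mul, smul_eq_mul,
      smul_eq_mul, mul_one]
    exact hPψ
  have hψq : ψ q = 0 := by
    rw [hq, map_add, map_add, map_smul, map_smul, map_smul, hψ0, smul_eq_mul, smul_eq_mul,
      smul_eq_mul, mul_one]
    exact hQψ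
  -- coordinates
  have hcoord : ∀ c0 c1 c2 : ℚ,
      c0 • v e0 + c1 • v x + c2 • v y ∈ v '' (B : Set ι) ∪ {p, q, p + q} →
      (c0 = 0 ∨ c0 = 1 ∨ c0 = -1) ∧ (c1 = 0 ∨ c1 = 1 ∨ c1 = -1) ∧
        (c2 = 0 ∨ c2 = 1 ∨ c2 = -1) := by
    intro c0 c1 c2 h1
    have h2 := uni_coord (hC.uni hB) ![v e0, v x, v y] Finset.univ
      (by
        intro i _
        left
        fin_cases i
        · exact ⟨e0, Finset.mem_coe.2 h0B.1, rfl⟩
        · exact ⟨x, Finset.mem_coe.2 hxB.1, rfl⟩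
        · exact ⟨y, Finset.mem_coe.2 hyB.1, rfl⟩)
      (by rw [Finset.coe_univ, linearIndepOn_univ_iff]; exact hli) ![c0, c1, c2]
      (by simpa [Fin.sum_univ_three] using h1)
    exact ⟨h2 0 (Finset.mem_univ _), h2 1 (Finset.mem_univ _), h2 2 (Finset.mem_univ _)⟩
  obtain ⟨cp0, cp1, cp2⟩ := hcoord P0 P1 P2 (by rw [← hp]; right; simp)
  obtain ⟨cq0, cq1, cq2⟩ := hcoord Q0 Q1 Q2 (by rw [← hq]; right; simp)
  obtain ⟨cr0, cr1, cr2⟩ := hcoord (P0 + Q0) (P1 + Q1) (P2 + Q2) (by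
    have h1 : (P0 + Q0) • v e0 + (P1 + Q1) • v x + (P2 + Q2) • v y = p + q := by
      rw [hp, hq]; module
    rw [h1]; right; simp)
  have hpq' := LinearIndependent.pair_iff.1 lipq
  obtain ⟨np01, np02, np12⟩ := no_two hψx hψy hPψ (by
    rintro ⟨h1, h2, h4⟩
    have h5 := hpq' 1 0 (by rw [hp, h1, h2, h4]; simp)
    exact one_ne_zero h5.1)
  obtain ⟨nq01, nq02, nq12⟩ := no_two hψx hψy hQψ (by
    rintro ⟨h1, h2, h4⟩
    have h5 := hpq' 0 1 (by rw [hq, h1, h2, h4]; simp)
    exact one_ne_zero h5.2)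
  obtain ⟨nr01, nr02, nr12⟩ := no_two (P0 := P0 + Q0) (P1 := P1 + Q1) (P2 := P2 + Q2) hψx hψy
    (by (clear * - hPψ hQψ; linarith)) (by
    rintro ⟨h1, h2, h4⟩
    have h6 : (P0 + Q0) • v e0 + (P1 + Q1) • v x + (P2 + Q2) • v y = p + q := by
      rw [hp, hq]; module
    have h5 := hpq' 1 1 (by rw [one_smul, one_smul, ← h6, h1, h2, h4]; simp)
    exact one_ne_zero h5.1)
  refine ⟨lipq, h0B.1, h0B.2, ?_, ?_⟩
  · rw [hBeq]
    exact Finset.card_eq_three.2 ⟨e0, x, y, hx0.symm, hy0.symm, hxy, rfl⟩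
  have hF0 : ∀ e ∈ E, e ∉ B.filter (fun e => v e ∉ span ℚ {p, q}) → ψ (v e) = 0 := by
    intro e he h1
    rw [hmem] at h1
    push Not at h1
    exact hψF e he h1.1 h1.2.1 h1.2.2
  have hψe : ψ (v e0) ≠ 0 := by rw [hψ0]; exact one_ne_zero
  rcases comb3 (coord_type cp0 cq0 cr0) (coord_type cp1 cq1 cr1) (coord_type cp2 cq2 cr2)
    np01 np02 np12 nq01 nq02 nq12 nr01 nr02 nr12 with g | g | g | g | g | g
  · obtain ⟨⟨g1, g2⟩, ⟨g3, g4⟩, ⟨g5, g6⟩⟩ := g
    refine small_mk e0 x y g1 g3 g6 ?_ ?_ (fun e he => ?_) ψ hF0 hψe hψp hψq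
    · rw [hp, g2, g5]; module
    · rw [hq, g4]; module
    · rcases (hmem e).1 he with h | h | h
      · exact Or.inl h
      · exact Or.inr (Or.inl h)
      · exact Or.inr (Or.inr h)
  · obtain ⟨⟨g1, g2⟩, ⟨g3, g4⟩, ⟨g5, g6⟩⟩ := g
    refine small_mk e0 y x g1 g3 g6 ?_ ?_ (fun e he => ?_) ψ hF0 hψe hψp hψq
    · rw [hp, g2, g5]; module
    · rw [hq, g4]; module
    · rcases (hmem e).1 he with h | h | h
      · exact Or.inl h
      · exact Or.inr (Or.inr h)
      · exact Or.inr (Or.inl h)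
  · obtain ⟨⟨g1, g2⟩, ⟨g3, g4⟩, ⟨g5, g6⟩⟩ := g
    refine small_mk x e0 y g1 g3 g6 ?_ ?_ (fun e he => ?_) ψ hF0 hψx hψp hψq
    · rw [hp, g2, g5]; module
    · rw [hq, g4]; module
    · rcases (hmem e).1 he with h | h | h
      · exact Or.inr (Or.inl h)
      · exact Or.inl h
      · exact Or.inr (Or.inr h)
  · obtain ⟨⟨g1, g2⟩, ⟨g3, g4⟩, ⟨g5, g6⟩⟩ := g
    refine small_mk x y e0 g1 g3 g6 ?_ ?_ (fun e he => ?_) ψ hF0 hψx hψp hψq
    · rw [hp, g2, g5]; module
    · rw [hq, g4]; module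
    · rcases (hmem e).1 he with h | h | h
      · exact Or.inr (Or.inr h)
      · exact Or.inl h
      · exact Or.inr (Or.inl h)
  · obtain ⟨⟨g1, g2⟩, ⟨g3, g4⟩, ⟨g5, g6⟩⟩ := g
    refine small_mk y e0 x g1 g3 g6 ?_ ?_ (fun e he => ?_) ψ hF0 hψy hψp hψq
    · rw [hp, g2, g5]; module
    · rw [hq, g4]; module
    · rcases (hmem e).1 he with h | h | h
      · exact Or.inr (Or.inl h)
      · exact Or.inr (Or.inr h)
      · exact Or.inl h
  · obtain ⟨⟨g1, g2⟩, ⟨g3, g4⟩, ⟨g5, g6⟩⟩ := g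
    refine small_mk y x e0 g1 g3 g6 ?_ ?_ (fun e he => ?_) ψ hF0 hψy hψp hψq
    · rw [hp, g2, g5]; module
    · rw [hq, g4]; module
    · rcases (hmem e).1 he with h | h | h
      · exact Or.inr (Or.inr h)
      · exact Or.inr (Or.inl h)
      · exact Or.inl h

end RC.Str

end

section

/-!
Module RC-P1.  Bad systems under injective linear maps.  Every field of `Bad` is invariant:
`sys.cls` by `hC.map` (`(f ∘ v) '' E = f '' (v '' E)`), `ne`, `par`, `tri` because `f` is
injective on `span (v '' E)`, `rank` (`rk_map`), `short` (`short_map`).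
`bad_fst`: for a system in `V × ℚ` all of whose vectors have second coordinate `0`, `f = fst`.
-/

namespace RC.Str

open Submodule Module

theorem bad_map {C : ClsT} (hC : Cls C) {V W : Type} [AddCommGroup V] [Module ℚ V]
    [AddCommGroup W] [Module ℚ W] (f : V →ₗ[ℚ] W) {h : ℕ} {ι κ : Type} {v : ι → V} {c : ι → κ}
    {E : Finset ι} {e0 : ι} (hb : Bad C h v c E e0)
    (hf : ∀ y ∈ span ℚ (v '' (E : Set ι)), f y = 0 → y = 0) :
    Bad C h (fun e => f (v e)) c E e0 := by
  have himg : (fun e => f (v e)) '' (E : Set ι) = f '' (v '' (E : Set ι)) := by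
    rw [Set.image_image]
  have hmem : ∀ e ∈ E, v e ∈ span ℚ (v '' (E : Set ι)) := fun e he =>
    subset_span ⟨e, he, rfl⟩
  have hinj : Set.InjOn f (span ℚ (v '' (E : Set ι)) : Set V) := by
    intro x hx y hy hxy
    exact sub_eq_zero.1 (hf (x - y) (sub_mem hx hy) (by rw [map_sub, hxy, sub_self]))
  have hr := Red.rk_map f (v := v) (E := E) hf
  have hs := fun k => Red.short_map f (v := v) (c := c) (E := E) (k := k) hf
  have hpar : ∀ e ∈ E, ∀ e' ∈ E, LinearIndependent ℚ ![v e, v e'] →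
      LinearIndependent ℚ ![f (v e), f (v e')] := by
    intro e he e' he' hli
    have hle : span ℚ (Set.range ![v e, v e']) ≤ span ℚ (v '' (E : Set ι)) := by
      rw [span_le]
      rintro x ⟨i, rfl⟩
      fin_cases i
      · exact hmem e he
      · exact hmem e' he'
    have := hli.map_injOn f (hinj.mono hle)
    convert this using 1
    ext i
    fin_cases i <;> rfl
  refine
    { ih := hb.ih
      sys := ⟨?_, ?_, hb.sys.two, ?_, ?_⟩
      nc_eq := hb.nc_eq
      card := hb.card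
      mem0 := hb.mem0
      single := hb.single
      partner := hb.partner
      rank := ?_
      tri := ?_
      short := ?_ }
  · rw [himg]
    exact hC.map f hb.sys.cls hf
  · intro e he h0
    exact hb.sys.ne e he (hf _ (hmem e he) h0)
  · intro e he e' he' hce hne
    exact hpar e he e' he' (hb.sys.par e he e' he' hce hne)
  · rw [hr]
    exact hb.sys.rank
  · rw [hr]
    exact hb.rank
  · intro e he e' he' hce hne
    have hli := hb.tri e he e' he' hce hne
    have hle : span ℚ (Set.range ![v e0, v e, v e']) ≤ span ℚ (v '' (E : Set ι)) := by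
      rw [span_le]
      rintro x ⟨i, rfl⟩
      fin_cases i
      · exact hmem e0 hb.mem0
      · exact hmem e he
      · exact hmem e' he'
    have := hli.map_injOn f (hinj.mono hle)
    convert this using 1
    ext i
    fin_cases i <;> rfl
  · intro hsh
    exact hb.short ((hs h).1 hsh)

theorem bad_fst {C : ClsT} (hC : Cls C) {V : Type} [AddCommGroup V] [Module ℚ V] {h : ℕ}
    {ι κ : Type} {v : ι → V × ℚ} {c : ι → κ} {E : Finset ι} {e0 : ι}
    (hb : Bad C h v c E e0) (h0 : ∀ e ∈ E, (v e).2 = 0) :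
    Bad C h (fun e => (v e).1) c E e0 := by
  refine bad_map hC (LinearMap.fst ℚ V ℚ) hb ?_
  intro y hy hy0
  have hle : span ℚ (v '' (E : Set ι)) ≤ LinearMap.ker (LinearMap.snd ℚ V ℚ) := by
    rw [span_le]
    rintro x ⟨e, he, rfl⟩
    simpa using h0 e he
  have h2 : y.2 = 0 := by
    have := hle hy
    simpa using this
  have h1 : y.1 = 0 := by simpa using hy0
  exact Prod.ext h1 h2

end RC.Str

end

section

/-!
Module RC-P8.  Bad systems dominated by `inl '' Y` with a claw.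

Let `D = E.filter (fun e => (v e).2 ≠ 0)`.  For `e ∈ D`, `v e` is not in `± inl '' Y`, so it is
`±` one of the three vectors of `clawSet p q`; for distinct `e` these vectors are distinct
(`Bad.par'`), so `D` has at most three elements.
`claw_card`: suppose `D` is nonempty.  The functional `snd` vanishes on `v '' (E \ D)` and not on
`v '' E`, so `rk v (E \ D) + 1 ≤ rk v E`, that is `rk v (E \ D) + 2 ≤ 2 h`.  If `e0 ∉ D` then
`RC.coc_notin` gives `4 ≤ D.card`, contradiction; so `e0 ∈ D` and `RC.coc_in` gives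
`3 ≤ D.card`.

`claw_empty`: if `D = ∅`, then all vectors have second coordinate `0`, `bad_fst` gives a bad
system in `V`, and it is dominated by `Y`: an element `±(y, 0)` with `y ∈ Y` has first
coordinate in `± Y`, and an element of `± clawSet p q` has second coordinate `±1 ≠ 0`.
-/

namespace RC.Str

open Submodule Module

variable {V : Type} [AddCommGroup V] [Module ℚ V]

/-- The second coordinate of an element of `± claw`. -/
private theorem claw_snd {p q : V} {x : V × ℚ} (hx : x ∈ clawSet p q) : x.2 = 1 := by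
  rcases hx with rfl | rfl | rfl <;> rfl

/-- An element dominated by `inl '' Y ∪ claw` with nonzero second coordinate. -/
private theorem claw_elt {Y : Set V} {p q : V} {x : V × ℚ} (h2 : x.2 ≠ 0)
    (hd : x = 0 ∨ x ∈ (fun x : V => (x, (0 : ℚ))) '' Y ∪ clawSet p q ∨
      -x ∈ (fun x : V => (x, (0 : ℚ))) '' Y ∪ clawSet p q) :
    (x.2 = 1 ∧ x ∈ clawSet p q) ∨ (x.2 = -1 ∧ -x ∈ clawSet p q) := by
  rcases hd with h | h | h
  · exact absurd (by rw [h]; rfl) h2
  · rcases h with ⟨y, _, rfl⟩ | h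
    · exact absurd rfl h2
    · exact Or.inl ⟨claw_snd h, h⟩
  · rcases h with ⟨y, _, hy⟩ | h
    · have h3 : (-x).2 = 0 := by rw [← hy]
      rw [Prod.snd_neg, neg_eq_zero] at h3
      exact absurd h3 h2
    · have h3 := claw_snd h
      rw [Prod.snd_neg] at h3
      exact Or.inr ⟨by linarith, h⟩

open Classical in
private theorem claw_le (p q : V) :
    ({((0 : V), (1 : ℚ)), (p, 1), (-q, 1)} : Finset (V × ℚ)).card ≤ 3 := by
  refine (Finset.card_insert_le _ _).trans ?_
  have := Finset.card_insert_le (p, (1 : ℚ)) ({(-q, 1)} : Finset (V × ℚ))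
  rw [Finset.card_singleton] at this
  omega

private theorem not_li_eq {W : Type} [AddCommGroup W] [Module ℚ W] {x y : W}
    (hli : LinearIndependent ℚ ![x, y]) : x ≠ y ∧ x ≠ -y := by
  rw [LinearIndependent.pair_iff] at hli
  constructor
  · intro h
    have := (hli 1 (-1) (by rw [h, one_smul, neg_smul, one_smul, add_neg_cancel])).1
    exact one_ne_zero this
  · intro h
    have := (hli 1 1 (by rw [h, one_smul, one_smul, neg_add_cancel])).1
    exact one_ne_zero this

open Classical in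
theorem claw_card (hC : Cls DecC) {Y : Set V} {p q : V} {h : ℕ} {ι κ : Type} {v : ι → V × ℚ}
    {c : ι → κ} {E : Finset ι} {e0 : ι} (hb : Bad DecC h v c E e0)
    (hd : Dom (v '' (E : Set ι)) ((fun x : V => (x, (0 : ℚ))) '' Y ∪ clawSet p q)) :
    (∀ e ∈ E, (v e).2 = 0) ∨
      ((v e0).2 ≠ 0 ∧ (E.filter (fun e => (v e).2 ≠ 0)).card = 3) := by
  by_cases h0 : ∀ e ∈ E, (v e).2 = 0
  · exact Or.inl h0
  right
  push Not at h0
  obtain ⟨e1, he1, hne1⟩ := h0
  have helt : ∀ e ∈ E.filter (fun e => (v e).2 ≠ 0),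
      ((v e).2 = 1 ∧ v e ∈ clawSet p q) ∨ ((v e).2 = -1 ∧ -(v e) ∈ clawSet p q) := by
    intro e he
    rw [Finset.mem_filter] at he
    exact claw_elt he.2 (hd (v e) ⟨e, he.1, rfl⟩)
  have hcard : (E.filter (fun e => (v e).2 ≠ 0)).card ≤ 3 := by
    refine le_trans ?_ (claw_le p q)
    refine Finset.card_le_card_of_injOn (fun e => (v e).2 • v e) ?_ ?_
    · intro e he
      have hh := helt e he
      simp only [Finset.coe_insert, Finset.coe_singleton]
      rcases hh with ⟨h1, h2⟩ | ⟨h1, h2⟩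
      · show (v e).2 • v e ∈ _
        rw [h1, one_smul]
        exact h2
      · show (v e).2 • v e ∈ _
        rw [h1, neg_smul, one_smul]
        exact h2
    · intro e he e' he' hee
      by_contra hne
      have hE := (Finset.mem_filter.1 (Finset.mem_coe.1 he)).1
      have hE' := (Finset.mem_filter.1 (Finset.mem_coe.1 he')).1
      obtain ⟨n1, n2⟩ := not_li_eq (hb.par' hE hE' hne)
      have hee' : (v e).2 • v e = (v e').2 • v e' := hee
      rcases helt e he with ⟨h1, _⟩ | ⟨h1, _⟩ <;> rcases helt e' he' with ⟨h3, _⟩ | ⟨h3, _⟩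
      · rw [h1, h3, one_smul, one_smul] at hee'
        exact n1 hee'
      · rw [h1, h3, one_smul, neg_smul, one_smul] at hee'
        exact n2 hee'
      · rw [h1, h3, one_smul, neg_smul, one_smul] at hee'
        exact n2 (by rw [← hee', neg_neg])
      · rw [h1, h3, neg_smul, neg_smul, one_smul, one_smul] at hee'
        exact n1 (neg_injective hee')
  have hsub : E.filter (fun e => (v e).2 ≠ 0) ⊆ E := Finset.filter_subset _ _
  have hr : rk v (E \ E.filter (fun e => (v e).2 ≠ 0)) + 2 ≤ 2 * h := by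
    have hlt : rk v (E \ E.filter (fun e => (v e).2 ≠ 0)) < rk v E := by
      unfold rk
      have hf : FiniteDimensional ℚ (span ℚ (v '' (E : Set ι))) :=
        FiniteDimensional.span_of_finite ℚ ((Finset.finite_toSet E).image v)
      refine Submodule.finrank_lt_finrank_of_lt (lt_of_le_of_ne ?_ ?_)
      · refine span_mono (Set.image_mono ?_)
        exact_mod_cast Finset.sdiff_subset
      · intro heq
        have hle : span ℚ (v '' ((E \ E.filter (fun e => (v e).2 ≠ 0) : Finset ι) : Set ι)) ≤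
            LinearMap.ker (LinearMap.snd ℚ V ℚ) := by
          rw [span_le]
          rintro x ⟨e, he, rfl⟩
          rw [Finset.mem_coe, Finset.mem_sdiff, Finset.mem_filter, not_and, not_not] at he
          have := he.2 he.1
          simpa using this
        rw [heq] at hle
        have h5 := hle (subset_span ⟨e1, he1, rfl⟩)
        apply hne1
        simpa using h5
    have := hb.rank
    omega
  by_cases he0 : e0 ∈ E.filter (fun e => (v e).2 ≠ 0)
  · have h6 := (coc_in hC hb hsub he0 hr).1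
    exact ⟨(Finset.mem_filter.1 he0).2, by omega⟩
  · have h6 := coc_notin hC hb hsub he0 hr
    omega

theorem claw_empty (hC : Cls DecC) {Y : Set V} (hY : NB0 Y) {p q : V} {h : ℕ} {ι κ : Type}
    {v : ι → V × ℚ} {c : ι → κ} {E : Finset ι} {e0 : ι} (hb : Bad DecC h v c E e0)
    (hd : Dom (v '' (E : Set ι)) ((fun x : V => (x, (0 : ℚ))) '' Y ∪ clawSet p q))
    (h0 : ∀ e ∈ E, (v e).2 = 0) : False := by
  refine hY h ι κ (fun e => (v e).1) c E e0 (bad_fst hC hb h0) ?_
  rintro _ ⟨e, he, rfl⟩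
  have h1 := hd (v e) ⟨e, he, rfl⟩
  have h2 := h0 e he
  rcases h1 with h1 | h1 | h1
  · left
    show (v e).1 = 0
    rw [h1]
    rfl
  · rcases h1 with ⟨y, hy, hye⟩ | h1
    · right; left
      show (v e).1 ∈ Y
      rw [← hye]
      exact hy
    · rw [claw_snd h1] at h2
      exact absurd h2 one_ne_zero
  · rcases h1 with ⟨y, hy, hye⟩ | h1
    · right; right
      show -(v e).1 ∈ Y
      rw [← Prod.fst_neg, ← hye]
      exact hy
    · have h3 := claw_snd h1
      rw [Prod.snd_neg, h2, neg_zero] at h3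
      exact absurd h3 zero_ne_one

end RC.Str

end

section

/-!
Module RC-P9.  Cographic sets, second part: `NB1`.

Let `p, q` be independent, `{p, q, p + q}` dominated by `Set.range u`.  By `cog_cut` we may
replace `u` by `u'` (same set up to signs; `NB0` of the set with claw is transferred with
`nb0_dom`, `dom_inl`), so let `CogCut u hd tl X p q e1 e2 e3` hold.  Let `v, E0` be a bad system in
`V × ℚ` dominated by `inl '' range u ∪ clawSet p q`.  `p' = (p, 0)`, `q' = (q, 0)`,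
`L = span {p', q'}`.  By `claw_card`, `claw_empty` (with `nb0_cographic`) and the case
distinction there, `(v e0).2 ≠ 0` and `D = E0.filter ((v e).2 ≠ 0)` has three elements.

`cog_half`: suppose that every `e ∈ E0` for which `v e = ± (u i, 0)` for some `i` with both ends in
`X` has `v e ∈ L`.  Then there is a contradiction: every such `v e` is `± p'`, `± q'` or
`± (p' + q')` (`uni_plane`, `Uni` of `v '' E0 ∪ {p', q', p' + q'}` from `Dec`), so the
system is dominated by `inl '' (u '' {e | ¬ (hd e ∈ X ∧ tl e ∈ X)}) ∪ clawSet p q`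
(`e1, e2, e3` are in this set of edges); `nb0_cog_claw`.

Main proof: let `A` be the set of `e ∈ E0` for which `v e = ± (u i, 0)` for some `i` with both ends
in `X`, `B = E0 \ A`.  For `e ∈ B`: `v e` is `± (u i, 0)` with both ends of `i` outside `X`, or
`± p', ± q', ± (p' + q')`, or in `± clawSet p q`.  Hypothesis `hsp` of `sep_gen`: let `y` be in
the intersection.  By the first part `y.2 = 0` and `y.1 ∈ span (u '' {inside X} ∪ {p, q})`.  The
second part: `y = b + (α p + β q, t)` with `b ∈ span (inl '' (u '' {outside X}))` (the vectors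
of the claw are of the form `(α p + β q, t)`), so `y.1 ∈ span (u '' {outside X} ∪ {p, q})`.  By
`cog_sep` `y.1 ∈ span {p, q}`, so `y ∈ L`.
`hA`, `hB` of `sep_gen`: `v '' A ∪ {p', q', p' + q'}` and `v '' B ∪ {p', q', p' + q'}` are
dominated by `inl '' range u ∪ clawSet p q`, which is in `DecC` (`Dec.cographic`, `hC.claw` for
`range u ∪ {p, q, p + q}`, and `dec_dom`).
`sep_gen` gives: `A` or `B` has at most three elements outside `L`.
* `A`: `small_claw` with `A` as the small side: since `e0 ∉ A` (`(v e0).2 ≠ 0`), no element of `A`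
  is outside `L`; `cog_half`.
* `B`: `D` is contained in the set of elements of `B` outside `L` and has three elements, so they
  are equal; all `e ∈ B` with `(v e).2 = 0` have `v e ∈ L`.  So the hypothesis of `cog_half` holds
  for `h.symm` (complement of `X`): if `v e = ± (u i, 0)`, `i` with both ends outside `X`, and
  `e ∈ A` then also `v e = ± (u i', 0)` with `i'` inside `X`, and `(v e).1` is in both spans of
  `cog_sep`, so `v e ∈ L`; if `e ∈ B` then `v e ∈ L` as just seen.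
-/

namespace RC.Str

open Submodule Module

section aux

variable {V E W : Type} [AddCommGroup V] [Module ℚ V] [Fintype E] [Fintype W]

private theorem sc1_li {p q : V} (li : LinearIndependent ℚ ![p, q]) :
    LinearIndependent ℚ ![((p : V), (0 : ℚ)), (q, 0)] := by
  rw [LinearIndependent.pair_iff] at li ⊢
  intro s t hst
  apply li s t
  simpa using congrArg Prod.fst hst

/-- the elements of the plane -/
private theorem sc1_mem {p q : V} {y : V × ℚ} (h1 : y.1 ∈ span ℚ {p, q}) (h2 : y.2 = 0) :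
    y ∈ span ℚ {((p : V), (0 : ℚ)), (q, 0)} := by
  obtain ⟨α, β, h⟩ := mem_span_pair.1 h1
  rw [mem_span_pair]
  refine ⟨α, β, ?_⟩
  apply Prod.ext
  · simpa using h
  · simpa using h2.symm

private theorem sc1_snd {p q : V} {y : V × ℚ}
    (h : y ∈ span ℚ {((p : V), (0 : ℚ)), (q, 0)}) : y.2 = 0 := by
  obtain ⟨α, β, h⟩ := mem_span_pair.1 h
  rw [← h]
  simp

/-- the triangle is dominated by the range -/
private theorem sc1_tri {u : E → V} {hd tl : E → W} {X : Set W} {p q : V} {e1 e2 e3 : E}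
    (h : CogCut u hd tl X p q e1 e2 e3) : Dom {p, q, p + q} (Set.range u) := by
  rintro x (rfl | rfl | rfl)
  · exact Or.inr (Or.inl ⟨e1, h.u1⟩)
  · exact Or.inr (Or.inl ⟨e2, h.u2⟩)
  · exact Or.inr (Or.inr ⟨e3, h.u3⟩)

/-- the lifted set is decomposable -/
private theorem sc1_dec (hC : Cls DecC) {u : E → V} {hd tl : E → W} {X : Set W} {p q : V}
    {e1 e2 e3 : E} (h : CogCut u hd tl X p q e1 e2 e3) :
    Dec (V × ℚ) ((fun x : V => (x, (0 : ℚ))) '' Set.range u ∪ clawSet p q) := by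
  have h1 : Dec V (Set.range u) :=
    Dec.cographic (Set.range u) E W u hd tl h.dep (by rintro _ ⟨e, rfl⟩; exact ⟨e, rfl⟩)
  have h2 : Dec V (Set.range u ∪ {p, q, p + q}) :=
    dec_dom h1 (dom_union (dom_refl _) (sc1_tri h))
  have h3 := hC.claw (X := Set.range u ∪ {p, q, p + q}) (p := p) (q := q) h2
    (Or.inr (by simp)) (Or.inr (by simp)) (Or.inr (by simp)) h.li
  refine dec_dom h3 (dom_of_subset ?_)
  exact Set.union_subset_union (Set.image_mono Set.subset_union_left) (le_refl _)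

/-- the lifted triangle is dominated -/
private theorem sc1_tri' {u : E → V} {hd tl : E → W} {X : Set W} {p q : V} {e1 e2 e3 : E}
    (h : CogCut u hd tl X p q e1 e2 e3) :
    Dom {((p : V), (0 : ℚ)), (q, 0), ((p : V), (0 : ℚ)) + (q, 0)}
      ((fun x : V => (x, (0 : ℚ))) '' Set.range u ∪ clawSet p q) := by
  have h1 := dom_union_left (clawSet p q) (dom_inl (sc1_tri h))
  refine dom_trans (dom_of_subset ?_) h1
  rintro x (rfl | rfl | rfl)
  · exact ⟨p, by simp, rfl⟩
  · exact ⟨q, by simp, rfl⟩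
  · exact ⟨p + q, by simp, by simp⟩

private theorem sc1_half (hC : Cls DecC) {u : E → V} {hd tl : E → W} {X : Set W} {p q : V}
    {e1 e2 e3 : E} (h : CogCut u hd tl X p q e1 e2 e3) {m : ℕ} {ι κ : Type} {v : ι → V × ℚ}
    {c : ι → κ} {E0 : Finset ι} {e0 : ι} (hb : Bad DecC m v c E0 e0)
    (hdom : Dom (v '' (E0 : Set ι)) ((fun x : V => (x, (0 : ℚ))) '' Set.range u ∪ clawSet p q))
    (hin : ∀ e ∈ E0, (∃ i, hd i ∈ X ∧ tl i ∈ X ∧ (v e = (u i, 0) ∨ v e = -(u i, 0))) →
      v e ∈ span ℚ {((p : V), (0 : ℚ)), (q, 0)}) : False := by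
  have hU : Uni (v '' (E0 : Set ι) ∪
      {((p : V), (0 : ℚ)), (q, 0), ((p : V), (0 : ℚ)) + (q, 0)}) :=
    hC.uni (show DecC (V × ℚ) _ from dec_dom (sc1_dec hC h) (dom_union hdom (sc1_tri' h)))
  -- membership of the triangle
  have k1 : ((p : V), (0 : ℚ)) ∈ (fun x : V => (x, (0 : ℚ))) ''
      (u '' {e | ¬ (hd e ∈ X ∧ tl e ∈ X)}) :=
    ⟨p, ⟨e1, fun hh => h.t1 hh.2, h.u1⟩, rfl⟩
  have k2 : ((q : V), (0 : ℚ)) ∈ (fun x : V => (x, (0 : ℚ))) ''
      (u '' {e | ¬ (hd e ∈ X ∧ tl e ∈ X)}) :=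
    ⟨q, ⟨e2, fun hh => h.t2 hh.2, h.u2⟩, rfl⟩
  have k3 : -(((p : V), (0 : ℚ)) + (q, 0)) ∈ (fun x : V => (x, (0 : ℚ))) ''
      (u '' {e | ¬ (hd e ∈ X ∧ tl e ∈ X)}) :=
    ⟨-(p + q), ⟨e3, fun hh => h.t3 hh.2, h.u3⟩, by simp⟩
  have hplane : ∀ e ∈ E0, v e ∈ span ℚ {((p : V), (0 : ℚ)), (q, 0)} →
      v e = 0 ∨ v e ∈ ((fun x : V => (x, (0 : ℚ))) '' (u '' {e | ¬ (hd e ∈ X ∧ tl e ∈ X)}) ∪
        clawSet p q) ∨ -v e ∈ ((fun x : V => (x, (0 : ℚ))) ''
          (u '' {e | ¬ (hd e ∈ X ∧ tl e ∈ X)}) ∪ clawSet p q) := by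
    intro e he hL
    rcases uni_plane hU (p := ((p : V), (0 : ℚ))) (q := ((q : V), (0 : ℚ))) (x := v e)
      (Or.inr (by simp)) (Or.inr (by simp)) (Or.inr (by simp)) (sc1_li h.li)
      (Or.inl ⟨e, he, rfl⟩) hL with h0 | h0 | h0 | h0 | h0 | h0 | h0
    · exact Or.inl h0
    · exact Or.inr (Or.inl (Or.inl (by rw [h0]; exact k1)))
    · exact Or.inr (Or.inr (Or.inl (by rw [h0, neg_neg]; exact k1)))
    · exact Or.inr (Or.inl (Or.inl (by rw [h0]; exact k2)))
    · exact Or.inr (Or.inr (Or.inl (by rw [h0, neg_neg]; exact k2)))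
    · exact Or.inr (Or.inr (Or.inl (by rw [h0]; exact k3)))
    · exact Or.inr (Or.inl (Or.inl (by rw [h0]; exact k3)))
  refine nb0_cog_claw hC h m ι κ v c E0 e0 hb ?_
  rintro _ ⟨e, he, rfl⟩
  rcases hdom (v e) ⟨e, he, rfl⟩ with h0 | (⟨_, ⟨i, rfl⟩, h0⟩ | h0) | (⟨_, ⟨i, rfl⟩, h0⟩ | h0)
  · exact Or.inl h0
  · have h0' : v e = (u i, 0) := h0.symm
    by_cases hi : hd i ∈ X ∧ tl i ∈ X
    · exact hplane e he (hin e he ⟨i, hi.1, hi.2, Or.inl h0'⟩)
    · exact Or.inr (Or.inl (Or.inl ⟨u i, ⟨i, hi, rfl⟩, h0⟩))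
  · exact Or.inr (Or.inl (Or.inr h0))
  · have h0' : v e = -(u i, 0) := by
      have h00 : ((u i : V), (0 : ℚ)) = -v e := h0
      rw [h00, neg_neg]
    by_cases hi : hd i ∈ X ∧ tl i ∈ X
    · exact hplane e he (hin e he ⟨i, hi.1, hi.2, Or.inr h0'⟩)
    · exact Or.inr (Or.inr (Or.inl ⟨u i, ⟨i, hi, rfl⟩, h0⟩))
  · exact Or.inr (Or.inr (Or.inr h0))

open Classical in
private theorem sc1_main (hC : Cls DecC) {u : E → V} {hd tl : E → W} {X : Set W} {p q : V}
    {e1 e2 e3 : E} (h : CogCut u hd tl X p q e1 e2 e3) :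
    NB0 ((fun x : V => (x, (0 : ℚ))) '' Set.range u ∪ clawSet p q) := by
  intro m ι κ v c E0 e0 hb hdom
  rcases claw_card hC hb hdom with h0 | ⟨he0, hcard⟩
  · exact claw_empty hC (nb0_cographic hC u hd tl h.dep) hb hdom h0
  set L : Submodule ℚ (V × ℚ) := span ℚ {((p : V), (0 : ℚ)), (q, 0)} with hL
  set P : ι → Prop := fun e => ∃ i, hd i ∈ X ∧ tl i ∈ X ∧ (v e = (u i, 0) ∨ v e = -(u i, 0))
    with hP
  set A : Finset ι := E0.filter P with hA
  set B : Finset ι := E0.filter (fun e => ¬ P e) with hB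
  have hAB : A ∪ B = E0 := Finset.filter_union_filter_not_eq _ _
  have hdis : Disjoint A B := Finset.disjoint_filter_filter_not _ _ _
  have hPsnd : ∀ e, P e → (v e).2 = 0 := by
    rintro e ⟨i, -, -, h1 | h1⟩
    · rw [h1]
    · rw [h1]; simp
  have hAE : (v '' (A : Set ι)) ⊆ v '' (E0 : Set ι) := by
    refine Set.image_mono ?_
    intro e he
    exact (Finset.mem_filter.1 (Finset.mem_coe.1 he)).1
  have hBE : (v '' (B : Set ι)) ⊆ v '' (E0 : Set ι) := by
    refine Set.image_mono ?_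
    intro e he
    exact (Finset.mem_filter.1 (Finset.mem_coe.1 he)).1
  have hdA : DecC (V × ℚ) (v '' (A : Set ι) ∪
      {((p : V), (0 : ℚ)), (q, 0), ((p : V), (0 : ℚ)) + (q, 0)}) :=
    dec_dom (sc1_dec hC h) (dom_union (dom_trans (dom_of_subset hAE) hdom) (sc1_tri' h))
  have hdB : DecC (V × ℚ) (v '' (B : Set ι) ∪
      {((p : V), (0 : ℚ)), (q, 0), ((p : V), (0 : ℚ)) + (q, 0)}) :=
    dec_dom (sc1_dec hC h) (dom_union (dom_trans (dom_of_subset hBE) hdom) (sc1_tri' h))
  -- the two spans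
  have hin : ∀ y ∈ span ℚ (v '' (A : Set ι) ∪ {((p : V), (0 : ℚ)), (q, 0)}),
      y.1 ∈ span ℚ (u '' {e | hd e ∈ X ∧ tl e ∈ X} ∪ {p, q}) ∧ y.2 = 0 := by
    intro y hy
    have hle : span ℚ (v '' (A : Set ι) ∪ {((p : V), (0 : ℚ)), (q, 0)}) ≤
        (span ℚ (u '' {e | hd e ∈ X ∧ tl e ∈ X} ∪ {p, q})).comap (LinearMap.fst ℚ V ℚ) ⊓
          LinearMap.ker (LinearMap.snd ℚ V ℚ) := by
      rw [span_le]
      rintro x (⟨e, he, rfl⟩ | (rfl | rfl))
      · obtain ⟨i, hi1, hi2, hi3⟩ := (Finset.mem_filter.1 (Finset.mem_coe.1 he)).2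
        have hu : u i ∈ span ℚ (u '' {e | hd e ∈ X ∧ tl e ∈ X} ∪ {p, q}) :=
          subset_span (Or.inl ⟨i, ⟨hi1, hi2⟩, rfl⟩)
        rcases hi3 with h1 | h1
        · rw [h1]
          exact ⟨hu, rfl⟩
        · rw [h1]
          exact ⟨neg_mem hu, neg_zero⟩
      · exact ⟨show p ∈ span ℚ _ from subset_span (Or.inr (by simp)), rfl⟩
      · exact ⟨show q ∈ span ℚ _ from subset_span (Or.inr (by simp)), rfl⟩
    exact ⟨(hle hy).1, (hle hy).2⟩
  have hp' : p ∈ span ℚ (u '' {e | hd e ∉ X ∧ tl e ∉ X} ∪ {p, q}) :=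
    subset_span (Or.inr (by simp))
  have hq' : q ∈ span ℚ (u '' {e | hd e ∉ X ∧ tl e ∉ X} ∪ {p, q}) :=
    subset_span (Or.inr (by simp))
  have hout0 : ∀ i, ¬ (hd i ∈ X ∧ tl i ∈ X) →
      u i ∈ span ℚ (u '' {e | hd e ∉ X ∧ tl e ∉ X} ∪ {p, q}) := by
    intro i hi
    by_cases i1 : i = e1
    · rw [i1, h.u1]; exact hp'
    by_cases i2 : i = e2
    · rw [i2, h.u2]; exact hq'
    by_cases i3 : i = e3
    · rw [i3, h.u3]; exact neg_mem (add_mem hp' hq')
    have hc := h.cut i i1 i2 i3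
    refine subset_span (Or.inl ⟨i, ⟨fun h1 => hi ⟨h1, hc.1 h1⟩, fun h1 => hi ⟨hc.2 h1, h1⟩⟩, rfl⟩)
  have hout : ∀ y ∈ span ℚ (v '' (B : Set ι) ∪ {((p : V), (0 : ℚ)), (q, 0)}),
      y.1 ∈ span ℚ (u '' {e | hd e ∉ X ∧ tl e ∉ X} ∪ {p, q}) := by
    intro y hy
    have hle : span ℚ (v '' (B : Set ι) ∪ {((p : V), (0 : ℚ)), (q, 0)}) ≤
        (span ℚ (u '' {e | hd e ∉ X ∧ tl e ∉ X} ∪ {p, q})).comap (LinearMap.fst ℚ V ℚ) := by
      rw [span_le]
      rintro x (⟨e, he, rfl⟩ | (rfl | rfl))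
      · have heB := Finset.mem_filter.1 (Finset.mem_coe.1 he)
        have hclaw : ∀ w ∈ clawSet p q, w.1 ∈
            span ℚ (u '' {e | hd e ∉ X ∧ tl e ∉ X} ∪ {p, q}) := by
          rintro w (rfl | rfl | rfl)
          · exact zero_mem _
          · exact hp'
          · exact neg_mem hq'
        show (v e).1 ∈ span ℚ (u '' {e | hd e ∉ X ∧ tl e ∉ X} ∪ {p, q})
        rcases hdom (v e) ⟨e, heB.1, rfl⟩ with h1 | (⟨_, ⟨i, rfl⟩, h1⟩ | h1) |
          (⟨_, ⟨i, rfl⟩, h1⟩ | h1)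
        · rw [h1]; exact zero_mem _
        · have h1' : v e = (u i, 0) := h1.symm
          rw [h1']
          exact hout0 i fun hi => heB.2 ⟨i, hi.1, hi.2, Or.inl h1'⟩
        · exact hclaw _ h1
        · have h1' : v e = -(u i, 0) := by
            have h00 : ((u i : V), (0 : ℚ)) = -v e := h1
            rw [h00, neg_neg]
          rw [h1']
          exact neg_mem (hout0 i fun hi => heB.2 ⟨i, hi.1, hi.2, Or.inr h1'⟩)
        · have h2 := neg_mem (hclaw _ h1)
          rwa [Prod.fst_neg, neg_neg] at h2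
      · exact hp'
      · exact hq'
    exact hle hy
  have hsep := cog_sep h
  have hLmem : ∀ y : V × ℚ, y.1 ∈ span ℚ (u '' {e | hd e ∈ X ∧ tl e ∈ X} ∪ {p, q}) →
      y.1 ∈ span ℚ (u '' {e | hd e ∉ X ∧ tl e ∉ X} ∪ {p, q}) → y.2 = 0 → y ∈ L := by
    intro y h1 h2 h3
    refine sc1_mem ?_ h3
    rw [← hsep]
    exact ⟨h1, h2⟩
  have hsp : span ℚ (v '' (A : Set ι) ∪ {((p : V), (0 : ℚ)), (q, 0)}) ⊓
      span ℚ (v '' (B : Set ι) ∪ {((p : V), (0 : ℚ)), (q, 0)}) =
      span ℚ {((p : V), (0 : ℚ)), (q, 0)} := by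
    apply le_antisymm
    · rintro y ⟨h1, h2⟩
      exact hLmem y (hin y h1).1 (hout y h2) (hin y h1).2
    · exact le_inf (span_mono Set.subset_union_right) (span_mono Set.subset_union_right)
  rcases sep_gen hC hb A B hAB hdis _ _ (Or.inl (sc1_li h.li)) hsp hdA hdB with h3 | h3
  · -- the inner side is small
    have hs := small_claw hC hb B A (by rw [Finset.union_comm]; exact hAB) hdis.symm _ _
      (Or.inl (sc1_li h.li)) (by rw [inf_comm]; exact hsp) hdA h3
    rcases hs with h4 | ⟨-, h4, -⟩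
    · refine sc1_half hC h hb hdom ?_
      intro e he hPe
      by_contra hcon
      have : e ∈ A.filter (fun e => v e ∉ span ℚ {((p : V), (0 : ℚ)), (q, 0)}) :=
        Finset.mem_filter.2 ⟨Finset.mem_filter.2 ⟨he, hPe⟩, hcon⟩
      rw [h4] at this
      exact absurd this (Finset.notMem_empty _)
    · exact he0 (hPsnd e0 (Finset.mem_filter.1 h4).2)
  · -- the outer side is small
    have hDsub : E0.filter (fun e => (v e).2 ≠ 0) ⊆
        B.filter (fun e => v e ∉ span ℚ {((p : V), (0 : ℚ)), (q, 0)}) := by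
      intro e he
      obtain ⟨h4, h5⟩ := Finset.mem_filter.1 he
      refine Finset.mem_filter.2 ⟨Finset.mem_filter.2 ⟨h4, fun h6 => h5 (hPsnd e h6)⟩, ?_⟩
      intro h6
      exact h5 (sc1_snd h6)
    have hDeq : E0.filter (fun e => (v e).2 ≠ 0) =
        B.filter (fun e => v e ∉ span ℚ {((p : V), (0 : ℚ)), (q, 0)}) :=
      Finset.eq_of_subset_of_card_le hDsub (by rw [hcard]; exact h3)
    refine sc1_half hC h.symm hb hdom ?_
    rintro e he ⟨i, hi1, hi2, hi3⟩
    have hsnd : (v e).2 = 0 := by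
      rcases hi3 with h4 | h4
      · rw [h4]
      · rw [h4]; simp
    by_cases hPe : P e
    · refine hLmem (v e) ?_ ?_ hsnd
      · exact (hin (v e) (subset_span (Or.inl
          ⟨e, Finset.mem_coe.2 (Finset.mem_filter.2 ⟨he, hPe⟩), rfl⟩))).1
      · have hu := hout0 i fun hh => hi2 hh.1
        rcases hi3 with h4 | h4
        · rw [h4]; exact hu
        · rw [h4]; exact neg_mem hu
    · by_contra hcon
      have : e ∈ B.filter (fun e => v e ∉ span ℚ {((p : V), (0 : ℚ)), (q, 0)}) :=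
        Finset.mem_filter.2 ⟨Finset.mem_filter.2 ⟨he, hPe⟩, hcon⟩
      rw [← hDeq] at this
      exact (Finset.mem_filter.1 this).2 hsnd

end aux

theorem nb1_cographic (hC : Cls DecC) {V E W : Type} [AddCommGroup V] [Module ℚ V] [Fintype E]
    [Fintype W] (u : E → V) (hd tl : E → W)
    (dep : ∀ a : E → ℚ, ∑ e, a e • u e = 0 ↔ ∃ π : W → ℚ, ∀ e, a e = π (hd e) - π (tl e)) :
    NB1 (Set.range u) := by
  intro p q li hD
  obtain ⟨u', hd', tl', X, e1, e2, e3, hs, h⟩ := cog_cut u hd tl dep li hD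
  refine nb0_dom (sc1_main hC h) ?_
  refine dom_union (dom_union_left _ (dom_inl ?_)) (dom_union_right _ (dom_refl _))
  rintro _ ⟨e, rfl⟩
  rcases hs e with h1 | h1
  · exact Or.inr (Or.inl ⟨e, h1⟩)
  · exact Or.inr (Or.inr ⟨e, h1⟩)

end RC.Str

end

section

/-!
Module RC-P10.  The set `R10`.

`nb0_r10`: let `v, E` be a bad system dominated by `Y`.  For `e ∈ E`: `v e ≠ 0`, so
`φ (v e) = R10 (j e)` or `φ (v e) = - R10 (j e)` for some `j e : Fin 10`.  `j` is injective on `E`: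
if `j e = j e'` then `φ (v e) = ± φ (v e')`, so `v e = ± v e'` (`φ` is injective on `span Y`), and
`e = e'` by `Bad.par'`.  So `E.card ≤ 10`; `Bad.card`, `Bad.two_le` give `h = 2`, `E.card = 7`,
`rk v E = 3`.  `RC.rank_three` for an enumeration `u : Fin 7 → V` of `v '' E`
(`hpar` = `Bad.par'`, `hX` = `dec_uni` of `hb.sys.cls`) is a contradiction.

`r10_no_triangle`: a finite check with the integer table `r10RZ` (`RC.r10_R10_eq`): for all
`i j k : Fin 10` and signs `s t : {1, -1}` it is not true that `R i + s * R j = t * R k`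
(`decide +kernel` on integers, or use that the first differences are never columns).

`nb1_r10`: `p, q, p + q` are nonzero, so they are mapped to `± R10 i, ± R10 j, ± R10 k`,
contradiction to `r10_no_triangle`.
-/

namespace RC.Str

open Submodule Module

theorem sr10_sign {V : Type} [AddCommGroup V] [Module ℚ V] {Y : Set V}
    {φ : V →ₗ[ℚ] (Fin 5 → ℚ)} (col : ∀ x ∈ Y, ∃ j, φ x = R10 j) {x : V} (hx0 : x ≠ 0)
    (hx : x = 0 ∨ x ∈ Y ∨ -x ∈ Y) :
    ∃ (j : Fin 10) (e : ℚ), (e = 1 ∨ e = -1) ∧ φ x = e • R10 j := by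
  rcases hx with hx | hx | hx
  · exact absurd hx hx0
  · obtain ⟨j, hj⟩ := col x hx
    exact ⟨j, 1, Or.inl rfl, by rw [hj, one_smul]⟩
  · obtain ⟨j, hj⟩ := col _ hx
    refine ⟨j, -1, Or.inr rfl, ?_⟩
    rw [← hj, map_neg, neg_smul, one_smul, neg_neg]

theorem sr10_a : ∀ i j k : Fin 10, ∃ l : Fin 5, r10RZ i l + r10RZ j l ≠ r10RZ k l := by
  decide +kernel

theorem sr10_b : ∀ i j k : Fin 10, ∃ l : Fin 5, r10RZ i l + r10RZ j l ≠ - r10RZ k l := by
  decide +kernel

theorem sr10_c : ∀ i j k : Fin 10, ∃ l : Fin 5, r10RZ i l - r10RZ j l ≠ r10RZ k l := by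
  decide +kernel

theorem sr10_d : ∀ i j k : Fin 10, ∃ l : Fin 5, r10RZ i l - r10RZ j l ≠ - r10RZ k l := by
  decide +kernel

theorem nb0_r10 {V : Type} [AddCommGroup V] [Module ℚ V] (Y : Set V) (φ : V →ₗ[ℚ] (Fin 5 → ℚ))
    (inj : ∀ y ∈ span ℚ Y, φ y = 0 → y = 0) (col : ∀ x ∈ Y, ∃ j, φ x = R10 j) : NB0 Y := by
  classical
  intro m ι κ v c E e0 hb hd
  have hE : ∀ e : ι, e ∈ E → v e = 0 ∨ v e ∈ Y ∨ -v e ∈ Y := fun e he =>
    hd (v e) ⟨e, Finset.mem_coe.2 he, rfl⟩
  have hsg : ∀ e : E, ∃ (j : Fin 10) (s : ℚ), (s = 1 ∨ s = -1) ∧ φ (v e) = s • R10 j := fun e =>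
    sr10_sign col (hb.sys.ne e e.2) (hE e e.2)
  choose j s hs hφ using hsg
  have hspan : ∀ e : E, v e ∈ span ℚ Y := by
    intro e
    rcases hE e e.2 with h0 | h0 | h0
    · rw [h0]; exact zero_mem _
    · exact subset_span h0
    · have := neg_mem (subset_span h0 : -v e ∈ span ℚ Y)
      rwa [neg_neg] at this
  have hinj : Function.Injective j := by
    intro e e' hee
    by_contra hne
    have hne' : (e : ι) ≠ e' := fun h => hne (Subtype.ext h)
    have hli := hb.par' e.2 e'.2 hne'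
    have h1 : s e' • v e - s e • v e' = 0 := by
      apply inj _ (sub_mem (Submodule.smul_mem _ _ (hspan e)) (Submodule.smul_mem _ _ (hspan e')))
      rw [map_sub, map_smul, map_smul, hφ, hφ, hee, smul_smul, smul_smul, mul_comm, sub_self]
    have h2 : s e' • v e + (-s e) • v e' = 0 := by
      rw [neg_smul, ← sub_eq_add_neg]; exact h1
    have h3 := (LinearIndependent.pair_iff.1 hli _ _ h2).1
    rcases hs e' with h4 | h4 <;> rw [h4] at h3 <;> norm_num at h3
  have hcard : E.card ≤ 10 := by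
    have := Fintype.card_le_of_injective j hinj
    rwa [Fintype.card_coe, Fintype.card_fin] at this
  have h1 := hb.card
  have h2 := hb.two_le
  have h3 := hb.rank
  have hm : m = 2 := by omega
  subst hm
  have h7 : E.card = 7 := by omega
  let f : Fin 7 ≃ E := (Finset.equivFinOfCardEq h7).symm
  have hrange : Set.range (fun i : Fin 7 => v (f i)) = v '' (E : Set ι) := by
    ext x
    constructor
    · rintro ⟨i, rfl⟩
      exact ⟨f i, Finset.mem_coe.2 (f i).2, rfl⟩
    · rintro ⟨e, he, rfl⟩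
      refine ⟨f.symm ⟨e, Finset.mem_coe.1 he⟩, ?_⟩
      simp
  refine rank_three (uni_r10 Y φ inj col) (fun i : Fin 7 => ((if v (f i) ∈ Y then (1 : ℚ) else -1) • v (f i)))
    ?_ ?_ ?_
  · intro i
    split_ifs with h4
    · rw [one_smul]; exact h4
    · rcases hE _ (f i).2 with h5 | h5 | h5
      · exact absurd h5 (hb.sys.ne _ (f i).2)
      · exact absurd h5 h4
      · rw [neg_smul, one_smul]; exact h5
  · intro i i' hii
    have hne' : ((f i : E) : ι) ≠ f i' := fun h => hii (f.injective (Subtype.ext h))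
    have hli := hb.par' (f i).2 (f i').2 hne'
    rw [LinearIndependent.pair_iff] at hli ⊢
    intro a b hab
    rw [smul_smul, smul_smul] at hab
    have h4 := hli _ _ hab
    constructor
    · have h5 := h4.1
      split_ifs at h5
      · simpa using h5
      · simpa using h5
    · have h5 := h4.2
      split_ifs at h5
      · simpa using h5
      · simpa using h5
  · have hf : FiniteDimensional ℚ (span ℚ (v '' (E : Set ι))) :=
      FiniteDimensional.span_of_finite ℚ ((Finset.finite_toSet E).image v)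
    have hle : span ℚ (Set.range (fun i : Fin 7 =>
        ((if v (f i) ∈ Y then (1 : ℚ) else -1) • v (f i)))) ≤ span ℚ (v '' (E : Set ι)) := by
      rw [span_le]
      rintro _ ⟨i, rfl⟩
      exact Submodule.smul_mem _ _ (subset_span ⟨f i, Finset.mem_coe.2 (f i).2, rfl⟩)
    have h4 := LinearMap.finrank_le_finrank_of_injective (Submodule.inclusion_injective hle)
    unfold rk at h3
    omega

theorem r10_no_triangle (i j k : Fin 10) (s t : ℚ) (hs : s = 1 ∨ s = -1) (ht : t = 1 ∨ t = -1) :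
    R10 i + s • R10 j ≠ t • R10 k := by
  intro h
  have hl : ∀ l : Fin 5, (r10RZ i l : ℚ) + s * (r10RZ j l : ℚ) = t * (r10RZ k l : ℚ) := by
    intro l
    have h1 := congrFun h l
    rw [Pi.add_apply, Pi.smul_apply, Pi.smul_apply, smul_eq_mul, smul_eq_mul, r10_R10_eq,
      r10_R10_eq, r10_R10_eq] at h1
    exact h1
  rcases hs with rfl | rfl <;> rcases ht with rfl | rfl
  · obtain ⟨l, hl'⟩ := sr10_a i j k
    apply hl'
    have h1 := hl l
    rw [one_mul, one_mul] at h1
    exact_mod_cast h1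
  · obtain ⟨l, hl'⟩ := sr10_b i j k
    apply hl'
    have h1 := hl l
    rw [one_mul, neg_one_mul] at h1
    exact_mod_cast h1
  · obtain ⟨l, hl'⟩ := sr10_c i j k
    apply hl'
    have h1 := hl l
    rw [one_mul, neg_one_mul, ← sub_eq_add_neg] at h1
    exact_mod_cast h1
  · obtain ⟨l, hl'⟩ := sr10_d i j k
    apply hl'
    have h1 := hl l
    rw [neg_one_mul, neg_one_mul, ← sub_eq_add_neg] at h1
    exact_mod_cast h1

theorem nb1_r10 {V : Type} [AddCommGroup V] [Module ℚ V] (Y : Set V) (φ : V →ₗ[ℚ] (Fin 5 → ℚ))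
    (inj : ∀ y ∈ span ℚ Y, φ y = 0 → y = 0) (col : ∀ x ∈ Y, ∃ j, φ x = R10 j) : NB1 Y := by
  intro p q li hd
  exfalso
  have hp0 : p ≠ 0 := by
    have := li.ne_zero 0
    simpa using this
  have hq0 : q ≠ 0 := by
    have := li.ne_zero 1
    simpa using this
  have hpq0 : p + q ≠ 0 := by
    intro h
    have h1 := (LinearIndependent.pair_iff.1 li 1 1 (by rw [one_smul, one_smul]; exact h)).1
    norm_num at h1
  obtain ⟨i, a, ha, hi⟩ := sr10_sign col hp0 (hd p (by simp))
  obtain ⟨j, b, hb, hj⟩ := sr10_sign col hq0 (hd q (by simp))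
  obtain ⟨k, c, hc, hk⟩ := sr10_sign col hpq0 (hd (p + q) (by simp))
  have h1 : a • R10 i + b • R10 j = c • R10 k := by rw [← hi, ← hj, ← hk, map_add]
  have haa : a * a = 1 := by rcases ha with rfl | rfl <;> norm_num
  have h2 : R10 i + (a * b) • R10 j = (a * c) • R10 k := by
    have h3 := congrArg (fun x => a • x) h1
    simp only [smul_add, smul_smul, haa, one_smul] at h3
    exact h3
  refine r10_no_triangle i j k (a * b) (a * c) ?_ ?_ h2
  · rcases ha with rfl | rfl <;> rcases hb with rfl | rfl <;> norm_num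
  · rcases ha with rfl | rfl <;> rcases hc with rfl | rfl <;> norm_num

end RC.Str

end

section

/-!
Module RC-P11.  `NB0` and `NB1` under injective linear maps.

`nb0_emb`: let `v, E` be a bad system dominated by `X`.  `span (v '' E) ≤ span X` (`dom_span`), so
`f` is injective on it; by `bad_map` `f ∘ v` is a bad system, and it is dominated by `Y`
(`dom_image`, `dom_trans` with `sub`).

`nb1_emb`: let `p, q` be independent, `{p, q, p + q}` dominated by `X`.  `p, q ∈ span X`, so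
`f p, f q` are independent (`s • f p + t • f q = f (s • p + t • q) = 0` implies
`s • p + t • q = 0`), and `{f p, f q, f p + f q}` is dominated by `Y`.  `NB0` for
`inl '' X ∪ clawSet p q` follows from `NB0` of `inl '' Y ∪ clawSet (f p) (f q)` by `nb0_emb` for the
map `F (y, t) = (f y, t)` (`LinearMap.prodMap f LinearMap.id`), which is injective on the span by
`fst_mem_span`.

`nb0_inl`, `nb1_inl`: `nb0_emb`, `nb1_emb` for `LinearMap.fst` and `X = inl '' Y`
(`inl_mem_span`).
-/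

namespace RC.Str

open Submodule Module

variable {V V' : Type} [AddCommGroup V] [Module ℚ V] [AddCommGroup V'] [Module ℚ V']

theorem nb0_emb (hC : Cls DecC) {X : Set V} {Y : Set V'} (f : V →ₗ[ℚ] V')
    (inj : ∀ y ∈ span ℚ X, f y = 0 → y = 0) (sub : Dom (f '' X) Y) (hY : NB0 Y) : NB0 X := by
  intro m ι κ v c E e0 hb hd
  have inj' : ∀ y ∈ span ℚ (v '' (E : Set ι)), f y = 0 → y = 0 := fun y hy h0 =>
    inj y (dom_span hd hy) h0
  refine hY m ι κ (fun e => f (v e)) c E e0 (bad_map hC f hb inj') ?_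
  have himg : (fun e => f (v e)) '' (E : Set ι) = f '' (v '' (E : Set ι)) := by
    rw [Set.image_image]
  rw [himg]
  exact dom_trans (dom_image f hd) sub

theorem nb1_emb (hC : Cls DecC) {X : Set V} {Y : Set V'} (f : V →ₗ[ℚ] V')
    (inj : ∀ y ∈ span ℚ X, f y = 0 → y = 0) (sub : Dom (f '' X) Y) (hY : NB1 Y) : NB1 X := by
  intro p q li hd
  have hp : p ∈ span ℚ X := dom_span hd (subset_span (by simp))
  have hq : q ∈ span ℚ X := dom_span hd (subset_span (by simp))
  have li' : LinearIndependent ℚ ![f p, f q] := by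
    rw [LinearIndependent.pair_iff] at li ⊢
    intro s t hst
    apply li s t
    apply inj _ (add_mem (Submodule.smul_mem _ _ hp) (Submodule.smul_mem _ _ hq))
    rw [map_add, map_smul, map_smul]
    exact hst
  have hd' : Dom {f p, f q, f p + f q} Y := by
    have h1 := dom_trans (dom_image f hd) sub
    have h2 : f '' {p, q, p + q} = {f p, f q, f p + f q} := by
      simp [Set.image_insert_eq, Set.image_singleton, map_add]
    rwa [h2] at h1
  refine nb0_emb hC (LinearMap.prodMap f (LinearMap.id : ℚ →ₗ[ℚ] ℚ)) ?_ ?_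
    (hY (f p) (f q) li' hd')
  · intro y hy h0
    have h1 := fst_mem_span hp hq hy
    have h2 : f y.1 = 0 := by simpa using congrArg Prod.fst h0
    have h3 : y.2 = 0 := by simpa using congrArg Prod.snd h0
    exact Prod.ext (inj _ h1 h2) h3
  · rw [Set.image_union]
    refine dom_union (dom_union_left _ ?_) (dom_union_right _ ?_)
    · have h1 : (LinearMap.prodMap f (LinearMap.id : ℚ →ₗ[ℚ] ℚ)) ''
          ((fun x : V => (x, (0 : ℚ))) '' X) = (fun x : V' => (x, (0 : ℚ))) '' (f '' X) := by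
        rw [Set.image_image, Set.image_image]
        rfl
      rw [h1]
      exact dom_inl sub
    · have h1 : (LinearMap.prodMap f (LinearMap.id : ℚ →ₗ[ℚ] ℚ)) '' (clawSet p q) =
          clawSet (f p) (f q) := by
        simp [clawSet, Set.image_insert_eq, Set.image_singleton]
      rw [h1]
      exact dom_refl _

end RC.Str

end

section

/-!
Module RC-P12.  Sums, `NB0`.

`line_dom`: let `Y` be unimodular with `p, q, p + q ∈ Y`, `p, q` independent or `q = 0`, and
`x ∈ Y` with `x ∈ span {p, q}`.  Then `{x}` is dominated by `{p, q, p + q}`: `uni_plane` in the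
first case; for `q = 0`: `x ∈ span {p}`; if `x ≠ 0` then `p ≠ 0` and `uni_par` gives `x = ± p`.

`sum_half`: let `v, E` be a bad system with `E = EA ∪ EB` (disjoint), `v '' EA` dominated by `A`,
`v '' EB` dominated by `B`, and at most three elements of `EB` outside `L = span {p, q}`.
Apply `small_claw` for `EA`, `EB` (`hsp` by monotonicity from `hsp`: `span (v '' EA ∪ {p, q}) ≤
span (A ∪ {p, q})` and the same for `B`, `dom_span`; the class of `v '' EB ∪ {p, q, p + q}` by
`dec_dom` from `hB`).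
* No element of `EB` is outside `L`: by `line_dom` (in `B ∪ {p, q, p + q}`, `Uni` by `dec_uni`)
  `v '' E` is dominated by `A ∪ {p, q, p + q}`; contradiction to `n0`.
* Otherwise `p, q` are independent and there is `Φ`.  By `bad_map` `Φ ∘ v` is a bad system; it is
  dominated by `inl '' (A ∪ {p, q, p + q}) ∪ clawSet p q`: for `e ∈ EA`, `Φ (v e) = (v e, 0)`; for
  `e ∈ EB` inside `L`, `Φ (v e) = (v e, 0)` and `line_dom`; for `e ∈ EB` outside `L`, `Φ (v e)` is in
  `± clawSet p q`.  Contradiction to `n1`.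

`nb0_sum`: let `v, E` be a bad system dominated by `A ∪ B`; `EA` = the set of `e ∈ E` with
`v e ∈ A` or `- v e ∈ A`, `EB = E \ EA` (`v e ≠ 0`).  `sep_gen` and `sum_half` for `A, B` or with
`A` and `B` exchanged (`Set.union_comm`, `inf_comm`).
-/

namespace RC.Str

open Submodule Module

variable {V : Type} [AddCommGroup V] [Module ℚ V]

theorem line_dom {Y : Set V} (hY : Uni Y) {p q x : V} (hp : p ∈ Y) (hq : q ∈ Y) (hs : p + q ∈ Y)
    (hpq : LinearIndependent ℚ ![p, q] ∨ q = 0) (hx : x ∈ Y) (hxs : x ∈ span ℚ {p, q}) :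
    Dom {x} {p, q, p + q} := by
  rintro y rfl
  rcases hpq with li | rfl
  · rcases uni_plane hY hp hq hs li hx hxs with h | h | h | h | h | h | h
    · exact Or.inl h
    · exact Or.inr (Or.inl (by simp [h]))
    · exact Or.inr (Or.inr (by simp [h]))
    · exact Or.inr (Or.inl (by simp [h]))
    · exact Or.inr (Or.inr (by simp [h]))
    · exact Or.inr (Or.inl (by simp [h]))
    · refine Or.inr (Or.inr ?_)
      rw [h, neg_neg]
      simp
  · by_cases hy0 : y = 0
    · exact Or.inl hy0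
    · obtain ⟨a, b, hab⟩ := mem_span_pair.1 hxs
      rw [smul_zero, add_zero] at hab
      have hp0 : p ≠ 0 := by
        rintro rfl
        exact hy0 (by rw [← hab, smul_zero])
      have hnl : ¬ LinearIndependent ℚ ![p, y] := by
        rw [LinearIndependent.pair_iff' hp0]
        push Not
        exact ⟨a, hab⟩
      rcases uni_par hY hp hx hp0 hy0 hnl with h | h
      · exact Or.inr (Or.inl (by simp [h]))
      · refine Or.inr (Or.inr ?_)
        rw [h, neg_neg]
        simp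

private theorem sp_mono {A B A' B' : Set V} {p q : V} (dA : Dom A' A) (dB : Dom B' B)
    (hsp : span ℚ (A ∪ {p, q}) ⊓ span ℚ (B ∪ {p, q}) = span ℚ {p, q}) :
    span ℚ (A' ∪ {p, q}) ⊓ span ℚ (B' ∪ {p, q}) = span ℚ {p, q} := by
  apply le_antisymm
  · refine le_trans (inf_le_inf ?_ ?_) hsp.le
    · exact dom_span (dom_union (dom_union_left _ dA) (dom_union_right _ (dom_refl _)))
    · exact dom_span (dom_union (dom_union_left _ dB) (dom_union_right _ (dom_refl _)))
  · exact le_inf (span_mono Set.subset_union_right) (span_mono Set.subset_union_right)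

private theorem dec_side {B B' : Set V} {p q : V} (hB : Dec V (B ∪ {p, q, p + q}))
    (dB : Dom B' B) : Dec V (B' ∪ {p, q, p + q}) :=
  dec_dom hB (dom_union (dom_union_left _ dB) (dom_union_right _ (dom_refl _)))

open Classical in
theorem sum_half (hC : Cls DecC) {A B : Set V} {p q : V}
    (hpq : LinearIndependent ℚ ![p, q] ∨ q = 0)
    (hsp : span ℚ (A ∪ {p, q}) ⊓ span ℚ (B ∪ {p, q}) = span ℚ {p, q})
    (hB : Dec V (B ∪ {p, q, p + q})) (n0 : NB0 (A ∪ {p, q, p + q}))
    (n1 : NB1 (A ∪ {p, q, p + q})) {h : ℕ} {ι κ : Type} {v : ι → V} {c : ι → κ} {E : Finset ι}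
    {e0 : ι} (hb : Bad DecC h v c E e0) (EA EB : Finset ι) (hE : EA ∪ EB = E)
    (hd : Disjoint EA EB) (dA : Dom (v '' (EA : Set ι)) A) (dB : Dom (v '' (EB : Set ι)) B)
    (h3 : (EB.filter (fun e => v e ∉ span ℚ {p, q})).card ≤ 3) : False := by
  have hsp' := sp_mono dA dB hsp
  have hB' := dec_side hB dB
  have hU : Uni (v '' (EB : Set ι) ∪ {p, q, p + q}) := dec_uni hB'
  have hline : ∀ e ∈ EB, v e ∈ span ℚ {p, q} → Dom {v e} (A ∪ {p, q, p + q}) := by
    intro e he hes
    refine dom_trans (line_dom hU (Or.inr (by simp)) (Or.inr (by simp)) (Or.inr (by simp)) hpq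
      (Or.inl ⟨e, he, rfl⟩) hes) (dom_of_subset Set.subset_union_right)
  have hall : ∀ e ∈ E, e ∉ EB.filter (fun e => v e ∉ span ℚ {p, q}) →
      Dom {v e} (A ∪ {p, q, p + q}) := by
    intro e he hne
    rw [← hE, Finset.mem_union] at he
    by_cases hB1 : e ∈ EB
    · refine hline e hB1 ?_
      by_contra hcon
      exact hne (Finset.mem_filter.2 ⟨hB1, hcon⟩)
    · have hA1 : e ∈ EA := he.resolve_right hB1
      refine dom_union_left _ (dom_trans (dom_of_subset ?_) dA)
      rintro _ rfl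
      exact ⟨e, hA1, rfl⟩
  rcases small_claw hC hb EA EB hE hd p q hpq hsp' hB' h3 with h | ⟨li, -, -, -, Φ, hΦ, h1, h2⟩
  · refine n0 _ ι κ v c E e0 hb ?_
    rintro _ ⟨e, he, rfl⟩
    exact hall e he (by rw [h]; exact Finset.notMem_empty e) (v e) rfl
  · have hb' := bad_map hC Φ hb (fun y _ hy => hΦ y hy)
    refine n1 p q li (dom_of_subset Set.subset_union_right) _ ι κ _ c E e0 hb' ?_
    rintro _ ⟨e, he, rfl⟩
    by_cases hf : e ∈ EB.filter (fun e => v e ∉ span ℚ {p, q})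
    · rcases h2 e hf with h | h
      · exact Or.inr (Or.inl (Or.inr h))
      · exact Or.inr (Or.inr (Or.inr h))
    · have h5 := dom_union_left (clawSet p q) (dom_inl (hall e he hf))
      refine h5 _ ?_
      rw [Set.image_singleton]
      exact h1 e he hf

theorem nb0_sum (hC : Cls DecC) {A B : Set V} {p q : V}
    (hpq : LinearIndependent ℚ ![p, q] ∨ q = 0)
    (hsp : span ℚ (A ∪ {p, q}) ⊓ span ℚ (B ∪ {p, q}) = span ℚ {p, q})
    (hA : Dec V (A ∪ {p, q, p + q})) (hB : Dec V (B ∪ {p, q, p + q}))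
    (a0 : NB0 (A ∪ {p, q, p + q})) (a1 : NB1 (A ∪ {p, q, p + q}))
    (b0 : NB0 (B ∪ {p, q, p + q})) (b1 : NB1 (B ∪ {p, q, p + q})) : NB0 (A ∪ B) := by
  classical
  intro m ι κ v c E e0 hb hdom
  set EA := E.filter (fun e => v e ∈ A ∨ -v e ∈ A) with hEA
  set EB := E.filter (fun e => ¬ (v e ∈ A ∨ -v e ∈ A)) with hEB
  have hE : EA ∪ EB = E := Finset.filter_union_filter_not_eq _ _
  have hd : Disjoint EA EB := Finset.disjoint_filter_filter_not _ _ _
  have dA : Dom (v '' (EA : Set ι)) A := by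
    rintro _ ⟨e, he, rfl⟩
    rw [Finset.mem_coe, hEA, Finset.mem_filter] at he
    exact Or.inr he.2
  have dB : Dom (v '' (EB : Set ι)) B := by
    rintro _ ⟨e, he, rfl⟩
    rw [Finset.mem_coe, hEB, Finset.mem_filter] at he
    rcases hdom (v e) ⟨e, he.1, rfl⟩ with h | (h | h) | (h | h)
    · exact Or.inl h
    · exact absurd (Or.inl h) he.2
    · exact Or.inr (Or.inl h)
    · exact absurd (Or.inr h) he.2
    · exact Or.inr (Or.inr h)
  rcases sep_gen hC hb EA EB hE hd p q hpq (sp_mono dA dB hsp) (dec_side hA dA)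
    (dec_side hB dB) with h | h
  · exact sum_half hC hpq (by rw [inf_comm]; exact hsp) hA b0 b1 hb EB EA
      (by rw [Finset.union_comm]; exact hE) hd.symm dB dA h
  · exact sum_half hC hpq hsp hB a0 a1 hb EA EB hE hd dA dB h

end RC.Str

end

section

/-!
Module RC-P13.  Sums, `NB1`.  `Δ = {p, q, p + q}`, `inl x = (x, 0)`, `p' = (p, 0)`, `q' = (q, 0)`,
`L = span {p', q'}`.

`sum1_half`: assume that the triangle `{p1, q1, p1 + q1}` is dominated by `A ∪ Δ`.  Let `v, E` be a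
bad system in `V × ℚ` dominated by `inl '' (A ∪ B) ∪ clawSet p1 q1`.
`claw_card`, `claw_empty` (with `nb0_sum`): we may assume `(v e0).2 ≠ 0` and that
`D = E.filter ((v e).2 ≠ 0)` has three elements.
Let `A' = inl '' A ∪ clawSet p1 q1`, `B' = inl '' B`, `EA` = the set of `e ∈ E` with `v e ∈ ± A'`,
`EB = E \ EA`, so `v '' EA` is dominated by `A'`, `v '' EB` by `B'`, and `D ⊆ EA`, `e0 ∈ EA`.
(1) `span (A' ∪ {p', q'}) ⊓ span (B' ∪ {p', q'}) = L`: an element `y` of the intersection has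
    `y.2 = 0` and `y.1 ∈ span (B ∪ {p, q})` by the second part; by the first part
    `y.1 ∈ span (A ∪ {p, q})`, because `p1, q1 ∈ span (A ∪ Δ) = span (A ∪ {p, q})`; use `hsp`.
    (`p', q'` independent or `q' = 0`, from `hpq`.)
(2) `A' ∪ {p', q', p' + q'}` is in `DecC`: `hC.claw` for `A ∪ Δ ∪ {p1, q1, p1 + q1}` (`dec_dom`
    from `hA`).  `B' ∪ {p', q', p' + q'}` is in `DecC`: `hC.map` for `LinearMap.inl`.
(3) `sep_gen` for `EA, EB, p', q'` (subsets: `dom_span`, `dec_dom`).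
(3a) At most three elements of `EB` are outside `L`: by `small_claw` (small side `EB`), as
    `e0 ∉ EB`, none is.  By `line_dom` (in `B' ∪ {p', q', p' + q'}`) `v '' E` is dominated by
    `A' ∪ {p', q', p' + q'}`, that is by `inl '' (A ∪ Δ) ∪ clawSet p1 q1`; contradiction to `a1`
    for the triangle `p1, q1`.
(3b) At most three elements of `EA` are outside `L`: `D` is contained in this set and has three
    elements, so it is this set; so `(v e).2 = 0` for `e ∈ E \ D`.  `small_claw` with small side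
    `EA` (not empty): `p', q'` are independent (so `p, q` are), and there is
    `Φ : V × ℚ → (V × ℚ) × ℚ`.  `Φ ∘ v` is a bad system (`bad_map`).  Let
    `g ((y, t), s) = (y, s)`.  For `e ∈ E \ D`, `g (Φ (v e)) = ((v e).1, 0)`; for `e ∈ D`
    `Φ (v e)` is in `± clawSet p' q'` and `g (Φ (v e))` in `± clawSet p q`.  `g` is injective on the
    span of the `Φ (v e)`, because all these vectors have the form `((y, 0), s)`.  By `bad_map`
    `g ∘ Φ ∘ v` is a bad system; it is dominated by `inl '' (B ∪ Δ) ∪ clawSet p q`: `e ∈ EB`: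
    `(v e).1 ∈ ± B`; `e ∈ EA`, `e ∉ D`: `v e ∈ L`, so `± v e` is in `{p', q', p' + q'}` by `line_dom`
    in the set of (2).  Contradiction to `b1` for the triangle `p, q`.

`nb1_sum`: let `p1, q1` be independent, `{p1, q1, p1 + q1}` dominated by `A ∪ B`.  Each of the three
vectors is nonzero and in `± A` or in `± B`.  So two of the three are in `± A` or two are in `± B`;
by symmetry (`Set.union_comm`) let two be in `± A`.  Then all three are in `span A`.  If
the third is not in `± A` it is in `± B`, so in `span (A ∪ {p, q}) ⊓ span (B ∪ {p, q})`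
`= span {p, q}`, and by `line_dom` in `B ∪ Δ` it is dominated by `Δ`.  So the triangle is
dominated by `A ∪ Δ`; `sum1_half`.
-/

namespace RC.Str

open Submodule Module

variable {V : Type} [AddCommGroup V] [Module ℚ V]

private theorem tri_span (A : Set V) (p q : V) :
    span ℚ (A ∪ {p, q, p + q}) ≤ span ℚ (A ∪ {p, q}) := by
  have hp : p ∈ span ℚ (A ∪ {p, q}) := subset_span (Or.inr (Or.inl rfl))
  have hq : q ∈ span ℚ (A ∪ {p, q}) := subset_span (Or.inr (Or.inr rfl))
  rw [span_le]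
  rintro x (hx | hx | hx | hx)
  · exact subset_span (Or.inl hx)
  · rw [hx]; exact hp
  · rw [hx]; exact hq
  · rw [hx]; exact add_mem hp hq

private theorem inl_indep {p q : V} (h : LinearIndependent ℚ ![p, q] ∨ q = 0) :
    LinearIndependent ℚ ![((p, 0) : V × ℚ), (q, 0)] ∨ ((q, 0) : V × ℚ) = 0 := by
  rcases h with h | h
  · left
    have := h.map' (LinearMap.inl ℚ V ℚ) (LinearMap.ker_eq_bot.2 LinearMap.inl_injective)
    have he : ![((p, 0) : V × ℚ), (q, 0)] = ⇑(LinearMap.inl ℚ V ℚ) ∘ ![p, q] := by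
      funext i
      fin_cases i <;> rfl
    rw [he]
    exact this
  · right
    rw [h]
    rfl

private theorem snd_of_mem_pair {p q : V} {x : V × ℚ}
    (h : x ∈ span ℚ {((p, 0) : V × ℚ), (q, 0)}) : x.2 = 0 := by
  have hle : span ℚ {((p, 0) : V × ℚ), (q, 0)} ≤ LinearMap.ker (LinearMap.snd ℚ V ℚ) := by
    rw [span_le]
    rintro x (rfl | rfl)
    · rfl
    · rfl
  exact hle h

/-- The span identity of step (1). -/
private theorem sum1_span {A B : Set V} {p q : V}
    (hsp : span ℚ (A ∪ {p, q}) ⊓ span ℚ (B ∪ {p, q}) = span ℚ {p, q}) {p1 q1 : V}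
    (hp1 : p1 ∈ span ℚ (A ∪ {p, q})) (hq1 : q1 ∈ span ℚ (A ∪ {p, q}))
    {X Y : Set (V × ℚ)} (hX : Dom X ((fun x : V => (x, (0 : ℚ))) '' A ∪ clawSet p1 q1))
    (hY : Dom Y ((fun x : V => (x, (0 : ℚ))) '' B)) :
    span ℚ (X ∪ {(p, 0), (q, 0)}) ⊓ span ℚ (Y ∪ {(p, 0), (q, 0)}) =
      span ℚ {((p, 0) : V × ℚ), (q, 0)} := by
  apply le_antisymm
  · rintro y ⟨hy1, hy2⟩
    have h1 : y ∈ span ℚ ((fun x : V => (x, (0 : ℚ))) '' (A ∪ {p, q}) ∪ clawSet p1 q1) := by
      refine dom_span ?_ hy1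
      refine dom_union ?_ ?_
      · refine dom_trans hX (dom_of_subset ?_)
        rintro x (⟨z, hz, rfl⟩ | hx)
        · exact Or.inl ⟨z, Or.inl hz, rfl⟩
        · exact Or.inr hx
      · apply dom_of_subset
        rintro x (rfl | rfl)
        · exact Or.inl ⟨p, Or.inr (Or.inl rfl), rfl⟩
        · exact Or.inl ⟨q, Or.inr (Or.inr rfl), rfl⟩
    have h2 : y ∈ span ℚ ((fun x : V => (x, (0 : ℚ))) '' (B ∪ {p, q})) := by
      refine dom_span ?_ hy2
      refine dom_union ?_ ?_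
      · refine dom_trans hY (dom_of_subset ?_)
        rintro x ⟨z, hz, rfl⟩
        exact ⟨z, Or.inl hz, rfl⟩
      · apply dom_of_subset
        rintro x (rfl | rfl)
        · exact ⟨p, Or.inr (Or.inl rfl), rfl⟩
        · exact ⟨q, Or.inr (Or.inr rfl), rfl⟩
    have h3 := fst_mem_span hp1 hq1 h1
    obtain ⟨h4, h5⟩ := inl_mem_span h2
    have h6 : y.1 ∈ span ℚ {p, q} := by
      rw [← hsp]
      exact ⟨h3, h4⟩
    have h7 := mem_span_inl h6
    have h8 : y = (y.1, (0 : ℚ)) := Prod.ext rfl h5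
    rw [h8]
    have h9 : (fun x : V => (x, (0 : ℚ))) '' {p, q} = {((p, 0) : V × ℚ), (q, 0)} := by
      rw [Set.image_pair]
    rw [← h9]
    exact h7
  · exact le_inf (span_mono Set.subset_union_right) (span_mono Set.subset_union_right)

omit [Module ℚ V] in
private theorem claw_image {p q : V} {w : (V × ℚ) × ℚ}
    (h : w ∈ clawSet ((p, 0) : V × ℚ) (q, 0)) : w.1.2 = 0 ∧ (w.1.1, w.2) ∈ clawSet p q := by
  rcases h with rfl | rfl | rfl
  · exact ⟨rfl, Or.inl rfl⟩
  · exact ⟨rfl, Or.inr (Or.inl rfl)⟩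
  · exact ⟨by simp, Or.inr (Or.inr (by simp))⟩

theorem sum1_half (hC : Cls DecC) {A B : Set V} {p q : V}
    (hpq : LinearIndependent ℚ ![p, q] ∨ q = 0)
    (hsp : span ℚ (A ∪ {p, q}) ⊓ span ℚ (B ∪ {p, q}) = span ℚ {p, q})
    (hA : Dec V (A ∪ {p, q, p + q})) (hB : Dec V (B ∪ {p, q, p + q}))
    (a0 : NB0 (A ∪ {p, q, p + q})) (a1 : NB1 (A ∪ {p, q, p + q}))
    (b0 : NB0 (B ∪ {p, q, p + q})) (b1 : NB1 (B ∪ {p, q, p + q})) {p1 q1 : V}
    (li : LinearIndependent ℚ ![p1, q1]) (hD : Dom {p1, q1, p1 + q1} (A ∪ {p, q, p + q})) :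
    NB0 ((fun x : V => (x, (0 : ℚ))) '' (A ∪ B) ∪ clawSet p1 q1) := by
  classical
  intro h ι κ v c E e0 hb hd
  rcases claw_card hC hb hd with h0 | ⟨h0, h3⟩
  · exact claw_empty hC (nb0_sum hC hpq hsp hA hB a0 a1 b0 b1) hb hd h0
  have hp1 : p1 ∈ span ℚ (A ∪ {p, q}) :=
    tri_span A p q (dom_span hD (subset_span (Or.inl rfl)))
  have hq1 : q1 ∈ span ℚ (A ∪ {p, q}) :=
    tri_span A p q (dom_span hD (subset_span (Or.inr (Or.inl rfl))))
  obtain ⟨A', hA'⟩ : ∃ A' : Set (V × ℚ),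
    A' = (fun x : V => (x, (0 : ℚ))) '' A ∪ clawSet p1 q1 := ⟨_, rfl⟩
  obtain ⟨B', hB'⟩ : ∃ B' : Set (V × ℚ), B' = (fun x : V => (x, (0 : ℚ))) '' B := ⟨_, rfl⟩
  obtain ⟨P, hP⟩ : ∃ P : V × ℚ, P = (p, 0) := ⟨_, rfl⟩
  obtain ⟨Q, hQ⟩ : ∃ Q : V × ℚ, Q = (q, 0) := ⟨_, rfl⟩
  have hPQs : P + Q = (p + q, (0 : ℚ)) := by rw [hP, hQ]; simp
  -- every element is in `± A'` or in `± B'`
  have hcase : ∀ e ∈ E, (v e ∈ A' ∨ -v e ∈ A') ∨ (v e ∈ B' ∨ -v e ∈ B') := by
    have hsub : (fun x : V => (x, (0 : ℚ))) '' (A ∪ B) ∪ clawSet p1 q1 ⊆ A' ∪ B' := by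
      rintro x (⟨z, hz | hz, rfl⟩ | hx)
      · left; rw [hA']; exact Or.inl ⟨z, hz, rfl⟩
      · right; rw [hB']; exact ⟨z, hz, rfl⟩
      · left; rw [hA']; exact Or.inr hx
    intro e he
    rcases hd (v e) ⟨e, he, rfl⟩ with h1 | h1 | h1
    · exact absurd h1 (hb.sys.ne e he)
    · rcases hsub h1 with h2 | h2
      · exact Or.inl (Or.inl h2)
      · exact Or.inr (Or.inl h2)
    · rcases hsub h1 with h2 | h2
      · exact Or.inl (Or.inr h2)
      · exact Or.inr (Or.inr h2)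
  have hB0 : ∀ x ∈ B', x.2 = 0 := by
    rw [hB']
    rintro _ ⟨z, hz, rfl⟩
    rfl
  obtain ⟨EA, hEA⟩ : ∃ EA : Finset ι, EA = E.filter (fun e => v e ∈ A' ∨ -v e ∈ A') := ⟨_, rfl⟩
  obtain ⟨EB, hEB⟩ : ∃ EB : Finset ι, EB = E.filter (fun e => ¬ (v e ∈ A' ∨ -v e ∈ A')) :=
    ⟨_, rfl⟩
  have hE : EA ∪ EB = E := by
    rw [hEA, hEB]
    exact Finset.filter_union_filter_not_eq _ E
  have hdis : Disjoint EA EB := by
    rw [hEA, hEB]
    exact Finset.disjoint_filter_filter_not _ _ _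
  have memA : ∀ e, e ∈ EA ↔ e ∈ E ∧ (v e ∈ A' ∨ -v e ∈ A') := by
    intro e; rw [hEA, Finset.mem_filter]
  have memB : ∀ e ∈ EB, e ∈ E ∧ (v e ∈ B' ∨ -v e ∈ B') := by
    intro e he
    rw [hEB, Finset.mem_filter] at he
    exact ⟨he.1, (hcase e he.1).resolve_left he.2⟩
  have snd_mem : ∀ e ∈ E, (v e).2 ≠ 0 → e ∈ EA := by
    intro e he hne
    rcases hcase e he with h1 | h1 | h1
    · exact (memA e).2 ⟨he, h1⟩
    · exact absurd (hB0 _ h1) hne
    · have := hB0 _ h1
      rw [Prod.snd_neg, neg_eq_zero] at this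
      exact absurd this hne
  have e0A : e0 ∈ EA := snd_mem e0 hb.mem0 h0
  have e0B : e0 ∉ EB := fun h1 => Finset.disjoint_left.1 hdis e0A h1
  have dA : Dom (v '' (EA : Set ι)) A' := by
    rintro _ ⟨e, he, rfl⟩
    exact Or.inr ((memA e).1 he).2
  have dB : Dom (v '' (EB : Set ι)) B' := by
    rintro _ ⟨e, he, rfl⟩
    exact Or.inr (memB e he).2
  -- (1)
  have hspan : span ℚ (v '' (EA : Set ι) ∪ {P, Q}) ⊓ span ℚ (v '' (EB : Set ι) ∪ {P, Q}) =
      span ℚ {P, Q} := by
    rw [hP, hQ]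
    rw [hA'] at dA
    rw [hB'] at dB
    exact sum1_span hsp hp1 hq1 dA dB
  have hPQ : LinearIndependent ℚ ![P, Q] ∨ Q = 0 := by
    rw [hP, hQ]
    exact inl_indep hpq
  -- (2)
  have hDA : DecC (V × ℚ) (A' ∪ {P, Q, P + Q}) := by
    have h1 : Dec V (A ∪ {p, q, p + q} ∪ {p1, q1, p1 + q1}) :=
      dec_dom hA (dom_union (dom_refl _) hD)
    have h2 := hC.claw h1 (Or.inr (Or.inl rfl)) (Or.inr (Or.inr (Or.inl rfl)))
      (Or.inr (Or.inr (Or.inr rfl))) li
    refine dec_dom h2 (dom_of_subset ?_)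
    rw [hPQs, hP, hQ, hA']
    rintro x ((⟨z, hz, rfl⟩ | hx) | (rfl | rfl | rfl))
    · exact Or.inl ⟨z, Or.inl (Or.inl hz), rfl⟩
    · exact Or.inr hx
    · exact Or.inl ⟨p, Or.inl (Or.inr (Or.inl rfl)), rfl⟩
    · exact Or.inl ⟨q, Or.inl (Or.inr (Or.inr (Or.inl rfl))), rfl⟩
    · exact Or.inl ⟨p + q, Or.inl (Or.inr (Or.inr (Or.inr rfl))), rfl⟩
  have hDB : DecC (V × ℚ) (B' ∪ {P, Q, P + Q}) := by
    have h2 := hC.map (LinearMap.inl ℚ V ℚ) hB
      (fun y _ hy => (LinearMap.inl_injective (R := ℚ) (M := V) (M₂ := ℚ)) (by rw [hy, map_zero]))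
    refine dec_dom h2 (dom_of_subset ?_)
    rw [hPQs, hP, hQ, hB']
    rintro x (⟨z, hz, rfl⟩ | (rfl | rfl | rfl))
    · exact ⟨z, Or.inl hz, rfl⟩
    · exact ⟨p, Or.inr (Or.inl rfl), rfl⟩
    · exact ⟨q, Or.inr (Or.inr (Or.inl rfl)), rfl⟩
    · exact ⟨p + q, Or.inr (Or.inr (Or.inr rfl)), rfl⟩
  have hDA' : DecC (V × ℚ) (v '' (EA : Set ι) ∪ {P, Q, P + Q}) :=
    dec_dom hDA (dom_union (dom_union_left _ dA) (dom_union_right _ (dom_refl _)))
  have hDB' : DecC (V × ℚ) (v '' (EB : Set ι) ∪ {P, Q, P + Q}) :=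
    dec_dom hDB (dom_union (dom_union_left _ dB) (dom_union_right _ (dom_refl _)))
  -- vectors in the plane
  have hline : ∀ (Y : Set (V × ℚ)), DecC (V × ℚ) (Y ∪ {P, Q, P + Q}) → ∀ x : V × ℚ,
      (x ∈ Y ∨ -x ∈ Y) → x ∈ span ℚ {P, Q} → Dom {x} {P, Q, P + Q} := by
    intro Y hY x hx hxs
    have hun := hC.uni hY
    rcases hx with hx | hx
    · exact line_dom hun (Or.inr (Or.inl rfl)) (Or.inr (Or.inr (Or.inl rfl)))
        (Or.inr (Or.inr (Or.inr rfl))) hPQ (Or.inl hx) hxs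
    · have h1 := line_dom hun (Or.inr (Or.inl rfl)) (Or.inr (Or.inr (Or.inl rfl)))
        (Or.inr (Or.inr (Or.inr rfl))) hPQ (Or.inl hx) (neg_mem hxs)
      rintro _ rfl
      rcases h1 _ rfl with h2 | h2 | h2
      · exact Or.inl (neg_eq_zero.1 h2)
      · exact Or.inr (Or.inr h2)
      · exact Or.inr (Or.inl (by rwa [neg_neg] at h2))
  rcases sep_gen hC hb EA EB hE hdis P Q hPQ hspan hDA' hDB' with h4 | h4
  · -- (3b)
    have hsub : E.filter (fun e => (v e).2 ≠ 0) ⊆ EA.filter (fun e => v e ∉ span ℚ {P, Q}) := by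
      intro e he
      rw [Finset.mem_filter] at he ⊢
      refine ⟨snd_mem e he.1 he.2, fun hs => he.2 ?_⟩
      rw [hP, hQ] at hs
      exact snd_of_mem_pair hs
    have heq := Finset.eq_of_subset_of_card_le hsub (by rw [h3]; exact h4)
    have hmem : ∀ e, e ∈ EA.filter (fun e => v e ∉ span ℚ {P, Q}) ↔ e ∈ E ∧ (v e).2 ≠ 0 := by
      intro e
      rw [← heq, Finset.mem_filter]
    rcases small_claw hC hb EB EA (by rw [Finset.union_comm]; exact hE) hdis.symm P Q hPQ
      (by rw [inf_comm]; exact hspan) hDA' h4 with h5 | ⟨hli, _, _, _, Φ, hΦ0, hΦ1, hΦ2⟩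
    · rw [← heq] at h5
      rw [h5] at h3
      simp at h3
    · have hlpq : LinearIndependent ℚ ![p, q] := by
        rcases hpq with h6 | h6
        · exact h6
        · exfalso
          have := hli.ne_zero 1
          apply this
          rw [hQ, h6]
          rfl
      obtain ⟨g, hg⟩ : ∃ g : ((V × ℚ) × ℚ) →ₗ[ℚ] (V × ℚ), ∀ w, g w = (w.1.1, w.2) :=
        ⟨(LinearMap.fst ℚ V ℚ).prodMap LinearMap.id, fun w => rfl⟩
      have hz : ∀ y ∈ span ℚ (v '' (E : Set ι)), (Φ y).1.2 = 0 := by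
        have hle : span ℚ (v '' (E : Set ι)) ≤ LinearMap.ker
            ((LinearMap.snd ℚ V ℚ).comp ((LinearMap.fst ℚ (V × ℚ) ℚ).comp Φ)) := by
          rw [span_le]
          rintro _ ⟨e, he, rfl⟩
          change (Φ (v e)).1.2 = 0
          by_cases hs : e ∈ EA.filter (fun e => v e ∉ span ℚ {P, Q})
          · have h6 := hΦ2 e hs
            rw [hP, hQ] at h6
            rcases h6 with h7 | h7
            · exact (claw_image h7).1
            · have := (claw_image h7).1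
              rw [Prod.fst_neg, Prod.snd_neg, neg_eq_zero] at this
              exact this
          · rw [hΦ1 e he hs]
            by_contra h8
            exact hs ((hmem e).2 ⟨he, h8⟩)
        intro y hy
        exact hle hy
      have hbad : Bad DecC h (fun e => (g.comp Φ) (v e)) c E e0 := by
        refine bad_map hC (g.comp Φ) hb ?_
        intro y hy hy0
        rw [LinearMap.comp_apply, hg] at hy0
        apply hΦ0
        have h6 := hz y hy
        have h7 : (Φ y).1.1 = 0 := congrArg Prod.fst hy0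
        have h8 : (Φ y).2 = 0 := congrArg Prod.snd hy0
        exact Prod.ext (Prod.ext h7 h6) h8
      refine b1 p q hlpq (dom_of_subset Set.subset_union_right) h ι κ _ c E e0 hbad ?_
      rintro _ ⟨e, he, rfl⟩
      change (g (Φ (v e)) : V × ℚ) = 0 ∨ g (Φ (v e)) ∈ _ ∨ -g (Φ (v e)) ∈ _
      by_cases hs : e ∈ EA.filter (fun e => v e ∉ span ℚ {P, Q})
      · right
        have h6 := hΦ2 e hs
        rw [hP, hQ] at h6
        rw [← map_neg]
        rcases h6 with h7 | h7
        · left; right; rw [hg]; exact (claw_image h7).2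
        · right; right; rw [hg]; exact (claw_image h7).2
      · have h6 : (v e).2 = 0 := by
          by_contra h8
          exact hs ((hmem e).2 ⟨he, h8⟩)
        rw [hΦ1 e he hs, hg]
        have h7 : ((v e).1, (0 : ℚ)) = v e := Prod.ext rfl h6.symm
        change ((v e).1, (0 : ℚ)) = 0 ∨ ((v e).1, (0 : ℚ)) ∈ _ ∨ -((v e).1, (0 : ℚ)) ∈ _
        rw [h7]
        have h8 : Dom {v e} ((fun x : V => (x, (0 : ℚ))) '' (B ∪ {p, q, p + q})) := by
          have h9 : e ∈ EA ∨ e ∈ EB := by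
            rw [← Finset.mem_union, hE]; exact he
          rcases h9 with h9 | h9
          · have h10 : v e ∈ span ℚ {P, Q} := by
              by_contra h11
              exact hs (Finset.mem_filter.2 ⟨h9, h11⟩)
            refine dom_trans (hline A' hDA (v e) ((memA e).1 h9).2 h10) (dom_of_subset ?_)
            rw [hPQs, hP, hQ]
            rintro x (rfl | rfl | rfl)
            · exact ⟨p, Or.inr (Or.inl rfl), rfl⟩
            · exact ⟨q, Or.inr (Or.inr (Or.inl rfl)), rfl⟩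
            · exact ⟨p + q, Or.inr (Or.inr (Or.inr rfl)), rfl⟩
          · refine dom_trans (Y := B') ?_ (dom_of_subset ?_)
            · rintro _ rfl
              exact Or.inr (memB e h9).2
            · rw [hB']
              rintro _ ⟨z, hz, rfl⟩
              exact ⟨z, Or.inl hz, rfl⟩
        exact dom_union_left _ h8 (v e) rfl
  · -- (3a)
    rcases small_claw hC hb EA EB hE hdis P Q hPQ hspan hDB' h4 with h5 | ⟨_, h5, _⟩
    · refine a1 p1 q1 li hD h ι κ v c E e0 hb ?_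
      have h6 : Dom (v '' (E : Set ι)) (A' ∪ {P, Q, P + Q}) := by
        rintro _ ⟨e, he, rfl⟩
        have h9 : e ∈ EA ∨ e ∈ EB := by
          rw [← Finset.mem_union, hE]; exact he
        rcases h9 with h9 | h9
        · exact dom_union_left _ dA (v e) ⟨e, h9, rfl⟩
        · have h10 : v e ∈ span ℚ {P, Q} := by
            by_contra h11
            have : e ∈ EB.filter (fun e => v e ∉ span ℚ {P, Q}) :=
              Finset.mem_filter.2 ⟨h9, h11⟩
            rw [h5] at this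
            simp at this
          exact dom_union_right _ (hline B' hDB (v e) (memB e h9).2 h10) (v e) rfl
      refine dom_trans h6 (dom_of_subset ?_)
      rw [hPQs, hP, hQ, hA']
      rintro x ((⟨z, hz, rfl⟩ | hx) | (rfl | rfl | rfl))
      · exact Or.inl ⟨z, Or.inl hz, rfl⟩
      · exact Or.inr hx
      · exact Or.inl ⟨p, Or.inr (Or.inl rfl), rfl⟩
      · exact Or.inl ⟨q, Or.inr (Or.inr (Or.inl rfl)), rfl⟩
      · exact Or.inl ⟨p + q, Or.inr (Or.inr (Or.inr rfl)), rfl⟩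
    · exact e0B h5

/-- If the triangle is in the span of `A`, it is dominated by `A` and `p, q, p + q`. -/
private theorem tri_dom {A B : Set V} {p q : V}
    (hpq : LinearIndependent ℚ ![p, q] ∨ q = 0)
    (hsp : span ℚ (A ∪ {p, q}) ⊓ span ℚ (B ∪ {p, q}) = span ℚ {p, q})
    (hB : Uni (B ∪ {p, q, p + q})) {T : Set V} (hT : Dom T (A ∪ B))
    (hs : ∀ x ∈ T, x ∈ span ℚ A) : Dom T (A ∪ {p, q, p + q}) := by
  have key : ∀ x ∈ T, ∀ y ∈ B, (y = x ∨ y = -x) → Dom {y} {p, q, p + q} := by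
    intro x hx y hy hxy
    have h1 : y ∈ span ℚ A := by
      rcases hxy with rfl | rfl
      · exact hs _ hx
      · exact neg_mem (hs _ hx)
    refine line_dom hB (Or.inr (Or.inl rfl)) (Or.inr (Or.inr (Or.inl rfl)))
        (Or.inr (Or.inr (Or.inr rfl))) hpq (Or.inl hy) ?_
    rw [← hsp]
    exact ⟨span_mono Set.subset_union_left h1, subset_span (Or.inl hy)⟩
  intro x hx
  rcases hT x hx with h1 | (h1 | h1) | (h1 | h1)
  · exact Or.inl h1
  · exact Or.inr (Or.inl (Or.inl h1))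
  · exact dom_union_right _ (key x hx x h1 (Or.inl rfl)) x rfl
  · exact Or.inr (Or.inr (Or.inl h1))
  · rcases key x hx (-x) h1 (Or.inr rfl) (-x) rfl with h2 | h2 | h2
    · exact Or.inl (neg_eq_zero.1 h2)
    · exact Or.inr (Or.inr (Or.inr h2))
    · exact Or.inr (Or.inl (Or.inr (by rwa [neg_neg] at h2)))

theorem nb1_sum (hC : Cls DecC) {A B : Set V} {p q : V}
    (hpq : LinearIndependent ℚ ![p, q] ∨ q = 0)
    (hsp : span ℚ (A ∪ {p, q}) ⊓ span ℚ (B ∪ {p, q}) = span ℚ {p, q})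
    (hA : Dec V (A ∪ {p, q, p + q})) (hB : Dec V (B ∪ {p, q, p + q}))
    (a0 : NB0 (A ∪ {p, q, p + q})) (a1 : NB1 (A ∪ {p, q, p + q}))
    (b0 : NB0 (B ∪ {p, q, p + q})) (b1 : NB1 (B ∪ {p, q, p + q})) : NB1 (A ∪ B) := by
  intro p1 q1 li hD
  have hsp' : span ℚ (B ∪ {p, q}) ⊓ span ℚ (A ∪ {p, q}) = span ℚ {p, q} := by
    rw [inf_comm]; exact hsp
  have memAB : ∀ x ∈ ({p1, q1, p1 + q1} : Set V), x ∈ span ℚ A ∨ x ∈ span ℚ B := by
    intro x hx
    rcases hD x hx with h1 | (h1 | h1) | (h1 | h1)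
    · left; rw [h1]; exact zero_mem _
    · exact Or.inl (subset_span h1)
    · exact Or.inr (subset_span h1)
    · left
      have := neg_mem (subset_span h1 : -x ∈ span ℚ A)
      rwa [neg_neg] at this
    · right
      have := neg_mem (subset_span h1 : -x ∈ span ℚ B)
      rwa [neg_neg] at this
  have two : ∀ S : Submodule ℚ V, (p1 ∈ S ∧ q1 ∈ S ∨ p1 ∈ S ∧ p1 + q1 ∈ S ∨
      q1 ∈ S ∧ p1 + q1 ∈ S) → ∀ x ∈ ({p1, q1, p1 + q1} : Set V), x ∈ S := by
    intro S hS
    have hS' : p1 ∈ S ∧ q1 ∈ S := by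
      rcases hS with h1 | h1 | h1
      · exact h1
      · refine ⟨h1.1, ?_⟩
        have := sub_mem h1.2 h1.1
        rwa [add_sub_cancel_left] at this
      · refine ⟨?_, h1.1⟩
        have := sub_mem h1.2 h1.1
        rwa [add_sub_cancel_right] at this
    rintro x (rfl | rfl | rfl)
    · exact hS'.1
    · exact hS'.2
    · exact add_mem hS'.1 hS'.2
  have hall : (∀ x ∈ ({p1, q1, p1 + q1} : Set V), x ∈ span ℚ A) ∨
      (∀ x ∈ ({p1, q1, p1 + q1} : Set V), x ∈ span ℚ B) := by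
    rcases memAB p1 (Or.inl rfl) with h1 | h1 <;>
      rcases memAB q1 (Or.inr (Or.inl rfl)) with h2 | h2 <;>
      rcases memAB (p1 + q1) (Or.inr (Or.inr rfl)) with h3 | h3
    · exact Or.inl (two _ (Or.inl ⟨h1, h2⟩))
    · exact Or.inl (two _ (Or.inl ⟨h1, h2⟩))
    · exact Or.inl (two _ (Or.inr (Or.inl ⟨h1, h3⟩)))
    · exact Or.inr (two _ (Or.inr (Or.inr ⟨h2, h3⟩)))
    · exact Or.inl (two _ (Or.inr (Or.inr ⟨h2, h3⟩)))
    · exact Or.inr (two _ (Or.inr (Or.inl ⟨h1, h3⟩)))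
    · exact Or.inr (two _ (Or.inl ⟨h1, h2⟩))
    · exact Or.inr (two _ (Or.inl ⟨h1, h2⟩))
  rcases hall with hs | hs
  · exact sum1_half hC hpq hsp hA hB a0 a1 b0 b1 li (tri_dom hpq hsp (hC.uni hB) hD hs)
  · have hD' : Dom {p1, q1, p1 + q1} (B ∪ A) := by rw [Set.union_comm]; exact hD
    have := sum1_half hC hpq hsp' hB hA b0 b1 a0 a1 li (tri_dom hpq hsp' (hC.uni hA) hD' hs)
    rw [Set.union_comm A B]
    exact this

end RC.Str

end

section

/-!
Module RC-D6.  `Dec` is a class in the sense of `Cls`.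

`dec_con`: induction on the derivation (statement: for all `x ∈ X`).  Cases `graphic`,
`cographic`, `r10`, `sum`: `con_graphic`, `con_cographic`, `con_r10`, `con_sum`.
Case `emb` (`g : V → V'` injective on `span X`, `g '' X` inside `Y` up to sign and `0`):
let `x ∈ X`.  If `g x = 0` then `x = 0`, `mkQ` is injective and `dec_map` applies to
`Dec V X` (from `Dec.emb`).  Otherwise `y₀ = g x` or `y₀ = - g x` is in `Y`; by the induction
hypothesis `Dec (V' / span {y₀}) (mkQ '' Y)`.  The map `V / span {x} → V' / span {y₀}` induced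
by `g` (`Submodule.mapQ` or `liftQ`) is injective on `span (mkQ '' X)`: `g y ∈ span {y₀}` =
`span {g x}` gives `y - t • x ∈ ker g ⊓ span X = ⊥`.  Use `Dec.emb`.

`cls_dec`: `uni = dec_uni`, `mono = dec_mono`, `map = dec_map`, `con`: `dec_mkQ` and
`dec_con`, `claw = dec_claw`.
-/

namespace RC

open Submodule Module

theorem dec_con {V : Type} [AddCommGroup V] [Module ℚ V] {X : Set V} (h : Dec V X) :
    ∀ x ∈ X, Dec (V ⧸ span ℚ {x}) ((span ℚ {x}).mkQ '' X) := by
  induction h with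
  | graphic X W φ inj edge => exact fun x hx => con_graphic X W φ inj edge hx
  | cographic X E W u hd tl dep cov => exact fun x hx => con_cographic X E W u hd tl dep cov hx
  | r10 X φ inj col => exact fun x hx => con_r10 X φ inj col hx
  | sum A B p q hpq h hA hB ihA ihB =>
    exact fun x hx => con_sum A B p q hpq h hA hB ihA ihB hx
  | emb X Y f inj sub h ih =>
    intro x hx
    have hxs : x ∈ span ℚ X := subset_span hx
    by_cases hf : f x = 0
    · have hx0 : x = 0 := inj x hxs hf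
      refine dec_map _ (Dec.emb X Y f inj sub h) ?_
      intro y hy h0
      rw [Submodule.mkQ_apply, Submodule.Quotient.mk_eq_zero, hx0,
        Submodule.mem_span_singleton] at h0
      obtain ⟨t, rfl⟩ := h0
      rw [smul_zero]
    · have hy : ∃ y₀ ∈ Y, span ℚ {y₀} = span ℚ {f x} := by
        rcases sub x hx with h1 | h1 | h1
        · exact absurd h1 hf
        · exact ⟨_, h1, rfl⟩
        · refine ⟨_, h1, ?_⟩
          rw [← Set.neg_singleton, Submodule.span_neg]
      obtain ⟨y₀, hy₀, hspan⟩ := hy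
      have hle : span ℚ {x} ≤ (span ℚ {y₀}).comap f := by
        rw [Submodule.span_le, Set.singleton_subset_iff, SetLike.mem_coe, Submodule.mem_comap,
          hspan]
        exact Submodule.mem_span_singleton_self _
      refine Dec.emb _ ((span ℚ {y₀}).mkQ '' Y) (Submodule.mapQ _ _ f hle) ?_ ?_ (ih y₀ hy₀)
      · intro y hy h0
        rw [← Submodule.map_span] at hy
        obtain ⟨z, hz, rfl⟩ := hy
        rw [Submodule.mkQ_apply, Submodule.mapQ_apply, Submodule.Quotient.mk_eq_zero, hspan,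
          Submodule.mem_span_singleton] at h0
        obtain ⟨t, ht⟩ := h0
        rw [Submodule.mkQ_apply, Submodule.Quotient.mk_eq_zero, Submodule.mem_span_singleton]
        refine ⟨t, ?_⟩
        have h2 := inj (t • x - z) (Submodule.sub_mem _ (Submodule.smul_mem _ t hxs) hz)
          (by rw [map_sub, map_smul, ht, sub_self])
        exact sub_eq_zero.1 h2
      · rintro _ ⟨y, hy, rfl⟩
        rw [Submodule.mkQ_apply, Submodule.mapQ_apply]
        rcases sub y hy with h1 | h1 | h1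
        · left
          rw [h1]
          rfl
        · right
          left
          exact ⟨_, h1, rfl⟩
        · right
          right
          exact ⟨_, h1, by rw [Submodule.mkQ_apply, Submodule.Quotient.mk_neg]⟩

theorem cls_dec : Cls (fun V _ _ X => Dec V X) := by
  exact
    { uni := fun h => dec_uni h
      mono := fun hY h => dec_mono hY h
      map := fun f _ hX hk => dec_map f hX hk
      con := fun f _ _ hX hx h0 hk => dec_mkQ f hx h0 hk (dec_con hX _ hx)
      claw := fun hX hp hq hs li => dec_claw hX hp hq hs li }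

end RC

end
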