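import Pool.Agent.Helper29.MFA.T01

section

/-!
Module RC-C11.  Exactly two directions change; normalised: they are the pair `0` and the last pair
`K = k - 1 ≥ 1`.  `δ j = a j false - a j true`, top coordinates `γ 0, γ K = ± 1`, `c0` that of
`q = ∑_{j<k} a j false`; `γ j = 0` for `0 < j < K`; `c0`, `c0 - γ 0`, `c0 - γ K`,
`c0 - γ 0 - γ K` are in `{0,1,-1}`.  (So: if `γ 0 = γ K` then `c0 = γ 0`; otherwise `c0 = 0`.)

(0) If `δ 0 = ± δ K`: `deg_pair`, `relP_of_sum`.  So from now on `δ 0 ≠ ± δ K`.
(1) Let `x = a K false`, `y = a K true`, `m = mkQ (span {x, y})`, `X' = m '' X` (`uni_con`,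
    `S = {x, y}`), `u' = m ∘ u`, `a' = m ∘ a`, `K` pairs, `N` levels.
    `FF u N ⊓ span {x, y} = ⊥`: `λ x + ρ δ K ∈ FF u N` gives `λ = 0` (`circ_notMem`), then
    `ρ = 0` (`γ K ≠ 0`).  Hence `m` is injective on `FF u N`; `FF u (N+1)` has the same image
    as `FF u N` (`u N false ≡ (γ K)⁻¹ δ K` mod `FF u N`).
    `Chain X' u' N`: clear.
    `Circ X' u' N a' K`:
    * `dif`: `δ j - (γ j / γ K) • δ K ∈ FF u N`.
    * `dne`: `δ j = λ x + ρ δ K` gives `λ = 0`, `γ j = ρ γ K`; `j ≠ 0`: `ρ = 0`, `δ j = 0`, no;
      `j = 0`: `ρ = ± 1`, excluded by (0).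
    * `sum`: `m (∑_{j<K} a j false) = m q`, `q ∈ FF u (N+1)`.
    * `min`: a relation `∑_{j<K} μ j • a j false - λ x - ρ y ∈ FF u N` is modulo `FF u (N+1)`
      a relation with coefficient `-(λ+ρ)` at `a K false`, so all `μ j` are equal.
    * `one` (`K = 1`): (i) `a 0 false = λ x + ρ δ K` gives `λ = -1`, `q = ρ δ K`, `c0 = ρ γ K`,
      `ρ ∈ {0, 1, -1}`; `ρ = 0`: `q = 0`, vanishing sum; `ρ = 1`: `a 0 false + y = 0`, vanishing
      sum; `ρ = -1`: `c0 = - γ K`, `c0 - γ K = -2 γ K`, impossible.  (ii) `a 0 true`: the same
      with `q - δ 0`, `c0 - γ 0`.  (iii) `a 0 false + a 0 true = λ x + ρ δ K`: `λ = -2`,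
      `2 q - δ 0 = ρ δ K`, top coordinates: `2 c0 - γ 0 = ρ γ K`; if `γ 0 = γ K`, `c0 = γ 0`,
      `ρ = 1`; otherwise `c0 = 0`, `ρ = 1`.  So `2 q = δ 0 + δ K`: `deg_two` gives a vanishing
      sum.
    If a sum vanishes use `relP_of_sum`.
(2) `CostP N K`: a nontrivial relation
    `∑ α i • u i (f i) + ∑_{j<K} μ j • a j (g j) + λ x + ρ y = 0` where at most
    `K + (N + 1 - K)/2` of the `α, μ` are nonzero.  Modulo `FF u (N+1)` (`circ_min`): all `μ j` and
    `λ + ρ` are equal to one number `κ`.  `κ = 0`: `∑ α i • u i (f i) = ρ δ K` in `FF u N`, so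
    `ρ = 0`, `λ = 0`, all `α i = 0` (`chain_li`), contradiction.  So `κ ≠ 0`, divide:
    `κ = 1`, `λ + ρ = 1`.  Then `∑_{j<K} a j (g j) + x - ρ δ K ∈ FF u N`; let `t` be the top
    coordinate of `∑_{j<K} a j (g j) + x`; `t = ρ γ K`, and `t`, `t - γ K` are in `{0,1,-1}`
    (hypothesis on the four values: `t = c0` or `c0 - γ 0`).  So `ρ ∈ {0, 1}`: (`ρ = -1` gives
    `t - γ K = -2 γ K`).  If `ρ = 0` only `x` is used, if `ρ = 1` then `λ = 0` and only `y` is
    used: a rainbow relation with at most `K + 1 + (N + 1 - K)/2 = k + (N + 2 - k)/2` terms.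
-/

namespace RC

open Submodule Module Finset

variable {V : Type} [AddCommGroup V] [Module ℚ V]

variable {W : Type} [AddCommGroup W] [Module ℚ W]

/-- The data used in the proof of `costD`. -/
private theorem cd_top {X : Set V} {u : ℕ → Bool → V} {N : ℕ} (hc : Chain X u (N + 1)) {s : ℚ}
    (h : s • u N false ∈ FF u N) : s = 0 := by
  by_contra hs
  apply hc.ind N (Nat.lt_succ_self N)
  have := smul_mem (FF u N) s⁻¹ h
  rwa [smul_smul, inv_mul_cancel₀ hs, one_smul] at this

private theorem cd_ind {X : Set V} {u a : ℕ → Bool → V} {N K : ℕ} (hK : 1 ≤ K)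
    (hc : Chain X u (N + 1)) (h : Circ X u (N + 1) a (K + 1)) {γ : ℚ} (hγ0 : γ ≠ 0)
    (hγ : (a K false - a K true) - γ • u N false ∈ FF u N) (l r : ℚ)
    (hm : l • a K false + r • (a K false - a K true) ∈ FF u N) : l = 0 ∧ r = 0 := by
  have hd := h.dif K (Nat.lt_succ_self K)
  have hl : l = 0 := by
    by_contra hl
    apply circ_notMem h (by omega) (Nat.lt_succ_self K) false
    have h1 := FF_mono u (Nat.le_succ N) hm
    have h2 := sub_mem h1 (smul_mem _ r hd)
    rw [add_sub_cancel_right] at h2
    have h3 := smul_mem (FF u (N + 1)) l⁻¹ h2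
    rwa [smul_smul, inv_mul_cancel₀ hl, one_smul] at h3
  refine ⟨hl, ?_⟩
  rw [hl, zero_smul, zero_add] at hm
  have h1 := sub_mem hm (smul_mem _ r hγ)
  have h2 : r • (a K false - a K true) - r • (a K false - a K true - γ • u N false)
      = (r * γ) • u N false := by module
  rw [h2] at h1
  have h3 := cd_top hc h1
  rcases mul_eq_zero.1 h3 with h3 | h3
  · exact h3
  · exact absurd h3 hγ0

private theorem cd_map (m : V →ₗ[ℚ] W) (u : ℕ → Bool → V) (i : ℕ) :
    FF (fun i b => m (u i b)) i = (FF u i).map m := by
  unfold FF
  rw [Submodule.map_span]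
  congr 1
  ext w
  simp only [Set.mem_setOf_eq, Set.mem_image]
  constructor
  · rintro ⟨j, hj, rfl⟩
    exact ⟨_, ⟨j, hj, rfl⟩, rfl⟩
  · rintro ⟨_, ⟨j, hj, rfl⟩, rfl⟩
    exact ⟨j, hj, rfl⟩

private theorem cd_sum_bool (a : ℕ → Bool → V) (K : ℕ) (g : ℕ → Bool) :
    ∑ j ∈ range K, a j (g j) = ∑ j ∈ range K, a j false
      - ∑ j ∈ (range K).filter (fun j => g j = true), (a j false - a j true) := by
  rw [Finset.sum_filter, ← Finset.sum_sub_distrib]
  refine Finset.sum_congr rfl fun j _ => ?_
  cases hg : g j <;> simp

theorem costD {X : Set V} (hU : Uni X) {u a : ℕ → Bool → V} {N K : ℕ} (hK : 1 ≤ K)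
    (hP : CostP N K) (hc : Chain X u (N + 1)) (h : Circ X u (N + 1) a (K + 1))
    (γ : ℕ → ℚ) (c0 : ℚ)
    (hγ : ∀ j < K + 1, (a j false - a j true) - γ j • u N false ∈ FF u N)
    (hc0 : (∑ j ∈ range (K + 1), a j false) - c0 • u N false ∈ FF u N)
    (hval : ∀ S ⊆ range (K + 1), c0 - ∑ j ∈ S, γ j = 0 ∨ c0 - ∑ j ∈ S, γ j = 1 ∨
        c0 - ∑ j ∈ S, γ j = -1)
    (h0 : γ 0 = 1 ∨ γ 0 = -1) (h1 : γ K = 1 ∨ γ K = -1)
    (h2 : ∀ j < K, 0 < j → γ j = 0) :
    RelP u a (N + 1) (K + 1) (K + 1 + (N + 2 - (K + 1)) / 2) := by
  classical
  by_cases hnv : ∃ g : ℕ → Bool, ∑ l ∈ range (K + 1), a l (g l) = 0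
  · exact relP_of_sum (by omega) (by omega) hnv
  by_cases hdeg : a 0 false - a 0 true = a K false - a K true ∨
      a 0 false - a 0 true = -(a K false - a K true)
  · exact absurd (deg_pair hU hc h (i := 0) (j := K) (by omega) (by omega) (by omega) hdeg) hnv
  have hγK : γ K ≠ 0 := by rcases h1 with h1 | h1 <;> rw [h1] <;> norm_num
  have hF1 := fun l r hm => cd_ind hK hc h hγK (hγ K (Nat.lt_succ_self K)) l r hm
  have hdK := h.dif K (Nat.lt_succ_self K)
  -- elements of the span of the last pair
  have hspan : ∀ z ∈ span ℚ ({a K false, a K true} : Set V), ∃ l r : ℚ,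
      z = l • a K false + r • (a K false - a K true) := by
    intro z hz
    obtain ⟨s, t, rfl⟩ := Submodule.mem_span_pair.1 hz
    exact ⟨s + t, -t, by module⟩
  set S : Submodule ℚ V := span ℚ ({a K false, a K true} : Set V) with hS
  set m : V →ₗ[ℚ] V ⧸ S := S.mkQ with hm
  have hm0 : ∀ z, m z = 0 → ∃ l r : ℚ, z = l • a K false + r • (a K false - a K true) := by
    intro z hz
    apply hspan
    rwa [hm, Submodule.mkQ_apply, Submodule.Quotient.mk_eq_zero] at hz
  have hmx : m (a K false) = 0 := by
    rw [hm, Submodule.mkQ_apply, Submodule.Quotient.mk_eq_zero]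
    exact subset_span (by simp)
  have hmy : m (a K true) = 0 := by
    rw [hm, Submodule.mkQ_apply, Submodule.Quotient.mk_eq_zero]
    exact subset_span (by simp)
  have hmd : m (a K false - a K true) = 0 := by rw [map_sub, hmx, hmy, sub_zero]
  have hinj : ∀ w ∈ FF u N, m w = 0 → w = 0 := by
    intro w hw hz
    obtain ⟨l, r, hlr⟩ := hm0 w hz
    rw [hlr] at hw
    obtain ⟨rfl, rfl⟩ := hF1 l r hw
    rw [hlr, zero_smul, zero_smul, add_zero]
  have hmem' : ∀ i w, m w ∈ FF (fun i b => m (u i b)) i →
      ∃ w' ∈ FF u i, ∃ l r : ℚ, w = w' + (l • a K false + r • (a K false - a K true)) := by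
    intro i w hw
    rw [cd_map] at hw
    obtain ⟨w', hw', he⟩ := Submodule.mem_map.1 hw
    obtain ⟨l, r, hlr⟩ := hm0 (w - w') (by rw [map_sub, he, sub_self])
    exact ⟨w', hw', l, r, by rw [← hlr]; abel⟩
  have hmem : ∀ i w, w ∈ FF u i → m w ∈ FF (fun i b => m (u i b)) i := by
    intro i w hw
    rw [cd_map]
    exact Submodule.mem_map_of_mem hw
  have hUX : Uni (m '' X) := by
    refine uni_con m (S := {a K false, a K true}) hU ?_ ?_ ?_
    · rintro z (rfl | rfl)
      · exact h.mem K (Nat.lt_succ_self K) false
      · exact h.mem K (Nat.lt_succ_self K) true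
    · rintro z (rfl | rfl)
      · exact hmx
      · exact hmy
    · intro z _ hz
      rwa [hm, Submodule.mkQ_apply, Submodule.Quotient.mk_eq_zero] at hz
  have hchain : Chain (m '' X) (fun i b => m (u i b)) N := by
    refine ⟨fun i hi b => ⟨_, hc.mem i (by omega) b, rfl⟩, fun i hi hin => ?_,
      fun i hi => ?_, fun i hi hi0 he => ?_⟩
    · obtain ⟨w', hw', l, r, he⟩ := hmem' i _ hin
      have hlt : FF u i ≤ FF u N := FF_mono u (by omega)
      have h3 : l • a K false + r • (a K false - a K true) ∈ FF u N := by
        have h4 : u i false ∈ FF u N := subset_span ⟨i, hi, rfl⟩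
        have h5 := sub_mem h4 (hlt hw')
        rwa [he, add_sub_cancel_left] at h5
      obtain ⟨rfl, rfl⟩ := hF1 l r h3
      apply hc.ind i (by omega)
      rw [he, zero_smul, zero_smul, add_zero, add_zero]
      exact hw'
    · have := hmem i _ (hc.dif i (by omega))
      simpa only [map_sub] using this
    · apply hc.dne i (by omega) hi0
      apply sub_eq_zero.1
      apply hinj _ (FF_mono u (by omega) (hc.dif i (by omega)))
      rw [map_sub, sub_eq_zero]
      exact he
  -- congruences modulo `FF u N`
  have hdj : ∀ j < K + 1, (a j false - a j true) - (γ j / γ K) • (a K false - a K true)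
      ∈ FF u N := by
    intro j hj
    have h3 := sub_mem (hγ j hj) (smul_mem _ (γ j / γ K) (hγ K (Nat.lt_succ_self K)))
    have h4 : (a j false - a j true) - γ j • u N false
        - (γ j / γ K) • (a K false - a K true - γ K • u N false)
        = (a j false - a j true) - (γ j / γ K) • (a K false - a K true) := by
      rw [smul_sub, smul_smul, div_mul_cancel₀ _ hγK]
      abel
    rwa [h4] at h3
  have hq : (∑ j ∈ range (K + 1), a j false) - (c0 / γ K) • (a K false - a K true) ∈ FF u N := by
    have h3 := sub_mem hc0 (smul_mem _ (c0 / γ K) (hγ K (Nat.lt_succ_self K)))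
    have h4 : (∑ j ∈ range (K + 1), a j false) - c0 • u N false
        - (c0 / γ K) • (a K false - a K true - γ K • u N false)
        = (∑ j ∈ range (K + 1), a j false) - (c0 / γ K) • (a K false - a K true) := by
      rw [smul_sub (c0 / γ K), smul_smul, div_mul_cancel₀ _ hγK]
      abel
    rwa [h4] at h3
  have hu1 : ∀ z ∈ FF u N, z ∈ FF u (N + 1) := fun z hz => FF_mono u (Nat.le_succ N) hz
  have v0 := hval ∅ (by simp)
  have vK := hval {K} (by simp)
  have vz := hval {0} (by simp)
  have vzK := hval {0, K} (by
    intro j hj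
    simp only [Finset.mem_insert, Finset.mem_singleton] at hj
    rw [Finset.mem_range]
    omega)
  rw [Finset.sum_pair (by omega : (0 : ℕ) ≠ K)] at vzK
  simp only [Finset.sum_empty, sub_zero, Finset.sum_singleton] at v0 vK vz
  have hcirc : Circ (m '' X) (fun i b => m (u i b)) N (fun j b => m (a j b)) K := by
    refine ⟨by omega, fun j hj b => ⟨_, h.mem j (by omega) b, rfl⟩, fun j hj => ?_,
      fun j hj he => ?_, fun hK1 => ?_, ?_, fun μ hμ i hi j hj => ?_⟩
    · have h3 := hmem N _ (hdj j (by omega))
      rw [map_sub, map_smul, hmd, smul_zero, sub_zero, map_sub] at h3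
      exact h3
    · obtain ⟨l, r, hlr⟩ := hm0 (a j false - a j true) (by
        rw [map_sub, sub_eq_zero]
        exact he)
      -- `l = 0`
      have hj1 := h.dif j (by omega)
      have hl : l = 0 := by
        by_contra hl
        apply circ_notMem h (by omega) (Nat.lt_succ_self K) false
        rw [hlr] at hj1
        have h3 := sub_mem hj1 (smul_mem _ r hdK)
        rw [add_sub_cancel_right] at h3
        have h4 := smul_mem (FF u (N + 1)) l⁻¹ h3
        rwa [smul_smul, inv_mul_cancel₀ hl, one_smul] at h4
      rw [hl, zero_smul, zero_add] at hlr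
      have hr : γ j = r * γ K := by
        have h3 := sub_mem (smul_mem _ r (hγ K (Nat.lt_succ_self K))) (hγ j (by omega))
        have h4 : r • (a K false - a K true - γ K • u N false)
            - (a j false - a j true - γ j • u N false) = (γ j - r * γ K) • u N false := by
          rw [hlr]
          module
        rw [h4] at h3
        have := cd_top hc h3
        (clear * - this; linarith)
      by_cases hj0 : j = 0
      · subst hj0
        apply hdeg
        have hr1 : r = 1 ∨ r = -1 := by
          rcases h0 with h0 | h0 <;> rcases h1 with h1 | h1 <;> rw [h0, h1] at hr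
          · left; (clear * - hr; linarith)
          · right; (clear * - hr; linarith)
          · right; (clear * - hr; linarith)
          · left; (clear * - hr; linarith)
        rcases hr1 with rfl | rfl
        · left
          rw [hlr, one_smul]
        · right
          rw [hlr, neg_one_smul]
      · have hr0 : r = 0 := by
          rw [h2 j hj (by omega)] at hr
          rcases mul_eq_zero.1 hr.symm with h3 | h3
          · exact h3
          · exact absurd h3 hγK
        apply h.dne j (by omega)
        rw [← sub_eq_zero, hlr, hr0, zero_smul]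
    · -- one
      subst hK1
      have hsum2 : ∀ g : ℕ → Bool, ∑ l ∈ range 2, a l (g l) = a 0 (g 0) + a 1 (g 1) := by
        intro g
        rw [Finset.sum_range_succ, Finset.sum_range_one]
      have hne : ∀ b b' : Bool, a 0 b + a 1 b' ≠ 0 := by
        intro b b' he
        apply hnv
        refine ⟨fun l => if l = 0 then b else b', ?_⟩
        rw [hsum2]
        simpa using he
      have hq2 : (a 0 false + a 1 false) - c0 • u N false ∈ FF u N := by
        have := hc0
        rwa [Finset.sum_range_succ, Finset.sum_range_one] at this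
      have hmin2 : ∀ (b : Bool) (l r : ℚ), a 0 b = l • a 1 false + r • (a 1 false - a 1 true) →
          l = -1 := by
        intro b l r he
        have h3 := circ_min h (fun l => if l = 0 then b else false)
          (fun i => if i = 0 then 1 else -l) (by
            rw [Finset.sum_range_succ, Finset.sum_range_one]
            simp only [if_true, one_smul, one_ne_zero, if_false, neg_smul]
            rw [he, add_neg_eq_iff_eq_add.2 (add_comm _ _)]
            exact smul_mem _ _ hdK) 0 (by omega) 1 (by omega)
        simp only [if_true, one_ne_zero, if_false] at h3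
        (clear * - h3; linarith)
      refine ⟨fun he => ?_, fun he => ?_, fun he => ?_⟩
      · obtain ⟨l, r, hlr⟩ := hm0 _ he
        have hl := hmin2 false l r hlr
        rw [hl] at hlr
        have hr : c0 = r * γ 1 := by
          have h3 := sub_mem (smul_mem _ r (hγ 1 (by omega))) hq2
          have h4 : r • (a 1 false - a 1 true - γ 1 • u N false)
              - (a 0 false + a 1 false - c0 • u N false) = (c0 - r * γ 1) • u N false := by
            rw [hlr]
            module
          rw [h4] at h3
          have := cd_top hc h3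
          (clear * - this; linarith)
        have hr1 : r = 0 ∨ r = 1 := by
          rcases h1 with h1 | h1 <;> rw [h1] at hr vK <;> rcases v0 with v0 | v0 | v0 <;>
            rcases vK with vK | vK | vK
          all_goals first
            | (left; (clear * - v0 vK hr; linarith))
            | (right; (clear * - hr v0; linarith))
            | (exfalso; linarith)
        rcases hr1 with rfl | rfl
        · exact hne false false (by rw [hlr]; module)
        · exact hne false true (by rw [hlr]; module)
      · obtain ⟨l, r, hlr⟩ := hm0 _ he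
        have hl := hmin2 true l r hlr
        rw [hl] at hlr
        have hr : c0 - γ 0 = r * γ 1 := by
          have h3 := sub_mem (add_mem (smul_mem _ r (hγ 1 (by omega))) (hγ 0 (by omega))) hq2
          have h4 : r • (a 1 false - a 1 true - γ 1 • u N false)
              + (a 0 false - a 0 true - γ 0 • u N false)
              - (a 0 false + a 1 false - c0 • u N false)
              = (c0 - γ 0 - r * γ 1) • u N false := by
            rw [hlr]
            module
          rw [h4] at h3
          have := cd_top hc h3
          linarith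
        have hr1 : r = 0 ∨ r = 1 := by
          rcases h1 with h1 | h1 <;> rw [h1] at hr vzK <;> rcases vz with vz | vz | vz <;>
            rcases vzK with vzK | vzK | vzK
          all_goals first
            | (left; (clear * - vz vzK hr; linarith))
            | (right; linarith)
            | (exfalso; linarith)
        rcases hr1 with rfl | rfl
        · exact hne true false (by rw [hlr]; module)
        · exact hne true true (by rw [hlr]; module)
      · obtain ⟨l, r, hlr⟩ := hm0 (a 0 false + a 0 true) (by
          rw [map_add]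
          exact add_eq_zero_iff_eq_neg.2 he)
        have hl : l = -2 := by
          have hd0 := h.dif 0 (by omega)
          have h3 := h.min (fun i => if i = 0 then 2 else -l) (by
            rw [Finset.sum_range_succ, Finset.sum_range_one]
            simp only [if_true, one_ne_zero, if_false]
            have h4 : (2 : ℚ) • a 0 false + -l • a 1 false
                = (a 0 false - a 0 true) + r • (a 1 false - a 1 true) := by
              have h5 : (2 : ℚ) • a 0 false + -l • a 1 false
                = (a 0 false + a 0 true) + (a 0 false - a 0 true) - l • a 1 false := by module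
              rw [h5, hlr]
              module
            rw [h4]
            exact add_mem hd0 (smul_mem _ _ hdK)) 0 (by omega) 1 (by omega)
          simp only [if_true, one_ne_zero, if_false] at h3
          (clear * - h3; linarith)
        rw [hl] at hlr
        have hr : 2 * c0 - γ 0 = r * γ 1 := by
          have h3 := sub_mem (add_mem (smul_mem _ r (hγ 1 (by omega))) (hγ 0 (by omega)))
            (smul_mem _ 2 hq2)
          have h4 : r • (a 1 false - a 1 true - γ 1 • u N false)
              + (a 0 false - a 0 true - γ 0 • u N false)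
              - (2 : ℚ) • (a 0 false + a 1 false - c0 • u N false)
              = (2 * c0 - γ 0 - r * γ 1) • u N false := by
            have h5 : r • (a 1 false - a 1 true - γ 1 • u N false)
              + (a 0 false - a 0 true - γ 0 • u N false)
              - (2 : ℚ) • (a 0 false + a 1 false - c0 • u N false)
              = (2 * c0 - γ 0 - r * γ 1) • u N false + (r • (a 1 false - a 1 true)
                - (2 : ℚ) • a 1 false - (a 0 false + a 0 true)) := by module
            rw [h5, hlr]
            module
          rw [h4] at h3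
          have := cd_top hc h3
          linarith
        have hr1 : r = 1 := by
          rcases h0 with h0 | h0 <;> rcases h1 with h1 | h1 <;>
            rw [h0] at hr vz vzK <;> rw [h1] at hr vK vzK <;> rcases v0 with v0 | v0 | v0 <;>
            rcases vzK with vzK | vzK | vzK <;> rcases vz with vz | vz | vz <;>
            rcases vK with vK | vK | vK
          all_goals first
            | (clear * - v0 vzK hr vK vz; linarith)
            | (exfalso; linarith)
        rw [hr1] at hlr
        apply hnv
        apply deg_two hU hc h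
        have h5 : (2 : ℚ) • (a 0 false + a 1 false) = (a 0 false + a 0 true)
          + (a 0 false - a 0 true) + (2 : ℚ) • a 1 false := by module
        rw [h5, hlr]
        module
    · have h3 := hmem N _ hq
      rw [map_sub, map_smul, hmd, smul_zero, sub_zero, Finset.sum_range_succ, map_add, hmx,
        add_zero, map_sum] at h3
      exact h3
    · have h3 : m (∑ j ∈ range K, μ j • a j false) ∈ FF (fun i b => m (u i b)) N := by
        rw [map_sum]
        simpa only [map_smul] using hμ
      obtain ⟨w', hw', l, r, he⟩ := hmem' N _ h3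
      have h4 := h.min (fun i => if i < K then μ i else -l) (by
        rw [Finset.sum_range_succ]
        simp only [lt_irrefl, if_false]
        have h5 : ∑ j ∈ range K, (if j < K then μ j else -l) • a j false
            = ∑ j ∈ range K, μ j • a j false :=
          Finset.sum_congr rfl fun j hj => by rw [if_pos (Finset.mem_range.1 hj)]
        rw [h5, he]
        have h6 : w' + (l • a K false + r • (a K false - a K true)) + -l • a K false
            = w' + r • (a K false - a K true) := by module
        rw [h6]
        exact add_mem (hu1 _ hw') (smul_mem _ _ hdK)) i (by omega) j (by omega)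
      simpa only [hi, hj, if_true] using h4
  -- the relation in the quotient
  obtain ⟨α, μ, f, g, hnt, hrel, hcard⟩ := hP (V ⧸ S) (m '' X) _ _ hUX hchain hcirc
  have hrel' : m (∑ i ∈ range N, α i • u i (f i) + ∑ j ∈ range K, μ j • a j (g j)) = 0 := by
    rw [map_add, map_sum, map_sum]
    simpa only [map_smul] using hrel
  obtain ⟨l, r, hlr⟩ := hm0 _ hrel'
  have hchN : Chain X u N := ⟨fun i hi b => hc.mem i (by omega) b, fun i hi => hc.ind i (by omega),
    fun i hi => hc.dif i (by omega), fun i hi h3 => hc.dne i (by omega) h3⟩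
  have hαN : ∑ i ∈ range N, α i • u i (f i) ∈ FF u N := chain_mem hchN f α
  have hμl : ∀ j < K, μ j = -l := by
    intro j hj
    have h4 := circ_min h (fun i => if i < K then g i else false)
      (fun i => if i < K then μ i else -l) (by
        rw [Finset.sum_range_succ]
        simp only [lt_irrefl, if_false]
        have h5 : ∑ j ∈ range K, (if j < K then μ j else -l) • a j (if j < K then g j else false)
            = ∑ j ∈ range K, μ j • a j (g j) :=
          Finset.sum_congr rfl fun j hj => by
            rw [if_pos (Finset.mem_range.1 hj), if_pos (Finset.mem_range.1 hj)]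
        rw [h5]
        have h6 : ∑ j ∈ range K, μ j • a j (g j) + -l • a K false
            = r • (a K false - a K true) - ∑ i ∈ range N, α i • u i (f i) := by
          rw [← eq_sub_iff_add_eq'] at hlr
          rw [hlr]
          module
        rw [h6]
        exact sub_mem (smul_mem _ _ hdK) (hu1 _ hαN)) j (by omega) K (by omega)
    simpa only [hj, if_true, lt_irrefl, if_false] using h4
  by_cases hl0 : l = 0
  · exfalso
    have hμ0 : ∀ j < K, μ j = 0 := fun j hj => by rw [hμl j hj, hl0, neg_zero]
    have h5 : ∑ j ∈ range K, μ j • a j (g j) = 0 :=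
      Finset.sum_eq_zero fun j hj => by rw [hμ0 j (Finset.mem_range.1 hj), zero_smul]
    rw [h5, add_zero] at hlr
    have h6 := hF1 l r (by rw [← hlr]; exact hαN)
    rw [h6.1, h6.2, zero_smul, zero_smul, add_zero] at hlr
    have h7 := linearIndepOn_finset_iff.1 (chain_li hchN f) α hlr
    rcases hnt with ⟨i, hi, h8⟩ | ⟨j, hj, h8⟩
    · exact h8 (h7 i (Finset.mem_range.2 hi))
    · exact h8 (hμ0 j hj)
  -- normalise
  set G : Finset ℕ := (range K).filter (fun j => g j = true) with hG
  have hGsub : G ⊆ range (K + 1) := fun j hj => by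
    rw [hG, Finset.mem_filter, Finset.mem_range] at hj
    rw [Finset.mem_range]
    omega
  have hKG : K ∉ G := by
    rw [hG, Finset.mem_filter, Finset.mem_range]
    omega
  have hsumμ : ∑ j ∈ range K, μ j • a j (g j) = -l • ∑ j ∈ range K, a j (g j) := by
    rw [Finset.smul_sum]
    exact Finset.sum_congr rfl fun j hj => by rw [hμl j (Finset.mem_range.1 hj)]
  rw [hsumμ] at hlr
  -- `∑ a j (g j) + x - (-(r / l)) δ K = - ∑ (α i / -l) u i (f i)`
  have hrel2 : ∑ i ∈ range N, (α i / -l) • u i (f i) + ∑ j ∈ range K, a j (g j) + a K false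
      + (r / l) • (a K false - a K true) = 0 := by
    have h5 : ∑ i ∈ range N, (α i / -l) • u i (f i)
        = (-l)⁻¹ • ∑ i ∈ range N, α i • u i (f i) := by
      rw [Finset.smul_sum]
      refine Finset.sum_congr rfl fun i _ => ?_
      rw [smul_smul]
      congr 1
      rw [div_eq_inv_mul]
    have h6 : ∑ i ∈ range N, α i • u i (f i) = l • a K false + r • (a K false - a K true)
        - (-l • ∑ j ∈ range K, a j (g j)) := by
      rw [← hlr]
      abel
    rw [h5, h6, smul_sub, smul_add, smul_smul, smul_smul, smul_smul]
    have e1 : (-l)⁻¹ * l = -1 := by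
      field_simp
    have e2 : (-l)⁻¹ * r = -(r / l) := by
      field_simp
    have e3 : (-l)⁻¹ * -l = 1 := inv_mul_cancel₀ (neg_ne_zero.2 hl0)
    rw [e1, e2, e3]
    module
  have hαN2 : ∑ i ∈ range N, (α i / -l) • u i (f i) ∈ FF u N :=
    chain_mem hchN f (fun i => α i / -l)
  -- the top coordinate
  have hsumG : ∑ j ∈ G, (a j false - a j true) - (∑ j ∈ G, γ j) • u N false ∈ FF u N := by
    rw [Finset.sum_smul, ← Finset.sum_sub_distrib]
    exact sum_mem fun j hj => hγ j (Finset.mem_range.1 (hGsub hj))
  have htop : c0 - ∑ j ∈ G, γ j = -(r / l) * γ K := by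
    have h5 := add_mem (sub_mem hc0 hsumG) (smul_mem _ (r / l) (hγ K (Nat.lt_succ_self K)))
    have h6 := add_mem h5 hαN2
    rw [Finset.sum_range_succ] at h6
    have h7 := cd_sum_bool a K g
    rw [← hG] at h7
    have h8 : (∑ j ∈ range K, a j false + a K false - c0 • u N false
        - (∑ j ∈ G, (a j false - a j true) - (∑ j ∈ G, γ j) • u N false)
        + (r / l) • (a K false - a K true - γ K • u N false))
        + ∑ i ∈ range N, (α i / -l) • u i (f i)
        = (∑ i ∈ range N, (α i / -l) • u i (f i) + ∑ j ∈ range K, a j (g j) + a K false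
          + (r / l) • (a K false - a K true))
          - (c0 - ∑ j ∈ G, γ j + (r / l) * γ K) • u N false := by
      rw [h7]
      module
    rw [h8, hrel2, zero_sub] at h6
    have h9 := cd_top hc (s := -(c0 - ∑ j ∈ G, γ j + (r / l) * γ K)) (by
      rw [neg_smul]
      exact h6)
    (clear * - h9; linarith)
  have vG := hval G hGsub
  have vGK := hval (insert K G) (by
    intro j hj
    rcases Finset.mem_insert.1 hj with rfl | hj
    · exact Finset.mem_range.2 (Nat.lt_succ_self _)
    · exact hGsub hj)
  rw [Finset.sum_insert hKG] at vGK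
  have hρ : r / l = 0 ∨ r / l = -1 := by
    generalize r / l = t at htop
    generalize ∑ j ∈ G, γ j = s at htop vG vGK
    rcases h1 with h1 | h1 <;> rw [h1] at htop vGK <;> rcases vG with vG | vG | vG <;>
      rcases vGK with vGK | vGK | vGK
    all_goals first
      | (left; (clear * - vG vGK htop; linarith))
      | (right; (clear * - htop vG; linarith))
      | (exfalso; linarith)
  -- cardinalities
  have hcardμ : ((range K).filter (fun j => μ j ≠ 0)).card = K := by
    rw [Finset.filter_true_of_mem, Finset.card_range]
    intro j hj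
    rw [hμl j (Finset.mem_range.1 hj)]
    exact neg_ne_zero.2 hl0
  have hcardα : ((range N).filter (fun i => α i / -l ≠ 0)).card
      = ((range N).filter (fun i => α i ≠ 0)).card := by
    congr 1
    ext i
    simp only [Finset.mem_filter, ne_eq, div_eq_zero_iff, neg_eq_zero, hl0, or_false]
  refine ⟨fun i => if i < N then α i / -l else 0, fun _ => 1, f,
    fun j => if j < K then g j else (if r / l = 0 then false else true),
    Or.inr ⟨0, by omega, one_ne_zero⟩, ?_, ?_⟩
  · rw [costSym_ext (fun i => α i / -l) N (fun i => u i (f i)), Finset.sum_range_succ]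
    have h5 : ∑ j ∈ range K, (1 : ℚ) • a j (if j < K then g j else
        (if r / l = 0 then false else true)) = ∑ j ∈ range K, a j (g j) :=
      Finset.sum_congr rfl fun j hj => by rw [if_pos (Finset.mem_range.1 hj), one_smul]
    rw [h5]
    simp only [lt_irrefl, if_false, one_smul]
    rcases hρ with hρ | hρ
    · rw [hρ, zero_smul, add_zero] at hrel2
      rw [if_pos hρ, ← add_assoc]
      exact hrel2
    · rw [hρ] at hrel2
      rw [hρ, if_neg (by norm_num), ← hrel2]
      module
  · rw [costSym_extcard, hcardα]
    have h5 : ((range (K + 1)).filter (fun _ => (1 : ℚ) ≠ 0)).card = K + 1 := by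
      rw [Finset.filter_true_of_mem (fun _ _ => one_ne_zero), Finset.card_range]
    rw [h5]
    rw [hcardμ] at hcard
    omega

end RC

end
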