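import Pool.Agent.Helper29.MFA.T02
import Pool.Agent.Helper29.MFA.T07
import Pool.Agent.Helper29.MFA.T01
import Pool.Agent.Helper29.MFA.T06

section

/-!
Module RC-C13.  Assembly of the cost lemma: induction on `N ≥ 1` of
`CostQ N ∧ ∀ k ≥ 1, CostP N k`.  Step: `costQ_succ`, `costP_succ_one`; for `k ≥ 2` let
`γ, c0` be as in `dirs`.
* all `γ j = 0`: `hval` with `S = ∅` gives `c0 ∈ {0,1,-1}`: `costA` or `costB`.
* exactly one, `γ i ≠ 0`: `c0` and `c0 - γ i` are in `{0,1,-1}`; they are different.  If neither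
  is `0` then they are `1, -1` and `γ i = ± 2`, impossible.  Let `τ i = (c0 ≠ 0)` (flip the pair
  `i` if `c0 ≠ 0`), `σ` = the transposition of `i` and `k - 1`.  After `circ_flip`, `circ_perm`
  the sum of all first vectors is in `FF u N` and the differences of all pairs but the last are in
  `FF u N`: `costC`, then `relP_perm`, `relP_flip`.
* exactly two, `γ i, γ i' ≠ 0`: choose `σ` with `σ 0 = i`, `σ (k-1) = i'` (`i ≠ i'`, `k ≥ 2`)
  and use `costD` with `γ ∘ σ`.
-/

namespace RC

open Submodule Module Finset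

private theorem ca_swap {k p q : ℕ} (hp : p < k) (hq : q < k) (j : ℕ) :
    j < k ↔ Equiv.swap p q j < k := by
  by_cases h1 : j = p
  · subst h1
    rw [Equiv.swap_apply_left]
    exact ⟨fun _ => hq, fun _ => hp⟩
  · by_cases h2 : j = q
    · subst h2
      rw [Equiv.swap_apply_right]
      exact ⟨fun _ => hp, fun _ => hq⟩
    · rw [Equiv.swap_apply_of_ne_of_ne h1 h2]

private theorem ca_one {V : Type} [AddCommGroup V] [Module ℚ V] {X : Set V} (hU : Uni X)
    {u a : ℕ → Bool → V} {N K : ℕ} (hK : 1 ≤ K) (hP : CostP N K) (hc : Chain X u (N + 1))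
    (h : Circ X u (N + 1) a (K + 1)) (γ : ℕ → ℚ) (c0 : ℚ)
    (hγ : ∀ j < K + 1, (a j false - a j true) - γ j • u N false ∈ FF u N)
    (hc0 : (∑ j ∈ range (K + 1), a j false) - c0 • u N false ∈ FF u N)
    (hγv : ∀ j < K + 1, γ j = 0 ∨ γ j = 1 ∨ γ j = -1)
    (hval : ∀ S ⊆ range (K + 1), c0 - ∑ j ∈ S, γ j = 0 ∨ c0 - ∑ j ∈ S, γ j = 1 ∨
        c0 - ∑ j ∈ S, γ j = -1)
    {i : ℕ} (hi : i < K + 1) (hi0 : γ i ≠ 0) (hoth : ∀ j < K + 1, j ≠ i → γ j = 0) :
    RelP u a (N + 1) (K + 1) (K + 1 + (N + 2 - (K + 1)) / 2) := by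
  have hv1 : c0 = 0 ∨ c0 = 1 ∨ c0 = -1 := by
    have := hval ∅ (empty_subset _)
    rwa [sum_empty, sub_zero] at this
  have hv2 : c0 - γ i = 0 ∨ c0 - γ i = 1 ∨ c0 - γ i = -1 := by
    have := hval {i} (singleton_subset_iff.2 (mem_range.2 hi))
    rwa [sum_singleton] at this
  have hγi : γ i = 1 ∨ γ i = -1 := (hγv i hi).resolve_left hi0
  have hor : c0 = 0 ∨ c0 = γ i := by
    rcases hv1 with h1 | h1 | h1
    · exact Or.inl h1
    · right
      rcases hγi with h2 | h2
      · rw [h1, h2]
      · exfalso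
        rw [h1, h2] at hv2
        norm_num at hv2
    · right
      rcases hγi with h2 | h2
      · exfalso
        rw [h1, h2] at hv2
        norm_num at hv2
      · rw [h1, h2]
  -- a choice of one vector in the pair `i`
  obtain ⟨t, ht⟩ : ∃ t : Bool, (∑ j ∈ range (K + 1), a j (if j = i then t else false)) ∈
      FF u N := by
    rcases hor with h1 | h1
    · refine ⟨false, ?_⟩
      have h2 : ∑ j ∈ range (K + 1), a j (if j = i then false else false) =
          (∑ j ∈ range (K + 1), a j false) - c0 • u N false := by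
        rw [h1, zero_smul, sub_zero]
        refine sum_congr rfl fun j _ => ?_
        rw [ite_self]
      rw [h2]
      exact hc0
    · refine ⟨true, ?_⟩
      have h2 : ∑ j ∈ range (K + 1), a j (if j = i then true else false) =
          ((∑ j ∈ range (K + 1), a j false) - c0 • u N false) -
            ((a i false - a i true) - γ i • u N false) := by
        rw [← Finset.add_sum_erase (range (K + 1)) (fun j => a j false) (mem_range.2 hi),
          ← Finset.add_sum_erase (range (K + 1)) (fun j => a j (if j = i then true else false))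
            (mem_range.2 hi)]
        have h3 : ∑ j ∈ (range (K + 1)).erase i, a j (if j = i then true else false) =
            ∑ j ∈ (range (K + 1)).erase i, a j false := by
          refine sum_congr rfl fun j hj => ?_
          rw [if_neg (ne_of_mem_erase hj)]
        rw [h3, if_pos rfl, h1]
        abel
      rw [h2]
      exact sub_mem hc0 (hγ i hi)
  set τ : ℕ → Bool := fun j => if j = i then t else false with hτ
  have hσ : ∀ j, j < K + 1 ↔ Equiv.swap i K j < K + 1 := ca_swap hi (Nat.lt_succ_self K)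
  have h1 := circ_perm (circ_flip h τ) (Equiv.swap i K) hσ
  refine relP_flip τ (relP_perm (Equiv.swap i K) hσ (costC hU hK hP hc h1 ?_ ?_))
  · intro j hj
    have hne : Equiv.swap i K j ≠ i := by
      intro h2
      have h3 : j = K := by
        have h4 := congrArg (Equiv.swap i K) h2
        rwa [Equiv.swap_apply_self, Equiv.swap_apply_left] at h4
      omega
    have hlt : Equiv.swap i K j < K + 1 := (hσ j).1 (by omega)
    have h2 := hγ _ hlt
    rw [hoth _ hlt hne, zero_smul, sub_zero] at h2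
    have h3 : τ (Equiv.swap i K j) = false := by
      rw [hτ]
      exact if_neg hne
    show a (Equiv.swap i K j) (xor false (τ (Equiv.swap i K j))) -
      a (Equiv.swap i K j) (xor true (τ (Equiv.swap i K j))) ∈ FF u N
    rw [h3]
    exact h2
  · have h2 : ∑ j ∈ range (K + 1), a (Equiv.swap i K j) (xor false (τ (Equiv.swap i K j))) =
        ∑ j ∈ range (K + 1), a j (τ j) := by
      rw [costSym_sum (Equiv.swap i K) hσ (fun j => a j (xor false (τ j)))]
      refine sum_congr rfl fun j _ => ?_
      rw [Bool.false_xor]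
    show ∑ j ∈ range (K + 1), a (Equiv.swap i K j) (xor false (τ (Equiv.swap i K j))) ∈ FF u N
    rw [h2]
    exact ht

private theorem ca_two {V : Type} [AddCommGroup V] [Module ℚ V] {X : Set V} (hU : Uni X)
    {u a : ℕ → Bool → V} {N K : ℕ} (hK : 1 ≤ K) (hP : CostP N K) (hc : Chain X u (N + 1))
    (h : Circ X u (N + 1) a (K + 1)) (γ : ℕ → ℚ) (c0 : ℚ)
    (hγ : ∀ j < K + 1, (a j false - a j true) - γ j • u N false ∈ FF u N)
    (hc0 : (∑ j ∈ range (K + 1), a j false) - c0 • u N false ∈ FF u N)
    (hγv : ∀ j < K + 1, γ j = 0 ∨ γ j = 1 ∨ γ j = -1)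
    (hval : ∀ S ⊆ range (K + 1), c0 - ∑ j ∈ S, γ j = 0 ∨ c0 - ∑ j ∈ S, γ j = 1 ∨
        c0 - ∑ j ∈ S, γ j = -1)
    {i i' : ℕ} (hi : i < K + 1) (hi' : i' < K + 1) (hii : i ≠ i') (hi0 : γ i ≠ 0)
    (hi0' : γ i' ≠ 0) (hoth : ∀ j < K + 1, j ≠ i → j ≠ i' → γ j = 0) :
    RelP u a (N + 1) (K + 1) (K + 1 + (N + 2 - (K + 1)) / 2) := by
  have hpos : 0 < K + 1 := Nat.succ_pos K
  set x : ℕ := Equiv.swap 0 i i' with hx
  have hxlt : x < K + 1 := (ca_swap hpos hi i').1 hi'
  have hx0 : x ≠ 0 := by
    intro h0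
    have h1 := congrArg (Equiv.swap 0 i) h0
    rw [hx, Equiv.swap_apply_self, Equiv.swap_apply_left] at h1
    exact hii h1.symm
  set σ : Equiv.Perm ℕ := Equiv.swap 0 i * Equiv.swap K x with hσd
  have hσ : ∀ j, j < K + 1 ↔ σ j < K + 1 := by
    intro j
    rw [hσd, Equiv.Perm.mul_apply, ← ca_swap hpos hi, ← ca_swap (Nat.lt_succ_self K) hxlt]
  have hσ0 : σ 0 = i := by
    rw [hσd, Equiv.Perm.mul_apply, Equiv.swap_apply_of_ne_of_ne (by omega) hx0.symm,
      Equiv.swap_apply_left]
  have hσK : σ K = i' := by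
    rw [hσd, Equiv.Perm.mul_apply, Equiv.swap_apply_left, hx, Equiv.swap_apply_self]
  have h1 := circ_perm h σ hσ
  refine relP_perm σ hσ (costD hU hK hP hc h1 (fun j => γ (σ j)) c0 ?_ ?_ ?_ ?_ ?_ ?_)
  · intro j hj
    exact hγ (σ j) ((hσ j).1 hj)
  · have h2 := costSym_sum σ hσ (fun j => a j false)
    beta_reduce at h2 ⊢
    rw [h2]
    exact hc0
  · intro S hS
    have h2 : ∑ j ∈ S, γ (σ j) = ∑ j ∈ S.map σ.toEmbedding, γ j := by
      rw [sum_map]
      rfl
    have h3 : S.map σ.toEmbedding ⊆ range (K + 1) := by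
      intro y hy
      rw [mem_map] at hy
      obtain ⟨j, hj, rfl⟩ := hy
      exact mem_range.2 ((hσ j).1 (mem_range.1 (hS hj)))
    beta_reduce
    rw [h2]
    exact hval _ h3
  · show γ (σ 0) = 1 ∨ γ (σ 0) = -1
    rw [hσ0]
    exact (hγv i hi).resolve_left hi0
  · show γ (σ K) = 1 ∨ γ (σ K) = -1
    rw [hσK]
    exact (hγv i' hi').resolve_left hi0'
  · intro j hj hj0
    show γ (σ j) = 0
    refine hoth (σ j) ((hσ j).1 (by omega)) ?_ ?_
    · intro h2
      have h3 := σ.injective (h2.trans hσ0.symm)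
      omega
    · intro h2
      have h3 := σ.injective (h2.trans hσK.symm)
      omega

theorem cost_all (N : ℕ) (hN : 1 ≤ N) : CostQ N ∧ ∀ k, 1 ≤ k → CostP N k := by
  induction N, hN using Nat.le_induction with
  | base => exact ⟨costQ_one, costP_one⟩
  | succ N hN ih =>
    obtain ⟨hQ, hP⟩ := ih
    refine ⟨costQ_succ hN hQ (hP 1 le_rfl), fun k hk => ?_⟩
    rcases Nat.lt_or_ge 1 k with hk2 | hk2
    · intro V _ _ X u a hU hc h
      obtain ⟨γ, c0, hγ, hc0, hγv, hval, hcase⟩ := dirs hU hc h hk2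
      obtain ⟨K, rfl⟩ : ∃ K, k = K + 1 := ⟨k - 1, by omega⟩
      have hK : 1 ≤ K := by omega
      rcases hcase with h0 | ⟨i, hi, hi0, hoth⟩ | ⟨i, hi, i', hi', hii, hi0, hi0', hoth⟩
      · have hd : ∀ j < K + 1, a j false - a j true ∈ FF u N := by
          intro j hj
          have h1 := hγ j hj
          rwa [h0 j hj, zero_smul, sub_zero] at h1
        have hv : c0 = 0 ∨ c0 = 1 ∨ c0 = -1 := by
          have := hval ∅ (empty_subset _)
          rwa [sum_empty, sub_zero] at this
        rcases hv with hv | hv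
        · rw [hv, zero_smul, sub_zero] at hc0
          exact costA hU (hP (K + 1) (by omega)) hc h hd hc0
        · exact costB hU hN (hP (K + 1 + 1) (by omega)) hc h (by omega) hd c0 hv hc0
      · exact ca_one hU hK (hP K hK) hc h γ c0 hγ hc0 hγv hval hi hi0 hoth
      · exact ca_two hU hK (hP K hK) hc h γ c0 hγ hc0 hγv hval hi hi' hii hi0 hi0' hoth
    · have hk1 : k = 1 := by omega
      subst hk1
      exact costP_succ_one hN hQ (hP 1 le_rfl) (hP 2 (by omega))

end RC

end

section

/-!
Module RC-R3.  The cost lemma for a chain inside a coloured family.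

`cost_TQ`: let `f = mkQ (span (v '' T))`, `X' = {z | z ∈ f '' (v '' E) or -z ∈ ...}`
(unimodular by `uni_con` with `S = v '' T` and `uni_mono`).  Put
`u i false = f (v (ε i false))`, `u i true = s i • f (v (ε i true))` with the signs `s i` of
`CCh.dif` (`s 0 = 1`).  `f` is injective on `GG v ε N` by `hTi`, so `Chain X' u N` (`dne`: the
difference is nonzero in `V` by `hpar`, and it is in `GG v ε i`).
Let `q = f (v e) ∈ X' ⊓ FF u N`.  If `q = 0`, then `T ∪ {e}` is dependent (`e ∉ T` because of the
colours), `T.card + 1`.  Otherwise `(cost_all N hN).1` gives `q = ∑ α i • u i (g i)` with at most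
`(N + 1) / 2` terms; lifted to `V`:
`v e - ∑ α i • (± v (ε i (g i))) ∈ span (v '' T)`: a nontrivial relation on the rainbow set
`T ∪ {e} ∪ {ε i (g i) | α i ≠ 0}`.

`cost_TP`: the same with `a 0 false = f (v e)`, `a 0 true = s • f (v e')`, `k = 1`,
`(cost_all N hN).2 1`: bound `1 + (N + 1 - 1) / 2 = 1 + N / 2`.  `Circ X' u N a 1`:
`dif`: `v e - s • v e' ∈ GG v ε N`; `dne`: it is nonzero (`hpar`) and `f` is injective on
`GG v ε N`; `sum`: `hmem`; `one`: if `f (v e) = 0` or `f (v e') = 0` then `T ∪ {e}` or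
`T ∪ {e'}` is dependent and we are done; if `f (v e) = - s • f (v e')`: put
`d = v e - s • v e'`; `f d = 2 • f (v e)`.  If `T = ∅` then `f` is injective and `v e, v e'` would
be dependent, contradiction to `hpar`.  In general: `f (v e) ∈ FF u N` is in `X'`, so its
coordinates in the basis `u i false` are `0,1,-1`, and `f d = 2 • f (v e)`.  If
`v e ∉ GG v ε N`, the coordinates of `d` in the basis `v (ε i false)` are `0,1,-1` (`uni_coord`
for the independent family `v e, v (ε i false)` and the vector `v e'`), hence those of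
`f d`; so `f d = 0`, `d = 0`, contradiction to `hpar`.  If `v e ∈ GG v ε N`, then also
`s • v e' = v e - d ∈ GG v ε N` and `f (v e + s • v e') = 0` gives `v e + s • v e' = 0`,
contradiction to `hpar`.
The relation lifts as before (the coefficient of the pair may be zero; a relation with only
`u`-terms is impossible by `chain_li`, or harmless: it is also a rainbow relation).
-/

namespace RC.Red

open Submodule Module

variable {ι κ V : Type} [AddCommGroup V] [Module ℚ V]

/-- Span of the first `i` levels. -/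
def GG (v : ι → V) (ε : ℕ → Bool → ι) (i : ℕ) : Submodule ℚ V :=
  span ℚ {w | ∃ j < i, w = v (ε j false)}

/-- A chain inside a coloured family. -/
structure CCh (v : ι → V) (c : ι → κ) (E : Finset ι) (ε : ℕ → Bool → ι) (N : ℕ) : Prop where
  mem : ∀ i < N, ∀ b, ε i b ∈ E
  zero : ε 0 false = ε 0 true
  col : ∀ i < N, c (ε i false) = c (ε i true)
  inj : ∀ i < N, ∀ j < N, c (ε i false) = c (ε j false) → i = j
  ind : ∀ i < N, v (ε i false) ∉ GG v ε i
  dif : ∀ i < N, 0 < i → ε i false ≠ ε i true ∧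
    ∃ s : ℚ, (s = 1 ∨ s = -1) ∧ v (ε i false) - s • v (ε i true) ∈ GG v ε i

namespace ChainT

variable {W : Type} [AddCommGroup W] [Module ℚ W]

theorem li_range (w : ℕ → V) (M : ℕ) (h : ∀ i < M, w i ∉ span ℚ (w '' {j | j < i})) :
    LinearIndepOn ℚ w (Finset.range M : Set ℕ) := by
  induction M with
  | zero => simp
  | succ M ih =>
    rw [Finset.range_add_one, Finset.coe_insert, linearIndepOn_insert (by simp)]
    refine ⟨ih fun i hi => h i (by omega), ?_⟩
    have h1 := h M (by omega)
    rw [Finset.coe_range]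
    exact h1

theorem GG_eq (v : ι → V) (ε : ℕ → Bool → ι) (i : ℕ) :
    GG v ε i = span ℚ ((fun j => v (ε j false)) '' (Finset.range i : Set ℕ)) := by
  unfold GG
  congr 1
  ext w
  constructor
  · rintro ⟨j, hj, rfl⟩
    exact ⟨j, by simpa using hj, rfl⟩
  · rintro ⟨j, hj, rfl⟩
    exact ⟨j, by simpa using hj, rfl⟩

theorem FF_eq (u : ℕ → Bool → V) (i : ℕ) :
    FF u i = span ℚ ((fun j => u j false) '' (Finset.range i : Set ℕ)) := by
  unfold FF
  congr 1
  ext w
  constructor
  · rintro ⟨j, hj, rfl⟩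
    exact ⟨j, by simpa using hj, rfl⟩
  · rintro ⟨j, hj, rfl⟩
    exact ⟨j, by simpa using hj, rfl⟩

theorem GG_mono (v : ι → V) (ε : ℕ → Bool → ι) {i j : ℕ} (h : i ≤ j) : GG v ε i ≤ GG v ε j := by
  refine span_mono ?_
  rintro w ⟨k, hk, rfl⟩
  exact ⟨k, by omega, rfl⟩

theorem col' {v : ι → V} {c : ι → κ} {E : Finset ι} {ε : ℕ → Bool → ι} {N : ℕ}
    (hch : CCh v c E ε N) {i : ℕ} (hi : i < N) (b : Bool) : c (ε i b) = c (ε i false) := by
  cases b
  · rfl
  · exact (hch.col i hi).symm

/-- The rainbow dependent set. -/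
theorem short_of_mem {v : ι → V} {c : ι → κ} {E : Finset ι} {ε : ℕ → Bool → ι} {N : ℕ}
    (hch : CCh v c E ε N) (T : Finset ι) (hT : T ⊆ E) (hTc : Set.InjOn c (T : Set ι))
    (hTd : ∀ t ∈ T, ∀ i < N, c t ≠ c (ε i false)) (I : Finset ℕ) (hI : ∀ i ∈ I, i < N)
    (g : ℕ → Bool) {x : ι} (hx : x ∈ E) (hxT : ∀ t ∈ T, c x ≠ c t)
    (hxI : ∀ i ∈ I, c x ≠ c (ε i false))
    (hmem : v x ∈ span ℚ (v '' (T : Set ι)) ⊔
      span ℚ ((fun i => v (ε i (g i))) '' (I : Set ℕ))) :
    Short v c E (T.card + 1 + I.card) := by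
  classical
  have hxn : x ∉ T ∪ I.image (fun i => ε i (g i)) := by
    intro h
    rcases Finset.mem_union.1 h with h | h
    · exact hxT x h rfl
    · obtain ⟨i, hi, rfl⟩ := Finset.mem_image.1 h
      exact hxI i hi (col' hch (hI i hi) _)
  refine ⟨insert x (T ∪ I.image (fun i => ε i (g i))), ?_, ?_, ?_, ?_⟩
  · intro y hy
    rcases Finset.mem_insert.1 hy with rfl | hy
    · exact hx
    rcases Finset.mem_union.1 hy with hy | hy
    · exact hT hy
    · obtain ⟨i, hi, rfl⟩ := Finset.mem_image.1 hy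
      exact hch.mem i (hI i hi) _
  · refine (Finset.card_insert_le _ _).trans ?_
    have h1 := Finset.card_union_le T (I.image (fun i => ε i (g i)))
    have h2 := Finset.card_image_le (s := I) (f := fun i => ε i (g i))
    omega
  · intro y hy z hz hyz
    simp only [Finset.coe_insert, Finset.coe_union, Finset.coe_image, Set.mem_insert_iff,
      Set.mem_union, Set.mem_image, Finset.mem_coe] at hy hz
    rcases hy with rfl | hy | ⟨i, hi, rfl⟩ <;> rcases hz with rfl | hz | ⟨j, hj, rfl⟩
    · rfl
    · exact absurd hyz (hxT _ hz)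
    · exact absurd (hyz.trans (col' hch (hI j hj) _)) (hxI j hj)
    · exact absurd hyz.symm (hxT _ hy)
    · exact hTc hy hz hyz
    · exact absurd (hyz.trans (col' hch (hI j hj) _)) (hTd _ hy j (hI j hj))
    · exact absurd (hyz.symm.trans (col' hch (hI i hi) _)) (hxI i hi)
    · exact absurd (hyz.symm.trans (col' hch (hI i hi) _)) (hTd _ hz i (hI i hi))
    · have h1 : i = j := hch.inj i (hI i hi) j (hI j hj)
        ((col' hch (hI i hi) (g i)).symm.trans (hyz.trans (col' hch (hI j hj) (g j))))
      rw [h1]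
  · intro h
    rw [Finset.coe_insert, linearIndepOn_insert (by simpa using hxn)] at h
    apply h.2
    rw [Finset.coe_union, Finset.coe_image, Set.image_union, Set.image_image, span_union]
    exact hmem

/-- Signs. -/
theorem exists_signs {v : ι → V} {c : ι → κ} {E : Finset ι} {ε : ℕ → Bool → ι} {N : ℕ}
    (hch : CCh v c E ε N) : ∃ s : ℕ → ℚ, (∀ i, s i = 1 ∨ s i = -1) ∧
      ∀ i < N, v (ε i false) - s i • v (ε i true) ∈ GG v ε i := by
  have h : ∀ i, ∃ r : ℚ, (r = 1 ∨ r = -1) ∧ (i < N →
      v (ε i false) - r • v (ε i true) ∈ GG v ε i) := by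
    intro i
    by_cases hi : i < N
    · rcases Nat.eq_zero_or_pos i with h0 | h0
      · refine ⟨1, Or.inl rfl, fun _ => ?_⟩
        rw [h0, hch.zero, one_smul, sub_self]
        exact zero_mem _
      · obtain ⟨_, r, hr, hr'⟩ := hch.dif i hi h0
        exact ⟨r, hr, fun _ => hr'⟩
    · exact ⟨1, Or.inl rfl, fun h => absurd h hi⟩
  choose s h1 h2 using h
  exact ⟨s, h1, h2⟩

/-- The chain in the quotient. -/
def uu (f : V →ₗ[ℚ] W) (v : ι → V) (ε : ℕ → Bool → ι) (s : ℕ → ℚ) (i : ℕ) (b : Bool) : W :=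
  if b then s i • f (v (ε i true)) else f (v (ε i false))

theorem FF_uu (f : V →ₗ[ℚ] W) (v : ι → V) (ε : ℕ → Bool → ι) (s : ℕ → ℚ) (i : ℕ) :
    FF (uu f v ε s) i = (GG v ε i).map f := by
  rw [FF_eq, GG_eq, Submodule.map_span, Set.image_image]
  rfl

theorem not_par {x y : V} (h : LinearIndependent ℚ ![x, y]) {s : ℚ} : x - s • y ≠ 0 := by
  intro h0
  rw [LinearIndependent.pair_iff] at h
  have h1 := h 1 (-s) (by rw [one_smul, neg_smul, ← sub_eq_add_neg]; exact h0)
  exact one_ne_zero h1.1

theorem chain_uu {v : ι → V} {c : ι → κ} {E : Finset ι}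
    (hpar : ∀ e ∈ E, ∀ e' ∈ E, c e = c e' → e ≠ e' → LinearIndependent ℚ ![v e, v e'])
    {ε : ℕ → Bool → ι} {N : ℕ} (hch : CCh v c E ε N) {s : ℕ → ℚ}
    (hs : ∀ i, s i = 1 ∨ s i = -1)
    (hs' : ∀ i < N, v (ε i false) - s i • v (ε i true) ∈ GG v ε i) (f : V →ₗ[ℚ] W)
    (hf : ∀ y ∈ GG v ε N, f y = 0 → y = 0) {X : Set W}
    (hX : ∀ e ∈ E, f (v e) ∈ X ∧ -f (v e) ∈ X) : Chain X (uu f v ε s) N where
  mem := by
    intro i hi b
    cases b
    · exact (hX _ (hch.mem i hi false)).1
    · change s i • f (v (ε i true)) ∈ X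
      rcases hs i with h | h <;> rw [h]
      · rw [one_smul]
        exact (hX _ (hch.mem i hi true)).1
      · rw [neg_one_smul]
        exact (hX _ (hch.mem i hi true)).2
  ind := by
    intro i hi h
    rw [FF_uu] at h
    obtain ⟨y, hy, hy'⟩ := h
    have h1 : v (ε i false) ∈ GG v ε N := subset_span ⟨i, hi, rfl⟩
    have h2 := hf (v (ε i false) - y) (sub_mem h1 (GG_mono v ε hi.le hy)) (by
      rw [map_sub, hy']
      exact sub_self _)
    apply hch.ind i hi
    rw [sub_eq_zero] at h2
    rw [h2]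
    exact hy
  dif := by
    intro i hi
    rw [FF_uu]
    refine ⟨_, hs' i hi, ?_⟩
    rw [map_sub, map_smul]
    rfl
  dne := by
    intro i hi h0 h
    have h1 := hf _ (GG_mono v ε hi.le (hs' i hi)) (by
      rw [map_sub, map_smul]
      exact sub_eq_zero.2 h)
    exact not_par (hpar _ (hch.mem i hi false) _ (hch.mem i hi true) (hch.col i hi)
      (hch.dif i hi h0).1) h1

theorem uni_X {v : ι → V} {E T : Finset ι} (hU : Uni (v '' (E : Set ι))) (hT : T ⊆ E) :
    Uni {z | z ∈ (span ℚ (v '' (T : Set ι))).mkQ '' (v '' (E : Set ι)) ∨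
      -z ∈ (span ℚ (v '' (T : Set ι))).mkQ '' (v '' (E : Set ι))} := by
  have h1 : Uni ((span ℚ (v '' (T : Set ι))).mkQ '' (v '' (E : Set ι))) := by
    refine uni_con _ hU (S := v '' (T : Set ι)) (Set.image_mono (Finset.coe_subset.2 hT)) ?_ ?_
    · intro x hx
      rw [Submodule.mkQ_apply, Submodule.Quotient.mk_eq_zero]
      exact subset_span hx
    · intro y _ hy
      rw [Submodule.mkQ_apply, Submodule.Quotient.mk_eq_zero] at hy
      exact hy
  exact uni_mono h1 fun x hx => Or.inr hx

theorem mkQ_inj {v : ι → V} {ε : ℕ → Bool → ι} {N : ℕ} (T : Finset ι)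
    (hTi : ∀ μ : ι → ℚ, ∑ t ∈ T, μ t • v t ∈ GG v ε N → ∀ t ∈ T, μ t = 0) (y : V)
    (hy : y ∈ GG v ε N) (h : (span ℚ (v '' (T : Set ι))).mkQ y = 0) : y = 0 := by
  rw [Submodule.mkQ_apply, Submodule.Quotient.mk_eq_zero] at h
  obtain ⟨μ, hμ⟩ := (Submodule.mem_span_image_finset_iff_exists_fun' ℚ).1 h
  rw [← hμ]
  refine Finset.sum_eq_zero fun t ht => ?_
  rw [hTi μ (by rw [hμ]; exact hy) t ht, zero_smul]

theorem lift {v : ι → V} {ε : ℕ → Bool → ι} {s : ℕ → ℚ} (P : Submodule ℚ V) (I : Finset ℕ)
    (g : ℕ → Bool) {x : V}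
    (h : P.mkQ x ∈ span ℚ ((fun i => uu P.mkQ v ε s i (g i)) '' (I : Set ℕ))) :
    x ∈ P ⊔ span ℚ ((fun i => v (ε i (g i))) '' (I : Set ℕ)) := by
  have h1 : span ℚ ((fun i => uu P.mkQ v ε s i (g i)) '' (I : Set ℕ)) ≤
      (span ℚ ((fun i => v (ε i (g i))) '' (I : Set ℕ))).map P.mkQ := by
    rw [span_le]
    rintro w ⟨i, hi, rfl⟩
    have h2 : P.mkQ (v (ε i (g i))) ∈
        (span ℚ ((fun i => v (ε i (g i))) '' (I : Set ℕ))).map P.mkQ :=
      ⟨_, subset_span ⟨i, hi, rfl⟩, rfl⟩
    cases hb : g i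
    · rw [hb] at h2
      simpa [uu, hb] using h2
    · rw [hb] at h2
      simpa [uu, hb] using Submodule.smul_mem _ (s i) h2
  have h3 : x ∈ ((span ℚ ((fun i => v (ε i (g i))) '' (I : Set ℕ))).map P.mkQ).comap P.mkQ :=
    h1 h
  rwa [Submodule.comap_map_mkQ] at h3

/-- A short sum. -/
theorem mem_of_sum (u : ℕ → Bool → W) (α : ℕ → ℚ) (g : ℕ → Bool) (N : ℕ) :
    ∑ i ∈ Finset.range N, α i • u i (g i) ∈
      span ℚ ((fun i => u i (g i)) '' (((Finset.range N).filter fun i => α i ≠ 0 : Finset ℕ) :
        Set ℕ)) := by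
  refine Submodule.sum_mem _ fun i hi => ?_
  by_cases h : α i = 0
  · rw [h, zero_smul]
    exact zero_mem _
  · exact Submodule.smul_mem _ _ (subset_span ⟨i, by simpa using ⟨Finset.mem_range.1 hi, h⟩, rfl⟩)

/-- The exceptional case of the cost lemma does not occur. -/
theorem no_exc {v : ι → V} {c : ι → κ} {E : Finset ι} (hU : Uni (v '' (E : Set ι)))
    (hpar : ∀ e ∈ E, ∀ e' ∈ E, c e = c e' → e ≠ e' → LinearIndependent ℚ ![v e, v e'])
    {ε : ℕ → Bool → ι} {N : ℕ} (hch : CCh v c E ε N) (f : V →ₗ[ℚ] W)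
    (hf : ∀ y ∈ GG v ε N, f y = 0 → y = 0) {X : Set W} (hX : Uni X)
    (hEX : ∀ e ∈ E, f (v e) ∈ X)
    {e e' : ι} (he : e ∈ E) (he' : e' ∈ E) (hee : e ≠ e') (hcc : c e = c e')
    {s : ℚ} (hs : s = 1 ∨ s = -1) (hd : v e - s • v e' ∈ GG v ε N)
    (h0 : f (v e) = -(s • f (v e'))) : False := by
  have hss : s * s = 1 := by rcases hs with rfl | rfl <;> norm_num
  have hli := hpar e he e' he' hcc hee
  have hne : v e - s • v e' ≠ 0 := not_par hli
  have hne' : v e + s • v e' ≠ 0 := by
    have h1 := not_par (s := -s) hli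
    rwa [neg_smul, sub_neg_eq_add] at h1
  by_cases hG : v e ∈ GG v ε N
  · refine hne' (hf _ ?_ ?_)
    · have h1 : v e + s • v e' = (v e + v e) - (v e - s • v e') := by abel
      rw [h1]
      exact sub_mem (add_mem hG hG) hd
    · rw [map_add, map_smul, h0, neg_add_cancel]
  · have hdG := hd
    rw [GG_eq] at hdG
    obtain ⟨γ, hγ⟩ := (Submodule.mem_span_image_finset_iff_exists_fun' ℚ).1 hdG
    have hl1 : LinearIndepOn ℚ (fun j => v (ε j false)) (Finset.range N : Set ℕ) := by
      refine li_range _ N fun i hi h => hch.ind i hi ?_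
      rw [GG_eq, Finset.coe_range]
      exact h
    have hl2 : LinearIndepOn ℚ (fun j => f (v (ε j false))) (Finset.range N : Set ℕ) := by
      refine hl1.map_injOn f ?_
      rw [← GG_eq]
      intro x hx y hy hxy
      exact sub_eq_zero.1 (hf (x - y) (sub_mem hx hy) (by rw [map_sub, hxy, sub_self]))
    have h2 : f (v e) = ∑ j ∈ Finset.range N, (γ j / 2) • f (v (ε j false)) := by
      have h3 : f (v e - s • v e') = (2 : ℚ) • f (v e) := by
        rw [map_sub, map_smul, two_smul]
        nth_rewrite 3 [h0]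
        rw [sub_eq_add_neg]
      have h4 : ∑ j ∈ Finset.range N, γ j • f (v (ε j false)) = (2 : ℚ) • f (v e) := by
        rw [← h3, ← hγ, map_sum]
        exact Finset.sum_congr rfl fun j _ => by rw [map_smul]
      have h5 : f (v e) = (1 / 2 : ℚ) • ((2 : ℚ) • f (v e)) := by
        rw [smul_smul]
        norm_num
      rw [h5, ← h4, Finset.smul_sum]
      refine Finset.sum_congr rfl fun j _ => ?_
      rw [smul_smul]
      congr 1
      ring
    have h3 := uni_coord hX (fun j => f (v (ε j false))) (Finset.range N)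
      (fun i hi => hEX _ (hch.mem i (Finset.mem_range.1 hi) false)) hl2 (fun j => γ j / 2)
      (by rw [← h2]; exact hEX e he)
    -- the family with `v e`
    have hl3 : LinearIndepOn ℚ (fun j => if j = N then v e else v (ε j false))
        (Finset.range (N + 1) : Set ℕ) := by
      have himg : (fun j => if j = N then v e else v (ε j false)) '' (Finset.range N : Set ℕ) =
          (fun j => v (ε j false)) '' (Finset.range N : Set ℕ) := by
        refine Set.image_congr fun j hj => ?_
        rw [Finset.mem_coe, Finset.mem_range] at hj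
        rw [if_neg hj.ne]
      rw [Finset.range_add_one, Finset.coe_insert, linearIndepOn_insert (by simp), himg, ← GG_eq,
        if_pos rfl]
      refine ⟨hl1.congr fun j hj => ?_, hG⟩
      rw [Finset.mem_coe, Finset.mem_range] at hj
      simp only [if_neg hj.ne]
    have h4 := uni_coord hU (fun j => if j = N then v e else v (ε j false)) (Finset.range (N + 1))
      (by
        intro i hi
        rw [Finset.mem_range] at hi
        by_cases hiN : i = N
        · simp only [if_pos hiN]
          exact ⟨e, he, rfl⟩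
        · simp only [if_neg hiN]
          exact ⟨_, hch.mem i (by omega) false, rfl⟩) hl3
      (fun j => if j = N then s else -(s * γ j))
      (by
        rw [Finset.sum_range_succ]
        simp only [if_true]
        have h5 : ∑ j ∈ Finset.range N, (if j = N then s else -(s * γ j)) •
            (if j = N then v e else v (ε j false)) = -(s • (v e - s • v e')) := by
          rw [← hγ, Finset.smul_sum, ← Finset.sum_neg_distrib]
          refine Finset.sum_congr rfl fun j hj => ?_
          rw [Finset.mem_range] at hj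
          rw [if_neg hj.ne, if_neg hj.ne, neg_smul, smul_smul]
        rw [h5, smul_sub, smul_smul, hss, one_smul]
        have h6 : -(s • v e - v e') + s • v e = v e' := by abel
        rw [h6]
        exact ⟨e', he', rfl⟩)
    apply hne
    rw [← hγ]
    refine Finset.sum_eq_zero fun j hj => ?_
    have h5 := h3 j hj
    have h6 := h4 j (by rw [Finset.mem_range] at hj ⊢; omega)
    rw [Finset.mem_range] at hj
    simp only [if_neg hj.ne] at h6
    have h7 : γ j = 0 := by
      rcases hs with rfl | rfl <;> rcases h5 with h5 | h5 | h5 <;> rcases h6 with h6 | h6 | h6 <;>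
        (clear * - h5 h6; linarith)
    rw [h7, zero_smul]

end ChainT

open ChainT

theorem cost_TQ {v : ι → V} {c : ι → κ} {E : Finset ι} (hU : Uni (v '' (E : Set ι)))
    (hpar : ∀ e ∈ E, ∀ e' ∈ E, c e = c e' → e ≠ e' → LinearIndependent ℚ ![v e, v e'])
    {ε : ℕ → Bool → ι} {N : ℕ} (hch : CCh v c E ε N) (hN : 1 ≤ N) (T : Finset ι)
    (hT : T ⊆ E) (hTc : Set.InjOn c (T : Set ι))
    (hTd : ∀ t ∈ T, ∀ i < N, c t ≠ c (ε i false))
    (hTi : ∀ μ : ι → ℚ, ∑ t ∈ T, μ t • v t ∈ GG v ε N → ∀ t ∈ T, μ t = 0)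
    {e : ι} (he : e ∈ E) (hec : ∀ t ∈ T, c e ≠ c t) (hed : ∀ i < N, c e ≠ c (ε i false))
    (hmem : v e ∈ GG v ε N ⊔ span ℚ (v '' (T : Set ι))) :
    Short v c E (T.card + 1 + (N + 1) / 2) := by
  classical
  obtain ⟨s, hs, hs'⟩ := exists_signs hch
  set P : Submodule ℚ V := span ℚ (v '' (T : Set ι)) with hP
  have hinj := mkQ_inj T hTi
  have hC := chain_uu hpar hch hs hs' P.mkQ hinj
    (X := {z | z ∈ P.mkQ '' (v '' (E : Set ι)) ∨ -z ∈ P.mkQ '' (v '' (E : Set ι))})
    (fun e he => ⟨Or.inl ⟨_, ⟨e, he, rfl⟩, rfl⟩, Or.inr (by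
      rw [neg_neg]
      exact ⟨_, ⟨e, he, rfl⟩, rfl⟩)⟩)
  by_cases hq0 : P.mkQ (v e) = 0
  · have h1 := short_of_mem hch T hT hTc hTd ∅ (by simp) (fun _ => false) he hec (by simp) (by
      rw [Submodule.mkQ_apply, Submodule.Quotient.mk_eq_zero] at hq0
      exact Submodule.mem_sup_left hq0)
    exact short_mono h1 subset_rfl (by simp)
  · have hF : P.mkQ (v e) ∈ FF (uu P.mkQ v ε s) N := by
      rw [FF_uu]
      have h1 : P.mkQ (v e) ∈ (GG v ε N ⊔ P).map P.mkQ := ⟨_, hmem, rfl⟩
      rwa [Submodule.map_sup, Submodule.mkQ_map_self, sup_bot_eq] at h1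
    obtain ⟨α, g, h1, h2⟩ := (cost_all N hN).1 _ _ _ _ (uni_X hU hT) hC
      (Or.inl ⟨_, ⟨e, he, rfl⟩, rfl⟩) hF hq0
    have h3 := mem_of_sum (uu P.mkQ v ε s) α g N
    rw [← h1] at h3
    have h4 := short_of_mem hch T hT hTc hTd ((Finset.range N).filter fun i => α i ≠ 0)
      (fun i hi => Finset.mem_range.1 (Finset.mem_filter.1 hi).1) g he hec
      (fun i hi => hed i (Finset.mem_range.1 (Finset.mem_filter.1 hi).1)) (lift P _ g h3)
    refine short_mono h4 subset_rfl ?_
    omega

theorem cost_TP {v : ι → V} {c : ι → κ} {E : Finset ι} (hU : Uni (v '' (E : Set ι)))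
    (hpar : ∀ e ∈ E, ∀ e' ∈ E, c e = c e' → e ≠ e' → LinearIndependent ℚ ![v e, v e'])
    {ε : ℕ → Bool → ι} {N : ℕ} (hch : CCh v c E ε N) (hN : 1 ≤ N) (T : Finset ι)
    (hT : T ⊆ E) (hTc : Set.InjOn c (T : Set ι))
    (hTd : ∀ t ∈ T, ∀ i < N, c t ≠ c (ε i false))
    (hTi : ∀ μ : ι → ℚ, ∑ t ∈ T, μ t • v t ∈ GG v ε N → ∀ t ∈ T, μ t = 0)
    {e e' : ι} (he : e ∈ E) (he' : e' ∈ E) (hee : e ≠ e') (hcc : c e = c e')
    (hec : ∀ t ∈ T, c e ≠ c t) (hed : ∀ i < N, c e ≠ c (ε i false))
    {s : ℚ} (hs : s = 1 ∨ s = -1) (hd : v e - s • v e' ∈ GG v ε N)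
    (hmem : v e ∈ GG v ε N ⊔ span ℚ (v '' (T : Set ι))) :
    Short v c E (T.card + 1 + N / 2) := by
  classical
  obtain ⟨r, hr, hr'⟩ := exists_signs hch
  set P : Submodule ℚ V := span ℚ (v '' (T : Set ι)) with hP
  have hinj := mkQ_inj T hTi
  have hXm : ∀ e ∈ E, P.mkQ (v e) ∈
      {z | z ∈ P.mkQ '' (v '' (E : Set ι)) ∨ -z ∈ P.mkQ '' (v '' (E : Set ι))} ∧
      -P.mkQ (v e) ∈
        {z | z ∈ P.mkQ '' (v '' (E : Set ι)) ∨ -z ∈ P.mkQ '' (v '' (E : Set ι))} :=
    fun e he => ⟨Or.inl ⟨_, ⟨e, he, rfl⟩, rfl⟩, Or.inr (by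
      rw [neg_neg]
      exact ⟨_, ⟨e, he, rfl⟩, rfl⟩)⟩
  have hC := chain_uu hpar hch hr hr' P.mkQ hinj hXm
  by_cases hq0 : P.mkQ (v e) = 0
  · have h1 := short_of_mem hch T hT hTc hTd ∅ (by simp) (fun _ => false) he hec (by simp) (by
      rw [Submodule.mkQ_apply, Submodule.Quotient.mk_eq_zero] at hq0
      exact Submodule.mem_sup_left hq0)
    exact short_mono h1 subset_rfl (by simp)
  by_cases hq1 : P.mkQ (v e') = 0
  · have h1 := short_of_mem hch T hT hTc hTd ∅ (by simp) (fun _ => false) he'
      (fun t ht => by rw [← hcc]; exact hec t ht) (by simp) (by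
      rw [Submodule.mkQ_apply, Submodule.Quotient.mk_eq_zero] at hq1
      exact Submodule.mem_sup_left hq1)
    exact short_mono h1 subset_rfl (by simp)
  have hs0 : s ≠ 0 := by rcases hs with rfl | rfl <;> norm_num
  have hF : P.mkQ (v e) ∈ FF (uu P.mkQ v ε r) N := by
    rw [FF_uu]
    have h1 : P.mkQ (v e) ∈ (GG v ε N ⊔ P).map P.mkQ := ⟨_, hmem, rfl⟩
    rwa [Submodule.map_sup, Submodule.mkQ_map_self, sup_bot_eq] at h1
  have hcirc : Circ {z | z ∈ P.mkQ '' (v '' (E : Set ι)) ∨ -z ∈ P.mkQ '' (v '' (E : Set ι))}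
      (uu P.mkQ v ε r) N (fun _ b => if b then s • P.mkQ (v e') else P.mkQ (v e)) 1 := by
    refine ⟨one_pos, ?_, ?_, ?_, ?_, ?_, ?_⟩
    · intro _ _ b
      cases b
      · exact (hXm e he).1
      · change s • P.mkQ (v e') ∈ _
        rcases hs with h | h <;> rw [h]
        · rw [one_smul]
          exact (hXm e' he').1
        · rw [neg_one_smul]
          exact (hXm e' he').2
    · intro _ _
      rw [FF_uu]
      refine ⟨_, hd, ?_⟩
      rw [map_sub, map_smul]
      rfl
    · intro _ _ h
      refine not_par (hpar e he e' he' hcc hee) (hinj _ hd ?_)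
      rw [map_sub, map_smul]
      exact sub_eq_zero.2 h
    · intro _
      refine ⟨hq0, smul_ne_zero hs0 hq1, fun h => ?_⟩
      exact no_exc hU hpar hch P.mkQ hinj (uni_X hU hT) (fun e he => (hXm e he).1) he he' hee hcc
        hs hd h
    · rw [Finset.sum_range_one]
      exact hF
    · intro μ _ i hi j hj
      have h1 : i = j := by omega
      rw [h1]
  obtain ⟨α, μ, g, b, hne, hsum, hcard⟩ := (cost_all N hN).2 1 le_rfl _ _ _ _ (uni_X hU hT) hC
    hcirc
  rw [Finset.sum_range_one] at hsum
  have h3 := mem_of_sum (uu P.mkQ v ε r) α g N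
  by_cases hμ : μ 0 = 0
  · -- only the chain is used
    rw [hμ, zero_smul, add_zero] at hsum
    have hex : ∃ i < N, α i ≠ 0 := by
      rcases hne with h | ⟨j, hj, hj'⟩
      · exact h
      · exfalso
        apply hj'
        have : j = 0 := by omega
        rw [this, hμ]
    obtain ⟨i, hi, hαi⟩ := hex
    have hiI : i ∈ (Finset.range N).filter fun i => α i ≠ 0 :=
      Finset.mem_filter.2 ⟨Finset.mem_range.2 hi, hαi⟩
    have hmemi : P.mkQ (v (ε i (g i))) ∈ span ℚ ((fun i => uu P.mkQ v ε r i (g i)) ''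
        ((((Finset.range N).filter fun i => α i ≠ 0).erase i : Finset ℕ) : Set ℕ)) := by
      have h5 : uu P.mkQ v ε r i (g i) ∈ span ℚ ((fun i => uu P.mkQ v ε r i (g i)) ''
          ((((Finset.range N).filter fun i => α i ≠ 0).erase i : Finset ℕ) : Set ℕ)) := by
        have h6 : ∑ j ∈ Finset.range N, α j • uu P.mkQ v ε r j (g j) =
            α i • uu P.mkQ v ε r i (g i) +
              ∑ j ∈ (Finset.range N).erase i, α j • uu P.mkQ v ε r j (g j) :=
          (Finset.add_sum_erase _ _ (Finset.mem_range.2 hi)).symm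
        rw [hsum] at h6
        have h7 : uu P.mkQ v ε r i (g i) = -((α i)⁻¹ •
            ∑ j ∈ (Finset.range N).erase i, α j • uu P.mkQ v ε r j (g j)) := by
          have h8 : α i • uu P.mkQ v ε r i (g i) =
              -∑ j ∈ (Finset.range N).erase i, α j • uu P.mkQ v ε r j (g j) :=
            eq_neg_of_add_eq_zero_left h6.symm
          have h9 := congrArg (fun z => (α i)⁻¹ • z) h8
          simp only [smul_smul, inv_mul_cancel₀ hαi, one_smul, smul_neg] at h9
          rw [h9]
        rw [h7]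
        refine neg_mem (Submodule.smul_mem _ _ (Submodule.sum_mem _ fun j hj => ?_))
        rw [Finset.mem_erase, Finset.mem_range] at hj
        by_cases hαj : α j = 0
        · rw [hαj, zero_smul]
          exact zero_mem _
        · refine Submodule.smul_mem _ _ (subset_span ⟨j, ?_, rfl⟩)
          rw [Finset.mem_coe, Finset.mem_erase, Finset.mem_filter, Finset.mem_range]
          exact ⟨hj.1, hj.2, hαj⟩
      have h10 : P.mkQ (v (ε i (g i))) = uu P.mkQ v ε r i (g i) ∨
          P.mkQ (v (ε i (g i))) = r i • uu P.mkQ v ε r i (g i) := by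
        cases hb : g i
        · left
          simp [uu]
        · right
          have hrr : r i * r i = 1 := by rcases hr i with h | h <;> rw [h] <;> norm_num
          simp only [uu, if_true, smul_smul, hrr, one_smul]
      rcases h10 with h10 | h10 <;> rw [h10]
      · exact h5
      · exact Submodule.smul_mem _ _ h5
    have h4 := short_of_mem hch T hT hTc hTd (((Finset.range N).filter fun i => α i ≠ 0).erase i)
      (fun j hj => Finset.mem_range.1 (Finset.mem_filter.1 (Finset.mem_of_mem_erase hj)).1) g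
      (hch.mem i hi (g i))
      (fun t ht h => hTd t ht i hi (h.symm.trans (col' hch hi _)))
      (fun j hj h => by
        rw [Finset.mem_erase, Finset.mem_filter, Finset.mem_range] at hj
        exact hj.1 (hch.inj i hi j hj.2.1 ((col' hch hi (g i)).symm.trans h)).symm)
      (lift P _ g hmemi)
    refine short_mono h4 subset_rfl ?_
    rw [Finset.card_erase_of_mem hiI]
    have h5 : 0 < ((Finset.range N).filter fun i => α i ≠ 0).card := Finset.card_pos.2 ⟨i, hiI⟩
    omega
  · -- the pair is used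
    have hc1 : ((Finset.range 1).filter fun j => μ j ≠ 0).card = 1 := by
      rw [Finset.range_one, Finset.filter_singleton, if_pos hμ, Finset.card_singleton]
    have hkey : ∀ x : ι, (∃ t : ℚ, P.mkQ (v x) = t • (if b 0 then s • P.mkQ (v e') else
        P.mkQ (v e))) → P.mkQ (v x) ∈ span ℚ ((fun i => uu P.mkQ v ε r i (g i)) ''
          (((Finset.range N).filter fun i => α i ≠ 0 : Finset ℕ) : Set ℕ)) := by
      rintro x ⟨t, ht⟩
      rw [ht]
      refine Submodule.smul_mem _ _ ?_
      have h8 : μ 0 • (if b 0 then s • P.mkQ (v e') else P.mkQ (v e)) =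
          -∑ j ∈ Finset.range N, α j • uu P.mkQ v ε r j (g j) :=
        eq_neg_of_add_eq_zero_right hsum
      have h9 := congrArg (fun z => (μ 0)⁻¹ • z) h8
      simp only [smul_smul, inv_mul_cancel₀ hμ, one_smul, smul_neg] at h9
      rw [h9]
      exact neg_mem (Submodule.smul_mem _ _ h3)
    have hfin : ∀ x : ι, x ∈ E → c x = c e → (∃ t : ℚ, P.mkQ (v x) = t • (if b 0 then
        s • P.mkQ (v e') else P.mkQ (v e))) → Short v c E (T.card + 1 + N / 2) := by
      intro x hx hxc ht
      have h4 := short_of_mem hch T hT hTc hTd ((Finset.range N).filter fun i => α i ≠ 0)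
        (fun i hi => Finset.mem_range.1 (Finset.mem_filter.1 hi).1) g hx
        (fun t ht => by rw [hxc]; exact hec t ht)
        (fun i hi => by rw [hxc]; exact hed i (Finset.mem_range.1 (Finset.mem_filter.1 hi).1))
        (lift P _ g (hkey x ht))
      refine short_mono h4 subset_rfl ?_
      omega
    cases hb : b 0
    · exact hfin e he rfl ⟨1, by simp [hb]⟩
    · refine hfin e' he' hcc.symm ⟨s, ?_⟩
      have hss : s * s = 1 := by rcases hs with rfl | rfl <;> norm_num
      simp only [hb, if_true, smul_smul, hss, one_smul]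

end RC.Red

end

section

/-!
Module RC-R4.  A maximal chain starting at `e0`.

The chain `ε i b = e0` for all `i, b` has length `N = 1` (`v e0 ≠ 0`).  For a chain of length `N`
the colours of the levels are distinct, so `N ≤ nc c E`.  Take `N` maximal such that a chain with
`ε 0 false = e0` and length `N` exists (`Nat.findGreatest` or well-founded argument).  If the
closure property fails for `e, e'` and `s`, define `ε' N false = e`, `ε' N true = e'`,
`ε' i = ε i` for `i ≠ N`: a chain of length `N + 1` (`GG v ε' i = GG v ε i` for `i ≤ N`).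
`chain_le_rank`: the vectors `v (ε i false)`, `i < N`, are independent elements of the span.
-/

namespace RC.Red

open Submodule Module

variable {ι κ V : Type} [AddCommGroup V] [Module ℚ V]

theorem gg_congr {v : ι → V} {ε ε' : ℕ → Bool → ι} {i : ℕ}
    (h : ∀ j < i, ε' j false = ε j false) : GG v ε' i = GG v ε i := by
  unfold GG
  congr 1
  ext w
  constructor
  · rintro ⟨j, hj, rfl⟩
    exact ⟨j, hj, by rw [h j hj]⟩
  · rintro ⟨j, hj, rfl⟩
    exact ⟨j, hj, by rw [h j hj]⟩

theorem gg_range (v : ι → V) (ε : ℕ → Bool → ι) (i : ℕ) :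
    GG v ε i = span ℚ (Set.range (fun j : Fin i => v (ε j false))) := by
  unfold GG
  congr 1
  ext w
  constructor
  · rintro ⟨j, hj, rfl⟩
    exact ⟨⟨j, hj⟩, rfl⟩
  · rintro ⟨j, rfl⟩
    exact ⟨j, j.2, rfl⟩

theorem chain_indep {v : ι → V} {c : ι → κ} {E : Finset ι} {ε : ℕ → Bool → ι} {N : ℕ}
    (hch : CCh v c E ε N) (i : ℕ) (hi : i ≤ N) :
    LinearIndependent ℚ (fun j : Fin i => v (ε j false)) := by
  induction i with
  | zero => exact linearIndependent_empty_type
  | succ i ih =>
    rw [linearIndependent_fin_succ']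
    refine ⟨ih (by omega), ?_⟩
    have h1 := hch.ind i (by omega)
    rw [gg_range] at h1
    exact h1

theorem chain_le_nc {v : ι → V} {c : ι → κ} {E : Finset ι} {ε : ℕ → Bool → ι} {N : ℕ}
    (hch : CCh v c E ε N) : N ≤ nc c E := by
  classical
  have h1 : ((Finset.range N).image (fun i => c (ε i false))).card = N := by
    rw [Finset.card_image_of_injOn, Finset.card_range]
    intro i hi j hj hij
    exact hch.inj i (Finset.mem_range.1 hi) j (Finset.mem_range.1 hj) hij
  have h2 : (Finset.range N).image (fun i => c (ε i false)) ⊆ E.image c := by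
    intro x hx
    obtain ⟨i, hi, rfl⟩ := Finset.mem_image.1 hx
    exact Finset.mem_image_of_mem _ (hch.mem i (Finset.mem_range.1 hi) false)
  have h3 := Finset.card_le_card h2
  rw [h1] at h3
  unfold nc
  have h4 : (E.image c).card = (@Finset.image ι κ (fun a b => Classical.propDecidable (a = b)) c E).card := by
    congr
  rw [← h4]
  exact h3

theorem exists_chain {C : ClsT} {v : ι → V} {c : ι → κ} {E : Finset ι} (h : Sys C v c E)
    {e0 : ι} (he0 : e0 ∈ E) : ∃ (N : ℕ) (ε : ℕ → Bool → ι), 1 ≤ N ∧ ε 0 false = e0 ∧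
      CCh v c E ε N ∧
      ∀ e ∈ E, ∀ e' ∈ E, e ≠ e' → c e = c e' → (∀ i < N, c e ≠ c (ε i false)) →
        v e ∉ GG v ε N → ∀ s : ℚ, (s = 1 ∨ s = -1) → v e - s • v e' ∉ GG v ε N := by
  classical
  set S : Set ℕ := {N | 1 ≤ N ∧ ∃ ε : ℕ → Bool → ι, ε 0 false = e0 ∧ CCh v c E ε N} with hS
  have hSne : S.Nonempty := by
    refine ⟨1, le_refl 1, fun _ _ => e0, rfl, ?_⟩
    constructor
    · intro _ _ _; exact he0
    · rfl
    · intro _ _; rfl
    · intro i hi j hj _; omega
    · intro i hi
      have h0 : i = 0 := by omega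
      subst h0
      have h1 : GG v (fun _ _ => e0) 0 = ⊥ := by
        unfold GG
        rw [Submodule.span_eq_bot]
        rintro x ⟨j, hj, -⟩
        omega
      rw [h1, Submodule.mem_bot]
      exact h.ne e0 he0
    · intro i hi hi'; omega
  have hSb : BddAbove S := by
    refine ⟨nc c E, ?_⟩
    rintro N ⟨-, ε, -, hch⟩
    exact chain_le_nc hch
  obtain ⟨hN1, ε, hε0, hch⟩ := Nat.sSup_mem hSne hSb
  have hmax : sSup S + 1 ∉ S := by
    intro h1
    have h2 := le_csSup hSb h1
    omega
  set N := sSup S with hNdef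
  refine ⟨N, ε, hN1, hε0, hch, ?_⟩
  intro e he e' he' hee hcc hcol hnot s hs hd
  apply hmax
  set ε' : ℕ → Bool → ι := fun i b => if i = N then (if b then e' else e) else ε i b with hε'
  have hlt : ∀ i < N, ∀ b, ε' i b = ε i b := by
    intro i hi b
    simp only [hε', if_neg (show i ≠ N by omega)]
  have hNf : ε' N false = e := by simp [hε']
  have hNt : ε' N true = e' := by simp [hε']
  have hGG : ∀ i ≤ N, GG v ε' i = GG v ε i := fun i hi =>
    gg_congr fun j hj => hlt j (by omega) false
  refine ⟨by omega, ε', ?_, ?_⟩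
  · rw [hlt 0 (by omega)]; exact hε0
  · constructor
    · intro i hi b
      rcases Nat.lt_succ_iff_lt_or_eq.1 hi with h1 | h1
      · rw [hlt i h1]; exact hch.mem i h1 b
      · subst h1
        cases b
        · rw [hNf]; exact he
        · rw [hNt]; exact he'
    · rw [hlt 0 (by omega), hlt 0 (by omega)]; exact hch.zero
    · intro i hi
      rcases Nat.lt_succ_iff_lt_or_eq.1 hi with h1 | h1
      · rw [hlt i h1, hlt i h1]; exact hch.col i h1
      · subst h1; rw [hNf, hNt]; exact hcc
    · intro i hi j hj hij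
      rcases Nat.lt_succ_iff_lt_or_eq.1 hi with h1 | h1
      · rcases Nat.lt_succ_iff_lt_or_eq.1 hj with h2 | h2
        · rw [hlt i h1, hlt j h2] at hij
          exact hch.inj i h1 j h2 hij
        · subst h2
          rw [hlt i h1, hNf] at hij
          exact absurd hij.symm (hcol i h1)
      · subst h1
        rcases Nat.lt_succ_iff_lt_or_eq.1 hj with h2 | h2
        · rw [hlt j h2, hNf] at hij
          exact absurd hij (hcol j h2)
        · exact h2.symm
    · intro i hi
      rw [hGG i (by omega)]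
      rcases Nat.lt_succ_iff_lt_or_eq.1 hi with h1 | h1
      · rw [hlt i h1]; exact hch.ind i h1
      · subst h1; rw [hNf]; exact hnot
    · intro i hi hi0
      rw [hGG i (by omega)]
      rcases Nat.lt_succ_iff_lt_or_eq.1 hi with h1 | h1
      · rw [hlt i h1, hlt i h1]; exact hch.dif i h1 hi0
      · subst h1; rw [hNf, hNt]; exact ⟨hee, s, hs, hd⟩

theorem chain_finrank {v : ι → V} {c : ι → κ} {E : Finset ι} {ε : ℕ → Bool → ι} {N : ℕ}
    (hch : CCh v c E ε N) (i : ℕ) (hi : i ≤ N) : finrank ℚ (GG v ε i) = i := by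
  rw [gg_range, finrank_span_eq_card (chain_indep hch i hi), Fintype.card_fin]

theorem chain_le_rank {v : ι → V} {c : ι → κ} {E : Finset ι} {ε : ℕ → Bool → ι} {N : ℕ}
    (hch : CCh v c E ε N) : N ≤ rk v E := by
  have hfin : FiniteDimensional ℚ (span ℚ (v '' (E : Set ι))) :=
    FiniteDimensional.span_of_finite ℚ (E.finite_toSet.image v)
  have h1 : GG v ε N ≤ span ℚ (v '' (E : Set ι)) := by
    unfold GG
    apply Submodule.span_mono
    rintro w ⟨j, hj, rfl⟩
    exact Set.mem_image_of_mem _ (hch.mem j hj false)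
  have h2 := Submodule.finrank_mono h1
  rw [chain_finrank hch N le_rfl] at h2
  exact h2

end RC.Red

end

section

/-!
Module RC-R5.  The system contracted by a chain.  `rest c E ε N` = elements of `E` whose colour
is not a colour of the first `N` levels.  `e0 = ε 0 false` is alone in its colour class.

`rest_nc`: the image of `E` under `c` is the disjoint union of the image of `rest` and the `N`
distinct colours `c (ε i false)`.
`rest_card`: `E` is the disjoint union of `rest`, `{e0}` and the sets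
`{ε i false, ε i true}`, `0 < i < N` (by `Sys.two` the colour class of `ε i false` has exactly
these two elements, they are distinct).
`rest_rank`: `GG v ε N ≤ span (v '' E)` has dimension `N` (`chain_finrank`); the image of
`span (v '' E)` in the quotient has dimension `rk v E - N`.
`rest_sys`: `cls`: `cls_mkQ` with `T` = the set of the `v (ε i false)` and `hC.mono`; `ne`: no
loops; `par`: let `e, e' ∈ rest` have the same colour, `e ≠ e'`.  If the images are dependent,
then (both nonzero, `uni_par`) `mkQ (v e) = s • mkQ (v e')`, `s = ± 1`, so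
`v e - s • v e' ∈ GG v ε N`, excluded by `hcl`.
-/

namespace RC.Red

open Submodule Module

variable {ι κ V : Type} [AddCommGroup V] [Module ℚ V]

open Classical in
/-- The elements of `E` whose colour is not a colour of the chain. -/
noncomputable def rest (c : ι → κ) (E : Finset ι) (ε : ℕ → Bool → ι) (N : ℕ) : Finset ι :=
  E.filter (fun e => ∀ i < N, c e ≠ c (ε i false))

theorem rest_nc {v : ι → V} {c : ι → κ} {E : Finset ι} {ε : ℕ → Bool → ι} {N : ℕ}
    (hch : CCh v c E ε N) : nc c (rest c E ε N) + N = nc c E := by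
  classical
  have h1 : ((Finset.range N).image (fun i => c (ε i false))).card = N := by
    rw [Finset.card_image_of_injOn, Finset.card_range]
    intro i hi j hj hij
    exact hch.inj i (Finset.mem_range.1 hi) j (Finset.mem_range.1 hj) hij
  have hmem : ∀ e, e ∈ rest c E ε N ↔ e ∈ E ∧ ∀ i < N, c e ≠ c (ε i false) := by
    intro e
    unfold rest
    rw [Finset.mem_filter]
  have h2 : Disjoint ((rest c E ε N).image c) ((Finset.range N).image (fun i => c (ε i false))) := by
    rw [Finset.disjoint_left]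
    intro k hk hk'
    obtain ⟨e, he, rfl⟩ := Finset.mem_image.1 hk
    obtain ⟨i, hi, hie⟩ := Finset.mem_image.1 hk'
    exact ((hmem e).1 he).2 i (Finset.mem_range.1 hi) hie.symm
  have h3 : E.image c = (rest c E ε N).image c ∪ (Finset.range N).image (fun i => c (ε i false)) := by
    ext k
    rw [Finset.mem_union, Finset.mem_image, Finset.mem_image, Finset.mem_image]
    constructor
    · rintro ⟨e, he, rfl⟩
      by_cases hc : ∀ i < N, c e ≠ c (ε i false)
      · exact Or.inl ⟨e, (hmem e).2 ⟨he, hc⟩, rfl⟩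
      · push Not at hc
        obtain ⟨i, hi, hie⟩ := hc
        exact Or.inr ⟨i, Finset.mem_range.2 hi, hie.symm⟩
    · rintro (⟨e, he, rfl⟩ | ⟨i, hi, rfl⟩)
      · exact ⟨e, ((hmem e).1 he).1, rfl⟩
      · exact ⟨ε i false, hch.mem i (Finset.mem_range.1 hi) false, rfl⟩
  have h4 := congrArg Finset.card h3
  rw [Finset.card_union_of_disjoint h2, h1] at h4
  unfold nc
  convert h4.symm

theorem rest_card {C : ClsT} {v : ι → V} {c : ι → κ} {E : Finset ι} (h : Sys C v c E)
    {ε : ℕ → Bool → ι} {N : ℕ} (hN : 1 ≤ N) (hch : CCh v c E ε N)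
    (hs : ∀ e ∈ E, c e = c (ε 0 false) → e = ε 0 false) :
    (rest c E ε N).card + (2 * N - 1) = E.card := by
  classical
  let F : ℕ → Finset ι := fun i => E.filter (fun e => c e = c (ε i false))
  have hF : ∀ i e, e ∈ F i ↔ e ∈ E ∧ c e = c (ε i false) := fun i e => Finset.mem_filter
  have hF0 : (F 0).card = 1 := by
    have : F 0 = {ε 0 false} := by
      ext e
      rw [hF, Finset.mem_singleton]
      constructor
      · rintro ⟨h1, h2⟩
        exact hs e h1 h2
      · rintro rfl
        exact ⟨hch.mem 0 hN false, rfl⟩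
    rw [this, Finset.card_singleton]
  have hFi : ∀ i < N, 0 < i → (F i).card = 2 := by
    intro i hi hi0
    have : F i = {ε i false, ε i true} := by
      ext e
      rw [hF, Finset.mem_insert, Finset.mem_singleton]
      constructor
      · rintro ⟨h1, h2⟩
        rcases h.two e h1 (ε i false) (hch.mem i hi false) (ε i true) (hch.mem i hi true) h2
          (h2.trans (hch.col i hi)) with h3 | h3 | h3
        · exact Or.inl h3
        · exact Or.inr h3
        · exact absurd h3 (hch.dif i hi hi0).1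
      · rintro (rfl | rfl)
        · exact ⟨hch.mem i hi false, rfl⟩
        · exact ⟨hch.mem i hi true, (hch.col i hi).symm⟩
    rw [this, Finset.card_pair (hch.dif i hi hi0).1]
  have hdis : ∀ i ∈ Finset.range N, ∀ j ∈ Finset.range N, i ≠ j → Disjoint (F i) (F j) := by
    intro i hi j hj hij
    rw [Finset.disjoint_left]
    intro e h1 h2
    exact hij (hch.inj i (Finset.mem_range.1 hi) j (Finset.mem_range.1 hj)
      (((hF i e).1 h1).2.symm.trans ((hF j e).1 h2).2))
  have hU : E = rest c E ε N ∪ (Finset.range N).biUnion F := by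
    ext e
    rw [Finset.mem_union, Finset.mem_biUnion]
    unfold rest
    rw [Finset.mem_filter]
    constructor
    · intro he
      by_cases hc : ∀ i < N, c e ≠ c (ε i false)
      · exact Or.inl ⟨he, hc⟩
      · push Not at hc
        obtain ⟨i, hi, hie⟩ := hc
        exact Or.inr ⟨i, Finset.mem_range.2 hi, (hF i e).2 ⟨he, hie⟩⟩
    · rintro (⟨he, -⟩ | ⟨i, -, hie⟩)
      · exact he
      · exact ((hF i e).1 hie).1
  have hD : Disjoint (rest c E ε N) ((Finset.range N).biUnion F) := by
    rw [Finset.disjoint_left]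
    intro e he he'
    unfold rest at he
    rw [Finset.mem_filter] at he
    obtain ⟨i, hi, hie⟩ := Finset.mem_biUnion.1 he'
    exact he.2 i (Finset.mem_range.1 hi) ((hF i e).1 hie).2
  have hc1 : ((Finset.range N).biUnion F).card = 2 * N - 1 := by
    rw [Finset.card_biUnion hdis]
    obtain ⟨M, rfl⟩ : ∃ M, N = M + 1 := ⟨N - 1, by omega⟩
    rw [Finset.sum_range_succ', hF0]
    rw [Finset.sum_congr rfl (fun i hi => hFi (i + 1) (by have := Finset.mem_range.1 hi; omega)
      (by omega))]
    rw [Finset.sum_const, Finset.card_range, smul_eq_mul]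
    omega
  have h5 := congrArg Finset.card hU
  rw [Finset.card_union_of_disjoint hD, hc1] at h5
  exact h5.symm

theorem rest_rank {v : ι → V} {c : ι → κ} {E : Finset ι} {ε : ℕ → Bool → ι} {N : ℕ}
    (hch : CCh v c E ε N) (E' : Finset ι) (hE : E' ⊆ E) :
    rk (fun e => (GG v ε N).mkQ (v e)) E' + N ≤ rk v E := by
  have hfin : FiniteDimensional ℚ (span ℚ (v '' (E : Set ι))) :=
    FiniteDimensional.span_of_finite ℚ (E.finite_toSet.image v)
  have hle : GG v ε N ≤ span ℚ (v '' (E : Set ι)) := by
    unfold GG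
    apply Submodule.span_mono
    rintro w ⟨j, hj, rfl⟩
    exact ⟨ε j false, hch.mem j hj false, rfl⟩
  let f := (GG v ε N).mkQ.domRestrict (span ℚ (v '' (E : Set ι)))
  have h1 := LinearMap.finrank_range_add_finrank_ker f
  have h2 : finrank ℚ (LinearMap.ker f) = N := by
    have e1 : LinearMap.ker f = (GG v ε N).comap (span ℚ (v '' (E : Set ι))).subtype := by
      ext y
      simp [f, LinearMap.mem_ker]
    rw [e1, LinearEquiv.finrank_eq (Submodule.comapSubtypeEquivOfLe hle)]
    exact chain_finrank hch N le_rfl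
  have h3 : finrank ℚ (LinearMap.range f) = rk (fun e => (GG v ε N).mkQ (v e)) E := by
    unfold rk
    have e1 : LinearMap.range f = (span ℚ (v '' (E : Set ι))).map (GG v ε N).mkQ := by
      rw [LinearMap.range_domRestrict]
    rw [e1, Submodule.map_span, Set.image_image]
  have h4 := rk_mono (v := fun e => (GG v ε N).mkQ (v e)) hE
  unfold rk at h1 h3 h4 ⊢
  omega

theorem rest_sys {C : ClsT} (hC : Cls C) {v : ι → V} {c : ι → κ} {E : Finset ι}
    (h : Sys C v c E) {ε : ℕ → Bool → ι} {N : ℕ} (hN : 1 ≤ N) (hch : CCh v c E ε N)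
    (hcl : ∀ e ∈ E, ∀ e' ∈ E, e ≠ e' → c e = c e' → (∀ i < N, c e ≠ c (ε i false)) →
        v e ∉ GG v ε N → ∀ s : ℚ, (s = 1 ∨ s = -1) → v e - s • v e' ∉ GG v ε N)
    (hl : ∀ e ∈ rest c E ε N, v e ∉ GG v ε N) :
    Sys C (fun e => (GG v ε N).mkQ (v e)) c (rest c E ε N) := by
  classical
  have hsub : rest c E ε N ⊆ E := by
    unfold rest
    exact Finset.filter_subset _ _
  have hmem : ∀ e, e ∈ rest c E ε N ↔ e ∈ E ∧ ∀ i < N, c e ≠ c (ε i false) := by
    intro e
    unfold rest
    rw [Finset.mem_filter]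
  have hcls : C (V ⧸ GG v ε N) ((fun e => (GG v ε N).mkQ (v e)) '' (rest c E ε N : Set ι)) := by
    let T : Finset V := (Finset.range N).image (fun i => v (ε i false))
    have hTs : (T : Set V) = {w | ∃ j < N, w = v (ε j false)} := by
      ext w
      simp only [T, Finset.coe_image, Finset.coe_range, Set.mem_image, Set.mem_Iio, Set.mem_setOf_eq]
      constructor
      · rintro ⟨j, hj, rfl⟩
        exact ⟨j, hj, rfl⟩
      · rintro ⟨j, hj, rfl⟩
        exact ⟨j, hj, rfl⟩
    have hGG : GG v ε N = span ℚ (T : Set V) := by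
      rw [hTs]
      rfl
    have h1 := cls_con_finset hC (GG v ε N).mkQ (X := v '' (E : Set ι)) T
      (by
        rw [hTs]
        rintro w ⟨j, hj, rfl⟩
        exact ⟨ε j false, hch.mem j hj false, rfl⟩)
      (by
        intro t ht
        rw [mkQ_apply, Quotient.mk_eq_zero, hGG]
        exact subset_span ht)
      (by
        intro y _ hy
        rw [mkQ_apply, Quotient.mk_eq_zero, hGG] at hy
        exact hy) h.cls
    refine hC.mono h1 ?_
    rintro _ ⟨e, he, rfl⟩
    exact Or.inr (Or.inl ⟨v e, ⟨e, hsub he, rfl⟩, rfl⟩)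
  have hne : ∀ e ∈ rest c E ε N, (GG v ε N).mkQ (v e) ≠ 0 := by
    intro e he h0
    rw [mkQ_apply, Quotient.mk_eq_zero] at h0
    exact hl e he h0
  refine ⟨hcls, hne, ?_, ?_, ?_⟩
  · intro e he e' he' e'' he'' h1 h2
    exact h.two e (hsub he) e' (hsub he') e'' (hsub he'') h1 h2
  · intro e he e' he' hce hee
    by_contra hcon
    have hu := uni_par (hC.uni hcls) ⟨e, he, rfl⟩ ⟨e', he', rfl⟩ (hne e he) (hne e' he') hcon
    have hcol := ((hmem e').1 he').2
    rcases hu with hu | hu
    · have h1 : v e' - (1 : ℚ) • v e ∈ GG v ε N := by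
        rw [one_smul]
        exact (Submodule.Quotient.eq _).1 hu
      exact hcl e' (hsub he') e (hsub he) hee.symm hce.symm hcol (hl e' he') 1 (Or.inl rfl) h1
    · have h1 : v e' - (-1 : ℚ) • v e ∈ GG v ε N := by
        rw [neg_one_smul]
        apply (Submodule.Quotient.eq _).1
        exact hu
      exact hcl e' (hsub he') e (hsub he) hee.symm hce.symm hcol (hl e' he') (-1) (Or.inr rfl) h1
  · have h1 := rest_rank hch (rest c E ε N) hsub
    have h2 := rest_nc hch
    have h3 := h.rank
    omega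

end RC.Red

end

section

/-!
Module RC-R6.  Lifting short sets from the contracted system.

`lift_short`: take a minimal dependent rainbow set `T₁ ⊆ rest` of the contracted family
(`short_min`), `T₁.card ≤ k`, nonempty; pick `e ∈ T₁`, `T = T₁.erase e`.  `T` is independent
modulo `GG v ε N` and `v e ∈ GG v ε N ⊔ span (v '' T)` (coefficient of `e` nonzero).  `cost_TQ`:
`T.card + 1 + (N+1)/2 = T₁.card + (N + 1)/2`.
`loop_short`: `cost_TQ` with `T = ∅`.
`loop2_short`: `cost_TP` with `T = ∅`, `s = 1` (both vectors are in `GG v ε N`).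
-/

namespace RC.Red

open Submodule Module

variable {ι κ V : Type} [AddCommGroup V] [Module ℚ V]

theorem lift_short {C : ClsT} (hC : Cls C) {v : ι → V} {c : ι → κ} {E : Finset ι}
    (h : Sys C v c E) {ε : ℕ → Bool → ι} {N : ℕ} (hN : 1 ≤ N) (hch : CCh v c E ε N) {k : ℕ}
    (hs : Short (fun e => (GG v ε N).mkQ (v e)) c (rest c E ε N) k) :
    Short v c E (k + (N + 1) / 2) := by
  classical
  obtain ⟨T₁, hT₁, hcard, hinj, hdep, hmin⟩ := short_min hs
  have hne : T₁.Nonempty := by
    by_contra hemp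
    rw [Finset.not_nonempty_iff_eq_empty] at hemp
    apply hdep
    rw [hemp]
    simp
  obtain ⟨e, he⟩ := hne
  have hsub : ∀ x ∈ T₁, x ∈ E ∧ ∀ i < N, c x ≠ c (ε i false) := by
    intro x hx
    have := hT₁ hx
    simpa [rest] using this
  have hTi : ∀ μ : ι → ℚ, ∑ t ∈ T₁.erase e, μ t • v t ∈ GG v ε N →
      ∀ t ∈ T₁.erase e, μ t = 0 := by
    intro μ hμ
    have hli := hmin e he
    rw [linearIndepOn_finset_iff] at hli
    apply hli
    have := (Submodule.Quotient.mk_eq_zero (GG v ε N)).2 hμ
    rw [← Submodule.mkQ_apply, map_sum] at this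
    simpa only [map_smul] using this
  have hmem : v e ∈ GG v ε N ⊔ span ℚ (v '' ((T₁.erase e : Finset ι) : Set ι)) := by
    rw [linearIndepOn_finset_iff] at hdep
    push Not at hdep
    obtain ⟨μ, hμ, t0, ht0, hne0⟩ := hdep
    have hμ' : ∑ t ∈ T₁, μ t • v t ∈ GG v ε N := by
      rw [← Submodule.Quotient.mk_eq_zero, ← Submodule.mkQ_apply, map_sum]
      simpa only [map_smul] using hμ
    have hsplit : ∑ t ∈ T₁, μ t • v t = μ e • v e + ∑ t ∈ T₁.erase e, μ t • v t :=
      (Finset.add_sum_erase _ _ he).symm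
    have hμe : μ e ≠ 0 := by
      intro h0
      rw [hsplit, h0, zero_smul, zero_add] at hμ'
      by_cases h1 : t0 = e
      · exact hne0 (h1 ▸ h0)
      · exact hne0 (hTi μ hμ' t0 (Finset.mem_erase.2 ⟨h1, ht0⟩))
    have h2 : v e = (μ e)⁻¹ • ((∑ t ∈ T₁, μ t • v t) - ∑ t ∈ T₁.erase e, μ t • v t) := by
      rw [hsplit, add_sub_cancel_right, smul_smul, inv_mul_cancel₀ hμe, one_smul]
    rw [h2]
    refine Submodule.smul_mem _ _ (Submodule.sub_mem _ (Submodule.mem_sup_left hμ') ?_)
    refine Submodule.mem_sup_right (Submodule.sum_mem _ fun t ht => Submodule.smul_mem _ _ ?_)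
    exact Submodule.subset_span ⟨t, ht, rfl⟩
  have key := cost_TQ (hC.uni h.cls) h.par hch hN (T₁.erase e)
    (fun x hx => (hsub x (Finset.mem_of_mem_erase hx)).1)
    (hinj.mono (by exact_mod_cast Finset.erase_subset _ _))
    (fun t ht => (hsub t (Finset.mem_of_mem_erase ht)).2) hTi (hsub e he).1
    (fun t ht hct => (Finset.ne_of_mem_erase ht)
      (hinj (by exact_mod_cast Finset.mem_of_mem_erase ht) (by exact_mod_cast he) hct.symm))
    (hsub e he).2 hmem
  refine short_mono key (Finset.Subset.refl _) ?_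
  have := Finset.card_erase_add_one he
  omega

theorem loop_short {C : ClsT} (hC : Cls C) {v : ι → V} {c : ι → κ} {E : Finset ι}
    (h : Sys C v c E) {ε : ℕ → Bool → ι} {N : ℕ} (hN : 1 ≤ N) (hch : CCh v c E ε N) {e : ι}
    (he : e ∈ rest c E ε N) (hl : v e ∈ GG v ε N) : Short v c E (1 + (N + 1) / 2) := by
  classical
  have hsub : e ∈ E ∧ ∀ i < N, c e ≠ c (ε i false) := by simpa [rest] using he
  have key := cost_TQ (hC.uni h.cls) h.par hch hN ∅ (by simp) (by simp) (by simp)
    (by simp) hsub.1 (by simp) hsub.2 (Submodule.mem_sup_left hl)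
  simpa using key

theorem loop2_short {C : ClsT} (hC : Cls C) {v : ι → V} {c : ι → κ} {E : Finset ι}
    (h : Sys C v c E) {ε : ℕ → Bool → ι} {N : ℕ} (hN : 1 ≤ N) (hch : CCh v c E ε N) {e e' : ι}
    (he : e ∈ rest c E ε N) (he' : e' ∈ rest c E ε N) (hee : e ≠ e') (hc : c e = c e')
    (hl : v e ∈ GG v ε N) (hl' : v e' ∈ GG v ε N) : Short v c E (1 + N / 2) := by
  classical
  have hsub : e ∈ E ∧ ∀ i < N, c e ≠ c (ε i false) := by simpa [rest] using he
  have hsub' : e' ∈ E ∧ ∀ i < N, c e' ≠ c (ε i false) := by simpa [rest] using he'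
  have key := cost_TP (hC.uni h.cls) h.par hch hN ∅ (by simp) (by simp) (by simp)
    (by simp) hsub.1 hsub'.1 hee hc (by simp) hsub.2 (s := 1) (Or.inl rfl)
    (by rw [one_smul]; exact Submodule.sub_mem _ hl hl') (Submodule.mem_sup_left hl)
  simpa using key

end RC.Red

end

section

/-!
Module RC-R7.  The main reduction.  `n` colours, `a = 2 n - |E| ≥ 1` of size one (one of them is
that of `e0`), `b = |E| - n` of size two; `rk v E + 1 = n`; `N` levels, `m = N - 1 ≤ b`.
Suppose `¬ Short v c E (bd n |E|)`, `bd n |E| = a + b / 2`.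
Take the maximal chain of `exists_chain`.  `m ≤ b`: the levels `1..m` are colours of size two.
(1) Loops: suppose `e ∈ rest`, `v e ∈ GG v ε N`.  `loop_short`: `Short (2 + m / 2)` (note
    `1 + (N + 1)/2 = 2 + m/2`).  If `a ≥ 2`: `2 + m/2 ≤ a + b/2`.  If `a = 1`: `e` is not alone
    in its colour (only `e0` is), let `e' ∈ rest` be its partner, so `m ≤ b - 1`.  If
    `v e' ∈ GG v ε N`: `loop2_short`: `1 + (m+1)/2 ≤ 1 + b/2`.  Otherwise
    `span (v '' E)` contains `GG v ε N` and `v e'`, so `N + 1 ≤ rk v E = n - 1 = b` (`a = 1`: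
    `n = b + 1`), that is `m ≤ b - 2`, and `2 + m/2 ≤ 1 + b/2`.  All contradictions.
(2) No loops: `rest_sys`, `rest_nc`: `nc (rest) = n - N < n`, `ih` gives
    `Short (bd (n - N) |rest|)` in the quotient, `|rest| = |E| - (2N - 1)`, that is `a - 1`
    colours of size one and `b - m` of size two.  `lift_short`:
    `Short v c E (bd (n-N) |rest| + (N+1)/2)`, `(N + 1)/2 = m/2 + 1`.
    `a ≥ 2`: `(a-1) + (b-m)/2 + m/2 + 1 ≤ a + b/2`, contradiction.
    `a = 1`: `(b - m + 1)/2 + m/2 + 1 ≤ 1 + b/2` unless `b` is odd and `m` is even.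
    (`n - N = b - m` here.)
So `a = 1` (`|E| + 1 = 2 n`), `n = b + 1` even, `N = m + 1` odd.
-/

namespace RC.Red

open Submodule Module

variable {ι κ V : Type} [AddCommGroup V] [Module ℚ V]

private theorem card_le_aux {c : ι → κ} {F : Finset ι}
    (h : ∀ e ∈ F, ∀ e' ∈ F, ∀ e'' ∈ F, c e = c e' → c e = c e'' → e = e' ∨ e = e'' ∨ e' = e'') :
    F.card ≤ 2 * nc c F := by
  classical
  unfold nc
  convert Finset.card_le_mul_card_image (f := c) F 2 (fun a _ => ?_)
  by_contra hlt
  rw [not_le, Finset.two_lt_card] at hlt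
  obtain ⟨x, hx, y, hy, z, hz, hxy, hxz, hyz⟩ := hlt
  rw [Finset.mem_filter] at hx hy hz
  rcases h x hx.1 y hy.1 z hz.1 (hx.2.trans hy.2.symm) (hx.2.trans hz.2.symm) with h1 | h1 | h1
  · exact hxy h1
  · exact hxz h1
  · exact hyz h1

private theorem card_lt_aux {c : ι → κ} {F : Finset ι}
    (h : ∀ e ∈ F, ∀ e' ∈ F, ∀ e'' ∈ F, c e = c e' → c e = c e'' → e = e' ∨ e = e'' ∨ e' = e'')
    {e : ι} (he : e ∈ F) (hs : ∀ x ∈ F, c x = c e → x = e) : F.card + 1 ≤ 2 * nc c F := by
  classical
  have h1 : (F.erase e).image c = (F.image c).erase (c e) := by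
    ext a
    simp only [Finset.mem_image, Finset.mem_erase]
    constructor
    · rintro ⟨x, ⟨hne, hx⟩, rfl⟩
      exact ⟨fun hc => hne (hs x hx hc), x, hx, rfl⟩
    · rintro ⟨hne, x, hx, rfl⟩
      exact ⟨x, ⟨fun hc => hne (by rw [hc]), hx⟩, rfl⟩
  have h2 : nc c F = (F.image c).card := by
    unfold nc
    congr
  have h3 : nc c (F.erase e) = ((F.erase e).image c).card := by
    unfold nc
    congr
  have h4 : (F.erase e).card ≤ 2 * nc c (F.erase e) := card_le_aux
    (fun x hx y hy z hz => h x (Finset.mem_of_mem_erase hx) y (Finset.mem_of_mem_erase hy) z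
      (Finset.mem_of_mem_erase hz))
  have h5 : c e ∈ F.image c := Finset.mem_image_of_mem c he
  rw [h3, h1, Finset.card_erase_of_mem h5, Finset.card_erase_of_mem he, ← h2] at h4
  have h6 : 0 < F.card := Finset.card_pos.2 ⟨e, he⟩
  have h7 : 0 < nc c F := by
    rw [h2]
    exact Finset.card_pos.2 ⟨_, h5⟩
  omega

theorem red_main {C : ClsT} (hC : Cls C) {n : ℕ} (ih : ∀ n' < n, GC C n') {v : ι → V}
    {c : ι → κ} {E : Finset ι} (h : Sys C v c E) (hn : nc c E = n) (hr : rk v E + 1 = n)
    {e0 : ι} (he0 : e0 ∈ E) (hs : ∀ e ∈ E, c e = c e0 → e = e0)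
    (hno : ¬ Short v c E (bd n E.card)) :
    E.card + 1 = 2 * n ∧ Even n ∧ ∃ (N : ℕ) (ε : ℕ → Bool → ι), Odd N ∧ ε 0 false = e0 ∧
      CCh v c E ε N ∧
      (∀ e ∈ E, ∀ e' ∈ E, e ≠ e' → c e = c e' → (∀ i < N, c e ≠ c (ε i false)) →
        v e ∉ GG v ε N → ∀ s : ℚ, (s = 1 ∨ s = -1) → v e - s • v e' ∉ GG v ε N) ∧
      (∀ e ∈ rest c E ε N, v e ∉ GG v ε N) := by
  obtain ⟨N, ε, hN, hε0, hch, hcl⟩ := exists_chain h he0
  have hs' : ∀ e ∈ E, c e = c (ε 0 false) → e = ε 0 false := by
    rw [hε0]
    exact hs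
  have hnc := rest_nc hch
  have hcard := rest_card h hN hch hs'
  have hrk := chain_le_rank hch
  have hsub : rest c E ε N ⊆ E := by
    classical
    unfold rest
    exact Finset.filter_subset _ _
  have htwo : ∀ e ∈ rest c E ε N, ∀ e' ∈ rest c E ε N, ∀ e'' ∈ rest c E ε N, c e = c e' →
      c e = c e'' → e = e' ∨ e = e'' ∨ e' = e'' :=
    fun e he e' he' e'' he'' => h.two e (hsub he) e' (hsub he') e'' (hsub he'')
  have hc1 := sys_card h
  have hc2 : nc c (rest c E ε N) ≤ (rest c E ε N).card := by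
    classical
    unfold nc
    convert Finset.card_image_le (s := rest c E ε N) (f := c)
  have hc3 : (rest c E ε N).card ≤ 2 * nc c (rest c E ε N) := card_le_aux htwo
  rw [hn] at hnc hc1
  have hbd : bd n E.card = (2 * n - E.card) + (E.card - n) / 2 := by
    unfold bd
    rw [if_neg]
    omega
  -- no loops
  have hl : ∀ e ∈ rest c E ε N, v e ∉ GG v ε N := by
    intro e he hmem
    have hsh := loop_short hC h hN hch he hmem
    by_cases ha : E.card + 1 = 2 * n
    · have hex : ∃ x ∈ rest c E ε N, c x = c e ∧ x ≠ e := by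
        by_contra hcon
        push Not at hcon
        have := card_lt_aux htwo he hcon
        (clear * - hr hN hnc hcard ha this; omega)
      obtain ⟨x, hx, hcx, hxe⟩ := hex
      by_cases hmx : v x ∈ GG v ε N
      · have hsh2 := loop2_short hC h hN hch he hx (Ne.symm hxe) hcx.symm hmem hmx
        refine hno (short_mono hsh2 (Finset.Subset.refl E) ?_)
        rw [hbd]
        (clear * - hr hnc hrk ha; omega)
      · have hr1 := rest_rank hch {x} (Finset.singleton_subset_iff.2 (hsub hx))
        have hr2 : rk (fun e => (GG v ε N).mkQ (v e)) {x} = 1 := by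
          unfold rk
          rw [Finset.coe_singleton, Set.image_singleton]
          apply finrank_span_singleton
          intro h0
          apply hmx
          rwa [Submodule.mkQ_apply, Submodule.Quotient.mk_eq_zero] at h0
        refine hno (short_mono hsh (Finset.Subset.refl E) ?_)
        rw [hbd]
        omega
    · refine hno (short_mono hsh (Finset.Subset.refl E) ?_)
      rw [hbd]
      (clear * - hr hN hnc hcard hrk hc1 hc3 ha; omega)
  have hsys := rest_sys hC h hN hch hcl hl
  have hnN : n - N < n := by (clear * - hr hN hnc hrk; omega)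
  have hS := ih (n - N) hnN _ _ _ _ c _ hsys (by omega)
  have hL := lift_short hC h hN hch hS
  have hbig : ¬ bd (n - N) (rest c E ε N).card + (N + 1) / 2 ≤ bd n E.card := by
    intro hle
    exact hno (short_mono hL (Finset.Subset.refl E) hle)
  rw [hbd] at hbig
  unfold bd at hbig
  have key : E.card + 1 = 2 * n ∧ n % 2 = 0 ∧ N % 2 = 1 := by
    split_ifs at hbig with h1
    · omega
    · (clear * - hr hN hnc hcard hrk hc1 hc2 hc3 h1 hbig; omega)
  refine ⟨key.1, Nat.even_iff.2 key.2.1, N, ε, Nat.odd_iff.2 key.2.2, hε0, hch, hcl, hl⟩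

end RC.Red

end

section

/-!
Module RC-R8.  Chains of odd length `N ≥ 3` in type `(1, n - 1)`, `n` even: `Short (n / 2)`.

Let `N' = N - 1` (even, `≥ 2`), `g = mkQ (GG v ε N')`, `x = ε N' false`, `y = ε N' true`,
`E'' = rest c E ε N ∪ {x}`.  `(v, c, E'')` contracted by `GG v ε N'` is a system: `cls` by
`cls_mkQ`, `hC.mono`; `ne`: elements of `rest` are not even in `GG v ε N`, `x` by `CCh.ind`;
`par`: pairs in `rest` are independent modulo `GG v ε N` (see `rest_sys`), hence modulo
`GG v ε N'`; `x` is alone in its colour; rank: `rest_rank` for the chain of length `N'`: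
`rk ≤ rk v E - N' = n - 1 - N'`, `nc c E'' = nc (rest) + 1 = n - N + 1 = n - N'`.
`|E''| = |rest| + 1 = |E| - 2 N + 2 = 2 (n - N') - 1`.
`ih` (`n - N' < n`): `Short (bd (n - N') (2 (n-N') - 1)) = Short (1 + (n - N' - 1)/2)`, and as
`n` and `N'` are even this is `(n - N')/2`.  Take a minimal such set `T₁` (`short_min`).
* `x ∉ T₁`: `cost_TQ` for the chain of length `N'` (as in `lift_short`):
  `T₁.card + (N' + 1)/2 ≤ (n - N')/2 + N'/2 = n/2`.
* `x ∈ T₁`: `T = T₁.erase x` is independent modulo `GG v ε N'` and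
  `v x ∈ GG v ε N' ⊔ span (v '' T)`; `v x - s • v y ∈ GG v ε N'` (`CCh.dif`, `N' > 0`);
  `cost_TP` for the chain of length `N'`, `e = x`, `e' = y`:
  `T.card + 1 + N'/2 ≤ (n - N')/2 + N'/2 = n/2`.
(`CCh v c E ε N'` from `CCh v c E ε N`.)
-/

namespace RC.Red

open Submodule Module

variable {ι κ V : Type} [AddCommGroup V] [Module ℚ V]

private theorem gg_mono (v : ι → V) (ε : ℕ → Bool → ι) {i j : ℕ} (h : i ≤ j) :
    GG v ε i ≤ GG v ε j := by
  unfold GG
  refine span_mono ?_
  rintro w ⟨k, hk, rfl⟩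
  exact ⟨k, lt_of_lt_of_le hk h, rfl⟩

private theorem cch_mono {v : ι → V} {c : ι → κ} {E : Finset ι} {ε : ℕ → Bool → ι} {N N' : ℕ}
    (h : CCh v c E ε N) (hN : N' ≤ N) : CCh v c E ε N' where
  mem := fun i hi => h.mem i (lt_of_lt_of_le hi hN)
  zero := h.zero
  col := fun i hi => h.col i (lt_of_lt_of_le hi hN)
  inj := fun i hi j hj => h.inj i (lt_of_lt_of_le hi hN) j (lt_of_lt_of_le hj hN)
  ind := fun i hi => h.ind i (lt_of_lt_of_le hi hN)
  dif := fun i hi => h.dif i (lt_of_lt_of_le hi hN)

private theorem gg_finset {v : ι → V} {c : ι → κ} {E : Finset ι} {ε : ℕ → Bool → ι} {N : ℕ}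
    (h : CCh v c E ε N) : ∃ T : Finset V, (T : Set V) ⊆ v '' (E : Set ι) ∧
      span ℚ (T : Set V) = GG v ε N := by
  classical
  refine ⟨(Finset.range N).image (fun j => v (ε j false)), ?_, ?_⟩
  · intro w hw
    rw [Finset.mem_coe, Finset.mem_image] at hw
    obtain ⟨j, hj, rfl⟩ := hw
    exact ⟨_, h.mem j (Finset.mem_range.1 hj) false, rfl⟩
  · unfold GG
    congr 1
    ext w
    rw [Finset.mem_coe, Finset.mem_image]
    constructor
    · rintro ⟨j, hj, rfl⟩
      exact ⟨j, Finset.mem_range.1 hj, rfl⟩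
    · rintro ⟨j, hj, rfl⟩
      exact ⟨j, Finset.mem_range.2 hj, rfl⟩

private theorem ext_aux [DecidableEq ι] (G : Submodule ℚ V) (v : ι → V) (T : Finset ι)
    (hd : ¬ LinearIndepOn ℚ (fun e => G.mkQ (v e)) (T : Set ι))
    (hm : ∀ e ∈ T, LinearIndepOn ℚ (fun e => G.mkQ (v e)) ((T.erase e : Finset ι) : Set ι))
    {e : ι} (he : e ∈ T) :
    (∀ μ : ι → ℚ, ∑ t ∈ T.erase e, μ t • v t ∈ G → ∀ t ∈ T.erase e, μ t = 0) ∧
      v e ∈ G ⊔ span ℚ (v '' ((T.erase e : Finset ι) : Set ι)) := by
  have h1 := linearIndepOn_finset_iff.1 (hm e he)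
  have hq : ∀ (S : Finset ι) (μ : ι → ℚ),
      ∑ t ∈ S, μ t • G.mkQ (v t) = G.mkQ (∑ t ∈ S, μ t • v t) := by
    intro S μ
    rw [map_sum]
    exact Finset.sum_congr rfl fun t _ => by rw [map_smul]
  refine ⟨fun μ hμ => h1 μ ?_, ?_⟩
  · rw [hq]
    exact (Submodule.Quotient.mk_eq_zero G).2 hμ
  · rw [linearIndepOn_finset_iff] at hd
    push Not at hd
    obtain ⟨f, hf, i, hi, hfi⟩ := hd
    have hfe : f e ≠ 0 := by
      intro h0
      have h2 : ∑ t ∈ T.erase e, f t • G.mkQ (v t) = 0 := by
        rw [← Finset.add_sum_erase T _ he, h0, zero_smul, zero_add] at hf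
        exact hf
      have h3 := h1 f h2
      by_cases hie : i = e
      · exact hfi (hie ▸ h0)
      · exact hfi (h3 i (Finset.mem_erase.2 ⟨hie, hi⟩))
    have h4 : ∑ t ∈ T, f t • v t ∈ G := by
      rw [hq] at hf
      exact (Submodule.Quotient.mk_eq_zero G).1 hf
    rw [← Finset.add_sum_erase T _ he] at h4
    have h5 : v e = (f e)⁻¹ • (f e • v e + ∑ t ∈ T.erase e, f t • v t)
        + (-(f e)⁻¹) • ∑ t ∈ T.erase e, f t • v t := by
      rw [smul_add, smul_smul, inv_mul_cancel₀ hfe, one_smul, neg_smul, add_neg_cancel_right]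
    rw [h5]
    refine Submodule.add_mem_sup (G.smul_mem _ h4) (Submodule.smul_mem _ _ ?_)
    exact Submodule.sum_mem _ fun t ht =>
      Submodule.smul_mem _ _ (subset_span ⟨t, Finset.mem_coe.2 ht, rfl⟩)

theorem red_top {C : ClsT} (hC : Cls C) {n : ℕ} (ih : ∀ n' < n, GC C n') {v : ι → V}
    {c : ι → κ} {E : Finset ι} (h : Sys C v c E) (hn : nc c E = n) (hr : rk v E + 1 = n)
    (hE : E.card + 1 = 2 * n) (hev : Even n)
    {N : ℕ} {ε : ℕ → Bool → ι} (hN : 3 ≤ N) (hodd : Odd N)
    (hs : ∀ e ∈ E, c e = c (ε 0 false) → e = ε 0 false) (hch : CCh v c E ε N)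
    (hcl : ∀ e ∈ E, ∀ e' ∈ E, e ≠ e' → c e = c e' → (∀ i < N, c e ≠ c (ε i false)) →
        v e ∉ GG v ε N → ∀ s : ℚ, (s = 1 ∨ s = -1) → v e - s • v e' ∉ GG v ε N)
    (hl : ∀ e ∈ rest c E ε N, v e ∉ GG v ε N) : Short v c E (n / 2) := by
  classical
  obtain ⟨N', rfl⟩ : ∃ N', N = N' + 1 := ⟨N - 1, by omega⟩
  have hN' : 2 ≤ N' := by omega
  have hN'ev : Even N' := by
    rcases Nat.even_or_odd N' with h1 | h1
    · exact h1
    · exact absurd hodd (Nat.not_odd_iff_even.2 h1.add_one)
  have hch' : CCh v c E ε N' := cch_mono hch (Nat.le_succ N')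
  have hlt : N' < N' + 1 := Nat.lt_succ_self N'
  set x := ε N' false with hx
  set y := ε N' true with hy
  obtain ⟨hxy, s, hs1, hdif⟩ := hch.dif N' hlt (by omega)
  have hxE : x ∈ E := hch.mem N' hlt false
  have hyE : y ∈ E := hch.mem N' hlt true
  have hcxy : c x = c y := hch.col N' hlt
  have hxG : v x ∉ GG v ε N' := hch.ind N' hlt
  have hrestE : rest c E ε (N' + 1) ⊆ E := by
    unfold rest
    exact Finset.filter_subset _ _
  have hrestc : ∀ e ∈ rest c E ε (N' + 1), ∀ i < N' + 1, c e ≠ c (ε i false) := by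
    intro e he
    unfold rest at he
    exact (Finset.mem_filter.1 he).2
  have hxr : x ∉ rest c E ε (N' + 1) := fun h1 => hrestc x h1 N' hlt rfl
  have hcxr : ∀ e ∈ rest c E ε (N' + 1), c e ≠ c x := fun e he => hrestc e he N' hlt
  set E' := insert x (rest c E ε (N' + 1)) with hE'
  have hE'E : E' ⊆ E := by
    intro e he
    rw [hE', Finset.mem_insert] at he
    rcases he with rfl | he
    · exact hxE
    · exact hrestE he
  have hcxi : ∀ i < N', c x ≠ c (ε i false) := by
    intro i hi h1
    have := hch.inj N' hlt i (by omega) h1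
    omega
  have hE'c : ∀ e ∈ E', ∀ i < N', c e ≠ c (ε i false) := by
    intro e he i hi
    rw [hE', Finset.mem_insert] at he
    rcases he with rfl | he
    · exact hcxi i hi
    · exact hrestc e he i (by omega)
  -- counting
  have hnc : nc c E' = nc c (rest c E ε (N' + 1)) + 1 := by
    unfold nc
    rw [hE', Finset.image_insert, Finset.card_insert_of_notMem]
    intro h1
    obtain ⟨e, he, hce⟩ := Finset.mem_image.1 h1
    exact hcxr e he hce
  have hnr := rest_nc hch
  have hcr := rest_card h (by omega : 1 ≤ N' + 1) hch hs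
  have hcard : E'.card = (rest c E ε (N' + 1)).card + 1 := by
    rw [hE', Finset.card_insert_of_notMem hxr]
  have hrk := rest_rank hch' E' hE'E
  -- the contracted system
  obtain ⟨TT, hTT, hsp⟩ := gg_finset hch'
  have hcls0 : C (V ⧸ GG v ε N') ((GG v ε N').mkQ '' (v '' (E : Set ι))) := by
    have h1 := cls_mkQ hC TT hTT h.cls
    rw [hsp] at h1
    exact h1
  have hsub : ∀ z ∈ (fun e => (GG v ε N').mkQ (v e)) '' (E' : Set ι),
      z ∈ (GG v ε N').mkQ '' (v '' (E : Set ι)) := by
    rintro z ⟨e, he, rfl⟩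
    exact ⟨v e, ⟨e, hE'E he, rfl⟩, rfl⟩
  have hsys : Sys C (fun e => (GG v ε N').mkQ (v e)) c E' := by
    have hne : ∀ e ∈ E', (GG v ε N').mkQ (v e) ≠ 0 := by
      intro e he h0
      have h1 : v e ∈ GG v ε N' := (Submodule.Quotient.mk_eq_zero _).1 h0
      rw [hE', Finset.mem_insert] at he
      rcases he with rfl | he
      · exact hxG h1
      · exact hl e he (gg_mono v ε (Nat.le_succ N') h1)
    refine ⟨hC.mono hcls0 fun z hz => Or.inr (Or.inl (hsub z hz)), hne,
      fun e he e' he' e'' he'' => h.two e (hE'E he) e' (hE'E he') e'' (hE'E he''), ?_, ?_⟩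
    · intro e he e' he' hcc hee
      rcases Finset.mem_insert.1 he with hex | her
      · rcases Finset.mem_insert.1 he' with hex' | her'
        · exact absurd (hex.trans hex'.symm) hee
        · exact absurd (by rw [← hcc, hex]) (hcxr e' her')
      · rcases Finset.mem_insert.1 he' with hex' | her'
        · exact absurd (by rw [hcc, hex']) (hcxr e her)
        · by_contra hli
          have hU : Uni ((GG v ε N').mkQ '' (v '' (E : Set ι))) := hC.uni hcls0
          have h1 := uni_par hU (hsub _ ⟨e, he, rfl⟩) (hsub _ ⟨e', he', rfl⟩) (hne e he)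
            (hne e' he') hli
          have h2 : ∀ s : ℚ, (s = 1 ∨ s = -1) → v e - s • v e' ∉ GG v ε (N' + 1) :=
            hcl e (hE'E he) e' (hE'E he') hee hcc (hrestc e her) (hl e her)
          rcases h1 with h1 | h1
          · refine h2 1 (Or.inl rfl) (gg_mono v ε (Nat.le_succ N') ?_)
            rw [one_smul]
            apply (Submodule.Quotient.mk_eq_zero _).1
            change (GG v ε N').mkQ (v e - v e') = 0
            rw [map_sub]
            exact sub_eq_zero.2 h1.symm
          · refine h2 (-1) (Or.inr rfl) (gg_mono v ε (Nat.le_succ N') ?_)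
            rw [neg_one_smul, sub_neg_eq_add]
            apply (Submodule.Quotient.mk_eq_zero _).1
            change (GG v ε N').mkQ (v e + v e') = 0
            rw [map_add]
            have h3 : (GG v ε N').mkQ (v e') = -(GG v ε N').mkQ (v e) := h1
            rw [h3, add_neg_cancel]
    · omega
  have hn' : nc c E' = n - N' := by omega
  have hn'lt : n - N' < n := by omega
  have hn'ev : Even (n - N') := by
    obtain ⟨a, ha⟩ := hev
    obtain ⟨b, hb⟩ := hN'ev
    exact ⟨a - b, by omega⟩
  obtain ⟨m, hm⟩ := hn'ev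
  obtain ⟨m', hm'⟩ := hN'ev
  have hshort := ih (n - N') hn'lt _ _ _ _ _ _ hsys hn'
  obtain ⟨T, hTE, hTcard, hTc, hTd, hTm⟩ := short_min hshort
  have hbd : bd (n - N') E'.card = (n - N') / 2 := by
    unfold bd
    rw [if_neg (by omega)]
    omega
  rw [hbd] at hTcard
  have hcol : ∀ e ∈ T, ∀ t ∈ T.erase e, c e ≠ c t := by
    intro e he t ht hct
    rw [Finset.mem_erase] at ht
    exact ht.1 (hTc (Finset.mem_coe.2 ht.2) (Finset.mem_coe.2 he) hct.symm)
  have hsubT : ∀ e : ι, T.erase e ⊆ E := fun e =>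
    (Finset.erase_subset e T).trans (hTE.trans hE'E)
  have hinj : ∀ e : ι, Set.InjOn c ((T.erase e : Finset ι) : Set ι) := fun e =>
    hTc.mono (by exact_mod_cast Finset.erase_subset e T)
  have hUE : Uni (v '' (E : Set ι)) := hC.uni h.cls
  by_cases hxT : x ∈ T
  · obtain ⟨hi, hmem⟩ := ext_aux (GG v ε N') v T hTd hTm hxT
    have h1 := cost_TP hUE h.par hch' (by (clear * - n v c E ε hN m hm' T; omega)) (T.erase x) (hsubT x) (hinj x)
      (fun t ht => hE'c t (hTE (Finset.mem_of_mem_erase ht))) hi hxE hyE hxy hcxy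
      (hcol x hxT) hcxi hs1 hdif hmem
    rw [Finset.card_erase_add_one hxT] at h1
    exact short_mono h1 (Finset.Subset.refl E) (by omega)
  · have hne : T.Nonempty := by
      rw [Finset.nonempty_iff_ne_empty]
      rintro rfl
      apply hTd
      rw [Finset.coe_empty]
      exact linearIndepOn_empty _ _
    obtain ⟨e, he⟩ := hne
    obtain ⟨hi, hmem⟩ := ext_aux (GG v ε N') v T hTd hTm he
    have h1 := cost_TQ hUE h.par hch' (by omega) (T.erase e) (hsubT e) (hinj e)
      (fun t ht => hE'c t (hTE (Finset.mem_of_mem_erase ht))) hi (hE'E (hTE he))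
      (hcol e he) (hE'c e (hTE he)) hmem
    rw [Finset.card_erase_add_one he] at h1
    exact short_mono h1 (Finset.Subset.refl E) (by (clear * - hn hr hnc hnr hn' hm hm' hTcard hbd; omega))

end RC.Red

end

section

/-!
Module RC-R9.  Reduction of `GC C n` to bad systems.

`bad_of_not`: if `Sys C v c E`, `nc c E = n`, `e0 ∈ E` alone in its colour, `ih` below `n`, and
`¬ Short v c E (bd n E.card)`, then `n = 2 h` and `Bad C h v c E e0`:
* `rk v E + 1 = n`: otherwise `short_drop`.
* `red_main`: `E.card + 1 = 2 n`, `n = 2 h` even, `bd n E.card = 1 + (n - 1)/2 = h` (`h ≥ 1`);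
  if `N ≥ 3` then `red_top` gives `Short v c E (n/2)`, contradiction; so `N = 1`.
* `partner`: only one colour class of size one: `E.card = 2 n - 1`, class sizes are 1 or 2
  (`Sys.two`), so all others have size 2.
* `tri`: `e, e'` of the same colour, `e ≠ e'` (so both are `≠ e0` and in `rest`).  `v e, v e'` are
  not in `GG v ε 1 = span {v e0}`.  Suppose `v e0, v e, v e'` dependent.  Any two of them are
  independent (`Sys.par` for `e, e'`; no loops for the others), so the set is a minimal
  dependent set and by `uni_circ` all coefficients are `± t`: `v e - s • v e' ∈ span {v e0}`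
  with `s = ± 1`, excluded by the closure property.
`GC_of_noBad`: strong induction on `n`.  Let `Sys C v c E`, `nc c E = n`.
* If some colour has exactly one element `e0` (`E.card ≠ 2 n`): `bad_of_not`.
* Otherwise all colours have two elements, `E.card = 2 n`, `bd n (2 n) = (n + 1)/2`.  `n ≥ 1`
  (`Sys.rank`), take `e, e' ∈ E` of one colour and `E' = E.erase e'`: `Sys C v c E'`
  (`nc c E' = n`), `e` is alone in its colour, so `Short v c E' (bd n (2 n - 1))` by
  `bad_of_not`, and `bd n (2 n - 1) = 1 + (n - 1)/2 = (n + 1)/2`.  `short_mono`.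
-/

namespace RC.Red

open Submodule Module

theorem reduce_fiber_le {ι κ : Type} [DecidableEq ι] [DecidableEq κ] {c : ι → κ} {E : Finset ι}
    (h : ∀ e ∈ E, ∀ e' ∈ E, ∀ e'' ∈ E, c e = c e' → c e = c e'' → e = e' ∨ e = e'' ∨ e' = e'') :
    E.card ≤ 2 * (E.image c).card := by
  refine Finset.card_le_mul_card_image E 2 fun a _ => ?_
  by_contra hcon
  push Not at hcon
  rw [Finset.two_lt_card] at hcon
  obtain ⟨x, hx, y, hy, z, hz, h1, h2, h3⟩ := hcon
  rw [Finset.mem_filter] at hx hy hz
  rcases h x hx.1 y hy.1 z hz.1 (by rw [hx.2, hy.2]) (by rw [hx.2, hz.2]) with h4 | h4 | h4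
  · exact h1 h4
  · exact h2 h4
  · exact h3 h4

theorem reduce_nc_eq {ι κ : Type} [DecidableEq κ] (c : ι → κ) (E : Finset ι) :
    nc c E = (E.image c).card :=
  nc_image c E

theorem bad_of_not {C : ClsT} (hC : Cls C) {n : ℕ} (ih : ∀ n' < n, GC C n')
    {ι κ V : Type} [AddCommGroup V] [Module ℚ V] {v : ι → V} {c : ι → κ} {E : Finset ι}
    (h : Sys C v c E) (hn : nc c E = n) {e0 : ι} (he0 : e0 ∈ E)
    (hs : ∀ e ∈ E, c e = c e0 → e = e0) (hno : ¬ Short v c E (bd n E.card)) :
    ∃ h' : ℕ, n = 2 * h' ∧ Bad C h' v c E e0 := by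
  classical
  -- rank
  have hr : rk v E + 1 = n := by
    by_contra hcon
    have h1 := h.rank
    rw [hn] at h1
    exact hno (short_drop hC ih h hn (by omega))
  obtain ⟨hcard, hev, N, ε, hodd, hε0, hch, hcl, hl⟩ := red_main hC ih h hn hr he0 hs hno
  obtain ⟨k, hk⟩ := hev
  have hEpos : 0 < E.card := Finset.card_pos.2 ⟨e0, he0⟩
  have hkpos : 0 < k := by omega
  have hbd : bd n E.card = k := by
    unfold bd
    rw [if_neg (by omega)]
    omega
  have hN1 : N = 1 := by
    by_contra hcon
    have h3 : 3 ≤ N := by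
      obtain ⟨r, hr'⟩ := hodd
      (clear * - n v c E k hcon hr'; omega)
    have h4 := red_top hC ih h hn hr hcard ⟨k, hk⟩ h3 hodd (by rw [hε0]; exact hs) hch hcl hl
    rw [hbd] at hno
    have e1 : n / 2 = k := by omega
    rw [e1] at h4
    exact hno h4
  subst hN1
  have hGG : GG v ε 1 = span ℚ {v e0} := by
    unfold GG
    congr 1
    ext w
    simp only [Set.mem_ofPred_eq, Set.mem_singleton_iff]
    constructor
    · rintro ⟨j, hj, rfl⟩
      have : j = 0 := by omega
      rw [this, hε0]
    · rintro rfl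
      exact ⟨0, by omega, by rw [hε0]⟩
  refine ⟨k, by (clear * - c hr hk; omega), ?_⟩
  refine ⟨?_, h, by omega, by omega, he0, hs, ?_, by omega, ?_, ?_⟩
  · intro n' hn'
    exact ih n' (by omega)
  · -- partners
    intro e he hne
    by_contra hcon
    push Not at hcon
    have halone : ∀ x ∈ E, c x = c e → x = e := by
      intro x hx hcx
      by_contra hxe
      exact hcon x hx hxe hcx
    have h1 : ((E.erase e0).erase e).card ≤ 2 * (((E.erase e0).erase e).image c).card := by
      refine reduce_fiber_le ?_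
      intro x hx y hy z hz
      exact h.two x (Finset.mem_of_mem_erase (Finset.mem_of_mem_erase hx)) y
        (Finset.mem_of_mem_erase (Finset.mem_of_mem_erase hy)) z
        (Finset.mem_of_mem_erase (Finset.mem_of_mem_erase hz))
    have h2 : ((E.erase e0).erase e).card + 2 = E.card := by
      have a1 : (E.erase e0).card + 1 = E.card := Finset.card_erase_add_one he0
      have a2 : ((E.erase e0).erase e).card + 1 = (E.erase e0).card :=
        Finset.card_erase_add_one (Finset.mem_erase.2 ⟨hne, he⟩)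
      omega
    have h3 : (((E.erase e0).erase e).image c).card + 2 ≤ nc c E := by
      rw [reduce_nc_eq]
      have b1 : c e ∉ ((E.erase e0).erase e).image c := by
        rw [Finset.mem_image]
        rintro ⟨x, hx, hcx⟩
        rw [Finset.mem_erase, Finset.mem_erase] at hx
        exact hx.1 (halone x hx.2.2 hcx)
      have b2 : c e0 ∉ insert (c e) (((E.erase e0).erase e).image c) := by
        rw [Finset.mem_insert, Finset.mem_image]
        rintro (hh | ⟨x, hx, hcx⟩)
        · exact hne (hs e he hh.symm)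
        · rw [Finset.mem_erase, Finset.mem_erase] at hx
          exact hx.2.1 (hs x hx.2.2 hcx)
      have b3 : insert (c e0) (insert (c e) (((E.erase e0).erase e).image c)) ⊆ E.image c := by
        intro x hx
        rw [Finset.mem_insert, Finset.mem_insert] at hx
        rcases hx with rfl | rfl | hx
        · exact Finset.mem_image_of_mem c he0
        · exact Finset.mem_image_of_mem c he
        · rw [Finset.mem_image] at hx
          obtain ⟨y, hy, rfl⟩ := hx
          exact Finset.mem_image_of_mem c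
            (Finset.mem_of_mem_erase (Finset.mem_of_mem_erase hy))
      have b4 := Finset.card_le_card b3
      rw [Finset.card_insert_of_notMem b2, Finset.card_insert_of_notMem b1] at b4
      exact b4
    omega
  · -- independence
    intro e he e' he' hce hne
    have hce0 : c e ≠ c e0 := by
      intro hh
      have h1 := hs e he hh
      have h2 := hs e' he' (by rw [← hce, hh])
      exact hne (h1.trans h2.symm)
    have hrest : ∀ x ∈ E, c x ≠ c e0 → x ∈ rest c E ε 1 := by
      intro x hx hcx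
      unfold rest
      rw [Finset.mem_filter]
      refine ⟨hx, fun i hi => ?_⟩
      have : i = 0 := by omega
      rw [this, hε0]
      exact hcx
    have hve : v e ∉ span ℚ {v e0} := by
      rw [← hGG]
      exact hl e (hrest e he hce0)
    have hve' : v e' ∉ span ℚ {v e0} := by
      rw [← hGG]
      exact hl e' (hrest e' he' (by rw [← hce]; exact hce0))
    have hcl' : ∀ s : ℚ, (s = 1 ∨ s = -1) → v e - s • v e' ∉ span ℚ {v e0} := by
      intro s hs'
      rw [← hGG]
      refine hcl e he e' he' hne hce ?_ ?_ s hs'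
      · intro i hi
        have : i = 0 := by omega
        rw [this, hε0]
        exact hce0
      · rw [hGG]
        exact hve
    have hpar := h.par e he e' he' hce hne
    have hpar2 : ∀ a b : ℚ, a • v e + b • v e' = 0 → a = 0 ∧ b = 0 := by
      rw [LinearIndependent.pair_iff] at hpar
      exact hpar
    have hv0 : v e0 ≠ 0 := h.ne e0 he0
    rw [Fintype.linearIndependent_iff]
    intro g hg
    rw [Fin.sum_univ_three] at hg
    simp only [Matrix.cons_val_zero, Matrix.cons_val_one, Matrix.cons_val] at hg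
    have hmem0 : ∀ a : ℚ, a • v e0 ∈ span ℚ {v e0} := fun a =>
      Submodule.smul_mem _ _ (Submodule.mem_span_singleton_self _)
    by_cases ha : g 0 = 0
    · rw [ha, zero_smul, zero_add] at hg
      obtain ⟨h1, h2⟩ := hpar2 _ _ hg
      intro i
      fin_cases i
      · exact ha
      · exact h1
      · exact h2
    · exfalso
      have hb : g 1 ≠ 0 := by
        intro hb
        rw [hb, zero_smul, add_zero] at hg
        have hd : g 2 ≠ 0 := by
          intro hd
          rw [hd, zero_smul, add_zero] at hg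
          exact (smul_ne_zero ha hv0) hg
        apply hve'
        have e1 : v e' = (-(g 0 / g 2)) • v e0 := by
          have e2 : g 2 • v e' = -(g 0 • v e0) := by
            rw [eq_neg_iff_add_eq_zero, add_comm]
            exact hg
          have e3 : v e' = (g 2)⁻¹ • (g 2 • v e') := by
            rw [smul_smul, inv_mul_cancel₀ hd, one_smul]
          rw [e3, e2, smul_neg, smul_smul, neg_smul, div_eq_inv_mul]
        rw [e1]
        exact hmem0 _
      have e1 : v e0 = (-(g 1 / g 0)) • v e + (-(g 2 / g 0)) • v e' := by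
        have e2 : g 0 • v e0 = -(g 1 • v e + g 2 • v e') := by
          rw [eq_neg_iff_add_eq_zero, ← add_assoc]
          exact hg
        have e3 : v e0 = (g 0)⁻¹ • (g 0 • v e0) := by
          rw [smul_smul, inv_mul_cancel₀ ha, one_smul]
        rw [e3, e2, smul_neg, smul_add, smul_smul, smul_smul, neg_smul, neg_smul,
          div_eq_inv_mul, div_eq_inv_mul, neg_add]
      have hU := hC.uni h.cls
      have hco := uni_coord hU ![v e, v e'] Finset.univ ?_ ?_ ![-(g 1 / g 0), -(g 2 / g 0)] ?_
      · have h1 := hco 0 (Finset.mem_univ _)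
        have h2 := hco 1 (Finset.mem_univ _)
        simp only [Matrix.cons_val_zero, Matrix.cons_val_one] at h1 h2
        have h1' : g 1 / g 0 = 1 ∨ g 1 / g 0 = -1 := by
          have h3 : g 1 / g 0 ≠ 0 := div_ne_zero hb ha
          rcases h1 with h1 | h1 | h1
          · exact absurd (by (clear * - h1; linarith)) h3
          · right; (clear * - h1; linarith)
          · left; (clear * - h1; linarith)
        have h2' : g 2 / g 0 = 0 ∨ g 2 / g 0 = 1 ∨ g 2 / g 0 = -1 := by
          rcases h2 with h2 | h2 | h2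
          · left; (clear * - h2; linarith)
          · right; right; (clear * - h2; linarith)
          · right; left; (clear * - h2; linarith)
        rcases h2' with h2' | h2'
        · -- then v e in the span
          apply hve
          rw [h2', neg_zero, zero_smul, add_zero] at e1
          have e4 : v e = (-(g 0 / g 1)) • v e0 := by
            rw [e1, smul_smul]
            have : -(g 0 / g 1) * -(g 1 / g 0) = 1 := by
              field_simp
            rw [this, one_smul]
          rw [e4]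
          exact hmem0 _
        · -- coefficients are signs
          have e5 : v e - (-(g 2 / g 1)) • v e' = (-(g 0 / g 1)) • v e0 := by
            rw [e1, smul_add, smul_smul, smul_smul]
            have r1 : -(g 0 / g 1) * -(g 1 / g 0) = 1 := by
              field_simp
            have r2 : -(g 0 / g 1) * -(g 2 / g 0) = g 2 / g 1 := by
              (clear * - ha hb; field_simp)
            rw [r1, r2, one_smul, neg_smul, sub_neg_eq_add]
          refine hcl' (-(g 2 / g 1)) ?_ (by rw [e5]; exact hmem0 _)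
          have r3 : g 2 / g 1 = (g 2 / g 0) / (g 1 / g 0) := by
            (clear * - ha hb; field_simp)
          rw [r3]
          rcases h1' with h1' | h1' <;> rcases h2' with h2' | h2' <;> rw [h1', h2'] <;> norm_num
      · intro i _
        fin_cases i
        · exact ⟨e, he, rfl⟩
        · exact ⟨e', he', rfl⟩
      · rw [Finset.coe_univ, linearIndepOn_univ_iff]
        exact hpar
      · rw [Fin.sum_univ_two]
        simp only [Matrix.cons_val_zero, Matrix.cons_val_one]
        rw [← e1]
        exact ⟨e0, he0, rfl⟩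
  · rw [hbd] at hno
    exact hno

theorem GC_of_noBad {C : ClsT} (hC : Cls C)
    (hB : ∀ (h : ℕ) (ι κ V : Type) [AddCommGroup V] [Module ℚ V] (v : ι → V) (c : ι → κ)
      (E : Finset ι) (e0 : ι), ¬ Bad C h v c E e0) (n : ℕ) : GC C n := by
  classical
  induction n using Nat.strong_induction_on with
  | _ n ih =>
    intro ι κ V _ _ v c E h hn
    by_contra hno
    by_cases hA : ∃ e0 ∈ E, ∀ e ∈ E, c e = c e0 → e = e0
    · obtain ⟨e0, he0, hs⟩ := hA
      obtain ⟨h', -, hbad⟩ := bad_of_not hC ih h hn he0 hs hno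
      exact hB h' ι κ V v c E e0 hbad
    · push Not at hA
      have hrank := h.rank
      rw [hn] at hrank
      have hle : E.card ≤ 2 * n := by
        have := reduce_fiber_le (c := c) (E := E) h.two
        rw [← reduce_nc_eq, hn] at this
        exact this
      have hge : 2 * n ≤ E.card := by
        rw [← hn, reduce_nc_eq]
        refine Finset.mul_card_image_le_card E 2 fun a ha => ?_
        rw [Finset.mem_image] at ha
        obtain ⟨x, hx, rfl⟩ := ha
        obtain ⟨y, hy, hcy, hxy⟩ := hA x hx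
        have : ({x, y} : Finset ι) ⊆ E.filter (fun z => c z = c x) := by
          intro z hz
          rw [Finset.mem_insert, Finset.mem_singleton] at hz
          rw [Finset.mem_filter]
          rcases hz with rfl | rfl
          · exact ⟨hx, rfl⟩
          · exact ⟨hy, hcy⟩
        have h2 := Finset.card_le_card this
        rw [Finset.card_pair (Ne.symm hxy)] at h2
        exact h2
      have hE : E.card = 2 * n := le_antisymm hle hge
      have hne : E.Nonempty := by
        rw [← Finset.card_pos]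
        omega
      obtain ⟨e, he⟩ := hne
      obtain ⟨e', he', hce, hee⟩ := hA e he
      have hnc : nc c (E.erase e') = n := by
        rw [← hn, reduce_nc_eq, reduce_nc_eq]
        congr 1
        ext a
        rw [Finset.mem_image, Finset.mem_image]
        constructor
        · rintro ⟨x, hx, rfl⟩
          exact ⟨x, Finset.mem_of_mem_erase hx, rfl⟩
        · rintro ⟨x, hx, rfl⟩
          by_cases hx' : x = e'
          · exact ⟨e, Finset.mem_erase.2 ⟨Ne.symm hee, he⟩, by rw [hx', hce]⟩
          · exact ⟨x, Finset.mem_erase.2 ⟨hx', hx⟩, rfl⟩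
      have hsys : Sys C v c (E.erase e') := by
        refine sys_sub hC h (Finset.erase_subset _ _) ?_
        rw [hnc]
        have := rk_mono (v := v) (Finset.erase_subset e' E)
        omega
      have hcard : (E.erase e').card = 2 * n - 1 := by
        rw [Finset.card_erase_of_mem he', hE]
      have hal : ∀ x ∈ E.erase e', c x = c e → x = e := by
        intro x hx hcx
        rw [Finset.mem_erase] at hx
        rcases h.two e he e' he' x hx.2 hce.symm hcx.symm with h1 | h1 | h1
        · exact absurd h1.symm hee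
        · exact h1.symm
        · exact absurd h1.symm hx.1
      have hshort : Short v c (E.erase e') (bd n (E.erase e').card) := by
        by_contra hcon
        obtain ⟨h', -, hbad⟩ := bad_of_not hC ih hsys hnc
          (Finset.mem_erase.2 ⟨Ne.symm hee, he⟩) hal hcon
        exact hB h' ι κ V v c _ e hbad
      refine hno (short_mono hshort (Finset.erase_subset _ _) ?_)
      rw [hcard, hE]
      unfold bd
      rw [if_neg (by omega), if_pos rfl]
      omega

end RC.Red

end

section

/-!
The theorem for decomposable sets.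
-/

namespace RC.Str

open Submodule Module

theorem nb_dec {V : Type} [AddCommGroup V] [Module ℚ V] {Y : Set V} (h : Dec V Y) :
    NB0 Y ∧ NB1 Y := by
  have hC : Cls DecC := cls_dec
  induction h with
  | graphic X W φ inj edge => exact ⟨nb0_graphic hC X W φ inj edge, nb1_graphic hC X W φ inj edge⟩
  | cographic X E W u hd tl dep cov =>
    have hdom : Dom X (Set.range u) := by
      intro x hx
      obtain ⟨e, he⟩ := cov x hx
      exact Or.inr (Or.inl ⟨e, he.symm⟩)
    exact ⟨nb0_dom (nb0_cographic hC u hd tl dep) hdom,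
      nb1_dom (nb1_cographic hC u hd tl dep) hdom⟩
  | r10 X φ inj col => exact ⟨nb0_r10 X φ inj col, nb1_r10 X φ inj col⟩
  | emb X Y f inj sub _ ih =>
    have hdom : Dom (f '' X) Y := by
      rintro _ ⟨x, hx, rfl⟩
      exact sub x hx
    exact ⟨nb0_emb hC f inj hdom ih.1, nb1_emb hC f inj hdom ih.2⟩
  | sum A B p q hpq h hA hB ihA ihB =>
    exact ⟨nb0_sum hC hpq h hA hB ihA.1 ihA.2 ihB.1 ihB.2,
      nb1_sum hC hpq h hA hB ihA.1 ihA.2 ihB.1 ihB.2⟩

end RC.Str

end

section

/-!
The theorem for decomposable sets of vectors.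
-/

namespace RC

open Submodule Module

theorem gc_dec (n : ℕ) : GC (fun V _ _ X => Dec V X) n := by
  refine Red.GC_of_noBad cls_dec ?_ n
  intro h ι κ V _ _ v c E e0 hb
  exact (Str.nb_dec hb.sys.cls).1 h ι κ v c E e0 hb (Str.dom_refl _)

end RC

end
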