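import Mathlib

section

/-!
Seymour's decomposition of regular matroids: definitions.

Everything is about binary matroids on subsets of one finite type `E`.  A matroid is given by its
ground set `S` and its row space (= cocycle space) `R`, a subspace of `E → ZMod 2` supported on
`S`.  Deleting restricts rows, contracting keeps the rows which vanish there, the dual is the
orthogonal complement.  The full paper proof is in /team-store/helper25_SEY.md.
-/

namespace SEY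

open Finset

variable {E : Type} [Fintype E] [DecidableEq E]

/-- A binary matroid with ground set `S` and row space `R`. -/
structure BM (E : Type) where
  S : Finset E
  R : Submodule (ZMod 2) (E → ZMod 2)
  supp : ∀ f ∈ R, ∀ e, e ∉ S → f e = 0

/-- Put a function to `0` outside of `A`. -/
def mask (A : Finset E) : (E → ZMod 2) →ₗ[ZMod 2] (E → ZMod 2) where
  toFun f := fun e => if e ∈ A then f e else 0
  map_add' f g := by
    funext e
    by_cases h : e ∈ A <;> simp [h]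
  map_smul' c f := by
    funext e
    by_cases h : e ∈ A <;> simp [h]

/-- The indicator vector of a finite set. -/
def ind (A : Finset E) : E → ZMod 2 := fun e => if e ∈ A then 1 else 0

/-- The inner product. -/
def dot (f g : E → ZMod 2) : ZMod 2 := ∑ e, f e * g e

namespace BM

variable (M : BM E)

/-- Deletion of the elements of `D`. -/
def del (D : Finset E) : BM E where
  S := M.S \ D
  R := M.R.map (mask (M.S \ D))
  supp := by
    rintro f ⟨g, -, rfl⟩ e he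
    simp only [mask, LinearMap.coe_mk, AddHom.coe_mk, if_neg he]

/-- Contraction of the elements of `C`. -/
def con (C : Finset E) : BM E where
  S := M.S \ C
  R :=
    { carrier := {f | f ∈ M.R ∧ ∀ e ∈ C, f e = 0}
      add_mem' := by
        rintro f g ⟨hf, hf'⟩ ⟨hg, hg'⟩
        exact ⟨M.R.add_mem hf hg, fun e he => by simp [hf' e he, hg' e he]⟩
      zero_mem' := ⟨M.R.zero_mem, fun e _ => rfl⟩
      smul_mem' := by
        rintro c f ⟨hf, hf'⟩
        exact ⟨M.R.smul_mem c hf, fun e he => by simp [hf' e he]⟩ }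
  supp := by
    rintro f ⟨hf, hf'⟩ e he
    by_cases h : e ∈ C
    · exact hf' e h
    · exact M.supp f hf e (fun h' => he (Finset.mem_sdiff.mpr ⟨h', h⟩))

/-- Restriction to the elements of `A`. -/
def res (A : Finset E) : BM E where
  S := M.S ∩ A
  R := M.R.map (mask (M.S ∩ A))
  supp := by
    rintro f ⟨g, -, rfl⟩ e he
    simp only [mask, LinearMap.coe_mk, AddHom.coe_mk, if_neg he]

/-- The cycle space. -/
def Z : Submodule (ZMod 2) (E → ZMod 2) where
  carrier := {z | (∀ e, e ∉ M.S → z e = 0) ∧ ∀ f ∈ M.R, dot f z = 0}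
  add_mem' := by
    rintro z w ⟨hz, hz'⟩ ⟨hw, hw'⟩
    refine ⟨fun e he => by simp [hz e he, hw e he], fun f hf => ?_⟩
    have h1 := hz' f hf
    have h2 := hw' f hf
    simp only [dot, Pi.add_apply, mul_add, Finset.sum_add_distrib] at *
    rw [h1, h2, add_zero]
  zero_mem' := ⟨fun e _ => rfl, fun f _ => by simp [dot]⟩
  smul_mem' := by
    rintro c z ⟨hz, hz'⟩
    refine ⟨fun e he => by simp [hz e he], fun f hf => ?_⟩
    have h1 := hz' f hf
    simp only [dot, Pi.smul_apply, smul_eq_mul] at *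
    rw [show (∑ e, f e * (c * z e)) = c * ∑ e, f e * z e by
      rw [Finset.mul_sum]; exact Finset.sum_congr rfl (fun e _ => by ring), h1, mul_zero]

/-- The dual matroid. -/
def dual : BM E where
  S := M.S
  R := M.Z
  supp := fun _ hf e he => hf.1 e he

/-- The rank of a set. -/
noncomputable def r (A : Finset E) : ℕ := Module.finrank (ZMod 2) (M.R.map (mask A))

/-- The connectivity function (use it for `A ⊆ M.S`). -/
noncomputable def lam (A : Finset E) : ℕ := M.r A + M.r (M.S \ A) - M.r M.S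

/-- `e` and `f` lie in the same cycles. -/
def Ser (e f : E) : Prop := ∀ z ∈ M.Z, z e = z f

/-- 3-connected, with at least four elements. -/
def TC : Prop :=
  4 ≤ M.S.card ∧ ∀ A ⊆ M.S, (M.lam A = 0 → A = ∅ ∨ A = M.S) ∧
    (M.lam A ≤ 1 → A.card ≤ 1 ∨ (M.S \ A).card ≤ 1)

/-- Series extension of a 3-connected matroid: at least four series classes, and each set with
connectivity at most 1 is, or has a complement, inside one series class. -/
def SC : Prop :=
  (∃ s : Fin 4 → E, (∀ i, s i ∈ M.S) ∧ ∀ i j, i ≠ j → ¬ M.Ser (s i) (s j)) ∧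
    ∀ A ⊆ M.S, M.lam A ≤ 1 →
      (∀ e ∈ A, ∀ f ∈ A, M.Ser e f) ∨ (∀ e ∈ M.S \ A, ∀ f ∈ M.S \ A, M.Ser e f)

end BM

/-- `N` is a minor of `M` (on a subset of the ground set). -/
def Minor (N M : BM E) : Prop := ∃ C D : Finset E, N = (M.con C).del D

/-- `M` has a minor isomorphic to the matroid on `Fin k` whose row space is spanned by `rows`. -/
def HasMinor {r k : ℕ} (rows : Fin r → Fin k → ZMod 2) (M : BM E) : Prop :=
  ∃ (φ : Fin k → E) (C : Finset E), Function.Injective φ ∧ (∀ i, φ i ∈ M.S) ∧ C ⊆ M.S ∧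
    (∀ i, φ i ∉ C) ∧
    (∀ i, ∃ f ∈ M.R, (∀ c ∈ C, f c = 0) ∧ ∀ j, f (φ j) = rows i j) ∧
    (∀ f ∈ M.R, (∀ c ∈ C, f c = 0) → ∃ c : Fin r → ZMod 2, ∀ j, f (φ j) = ∑ i, c i * rows i j)

/-- `M` is isomorphic to the matroid on `Fin k` whose row space is spanned by `rows`. -/
def IsIso {r k : ℕ} (rows : Fin r → Fin k → ZMod 2) (M : BM E) : Prop :=
  ∃ φ : Fin k → E, Function.Injective φ ∧ (∀ e, e ∈ M.S ↔ ∃ i, φ i = e) ∧
    (∀ i, ∃ f ∈ M.R, ∀ j, f (φ j) = rows i j) ∧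
    (∀ f ∈ M.R, ∃ c : Fin r → ZMod 2, ∀ j, f (φ j) = ∑ i, c i * rows i j)

/-- The restriction of `M` to `A` is a series extension (subdivision) of the matroid on `Fin k`
with row space spanned by `rows`; the elements of `π ⁻¹ i` are in series and replace `i`. -/
def Sub {r k : ℕ} (rows : Fin r → Fin k → ZMod 2) (M : BM E) (A : Finset E)
    (π : E → Fin k) : Prop :=
  A ⊆ M.S ∧ (∀ i, ∃ e ∈ A, π e = i) ∧
    ∀ z : E → ZMod 2, (∀ e, e ∉ A → z e = 0) →
      (z ∈ M.Z ↔ ∃ w : Fin k → ZMod 2, (∀ i, ∑ j, rows i j * w j = 0) ∧ ∀ e ∈ A, z e = w (π e))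

/-- `M` has a restriction which is a series extension of the matroid on `Fin k`. -/
def HasT {r k : ℕ} (rows : Fin r → Fin k → ZMod 2) (M : BM E) : Prop :=
  ∃ (A : Finset E) (π : E → Fin k), Sub rows M A π

/-! ### Graphs -/

/-- The coboundary of `π` on the graph with edge set `S` and ends `h e`, `t e`. -/
def cob {V : Type} (S : Finset E) (h t : E → V) (π : V → ZMod 2) : E → ZMod 2 :=
  fun e => if e ∈ S then π (h e) + π (t e) else 0

/-- Graphic matroids. -/
def Graphic (M : BM E) : Prop :=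
  ∃ (V : Type) (_ : Fintype V) (h t : E → V), ∀ f, f ∈ M.R ↔ ∃ π : V → ZMod 2, f = cob M.S h t π

/-- `M` is the cycle matroid of the connected loopless graph with vertex set `U`, edge set `M.S`
and ends `h e`, `t e`. -/
structure IsGr {V : Type} [DecidableEq V] (M : BM E) (U : Finset V) (h t : E → V) : Prop where
  ends : ∀ e ∈ M.S, h e ∈ U ∧ t e ∈ U ∧ h e ≠ t e
  rows : ∀ f, f ∈ M.R ↔ ∃ π : V → ZMod 2, f = cob M.S h t π
  conn : ∀ π : V → ZMod 2, cob M.S h t π = 0 → ∀ u ∈ U, ∀ v ∈ U, π u = π v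
  ne : ∀ v ∈ U, ∃ e ∈ M.S, h e = v ∨ t e = v

/-- The edges at a vertex. -/
def star {V : Type} [DecidableEq V] (S : Finset E) (h t : E → V) (v : V) : Finset E :=
  S.filter (fun e => h e = v ∨ t e = v)

/-- `M` is the graft matroid of the graph `(U, M.S - e, h, t)` and the even vertex set `T`: the
element `e` is the sum of the vertices in `T`. -/
structure IsGraft {V : Type} [DecidableEq V] (M : BM E) (e : E) (U : Finset V) (h t : E → V)
    (T : Finset V) : Prop where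
  mem : e ∈ M.S
  gr : IsGr (M.del {e}) U h t
  sub : T ⊆ U
  even : Even T.card
  rows : ∀ f, f ∈ M.R ↔ ∃ π : V → ZMod 2,
    f = fun x => if x = e then ∑ v ∈ T, π v else cob (M.S \ {e}) h t π x

/-! ### The concrete matroids -/

/-- Rows of a graph with `n` vertices and `k` edges (all vertex stars). -/
def grRows {n k : ℕ} (ends : Fin k → Fin n × Fin n) : Fin n → Fin k → ZMod 2 :=
  fun v e => (if (ends e).1 = v then 1 else 0) + (if (ends e).2 = v then 1 else 0)

/-- The Fano matroid: the seven nonzero vectors of `ZMod 2 ^ 3`. -/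
def F7 : Fin 3 → Fin 7 → ZMod 2 :=
  ![![1, 0, 0, 1, 1, 0, 1],
    ![0, 1, 0, 1, 0, 1, 1],
    ![0, 0, 1, 0, 1, 1, 1]]

/-- The dual Fano matroid. -/
def F7s : Fin 4 → Fin 7 → ZMod 2 :=
  ![![1, 1, 0, 1, 0, 0, 0],
    ![1, 0, 1, 0, 1, 0, 0],
    ![0, 1, 1, 0, 0, 1, 0],
    ![1, 1, 1, 0, 0, 0, 1]]

/-- The ends of the edges of `K_4`. -/
def K4e : Fin 6 → Fin 4 × Fin 4 := ![(0, 1), (0, 2), (0, 3), (1, 2), (1, 3), (2, 3)]

/-- The ends of the edges of `K_{3,3}`: edge `3 * i + j` joins `i` and `3 + j`. -/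
def K33e : Fin 9 → Fin 6 × Fin 6 :=
  ![(0, 3), (0, 4), (0, 5), (1, 3), (1, 4), (1, 5), (2, 3), (2, 4), (2, 5)]

/-- The ends of the edges of `K_5`. -/
def K5e : Fin 10 → Fin 5 × Fin 5 :=
  ![(0, 1), (0, 2), (0, 3), (0, 4), (1, 2), (1, 3), (1, 4), (2, 3), (2, 4), (3, 4)]

def K4 : Fin 4 → Fin 6 → ZMod 2 := grRows K4e
def K33 : Fin 6 → Fin 9 → ZMod 2 := grRows K33e
def K5 : Fin 5 → Fin 10 → ZMod 2 := grRows K5e

/-- The bond matroid of `K_{3,3}`; element `3 * i + j` is the edge joining `i` and `3 + j`. -/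
def K33s : Fin 4 → Fin 9 → ZMod 2 :=
  ![![1, 1, 0, 1, 1, 0, 0, 0, 0],
    ![1, 0, 1, 1, 0, 1, 0, 0, 0],
    ![1, 1, 0, 0, 0, 0, 1, 1, 0],
    ![1, 0, 1, 0, 0, 0, 1, 0, 1]]

/-- The bond matroid of `K_5` (rows: the triangles at vertex 0). -/
def K5s : Fin 6 → Fin 10 → ZMod 2 :=
  ![![1, 1, 0, 0, 1, 0, 0, 0, 0, 0],
    ![1, 0, 1, 0, 0, 1, 0, 0, 0, 0],
    ![1, 0, 0, 1, 0, 0, 1, 0, 0, 0],
    ![0, 1, 1, 0, 0, 0, 0, 1, 0, 0],
    ![0, 1, 0, 1, 0, 0, 0, 0, 1, 0],
    ![0, 0, 1, 1, 0, 0, 0, 0, 0, 1]]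

/-- `R10`: unit vectors and the sums of three cyclically consecutive unit vectors, in the order
of `RC.R10`. -/
def R10 : Fin 5 → Fin 10 → ZMod 2 :=
  ![![1, 0, 0, 0, 0, 1, 1, 0, 0, 1],
    ![0, 1, 0, 0, 0, 1, 1, 1, 0, 0],
    ![0, 0, 1, 0, 0, 0, 1, 1, 1, 0],
    ![0, 0, 0, 1, 0, 0, 0, 1, 1, 1],
    ![0, 0, 0, 0, 1, 1, 0, 0, 1, 1]]

/-- `R12`: the columns are `a1, a2, a3, b1, b2, b3, y1, y2, y3, z1, z2, z3` in the coordinates
`a1, a2, p1, p2, y, z`, where `a3 = a1 + a2`, `p3 = p1 + p2`, `b_i = a_i + p_i`,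
`y1 = y`, `y2 = y + p3`, `y3 = y + p2`, `z1 = z`, `z2 = z + p3`, `z3 = z + p2`. -/
def R12 : Fin 6 → Fin 12 → ZMod 2 :=
  ![![1, 0, 1, 1, 0, 1, 0, 0, 0, 0, 0, 0],
    ![0, 1, 1, 0, 1, 1, 0, 0, 0, 0, 0, 0],
    ![0, 0, 0, 1, 0, 1, 0, 1, 0, 0, 1, 0],
    ![0, 0, 0, 0, 1, 1, 0, 1, 1, 0, 1, 1],
    ![0, 0, 0, 0, 0, 0, 1, 1, 1, 0, 0, 0],
    ![0, 0, 0, 0, 0, 0, 0, 0, 0, 1, 1, 1]]

/-- No Fano minor and no dual Fano minor. -/
def NoF (M : BM E) : Prop := ¬ HasMinor F7 M ∧ ¬ HasMinor F7s M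

/-- The `W`-structure: two triangles `a`, `b` and the cocycles `{a i, b i, a j, b j}`. -/
def WStr (M : BM E) (a b : Fin 3 → E) : Prop :=
  (∀ i, a i ∈ M.S) ∧ (∀ i, b i ∈ M.S) ∧ Function.Injective a ∧ Function.Injective b ∧
    (∀ i j, a i ≠ b j) ∧ (∀ f ∈ M.R, f (a 0) + f (a 1) + f (a 2) = 0) ∧
    (∀ f ∈ M.R, f (b 0) + f (b 1) + f (b 2) = 0) ∧
    (∀ i j, i ≠ j → ind {a i, b i, a j, b j} ∈ M.R)

end SEY

end
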