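import Pool.Agent.Helper29.MFA.T10
import Pool.Agent.Helper29.MFA.T09

section

/-!
Block LINK (helper38) of the project SEY: circuits and good pairs.
-/

set_option autoImplicit false

namespace SEY

open Finset

variable {E : Type} [Fintype E] [DecidableEq E]

/-- `Q` is a circuit of `M`. -/
def Circ (M : BM E) (Q : Finset E) : Prop :=
  Q.Nonempty ∧ ind Q ∈ M.Z ∧ ∀ z ∈ M.Z, (∀ e, e ∉ Q → z e = 0) → z = 0 ∨ z = ind Q

/-- `Q` is a circuit of `M` off `W` with connectivity at least `2` to `W`. -/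
def GoodP (M : BM E) (W Q : Finset E) : Prop :=
  W ⊆ M.S ∧ Q ⊆ M.S ∧ Disjoint W Q ∧ Circ M Q ∧
    ∀ A, W ⊆ A → A ⊆ M.S → Disjoint A Q → 2 ≤ M.lam A

end SEY

end

section

/-!
Block LINK (helper38) of the project SEY, module Red: reduction of a good pair (M, Q) to the case
`M'.S = W ∪ Q'`.  Definitions `Circ`, `GoodP` in Helper38/SEY/Good.lean, API in Helper71/SEYApi.lean.

PROOF of `good_red`.  Strong induction on `M.S.card + Q.card` (generalising `M`, `Q`).  If
`M.S = W ∪ Q` take `M' = M` (`Minor.refl`).  Otherwise let `x ∈ M.S`, `x ∉ W`, `x ∉ Q`.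
(1) If `GoodP (M.del {x}) W Q`, use the induction hypothesis for it, with `Minor.trans` and
    `minor_del`.  Note that `Circ (M.del {x}) Q` always holds (`BM.mem_Z_del`, `x ∉ Q`), so otherwise
    there is `A0` with `W ⊆ A0 ⊆ M.S \ {x}`, `Disjoint A0 Q`, `(M.del {x}).lam A0 ≤ 1`.
(2) For every `A` with `W ⊆ A ⊆ M.S \ {x}`, `Disjoint A Q` we have `2 ≤ (M.con {x}).lam A`: otherwise
    by `BM.uncross` (with `A := A0`, `C := A`)  `M.lam (A0 ∩ A) + M.lam (insert x (A0 ∪ A)) ≤ 1 + 1 + 1`, but both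
    sets contain `W` and are disjoint from `Q`, so both numbers are at least 2.  So if
    `Circ (M.con {x}) Q` then `GoodP (M.con {x}) W Q`, use the induction hypothesis.
(3) Suppose `Circ (M.con {x}) Q` fails (lemma `split_circuit`).  `ind Q ∈ (M.con {x}).Z` (`BM.mem_Z_con`), so there is
    `z' ∈ (M.con {x}).Z` supported in `Q`, `z' ≠ 0`, `z' ≠ ind Q`; `z' = mask (M.S \ {x}) w`, `w ∈ M.Z`.  If `w x = 0`
    then `w = z'` is a cycle of `M` supported in `Q`, a contradiction to `Circ M Q`; so `w x = 1`.  Put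
    `C1 = spt z'` and `C2 = Q \ C1`, both nonempty, disjoint, with union `Q`;
    `ind (insert x C1) = w ∈ M.Z` and `ind (insert x C2) = w + ind Q ∈ M.Z`.  Both `insert x C1`, `insert x C2` are
    circuits: let `v ∈ M.Z` be supported in `insert x C1`; if `v x = 0` then `v` is supported in `C1 ⊂ Q`, so `v = 0`; if
    `v x = 1` then `v + w` is supported in `C1`, so `v = w`.
(4) `2 ≤ C2.card` (and `2 ≤ C1.card`, the same proof; lemma `no_parallel`): otherwise `C2 = {c}` and `ind {x, c} ∈ M.Z`,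
    `c ∈ Q`.  Then `M.r (M.S \ A0) = M.r ((M.S \ {x}) \ A0)` and `M.r M.S = M.r (M.S \ {x})` by `BM.r_insert_eq_iff`
    (`c` lies in `(M.S \ {x}) \ A0`, as `Disjoint A0 Q`), so `M.lam A0 = (M.del {x}).lam A0 ≤ 1` (use `BM.lam_del_add`
    and `BM.lam_add_rk`), but `2 ≤ M.lam A0` by `GoodP M W Q`.
(5) If `GoodP M W (insert x C1)`: use the induction hypothesis, `(insert x C1).card = C1.card + 1 < Q.card`.  The same for
    `C2`.
(6) Otherwise there are `A1`, `A2`, `W ⊆ Ai ⊆ M.S`, `Disjoint Ai (insert x Ci)`, `M.lam Ai ≤ 1`.  By `BM.lam_submod`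
    `M.lam (A1 ∪ A2) + M.lam (A1 ∩ A2) ≤ 2`, and `2 ≤ M.lam (A1 ∩ A2)` as `W ⊆ A1 ∩ A2`, `Disjoint (A1 ∩ A2) Q`.
    So `M.lam (A1 ∪ A2) = 0`.  A circuit `P` which contains an element outside a set `B ⊆ M.S` with `M.lam B = 0` is
    disjoint from `B` (lemma `circ_separator`).  Both `insert x C1`, `insert x C2` contain `x ∉ A1 ∪ A2`, so `Q` is disjoint from
    `A1 ∪ A2`, so `2 ≤ M.lam (A1 ∪ A2) = 0`, contradiction.
`circ_separator`: `M.lam B = 0`, so by `BM.lam_add_dZ` `dZ B + dZ (M.S \ B) = nul`, `ZIn B ⊓ ZIn (M.S \ B) = ⊥`, so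
    `ZIn B ⊔ ZIn (M.S \ B) = M.Z` (`Submodule.eq_of_le_of_finrank_le`), so `mask B z ∈ M.Z` for every `z ∈ M.Z` (or, in the
    other direction, use the dual: rows).  Apply it to `z = ind P`: `mask B (ind P) = ind (B ∩ P)` is `0` or `ind P`.
-/

set_option autoImplicit false

namespace SEY

open Finset

variable {E : Type} [Fintype E] [DecidableEq E]

open BM in
/-- if `lam B = 0`, then the restriction of a cycle to `B` is a cycle -/
lemma red_mask_mem (M : BM E) (B : Finset E) (h : M.lam B = 0)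
    {z : E → ZMod 2} (hz : z ∈ M.Z) : mask B z ∈ M.Z := by
  have h1 := M.lam_add_dZ B
  rw [h, zero_add] at h1
  have h2 := Submodule.finrank_sup_add_finrank_inf_eq (M.ZIn B) (M.ZIn (M.S \ B))
  have h3 : M.ZIn B ⊓ M.ZIn (M.S \ B) = ⊥ := by
    rw [Submodule.eq_bot_iff]
    rintro v ⟨hv1, hv2⟩
    ext e
    by_cases he : e ∈ B
    · exact hv2.2 e (by simp [he])
    · exact hv1.2 e he
  rw [h3, finrank_bot, add_zero] at h2
  have h4 : M.ZIn B ⊔ M.ZIn (M.S \ B) ≤ M.Z :=
    sup_le (fun v hv => hv.1) (fun v hv => hv.1)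
  have h5 : M.ZIn B ⊔ M.ZIn (M.S \ B) = M.Z := by
    refine Submodule.eq_of_le_of_finrank_eq h4 ?_
    rw [h2]
    exact h1
  rw [← h5, Submodule.mem_sup] at hz
  obtain ⟨a, ha, b, hb, rfl⟩ := hz
  have h6 : mask B (a + b) = a := by
    rw [map_add, mask_eq_self ha.2]
    have : mask B b = 0 := by
      rw [mask_eq_zero_iff]
      intro e he
      exact hb.2 e (by simp [he])
    rw [this, add_zero]
  rw [h6]
  exact ha.1

theorem circ_separator (M : BM E) (B P : Finset E) (hB : B ⊆ M.S) (h : M.lam B = 0)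
    (hP : Circ M P) (hx : ∃ x ∈ P, x ∉ B) : Disjoint B P := by
  obtain ⟨x, hxP, hxB⟩ := hx
  have h1 := red_mask_mem M B h hP.2.1
  rw [mask_ind] at h1
  have h2 : ind (B ∩ P) = (0 : E → ZMod 2) ∨ ind (B ∩ P) = (ind P : E → ZMod 2) := by
    refine hP.2.2 _ h1 (fun e he => ind_of_notMem (fun h' => he (Finset.mem_inter.1 h').2))
  rcases h2 with h2 | h2
  · rw [ind_eq_zero] at h2
    rw [Finset.disjoint_iff_inter_eq_empty]; exact h2
  · rw [ind_inj] at h2
    rw [← h2] at hxP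
    exact absurd (Finset.mem_inter.1 hxP).1 hxB

theorem split_circuit (M : BM E) (Q : Finset E) (x : E) (hQ : Circ M Q) (hQS : Q ⊆ M.S)
    (hxS : x ∈ M.S) (hx : x ∉ Q) (h : ¬ Circ (M.con {x}) Q) :
    ∃ C1 C2 : Finset E, C1.Nonempty ∧ C2.Nonempty ∧ Disjoint C1 C2 ∧ C1 ∪ C2 = Q ∧
      Circ M (insert x C1) ∧ Circ M (insert x C2) := by
  obtain ⟨hQ1, hQ2, hQ3⟩ := hQ
  have hQx : ind Q ∈ (M.con {x}).Z := by
    rw [BM.mem_Z_con]
    refine ⟨ind Q, hQ2, mask_eq_self (fun e he => ind_of_notMem (fun h' => he ?_))⟩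
    simp only [Finset.mem_sdiff, Finset.mem_singleton]
    exact ⟨hQS h', fun h2 => hx (h2 ▸ h')⟩
  have h1 : ∃ z ∈ (M.con {x}).Z, (∀ e, e ∉ Q → z e = 0) ∧ z ≠ 0 ∧ z ≠ ind Q := by
    by_contra hcon
    push_neg at hcon
    refine h ⟨hQ1, hQx, fun z hz hz2 => ?_⟩
    by_cases h0 : z = 0
    · exact Or.inl h0
    · exact Or.inr (hcon z hz hz2 h0)
  obtain ⟨z', hz', hz'Q, hz'0, hz'ne⟩ := h1
  rw [BM.mem_Z_con] at hz'
  obtain ⟨w, hw, hwz⟩ := hz'
  have hwS : ∀ e, e ∉ M.S → w e = 0 := fun e he => M.Z_supp hw he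
  have hwe : ∀ e, e ≠ x → w e = z' e := by
    intro e he
    by_cases heS : e ∈ M.S
    · rw [← hwz, mask_apply, if_pos]
      simp [heS, he]
    · rw [hwS e heS, hz'Q e (fun h' => heS (hQS h'))]
  have hwx : w x = 1 := by
    by_contra hne
    have hw0 : w x = 0 := z_ne_one.1 hne
    have hwz' : w = z' := by
      ext e
      by_cases he : e = x
      · subst he; rw [hw0, hz'Q e hx]
      · exact hwe e he
    rcases hQ3 w hw (fun e he => by rw [hwz']; exact hz'Q e he) with h2 | h2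
    · exact hz'0 (hwz' ▸ h2)
    · exact hz'ne (hwz' ▸ h2)
  set C1 := spt z' with hC1
  have hC1Q : C1 ⊆ Q := spt_subset.2 hz'Q
  have hxC1 : x ∉ C1 := fun h' => hx (hC1Q h')
  have hw1 : w = ind (insert x C1) := by
    ext e
    by_cases he : e = x
    · subst he; rw [hwx, ind_of_mem (by simp)]
    · rw [hwe e he]
      by_cases he2 : e ∈ C1
      · rw [ind_of_mem (by simp [he2]), mem_spt'.1 he2]
      · rw [ind_of_notMem (by simp [he, he2]), notMem_spt.1 he2]
  have hmem1 : ind (insert x C1) ∈ M.Z := hw1 ▸ hw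
  have hw2 : (ind (insert x C1) + ind Q : E → ZMod 2) = ind (insert x (Q \ C1)) := by
    rw [ind_add]
    congr 1
    ext e
    simp only [Finset.mem_symmDiff, Finset.mem_insert, Finset.mem_sdiff]
    by_cases he : e = x
    · subst he; simp [hx]
    · by_cases he2 : e ∈ C1
      · simp [he, he2, hC1Q he2]
      · simp [he, he2]
  have hmem2 : ind (insert x (Q \ C1)) ∈ M.Z := by
    rw [← hw2]; exact M.Z.add_mem hmem1 hQ2
  have hC1ne : C1.Nonempty := by
    rw [Finset.nonempty_iff_ne_empty, Ne, spt_eq_empty]; exact hz'0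
  have hC2ne : (Q \ C1).Nonempty := by
    rw [Finset.nonempty_iff_ne_empty]
    intro h2
    have h3 : C1 = Q := Finset.Subset.antisymm hC1Q (Finset.sdiff_eq_empty_iff_subset.1 h2)
    apply hz'ne
    rw [← h3, ind_spt]
  -- both are circuits
  have key : ∀ C C' : Finset E, C ⊆ Q → C ≠ Q → ind (insert x C) ∈ M.Z → Circ M (insert x C) := by
    intro C _ hCQ hCne hmem
    have hxC : x ∉ C := fun h' => hx (hCQ h')
    have small : ∀ v ∈ M.Z, (∀ e, e ∉ C → v e = 0) → v = 0 := by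
      intro v hv hvC
      rcases hQ3 v hv (fun e he => hvC e (fun h' => he (hCQ h'))) with h2 | h2
      · exact h2
      · exfalso
        apply hCne
        refine Finset.Subset.antisymm hCQ (fun e he => ?_)
        by_contra heC
        have := hvC e heC
        rw [h2, ind_of_mem he] at this
        exact one_ne_zero this
    refine ⟨⟨x, by simp⟩, hmem, fun v hv hvC => ?_⟩
    rcases zcases (v x) with h2 | h2
    · left
      refine small v hv (fun e he => ?_)
      by_cases hex : e = x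
      · subst hex; exact h2
      · exact hvC e (by simp [hex, he])
    · right
      have h3 : v + ind (insert x C) = 0 := by
        refine small _ (M.Z.add_mem hv hmem) (fun e he => ?_)
        by_cases hex : e = x
        · subst hex
          rw [Pi.add_apply, h2, ind_of_mem (by simp)]
          exact z_add_self 1
        · have hnot : e ∉ insert x C := by simp [hex, he]
          rw [Pi.add_apply, hvC e hnot, ind_of_notMem hnot, add_zero]
      ext e
      have := congrFun h3 e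
      rw [Pi.add_apply, Pi.zero_apply, z_add_eq_zero] at this
      exact this
  refine ⟨C1, Q \ C1, hC1ne, hC2ne, Finset.disjoint_sdiff, Finset.union_sdiff_of_subset hC1Q,
    key C1 ∅ hC1Q ?_ hmem1, key (Q \ C1) ∅ Finset.sdiff_subset ?_ hmem2⟩
  · intro h2
    rw [h2] at hC2ne
    simp at hC2ne
  · intro h2
    obtain ⟨e, he⟩ := hC1ne
    have := hC1Q he
    rw [← h2] at this
    exact (Finset.mem_sdiff.1 this).2 he

theorem no_parallel (M : BM E) (A : Finset E) (x c : E) (hA : A ⊆ M.S) (hxS : x ∈ M.S)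
    (hcS : c ∈ M.S) (hxc : x ≠ c) (hxA : x ∉ A) (hcA : c ∉ A) (h : ind {x, c} ∈ M.Z) :
    (M.del {x}).lam A = M.lam A := by
  have h1 := M.lam_del_add {x} A
  have h2 := M.lam_add_rk A
  have hAx : A \ {x} = A := Finset.sdiff_eq_self_of_disjoint (by simpa using hxA)
  rw [hAx] at h1
  have par : ∀ B : Finset E, B ⊆ M.S → x ∉ B → c ∈ B → M.r (insert x B) = M.r B := by
    intro B hB hxB hcB
    rw [M.r_insert_eq_iff hB hxS hxB]
    refine ⟨ind {x, c}, h, ind_of_mem (by simp), fun e he => ind_of_notMem (fun h' => he ?_)⟩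
    simp only [Finset.mem_insert, Finset.mem_singleton] at h' ⊢
    rcases h' with rfl | rfl
    · exact Or.inl rfl
    · exact Or.inr hcB
  have h3 := par (M.S \ {x}) Finset.sdiff_subset (by simp) (by simp [hcS, hxc.symm])
  have h4 := par ((M.S \ A) \ {x}) (Finset.sdiff_subset.trans Finset.sdiff_subset) (by simp)
    (by simp [hcS, hcA, hxc.symm])
  have h5 : insert x (M.S \ {x}) = M.S := by
    ext e
    by_cases he : e = x
    · subst he; simp [hxS]
    · simp [he]
  have h6 : insert x ((M.S \ A) \ {x}) = M.S \ A := by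
    ext e
    by_cases he : e = x
    · subst he; simp [hxS, hxA]
    · simp [he]
  rw [h5, BM.r_S] at h3
  rw [h6] at h4
  omega

theorem good_red_aux (W : Finset E) (n : ℕ) : ∀ (M : BM E) (Q : Finset E),
    M.S.card + Q.card ≤ n → GoodP M W Q →
    ∃ (M' : BM E) (Q' : Finset E), Minor M' M ∧ GoodP M' W Q' ∧ M'.S = W ∪ Q' := by
  induction n with
  | zero =>
    intro M Q hn h
    obtain ⟨hW, hQ, hWQ, ⟨hne, _⟩, _⟩ := h
    have := Finset.card_pos.2 hne
    omega
  | succ n ih =>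
    intro M Q hn h
    by_cases hS : M.S = W ∪ Q
    · exact ⟨M, Q, Minor.refl M, h, hS⟩
    obtain ⟨hW, hQ, hWQ, hC, hlam⟩ := h
    obtain ⟨x, hxS, hxW, hxQ⟩ : ∃ x ∈ M.S, x ∉ W ∧ x ∉ Q := by
      by_contra hcon
      push_neg at hcon
      refine hS (Finset.Subset.antisymm (fun e he => ?_) (Finset.union_subset hW hQ))
      by_cases heW : e ∈ W
      · simp [heW]
      · simp [hcon e he heW]
    have hcard : (M.S \ {x}).card + 1 = M.S.card := by
      rw [Finset.sdiff_singleton_eq_erase]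
      exact Finset.card_erase_add_one hxS
    have hsub : ∀ B : Finset E, B ⊆ M.S → x ∉ B → B ⊆ M.S \ {x} := by
      intro B hB hxB e he
      simp only [Finset.mem_sdiff, Finset.mem_singleton]
      exact ⟨hB he, fun h' => hxB (h' ▸ he)⟩
    have hcd : Circ (M.del {x}) Q := by
      refine ⟨hC.1, ?_, fun z hz hz2 => hC.2.2 z ((M.mem_Z_del).1 hz).1 hz2⟩
      rw [BM.mem_Z_del]
      refine ⟨hC.2.1, fun e he => ind_of_notMem ?_⟩
      rw [Finset.mem_singleton] at he
      subst he; exact hxQ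
    by_cases h1 : ∀ A, W ⊆ A → A ⊆ (M.del {x}).S → Disjoint A Q → 2 ≤ (M.del {x}).lam A
    · obtain ⟨M', Q', h2, h3, h4⟩ := ih (M.del {x}) Q (by rw [BM.del_S]; omega)
        ⟨hsub W hW hxW, hsub Q hQ hxQ, hWQ, hcd, h1⟩
      exact ⟨M', Q', h2.trans (minor_del _ _), h3, h4⟩
    push_neg at h1
    obtain ⟨A0, hA1, hA2, hA3, hA4⟩ := h1
    rw [BM.del_S] at hA2
    have hxA0 : x ∉ A0 := fun h' => by simpa using hA2 h'
    have hA0S : A0 ⊆ M.S := hA2.trans Finset.sdiff_subset
    have h2 : ∀ A, W ⊆ A → A ⊆ (M.con {x}).S → Disjoint A Q → 2 ≤ (M.con {x}).lam A := by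
      intro A hB1 hB2 hB3
      rw [BM.con_S] at hB2
      have hxA : x ∉ A := fun h' => by simpa using hB2 h'
      have h3 := M.uncross hxS hxA0 hxA
      have h4 := hlam (A0 ∩ A) (Finset.subset_inter hA1 hB1)
        (Finset.inter_subset_left.trans hA0S)
        (Finset.disjoint_of_subset_left Finset.inter_subset_left hA3)
      have h5 := hlam (insert x (A0 ∪ A)) (fun f hf => by simp [hA1 hf])
        (by
          intro f hf
          simp only [Finset.mem_insert, Finset.mem_union] at hf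
          rcases hf with hf | hf | hf
          · exact hf ▸ hxS
          · exact hA0S hf
          · exact (Finset.mem_sdiff.1 (hB2 hf)).1)
        (by
          rw [Finset.disjoint_insert_left, Finset.disjoint_union_left]
          exact ⟨hxQ, hA3, hB3⟩)
      omega
    by_cases h3 : Circ (M.con {x}) Q
    · obtain ⟨M', Q', h4, h5, h6⟩ := ih (M.con {x}) Q (by rw [BM.con_S]; (clear * - hn hcard A0; omega))
        ⟨hsub W hW hxW, hsub Q hQ hxQ, hWQ, h3, h2⟩
      exact ⟨M', Q', h4.trans (minor_con _ _), h5, h6⟩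
    obtain ⟨C1, C2, hC1, hC2, hd, hU, k1, k2⟩ := split_circuit M Q x hC hQ hxS hxQ h3
    have hC1Q : C1 ⊆ Q := by rw [← hU]; exact Finset.subset_union_left
    have hC2Q : C2 ⊆ Q := by rw [← hU]; exact Finset.subset_union_right
    have hcardU : C1.card + C2.card = Q.card := by
      rw [← Finset.card_union_of_disjoint hd, hU]
    -- both parts have at least two elements
    have key : ∀ C : Finset E, C ⊆ Q → C.Nonempty → Circ M (insert x C) → 2 ≤ C.card := by
      intro C hCQ hCne hCc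
      by_contra hlt
      have hpos := Finset.card_pos.2 hCne
      obtain ⟨c, rfl⟩ := Finset.card_eq_one.1 (show C.card = 1 by omega)
      have hcQ : c ∈ Q := hCQ (by simp)
      have hcA0 : c ∉ A0 := fun h' => Finset.disjoint_left.1 hA3 h' hcQ
      have h4 := no_parallel M A0 x c hA0S hxS (hQ hcQ) (fun h' => hxQ (h' ▸ hcQ)) hxA0 hcA0
        hCc.2.1
      have h5 := hlam A0 hA1 hA0S hA3
      omega
    have hk1 := key C1 hC1Q hC1 k1
    have hk2 := key C2 hC2Q hC2 k2
    have hxC1 : x ∉ C1 := fun h' => hxQ (hC1Q h')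
    have hxC2 : x ∉ C2 := fun h' => hxQ (hC2Q h')
    have hcin1 : (insert x C1).card = C1.card + 1 := Finset.card_insert_of_notMem hxC1
    have hcin2 : (insert x C2).card = C2.card + 1 := Finset.card_insert_of_notMem hxC2
    have hgood : ∀ C : Finset E, C ⊆ Q → Circ M (insert x C) →
        (insert x C).card < Q.card →
        (∀ A, W ⊆ A → A ⊆ M.S → Disjoint A (insert x C) → 2 ≤ M.lam A) →
        ∃ (M' : BM E) (Q' : Finset E), Minor M' M ∧ GoodP M' W Q' ∧ M'.S = W ∪ Q' := by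
      intro C hCQ hCc hlt hl
      refine ih M (insert x C) (by (clear * - hn hcard A0 hcardU hcin1 hcin2 hlt; omega)) ⟨hW, Finset.insert_subset hxS (hCQ.trans hQ), ?_, hCc, hl⟩
      rw [Finset.disjoint_insert_right]
      exact ⟨hxW, Finset.disjoint_of_subset_right hCQ hWQ⟩
    by_cases h4 : ∀ A, W ⊆ A → A ⊆ M.S → Disjoint A (insert x C1) → 2 ≤ M.lam A
    · exact hgood C1 hC1Q k1 (by (clear * - n M A0 hcardU hk2 hcin1 hcin2; omega)) h4
    by_cases h5 : ∀ A, W ⊆ A → A ⊆ M.S → Disjoint A (insert x C2) → 2 ≤ M.lam A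
    · exact hgood C2 hC2Q k2 (by (clear * - n M A0 hcardU hk1 hcin1 hcin2; omega)) h5
    exfalso
    push_neg at h4 h5
    obtain ⟨A1, a1, a2, a3, a4⟩ := h4
    obtain ⟨A2, b1, b2, b3, b4⟩ := h5
    have hsm := M.lam_submod A1 A2
    have hQdisj : Disjoint (A1 ∩ A2) Q := by
      rw [Finset.disjoint_left]
      intro e he heQ
      rw [← hU] at heQ
      rcases Finset.mem_union.1 heQ with h6 | h6
      · exact Finset.disjoint_left.1 a3 (Finset.mem_inter.1 he).1 (by simp [h6])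
      · exact Finset.disjoint_left.1 b3 (Finset.mem_inter.1 he).2 (by simp [h6])
    have h6 := hlam (A1 ∩ A2) (Finset.subset_inter a1 b1) (Finset.inter_subset_left.trans a2) hQdisj
    have h7 : M.lam (A1 ∪ A2) = 0 := by omega
    have hUS : A1 ∪ A2 ⊆ M.S := Finset.union_subset a2 b2
    have hxU : x ∉ A1 ∪ A2 := by
      simp only [Finset.mem_union, not_or]
      exact ⟨fun h' => Finset.disjoint_left.1 a3 h' (by simp),
        fun h' => Finset.disjoint_left.1 b3 h' (by simp)⟩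
    have s1 := circ_separator M (A1 ∪ A2) (insert x C1) hUS h7 k1 ⟨x, by simp, hxU⟩
    have s2 := circ_separator M (A1 ∪ A2) (insert x C2) hUS h7 k2 ⟨x, by simp, hxU⟩
    have h8 := hlam (A1 ∪ A2) (a1.trans Finset.subset_union_left) hUS (by
      rw [Finset.disjoint_left]
      intro e he heQ
      rw [← hU] at heQ
      rcases Finset.mem_union.1 heQ with h9 | h9
      · exact Finset.disjoint_left.1 s1 he (by simp [h9])
      · exact Finset.disjoint_left.1 s2 he (by simp [h9]))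
    omega

theorem good_red (M : BM E) (W Q : Finset E) (h : GoodP M W Q) :
    ∃ (M' : BM E) (Q' : Finset E), Minor M' M ∧ GoodP M' W Q' ∧ M'.S = W ∪ Q' :=
  good_red_aux W _ M Q le_rfl h

end SEY

end

section

/-!
Block LINK (helper38) of the project SEY: Tutte's linking theorem and preservation.
-/

set_option autoImplicit false

namespace SEY

open Finset

variable {E : Type} [Fintype E] [DecidableEq E]

theorem linking_aux (n : ℕ) : ∀ (M : BM E) (X Y : Finset E), X ⊆ M.S → Y ⊆ M.S → Disjoint X Y →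
    ∀ k : ℕ, (∀ A, X ⊆ A → A ⊆ M.S → Disjoint A Y → k ≤ M.lam A) → (M.S \ (X ∪ Y)).card = n →
    ∃ C D : Finset E, Disjoint C D ∧ Disjoint C (X ∪ Y) ∧ Disjoint D (X ∪ Y) ∧
      X ∪ Y ∪ C ∪ D = M.S ∧ k ≤ ((M.con C).del D).lam X := by
  induction n with
  | zero =>
    intro M X Y hX hY hd k h hn
    rw [Finset.card_eq_zero, Finset.sdiff_eq_empty_iff_subset] at hn
    refine ⟨∅, ∅, Finset.disjoint_empty_left _, Finset.disjoint_empty_left _,
      Finset.disjoint_empty_left _, ?_, ?_⟩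
    · rw [Finset.union_empty, Finset.union_empty]
      exact Finset.Subset.antisymm (Finset.union_subset hX hY) hn
    · rw [BM.con_empty, BM.del_empty]
      exact h X (Finset.Subset.refl _) hX hd
  | succ n ih =>
    intro M X Y hX hY hd k h hn
    have hne : (M.S \ (X ∪ Y)).Nonempty := by
      rw [← Finset.card_pos]; omega
    obtain ⟨e, he⟩ := hne
    have heS : e ∈ M.S := (Finset.mem_sdiff.1 he).1
    have heX : e ∉ X := fun h' => (Finset.mem_sdiff.1 he).2 (Finset.mem_union_left _ h')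
    have heY : e ∉ Y := fun h' => (Finset.mem_sdiff.1 he).2 (Finset.mem_union_right _ h')
    have hX' : X ⊆ M.S \ {e} := fun x hx => Finset.mem_sdiff.2 ⟨hX hx, fun h' => heX (by
      rw [Finset.mem_singleton] at h'; exact h' ▸ hx)⟩
    have hY' : Y ⊆ M.S \ {e} := fun x hx => Finset.mem_sdiff.2 ⟨hY hx, fun h' => heY (by
      rw [Finset.mem_singleton] at h'; exact h' ▸ hx)⟩
    have hcard : ((M.S \ {e}) \ (X ∪ Y)).card = n := by
      have h1 : (M.S \ {e}) \ (X ∪ Y) = (M.S \ (X ∪ Y)).erase e := by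
        ext x
        simp only [Finset.mem_sdiff, Finset.mem_singleton, Finset.mem_erase]
        tauto
      rw [h1, Finset.card_erase_of_mem he, hn]
      rfl
    have hset : ∀ C D : Finset E, X ∪ Y ∪ C ∪ D = M.S \ {e} → X ∪ Y ∪ C ∪ ({e} ∪ D) = M.S ∧
        X ∪ Y ∪ ({e} ∪ C) ∪ D = M.S := by
      intro C D hCD
      have h1 : M.S = insert e (M.S \ {e}) := by
        ext x
        simp only [Finset.mem_insert, Finset.mem_sdiff, Finset.mem_singleton]
        constructor
        · intro hx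
          by_cases hxe : x = e
          · exact Or.inl hxe
          · exact Or.inr ⟨hx, hxe⟩
        · rintro (hx | hx)
          · rw [hx]; exact heS
          · exact hx.1
      rw [h1, ← hCD]
      constructor
      · ext x
        simp only [Finset.mem_insert, Finset.mem_union, Finset.mem_singleton]
        tauto
      · ext x
        simp only [Finset.mem_insert, Finset.mem_union, Finset.mem_singleton]
        tauto
    by_cases h1 : ∀ A, X ⊆ A → A ⊆ (M.del {e}).S → Disjoint A Y → k ≤ (M.del {e}).lam A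
    · obtain ⟨C, D, hCD, hC, hD, hS, hk⟩ := ih (M.del {e}) X Y hX' hY' hd k h1 hcard
      have heC : e ∉ C := by
        intro h'
        have : e ∈ (M.del {e}).S := by
          rw [← hS]
          simp only [Finset.mem_union]
          tauto
        exact (Finset.mem_sdiff.1 this).2 (Finset.mem_singleton_self e)
      refine ⟨C, {e} ∪ D, ?_, hC, ?_, (hset C D hS).1, ?_⟩
      · rw [Finset.disjoint_union_right]
        exact ⟨Finset.disjoint_singleton_right.2 heC, hCD⟩
      · rw [Finset.disjoint_union_left]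
        exact ⟨Finset.disjoint_singleton_left.2 (Finset.mem_sdiff.1 he).2, hD⟩
      · rw [BM.del_con M (Finset.disjoint_singleton_left.2 heC), BM.del_del] at hk
        exact hk
    · by_cases h2 : ∀ A, X ⊆ A → A ⊆ (M.con {e}).S → Disjoint A Y → k ≤ (M.con {e}).lam A
      · obtain ⟨C, D, hCD, hC, hD, hS, hk⟩ := ih (M.con {e}) X Y hX' hY' hd k h2 hcard
        have heD : e ∉ D := by
          intro h'
          have : e ∈ (M.con {e}).S := by
            rw [← hS]
            simp only [Finset.mem_union]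
            tauto
          exact (Finset.mem_sdiff.1 this).2 (Finset.mem_singleton_self e)
        refine ⟨{e} ∪ C, D, ?_, ?_, hD, (hset C D hS).2, ?_⟩
        · rw [Finset.disjoint_union_left]
          exact ⟨Finset.disjoint_singleton_left.2 heD, hCD⟩
        · rw [Finset.disjoint_union_left]
          exact ⟨Finset.disjoint_singleton_left.2 (Finset.mem_sdiff.1 he).2, hC⟩
        · rw [BM.con_con] at hk
          exact hk
      · exfalso
        push Not at h1 h2
        obtain ⟨A, hXA, hAS, hAY, hA⟩ := h1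
        obtain ⟨B, hXB, hBS, hBY, hB⟩ := h2
        have heA : e ∉ A := fun h' =>
          (Finset.mem_sdiff.1 (hAS h')).2 (Finset.mem_singleton_self e)
        have heB : e ∉ B := fun h' =>
          (Finset.mem_sdiff.1 (hBS h')).2 (Finset.mem_singleton_self e)
        have hu := M.uncross heS heA heB
        have h3 : k ≤ M.lam (A ∩ B) := by
          refine h _ (Finset.subset_inter hXA hXB) ?_ ?_
          · exact (Finset.inter_subset_left).trans (hAS.trans Finset.sdiff_subset)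
          · exact Finset.disjoint_of_subset_left Finset.inter_subset_left hAY
        have h4 : k ≤ M.lam (insert e (A ∪ B)) := by
          refine h _ ((hXA.trans Finset.subset_union_left).trans (Finset.subset_insert _ _)) ?_ ?_
          · refine Finset.insert_subset heS (Finset.union_subset ?_ ?_)
            · exact hAS.trans Finset.sdiff_subset
            · exact hBS.trans Finset.sdiff_subset
          · rw [Finset.disjoint_insert_left, Finset.disjoint_union_left]
            exact ⟨heY, hAY, hBY⟩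
        omega

/-- Tutte's linking theorem. -/
theorem lk_linking (M : BM E) (X Y : Finset E) (hX : X ⊆ M.S) (hY : Y ⊆ M.S) (hd : Disjoint X Y)
    (k : ℕ) (h : ∀ A, X ⊆ A → A ⊆ M.S → Disjoint A Y → k ≤ M.lam A) :
    ∃ C D : Finset E, Disjoint C D ∧ Disjoint C (X ∪ Y) ∧ Disjoint D (X ∪ Y) ∧
      X ∪ Y ∪ C ∪ D = M.S ∧ k ≤ ((M.con C).del D).lam X :=
  linking_aux _ M X Y hX hY hd k h rfl

/-- Preservation: if the connectivity of `X` does not drop, contracted sets are skew to `X`. -/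
theorem lk_preserve (M : BM E) (X C D : Finset E) (hX : X ⊆ M.S) (hC : C ⊆ M.S)
    (hCX : Disjoint C X) (hDX : Disjoint D X) (h : M.lam X ≤ ((M.con C).del D).lam X) :
    (∀ f ∈ M.R, ∃ f' ∈ M.R, (∀ c ∈ C, f' c = 0) ∧ ∀ x ∈ X, f' x = f x) ∧
      ∀ g : E → ZMod 2, (∀ e, e ∉ X → g e = 0) → g ∈ ((M.con C).del D).R → g ∈ M.R := by
  have e1 := (M.con C).lam_del_add D X
  have e2 := M.r_con_add C ((M.con C).S \ D)
  have e3 := M.r_con_add C (X \ D)
  have e4 := M.r_con_add C (((M.con C).S \ X) \ D)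
  have hXD : X \ D = X := Finset.sdiff_eq_self_of_disjoint hDX.symm
  rw [hXD] at e1 e3
  have e5 := M.lam_add_rk X
  have e6 := M.r_submod (M.S \ X) (((M.con C).S \ D) ∪ C)
  have e7 : M.r ((M.S \ X) ∪ (((M.con C).S \ D) ∪ C)) = M.rk := by
    refine M.r_of_S_subset ?_
    intro e he
    simp only [BM.con_S, Finset.mem_union, Finset.mem_sdiff]
    by_cases hx : e ∈ X
    · right; left
      exact ⟨⟨he, fun hc => Finset.disjoint_left.1 hCX hc hx⟩,
        fun hd => Finset.disjoint_left.1 hDX hd hx⟩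
    · left; exact ⟨he, hx⟩
  have e8 : M.r ((((M.con C).S \ X) \ D) ∪ C) ≤
      M.r ((M.S \ X) ∩ (((M.con C).S \ D) ∪ C)) := by
    refine M.r_mono ?_
    intro e he
    simp only [BM.con_S, Finset.mem_union, Finset.mem_sdiff, Finset.mem_inter] at he ⊢
    rcases he with he | he
    · tauto
    · exact ⟨⟨hC he, fun hx => Finset.disjoint_left.1 hCX he hx⟩, Or.inr he⟩
  have e9 := M.r_union_le X C
  have hskew : M.r (X ∪ C) = M.r X + M.r C := by (clear * - h e1 e2 e3 e4 e5 e6 e7 e8 e9; omega)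
  constructor
  · have hle : M.R.map (mask (X ∪ C)) ≤ M.R.map (mask X) ⊔ M.R.map (mask C) := by
      rintro _ ⟨f, hf, rfl⟩
      rw [Submodule.mem_sup]
      refine ⟨mask X f, ⟨f, hf, rfl⟩, mask C f, ⟨f, hf, rfl⟩, ?_⟩
      ext e
      by_cases h1 : e ∈ X
      · have h2 : e ∉ C := fun hc => Finset.disjoint_left.1 hCX hc h1
        simp [h1, h2]
      · by_cases h2 : e ∈ C <;> simp [h1, h2]
    have hsup := Submodule.finrank_add_le_finrank_add_finrank (M.R.map (mask X))
      (M.R.map (mask C))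
    have heq : M.R.map (mask (X ∪ C)) = M.R.map (mask X) ⊔ M.R.map (mask C) := by
      refine Submodule.eq_of_le_of_finrank_le hle ?_
      have : Module.finrank (ZMod 2) (M.R.map (mask (X ∪ C))) =
          Module.finrank (ZMod 2) (M.R.map (mask X)) +
            Module.finrank (ZMod 2) (M.R.map (mask C)) := hskew
      omega
    intro f hf
    have h1 : mask X f ∈ M.R.map (mask (X ∪ C)) := by
      rw [heq]
      exact Submodule.mem_sup_left ⟨f, hf, rfl⟩
    obtain ⟨f', hf', h2⟩ := h1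
    refine ⟨f', hf', fun c hc => ?_, fun x hx => ?_⟩
    · have h3 := congrFun h2 c
      have h4 : c ∉ X := fun hx => Finset.disjoint_left.1 hCX hc hx
      simpa [hc, h4] using h3
    · have h3 := congrFun h2 x
      simpa [hx] using h3
  · have hle : M.RIn X ≤ ((M.con C).del D).RIn X := by
      rintro f ⟨hf, hf0⟩
      refine ⟨?_, hf0⟩
      rw [BM.mem_del]
      refine ⟨f, ⟨hf, fun e he => hf0 e fun hx => Finset.disjoint_left.1 hCX he hx⟩, ?_⟩
      refine mask_eq_self fun e he => ?_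
      by_cases hx : e ∈ X
      · exfalso
        refine he ?_
        simp only [BM.con_S, Finset.mem_sdiff]
        exact ⟨⟨hX hx, fun hc => Finset.disjoint_left.1 hCX hc hx⟩,
          fun hd => Finset.disjoint_left.1 hDX hd hx⟩
      · exact hf0 e hx
    have g1 := M.lam_add_dR_eq_r X
    have g2 := ((M.con C).del D).lam_add_dR_eq_r X
    rw [BM.r_del, hXD] at g2
    have heq : M.RIn X = ((M.con C).del D).RIn X := by
      refine Submodule.eq_of_le_of_finrank_le hle ?_
      show ((M.con C).del D).dR X ≤ M.dR X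
      omega
    intro g hg0 hg
    have : g ∈ ((M.con C).del D).RIn X := ⟨hg, hg0⟩
    rw [← heq] at this
    exact this.1

end SEY

end

section

/-!
Block LINK (helper38) of the project SEY: the Delta lemma.
-/

set_option autoImplicit false

namespace SEY

open Finset

variable {E : Type} [Fintype E] [DecidableEq E]

/-- A base of a matroid. -/
theorem exists_base (N : BM E) : ∃ K ⊆ N.S, N.r K = N.rk ∧ N.r K = K.card := by
  have hne : (N.S.powerset.filter (fun K => N.r K = N.rk)).Nonempty :=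
    ⟨N.S, Finset.mem_filter.2 ⟨Finset.mem_powerset_self _, N.r_S⟩⟩
  obtain ⟨K, hK, hmin⟩ := Finset.exists_min_image _ (fun K => K.card) hne
  rw [Finset.mem_filter, Finset.mem_powerset] at hK
  refine ⟨K, hK.1, hK.2, ?_⟩
  by_contra hcard
  have h1 := N.r_add_dZ hK.1
  have h2 : 0 < N.dZ K := by omega
  rw [BM.dZ_pos_iff] at h2
  obtain ⟨z, hz, hz0, hzK⟩ := h2
  obtain ⟨e, he⟩ : ∃ e, z e ≠ 0 := by
    by_contra hcon
    push Not at hcon
    exact hz0 (funext hcon)
  have heK : e ∈ K := by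
    by_contra h
    exact he (hzK e h)
  have h3 : insert e (K.erase e) = K := Finset.insert_erase heK
  have h4 : N.r (insert e (K.erase e)) = N.r (K.erase e) := by
    rw [N.r_insert_eq_iff ((Finset.erase_subset _ _).trans hK.1) (hK.1 heK)
      (Finset.notMem_erase _ _)]
    exact ⟨z, hz, z_ne_zero.1 he, fun x hx => hzK x (by rwa [h3] at hx)⟩
  rw [h3] at h4
  have h5 := hmin (K.erase e) (Finset.mem_filter.2
    ⟨Finset.mem_powerset.2 ((Finset.erase_subset _ _).trans hK.1), by rw [← h4]; exact hK.2⟩)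
  rw [Finset.card_erase_of_mem heK] at h5
  have h6 := Finset.card_pos.2 ⟨e, heK⟩
  omega

/-- A nonzero cycle contains a circuit. -/
theorem exists_circ (M : BM E) {z : E → ZMod 2} (hz : z ∈ M.Z) (hz0 : z ≠ 0) :
    ∃ Q ⊆ spt z, Circ M Q := by
  classical
  have hne : ((spt z).powerset.filter (fun Q => Q ≠ ∅ ∧ (ind Q : E → ZMod 2) ∈ M.Z)).Nonempty := by
    refine ⟨spt z, Finset.mem_filter.2 ⟨Finset.mem_powerset_self _, ?_, ?_⟩⟩
    · rwa [Ne, spt_eq_empty]
    · rwa [ind_spt]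
  obtain ⟨Q, hQ, hmin⟩ := Finset.exists_min_image _ (fun K => K.card) hne
  rw [Finset.mem_filter, Finset.mem_powerset] at hQ
  refine ⟨Q, hQ.1, Finset.nonempty_iff_ne_empty.2 hQ.2.1, hQ.2.2, fun w hw hwQ => ?_⟩
  by_cases hw0 : w = 0
  · exact Or.inl hw0
  · right
    have h1 : spt w ⊆ Q := spt_subset.2 hwQ
    have h2 := hmin (spt w) (Finset.mem_filter.2
      ⟨Finset.mem_powerset.2 (h1.trans hQ.1), by rwa [Ne, spt_eq_empty], by rwa [ind_spt]⟩)
    have h3 := Finset.eq_of_subset_of_card_le h1 h2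
    rw [← h3, ind_spt]

theorem circ_dZ (M : BM E) {Q : Finset E} (h : Circ M Q) : M.dZ Q = 1 := by
  have h1 : 0 < M.dZ Q := by
    rw [BM.dZ_pos_iff]
    refine ⟨ind Q, h.2.1, fun h0 => ?_, fun e he => ind_of_notMem he⟩
    rw [ind_eq_zero] at h0
    exact (Finset.nonempty_iff_ne_empty.1 h.1) h0
  have h2 : M.ZIn Q ≤ Submodule.span (ZMod 2) {(ind Q : E → ZMod 2)} := by
    rintro z ⟨hz, hz0⟩
    rw [Submodule.mem_span_singleton]
    rcases h.2.2 z hz hz0 with rfl | rfl
    · exact ⟨0, zero_smul _ _⟩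
    · exact ⟨1, one_smul _ _⟩
  have h3 := Submodule.finrank_mono h2
  have h4 : Module.finrank (ZMod 2) (Submodule.span (ZMod 2) {(ind Q : E → ZMod 2)}) ≤ 1 := by
    simpa using finrank_span_le_card (R := ZMod 2) ({ind Q} : Set (E → ZMod 2))
  have h5 : M.dZ Q ≤ 1 := le_trans h3 h4
  (clear * - h1 h5; omega)

theorem circ_card (M : BM E) (hTC : M.TC) {Q : Finset E} (hQS : Q ⊆ M.S) (h : Circ M Q) :
    3 ≤ Q.card := by
  by_contra hlt
  have h1 := M.r_add_dZ hQS
  have h2 := circ_dZ M h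
  have h3 := M.lam_le_r Q
  have h4 := hTC.2 Q hQS
  have h5 := Finset.card_sdiff_add_card_eq_card hQS
  have h6 := hTC.1
  have h7 : Q.card ≤ 1 := by
    rcases h4.2 (by omega) with h8 | h8
    · exact h8
    · omega
  rcases h4.1 (by omega) with h8 | h8
  · exact (Finset.nonempty_iff_ne_empty.1 h.1) h8
  · rw [h8] at h7
    omega

/-- The Delta lemma. -/
theorem lk_delta (M : BM E) (h : M.TC) (W : Finset E) (hWS : W ⊆ M.S) (hW : M.lam W = 2)
    (hz : ∃ z ∈ M.Z, z ≠ 0 ∧ ∀ e ∈ W, z e = 0) :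
    ∃ (d : Fin 3 → E) (C : Finset E), Function.Injective d ∧
      (∀ i, d i ∈ M.S ∧ d i ∉ W ∧ d i ∉ C) ∧ C ⊆ M.S ∧ Disjoint C W ∧
      (∀ f ∈ M.R, (∀ c ∈ C, f c = 0) → f (d 0) + f (d 1) + f (d 2) = 0) ∧
      (∀ f ∈ M.R, ∃ f' ∈ M.R, (∀ c ∈ C, f' c = 0) ∧ ∀ x ∈ W, f' x = f x) ∧
      (∀ f ∈ M.R, (∀ c ∈ C, f c = 0) → (∀ i, f (d i) = 0) →
        ∃ g ∈ M.R, (∀ e, e ∉ W → g e = 0) ∧ ∀ x ∈ W, g x = f x) ∧
      (∀ p : Fin 3 → ZMod 2, p 0 + p 1 + p 2 = 0 →
        ∃ f ∈ M.R, (∀ c ∈ C, f c = 0) ∧ ∀ i, f (d i) = p i) := by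
  obtain ⟨z, hzZ, hz0, hzW⟩ := hz
  obtain ⟨Q0, hQ0z, hQ0⟩ := exists_circ M hzZ hz0
  have hQ0S : Q0 ⊆ M.S := hQ0z.trans (M.spt_subset_of_mem_Z hzZ)
  have hQ0W : Disjoint W Q0 := by
    rw [Finset.disjoint_left]
    intro e he he'
    exact mem_spt.1 (hQ0z he') (hzW e he)
  have hgood : GoodP M W Q0 := by
    refine ⟨hWS, hQ0S, hQ0W, hQ0, fun A hWA hAS hAQ => ?_⟩
    by_contra hlt
    have h1 := circ_card M h hQ0S hQ0
    have h2 := Finset.card_le_card hWA
    have h3 := M.lam_le_card W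
    have h4 : Q0 ⊆ M.S \ A := fun e he =>
      Finset.mem_sdiff.2 ⟨hQ0S he, fun h' => Finset.disjoint_left.1 hAQ h' he⟩
    have h5 := Finset.card_le_card h4
    rcases (h.2 A hAS).2 (by omega) with h6 | h6 <;> omega
  obtain ⟨M', Q, hmin, hG, hS'⟩ := good_red M W Q0 hgood
  obtain ⟨C, D, hC, hD, hCD, hM', hM'S⟩ := hmin.normal
  obtain ⟨hWS', hQS', hWQ, hQc, hlam⟩ := hG
  have hsub : ∀ e ∈ M'.S, e ∈ M.S ∧ e ∉ C ∧ e ∉ D := by
    intro e he
    rw [hM'S, Finset.mem_sdiff, Finset.mem_union] at he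
    tauto
  have hCW : Disjoint C W := by
    rw [Finset.disjoint_left]
    intro e he he'
    exact (hsub e (hWS' he')).2.1 he
  have hDW : Disjoint D W := by
    rw [Finset.disjoint_left]
    intro e he he'
    exact (hsub e (hWS' he')).2.2 he
  have hlW : 2 ≤ M'.lam W := hlam W (Finset.Subset.refl _) hWS' hWQ
  have hlW' : M'.lam W ≤ 2 := by rw [← hW]; exact hmin.lam_le W
  have hpres := lk_preserve M W C D hWS hC hCW hDW (by rw [hW, ← hM']; exact hlW)
  obtain ⟨P1, P2⟩ := hpres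
  rw [← hM'] at P2
  have hSW : M'.S \ W = Q := by
    rw [hS', Finset.union_sdiff_left, Finset.sdiff_eq_self_of_disjoint hWQ.symm]
  have hlQ : M'.lam Q = 2 := by
    rw [← hSW, BM.lam_compl]; omega
  have hdZQ := circ_dZ M' hQc
  have hrQ := M'.r_add_dZ hQS'
  have hdRQ := M'.lam_add_dR_eq_r Q
  obtain ⟨K, hKS, hK1, hK2⟩ := exists_base (M'.con W)
  have hKQ : K ⊆ Q := by rw [BM.con_S, hSW] at hKS; exact hKS
  have hrk : (M'.con W).rk = M'.dR Q := by
    have g1 := M'.rk_con_add W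
    have g2 := M'.r_add_dR_sdiff W
    rw [hSW] at g2
    omega
  have hcK := Finset.card_sdiff_add_card_eq_card hKQ
  have hc3 : (Q \ K).card = 3 := by omega
  obtain ⟨a, b, c, hab, hac, hbc, habc⟩ := Finset.card_eq_three.1 hc3
  have hmemd : ∀ e, e ∈ Q → e ∉ K → e = a ∨ e = b ∨ e = c := by
    intro e he he'
    have : e ∈ Q \ K := Finset.mem_sdiff.2 ⟨he, he'⟩
    rw [habc] at this
    simpa using this
  have haQ : a ∈ Q ∧ a ∉ K := Finset.mem_sdiff.1 (by rw [habc]; simp)
  have hbQ : b ∈ Q ∧ b ∉ K := Finset.mem_sdiff.1 (by rw [habc]; simp)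
  have hcQ : c ∈ Q ∧ c ∉ K := Finset.mem_sdiff.1 (by rw [habc]; simp)
  -- surjectivity on K
  have hsurj : ∀ f : E → ZMod 2, ∃ g ∈ (M'.con W).R, ∀ e ∈ K, g e = f e := by
    intro f
    have hdK : (M'.con W).dZ K = 0 := by
      have := (M'.con W).r_add_dZ hKS
      omega
    rw [BM.dZ_eq_zero_iff] at hdK
    have h1 : mask K f ∈ ((M'.con W).res K).R := by
      rw [BM.mem_R_iff]
      constructor
      · intro e he
        by_cases hK : e ∈ K
        · exact absurd (Finset.mem_inter.2 ⟨hKS hK, hK⟩) he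
        · simp [hK]
      · intro w hw
        rw [BM.mem_Z_res] at hw
        rw [hdK w hw.1 hw.2, dot_zero_right]
    rw [BM.mem_res'] at h1
    obtain ⟨-, g, hg, hg2⟩ := h1
    refine ⟨g, hg, fun e he => ?_⟩
    rw [hg2 e (Finset.mem_inter.2 ⟨hKS he, he⟩)]
    simp [he]
  -- rows of M give rows of M' and conversely
  have hdown : ∀ f ∈ M.R, (∀ e ∈ C, f e = 0) → mask M'.S f ∈ M'.R := by
    intro f hf hf0
    have h1 : mask ((M.con C).S \ D) f ∈ ((M.con C).del D).R := ⟨f, ⟨hf, hf0⟩, rfl⟩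
    rw [hM']
    exact h1
  have hup : ∀ g ∈ M'.R, ∃ f ∈ M.R, (∀ e ∈ C, f e = 0) ∧ ∀ e ∈ M'.S, f e = g e := by
    intro g hg
    rw [hM', BM.mem_del'] at hg
    obtain ⟨-, f, ⟨hf, hf0⟩, h2⟩ := hg
    refine ⟨f, hf, hf0, fun e he => h2 e ?_⟩
    rw [hM'] at he
    exact he
  have hWM' : ∀ e ∈ W, e ∈ M'.S := fun e he => hWS' he
  have hQM' : ∀ e ∈ Q, e ∈ M'.S := fun e he => hQS' he
  have hinj : Function.Injective (![a, b, c] : Fin 3 → E) := by
    intro i j hij
    fin_cases i <;> fin_cases j <;> first | rfl | (exfalso; simp at hij; tauto)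
  have hall : ∀ i, (![a, b, c] : Fin 3 → E) i ∈ Q ∧ (![a, b, c] : Fin 3 → E) i ∉ K := by
    intro i
    fin_cases i
    · exact haQ
    · exact hbQ
    · exact hcQ
  refine ⟨![a, b, c], C ∪ K, hinj, ?_, ?_, ?_, ?_, ?_, ?_, ?_⟩
  · intro i
    obtain ⟨h1, h2⟩ := hall i
    obtain ⟨h3, h4, h5⟩ := hsub _ (hQM' _ h1)
    refine ⟨h3, fun h6 => Finset.disjoint_left.1 hWQ h6 h1, fun h6 => ?_⟩
    rcases Finset.mem_union.1 h6 with h7 | h7
    · exact h4 h7
    · exact h2 h7
  · exact Finset.union_subset hC (fun e he => (hsub e (hQM' e (hKQ he))).1)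
  · rw [Finset.disjoint_union_left]
    refine ⟨hCW, ?_⟩
    rw [Finset.disjoint_left]
    intro e he he'
    exact Finset.disjoint_left.1 hWQ he' (hKQ he)
  · -- D1
    intro f hf hf0
    have h1 := hdown f hf (fun e he => hf0 e (Finset.mem_union_left _ he))
    have h2 := M'.dot_eq_zero h1 hQc.2.1
    rw [dot_ind] at h2
    have h3 : ∑ e ∈ Q, mask M'.S f e = ∑ e ∈ Q, f e :=
      Finset.sum_congr rfl (fun e he => by simp [hQM' e he])
    rw [h3, ← Finset.sum_sdiff hKQ, habc,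
      Finset.sum_eq_zero (s := K) (fun e he => hf0 e (Finset.mem_union_right _ he)), add_zero,
      Finset.sum_insert (by simp [hab, hac]), Finset.sum_pair hbc, ← add_assoc] at h2
    exact h2
  · -- D2
    intro f hf
    obtain ⟨f1, hf1, hf1C, hf1W⟩ := P1 f hf
    obtain ⟨g', hg', hgK⟩ := hsurj f1
    obtain ⟨g0, hg0, hg0C, hg0S⟩ := hup g' hg'.1
    refine ⟨f1 + g0, M.R.add_mem hf1 hg0, fun e he => ?_, fun x hx => ?_⟩
    · rw [Pi.add_apply]
      rcases Finset.mem_union.1 he with h1 | h1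
      · rw [hf1C e h1, hg0C e h1, add_zero]
      · rw [hg0S e (hQM' e (hKQ h1)), hgK e h1]
        exact z_add_self _
    · rw [Pi.add_apply, hf1W x hx, hg0S x (hWM' x hx), hg'.2 x hx, add_zero]
  · -- D3
    intro f hf hf0 hfd
    have h1 := hdown f hf (fun e he => hf0 e (Finset.mem_union_left _ he))
    have hfQ : ∀ e ∈ Q, f e = 0 := by
      intro e he
      by_cases hK : e ∈ K
      · exact hf0 e (Finset.mem_union_right _ hK)
      · rcases hmemd e he hK with rfl | rfl | rfl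
        · exact hfd 0
        · exact hfd 1
        · exact hfd 2
    have hsup : ∀ e, e ∉ W → mask M'.S f e = 0 := by
      intro e he
      by_cases hS : e ∈ M'.S
      · have hQ : e ∈ Q := by rw [← hSW]; exact Finset.mem_sdiff.2 ⟨hS, he⟩
        simp [hS, hfQ e hQ]
      · simp [hS]
    refine ⟨mask M'.S f, P2 _ hsup h1, hsup, fun x hx => ?_⟩
    simp [hWM' x hx]
  · -- D4
    intro p hp
    let hfun : E → ZMod 2 := fun e => if e = a then p 0 else if e = b then p 1 else
      if e = c then p 2 else 0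
    have hha : hfun a = p 0 := by simp [hfun]
    have hhb : hfun b = p 1 := by simp [hfun, hab.symm]
    have hhc : hfun c = p 2 := by simp [hfun, hac.symm, hbc.symm]
    have hhe : ∀ e, e ≠ a → e ≠ b → e ≠ c → hfun e = 0 := by
      intro e h1 h2 h3
      simp [hfun, h1, h2, h3]
    have hhK : ∀ e ∈ K, hfun e = 0 := by
      intro e he
      refine hhe e ?_ ?_ ?_
      · rintro rfl; exact haQ.2 he
      · rintro rfl; exact hbQ.2 he
      · rintro rfl; exact hcQ.2 he
    have hsum : ∑ e ∈ Q, hfun e = 0 := by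
      rw [← Finset.sum_sdiff hKQ, habc, Finset.sum_eq_zero (s := K) hhK, add_zero,
        Finset.sum_insert (by simp [hab, hac]), Finset.sum_pair hbc, ← add_assoc, hha, hhb, hhc]
      exact hp
    have h1 : hfun ∈ (M'.res Q).R := by
      rw [BM.mem_R_iff]
      constructor
      · intro e he
        have he' : e ∉ Q := fun h' => he (Finset.mem_inter.2 ⟨hQM' e h', h'⟩)
        refine hhe e ?_ ?_ ?_
        · rintro rfl; exact he' haQ.1
        · rintro rfl; exact he' hbQ.1
        · rintro rfl; exact he' hcQ.1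
      · intro w hw
        rw [BM.mem_Z_res] at hw
        rcases hQc.2.2 w hw.1 hw.2 with rfl | rfl
        · exact dot_zero_right _
        · rw [dot_ind]; exact hsum
    rw [BM.mem_res'] at h1
    obtain ⟨-, g, hg, hg2⟩ := h1
    obtain ⟨f, hf, hfC, hfS⟩ := hup g hg
    have hfQ : ∀ e ∈ Q, f e = hfun e := by
      intro e he
      rw [hfS e (hQM' e he), hg2 e (Finset.mem_inter.2 ⟨hQM' e he, he⟩)]
    refine ⟨f, hf, fun e he => ?_, fun i => ?_⟩
    · rcases Finset.mem_union.1 he with h1 | h1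
      · exact hfC e h1
      · rw [hfQ e (hKQ h1), hhK e h1]
    · fin_cases i
      · exact (hfQ a haQ.1).trans hha
      · exact (hfQ b hbQ.1).trans hhb
      · exact (hfQ c hcQ.1).trans hhc

end SEY

end

section

/-!
Block LINK (helper38) of the project SEY, module Outside: the complement of a set `W` with connectivity 2 in a
3-connected matroid contains a nonzero cycle if it has at least four elements.  API in Helper71/SEYApi.lean.

* `tc_coloop`: `M.TC`, `e ∈ M.S`: some cycle has `z e = 1`.  Otherwise the row space contains `ind {e}` (`BM.mem_R_iff`), so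
  `M.dual.r {e} = 0` (or `BM.r_singleton_eq_zero_iff` for `M.dual`), so `M.lam {e} = M.dual.lam {e} ≤ M.dual.r {e} = 0` (`BM.lam_dual`,
  `BM.lam_le_r`), so by TC `{e} = ∅` or `{e} = M.S`, but `4 ≤ M.S.card`.
* `tc_series`: `M.TC`, `e ≠ f` in `M.S`: some cycle has `z e ≠ z f`.  Otherwise `ind {e, f} ∈ M.R` (`BM.mem_R_iff`), so
  `1 ≤ M.dR {e, f}` (`BM.dR_pos_iff`), so by `BM.dual_r_add_dR` `M.dual.r {e, f} ≤ 1`, so `M.lam {e, f} ≤ 1`, contradiction to TC,
  as `{e, f}` has two and `M.S \ {e, f}` has at least two elements.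
* `exists_cycle_outside'`: suppose not, then `M.dZ (M.S \ W) = 0`.  With `V = M.S \ W`:  `M.lam W + M.dZ W + M.dZ V = M.nul`
  (`BM.lam_add_dZ`) and `M.dual.r V + M.dZ (M.S \ V) = M.nul` (`BM.dual_r_add_dZ`), so `M.dual.r V = 2`: the space `P := M.Z.map (mask V)` has
  dimension 2, so 4 elements, its dual space has 4 elements (`Module.card_eq_pow_finrank`).  The functionals `z ↦ z e` (`e ∈ V`) on `P` are nonzero
  (`tc_coloop`) and distinct (`tc_series`), so `V.card ≤ 3`, contradiction.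
-/

set_option autoImplicit false

namespace SEY

open Finset

variable {E : Type} [Fintype E] [DecidableEq E]

theorem tc_coloop (M : BM E) (h : M.TC) {e : E} (he : e ∈ M.S) : ∃ z ∈ M.Z, z e = 1 := by
  by_contra hcon
  push_neg at hcon
  have h1 : ∀ f ∈ M.dual.R, f e = 0 := fun z hz => z_ne_one.1 (hcon z hz)
  have h2 : M.dual.r {e} = 0 := M.dual.r_singleton_eq_zero_iff.2 h1
  have h3 : M.lam {e} = 0 := by
    have h3' := M.dual.lam_le_r {e}
    rw [M.lam_dual] at h3'
    omega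
  have h4 := h.1
  rcases (h.2 {e} (Finset.singleton_subset_iff.2 he)).1 h3 with h5 | h5
  · exact absurd h5 (Finset.singleton_ne_empty e)
  · rw [← h5] at h4
    simp at h4

theorem tc_series (M : BM E) (h : M.TC) {e f : E} (he : e ∈ M.S) (hf : f ∈ M.S) (hef : e ≠ f) :
    ∃ z ∈ M.Z, z e ≠ z f := by
  by_contra hcon
  push_neg at hcon
  have hsub : ({e, f} : Finset E) ⊆ M.S := by
    intro x hx
    rcases Finset.mem_insert.1 hx with rfl | hx
    · exact he
    · rw [Finset.mem_singleton.1 hx]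
      exact hf
  have h1 : ind {e, f} ∈ M.R := by
    rw [M.mem_R_iff]
    refine ⟨fun x hx => ind_of_notMem (fun h' => hx (hsub h')), fun z hz => ?_⟩
    rw [ind_dot, Finset.sum_pair hef, hcon z hz, z_add_self]
  have h2 : 0 < M.dR {e, f} := by
    refine M.dR_pos_iff.2 ⟨ind {e, f}, h1, fun h0 => ?_, fun x hx => ind_of_notMem hx⟩
    have h0' := ind_eq_zero.1 h0
    exact (Finset.insert_ne_empty e {f}) h0'
  have h3 := M.dual_r_add_dR hsub
  have h4 : ({e, f} : Finset E).card = 2 := Finset.card_pair hef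
  have h5 := M.dual.lam_le_r {e, f}
  rw [M.lam_dual] at h5
  have h6 := (h.2 {e, f} hsub).2 (by (clear * - h2 h3 h4 h5; omega))
  have h7 := h.1
  have h8 := Finset.card_sdiff_of_subset hsub
  omega

theorem exists_cycle_outside' (M : BM E) (h : M.TC) (W : Finset E) (hWS : W ⊆ M.S)
    (hW : M.lam W = 2) (hc : 4 ≤ (M.S \ W).card) :
    ∃ z ∈ M.Z, z ≠ 0 ∧ ∀ e ∈ W, z e = 0 := by
  classical
  by_contra hcon
  push_neg at hcon
  have h0 : M.dZ (M.S \ W) = 0 := by
    rw [M.dZ_eq_zero_iff]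
    intro z hz hz'
    by_contra hne
    obtain ⟨e, he, he'⟩ := hcon z hz hne
    exact he' (hz' e (fun h' => (Finset.mem_sdiff.1 h').2 he))
  have h1 := M.lam_add_dZ W
  have h2 := M.dual_r_add_dZ (M.S \ W)
  rw [Finset.sdiff_sdiff_eq_self hWS] at h2
  have h3 : M.dual.r (M.S \ W) = 2 := by (clear * - hW h0 h1 h2; omega)
  obtain ⟨V, hV⟩ : ∃ V, V = M.S \ W := ⟨_, rfl⟩
  rw [← hV] at h3 hc
  have hVS : V ⊆ M.S := by rw [hV]; exact Finset.sdiff_subset
  obtain ⟨P, hP⟩ : ∃ P : Submodule (ZMod 2) (E → ZMod 2), P = M.dual.R.map (mask V) := ⟨_, rfl⟩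
  have h4 : Module.finrank (ZMod 2) P = 2 := by rw [hP]; exact h3
  haveI : Finite (Module.Dual (ZMod 2) P) := Module.finite_of_finite (ZMod 2)
  haveI := Fintype.ofFinite (Module.Dual (ZMod 2) P)
  have h5 : Fintype.card (Module.Dual (ZMod 2) P) = 4 := by
    rw [Module.card_eq_pow_finrank (K := ZMod 2), Subspace.dual_finrank_eq, h4, ZMod.card]
    norm_num
  let φ : E → Module.Dual (ZMod 2) P := fun e => (LinearMap.proj e).comp P.subtype
  have hφ : ∀ e (p : P), φ e p = (p : E → ZMod 2) e := fun e p => rfl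
  have hmem : ∀ z ∈ M.Z, mask V z ∈ P := by
    intro z hz
    rw [hP]
    exact ⟨z, hz, rfl⟩
  have h6 : V.image φ ⊆ Finset.univ.erase 0 := by
    intro ψ hψ
    obtain ⟨e, he, rfl⟩ := Finset.mem_image.1 hψ
    refine Finset.mem_erase.2 ⟨fun h' => ?_, Finset.mem_univ _⟩
    obtain ⟨z, hz, hz1⟩ := tc_coloop M h (hVS he)
    have h7 := hφ e ⟨mask V z, hmem z hz⟩
    rw [h'] at h7
    simp [he, hz1] at h7
  have h7 : (V.image φ).card = V.card := by
    refine Finset.card_image_of_injOn ?_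
    intro e he f hf hef
    by_contra hne
    have he1 : e ∈ V := he
    have hf1 : f ∈ V := hf
    obtain ⟨z, hz, hz1⟩ := tc_series M h (hVS he) (hVS hf) hne
    have h8 := hφ e ⟨mask V z, hmem z hz⟩
    have h9 := hφ f ⟨mask V z, hmem z hz⟩
    rw [show φ e = φ f from hef, h9] at h8
    simp only [mask_apply, if_pos he1, if_pos hf1] at h8
    exact hz1 h8.symm
  have h8 := Finset.card_le_card h6
  rw [h7, Finset.card_erase_of_mem (Finset.mem_univ _), Finset.card_univ, h5] at h8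
  omega

end SEY

end

section

/-!
Block LINK (helper38) of the project SEY, module Quad: a quad (cycle and cocycle `{q 0, .., q 3}`) gives an `F7`-minor.
API in Helper71/SEYApi.lean.

`W := univ.image q`, `W.card = 4`.
* `quad_facts`: `M.lam W = 2`, every row supported in `W` is `0` or `ind W`, and every even function on `W` is the restriction of a
  row.  Proof: `ind W ∈ M.Z` (`BM.mem_Z`, from `hz`), so `1 ≤ M.dZ W`, `M.r W ≤ 3` (`BM.r_add_dZ`); `1 ≤ M.dR W`; `M.lam W + M.dR W = M.r W`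
  (`BM.lam_add_dR_eq_r`), so `M.lam W ≤ 2`; by TC `2 ≤ M.lam W` (`W` and `M.S \ W` have at least 4 elements).  So `M.dR W = 1`, `M.r W = 3`,
  `M.dZ W = 1`.  `dR W = 1` and `ind W ∈ RIn W` nonzero: every element of `RIn W` is a multiple of `ind W`
  (`finrank_eq_one_iff_of_nonzero'`).  Even functions: apply `BM.mem_R_iff` to `M.res W`, whose cycles are `ZIn W = {0, ind W}` (`dZ W = 1`;
  `BM.mem_Z_res`, `BM.mem_res'`).
* `quad_fin`: a finite check.  `p1, p2 : Fin 4 → ZMod 2` (with sum 0) such that every `p` with sum 0 is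
  `a p1 + b p2 + c 1`.  Then there is an injective `s : Fin 3 → Fin 3` such that for all `a b c`, with
  `P i = a * p1 i + b * p2 i + c` and `dd = ![a + b, a, b]`: `dd (s 0) = P 0 + P 1`, `dd (s 1) = P 0 + P 2`,
  `dd (s 2) = P 1 + P 2`.  (By `decide` / case analysis over the values; it is enough to use the hypothesis for
  `p = ![1,1,0,0], ![1,0,1,0]`.)
* `quad_of_delta`: given the conclusion of the Delta lemma for `W` (hypotheses `hd`, `hdS`, `hCS`, `hCW`, `D1`..`D4`).  Take from (D4) rows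
  `f1, f2 ∈ M.R`, zero on `C`, with values `(1,1,0)`, `(1,0,1)` on `d 0, d 1, d 2`.  For a row `f`, zero on `C`, put
  `a = f (d 1)`, `b = f (d 2)`; by (D1) `f (d 0) = a + b`, so `f + a f1 + b f2` is zero on `C` and on the `d i`; by (D3) there is `g ∈ M.R`
  supported in `W` which agrees with it on `W`, so `g = c • ind W`: `f (q i) = a f1 (q i) + b f2 (q i) + c` for all `i`.  Every even function on `W`
  is the restriction of a row, and by (D2) of a row which is zero on `C`; so `quad_fin` applies to `p1 i = f1 (q i)`, `p2 i = f2 (q i)`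
  and gives `s`.  Put `φ = ![q 0, q 1, q 2, d (s 0), d (s 1), d (s 2), q 3]`.  For a row `f`, zero on `C`:
  `f (φ j) = (u, v, w, u + v, u + w, v + w, u + v + w)` where `u, v, w = f (q 0), f (q 1), f (q 2)`; this is `∑ i, ![u, v, w] i * F7 i j`.
  The three rows of `F7` arise: take a row with `(u, v, w)` a unit vector (even function `(1,0,0,1)` etc.), zero on `C` (D2).
  `C ⊆ M.S`, `φ i ∉ C`: `hCW`, `hdS`; injectivity of `φ`: `q`, `d`, `s` injective, `d i ∉ W`.
-/

set_option autoImplicit false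

namespace SEY

open Finset

variable {E : Type} [Fintype E] [DecidableEq E]

theorem quad_facts (M : BM E) (h : M.TC) (q : Fin 4 → E) (hq : Function.Injective q)
    (hS : ∀ i, q i ∈ M.S) (hz : ∀ f ∈ M.R, ∑ i, f (q i) = 0)
    (hr : ind (Finset.univ.image q) ∈ M.R) (hc : 8 ≤ M.S.card) :
    M.lam (Finset.univ.image q) = 2 ∧
      (∀ g ∈ M.R, (∀ e, e ∉ Finset.univ.image q → g e = 0) →
        g = 0 ∨ g = ind (Finset.univ.image q)) ∧
      (∀ p : Fin 4 → ZMod 2, ∑ i, p i = 0 → ∃ f ∈ M.R, ∀ i, f (q i) = p i) := by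
  have hWS : Finset.univ.image q ⊆ M.S := by
    intro e he
    obtain ⟨i, -, rfl⟩ := Finset.mem_image.1 he
    exact hS i
  have hcW : (Finset.univ.image q).card = 4 := by
    rw [Finset.card_image_of_injective _ hq]
    rfl
  have hqW : ∀ i, q i ∈ Finset.univ.image q := fun i =>
    Finset.mem_image.2 ⟨i, Finset.mem_univ i, rfl⟩
  have hsum : ∀ f : E → ZMod 2, ∑ e ∈ Finset.univ.image q, f e = ∑ i, f (q i) := fun f =>
    Finset.sum_image (fun i _ j _ hij => hq hij)
  have hne : (ind (Finset.univ.image q) : E → ZMod 2) ≠ 0 := by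
    intro h0
    have h1 := congrFun h0 (q 0)
    rw [ind_of_mem (hqW 0)] at h1
    exact one_ne_zero h1
  have hZ : (ind (Finset.univ.image q) : E → ZMod 2) ∈ M.Z := by
    rw [BM.mem_Z]
    refine ⟨fun e he => ind_of_notMem (fun h1 => he (hWS h1)), fun f hf => ?_⟩
    rw [dot_ind, hsum]
    exact hz f hf
  have h1 : 0 < M.dZ (Finset.univ.image q) :=
    M.dZ_pos_iff.2 ⟨_, hZ, hne, fun e he => ind_of_notMem he⟩
  have h2 : 0 < M.dR (Finset.univ.image q) :=
    M.dR_pos_iff.2 ⟨_, hr, hne, fun e he => ind_of_notMem he⟩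
  have h3 := M.r_add_dZ hWS
  have h4 := M.lam_add_dR_eq_r (Finset.univ.image q)
  have h5 : 2 ≤ M.lam (Finset.univ.image q) := by
    by_contra hlt
    have h6 := Finset.card_sdiff_add_card_eq_card hWS
    rcases (h.2 _ hWS).2 (by omega) with h7 | h7 <;> omega
  have hlam : M.lam (Finset.univ.image q) = 2 := by omega
  have hdR : M.dR (Finset.univ.image q) = 1 := by (clear * - hcW h1 h2 h3 h4 hlam; omega)
  have hdZ : M.dZ (Finset.univ.image q) = 1 := by omega
  have hone : ∀ N : BM E, N.dR (Finset.univ.image q) = 1 →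
      (ind (Finset.univ.image q) : E → ZMod 2) ∈ N.R →
      ∀ g ∈ N.R, (∀ e, e ∉ Finset.univ.image q → g e = 0) →
        g = 0 ∨ g = ind (Finset.univ.image q) := by
    intro N hN hi g hg hg'
    have h6 := (finrank_eq_one_iff_of_nonzero' (K := ZMod 2) (V := N.RIn (Finset.univ.image q))
      ⟨ind (Finset.univ.image q), hi, fun e he => ind_of_notMem he⟩
      (fun h7 => hne (congrArg Subtype.val h7))).1 hN ⟨g, hg, hg'⟩
    obtain ⟨c, hc⟩ := h6
    have h8 : c • (ind (Finset.univ.image q) : E → ZMod 2) = g := congrArg Subtype.val hc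
    rcases zcases c with h9 | h9
    · left
      rw [← h8, h9, zero_smul]
    · right
      rw [← h8, h9, one_smul]
  refine ⟨hlam, hone M hdR hr, ?_⟩
  intro p hp
  -- the function on `W`
  let F : E → ZMod 2 := fun e => ∑ i, if q i = e then p i else 0
  have hF : ∀ i, F (q i) = p i := by
    intro i
    show ∑ j, (if q j = q i then p j else 0) = p i
    rw [Finset.sum_eq_single i]
    · rw [if_pos rfl]
    · intro j _ hji
      rw [if_neg (fun h6 => hji (hq h6))]
    · intro h6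
      exact (h6 (Finset.mem_univ i)).elim
  have hF0 : ∀ e, e ∉ Finset.univ.image q → F e = 0 := by
    intro e he
    show ∑ j, (if q j = e then p j else 0) = 0
    refine Finset.sum_eq_zero (fun j _ => if_neg (fun h6 => he ?_))
    rw [← h6]
    exact hqW j
  have hFR : F ∈ (M.res (Finset.univ.image q)).R := by
    rw [BM.mem_R_iff]
    refine ⟨fun e he => hF0 e (fun h6 => he ?_), ?_⟩
    · rw [BM.res_S]
      exact Finset.mem_inter.2 ⟨hWS h6, h6⟩
    · intro z hz'
      rw [BM.mem_Z_res] at hz'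
      rcases hone M.dual (by rw [BM.dual_dR]; exact hdZ) hZ z hz'.1 hz'.2 with h6 | h6
      · rw [h6, dot_zero_right]
      · rw [h6, dot_ind, hsum]
        rw [← hp]
        exact Finset.sum_congr rfl (fun i _ => hF i)
  rw [BM.mem_res'] at hFR
  obtain ⟨-, g, hg, hgF⟩ := hFR
  refine ⟨g, hg, fun i => ?_⟩
  rw [hgF (q i) (Finset.mem_inter.2 ⟨hS i, hqW i⟩)]
  exact hF i

theorem quad_fin_aux : ∀ x1 x2 y1 y2 : ZMod 2,
    (∃ a b : ZMod 2, a * x1 + b * y1 = 0 ∧ a * x2 + b * y2 = 1) →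
    (∃ a b : ZMod 2, a * x1 + b * y1 = 1 ∧ a * x2 + b * y2 = 0) →
    ∃ s : Fin 3 → Fin 3, Function.Injective s ∧ ∀ a b : ZMod 2,
      (![a + b, a, b] : Fin 3 → ZMod 2) (s 0) = a * x1 + b * y1 ∧
      (![a + b, a, b] : Fin 3 → ZMod 2) (s 1) = a * x2 + b * y2 ∧
      (![a + b, a, b] : Fin 3 → ZMod 2) (s 2) = a * (x1 + x2) + b * (y1 + y2) := by
  decide

theorem quad_fin (p1 p2 : Fin 4 → ZMod 2) (h1 : ∑ i, p1 i = 0) (h2 : ∑ i, p2 i = 0)
    (h : ∀ p : Fin 4 → ZMod 2, ∑ i, p i = 0 → ∃ a b c : ZMod 2, ∀ i, p i = a * p1 i + b * p2 i + c) :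
    ∃ s : Fin 3 → Fin 3, Function.Injective s ∧ ∀ (a b c : ZMod 2) (P : Fin 4 → ZMod 2),
      (∀ i, P i = a * p1 i + b * p2 i + c) →
        (![a + b, a, b] : Fin 3 → ZMod 2) (s 0) = P 0 + P 1 ∧
        (![a + b, a, b] : Fin 3 → ZMod 2) (s 1) = P 0 + P 2 ∧
        (![a + b, a, b] : Fin 3 → ZMod 2) (s 2) = P 1 + P 2 := by
  have hA : ∃ a b : ZMod 2, a * (p1 0 + p1 1) + b * (p2 0 + p2 1) = 0 ∧
      a * (p1 0 + p1 2) + b * (p2 0 + p2 2) = 1 := by
    obtain ⟨a, b, c, hp⟩ := h ![1, 1, 0, 0] (by decide)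
    have e0 := hp 0
    have e1 := hp 1
    have e2 := hp 2
    simp only [Matrix.cons_val_zero, Matrix.cons_val_one, Matrix.cons_val] at e0 e1 e2
    refine ⟨a, b, ?_, ?_⟩
    · have h3 : a * (p1 0 + p1 1) + b * (p2 0 + p2 1) =
          (a * p1 0 + b * p2 0 + c) + (a * p1 1 + b * p2 1 + c) - (c + c) := by ring
      rw [h3, ← e0, ← e1, z_add_self c]
      decide
    · have h3 : a * (p1 0 + p1 2) + b * (p2 0 + p2 2) =
          (a * p1 0 + b * p2 0 + c) + (a * p1 2 + b * p2 2 + c) - (c + c) := by ring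
      rw [h3, ← e0, ← e2, z_add_self c]
      decide
  have hB : ∃ a b : ZMod 2, a * (p1 0 + p1 1) + b * (p2 0 + p2 1) = 1 ∧
      a * (p1 0 + p1 2) + b * (p2 0 + p2 2) = 0 := by
    obtain ⟨a, b, c, hp⟩ := h ![1, 0, 1, 0] (by decide)
    have e0 := hp 0
    have e1 := hp 1
    have e2 := hp 2
    simp only [Matrix.cons_val_zero, Matrix.cons_val_one, Matrix.cons_val] at e0 e1 e2
    refine ⟨a, b, ?_, ?_⟩
    · have h3 : a * (p1 0 + p1 1) + b * (p2 0 + p2 1) =
          (a * p1 0 + b * p2 0 + c) + (a * p1 1 + b * p2 1 + c) - (c + c) := by ring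
      rw [h3, ← e0, ← e1, z_add_self c]
      decide
    · have h3 : a * (p1 0 + p1 2) + b * (p2 0 + p2 2) =
          (a * p1 0 + b * p2 0 + c) + (a * p1 2 + b * p2 2 + c) - (c + c) := by ring
      rw [h3, ← e0, ← e2, z_add_self c]
      decide
  obtain ⟨s, hs, hs'⟩ := quad_fin_aux (p1 0 + p1 1) (p1 0 + p1 2) (p2 0 + p2 1) (p2 0 + p2 2) hA hB
  refine ⟨s, hs, fun a b c P hP => ?_⟩
  obtain ⟨k1, k2, k3⟩ := hs' a b
  refine ⟨?_, ?_, ?_⟩
  · rw [k1, hP 0, hP 1]
    have h3 : a * p1 0 + b * p2 0 + c + (a * p1 1 + b * p2 1 + c) =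
        a * (p1 0 + p1 1) + b * (p2 0 + p2 1) + (c + c) := by ring
    rw [h3, z_add_self, add_zero]
  · rw [k2, hP 0, hP 2]
    have h3 : a * p1 0 + b * p2 0 + c + (a * p1 2 + b * p2 2 + c) =
        a * (p1 0 + p1 2) + b * (p2 0 + p2 2) + (c + c) := by ring
    rw [h3, z_add_self, add_zero]
  · rw [k3, hP 1, hP 2]
    have h3 : a * (p1 0 + p1 1 + (p1 0 + p1 2)) + b * (p2 0 + p2 1 + (p2 0 + p2 2)) =
        a * (p1 1 + p1 2) + b * (p2 1 + p2 2) + a * (p1 0 + p1 0) + b * (p2 0 + p2 0) := by ring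
    have h4 : a * p1 1 + b * p2 1 + c + (a * p1 2 + b * p2 2 + c) =
        a * (p1 1 + p1 2) + b * (p2 1 + p2 2) + (c + c) := by ring
    rw [h3, h4, z_add_self, z_add_self, z_add_self, mul_zero, mul_zero, add_zero, add_zero]

theorem quad_of_delta (M : BM E) (q : Fin 4 → E) (hq : Function.Injective q)
    (hS : ∀ i, q i ∈ M.S) (hz : ∀ f ∈ M.R, ∑ i, f (q i) = 0)
    (hr : ind (Finset.univ.image q) ∈ M.R)
    (hr1 : ∀ g ∈ M.R, (∀ e, e ∉ Finset.univ.image q → g e = 0) →
        g = 0 ∨ g = ind (Finset.univ.image q))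
    (hr2 : ∀ p : Fin 4 → ZMod 2, ∑ i, p i = 0 → ∃ f ∈ M.R, ∀ i, f (q i) = p i)
    (d : Fin 3 → E) (C : Finset E) (hd : Function.Injective d)
    (hdS : ∀ i, d i ∈ M.S ∧ d i ∉ Finset.univ.image q ∧ d i ∉ C) (hCS : C ⊆ M.S)
    (hCW : Disjoint C (Finset.univ.image q))
    (D1 : ∀ f ∈ M.R, (∀ c ∈ C, f c = 0) → f (d 0) + f (d 1) + f (d 2) = 0)
    (D2 : ∀ f ∈ M.R, ∃ f' ∈ M.R, (∀ c ∈ C, f' c = 0) ∧ ∀ x ∈ Finset.univ.image q, f' x = f x)
    (D3 : ∀ f ∈ M.R, (∀ c ∈ C, f c = 0) → (∀ i, f (d i) = 0) →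
        ∃ g ∈ M.R, (∀ e, e ∉ Finset.univ.image q → g e = 0) ∧ ∀ x ∈ Finset.univ.image q, g x = f x)
    (D4 : ∀ p : Fin 3 → ZMod 2, p 0 + p 1 + p 2 = 0 →
        ∃ f ∈ M.R, (∀ c ∈ C, f c = 0) ∧ ∀ i, f (d i) = p i) : HasMinor F7 M := by
  have hqW : ∀ i, q i ∈ Finset.univ.image q := fun i =>
    Finset.mem_image.2 ⟨i, Finset.mem_univ i, rfl⟩
  obtain ⟨f1, hf1, hf1C, hf1d⟩ := D4 ![1, 1, 0] (by decide)
  obtain ⟨f2, hf2, hf2C, hf2d⟩ := D4 ![1, 0, 1] (by decide)
  have a0 : f1 (d 0) = 1 := hf1d 0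
  have a1 : f1 (d 1) = 1 := hf1d 1
  have a2 : f1 (d 2) = 0 := hf1d 2
  have b0 : f2 (d 0) = 1 := hf2d 0
  have b1 : f2 (d 1) = 0 := hf2d 1
  have b2 : f2 (d 2) = 1 := hf2d 2
  have key : ∀ f ∈ M.R, (∀ c ∈ C, f c = 0) → ∃ c : ZMod 2, ∀ i,
      f (q i) = f (d 1) * f1 (q i) + f (d 2) * f2 (q i) + c := by
    intro f hf hfC
    have hd1 := D1 f hf hfC
    obtain ⟨g, hg, hg0, hgx⟩ := D3 (f + f (d 1) • f1 + f (d 2) • f2)
      (M.R.add_mem (M.R.add_mem hf (M.R.smul_mem _ hf1)) (M.R.smul_mem _ hf2))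
      (by
        intro c hc
        simp only [Pi.add_apply, Pi.smul_apply, smul_eq_mul]
        rw [hfC c hc, hf1C c hc, hf2C c hc]
        ring)
      (by
        intro i
        simp only [Pi.add_apply, Pi.smul_apply, smul_eq_mul]
        fin_cases i
        · show f (d 0) + f (d 1) * f1 (d 0) + f (d 2) * f2 (d 0) = 0
          rw [a0, b0, mul_one, mul_one]
          exact hd1
        · show f (d 1) + f (d 1) * f1 (d 1) + f (d 2) * f2 (d 1) = 0
          rw [a1, b1, mul_one, mul_zero, z_add_self, add_zero]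
        · show f (d 2) + f (d 1) * f1 (d 2) + f (d 2) * f2 (d 2) = 0
          rw [a2, b2, mul_one, mul_zero, add_zero, z_add_self])
    have hc : ∃ c : ZMod 2, ∀ i, g (q i) = c := by
      rcases hr1 g hg hg0 with h1 | h1
      · exact ⟨0, fun i => by rw [h1]; rfl⟩
      · exact ⟨1, fun i => by rw [h1, ind_of_mem (hqW i)]⟩
    obtain ⟨c, hc⟩ := hc
    refine ⟨c, fun i => ?_⟩
    have h2 := hgx (q i) (hqW i)
    rw [hc i] at h2
    simp only [Pi.add_apply, Pi.smul_apply, smul_eq_mul] at h2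
    rw [h2]
    have h3 : f (d 1) * f1 (q i) + f (d 2) * f2 (q i) +
        (f (q i) + f (d 1) * f1 (q i) + f (d 2) * f2 (q i)) =
        f (q i) + ((f (d 1) * f1 (q i) + f (d 2) * f2 (q i)) +
          (f (d 1) * f1 (q i) + f (d 2) * f2 (q i))) := by ring
    rw [h3, z_add_self, add_zero]
  have ext : ∀ p : Fin 4 → ZMod 2, ∑ i, p i = 0 → ∃ f ∈ M.R, (∀ c ∈ C, f c = 0) ∧
      ∀ i, f (q i) = p i := by
    intro p hp
    obtain ⟨f, hf, hfp⟩ := hr2 p hp
    obtain ⟨f', hf', hf'C, hf'x⟩ := D2 f hf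
    exact ⟨f', hf', hf'C, fun i => by rw [hf'x (q i) (hqW i), hfp i]⟩
  obtain ⟨s, hs, hs'⟩ := quad_fin (fun i => f1 (q i)) (fun i => f2 (q i)) (hz f1 hf1) (hz f2 hf2)
    (by
      intro p hp
      obtain ⟨f, hf, hfC, hfp⟩ := ext p hp
      obtain ⟨c, hc⟩ := key f hf hfC
      exact ⟨f (d 1), f (d 2), c, fun i => by rw [← hfp i]; exact hc i⟩)
  have hdd : ∀ f ∈ M.R, (∀ c ∈ C, f c = 0) →
      f (d (s 0)) = f (q 0) + f (q 1) ∧ f (d (s 1)) = f (q 0) + f (q 2) ∧
      f (d (s 2)) = f (q 1) + f (q 2) ∧ f (q 3) = f (q 0) + f (q 1) + f (q 2) := by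
    intro f hf hfC
    obtain ⟨c, hc⟩ := key f hf hfC
    have h1 := hs' (f (d 1)) (f (d 2)) c (fun i => f (q i)) hc
    have h2 : ∀ j, (![f (d 1) + f (d 2), f (d 1), f (d 2)] : Fin 3 → ZMod 2) j = f (d j) := by
      intro j
      fin_cases j
      · show f (d 1) + f (d 2) = f (d 0)
        have h3 := D1 f hf hfC
        rw [add_assoc, z_add_eq_zero] at h3
        exact h3.symm
      · rfl
      · rfl
    rw [h2, h2, h2] at h1
    refine ⟨h1.1, h1.2.1, h1.2.2, ?_⟩
    have h3 := hz f hf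
    rw [Fin.sum_univ_four, z_add_eq_zero] at h3
    exact h3.symm
  have hqd : ∀ i j, q i ≠ d j := fun i j h1 => (hdS j).2.1 (h1 ▸ hqW i)
  have hdq : ∀ i j, d j ≠ q i := fun i j h1 => hqd i j h1.symm
  have hqC : ∀ i, q i ∉ C := fun i h1 => Finset.disjoint_left.1 hCW h1 (hqW i)
  refine ⟨![q 0, q 1, q 2, d (s 0), d (s 1), d (s 2), q 3], C, ?_, ?_, hCS, ?_, ?_, ?_⟩
  · intro i j hij
    fin_cases i <;> fin_cases j <;>
      first
      | rfl
      | (exfalso
         simp [hq.eq_iff, hd.eq_iff, hs.eq_iff, hqd, hdq] at hij)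
  · intro i
    fin_cases i
    · exact hS 0
    · exact hS 1
    · exact hS 2
    · exact (hdS (s 0)).1
    · exact (hdS (s 1)).1
    · exact (hdS (s 2)).1
    · exact hS 3
  · intro i
    fin_cases i
    · exact hqC 0
    · exact hqC 1
    · exact hqC 2
    · exact (hdS (s 0)).2.2
    · exact (hdS (s 1)).2.2
    · exact (hdS (s 2)).2.2
    · exact hqC 3
  · have hrow : ∀ (p : Fin 4 → ZMod 2) (row : Fin 7 → ZMod 2), ∑ i, p i = 0 →
        row 0 = p 0 → row 1 = p 1 → row 2 = p 2 → row 3 = p 0 + p 1 → row 4 = p 0 + p 2 →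
        row 5 = p 1 + p 2 → row 6 = p 0 + p 1 + p 2 →
        ∃ f ∈ M.R, (∀ c ∈ C, f c = 0) ∧
          ∀ j, f ((![q 0, q 1, q 2, d (s 0), d (s 1), d (s 2), q 3] : Fin 7 → E) j) = row j := by
      intro p row hp r0 r1 r2 r3 r4 r5 r6
      obtain ⟨f, hf, hfC, hfp⟩ := ext p hp
      obtain ⟨k0, k1, k2, k3⟩ := hdd f hf hfC
      refine ⟨f, hf, hfC, fun j => ?_⟩
      fin_cases j
      · exact (hfp 0).trans r0.symm
      · exact (hfp 1).trans r1.symm
      · exact (hfp 2).trans r2.symm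
      · exact (k0.trans (by rw [hfp 0, hfp 1])).trans r3.symm
      · exact (k1.trans (by rw [hfp 0, hfp 2])).trans r4.symm
      · exact (k2.trans (by rw [hfp 1, hfp 2])).trans r5.symm
      · exact (k3.trans (by rw [hfp 0, hfp 1, hfp 2])).trans r6.symm
    intro i
    fin_cases i
    · exact hrow ![1, 0, 0, 1] (F7 0) (by decide) rfl rfl rfl rfl rfl rfl rfl
    · exact hrow ![0, 1, 0, 1] (F7 1) (by decide) rfl rfl rfl rfl rfl rfl rfl
    · exact hrow ![0, 0, 1, 1] (F7 2) (by decide) rfl rfl rfl rfl rfl rfl rfl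
  · intro f hf hfC
    obtain ⟨k0, k1, k2, k3⟩ := hdd f hf hfC
    refine ⟨![f (q 0), f (q 1), f (q 2)], fun j => ?_⟩
    have hsum : ∀ j, ∑ i, (![f (q 0), f (q 1), f (q 2)] : Fin 3 → ZMod 2) i * F7 i j =
        f (q 0) * F7 0 j + f (q 1) * F7 1 j + f (q 2) * F7 2 j := fun j => by
      rw [Fin.sum_univ_three]
      rfl
    rw [hsum]
    fin_cases j
    · show f (q 0) = f (q 0) * 1 + f (q 1) * 0 + f (q 2) * 0
      ring
    · show f (q 1) = f (q 0) * 0 + f (q 1) * 1 + f (q 2) * 0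
      ring
    · show f (q 2) = f (q 0) * 0 + f (q 1) * 0 + f (q 2) * 1
      ring
    · show f (d (s 0)) = f (q 0) * 1 + f (q 1) * 1 + f (q 2) * 0
      rw [k0]
      ring
    · show f (d (s 1)) = f (q 0) * 1 + f (q 1) * 0 + f (q 2) * 1
      rw [k1]
      ring
    · show f (d (s 2)) = f (q 0) * 0 + f (q 1) * 1 + f (q 2) * 1
      rw [k2]
      ring
    · show f (q 3) = f (q 0) * 1 + f (q 1) * 1 + f (q 2) * 1
      rw [k3]
      ring

end SEY

end

section

/-!
Block LINK (helper38), section 0.1 of /team-store/helper25_SEY.md: Tutte's linking theorem,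
preservation, Delta lemma, quads.  Block theorems (to be proved word for word).
-/

namespace SEY

open Finset

variable {E : Type} [Fintype E] [DecidableEq E]

/-- Tutte's linking theorem. -/
theorem linking (M : BM E) (X Y : Finset E) (hX : X ⊆ M.S) (hY : Y ⊆ M.S) (hd : Disjoint X Y)
    (k : ℕ) (h : ∀ A, X ⊆ A → A ⊆ M.S → Disjoint A Y → k ≤ M.lam A) :
    ∃ C D : Finset E, Disjoint C D ∧ Disjoint C (X ∪ Y) ∧ Disjoint D (X ∪ Y) ∧
      X ∪ Y ∪ C ∪ D = M.S ∧ k ≤ ((M.con C).del D).lam X :=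
  lk_linking M X Y hX hY hd k h

/-- Preservation: if the connectivity of `X` does not drop, contracted sets are skew to `X`. -/
theorem preserve (M : BM E) (X C D : Finset E) (hX : X ⊆ M.S) (hC : C ⊆ M.S) (hCX : Disjoint C X)
    (hDX : Disjoint D X) (h : M.lam X ≤ ((M.con C).del D).lam X) :
    (∀ f ∈ M.R, ∃ f' ∈ M.R, (∀ c ∈ C, f' c = 0) ∧ ∀ x ∈ X, f' x = f x) ∧
      ∀ g : E → ZMod 2, (∀ e, e ∉ X → g e = 0) → g ∈ ((M.con C).del D).R → g ∈ M.R :=
  lk_preserve M X C D hX hC hCX hDX h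

/-- In a 3-connected matroid the complement of a set `W` with connectivity 2 is dependent, if it
has at least four elements. -/
theorem exists_cycle_outside (M : BM E) (h : M.TC) (W : Finset E) (hWS : W ⊆ M.S)
    (hW : M.lam W = 2) (hc : 4 ≤ (M.S \ W).card) :
    ∃ z ∈ M.Z, z ≠ 0 ∧ ∀ e ∈ W, z e = 0 :=
  exists_cycle_outside' M h W hWS hW hc

/-- The Delta lemma. -/
theorem delta (M : BM E) (h : M.TC) (W : Finset E) (hWS : W ⊆ M.S) (hW : M.lam W = 2)
    (hz : ∃ z ∈ M.Z, z ≠ 0 ∧ ∀ e ∈ W, z e = 0) :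
    ∃ (d : Fin 3 → E) (C : Finset E), Function.Injective d ∧
      (∀ i, d i ∈ M.S ∧ d i ∉ W ∧ d i ∉ C) ∧ C ⊆ M.S ∧ Disjoint C W ∧
      (∀ f ∈ M.R, (∀ c ∈ C, f c = 0) → f (d 0) + f (d 1) + f (d 2) = 0) ∧
      (∀ f ∈ M.R, ∃ f' ∈ M.R, (∀ c ∈ C, f' c = 0) ∧ ∀ x ∈ W, f' x = f x) ∧
      (∀ f ∈ M.R, (∀ c ∈ C, f c = 0) → (∀ i, f (d i) = 0) →
        ∃ g ∈ M.R, (∀ e, e ∉ W → g e = 0) ∧ ∀ x ∈ W, g x = f x) ∧
      (∀ p : Fin 3 → ZMod 2, p 0 + p 1 + p 2 = 0 →
        ∃ f ∈ M.R, (∀ c ∈ C, f c = 0) ∧ ∀ i, f (d i) = p i) :=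
  lk_delta M h W hWS hW hz

/-- A quad (cycle and cocycle with four elements) gives an `F7`-minor. -/
theorem quad_F7 (M : BM E) (h : M.TC) (q : Fin 4 → E) (hq : Function.Injective q)
    (hS : ∀ i, q i ∈ M.S) (hz : ∀ f ∈ M.R, ∑ i, f (q i) = 0)
    (hr : ind (Finset.univ.image q) ∈ M.R) (hc : 8 ≤ M.S.card) : HasMinor F7 M := by
  obtain ⟨h1, h2, h3⟩ := quad_facts M h q hq hS hz hr hc
  have hWS : Finset.univ.image q ⊆ M.S := by
    intro e he
    obtain ⟨i, -, rfl⟩ := Finset.mem_image.1 he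
    exact hS i
  have hc4 : (Finset.univ.image q).card = 4 := by
    rw [Finset.card_image_of_injective _ hq]
    simp
  have h4 := Finset.card_sdiff_add_card_eq_card hWS
  obtain ⟨d, C, hd, hdS, hCS, hCW, D1, D2, D3, D4⟩ := delta M h _ hWS h1
    (exists_cycle_outside M h _ hWS h1 (by omega))
  exact quad_of_delta M q hq hS hz hr h2 h3 d C hd hdS hCS hCW D1 D2 D3 D4

end SEY

end
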