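import Pool.Agent.Helper29.MFA.T09
import Pool.Agent.Helper29.MFA.T15
import Pool.Agent.Helper29.MFA.T10

section

/-!
# Block BG of project SEY, part 1: ears

`Ear M A P`: `P` is a circuit of `M / A` (minimal nonempty trace outside of `A` of a cycle).
`Hat M P V`: the sum of `P` lies in the span of `V` (some cycle contains `P` and lies inside
`P ∪ V`).  `Zs M X`: the cycles supported in `X`.

`ear_sep` (statement (S3) of the paper proof): if every ear of `A` has its sum in the span of `L`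
or in the span of `A \ L`, then there is `B ⊆ S \ A`, containing all ears whose sum is not in the
span of `A \ L`, such that every cycle of `M` is a sum of cycles inside `L ∪ B`, inside
`S \ (L ∪ B)` and inside `A`.
-/

set_option autoImplicit false

namespace SEY

open Finset

variable {E : Type} [Fintype E] [DecidableEq E]

/-- The cycles supported in `X`. -/
def Zs (M : BM E) (X : Finset E) : Submodule (ZMod 2) (E → ZMod 2) where
  carrier := {z | z ∈ M.Z ∧ ∀ e, e ∉ X → z e = 0}
  add_mem' := by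
    rintro z w ⟨hz, hz'⟩ ⟨hw, hw'⟩
    exact ⟨M.Z.add_mem hz hw, fun e he => by simp [hz' e he, hw' e he]⟩
  zero_mem' := ⟨M.Z.zero_mem, fun _ _ => rfl⟩
  smul_mem' := by
    rintro c z ⟨hz, hz'⟩
    exact ⟨M.Z.smul_mem c hz, fun e he => by simp [hz' e he]⟩

theorem mem_Zs {M : BM E} {X : Finset E} {z : E → ZMod 2} :
    z ∈ Zs M X ↔ z ∈ M.Z ∧ ∀ e, e ∉ X → z e = 0 := Iff.rfl

/-- `P` is an ear of `A`. -/
def Ear (M : BM E) (A P : Finset E) : Prop :=
  P ⊆ M.S \ A ∧ P.Nonempty ∧ (∃ z ∈ M.Z, ∀ e, e ∉ A → z e = ind P e) ∧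
    ∀ z ∈ M.Z, (∀ e, e ∉ A ∪ P → z e = 0) → (∀ p ∈ P, z p = 0) ∨ (∀ p ∈ P, z p = 1)

theorem Ear.sub {M : BM E} {A P : Finset E} (h : Ear M A P) : P ⊆ M.S \ A := h.1

theorem Ear.ne {M : BM E} {A P : Finset E} (h : Ear M A P) : P.Nonempty := h.2.1

theorem Ear.ex {M : BM E} {A P : Finset E} (h : Ear M A P) :
    ∃ z ∈ M.Z, ∀ e, e ∉ A → z e = ind P e := h.2.2.1

theorem Ear.min {M : BM E} {A P : Finset E} (h : Ear M A P) (z : E → ZMod 2) (hz : z ∈ M.Z)
    (h0 : ∀ e, e ∉ A → e ∉ P → z e = 0) : (∀ e ∈ P, z e = 0) ∨ (∀ e ∈ P, z e = 1) :=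
  h.2.2.2 z hz fun e he => h0 e (fun h' => he (mem_union_left _ h'))
    (fun h' => he (mem_union_right _ h'))

theorem Ear.mk {M : BM E} {A P : Finset E} (h1 : P ⊆ M.S \ A) (h2 : P.Nonempty)
    (h3 : ∃ z ∈ M.Z, ∀ e, e ∉ A → z e = ind P e)
    (h4 : ∀ z ∈ M.Z, (∀ e, e ∉ A → e ∉ P → z e = 0) →
      (∀ e ∈ P, z e = 0) ∨ (∀ e ∈ P, z e = 1)) : Ear M A P :=
  ⟨h1, h2, h3, fun z hz h0 => h4 z hz fun e ha hp => h0 e fun h' =>
    (mem_union.1 h').elim ha hp⟩

/-- The sum of `P` lies in the span of `V`. -/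
def Hat (M : BM E) (P V : Finset E) : Prop :=
  ∃ z ∈ M.Z, (∀ e ∈ P, z e = 1) ∧ ∀ e, e ∉ P → e ∉ V → z e = 0

theorem zmod2_cases (x : ZMod 2) : x = 0 ∨ x = 1 := by
  revert x
  decide

theorem zmod2_ne {x : ZMod 2} (h : x ≠ 0) : x = 1 := (zmod2_cases x).resolve_left h

theorem zmod2_add_self (x : ZMod 2) : x + x = 0 := by
  revert x
  decide

theorem ind_mem {A : Finset E} {e : E} (h : e ∈ A) : ind A e = 1 := if_pos h

theorem ind_not_mem {A : Finset E} {e : E} (h : e ∉ A) : ind A e = 0 := if_neg h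

/-- The part of the support outside of `A`. -/
def osup (A : Finset E) (z : E → ZMod 2) : Finset E := univ.filter fun e => e ∉ A ∧ z e = 1

theorem mem_osup {A : Finset E} {z : E → ZMod 2} {e : E} :
    e ∈ osup A z ↔ e ∉ A ∧ z e = 1 := by
  simp [osup]

theorem osup_ind {A : Finset E} {z : E → ZMod 2} {e : E} (he : e ∉ A) :
    z e = ind (osup A z) e := by
  by_cases h : z e = 1
  · rw [h, ind_mem (mem_osup.2 ⟨he, h⟩)]
  · rw [ind_not_mem fun h' => h (mem_osup.1 h').2]
    exact (zmod2_cases _).resolve_right h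

/-- Every cycle which is not inside `A` contains an ear. -/
theorem exists_ear (M : BM E) (A : Finset E) {z : E → ZMod 2} (hz : z ∈ M.Z)
    (h : (osup A z).Nonempty) : ∃ P, Ear M A P ∧ P ⊆ osup A z := by
  classical
  obtain ⟨w, hw, hmin⟩ := Finset.exists_min_image
    (univ.filter fun w : E → ZMod 2 => w ∈ M.Z ∧ (osup A w).Nonempty ∧ osup A w ⊆ osup A z)
    (fun w => (osup A w).card) ⟨z, by simp [hz, h]⟩
  obtain ⟨hw1, hw2, hw3⟩ : w ∈ M.Z ∧ (osup A w).Nonempty ∧ osup A w ⊆ osup A z := by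
    simpa using hw
  refine ⟨osup A w, Ear.mk ?_ hw2 ⟨w, hw1, fun e he => osup_ind he⟩ ?_, hw3⟩
  · intro e he
    obtain ⟨h1, h2⟩ := mem_osup.1 he
    refine mem_sdiff.2 ⟨?_, h1⟩
    by_contra h3
    rw [hw1.1 e h3] at h2
    exact zero_ne_one h2
  · intro y hy hy0
    by_cases h0 : (osup A y).Nonempty
    · right
      have hsub : osup A y ⊆ osup A w := by
        intro e he
        by_contra h1
        have h2 := mem_osup.1 he
        rw [hy0 e h2.1 h1] at h2
        exact zero_ne_one h2.2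
      have hc := hmin y (by simp [hy, h0, hsub.trans hw3])
      have heq := Finset.eq_of_subset_of_card_le hsub hc
      intro e he
      rw [← heq] at he
      exact (mem_osup.1 he).2
    · left
      intro e he
      rw [Finset.not_nonempty_iff_eq_empty] at h0
      by_contra h1
      have : e ∈ osup A y := mem_osup.2 ⟨(mem_osup.1 he).1, zmod2_ne h1⟩
      rw [h0] at this
      exact absurd this (Finset.notMem_empty e)

/-- A property (membership in a subspace `W`) of all ears inside a cycle passes to the cycle. -/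
theorem decomp (M : BM E) (A : Finset E) (W : Submodule (ZMod 2) (E → ZMod 2))
    (hW : ∀ w ∈ W, w ∈ M.Z) :
    ∀ (n : ℕ) (z : E → ZMod 2), z ∈ M.Z → (osup A z).card = n →
      (∀ Q, Ear M A Q → Q ⊆ osup A z → ∃ w ∈ W, ∀ e, e ∉ A → w e = ind Q e) →
      ∃ w ∈ W, ∀ e, e ∉ A → w e = z e := by
  intro n
  induction n using Nat.strong_induction_on with
  | _ n ih =>
    intro z hz hn h
    by_cases h0 : (osup A z).Nonempty
    · obtain ⟨Q, hQ, hQz⟩ := exists_ear M A hz h0
      obtain ⟨w, hw, hwQ⟩ := h Q hQ hQz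
      have hz' : z + w ∈ M.Z := M.Z.add_mem hz (hW w hw)
      have hos : osup A (z + w) = osup A z \ Q := by
        ext e
        rw [mem_osup, mem_sdiff, mem_osup, Pi.add_apply]
        constructor
        · rintro ⟨h1, h2⟩
          rw [hwQ e h1] at h2
          by_cases h3 : e ∈ Q
          · rw [ind_mem h3, (mem_osup.1 (hQz h3)).2] at h2
            exact absurd h2 (by decide)
          · rw [ind_not_mem h3, add_zero] at h2
            exact ⟨⟨h1, h2⟩, h3⟩
        · rintro ⟨⟨h1, h2⟩, h3⟩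
          rw [hwQ e h1, ind_not_mem h3, add_zero]
          exact ⟨h1, h2⟩
      have hlt : (osup A (z + w)).card < n := by
        rw [hos, ← hn]
        refine Finset.card_lt_card ⟨Finset.sdiff_subset, fun hs => ?_⟩
        obtain ⟨e, he⟩ := hQ.ne
        exact (mem_sdiff.1 (hs (hQz he))).2 he
      obtain ⟨w', hw', hw'z⟩ := ih _ hlt (z + w) hz' rfl fun Q' hQ' hQ'z =>
        h Q' hQ' (hQ'z.trans (by rw [hos]; exact Finset.sdiff_subset))
      refine ⟨w' + w, W.add_mem hw' hw, fun e he => ?_⟩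
      rw [Pi.add_apply, hw'z e he, Pi.add_apply, add_assoc, zmod2_add_self, add_zero]
    · refine ⟨0, W.zero_mem, fun e he => ?_⟩
      rw [Finset.not_nonempty_iff_eq_empty] at h0
      by_contra h1
      have : e ∈ osup A z := mem_osup.2 ⟨he, zmod2_ne fun h2 => h1 (by rw [h2]; rfl)⟩
      rw [h0] at this
      exact absurd this (Finset.notMem_empty e)

/-- The cycles which vanish on `A \ V`. -/
def Zv (M : BM E) (A V : Finset E) : Submodule (ZMod 2) (E → ZMod 2) where
  carrier := {z | z ∈ M.Z ∧ ∀ e, e ∈ A → e ∉ V → z e = 0}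
  add_mem' := by
    rintro z w ⟨hz, hz'⟩ ⟨hw, hw'⟩
    exact ⟨M.Z.add_mem hz hw, fun e he hv => by simp [hz' e he hv, hw' e he hv]⟩
  zero_mem' := ⟨M.Z.zero_mem, fun _ _ _ => rfl⟩
  smul_mem' := by
    rintro c z ⟨hz, hz'⟩
    exact ⟨M.Z.smul_mem c hz, fun e he hv => by simp [hz' e he hv]⟩

/-- For a set `P` disjoint from `A`: `Hat M P V` means that some cycle in `Zv M A V` has trace
`P` outside of `A`. -/
theorem hat_iff (M : BM E) {A P V : Finset E} (hP : ∀ e ∈ P, e ∉ A) (hV : V ⊆ A) :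
    Hat M P V ↔ ∃ z ∈ Zv M A V, ∀ e, e ∉ A → z e = ind P e := by
  constructor
  · rintro ⟨z, hz, h1, h2⟩
    refine ⟨z, ⟨hz, fun e he hv => h2 e (fun h => hP e h he) hv⟩, fun e he => ?_⟩
    by_cases h : e ∈ P
    · rw [h1 e h, ind_mem h]
    · rw [h2 e h fun h' => he (hV h'), ind_not_mem h]
  · rintro ⟨z, ⟨hz, hz0⟩, h1⟩
    refine ⟨z, hz, fun e he => by rw [h1 e (hP e he), ind_mem he], fun e he hv => ?_⟩
    by_cases h : e ∈ A
    · exact hz0 e h hv
    · rw [h1 e h, ind_not_mem he]

theorem Ear.not_mem {M : BM E} {A P : Finset E} (h : Ear M A P) : ∀ e ∈ P, e ∉ A :=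
  fun e he => (mem_sdiff.1 (h.sub he)).2

/-- The main step: `P` is an ear with sum in the span of `V`, `P₁` is an ear whose sum is not in
the span of `V`, and they meet. -/
theorem ear_step (M : BM E) {A V P P₁ : Finset E} (hV : V ⊆ A) (hP : Ear M A P)
    (hPV : Hat M P V) (hP₁ : Ear M A P₁) (hP₁V : ¬ Hat M P₁ V) (hm : (P ∩ P₁).Nonempty) :
    ∃ Q, Ear M A Q ∧ ¬ Hat M Q V ∧ (Q ∩ P).Nonempty ∧ Q ⊆ P ∪ P₁ ∧
      ((Q ∪ P).card < (P₁ ∪ P).card ∨ ∀ e, e ∉ A → ind Q e = ind P e + ind P₁ e) := by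
  classical
  obtain ⟨z, hz, hzP⟩ := hP.ex
  obtain ⟨z₁, hz₁, hzP₁⟩ := hP₁.ex
  obtain ⟨z', hz', hzP'⟩ := (hat_iff M hP.not_mem hV).1 hPV
  have hy : z + z₁ ∈ M.Z := M.Z.add_mem hz hz₁
  have hyo : ∀ e, e ∉ A → (z + z₁) e = ind P e + ind P₁ e := fun e he => by
    rw [Pi.add_apply, hzP e he, hzP₁ e he]
  have hos : ∀ e, e ∈ osup A (z + z₁) → (e ∈ P ∧ e ∉ P₁) ∨ (e ∉ P ∧ e ∈ P₁) := by
    intro e he
    obtain ⟨h1, h2⟩ := mem_osup.1 he
    rw [hyo e h1] at h2
    by_cases h3 : e ∈ P <;> by_cases h4 : e ∈ P₁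
    · rw [ind_mem h3, ind_mem h4] at h2
      exact absurd h2 (by decide)
    · exact Or.inl ⟨h3, h4⟩
    · exact Or.inr ⟨h3, h4⟩
    · rw [ind_not_mem h3, ind_not_mem h4] at h2
      exact absurd h2 (by decide)
  obtain ⟨Q, hQ, hQz, hQV⟩ : ∃ Q, Ear M A Q ∧ Q ⊆ osup A (z + z₁) ∧ ¬ Hat M Q V := by
    by_contra hcon
    push Not at hcon
    obtain ⟨w, hw, hwz⟩ := decomp M A (Zv M A V) (fun w hw => hw.1) _ (z + z₁) hy rfl
      fun Q hQ hQz => (hat_iff M hQ.not_mem hV).1 (hcon Q hQ hQz)
    apply hP₁V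
    refine (hat_iff M hP₁.not_mem hV).2 ⟨w + z', Submodule.add_mem _ hw hz', fun e he => ?_⟩
    rw [Pi.add_apply, hwz e he, hzP' e he, hyo e he, add_comm, ← add_assoc, zmod2_add_self,
      zero_add]
  obtain ⟨y, hyZ, hyQ⟩ := hQ.ex
  obtain ⟨e₀, he₀⟩ := hm
  have he₀P := (mem_inter.1 he₀).1
  have he₀P₁ := (mem_inter.1 he₀).2
  have he₀Q : e₀ ∉ Q := by
    intro h
    rcases hos e₀ (hQz h) with h1 | h1
    · exact h1.2 he₀P₁
    · exact h1.1 he₀P
  have hQP : (Q ∩ P).Nonempty := by
    by_contra h0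
    rw [Finset.not_nonempty_iff_eq_empty] at h0
    have hQP₁ : ∀ e ∈ Q, e ∈ P₁ := by
      intro e he
      rcases hos e (hQz he) with h1 | h1
      · have : e ∈ Q ∩ P := mem_inter.2 ⟨he, h1.1⟩
        rw [h0] at this
        exact absurd this (Finset.notMem_empty e)
      · exact h1.2
    rcases hP₁.min y hyZ (fun e he he1 => by
      rw [hyQ e he, ind_not_mem fun h => he1 (hQP₁ e h)]) with h1 | h1
    · obtain ⟨e, he⟩ := hQ.ne
      have h2 := h1 e (hQP₁ e he)
      rw [hyQ e (hQ.not_mem e he), ind_mem he] at h2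
      exact one_ne_zero h2
    · have h2 := h1 e₀ he₀P₁
      rw [hyQ e₀ (hP.not_mem e₀ he₀P), ind_not_mem he₀Q] at h2
      exact zero_ne_one h2
  have hQsub : Q ⊆ P ∪ P₁ := by
    intro e he
    rcases hos e (hQz he) with h1 | h1
    · exact mem_union_left _ h1.1
    · exact mem_union_right _ h1.2
  refine ⟨Q, hQ, hQV, hQP, hQsub, ?_⟩
  by_cases hlt : (Q ∪ P).card < (P₁ ∪ P).card
  · exact Or.inl hlt
  · right
    have hsub : Q ∪ P ⊆ P₁ ∪ P := by
      intro e he
      rcases mem_union.1 he with h1 | h1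
      · rcases mem_union.1 (hQsub h1) with h2 | h2
        · exact mem_union_right _ h2
        · exact mem_union_left _ h2
      · exact mem_union_right _ h1
    have heq := Finset.eq_of_subset_of_card_le hsub (not_lt.1 hlt)
    have hP₁Q : ∀ e ∈ P₁, e ∉ P → e ∈ Q := by
      intro e he he'
      have : e ∈ Q ∪ P := by
        rw [heq]
        exact mem_union_left _ he
      exact (mem_union.1 this).resolve_right he'
    have hzero : ∀ e, e ∉ A → e ∉ P → (z + z₁ + y) e = 0 := by
      intro e he he'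
      rw [Pi.add_apply, hyo e he, hyQ e he, ind_not_mem he', zero_add]
      by_cases h1 : e ∈ P₁
      · rw [ind_mem h1, ind_mem (hP₁Q e h1 he')]
        decide
      · have h2 : e ∉ Q := fun h => by
          rcases hos e (hQz h) with h3 | h3
          · exact he' h3.1
          · exact h1 h3.2
        rw [ind_not_mem h1, ind_not_mem h2]
        rfl
    have hP0 : ∀ e ∈ P, (z + z₁ + y) e = 0 := by
      rcases hP.min _ (M.Z.add_mem hy hyZ) hzero with h1 | h1
      · exact h1
      · exfalso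
        have h2 := h1 e₀ he₀P
        have h3 := hP.not_mem e₀ he₀P
        rw [Pi.add_apply, hyo e₀ h3, hyQ e₀ h3, ind_mem he₀P, ind_mem he₀P₁,
          ind_not_mem he₀Q] at h2
        have h5 : (1 : ZMod 2) + 1 + 0 ≠ 1 := by decide
        exact h5 h2
    intro e he
    have h0 : (z + z₁ + y) e = 0 := by
      by_cases h : e ∈ P
      · exact hP0 e h
      · exact hzero e he h
    rw [Pi.add_apply, hyo e he, hyQ e he] at h0
    have h4 : ∀ a b : ZMod 2, a + b = 0 → b = a := by decide
    exact h4 _ _ h0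

/-- (S1) -/
theorem ear_S1 (M : BM E) {A L : Finset E} (hL : L ⊆ A)
    (H : ∀ P, Ear M A P → Hat M P L ∨ Hat M P (A \ L)) {P₂ : Finset E} (hP₂ : Ear M A P₂)
    (hP₂L : ¬ Hat M P₂ L) :
    ∀ (n : ℕ) (P₁ : Finset E), (P₁ ∪ P₂).card = n → Ear M A P₁ → ¬ Hat M P₁ (A \ L) →
      ¬ (P₂ ∩ P₁).Nonempty := by
  intro n
  induction n using Nat.strong_induction_on with
  | _ n ih =>
    intro P₁ hn hP₁ hP₁V hm
    have hV : A \ L ⊆ A := Finset.sdiff_subset
    have hP₂V : Hat M P₂ (A \ L) := (H P₂ hP₂).resolve_left hP₂L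
    obtain ⟨Q, hQ, hQV, hQP, -, hQ'⟩ := ear_step M hV hP₂ hP₂V hP₁ hP₁V hm
    rcases hQ' with h1 | h1
    · exact ih _ (hn ▸ h1) Q rfl hQ hQV (by rwa [Finset.inter_comm])
    · apply hP₂L
      obtain ⟨z, hz, hzQ⟩ := (hat_iff M hQ.not_mem hL).1 ((H Q hQ).resolve_right hQV)
      obtain ⟨z₁, hz₁, hzP₁⟩ := (hat_iff M hP₁.not_mem hL).1 ((H P₁ hP₁).resolve_right hP₁V)
      refine (hat_iff M hP₂.not_mem hL).2 ⟨z + z₁, Submodule.add_mem _ hz hz₁, fun e he => ?_⟩
      rw [Pi.add_apply, hzQ e he, hzP₁ e he, h1 e he, add_assoc, zmod2_add_self, add_zero]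

open Classical in
/-- The union of the ears whose sum is not in the span of `V`. -/
noncomputable def earU (M : BM E) (A V : Finset E) : Finset E :=
  univ.filter fun e => ∃ Q, Ear M A Q ∧ ¬ Hat M Q V ∧ e ∈ Q

theorem mem_earU {M : BM E} {A V : Finset E} {e : E} :
    e ∈ earU M A V ↔ ∃ Q, Ear M A Q ∧ ¬ Hat M Q V ∧ e ∈ Q := by
  simp [earU]

/-- (S2) -/
theorem ear_S2 (M : BM E) {A V : Finset E} (hV : V ⊆ A) {P : Finset E} (hP : Ear M A P) :
    ∀ (n : ℕ) (P₁ : Finset E), (P₁ ∪ P).card = n → Ear M A P₁ → ¬ Hat M P₁ V →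
      (P ∩ P₁).Nonempty → P ⊆ earU M A V := by
  intro n
  induction n using Nat.strong_induction_on with
  | _ n ih =>
    intro P₁ hn hP₁ hP₁V hm
    by_cases hPV : Hat M P V
    · obtain ⟨Q, hQ, hQV, hQP, -, hQ'⟩ := ear_step M hV hP hPV hP₁ hP₁V hm
      rcases hQ' with h1 | h1
      · exact ih _ (hn ▸ h1) Q rfl hQ hQV (by rwa [Finset.inter_comm])
      · intro e he
        have h2 := h1 e (hP.not_mem e he)
        rw [ind_mem he] at h2
        by_cases h3 : e ∈ P₁
        · exact mem_earU.2 ⟨P₁, hP₁, hP₁V, h3⟩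
        · rw [ind_not_mem h3, add_zero] at h2
          have h4 : e ∈ Q := by
            by_contra h5
            rw [ind_not_mem h5] at h2
            exact zero_ne_one h2
          exact mem_earU.2 ⟨Q, hQ, hQV, h4⟩
    · exact fun e he => mem_earU.2 ⟨P, hP, hPV, he⟩

/-- (S3) If every ear of `A` has its sum in the span of `L` or in the span of `A \ L`, then every
cycle is a sum of cycles inside `L ∪ B`, `S \ (L ∪ B)` and `A`, where `B` is the union of the
ears whose sum is not in the span of `A \ L`. -/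
theorem ear_S3 (M : BM E) {A L : Finset E} (hA : A ⊆ M.S) (hL : L ⊆ A)
    (H : ∀ P, Ear M A P → Hat M P L ∨ Hat M P (A \ L)) (z : E → ZMod 2) (hz : z ∈ M.Z) :
    z ∈ (Zs M (L ∪ earU M A (A \ L)) ⊔ Zs M (M.S \ (L ∪ earU M A (A \ L)))) ⊔ Zs M A := by
  set B := earU M A (A \ L) with hB
  obtain ⟨w, hw, hwz⟩ := decomp M A (Zs M (L ∪ B) ⊔ Zs M (M.S \ (L ∪ B)))
    (fun w hw => by
      obtain ⟨a, ha, b, hb, rfl⟩ := Submodule.mem_sup.1 hw
      exact M.Z.add_mem ha.1 hb.1) _ z hz rfl (fun Q hQ _ => by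
      by_cases hQV : Hat M Q (A \ L)
      · by_cases hm : (Q ∩ B).Nonempty
        · -- `Q` is inside `B` and has its sum in the span of `L`
          obtain ⟨e, he⟩ := hm
          obtain ⟨P₁, hP₁, hP₁V, heP₁⟩ := mem_earU.1 (mem_inter.1 he).2
          have hm' : (Q ∩ P₁).Nonempty := ⟨e, mem_inter.2 ⟨(mem_inter.1 he).1, heP₁⟩⟩
          have hQL : Hat M Q L := by
            by_contra hQL
            exact ear_S1 M hL H hQ hQL _ P₁ rfl hP₁ hP₁V hm'
          have hQB := ear_S2 M (Finset.sdiff_subset : A \ L ⊆ A) hQ _ P₁ rfl hP₁ hP₁V hm'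
          obtain ⟨z, hz, hzQ⟩ := hQL
          refine ⟨z, Submodule.mem_sup_left ⟨hz, fun e he => hzQ.2 e ?_ ?_⟩, fun e he => ?_⟩
          · exact fun h => he (mem_union_right _ (hQB h))
          · exact fun h => he (mem_union_left _ h)
          · by_cases h : e ∈ Q
            · rw [hzQ.1 e h, ind_mem h]
            · rw [hzQ.2 e h fun h' => he (hL h'), ind_not_mem h]
        · obtain ⟨z, hz, hzQ⟩ := hQV
          refine ⟨z, Submodule.mem_sup_right ⟨hz, fun e he => ?_⟩, fun e he => ?_⟩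
          · by_cases h1 : e ∈ Q
            · exfalso
              apply he
              refine mem_sdiff.2 ⟨(mem_sdiff.1 (hQ.sub h1)).1, fun h2 => ?_⟩
              rcases mem_union.1 h2 with h3 | h3
              · exact hQ.not_mem e h1 (hL h3)
              · exact hm ⟨e, mem_inter.2 ⟨h1, h3⟩⟩
            · by_cases h2 : e ∈ A \ L
              · exfalso
                apply he
                refine mem_sdiff.2 ⟨hA (mem_sdiff.1 h2).1, fun h3 => ?_⟩
                rcases mem_union.1 h3 with h4 | h4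
                · exact (mem_sdiff.1 h2).2 h4
                · obtain ⟨P₁, hP₁, -, heP₁⟩ := mem_earU.1 h4
                  exact hP₁.not_mem e heP₁ (mem_sdiff.1 h2).1
              · exact hzQ.2 e h1 h2
          · by_cases h : e ∈ Q
            · rw [hzQ.1 e h, ind_mem h]
            · rw [hzQ.2 e h fun h' => he (mem_sdiff.1 h').1, ind_not_mem h]
      · have hQL : Hat M Q L := (H Q hQ).resolve_right hQV
        obtain ⟨z, hz, hzQ⟩ := hQL
        refine ⟨z, Submodule.mem_sup_left ⟨hz, fun e he => hzQ.2 e ?_ ?_⟩, fun e he => ?_⟩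
        · exact fun h => he (mem_union_right _ (mem_earU.2 ⟨Q, hQ, hQV, h⟩))
        · exact fun h => he (mem_union_left _ h)
        · by_cases h : e ∈ Q
          · rw [hzQ.1 e h, ind_mem h]
          · rw [hzQ.2 e h fun h' => he (hL h'), ind_not_mem h])
  have h3 : z + w ∈ Zs M A := by
    refine ⟨M.Z.add_mem hz ?_, fun e he => ?_⟩
    · obtain ⟨a, ha, b, hb, rfl⟩ := Submodule.mem_sup.1 hw
      exact M.Z.add_mem ha.1 hb.1
    · rw [Pi.add_apply, hwz e he, zmod2_add_self]
  have h4 : z = w + (z + w) := by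
    funext e
    rw [Pi.add_apply, Pi.add_apply, add_comm (z e), ← add_assoc, zmod2_add_self, zero_add]
  rw [h4]
  exact Submodule.add_mem _ (Submodule.mem_sup_left hw) (Submodule.mem_sup_right h3)

end SEY

end

section

/-!
# Block BG of project SEY, part 2: the connectivity function and the cycle space

`nu M X` is the dimension of the space of cycles inside `X`; `M.lam A = nu S - nu A - nu (S \ A)`.
`ear_lam` is (S3) for the connectivity function.
-/

set_option autoImplicit false

namespace SEY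

open Finset

variable {E : Type} [Fintype E] [DecidableEq E]

namespace BG

theorem dot_single (f : E → ZMod 2) (e : E) : dot f (Pi.single e 1) = f e := by
  unfold dot
  rw [Finset.sum_eq_single e]
  · simp
  · intro b _ hb
    simp [hb]
  · intro h
    exact absurd (Finset.mem_univ e) h

theorem dot_comm (f g : E → ZMod 2) : dot f g = dot g f := by
  unfold dot
  exact Finset.sum_congr rfl fun e _ => mul_comm _ _

/-- The inner product as a bilinear form. -/
def bil : LinearMap.BilinForm (ZMod 2) (E → ZMod 2) :=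
  LinearMap.mk₂ (ZMod 2) dot
    (fun f g h => by simp [dot, add_mul, Finset.sum_add_distrib])
    (fun c f g => by simp [dot, mul_assoc, Finset.mul_sum])
    (fun f g h => by simp [dot, mul_add, Finset.sum_add_distrib])
    (fun c f g => by
      simp only [dot, Pi.smul_apply, smul_eq_mul, Finset.mul_sum]
      exact Finset.sum_congr rfl fun e _ => by ring)

theorem bil_apply (f g : E → ZMod 2) : bil f g = dot f g := rfl

theorem bil_refl : (bil (E := E)).IsRefl := fun f g h => by
  rw [bil_apply, dot_comm]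
  exact h

theorem bil_nd : (bil (E := E)).Nondegenerate := by
  refine (LinearMap.IsRefl.nondegenerate_iff_separatingLeft bil_refl).2 fun f hf => ?_
  funext e
  have := hf (Pi.single e 1)
  rwa [bil_apply, dot_single] at this

theorem mask_apply (A : Finset E) (f : E → ZMod 2) (e : E) :
    mask A f e = if e ∈ A then f e else 0 := rfl

theorem mask_mem {A : Finset E} {e : E} (h : e ∈ A) (f : E → ZMod 2) : mask A f e = f e := by
  rw [mask_apply, if_pos h]

theorem mask_not_mem {A : Finset E} {e : E} (h : e ∉ A) (f : E → ZMod 2) : mask A f e = 0 := by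
  rw [mask_apply, if_neg h]

theorem dot_mask_left {A : Finset E} (f z : E → ZMod 2) (hz : ∀ e, e ∉ A → z e = 0) :
    dot (mask A f) z = dot f z := by
  unfold dot
  refine Finset.sum_congr rfl fun e _ => ?_
  by_cases h : e ∈ A
  · rw [mask_mem h]
  · rw [hz e h, mul_zero, mul_zero]

theorem finrank_range_mask (A : Finset E) :
    Module.finrank (ZMod 2) (LinearMap.range (mask A)) = A.card := by
  have h1 := LinearMap.finrank_range_add_finrank_ker (mask A)
  have h2 := LinearMap.finrank_range_add_finrank_ker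
    (LinearMap.funLeft (ZMod 2) (ZMod 2) (Subtype.val : A → E))
  have h3 : LinearMap.ker (mask A) =
      LinearMap.ker (LinearMap.funLeft (ZMod 2) (ZMod 2) (Subtype.val : A → E)) := by
    ext f
    rw [LinearMap.mem_ker, LinearMap.mem_ker]
    constructor
    · intro h
      funext e
      have := congrFun h e.1
      rw [mask_mem e.2] at this
      exact this
    · intro h
      funext e
      by_cases he : e ∈ A
      · rw [mask_mem he]
        exact congrFun h ⟨e, he⟩
      · rw [mask_not_mem he]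
        rfl
  have h4 : LinearMap.range (LinearMap.funLeft (ZMod 2) (ZMod 2) (Subtype.val : A → E)) = ⊤ :=
    LinearMap.range_eq_top.2 (LinearMap.funLeft_surjective_of_injective _ _ _
      Subtype.val_injective)
  rw [h4, finrank_top, Module.finrank_fintype_fun_eq_card, ← h3, Fintype.card_coe] at h2
  omega

/-- The dimension of the space of cycles inside `X`. -/
noncomputable def nu (M : BM E) (X : Finset E) : ℕ := Module.finrank (ZMod 2) (Zs M X)

theorem r_add_nu (M : BM E) {A : Finset E} (hA : A ⊆ M.S) : M.r A + nu M A = A.card := by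
  set W := M.R.map (mask A) with hW
  set O := bil.orthogonal W with hO
  have h1 : Module.finrank (ZMod 2) O = Module.finrank (ZMod 2) (E → ZMod 2) -
      Module.finrank (ZMod 2) W := LinearMap.BilinForm.finrank_orthogonal bil_nd W
  have h1' : Module.finrank (ZMod 2) W ≤ Module.finrank (ZMod 2) (E → ZMod 2) :=
    Submodule.finrank_le W
  have h2 := LinearMap.finrank_range_add_finrank_ker (mask A)
  have h3 := LinearMap.finrank_range_add_finrank_ker ((mask A).domRestrict O)
  have hmO : ∀ z, z ∈ O ↔ ∀ f ∈ M.R, dot (mask A f) z = 0 := by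
    intro z
    rw [hO, LinearMap.BilinForm.mem_orthogonal_iff]
    constructor
    · intro h f hf
      exact h (mask A f) (Submodule.mem_map_of_mem hf)
    · rintro h _ ⟨f, hf, rfl⟩
      exact h f hf
  have h4 : LinearMap.range ((mask A).domRestrict O) = Zs M A := by
    ext z
    rw [LinearMap.mem_range, mem_Zs]
    constructor
    · rintro ⟨⟨y, hy⟩, rfl⟩
      rw [LinearMap.domRestrict_apply]
      refine ⟨⟨fun e he => mask_not_mem (fun h => he (hA h)) _, fun f hf => ?_⟩,
        fun e he => mask_not_mem he _⟩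
      have := (hmO y).1 hy f hf
      rw [← dot_mask_left f _ fun e he => mask_not_mem he y]
      rw [dot_comm, dot_mask_left _ _ fun e he => mask_not_mem he f, dot_comm]
      exact this
    · rintro ⟨hz, hz'⟩
      refine ⟨⟨z, (hmO z).2 fun f hf => ?_⟩, ?_⟩
      · rw [dot_mask_left f z hz']
        exact hz.2 f hf
      · rw [LinearMap.domRestrict_apply]
        funext e
        by_cases he : e ∈ A
        · exact mask_mem he _
        · rw [hz' e he]
          exact mask_not_mem he _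
  have h5 : Module.finrank (ZMod 2) (LinearMap.ker ((mask A).domRestrict O)) =
      Module.finrank (ZMod 2) (LinearMap.ker (mask A)) := by
    have h6 : LinearMap.ker (mask A) ≤ O := by
      intro z hz
      rw [LinearMap.mem_ker] at hz
      rw [hmO]
      intro f _
      rw [dot_comm, ← dot_mask_left z _ fun e he => mask_not_mem he f, hz]
      simp [dot]
    rw [LinearMap.ker_domRestrict]
    exact LinearEquiv.finrank_eq (Submodule.submoduleOfEquivOfLe h6)
  rw [finrank_range_mask] at h2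
  rw [h4, h5] at h3
  have h7 : M.r A = Module.finrank (ZMod 2) W := rfl
  have h8 : nu M A = Module.finrank (ZMod 2) (Zs M A) := rfl
  omega

theorem Zs_mono (M : BM E) {X Y : Finset E} (h : X ⊆ Y) : Zs M X ≤ Zs M Y :=
  fun _ hz => ⟨hz.1, fun e he => hz.2 e fun h' => he (h h')⟩

theorem Zs_inf (M : BM E) {X Y : Finset E} (h : Disjoint X Y) : Zs M X ⊓ Zs M Y = ⊥ := by
  rw [Submodule.eq_bot_iff]
  rintro z ⟨h1, h2⟩
  funext e
  by_cases he : e ∈ X
  · exact h2.2 e (Finset.disjoint_left.1 h he)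
  · exact h1.2 e he

theorem finrank_Zs_sup (M : BM E) {X Y : Finset E} (h : Disjoint X Y) :
    Module.finrank (ZMod 2) (Zs M X ⊔ Zs M Y : Submodule (ZMod 2) (E → ZMod 2)) =
      nu M X + nu M Y := by
  have := Submodule.finrank_sup_add_finrank_inf_eq (Zs M X) (Zs M Y)
  rw [Zs_inf M h, finrank_bot, add_zero] at this
  exact this

theorem nu_add_le (M : BM E) {X Y W : Finset E} (h : Disjoint X Y) (hX : X ⊆ W) (hY : Y ⊆ W) :
    nu M X + nu M Y ≤ nu M W := by
  rw [← finrank_Zs_sup M h]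
  exact Submodule.finrank_mono (sup_le (Zs_mono M hX) (Zs_mono M hY))

theorem lam_add (M : BM E) {A : Finset E} (hA : A ⊆ M.S) :
    M.lam A + nu M A + nu M (M.S \ A) = nu M M.S := by
  have h1 := r_add_nu M hA
  have h2 := r_add_nu M (Finset.sdiff_subset : M.S \ A ⊆ M.S)
  have h3 := r_add_nu M (Finset.Subset.refl M.S)
  have h4 := nu_add_le M (Finset.disjoint_sdiff : Disjoint A (M.S \ A)) hA Finset.sdiff_subset
  have h5 := Finset.card_sdiff_add_card_eq_card hA
  have h6 : M.lam A = M.r A + M.r (M.S \ A) - M.r M.S := rfl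
  omega

theorem Z_res (M : BM E) (A : Finset E) : (M.res A).Z = Zs M (M.S ∩ A) := by
  ext z
  rw [mem_Zs]
  constructor
  · rintro ⟨h1, h2⟩
    refine ⟨⟨fun e he => h1 e fun h => he (mem_inter.1 h).1, fun f hf => ?_⟩, h1⟩
    rw [← dot_mask_left f z h1]
    exact h2 _ (Submodule.mem_map_of_mem hf)
  · rintro ⟨h1, h2⟩
    refine ⟨h2, ?_⟩
    rintro _ ⟨f, hf, rfl⟩
    rw [dot_mask_left f z h2]
    exact h1.2 f hf

theorem mem_Z_res {M : BM E} {A : Finset E} (hA : A ⊆ M.S) {z : E → ZMod 2} :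
    z ∈ (M.res A).Z ↔ z ∈ M.Z ∧ ∀ e, e ∉ A → z e = 0 := by
  rw [Z_res, mem_Zs, Finset.inter_eq_right.2 hA]

theorem Zs_res (M : BM E) {A X : Finset E} (hA : A ⊆ M.S) (hX : X ⊆ A) :
    Zs (M.res A) X = Zs M X := by
  ext z
  rw [mem_Zs, mem_Zs, mem_Z_res hA]
  constructor
  · rintro ⟨⟨h1, -⟩, h2⟩
    exact ⟨h1, h2⟩
  · rintro ⟨h1, h2⟩
    exact ⟨⟨h1, fun e he => h2 e fun h => he (hX h)⟩, h2⟩

theorem lam_res_add (M : BM E) {A X : Finset E} (hA : A ⊆ M.S) (hX : X ⊆ A) :
    (M.res A).lam X + nu M X + nu M (A \ X) = nu M A := by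
  have hS : (M.res A).S = A := Finset.inter_eq_right.2 hA
  have h1 := lam_add (M.res A) (A := X) (by rw [hS]; exact hX)
  rw [hS] at h1
  unfold nu at *
  rwa [Zs_res M hA hX, Zs_res M hA Finset.sdiff_subset, Zs_res M hA (Finset.Subset.refl A)] at h1

theorem Zs_S (M : BM E) : Zs M M.S = M.Z := by
  ext z
  rw [mem_Zs]
  exact ⟨fun h => h.1, fun h => ⟨h, h.1⟩⟩

/-- If all cycles are sums of cycles inside `A` and `S \ A`, the connectivity is `0`. -/
theorem lam_eq_zero (M : BM E) {A : Finset E} (hA : A ⊆ M.S)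
    (h : ∀ z ∈ M.Z, z ∈ Zs M A ⊔ Zs M (M.S \ A)) : M.lam A = 0 := by
  have h1 := lam_add M hA
  have h2 : nu M M.S ≤ nu M A + nu M (M.S \ A) := by
    rw [← finrank_Zs_sup M Finset.disjoint_sdiff]
    refine Submodule.finrank_mono fun z hz => h z ?_
    rwa [Zs_S] at hz
  omega

theorem nu_erase (M : BM E) (X : Finset E) (e : E) : nu M X ≤ nu M (X.erase e) + 1 := by
  set φ : Zs M X →ₗ[ZMod 2] ZMod 2 :=
    (LinearMap.proj e : (E → ZMod 2) →ₗ[ZMod 2] ZMod 2).domRestrict (Zs M X) with hφ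
  have h1 := LinearMap.finrank_range_add_finrank_ker φ
  have h2 : Module.finrank (ZMod 2) (LinearMap.range φ) ≤ 1 := by
    have := Submodule.finrank_le (LinearMap.range φ)
    rwa [Module.finrank_self] at this
  have h3 : Module.finrank (ZMod 2) (LinearMap.ker φ) ≤ nu M (X.erase e) := by
    have h4 : (LinearMap.ker φ).map (Zs M X).subtype ≤ Zs M (X.erase e) := by
      rintro _ ⟨⟨z, hz⟩, h5, rfl⟩
      refine ⟨hz.1, fun a ha => ?_⟩
      by_cases hae : a = e
      · rw [hae]
        exact h5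
      · exact hz.2 a fun h => ha (mem_erase.2 ⟨hae, h⟩)
    have h5 := Submodule.finrank_mono h4
    rwa [Submodule.finrank_map_subtype_eq] at h5
  have h6 : nu M X = Module.finrank (ZMod 2) (Zs M X) := rfl
  omega

/-- (S3) for the connectivity function. -/
theorem ear_lam (M : BM E) {A L : Finset E} (hA : A ⊆ M.S) (hL : L ⊆ A)
    (H : ∀ P, Ear M A P → Hat M P L ∨ Hat M P (A \ L)) :
    M.lam (L ∪ earU M A (A \ L)) ≤ (M.res A).lam L := by
  set B := earU M A (A \ L) with hB
  have hBS : B ⊆ M.S \ A := by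
    intro e he
    obtain ⟨P, hP, -, heP⟩ := mem_earU.1 he
    exact hP.sub heP
  have hXS : L ∪ B ⊆ M.S := Finset.union_subset (hL.trans hA) (hBS.trans Finset.sdiff_subset)
  have hAX : A \ L ⊆ M.S \ (L ∪ B) := by
    intro e he
    obtain ⟨h1, h2⟩ := mem_sdiff.1 he
    refine mem_sdiff.2 ⟨hA h1, fun h3 => ?_⟩
    rcases mem_union.1 h3 with h4 | h4
    · exact h2 h4
    · exact (mem_sdiff.1 (hBS h4)).2 h1
  have h1 := lam_add M hXS
  have h2 := lam_res_add M hA hL
  have h3 := Submodule.finrank_sup_add_finrank_inf_eq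
    (Zs M (L ∪ B) ⊔ Zs M (M.S \ (L ∪ B))) (Zs M A)
  rw [finrank_Zs_sup M Finset.disjoint_sdiff] at h3
  have h4 : nu M M.S ≤ Module.finrank (ZMod 2)
      ((Zs M (L ∪ B) ⊔ Zs M (M.S \ (L ∪ B))) ⊔ Zs M A : Submodule (ZMod 2) (E → ZMod 2)) := by
    refine Submodule.finrank_mono fun z hz => ?_
    rw [Zs_S] at hz
    exact ear_S3 M hA hL H z hz
  have h5 : nu M L + nu M (A \ L) ≤ Module.finrank (ZMod 2)
      ((Zs M (L ∪ B) ⊔ Zs M (M.S \ (L ∪ B))) ⊓ Zs M A : Submodule (ZMod 2) (E → ZMod 2)) := by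
    rw [← finrank_Zs_sup M (Finset.disjoint_sdiff : Disjoint L (A \ L))]
    refine Submodule.finrank_mono (le_inf (sup_le_sup (Zs_mono M Finset.subset_union_left)
      (Zs_mono M hAX)) (sup_le (Zs_mono M hL) (Zs_mono M Finset.sdiff_subset)))
  have h6 : nu M A = Module.finrank (ZMod 2) (Zs M A) := rfl
  (clear * - h1 h2 h3 h4 h5 h6; omega)

end BG

end SEY

end

section

/-!
# Block BG of project SEY, part 3: the ear theorem

Among all pairs `(A, T)` with `A` a proper subset of `S`, `M.res A` an `SC` matroid with property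
`Q` and `T` a set of pairwise non-serial elements of `A` take one with `(|T|, |A|)` maximal.
-/

set_option autoImplicit false

namespace SEY

open Finset

variable {E : Type} [Fintype E] [DecidableEq E]

namespace BG

theorem ser_symm {M : BM E} {a b : E} (h : M.Ser a b) : M.Ser b a := fun z hz => (h z hz).symm

theorem ser_trans {M : BM E} {a b c : E} (h : M.Ser a b) (h' : M.Ser b c) : M.Ser a c :=
  fun z hz => (h z hz).trans (h' z hz)

theorem ser_refl (M : BM E) (a : E) : M.Ser a a := fun _ _ => rfl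

theorem res_S (M : BM E) {A : Finset E} (hA : A ⊆ M.S) : (M.res A).S = A :=
  Finset.inter_eq_right.2 hA

theorem BM_ext {M N : BM E} (h1 : M.S = N.S) (h2 : M.R = N.R) : M = N := by
  cases M
  cases N
  simp only [BM.mk.injEq]
  exact ⟨h1, h2⟩

theorem mask_mask {A B : Finset E} (h : A ⊆ B) (f : E → ZMod 2) :
    mask A (mask B f) = mask A f := by
  funext e
  by_cases he : e ∈ A
  · rw [mask_mem he, mask_mem he, mask_mem (h he)]
  · rw [mask_not_mem he, mask_not_mem he]

theorem map_mask_map {A B : Finset E} (h : A ⊆ B) (R : Submodule (ZMod 2) (E → ZMod 2)) :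
    (R.map (mask B)).map (mask A) = R.map (mask A) := by
  ext f
  constructor
  · rintro ⟨_, ⟨g, hg, rfl⟩, rfl⟩
    exact ⟨g, hg, (mask_mask h g).symm⟩
  · rintro ⟨g, hg, rfl⟩
    exact ⟨mask B g, ⟨g, hg, rfl⟩, mask_mask h g⟩

theorem res_res (M : BM E) {A B : Finset E} (h : A ⊆ B) : (M.res B).res A = M.res A := by
  have hS : (M.S ∩ B) ∩ A = M.S ∩ A := by
    ext e
    simp only [mem_inter]
    exact ⟨fun h' => ⟨h'.1.1, h'.2⟩, fun h' => ⟨⟨h'.1, h h'.2⟩, h'.2⟩⟩
  refine BM_ext hS ?_
  change (M.R.map (mask (M.S ∩ B))).map (mask ((M.S ∩ B) ∩ A)) = M.R.map (mask (M.S ∩ A))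
  rw [hS]
  exact map_mask_map (Finset.inter_subset_inter_left h) _

theorem del_eq_res (M : BM E) (D : Finset E) : M.del D = M.res (M.S \ D) := by
  have hS : M.S ∩ (M.S \ D) = M.S \ D := Finset.inter_eq_right.2 Finset.sdiff_subset
  refine BM_ext hS.symm ?_
  change M.R.map (mask (M.S \ D)) = M.R.map (mask (M.S ∩ (M.S \ D)))
  rw [hS]

theorem res_self (M : BM E) : M.res M.S = M := by
  refine BM_ext (Finset.inter_self _) ?_
  change M.R.map (mask (M.S ∩ M.S)) = M.R
  rw [Finset.inter_self]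
  have h0 : ∀ f ∈ M.R, mask M.S f = f := by
    intro f hf
    funext e
    by_cases he : e ∈ M.S
    · exact mask_mem he f
    · rw [mask_not_mem he, M.supp f hf e he]
  ext f
  constructor
  · rintro ⟨g, hg, rfl⟩
    rw [h0 g hg]
    exact hg
  · intro hf
    exact ⟨f, hf, h0 f hf⟩

theorem res_del_union (M : BM E) {A P : Finset E} (hA : A ⊆ M.S) (hP : P ⊆ M.S \ A) :
    (M.res (A ∪ P)).del P = M.res A := by
  have hS : (M.res (A ∪ P)).S = A ∪ P :=
    res_S M (Finset.union_subset hA (hP.trans Finset.sdiff_subset))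
  rw [del_eq_res, hS]
  have h1 : (A ∪ P) \ P = A := by
    ext e
    rw [mem_sdiff, mem_union]
    constructor
    · rintro ⟨h1 | h1, h2⟩
      · exact h1
      · exact absurd h1 h2
    · intro h
      exact ⟨Or.inl h, fun h' => (mem_sdiff.1 (hP h')).2 h⟩
  rw [h1]
  exact res_res M Finset.subset_union_left

/-- A 3-connected matroid has no parallel pair. -/
theorem no_parallel (M : BM E) (h : M.TC) {x p : E} (hx : x ∈ M.S) (hp : p ∈ M.S) (hne : x ≠ p)
    (hz : ind {x, p} ∈ M.Z) : False := by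
  have hsub : ({x, p} : Finset E) ⊆ M.S := by
    intro e he
    rcases mem_insert.1 he with h1 | h1
    · rw [h1]
      exact hx
    · rw [mem_singleton.1 h1]
      exact hp
  have h1 := lam_add M hsub
  have h2 : 1 ≤ nu M {x, p} := by
    have h3 : ind {x, p} ∈ Zs M {x, p} := ⟨hz, fun e he => ind_not_mem he⟩
    have h4 : (ind {x, p} : E → ZMod 2) ≠ 0 := by
      intro h5
      have := congrFun h5 x
      rw [ind_mem (mem_insert_self x {p})] at this
      exact one_ne_zero this
    have h5 : Zs M {x, p} ≠ ⊥ := fun h6 => h4 (by rwa [h6, Submodule.mem_bot] at h3)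
    have h6 := Submodule.finrank_eq_zero (S := Zs M {x, p})
    by_contra h7
    exact h5 (h6.1 (by unfold nu at h7; omega))
  have h3 : M.S \ {x, p} = (M.S.erase x).erase p := by
    ext e
    simp only [mem_sdiff, mem_insert, mem_singleton, mem_erase]
    tauto
  have h4 := nu_erase M M.S x
  have h5 := nu_erase M (M.S.erase x) p
  rw [← h3] at h5
  have h6 := (h.2 {x, p} hsub).2 (by omega)
  rw [Finset.card_sdiff_of_subset hsub, Finset.card_pair hne] at h6
  have := h.1
  omega

/-- Case 1: an ear whose sum is not in the span of one class. -/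
theorem bg_ext (M : BM E) {A P : Finset E} (hA : A ⊆ M.S) (hsc : (M.res A).SC)
    (hP : Ear M A P)
    (hout : ∀ z ∈ M.Z, (∀ p ∈ P, z p = 1) → (∀ e, e ∉ A → e ∉ P → z e = 0) →
      ∃ a ∈ A, ∃ b ∈ A, z a = 1 ∧ z b = 1 ∧ ¬ (M.res A).Ser a b) :
    (M.res (A ∪ P)).SC ∧ (∀ a ∈ A, ∀ b ∈ A, (M.res (A ∪ P)).Ser a b → (M.res A).Ser a b) ∧
      (∀ a ∈ A, ∀ p ∈ P, ¬ (M.res (A ∪ P)).Ser a p) ∧
      ∀ p ∈ P, ∀ q ∈ P, (M.res (A ∪ P)).Ser p q := by
  have hPS : P ⊆ M.S := hP.sub.trans Finset.sdiff_subset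
  have hU : A ∪ P ⊆ M.S := Finset.union_subset hA hPS
  have hdel := res_del_union M hA hP.sub
  obtain ⟨z0, hz0, hz0P⟩ := hP.ex
  have hmem : ∀ z, z ∈ (M.res (A ∪ P)).Z ↔ z ∈ M.Z ∧ ∀ e, e ∉ A → e ∉ P → z e = 0 := by
    intro z
    rw [mem_Z_res hU]
    constructor
    · rintro ⟨h1, h2⟩
      exact ⟨h1, fun e he he' => h2 e fun h => (mem_union.1 h).elim he he'⟩
    · rintro ⟨h1, h2⟩
      exact ⟨h1, fun e he => h2 e (fun h => he (mem_union_left _ h))
        (fun h => he (mem_union_right _ h))⟩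
  obtain ⟨h1, h2⟩ := SC_ext (M.res (A ∪ P)) P (by rw [res_S M hU]; exact Finset.subset_union_right)
    hP.ne (by rw [hdel]; exact hsc) z0
    ((hmem z0).2 ⟨hz0, fun e he he' => by rw [hz0P e he, ind_not_mem he']⟩)
    (fun p hp => by rw [hz0P p (hP.not_mem p hp), ind_mem hp])
    (fun z hz => by
      obtain ⟨h3, h4⟩ := (hmem z).1 hz
      exact hP.min z h3 h4)
    (fun z hz hz1 => by
      obtain ⟨h3, h4⟩ := (hmem z).1 hz
      obtain ⟨a, ha, b, hb, hza, hzb, hab⟩ := hout z h3 hz1 h4
      refine ⟨a, b, fun h => hP.not_mem a h ha, fun h => hP.not_mem b h hb, hza, hzb, ?_⟩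
      rw [hdel]
      exact hab)
  rw [hdel, res_S M hU] at h2
  refine ⟨h1, fun a ha b hb hab => ?_, fun a ha p hp hap => ?_, fun p hp q hq => ?_⟩
  · rcases (h2 a (mem_union_left _ ha) b (mem_union_left _ hb)).1 hab with h3 | h3
    · exact absurd ha (hP.not_mem a h3.1)
    · exact h3.2.2.1
  · rcases (h2 a (mem_union_left _ ha) p (mem_union_right _ hp)).1 hap with h3 | h3
    · exact absurd ha (hP.not_mem a h3.1)
    · exact absurd hp h3.2.1
  · exact (h2 p (mem_union_right _ hp) q (mem_union_right _ hq)).2 (Or.inl ⟨hp, hq⟩)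

/-- Case 2, first part: if all ears have their sum in the span of a class, the classes are
singletons. -/
theorem bg_single (M : BM E) (h : M.TC) {A : Finset E} (hA : A ⊆ M.S) (hsc : (M.res A).SC)
    (hin : ∀ P, Ear M A P → ∃ z ∈ M.Z, (∀ p ∈ P, z p = 1) ∧ (∀ e, e ∉ A → e ∉ P → z e = 0) ∧
      ∀ a ∈ A, ∀ b ∈ A, z a = 1 → z b = 1 → (M.res A).Ser a b) {x y : E} (hx : x ∈ A)
    (hy : y ∈ A) (hxy : (M.res A).Ser x y) : x = y := by
  classical
  set L := A.filter fun e => (M.res A).Ser x e with hL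
  have hLA : L ⊆ A := Finset.filter_subset _ _
  have hLmem : ∀ e, e ∈ L ↔ e ∈ A ∧ (M.res A).Ser x e := fun e => by rw [hL, mem_filter]
  have H : ∀ P, Ear M A P → Hat M P L ∨ Hat M P (A \ L) := by
    intro P hP
    obtain ⟨z, hz, hz1, hz0, hzs⟩ := hin P hP
    by_cases hc : ∃ e ∈ L, z e = 1
    · left
      obtain ⟨e, heL, hze⟩ := hc
      refine ⟨z, hz, hz1, fun a haP haL => ?_⟩
      by_cases haA : a ∈ A
      · by_contra hza
        have h1 := hzs e (hLA heL) a haA hze (zmod2_ne hza)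
        exact haL ((hLmem a).2 ⟨haA, ser_trans ((hLmem e).1 heL).2 h1⟩)
      · exact hz0 a haA haP
    · right
      refine ⟨z, hz, hz1, fun a haP haL => ?_⟩
      by_cases haA : a ∈ A
      · by_contra hza
        by_cases ha : a ∈ L
        · exact hc ⟨a, ha, zmod2_ne hza⟩
        · exact haL (mem_sdiff.2 ⟨haA, ha⟩)
      · exact hz0 a haA haP
  have h1 := ear_lam M hA hLA H
  set B := earU M A (A \ L) with hB
  have hS := res_S M hA
  have h2 : (M.res A).lam L = 1 := by
    refine SC_lam_class (M.res A) hsc L (by rw [hS]; exact hLA) ⟨x, (hLmem x).2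
      ⟨hx, ser_refl _ x⟩⟩ fun a ha b hb => ?_
    exact ser_trans (ser_symm ((hLmem a).1 ha).2) ((hLmem b).1 hb).2
  rw [h2] at h1
  have hBS : B ⊆ M.S \ A := by
    intro e he
    obtain ⟨P, hP, -, heP⟩ := mem_earU.1 he
    exact hP.sub heP
  have hXS : L ∪ B ⊆ M.S := Finset.union_subset (hLA.trans hA) (hBS.trans Finset.sdiff_subset)
  have hout : ∀ e ∈ A, e ∉ L → e ∈ M.S \ (L ∪ B) := by
    intro e he he'
    refine mem_sdiff.2 ⟨hA he, fun h3 => ?_⟩
    rcases mem_union.1 h3 with h4 | h4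
    · exact he' h4
    · exact (mem_sdiff.1 (hBS h4)).2 he
  rcases (h.2 (L ∪ B) hXS).2 h1 with h3 | h3
  · exact Finset.card_le_one.1 h3 x (mem_union_left _ ((hLmem x).2 ⟨hx, ser_refl _ x⟩)) y
      (mem_union_left _ ((hLmem y).2 ⟨hy, hxy⟩))
  · exfalso
    obtain ⟨⟨s, hs, hs'⟩, -⟩ := hsc
    rw [hS] at hs
    have h4 : ∀ i j, i ≠ j → s i ∈ L → s j ∈ L → False := by
      intro i j hij hi hj
      exact hs' i j hij (ser_trans (ser_symm ((hLmem _).1 hi).2) ((hLmem _).1 hj).2)
    have h5 : ∀ i j, i ≠ j → s i ∉ L → s j ∉ L → False := by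
      intro i j hij hi hj
      have := Finset.card_le_one.1 h3 (s i) (hout _ (hs i) hi) (s j) (hout _ (hs j) hj)
      apply hs' i j hij
      rw [this]
      exact ser_refl _ _
    by_cases h6 : s 0 ∈ L
    · by_cases h7 : s 1 ∈ L
      · exact h4 0 1 (by decide) h6 h7
      · by_cases h8 : s 2 ∈ L
        · exact h4 0 2 (by decide) h6 h8
        · exact h5 1 2 (by decide) h7 h8
    · by_cases h7 : s 1 ∈ L
      · by_cases h8 : s 2 ∈ L
        · exact h4 1 2 (by decide) h7 h8
        · exact h5 0 2 (by decide) h6 h8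
      · exact h5 0 1 (by decide) h6 h7

/-- Case 2, second part: replace an element by an ear. -/
theorem bg_switch (M : BM E) {A P : Finset E} (hA : A ⊆ M.S) (hsc : (M.res A).SC)
    (hsing : ∀ a ∈ A, ∀ b ∈ A, (M.res A).Ser a b → a = b) (hP : Ear M A P) {x : E} (hx : x ∈ A)
    (hz : ind (insert x P) ∈ M.Z) :
    (M.res (A.erase x ∪ P)).SC ∧ ∀ p ∈ P, ∀ a ∈ insert p (A.erase x),
      ∀ b ∈ insert p (A.erase x), a ≠ b → ¬ (M.res (A.erase x ∪ P)).Ser a b := by
  have hPS : P ⊆ M.S := hP.sub.trans Finset.sdiff_subset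
  have hA' : A.erase x ∪ P ⊆ M.S :=
    Finset.union_subset ((Finset.erase_subset _ _).trans hA) hPS
  have hxP : x ∉ P := fun h => hP.not_mem x h hx
  have hTC : (M.res A).TC := (TC_iff_SC _).2 ⟨hsc, by rw [res_S M hA]; exact hsing⟩
  have hmap := SC_of_map (M.res (A.erase x ∪ P)) (M.res A) hTC
    (fun e => if e ∈ P then x else e)
    (by
      intro e he
      rw [res_S M hA'] at he
      rw [res_S M hA]
      by_cases h1 : e ∈ P
      · simp only [if_pos h1]
        exact hx
      · simp only [if_neg h1]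
        rcases mem_union.1 he with h2 | h2
        · exact mem_of_mem_erase h2
        · exact absurd h2 h1)
    (by
      intro i hi
      rw [res_S M hA] at hi
      rw [res_S M hA']
      by_cases h1 : i = x
      · obtain ⟨p, hp⟩ := hP.ne
        refine ⟨p, mem_union_right _ hp, ?_⟩
        simp only [if_pos hp]
        exact h1.symm
      · refine ⟨i, mem_union_left _ (mem_erase.2 ⟨h1, hi⟩), ?_⟩
        have h2 : i ∉ P := fun h => hP.not_mem i h hi
        simp only [if_neg h2])
    (by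
      intro z hz0
      rw [res_S M hA'] at hz0
      rw [mem_Z_res hA', res_S M hA']
      have hzx : z x = 0 := hz0 x fun h => by
        rcases mem_union.1 h with h1 | h1
        · exact (mem_erase.1 h1).1 rfl
        · exact hxP h1
      have hzo : ∀ e, e ∉ A → e ∉ P → z e = 0 := fun e he he' => hz0 e fun h => by
        rcases mem_union.1 h with h1 | h1
        · exact he (mem_of_mem_erase h1)
        · exact he' h1
      constructor
      · rintro ⟨hzZ, -⟩
        rcases hP.min z hzZ hzo with h1 | h1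
        · refine ⟨z, (mem_Z_res hA).2 ⟨hzZ, fun e he => ?_⟩, fun e he => ?_⟩
          · by_cases h2 : e ∈ P
            · exact h1 e h2
            · exact hzo e he h2
          · by_cases h2 : e ∈ P
            · simp only [if_pos h2]
              rw [hzx, h1 e h2]
            · simp only [if_neg h2]
        · refine ⟨z + ind (insert x P), (mem_Z_res hA).2 ⟨M.Z.add_mem hzZ hz, fun e he => ?_⟩,
            fun e he => ?_⟩
          · by_cases h2 : e ∈ P
            · rw [Pi.add_apply, h1 e h2, ind_mem (mem_insert_of_mem h2)]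
              decide
            · rw [Pi.add_apply, hzo e he h2, ind_not_mem, add_zero]
              intro h3
              rcases mem_insert.1 h3 with h4 | h4
              · exact he (h4 ▸ hx)
              · exact h2 h4
          · by_cases h2 : e ∈ P
            · simp only [if_pos h2]
              rw [Pi.add_apply, hzx, h1 e h2, ind_mem (mem_insert_self _ _), zero_add]
            · simp only [if_neg h2]
              have h3 : e ∉ insert x P := fun h3 => by
                rcases mem_insert.1 h3 with h4 | h4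
                · rw [h4] at he
                  rcases mem_union.1 he with h5 | h5
                  · exact (mem_erase.1 h5).1 rfl
                  · exact hxP h5
                · exact h2 h4
              rw [Pi.add_apply, ind_not_mem h3, add_zero]
      · rintro ⟨w, hw, hwz⟩
        obtain ⟨hwZ, hw0⟩ := (mem_Z_res hA).1 hw
        refine ⟨?_, hz0⟩
        have hwA : ∀ e ∈ A, e ≠ x → z e = w e := by
          intro e he he'
          have h1 := hwz e (mem_union_left _ (mem_erase.2 ⟨he', he⟩))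
          rw [if_neg fun h => hP.not_mem e h he] at h1
          exact h1
        have hwP : ∀ e ∈ P, z e = w x := by
          intro e he
          have h1 := hwz e (mem_union_right _ he)
          rwa [if_pos he] at h1
        rcases zmod2_cases (w x) with h1 | h1
        · have h2 : z = w := by
            funext e
            by_cases h3 : e ∈ A
            · by_cases h4 : e = x
              · rw [h4, hzx, h1]
              · exact hwA e h3 h4
            · rw [hw0 e h3]
              by_cases h4 : e ∈ P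
              · rw [hwP e h4, h1]
              · exact hzo e h3 h4
          rw [h2]
          exact hwZ
        · have h2 : z = w + ind (insert x P) := by
            funext e
            rw [Pi.add_apply]
            by_cases h3 : e ∈ A
            · by_cases h4 : e = x
              · rw [h4, hzx, h1, ind_mem (mem_insert_self _ _)]
                decide
              · rw [hwA e h3 h4, ind_not_mem, add_zero]
                intro h5
                rcases mem_insert.1 h5 with h6 | h6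
                · exact h4 h6
                · exact hP.not_mem e h6 h3
            · rw [hw0 e h3, zero_add]
              by_cases h4 : e ∈ P
              · rw [hwP e h4, h1, ind_mem (mem_insert_of_mem h4)]
              · rw [hzo e h3 h4, ind_not_mem]
                intro h5
                rcases mem_insert.1 h5 with h6 | h6
                · exact h3 (h6 ▸ hx)
                · exact h4 h6
          rw [h2]
          exact M.Z.add_mem hwZ hz)
  refine ⟨hmap.1, fun p hp a ha b hb hab hser => hab ?_⟩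
  have hmemA' : ∀ a ∈ insert p (A.erase x), a ∈ (M.res (A.erase x ∪ P)).S := by
    intro a ha
    rw [res_S M hA']
    rcases mem_insert.1 ha with h1 | h1
    · rw [h1]
      exact mem_union_right _ hp
    · exact mem_union_left _ h1
  have h1 := (hmap.2 a (hmemA' a ha) b (hmemA' b hb)).1 hser
  have h2 : ∀ c ∈ insert p (A.erase x), (c = p ∧ (if c ∈ P then x else c) = x) ∨
      (c ≠ x ∧ (if c ∈ P then x else c) = c) := by
    intro c hc
    rcases mem_insert.1 hc with h3 | h3
    · left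
      refine ⟨h3, ?_⟩
      rw [h3, if_pos hp]
    · right
      obtain ⟨h4, h5⟩ := mem_erase.1 h3
      exact ⟨h4, if_neg fun h => hP.not_mem c h h5⟩
  rcases h2 a ha with ⟨h3, h4⟩ | ⟨h3, h4⟩ <;> rcases h2 b hb with ⟨h5, h6⟩ | ⟨h5, h6⟩
  · rw [h3, h5]
  · rw [h4, h6] at h1
    exact absurd h1.symm h5
  · rw [h4, h6] at h1
    exact absurd h1 h3
  · rw [h4, h6] at h1
    exact h1

/-- The ear theorem. -/
theorem bg_main (M : BM E) (h : M.TC) (Q : Finset E → Prop)
    (mono : ∀ A B : Finset E, A ⊆ B → B ⊆ M.S → Q A → Q B)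
    (sw : ∀ (A : Finset E) (x : E) (P : Finset E), A ⊆ M.S → x ∈ A → Ear M A P →
      ind (insert x P) ∈ M.Z → Q A → Q (A.erase x ∪ P))
    (A0 : Finset E) (hA0 : A0 ⊂ M.S) (hsc : (M.res A0).SC) (hQ : Q A0) :
    ∃ e ∈ M.S, (M.del {e}).SC ∧ Q (M.S.erase e) := by
  classical
  set K := Fintype.card E with hK
  set G : Finset (Finset E × Finset E) := univ.filter fun p =>
    p.1 ⊂ M.S ∧ (M.res p.1).SC ∧ Q p.1 ∧ p.2 ⊆ p.1 ∧
      ∀ a ∈ p.2, ∀ b ∈ p.2, a ≠ b → ¬ (M.res p.1).Ser a b with hG
  have hGmem : ∀ A T : Finset E, (A, T) ∈ G ↔ (A ⊂ M.S ∧ (M.res A).SC ∧ Q A ∧ T ⊆ A ∧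
      ∀ a ∈ T, ∀ b ∈ T, a ≠ b → ¬ (M.res A).Ser a b) := by
    intro A T
    rw [hG, mem_filter]
    exact ⟨fun h => h.2, fun h => ⟨mem_univ _, h⟩⟩
  obtain ⟨⟨A, T⟩, hAT, hmax⟩ := Finset.exists_max_image G
    (fun p => p.2.card * (K + 1) + p.1.card)
    ⟨(A0, ∅), (hGmem _ _).2 ⟨hA0, hsc, hQ, Finset.empty_subset _, fun a ha =>
      absurd ha (Finset.notMem_empty a)⟩⟩
  obtain ⟨hAS, hAsc, hAQ, hTA, hTn⟩ := (hGmem A T).1 hAT
  have hA : A ⊆ M.S := hAS.1
  have hmax' : ∀ A' T' : Finset E, (A', T') ∈ G →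
      T'.card * (K + 1) + A'.card ≤ T.card * (K + 1) + A.card := fun A' T' h' => hmax _ h'
  have hAK : A.card ≤ K := Finset.card_le_univ A
  by_cases hc : ∃ P, Ear M A P ∧ ∀ z ∈ M.Z, (∀ p ∈ P, z p = 1) →
      (∀ e, e ∉ A → e ∉ P → z e = 0) → ∃ a ∈ A, ∃ b ∈ A, z a = 1 ∧ z b = 1 ∧
        ¬ (M.res A).Ser a b
  · obtain ⟨P, hP, hPout⟩ := hc
    obtain ⟨h1, h2, h3, h4⟩ := bg_ext M hA hAsc hP hPout
    have hPS : P ⊆ M.S := hP.sub.trans Finset.sdiff_subset
    have hU : A ∪ P ⊆ M.S := Finset.union_subset hA hPS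
    obtain ⟨p, hp⟩ := hP.ne
    by_cases hE : A ∪ P = M.S
    · rw [hE, res_self] at h4
      have h5 := ((TC_iff_SC M).1 h).2
      have hPp : P = {p} := by
        ext q
        rw [mem_singleton]
        constructor
        · intro hq
          exact h5 q (hPS hq) p (hPS hp) (h4 q hq p hp)
        · intro hq
          rw [hq]
          exact hp
      have hAe : A = M.S.erase p := by
        ext e
        rw [mem_erase, ← hE, mem_union, hPp, mem_singleton]
        constructor
        · intro he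
          refine ⟨fun h6 => hP.not_mem p hp (h6 ▸ he), Or.inl he⟩
        · rintro ⟨h6, h7 | h7⟩
          · exact h7
          · exact absurd h7 h6
      refine ⟨p, hPS hp, ?_, ?_⟩
      · rw [del_eq_res, Finset.sdiff_singleton_eq_erase, ← hAe]
        exact hAsc
      · rw [← hAe]
        exact hAQ
    · exfalso
      have hpT : p ∉ T := fun h6 => hP.not_mem p hp (hTA h6)
      have h6 := hmax' (A ∪ P) (insert p T) ((hGmem _ _).2 ⟨Finset.ssubset_iff_subset_ne.2
        ⟨hU, hE⟩, h1, mono A _ Finset.subset_union_left hU hAQ, ?_, ?_⟩)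
      · rw [Finset.card_insert_of_notMem hpT] at h6
        have : (T.card + 1) * (K + 1) = T.card * (K + 1) + (K + 1) := by ring
        omega
      · refine Finset.insert_subset (mem_union_right _ hp) (hTA.trans Finset.subset_union_left)
      · intro a ha b hb hab hser
        rcases mem_insert.1 ha with h7 | h7 <;> rcases mem_insert.1 hb with h8 | h8
        · exact hab (h7.trans h8.symm)
        · rw [h7] at hser
          exact h3 b (hTA h8) p hp (ser_symm hser)
        · rw [h8] at hser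
          exact h3 a (hTA h7) p hp hser
        · exact hTn a h7 b h8 hab (h2 a (hTA h7) b (hTA h8) hser)
  · have hin : ∀ P, Ear M A P → ∃ z ∈ M.Z, (∀ p ∈ P, z p = 1) ∧
        (∀ e, e ∉ A → e ∉ P → z e = 0) ∧
        ∀ a ∈ A, ∀ b ∈ A, z a = 1 → z b = 1 → (M.res A).Ser a b := by
      intro P hP
      by_contra hcon
      refine hc ⟨P, hP, fun z hz h1 h0 => ?_⟩
      by_contra hcon'
      refine hcon ⟨z, hz, h1, h0, fun a ha b hb hza hzb => ?_⟩
      by_contra hcon''
      exact hcon' ⟨a, ha, b, hb, hza, hzb, hcon''⟩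
    have hsing : ∀ a ∈ A, ∀ b ∈ A, (M.res A).Ser a b → a = b := fun a ha b hb hab =>
      bg_single M h hA hAsc hin ha hb hab
    -- an ear with nonzero sum
    obtain ⟨P, hP, x, hx, hxz⟩ : ∃ P, Ear M A P ∧ ∃ x ∈ A, ind (insert x P) ∈ M.Z := by
      by_contra hcon
      have hall : ∀ P, Ear M A P → ind P ∈ M.Z := by
        intro P hP
        obtain ⟨z, hz, hz1, hz0, hzs⟩ := hin P hP
        by_cases hc' : ∃ a ∈ A, z a = 1
        · exfalso
          obtain ⟨a, ha, hza⟩ := hc'
          apply hcon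
          refine ⟨P, hP, a, ha, ?_⟩
          have : ind (insert a P) = z := by
            funext e
            by_cases he : e ∈ insert a P
            · rw [ind_mem he]
              rcases mem_insert.1 he with h1 | h1
              · rw [h1, hza]
              · rw [hz1 e h1]
            · rw [ind_not_mem he]
              rw [mem_insert, not_or] at he
              by_cases heA : e ∈ A
              · by_contra h1
                exact he.1 (hsing a ha e heA (hzs a ha e heA hza
                  (zmod2_ne fun h2 => h1 h2.symm))).symm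
              · exact (hz0 e heA he.2).symm
          rw [this]
          exact hz
        · have : ind P = z := by
            funext e
            by_cases he : e ∈ P
            · rw [ind_mem he, hz1 e he]
            · rw [ind_not_mem he]
              by_cases heA : e ∈ A
              · by_contra h1
                exact hc' ⟨e, heA, zmod2_ne fun h2 => h1 h2.symm⟩
              · exact (hz0 e heA he).symm
          rw [this]
          exact hz
      have h0 : M.lam A = 0 := by
        refine lam_eq_zero M hA fun z hz => ?_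
        obtain ⟨w, hw, hwz⟩ := decomp M A (Zs M (M.S \ A)) (fun w hw => hw.1) _ z hz rfl
          (fun Q hQ _ => ⟨ind Q, ⟨hall Q hQ, fun e he => ind_not_mem fun h1 => he (hQ.sub h1)⟩,
            fun e _ => rfl⟩)
        have h1 : z + w ∈ Zs M A := ⟨M.Z.add_mem hz hw.1, fun e he => by
          rw [Pi.add_apply, hwz e he, zmod2_add_self]⟩
        have h2 : z = (z + w) + w := by
          funext e
          rw [Pi.add_apply, Pi.add_apply, add_assoc, zmod2_add_self, add_zero]
        rw [h2]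
        exact Submodule.add_mem _ (Submodule.mem_sup_left h1) (Submodule.mem_sup_right hw)
      rcases (h.2 A hA).1 h0 with h1 | h1
      · obtain ⟨⟨s, hs, -⟩, -⟩ := hAsc
        have := hs 0
        rw [res_S M hA, h1] at this
        exact Finset.notMem_empty _ this
      · exact hAS.ne h1
    obtain ⟨p, hp⟩ := hP.ne
    have hPS : P ⊆ M.S := hP.sub.trans Finset.sdiff_subset
    have hxP : x ∉ P := fun h => hP.not_mem x h hx
    have hP2 : 2 ≤ P.card := by
      by_contra h1
      have h2 : P.card = 1 := by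
        have := Finset.card_pos.2 hP.ne
        omega
      obtain ⟨q, hq⟩ := Finset.card_eq_one.1 h2
      rw [hq] at hxz hPS hxP
      exact no_parallel M h (hA hx) (hPS (mem_singleton_self q))
        (fun h3 => hxP (by rw [h3]; exact mem_singleton_self q)) hxz
    obtain ⟨h1, h2⟩ := bg_switch M hA hAsc hsing hP hx hxz
    have hA' : A.erase x ∪ P ⊆ M.S :=
      Finset.union_subset ((Finset.erase_subset _ _).trans hA) hPS
    have h3 := hmax' (A.erase x ∪ P) (insert p (A.erase x)) ((hGmem _ _).2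
      ⟨Finset.ssubset_iff_subset_ne.2 ⟨hA', fun h3 => ?_⟩, h1, sw A x P hA hx hP hxz hAQ, ?_,
        h2 p hp⟩)
    · exfalso
      have h4 : p ∉ A.erase x := fun h => hP.not_mem p hp (mem_of_mem_erase h)
      have h5 : Disjoint (A.erase x) P := by
        rw [Finset.disjoint_left]
        intro e he he'
        exact hP.not_mem e he' (mem_of_mem_erase he)
      rw [Finset.card_insert_of_notMem h4, Finset.card_union_of_disjoint h5,
        Finset.card_erase_of_mem hx] at h3
      have h6 := Finset.card_pos.2 ⟨x, hx⟩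
      have h7 := Finset.card_le_card hTA
      have h8 : T.card * (K + 1) ≤ A.card * (K + 1) := Nat.mul_le_mul_right _ h7
      have h9 : A.card - 1 + 1 = A.card := by omega
      rw [h9] at h3
      omega
    · have h4 : x ∈ A.erase x ∪ P := by
        rw [h3]
        exact hA hx
      rcases mem_union.1 h4 with h5 | h5
      · exact (mem_erase.1 h5).1 rfl
      · exact hxP h5
    · refine Finset.insert_subset (mem_union_right _ hp) Finset.subset_union_left

end BG

end SEY

end

section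

/-!
# Block BG of project SEY, part 4: the ear theorem for `HasT`
-/

set_option autoImplicit false

namespace SEY

open Finset

variable {E : Type} [Fintype E] [DecidableEq E]

namespace BG

/-- The rows are the functions on `S` which are orthogonal to all cycles. -/
theorem mem_R_of_orth (M : BM E) {f : E → ZMod 2} (h0 : ∀ e, e ∉ M.S → f e = 0)
    (h : ∀ z ∈ M.Z, dot f z = 0) : f ∈ M.R := by
  have h1 := LinearMap.BilinForm.orthogonal_orthogonal (B := bil (E := E)) bil_nd bil_refl M.R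
  rw [← h1, LinearMap.BilinForm.mem_orthogonal_iff]
  intro y hy
  rw [LinearMap.BilinForm.mem_orthogonal_iff] at hy
  have h2 : mask M.S y ∈ M.Z := by
    refine ⟨fun e he => mask_not_mem he y, fun g hg => ?_⟩
    rw [dot_comm, dot_mask_left y g (M.supp g hg), dot_comm]
    exact hy g hg
  have h3 := h _ h2
  rw [dot_comm, dot_mask_left y f h0] at h3
  exact h3

theorem sub_res {r k : ℕ} {rows : Fin r → Fin k → ZMod 2} {M : BM E} {A : Finset E}
    {π : E → Fin k} (h : Sub rows M A π) : Sub rows (M.res A) A π := by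
  obtain ⟨h1, h2, h3⟩ := h
  refine ⟨by rw [res_S M h1], h2, fun z hz => ?_⟩
  rw [mem_Z_res h1]
  constructor
  · rintro ⟨h4, -⟩
    exact (h3 z hz).1 h4
  · intro h4
    exact ⟨(h3 z hz).2 h4, hz⟩

/-- A series extension which is 3-connected is an isomorphic copy. -/
theorem iso_of_sub {r k : ℕ} (rows : Fin r → Fin k → ZMod 2) (M : BM E) (π : E → Fin k)
    (h : Sub rows M M.S π) (hinj : ∀ a ∈ M.S, ∀ b ∈ M.S, π a = π b → a = b) :
    IsIso rows M := by
  classical
  obtain ⟨-, h2, h3⟩ := h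
  choose φ hφS hφ using h2
  have hφπ : ∀ e ∈ M.S, φ (π e) = e := fun e he => hinj _ (hφS _) e he (hφ _)
  have hsum : ∀ (g : E → ZMod 2), (∀ e, e ∉ M.S → g e = 0) → ∑ e, g e = ∑ j, g (φ j) := by
    intro g hg
    have h4 : ∑ e, g e = ∑ e ∈ M.S, g e := by
      refine (Finset.sum_subset (Finset.subset_univ _) fun e _ he => hg e he).symm
    rw [h4]
    refine Finset.sum_bij' (fun e _ => π e) (fun j _ => φ j) (fun _ _ => Finset.mem_univ _)
      (fun j _ => hφS j) (fun e he => hφπ e he) (fun j _ => hφ j) (fun e he => ?_)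
    rw [hφπ e he]
  refine ⟨φ, ?_, ?_, ?_, ?_⟩
  · intro i j hij
    rw [← hφ i, ← hφ j, hij]
  · intro e
    constructor
    · intro he
      exact ⟨π e, hφπ e he⟩
    · rintro ⟨i, rfl⟩
      exact hφS i
  · intro i
    refine ⟨mask M.S fun e => rows i (π e), ?_, fun j => ?_⟩
    · refine mem_R_of_orth M (fun e he => mask_not_mem he _) fun z hz => ?_
      obtain ⟨w, hw, hwz⟩ := (h3 z hz.1).1 hz
      refine Eq.trans ?_ (hw i)
      unfold dot
      rw [hsum _ fun e he => by rw [mask_not_mem he, zero_mul]]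
      refine Finset.sum_congr rfl fun j _ => ?_
      rw [mask_mem (hφS j), hwz _ (hφS j), hφ j]
    · rw [mask_mem (hφS j), hφ j]
  · intro f hf
    have h4 : (fun j => f (φ j)) ∈ (ofRows rows).R := by
      refine mem_R_of_orth (ofRows rows) (fun e he => absurd (Finset.mem_univ e) he)
        fun w hw => ?_
      have h5 : ∀ i, ∑ j, rows i j * w j = 0 := fun i =>
        hw.2 (rows i) (Submodule.subset_span ⟨i, rfl⟩)
      have h6 : mask M.S (fun e => w (π e)) ∈ M.Z := by
        refine (h3 _ fun e he => mask_not_mem he _).2 ⟨w, h5, fun e he => mask_mem he _⟩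
      refine Eq.trans ?_ (h6.2 f hf)
      unfold dot
      rw [hsum _ fun e he => by rw [mask_not_mem he, mul_zero]]
      refine Finset.sum_congr rfl fun j _ => ?_
      rw [mask_mem (hφS j), hφ j]
    obtain ⟨c, hc⟩ := (Submodule.mem_span_range_iff_exists_fun (ZMod 2)).1 h4
    refine ⟨c, fun j => ?_⟩
    have h5 := congrFun hc j
    rw [← h5, Finset.sum_apply]
    rfl

theorem bg_has_main {r k : ℕ} (rows : Fin r → Fin k → ZMod 2) (h0 : (ofRows rows).TC) (M : BM E)
    (h : M.TC) (hT : HasT rows M) (hI : ¬ IsIso rows M) :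
    ∃ e ∈ M.S, (M.del {e}).SC ∧ HasT rows (M.del {e}) := by
  obtain ⟨A0, π, hsub⟩ := hT
  obtain ⟨hsc, hser⟩ := SC_of_Sub rows h0 M A0 π hsub
  have hA0 : A0 ⊂ M.S := by
    refine Finset.ssubset_iff_subset_ne.2 ⟨hsub.1, fun hE => ?_⟩
    subst hE
    rw [res_self] at hser
    exact hI (iso_of_sub rows M π hsub fun a ha b hb hab =>
      ((TC_iff_SC M).1 h).2 a ha b hb ((hser a ha b hb).2 hab))
  obtain ⟨e, he, h1, h2⟩ := bg_main M h (fun A => HasT rows (M.res A))
    (fun A B hAB hB hA => by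
      have h3 : M.res A = (M.res B).del (B \ A) := by
        rw [del_eq_res, res_S M hB, Finset.sdiff_sdiff_eq_self hAB, res_res M hAB]
      rw [h3] at hA
      exact HasT_of_del hA)
    (fun A x P hA hx hP hz hQ => by
      refine HasT_switch h0 A hA x hx P (hP.sub.trans Finset.sdiff_subset) ?_ hP.ne hz
        hP.2.2.2 hQ
      rw [Finset.disjoint_left]
      exact hP.not_mem)
    A0 hA0 hsc ⟨A0, π, sub_res hsub⟩
  refine ⟨e, he, h1, ?_⟩
  rw [del_eq_res, Finset.sdiff_singleton_eq_erase]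
  exact h2

end BG

end SEY

end

section

/-!
# Block CONV of project SEY: every 3-connected binary matroid without `F7*` minor contains a
series extension of `K4`

`Theta M P Q R`: the restriction of `M` to `P ∪ Q ∪ R` is a theta graph with paths `P`, `Q`, `R`.
An ear of a theta which splits two paths gives `K4`, an ear which splits three paths gives `F7*`.
If no ear splits two paths, then (S3) shows that all paths have one element, so that `P ∪ Q` is a
cycle with two elements.
-/

set_option autoImplicit false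

namespace SEY

open Finset

variable {E : Type} [Fintype E] [DecidableEq E]

namespace CV

/-- A theta graph with paths `P`, `Q`, `R`. -/
structure Theta (M : BM E) (P Q R : Finset E) : Prop where
  pq : Disjoint P Q
  pr : Disjoint P R
  qr : Disjoint Q R
  pS : P ⊆ M.S
  qS : Q ⊆ M.S
  rS : R ⊆ M.S
  pn : P.Nonempty
  qn : Q.Nonempty
  rn : R.Nonempty
  zpq : ind (P ∪ Q) ∈ M.Z
  zpr : ind (P ∪ R) ∈ M.Z
  cyc : ∀ z ∈ M.Z, (∀ e, e ∉ P → e ∉ Q → e ∉ R → z e = 0) →
    z = 0 ∨ z = ind (P ∪ Q) ∨ z = ind (P ∪ R) ∨ z = ind (Q ∪ R)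

theorem ind_qr {P Q R : Finset E} (pq : Disjoint P Q) (pr : Disjoint P R) (qr : Disjoint Q R) :
    (ind (Q ∪ R) : E → ZMod 2) = ind (P ∪ Q) + ind (P ∪ R) := by
  funext e
  rw [Pi.add_apply]
  by_cases hp : e ∈ P
  · rw [ind_mem (mem_union_left Q hp), ind_mem (mem_union_left R hp), ind_not_mem]
    · decide
    · rw [mem_union, not_or]
      exact ⟨Finset.disjoint_left.1 pq hp, Finset.disjoint_left.1 pr hp⟩
  · by_cases hq : e ∈ Q
    · rw [ind_mem (mem_union_left R hq), ind_mem (mem_union_right P hq), ind_not_mem, add_zero]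
      rw [mem_union, not_or]
      exact ⟨hp, Finset.disjoint_left.1 qr hq⟩
    · by_cases hr : e ∈ R
      · rw [ind_mem (mem_union_right Q hr), ind_mem (mem_union_right P hr), ind_not_mem, zero_add]
        rw [mem_union, not_or]
        exact ⟨hp, hq⟩
      · rw [ind_not_mem, ind_not_mem, ind_not_mem, add_zero]
        · rw [mem_union, not_or]
          exact ⟨hp, hr⟩
        · rw [mem_union, not_or]
          exact ⟨hp, hq⟩
        · rw [mem_union, not_or]
          exact ⟨hq, hr⟩

theorem Theta.zqr {M : BM E} {P Q R : Finset E} (h : Theta M P Q R) : ind (Q ∪ R) ∈ M.Z := by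
  rw [ind_qr h.pq h.pr h.qr]
  exact M.Z.add_mem h.zpq h.zpr

theorem Theta.swap {M : BM E} {P Q R : Finset E} (h : Theta M P Q R) : Theta M Q P R where
  pq := h.pq.symm
  pr := h.qr
  qr := h.pr
  pS := h.qS
  qS := h.pS
  rS := h.rS
  pn := h.qn
  qn := h.pn
  rn := h.rn
  zpq := by
    rw [Finset.union_comm]
    exact h.zpq
  zpr := h.zqr
  cyc := by
    intro z hz hz0
    rw [Finset.union_comm Q P]
    rcases h.cyc z hz (fun e h1 h2 h3 => hz0 e h2 h1 h3) with h1 | h1 | h1 | h1
    · exact Or.inl h1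
    · exact Or.inr (Or.inl h1)
    · exact Or.inr (Or.inr (Or.inr h1))
    · exact Or.inr (Or.inr (Or.inl h1))

theorem Theta.swap' {M : BM E} {P Q R : Finset E} (h : Theta M P Q R) : Theta M P R Q where
  pq := h.pr
  pr := h.pq
  qr := h.qr.symm
  pS := h.pS
  qS := h.rS
  rS := h.qS
  pn := h.pn
  qn := h.rn
  rn := h.qn
  zpq := h.zpr
  zpr := h.zpq
  cyc := by
    intro z hz hz0
    rw [Finset.union_comm R Q]
    rcases h.cyc z hz (fun e h1 h2 h3 => hz0 e h1 h3 h2) with h1 | h1 | h1 | h1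
    · exact Or.inl h1
    · exact Or.inr (Or.inr (Or.inl h1))
    · exact Or.inr (Or.inl h1)
    · exact Or.inr (Or.inr (Or.inr h1))

/-- A restriction with prescribed columns of a basis of the cycles is a series extension. -/
theorem hasT_of_cols {r s k : ℕ} {rows : Fin r → Fin k → ZMod 2} {duals : Fin s → Fin k → ZMod 2}
    (hc : Compl rows duals) (M : BM E) (A : Finset E) (hA : A ⊆ M.S) (z : Fin s → E → ZMod 2)
    (hz : ∀ j, z j ∈ M.Z) (hz0 : ∀ j e, e ∉ A → z j e = 0)
    (hspan : ∀ y ∈ M.Z, (∀ e, e ∉ A → y e = 0) → ∃ a : Fin s → ZMod 2, ∀ e,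
      y e = ∑ j, a j * z j e)
    (π : E → Fin k) (hπ : ∀ e ∈ A, ∀ j, duals j (π e) = z j e)
    (hsurj : ∀ i, ∃ e ∈ A, π e = i) : HasT rows M := by
  refine ⟨A, π, hA, hsurj, fun y hy => ?_⟩
  constructor
  · intro hyZ
    obtain ⟨a, ha⟩ := hspan y hyZ hy
    refine ⟨fun i => ∑ j, a j * duals j i, fun i => ?_, fun e he => ?_⟩
    · have := (hc.symm.span (fun i => ∑ j, a j * duals j i)).1 ⟨a, fun e => rfl⟩ i
      rw [← this]
      exact Finset.sum_congr rfl fun e _ => mul_comm _ _
    · rw [ha e]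
      exact Finset.sum_congr rfl fun j _ => by rw [hπ e he j]
  · rintro ⟨w, hw, hwy⟩
    obtain ⟨a, ha⟩ := (hc.symm.span w).2 fun i => by
      rw [← hw i]
      exact Finset.sum_congr rfl fun e _ => mul_comm _ _
    have h3 : y = ∑ j, a j • z j := by
      funext e
      rw [Finset.sum_apply]
      by_cases he : e ∈ A
      · rw [hwy e he, ha]
        exact Finset.sum_congr rfl fun j _ => by
          rw [Pi.smul_apply, smul_eq_mul, hπ e he j]
      · rw [hy e he]
        refine (Finset.sum_eq_zero fun j _ => ?_).symm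
        rw [Pi.smul_apply, hz0 j e he, smul_zero]
    rw [h3]
    exact Submodule.sum_mem _ fun j _ => M.Z.smul_mem _ (hz j)

/-- The three cycles. -/
def zb (P Q R : Finset E) (z : E → ZMod 2) : Fin 3 → E → ZMod 2 :=
  ![ind (P ∪ R), z, ind (P ∪ Q) + z]

/-- The vector of the three values. -/
def col (P Q R : Finset E) (z : E → ZMod 2) (e : E) : Fin 3 → ZMod 2 :=
  fun j => zb P Q R z j e

section ear

variable {M : BM E} {P Q R W : Finset E} {z : E → ZMod 2}

theorem col_p (h : Theta M P Q R) {e : E} (he : e ∈ P) :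
    col P Q R z e = ![1, z e, 1 + z e] := by
  funext j
  fin_cases j
  · exact ind_mem (mem_union_left _ he)
  · rfl
  · change (ind (P ∪ Q) + z) e = _
    rw [Pi.add_apply, ind_mem (mem_union_left _ he)]
    rfl

theorem col_q (h : Theta M P Q R) {e : E} (he : e ∈ Q) :
    col P Q R z e = ![0, z e, 1 + z e] := by
  have hp := Finset.disjoint_right.1 h.pq he
  have hr := Finset.disjoint_left.1 h.qr he
  funext j
  fin_cases j
  · refine ind_not_mem ?_
    rw [mem_union, not_or]
    exact ⟨hp, hr⟩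
  · rfl
  · change (ind (P ∪ Q) + z) e = _
    rw [Pi.add_apply, ind_mem (mem_union_right _ he)]
    rfl

theorem col_r (h : Theta M P Q R) {e : E} (he : e ∈ R) :
    col P Q R z e = ![1, z e, z e] := by
  have hp := Finset.disjoint_right.1 h.pr he
  have hq := Finset.disjoint_right.1 h.qr he
  funext j
  fin_cases j
  · exact ind_mem (mem_union_right _ he)
  · rfl
  · change (ind (P ∪ Q) + z) e = _
    rw [Pi.add_apply, ind_not_mem, zero_add]
    · rfl
    · rw [mem_union, not_or]
      exact ⟨hp, hq⟩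

theorem col_w (h : Theta M P Q R) (hW : Ear M (P ∪ Q ∪ R) W)
    (hzW : ∀ e, e ∉ P ∪ Q ∪ R → z e = ind W e) {e : E} (he : e ∈ W) :
    col P Q R z e = ![0, 1, 1] := by
  have hA := hW.not_mem e he
  rw [mem_union, mem_union, not_or, not_or] at hA
  have hze : z e = 1 := by
    rw [hzW e (hW.not_mem e he), ind_mem he]
  funext j
  fin_cases j
  · refine ind_not_mem ?_
    rw [mem_union, not_or]
    exact ⟨hA.1.1, hA.2⟩
  · exact hze
  · change (ind (P ∪ Q) + z) e = _
    rw [Pi.add_apply, hze, ind_not_mem, zero_add]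
    · rfl
    · rw [mem_union, not_or]
      exact hA.1

theorem zb_mem (h : Theta M P Q R) (hz : z ∈ M.Z) (j : Fin 3) : zb P Q R z j ∈ M.Z := by
  fin_cases j
  · exact h.zpr
  · exact hz
  · exact M.Z.add_mem h.zpq hz

theorem zb_out (hzW : ∀ e, e ∉ P ∪ Q ∪ R → z e = ind W e) (j : Fin 3) (e : E)
    (he : e ∉ P ∪ Q ∪ R ∪ W) : zb P Q R z j e = 0 := by
  rw [mem_union, not_or] at he
  have hze : z e = 0 := by
    rw [hzW e he.1, ind_not_mem he.2]
  have hA := he.1
  rw [mem_union, mem_union, not_or, not_or] at hA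
  fin_cases j
  · refine ind_not_mem ?_
    rw [mem_union, not_or]
    exact ⟨hA.1.1, hA.2⟩
  · exact hze
  · change (ind (P ∪ Q) + z) e = _
    rw [Pi.add_apply, hze, ind_not_mem, zero_add]
    rw [mem_union, not_or]
    exact hA.1

theorem zb_span (h : Theta M P Q R) (hW : Ear M (P ∪ Q ∪ R) W) (hz : z ∈ M.Z)
    (hzW : ∀ e, e ∉ P ∪ Q ∪ R → z e = ind W e) (y : E → ZMod 2) (hy : y ∈ M.Z)
    (hy0 : ∀ e, e ∉ P ∪ Q ∪ R ∪ W → y e = 0) :
    ∃ a : Fin 3 → ZMod 2, ∀ e, y e = ∑ j, a j * zb P Q R z j e := by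
  have key : ∀ x ∈ M.Z, (∀ e, e ∉ P ∪ Q ∪ R → x e = 0) →
      ∃ a : Fin 3 → ZMod 2, ∀ e, x e = ∑ j, a j * zb P Q R z j e := by
    intro x hx hx0
    have e0 : ∀ e, zb P Q R z 0 e = ind (P ∪ R) e := fun e => rfl
    have e1 : ∀ e, zb P Q R z 1 e = z e := fun e => rfl
    have e2 : ∀ e, zb P Q R z 2 e = ind (P ∪ Q) e + z e := fun e => rfl
    have hcalc : ∀ a b : ZMod 2, a = b + (a + b) := by decide
    rcases h.cyc x hx (fun e h1 h2 h3 => hx0 e (by
      rw [mem_union, mem_union, not_or, not_or]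
      exact ⟨⟨h1, h2⟩, h3⟩)) with h1 | h1 | h1 | h1
    · refine ⟨0, fun e => ?_⟩
      rw [h1, Fin.sum_univ_three]
      simp
    · refine ⟨![0, 1, 1], fun e => ?_⟩
      rw [h1, Fin.sum_univ_three, e0, e1, e2]
      change _ = 0 * _ + 1 * z e + 1 * (ind (P ∪ Q) e + z e)
      rw [zero_mul, one_mul, one_mul, zero_add]
      exact hcalc _ _
    · refine ⟨![1, 0, 0], fun e => ?_⟩
      rw [h1, Fin.sum_univ_three, e0, e1, e2]
      change _ = 1 * ind (P ∪ R) e + 0 * z e + 0 * (ind (P ∪ Q) e + z e)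
      rw [zero_mul, one_mul, zero_mul, add_zero, add_zero]
    · refine ⟨![1, 1, 1], fun e => ?_⟩
      rw [h1, ind_qr h.pq h.pr h.qr, Fin.sum_univ_three, e0, e1, e2]
      change _ = 1 * ind (P ∪ R) e + 1 * z e + 1 * (ind (P ∪ Q) e + z e)
      rw [one_mul, one_mul, one_mul, Pi.add_apply]
      have : ∀ a b c : ZMod 2, a + b = b + c + (a + c) := by decide
      exact this _ _ _
  rcases hW.2.2.2 y hy hy0 with h1 | h1
  · refine key y hy fun e he => ?_
    by_cases heW : e ∈ W
    · exact h1 e heW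
    · exact hy0 e fun h2 => (mem_union.1 h2).elim he heW
  · obtain ⟨a, ha⟩ := key (y + z) (M.Z.add_mem hy hz) fun e he => by
      rw [Pi.add_apply, hzW e he]
      by_cases heW : e ∈ W
      · rw [h1 e heW, ind_mem heW]
        decide
      · rw [ind_not_mem heW, add_zero]
        exact hy0 e fun h2 => (mem_union.1 h2).elim he heW
    refine ⟨a + ![0, 1, 0], fun e => ?_⟩
    have h2 := ha e
    rw [Fin.sum_univ_three] at h2 ⊢
    have h3 : y e = (y + z) e + z e := by
      rw [Pi.add_apply, add_assoc, z_add_self, add_zero]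
    rw [h3, h2]
    change _ = (a 0 + 0) * _ + (a 1 + 1) * _ + (a 2 + 0) * _
    have e1 : zb P Q R z 1 e = z e := rfl
    rw [e1]
    ring

/-- Index of the column in `K4s`. -/
def gK (x : Fin 3 → ZMod 2) : Fin 6 :=
  if x = ![1, 1, 0] then 0 else if x = ![1, 0, 1] then 1 else if x = ![0, 1, 1] then 2 else
    if x = ![1, 0, 0] then 3 else if x = ![0, 1, 0] then 4 else 5

/-- Index of the column in `F7`. -/
def gF (x : Fin 3 → ZMod 2) : Fin 7 :=
  if x = ![1, 0, 0] then 0 else if x = ![0, 1, 0] then 1 else if x = ![0, 0, 1] then 2 else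
    if x = ![1, 1, 0] then 3 else if x = ![1, 0, 1] then 4 else if x = ![0, 1, 1] then 5 else 6

theorem gK_spec : ∀ x : Fin 3 → ZMod 2, x ≠ 0 → x ≠ ![1, 1, 1] → ∀ j, K4s j (gK x) = x j := by
  decide

theorem gF_spec : ∀ x : Fin 3 → ZMod 2, x ≠ 0 → ∀ j, F7 j (gF x) = x j := by
  decide

/-- The ear splits `P` and `Q` and does not touch `R`. -/
theorem ear_K4 (h : Theta M P Q R) (hW : Ear M (P ∪ Q ∪ R) W) (hz : z ∈ M.Z)
    (hzW : ∀ e, e ∉ P ∪ Q ∪ R → z e = ind W e) (hP0 : ∃ e ∈ P, z e = 0) (hP1 : ∃ e ∈ P, z e = 1)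
    (hQ0 : ∃ e ∈ Q, z e = 0) (hQ1 : ∃ e ∈ Q, z e = 1) (hR : ∀ e ∈ R, z e = 0) : HasT K4 M := by
  have hWS : W ⊆ M.S := hW.sub.trans Finset.sdiff_subset
  refine hasT_of_cols compl_K4 M (P ∪ Q ∪ R ∪ W) ?_ (zb P Q R z) (zb_mem h hz)
    (zb_out hzW) (zb_span h hW hz hzW) (fun e => gK (col P Q R z e)) ?_ ?_
  · exact Finset.union_subset (Finset.union_subset (Finset.union_subset h.pS h.qS) h.rS) hWS
  · intro e he j
    have h1 : col P Q R z e ≠ 0 ∧ col P Q R z e ≠ ![1, 1, 1] := by
      rw [mem_union, mem_union, mem_union] at he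
      rcases he with ((he | he) | he) | he
      · rw [col_p h he]
        rcases zcases (z e) with h2 | h2 <;> rw [h2] <;> decide
      · rw [col_q h he]
        rcases zcases (z e) with h2 | h2 <;> rw [h2] <;> decide
      · rw [col_r h he, hR e he]
        decide
      · rw [col_w h hW hzW he]
        decide
    exact gK_spec _ h1.1 h1.2 j
  · obtain ⟨p0, hp0, zp0⟩ := hP0
    obtain ⟨p1, hp1, zp1⟩ := hP1
    obtain ⟨q0, hq0, zq0⟩ := hQ0
    obtain ⟨q1, hq1, zq1⟩ := hQ1
    obtain ⟨r0, hr0⟩ := h.rn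
    obtain ⟨w0, hw0⟩ := hW.ne
    intro i
    fin_cases i
    · refine ⟨p1, by simp [hp1], ?_⟩
      change gK _ = _
      rw [col_p h hp1, zp1]
      decide
    · refine ⟨p0, by simp [hp0], ?_⟩
      change gK _ = _
      rw [col_p h hp0, zp0]
      decide
    · refine ⟨w0, by simp [hw0], ?_⟩
      change gK _ = _
      rw [col_w h hW hzW hw0]
      decide
    · refine ⟨r0, by simp [hr0], ?_⟩
      change gK _ = _
      rw [col_r h hr0, hR r0 hr0]
      decide
    · refine ⟨q1, by simp [hq1], ?_⟩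
      change gK _ = _
      rw [col_q h hq1, zq1]
      decide
    · refine ⟨q0, by simp [hq0], ?_⟩
      change gK _ = _
      rw [col_q h hq0, zq0]
      decide

/-- The ear splits all three paths. -/
theorem ear_F7s (h : Theta M P Q R) (hW : Ear M (P ∪ Q ∪ R) W) (hz : z ∈ M.Z)
    (hzW : ∀ e, e ∉ P ∪ Q ∪ R → z e = ind W e) (hP0 : ∃ e ∈ P, z e = 0) (hP1 : ∃ e ∈ P, z e = 1)
    (hQ0 : ∃ e ∈ Q, z e = 0) (hQ1 : ∃ e ∈ Q, z e = 1) (hR0 : ∃ e ∈ R, z e = 0)
    (hR1 : ∃ e ∈ R, z e = 1) : HasT F7s M := by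
  have hWS : W ⊆ M.S := hW.sub.trans Finset.sdiff_subset
  refine hasT_of_cols compl_F7.symm M (P ∪ Q ∪ R ∪ W) ?_ (zb P Q R z) (zb_mem h hz)
    (zb_out hzW) (zb_span h hW hz hzW) (fun e => gF (col P Q R z e)) ?_ ?_
  · exact Finset.union_subset (Finset.union_subset (Finset.union_subset h.pS h.qS) h.rS) hWS
  · intro e he j
    have h1 : col P Q R z e ≠ 0 := by
      rw [mem_union, mem_union, mem_union] at he
      rcases he with ((he | he) | he) | he
      · rw [col_p h he]
        rcases zcases (z e) with h2 | h2 <;> rw [h2] <;> decide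
      · rw [col_q h he]
        rcases zcases (z e) with h2 | h2 <;> rw [h2] <;> decide
      · rw [col_r h he]
        rcases zcases (z e) with h2 | h2 <;> rw [h2] <;> decide
      · rw [col_w h hW hzW he]
        decide
    exact gF_spec _ h1 j
  · obtain ⟨p0, hp0, zp0⟩ := hP0
    obtain ⟨p1, hp1, zp1⟩ := hP1
    obtain ⟨q0, hq0, zq0⟩ := hQ0
    obtain ⟨q1, hq1, zq1⟩ := hQ1
    obtain ⟨r0, hr0, zr0⟩ := hR0
    obtain ⟨r1, hr1, zr1⟩ := hR1
    obtain ⟨w0, hw0⟩ := hW.ne
    intro i
    fin_cases i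
    · refine ⟨r0, by simp [hr0], ?_⟩
      change gF _ = _
      rw [col_r h hr0, zr0]
      decide
    · refine ⟨q1, by simp [hq1], ?_⟩
      change gF _ = _
      rw [col_q h hq1, zq1]
      decide
    · refine ⟨q0, by simp [hq0], ?_⟩
      change gF _ = _
      rw [col_q h hq0, zq0]
      decide
    · refine ⟨p1, by simp [hp1], ?_⟩
      change gF _ = _
      rw [col_p h hp1, zp1]
      decide
    · refine ⟨p0, by simp [hp0], ?_⟩
      change gF _ = _
      rw [col_p h hp0, zp0]
      decide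
    · refine ⟨w0, by simp [hw0], ?_⟩
      change gF _ = _
      rw [col_w h hW hzW hw0]
      decide
    · refine ⟨r1, by simp [hr1], ?_⟩
      change gF _ = _
      rw [col_r h hr1, zr1]
      decide

theorem union_perm (P Q R : Finset E) : P ∪ Q ∪ R = Q ∪ P ∪ R := by
  rw [Finset.union_comm P Q]

theorem union_perm' (P Q R : Finset E) : P ∪ Q ∪ R = P ∪ R ∪ Q := by
  rw [Finset.union_assoc, Finset.union_comm Q R, ← Finset.union_assoc]

/-- The ear splits `P` and `Q`. -/
theorem ear_two (h : Theta M P Q R) (hF : ¬ HasMinor F7s M) (hW : Ear M (P ∪ Q ∪ R) W)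
    (hz : z ∈ M.Z) (hzW : ∀ e, e ∉ P ∪ Q ∪ R → z e = ind W e) (hP0 : ∃ e ∈ P, z e = 0)
    (hP1 : ∃ e ∈ P, z e = 1) (hQ0 : ∃ e ∈ Q, z e = 0) (hQ1 : ∃ e ∈ Q, z e = 1) :
    HasT K4 M := by
  by_cases hR1 : ∃ e ∈ R, z e = 1
  · by_cases hR0 : ∃ e ∈ R, z e = 0
    · exact absurd (HasMinor_of_HasT (ear_F7s h hW hz hzW hP0 hP1 hQ0 hQ1 hR0 hR1)) hF
    · -- add the cycle `P ∪ R`
      have hR : ∀ e ∈ R, z e = 1 := fun e he => z_ne_zero.1 fun h1 => hR0 ⟨e, he, h1⟩
      have hp : ∀ e ∈ P, (z + ind (P ∪ R)) e = z e + 1 := fun e he => by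
        rw [Pi.add_apply, ind_mem (mem_union_left _ he)]
      have hq : ∀ e ∈ Q, (z + ind (P ∪ R)) e = z e := fun e he => by
        rw [Pi.add_apply, ind_not_mem, add_zero]
        rw [mem_union, not_or]
        exact ⟨Finset.disjoint_right.1 h.pq he, Finset.disjoint_left.1 h.qr he⟩
      refine ear_K4 h hW (z := z + ind (P ∪ R)) (M.Z.add_mem hz h.zpr) (fun e he => ?_) ?_ ?_ ?_
        ?_ (fun e he => ?_)
      · rw [Pi.add_apply, hzW e he, ind_not_mem (A := P ∪ R), add_zero]
        rw [mem_union, mem_union, not_or, not_or] at he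
        rw [mem_union, not_or]
        exact ⟨he.1.1, he.2⟩
      · obtain ⟨e, he, h1⟩ := hP1
        exact ⟨e, he, by rw [hp e he, h1]; decide⟩
      · obtain ⟨e, he, h1⟩ := hP0
        exact ⟨e, he, by rw [hp e he, h1]; decide⟩
      · obtain ⟨e, he, h1⟩ := hQ0
        exact ⟨e, he, by rw [hq e he, h1]⟩
      · obtain ⟨e, he, h1⟩ := hQ1
        exact ⟨e, he, by rw [hq e he, h1]⟩
      · rw [Pi.add_apply, hR e he, ind_mem (mem_union_right _ he)]
        decide
  · exact ear_K4 h hW hz hzW hP0 hP1 hQ0 hQ1 fun e he => z_ne_one.1 fun h1 => hR1 ⟨e, he, h1⟩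

/-- An ear which is constant on `P` and on `Q` has its sum in the span of `R`. -/
theorem ear_hat (h : Theta M P Q R) (hW : Ear M (P ∪ Q ∪ R) W)
    (hz : z ∈ M.Z) (hzW : ∀ e, e ∉ P ∪ Q ∪ R → z e = ind W e)
    (hP : ¬ ((∃ e ∈ P, z e = 0) ∧ ∃ e ∈ P, z e = 1))
    (hQ : ¬ ((∃ e ∈ Q, z e = 0) ∧ ∃ e ∈ Q, z e = 1)) : Hat M W R := by
  have hzR : ∀ (X : Finset E) (y : E → ZMod 2), ¬ ((∃ e ∈ X, y e = 0) ∧ ∃ e ∈ X, y e = 1) →
      (∀ e ∈ X, y e = 0) ∨ ∀ e ∈ X, y e = 1 := by
    intro X y h1
    by_cases h2 : ∃ e ∈ X, y e = 0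
    · left
      intro e he
      exact z_ne_one.1 fun h3 => h1 ⟨h2, e, he, h3⟩
    · right
      intro e he
      exact z_ne_zero.1 fun h3 => h2 ⟨e, he, h3⟩
  have hWout : ∀ e ∈ W, e ∉ P ∧ e ∉ Q ∧ e ∉ R := by
    intro e he
    have h1 := hW.not_mem e he
    rw [mem_union, mem_union, not_or, not_or] at h1
    exact ⟨h1.1.1, h1.1.2, h1.2⟩
  -- make it zero on `P`
  obtain ⟨y, hy, hyo, hyP, hyQ⟩ : ∃ y ∈ M.Z, (∀ e, e ∉ P ∪ Q ∪ R → y e = ind W e) ∧
      (∀ e ∈ P, y e = 0) ∧ ∀ e ∈ Q, y e = z e := by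
    rcases hzR P z hP with h1 | h1
    · exact ⟨z, hz, hzW, h1, fun _ _ => rfl⟩
    · refine ⟨z + ind (P ∪ R), M.Z.add_mem hz h.zpr, fun e he => ?_, fun e he => ?_,
        fun e he => ?_⟩
      · rw [Pi.add_apply, hzW e he, ind_not_mem (A := P ∪ R), add_zero]
        rw [mem_union, mem_union, not_or, not_or] at he
        rw [mem_union, not_or]
        exact ⟨he.1.1, he.2⟩
      · rw [Pi.add_apply, h1 e he, ind_mem (mem_union_left _ he)]
        decide
      · rw [Pi.add_apply, ind_not_mem, add_zero]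
        rw [mem_union, not_or]
        exact ⟨Finset.disjoint_right.1 h.pq he, Finset.disjoint_left.1 h.qr he⟩
  have hQ' : ¬ ((∃ e ∈ Q, y e = 0) ∧ ∃ e ∈ Q, y e = 1) := by
    rintro ⟨⟨e, he, h1⟩, e', he', h2⟩
    exact hQ ⟨⟨e, he, by rw [← hyQ e he, h1]⟩, e', he', by rw [← hyQ e' he', h2]⟩
  rcases hzR Q y hQ' with h1 | h1
  · refine ⟨y, hy, fun e he => by rw [hyo e (hW.not_mem e he), ind_mem he], fun e heW heR => ?_⟩
    by_cases heP : e ∈ P
    · exact hyP e heP
    · by_cases heQ : e ∈ Q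
      · exact h1 e heQ
      · rw [hyo e, ind_not_mem heW]
        rw [mem_union, mem_union, not_or, not_or]
        exact ⟨⟨heP, heQ⟩, heR⟩
  · refine ⟨y + ind (Q ∪ R), M.Z.add_mem hy h.zqr, fun e he => ?_, fun e heW heR => ?_⟩
    · obtain ⟨h2, h3, h4⟩ := hWout e he
      rw [Pi.add_apply, hyo e (hW.not_mem e he), ind_mem he, ind_not_mem, add_zero]
      rw [mem_union, not_or]
      exact ⟨h3, h4⟩
    · rw [Pi.add_apply]
      by_cases heP : e ∈ P
      · rw [hyP e heP, ind_not_mem, add_zero]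
        rw [mem_union, not_or]
        exact ⟨Finset.disjoint_left.1 h.pq heP, heR⟩
      · by_cases heQ : e ∈ Q
        · rw [h1 e heQ, ind_mem (mem_union_left _ heQ)]
          decide
        · rw [hyo e, ind_not_mem heW, ind_not_mem, add_zero]
          · rw [mem_union, not_or]
            exact ⟨heQ, heR⟩
          · rw [mem_union, mem_union, not_or, not_or]
            exact ⟨⟨heP, heQ⟩, heR⟩

end ear

/-- All ears have their sum in the span of one path. -/
theorem all_hat {M : BM E} {P Q R : Finset E} (h : Theta M P Q R) (hF : ¬ HasMinor F7s M)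
    (hK : ¬ HasT K4 M) {W : Finset E} (hW : Ear M (P ∪ Q ∪ R) W) :
    Hat M W P ∨ Hat M W Q ∨ Hat M W R := by
  obtain ⟨z, hz, hzW⟩ := hW.ex
  by_cases hP : (∃ e ∈ P, z e = 0) ∧ ∃ e ∈ P, z e = 1
  · by_cases hQ : (∃ e ∈ Q, z e = 0) ∧ ∃ e ∈ Q, z e = 1
    · exact absurd (ear_two h hF hW hz hzW hP.1 hP.2 hQ.1 hQ.2) hK
    · by_cases hR : (∃ e ∈ R, z e = 0) ∧ ∃ e ∈ R, z e = 1
      · rw [union_perm'] at hW hzW
        exact absurd (ear_two h.swap' hF hW hz hzW hP.1 hP.2 hR.1 hR.2) hK
      · left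
        have e1 : P ∪ Q ∪ R = R ∪ Q ∪ P := by
          rw [Finset.union_comm, ← Finset.union_assoc, union_perm' R P Q]
        rw [e1] at hW hzW
        exact ear_hat h.swap'.swap.swap' hW hz hzW hR hQ
  · by_cases hQ : (∃ e ∈ Q, z e = 0) ∧ ∃ e ∈ Q, z e = 1
    · by_cases hR : (∃ e ∈ R, z e = 0) ∧ ∃ e ∈ R, z e = 1
      · have e1 : P ∪ Q ∪ R = Q ∪ R ∪ P := by
          rw [union_perm, union_perm']
        rw [e1] at hW hzW
        exact absurd (ear_two h.swap.swap' hF hW hz hzW hQ.1 hQ.2 hR.1 hR.2) hK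
      · right; left
        rw [union_perm'] at hW hzW
        exact ear_hat h.swap' hW hz hzW hP hR
    · right; right
      exact ear_hat h hW hz hzW hP hQ

theorem hat_mono {M : BM E} {W V V' : Finset E} (hV : V ⊆ V') (h : Hat M W V) : Hat M W V' := by
  obtain ⟨z, hz, h1, h2⟩ := h
  exact ⟨z, hz, h1, fun e he he' => h2 e he fun h3 => he' (hV h3)⟩

/-- If all ears have their sum in the span of a path, the path has one element. -/
theorem path_one {M : BM E} (hM : M.TC) {P Q R : Finset E} (h : Theta M P Q R)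
    (hall : ∀ W, Ear M (P ∪ Q ∪ R) W → Hat M W P ∨ Hat M W Q ∨ Hat M W R) : P.card ≤ 1 := by
  have hA : P ∪ Q ∪ R ⊆ M.S := Finset.union_subset (Finset.union_subset h.pS h.qS) h.rS
  have hPA : P ⊆ P ∪ Q ∪ R := Finset.subset_union_left.trans Finset.subset_union_left
  have hsd : (P ∪ Q ∪ R) \ P = Q ∪ R := by
    ext e
    rw [mem_sdiff, mem_union, mem_union, mem_union]
    constructor
    · rintro ⟨(h1 | h1) | h1, h2⟩
      · exact absurd h1 h2
      · exact Or.inl h1
      · exact Or.inr h1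
    · rintro (h1 | h1)
      · exact ⟨Or.inl (Or.inr h1), Finset.disjoint_right.1 h.pq h1⟩
      · exact ⟨Or.inr h1, Finset.disjoint_right.1 h.pr h1⟩
  have h1 := BG.ear_lam M hA hPA fun W hW => by
    rw [hsd]
    rcases hall W hW with h2 | h2 | h2
    · exact Or.inl h2
    · exact Or.inr (hat_mono Finset.subset_union_left h2)
    · exact Or.inr (hat_mono Finset.subset_union_right h2)
  have h2 := BG.lam_res_add M hA hPA
  rw [hsd] at h1 h2
  have h3 : BG.nu M (P ∪ Q ∪ R) ≤ 2 := by
    have h4 : Zs M (P ∪ Q ∪ R) ≤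
        Submodule.span (ZMod 2) (({ind (P ∪ Q), ind (P ∪ R)} : Finset (E → ZMod 2)) :
          Set (E → ZMod 2)) := by
      rintro z ⟨hz, hz0⟩
      have ha : (ind (P ∪ Q) : E → ZMod 2) ∈ Submodule.span (ZMod 2)
          (({ind (P ∪ Q), ind (P ∪ R)} : Finset (E → ZMod 2)) : Set (E → ZMod 2)) :=
        Submodule.subset_span (by simp)
      have hb : (ind (P ∪ R) : E → ZMod 2) ∈ Submodule.span (ZMod 2)
          (({ind (P ∪ Q), ind (P ∪ R)} : Finset (E → ZMod 2)) : Set (E → ZMod 2)) :=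
        Submodule.subset_span (by simp)
      rcases h.cyc z hz (fun e h1 h2 h3 => hz0 e (by
        rw [mem_union, mem_union, not_or, not_or]
        exact ⟨⟨h1, h2⟩, h3⟩)) with h5 | h5 | h5 | h5
      · rw [h5]
        exact Submodule.zero_mem _
      · rw [h5]
        exact ha
      · rw [h5]
        exact hb
      · rw [h5, ind_qr h.pq h.pr h.qr]
        exact Submodule.add_mem _ ha hb
    refine (Submodule.finrank_mono h4).trans ((finrank_span_finset_le_card _).trans ?_)
    exact Finset.card_le_two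
  have h4 : 1 ≤ BG.nu M (Q ∪ R) := by
    have h5 : ind (Q ∪ R) ∈ Zs M (Q ∪ R) := ⟨h.zqr, fun e he => ind_not_mem he⟩
    obtain ⟨q, hq⟩ := h.qn
    have h6 : (ind (Q ∪ R) : E → ZMod 2) ≠ 0 := by
      intro h7
      have := congrFun h7 q
      rw [ind_mem (mem_union_left _ hq)] at this
      exact one_ne_zero this
    have h7 : Zs M (Q ∪ R) ≠ ⊥ := fun h8 => h6 (by rwa [h8, Submodule.mem_bot] at h5)
    have h8 := Submodule.finrank_eq_zero (S := Zs M (Q ∪ R))
    by_contra h9
    exact h7 (h8.1 (by unfold BG.nu at h9; (clear * - P h9; omega)))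
  set B := earU M (P ∪ Q ∪ R) (Q ∪ R) with hB
  have hBS : B ⊆ M.S \ (P ∪ Q ∪ R) := by
    intro e he
    obtain ⟨W, hW, -, heW⟩ := mem_earU.1 he
    exact hW.sub heW
  have hXS : P ∪ B ⊆ M.S := Finset.union_subset h.pS (hBS.trans Finset.sdiff_subset)
  rcases (hM.2 (P ∪ B) hXS).2 (by omega) with h5 | h5
  · exact (Finset.card_le_card Finset.subset_union_left).trans h5
  · exfalso
    obtain ⟨q, hq⟩ := h.qn
    obtain ⟨r, hr⟩ := h.rn
    have hqS : q ∈ M.S \ (P ∪ B) := by
      refine mem_sdiff.2 ⟨h.qS hq, fun h6 => ?_⟩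
      rcases mem_union.1 h6 with h7 | h7
      · exact Finset.disjoint_right.1 h.pq hq h7
      · exact (mem_sdiff.1 (hBS h7)).2 (mem_union_left _ (mem_union_right _ hq))
    have hrS : r ∈ M.S \ (P ∪ B) := by
      refine mem_sdiff.2 ⟨h.rS hr, fun h6 => ?_⟩
      rcases mem_union.1 h6 with h7 | h7
      · exact Finset.disjoint_right.1 h.pr hr h7
      · exact (mem_sdiff.1 (hBS h7)).2 (mem_union_right _ hr)
    have h6 := Finset.card_le_one.1 h5 q hqS r hrS
    exact Finset.disjoint_left.1 h.qr hq (h6 ▸ hr)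

/-- If `lam A` is not zero, some ear of `A` is not a cycle. -/
theorem exists_ear_not_cycle (M : BM E) {A : Finset E} (hA : A ⊆ M.S) (h0 : M.lam A ≠ 0) :
    ∃ W, Ear M A W ∧ ind W ∉ M.Z := by
  by_contra hcon
  have hall : ∀ W, Ear M A W → ind W ∈ M.Z := by
    intro W hW
    by_contra h1
    exact hcon ⟨W, hW, h1⟩
  apply h0
  refine BG.lam_eq_zero M hA fun z hz => ?_
  obtain ⟨w, hw, hwz⟩ := decomp M A (Zs M (M.S \ A)) (fun w hw => hw.1) _ z hz rfl
    (fun Q hQ _ => ⟨ind Q, ⟨hall Q hQ, fun e he => ind_not_mem fun h1 => he (hQ.sub h1)⟩,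
      fun e _ => rfl⟩)
  have h1 : z + w ∈ Zs M A := ⟨M.Z.add_mem hz hw.1, fun e he => by
    rw [Pi.add_apply, hwz e he, zmod2_add_self]⟩
  have h2 : z = (z + w) + w := by
    funext e
    rw [Pi.add_apply, Pi.add_apply, add_assoc, zmod2_add_self, add_zero]
  rw [h2]
  exact Submodule.add_mem _ (Submodule.mem_sup_left h1) (Submodule.mem_sup_right hw)

/-- A 3-connected matroid contains a theta. -/
theorem exists_theta (M : BM E) (hM : M.TC) : ∃ P Q R, Theta M P Q R := by
  classical
  have hcard := hM.card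
  obtain ⟨e0, he0⟩ : M.S.Nonempty := Finset.card_pos.1 (by omega)
  obtain ⟨z0, hz0, hz0e⟩ := hM.exists_cycle he0
  obtain ⟨c, ⟨hcZ, hc0, hcmin⟩, hce, -⟩ := exists_isMin_of_mem hz0 hz0e
  set C := spt c with hC
  have hcC : c = ind C := (ind_spt c).symm
  have hCS : C ⊆ M.S := M.spt_subset_of_mem_Z hcZ
  have hCe : e0 ∈ C := mem_spt'.2 hce
  have hCn : C ≠ ∅ := fun h => by
    rw [h] at hCe
    exact Finset.notMem_empty _ hCe
  have hin : ∀ y ∈ M.Z, (∀ e, e ∉ C → y e = 0) → y = 0 ∨ y = c := by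
    intro y hy hy0
    by_cases h1 : y = 0
    · exact Or.inl h1
    · exact Or.inr (hcmin y hy h1 (spt_subset.2 hy0))
  have hCne : C ≠ M.S := by
    intro h
    obtain ⟨e1, he1, hne⟩ := Finset.exists_mem_ne (by omega : 1 < M.S.card) e0
    obtain ⟨y, hy, hy1, hy0⟩ := hM.exists_cycle_ne he1 he0 hne
    rcases hin y hy (fun e he => M.Z_supp hy (by rwa [← h])) with h1 | h1
    · rw [h1] at hy1
      exact zero_ne_one hy1
    · rw [h1, hce] at hy0
      exact one_ne_zero hy0
  have hlam : M.lam C ≠ 0 := by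
    intro h
    rcases hM.of_lam_zero hCS h with h1 | h1
    · exact hCn h1
    · exact hCne h1
  obtain ⟨W, hW, hWZ⟩ := exists_ear_not_cycle M hCS hlam
  obtain ⟨z, hz, hzW⟩ := hW.ex
  set T := C.filter fun e => z e = 1 with hT
  have hTm : ∀ e, e ∈ T ↔ e ∈ C ∧ z e = 1 := fun e => by rw [hT, mem_filter]
  have hTC : T ⊆ C := Finset.filter_subset _ _
  have hWC : Disjoint W C := Finset.disjoint_left.2 hW.not_mem
  have hzT : ind (W ∪ T) = z := by
    funext e
    by_cases heC : e ∈ C
    · have heW : e ∉ W := Finset.disjoint_right.1 hWC heC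
      rcases zcases (z e) with h1 | h1
      · rw [h1, ind_not_mem]
        rw [mem_union, not_or]
        refine ⟨heW, fun h2 => ?_⟩
        rw [((hTm e).1 h2).2] at h1
        exact one_ne_zero h1
      · rw [h1, ind_mem (mem_union_right _ ((hTm e).2 ⟨heC, h1⟩))]
    · rw [hzW e heC]
      by_cases heW : e ∈ W
      · rw [ind_mem heW, ind_mem (mem_union_left _ heW)]
      · rw [ind_not_mem heW, ind_not_mem]
        rw [mem_union, not_or]
        exact ⟨heW, fun h2 => heC (hTC h2)⟩
  have hzR : ind (W ∪ (C \ T)) = z + c := by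
    funext e
    rw [Pi.add_apply]
    by_cases heC : e ∈ C
    · have hc1 : c e = 1 := mem_spt'.1 heC
      have heW : e ∉ W := Finset.disjoint_right.1 hWC heC
      rcases zcases (z e) with h1 | h1
      · rw [h1, hc1, ind_mem]
        · decide
        · refine mem_union_right _ (mem_sdiff.2 ⟨heC, fun h2 => ?_⟩)
          rw [((hTm e).1 h2).2] at h1
          exact one_ne_zero h1
      · rw [h1, hc1, ind_not_mem]
        · decide
        · rw [mem_union, not_or]
          exact ⟨heW, fun h2 => (mem_sdiff.1 h2).2 ((hTm e).2 ⟨heC, h1⟩)⟩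
    · have hc1 : c e = 0 := notMem_spt.1 heC
      rw [hzW e heC, hc1, add_zero]
      by_cases heW : e ∈ W
      · rw [ind_mem heW, ind_mem (mem_union_left _ heW)]
      · rw [ind_not_mem heW, ind_not_mem]
        rw [mem_union, not_or]
        exact ⟨heW, fun h2 => heC (mem_sdiff.1 h2).1⟩
  have hTR : ind (T ∪ (C \ T)) = c := by
    rw [Finset.union_sdiff_of_subset hTC, ← hcC]
  refine ⟨W, T, C \ T, ?_⟩
  refine
    { pq := hWC.mono_right hTC
      pr := hWC.mono_right Finset.sdiff_subset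
      qr := Finset.disjoint_sdiff
      pS := hW.sub.trans Finset.sdiff_subset
      qS := hTC.trans hCS
      rS := Finset.sdiff_subset.trans hCS
      pn := hW.ne
      qn := ?_
      rn := ?_
      zpq := by rw [hzT]; exact hz
      zpr := by rw [hzR]; exact M.Z.add_mem hz hcZ
      cyc := ?_ }
  · rw [Finset.nonempty_iff_ne_empty]
    intro h1
    apply hWZ
    rw [h1, Finset.union_empty] at hzT
    rw [hzT]
    exact hz
  · rw [Finset.nonempty_iff_ne_empty]
    intro h1
    apply hWZ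
    rw [h1, Finset.union_empty] at hzR
    rw [hzR]
    exact M.Z.add_mem hz hcZ
  · intro y hy hy0
    rw [hzT, hzR, hTR]
    have hout : ∀ e, e ∉ C → e ∉ W → y e = 0 := fun e h1 h2 =>
      hy0 e h2 (fun h3 => h1 (hTC h3)) fun h3 => h1 (mem_sdiff.1 h3).1
    rcases hW.min y hy hout with h1 | h1
    · rcases hin y hy (fun e he => by
        by_cases heW : e ∈ W
        · exact h1 e heW
        · exact hout e he heW) with h2 | h2
      · exact Or.inl h2
      · exact Or.inr (Or.inr (Or.inr h2))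
    · have h3 : y = (y + z) + z := by
        funext e
        rw [Pi.add_apply, Pi.add_apply, add_assoc, z_add_self, add_zero]
      rcases hin (y + z) (M.Z.add_mem hy hz) (fun e he => by
        rw [Pi.add_apply, hzW e he]
        by_cases heW : e ∈ W
        · rw [h1 e heW, ind_mem heW]
          decide
        · rw [hout e he heW, ind_not_mem heW, add_zero]) with h2 | h2
      · rw [h2, zero_add] at h3
        exact Or.inr (Or.inl h3)
      · rw [h2, add_comm] at h3
        exact Or.inr (Or.inr (Or.inl h3))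

theorem K4_start (M : BM E) (h : M.TC) (hF : ¬ HasMinor F7s M) : HasT K4 M := by
  by_contra hK
  obtain ⟨P, Q, R, hT⟩ := exists_theta M h
  have hall := fun W (hW : Ear M (P ∪ Q ∪ R) W) => all_hat hT hF hK hW
  have h1 := path_one h hT hall
  have h2 := path_one h hT.swap fun W hW => by
    rw [← union_perm] at hW
    rcases hall W hW with h3 | h3 | h3
    · exact Or.inr (Or.inl h3)
    · exact Or.inl h3
    · exact Or.inr (Or.inr h3)
  have h3 : (ind (P ∪ Q) : E → ZMod 2) ≠ 0 := by
    obtain ⟨p, hp⟩ := hT.pn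
    intro h4
    have := congrFun h4 p
    rw [ind_mem (mem_union_left _ hp)] at this
    exact one_ne_zero this
  have h4 := h.cycle_weight hT.zpq h3
  rw [spt_ind] at h4
  have h5 := Finset.card_union_le P Q
  omega

end CV

end SEY

end
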