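import Pool.Agent.Helper29.MFA.T10

section

/-!
# Block CONV of project SEY: from minors to topological minors

`N0` is the matroid on `Fin k` with row space spanned by `rows` and cycle space spanned by `duals`.
If `M` has a minor isomorphic to `N0` and none of the extensions of `N0` by an element in series
to nothing (given by a functional `v` on the cycle space which is neither zero nor a coordinate) is
a minor of `M`, then `M` has a restriction which is a series extension of `N0`.

Proof: `(M|A)/C` is a series extension of `N0`; induction on `|C|`.  For `c ∈ C` the value `z c` is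
a functional `v` of the trace of the cycle `z`, unless `c` is a loop of `(M|A)/(C - c)`.
-/

set_option autoImplicit false

namespace SEY

open Finset

variable {E : Type} [Fintype E] [DecidableEq E]

namespace CV

/-- One more column. -/
def extc {s k : ℕ} (duals : Fin s → Fin k → ZMod 2) (v : Fin s → ZMod 2) :
    Fin s → Fin (k + 1) → ZMod 2 :=
  fun j e => if h : e.val < k then duals j ⟨e.val, h⟩ else v j

theorem conv_step {r s k : ℕ} {rows : Fin r → Fin k → ZMod 2} {duals : Fin s → Fin k → ZMod 2}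
    (hc : Compl rows duals) (M : BM E)
    (hbad : ∀ v : Fin s → ZMod 2, v = 0 ∨ (∃ i, ∀ j, v j = duals j i) ∨
      ¬ HasMinor (extc duals v) M.dual) :
    ∀ (n : ℕ) (A C : Finset E) (π : E → Fin k), C.card = n → A ⊆ M.S → C ⊆ A →
      (∀ i, ∃ e ∈ A, e ∉ C ∧ π e = i) →
      (∀ z ∈ M.Z, (∀ e, e ∉ A → z e = 0) → ∃ a : Fin s → ZMod 2, ∀ e ∈ A, e ∉ C →
        z e = ∑ j, a j * duals j (π e)) →
      (∀ j, ∃ z ∈ M.Z, (∀ e, e ∉ A → z e = 0) ∧ ∀ e ∈ A, e ∉ C → z e = duals j (π e)) →
      HasT rows M := by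
  intro n
  induction n with
  | zero =>
    intro A C π hn hA _ hs h1 h2
    have hC : C = ∅ := Finset.card_eq_zero.1 hn
    subst hC
    refine ⟨A, π, hA, fun i => ?_, fun z hz => ?_⟩
    · obtain ⟨e, he, -, hei⟩ := hs i
      exact ⟨e, he, hei⟩
    · constructor
      · intro hzZ
        obtain ⟨a, ha⟩ := h1 z hzZ hz
        refine ⟨fun i => ∑ j, a j * duals j i, fun i => ?_, fun e he =>
          ha e he (Finset.notMem_empty e)⟩
        have := (hc.symm.span (fun i => ∑ j, a j * duals j i)).1 ⟨a, fun e => rfl⟩ i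
        rw [← this]
        exact Finset.sum_congr rfl fun e _ => mul_comm _ _
      · rintro ⟨w, hw, hwz⟩
        obtain ⟨a, ha⟩ := (hc.symm.span w).2 fun i => by
          rw [← hw i]
          exact Finset.sum_congr rfl fun e _ => mul_comm _ _
        choose y hy hy0 hyA using h2
        have h3 : z = ∑ j, a j • y j := by
          funext e
          rw [Finset.sum_apply]
          by_cases he : e ∈ A
          · rw [hwz e he, ha]
            exact Finset.sum_congr rfl fun j _ => by
              rw [Pi.smul_apply, smul_eq_mul, hyA j e he (Finset.notMem_empty e)]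
          · rw [hz e he]
            refine (Finset.sum_eq_zero fun j _ => ?_).symm
            rw [Pi.smul_apply, hy0 j e he, smul_zero]
        rw [h3]
        exact Submodule.sum_mem _ fun j _ => M.Z.smul_mem _ (hy j)
  | succ n ih =>
    intro A C π hn hA hCA hs h1 h2
    obtain ⟨c, hcC⟩ : C.Nonempty := Finset.card_pos.1 (by omega)
    have hcn : (C.erase c).card = n := by
      rw [Finset.card_erase_of_mem hcC]
      omega
    have hcA : c ∈ A := hCA hcC
    -- the deletion step
    have hdel : (∀ j, ∃ z ∈ M.Z, (∀ e, e ∉ A → z e = 0) ∧ z c = 0 ∧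
        ∀ e ∈ A, e ∉ C → z e = duals j (π e)) → HasT rows M := by
      intro h3
      refine ih (A.erase c) (C.erase c) π hcn ((Finset.erase_subset _ _).trans hA)
        (Finset.erase_subset_erase c hCA) (fun i => ?_) (fun z hz hz0 => ?_) (fun j => ?_)
      · obtain ⟨e, he, heC, hei⟩ := hs i
        exact ⟨e, mem_erase.2 ⟨fun h => heC (h ▸ hcC), he⟩, fun h => heC (mem_of_mem_erase h),
          hei⟩
      · obtain ⟨a, ha⟩ := h1 z hz fun e he => hz0 e fun h => he (mem_of_mem_erase h)
        refine ⟨a, fun e he heC => ha e (mem_of_mem_erase he) fun h => heC ?_⟩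
        exact mem_erase.2 ⟨(mem_erase.1 he).1, h⟩
      · obtain ⟨z, hz, hz0, hzc, hzA⟩ := h3 j
        refine ⟨z, hz, fun e he => ?_, fun e he heC => hzA e (mem_of_mem_erase he) fun h =>
          heC (mem_erase.2 ⟨(mem_erase.1 he).1, h⟩)⟩
        by_cases hec : e = c
        · rw [hec, hzc]
        · exact hz0 e fun h => he (mem_erase.2 ⟨hec, h⟩)
    by_cases hloop : ∃ z ∈ M.Z, (∀ e, e ∉ A → z e = 0) ∧ (∀ e ∈ A, e ∉ C → z e = 0) ∧ z c = 1
    · obtain ⟨z0, hz0, hz0A, hz0C, hz0c⟩ := hloop
      refine hdel fun j => ?_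
      obtain ⟨z, hz, hzA, hzj⟩ := h2 j
      rcases zcases (z c) with hzc | hzc
      · exact ⟨z, hz, hzA, hzc, hzj⟩
      · refine ⟨z + z0, M.Z.add_mem hz hz0, fun e he => ?_, ?_, fun e he heC => ?_⟩
        · rw [Pi.add_apply, hzA e he, hz0A e he, add_zero]
        · rw [Pi.add_apply, hzc, hz0c]
          decide
        · rw [Pi.add_apply, hz0C e he heC, add_zero, hzj e he heC]
    · have hnl : ∀ z ∈ M.Z, (∀ e, e ∉ A → z e = 0) → (∀ e ∈ A, e ∉ C → z e = 0) → z c = 0 := by
        intro z hz hzA hzC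
        by_contra h
        exact hloop ⟨z, hz, hzA, hzC, z_ne_zero.1 h⟩
      choose y hy hy0 hyA using h2
      set v : Fin s → ZMod 2 := fun j => y j c with hv
      have hval : ∀ z ∈ M.Z, (∀ e, e ∉ A → z e = 0) → ∀ a : Fin s → ZMod 2,
          (∀ e ∈ A, e ∉ C → z e = ∑ j, a j * duals j (π e)) → z c = ∑ j, a j * v j := by
        intro z hz hzA a ha
        have h3 := hnl (z + ∑ j, a j • y j)
          (M.Z.add_mem hz (Submodule.sum_mem _ fun j _ => M.Z.smul_mem _ (hy j)))
          (fun e he => by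
            rw [Pi.add_apply, hzA e he, Finset.sum_apply, zero_add]
            refine Finset.sum_eq_zero fun j _ => ?_
            rw [Pi.smul_apply, hy0 j e he, smul_zero])
          (fun e he heC => by
            rw [Pi.add_apply, ha e he heC, Finset.sum_apply]
            have h4 : ∑ j, (a j • y j) e = ∑ j, a j * duals j (π e) :=
              Finset.sum_congr rfl fun j _ => by
                rw [Pi.smul_apply, smul_eq_mul, hyA j e he heC]
            rw [h4, z_add_self])
        rw [Pi.add_apply, z_add_eq_zero, Finset.sum_apply] at h3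
        rw [h3]
        exact Finset.sum_congr rfl fun j _ => by rw [Pi.smul_apply, smul_eq_mul]
      rcases hbad v with h3 | ⟨i, h3⟩ | h3
      · exact hdel fun j => ⟨y j, hy j, hy0 j, congrFun h3 j, hyA j⟩
      · -- `c` is in series with the class of `i`
        have hπc : (Function.update π c i) c = i := Function.update_self _ _ _
        have hπe : ∀ e, e ≠ c → (Function.update π c i) e = π e := fun e he =>
          Function.update_of_ne he _ _
        refine ih A (C.erase c) (Function.update π c i) hcn hA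
          ((Finset.erase_subset _ _).trans hCA) (fun i' => ?_) (fun z hz hzA => ?_) (fun j => ?_)
        · obtain ⟨e, he, heC, hei⟩ := hs i'
          exact ⟨e, he, fun h => heC (mem_of_mem_erase h), by
            rw [hπe e fun h => heC (h ▸ hcC), hei]⟩
        · obtain ⟨a, ha⟩ := h1 z hz hzA
          refine ⟨a, fun e he heC => ?_⟩
          by_cases hec : e = c
          · rw [hec, hπc, hval z hz hzA a ha]
            exact Finset.sum_congr rfl fun j _ => by rw [h3 j]
          · rw [hπe e hec]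
            exact ha e he fun h => heC (mem_erase.2 ⟨hec, h⟩)
        · refine ⟨y j, hy j, hy0 j, fun e he heC => ?_⟩
          by_cases hec : e = c
          · rw [hec, hπc]
            exact h3 j
          · rw [hπe e hec]
            exact hyA j e he fun h => heC (mem_erase.2 ⟨hec, h⟩)
      · exfalso
        apply h3
        choose rep hrA hrC hrπ using hs
        have hrc : ∀ i, rep i ≠ c := fun i h => hrC i (h ▸ hcC)
        have hinj : Function.Injective rep := fun i i' h => by
          rw [← hrπ i, ← hrπ i', h]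
        refine ⟨fun e => if h : e.val < k then rep ⟨e.val, h⟩ else c, M.S \ A, ?_, ?_,
          Finset.sdiff_subset, ?_, ?_, ?_⟩
        · intro e e' hee
          by_cases h4 : e.val < k <;> by_cases h5 : e'.val < k
          · simp only [dif_pos h4, dif_pos h5] at hee
            have := hinj hee
            rw [Fin.mk.injEq] at this
            exact Fin.ext this
          · simp only [dif_pos h4, dif_neg h5] at hee
            exact absurd hee (hrc _)
          · simp only [dif_neg h4, dif_pos h5] at hee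
            exact absurd hee.symm (hrc _)
          · have h6 := e.isLt
            have h7 := e'.isLt
            exact Fin.ext (by (clear * - n C c h4 h5; omega))
        · intro e
          change _ ∈ M.S
          by_cases h4 : e.val < k
          · simp only [dif_pos h4]
            exact hA (hrA _)
          · simp only [dif_neg h4]
            exact hA hcA
        · intro e
          by_cases h4 : e.val < k
          · simp only [dif_pos h4]
            exact fun h => (mem_sdiff.1 h).2 (hrA _)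
          · simp only [dif_neg h4]
            exact fun h => (mem_sdiff.1 h).2 hcA
        · intro j
          refine ⟨y j, hy j, fun e he => hy0 j e (mem_sdiff.1 he).2, fun e => ?_⟩
          by_cases h4 : e.val < k
          · simp only [extc, dif_pos h4]
            rw [hyA j _ (hrA _) (hrC _), hrπ]
          · simp only [extc, dif_neg h4]
            rfl
        · intro f hf hf0
          have hfA : ∀ e, e ∉ A → f e = 0 := by
            intro e he
            by_cases heS : e ∈ M.S
            · exact hf0 e (mem_sdiff.2 ⟨heS, he⟩)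
            · exact M.Z_supp hf heS
          obtain ⟨a, ha⟩ := h1 f hf hfA
          refine ⟨a, fun e => ?_⟩
          by_cases h4 : e.val < k
          · simp only [extc, dif_pos h4]
            rw [ha _ (hrA _) (hrC _), hrπ]
          · simp only [extc, dif_neg h4]
            exact hval f hf hfA a ha

/-- The general conversion theorem. -/
theorem conv_gen {r s k : ℕ} {rows : Fin r → Fin k → ZMod 2} {duals : Fin s → Fin k → ZMod 2}
    (hc : Compl rows duals) (i0 : Fin k) (M : BM E)
    (hbad : ∀ v : Fin s → ZMod 2, v = 0 ∨ (∃ i, ∀ j, v j = duals j i) ∨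
      ¬ HasMinor (extc duals v) M.dual) (h : HasMinor rows M) : HasT rows M := by
  obtain ⟨φ, C2, hφ, hS, hC2, hd, h1, h2⟩ := HasMinor.dual hc h
  haveI : Nonempty (Fin k) := ⟨i0⟩
  have hinv : ∀ i, Function.invFun φ (φ i) = i := fun i => Function.leftInverse_invFun hφ i
  have hout : ∀ e ∈ M.S \ C2, e ∉ (M.S \ C2) \ (univ.image φ) → ∃ i, φ i = e := by
    intro e he he'
    by_contra hcon
    refine he' (mem_sdiff.2 ⟨he, fun h3 => hcon ?_⟩)
    obtain ⟨i, -, hi⟩ := mem_image.1 h3
    exact ⟨i, hi⟩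
  refine conv_step hc M hbad _ (M.S \ C2) ((M.S \ C2) \ (univ.image φ)) (Function.invFun φ) rfl
    Finset.sdiff_subset Finset.sdiff_subset (fun i => ?_) (fun z hz hz0 => ?_) (fun j => ?_)
  · refine ⟨φ i, mem_sdiff.2 ⟨hS i, hd i⟩, fun h3 => ?_, hinv i⟩
    exact (mem_sdiff.1 h3).2 (mem_image.2 ⟨i, mem_univ i, rfl⟩)
  · obtain ⟨a, ha⟩ := h2 z hz fun e he => hz0 e fun h3 => (mem_sdiff.1 h3).2 he
    refine ⟨a, fun e he he' => ?_⟩
    obtain ⟨i, rfl⟩ := hout e he he'
    rw [hinv, ha]
  · obtain ⟨f, hf, hf0, hfφ⟩ := h1 j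
    refine ⟨f, hf, fun e he => ?_, fun e he he' => ?_⟩
    · by_cases heS : e ∈ M.S
      · have heC : e ∈ C2 := by
          by_contra h3
          exact he (mem_sdiff.2 ⟨heS, h3⟩)
        exact hf0 e heC
      · exact M.Z_supp hf heS
    · obtain ⟨i, rfl⟩ := hout e he he'
      rw [hinv, hfφ]

end CV

end SEY

end

section

/-!
# Block CONV of project SEY: the finite checks for `K4` and `K33`
-/

set_option autoImplicit false

namespace SEY

open Finset

variable {E : Type} [Fintype E] [DecidableEq E]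

namespace CV

theorem cert_0110 : FinCert F7 F7s (extc K33s ![0, 1, 1, 0]) ![7, 5, 4, 9, 1, 3, 8] {0}
    ![![0, 0, 1, 1], ![0, 1, 0, 1], ![1, 0, 0, 1]]
    ![![0, 0, 0, 0, 0, 1, 0, 1, 0, 1],
      ![0, 1, 0, 0, 1, 0, 0, 1, 0, 0],
      ![0, 0, 0, 1, 1, 1, 0, 0, 0, 0],
      ![1, 0, 0, 0, 1, 1, 0, 1, 1, 0]] := by
  decide

theorem cert_0111 : FinCert F7 F7s (extc K33s ![0, 1, 1, 1]) ![8, 5, 4, 0, 6, 3, 9] {1}
    ![![0, 0, 0, 1], ![0, 1, 0, 0], ![1, 0, 1, 0]]
    ![![1, 1, 0, 0, 0, 1, 0, 0, 1, 0],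
      ![0, 1, 0, 0, 1, 0, 1, 0, 1, 0],
      ![0, 0, 0, 1, 1, 1, 0, 0, 0, 0],
      ![0, 1, 0, 0, 1, 1, 0, 0, 1, 1]] := by
  decide

theorem cert_1001 : FinCert F7 F7s (extc K33s ![1, 0, 0, 1]) ![7, 5, 4, 9, 1, 3, 8] {0}
    ![![0, 0, 1, 1], ![0, 1, 0, 1], ![1, 0, 0, 1]]
    ![![1, 0, 0, 0, 0, 1, 0, 1, 0, 1],
      ![0, 1, 0, 0, 1, 0, 0, 1, 0, 0],
      ![0, 0, 0, 1, 1, 1, 0, 0, 0, 0],
      ![1, 0, 0, 0, 1, 1, 0, 1, 1, 0]] := by
  decide

theorem cert_1011 : FinCert F7 F7s (extc K33s ![1, 0, 1, 1]) ![7, 5, 4, 6, 0, 3, 9] {2}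
    ![![0, 0, 1, 0], ![0, 1, 0, 1], ![1, 0, 0, 0]]
    ![![0, 0, 1, 0, 0, 1, 1, 1, 0, 0],
      ![1, 0, 1, 0, 1, 0, 0, 1, 0, 0],
      ![0, 0, 0, 1, 1, 1, 0, 0, 0, 0],
      ![0, 0, 1, 0, 1, 1, 0, 1, 0, 1]] := by
  decide

theorem cert_1101 : FinCert F7 F7s (extc K33s ![1, 1, 0, 1]) ![8, 5, 4, 0, 6, 3, 9] {1}
    ![![0, 0, 0, 1], ![0, 1, 0, 0], ![1, 0, 1, 0]]
    ![![1, 1, 0, 0, 0, 1, 0, 0, 1, 0],
      ![0, 1, 0, 0, 1, 0, 1, 0, 1, 0],
      ![0, 0, 0, 1, 1, 1, 0, 0, 0, 0],
      ![0, 0, 0, 0, 1, 1, 0, 0, 1, 1]] := by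
  decide

theorem cert_1110 : FinCert F7 F7s (extc K33s ![1, 1, 1, 0]) ![7, 5, 4, 6, 0, 3, 9] {2}
    ![![0, 0, 1, 0], ![0, 1, 0, 1], ![1, 0, 0, 0]]
    ![![0, 0, 1, 0, 0, 1, 1, 1, 0, 0],
      ![1, 0, 1, 0, 1, 0, 0, 1, 0, 0],
      ![0, 0, 0, 1, 1, 1, 0, 0, 0, 0],
      ![0, 0, 0, 0, 1, 1, 0, 1, 0, 1]] := by
  decide

theorem cases_K33 : ∀ v : Fin 4 → ZMod 2, v = 0 ∨ (∃ i, ∀ j, v j = K33s j i) ∨
    v = ![0, 1, 1, 0] ∨ v = ![0, 1, 1, 1] ∨ v = ![1, 0, 0, 1] ∨ v = ![1, 0, 1, 1] ∨
    v = ![1, 1, 0, 1] ∨ v = ![1, 1, 1, 0] := by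
  decide

theorem conv_K33 (M : BM E) (hF : NoF M) (h : HasMinor K33 M) : HasT K33 M := by
  refine conv_gen compl_K33 0 M (fun v => ?_) h
  rcases cases_K33 v with h1 | h1 | h1 | h1 | h1 | h1 | h1 | h1
  · exact Or.inl h1
  · exact Or.inr (Or.inl h1)
  · refine Or.inr (Or.inr fun h2 => ?_)
    subst h1
    exact hF.2 (hasMinor_F7_dual.1 (h2.of_finCert compl_F7 cert_0110))
  · refine Or.inr (Or.inr fun h2 => ?_)
    subst h1
    exact hF.2 (hasMinor_F7_dual.1 (h2.of_finCert compl_F7 cert_0111))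
  · refine Or.inr (Or.inr fun h2 => ?_)
    subst h1
    exact hF.2 (hasMinor_F7_dual.1 (h2.of_finCert compl_F7 cert_1001))
  · refine Or.inr (Or.inr fun h2 => ?_)
    subst h1
    exact hF.2 (hasMinor_F7_dual.1 (h2.of_finCert compl_F7 cert_1011))
  · refine Or.inr (Or.inr fun h2 => ?_)
    subst h1
    exact hF.2 (hasMinor_F7_dual.1 (h2.of_finCert compl_F7 cert_1101))
  · refine Or.inr (Or.inr fun h2 => ?_)
    subst h1
    exact hF.2 (hasMinor_F7_dual.1 (h2.of_finCert compl_F7 cert_1110))

end CV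

end SEY

end
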