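import Pool.Agent.Helper29.MFA.T15
import Pool.Agent.Helper29.MFA.T16
import Pool.Agent.Helper29.MFA.T17

section

/-!
Block BG (helper1), section 1 of /team-store/helper25_SEY.md.
-/

namespace SEY

open Finset

variable {E : Type} [Fintype E] [DecidableEq E]

theorem bg_has {r k : ℕ} (rows : Fin r → Fin k → ZMod 2) (h0 : (ofRows rows).TC) (M : BM E)
    (h : M.TC) (hT : HasT rows M) (hI : ¬ IsIso rows M) :
    ∃ e ∈ M.S, (M.del {e}).SC ∧ HasT rows (M.del {e}) :=
  BG.bg_has_main rows h0 M h hT hI

end SEY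

end

section

/-!
Block CONV (helper1), section 1 of /team-store/helper25_SEY.md.
-/

namespace SEY

open Finset

variable {E : Type} [Fintype E] [DecidableEq E]

theorem conv_K33 (M : BM E) (hF : NoF M) (h : HasMinor K33 M) : HasT K33 M :=
  CV.conv_K33 M hF h

theorem K4_start (M : BM E) (h : M.TC) (hF : ¬ HasMinor F7s M) : HasT K4 M :=
  CV.K4_start M h hF

end SEY

end
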