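import Pool.Agent.Helper29.MFA.T11
import Pool.Agent.Helper29.MFA.T18
import Pool.Agent.Helper29.MFA.T15
import Pool.Agent.Helper29.MFA.T20
import Pool.Agent.Helper29.MFA.T21
import Pool.Agent.Helper29.MFA.T19
import Pool.Agent.Helper29.MFA.T22
import Pool.Agent.Helper29.MFA.T23
import Pool.Agent.Helper29.MFA.T24
import Pool.Agent.Helper29.MFA.T10

section

/-!
Block T3: definitions used in the proof of the structure theorem
(section 3 of /team-store/helper25_SEY.md).
-/

namespace SEY

open Finset

variable {E : Type} [Fintype E] [DecidableEq E]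

/-- Minimal nongraphic 3-connected matroid with the topological minor `rows`. -/
structure MinCx {r l : ℕ} (rows : Fin r → Fin l → ZMod 2) (M : BM E) : Prop where
  tc : M.TC
  nof : NoF M
  hasT : HasT rows M
  ng : ¬ Graphic M
  min : ∀ N : BM E, Minor N M → N.S.card < M.S.card → N.TC → HasT rows N → Graphic N

/-- Triangle type (outcome O2). -/
structure TriT {r l : ℕ} (rows : Fin r → Fin l → ZMod 2) (M : BM E) (e : E)
    (a b : Fin 3 → E) : Prop where
  mem : e ∈ M.S ∧ (∀ i, a i ∈ M.S) ∧ ∀ i, b i ∈ M.S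
  inj : Function.Injective a ∧ Function.Injective b ∧ (∀ i j, a i ≠ b j) ∧ (∀ i, e ≠ a i) ∧
    ∀ i, e ≠ b i
  row : ∀ i, ind {e, a i, b i} ∈ M.R
  cyca : ∀ f ∈ M.R, f e + f (a 0) + f (a 1) + f (a 2) = 0
  cycb : ∀ f ∈ M.R, f e + f (b 0) + f (b 1) + f (b 2) = 0
  tc : ((M.del {e}).con {b 0, b 1, b 2}).TC
  hasT : HasT rows ((M.del {e}).con {b 0, b 1, b 2})

/-- The graft `(N0; f; c, d)` of outcome O4: `N0` is the graph with `ends : Fin k → Fin n × Fin n`;
the edge `f` with ends `a, b` is subdivided by the new vertex `y = n`, column `f` is the edge `a y`,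
column `k` is `b y`, column `k + 1` is the edge `y d` and column `k + 2` is the graft element with
`T = {y, a, b, c}`. -/
def O4rows {n k : ℕ} (ends : Fin k → Fin n × Fin n) (f : Fin k) (c d : Fin n) :
    Fin (n + 1) → Fin (k + 3) → ZMod 2 :=
  fun v j =>
    if hj : (j : ℕ) < k then
      (if (⟨j, hj⟩ : Fin k) = f then
        (if (v : ℕ) = (ends f).1 ∨ (v : ℕ) = n then 1 else 0)
      else
        (if (v : ℕ) = (ends ⟨j, hj⟩).1 then 1 else 0) + (if (v : ℕ) = (ends ⟨j, hj⟩).2 then 1 else 0))
    else if (j : ℕ) = k then (if (v : ℕ) = (ends f).2 ∨ (v : ℕ) = n then 1 else 0)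
    else if (j : ℕ) = k + 1 then (if (v : ℕ) = d ∨ (v : ℕ) = n then 1 else 0)
    else (if (v : ℕ) = (ends f).1 ∨ (v : ℕ) = (ends f).2 ∨ (v : ℕ) = c ∨ (v : ℕ) = n then 1 else 0)

variable {V : Type} [Fintype V] [DecidableEq V]

/-- Option (I): `H = M del e` is a 3-connected graph, `T = {y, a, b, c}`, the vertex `y` has the
three edges `k = y d`, `g1 = y a`, `g2 = y b`, and `H del k` is `SC`. -/
structure SitI {r l : ℕ} (rows : Fin r → Fin l → ZMod 2) (M : BM E) (U : Finset V)
    (h t : E → V) (e k g1 g2 : E) (y a b c d : V) : Prop where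
  cx : MinCx rows M
  gr : IsGraft M e U h t {y, a, b, c}
  tc : (M.del {e}).TC
  ya : y ≠ a
  yb : y ≠ b
  yc : y ≠ c
  ab : a ≠ b
  ac : a ≠ c
  bc : b ≠ c
  yd : y ≠ d
  ad : a ≠ d
  bd : b ≠ d
  jk : Jn h t k y d
  j1 : Jn h t g1 y a
  j2 : Jn h t g2 y b
  st : star (M.S \ {e}) h t y = {k, g1, g2}
  sc : (M.del {e, k}).SC
  hasT : HasT rows (M.del {e, k})

/-- The vertex `s` (`= a` or `b`) has in `H = M del e` the three edges `g` (to `y`), `s c`, `s d`. -/
def Good (M : BM E) (h t : E → V) (e g : E) (s c d : V) : Prop :=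
  ∃ xc xd : E, star (M.S \ {e}) h t s = {g, xc, xd} ∧ Jn h t xc s c ∧ Jn h t xd s d

end SEY

end

section

/-!
T3-Minor: minors of minors.
* `Minor_con`, `Minor_del`, `Minor_trans`: (M con C) del D con C' del D' = (M con (C u (C' - D))) del (D u D' ...).
  Note that contracting an element outside the ground set does not change anything (rows vanish there), so
  intersect C' with the ground set of the middle matroid first; for C, D disjoint (M del D) con C = (M con C) del D
  [f = mask (S - D) g, f = 0 on C iff g = 0 on C as C is disjoint from D].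
-/

namespace SEY

open Finset

variable {E : Type} [Fintype E] [DecidableEq E] {V : Type} [Fintype V] [DecidableEq V]

private theorem bm_ext {M N : BM E} (h1 : M.S = N.S) (h2 : ∀ f, f ∈ M.R ↔ f ∈ N.R) : M = N := by
  obtain ⟨S, R, h⟩ := M
  obtain ⟨S', R', h'⟩ := N
  simp only at h1 h2
  subst h1
  have : R = R' := Submodule.ext h2
  subst this
  rfl

private theorem mask_app (A : Finset E) (f : E → ZMod 2) (e : E) :
    mask A f e = if e ∈ A then f e else 0 := rfl

theorem con_del_comm (M : BM E) (C D : Finset E) (hd : Disjoint C D) :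
    (M.del D).con C = (M.con C).del D := by
  apply bm_ext
  · exact sdiff_right_comm M.S D C
  · have key : ∀ g ∈ M.R, (∀ e ∈ C, g e = 0) →
        mask ((M.S \ C) \ D) g = mask (M.S \ D) g := by
      intro g _ hg
      funext e
      rw [mask_app, mask_app]
      by_cases hC : e ∈ C
      · rw [hg e hC]
        simp
      · simp [hC]
    intro f
    constructor
    · rintro ⟨⟨g, hg, rfl⟩, hf⟩
      have hg0 : ∀ e ∈ C, g e = 0 := by
        intro e he
        by_cases hS : e ∈ M.S
        · have h1 := hf e he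
          rw [mask_app, if_pos] at h1
          · exact h1
          · exact Finset.mem_sdiff.mpr ⟨hS, Finset.disjoint_left.mp hd he⟩
        · exact M.supp g hg e hS
      exact ⟨g, ⟨hg, hg0⟩, key g hg hg0⟩
    · rintro ⟨g, ⟨hg, hg0⟩, rfl⟩
      refine ⟨⟨g, hg, (key g hg hg0).symm⟩, fun e he => ?_⟩
      have h1 : e ∉ (M.S \ C) \ D := by
        intro h
        exact (Finset.mem_sdiff.mp (Finset.mem_sdiff.mp h).1).2 he
      change mask ((M.S \ C) \ D) g e = 0
      rw [mask_app, if_neg h1]

theorem del_del (M : BM E) (C D : Finset E) : (M.del C).del D = M.del (C ∪ D) := by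
  have hS : (M.S \ C) \ D = M.S \ (C ∪ D) := sdiff_sdiff_left
  have key : ∀ g : E → ZMod 2,
      mask ((M.S \ C) \ D) (mask (M.S \ C) g) = mask (M.S \ (C ∪ D)) g := by
    intro g
    funext e
    rw [mask_app, mask_app, mask_app, hS]
    by_cases h : e ∈ M.S \ (C ∪ D)
    · have h' : e ∈ M.S \ C := by
        rw [← hS] at h
        exact (Finset.mem_sdiff.mp h).1
      rw [if_pos h, if_pos h', if_pos h]
    · rw [if_neg h, if_neg h]
  apply bm_ext
  · exact hS
  · intro f
    constructor
    · rintro ⟨g', ⟨g, hg, rfl⟩, rfl⟩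
      exact ⟨g, hg, (key g).symm⟩
    · rintro ⟨g, hg, rfl⟩
      exact ⟨mask (M.S \ C) g, ⟨g, hg, rfl⟩, key g⟩

theorem con_con (M : BM E) (C D : Finset E) : (M.con C).con D = M.con (C ∪ D) := by
  apply bm_ext
  · exact (sdiff_sdiff_left : (M.S \ C) \ D = M.S \ (C ∪ D))
  · intro f
    constructor
    · rintro ⟨⟨hf, h1⟩, h2⟩
      refine ⟨hf, fun e he => ?_⟩
      rcases Finset.mem_union.mp he with h | h
      · exact h1 e h
      · exact h2 e h
    · rintro ⟨hf, h1⟩
      exact ⟨⟨hf, fun e he => h1 e (Finset.mem_union_left _ he)⟩,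
        fun e he => h1 e (Finset.mem_union_right _ he)⟩

private theorem con_empty (M : BM E) : M.con ∅ = M := by
  apply bm_ext
  · exact Finset.sdiff_empty
  · intro f
    exact ⟨fun h => h.1, fun h => ⟨h, fun e he => absurd he (Finset.notMem_empty e)⟩⟩

private theorem del_empty (M : BM E) : M.del ∅ = M := by
  have key : ∀ g ∈ M.R, mask (M.S \ ∅) g = g := by
    intro g hg
    funext e
    rw [mask_app, Finset.sdiff_empty]
    by_cases h : e ∈ M.S
    · rw [if_pos h]
    · rw [if_neg h, M.supp g hg e h]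
  apply bm_ext
  · exact Finset.sdiff_empty
  · intro f
    constructor
    · rintro ⟨g, hg, rfl⟩
      rw [key g hg]
      exact hg
    · intro h
      exact ⟨f, h, key f h⟩

theorem Minor_con (M : BM E) (C : Finset E) : Minor (M.con C) M :=
  ⟨C, ∅, (del_empty _).symm⟩

theorem Minor_del (M : BM E) (D : Finset E) : Minor (M.del D) M :=
  ⟨∅, D, by rw [con_empty]⟩

private theorem con_sdiff (M : BM E) (C D : Finset E) :
    (M.del D).con C = (M.del D).con (C \ D) := by
  apply bm_ext
  · change (M.S \ D) \ C = (M.S \ D) \ (C \ D)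
    ext e
    simp only [Finset.mem_sdiff]
    tauto
  · intro f
    constructor
    · rintro ⟨hf, h1⟩
      exact ⟨hf, fun e he => h1 e (Finset.mem_sdiff.mp he).1⟩
    · rintro ⟨hf, h1⟩
      refine ⟨hf, fun e he => ?_⟩
      by_cases hD : e ∈ D
      · refine (M.del D).supp f hf e ?_
        intro h
        exact (Finset.mem_sdiff.mp h).2 hD
      · exact h1 e (Finset.mem_sdiff.mpr ⟨he, hD⟩)

theorem Minor_trans {N M L : BM E} (h : Minor N M) (h' : Minor M L) : Minor N L := by
  obtain ⟨C, D, rfl⟩ := h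
  obtain ⟨C', D', rfl⟩ := h'
  refine ⟨C' ∪ (C \ D'), D' ∪ D, ?_⟩
  rw [con_sdiff, con_del_comm _ _ _ Finset.sdiff_disjoint, con_con, del_del]

end SEY

end

section

/-!
T3-Triad: deleting an element from a 3-connected matroid.
* `TC.triad`: M TC, a /= b in series in M del e.  The functional z -> z a + z b on Z(M) vanishes on
  all z with z e = 0 (these are the cycles of M del e), so it is 0 or z -> z e; i.e. {a,b} or {a,b,e}
  is a row (double dual: a vector orthogonal to Z and supported on S is a row).  {a,b} is not a row of a TC matroid: it would give a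
  series pair, `TC_iff_SC`.
* `TC.del_two`: a ~ b, a ~ c, all different: {a,b,e}+{a,c,e} = {b,c} is a row, contradiction.
* `TC.three_le_deg`: the star of v is a row (`IsGr.star_mem`), not empty (IsGr.ne); a row of a TC matroid has
  weight >= 3 (weight 1: coloop, weight 2: series pair).
* `IsGr.tc_of_deg`: `TC_iff_SC`; a series pair {a,b} is a star of size 2 by `IsGr.star2`.
-/

namespace SEY

open Finset

variable {E : Type} [Fintype E] [DecidableEq E] {V : Type} [Fintype V] [DecidableEq V]

/-- The functional `z ↦ z a + z b` is the functional `z ↦ z e`. -/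
private lemma h85_triad_fun {M : BM E} (h : M.TC) {e a b : E} (he : e ∈ M.S) (ha : a ∈ M.S)
    (hb : b ∈ M.S) (hab : a ≠ b) (hs : (M.del {e}).Ser a b) :
    ∀ z ∈ M.Z, z a + z b = z e := by
  have hs' : ∀ z ∈ M.Z, z e = 0 → z a = z b := by
    intro z hz hze
    refine hs z ((M.mem_Z_del).2 ⟨hz, ?_⟩)
    intro x hx
    rw [Finset.mem_singleton.1 hx]
    exact hze
  obtain ⟨z0, hz0, hz0e⟩ := BM.TC.exists_cycle h he
  have hns : ¬ M.Ser a b := BM.TC.not_ser h ha hb hab
  have key : ∀ z ∈ M.Z, z e = 1 → z a + z b = z0 a + z0 b := by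
    intro z hz hze
    have h1 : (z + z0) a = (z + z0) b := by
      apply hs' _ (M.Z.add_mem hz hz0)
      rw [Pi.add_apply, hze, hz0e]
      rfl
    rw [Pi.add_apply, Pi.add_apply] at h1
    generalize z a = p at h1 ⊢
    generalize z b = q at h1 ⊢
    generalize z0 a = r at h1 ⊢
    generalize z0 b = s at h1 ⊢
    revert p q r s
    decide
  have h01 : z0 a + z0 b = 1 := by
    by_contra hne
    have h0 : z0 a + z0 b = 0 := by
      rcases zcases (z0 a + z0 b) with h | h
      · exact h
      · exact absurd h hne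
    apply hns
    intro z hz
    rcases zcases (z e) with h | h
    · exact hs' z hz h
    · have := key z hz h
      rw [h0] at this
      exact z_add_eq_zero.1 this
  intro z hz
  rcases zcases (z e) with h | h
  · rw [h, z_add_eq_zero]
    exact hs' z hz h
  · rw [key z hz h, h01, h]

theorem TC.del_two {M : BM E} (h : M.TC) {e : E} (he : e ∈ M.S) : (M.del {e}).Two := by
  intro a ha b hb c hc hab hac
  by_contra hcon
  push Not at hcon
  obtain ⟨h1, h2, h3⟩ := hcon
  have ha' : a ∈ M.S := (Finset.mem_sdiff.1 ha).1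
  have hb' : b ∈ M.S := (Finset.mem_sdiff.1 hb).1
  have hc' : c ∈ M.S := (Finset.mem_sdiff.1 hc).1
  refine BM.TC.not_ser h hb' hc' h3 ?_
  intro z hz
  have e1 := h85_triad_fun h he ha' hb' h1 hab z hz
  have e2 := h85_triad_fun h he ha' hc' h2 hac z hz
  rw [← e2] at e1
  exact add_left_cancel e1

theorem TC.three_le_deg {M : BM E} (hM : M.TC) {U : Finset V} {h t : E → V}
    (hg : IsGr M U h t) {v : V} (hv : v ∈ U) : 3 ≤ (star M.S h t v).card := by
  have h1 : ind (star M.S h t v) ∈ M.R := hg.star_mem hv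
  have h2 : (ind (star M.S h t v) : E → ZMod 2) ≠ 0 := by
    intro h0
    rw [ind_eq_zero] at h0
    obtain ⟨e, he, hev⟩ := hg.ne v hv
    have : e ∈ star M.S h t v := Finset.mem_filter.2 ⟨he, hev⟩
    rw [h0] at this
    exact absurd this (Finset.notMem_empty e)
  have h3 := BM.TC.row_weight hM h1 h2
  rwa [spt_ind] at h3

/-- An `SC` graph with classes of at most two elements and all degrees at least 3 is 3-connected. -/
theorem IsGr.tc_of_deg {M : BM E} {U : Finset V} {h t : E → V} (hg : IsGr M U h t)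
    (hsc : M.SC) (h2 : M.Two) (hd : ∀ v ∈ U, 3 ≤ (star M.S h t v).card) : M.TC := by
  rw [TC_iff_SC]
  refine ⟨hsc, ?_⟩
  intro a ha b hb hs
  by_contra hab
  obtain ⟨s, hsU, hst⟩ := (hg.star2 hsc h2 ha hb hab).1 hs
  have h3 := hd s hsU
  rw [hst, Finset.card_pair hab] at h3
  omega

end SEY

end
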