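import Pool.Agent.Helper29.MFA.T25
import Pool.Agent.Helper29.MFA.T10

section

/-!
T3-Subdiv.
* `subdiv`: y a vertex with star {p,q} (p joins y u, q joins y v, u /= v), M con {q} is SC and p is in no
  series pair of M con {q}: then M is SC, and Two if M con {q} is Two.  (`SC_of_con` with a = q, b = p; Ser q p since {p,q} is a row.)
* `con_two`: q, p are in series (their star is a row, p, q are not coloops): `SC_con` with a = q, b = p; Two: Ser in
  M.con {q} is Ser in M.
-/

namespace SEY

open Finset

variable {E : Type} [Fintype E] [DecidableEq E] {V : Type} [Fintype V] [DecidableEq V]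

/-- The two edges at a vertex of degree two are in series. -/
private lemma subdiv_ser {M : BM E} {U : Finset V} {h t : E → V} {p q : E} {y : V}
    (hg : IsGr M U h t) (hy : y ∈ U) (hst : star M.S h t y = {p, q}) (hpq : p ≠ q) :
    p ∈ M.S ∧ q ∈ M.S ∧ M.Ser q p := by
  have h1 : ind (star M.S h t y) ∈ M.R := hg.star_mem hy
  have hp : p ∈ star M.S h t y := by rw [hst]; simp
  have hq : q ∈ star M.S h t y := by rw [hst]; simp
  refine ⟨(Finset.mem_filter.1 hp).1, (Finset.mem_filter.1 hq).1, ?_⟩
  intro z hz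
  have h2 := M.dot_eq_zero h1 hz
  rw [hst, ind_dot, Finset.sum_pair hpq] at h2
  exact (z_add_eq_zero.1 h2).symm

theorem subdiv {M : BM E} {U : Finset V} {h t : E → V} {p q : E} {y : V}
    (hg : IsGr M U h t) (hy : y ∈ U) (hst : star M.S h t y = {p, q}) (hpq : p ≠ q)
    (hcl : ∃ z ∈ M.Z, z q = 1)
    (hsc : (M.con {q}).SC) (h2 : (M.con {q}).Two)
    (hp : ∀ x ∈ M.S, x ≠ q → (M.con {q}).Ser p x → x = p) :
    M.SC ∧ M.Two := by
  obtain ⟨hpS, hqS, hs⟩ := subdiv_ser hg hy hst hpq
  obtain ⟨hSC, hser⟩ := SC_of_con M q p hqS hpS (Ne.symm hpq) hs hcl hsc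
  refine ⟨hSC, ?_⟩
  have key : ∀ x ∈ M.S, M.Ser q x → x = q ∨ x = p := by
    intro x hx hqx
    by_cases hxq : x = q
    · exact Or.inl hxq
    · right
      apply hp x hx hxq
      rw [hser p hpS hpq x hx hxq]
      intro z hz
      rw [← hs z hz]
      exact hqx z hz
  intro a ha b hb c hc hab hac
  by_cases haq : a = q
  · subst haq
    rcases key b hb hab with hb' | hb'
    · exact Or.inl hb'.symm
    · rcases key c hc hac with hc' | hc'
      · exact Or.inr (Or.inl hc'.symm)
      · exact Or.inr (Or.inr (hb'.trans hc'.symm))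
  · by_cases hbq : b = q
    · subst hbq
      have h1 : a = p := by
        rcases key a ha (fun z hz => (hab z hz).symm) with h | h
        · exact absurd h haq
        · exact h
      rcases key c hc (fun z hz => (hab z hz).symm.trans (hac z hz)) with hc' | hc'
      · exact Or.inr (Or.inr hc'.symm)
      · exact Or.inr (Or.inl (h1.trans hc'.symm))
    · by_cases hcq : c = q
      · subst hcq
        have h1 : a = p := by
          rcases key a ha (fun z hz => (hac z hz).symm) with h | h
          · exact absurd h haq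
          · exact h
        rcases key b hb (fun z hz => (hac z hz).symm.trans (hab z hz)) with hb' | hb'
        · exact Or.inr (Or.inr hb')
        · exact Or.inl (h1.trans hb'.symm)
      · have hS : ∀ x ∈ M.S, x ≠ q → x ∈ (M.con {q}).S := by
          intro x hx hxq
          exact Finset.mem_sdiff.2 ⟨hx, fun h => hxq (Finset.mem_singleton.1 h)⟩
        exact h2 a (hS a ha haq) b (hS b hb hbq) c (hS c hc hcq)
          ((hser a ha haq b hb hbq).2 hab) ((hser a ha haq c hc hcq).2 hac)

/-- Contracting one of the two edges at a vertex of degree two keeps `SC` and `Two`. -/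
theorem con_two {M : BM E} {U : Finset V} {h t : E → V} {p q : E} {y : V}
    (hg : IsGr M U h t) (hy : y ∈ U) (hst : star M.S h t y = {p, q}) (hpq : p ≠ q)
    (hsc : M.SC) (h2 : M.Two) : (M.con {q}).SC ∧ (M.con {q}).Two := by
  obtain ⟨hpS, hqS, hs⟩ := subdiv_ser hg hy hst hpq
  obtain ⟨hSC, hser⟩ := SC_con M hsc q p hqS hpS (Ne.symm hpq) hs
  refine ⟨hSC, ?_⟩
  have hS : ∀ x ∈ (M.con {q}).S, x ∈ M.S ∧ x ≠ q := by
    intro x hx
    have h1 := Finset.mem_sdiff.1 hx
    exact ⟨h1.1, fun h => h1.2 (Finset.mem_singleton.2 h)⟩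
  intro a ha b hb c hc hab hac
  obtain ⟨ha1, ha2⟩ := hS a ha
  obtain ⟨hb1, hb2⟩ := hS b hb
  obtain ⟨hc1, hc2⟩ := hS c hc
  exact h2 a ha1 b hb1 c hc1 ((hser a ha1 ha2 b hb1 hb2).1 hab) ((hser a ha1 ha2 c hc1 hc2).1 hac)

end SEY

end

section

/-!
T3-Gext: extending SC graphs by an edge.
* `gext`: M graph, x an edge joining u, v; M del x is SC, Two and a graph on the same vertices; x is not
  parallel to another edge; no vertex s of degree 2 of M del x (s /= u, v) has exactly the neighbours
  u and v.  Then M is SC and Two, and the stars of size 2 of M are stars of size 2 of M del x.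
  Proof: `SC_ext` with P = {x}.  z0 = a cycle through x (x is no coloop: otherwise ind {x} is a row of
  M, = cob pi, so pi is constant on U by connectivity of M del x, so cob pi x = 0).  hout: let z be a cycle
  with z x = 1 such that all elements a /= x with z a = 1 are in one class of M del x; by Two these
  are at most two elements.  None: z = ind {x}, but the star of u contains x once (h x /= t x): parity.
  One, y: y is parallel to x: from the parity at all stars (each vertex /= u,v is not an end of y).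
  Two, p and q: p /= q in series in M del x: star s = {p,q} (`IsGr.star2`), by parity of z = {x,p,q} at
  all vertices the neighbours of s are u, v (s is not u or v: star of u meets z evenly...: if s = u then
  star_M u = {x,p,q} has three elements of z, odd: contradiction).
  Two of M: Ser in M implies Ser in M del x for elements /= x, and x is alone.
-/

namespace SEY

open Finset

variable {E : Type} [Fintype E] [DecidableEq E] {V : Type} [Fintype V] [DecidableEq V]

theorem gext {M : BM E} {U : Finset V} {h t : E → V} {x : E} {u v : V} (hx : x ∈ M.S)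
    (hg : IsGr M U h t) (hg' : IsGr (M.del {x}) U h t) (hsc : (M.del {x}).SC)
    (h2 : (M.del {x}).Two) (hj : Jn h t x u v) (hpar : ∀ y ∈ M.S, y ≠ x → ¬ Jn h t y u v)
    (hs : ∀ s ∈ U, s ≠ u → s ≠ v → ∀ p ∈ M.S, ∀ q ∈ M.S, star (M.S \ {x}) h t s = {p, q} →
      Jn h t p s u → ¬ Jn h t q s v) :
    M.SC ∧ M.Two := by
  have hu : u ∈ U ∧ v ∈ U ∧ u ≠ v := by
    obtain ⟨h1, h2', h3⟩ := hg.ends x hx
    rcases hj with ⟨e1, e2⟩ | ⟨e1, e2⟩
    · rw [← e1, ← e2]
      exact ⟨h1, h2', h3⟩
    · rw [← e1, ← e2]
      exact ⟨h2', h1, Ne.symm h3⟩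
  obtain ⟨huU, hvU, huv⟩ := hu
  have hxu : x ∈ star M.S h t u := by
    refine Finset.mem_filter.2 ⟨hx, ?_⟩
    rcases hj with ⟨e1, e2⟩ | ⟨e1, e2⟩
    · exact Or.inl e1
    · exact Or.inr e2
  have hxv : x ∈ star M.S h t v := by
    refine Finset.mem_filter.2 ⟨hx, ?_⟩
    rcases hj with ⟨e1, e2⟩ | ⟨e1, e2⟩
    · exact Or.inr e2
    · exact Or.inl e1
  -- a cycle through `x`
  obtain ⟨z0, hz0, hz0x⟩ : ∃ z ∈ M.Z, z x = 1 := by
    by_contra hcon
    push Not at hcon
    have h1 : ind {x} ∈ M.R := by
      rw [M.mem_R_iff]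
      refine ⟨fun e he => ind_of_notMem (fun h' => he (by
        rw [Finset.mem_singleton.1 h']
        exact hx)), ?_⟩
      intro z hz
      rw [ind_dot, Finset.sum_singleton]
      exact z_ne_one.1 (hcon z hz)
    obtain ⟨π, hπ⟩ := (hg.rows _).1 h1
    have h3 : cob (M.del {x}).S h t π = 0 := by
      funext e
      unfold cob
      by_cases he : e ∈ (M.del {x}).S
      · rw [if_pos he]
        have he' : e ∈ M.S \ {x} := he
        obtain ⟨he1, he2⟩ := Finset.mem_sdiff.1 he'
        have h4 := congrFun hπ e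
        unfold cob at h4
        rw [if_pos he1, ind_of_notMem he2] at h4
        exact h4.symm
      · rw [if_neg he]
        rfl
    have h4 := hg'.conn π h3 (h x) (hg.ends x hx).1 (t x) (hg.ends x hx).2.1
    have h5 := congrFun hπ x
    unfold cob at h5
    rw [if_pos hx, ind_of_mem (Finset.mem_singleton_self x), h4, z_add_self] at h5
    exact one_ne_zero h5
  have hout : ∀ z ∈ M.Z, (∀ p ∈ ({x} : Finset E), z p = 1) →
      ∃ a b, a ∉ ({x} : Finset E) ∧ b ∉ ({x} : Finset E) ∧ z a = 1 ∧ z b = 1 ∧
        ¬ (M.del {x}).Ser a b := by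
    intro z hz hzx
    have hzx : z x = 1 := hzx x (Finset.mem_singleton_self x)
    by_contra hcon
    push Not at hcon
    have hser : ∀ a, a ≠ x → ∀ b, b ≠ x → z a = 1 → z b = 1 → (M.del {x}).Ser a b :=
      fun a ha b hb h1 h3 => hcon a b (by simpa using ha) (by simpa using hb) h1 h3
    set A : Finset E := (M.S \ {x}).filter (fun a => z a = 1) with hA
    have hAm : ∀ a, a ∈ A ↔ a ∈ M.S ∧ a ≠ x ∧ z a = 1 := by
      intro a
      simp [hA, and_assoc]
    have hxA : x ∉ A := fun h' => ((hAm x).1 h').2.1 rfl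
    have hzi : z = ind (insert x A) := by
      funext e
      by_cases he : e ∈ insert x A
      · rw [ind_of_mem he]
        rcases Finset.mem_insert.1 he with h1 | h1
        · rw [h1, hzx]
        · exact ((hAm e).1 h1).2.2
      · rw [ind_of_notMem he]
        have h1 : e ≠ x := fun h' => he (by rw [h']; exact Finset.mem_insert_self _ _)
        have h3 : e ∉ A := fun h' => he (Finset.mem_insert_of_mem h')
        by_cases h4 : e ∈ M.S
        · rcases zcases (z e) with h5 | h5
          · exact h5
          · exact absurd ((hAm e).2 ⟨h4, h1, h5⟩) h3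
        · exact hz.1 e h4
    have par : ∀ s ∈ U, (if x ∈ star M.S h t s then (1 : ZMod 2) else 0) +
        ∑ b ∈ A, (if b ∈ star M.S h t s then (1 : ZMod 2) else 0) = 0 := by
      intro s hsU
      have h1 := hz.2 _ (hg.star_mem hsU)
      rw [ind_dot, hzi] at h1
      have h3 := Finset.sum_insert (f := fun b => if b ∈ star M.S h t s then (1 : ZMod 2) else 0)
        hxA
      have h4 : ∑ b ∈ insert x A, (if b ∈ star M.S h t s then (1 : ZMod 2) else 0) = 0 := by
        refine Eq.trans ?_ h1
        simp only [ind_apply]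
        rw [Finset.sum_ite_mem, Finset.sum_ite_mem, Finset.inter_comm]
      exact h3.symm.trans h4
    have two : ∀ {e : E} {s s' : V}, s ≠ s' → e ∈ star M.S h t s → e ∈ star M.S h t s' →
        Jn h t e s s' := by
      intro e s s' hss h1 h3
      have h4 := (Finset.mem_filter.1 h1).2
      have h5 := (Finset.mem_filter.1 h3).2
      rcases h4 with h4 | h4 <;> rcases h5 with h5 | h5
      · exact absurd (h4.symm.trans h5) hss
      · exact Or.inl ⟨h4, h5⟩
      · exact Or.inr ⟨h5, h4⟩
      · exact absurd (h4.symm.trans h5) hss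
    by_cases hA0 : A = ∅
    · have h1 := par u huU
      rw [hA0, if_pos hxu, Finset.sum_empty] at h1
      simp at h1
    obtain ⟨p, hp⟩ := Finset.nonempty_iff_ne_empty.2 hA0
    obtain ⟨hpS, hpx, hp1⟩ := (hAm p).1 hp
    by_cases hA1 : ∃ q ∈ A, q ≠ p
    · obtain ⟨q, hq, hqp⟩ := hA1
      obtain ⟨hqS, hqx, hq1⟩ := (hAm q).1 hq
      have hpS' : p ∈ (M.del {x}).S := Finset.mem_sdiff.2 ⟨hpS, by simpa using hpx⟩
      have hqS' : q ∈ (M.del {x}).S := Finset.mem_sdiff.2 ⟨hqS, by simpa using hqx⟩
      have hA2 : A = {p, q} := by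
        ext a
        constructor
        · intro ha
          obtain ⟨haS, hax, ha1⟩ := (hAm a).1 ha
          have haS' : a ∈ (M.del {x}).S := Finset.mem_sdiff.2 ⟨haS, by simpa using hax⟩
          rcases h2 p hpS' q hqS' a haS' (hser p hpx q hqx hp1 hq1)
            (hser p hpx a hax hp1 ha1) with h1 | h1 | h1
          · exact absurd h1.symm hqp
          · rw [h1]; simp
          · rw [h1]; simp
        · intro ha
          rcases Finset.mem_insert.1 ha with h1 | h1
          · rw [h1]; exact hp
          · rw [Finset.mem_singleton.1 h1]; exact hq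
      obtain ⟨s, hsU, hst⟩ := (hg'.star2 hsc h2 hpS' hqS' (Ne.symm hqp)).1
        (hser p hpx q hqx hp1 hq1)
      have hst' : star (M.S \ {x}) h t s = {p, q} := hst
      have hps : p ∈ star M.S h t s := by
        have h1 : p ∈ star (M.S \ {x}) h t s := by rw [hst']; simp
        exact Finset.mem_filter.2 ⟨hpS, (Finset.mem_filter.1 h1).2⟩
      have hqs : q ∈ star M.S h t s := by
        have h1 : q ∈ star (M.S \ {x}) h t s := by rw [hst']; simp
        exact Finset.mem_filter.2 ⟨hqS, (Finset.mem_filter.1 h1).2⟩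
      have par2 : ∀ s ∈ U, (if x ∈ star M.S h t s then (1 : ZMod 2) else 0) +
          ((if p ∈ star M.S h t s then (1 : ZMod 2) else 0) +
            (if q ∈ star M.S h t s then (1 : ZMod 2) else 0)) = 0 := by
        intro s hsU
        have h1 := par s hsU
        rwa [hA2, Finset.sum_pair (Ne.symm hqp)] at h1
      have hsu : s ≠ u := by
        intro h1
        rw [h1] at hps hqs
        have h3 := par2 u huU
        rw [if_pos hxu, if_pos hps, if_pos hqs] at h3
        revert h3
        decide
      have hsv : s ≠ v := by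
        intro h1
        rw [h1] at hps hqs
        have h3 := par2 v hvU
        rw [if_pos hxv, if_pos hps, if_pos hqs] at h3
        revert h3
        decide
      -- the three ends of one edge
      have three : ∀ {e : E}, e ∈ star M.S h t s → e ∈ star M.S h t u → e ∈ star M.S h t v →
          False := by
        intro e h1 h3 h4
        rcases two hsu h1 h3 with ⟨a1, a2⟩ | ⟨a1, a2⟩ <;>
          rcases two hsv h1 h4 with ⟨b1, b2⟩ | ⟨b1, b2⟩
        · exact huv (a2.symm.trans b2)
        · exact hsv (a1.symm.trans b1)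
        · exact hsu (b1.symm.trans a1)
        · exact huv (a1.symm.trans b1)
      have pu := par2 u huU
      have pv := par2 v hvU
      rw [if_pos hxu] at pu
      rw [if_pos hxv] at pv
      by_cases hpu : p ∈ star M.S h t u
      · by_cases hqv : q ∈ star M.S h t v
        · exact hs s hsU hsu hsv p hpS q hqS hst' (two hsu hps hpu) (two hsv hqs hqv)
        · have hpv : p ∉ star M.S h t v := fun h1 => three hps hpu h1
          rw [if_neg hpv, if_neg hqv] at pv
          revert pv
          decide
      · by_cases hqu : q ∈ star M.S h t u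
        · by_cases hpv : p ∈ star M.S h t v
          · exact hs s hsU hsu hsv q hqS p hpS (by rw [hst', Finset.pair_comm])
              (two hsu hqs hqu) (two hsv hps hpv)
          · have hqv : q ∉ star M.S h t v := fun h1 => three hqs hqu h1
            rw [if_neg hpv, if_neg hqv] at pv
            revert pv
            decide
        · rw [if_neg hpu, if_neg hqu] at pu
          revert pu
          decide
    · push Not at hA1
      have hA2 : A = {p} := by
        ext a
        constructor
        · intro ha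
          rw [hA1 a ha]
          simp
        · intro ha
          rw [Finset.mem_singleton.1 ha]
          exact hp
      have pu := par u huU
      have pv := par v hvU
      rw [hA2, Finset.sum_singleton, if_pos hxu] at pu
      rw [hA2, Finset.sum_singleton, if_pos hxv] at pv
      by_cases hpu : p ∈ star M.S h t u
      · by_cases hpv : p ∈ star M.S h t v
        · exact hpar p hpS hpx (two huv hpu hpv)
        · rw [if_neg hpv] at pv
          revert pv
          decide
      · rw [if_neg hpu] at pu
        revert pu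
        decide
  obtain ⟨h5, h6⟩ := SC_ext M {x} (by simpa using hx) (Finset.singleton_nonempty x) hsc z0 hz0
    (fun p hp => by rw [Finset.mem_singleton.1 hp]; exact hz0x)
    (fun z _ => by
      rcases zcases (z x) with h1 | h1
      · exact Or.inl (fun p hp => by rw [Finset.mem_singleton.1 hp]; exact h1)
      · exact Or.inr (fun p hp => by rw [Finset.mem_singleton.1 hp]; exact h1)) hout
  refine ⟨h5, ?_⟩
  intro a ha b hb c hc hab hac
  rcases (h6 a ha b hb).1 hab with ⟨h1, h3⟩ | ⟨h1, h3, h4, -⟩
  · left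
    rw [Finset.mem_singleton.1 h1, Finset.mem_singleton.1 h3]
  · rcases (h6 a ha c hc).1 hac with ⟨h7, -⟩ | ⟨-, h7, h8, -⟩
    · exact absurd h7 h1
    · exact h2 a (Finset.mem_sdiff.2 ⟨ha, h1⟩) b (Finset.mem_sdiff.2 ⟨hb, h3⟩) c
        (Finset.mem_sdiff.2 ⟨hc, h7⟩) h4 h8

end SEY

end

section

/-!
T3-SitH.
* `SitI.hp_gr`, `SitI.hp_tc`, `SitI.hp_T`: H' := (M.con {g2}).del {e,k}.  H del k is SC with the only vertex of degree 2
  being y (d has degree >= 3 in H del k, other vertices are not ends of k), star y = {g1,g2}.  Contract g2 (merge y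
  into b): `con_two`, all degrees >= 3 (b keeps its degree: loses g2, gains g1), so TC.  IsGr by `IsGr.con`.
-/

namespace SEY

open Finset

variable {E : Type} [Fintype E] [DecidableEq E] {V : Type} [Fintype V] [DecidableEq V]
variable {r l : ℕ} {rows : Fin r → Fin l → ZMod 2} {M : BM E} {U : Finset V} {h t : E → V}
  {e k g1 g2 : E} {y a b c d : V}

private lemma SitH_mem (S : SitI rows M U h t e k g1 g2 y a b c d) :
    (k ∈ M.S ∧ k ≠ e) ∧ (g1 ∈ M.S ∧ g1 ≠ e) ∧ (g2 ∈ M.S ∧ g2 ≠ e) := by
  have key : ∀ x ∈ ({k, g1, g2} : Finset E), x ∈ M.S ∧ x ≠ e := by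
    intro x hx
    rw [← S.st] at hx
    have := (Finset.mem_filter.1 hx).1
    rw [Finset.mem_sdiff, Finset.mem_singleton] at this
    exact this
  exact ⟨key k (by simp), key g1 (by simp), key g2 (by simp)⟩

private lemma SitH_Jn_inj {x : E} {u v w : V} (h1 : Jn h t x u v) (h2 : Jn h t x u w) :
    v = w := by
  rcases h1 with ⟨p1, p2⟩ | ⟨p1, p2⟩ <;> rcases h2 with ⟨q1, q2⟩ | ⟨q1, q2⟩
  · rw [← p2, ← q2]
  · rw [← p2, q2, ← p1, q1]
  · rw [← p1, q1, ← p2, q2]
  · rw [← p1, ← q1]

private lemma SitH_ne (S : SitI rows M U h t e k g1 g2 y a b c d) :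
    k ≠ g1 ∧ k ≠ g2 ∧ g1 ≠ g2 := by
  refine ⟨?_, ?_, ?_⟩
  · rintro rfl
    exact S.ad (SitH_Jn_inj S.j1 S.jk)
  · rintro rfl
    exact S.bd (SitH_Jn_inj S.j2 S.jk)
  · rintro rfl
    exact S.ab (SitH_Jn_inj S.j1 S.j2)

private lemma SitH_eq (M : BM E) {e k g2 : E} (h1 : g2 ≠ e) (h2 : k ≠ g2) :
    (M.del {e, k}).con {g2} = (M.con {g2}).del {e, k} := by
  refine con_del_comm M {g2} {e, k} ?_
  rw [Finset.disjoint_singleton_left]
  simp only [Finset.mem_insert, Finset.mem_singleton, not_or]
  exact ⟨h1, Ne.symm h2⟩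

private lemma SitH_grk (S : SitI rows M U h t e k g1 g2 y a b c d) :
    IsGr (M.del {e, k}) U h t := by
  obtain ⟨⟨hk, hke⟩, -, -⟩ := SitH_mem S
  have hk' : k ∈ (M.del {e}).S :=
    Finset.mem_sdiff.2 ⟨hk, by rw [Finset.mem_singleton]; exact hke⟩
  have h1 := S.gr.gr.del hk' (BM.TC.exists_cycle S.tc hk')
  rw [del_del] at h1
  exact h1

private lemma SitH_two (S : SitI rows M U h t e k g1 g2 y a b c d) :
    (M.del {e, k}).Two := by
  obtain ⟨⟨hk, hke⟩, -, -⟩ := SitH_mem S
  have hk' : k ∈ (M.del {e}).S :=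
    Finset.mem_sdiff.2 ⟨hk, by rw [Finset.mem_singleton]; exact hke⟩
  have h1 := TC.del_two S.tc hk'
  rw [del_del] at h1
  exact h1

private lemma SitH_yU (S : SitI rows M U h t e k g1 g2 y a b c d) : y ∈ U :=
  S.gr.sub (by simp)

private lemma SitH_star (S : SitI rows M U h t e k g1 g2 y a b c d) :
    star (M.del {e, k}).S h t y = {g1, g2} := by
  obtain ⟨n1, n2, n3⟩ := SitH_ne S
  have h1 : star (M.del {e, k}).S h t y = star (M.S \ {e}) h t y \ {k} := by
    ext x
    show x ∈ (M.S \ {e, k}).filter _ ↔ x ∈ (M.S \ {e}).filter _ \ {k}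
    simp only [Finset.mem_filter, Finset.mem_sdiff, Finset.mem_insert, Finset.mem_singleton]
    tauto
  rw [h1, S.st]
  ext x
  simp only [Finset.mem_sdiff, Finset.mem_insert, Finset.mem_singleton]
  constructor
  · rintro ⟨h1 | h1, h2⟩
    · exact absurd h1 h2
    · exact h1
  · rintro (rfl | rfl)
    · exact ⟨Or.inr (Or.inl rfl), Ne.symm n1⟩
    · exact ⟨Or.inr (Or.inr rfl), Ne.symm n2⟩

private lemma SitH_g (S : SitI rows M U h t e k g1 g2 y a b c d) :
    g1 ∈ (M.del {e, k}).S ∧ g2 ∈ (M.del {e, k}).S := by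
  have h1 : ∀ x ∈ star (M.del {e, k}).S h t y, x ∈ (M.del {e, k}).S :=
    fun x hx => (Finset.mem_filter.1 hx).1
  rw [SitH_star S] at h1
  exact ⟨h1 g1 (by simp), h1 g2 (by simp)⟩

theorem SitI.hp_gr (S : SitI rows M U h t e k g1 g2 y a b c d) :
    IsGr ((M.con {g2}).del {e, k}) (U.erase y) (fun x => mg y b (h x)) (fun x => mg y b (t x)) := by
  obtain ⟨-, -, ⟨hg2, hg2e⟩⟩ := SitH_mem S
  obtain ⟨n1, n2, n3⟩ := SitH_ne S
  have h1 := SitH_grk S
  obtain ⟨m1, m2⟩ := SitH_g S
  have h2 := h1.con m2 S.j2
    (fun x hx hxg hj => hxg (h1.no_par S.sc hx m2 hj S.j2)) (by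
      have h3 : ({g1, g2} : Finset E) ⊆ (M.del {e, k}).S := by
        intro x hx
        simp only [Finset.mem_insert, Finset.mem_singleton] at hx
        rcases hx with rfl | rfl
        · exact m1
        · exact m2
      have h4 := Finset.card_le_card h3
      rwa [Finset.card_pair n3] at h4)
  rwa [SitH_eq M hg2e n2] at h2

theorem SitI.hp_tc (S : SitI rows M U h t e k g1 g2 y a b c d)
    (hd : 4 ≤ (star (M.S \ {e}) h t d).card) : ((M.con {g2}).del {e, k}).TC := by
  obtain ⟨⟨hk, hke⟩, ⟨hg1, hg1e⟩, ⟨hg2, hg2e⟩⟩ := SitH_mem S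
  obtain ⟨n1, n2, n3⟩ := SitH_ne S
  have h1 := SitH_grk S
  have h2 := con_two h1 (SitH_yU S) (SitH_star S) n3 S.sc (SitH_two S)
  rw [SitH_eq M hg2e n2] at h2
  refine S.hp_gr.tc_of_deg h2.1 h2.2 ?_
  intro v hv
  rw [Finset.mem_erase] at hv
  obtain ⟨hvy, hvU⟩ := hv
  have h3 : 3 ≤ (star (M.S \ {e}) h t v).card := TC.three_le_deg S.tc S.gr.gr hvU
  -- the new star contains the old one without `k` and `g2`
  have hsub : ∀ x, x ∈ star (M.S \ {e}) h t v → x ≠ k → x ≠ g2 →
      x ∈ star ((M.con {g2}).del {e, k}).S (fun x => mg y b (h x)) (fun x => mg y b (t x)) v := by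
    intro x hx hxk hxg
    rw [star, Finset.mem_filter, Finset.mem_sdiff, Finset.mem_singleton] at hx
    obtain ⟨⟨hxS, hxe⟩, hxv⟩ := hx
    rw [star, Finset.mem_filter]
    refine ⟨?_, ?_⟩
    · show x ∈ (M.S \ {g2}) \ {e, k}
      simp only [Finset.mem_sdiff, Finset.mem_insert, Finset.mem_singleton, not_or]
      exact ⟨⟨hxS, hxg⟩, hxe, hxk⟩
    · rcases hxv with hxv | hxv
      · left
        show mg y b (h x) = v
        rw [hxv, mg, if_neg hvy]
      · right
        show mg y b (t x) = v
        rw [hxv, mg, if_neg hvy]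
  have hk_star : k ∈ star (M.S \ {e}) h t v → v = d := by
    intro hx
    rw [star, Finset.mem_filter] at hx
    rcases S.jk with ⟨p1, p2⟩ | ⟨p1, p2⟩ <;> rcases hx.2 with hx | hx
    · exact absurd (hx.symm.trans p1) hvy
    · exact hx.symm.trans p2
    · exact hx.symm.trans p1
    · exact absurd (hx.symm.trans p2) hvy
  have hg_star : g2 ∈ star (M.S \ {e}) h t v → v = b := by
    intro hx
    rw [star, Finset.mem_filter] at hx
    rcases S.j2 with ⟨p1, p2⟩ | ⟨p1, p2⟩ <;> rcases hx.2 with hx | hx
    · exact absurd (hx.symm.trans p1) hvy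
    · exact hx.symm.trans p2
    · exact hx.symm.trans p1
    · exact absurd (hx.symm.trans p2) hvy
  by_cases hvb : v = b
  · -- `b` loses `g2` and gains `g1`
    have hg1_star : g1 ∉ star (M.S \ {e}) h t v := by
      intro hx
      rw [star, Finset.mem_filter] at hx
      have hva : v ≠ a := by rw [hvb]; exact Ne.symm S.ab
      rcases S.j1 with ⟨p1, p2⟩ | ⟨p1, p2⟩ <;> rcases hx.2 with hx | hx
      · exact absurd (hx.symm.trans p1) hvy
      · exact hva (hx.symm.trans p2)
      · exact hva (hx.symm.trans p1)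
      · exact absurd (hx.symm.trans p2) hvy
    have h4 : insert g1 ((star (M.S \ {e}) h t v).erase g2) ⊆
        star ((M.con {g2}).del {e, k}).S (fun x => mg y b (h x)) (fun x => mg y b (t x)) v := by
      intro x hx
      rw [Finset.mem_insert] at hx
      rcases hx with rfl | hx
      · rw [star, Finset.mem_filter]
        refine ⟨?_, ?_⟩
        · show x ∈ (M.S \ {g2}) \ {e, k}
          simp only [Finset.mem_sdiff, Finset.mem_insert, Finset.mem_singleton, not_or]
          exact ⟨⟨hg1, n3⟩, hg1e, Ne.symm n1⟩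
        · rcases S.j1 with ⟨p1, p2⟩ | ⟨p1, p2⟩
          · left
            show mg y b (h x) = v
            rw [p1, mg, if_pos rfl, hvb]
          · right
            show mg y b (t x) = v
            rw [p2, mg, if_pos rfl, hvb]
      · rw [Finset.mem_erase] at hx
        refine hsub x hx.2 ?_ hx.1
        rintro rfl
        exact S.bd (hvb.symm.trans (hk_star hx.2))
    have h5 := Finset.card_le_card h4
    rw [Finset.card_insert_of_notMem (fun hx => hg1_star (Finset.mem_of_mem_erase hx))] at h5
    have h6 : (star (M.S \ {e}) h t v).card ≤ ((star (M.S \ {e}) h t v).erase g2).card + 1 :=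
      by
      have := Finset.pred_card_le_card_erase (s := star (M.S \ {e}) h t v) (a := g2)
      omega
    omega
  · by_cases hvd : v = d
    · have h4 : (star (M.S \ {e}) h t v).erase k ⊆
          star ((M.con {g2}).del {e, k}).S (fun x => mg y b (h x)) (fun x => mg y b (t x)) v := by
        intro x hx
        rw [Finset.mem_erase] at hx
        refine hsub x hx.2 hx.1 ?_
        rintro rfl
        exact hvb (hg_star hx.2)
      have h5 := Finset.card_le_card h4
      have h6 : (star (M.S \ {e}) h t v).card ≤ ((star (M.S \ {e}) h t v).erase k).card + 1 :=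
        by
        have := Finset.pred_card_le_card_erase (s := star (M.S \ {e}) h t v) (a := k)
        omega
      rw [← hvd] at hd
      omega
    · refine le_trans h3 (Finset.card_le_card ?_)
      intro x hx
      refine hsub x hx ?_ ?_
      · rintro rfl
        exact hvd (hk_star hx)
      · rintro rfl
        exact hvb (hg_star hx)

theorem SitI.hp_T (h0 : (ofRows rows).TC) (S : SitI rows M U h t e k g1 g2 y a b c d) :
    HasT rows ((M.con {g2}).del {e, k}) := by
  obtain ⟨-, -, ⟨hg2, hg2e⟩⟩ := SitH_mem S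
  obtain ⟨n1, n2, n3⟩ := SitH_ne S
  obtain ⟨m1, m2⟩ := SitH_g S
  have hs : (M.del {e, k}).Ser g2 g1 := by
    rw [(SitH_grk S).star2 S.sc (SitH_two S) m2 m1 (Ne.symm n3)]
    refine ⟨y, SitH_yU S, ?_⟩
    rw [SitH_star S, Finset.pair_comm]
  have h1 := HasT_con h0 m2 m1 (Ne.symm n3) hs S.hasT
  rwa [SitH_eq M hg2e n2] at h1

end SEY

end

section

/-!
T3-MinCx: consequences of minimality.
* `MinCx.sc_graphic` (G): induction on |N.S|.  If all series classes of N are singletons, N is TC (`TC_iff_SC`)
  and the minimality applies.  Else N.Ser a b, a /= b: N.con {a} is SC (`SC_con`), HasT (`HasT_con`), a minor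
  of M, smaller: graphic; `Graphic_of_con` (a is not a coloop: `SC_not_coloop`).
* `MinCx.graft_graphic`: `extg` gives N graphic or (SC and Two); in the second case HasT N by `HasT_of_del`, apply (G).
* `MinCx.false_of_graft`: N is graphic by the previous lemma; `crit` gives SS inside T with stars of size 2; in
  a 3-connected graph all stars have at least 3 edges (a star of size 2 is a row (`IsGr.star_mem` for
  N.del {e}), i.e. a series pair; use `TC_iff_SC` and `IsGr.star2` or directly), so SS is empty and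
  swT = T (T is a subset of U), |T| <= 2, contradiction.
* `MinCx.four_le`: `IsGraft.graphic` and T even.
-/

namespace SEY

open Finset

variable {E : Type} [Fintype E] [DecidableEq E] {V : Type} [Fintype V] [DecidableEq V]

theorem MinCx.sc_graphic {r l : ℕ} {rows : Fin r → Fin l → ZMod 2} (h0 : (ofRows rows).TC)
    {M : BM E} (hM : MinCx rows M) (N : BM E) (hN : Minor N M) (hc : N.S.card < M.S.card)
    (hsc : N.SC) (hT : HasT rows N) : Graphic N := by
  obtain ⟨n, hn⟩ : ∃ n, N.S.card = n := ⟨_, rfl⟩
  induction n using Nat.strong_induction_on generalizing N with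
  | _ n ih =>
    by_cases hser : ∀ a ∈ N.S, ∀ b ∈ N.S, N.Ser a b → a = b
    · exact hM.min N hN hc ((TC_iff_SC N).2 ⟨hsc, hser⟩) hT
    · push Not at hser
      obtain ⟨a, ha, b, hb, hs, hab⟩ := hser
      have hlt : (N.con {a}).S.card < N.S.card := by
        refine Finset.card_lt_card (Finset.ssubset_iff_subset_ne.2 ⟨Finset.sdiff_subset, ?_⟩)
        intro heq
        have h1 : a ∈ N.S \ {a} := by
          have h2 : a ∈ (N.con {a}).S := by
            rw [heq]
            exact ha
          exact h2
        exact (Finset.mem_sdiff.1 h1).2 (Finset.mem_singleton_self a)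
      have hgr : Graphic (N.con {a}) :=
        ih (N.con {a}).S.card (by omega) (N.con {a}) (Minor_trans (Minor_con N {a}) hN)
          (by omega) (SC_con N hsc a b ha hb hab hs).1 (HasT_con h0 ha hb hab hs hT) rfl
      exact Graphic_of_con ha hb hab hs (SC_not_coloop N hsc a ha) hgr

theorem MinCx.graft_graphic {r l : ℕ} {rows : Fin r → Fin l → ZMod 2} (h0 : (ofRows rows).TC)
    {M : BM E} (hM : MinCx rows M) (N : BM E) (hN : Minor N M) (hc : N.S.card < M.S.card)
    {e : E} {U : Finset V} {h t : E → V} {T : Finset V} (hg : IsGraft N e U h t T)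
    (hsc : (N.del {e}).SC) (h2 : (N.del {e}).Two) (hT : HasT rows (N.del {e})) : Graphic N := by
  rcases extg hg hsc h2 with h | h
  · exact hM.sc_graphic h0 N hN hc h.1 (HasT_of_del hT)
  · exact h

theorem MinCx.false_of_graft {r l : ℕ} {rows : Fin r → Fin l → ZMod 2} (h0 : (ofRows rows).TC)
    {M : BM E} (hM : MinCx rows M) (N : BM E) (hN : Minor N M) (hc : N.S.card < M.S.card)
    {e : E} {U : Finset V} {h t : E → V} {T : Finset V} (hg : IsGraft N e U h t T)
    (htc : (N.del {e}).TC) (hT : HasT rows (N.del {e})) (h4 : 4 ≤ T.card) : False := by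
  have hsc := (TC_iff_SC (N.del {e})).1 htc
  have htwo : (N.del {e}).Two := by
    intro a ha b hb c hc' hab _
    exact Or.inl (hsc.2 a ha b hb hab)
  have hG : Graphic N := hM.graft_graphic h0 N hN hc hg hsc.1 htwo hT
  obtain ⟨SS, hSS, hst, hcard⟩ := crit hg hsc.1 htwo hG
  have hempty : SS = ∅ := by
    rw [Finset.eq_empty_iff_forall_notMem]
    intro s hs
    have h1 : ind (star (N.S \ {e}) h t s) ∈ (N.del {e}).R := hg.gr.star_mem (hg.sub (hSS hs))
    have h2 := hst s hs
    have h3 : (ind (star (N.S \ {e}) h t s) : E → ZMod 2) ≠ 0 := by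
      rw [Ne, ind_eq_zero]
      intro h4
      rw [h4] at h2
      simp at h2
    have h4 := htc.row_weight h1 h3
    rw [spt_ind] at h4
    omega
  subst hempty
  have hsw : swT (N.S \ {e}) h t U T ∅ = T := by
    ext v
    simp only [swT, Finset.mem_filter, Finset.sum_empty, add_zero]
    constructor
    · rintro ⟨-, hodd⟩
      by_contra hv
      rw [if_neg hv] at hodd
      exact absurd hodd (by decide)
    · intro hv
      refine ⟨hg.sub hv, ?_⟩
      rw [if_pos hv]
      exact odd_one
  rw [hsw] at hcard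
  omega

theorem MinCx.four_le {r l : ℕ} {rows : Fin r → Fin l → ZMod 2}
    {M : BM E} (hM : MinCx rows M) {e : E} {U : Finset V} {h t : E → V} {T : Finset V}
    (hg : IsGraft M e U h t T) : 4 ≤ T.card := by
  by_contra hlt
  have h3 := hg.even
  have h2 : T.card ≤ 2 := by
    obtain ⟨k, hk⟩ := h3
    omega
  exact hM.ng (hg.graphic h2)

end SEY

end
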