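import Pool.Agent.Helper29.MFA.T26
import Pool.Agent.Helper29.MFA.T10

section

/-!
T3-Step4d.
T3-Step4 (k2 /= f).  k2 is an element of H' = (M.con {g2}).del {e,k}, k2 /= g1, with M.del {e,k,k2} SC and HasT
(this is H' del k2 with the edge f = ab subdivided by y).  F := (M.con {g2}).del {e,k,k2} = H' del k2 is SC (`SC_con`, g1,g2
in series in M.del {e,k,k2}: star y = {g1,g2}), Two (`TC.del_two` for H'), graph on U - y with ends mg y b (g1 joins a, b).
Facts used everywhere: no edge of H joins a and b, none joins y to something else than a, b, d; H' has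
no parallel edges.

* `step4_dich`: `SC_ext` for M' = M.del {e,k2}, P = {k}, M'.del {k} = M.del {e,k,k2}.  If hout holds: M' is SC.  Else there is a cycle z
  of M' with z k = 1 and all elements of z other than k pairwise in series in M'.del {k}.  Parity of z
  at y: exactly one of g1,g2 is in z.  Parity at d: some x1 /= k at d with z x1 = 1; x1 is not g1, g2 (d /= y,a,b).
  As g1, g2 are in series in M'.del {k}: Ser g1 x1, also in F.  `TC.triad` for H': {k2,g1,x1} is a row of H';
  `IsGr.star2` for F: star_F s = {g1,x1}, s = a or s = b (ends of g1 in F).  As deg_H' (s) >= 3 : star_H' s = {g1,x1,k2}; so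
  star_H a = {g1,x1,k2} or star_H b = {g2,x1,k2}; x1 joins s and d.
-/

namespace SEY

open Finset

variable {E : Type} [Fintype E] [DecidableEq E] {V : Type} [Fintype V] [DecidableEq V]
variable {r l : ℕ} {rows : Fin r → Fin l → ZMod 2} {M : BM E} {U : Finset V} {h t : E → V}
  {e k g1 g2 : E} {y a b c d : V}

/-- Parity of a cycle at a vertex. -/
lemma Step4d_parity {N : BM E} {U : Finset V} {h t : E → V} (hg : IsGr N U h t) {v : V}
    (hv : v ∈ U) {z : E → ZMod 2} (hz : z ∈ N.Z) : ∑ x ∈ star N.S h t v, z x = 0 := by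
  rw [← ind_dot]
  exact N.dot_eq_zero (hg.star_mem hv) hz

omit [Fintype V] in
lemma Step4d_mem_star {S : Finset E} {h t : E → V} {v : V} {x : E} :
    x ∈ star S h t v ↔ x ∈ S ∧ (h x = v ∨ t x = v) := by
  unfold star
  rw [Finset.mem_filter]

omit [Fintype V] in
lemma Step4d_mg_a {u v w s : V} (hsu : s ≠ u) (hsv : s ≠ v) : mg u v w = s ↔ w = s := by
  unfold mg
  by_cases h : w = u
  · rw [if_pos h]
    constructor
    · intro h1; exact absurd h1.symm hsv
    · intro h1; exact absurd (h1.symm.trans h) hsu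
  · rw [if_neg h]

omit [Fintype V] in
lemma Step4d_mg_v {u v w : V} : mg u v w = v ↔ w = v ∨ w = u := by
  unfold mg
  by_cases h : w = u
  · rw [if_pos h]
    simp [h]
  · rw [if_neg h]
    simp [h]

theorem SitI.step4_dich (S : SitI rows M U h t e k g1 g2 y a b c d)
    (hd : 4 ≤ (star (M.S \ {e}) h t d).card) {k2 : E} (hk : k2 ∈ M.S) (hke : k2 ≠ e)
    (hkk : k2 ≠ k) (hk1 : k2 ≠ g1) (hk2 : k2 ≠ g2) (hsc : (M.del {e, k, k2}).SC) :
    (M.del {e, k2}).SC ∨
      (∃ x1, star (M.S \ {e}) h t a = {g1, x1, k2} ∧ Jn h t x1 a d) ∨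
      (∃ x1, star (M.S \ {e}) h t b = {g2, x1, k2} ∧ Jn h t x1 b d) := by
  by_cases hMSC : (M.del {e, k2}).SC
  · exact Or.inl hMSC
  right
  -- basic facts
  have hH : IsGr (M.del {e}) U h t := S.gr.gr
  have hHS : (M.del {e}).S = M.S \ {e} := rfl
  have hstk : k ∈ star (M.S \ {e}) h t y := by rw [S.st]; simp
  have hst1 : g1 ∈ star (M.S \ {e}) h t y := by rw [S.st]; simp
  have hst2 : g2 ∈ star (M.S \ {e}) h t y := by rw [S.st]; simp
  have hkS : k ∈ M.S \ {e} := (Step4d_mem_star.1 hstk).1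
  have h1S : g1 ∈ M.S \ {e} := (Step4d_mem_star.1 hst1).1
  have h2S : g2 ∈ M.S \ {e} := (Step4d_mem_star.1 hst2).1
  have hkM : k ∈ M.S ∧ k ≠ e := by simpa using hkS
  have h1M : g1 ∈ M.S ∧ g1 ≠ e := by simpa using h1S
  have h2M : g2 ∈ M.S ∧ g2 ≠ e := by simpa using h2S
  -- ends
  have hyU : y ∈ U := by
    have := hH.ends k hkS
    rcases S.jk with ⟨h1, _⟩ | ⟨_, h2⟩
    · rw [← h1]; exact this.1
    · rw [← h2]; exact this.2.1
  have hdU : d ∈ U := by
    have := hH.ends k hkS
    rcases S.jk with ⟨_, h2⟩ | ⟨h1, _⟩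
    · rw [← h2]; exact this.2.1
    · rw [← h1]; exact this.1
  have hkends : ∀ v, (h k = v ∨ t k = v) ↔ (v = y ∨ v = d) := by
    intro v
    rcases S.jk with ⟨h1, h2⟩ | ⟨h1, h2⟩ <;> rw [h1, h2] <;> constructor <;>
      rintro (h | h) <;> simp [h]
  have h1ends : ∀ v, (h g1 = v ∨ t g1 = v) ↔ (v = y ∨ v = a) := by
    intro v
    rcases S.j1 with ⟨h1, h2⟩ | ⟨h1, h2⟩ <;> rw [h1, h2] <;> constructor <;>
      rintro (h | h) <;> simp [h]
  have h2ends : ∀ v, (h g2 = v ∨ t g2 = v) ↔ (v = y ∨ v = b) := by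
    intro v
    rcases S.j2 with ⟨h1, h2⟩ | ⟨h1, h2⟩ <;> rw [h1, h2] <;> constructor <;>
      rintro (h | h) <;> simp [h]
  have hk_ne1 : k ≠ g1 := by
    intro h1
    have := (hkends d).2 (Or.inr rfl)
    rw [h1] at this
    rcases (h1ends d).1 this with h2 | h2
    · exact S.yd h2.symm
    · exact S.ad h2.symm
  have hk_ne2 : k ≠ g2 := by
    intro h1
    have := (hkends d).2 (Or.inr rfl)
    rw [h1] at this
    rcases (h2ends d).1 this with h2 | h2
    · exact S.yd h2.symm
    · exact S.bd h2.symm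
  have h12 : g1 ≠ g2 := by
    intro h1
    have := (h1ends a).2 (Or.inr rfl)
    rw [h1] at this
    rcases (h2ends a).1 this with h2 | h2
    · exact S.ya h2.symm
    · exact S.ab h2
  -- cycles of M without e are cycles of H
  have hcyc : ∀ z ∈ M.Z, z e = 0 → z ∈ (M.del {e}).Z := by
    intro z hz h0
    rw [BM.mem_Z_del]
    refine ⟨hz, ?_⟩
    intro x hx
    rw [Finset.mem_singleton] at hx
    rw [hx]; exact h0
  have hpy : ∀ z ∈ M.Z, z e = 0 → z k + z g1 + z g2 = 0 := by
    intro z hz h0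
    have := Step4d_parity hH hyU (hcyc z hz h0)
    rw [hHS, S.st, Finset.sum_insert (by simp [hk_ne1, hk_ne2]),
      Finset.sum_insert (by simp [h12]), Finset.sum_singleton] at this
    rw [add_assoc]; exact this
  -- g1 and g2 are in series in M.del {e,k,k2}
  have hser : (M.del {e, k, k2}).Ser g1 g2 := by
    intro w hw
    rw [BM.mem_Z_del] at hw
    have h1 := hpy w hw.1 (hw.2 e (by simp))
    rw [hw.2 k (by simp), zero_add] at h1
    exact z_add_eq_zero.1 h1
  have hdd : (M.del {e, k2}).del {k} = M.del {e, k, k2} := by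
    rw [BM.del_del]
    congr 1
    ext x; simp; tauto
  -- a bad cycle
  obtain ⟨z, hzZ, hzk, hzs⟩ : ∃ z ∈ (M.del {e, k2}).Z, z k = 1 ∧
      ∀ p q, p ≠ k → q ≠ k → z p = 1 → z q = 1 → (M.del {e, k, k2}).Ser p q := by
    by_contra hcon
    push Not at hcon
    obtain ⟨z0, hz0, hz0k, hz0k2⟩ := S.tc.exists_cycle_ne (e := k) (e' := k2) hkS
      (by simp [hk, hke]) (Ne.symm hkk)
    rw [BM.mem_Z_del] at hz0
    have hz0' : z0 ∈ (M.del {e, k2}).Z := by
      rw [BM.mem_Z_del]
      refine ⟨hz0.1, ?_⟩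
      intro x hx
      rw [Finset.mem_insert, Finset.mem_singleton] at hx
      rcases hx with hx | hx
      · rw [hx]; exact hz0.2 e (by simp)
      · rw [hx]; exact hz0k2
    refine hMSC (SC_ext (M.del {e, k2}) {k} ?_ (by simp) (by rw [hdd]; exact hsc) z0 hz0' ?_ ?_ ?_).1
    · rw [Finset.singleton_subset_iff]
      show k ∈ M.S \ {e, k2}
      simp [hkM.1, hkM.2, Ne.symm hkk]
    · intro p hp
      rw [Finset.mem_singleton] at hp
      rw [hp]; exact hz0k
    · intro z _
      rcases zcases (z k) with h1 | h1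
      · left
        intro p hp
        rw [Finset.mem_singleton] at hp
        rw [hp]; exact h1
      · right
        intro p hp
        rw [Finset.mem_singleton] at hp
        rw [hp]; exact h1
    · intro z hz hp
      obtain ⟨p, q, h1, h2, h3, h4, h5⟩ := hcon z hz (hp k (by simp))
      refine ⟨p, q, by simpa using h1, by simpa using h2, h3, h4, ?_⟩
      rw [hdd]; exact h5
  rw [BM.mem_Z_del] at hzZ
  have hze : z e = 0 := hzZ.2 e (by simp)
  have hzk2 : z k2 = 0 := hzZ.2 k2 (by simp)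
  -- an element at d
  obtain ⟨x1, hx1s, hx1k, hx1z⟩ : ∃ x1 ∈ star (M.S \ {e}) h t d, x1 ≠ k ∧ z x1 = 1 := by
    by_contra hcon
    push Not at hcon
    have h1 := Step4d_parity hH hdU (hcyc z hzZ.1 hze)
    rw [hHS] at h1
    have hkd : k ∈ star (M.S \ {e}) h t d := by
      rw [Step4d_mem_star]
      exact ⟨hkS, (hkends d).2 (Or.inr rfl)⟩
    rw [Finset.sum_eq_single_of_mem k hkd] at h1
    · rw [hzk] at h1
      exact one_ne_zero h1
    · intro x hx hxk
      exact z_ne_one.1 (hcon x hx hxk)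
  rw [Step4d_mem_star] at hx1s
  obtain ⟨hx1S, hx1d⟩ := hx1s
  have hx1M : x1 ∈ M.S ∧ x1 ≠ e := by simpa using hx1S
  have hx1_1 : x1 ≠ g1 := by
    intro h1
    rw [h1] at hx1d
    rcases (h1ends d).1 hx1d with h2 | h2
    · exact S.yd h2.symm
    · exact S.ad h2.symm
  have hx1_2 : x1 ≠ g2 := by
    intro h1
    rw [h1] at hx1d
    rcases (h2ends d).1 hx1d with h2 | h2
    · exact S.yd h2.symm
    · exact S.bd h2.symm
  have hx1_k2 : x1 ≠ k2 := by
    intro h1
    rw [h1, hzk2] at hx1z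
    exact zero_ne_one hx1z
  -- g1 and x1 are in series in M.del {e,k,k2}
  have hser1 : (M.del {e, k, k2}).Ser g1 x1 := by
    have h1 := hpy z hzZ.1 hze
    rw [hzk] at h1
    rcases zcases (z g1) with h3 | h3
    · rw [h3, add_zero] at h1
      have h4 : z g2 = 1 := (z_add_eq_zero.1 h1).symm
      have h5 := hzs g2 x1 (Ne.symm hk_ne2) hx1k h4 hx1z
      intro w hw
      rw [hser w hw]
      exact h5 w hw
    · exact hzs g1 x1 (Ne.symm hk_ne1) hx1k h3 hx1z
  -- the graph H' and F
  have hHp := S.hp_gr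
  have hHpT := S.hp_tc hd
  have hHpS : ((M.con {g2}).del {e, k}).S = (M.S \ {g2}) \ {e, k} := rfl
  have hk2Hp : k2 ∈ ((M.con {g2}).del {e, k}).S := by
    rw [hHpS]; simp [hk, hke, hkk, hk2]
  have hg1Hp : g1 ∈ ((M.con {g2}).del {e, k}).S := by
    rw [hHpS]; simp [h1M.1, h1M.2, Ne.symm hk_ne1, h12]
  have hx1Hp : x1 ∈ ((M.con {g2}).del {e, k}).S := by
    rw [hHpS]; simp [hx1M.1, hx1M.2, hx1k, hx1_2]
  have hFeq : ((M.con {g2}).del {e, k}).del {k2} = (M.del {e, k, k2}).con {g2} := by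
    rw [BM.del_del, BM.del_con]
    · congr 1
      ext x; simp
    · rw [Finset.disjoint_singleton_right]
      simp [h2M.2, Ne.symm hk_ne2, Ne.symm hk2]
  have hFser : (((M.con {g2}).del {e, k}).del {k2}).Ser g1 x1 := by
    rw [hFeq]
    intro w hw
    rw [BM.mem_Z_con'] at hw
    obtain ⟨-, w', hw', hww⟩ := hw
    rw [← hww g1, ← hww x1]
    · exact hser1 w' hw'
    · show x1 ∈ (M.S \ {e, k, k2}) \ {g2}
      simp [hx1M.1, hx1M.2, hx1k, hx1_2, hx1_k2]
    · show g1 ∈ (M.S \ {e, k, k2}) \ {g2}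
      simp [h1M.1, h1M.2, Ne.symm hk_ne1, h12, Ne.symm hk1]
  have hFgr := hHp.del hk2Hp (hHpT.exists_cycle hk2Hp)
  have hFsc : (((M.con {g2}).del {e, k}).del {k2}).SC := by
    rw [hFeq]
    refine (SC_con (M.del {e, k, k2}) hsc g2 g1 ?_ ?_ (Ne.symm h12) ?_).1
    · show g2 ∈ M.S \ {e, k, k2}
      simp [h2M.1, h2M.2, Ne.symm hk_ne2, Ne.symm hk2]
    · show g1 ∈ M.S \ {e, k, k2}
      simp [h1M.1, h1M.2, Ne.symm hk_ne1, Ne.symm hk1]
    · intro w hw
      exact (hser w hw).symm
  have hFtwo : (((M.con {g2}).del {e, k}).del {k2}).Two := TC.del_two hHpT hk2Hp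
  have hFS : (((M.con {g2}).del {e, k}).del {k2}).S = ((M.con {g2}).del {e, k}).S \ {k2} := rfl
  obtain ⟨s, hsU, hss⟩ := (hFgr.star2 hFsc hFtwo (a := g1) (b := x1)
    (by rw [hFS, Finset.mem_sdiff, Finset.mem_singleton]; exact ⟨hg1Hp, Ne.symm hk1⟩)
    (by rw [hFS, Finset.mem_sdiff, Finset.mem_singleton]; exact ⟨hx1Hp, hx1_k2⟩)
    (Ne.symm hx1_1)).1 hFser
  have hdeg := TC.three_le_deg hHpT hHp hsU
  -- star of s in H'
  have hstar : star ((M.con {g2}).del {e, k}).S (fun x => mg y b (h x)) (fun x => mg y b (t x)) s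
      = {g1, x1, k2} := by
    apply Finset.eq_of_subset_of_card_le
    · intro x hx
      by_cases hxk : x = k2
      · simp [hxk]
      · have : x ∈ star (((M.con {g2}).del {e, k}).del {k2}).S (fun x => mg y b (h x))
            (fun x => mg y b (t x)) s := by
          rw [Step4d_mem_star] at hx ⊢
          refine ⟨?_, hx.2⟩
          rw [hFS, Finset.mem_sdiff, Finset.mem_singleton]
          exact ⟨hx.1, hxk⟩
        rw [hss, Finset.mem_insert, Finset.mem_singleton] at this
        rcases this with h1 | h1 <;> simp [h1]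
    · refine le_trans ?_ hdeg
      exact Finset.card_le_three
  have hsy : s ≠ y := (Finset.mem_erase.1 hsU).1
  -- s = a or s = b
  have hsab : s = a ∨ s = b := by
    have h1 : g1 ∈ star ((M.con {g2}).del {e, k}).S (fun x => mg y b (h x))
        (fun x => mg y b (t x)) s := by rw [hstar]; simp
    rw [Step4d_mem_star] at h1
    by_cases hsb : s = b
    · exact Or.inr hsb
    · left
      have h2 : h g1 = s ∨ t g1 = s := by
        rcases h1.2 with h3 | h3
        · exact Or.inl ((Step4d_mg_a hsy hsb).1 h3)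
        · exact Or.inr ((Step4d_mg_a hsy hsb).1 h3)
      rcases (h1ends s).1 h2 with h3 | h3
      · exact absurd h3 hsy
      · exact h3
  -- characterisation of the star of s in H'
  have hchar : ∀ x, x ∈ ((M.con {g2}).del {e, k}).S →
      ((mg y b (h x) = s ∨ mg y b (t x) = s) ↔ (x = g1 ∨ x = x1 ∨ x = k2)) := by
    intro x hx
    have h1 : x ∈ star ((M.con {g2}).del {e, k}).S (fun x => mg y b (h x))
        (fun x => mg y b (t x)) s ↔ x ∈ ({g1, x1, k2} : Finset E) := by rw [hstar]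
    rw [Step4d_mem_star] at h1
    simp only [Finset.mem_insert, Finset.mem_singleton] at h1
    constructor
    · intro h2; exact h1.1 ⟨hx, h2⟩
    · intro h2; exact (h1.2 h2).2
  rcases hsab with rfl | rfl
  · -- s = a
    left
    have hxa : ∀ x, x ∈ star (M.S \ {e}) h t s ↔ (x = g1 ∨ x = x1 ∨ x = k2) := by
      intro x
      rw [Step4d_mem_star]
      constructor
      · rintro ⟨hxS, hxs⟩
        have hxM : x ∈ M.S ∧ x ≠ e := by simpa using hxS
        have hx2 : x ≠ g2 := by
          intro h1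
          rw [h1] at hxs
          rcases (h2ends s).1 hxs with h2 | h2
          · exact hsy h2
          · exact S.ab h2
        have hxk : x ≠ k := by
          intro h1
          rw [h1] at hxs
          rcases (hkends s).1 hxs with h2 | h2
          · exact hsy h2
          · exact S.ad h2
        refine (hchar x (by rw [hHpS]; simp [hxM.1, hxM.2, hx2, hxk])).1 ?_
        rcases hxs with h1 | h1
        · exact Or.inl ((Step4d_mg_a hsy S.ab).2 h1)
        · exact Or.inr ((Step4d_mg_a hsy S.ab).2 h1)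
      · intro hx
        have hxHp : x ∈ ((M.con {g2}).del {e, k}).S := by
          rcases hx with h1 | h1 | h1 <;> rw [h1] <;> assumption
        have h1 := (hchar x hxHp).2 hx
        rw [hHpS] at hxHp
        simp only [Finset.mem_sdiff, Finset.mem_insert, Finset.mem_singleton, not_or] at hxHp
        refine ⟨by simp [hxHp.1.1, hxHp.2.1], ?_⟩
        rcases h1 with h2 | h2
        · exact Or.inl ((Step4d_mg_a hsy S.ab).1 h2)
        · exact Or.inr ((Step4d_mg_a hsy S.ab).1 h2)
    refine ⟨x1, ?_, ?_⟩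
    · ext x
      rw [hxa]
      simp only [Finset.mem_insert, Finset.mem_singleton]
    · have h1 := (Step4d_mem_star.1 ((hxa x1).2 (Or.inr (Or.inl rfl)))).2
      have had : s ≠ d := S.ad
      unfold Jn
      rcases h1 with h1 | h1
      · rcases hx1d with h2 | h2
        · exact absurd (h1.symm.trans h2) had
        · exact Or.inl ⟨h1, h2⟩
      · rcases hx1d with h2 | h2
        · exact Or.inr ⟨h2, h1⟩
        · exact absurd (h1.symm.trans h2) had
  · -- s = b
    right
    have hxb : ∀ x, x ∈ star (M.S \ {e}) h t s ↔ (x = g2 ∨ x = x1 ∨ x = k2) := by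
      intro x
      rw [Step4d_mem_star]
      constructor
      · rintro ⟨hxS, hxs⟩
        have hxM : x ∈ M.S ∧ x ≠ e := by simpa using hxS
        by_cases hx2 : x = g2
        · exact Or.inl hx2
        have hxk : x ≠ k := by
          intro h1
          rw [h1] at hxs
          rcases (hkends s).1 hxs with h2 | h2
          · exact hsy h2
          · exact S.bd h2
        have h3 := (hchar x (by rw [hHpS]; simp [hxM.1, hxM.2, hx2, hxk])).1 (by
          rcases hxs with h1 | h1
          · exact Or.inl (Step4d_mg_v.2 (Or.inl h1))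
          · exact Or.inr (Step4d_mg_v.2 (Or.inl h1)))
        rcases h3 with h3 | h3
        · exfalso
          rw [h3] at hxs
          rcases (h1ends s).1 hxs with h2 | h2
          · exact hsy h2
          · exact S.ab h2.symm
        · exact Or.inr h3
      · intro hx
        rcases hx with h1 | h1
        · rw [h1]
          exact ⟨h2S, (h2ends s).2 (Or.inr rfl)⟩
        · have hxHp : x ∈ ((M.con {g2}).del {e, k}).S := by
            rcases h1 with h1 | h1 <;> rw [h1] <;> assumption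
          have h3 := (hchar x hxHp).2 (Or.inr h1)
          rw [hHpS] at hxHp
          simp only [Finset.mem_sdiff, Finset.mem_insert, Finset.mem_singleton, not_or] at hxHp
          have hxS : x ∈ M.S \ {e} := by simp [hxHp.1.1, hxHp.2.1]
          refine ⟨hxS, ?_⟩
          -- x is not at y
          have hxy : ¬ (h x = y ∨ t x = y) := by
            intro h4
            have h5 : x ∈ star (M.S \ {e}) h t y := Step4d_mem_star.2 ⟨hxS, h4⟩
            rw [S.st] at h5
            simp only [Finset.mem_insert, Finset.mem_singleton] at h5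
            rcases h5 with h5 | h5 | h5
            · exact hxHp.2.2 h5
            · rcases h1 with h6 | h6
              · exact hx1_1 (h6.symm.trans h5)
              · exact hk1 (h6.symm.trans h5)
            · exact hxHp.1.2 h5
          push Not at hxy
          rcases h3 with h4 | h4
          · rcases Step4d_mg_v.1 h4 with h5 | h5
            · exact Or.inl h5
            · exact absurd h5 hxy.1
          · rcases Step4d_mg_v.1 h4 with h5 | h5
            · exact Or.inr h5
            · exact absurd h5 hxy.2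
    refine ⟨x1, ?_, ?_⟩
    · ext x
      rw [hxb]
      simp only [Finset.mem_insert, Finset.mem_singleton]
    · have h1 := (Step4d_mem_star.1 ((hxb x1).2 (Or.inr (Or.inl rfl)))).2
      have hbd : s ≠ d := S.bd
      unfold Jn
      rcases h1 with h1 | h1
      · rcases hx1d with h2 | h2
        · exact absurd (h1.symm.trans h2) hbd
        · exact Or.inl ⟨h1, h2⟩
      · rcases hx1d with h2 | h2
        · exact Or.inr ⟨h2, h1⟩
        · exact absurd (h1.symm.trans h2) hbd

end SEY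

end

section

/-!
T3-Step4c.
T3-Step4 (k2 /= f).  k2 is an element of H' = (M.con {g2}).del {e,k}, k2 /= g1, with M.del {e,k,k2} SC and HasT
(this is H' del k2 with the edge f = ab subdivided by y).  F := (M.con {g2}).del {e,k,k2} = H' del k2 is SC (`SC_con`, g1,g2
in series in M.del {e,k,k2}: star y = {g1,g2}), Two (`TC.del_two` for H'), graph on U - y with ends mg y b (g1 joins a, b).
Facts used everywhere: no edge of H joins a and b, none joins y to something else than a, b, d; H' has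
no parallel edges.

* `step4_c`: star_H a = {g1,xc,k2}, star_H q = {k2,x1,x2}, x1 = qc, x2 = qd.  Contract x2 (merge q into d).
  F con x2 = (M.con {g2,x2}).del {e,k,k2}: SC, Two (`con_two`: star_F q = {x1,x2}), HasT.  Add k2 = (a,d): `gext`: a has the other
  edges g1 (b), xc (c); vertices of degree 2 adjacent to a: none.  So (M.con {g2,x2}).del {e,k} is SC, Two, all degrees >= 3: TC.
  `subdiv`: (M.con {x2}).del {e,k} is SC, Two (y of degree 2 with star {g1,g2}); HasT (`HasT_of_con`).  Add k = (y,d): `gext`: y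
  has the other edges g1, g2 (to a, b), the only vertex of degree 2 is y.  So (M.con {x2}).del {e} is SC, Two, all degrees >= 3:
  TC.  Graft set: q, d not in T={y,a,b,c} so `IsGraft.con` keeps T: `MinCx.false_of_graft`.
-/

namespace SEY

open Finset

variable {E : Type} [Fintype E] [DecidableEq E] {V : Type} [Fintype V] [DecidableEq V]
variable {r l : ℕ} {rows : Fin r → Fin l → ZMod 2} {M : BM E} {U : Finset V} {h t : E → V}
  {e k g1 g2 : E} {y a b c d : V}

/-! ### Small facts on `Jn`, `mg`, stars -/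

omit [Fintype E] [DecidableEq E] [Fintype V] [DecidableEq V] in
theorem Step4c_jsymm {x : E} {u v : V} (hj : Jn h t x u v) : Jn h t x v u := Or.symm hj

omit [Fintype E] [DecidableEq E] [Fintype V] [DecidableEq V] in
theorem Step4c_jl {x : E} {u v : V} (hj : Jn h t x u v) : h x = u ∨ t x = u := by
  rcases hj with ⟨h1, _⟩ | ⟨_, h2⟩
  · exact Or.inl h1
  · exact Or.inr h2

omit [Fintype E] [DecidableEq E] [Fintype V] [DecidableEq V] in
theorem Step4c_jr {x : E} {u v : V} (hj : Jn h t x u v) : h x = v ∨ t x = v :=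
  Step4c_jl (Step4c_jsymm hj)

omit [Fintype E] [DecidableEq E] [Fintype V] [DecidableEq V] in
theorem Step4c_jor {x : E} {u v w : V} (hj : Jn h t x u v) (hw : h x = w ∨ t x = w) :
    w = u ∨ w = v := by
  rcases hj with ⟨h1, h2⟩ | ⟨h1, h2⟩ <;> rcases hw with h3 | h3
  · exact Or.inl (h3.symm.trans h1)
  · exact Or.inr (h3.symm.trans h2)
  · exact Or.inr (h3.symm.trans h1)
  · exact Or.inl (h3.symm.trans h2)

omit [Fintype E] [DecidableEq E] [Fintype V] in
theorem Step4c_jmg {x : E} {u v : V} (hj : Jn h t x u v) (p q : V) :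
    Jn (fun z => mg p q (h z)) (fun z => mg p q (t z)) x (mg p q u) (mg p q v) := by
  rcases hj with ⟨h1, h2⟩ | ⟨h1, h2⟩
  · exact Or.inl ⟨by simp only [h1], by simp only [h2]⟩
  · exact Or.inr ⟨by simp only [h1], by simp only [h2]⟩

omit [Fintype V] in
theorem Step4c_mgu (u v : V) : mg u v u = v := if_pos rfl

omit [Fintype V] in
theorem Step4c_mgne {u w : V} (v : V) (hw : w ≠ u) : mg u v w = w := if_neg hw

omit [Fintype V] in
theorem Step4c_mgiff {u v w z : V} (hw : w ≠ u) (hwv : w ≠ v) : mg u v z = w ↔ z = w := by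
  unfold mg
  constructor
  · intro h1
    by_cases hz : z = u
    · rw [if_pos hz] at h1
      exact absurd h1.symm hwv
    · rwa [if_neg hz] at h1
  · intro h1
    rw [h1, if_neg hw]

omit [Fintype V] in
theorem Step4c_mgv {u v z : V} : mg u v z = v ↔ z = v ∨ z = u := by
  unfold mg
  constructor
  · intro h1
    by_cases hz : z = u
    · exact Or.inr hz
    · rw [if_neg hz] at h1
      exact Or.inl h1
  · rintro (h1 | h1)
    · by_cases hz : z = u
      · rw [if_pos hz]
      · rw [if_neg hz, h1]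
    · rw [if_pos h1]

omit [Fintype E] [Fintype V] in
theorem Step4c_mem {A : Finset E} {x : E} {v : V} :
    x ∈ star A h t v ↔ x ∈ A ∧ (h x = v ∨ t x = v) := Finset.mem_filter

theorem SitI.step4_c (h0 : (ofRows rows).TC) (S : SitI rows M U h t e k g1 g2 y a b c d)
    (hcd : c ≠ d) (hd : 4 ≤ (star (M.S \ {e}) h t d).card) {k2 : E}
    (hk : k2 ∈ M.S) (hke : k2 ≠ e) (hkk : k2 ≠ k) (hk1 : k2 ≠ g1) (hk2 : k2 ≠ g2)
    (hsc : (M.del {e, k, k2}).SC) (hT : HasT rows (M.del {e, k, k2})) {xc x1 x2 : E} {q : V}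
    (hst : star (M.S \ {e}) h t a = {g1, xc, k2}) (hjc : Jn h t xc a c) (hjq : Jn h t k2 a q)
    (hq : q ≠ d) (hstq : star (M.S \ {e}) h t q = {k2, x1, x2}) (hj1 : Jn h t x1 q c)
    (hj2 : Jn h t x2 q d) : False := by
  -- basic facts on the graph `H`
  have hG := S.gr.gr
  have hHsc : (M.del {e}).SC := ((TC_iff_SC _).1 S.tc).1
  have hstar : ∀ x ∈ star (M.S \ {e}) h t y, x ∈ M.S \ {e} := fun x hx => (Step4c_mem.1 hx).1
  have hkS : k ∈ M.S \ {e} := hstar k (by rw [S.st]; simp)
  have hg1S : g1 ∈ M.S \ {e} := hstar g1 (by rw [S.st]; simp)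
  have hg2S : g2 ∈ M.S \ {e} := hstar g2 (by rw [S.st]; simp)
  have hxcS : xc ∈ M.S \ {e} := by
    have h1 : xc ∈ star (M.S \ {e}) h t a := by rw [hst]; simp
    exact (Step4c_mem.1 h1).1
  have hx1S : x1 ∈ M.S \ {e} := by
    have h1 : x1 ∈ star (M.S \ {e}) h t q := by rw [hstq]; simp
    exact (Step4c_mem.1 h1).1
  have hx2S : x2 ∈ M.S \ {e} := by
    have h1 : x2 ∈ star (M.S \ {e}) h t q := by rw [hstq]; simp
    exact (Step4c_mem.1 h1).1
  have hk2S : k2 ∈ M.S \ {e} :=
    Finset.mem_sdiff.2 ⟨hk, fun h1 => hke (Finset.mem_singleton.1 h1)⟩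
  have hne : ∀ x ∈ M.S \ {e}, ∀ u v : V, Jn h t x u v → u ≠ v := by
    intro x hx u v hj huv
    have h1 := (hG.ends x hx).2.2
    rcases hj with ⟨h2, h3⟩ | ⟨h2, h3⟩
    · exact h1 (h2.trans (huv.trans h3.symm))
    · exact h1 (h2.trans (huv.symm.trans h3.symm))
  have hend : ∀ x ∈ M.S \ {e}, ∀ u v : V, Jn h t x u v → u ∈ U ∧ v ∈ U := by
    intro x hx u v hj
    have h1 := hG.ends x hx
    rcases hj with ⟨h2, h3⟩ | ⟨h2, h3⟩
    · exact ⟨h2 ▸ h1.1, h3 ▸ h1.2.1⟩
    · exact ⟨h3 ▸ h1.2.1, h2 ▸ h1.1⟩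
  have hyU : y ∈ U := (hend k hkS _ _ S.jk).1
  have hdU : d ∈ U := (hend k hkS _ _ S.jk).2
  have haU : a ∈ U := (hend g1 hg1S _ _ S.j1).2
  have hbU : b ∈ U := (hend g2 hg2S _ _ S.j2).2
  have hcU : c ∈ U := (hend xc hxcS _ _ hjc).2
  have hqU : q ∈ U := (hend k2 hk2S _ _ hjq).2
  -- the edges at `y`
  have hyst : ∀ x ∈ M.S \ {e}, (h x = y ∨ t x = y) → x = k ∨ x = g1 ∨ x = g2 := by
    intro x hx h1
    have h2 : x ∈ star (M.S \ {e}) h t y := Step4c_mem.2 ⟨hx, h1⟩
    rw [S.st] at h2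
    simpa using h2
  have hast : ∀ x ∈ M.S \ {e}, (h x = a ∨ t x = a) → x = g1 ∨ x = xc ∨ x = k2 := by
    intro x hx h1
    have h2 : x ∈ star (M.S \ {e}) h t a := Step4c_mem.2 ⟨hx, h1⟩
    rw [hst] at h2
    simpa using h2
  have hqst : ∀ x ∈ M.S \ {e}, (h x = q ∨ t x = q) → x = k2 ∨ x = x1 ∨ x = x2 := by
    intro x hx h1
    have h2 : x ∈ star (M.S \ {e}) h t q := Step4c_mem.2 ⟨hx, h1⟩
    rw [hstq] at h2
    simpa using h2
  have hqa : q ≠ a := (hne k2 hk2S _ _ hjq).symm
  have hqc : q ≠ c := hne x1 hx1S _ _ hj1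
  have hqy : q ≠ y := by
    intro h1
    rcases hyst k2 hk2S (h1 ▸ Step4c_jr hjq) with h2 | h2 | h2
    · exact hkk h2
    · exact hk1 h2
    · exact hk2 h2
  have h12 : g1 ≠ g2 := by
    intro h1
    rcases Step4c_jor S.j1 (h1 ▸ Step4c_jr S.j2) with h2 | h2
    · exact S.yb h2.symm
    · exact S.ab h2.symm
  have h1k : g1 ≠ k := by
    intro h1
    rcases Step4c_jor S.jk (h1 ▸ Step4c_jr S.j1) with h2 | h2
    · exact S.ya h2.symm
    · exact S.ad h2
  have h2k : g2 ≠ k := by
    intro h1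
    rcases Step4c_jor S.jk (h1 ▸ Step4c_jr S.j2) with h2 | h2
    · exact S.yb h2.symm
    · exact S.bd h2
  -- an edge with ends different from `y` is none of `k, g1, g2`
  have hnoy : ∀ x : E, ¬ (h x = y ∨ t x = y) → x ≠ k ∧ x ≠ g1 ∧ x ≠ g2 := by
    intro x hx
    refine ⟨?_, ?_, ?_⟩
    · rintro rfl; exact hx (Step4c_jl S.jk)
    · rintro rfl; exact hx (Step4c_jl S.j1)
    · rintro rfl; exact hx (Step4c_jl S.j2)
  have hxcn := hnoy xc (fun h1 => by
    rcases Step4c_jor hjc h1 with h2 | h2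
    · exact S.ya h2
    · exact S.yc h2)
  have hx1n := hnoy x1 (fun h1 => by
    rcases Step4c_jor hj1 h1 with h2 | h2
    · exact hqy h2.symm
    · exact S.yc h2)
  have hx2n := hnoy x2 (fun h1 => by
    rcases Step4c_jor hj2 h1 with h2 | h2
    · exact hqy h2.symm
    · exact S.yd h2)
  have hxck2 : xc ≠ k2 := by
    intro h1
    rcases Step4c_jor hjc (h1 ▸ Step4c_jr hjq) with h2 | h2
    · exact hqa h2
    · exact hqc h2
  have hx1k2 : x1 ≠ k2 := by
    intro h1
    rcases Step4c_jor hj1 (h1 ▸ Step4c_jl hjq) with h2 | h2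
    · exact hqa h2.symm
    · exact S.ac h2
  have hx2k2 : x2 ≠ k2 := by
    intro h1
    rcases Step4c_jor hj2 (h1 ▸ Step4c_jl hjq) with h2 | h2
    · exact hqa h2.symm
    · exact S.ad h2
  have hx12 : x1 ≠ x2 := by
    intro h1
    rcases Step4c_jor hj1 (h1 ▸ Step4c_jr hj2) with h2 | h2
    · exact hq h2.symm
    · exact hcd h2.symm
  have hx2c : x2 ≠ xc := by
    intro h1
    rcases Step4c_jor hj2 (h1 ▸ Step4c_jl hjc) with h2 | h2
    · exact hqa h2.symm
    · exact S.ad h2
  -- `H'`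
  have hPgr := S.hp_gr
  have hPtc := S.hp_tc hd
  have hPsc : ((M.con {g2}).del {e, k}).SC := ((TC_iff_SC _).1 hPtc).1
  have hPS : ∀ x, x ∈ ((M.con {g2}).del {e, k}).S ↔ x ∈ M.S ∧ x ≠ g2 ∧ x ≠ e ∧ x ≠ k := by
    intro x
    simp only [BM.con_S, BM.del_S, Finset.mem_sdiff, Finset.mem_singleton, Finset.mem_insert,
      not_or]
    tauto
  have hESe : ∀ x, x ∈ M.S \ {e} ↔ x ∈ M.S ∧ x ≠ e := by
    intro x
    simp only [Finset.mem_sdiff, Finset.mem_singleton]
  rw [hESe] at hkS hg1S hg2S hxcS hx1S hx2S hk2S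
  have hqb : q ≠ b := by
    intro h1
    have h2 := IsGr.no_par hPgr hPsc (x := k2) (y := g1) (u := a) (v := b)
      ((hPS k2).2 ⟨hk2S.1, hk2, hke, hkk⟩) ((hPS g1).2 ⟨hg1S.1, h12, hg1S.2, h1k⟩)
      (by
        have h3 := Step4c_jmg hjq y b
        rw [Step4c_mgne b S.ya.symm, Step4c_mgne b hqy, h1] at h3
        exact h3)
      (by
        have h3 := Step4c_jmg S.j1 y b
        rw [Step4c_mgu, Step4c_mgne b S.ya.symm] at h3
        exact Step4c_jsymm h3)
    exact hk1 h2
  -- the matroids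
  have eqF1 : ((M.con {g2}).del {e, k}).del {k2} = (M.del {e, k, k2}).con {g2} := by
    rw [BM.del_del, BM.del_con]
    · congr 1
      ext x
      simp [or_assoc]
    · rw [Finset.disjoint_singleton_right]
      simp only [Finset.mem_insert, Finset.mem_singleton, not_or]
      exact ⟨hg2S.2, h2k, hk2.symm⟩
  have eqdk : (M.del {e}).del {k} = M.del {e, k} := by
    rw [BM.del_del]
    congr 1
  have eqdkk : (M.del {e, k}).del {k2} = M.del {e, k, k2} := by
    rw [BM.del_del]
    congr 1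
    ext x
    simp [or_assoc]
  have hGk : IsGr (M.del {e, k}) U h t := by
    have h1 := hG.del (x := k) ((hESe k).2 hkS) (S.tc.exists_cycle ((hESe k).2 hkS))
    rwa [eqdk] at h1
  have hk2dk : k2 ∈ (M.del {e, k}).S := by
    simp only [BM.del_S, Finset.mem_sdiff, Finset.mem_insert, Finset.mem_singleton, not_or]
    exact ⟨hk, hke, hkk⟩
  have hGkk : IsGr (M.del {e, k, k2}) U h t := by
    have h1 := hGk.del (x := k2) hk2dk (SC_not_coloop _ S.sc k2 hk2dk)
    rwa [eqdkk] at h1
  have hg1kk : g1 ∈ (M.del {e, k, k2}).S := by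
    simp only [BM.del_S, Finset.mem_sdiff, Finset.mem_insert, Finset.mem_singleton, not_or]
    exact ⟨hg1S.1, hg1S.2, h1k, hk1.symm⟩
  have hg2kk : g2 ∈ (M.del {e, k, k2}).S := by
    simp only [BM.del_S, Finset.mem_sdiff, Finset.mem_insert, Finset.mem_singleton, not_or]
    exact ⟨hg2S.1, hg2S.2, h2k, hk2.symm⟩
  have hser_of_star : ∀ (N : BM E) (W : Finset V) (h' t' : E → V) (p p' : E) (v : V),
      IsGr N W h' t' → v ∈ W → star N.S h' t' v = {p, p'} → p ≠ p' → N.Ser p p' := by
    intro N W h' t' p p' v hN hv hs hpp z hz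
    have h1 := N.dot_eq_zero (hN.star_mem hv) hz
    rw [hs, ind_dot, Finset.sum_pair hpp] at h1
    exact z_add_eq_zero.1 h1
  have hserkk : (M.del {e, k, k2}).Ser g2 g1 := by
    refine hser_of_star _ U h t g2 g1 y hGkk hyU ?_ h12.symm
    ext x
    rw [Step4c_mem]
    simp only [BM.del_S, Finset.mem_sdiff, Finset.mem_insert, Finset.mem_singleton, not_or]
    constructor
    · rintro ⟨⟨h1, h2, h3, h4⟩, h5⟩
      rcases hyst x ((hESe x).2 ⟨h1, h2⟩) h5 with h6 | h6 | h6
      · exact absurd h6 h3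
      · exact Or.inr h6
      · exact Or.inl h6
    · rintro (rfl | rfl)
      · exact ⟨⟨hg2S.1, hg2S.2, h2k, hk2.symm⟩, Step4c_jl S.j2⟩
      · exact ⟨⟨hg1S.1, hg1S.2, h1k, hk1.symm⟩, Step4c_jl S.j1⟩
  -- `F = H' del k2`
  have hk2P : k2 ∈ ((M.con {g2}).del {e, k}).S := (hPS k2).2 ⟨hk, hk2, hke, hkk⟩
  have hFgr : IsGr (((M.con {g2}).del {e, k}).del {k2}) (U.erase y) (fun x => mg y b (h x))
      (fun x => mg y b (t x)) := hPgr.del hk2P (hPtc.exists_cycle hk2P)
  have hFsc : (((M.con {g2}).del {e, k}).del {k2}).SC := by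
    rw [eqF1]
    exact (SC_con _ hsc g2 g1 hg2kk hg1kk h12.symm hserkk).1
  have hFtwo : (((M.con {g2}).del {e, k}).del {k2}).Two := TC.del_two hPtc hk2P
  have hFT : HasT rows (((M.con {g2}).del {e, k}).del {k2}) := by
    rw [eqF1]
    exact HasT_con h0 hg2kk hg1kk h12.symm hserkk hT
  have hFS : ∀ x, x ∈ (((M.con {g2}).del {e, k}).del {k2}).S ↔
      x ∈ M.S ∧ x ≠ g2 ∧ x ≠ e ∧ x ≠ k ∧ x ≠ k2 := by
    intro x
    rw [BM.del_S, Finset.mem_sdiff, hPS, Finset.mem_singleton]
    tauto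
  have hx1F := (hFS x1).2 ⟨hx1S.1, hx1n.2.2, hx1S.2, hx1n.1, hx1k2⟩
  have hx2F := (hFS x2).2 ⟨hx2S.1, hx2n.2.2, hx2S.2, hx2n.1, hx2k2⟩
  have hqUy : q ∈ U.erase y := Finset.mem_erase.2 ⟨hqy, hqU⟩
  have hFq : star (((M.con {g2}).del {e, k}).del {k2}).S (fun x => mg y b (h x))
      (fun x => mg y b (t x)) q = {x1, x2} := by
    ext x
    rw [Step4c_mem, Step4c_mgiff hqy hqb, Step4c_mgiff hqy hqb, hFS]
    simp only [Finset.mem_insert, Finset.mem_singleton]
    constructor
    · rintro ⟨⟨h1, h2, h3, h4, h5⟩, h6⟩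
      rcases hqst x ((hESe x).2 ⟨h1, h3⟩) h6 with h7 | h7 | h7
      · exact absurd h7 h5
      · exact Or.inl h7
      · exact Or.inr h7
    · rintro (rfl | rfl)
      · exact ⟨⟨hx1S.1, hx1n.2.2, hx1S.2, hx1n.1, hx1k2⟩, Step4c_jl hj1⟩
      · exact ⟨⟨hx2S.1, hx2n.2.2, hx2S.2, hx2n.1, hx2k2⟩, Step4c_jl hj2⟩
  have hFc := con_two hFgr hqUy hFq hx12 hFsc hFtwo
  have hFcT : HasT rows ((((M.con {g2}).del {e, k}).del {k2}).con {x2}) := by
    refine HasT_con h0 hx2F hx1F hx12.symm ?_ hFT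
    refine hser_of_star _ _ _ _ x2 x1 q hFgr hqUy ?_ hx12.symm
    rw [hFq, Finset.pair_comm]
  have hj2' : Jn (fun x => mg y b (h x)) (fun x => mg y b (t x)) x2 q d := by
    have h3 := Step4c_jmg hj2 y b
    rwa [Step4c_mgne b hqy, Step4c_mgne b S.yd.symm] at h3
  -- `F2 = H' con x2`
  have eqF2 : (((M.con {g2}).del {e, k}).con {x2}).del {k2} =
      (((M.con {g2}).del {e, k}).del {k2}).con {x2} :=
    (BM.del_con ((M.con {g2}).del {e, k}) (Finset.disjoint_singleton.2 hx2k2.symm)).symm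
  have hx2P : x2 ∈ ((M.con {g2}).del {e, k}).S :=
    (hPS x2).2 ⟨hx2S.1, hx2n.2.2, hx2S.2, hx2n.1⟩
  have hcardP : 2 ≤ ((M.con {g2}).del {e, k}).S.card := by
    have := hPtc.card
    omega
  have hcardF : 2 ≤ (((M.con {g2}).del {e, k}).del {k2}).S.card := by
    have h1 : ({x1, x2} : Finset E) ⊆ (((M.con {g2}).del {e, k}).del {k2}).S := by
      intro x hx
      simp only [Finset.mem_insert, Finset.mem_singleton] at hx
      rcases hx with rfl | rfl
      · exact hx1F
      · exact hx2F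
    have h2 := Finset.card_le_card h1
    rwa [Finset.card_pair hx12] at h2
  have hF2gr : IsGr (((M.con {g2}).del {e, k}).con {x2}) ((U.erase y).erase q)
      (fun x => mg q d (mg y b (h x))) (fun x => mg q d (mg y b (t x))) :=
    hPgr.con hx2P hj2' (fun z hz hzx hj => hzx (IsGr.no_par hPgr hPsc hz hx2P hj hj2')) hcardP
  have hF2gr' : IsGr ((((M.con {g2}).del {e, k}).con {x2}).del {k2}) ((U.erase y).erase q)
      (fun x => mg q d (mg y b (h x))) (fun x => mg q d (mg y b (t x))) := by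
    rw [eqF2]
    exact hFgr.con hx2F hj2' (fun z hz hzx hj => hzx (IsGr.no_par hFgr hFsc hz hx2F hj hj2'))
      hcardF
  have hF2S : ∀ x, x ∈ (((M.con {g2}).del {e, k}).con {x2}).S ↔
      x ∈ M.S ∧ x ≠ g2 ∧ x ≠ e ∧ x ≠ k ∧ x ≠ x2 := by
    intro x
    rw [BM.con_S, Finset.mem_sdiff, hPS, Finset.mem_singleton]
    tauto
  -- the vertex map of `F2`
  have hm2 : ∀ v z : V, v ≠ y → v ≠ q → v ≠ b → v ≠ d → (mg q d (mg y b z) = v ↔ z = v) := by
    intro v z h1 h2 h3 h4
    rw [Step4c_mgiff h2 h4, Step4c_mgiff h1 h3]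
  have hm2b : ∀ z : V, mg q d (mg y b z) = b ↔ z = b ∨ z = y := by
    intro z
    rw [Step4c_mgiff hqb.symm S.bd, Step4c_mgv]
  have hm2d : ∀ z : V, z = d ∨ z = q → mg q d (mg y b z) = d := by
    rintro z (rfl | rfl)
    · rw [Step4c_mgne b S.yd.symm, Step4c_mgne z hq.symm]
    · rw [Step4c_mgne b hqy, Step4c_mgu]
  have hdeg : ∀ v ∈ U, 3 ≤ (star (M.S \ {e}) h t v).card := fun v hv => TC.three_le_deg S.tc hG hv
  -- big stars in `F2`
  have hsub2 : ∀ v ∈ U, v ≠ y → v ≠ q → v ≠ b → v ≠ d → star (M.S \ {e}) h t v ⊆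
      star (((M.con {g2}).del {e, k}).con {x2}).S (fun x => mg q d (mg y b (h x)))
        (fun x => mg q d (mg y b (t x))) v := by
    intro v _ h1 h2 h3 h4 x hx
    rw [Step4c_mem, hESe] at hx
    rw [Step4c_mem, hm2 v _ h1 h2 h3 h4, hm2 v _ h1 h2 h3 h4, hF2S]
    refine ⟨⟨hx.1.1, ?_, hx.1.2, ?_, ?_⟩, hx.2⟩
    · rintro rfl
      rcases Step4c_jor S.j2 hx.2 with h5 | h5
      · exact h1 h5
      · exact h3 h5
    · rintro rfl
      rcases Step4c_jor S.jk hx.2 with h5 | h5
      · exact h1 h5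
      · exact h4 h5
    · rintro rfl
      rcases Step4c_jor hj2 hx.2 with h5 | h5
      · exact h2 h5
      · exact h4 h5
  have hb2 : insert g1 ((star (M.S \ {e}) h t b).erase g2) ⊆
      star (((M.con {g2}).del {e, k}).con {x2}).S (fun x => mg q d (mg y b (h x)))
        (fun x => mg q d (mg y b (t x))) b := by
    intro x hx
    rw [Step4c_mem, hm2b, hm2b, hF2S]
    rw [Finset.mem_insert, Finset.mem_erase, Step4c_mem, hESe] at hx
    rcases hx with rfl | ⟨h1, ⟨h2, h3⟩, h4⟩
    · refine ⟨⟨hg1S.1, h12, hg1S.2, h1k, hx2n.2.1.symm⟩, ?_⟩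
      rcases Step4c_jl S.j1 with h5 | h5
      · exact Or.inl (Or.inr h5)
      · exact Or.inr (Or.inr h5)
    · refine ⟨⟨h2, h1, h3, ?_, ?_⟩, ?_⟩
      · rintro rfl
        rcases Step4c_jor S.jk h4 with h5 | h5
        · exact S.yb h5.symm
        · exact S.bd h5
      · rintro rfl
        rcases Step4c_jor hj2 h4 with h5 | h5
        · exact hqb h5.symm
        · exact S.bd h5
      · rcases h4 with h5 | h5
        · exact Or.inl (Or.inl h5)
        · exact Or.inr (Or.inl h5)
  have hg1b : g1 ∉ (star (M.S \ {e}) h t b).erase g2 := by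
    intro h1
    have h2 := (Step4c_mem.1 (Finset.mem_erase.1 h1).2).2
    rcases Step4c_jor S.j1 h2 with h3 | h3
    · exact S.yb h3.symm
    · exact S.ab h3.symm
  have hb2c : 3 ≤ (insert g1 ((star (M.S \ {e}) h t b).erase g2)).card := by
    rw [Finset.card_insert_of_notMem hg1b, Finset.card_erase_of_mem
      (Step4c_mem.2 ⟨(hESe g2).2 hg2S, Step4c_jr S.j2⟩)]
    have := hdeg b hbU
    omega
  have hgext2 := gext (M := ((M.con {g2}).del {e, k}).con {x2}) (U := (U.erase y).erase q)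
    (h := fun x => mg q d (mg y b (h x))) (t := fun x => mg q d (mg y b (t x))) (x := k2)
    (u := a) (v := d) ((hF2S k2).2 ⟨hk, hk2, hke, hkk, hx2k2.symm⟩) hF2gr hF2gr'
    (by rw [eqF2]; exact hFc.1) (by rw [eqF2]; exact hFc.2)
    (by
      have h1 := Step4c_jmg (Step4c_jmg hjq y b) q d
      rw [Step4c_mgne b S.ya.symm, Step4c_mgne b hqy, Step4c_mgu, Step4c_mgne d hqa.symm] at h1
      exact h1)
    (by
      intro z hz hzk hj
      rw [hF2S] at hz
      have h1 := Step4c_jl hj
      rw [hm2 a _ S.ya.symm hqa.symm S.ab S.ad, hm2 a _ S.ya.symm hqa.symm S.ab S.ad] at h1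
      rcases hast z ((hESe z).2 ⟨hz.1, hz.2.2.1⟩) h1 with h2 | h2 | h2
      · subst h2
        have h3 := Step4c_jmg (Step4c_jmg S.j1 y b) q d
        rw [Step4c_mgu, Step4c_mgne d hqb.symm] at h3
        rcases Step4c_jor h3 (Step4c_jr hj) with h4 | h4
        · exact S.bd h4.symm
        · rw [Step4c_mgne b S.ya.symm, Step4c_mgne d hqa.symm] at h4
          exact S.ad h4.symm
      · subst h2
        have h3 := Step4c_jmg (Step4c_jmg hjc y b) q d
        rw [Step4c_mgne b S.ya.symm, Step4c_mgne d hqa.symm, Step4c_mgne b S.yc.symm,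
          Step4c_mgne d hqc.symm] at h3
        rcases Step4c_jor h3 (Step4c_jr hj) with h4 | h4
        · exact S.ad h4.symm
        · exact hcd h4.symm
      · exact hzk h2)
    (by
      intro s hsU hsa hsd p hp q' hq' hstars hjp _
      have hcard : (star ((((M.con {g2}).del {e, k}).con {x2}).S \ {k2})
          (fun x => mg q d (mg y b (h x))) (fun x => mg q d (mg y b (t x))) s).card ≤ 2 := by
        rw [hstars]
        exact Finset.card_le_two
      have hpk2 : p ≠ k2 := by
        intro h1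
        have h2 : p ∈ star ((((M.con {g2}).del {e, k}).con {x2}).S \ {k2})
          (fun x => mg q d (mg y b (h x))) (fun x => mg q d (mg y b (t x))) s := by
          rw [hstars]; simp
        have h3 := (Finset.mem_sdiff.1 (Step4c_mem.1 h2).1).2
        exact h3 (Finset.mem_singleton.2 h1)
      rw [hF2S] at hp
      have h1 := Step4c_jr hjp
      rw [hm2 a _ S.ya.symm hqa.symm S.ab S.ad, hm2 a _ S.ya.symm hqa.symm S.ab S.ad] at h1
      rcases hast p ((hESe p).2 ⟨hp.1, hp.2.2.1⟩) h1 with h2 | h2 | h2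
      · subst h2
        have h3 := Step4c_jmg (Step4c_jmg S.j1 y b) q d
        rw [Step4c_mgu, Step4c_mgne d hqb.symm, Step4c_mgne b S.ya.symm,
          Step4c_mgne d hqa.symm] at h3
        rcases Step4c_jor h3 (Step4c_jl hjp) with h4 | h4
        · subst h4
          have h5 : insert p ((star (M.S \ {e}) h t s).erase g2) ⊆
              star ((((M.con {g2}).del {e, k}).con {x2}).S \ {k2})
                (fun x => mg q d (mg y s (h x))) (fun x => mg q d (mg y s (t x))) s := by
            intro x hx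
            have h6 := hb2 hx
            rw [Step4c_mem] at h6 ⊢
            refine ⟨Finset.mem_sdiff.2 ⟨h6.1, ?_⟩, h6.2⟩
            intro h7
            rw [Finset.mem_singleton] at h7
            subst h7
            rw [Finset.mem_insert, Finset.mem_erase, Step4c_mem] at hx
            rcases hx with h8 | ⟨_, _, h8⟩
            · exact hpk2 h8.symm
            · rcases Step4c_jor hjq h8 with h9 | h9
              · exact S.ab h9.symm
              · exact hqb h9.symm
          have h6 := Finset.card_le_card h5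
          omega
        · exact hsa h4
      · subst h2
        have h3 := Step4c_jmg (Step4c_jmg hjc y b) q d
        rw [Step4c_mgne b S.ya.symm, Step4c_mgne d hqa.symm, Step4c_mgne b S.yc.symm,
          Step4c_mgne d hqc.symm] at h3
        rcases Step4c_jor h3 (Step4c_jl hjp) with h4 | h4
        · exact hsa h4
        · subst h4
          have h5 : star (M.S \ {e}) h t s ⊆
              star ((((M.con {g2}).del {e, k}).con {x2}).S \ {k2})
                (fun x => mg q d (mg y b (h x))) (fun x => mg q d (mg y b (t x))) s := by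
            intro x hx
            have h6 := hsub2 s hcU S.yc.symm hqc.symm S.bc.symm hcd hx
            rw [Step4c_mem] at h6 hx ⊢
            refine ⟨Finset.mem_sdiff.2 ⟨h6.1, ?_⟩, h6.2⟩
            intro h7
            rw [Finset.mem_singleton] at h7
            subst h7
            rcases Step4c_jor hjq hx.2 with h9 | h9
            · exact S.ac h9.symm
            · exact hqc h9.symm
          have h6 := Finset.card_le_card h5
          have h7 := hdeg s hcU
          omega
      · exact hpk2 h2)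
  have hF2tc : (((M.con {g2}).del {e, k}).con {x2}).TC := by
    refine IsGr.tc_of_deg hF2gr hgext2.1 hgext2.2 ?_
    intro v hv
    rw [Finset.mem_erase, Finset.mem_erase] at hv
    obtain ⟨hvq, hvy, hvU⟩ := hv
    by_cases hvb : v = b
    · subst hvb
      exact hb2c.trans (Finset.card_le_card hb2)
    · by_cases hvd : v = d
      · subst hvd
        have h5 : insert k2 (((star (M.S \ {e}) h t v).erase k).erase x2) ⊆
            star (((M.con {g2}).del {e, k}).con {x2}).S (fun x => mg q v (mg y b (h x)))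
              (fun x => mg q v (mg y b (t x))) v := by
          intro x hx
          rw [Finset.mem_insert, Finset.mem_erase, Finset.mem_erase, Step4c_mem, hESe] at hx
          rw [Step4c_mem, hF2S]
          rcases hx with rfl | ⟨h1, h2, ⟨h3, h4⟩, h5⟩
          · refine ⟨⟨hk, hk2, hke, hkk, hx2k2.symm⟩, ?_⟩
            rcases Step4c_jr hjq with h6 | h6
            · exact Or.inl (hm2d _ (Or.inr h6))
            · exact Or.inr (hm2d _ (Or.inr h6))
          · refine ⟨⟨h3, ?_, h4, h2, h1⟩, ?_⟩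
            · rintro rfl
              rcases Step4c_jor S.j2 h5 with h6 | h6
              · exact hvy h6
              · exact hvb h6
            · rcases h5 with h6 | h6
              · exact Or.inl (hm2d _ (Or.inl h6))
              · exact Or.inr (hm2d _ (Or.inl h6))
        have h6 : k2 ∉ ((star (M.S \ {e}) h t v).erase k).erase x2 := by
          intro h1
          have h2 := (Step4c_mem.1 (Finset.mem_erase.1 (Finset.mem_erase.1 h1).2).2).2
          rcases Step4c_jor hjq h2 with h3 | h3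
          · exact S.ad h3.symm
          · exact hvq h3
        have h7 := Finset.card_le_card h5
        rw [Finset.card_insert_of_notMem h6, Finset.card_erase_of_mem, Finset.card_erase_of_mem]
          at h7
        · omega
        · exact Step4c_mem.2 ⟨(hESe k).2 hkS, Step4c_jr S.jk⟩
        · exact Finset.mem_erase.2 ⟨hx2n.1, Step4c_mem.2 ⟨(hESe x2).2 hx2S, Step4c_jr hj2⟩⟩
      · exact (hdeg v hvU).trans (Finset.card_le_card (hsub2 v hvU hvy hvq hvb hvd))
  have hF2T : HasT rows (((M.con {g2}).del {e, k}).con {x2}) := by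
    apply HasT_of_del (D := {k2})
    rw [eqF2]
    exact hFcT
  -- `F3 = (M.del {e, k}).con {x2}`
  have eqF3 : ((M.del {e, k}).con {x2}).con {g2} = ((M.con {g2}).del {e, k}).con {x2} := by
    rw [← BM.del_con, BM.con_con, BM.con_con, Finset.union_comm]
    rw [Finset.disjoint_singleton_right]
    simp only [Finset.mem_insert, Finset.mem_singleton, not_or]
    exact ⟨hg2S.2, h2k⟩
  have hx2dk : x2 ∈ (M.del {e, k}).S := by
    simp only [BM.del_S, Finset.mem_sdiff, Finset.mem_insert, Finset.mem_singleton, not_or]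
    exact ⟨hx2S.1, hx2S.2, hx2n.1⟩
  have hg2dk : g2 ∈ (M.del {e, k}).S := by
    simp only [BM.del_S, Finset.mem_sdiff, Finset.mem_insert, Finset.mem_singleton, not_or]
    exact ⟨hg2S.1, hg2S.2, h2k⟩
  have hcard3 : 2 ≤ (M.del {e, k}).S.card := by
    have h1 : ({k2, x2} : Finset E) ⊆ (M.del {e, k}).S := by
      intro x hx
      simp only [Finset.mem_insert, Finset.mem_singleton] at hx
      rcases hx with rfl | rfl
      · exact hk2dk
      · exact hx2dk
    have h2 := Finset.card_le_card h1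
    rwa [Finset.card_pair hx2k2.symm] at h2
  have hF3gr : IsGr ((M.del {e, k}).con {x2}) (U.erase q) (fun x => mg q d (h x))
      (fun x => mg q d (t x)) :=
    hGk.con hx2dk hj2 (fun z hz hzx hj => hzx (IsGr.no_par hGk S.sc hz hx2dk hj hj2)) hcard3
  have hF3S : ∀ x, x ∈ ((M.del {e, k}).con {x2}).S ↔ x ∈ M.S ∧ x ≠ e ∧ x ≠ k ∧ x ≠ x2 := by
    intro x
    simp only [BM.con_S, BM.del_S, Finset.mem_sdiff, Finset.mem_singleton, Finset.mem_insert,
      not_or]
    tauto
  have hm3 : ∀ v z : V, v ≠ q → v ≠ d → (mg q d z = v ↔ z = v) := fun v z h1 h2 =>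
    Step4c_mgiff h1 h2
  have hyUq : y ∈ U.erase q := Finset.mem_erase.2 ⟨hqy.symm, hyU⟩
  have hF3y : star ((M.del {e, k}).con {x2}).S (fun x => mg q d (h x))
      (fun x => mg q d (t x)) y = {g1, g2} := by
    ext x
    rw [Step4c_mem, hm3 y _ hqy.symm S.yd, hm3 y _ hqy.symm S.yd, hF3S]
    simp only [Finset.mem_insert, Finset.mem_singleton]
    constructor
    · rintro ⟨⟨h1, h2, h3, h4⟩, h6⟩
      rcases hyst x ((hESe x).2 ⟨h1, h2⟩) h6 with h7 | h7 | h7
      · exact absurd h7 h3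
      · exact Or.inl h7
      · exact Or.inr h7
    · rintro (rfl | rfl)
      · exact ⟨⟨hg1S.1, hg1S.2, h1k, hx2n.2.1.symm⟩, Step4c_jl S.j1⟩
      · exact ⟨⟨hg2S.1, hg2S.2, h2k, hx2n.2.2.symm⟩, Step4c_jl S.j2⟩
  have hcl3 : ∃ z ∈ ((M.del {e, k}).con {x2}).Z, z g2 = 1 := by
    obtain ⟨z, hz, hz1⟩ := SC_not_coloop _ S.sc g2 hg2dk
    refine ⟨mask ((M.del {e, k}).S \ {x2}) z, (BM.mem_Z_con _).2 ⟨z, hz, rfl⟩, ?_⟩
    rw [mask_apply, if_pos, hz1]
    exact Finset.mem_sdiff.2 ⟨hg2dk, fun h1 => hx2n.2.2 (Finset.mem_singleton.1 h1).symm⟩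
  have hF3 := subdiv (p := g1) (q := g2) (y := y) hF3gr hyUq hF3y h12 hcl3
    (by rw [eqF3]; exact ((TC_iff_SC _).1 hF2tc).1)
    (by
      rw [eqF3]
      intro p hp p' hp' p'' hp'' h1 _
      exact Or.inl (((TC_iff_SC _).1 hF2tc).2 p hp p' hp' h1))
    (by
      rw [eqF3]
      intro x hx hxg h1
      rw [hF3S] at hx
      refine (((TC_iff_SC _).1 hF2tc).2 g1 ?_ x ?_ h1).symm
      · rw [hF2S]
        exact ⟨hg1S.1, h12, hg1S.2, h1k, hx2n.2.1.symm⟩
      · rw [hF2S]
        exact ⟨hx.1, hxg, hx.2.1, hx.2.2.1, hx.2.2.2⟩)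
  have hF3T : HasT rows ((M.del {e, k}).con {x2}) := by
    refine HasT_of_con h0 (a := g2) (b := g1) ((hF3S g2).2 ⟨hg2S.1, hg2S.2, h2k, hx2n.2.2.symm⟩)
      ((hF3S g1).2 ⟨hg1S.1, hg1S.2, h1k, hx2n.2.1.symm⟩) h12.symm ?_ hcl3 ?_
    · refine hser_of_star _ _ _ _ g2 g1 y hF3gr hyUq ?_ h12.symm
      rw [hF3y, Finset.pair_comm]
    · rw [eqF3]
      exact hF2T
  -- `F4 = (M.del {e}).con {x2}`
  have eqF4 : ((M.del {e}).con {x2}).del {k} = (M.del {e, k}).con {x2} := by
    rw [← BM.del_con, eqdk]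
    rw [Finset.disjoint_singleton]
    exact hx2n.1.symm
  have hcard4 : 2 ≤ (M.del {e}).S.card := by
    have := S.tc.card
    omega
  have hF4gr : IsGr ((M.del {e}).con {x2}) (U.erase q) (fun x => mg q d (h x))
      (fun x => mg q d (t x)) :=
    hG.con ((hESe x2).2 hx2S) hj2
      (fun z hz hzx hj => hzx (IsGr.no_par hG hHsc hz ((hESe x2).2 hx2S) hj hj2)) hcard4
  have hF4S : ∀ x, x ∈ ((M.del {e}).con {x2}).S ↔ x ∈ M.S ∧ x ≠ e ∧ x ≠ x2 := by
    intro x
    simp only [BM.con_S, BM.del_S, Finset.mem_sdiff, Finset.mem_singleton]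
    tauto
  have hsub4 : ∀ v, v ≠ q → v ≠ d → star (M.S \ {e}) h t v ⊆
      star ((M.del {e}).con {x2}).S (fun x => mg q d (h x)) (fun x => mg q d (t x)) v := by
    intro v h1 h2 x hx
    rw [Step4c_mem, hESe] at hx
    rw [Step4c_mem, hm3 v _ h1 h2, hm3 v _ h1 h2, hF4S]
    refine ⟨⟨hx.1.1, hx.1.2, ?_⟩, hx.2⟩
    rintro rfl
    rcases Step4c_jor hj2 hx.2 with h5 | h5
    · exact h1 h5
    · exact h2 h5
  have hgext4 := gext (M := (M.del {e}).con {x2}) (U := U.erase q)
    (h := fun x => mg q d (h x)) (t := fun x => mg q d (t x)) (x := k)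
    (u := y) (v := d) ((hF4S k).2 ⟨hkS.1, hkS.2, hx2n.1.symm⟩) hF4gr
    (by rw [eqF4]; exact hF3gr)
    (by rw [eqF4]; exact hF3.1) (by rw [eqF4]; exact hF3.2)
    (by
      have h1 := Step4c_jmg S.jk q d
      rw [Step4c_mgne d hqy.symm, Step4c_mgne d hq.symm] at h1
      exact h1)
    (by
      intro z hz hzk hj
      rw [hF4S] at hz
      have h1 := Step4c_jl hj
      rw [hm3 y _ hqy.symm S.yd, hm3 y _ hqy.symm S.yd] at h1
      rcases hyst z ((hESe z).2 ⟨hz.1, hz.2.1⟩) h1 with h2 | h2 | h2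
      · exact hzk h2
      · subst h2
        have h3 := Step4c_jmg S.j1 q d
        rw [Step4c_mgne d hqy.symm, Step4c_mgne d hqa.symm] at h3
        rcases Step4c_jor h3 (Step4c_jr hj) with h4 | h4
        · exact S.yd h4.symm
        · exact S.ad h4.symm
      · subst h2
        have h3 := Step4c_jmg S.j2 q d
        rw [Step4c_mgne d hqy.symm, Step4c_mgne d hqb.symm] at h3
        rcases Step4c_jor h3 (Step4c_jr hj) with h4 | h4
        · exact S.yd h4.symm
        · exact S.bd h4.symm)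
    (by
      intro s hsU hsy hsd p hp q' hq' hstars hjp _
      have hcard : (star (((M.del {e}).con {x2}).S \ {k})
          (fun x => mg q d (h x)) (fun x => mg q d (t x)) s).card ≤ 2 := by
        rw [hstars]
        exact Finset.card_le_two
      have hpk : p ≠ k := by
        intro h1
        have h2 : p ∈ star (((M.del {e}).con {x2}).S \ {k})
          (fun x => mg q d (h x)) (fun x => mg q d (t x)) s := by
          rw [hstars]; simp
        have h3 := (Finset.mem_sdiff.1 (Step4c_mem.1 h2).1).2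
        exact h3 (Finset.mem_singleton.2 h1)
      -- every vertex other than `y, q, d` keeps its star
      have hbig : ∀ v ∈ U, v ≠ q → v ≠ d → v ≠ y → s ≠ v := by
        rintro v hvU hvq hvd hvy rfl
        have h5 : star (M.S \ {e}) h t s ⊆ star (((M.del {e}).con {x2}).S \ {k})
            (fun x => mg q d (h x)) (fun x => mg q d (t x)) s := by
          intro x hx
          have h6 := hsub4 s hvq hvd hx
          rw [Step4c_mem] at h6 hx ⊢
          refine ⟨Finset.mem_sdiff.2 ⟨h6.1, ?_⟩, h6.2⟩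
          intro h7
          rw [Finset.mem_singleton] at h7
          subst h7
          rcases Step4c_jor S.jk hx.2 with h9 | h9
          · exact hvy h9
          · exact hvd h9
        have h6 := Finset.card_le_card h5
        have h7 := hdeg s hvU
        omega
      rw [hF4S] at hp
      have h1 := Step4c_jr hjp
      rw [hm3 y _ hqy.symm S.yd, hm3 y _ hqy.symm S.yd] at h1
      rcases hyst p ((hESe p).2 ⟨hp.1, hp.2.1⟩) h1 with h2 | h2 | h2
      · exact hpk h2
      · subst h2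
        have h3 := Step4c_jmg S.j1 q d
        rw [Step4c_mgne d hqy.symm, Step4c_mgne d hqa.symm] at h3
        rcases Step4c_jor h3 (Step4c_jl hjp) with h4 | h4
        · exact hsy h4
        · exact hbig a haU hqa.symm S.ad S.ya.symm h4
      · subst h2
        have h3 := Step4c_jmg S.j2 q d
        rw [Step4c_mgne d hqy.symm, Step4c_mgne d hqb.symm] at h3
        rcases Step4c_jor h3 (Step4c_jl hjp) with h4 | h4
        · exact hsy h4
        · exact hbig b hbU hqb.symm S.bd S.yb.symm h4)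
  have hF4tc : ((M.del {e}).con {x2}).TC := by
    refine IsGr.tc_of_deg hF4gr hgext4.1 hgext4.2 ?_
    intro v hv
    rw [Finset.mem_erase] at hv
    obtain ⟨hvq, hvU⟩ := hv
    by_cases hvd : v = d
    · subst hvd
      have h5 : (star (M.S \ {e}) h t v).erase x2 ⊆
          star ((M.del {e}).con {x2}).S (fun x => mg q v (h x)) (fun x => mg q v (t x)) v := by
        intro x hx
        rw [Finset.mem_erase, Step4c_mem, hESe] at hx
        rw [Step4c_mem, hF4S]
        refine ⟨⟨hx.2.1.1, hx.2.1.2, hx.1⟩, ?_⟩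
        rcases hx.2.2 with h6 | h6
        · exact Or.inl (Step4c_mgv.2 (Or.inl h6))
        · exact Or.inr (Step4c_mgv.2 (Or.inl h6))
      have h7 := Finset.card_le_card h5
      rw [Finset.card_erase_of_mem (Step4c_mem.2 ⟨(hESe x2).2 hx2S, Step4c_jr hj2⟩)] at h7
      omega
    · exact (hdeg v hvU).trans (Finset.card_le_card (hsub4 v hvq hvd))
  have hF4T : HasT rows ((M.del {e}).con {x2}) := by
    apply HasT_of_del (D := {k})
    rw [eqF4]
    exact hF3T
  -- the graft
  have eqN : (M.con {x2}).del {e} = (M.del {e}).con {x2} := by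
    rw [BM.del_con]
    rw [Finset.disjoint_singleton]
    exact hx2S.2.symm
  have hqT : q ∉ ({y, a, b, c} : Finset V) := by
    simp only [Finset.mem_insert, Finset.mem_singleton, not_or]
    exact ⟨hqy, hqa, hqb, hqc⟩
  have hgraft := S.gr.con (x := x2) (u := q) (v := d) hx2S.1 hx2S.2 hj2
    (fun z hz hze hzx hj => hzx (IsGr.no_par hG hHsc ((hESe z).2 ⟨hz, hze⟩)
      ((hESe x2).2 hx2S) hj hj2))
    (by
      have h1 := S.tc.card
      have h2 : (M.del {e}).S.card ≤ M.S.card := Finset.card_le_card Finset.sdiff_subset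
      omega)
  rw [if_neg hqT] at hgraft
  refine S.cx.false_of_graft h0 (M.con {x2}) (minor_con M {x2}) ?_ hgraft ?_ ?_ ?_
  · refine Finset.card_lt_card (Finset.ssubset_iff_subset_ne.2 ⟨Finset.sdiff_subset, ?_⟩)
    intro heq
    have h1 : x2 ∈ (M.con {x2}).S := by
      rw [heq]
      exact hx2S.1
    exact (Finset.mem_sdiff.1 h1).2 (Finset.mem_singleton_self x2)
  · rw [eqN]
    exact hF4tc
  · rw [eqN]
    exact hF4T
  · rw [Finset.card_insert_of_notMem, Finset.card_insert_of_notMem,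
      Finset.card_insert_of_notMem, Finset.card_singleton]
    · rw [Finset.mem_singleton]
      exact S.bc
    · simp only [Finset.mem_insert, Finset.mem_singleton, not_or]
      exact ⟨S.ab, S.ac⟩
    · simp only [Finset.mem_insert, Finset.mem_singleton, not_or]
      exact ⟨S.ya, S.yb, S.yc⟩

end SEY

end

section

/-!
T3-OutO4: H' = (M.con {g2}).del {e,k} is isomorphic to the graph N0 given by `ends`.

phi : Fin m -> E the isomorphism (IsIso).  H' is a graph in two ways: on U' = U.erase y (`SitI.hp_gr`) and, through phi, with vertex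
set Fin n and ends (ends j) for phi j (from hgr: the rows of ofRows (grRows ends) are the coboundaries).  `uniq` in both directions (H' is TC):
for every v in U' there is a vertex v0 of Fin n with the same star and conversely; the stars of
different vertices are different (connected graph with more than two vertices).  So a bijection sigma : U' -> Fin n with phi j at v iff j at
sigma v.  Let phi f = g1 (in H' g1 joins a and b), so {sigma a, sigma b} = ends of f.  If sigma a = (ends f).1: column f -> g1,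
column m -> g2; otherwise column f -> g2, column m -> g1 (g2 joins y b and sigma b = (ends f).1).  Other columns j -> phi j, column m+1 -> k,
column m+2 -> e; c' = sigma c, d' = sigma d.  Rows: M.R = {pi -> ...} by `IsGraft.rows` for pi on U (T = {y,a,b,c}); the rows of O4rows are
the lifted stars of the vertices sigma v and y = n.  (i): row of vertex v0 = lifted star (`IsGraft.star_mem`).  (ii): f given by
pi: f = sum over v of pi(v) (row of v).
-/

namespace SEY

open Finset

variable {E : Type} [Fintype E] [DecidableEq E] {V : Type} [Fintype V] [DecidableEq V]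

namespace OutO4

/-- The stars of different vertices of a 3-connected graph are different. -/
lemma star_inj {M : BM E} (hTC : M.TC) {U : Finset V} {h t : E → V}
    (hg : IsGr M U h t) {v w : V} (hv : v ∈ U) (_hw : w ∈ U)
    (hs : star M.S h t v = star M.S h t w) : v = w := by
  by_contra hne
  have hmem : ∀ x ∈ M.S, ((h x = v ∨ t x = v) ↔ (h x = w ∨ t x = w)) := by
    intro x hx
    have h1 : x ∈ star M.S h t v ↔ x ∈ star M.S h t w := by rw [hs]
    simpa [star, hx] using h1
  have h0 : cob M.S h t (fun u => if u = v ∨ u = w then (1 : ZMod 2) else 0) = 0 := by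
    funext x
    by_cases hx : x ∈ M.S
    · have h1 := hmem x hx
      have h2 := (hg.ends x hx).2.2
      simp only [cob, if_pos hx, Pi.zero_apply]
      by_cases h3 : h x = v ∨ t x = v
      · have h4 := h1.1 h3
        have h5 : (h x = v ∧ t x = w) ∨ (h x = w ∧ t x = v) := by
          rcases h3 with h3 | h3 <;> rcases h4 with h4 | h4
          · exact absurd (h3.symm.trans h4) hne
          · exact Or.inl ⟨h3, h4⟩
          · exact Or.inr ⟨h4, h3⟩
          · exact absurd (h3.symm.trans h4) hne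
        rcases h5 with ⟨h5, h6⟩ | ⟨h5, h6⟩
        · rw [if_pos (Or.inl h5), if_pos (Or.inr h6)]
          exact z_add_self 1
        · rw [if_pos (Or.inr h5), if_pos (Or.inl h6)]
          exact z_add_self 1
      · have h4 : ¬ (h x = w ∨ t x = w) := fun h' => h3 (h1.2 h')
        rw [if_neg (fun h' => h'.elim (fun h'' => h3 (Or.inl h'')) (fun h'' => h4 (Or.inl h''))),
          if_neg (fun h' => h'.elim (fun h'' => h3 (Or.inr h'')) (fun h'' => h4 (Or.inr h''))),
          add_zero]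
    · simp [cob, hx]
  have hU : ∀ u ∈ U, u = v ∨ u = w := by
    intro u hu
    have h1 := hg.conn _ h0 u hu v hv
    by_contra hcon
    simp only [if_neg hcon, true_or, if_true] at h1
    exact zero_ne_one h1
  obtain ⟨x, hx, x', hx', hxx⟩ := Finset.one_lt_card.1 (show 1 < M.S.card by
    have := hTC.card
    omega)
  obtain ⟨f, hf, h1, h2⟩ := hTC.exists_row_ne hx hx' hxx
  obtain ⟨π, rfl⟩ := (hg.rows f).1 hf
  have key : ∀ z ∈ M.S, cob M.S h t π z = π v + π w := by
    intro z hz
    obtain ⟨e1, e2, e3⟩ := hg.ends z hz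
    simp only [cob, if_pos hz]
    rcases hU _ e1 with h3 | h3 <;> rcases hU _ e2 with h4 | h4
    · exact absurd (h3.trans h4.symm) e3
    · rw [h3, h4]
    · rw [h3, h4, add_comm]
    · exact absurd (h3.trans h4.symm) e3
  rw [key x hx] at h1
  rw [key x' hx', h1] at h2
  exact one_ne_zero h2

/-- Carry a graph through an isomorphism. -/
lemma transfer {r m : ℕ} {rows : Fin r → Fin m → ZMod 2} {N : BM E} {φ : Fin m → E}
    (hS : ∀ e, e ∈ N.S ↔ ∃ i, φ i = e)
    (h1 : ∀ i, ∃ f ∈ N.R, ∀ j, f (φ j) = rows i j)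
    (h2 : ∀ f ∈ N.R, ∃ c : Fin r → ZMod 2, ∀ j, f (φ j) = ∑ i, c i * rows i j)
    {U : Finset V} {h t : E → V} (hg : IsGr N U h t) :
    IsGr (ofRows rows) U (fun j => h (φ j)) (fun j => t (φ j)) := by
  have hm : ∀ j, φ j ∈ N.S := fun j => (hS _).2 ⟨j, rfl⟩
  refine ⟨fun j _ => hg.ends _ (hm j), fun f => ⟨fun hf => ?_, ?_⟩, fun π hπ => ?_, fun v hv => ?_⟩
  · have hex : ∃ g ∈ N.R, ∀ j, g (φ j) = f j := by
      have hf' : f ∈ Submodule.span (ZMod 2) (Set.range rows) := hf
      clear hf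
      induction hf' using Submodule.span_induction with
      | mem x hx =>
        obtain ⟨i, rfl⟩ := hx
        exact h1 i
      | zero => exact ⟨0, N.R.zero_mem, fun j => rfl⟩
      | add x y _ _ hx hy =>
        obtain ⟨g1, hg1, hx⟩ := hx
        obtain ⟨g2, hg2, hy⟩ := hy
        exact ⟨g1 + g2, N.R.add_mem hg1 hg2, fun j => by simp [hx, hy]⟩
      | smul a x _ hx =>
        obtain ⟨g1, hg1, hx⟩ := hx
        exact ⟨a • g1, N.R.smul_mem a hg1, fun j => by simp [hx]⟩
    obtain ⟨g, hgR, hgf⟩ := hex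
    obtain ⟨π, rfl⟩ := (hg.rows g).1 hgR
    refine ⟨π, funext fun j => ?_⟩
    rw [← hgf j]
    simp [cob, hm j, ofRows]
  · rintro ⟨π, rfl⟩
    obtain ⟨c, hc⟩ := h2 _ ((hg.rows _).2 ⟨π, rfl⟩)
    have heq : cob (ofRows rows).S (fun j => h (φ j)) (fun j => t (φ j)) π
        = ∑ i, c i • rows i := by
      funext j
      rw [Finset.sum_apply]
      simp only [Pi.smul_apply, smul_eq_mul]
      rw [← hc j]
      simp [cob, hm j, ofRows]
    rw [heq]
    exact Submodule.sum_mem _ (fun i _ => Submodule.smul_mem _ _ (Submodule.subset_span ⟨i, rfl⟩))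
  · refine hg.conn π ?_
    funext x
    by_cases hx : x ∈ N.S
    · obtain ⟨j, rfl⟩ := (hS x).1 hx
      have h3 := congrFun hπ j
      simpa [cob, hm j, ofRows] using h3
    · simp [cob, hx]
  · obtain ⟨x, hx, hx'⟩ := hg.ne v hv
    obtain ⟨j, rfl⟩ := (hS x).1 hx
    exact ⟨j, Finset.mem_univ j, hx'⟩

lemma sum_ind {n : ℕ} (p : Fin (n + 1) → ZMod 2) (x : Fin n) :
    ∑ v : Fin (n + 1), p v * (if (v : ℕ) = x then 1 else 0) = p x.castSucc := by
  rw [Finset.sum_eq_single x.castSucc]
  · simp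
  · intro v _ hv
    rw [if_neg (fun h' => hv (Fin.ext (by simpa using h'))), mul_zero]
  · intro h'
    exact absurd (Finset.mem_univ _) h'

lemma sum_last {n : ℕ} (p : Fin (n + 1) → ZMod 2) :
    ∑ v : Fin (n + 1), p v * (if (v : ℕ) = n then 1 else 0) = p (Fin.last n) := by
  rw [Finset.sum_eq_single (Fin.last n)]
  · simp
  · intro v _ hv
    rw [if_neg (fun h' => hv (Fin.ext (by simpa using h'))), mul_zero]
  · intro h'
    exact absurd (Finset.mem_univ _) h'

lemma sum_two {n : ℕ} (p : Fin (n + 1) → ZMod 2) (x y : Fin n) :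
    ∑ v : Fin (n + 1), p v * ((if (v : ℕ) = x then 1 else 0) + (if (v : ℕ) = y then 1 else 0))
      = p x.castSucc + p y.castSucc := by
  simp only [mul_add, Finset.sum_add_distrib]
  rw [sum_ind, sum_ind]

lemma sum_one {n : ℕ} (p : Fin (n + 1) → ZMod 2) (x : Fin n) :
    ∑ v : Fin (n + 1), p v * (if (v : ℕ) = x ∨ (v : ℕ) = n then 1 else 0)
      = p x.castSucc + p (Fin.last n) := by
  rw [← sum_ind p x, ← sum_last p, ← Finset.sum_add_distrib]
  refine Finset.sum_congr rfl (fun v _ => ?_)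
  rw [← mul_add]
  congr 1
  have hx := x.2
  by_cases h1 : (v : ℕ) = x
  · have h2 : ¬ (v : ℕ) = n := by omega
    simp [h1]
    omega
  · simp [h1]

lemma sum_four {n : ℕ} (p : Fin (n + 1) → ZMod 2) {x y z : Fin n} (hxy : x ≠ y) (hzx : z ≠ x)
    (hzy : z ≠ y) :
    ∑ v : Fin (n + 1), p v * (if (v : ℕ) = x ∨ (v : ℕ) = y ∨ (v : ℕ) = z ∨ (v : ℕ) = n
        then 1 else 0)
      = p x.castSucc + p y.castSucc + p z.castSucc + p (Fin.last n) := by
  rw [← sum_ind p x, ← sum_ind p y, ← sum_ind p z, ← sum_last p, ← Finset.sum_add_distrib,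
    ← Finset.sum_add_distrib, ← Finset.sum_add_distrib]
  refine Finset.sum_congr rfl (fun v _ => ?_)
  rw [← mul_add, ← mul_add, ← mul_add]
  congr 1
  have hx := x.2
  have hy := y.2
  have hz := z.2
  have a1 : (x : ℕ) ≠ y := fun h' => hxy (Fin.ext h')
  have a2 : (z : ℕ) ≠ x := fun h' => hzx (Fin.ext h')
  have a3 : (z : ℕ) ≠ y := fun h' => hzy (Fin.ext h')
  by_cases h1 : (v : ℕ) = x
  · rw [if_pos (Or.inl h1), if_pos h1, if_neg (by (clear * - a1 a2 a3 h1; omega)), if_neg (by omega), if_neg (by omega)]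
    rfl
  · by_cases h2 : (v : ℕ) = y
    · rw [if_pos (Or.inr (Or.inl h2)), if_neg h1, if_pos h2, if_neg (by omega),
        if_neg (by omega)]
      rfl
    · by_cases h3 : (v : ℕ) = z
      · rw [if_pos (Or.inr (Or.inr (Or.inl h3))), if_neg h1, if_neg h2, if_pos h3,
          if_neg (by omega)]
        rfl
      · by_cases h4 : (v : ℕ) = n
        · rw [if_pos (Or.inr (Or.inr (Or.inr h4))), if_neg h1, if_neg h2, if_neg h3, if_pos h4]
          rfl
        · rw [if_neg (by tauto), if_neg h1, if_neg h2, if_neg h3, if_neg h4]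
          rfl

/-- the map on the elements -/
def psi {m : ℕ} (φ : Fin m → E) (f : Fin m) (g g' k e : E) : Fin (m + 3) → E := fun j =>
  if hj : (j : ℕ) < m then (if (⟨j, hj⟩ : Fin m) = f then g else φ ⟨j, hj⟩)
  else if (j : ℕ) = m then g' else if (j : ℕ) = m + 1 then k else e

/-- a function on the vertices, as a function on `Fin (n + 1)` -/
def ex {n : ℕ} (τ : Fin n → V) (y : V) (π : V → ZMod 2) : Fin (n + 1) → ZMod 2 := fun w =>
  if hw : (w : ℕ) < n then π (τ ⟨w, hw⟩) else π y

omit [Fintype V] [DecidableEq V] in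
lemma ex_castSucc {n : ℕ} (τ : Fin n → V) (y : V) (π : V → ZMod 2) (x : Fin n) :
    ex τ y π x.castSucc = π (τ x) := by
  simp [ex]

omit [Fintype V] [DecidableEq V] in
lemma ex_last {n : ℕ} (τ : Fin n → V) (y : V) (π : V → ZMod 2) :
    ex τ y π (Fin.last n) = π y := by
  simp [ex]

lemma core {n m : ℕ} (ends : Fin m → Fin n × Fin n) {M : BM E} {h t : E → V} {e k g g' : E}
    {y s s' c d : V} {f : Fin m} {c' d' : Fin n}
    (hR : ∀ F, F ∈ M.R ↔ ∃ π : V → ZMod 2,
      F = fun x => if x = e then π y + π s + π s' + π c else cob (M.S \ {e}) h t π x)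
    (φ : Fin m → E) (hφ : Function.Injective φ)
    (hS : ∀ x, x ∈ M.S ↔ (∃ j, j ≠ f ∧ φ j = x) ∨ x = g ∨ x = g' ∨ x = k ∨ x = e)
    (hj : ∀ j, j ≠ f → φ j ≠ g ∧ φ j ≠ g' ∧ φ j ≠ k ∧ φ j ≠ e)
    (d1 : g ≠ g') (d2 : g ≠ k) (d3 : g ≠ e) (d4 : g' ≠ k) (d5 : g' ≠ e) (d6 : k ≠ e)
    (jg : Jn h t g y s) (jg' : Jn h t g' y s') (jk : Jn h t k y d)
    (τ : Fin n → V) (hτ : Function.Injective τ) (hτy : ∀ v, τ v ≠ y)
    (hJ : ∀ j, j ≠ f → Jn h t (φ j) (τ (ends j).1) (τ (ends j).2))
    (h1 : τ (ends f).1 = s) (h2 : τ (ends f).2 = s') (h3 : τ c' = c) (h4 : τ d' = d)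
    (h12 : (ends f).1 ≠ (ends f).2) (hc1 : c' ≠ (ends f).1) (hc2 : c' ≠ (ends f).2) :
    IsIso (O4rows ends f c' d') M := by
  have hcl : ∀ j : Fin (m + 3),
      (∃ i : Fin m, i ≠ f ∧ j = i.castAdd 3 ∧ psi φ f g g' k e j = φ i) ∨
      (j = f.castAdd 3 ∧ psi φ f g g' k e j = g) ∨
      ((j : ℕ) = m ∧ psi φ f g g' k e j = g') ∨
      ((j : ℕ) = m + 1 ∧ psi φ f g g' k e j = k) ∨
      ((j : ℕ) = m + 2 ∧ psi φ f g g' k e j = e) := by
    intro j
    by_cases hjm : (j : ℕ) < m
    · by_cases hjf : (⟨j, hjm⟩ : Fin m) = f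
      · right; left
        refine ⟨?_, ?_⟩
        · rw [← hjf]
          exact Fin.ext rfl
        · simp [psi, hjm, hjf]
      · left
        exact ⟨⟨j, hjm⟩, hjf, Fin.ext rfl, by simp [psi, hjm, hjf]⟩
    · by_cases hj1 : (j : ℕ) = m
      · right; right; left
        exact ⟨hj1, by simp [psi, hj1]⟩
      · by_cases hj2 : (j : ℕ) = m + 1
        · right; right; right; left
          exact ⟨hj2, by simp [psi, hj2]⟩
        · right; right; right; right
          refine ⟨by omega, by simp [psi, hjm, hj1, hj2]⟩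
  have hinj : Function.Injective (psi φ f g g' k e) := by
    intro i j hij
    rcases hcl i with ⟨i', i1, i2, i3⟩ | ⟨i2, i3⟩ | ⟨i2, i3⟩ | ⟨i2, i3⟩ | ⟨i2, i3⟩ <;>
    rcases hcl j with ⟨j', j1, j2, j3⟩ | ⟨j2, j3⟩ | ⟨j2, j3⟩ | ⟨j2, j3⟩ | ⟨j2, j3⟩ <;>
    rw [i3, j3] at hij
    all_goals first
      | (rw [i2, j2]; done)
      | (rw [i2, j2, hφ hij]; done)
      | exact Fin.ext (by omega)
      | exact absurd hij (hj _ i1).1
      | exact absurd hij (hj _ i1).2.1
      | exact absurd hij (hj _ i1).2.2.1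
      | exact absurd hij (hj _ i1).2.2.2
      | exact absurd hij.symm (hj _ j1).1
      | exact absurd hij.symm (hj _ j1).2.1
      | exact absurd hij.symm (hj _ j1).2.2.1
      | exact absurd hij.symm (hj _ j1).2.2.2
      | exact absurd hij d1
      | exact absurd hij d2
      | exact absurd hij d3
      | exact absurd hij d4
      | exact absurd hij d5
      | exact absurd hij d6
      | exact absurd hij.symm d1
      | exact absurd hij.symm d2
      | exact absurd hij.symm d3
      | exact absurd hij.symm d4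
      | exact absurd hij.symm d5
      | exact absurd hij.symm d6
  -- values
  have hv0 : ∀ i : Fin m, i ≠ f → psi φ f g g' k e (i.castAdd 3) = φ i := by
    intro i hi
    simp [psi, hi]
  have hv1 : psi φ f g g' k e (f.castAdd 3) = g := by
    simp [psi]
  have hv2 : psi φ f g g' k e ⟨m, by omega⟩ = g' := by
    simp [psi]
  have hv3 : psi φ f g g' k e ⟨m + 1, by omega⟩ = k := by
    simp [psi]
  have hv4 : psi φ f g g' k e ⟨m + 2, by omega⟩ = e := by
    simp [psi]
  -- the rows
  have hC : ∀ π : V → ZMod 2, ∀ j,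
      (if psi φ f g g' k e j = e then π y + π s + π s' + π c
        else cob (M.S \ {e}) h t π (psi φ f g g' k e j)) =
      ∑ w : Fin (n + 1), ex τ y π w * O4rows ends f c' d' w j := by
    intro π j
    have hcobJ : ∀ x u v, x ∈ M.S → x ≠ e → Jn h t x u v →
        cob (M.S \ {e}) h t π x = π u + π v := by
      intro x u v hx hxe hJn
      have hx' : x ∈ M.S \ {e} := by simp [hx, hxe]
      simp only [cob, if_pos hx']
      rcases hJn with ⟨q1, q2⟩ | ⟨q1, q2⟩
      · rw [q1, q2]
      · rw [q1, q2, add_comm]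
    have hP := ex_castSucc τ y π
    have hPl := ex_last τ y π
    rcases hcl j with ⟨i, i1, i2, i3⟩ | ⟨i2, i3⟩ | ⟨i2, i3⟩ | ⟨i2, i3⟩ | ⟨i2, i3⟩
    · rw [i3, if_neg (hj i i1).2.2.2,
        hcobJ _ _ _ ((hS _).2 (Or.inl ⟨i, i1, rfl⟩)) (hj i i1).2.2.2 (hJ i i1)]
      have hO : ∀ w : Fin (n + 1), O4rows ends f c' d' w j =
          (if (w : ℕ) = (ends i).1 then 1 else 0) + (if (w : ℕ) = (ends i).2 then 1 else 0) := by
        intro w
        rw [i2]
        simp [O4rows, i1]
      simp only [hO]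
      rw [sum_two, hP, hP]
    · rw [i3, if_neg d3, hcobJ _ _ _ ((hS _).2 (Or.inr (Or.inl rfl))) d3 jg]
      have hO : ∀ w : Fin (n + 1), O4rows ends f c' d' w j =
          (if (w : ℕ) = (ends f).1 ∨ (w : ℕ) = n then 1 else 0) := by
        intro w
        rw [i2]
        simp [O4rows]
      simp only [hO]
      rw [sum_one, hP, hPl, h1, add_comm]
    · rw [i3, if_neg d5, hcobJ _ _ _ ((hS _).2 (Or.inr (Or.inr (Or.inl rfl)))) d5 jg']
      have hO : ∀ w : Fin (n + 1), O4rows ends f c' d' w j =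
          (if (w : ℕ) = (ends f).2 ∨ (w : ℕ) = n then 1 else 0) := by
        intro w
        simp [O4rows, i2]
      simp only [hO]
      rw [sum_one, hP, hPl, h2, add_comm]
    · rw [i3, if_neg d6, hcobJ _ _ _ ((hS _).2 (Or.inr (Or.inr (Or.inr (Or.inl rfl))))) d6 jk]
      have hO : ∀ w : Fin (n + 1), O4rows ends f c' d' w j =
          (if (w : ℕ) = d' ∨ (w : ℕ) = n then 1 else 0) := by
        intro w
        simp [O4rows, i2]
      simp only [hO]
      rw [sum_one, hP, hPl, h4, add_comm]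
    · rw [i3, if_pos rfl]
      have hO : ∀ w : Fin (n + 1), O4rows ends f c' d' w j =
          (if (w : ℕ) = (ends f).1 ∨ (w : ℕ) = (ends f).2 ∨ (w : ℕ) = c' ∨ (w : ℕ) = n
            then 1 else 0) := by
        intro w
        have q1 : ¬ (m + 2 < m) := by omega
        simp [O4rows, i2, q1]
      simp only [hO]
      rw [sum_four _ h12 hc1 hc2, hP, hP, hP, hPl, h1, h2, h3]
      ring
  refine ⟨psi φ f g g' k e, hinj, fun x => ⟨fun hx => ?_, ?_⟩, fun v => ?_, fun F hF => ?_⟩
  · rcases (hS x).1 hx with ⟨j, j1, rfl⟩ | rfl | rfl | rfl | rfl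
    · exact ⟨_, hv0 j j1⟩
    · exact ⟨_, hv1⟩
    · exact ⟨_, hv2⟩
    · exact ⟨_, hv3⟩
    · exact ⟨_, hv4⟩
  · rintro ⟨j, rfl⟩
    rw [hS]
    rcases hcl j with ⟨i, i1, i2, i3⟩ | ⟨i2, i3⟩ | ⟨i2, i3⟩ | ⟨i2, i3⟩ | ⟨i2, i3⟩
    · exact Or.inl ⟨i, i1, i3.symm⟩
    · exact Or.inr (Or.inl i3)
    · exact Or.inr (Or.inr (Or.inl i3))
    · exact Or.inr (Or.inr (Or.inr (Or.inl i3)))
    · exact Or.inr (Or.inr (Or.inr (Or.inr i3)))
  · obtain ⟨u, hu⟩ : ∃ u : V, ∀ w : Fin (n + 1),
        ex τ y (fun x => if x = u then (1 : ZMod 2) else 0) w = if w = v then 1 else 0 := by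
      unfold ex
      beta_reduce
      by_cases hv : (v : ℕ) < n
      · refine ⟨τ ⟨v, hv⟩, fun w => ?_⟩
        by_cases hw : (w : ℕ) < n
        · rw [dif_pos hw]
          by_cases hwv : w = v
          · subst hwv
            simp
          · rw [if_neg hwv, if_neg]
            intro h'
            have := hτ h'
            exact hwv (Fin.ext (by simpa using this))
        · rw [dif_neg hw, if_neg (hτy _).symm, if_neg]
          rintro rfl
          exact hw hv
      · refine ⟨y, fun w => ?_⟩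
        by_cases hw : (w : ℕ) < n
        · rw [dif_pos hw, if_neg (hτy _), if_neg]
          rintro rfl
          exact hv hw
        · rw [dif_neg hw, if_pos rfl, if_pos]
          exact Fin.ext (by omega)
    refine ⟨_, (hR _).2 ⟨fun x => if x = u then 1 else 0, rfl⟩, fun j => ?_⟩
    have h5 := hC (fun x => if x = u then 1 else 0) j
    refine h5.trans ?_
    simp only [hu]
    rw [Finset.sum_eq_single v]
    · simp
    · intro w _ hw
      rw [if_neg hw, zero_mul]
    · intro h'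
      exact absurd (Finset.mem_univ _) h'
  · obtain ⟨π, rfl⟩ := (hR F).1 hF
    exact ⟨_, fun j => hC π j⟩

end OutO4

theorem SitI.out_O4 {n m : ℕ} (ends : Fin m → Fin n × Fin n)
    (h0 : (ofRows (grRows ends)).TC)
    (hgr : IsGr (ofRows (grRows ends)) Finset.univ (fun j => (ends j).1) (fun j => (ends j).2))
    {M : BM E} {U : Finset V} {h t : E → V} {e k g1 g2 : E} {y a b c d : V}
    (S : SitI (grRows ends) M U h t e k g1 g2 y a b c d) (hcd : c ≠ d)
    (hd : 4 ≤ (star (M.S \ {e}) h t d).card)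
    (hI : IsIso (grRows ends) ((M.con {g2}).del {e, k})) :
    ∃ (f : Fin m) (c' d' : Fin n), c' ≠ d' ∧ c' ≠ (ends f).1 ∧ c' ≠ (ends f).2 ∧
      d' ≠ (ends f).1 ∧ d' ≠ (ends f).2 ∧ IsIso (O4rows ends f c' d') M := by
  classical
  -- the graph on `H'`
  have hg1 := S.hp_gr
  have htc := S.hp_tc hd
  obtain ⟨φ, hφ, hφS, hφ1, hφ2⟩ := hI
  have hgt := OutO4.transfer hφS hφ1 hφ2 hg1
  -- elements
  have hst := S.st
  have hmst : ∀ x, (x ∈ M.S \ {e} ∧ (h x = y ∨ t x = y)) ↔ (x = k ∨ x = g1 ∨ x = g2) := by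
    intro x
    have h1 : x ∈ star (M.S \ {e}) h t y ↔ x ∈ ({k, g1, g2} : Finset E) := by rw [hst]
    simpa [star] using h1
  have hk := (hmst k).2 (Or.inl rfl)
  have hg1' := (hmst g1).2 (Or.inr (Or.inl rfl))
  have hg2' := (hmst g2).2 (Or.inr (Or.inr rfl))
  have hkS : k ∈ M.S ∧ k ≠ e := by simpa using hk.1
  have hg1S : g1 ∈ M.S ∧ g1 ≠ e := by simpa using hg1'.1
  have hg2S : g2 ∈ M.S ∧ g2 ≠ e := by simpa using hg2'.1
  have hJne : ∀ {x x' : E} {u v u' : V}, Jn h t x u v → Jn h t x' u u' → u ≠ v → v ≠ u' →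
      x ≠ x' := by
    rintro x x' u v u' j1 j2 n1 n2 rfl
    rcases j1 with ⟨q1, q2⟩ | ⟨q1, q2⟩ <;> rcases j2 with ⟨q3, q4⟩ | ⟨q3, q4⟩
    · exact n2 (q2.symm.trans q4)
    · exact n1 (q4.symm.trans q2)
    · exact n1 (q3.symm.trans q1)
    · exact n2 (q1.symm.trans q3)
  have hg12 : g1 ≠ g2 := hJne S.j1 S.j2 S.ya S.ab
  have hg1k : g1 ≠ k := hJne S.j1 S.jk S.ya S.ad
  have hg2k : g2 ≠ k := hJne S.j2 S.jk S.yb S.bd
  have hU : y ∈ U ∧ a ∈ U ∧ b ∈ U ∧ c ∈ U := by
    have h1 := S.gr.sub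
    refine ⟨h1 (by simp), h1 (by simp), h1 (by simp), h1 (by simp)⟩
  have hgr0 : IsGr (M.del {e}) U h t := S.gr.gr
  have hdU : d ∈ U := by
    have h1 := hgr0.ends k (by simp [hkS])
    rcases S.jk with ⟨q1, q2⟩ | ⟨q1, q2⟩
    · rw [← q2]
      exact h1.2.1
    · rw [← q1]
      exact h1.1
  have hHS : ∀ x, x ∈ ((M.con {g2}).del {e, k}).S ↔ x ∈ M.S ∧ x ≠ g2 ∧ x ≠ e ∧ x ≠ k := by
    intro x
    simp only [BM.del_S, BM.con_S, Finset.mem_sdiff, Finset.mem_insert, Finset.mem_singleton,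
      not_or]
    tauto
  have hφm : ∀ j, φ j ∈ M.S ∧ φ j ≠ g2 ∧ φ j ≠ e ∧ φ j ≠ k := fun j =>
    (hHS _).1 ((hφS _).2 ⟨j, rfl⟩)
  obtain ⟨f, hf⟩ : ∃ f, φ f = g1 := (hφS _).1 ((hHS _).2 ⟨hg1S.1, hg12, hg1S.2, hg1k⟩)
  -- the map on the vertices
  have hu2 : ∀ v' : Fin n, ∃ v ∈ U.erase y,
      star (ofRows (grRows ends)).S (fun j => mg y b (h (φ j))) (fun j => mg y b (t (φ j))) v =
        star (ofRows (grRows ends)).S (fun j => (ends j).1) (fun j => (ends j).2) v' :=
    fun v' => uniq h0 hgr hgt v' (Finset.mem_univ _)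
  have hu1 : ∀ v ∈ U.erase y, ∃ v' : Fin n,
      star (ofRows (grRows ends)).S (fun j => (ends j).1) (fun j => (ends j).2) v' =
      star (ofRows (grRows ends)).S (fun j => mg y b (h (φ j))) (fun j => mg y b (t (φ j))) v := by
    intro v hv
    obtain ⟨v', -, hv'⟩ := uniq h0 hgt hgr v hv
    exact ⟨v', hv'⟩
  choose τ hτU hτs using hu2
  have hτi : Function.Injective τ := by
    intro v w hvw
    refine OutO4.star_inj h0 hgr (Finset.mem_univ v) (Finset.mem_univ w) ?_
    rw [← hτs v, ← hτs w, hvw]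
  have hτsur : ∀ v ∈ U, v ≠ y → ∃ v', τ v' = v := by
    intro v hv hvy
    obtain ⟨v', hv'⟩ := hu1 v (Finset.mem_erase.2 ⟨hvy, hv⟩)
    refine ⟨v', OutO4.star_inj h0 hgt (hτU v') (Finset.mem_erase.2 ⟨hvy, hv⟩) ?_⟩
    rw [hτs v', hv']
  have hτy : ∀ v, τ v ≠ y := fun v => (Finset.mem_erase.1 (hτU v)).1
  have hmemτ : ∀ j v', ((ends j).1 = v' ∨ (ends j).2 = v') →
      (mg y b (h (φ j)) = τ v' ∨ mg y b (t (φ j)) = τ v') := by
    intro j v' hjv
    have h1 : j ∈ star (ofRows (grRows ends)).S (fun j => (ends j).1) (fun j => (ends j).2) v' := by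
      simpa [star, ofRows] using hjv
    rw [← hτs v'] at h1
    simpa [star, ofRows] using h1
  have hne12 : ∀ j, (ends j).1 ≠ (ends j).2 := fun j =>
    (hgr.ends j (Finset.mem_univ j)).2.2
  have hJ' : ∀ j, Jn (fun j => mg y b (h (φ j))) (fun j => mg y b (t (φ j))) j
      (τ (ends j).1) (τ (ends j).2) := by
    intro j
    have h1 := hmemτ j (ends j).1 (Or.inl rfl)
    have h2 := hmemτ j (ends j).2 (Or.inr rfl)
    have h3 : τ (ends j).1 ≠ τ (ends j).2 := fun h' => hne12 j (hτi h')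
    rcases h1 with h1 | h1 <;> rcases h2 with h2 | h2
    · exact absurd (h1.symm.trans h2) h3
    · exact Or.inl ⟨h1, h2⟩
    · exact Or.inr ⟨h2, h1⟩
    · exact absurd (h1.symm.trans h2) h3
  have hmg : ∀ x, x ∈ M.S → x ≠ e → x ≠ k → x ≠ g1 → x ≠ g2 →
      mg y b (h x) = h x ∧ mg y b (t x) = t x := by
    intro x hx hxe hxk hx1 hx2
    have h1 : ¬ (h x = y ∨ t x = y) := by
      intro h'
      have h2 := (hmst x).1 ⟨by simp [hx, hxe], h'⟩
      rcases h2 with h2 | h2 | h2
      · exact hxk h2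
      · exact hx1 h2
      · exact hx2 h2
    rw [not_or] at h1
    simp [mg, h1.1, h1.2]
  have hJ : ∀ j, j ≠ f → Jn h t (φ j) (τ (ends j).1) (τ (ends j).2) := by
    intro j hjf
    obtain ⟨m1, m2, m3, m4⟩ := hφm j
    have m5 : φ j ≠ g1 := by
      rw [← hf]
      exact fun h' => hjf (hφ h')
    obtain ⟨e1, e2⟩ := hmg _ m1 m3 m4 m5 m2
    have h1 : (mg y b (h (φ j)) = τ (ends j).1 ∧ mg y b (t (φ j)) = τ (ends j).2) ∨
        (mg y b (h (φ j)) = τ (ends j).2 ∧ mg y b (t (φ j)) = τ (ends j).1) := hJ' j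
    rw [e1, e2] at h1
    exact h1
  have hJf : (τ (ends f).1 = a ∧ τ (ends f).2 = b) ∨ (τ (ends f).1 = b ∧ τ (ends f).2 = a) := by
    have h1 : (mg y b (h (φ f)) = τ (ends f).1 ∧ mg y b (t (φ f)) = τ (ends f).2) ∨
        (mg y b (h (φ f)) = τ (ends f).2 ∧ mg y b (t (φ f)) = τ (ends f).1) := hJ' f
    rw [hf] at h1
    have hya := S.ya
    have hmy : mg y b y = b := by simp [mg]
    have hma : mg y b a = a := by simp [mg, hya.symm]
    rcases S.j1 with ⟨q1, q2⟩ | ⟨q1, q2⟩
    · rw [q1, q2, hmy, hma] at h1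
      rcases h1 with ⟨q3, q4⟩ | ⟨q3, q4⟩
      · exact Or.inr ⟨q3.symm, q4.symm⟩
      · exact Or.inl ⟨q4.symm, q3.symm⟩
    · rw [q1, q2, hmy, hma] at h1
      rcases h1 with ⟨q3, q4⟩ | ⟨q3, q4⟩
      · exact Or.inl ⟨q3.symm, q4.symm⟩
      · exact Or.inr ⟨q4.symm, q3.symm⟩
  obtain ⟨c', hc'⟩ := hτsur c hU.2.2.2 S.yc.symm
  obtain ⟨d', hd'⟩ := hτsur d hdU S.yd.symm
  have hS : ∀ x, x ∈ M.S ↔ (∃ j, j ≠ f ∧ φ j = x) ∨ x = g1 ∨ x = g2 ∨ x = k ∨ x = e := by
    intro x
    constructor
    · intro hx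
      by_cases x1 : x = g1
      · exact Or.inr (Or.inl x1)
      by_cases x2 : x = g2
      · exact Or.inr (Or.inr (Or.inl x2))
      by_cases x3 : x = k
      · exact Or.inr (Or.inr (Or.inr (Or.inl x3)))
      by_cases x4 : x = e
      · exact Or.inr (Or.inr (Or.inr (Or.inr x4)))
      obtain ⟨j, hj⟩ := (hφS x).1 ((hHS x).2 ⟨hx, x2, x4, x3⟩)
      refine Or.inl ⟨j, ?_, hj⟩
      rintro rfl
      exact x1 (hj.symm.trans hf)
    · rintro (⟨j, -, rfl⟩ | rfl | rfl | rfl | rfl)
      · exact (hφm j).1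
      · exact hg1S.1
      · exact hg2S.1
      · exact hkS.1
      · exact S.gr.mem
  have hsum : ∀ π : V → ZMod 2, ∑ v ∈ ({y, a, b, c} : Finset V), π v = π y + π a + π b + π c := by
    intro π
    rw [Finset.sum_insert (by simp [S.ya, S.yb, S.yc]), Finset.sum_insert (by simp [S.ab, S.ac]),
      Finset.sum_insert (by simp [S.bc]), Finset.sum_singleton]
    ring
  have hR := S.gr.rows
  simp only [hsum] at hR
  have hjg : ∀ j, j ≠ f → φ j ≠ g1 ∧ φ j ≠ g2 ∧ φ j ≠ k ∧ φ j ≠ e := by
    intro j hjf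
    obtain ⟨m1, m2, m3, m4⟩ := hφm j
    refine ⟨?_, m2, m4, m3⟩
    rw [← hf]
    exact fun h' => hjf (hφ h')
  have hcd' : c' ≠ d' := by
    rintro rfl
    exact hcd (hc'.symm.trans hd')
  have nac : ∀ v, τ v = a → c' ≠ v ∧ d' ≠ v := by
    intro v hv
    refine ⟨?_, ?_⟩
    · rintro rfl
      exact S.ac (hv.symm.trans hc')
    · rintro rfl
      exact S.ad (hv.symm.trans hd')
  have nbc : ∀ v, τ v = b → c' ≠ v ∧ d' ≠ v := by
    intro v hv
    refine ⟨?_, ?_⟩
    · rintro rfl
      exact S.bc (hv.symm.trans hc')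
    · rintro rfl
      exact S.bd (hv.symm.trans hd')
  rcases hJf with ⟨f1, f2⟩ | ⟨f1, f2⟩
  · refine ⟨f, c', d', hcd', (nac _ f1).1, (nbc _ f2).1, (nac _ f1).2, (nbc _ f2).2, ?_⟩
    exact OutO4.core ends hR φ hφ hS hjg hg12 hg1k hg1S.2 hg2k hg2S.2 hkS.2 S.j1 S.j2 S.jk τ hτi
      hτy hJ f1 f2 hc' hd' (hne12 f) (nac _ f1).1 (nbc _ f2).1
  · refine ⟨f, c', d', hcd', (nbc _ f1).1, (nac _ f2).1, (nbc _ f1).2, (nac _ f2).2, ?_⟩
    refine OutO4.core ends (g := g2) (g' := g1) (s := b) (s' := a) ?_ φ hφ ?_ ?_ hg12.symm hg2k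
      hg2S.2 hg1k hg1S.2 hkS.2 S.j2 S.j1 S.jk τ hτi hτy hJ f1 f2 hc' hd' (hne12 f)
      (nbc _ f1).1 (nac _ f2).1
    · intro F
      rw [hR F]
      refine exists_congr (fun π => ?_)
      rw [show π y + π a + π b + π c = π y + π b + π a + π c by ring]
    · intro x
      rw [hS x]
      constructor
      · rintro (h' | h' | h' | h')
        · exact Or.inl h'
        · exact Or.inr (Or.inr (Or.inl h'))
        · exact Or.inr (Or.inl h')
        · exact Or.inr (Or.inr (Or.inr h'))
      · rintro (h' | h' | h' | h')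
        · exact Or.inl h'
        · exact Or.inr (Or.inr (Or.inl h'))
        · exact Or.inr (Or.inl h')
        · exact Or.inr (Or.inr (Or.inr h'))
    · intro j hjf
      obtain ⟨m1, m2, m3, m4⟩ := hjg j hjf
      exact ⟨m2, m1, m3, m4⟩

end SEY

end
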