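import Pool.Agent.Helper29.MFA.T25
import Pool.Agent.Helper29.MFA.T10

section

/-!
T3-SitC.
* `SitI.c_ne_d`: if c = d then q := ![e, g1, g2, k] is a cycle (f e = pi y + pi a + pi b + pi c, f g1 = pi y + pi a,
  f g2 = pi y + pi b, f k = pi y + pi c: sum 0) and the lifted star of y (`IsGraft.star_mem`): `quad_F7`; |M.S| >= 8: hypothesis h8.
  Contradiction with NoF.
* `SitI.symm_ab`: exchange the roles of a and b.
-/

namespace SEY

open Finset

variable {E : Type} [Fintype E] [DecidableEq E] {V : Type} [Fintype V] [DecidableEq V]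
variable {r l : ℕ} {rows : Fin r → Fin l → ZMod 2} {M : BM E} {U : Finset V} {h t : E → V}
  {e k g1 g2 : E} {y a b c d : V}

private theorem SitC_Jn_uniq {x : E} {y a b : V} (h1 : Jn h t x y a) (h2 : Jn h t x y b)
    (hya : y ≠ a) (hyb : y ≠ b) : a = b := by
  rcases h1 with ⟨h1, h1'⟩ | ⟨h1, h1'⟩ <;> rcases h2 with ⟨h2, h2'⟩ | ⟨h2, h2'⟩
  · exact h1'.symm.trans h2'
  · exact absurd (h1.symm.trans h2) hyb
  · exact absurd (h1'.symm.trans h2') hyb
  · exact h1.symm.trans h2

private theorem SitC_cob {S : Finset E} {x : E} {u v : V} (hx : x ∈ S) (hj : Jn h t x u v)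
    (π : V → ZMod 2) : cob S h t π x = π u + π v := by
  unfold cob
  rw [if_pos hx]
  rcases hj with ⟨h1, h2⟩ | ⟨h1, h2⟩
  · rw [h1, h2]
  · rw [h1, h2, add_comm]

theorem SitI.c_ne_d (h8 : 8 ≤ M.S.card) (S : SitI rows M U h t e k g1 g2 y a b c d) : c ≠ d := by
  intro hcd
  subst hcd
  have hstar : ∀ x ∈ star (M.S \ {e}) h t y, x ∈ M.S \ {e} := fun x hx =>
    (Finset.mem_filter.mp hx).1
  have hk : k ∈ M.S \ {e} := hstar k (by rw [S.st]; simp)
  have hg1 : g1 ∈ M.S \ {e} := hstar g1 (by rw [S.st]; simp)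
  have hg2 : g2 ∈ M.S \ {e} := hstar g2 (by rw [S.st]; simp)
  have hk' := Finset.mem_sdiff.mp hk
  have hg1' := Finset.mem_sdiff.mp hg1
  have hg2' := Finset.mem_sdiff.mp hg2
  have nke : k ≠ e := fun h => hk'.2 (by rw [h]; exact Finset.mem_singleton_self e)
  have ng1e : g1 ≠ e := fun h => hg1'.2 (by rw [h]; exact Finset.mem_singleton_self e)
  have ng2e : g2 ≠ e := fun h => hg2'.2 (by rw [h]; exact Finset.mem_singleton_self e)
  have n12 : g1 ≠ g2 := by
    intro h
    exact S.ab (SitC_Jn_uniq S.j1 (h ▸ S.j2) S.ya S.yb)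
  have n1k : g1 ≠ k := by
    intro h
    exact S.ad (SitC_Jn_uniq S.j1 (h ▸ S.jk) S.ya S.yd)
  have n2k : g2 ≠ k := by
    intro h
    exact S.bd (SitC_Jn_uniq S.j2 (h ▸ S.jk) S.yb S.yd)
  apply S.cx.nof.1
  refine quad_F7 M S.cx.tc ![e, g1, g2, k] ?_ ?_ ?_ ?_ h8
  · intro i j hij
    fin_cases i <;> fin_cases j <;>
      first
        | rfl
        | (exfalso
           simp only [Fin.zero_eta, Fin.mk_one, Fin.reduceFinMk, Matrix.cons_val_zero,
             Matrix.cons_val_one, Matrix.cons_val] at hij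
           first
             | exact ng1e hij
             | exact ng1e hij.symm
             | exact ng2e hij
             | exact ng2e hij.symm
             | exact nke hij
             | exact nke hij.symm
             | exact n12 hij
             | exact n12 hij.symm
             | exact n1k hij
             | exact n1k hij.symm
             | exact n2k hij
             | exact n2k hij.symm)
  · intro i
    fin_cases i
    · exact S.gr.mem
    · exact hg1'.1
    · exact hg2'.1
    · exact hk'.1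
  · intro f hf
    obtain ⟨π, rfl⟩ := (S.gr.rows f).mp hf
    have h2 : (2 : ZMod 2) = 0 := by decide
    simp only [Fin.sum_univ_four, Matrix.cons_val_zero, Matrix.cons_val_one, Matrix.cons_val,
      if_true, if_neg nke, if_neg ng1e, if_neg ng2e, SitC_cob hk S.jk, SitC_cob hg1 S.j1,
      SitC_cob hg2 S.j2]
    rw [Finset.sum_insert (by simp [S.ya, S.yb, S.yc]), Finset.sum_insert (by simp [S.ab, S.ac]),
      Finset.sum_insert (by simp [S.bc]), Finset.sum_singleton]
    linear_combination (2 * π y + π a + π b + π c) * h2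
  · have h3 := S.gr.star_mem (S.gr.sub (by simp : y ∈ ({y, a, b, c} : Finset V)))
    rw [if_pos (by simp), S.st] at h3
    have h4 : Finset.univ.image ![e, g1, g2, k] = insert e ({k, g1, g2} : Finset E) := by
      ext x
      simp only [Finset.mem_image, Finset.mem_univ, true_and, Finset.mem_insert,
        Finset.mem_singleton]
      constructor
      · rintro ⟨i, rfl⟩
        fin_cases i <;> simp
      · rintro (h | h | h | h)
        · exact ⟨0, h.symm⟩
        · exact ⟨3, h.symm⟩
        · exact ⟨1, h.symm⟩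
        · exact ⟨2, h.symm⟩
    rw [h4]
    exact h3

theorem SitI.symm_ab (S : SitI rows M U h t e k g1 g2 y a b c d) :
    SitI rows M U h t e k g2 g1 y b a c d := by
  refine ⟨S.cx, ?_, S.tc, S.yb, S.ya, S.yc, S.ab.symm, S.bc, S.ac, S.yd, S.bd, S.ad, S.jk, S.j2,
    S.j1, ?_, S.sc, S.hasT⟩
  · have h1 : ({y, b, a, c} : Finset V) = {y, a, b, c} := by
      rw [Finset.insert_comm b a]
    rw [h1]
    exact S.gr
  · rw [S.st, Finset.pair_comm]

end SEY

end

section

/-!
T3-Exch: graft exchange.
* `exchange` (lemma X): M is the graft of the graph H = M del e with T = {s, n1, n2, w}; the vertex s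
  has in H the star {k, p1, p2}, k joins s q, p1 joins s n1, p2 joins s n2.  Then M is also the graft of
  the graph M del k: exchange the two edges p1, p2 at s, e joins s and w, and the graft set of k is
  {s, q, n1, n2}.  Proof: potentials pi (old) and pi' (new): pi' v = pi v for v /= s, pi' s = pi s + pi n1 + pi n2.  Then
  f(p1) = pi s + pi n1 = pi' s + pi' n2, f(p2) = pi' s + pi' n1, f(e) = pi s + pi n1 + pi n2 + pi w = pi' s + pi' w,
  f(k) = pi s + pi q = pi' s + pi' q + pi' n1 + pi' n2, other edges are not at s.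
  The graph M del k: rows by the formula; connectivity: if the coboundary (without k) of pi' vanishes then f = ind {k}
  or 0 would be a row of M; as M del {e,k} is given to be a connected graph: use hc' (the graph of M del {e,k}, same vertices) for
  conn: the new coboundary vanishes on all edges /= k; in terms of old potentials pi the old coboundary vanishes on
  M.S - {e,k}, so pi is constant on U (hc'), so pi' is constant on U.  ne: vertices n1, n2, q, w have
  other edges (hc' gives nonisolated), s has p1.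
-/

namespace SEY

open Finset

variable {E : Type} [Fintype E] [DecidableEq E] {V : Type} [Fintype V] [DecidableEq V]

/-- The ends after the exchange at `s`. -/
def exH (h : E → V) (e p1 p2 : E) (s : V) : E → V :=
  fun x => if x = e ∨ x = p1 ∨ x = p2 then s else h x

/-- The ends after the exchange at `s`. -/
def exT (t : E → V) (e p1 p2 : E) (n1 n2 w : V) : E → V :=
  fun x => if x = e then w else if x = p1 then n2 else if x = p2 then n1 else t x

/-- The change of the potential at `s`. -/
private def Exch_sw (s n1 n2 : V) (π : V → ZMod 2) : V → ZMod 2 :=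
  fun v => if v = s then π s + π n1 + π n2 else π v

omit [Fintype V] in
private theorem Exch_sw_s (s n1 n2 : V) (π : V → ZMod 2) :
    Exch_sw s n1 n2 π s = π s + π n1 + π n2 := if_pos rfl

omit [Fintype V] in
private theorem Exch_sw_ne {s n1 n2 v : V} (π : V → ZMod 2) (h : v ≠ s) :
    Exch_sw s n1 n2 π v = π v := if_neg h

private theorem Exch_two (x : ZMod 2) : x + x = 0 := by
  revert x
  decide

omit [Fintype V] in
private theorem Exch_sw_sw {s n1 n2 : V} (h1 : n1 ≠ s) (h2 : n2 ≠ s) (π : V → ZMod 2) :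
    Exch_sw s n1 n2 (Exch_sw s n1 n2 π) = π := by
  funext v
  by_cases hv : v = s
  · subst hv
    rw [Exch_sw_s, Exch_sw_s, Exch_sw_ne π h1, Exch_sw_ne π h2]
    have e1 := Exch_two (π n1)
    have e2 := Exch_two (π n2)
    calc π v + π n1 + π n2 + π n1 + π n2 = π v + (π n1 + π n1) + (π n2 + π n2) := by ring
      _ = π v := by rw [e1, e2, add_zero, add_zero]
  · rw [Exch_sw_ne _ hv, Exch_sw_ne _ hv]

omit [Fintype V] in
private theorem Exch_sum4 {a b c d : V} (h : a ≠ b ∧ a ≠ c ∧ a ≠ d ∧ b ≠ c ∧ b ≠ d ∧ c ≠ d)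
    (π : V → ZMod 2) : ∑ v ∈ ({a, b, c, d} : Finset V), π v = π a + π b + π c + π d := by
  obtain ⟨h1, h2, h3, h4, h5, h6⟩ := h
  rw [Finset.sum_insert (by simp [h1, h2, h3]), Finset.sum_insert (by simp [h4, h5]),
    Finset.sum_insert (by simp [h6]), Finset.sum_singleton]
  ring

/-- Graft exchange. -/
theorem exchange {M : BM E} {e k p1 p2 : E} {U : Finset V} {h t : E → V} {s n1 n2 w q : V}
    (hg : IsGraft M e U h t {s, n1, n2, w}) (hd : s ≠ n1 ∧ s ≠ n2 ∧ s ≠ w ∧ n1 ≠ n2 ∧ n1 ≠ w ∧
      n2 ≠ w ∧ q ≠ s ∧ q ≠ n1 ∧ q ≠ n2)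
    (hst : star (M.S \ {e}) h t s = {k, p1, p2}) (hk : Jn h t k s q) (h1 : Jn h t p1 s n1)
    (h2 : Jn h t p2 s n2) (hc : IsGr (M.del {e, k}) U h t) :
    IsGraft M k U (exH h e p1 p2 s) (exT t e p1 p2 n1 n2 w) {s, q, n1, n2} := by
  obtain ⟨d1, d2, d3, d4, d5, d6, d7, d8, d9⟩ := hd
  have hkst : k ∈ star (M.S \ {e}) h t s := by rw [hst]; simp
  have hp1st : p1 ∈ star (M.S \ {e}) h t s := by rw [hst]; simp
  have hp2st : p2 ∈ star (M.S \ {e}) h t s := by rw [hst]; simp
  have hstar : ∀ x, x ∈ star (M.S \ {e}) h t s ↔ (x ∈ M.S ∧ x ≠ e) ∧ (h x = s ∨ t x = s) := by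
    intro x
    unfold star
    rw [Finset.mem_filter, Finset.mem_sdiff, Finset.mem_singleton]
  have hkS := ((hstar k).1 hkst).1
  have hp1S := ((hstar p1).1 hp1st).1
  have hp2S := ((hstar p2).1 hp2st).1
  have hkp1 : k ≠ p1 := by
    rintro rfl
    rcases hk with ⟨a, b⟩ | ⟨a, b⟩ <;> rcases h1 with ⟨a', b'⟩ | ⟨a', b'⟩
    · exact d8 (b.symm.trans b')
    · exact d1 (a.symm.trans a')
    · exact d7 (a.symm.trans a')
    · exact d8 (a.symm.trans a')
  have hkp2 : k ≠ p2 := by
    rintro rfl
    rcases hk with ⟨a, b⟩ | ⟨a, b⟩ <;> rcases h2 with ⟨a', b'⟩ | ⟨a', b'⟩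
    · exact d9 (b.symm.trans b')
    · exact d2 (a.symm.trans a')
    · exact d7 (a.symm.trans a')
    · exact d9 (a.symm.trans a')
  have hp12 : p1 ≠ p2 := by
    rintro rfl
    rcases h1 with ⟨a, b⟩ | ⟨a, b⟩ <;> rcases h2 with ⟨a', b'⟩ | ⟨a', b'⟩
    · exact d4 (b.symm.trans b')
    · exact d2 (a.symm.trans a')
    · exact d1 (a'.symm.trans a)
    · exact d4 (a.symm.trans a')
  have hJ : ∀ {x : E} {u v : V} (π : V → ZMod 2), Jn h t x u v → π (h x) + π (t x) = π u + π v := by
    intro x u v π hx
    rcases hx with ⟨a, b⟩ | ⟨a, b⟩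
    · rw [a, b]
    · rw [a, b, add_comm]
  -- the new ends
  have hhe : exH h e p1 p2 s e = s := by simp [exH]
  have hte : exT t e p1 p2 n1 n2 w e = w := by simp [exT]
  have hh1 : exH h e p1 p2 s p1 = s := by simp [exH]
  have ht1 : exT t e p1 p2 n1 n2 w p1 = n2 := by simp [exT, hp1S.2]
  have hh2 : exH h e p1 p2 s p2 = s := by simp [exH]
  have ht2 : exT t e p1 p2 n1 n2 w p2 = n1 := by simp [exT, hp2S.2, hp12.symm]
  have hho : ∀ x, x ≠ e → x ≠ p1 → x ≠ p2 → exH h e p1 p2 s x = h x := by
    intro x a b c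
    simp [exH, a, b, c]
  have hto : ∀ x, x ≠ e → x ≠ p1 → x ≠ p2 → exT t e p1 p2 n1 n2 w x = t x := by
    intro x a b c
    simp [exT, a, b, c]
  have hno : ∀ x, x ∈ M.S → x ≠ e → x ≠ k → x ≠ p1 → x ≠ p2 → h x ≠ s ∧ t x ≠ s := by
    intro x hx a b c d
    have hns : x ∉ star (M.S \ {e}) h t s := by rw [hst]; simp [b, c, d]
    rw [hstar] at hns
    constructor
    · intro hh; exact hns ⟨⟨hx, a⟩, Or.inl hh⟩
    · intro hh; exact hns ⟨⟨hx, a⟩, Or.inr hh⟩
  -- the key identity
  have key : ∀ (π : V → ZMod 2) (x : E),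
      (if x = e then ∑ v ∈ ({s, n1, n2, w} : Finset V), π v else cob (M.S \ {e}) h t π x) =
      (if x = k then ∑ v ∈ ({s, q, n1, n2} : Finset V), Exch_sw s n1 n2 π v else
        cob (M.S \ {k}) (exH h e p1 p2 s) (exT t e p1 p2 n1 n2 w) (Exch_sw s n1 n2 π) x) := by
    intro π x
    rw [Exch_sum4 ⟨d1, d2, d3, d4, d5, d6⟩ π,
      Exch_sum4 ⟨d7.symm, d1, d2, d8, d9, d4⟩ (Exch_sw s n1 n2 π), Exch_sw_s,
      Exch_sw_ne π d7, Exch_sw_ne π d1.symm, Exch_sw_ne π d2.symm]
    have t1 := Exch_two (π n1)
    have t2 := Exch_two (π n2)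
    by_cases hxe : x = e
    · subst hxe
      rw [if_pos rfl, if_neg (fun h' => hkS.2 h'.symm)]
      unfold cob
      rw [if_pos (Finset.mem_sdiff.2 ⟨hg.mem, fun h' => hkS.2 (Finset.mem_singleton.1 h').symm⟩),
        hhe, hte, Exch_sw_s, Exch_sw_ne π d3.symm]
    · rw [if_neg hxe]
      by_cases hxk : x = k
      · subst hxk
        rw [if_pos rfl]
        unfold cob
        rw [if_pos (Finset.mem_sdiff.2 ⟨hkS.1, fun h' => hxe (Finset.mem_singleton.1 h')⟩),
          hJ π hk]
        calc π s + π q = π s + π q + (π n1 + π n1) + (π n2 + π n2) := by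
              rw [t1, t2, add_zero, add_zero]
          _ = π s + π n1 + π n2 + π q + π n1 + π n2 := by ring
      · rw [if_neg hxk]
        unfold cob
        by_cases hx : x ∈ M.S
        · rw [if_pos (Finset.mem_sdiff.2 ⟨hx, fun h' => hxe (Finset.mem_singleton.1 h')⟩),
            if_pos (Finset.mem_sdiff.2 ⟨hx, fun h' => hxk (Finset.mem_singleton.1 h')⟩)]
          by_cases hx1 : x = p1
          · subst hx1
            rw [hJ π h1, hh1, ht1, Exch_sw_s, Exch_sw_ne π d2.symm]
            calc π s + π n1 = π s + π n1 + (π n2 + π n2) := by rw [t2, add_zero]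
              _ = π s + π n1 + π n2 + π n2 := by ring
          · by_cases hx2 : x = p2
            · subst hx2
              rw [hJ π h2, hh2, ht2, Exch_sw_s, Exch_sw_ne π d1.symm]
              calc π s + π n2 = π s + π n2 + (π n1 + π n1) := by rw [t1, add_zero]
                _ = π s + π n1 + π n2 + π n1 := by ring
            · obtain ⟨a, b⟩ := hno x hx hxe hxk hx1 hx2
              rw [hho x hxe hx1 hx2, hto x hxe hx1 hx2, Exch_sw_ne π a, Exch_sw_ne π b]
        · rw [if_neg (fun h' => hx (Finset.mem_sdiff.1 h').1),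
            if_neg (fun h' => hx (Finset.mem_sdiff.1 h').1)]
  have hU : ∀ v ∈ ({s, n1, n2, w} : Finset V), v ∈ U := fun v hv => hg.sub hv
  have hsU := hU s (by simp)
  have hn1U := hU n1 (by simp)
  have hn2U := hU n2 (by simp)
  have hwU := hU w (by simp)
  have hends : ∀ x, x ∈ M.S → x ≠ e → h x ∈ U ∧ t x ∈ U ∧ h x ≠ t x := by
    intro x hx hxe
    exact hg.gr.ends x (Finset.mem_sdiff.2 ⟨hx, fun h' => hxe (Finset.mem_singleton.1 h')⟩)
  have hqU : q ∈ U := by
    obtain ⟨a, b, _⟩ := hends k hkS.1 hkS.2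
    rcases hk with ⟨_, c⟩ | ⟨c, _⟩
    · rw [← c]; exact b
    · rw [← c]; exact a
  have hrows : ∀ f, f ∈ M.R ↔ ∃ π : V → ZMod 2,
      f = fun x => if x = k then ∑ v ∈ ({s, q, n1, n2} : Finset V), π v else
        cob (M.S \ {k}) (exH h e p1 p2 s) (exT t e p1 p2 n1 n2 w) π x := by
    intro f
    rw [hg.rows f]
    constructor
    · rintro ⟨π, rfl⟩
      exact ⟨Exch_sw s n1 n2 π, funext (key π)⟩
    · rintro ⟨π, rfl⟩
      refine ⟨Exch_sw s n1 n2 π, ?_⟩
      have := funext (key (Exch_sw s n1 n2 π))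
      rw [Exch_sw_sw d1.symm d2.symm] at this
      exact this.symm
  refine ⟨hkS.1, ⟨?_, ?_, ?_, ?_⟩, ?_, ?_, hrows⟩
  · -- ends
    intro x hx
    have hx' : x ∈ M.S := (Finset.mem_sdiff.1 hx).1
    by_cases hxe : x = e
    · subst hxe
      rw [hhe, hte]
      exact ⟨hsU, hwU, d3⟩
    · by_cases hx1 : x = p1
      · subst hx1
        rw [hh1, ht1]
        exact ⟨hsU, hn2U, d2⟩
      · by_cases hx2 : x = p2
        · subst hx2
          rw [hh2, ht2]
          exact ⟨hsU, hn1U, d1⟩
        · rw [hho x hxe hx1 hx2, hto x hxe hx1 hx2]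
          exact hends x hx' hxe
  · -- rows of the graph
    intro f
    constructor
    · rintro ⟨g, hgR, rfl⟩
      obtain ⟨π, rfl⟩ := (hrows g).1 hgR
      refine ⟨π, ?_⟩
      funext x
      show (if x ∈ M.S \ {k} then _ else (0 : ZMod 2)) = cob (M.S \ {k}) _ _ π x
      by_cases hx : x ∈ M.S \ {k}
      · rw [if_pos hx, if_neg (fun h' => (Finset.mem_sdiff.1 hx).2 (Finset.mem_singleton.2 h'))]
      · rw [if_neg hx]
        unfold cob
        rw [if_neg hx]
    · rintro ⟨π, rfl⟩
      refine ⟨_, (hrows _).2 ⟨π, rfl⟩, ?_⟩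
      funext x
      show (if x ∈ M.S \ {k} then _ else (0 : ZMod 2)) = cob (M.S \ {k}) _ _ π x
      by_cases hx : x ∈ M.S \ {k}
      · rw [if_pos hx, if_neg (fun h' => (Finset.mem_sdiff.1 hx).2 (Finset.mem_singleton.2 h'))]
      · rw [if_neg hx]
        unfold cob
        rw [if_neg hx]
  · -- connectedness
    intro π hπ
    set π' := Exch_sw s n1 n2 π with hπ'
    have hback : Exch_sw s n1 n2 π' = π := Exch_sw_sw d1.symm d2.symm π
    have h0 : cob (M.del {e, k}).S h t π' = 0 := by
      funext x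
      show (if x ∈ M.S \ {e, k} then π' (h x) + π' (t x) else 0) = 0
      by_cases hx : x ∈ M.S \ {e, k}
      · have hx1 := (Finset.mem_sdiff.1 hx).1
        have hx2 := (Finset.mem_sdiff.1 hx).2
        simp only [Finset.mem_insert, Finset.mem_singleton, not_or] at hx2
        have h3 := key π' x
        rw [if_neg hx2.1, if_neg hx2.2, hback] at h3
        have h4 : cob (M.S \ {k}) (exH h e p1 p2 s) (exT t e p1 p2 n1 n2 w) π x = 0 :=
          congrFun hπ x
        rw [h4] at h3
        unfold cob at h3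
        rw [if_pos (Finset.mem_sdiff.2 ⟨hx1, fun h' => hx2.1 (Finset.mem_singleton.1 h')⟩)] at h3
        rw [if_pos hx, h3]
      · rw [if_neg hx]
    have hconst := hc.conn π' h0
    have hall : ∀ u ∈ U, π u = π' u := by
      intro u hu
      by_cases hus : u = s
      · subst hus
        have e1 := hconst u hu n1 hn1U
        have e2 := hconst u hu n2 hn2U
        rw [← hback, Exch_sw_s, ← e1, ← e2, add_assoc, Exch_two, add_zero]
      · rw [hπ', Exch_sw_ne π hus]
    intro u hu v hv
    rw [hall u hu, hall v hv]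
    exact hconst u hu v hv
  · -- no isolated vertex
    intro v hv
    obtain ⟨x, hx, hxv⟩ := hc.ne v hv
    have hx1 : x ∈ M.S := (Finset.mem_sdiff.1 hx).1
    have hx2 := (Finset.mem_sdiff.1 hx).2
    simp only [Finset.mem_insert, Finset.mem_singleton, not_or] at hx2
    have hmem : ∀ y, y ∈ M.S → y ≠ k → y ∈ (M.del {k}).S := fun y hy hyk =>
      Finset.mem_sdiff.2 ⟨hy, fun h' => hyk (Finset.mem_singleton.1 h')⟩
    by_cases hxp1 : x = p1
    · subst hxp1
      have hv' : v = s ∨ v = n1 := by
        rcases h1 with ⟨a, b⟩ | ⟨a, b⟩ <;> rcases hxv with c | c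
        · exact Or.inl (c.symm.trans a)
        · exact Or.inr (c.symm.trans b)
        · exact Or.inr (c.symm.trans a)
        · exact Or.inl (c.symm.trans b)
      rcases hv' with rfl | rfl
      · exact ⟨x, hmem x hx1 hx2.2, Or.inl hh1⟩
      · exact ⟨p2, hmem p2 hp2S.1 hkp2.symm, Or.inr ht2⟩
    · by_cases hxp2 : x = p2
      · subst hxp2
        have hv' : v = s ∨ v = n2 := by
          rcases h2 with ⟨a, b⟩ | ⟨a, b⟩ <;> rcases hxv with c | c
          · exact Or.inl (c.symm.trans a)
          · exact Or.inr (c.symm.trans b)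
          · exact Or.inr (c.symm.trans a)
          · exact Or.inl (c.symm.trans b)
        rcases hv' with rfl | rfl
        · exact ⟨x, hmem x hx1 hx2.2, Or.inl hh2⟩
        · exact ⟨p1, hmem p1 hp1S.1 hkp1.symm, Or.inr ht1⟩
      · refine ⟨x, hmem x hx1 hx2.2, ?_⟩
        rw [hho x hx2.1 hxp1 hxp2, hto x hx2.1 hxp1 hxp2]
        exact hxv
  · -- graft set
    intro v hv
    simp only [Finset.mem_insert, Finset.mem_singleton] at hv
    rcases hv with rfl | rfl | rfl | rfl
    · exact hsU
    · exact hqU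
    · exact hn1U
    · exact hn2U
  · have : ({s, q, n1, n2} : Finset V).card = 4 := by
      rw [Finset.card_insert_of_notMem (by simp [d7.symm, d1, d2]),
        Finset.card_insert_of_notMem (by simp [d8, d9]),
        Finset.card_insert_of_notMem (by simp [d4]), Finset.card_singleton]
    rw [this]
    decide

end SEY

end

section

/-!
T3-RelD: relabelling by a permutation of E.
Everything (Z, r, lam, Ser, SC, Two, TC, HasT) is transported: f -> f o sigma is a linear
isomorphism of the row spaces and of the cycle spaces, supports are mapped by sigma.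
-/

namespace SEY

open Finset

variable {E : Type} [Fintype E] [DecidableEq E] {V : Type} [Fintype V] [DecidableEq V]

/-- `M2` is obtained from `M1` by the permutation `σ` of the elements. -/
def Rel (σ : Equiv.Perm E) (M1 M2 : BM E) : Prop :=
  (∀ x, x ∈ M1.S ↔ σ x ∈ M2.S) ∧ ∀ f : E → ZMod 2, f ∈ M2.R ↔ (fun x => f (σ x)) ∈ M1.R

/-- The preimage of a finite set under a permutation. -/
def RelD_pre (σ : Equiv.Perm E) (B : Finset E) : Finset E := univ.filter (fun x => σ x ∈ B)

theorem RelD_mem_pre (σ : Equiv.Perm E) (B : Finset E) (x : E) :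
    x ∈ RelD_pre σ B ↔ σ x ∈ B := by
  simp [RelD_pre]

theorem RelD_card_pre (σ : Equiv.Perm E) (B : Finset E) : (RelD_pre σ B).card = B.card := by
  have h : RelD_pre σ B = B.map σ.symm.toEmbedding := by
    ext x
    rw [RelD_mem_pre, Finset.mem_map]
    constructor
    · intro hx
      exact ⟨σ x, hx, by simp⟩
    · rintro ⟨y, hy, rfl⟩
      simpa using hy
  rw [h, Finset.card_map]

theorem RelD_pre_sdiff (σ : Equiv.Perm E) (B C : Finset E) :
    RelD_pre σ (B \ C) = RelD_pre σ B \ RelD_pre σ C := by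
  ext x
  simp only [RelD_mem_pre, Finset.mem_sdiff]

theorem Rel.pre_S {σ : Equiv.Perm E} {M1 M2 : BM E} (h : Rel σ M1 M2) :
    RelD_pre σ M2.S = M1.S := by
  ext x
  rw [RelD_mem_pre]
  exact (h.1 x).symm

theorem Rel.mem_Z {σ : Equiv.Perm E} {M1 M2 : BM E} (h : Rel σ M1 M2) (z : E → ZMod 2) :
    z ∈ M2.Z ↔ (fun x => z (σ x)) ∈ M1.Z := by
  have hdot : ∀ f g : E → ZMod 2, dot (fun x => f (σ x)) (fun x => g (σ x)) = dot f g := by
    intro f g
    exact Equiv.sum_comp σ (fun x => f x * g x)
  constructor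
  · rintro ⟨h1, h2⟩
    refine ⟨?_, ?_⟩
    · intro e he
      exact h1 (σ e) (fun h' => he ((h.1 e).mpr h'))
    · intro f hf
      have hf2 : (fun x => f (σ.symm x)) ∈ M2.R := by
        rw [h.2]
        simpa using hf
      have h3 := h2 _ hf2
      rw [← hdot] at h3
      simpa using h3
  · rintro ⟨h1, h2⟩
    refine ⟨?_, ?_⟩
    · intro e he
      have h3 := h1 (σ.symm e) (fun h' => he (by simpa using (h.1 _).mp h'))
      simpa using h3
    · intro f hf
      rw [← hdot]
      exact h2 _ ((h.2 f).mp hf)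

theorem Rel.r_eq {σ : Equiv.Perm E} {M1 M2 : BM E} (h : Rel σ M1 M2) (B : Finset E) :
    M2.r B = M1.r (RelD_pre σ B) := by
  have h1 : (M2.R.map (mask B)).map (LinearEquiv.funCongrLeft (ZMod 2) (ZMod 2) σ).toLinearMap =
      M1.R.map (mask (RelD_pre σ B)) := by
    ext g
    simp only [Submodule.mem_map]
    constructor
    · rintro ⟨_, ⟨f, hf, rfl⟩, rfl⟩
      refine ⟨fun x => f (σ x), (h.2 f).mp hf, ?_⟩
      funext x
      simp only [mask, LinearMap.coe_mk, AddHom.coe_mk, RelD_mem_pre]
      rfl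
    · rintro ⟨f, hf, rfl⟩
      refine ⟨mask B (fun x => f (σ.symm x)), ⟨fun x => f (σ.symm x), ?_, rfl⟩, ?_⟩
      · rw [h.2]
        simpa using hf
      · funext x
        simp only [mask, LinearMap.coe_mk, AddHom.coe_mk, RelD_mem_pre]
        show (if σ x ∈ B then f (σ.symm (σ x)) else 0) = _
        rw [Equiv.symm_apply_apply]
  unfold BM.r
  rw [← h1]
  exact (LinearEquiv.finrank_map_eq (LinearEquiv.funCongrLeft (ZMod 2) (ZMod 2) σ) _).symm

theorem Rel.lam_eq {σ : Equiv.Perm E} {M1 M2 : BM E} (h : Rel σ M1 M2) (B : Finset E) :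
    M2.lam B = M1.lam (RelD_pre σ B) := by
  unfold BM.lam
  rw [h.r_eq B, h.r_eq (M2.S \ B), h.r_eq M2.S, RelD_pre_sdiff, h.pre_S]

theorem Rel.ser {σ : Equiv.Perm E} {M1 M2 : BM E} (h : Rel σ M1 M2) (e f : E) :
    M2.Ser (σ e) (σ f) ↔ M1.Ser e f := by
  constructor
  · intro h1 z hz
    have hz2 : (fun x => z (σ.symm x)) ∈ M2.Z := by
      rw [h.mem_Z]
      simpa using hz
    have h2 := h1 _ hz2
    simpa using h2
  · intro h1 z hz
    exact h1 _ ((h.mem_Z z).mp hz)

theorem RelD_subset {σ : Equiv.Perm E} {M1 M2 : BM E} (h : Rel σ M1 M2) {A : Finset E}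
    (hA : A ⊆ M2.S) : RelD_pre σ A ⊆ M1.S := by
  intro x hx
  rw [RelD_mem_pre] at hx
  exact (h.1 x).mpr (hA hx)

theorem RelD_ser_all {σ : Equiv.Perm E} {M1 M2 : BM E} (h : Rel σ M1 M2) {A : Finset E}
    (hA : ∀ e ∈ RelD_pre σ A, ∀ f ∈ RelD_pre σ A, M1.Ser e f) :
    ∀ e ∈ A, ∀ f ∈ A, M2.Ser e f := by
  intro e he f hf
  have h1 := hA (σ.symm e) (by rw [RelD_mem_pre]; simpa using he) (σ.symm f)
    (by rw [RelD_mem_pre]; simpa using hf)
  have h2 := (h.ser _ _).mpr h1
  simpa using h2

theorem Rel.sc {σ : Equiv.Perm E} {M1 M2 : BM E} (h : Rel σ M1 M2) (h1 : M1.SC) : M2.SC := by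
  obtain ⟨⟨s, hs1, hs2⟩, h2⟩ := h1
  refine ⟨⟨fun i => σ (s i), fun i => (h.1 _).mp (hs1 i), fun i j hij => ?_⟩, ?_⟩
  · rw [h.ser]
    exact hs2 i j hij
  · intro A hA hl
    rw [h.lam_eq] at hl
    rcases h2 (RelD_pre σ A) (RelD_subset h hA) hl with h3 | h3
    · exact Or.inl (RelD_ser_all h h3)
    · refine Or.inr (RelD_ser_all h ?_)
      rw [RelD_pre_sdiff, h.pre_S]
      exact h3

theorem Rel.two {σ : Equiv.Perm E} {M1 M2 : BM E} (h : Rel σ M1 M2) (h1 : M1.Two) : M2.Two := by
  have hm : ∀ a ∈ M2.S, σ.symm a ∈ M1.S := by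
    intro a ha
    rw [h.1]
    simpa using ha
  have hs : ∀ a b, M2.Ser a b → M1.Ser (σ.symm a) (σ.symm b) := by
    intro a b hab
    rw [← h.ser]
    simpa using hab
  intro a ha b hb c hc hab hac
  have h2 := h1 _ (hm a ha) _ (hm b hb) _ (hm c hc) (hs a b hab) (hs a c hac)
  simpa using h2

theorem Rel.tc {σ : Equiv.Perm E} {M1 M2 : BM E} (h : Rel σ M1 M2) (h1 : M1.TC) : M2.TC := by
  obtain ⟨h4, h2⟩ := h1
  have hS : M2.S.card = M1.S.card := by
    rw [← h.pre_S, RelD_card_pre]
  refine ⟨by omega, ?_⟩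
  intro A hA
  obtain ⟨ha, hb⟩ := h2 (RelD_pre σ A) (RelD_subset h hA)
  have hinj : ∀ B C : Finset E, RelD_pre σ B = RelD_pre σ C → B = C := by
    intro B C hBC
    ext x
    have h5 : σ.symm x ∈ RelD_pre σ B ↔ σ.symm x ∈ RelD_pre σ C := by rw [hBC]
    rw [RelD_mem_pre, RelD_mem_pre] at h5
    simpa using h5
  rw [h.lam_eq]
  refine ⟨fun h0 => ?_, fun h0 => ?_⟩
  · rcases ha h0 with h3 | h3
    · left
      rw [← Finset.card_eq_zero, ← RelD_card_pre σ, h3, Finset.card_empty]
    · right
      apply hinj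
      rw [h3, h.pre_S]
  · have hc : (M2.S \ A).card = (M1.S \ RelD_pre σ A).card := by
      rw [← RelD_card_pre σ, RelD_pre_sdiff, h.pre_S]
    rw [← RelD_card_pre σ A, hc]
    exact hb h0

theorem Rel.hasT {r l : ℕ} {rows : Fin r → Fin l → ZMod 2} {σ : Equiv.Perm E} {M1 M2 : BM E}
    (h : Rel σ M1 M2) (h1 : HasT rows M1) : HasT rows M2 := by
  obtain ⟨A, π, h1, h2, h3⟩ := h1
  refine ⟨RelD_pre σ.symm A, fun e => π (σ.symm e), ?_, ?_, ?_⟩
  · intro x hx
    rw [RelD_mem_pre] at hx
    have h4 := (h.1 _).mp (h1 hx)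
    simpa using h4
  · intro i
    obtain ⟨e, he, hei⟩ := h2 i
    refine ⟨σ e, ?_, ?_⟩
    · rw [RelD_mem_pre]
      simpa using he
    · simpa using hei
  · intro z hz
    rw [h.mem_Z]
    have h4 : ∀ e, e ∉ A → (fun x => z (σ x)) e = 0 := by
      intro e he
      apply hz
      rw [RelD_mem_pre]
      simpa using he
    rw [h3 _ h4]
    constructor
    · rintro ⟨w, hw1, hw2⟩
      refine ⟨w, hw1, ?_⟩
      intro e he
      rw [RelD_mem_pre] at he
      have h5 := hw2 _ he
      simpa using h5
    · rintro ⟨w, hw1, hw2⟩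
      refine ⟨w, hw1, ?_⟩
      intro e he
      have h5 := hw2 (σ e) (by rw [RelD_mem_pre]; simpa using he)
      simpa using h5

end SEY

end

section

/-!
T3-RelGr: two graphs with corresponding edges.
Rows of M1: coboundaries of potentials pi with the ends h1, t1; f (sigma x) = pi (h1 x) + pi (t1 x); outside of the ground sets
all rows vanish.
-/

namespace SEY

open Finset

variable {E : Type} [Fintype E] [DecidableEq E] {V : Type} [Fintype V] [DecidableEq V]

omit [Fintype E] [Fintype V] [DecidableEq V] in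
theorem RelGr_cob {σ : Equiv.Perm E} {S1 S2 : Finset E} {h1 t1 h2 t2 : E → V}
    (hS : ∀ x, x ∈ S1 ↔ σ x ∈ S2) (hj : ∀ x ∈ S1, Jn h2 t2 (σ x) (h1 x) (t1 x))
    (π : V → ZMod 2) : (fun x => cob S2 h2 t2 π (σ x)) = cob S1 h1 t1 π := by
  funext x
  by_cases hx : x ∈ S1
  · have hx2 := (hS x).mp hx
    simp only [cob, if_pos hx, if_pos hx2]
    rcases hj x hx with ⟨ha, hb⟩ | ⟨ha, hb⟩
    · rw [ha, hb]
    · rw [ha, hb, add_comm]
  · have hx2 : σ x ∉ S2 := fun h' => hx ((hS x).mpr h')
    simp only [cob, if_neg hx, if_neg hx2]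

theorem Rel.of_gr {σ : Equiv.Perm E} {M1 M2 : BM E} {U U' : Finset V} {h1 t1 h2 t2 : E → V}
    (hg1 : IsGr M1 U h1 t1) (hg2 : IsGr M2 U' h2 t2) (hS : ∀ x, x ∈ M1.S ↔ σ x ∈ M2.S)
    (hj : ∀ x ∈ M1.S, Jn h2 t2 (σ x) (h1 x) (t1 x)) : Rel σ M1 M2 := by
  refine ⟨hS, fun f => ?_⟩
  rw [hg2.rows, hg1.rows]
  constructor
  · rintro ⟨π, rfl⟩
    exact ⟨π, RelGr_cob hS hj π⟩
  · rintro ⟨π, hπ⟩
    refine ⟨π, ?_⟩
    rw [← RelGr_cob hS hj π] at hπ
    funext y
    have h3 := congrFun hπ (σ.symm y)
    simpa using h3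

end SEY

end

section

/-!
T3-Gext2: extending SC graphs by an ear of length two.
* `gext2`: the same with an ear of length 2: y a vertex with star {p,q}, p joins y u, q joins y v, u /= v,
  M del {p,q} is SC, Two, a graph on U - y, no edge of it joins u and v, no vertex s of degree 2 has the
  neighbours u, v.  Then M is SC and Two.  (z through P and inside P u class: contract mentally: the
  class part is a path from u to v with at most two edges.)
See also the proof of `gext` in Gext.lean:
* `gext`: M graph, x an edge joining u, v; M del x is SC, Two and a graph on the same vertices; x is not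
  parallel to another edge; no vertex s of degree 2 of M del x (s /= u, v) has exactly the neighbours
  u and v.  Then M is SC and Two, and the stars of size 2 of M are stars of size 2 of M del x.
  Proof: `SC_ext` with P = {x}.  z0 = a cycle through x (x is no coloop: otherwise ind {x} is a row of
  M, = cob pi, so pi is constant on U by connectivity of M del x, so cob pi x = 0).  hout: let z be a cycle
  with z x = 1 such that all elements a /= x with z a = 1 are in one class of M del x; by Two these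
  are at most two elements.  None: z = ind {x}, but the star of u contains x once (h x /= t x): parity.
  One, y: y is parallel to x: from the parity at all stars (each vertex /= u,v is not an end of y).
  Two, p and q: p /= q in series in M del x: star s = {p,q} (`IsGr.star2`), by parity of z = {x,p,q} at
  all vertices the neighbours of s are u, v (s is not u or v: star of u meets z evenly...: if s = u then
  star_M u = {x,p,q} has three elements of z, odd: contradiction).
  Two of M: Ser in M implies Ser in M del x for elements /= x, and x is alone.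
-/

namespace SEY

open Finset

variable {E : Type} [Fintype E] [DecidableEq E] {V : Type} [Fintype V] [DecidableEq V]

theorem gext2 {M : BM E} {U : Finset V} {h t : E → V} {p q : E} {y u v : V}
    (hg : IsGr M U h t) (hy : y ∈ U) (hst : star M.S h t y = {p, q}) (hpq : p ≠ q)
    (hp : Jn h t p y u) (hq : Jn h t q y v) (huv : u ≠ v)
    (hg' : IsGr (M.del {p, q}) (U.erase y) h t) (hsc : (M.del {p, q}).SC)
    (h2 : (M.del {p, q}).Two) (hpar : ∀ x ∈ M.S, ¬ Jn h t x u v)
    (hs : ∀ s ∈ U, s ≠ y → ∀ p' ∈ M.S, ∀ q' ∈ M.S, star (M.S \ {p, q}) h t s = {p', q'} →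
      Jn h t p' s u → ¬ Jn h t q' s v) :
    M.SC ∧ M.Two := by
  have hstar : ∀ (S : Finset E) (s : V) (x : E), x ∈ star S h t s ↔ x ∈ S ∧ (h x = s ∨ t x = s) :=
    fun S s x => by unfold star; rw [mem_filter]
  have hpS : p ∈ M.S := by
    have : p ∈ star M.S h t y := by rw [hst]; simp
    exact ((hstar _ _ _).mp this).1
  have hqS : q ∈ M.S := by
    have : q ∈ star M.S h t y := by rw [hst]; simp
    exact ((hstar _ _ _).mp this).1
  have hyu : y ≠ u := by
    intro e
    have h1 := (hg.ends p hpS).2.2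
    rcases hp with ⟨a, b⟩ | ⟨a, b⟩
    · exact h1 (by rw [a, b, e])
    · exact h1 (by rw [a, b, e])
  have hyv : y ≠ v := by
    intro e
    have h1 := (hg.ends q hqS).2.2
    rcases hq with ⟨a, b⟩ | ⟨a, b⟩
    · exact h1 (by rw [a, b, e])
    · exact h1 (by rw [a, b, e])
  have hu : u ∈ U := by
    have h1 := hg.ends p hpS
    rcases hp with ⟨a, b⟩ | ⟨a, b⟩
    · rw [b] at h1; exact h1.2.1
    · rw [a] at h1; exact h1.1
  have hv : v ∈ U := by
    have h1 := hg.ends q hqS
    rcases hq with ⟨a, b⟩ | ⟨a, b⟩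
    · rw [b] at h1; exact h1.2.1
    · rw [a] at h1; exact h1.1
  -- cycles agree on `p` and `q`
  have hag : ∀ z ∈ M.Z, z p = z q := by
    intro z hz
    have h1 := M.dot_eq_zero (hg.star_mem hy) hz
    rw [hst, ind_dot, sum_pair hpq] at h1
    exact z_add_eq_zero.mp h1
  -- there is a cycle through `p`
  have hz0 : ∃ z ∈ M.Z, z p = 1 := by
    by_contra hno
    push Not at hno
    have hno' : ∀ z ∈ M.Z, z p = 0 := fun z hz => z_ne_one.mp (hno z hz)
    have hR : (ind {p} : E → ZMod 2) ∈ M.R := by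
      rw [M.mem_R_iff]
      refine ⟨fun e he => ind_of_notMem ?_, fun z hz => ?_⟩
      · rw [mem_singleton]
        rintro rfl
        exact he hpS
      · rw [ind_dot, sum_singleton]
        exact hno' z hz
    obtain ⟨π, hπ⟩ := (hg.rows _).mp hR
    have hc : cob (M.S \ {p, q}) h t π = 0 := by
      funext e
      unfold cob
      by_cases he : e ∈ M.S \ {p, q}
      · rw [if_pos he]
        have h1 := congrFun hπ e
        have he1 : e ∈ M.S := (mem_sdiff.mp he).1
        have he2 : e ∉ ({p} : Finset E) := by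
          have := (mem_sdiff.mp he).2
          rw [mem_insert, mem_singleton] at this
          rw [mem_singleton]
          exact fun e' => this (Or.inl e')
        rw [ind_of_notMem he2] at h1
        unfold cob at h1
        rw [if_pos he1] at h1
        exact h1.symm
      · rw [if_neg he]
        rfl
    have h1 : π u = π v := hg'.conn π hc u (mem_erase.mpr ⟨hyu.symm, hu⟩) v
      (mem_erase.mpr ⟨hyv.symm, hv⟩)
    have h2 : π y + π v = 0 := by
      have h3 := congrFun hπ q
      rw [ind_of_notMem (by rw [mem_singleton]; exact hpq.symm)] at h3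
      unfold cob at h3
      rw [if_pos hqS] at h3
      rcases hq with ⟨a, b⟩ | ⟨a, b⟩
      · rw [a, b] at h3; exact h3.symm
      · rw [a, b, add_comm] at h3; exact h3.symm
    have h4 : π y + π u = 1 := by
      have h3 := congrFun hπ p
      rw [ind_of_mem (mem_singleton_self p)] at h3
      unfold cob at h3
      rw [if_pos hpS] at h3
      rcases hp with ⟨a, b⟩ | ⟨a, b⟩
      · rw [a, b] at h3; exact h3.symm
      · rw [a, b, add_comm] at h3; exact h3.symm
    rw [h1, h2] at h4
    exact zero_ne_one h4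
  obtain ⟨z0, hz0, hz0p⟩ := hz0
  have hz0q : z0 q = 1 := by rw [← hag z0 hz0]; exact hz0p
  -- a cycle through `p` and `q` has another element at `u` and at `v`
  have key : ∀ (r r' : E) (w w' : V), r ∈ M.S → w ∈ U → w ≠ y → w ≠ w' → Jn h t r y w →
      Jn h t r' y w' → (∀ e, e = p ∨ e = q ↔ e = r ∨ e = r') → ∀ z ∈ M.Z, z r = 1 →
      ∃ a ∈ star M.S h t w, a ≠ p ∧ a ≠ q ∧ z a = 1 := by
    intro r r' w w' hr hw hwy hww hjr hjr' hrr z hz hzr
    by_contra hno
    push Not at hno
    have h1 := M.dot_eq_zero (hg.star_mem hw) hz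
    rw [ind_dot] at h1
    have hrw : r ∈ star M.S h t w := by
      rw [hstar]
      refine ⟨hr, ?_⟩
      rcases hjr with ⟨a, b⟩ | ⟨a, b⟩
      · exact Or.inr b
      · exact Or.inl a
    have hr'w : r' ∉ star M.S h t w := by
      rw [hstar]
      rintro ⟨-, h3⟩
      rcases hjr' with ⟨a, b⟩ | ⟨a, b⟩
      · rcases h3 with h3 | h3
        · exact hwy (h3.symm.trans a)
        · exact hww (h3.symm.trans b)
      · rcases h3 with h3 | h3
        · exact hww (h3.symm.trans a)
        · exact hwy (h3.symm.trans b)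
    rw [← add_sum_erase _ _ hrw, hzr, sum_eq_zero, add_zero] at h1
    · exact one_ne_zero h1
    · intro e he
      rw [mem_erase] at he
      have he' : e ≠ r' := fun e' => hr'w (e' ▸ he.2)
      have h5 : ¬ (e = p ∨ e = q) := by
        rw [hrr]
        rintro (h | h)
        · exact he.1 h
        · exact he' h
      push Not at h5
      exact z_ne_one.mp (hno e he.2 h5.1 h5.2)
  have hjoin : ∀ (x : E) (s w : V), x ∈ star M.S h t w → (h x = s ∨ t x = s) → s ≠ w →
      Jn h t x s w := by
    intro x s w hx hs' hsw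
    have hx' := ((hstar _ _ _).mp hx).2
    rcases hs' with h1 | h1
    · rcases hx' with h2 | h2
      · exact absurd (h1.symm.trans h2) hsw
      · exact Or.inl ⟨h1, h2⟩
    · rcases hx' with h2 | h2
      · exact Or.inr ⟨h2, h1⟩
      · exact absurd (h1.symm.trans h2) hsw
  have hmem : ∀ e : E, e ∉ ({p, q} : Finset E) ↔ e ≠ p ∧ e ≠ q := by
    intro e
    rw [mem_insert, mem_singleton, not_or]
  obtain ⟨hSC, hSer⟩ := SC_ext M {p, q} (by
      intro e he
      rw [mem_insert, mem_singleton] at he
      rcases he with rfl | rfl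
      · exact hpS
      · exact hqS) ⟨p, by simp⟩ hsc z0 hz0 (by
      intro e he
      rw [mem_insert, mem_singleton] at he
      rcases he with rfl | rfl
      · exact hz0p
      · exact hz0q) (by
      intro z hz
      have h1 := hag z hz
      rcases zcases (z p) with h0 | h0
      · left
        intro e he
        rw [mem_insert, mem_singleton] at he
        rcases he with rfl | rfl
        · exact h0
        · rw [← h1]; exact h0
      · right
        intro e he
        rw [mem_insert, mem_singleton] at he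
        rcases he with rfl | rfl
        · exact h0
        · rw [← h1]; exact h0) (by
      intro z hz hzP
      have hzp : z p = 1 := hzP p (by simp)
      have hzq : z q = 1 := hzP q (by simp)
      obtain ⟨a, ha, hap, haq, hza⟩ := key p q u v hpS hu hyu.symm huv hp hq
        (fun e => Iff.rfl) z hz hzp
      obtain ⟨b, hb, hbp, hbq, hzb⟩ := key q p v u hqS hv hyv.symm huv.symm hq hp
        (fun e => or_comm) z hz hzq
      by_contra hno
      push Not at hno
      have hser := hno a b ((hmem a).mpr ⟨hap, haq⟩) ((hmem b).mpr ⟨hbp, hbq⟩) hza hzb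
      have haS : a ∈ M.S := ((hstar _ _ _).mp ha).1
      have hbS : b ∈ M.S := ((hstar _ _ _).mp hb).1
      by_cases hab : a = b
      · subst hab
        exact hpar a haS (hjoin a u v hb ((hstar _ _ _).mp ha).2 huv)
      · have haS' : a ∈ (M.del {p, q}).S := mem_sdiff.mpr ⟨haS, (hmem a).mpr ⟨hap, haq⟩⟩
        have hbS' : b ∈ (M.del {p, q}).S := mem_sdiff.mpr ⟨hbS, (hmem b).mpr ⟨hbp, hbq⟩⟩
        obtain ⟨s, hsU, hss⟩ := (hg'.star2 hsc h2 haS' hbS' hab).mp hser
        have hss' : star (M.S \ {p, q}) h t s = {a, b} := hss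
        have hsa : h a = s ∨ t a = s := by
          have : a ∈ star (M.S \ {p, q}) h t s := by rw [hss']; simp
          exact ((hstar _ _ _).mp this).2
        have hsb : h b = s ∨ t b = s := by
          have : b ∈ star (M.S \ {p, q}) h t s := by rw [hss']; simp
          exact ((hstar _ _ _).mp this).2
        rw [mem_erase] at hsU
        by_cases hsu : s = u
        · subst hsu
          exact hpar b hbS (hjoin b s v hb hsb huv)
        · by_cases hsv : s = v
          · subst hsv
            have := hjoin a s u ha hsa huv.symm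
            exact hpar a haS (Or.symm this)
          · exact hs s hsU.2 hsU.1 a haS b hbS hss' (hjoin a s u ha hsa hsu)
              (hjoin b s v hb hsb hsv))
  refine ⟨hSC, ?_⟩
  intro a ha b hb c hc hab hac
  rw [hSer a ha b hb] at hab
  rw [hSer a ha c hc] at hac
  rcases hab with ⟨h1, h3⟩ | ⟨h1, h3, h4, -⟩
  · rcases hac with ⟨-, h5⟩ | ⟨h5, -⟩
    · rw [mem_insert, mem_singleton] at h1 h3 h5
      rcases h1 with rfl | rfl <;> rcases h3 with rfl | rfl <;> rcases h5 with rfl | rfl <;> simp
    · exact absurd h1 h5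
  · rcases hac with ⟨h5, -⟩ | ⟨-, h5, h6, -⟩
    · exact absurd h5 h1
    · exact h2 a (mem_sdiff.mpr ⟨ha, h1⟩) b (mem_sdiff.mpr ⟨hb, h3⟩) c (mem_sdiff.mpr ⟨hc, h5⟩)
        h4 h6

end SEY

end

section

/-!
T3-Count.
* `count_cycle`: H a TC graph, |U| >= 5, y /= s vertices of degree 3 with a common edge.  F = S minus
  the edges at y or s has |S| - 5 elements and rank <= |U| - 3 (the graph on U - {y,s}); 2|S| = sum of degrees >=
  3|U| so |S| - 5 > |U| - 3.  So F carries a nonzero cycle.  (Concretely: the restrictions to F of the rows are coboundaries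
  on U - {y,s}, a space of dimension <= |U| - 3; cycles inside F: dimension >= |F| - (|U|-3) >= 1.)
-/

namespace SEY

open Finset

variable {E : Type} [Fintype E] [DecidableEq E] {V : Type} [Fintype V] [DecidableEq V]

/-- Sum over the vertices of the sums over the stars, with weights. -/
private lemma count_swap {M : BM E} {U : Finset V} {h t : E → V} (hg : IsGr M U h t)
    {A : Type} [CommRing A] (p : V → A) (z : E → A) :
    ∑ v ∈ U, p v * ∑ e ∈ star M.S h t v, z e = ∑ e ∈ M.S, (p (h e) + p (t e)) * z e := by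
  simp only [mul_sum]
  have h1 : ∀ v ∈ U, ∑ e ∈ star M.S h t v, p v * z e =
      ∑ e ∈ M.S, if h e = v ∨ t e = v then p v * z e else 0 := by
    intro v _
    unfold star
    rw [sum_filter]
  rw [sum_congr rfl h1, sum_comm]
  refine sum_congr rfl fun e he => ?_
  obtain ⟨h2, h3, h4⟩ := hg.ends e he
  have h5 : ∀ v ∈ U, (if h e = v ∨ t e = v then p v * z e else 0) =
      (if h e = v then p v * z e else 0) + (if t e = v then p v * z e else 0) := by
    intro v _
    by_cases ha : h e = v
    · by_cases hb : t e = v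
      · exact absurd (ha.trans hb.symm) h4
      · simp [ha, hb]
    · simp [ha]
  rw [sum_congr rfl h5, sum_add_distrib, sum_ite_eq, sum_ite_eq, if_pos h2, if_pos h3]
  ring

theorem count_cycle {M : BM E} (hM : M.TC) {U : Finset V} {h t : E → V} (hg : IsGr M U h t)
    (hU : 5 ≤ U.card) {y s : V} (hy : y ∈ U) (hs : s ∈ U) (hys : y ≠ s)
    (hy3 : (star M.S h t y).card = 3) (hs3 : (star M.S h t s).card = 3) {x : E} (hx : x ∈ M.S)
    (hj : Jn h t x y s) :
    ∃ z ∈ M.Z, z ≠ 0 ∧ ∀ g, g ∈ star M.S h t y ∨ g ∈ star M.S h t s → z g = 0 := by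
  classical
  -- the count
  have hdeg : 3 * U.card ≤ 2 * M.S.card := by
    have h1 := count_swap hg (A := ℤ) (fun _ => 1) (fun _ => 1)
    simp only [one_mul, sum_const, nsmul_eq_mul, mul_one] at h1
    have h2 : ∑ v ∈ U, ((star M.S h t v).card : ℤ) ≥ ∑ v ∈ U, (3 : ℤ) :=
      sum_le_sum fun v hv => by exact_mod_cast TC.three_le_deg hM hg hv
    rw [h1] at h2
    simp only [sum_const, nsmul_eq_mul] at h2
    push_cast at h2
    omega
  set F : Finset E := M.S \ (star M.S h t y ∪ star M.S h t s) with hF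
  have hxy : x ∈ star M.S h t y := by
    refine mem_filter.2 ⟨hx, ?_⟩
    rcases hj with h' | h'
    · exact Or.inl h'.1
    · exact Or.inr h'.2
  have hxs : x ∈ star M.S h t s := by
    refine mem_filter.2 ⟨hx, ?_⟩
    rcases hj with h' | h'
    · exact Or.inr h'.2
    · exact Or.inl h'.1
  have hun : (star M.S h t y ∪ star M.S h t s).card ≤ 5 := by
    have h1 := card_union_add_card_inter (star M.S h t y) (star M.S h t s)
    have h2 : 0 < (star M.S h t y ∩ star M.S h t s).card := card_pos.2 ⟨x, mem_inter.2 ⟨hxy, hxs⟩⟩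
    omega
  have hFc : M.S.card ≤ F.card + 5 := by
    have h1 := card_sdiff_add_card M.S (star M.S h t y ∪ star M.S h t s)
    rw [← hF] at h1
    have h2 : M.S.card ≤ (M.S ∪ (star M.S h t y ∪ star M.S h t s)).card :=
      card_le_card subset_union_left
    omega
  -- the vertices
  set W : Finset V := (U.erase y).erase s with hW
  have hWc : W.card = U.card - 2 := by
    rw [hW, card_erase_of_mem (mem_erase.2 ⟨hys.symm, hs⟩), card_erase_of_mem hy]
    (clear * - M h t hU y s; omega)
  obtain ⟨v0, hv0⟩ := card_pos.1 (by omega : 0 < W.card)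
  set W' : Finset V := W.erase v0 with hW'
  have hWc' : W'.card = U.card - 3 := by
    rw [hW', card_erase_of_mem hv0]
    omega
  have hlt : W'.card < F.card := by omega
  -- the linear map
  let ext : (F → ZMod 2) → (E → ZMod 2) := fun w e => if he : e ∈ F then w ⟨e, he⟩ else 0
  let Φ : (F → ZMod 2) →ₗ[ZMod 2] (W' → ZMod 2) :=
    { toFun := fun w v => ∑ e ∈ star M.S h t v.1, ext w e
      map_add' := by
        intro w w'
        funext v
        rw [Pi.add_apply, ← sum_add_distrib]
        refine sum_congr rfl fun e _ => ?_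
        by_cases he : e ∈ F
        · simp [ext, he]
        · simp [ext, he]
      map_smul' := by
        intro c w
        funext v
        rw [RingHom.id_apply, Pi.smul_apply, smul_eq_mul, mul_sum]
        refine sum_congr rfl fun e _ => ?_
        by_cases he : e ∈ F
        · simp [ext, he]
        · simp [ext, he] }
  have hker : Φ.ker ≠ ⊥ := by
    refine LinearMap.ker_ne_bot_of_finrank_lt ?_
    rw [Module.finrank_fintype_fun_eq_card, Module.finrank_fintype_fun_eq_card,
      Fintype.card_coe, Fintype.card_coe]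
    exact hlt
  obtain ⟨w, hw, hw0⟩ := Submodule.exists_mem_ne_zero_of_ne_bot hker
  have hzF : ∀ e, e ∉ F → ext w e = 0 := fun e he => dif_neg he
  have hstar0 : ∀ g, g ∈ star M.S h t y ∨ g ∈ star M.S h t s → ext w g = 0 := by
    intro g hg'
    refine hzF g ?_
    rw [hF, mem_sdiff, mem_union]
    exact fun h' => h'.2 hg'
  have hst : ∀ v ∈ U, ∑ e ∈ star M.S h t v, ext w e = 0 := by
    have hne : ∀ v ∈ U, v ≠ v0 → ∑ e ∈ star M.S h t v, ext w e = 0 := by
      intro v hv hv1
      by_cases h1 : v = y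
      · subst h1
        exact sum_eq_zero fun e he => hstar0 e (Or.inl he)
      · by_cases h2 : v = s
        · subst h2
          exact sum_eq_zero fun e he => hstar0 e (Or.inr he)
        · have h3 : v ∈ W' := by
            rw [hW', mem_erase, hW, mem_erase, mem_erase]
            exact ⟨hv1, h2, h1, hv⟩
          exact congrFun (LinearMap.mem_ker.1 hw) ⟨v, h3⟩
    intro v hv
    by_cases hv1 : v = v0
    · rw [hv1] at hv ⊢
      have h1 := count_swap hg (A := ZMod 2) (fun _ => 1) (ext w)
      simp only [one_mul] at h1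
      have h2 : ∑ e ∈ M.S, ((1 : ZMod 2) + 1) * ext w e = 0 := by
        refine sum_eq_zero fun e _ => ?_
        have : (1 : ZMod 2) + 1 = 0 := by decide
        rw [this, zero_mul]
      rw [h2, ← add_sum_erase U _ hv, sum_eq_zero (s := U.erase v0), add_zero] at h1
      · exact h1
      · intro v hv'
        rw [mem_erase] at hv'
        exact hne v hv'.2 hv'.1
    · exact hne v hv hv1
  refine ⟨ext w, ⟨fun e he => hzF e ?_, ?_⟩, ?_, hstar0⟩
  · rw [hF, mem_sdiff]
    exact fun h' => he h'.1
  · intro f hf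
    obtain ⟨π, rfl⟩ := (hg.rows f).1 hf
    have h1 := count_swap hg (A := ZMod 2) π (ext w)
    rw [sum_eq_zero (s := U)] at h1
    · unfold dot cob
      rw [← sum_subset (subset_univ M.S)]
      · rw [h1]
        refine sum_congr rfl fun e he => ?_
        rw [if_pos he]
      · intro e _ he
        rw [if_neg he, zero_mul]
    · intro v hv
      rw [hst v hv, mul_zero]
  · intro h0
    refine hw0 ?_
    funext e
    have h1 := congrFun h0 e.1
    have h2 : ext w e.1 = w e := by
      simp only [ext]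
      rw [dif_pos e.2]
    rw [h2] at h1
    exact h1

end SEY

end
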