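import Pool.Agent.Helper29.MFA.T26
import Pool.Agent.Helper29.MFA.T28
import Pool.Agent.Helper29.MFA.T10

section

/-!
T3-Step4a.
T3-Step4 (k2 /= f).  k2 is an element of H' = (M.con {g2}).del {e,k}, k2 /= g1, with M.del {e,k,k2} SC and HasT
(this is H' del k2 with the edge f = ab subdivided by y).  F := (M.con {g2}).del {e,k,k2} = H' del k2 is SC (`SC_con`, g1,g2
in series in M.del {e,k,k2}: star y = {g1,g2}), Two (`TC.del_two` for H'), graph on U - y with ends mg y b (g1 joins a, b).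
Facts used everywhere: no edge of H joins a and b, none joins y to something else than a, b, d; H' has
no parallel edges.

* `step4_a` (case A, M.del {e,k2} SC): N := M.del {k2}: graft for e over M.del {e,k2} (`IsGraft.del`), SC, Two (`TC.del_two` for H),
  HasT: graphic; `crit`: SS inside {y,a,b,c} of vertices of degree 2 in H del k2: these are ends of k2 of
  degree 3 in H; y is not (k2 not at y).  SS nonempty (|T| = 4).
  |SS| = 1, SS = {s}: star_H s = {k2,x1,x2} with neighbours n1,n2: |T+{n1,n2}| <= 2 so n1,n2 in T - s.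
    s = c: n1,n2 in {y,a,b}, y is not adjacent to c, so {a,b}: star_F c = {x1,x2} with neighbours a,b but g1 joins a and
      b in F: contradiction to `IsGr.deg2` for F.
    s = a: g1 in star a, so {n1,n2} = {y,n}, n in {b,c}, not b: n = c.  Done.  s = b: same.
  |SS| = 2: k2 joins two of a,b,c, not a and b; say a and c: N_H(a) = {c,y,m}, N_H(c) = {a,c1,c2}; swT = T+{y,m}+{c1,c2}
    contains a, c, so = {a,c}: {y,m}+{c1,c2} = {y,b}, y not in {c1,c2}: {c1,c2} = {m,b}.  In H': N(a) = {b,c,m}, N(c) = {a,b,m}.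
    `IsGr.sep` for H', X = {a,c}, Y = U' - {a,b,c,m} nonempty (hU): lam(5 edges at X) <= 1, the
    complement has >= 3 elements (edges at a vertex of Y): contradiction to TC of H'.  Same for b and c.
-/

namespace SEY

open Finset

variable {E : Type} [Fintype E] [DecidableEq E] {V : Type} [Fintype V] [DecidableEq V]
variable {r l : ℕ} {rows : Fin r → Fin l → ZMod 2} {M : BM E} {U : Finset V} {h t : E → V}
  {e k g1 g2 : E} {y a b c d : V}

/-! ### Small facts on `Jn` and stars -/

omit [Fintype E] [DecidableEq E] [Fintype V] [DecidableEq V] in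
theorem Step4a_jsymm {x : E} {u v : V} (hj : Jn h t x u v) : Jn h t x v u := Or.symm hj

omit [Fintype E] [DecidableEq E] [Fintype V] [DecidableEq V] in
theorem Step4a_juniq {x : E} {u v w : V} (h1 : Jn h t x u v) (h2 : Jn h t x u w) : v = w := by
  rcases h1 with ⟨p1, p2⟩ | ⟨p1, p2⟩ <;> rcases h2 with ⟨q1, q2⟩ | ⟨q1, q2⟩
  · exact p2.symm.trans q2
  · exact (p2.symm.trans q2).trans (p1.symm.trans q1)
  · exact (p1.symm.trans q1).trans (p2.symm.trans q2)
  · exact p1.symm.trans q1

omit [Fintype E] [DecidableEq E] [Fintype V] [DecidableEq V] in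
theorem Step4a_jl {x : E} {u v : V} (hj : Jn h t x u v) : h x = u ∨ t x = u := by
  rcases hj with ⟨h1, _⟩ | ⟨_, h2⟩
  · exact Or.inl h1
  · exact Or.inr h2

omit [Fintype E] [DecidableEq E] [Fintype V] [DecidableEq V] in
theorem Step4a_jor {x : E} {u v w : V} (hj : Jn h t x u v) (hw : h x = w ∨ t x = w) :
    w = u ∨ w = v := by
  rcases hj with ⟨h1, h2⟩ | ⟨h1, h2⟩ <;> rcases hw with h3 | h3
  · exact Or.inl (h3.symm.trans h1)
  · exact Or.inr (h3.symm.trans h2)
  · exact Or.inr (h3.symm.trans h1)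
  · exact Or.inl (h3.symm.trans h2)

omit [Fintype E] [DecidableEq E] [Fintype V] [DecidableEq V] in
theorem Step4a_jex {x : E} {u : V} (hx : h x = u ∨ t x = u) : ∃ v, Jn h t x u v := by
  rcases hx with h1 | h1
  · exact ⟨t x, Or.inl ⟨h1, rfl⟩⟩
  · exact ⟨h x, Or.inr ⟨rfl, h1⟩⟩

omit [Fintype E] [Fintype V] in
theorem Step4a_mem {A : Finset E} {x : E} {v : V} :
    x ∈ star A h t v ↔ x ∈ A ∧ (h x = v ∨ t x = v) := Finset.mem_filter

omit [Fintype V] [DecidableEq V] in
theorem Step4a_HpS (x : E) :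
    x ∈ ((M.con {g2}).del {e, k}).S ↔ x ∈ M.S \ {e} ∧ x ≠ g2 ∧ x ≠ k := by
  show x ∈ (M.S \ {g2}) \ {e, k} ↔ _
  simp only [Finset.mem_sdiff, Finset.mem_insert, Finset.mem_singleton, not_or]
  tauto

/-- The graph after contracting `g2`: edges at a vertex different from `y` and `b`. -/
theorem Step4a_jmg {x : E} {u v : V} (hy : u ≠ y) (hb : u ≠ b)
    (hj : Jn (fun z => mg y b (h z)) (fun z => mg y b (t z)) x u v) :
    ∃ w, Jn h t x u w ∧ mg y b w = v := by
  have key : ∀ w : V, mg y b w = u → w = u := by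
    intro w hw
    unfold mg at hw
    by_cases h1 : w = y
    · rw [if_pos h1] at hw
      exact absurd hw.symm hb
    · rwa [if_neg h1] at hw
  rcases hj with ⟨h1, h2⟩ | ⟨h1, h2⟩
  · exact ⟨t x, Or.inl ⟨key _ h1, rfl⟩, h2⟩
  · exact ⟨h x, Or.inr ⟨rfl, key _ h2⟩, h1⟩

/-- The structure of a vertex which has degree two after deleting `k2`. -/
theorem Step4a_nb (hG : IsGr (M.del {e}) U h t) (hTC : (M.del {e}).TC) {k2 : E} {s : V}
    (hs : s ∈ U) (hc : (star ((M.del {k2}).S \ {e}) h t s).card = 2) :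
    ∃ x1 x2 n0 n1 n2, star (M.S \ {e}) h t s = {k2, x1, x2} ∧
      star ((M.del {k2}).S \ {e}) h t s = {x1, x2} ∧ x1 ≠ x2 ∧ k2 ≠ x1 ∧ k2 ≠ x2 ∧
      Jn h t k2 s n0 ∧ Jn h t x1 s n1 ∧ Jn h t x2 s n2 ∧ n1 ≠ n2 ∧ n0 ≠ n1 ∧ n0 ≠ n2 ∧
      n0 ≠ s ∧ n1 ≠ s ∧ n2 ≠ s ∧ n0 ∈ U ∧ n1 ∈ U ∧ n2 ∈ U := by
  have hHsc : (M.del {e}).SC := ((TC_iff_SC _).1 hTC).1
  have h3 : 3 ≤ (star (M.S \ {e}) h t s).card := TC.three_le_deg hTC hG hs
  obtain ⟨x1, x2, h12, hst⟩ := Finset.card_eq_two.1 hc
  have hmem : ∀ x, x ∈ star ((M.del {k2}).S \ {e}) h t s ↔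
      x ∈ star (M.S \ {e}) h t s ∧ x ≠ k2 := by
    intro x
    rw [Step4a_mem, Step4a_mem]
    show x ∈ (M.S \ {k2}) \ {e} ∧ _ ↔ _
    simp only [Finset.mem_sdiff, Finset.mem_singleton]
    tauto
  have hk1 : k2 ≠ x1 := by
    intro h1
    have h2 : x1 ∈ star ((M.del {k2}).S \ {e}) h t s := by rw [hst]; simp
    exact ((hmem x1).1 h2).2 h1.symm
  have hk2 : k2 ≠ x2 := by
    intro h1
    have h2 : x2 ∈ star ((M.del {k2}).S \ {e}) h t s := by rw [hst]; simp
    exact ((hmem x2).1 h2).2 h1.symm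
  have hstar : star (M.S \ {e}) h t s = {k2, x1, x2} := by
    apply Finset.eq_of_subset_of_card_le
    · intro x hx
      by_cases hxk : x = k2
      · simp [hxk]
      · have h4 := (hmem x).2 ⟨hx, hxk⟩
        rw [hst] at h4
        exact Finset.mem_insert_of_mem h4
    · exact le_trans Finset.card_le_three h3
  have m0 : k2 ∈ star (M.S \ {e}) h t s := by rw [hstar]; simp
  have m1 : x1 ∈ star (M.S \ {e}) h t s := by rw [hstar]; simp
  have m2 : x2 ∈ star (M.S \ {e}) h t s := by rw [hstar]; simp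
  rw [Step4a_mem] at m0 m1 m2
  obtain ⟨n0, j0⟩ := Step4a_jex m0.2
  obtain ⟨n1, j1⟩ := Step4a_jex m1.2
  obtain ⟨n2, j2⟩ := Step4a_jex m2.2
  have hend : ∀ x ∈ M.S \ {e}, ∀ v : V, Jn h t x s v → v ≠ s ∧ v ∈ U := by
    intro x hx v hj
    have h1 := hG.ends x hx
    rcases hj with ⟨h2, h3⟩ | ⟨h2, h3⟩
    · exact ⟨fun h4 => h1.2.2 (h2.trans (h3.trans h4).symm), h3 ▸ h1.2.1⟩
    · exact ⟨fun h4 => h1.2.2 ((h2.trans h4).trans h3.symm), h2 ▸ h1.1⟩
  have hpar : ∀ x ∈ M.S \ {e}, ∀ x' ∈ M.S \ {e}, ∀ v : V, Jn h t x s v → Jn h t x' s v →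
      x = x' := by
    intro x hx x' hx' v hj hj'
    exact hG.no_par hHsc (x := x) (y := x') hx hx' hj hj'
  refine ⟨x1, x2, n0, n1, n2, hstar, hst, h12, hk1, hk2, j0, j1, j2, ?_, ?_, ?_,
    (hend _ m0.1 _ j0).1, (hend _ m1.1 _ j1).1, (hend _ m2.1 _ j2).1,
    (hend _ m0.1 _ j0).2, (hend _ m1.1 _ j1).2, (hend _ m2.1 _ j2).2⟩
  · intro h1
    exact h12 (hpar _ m1.1 _ m2.1 _ j1 (h1 ▸ j2))
  · intro h1
    exact hk1 (hpar _ m0.1 _ m1.1 _ j0 (h1 ▸ j1))
  · intro h1
    exact hk2 (hpar _ m0.1 _ m2.1 _ j0 (h1 ▸ j2))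

/-- The number of edges from a vertex of degree two to a vertex `v`. -/
theorem Step4a_cnt {A : Finset E} {s n1 n2 : V} {x1 x2 : E} (hst : star A h t s = {x1, x2})
    (h12 : x1 ≠ x2) (j1 : Jn h t x1 s n1) (j2 : Jn h t x2 s n2) (v : V) :
    (A.filter (fun x => Jn h t x s v)).card =
      (if v = n1 then 1 else 0) + (if v = n2 then 1 else 0) := by
  have h1 : A.filter (fun x => Jn h t x s v) =
      (star A h t s).filter (fun x => Jn h t x s v) := by
    ext x
    simp only [star, Finset.mem_filter]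
    constructor
    · rintro ⟨h2, h3⟩
      exact ⟨⟨h2, Step4a_jl h3⟩, h3⟩
    · rintro ⟨⟨h2, -⟩, h3⟩
      exact ⟨h2, h3⟩
  rw [h1, hst, Finset.card_filter, Finset.sum_pair h12]
  have e1 : Jn h t x1 s v ↔ v = n1 := by
    constructor
    · intro h2
      exact Step4a_juniq h2 j1
    · rintro rfl
      exact j1
  have e2 : Jn h t x2 s v ↔ v = n2 := by
    constructor
    · intro h2
      exact Step4a_juniq h2 j2
    · rintro rfl
      exact j2
  simp only [e1, e2]

/-- No edge of `H` joins `a` and `b`. -/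
theorem SitI.Step4a_par (S : SitI rows M U h t e k g1 g2 y a b c d)
    (hd : 4 ≤ (star (M.S \ {e}) h t d).card) {x : E} (hx : x ∈ M.S \ {e})
    (hj : Jn h t x a b) : False := by
  have hst1 : g1 ∈ star (M.S \ {e}) h t y := by rw [S.st]; simp
  have hst2 : g2 ∈ star (M.S \ {e}) h t y := by rw [S.st]; simp
  have h1S := (Step4a_mem.1 hst1).1
  have h2S := (Step4a_mem.1 hst2).1
  have n12 : g1 ≠ g2 := by
    intro h1
    exact S.ab (Step4a_juniq S.j1 (h1 ▸ S.j2))
  have n1k : g1 ≠ k := by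
    intro h1
    exact S.ad (Step4a_juniq S.j1 (h1 ▸ S.jk))
  have hxk : x ≠ k := by
    intro h1
    rcases Step4a_jor hj (h1 ▸ Step4a_jl S.jk) with h2 | h2
    · exact S.ya h2
    · exact S.yb h2
  have hx1 : x ≠ g1 := by
    intro h1
    rcases Step4a_jor hj (h1 ▸ Step4a_jl S.j1) with h2 | h2
    · exact S.ya h2
    · exact S.yb h2
  have hx2 : x ≠ g2 := by
    intro h1
    rcases Step4a_jor hj (h1 ▸ Step4a_jl S.j2) with h2 | h2
    · exact S.ya h2
    · exact S.yb h2
  rw [Finset.mem_sdiff, Finset.mem_singleton] at hx h1S h2S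
  have hsc := ((TC_iff_SC _).1 (S.hp_tc hd)).1
  apply hx1
  refine S.hp_gr.no_par hsc (x := x) (y := g1) (u := a) (v := b) ?_ ?_ ?_ ?_
  · simp only [BM.del, BM.con, mem_sdiff, mem_insert, mem_singleton, not_or]
    exact ⟨⟨hx.1, hx2⟩, hx.2, hxk⟩
  · simp only [BM.del, BM.con, mem_sdiff, mem_insert, mem_singleton, not_or]
    exact ⟨⟨h1S.1, n12⟩, h1S.2, n1k⟩
  · have ha : mg y b a = a := if_neg S.ya.symm
    have hb : mg y b b = b := if_neg S.yb.symm
    rcases hj with ⟨p, q⟩ | ⟨p, q⟩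
    · left
      show mg y b (h x) = a ∧ mg y b (t x) = b
      rw [p, q]
      exact ⟨ha, hb⟩
    · right
      show mg y b (h x) = b ∧ mg y b (t x) = a
      rw [p, q]
      exact ⟨hb, ha⟩
  · have ha : mg y b a = a := if_neg S.ya.symm
    have hb : mg y b y = b := if_pos rfl
    rcases S.j1 with ⟨p, q⟩ | ⟨p, q⟩
    · right
      show mg y b (h g1) = b ∧ mg y b (t g1) = a
      rw [p, q]
      exact ⟨hb, ha⟩
    · left
      show mg y b (h g1) = a ∧ mg y b (t g1) = b
      rw [p, q]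
      exact ⟨ha, hb⟩

theorem Step4a_one {A : Finset E} {T : Finset V} {s n1 n2 : V} {x1 x2 : E} (hTU : T ⊆ U)
    (hT4 : 4 ≤ T.card) (hst : star A h t s = {x1, x2}) (h12 : x1 ≠ x2) (j1 : Jn h t x1 s n1)
    (j2 : Jn h t x2 s n2) (hsw : (swT A h t U T {s}).card ≤ 2) : n1 ∈ T ∧ n2 ∈ T := by
  have hmem : ∀ v, v ∈ swT A h t U T {s} ↔ v ∈ U ∧
      Odd ((if v ∈ T then 1 else 0) +
        ((if v = n1 then 1 else 0) + (if v = n2 then 1 else 0))) := by
    intro v
    unfold swT
    rw [Finset.mem_filter, Finset.sum_singleton, Step4a_cnt hst h12 j1 j2]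
  constructor
  · by_contra hn
    have h1 : T.erase n2 ⊆ swT A h t U T {s} := by
      intro v hv
      rw [Finset.mem_erase] at hv
      rw [hmem]
      refine ⟨hTU hv.2, ?_⟩
      have hv1 : v ≠ n1 := by
        rintro rfl
        exact hn hv.2
      rw [if_pos hv.2, if_neg hv1, if_neg hv.1]
      exact odd_one
    have h2 := Finset.card_le_card h1
    have h3 := Finset.pred_card_le_card_erase (s := T) (a := n2)
    omega
  · by_contra hn
    have h1 : T.erase n1 ⊆ swT A h t U T {s} := by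
      intro v hv
      rw [Finset.mem_erase] at hv
      rw [hmem]
      refine ⟨hTU hv.2, ?_⟩
      have hv1 : v ≠ n2 := by
        rintro rfl
        exact hn hv.2
      rw [if_pos hv.2, if_neg hv1, if_neg hv.1]
      exact odd_one
    have h2 := Finset.card_le_card h1
    have h3 := Finset.pred_card_le_card_erase (s := T) (a := n1)
    omega

theorem SitI.Step4a_card (S : SitI rows M U h t e k g1 g2 y a b c d) :
    ({y, a, b, c} : Finset V).card = 4 := by
  rw [Finset.card_insert_of_notMem, Finset.card_insert_of_notMem, Finset.card_pair S.bc]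
  · simp only [Finset.mem_insert, Finset.mem_singleton, not_or]
    exact ⟨S.ab, S.ac⟩
  · simp only [Finset.mem_insert, Finset.mem_singleton, not_or]
    exact ⟨S.ya, S.yb, S.yc⟩

/-- An edge of `H` does not join `y` and `c`. -/
theorem SitI.Step4a_yc (S : SitI rows M U h t e k g1 g2 y a b c d) (hcd : c ≠ d) {x : E}
    (hx : x ∈ M.S \ {e}) (hj : Jn h t x c y) : False := by
  have h1 : x ∈ star (M.S \ {e}) h t y := Step4a_mem.2 ⟨hx, Step4a_jl (Step4a_jsymm hj)⟩
  rw [S.st] at h1
  simp only [Finset.mem_insert, Finset.mem_singleton] at h1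
  rcases h1 with h1 | h1 | h1
  · exact hcd (Step4a_juniq (Step4a_jsymm hj) (h1 ▸ S.jk))
  · exact S.ac (Step4a_juniq (Step4a_jsymm hj) (h1 ▸ S.j1)).symm
  · exact S.bc (Step4a_juniq (Step4a_jsymm hj) (h1 ▸ S.j2)).symm

/-- The vertex `a` when it has degree two after deleting `k2`. -/
theorem SitI.Step4a_va (S : SitI rows M U h t e k g1 g2 y a b c d)
    (hd : 4 ≤ (star (M.S \ {e}) h t d).card) {k2 : E} (hk1 : k2 ≠ g1)
    (hst2 : (star ((M.del {k2}).S \ {e}) h t a).card = 2) :
    ∃ (xm : E) (m n0 : V), star (M.S \ {e}) h t a = {g1, xm, k2} ∧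
      star ((M.del {k2}).S \ {e}) h t a = {g1, xm} ∧ g1 ≠ xm ∧ Jn h t xm a m ∧
      Jn h t k2 a n0 ∧ m ≠ y ∧ m ≠ a ∧ m ≠ b ∧ m ≠ n0 ∧ m ∈ U := by
  have haU : a ∈ U := S.gr.sub (by simp)
  obtain ⟨x1, x2, n0, n1, n2, hst, hst', h12, hkx1, hkx2, j0, j1, j2, n12, n01, n02, n0s, n1s,
    n2s, n0U, n1U, n2U⟩ := Step4a_nb S.gr.gr S.tc haU hst2
  have hg1 : g1 ∈ star (M.S \ {e}) h t a := by
    rw [Step4a_mem]
    have h1 : g1 ∈ star (M.S \ {e}) h t y := by rw [S.st]; simp
    exact ⟨(Step4a_mem.1 h1).1, Step4a_jl (Step4a_jsymm S.j1)⟩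
  have hx1S : x1 ∈ M.S \ {e} := by
    have h1 : x1 ∈ star (M.S \ {e}) h t a := by rw [hst]; simp
    exact (Step4a_mem.1 h1).1
  have hx2S : x2 ∈ M.S \ {e} := by
    have h1 : x2 ∈ star (M.S \ {e}) h t a := by rw [hst]; simp
    exact (Step4a_mem.1 h1).1
  rw [hst] at hg1
  simp only [Finset.mem_insert, Finset.mem_singleton] at hg1
  rcases hg1 with h1 | h1 | h1
  · exact absurd h1.symm hk1
  · subst h1
    have hn1 : n1 = y := Step4a_juniq j1 (Step4a_jsymm S.j1)
    refine ⟨x2, n2, n0, ?_, hst', h12, j2, j0, ?_, n2s, ?_, n02.symm, n2U⟩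
    · rw [hst]
      ext x
      simp only [Finset.mem_insert, Finset.mem_singleton]
      tauto
    · rw [← hn1]
      exact n12.symm
    · rintro rfl
      exact S.Step4a_par hd hx2S j2
  · subst h1
    have hn1 : n2 = y := Step4a_juniq j2 (Step4a_jsymm S.j1)
    refine ⟨x1, n1, n0, ?_, ?_, h12.symm, j1, j0, ?_, n1s, ?_, n01.symm, n1U⟩
    · rw [hst]
      ext x
      simp only [Finset.mem_insert, Finset.mem_singleton]
      tauto
    · rw [hst', Finset.pair_comm]
    · rw [← hn1]
      exact n12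
    · rintro rfl
      exact S.Step4a_par hd hx1S j1

theorem SitI.Step4a_A (S : SitI rows M U h t e k g1 g2 y a b c d)
    (hd : 4 ≤ (star (M.S \ {e}) h t d).card) {k2 : E} (hk1 : k2 ≠ g1)
    (hst2 : (star ((M.del {k2}).S \ {e}) h t a).card = 2)
    (hsw : (swT ((M.del {k2}).S \ {e}) h t U {y, a, b, c} {a}).card ≤ 2) :
    ∃ (xc : E) (q : V), star (M.S \ {e}) h t a = {g1, xc, k2} ∧ Jn h t xc a c ∧
      Jn h t k2 a q := by
  obtain ⟨xm, m, n0, hst, hst', hne, jm, j0, hmy, hma, hmb, hm0, hmU⟩ := S.Step4a_va hd hk1 hst2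
  have h1 := (Step4a_one S.gr.sub (by rw [S.Step4a_card]) hst' hne (Step4a_jsymm S.j1) jm
    hsw).2
  simp only [Finset.mem_insert, Finset.mem_singleton] at h1
  rcases h1 with h1 | h1 | h1 | h1
  · exact absurd h1 hmy
  · exact absurd h1 hma
  · exact absurd h1 hmb
  · subst h1
    exact ⟨xm, n0, hst, jm, j0⟩

theorem SitI.Step4a_AC (S : SitI rows M U h t e k g1 g2 y a b c d) (hcd : c ≠ d)
    (hd : 4 ≤ (star (M.S \ {e}) h t d).card) (hU : 6 ≤ U.card) {k2 : E}
    (hk : k2 ∈ M.S \ {e}) (hkk : k2 ≠ k) (hk1 : k2 ≠ g1) (hk2 : k2 ≠ g2)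
    (hsta : (star ((M.del {k2}).S \ {e}) h t a).card = 2)
    (hstc : (star ((M.del {k2}).S \ {e}) h t c).card = 2)
    (hsw : (swT ((M.del {k2}).S \ {e}) h t U {y, a, b, c} {a, c}).card ≤ 2) : False := by
  obtain ⟨xm, m, n0, hst, hst', hne, jm, j0, hmy, hma, hmb, hm0, hmU⟩ := S.Step4a_va hd hk1 hsta
  have haU : a ∈ U := S.gr.sub (by simp)
  have hbU : b ∈ U := S.gr.sub (by simp)
  have hcU : c ∈ U := S.gr.sub (by simp)
  have hyU : y ∈ U := S.gr.sub (by simp)
  obtain ⟨x1, x2, n0', n1, n2, hcst, hcst', h12, hkx1, hkx2, j0', j1, j2, n12, n01, n02, n0s,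
    n1s, n2s, n0U, n1U, n2U⟩ := Step4a_nb S.gr.gr S.tc hcU hstc
  have hn0 : n0 = c := by
    rcases Step4a_jor j0 (Step4a_jl j0') with h1 | h1
    · exact absurd h1.symm S.ac
    · exact h1.symm
  subst hn0
  have hn0' : n0' = a := Step4a_juniq j0' (Step4a_jsymm j0)
  subst hn0'
  have hx1S : x1 ∈ M.S \ {e} := by
    have h1 : x1 ∈ star (M.S \ {e}) h t n0 := by rw [hcst]; simp
    exact (Step4a_mem.1 h1).1
  have hx2S : x2 ∈ M.S \ {e} := by
    have h1 : x2 ∈ star (M.S \ {e}) h t n0 := by rw [hcst]; simp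
    exact (Step4a_mem.1 h1).1
  have hn1y : n1 ≠ y := by
    rintro rfl
    exact S.Step4a_yc hcd hx1S j1
  have hn2y : n2 ≠ y := by
    rintro rfl
    exact S.Step4a_yc hcd hx2S j2
  have hmem : ∀ v, v ∈ swT ((M.del {k2}).S \ {e}) h t U {y, n0', b, n0} {n0', n0} ↔ v ∈ U ∧
      Odd ((if v ∈ ({y, n0', b, n0} : Finset V) then 1 else 0) +
        (((if v = y then 1 else 0) + (if v = m then 1 else 0)) +
          ((if v = n1 then 1 else 0) + (if v = n2 then 1 else 0)))) := by
    intro v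
    unfold swT
    rw [Finset.mem_filter, Finset.sum_pair S.ac, Step4a_cnt hst' hne (Step4a_jsymm S.j1) jm,
      Step4a_cnt hcst' h12 j1 j2]
  have hA : n0' ∈ swT ((M.del {k2}).S \ {e}) h t U {y, n0', b, n0} {n0', n0} := by
    rw [hmem]
    refine ⟨haU, ?_⟩
    rw [if_pos (by simp), if_neg S.ya.symm, if_neg (Ne.symm hma), if_neg n01, if_neg n02]
    exact odd_one
  have hC : n0 ∈ swT ((M.del {k2}).S \ {e}) h t U {y, n0', b, n0} {n0', n0} := by
    rw [hmem]
    refine ⟨hcU, ?_⟩
    rw [if_pos (by simp), if_neg S.yc.symm, if_neg (Ne.symm hm0), if_neg (Ne.symm n1s),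
      if_neg (Ne.symm n2s)]
    exact odd_one
  have hno : ∀ v, v ≠ n0' → v ≠ n0 →
      v ∉ swT ((M.del {k2}).S \ {e}) h t U {y, n0', b, n0} {n0', n0} := by
    intro v h1 h2 h3
    have h4 : ({n0', n0, v} : Finset V) ⊆
        swT ((M.del {k2}).S \ {e}) h t U {y, n0', b, n0} {n0', n0} := by
      intro x hx
      simp only [Finset.mem_insert, Finset.mem_singleton] at hx
      rcases hx with rfl | rfl | rfl
      · exact hA
      · exact hC
      · exact h3
    have h5 := Finset.card_le_card h4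
    rw [Finset.card_insert_of_notMem (by
      simp only [Finset.mem_insert, Finset.mem_singleton, not_or]
      exact ⟨S.ac, Ne.symm h1⟩), Finset.card_pair (Ne.symm h2)] at h5
    omega
  have hB : b = n1 ∨ b = n2 := by
    by_contra hcon
    push Not at hcon
    refine hno b S.ab.symm S.bc ?_
    rw [hmem]
    refine ⟨hbU, ?_⟩
    rw [if_pos (by simp), if_neg S.yb.symm, if_neg (Ne.symm hmb), if_neg hcon.1, if_neg hcon.2]
    exact odd_one
  have hM : m = n1 ∨ m = n2 := by
    by_contra hcon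
    push Not at hcon
    refine hno m hma hm0 ?_
    rw [hmem]
    refine ⟨hmU, ?_⟩
    rw [if_neg (by
      simp only [Finset.mem_insert, Finset.mem_singleton, not_or]
      exact ⟨hmy, hma, hmb, hm0⟩), if_neg hmy, if_pos rfl, if_neg hcon.1, if_neg hcon.2]
    exact odd_one
  have hN : ∀ v, (v = n1 ∨ v = n2) → v = b ∨ v = m := by
    intro v hv
    rcases hB with hB | hB <;> rcases hM with hM | hM <;> rcases hv with hv | hv
    · exact absurd (hM.trans hB.symm) hmb
    · exact absurd (hM.trans hB.symm) hmb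
    · exact Or.inl (hv.trans hB.symm)
    · exact Or.inr (hv.trans hM.symm)
    · exact Or.inr (hv.trans hM.symm)
    · exact Or.inl (hv.trans hB.symm)
    · exact absurd (hM.trans hB.symm) hmb
    · exact absurd (hM.trans hB.symm) hmb
  -- the separation in `H'`
  have hHp := S.hp_gr
  have hHpT := S.hp_tc hd
  have hHpS : ∀ x, x ∈ ((M.con {g2}).del {e, k}).S ↔ x ∈ M.S \ {e} ∧ x ≠ g2 ∧ x ≠ k := by
    exact fun x => Step4a_HpS x
  have hsepno : ∀ x ∈ ((M.con {g2}).del {e, k}).S, ∀ u ∈ ({n0', n0} : Finset V),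
      ∀ v ∈ (U.erase y) \ ({n0', b, n0, m} : Finset V),
      ¬ Jn (fun z => mg y b (h z)) (fun z => mg y b (t z)) x u v := by
    intro x hx u hu v hv hj
    rw [hHpS] at hx
    simp only [Finset.mem_sdiff, Finset.mem_insert, Finset.mem_singleton, not_or] at hv
    obtain ⟨-, hv1, hv2, hv3, hv4⟩ := hv
    rw [Finset.mem_insert, Finset.mem_singleton] at hu
    rcases hu with rfl | rfl
    · obtain ⟨w, hw1, hw2⟩ := Step4a_jmg S.ya.symm S.ab hj
      have h1 : x ∈ star (M.S \ {e}) h t u := Step4a_mem.2 ⟨hx.1, Step4a_jl hw1⟩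
      rw [hst] at h1
      simp only [Finset.mem_insert, Finset.mem_singleton] at h1
      rcases h1 with h1 | h1 | h1
      · have h2 : w = y := Step4a_juniq hw1 (h1 ▸ Step4a_jsymm S.j1)
        rw [h2, mg, if_pos rfl] at hw2
        exact hv2 hw2.symm
      · have h2 : w = m := Step4a_juniq hw1 (h1 ▸ jm)
        rw [h2, mg, if_neg hmy] at hw2
        exact hv4 hw2.symm
      · have h2 : w = n0 := Step4a_juniq hw1 (h1 ▸ j0)
        rw [h2, mg, if_neg S.yc.symm] at hw2
        exact hv3 hw2.symm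
    · obtain ⟨w, hw1, hw2⟩ := Step4a_jmg S.yc.symm S.bc.symm hj
      have h1 : x ∈ star (M.S \ {e}) h t u := Step4a_mem.2 ⟨hx.1, Step4a_jl hw1⟩
      rw [hcst] at h1
      simp only [Finset.mem_insert, Finset.mem_singleton] at h1
      have h3 : (w = n1 ∨ w = n2) → False := by
        intro h4
        rcases hN w h4 with h5 | h5
        · rw [h5, mg, if_neg S.yb.symm] at hw2
          exact hv2 hw2.symm
        · rw [h5, mg, if_neg hmy] at hw2
          exact hv4 hw2.symm
      rcases h1 with h1 | h1 | h1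
      · have h2 : w = n0' := Step4a_juniq hw1 (h1 ▸ j0')
        rw [h2, mg, if_neg S.ya.symm] at hw2
        exact hv1 hw2.symm
      · exact h3 (Or.inl (Step4a_juniq hw1 (h1 ▸ j1)))
      · exact h3 (Or.inr (Step4a_juniq hw1 (h1 ▸ j2)))
  have hYne : ((U.erase y) \ ({n0', b, n0, m} : Finset V)).Nonempty := by
    rw [Finset.nonempty_iff_ne_empty]
    intro h1
    rw [Finset.sdiff_eq_empty_iff_subset] at h1
    have h2 := Finset.card_le_card h1
    rw [Finset.card_erase_of_mem hyU] at h2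
    have h3 : ({n0', b, n0, m} : Finset V).card ≤ 4 := Finset.card_le_four
    omega
  have hsep := hHp.sep ({n0', n0} : Finset V) ((U.erase y) \ ({n0', b, n0, m} : Finset V))
    (by
      intro v hv
      rw [Finset.mem_insert, Finset.mem_singleton] at hv
      rw [Finset.mem_erase]
      rcases hv with rfl | rfl
      · exact ⟨S.ya.symm, haU⟩
      · exact ⟨S.yc.symm, hcU⟩)
    Finset.sdiff_subset
    (by
      rw [Finset.disjoint_left]
      intro v hv hv'
      simp only [Finset.mem_sdiff, Finset.mem_insert, Finset.mem_singleton, not_or] at hv hv'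
      rcases hv with hv | hv
      · exact hv'.2.1 hv
      · exact hv'.2.2.2.1 hv)
    (by simp) hYne hsepno
  have hcard : ((U.erase y) \ (({n0', n0} : Finset V) ∪
      ((U.erase y) \ ({n0', b, n0, m} : Finset V)))).card ≤ 2 := by
    have h1 : (U.erase y) \ (({n0', n0} : Finset V) ∪
        ((U.erase y) \ ({n0', b, n0, m} : Finset V))) ⊆ {b, m} := by
      intro v hv
      simp only [Finset.mem_sdiff, Finset.mem_union, Finset.mem_insert, Finset.mem_singleton,
        Finset.mem_erase] at hv ⊢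
      tauto
    exact le_trans (Finset.card_le_card h1) Finset.card_le_two
  have hlam : ((M.con {g2}).del {e, k}).lam (((M.con {g2}).del {e, k}).S.filter
      (fun x => mg y b (h x) ∈ ({n0', n0} : Finset V) ∨ mg y b (t x) ∈ ({n0', n0} : Finset V)))
      ≤ 1 := by
    omega
  have h1S : g1 ∈ M.S \ {e} := by
    have h1 : g1 ∈ star (M.S \ {e}) h t y := by rw [S.st]; simp
    exact (Step4a_mem.1 h1).1
  have n12' : g1 ≠ g2 := by
    intro h1
    exact S.ab (Step4a_juniq S.j1 (h1 ▸ S.j2))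
  have n1k : g1 ≠ k := by
    intro h1
    exact S.ad (Step4a_juniq S.j1 (h1 ▸ S.jk))
  rcases (hHpT.2 _ (Finset.filter_subset _ _)).2 hlam with h1 | h1
  · have h2 : ({g1, k2} : Finset E) ⊆ ((M.con {g2}).del {e, k}).S.filter
        (fun x => mg y b (h x) ∈ ({n0', n0} : Finset V) ∨
          mg y b (t x) ∈ ({n0', n0} : Finset V)) := by
      have hmga : mg y b n0' = n0' := if_neg S.ya.symm
      intro x hx
      rw [Finset.mem_insert, Finset.mem_singleton] at hx
      rw [Finset.mem_filter]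
      rcases hx with rfl | rfl
      · refine ⟨(hHpS _).2 ⟨h1S, n12', n1k⟩, ?_⟩
        rcases Step4a_jl (Step4a_jsymm S.j1) with h3 | h3
        · left
          rw [h3, hmga]
          simp
        · right
          rw [h3, hmga]
          simp
      · refine ⟨(hHpS _).2 ⟨hk, hk2, hkk⟩, ?_⟩
        rcases Step4a_jl j0 with h3 | h3
        · left
          rw [h3, hmga]
          simp
        · right
          rw [h3, hmga]
          simp
    have h3 := Finset.card_le_card h2
    rw [Finset.card_pair (Ne.symm hk1)] at h3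
    omega
  · obtain ⟨v, hv⟩ := hYne
    have hvU : v ∈ U.erase y := (Finset.mem_sdiff.1 hv).1
    have h2 := TC.three_le_deg hHpT hHp hvU
    have h3 : star ((M.con {g2}).del {e, k}).S (fun z => mg y b (h z)) (fun z => mg y b (t z)) v ⊆
        ((M.con {g2}).del {e, k}).S \ ((M.con {g2}).del {e, k}).S.filter
        (fun x => mg y b (h x) ∈ ({n0', n0} : Finset V) ∨
          mg y b (t x) ∈ ({n0', n0} : Finset V)) := by
      intro x hx
      rw [Step4a_mem] at hx
      rw [Finset.mem_sdiff, Finset.mem_filter]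
      refine ⟨hx.1, ?_⟩
      rintro ⟨-, h4⟩
      have hvX : v ∉ ({n0', n0} : Finset V) := by
        simp only [Finset.mem_sdiff, Finset.mem_insert, Finset.mem_singleton, not_or] at hv ⊢
        exact ⟨hv.2.1, hv.2.2.2.1⟩
      have hx2 : mg y b (h x) = v ∨ mg y b (t x) = v := hx.2
      rcases h4 with h4 | h4
      · rcases hx2 with h5 | h5
        · rw [h5] at h4
          exact hvX h4
        · exact hsepno x hx.1 _ h4 v hv (Or.inl ⟨rfl, h5⟩)
      · rcases hx2 with h5 | h5
        · exact hsepno x hx.1 _ h4 v hv (Or.inr ⟨h5, rfl⟩)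
        · rw [h5] at h4
          exact hvX h4
    have h4 := Finset.card_le_card h3
    omega

theorem SitI.Step4a_C (S : SitI rows M U h t e k g1 g2 y a b c d) (hcd : c ≠ d)
    (hd : 4 ≤ (star (M.S \ {e}) h t d).card) {k2 : E}
    (hk : k2 ∈ M.S \ {e}) (hkk : k2 ≠ k) (hk1 : k2 ≠ g1) (hk2 : k2 ≠ g2)
    (hsc : (M.del {e, k, k2}).SC)
    (hstc : (star ((M.del {k2}).S \ {e}) h t c).card = 2)
    (hsw : (swT ((M.del {k2}).S \ {e}) h t U {y, a, b, c} {c}).card ≤ 2) : False := by
  have haU : a ∈ U := S.gr.sub (by simp)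
  have hbU : b ∈ U := S.gr.sub (by simp)
  have hcU : c ∈ U := S.gr.sub (by simp)
  have hyU : y ∈ U := S.gr.sub (by simp)
  obtain ⟨x1, x2, n0, n1, n2, hcst, hcst', h12, hkx1, hkx2, j0, j1, j2, n12, n01, n02, n0s,
    n1s, n2s, n0U, n1U, n2U⟩ := Step4a_nb S.gr.gr S.tc hcU hstc
  have hx1S : x1 ∈ M.S \ {e} := by
    have h1 : x1 ∈ star (M.S \ {e}) h t c := by rw [hcst]; simp
    exact (Step4a_mem.1 h1).1
  have hx2S : x2 ∈ M.S \ {e} := by
    have h1 : x2 ∈ star (M.S \ {e}) h t c := by rw [hcst]; simp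
    exact (Step4a_mem.1 h1).1
  have hn1y : n1 ≠ y := by
    rintro rfl
    exact S.Step4a_yc hcd hx1S j1
  have hn2y : n2 ≠ y := by
    rintro rfl
    exact S.Step4a_yc hcd hx2S j2
  obtain ⟨hT1, hT2⟩ := Step4a_one S.gr.sub (by rw [S.Step4a_card]) hcst' h12 j1 j2 hsw
  simp only [Finset.mem_insert, Finset.mem_singleton] at hT1 hT2
  have hab1 : n1 = a ∨ n1 = b := by
    rcases hT1 with h1 | h1 | h1 | h1
    · exact absurd h1 hn1y
    · exact Or.inl h1
    · exact Or.inr h1
    · exact absurd h1 n1s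
  have hab2 : n2 = a ∨ n2 = b := by
    rcases hT2 with h1 | h1 | h1 | h1
    · exact absurd h1 hn2y
    · exact Or.inl h1
    · exact Or.inr h1
    · exact absurd h1 n2s
  have h1S : g1 ∈ M.S \ {e} := by
    have h1 : g1 ∈ star (M.S \ {e}) h t y := by rw [S.st]; simp
    exact (Step4a_mem.1 h1).1
  have h2S : g2 ∈ M.S \ {e} := by
    have h1 : g2 ∈ star (M.S \ {e}) h t y := by rw [S.st]; simp
    exact (Step4a_mem.1 h1).1
  have hkS : k ∈ M.S \ {e} := by
    have h1 : k ∈ star (M.S \ {e}) h t y := by rw [S.st]; simp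
    exact (Step4a_mem.1 h1).1
  have n12' : g1 ≠ g2 := by
    intro h1
    exact S.ab (Step4a_juniq S.j1 (h1 ▸ S.j2))
  have n1k : g1 ≠ k := by
    intro h1
    exact S.ad (Step4a_juniq S.j1 (h1 ▸ S.jk))
  have n2k : g2 ≠ k := by
    intro h1
    exact S.bd (Step4a_juniq S.j2 (h1 ▸ S.jk))
  have h1M : g1 ∈ M.S ∧ g1 ≠ e := by simpa using h1S
  have h2M : g2 ∈ M.S ∧ g2 ≠ e := by simpa using h2S
  have hkM : k ∈ M.S ∧ k ≠ e := by simpa using hkS
  have hk2M : k2 ∈ M.S ∧ k2 ≠ e := by simpa using hk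
  -- the graph `F`
  have hHp := S.hp_gr
  have hHpT := S.hp_tc hd
  have hHpS : ∀ x, x ∈ ((M.con {g2}).del {e, k}).S ↔ x ∈ M.S \ {e} ∧ x ≠ g2 ∧ x ≠ k := by
    exact fun x => Step4a_HpS x
  have hk2Hp : k2 ∈ ((M.con {g2}).del {e, k}).S := (hHpS _).2 ⟨hk, hk2, hkk⟩
  have hFeq : ((M.con {g2}).del {e, k}).del {k2} = (M.del {e, k, k2}).con {g2} := by
    rw [BM.del_del, BM.del_con]
    · congr 1
      ext x; simp
    · rw [Finset.disjoint_singleton_right]
      simp [h2M.2, n2k, Ne.symm hk2]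
  have hser : (M.del {e, k, k2}).Ser g2 g1 := by
    intro w hw
    rw [BM.mem_Z_del] at hw
    have hwH : w ∈ (M.del {e}).Z := by
      rw [BM.mem_Z_del]
      refine ⟨hw.1, ?_⟩
      intro x hx
      rw [Finset.mem_singleton] at hx
      rw [hx]
      exact hw.2 e (by simp)
    have h1 : ∑ x ∈ star (M.del {e}).S h t y, w x = 0 := by
      rw [← ind_dot]
      exact (M.del {e}).dot_eq_zero (S.gr.gr.star_mem hyU) hwH
    have h2 : star (M.del {e}).S h t y = {k, g1, g2} := S.st
    rw [h2, Finset.sum_insert (by simp [Ne.symm n1k, Ne.symm n2k]),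
      Finset.sum_insert (by simp [n12']), Finset.sum_singleton, hw.2 k (by simp), zero_add] at h1
    exact (z_add_eq_zero.1 h1).symm
  have hFgr := hHp.del hk2Hp (hHpT.exists_cycle hk2Hp)
  have hFsc : (((M.con {g2}).del {e, k}).del {k2}).SC := by
    rw [hFeq]
    refine (SC_con (M.del {e, k, k2}) hsc g2 g1 ?_ ?_ (Ne.symm n12') hser).1
    · show g2 ∈ M.S \ {e, k, k2}
      simp [h2M.1, h2M.2, n2k, Ne.symm hk2]
    · show g1 ∈ M.S \ {e, k, k2}
      simp [h1M.1, h1M.2, n1k, Ne.symm hk1]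
  have hFtwo : (((M.con {g2}).del {e, k}).del {k2}).Two := TC.del_two hHpT hk2Hp
  have hFS : ∀ x, x ∈ (((M.con {g2}).del {e, k}).del {k2}).S ↔
      x ∈ M.S \ {e} ∧ x ≠ g2 ∧ x ≠ k ∧ x ≠ k2 := by
    intro x
    show x ∈ ((M.con {g2}).del {e, k}).S \ {k2} ↔ _
    rw [Finset.mem_sdiff, hHpS, Finset.mem_singleton]
    tauto
  -- edges of `F` at `c`
  have hFc : ∀ x ∈ (((M.con {g2}).del {e, k}).del {k2}).S, ∀ v,
      Jn (fun z => mg y b (h z)) (fun z => mg y b (t z)) x c v →
      (x = x1 ∨ x = x2) ∧ (v = a ∨ v = b) := by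
    intro x hx v hj
    rw [hFS] at hx
    obtain ⟨w, hw1, hw2⟩ := Step4a_jmg S.yc.symm S.bc.symm hj
    have h1 : x ∈ star (M.S \ {e}) h t c := Step4a_mem.2 ⟨hx.1, Step4a_jl hw1⟩
    rw [hcst] at h1
    simp only [Finset.mem_insert, Finset.mem_singleton] at h1
    have hab : (w = a ∨ w = b) → (v = a ∨ v = b) := by
      rintro (h2 | h2)
      · rw [h2, mg, if_neg S.ya.symm] at hw2
        exact Or.inl hw2.symm
      · rw [h2, mg, if_neg S.yb.symm] at hw2
        exact Or.inr hw2.symm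
    rcases h1 with h1 | h1 | h1
    · exact absurd h1 hx.2.2.2
    · refine ⟨Or.inl h1, hab ?_⟩
      rw [Step4a_juniq hw1 (h1 ▸ j1)]
      exact hab1
    · refine ⟨Or.inr h1, hab ?_⟩
      rw [Step4a_juniq hw1 (h1 ▸ j2)]
      exact hab2
  have hne1 : ∀ x n, Jn h t x c n → (n = a ∨ n = b) → x ≠ g2 ∧ x ≠ k := by
    intro x n hj hn
    constructor
    · intro h1
      rcases Step4a_jor S.j2 (h1 ▸ Step4a_jl hj) with h2 | h2
      · exact S.yc h2.symm
      · exact S.bc h2.symm
    · intro h1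
      rcases Step4a_jor S.jk (h1 ▸ Step4a_jl hj) with h2 | h2
      · exact S.yc h2.symm
      · exact hcd h2
  have hmgc : mg y b c = c := if_neg S.yc.symm
  have hstarF : star (((M.con {g2}).del {e, k}).del {k2}).S (fun z => mg y b (h z))
      (fun z => mg y b (t z)) c = {x1, x2} := by
    ext x
    rw [Step4a_mem, Finset.mem_insert, Finset.mem_singleton]
    constructor
    · rintro ⟨h1, h2⟩
      obtain ⟨v, hv⟩ := Step4a_jex (h := fun z => mg y b (h z)) (t := fun z => mg y b (t z)) h2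
      exact (hFc x h1 v hv).1
    · rintro (rfl | rfl)
      · refine ⟨(hFS _).2 ⟨hx1S, (hne1 _ _ j1 hab1).1, (hne1 _ _ j1 hab1).2, Ne.symm hkx1⟩, ?_⟩
        rcases Step4a_jl j1 with h3 | h3
        · left
          show mg y b (h x) = c
          rw [h3, hmgc]
        · right
          show mg y b (t x) = c
          rw [h3, hmgc]
      · refine ⟨(hFS _).2 ⟨hx2S, (hne1 _ _ j2 hab2).1, (hne1 _ _ j2 hab2).2, Ne.symm hkx2⟩, ?_⟩
        rcases Step4a_jl j2 with h3 | h3
        · left
          show mg y b (h x) = c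
          rw [h3, hmgc]
        · right
          show mg y b (t x) = c
          rw [h3, hmgc]
  obtain ⟨p, q, u, w, hp, hq, -, -, hju, hjw, -, -, huw, -, -, -, -, hnox, -⟩ :=
    hFgr.deg2 hFsc hFtwo (s := c) (Finset.mem_erase.2 ⟨S.yc.symm, hcU⟩)
      (by rw [hstarF]; exact Finset.card_pair h12)
  have hu := (hFc p hp u hju).2
  have hw := (hFc q hq w hjw).2
  have hgF : g1 ∈ (((M.con {g2}).del {e, k}).del {k2}).S :=
    (hFS _).2 ⟨h1S, n12', n1k, Ne.symm hk1⟩
  have hgj : Jn (fun z => mg y b (h z)) (fun z => mg y b (t z)) g1 a b := by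
    have ha : mg y b a = a := if_neg S.ya.symm
    have hb : mg y b y = b := if_pos rfl
    rcases S.j1 with ⟨p, q⟩ | ⟨p, q⟩
    · right
      show mg y b (h g1) = b ∧ mg y b (t g1) = a
      rw [p, q]
      exact ⟨hb, ha⟩
    · left
      show mg y b (h g1) = a ∧ mg y b (t g1) = b
      rw [p, q]
      exact ⟨ha, hb⟩
  rcases hu with hu | hu <;> rcases hw with hw | hw
  · exact huw (hu.trans hw.symm)
  · subst hu
    subst hw
    exact hnox g1 hgF hgj
  · subst hu
    subst hw
    exact hnox g1 hgF (Step4a_jsymm hgj)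
  · exact huw (hu.trans hw.symm)

theorem SitI.step4_a (h0 : (ofRows rows).TC) (S : SitI rows M U h t e k g1 g2 y a b c d)
    (hcd : c ≠ d) (hd : 4 ≤ (star (M.S \ {e}) h t d).card) (hU : 6 ≤ U.card) {k2 : E}
    (hk : k2 ∈ M.S) (hke : k2 ≠ e) (hkk : k2 ≠ k) (hk1 : k2 ≠ g1) (hk2 : k2 ≠ g2)
    (hsc : (M.del {e, k, k2}).SC) (hT : HasT rows (M.del {e, k, k2}))
    (hsc' : (M.del {e, k2}).SC) :
    (∃ (xc : E) (q : V), star (M.S \ {e}) h t a = {g1, xc, k2} ∧ Jn h t xc a c ∧ Jn h t k2 a q) ∨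
      (∃ (xc : E) (q : V), star (M.S \ {e}) h t b = {g2, xc, k2} ∧ Jn h t xc b c ∧
        Jn h t k2 b q) := by
  have hkS : k2 ∈ M.S \ {e} :=
    Finset.mem_sdiff.2 ⟨hk, fun h1 => hke (Finset.mem_singleton.1 h1)⟩
  have hset : ({e, k2} : Finset E) = {k2, e} := Finset.pair_comm _ _
  have hNe : (M.del {k2}).del {e} = M.del {e, k2} := by
    rw [BM.del_del]
    congr 1
    ext x; simp; tauto
  have hNe' : (M.del {e}).del {k2} = M.del {e, k2} := by
    rw [BM.del_del]
    congr 1
  have hNg : IsGraft (M.del {k2}) e U h t {y, a, b, c} :=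
    S.gr.del hk hke (BM.TC.exists_cycle S.tc hkS)
  have hNsc : ((M.del {k2}).del {e}).SC := by
    rw [hNe]
    exact hsc'
  have hNtwo : ((M.del {k2}).del {e}).Two := by
    rw [hNe, ← hNe']
    exact TC.del_two S.tc hkS
  have hNT : HasT rows ((M.del {k2}).del {e}) := by
    rw [hNe]
    refine HasT_of_del (D := {k}) ?_
    have h1 : (M.del {e, k2}).del {k} = M.del {e, k, k2} := by
      rw [BM.del_del]
      congr 1
      ext x; simp; tauto
    rw [h1]
    exact hT
  have hcard : (M.del {k2}).S.card < M.S.card := by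
    apply Finset.card_lt_card
    refine ⟨Finset.sdiff_subset, ?_⟩
    intro h1
    have h2 := h1 hk
    change k2 ∈ M.S \ {k2} at h2
    simp at h2
  have hNG : Graphic (M.del {k2}) :=
    S.cx.graft_graphic h0 (M.del {k2}) (Minor_del M {k2}) hcard hNg hNsc hNtwo hNT
  obtain ⟨SS, hSS, hdeg, hsw⟩ := crit hNg hNsc hNtwo hNG
  have hTU : ({y, a, b, c} : Finset V) ⊆ U := S.gr.sub
  -- `k2` is at each vertex of `SS`
  have hk2s : ∀ s ∈ SS, h k2 = s ∨ t k2 = s := by
    intro s hs
    obtain ⟨x1, x2, n0, n1, n2, hst, -⟩ := Step4a_nb S.gr.gr S.tc (hTU (hSS hs)) (hdeg s hs)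
    have h1 : k2 ∈ star (M.S \ {e}) h t s := by rw [hst]; simp
    exact (Step4a_mem.1 h1).2
  have hyS : y ∉ SS := by
    intro h1
    have h2 : k2 ∈ star (M.S \ {e}) h t y := Step4a_mem.2 ⟨hkS, hk2s y h1⟩
    rw [S.st] at h2
    simp only [Finset.mem_insert, Finset.mem_singleton] at h2
    rcases h2 with h2 | h2 | h2
    · exact hkk h2
    · exact hk1 h2
    · exact hk2 h2
  have hmemS : ∀ s ∈ SS, s = a ∨ s = b ∨ s = c := by
    intro s hs
    have h1 := hSS hs
    simp only [Finset.mem_insert, Finset.mem_singleton] at h1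
    rcases h1 with h1 | h1
    · rw [h1] at hs
      exact absurd hs hyS
    · exact h1
  have habS : ¬ (a ∈ SS ∧ b ∈ SS) := by
    rintro ⟨h1, h2⟩
    have h3 := hk2s a h1
    have h4 := hk2s b h2
    refine S.Step4a_par hd hkS ?_
    rcases h3 with h3 | h3 <;> rcases h4 with h4 | h4
    · exact absurd (h3.symm.trans h4) S.ab
    · exact Or.inl ⟨h3, h4⟩
    · exact Or.inr ⟨h4, h3⟩
    · exact absurd (h3.symm.trans h4) S.ab
  have hT' : ({y, b, a, c} : Finset V) = {y, a, b, c} := by
    rw [Finset.insert_comm b a]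
  by_cases hcS : c ∈ SS
  · exfalso
    by_cases haS : a ∈ SS
    · have h1 : SS = {a, c} := by
        ext s
        rw [Finset.mem_insert, Finset.mem_singleton]
        constructor
        · intro hs
          rcases hmemS s hs with h1 | h1 | h1
          · exact Or.inl h1
          · rw [h1] at hs
            exact absurd ⟨haS, hs⟩ habS
          · exact Or.inr h1
        · rintro (rfl | rfl)
          · exact haS
          · exact hcS
      rw [h1] at hsw
      exact S.Step4a_AC hcd hd hU hkS hkk hk1 hk2 (hdeg a haS) (hdeg c hcS) hsw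
    · by_cases hbS : b ∈ SS
      · have h1 : SS = {b, c} := by
          ext s
          rw [Finset.mem_insert, Finset.mem_singleton]
          constructor
          · intro hs
            rcases hmemS s hs with h1 | h1 | h1
            · rw [h1] at hs
              exact absurd hs haS
            · exact Or.inl h1
            · exact Or.inr h1
          · rintro (rfl | rfl)
            · exact hbS
            · exact hcS
        rw [h1, ← hT'] at hsw
        exact S.symm_ab.Step4a_AC hcd hd hU hkS hkk hk2 hk1 (hdeg b hbS) (hdeg c hcS) hsw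
      · have h1 : SS = {c} := by
          ext s
          rw [Finset.mem_singleton]
          constructor
          · intro hs
            rcases hmemS s hs with h1 | h1 | h1
            · rw [h1] at hs
              exact absurd hs haS
            · rw [h1] at hs
              exact absurd hs hbS
            · exact h1
          · rintro rfl
            exact hcS
        rw [h1] at hsw
        exact S.Step4a_C hcd hd hkS hkk hk1 hk2 hsc (hdeg c hcS) hsw
  · by_cases haS : a ∈ SS
    · left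
      have h1 : SS = {a} := by
        ext s
        rw [Finset.mem_singleton]
        constructor
        · intro hs
          rcases hmemS s hs with h1 | h1 | h1
          · exact h1
          · rw [h1] at hs
            exact absurd ⟨haS, hs⟩ habS
          · rw [h1] at hs
            exact absurd hs hcS
        · rintro rfl
          exact haS
      rw [h1] at hsw
      exact S.Step4a_A hd hk1 (hdeg a haS) hsw
    · by_cases hbS : b ∈ SS
      · right
        have h1 : SS = {b} := by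
          ext s
          rw [Finset.mem_singleton]
          constructor
          · intro hs
            rcases hmemS s hs with h1 | h1 | h1
            · rw [h1] at hs
              exact absurd hs haS
            · exact h1
            · rw [h1] at hs
              exact absurd hs hcS
          · rintro rfl
            exact hbS
        rw [h1, ← hT'] at hsw
        exact S.symm_ab.Step4a_A hd hk2 (hdeg b hbS) hsw
      · exfalso
        have h1 : SS = ∅ := by
          rw [Finset.eq_empty_iff_forall_notMem]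
          intro s hs
          rcases hmemS s hs with h1 | h1 | h1
          · rw [h1] at hs
            exact haS hs
          · rw [h1] at hs
            exact hbS hs
          · rw [h1] at hs
            exact hcS hs
        have h2 : swT ((M.del {k2}).S \ {e}) h t U {y, a, b, c} ∅ = {y, a, b, c} := by
          ext v
          simp only [swT, Finset.mem_filter, Finset.sum_empty, add_zero]
          constructor
          · rintro ⟨-, hodd⟩
            by_contra hv
            rw [if_neg hv] at hodd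
            exact absurd hodd (by decide)
          · intro hv
            refine ⟨hTU hv, ?_⟩
            rw [if_pos hv]
            exact odd_one
        rw [h1, h2, S.Step4a_card] at hsw
        omega

end SEY

end
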