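import Pool.Agent.Helper29.MFA.T26
import Pool.Agent.Helper29.MFA.T25

section

/-!
T3-SitD.
* `SitI.deg_d`: deg_H(d) >= 4.  deg >= 3 by `TC.three_le_deg`.  Suppose star d = {k, x1, x2}, x_i joins d w_i.
  Claim w_i in {a,b}.  Suppose w_1 not in {a,b}.  Contract x1, merging d into w1: in H del k, d has degree 2 with star {x1,x2}; (M.con
  {x1}).del {e,k} is SC, Two (`con_two`), HasT (`HasT_con`).  Add k = (y,w1): `gext`: not parallel: the
  other edges at y are g1, g2 to a, b /= w1.  No vertex s /= y, w1 of degree 2 (those of H del k are y, d only).  So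
  (M.con {x1}).del {e} is SC, Two; degrees >= 3: y has k,g1,g2 again, others unchanged or larger
  (w1 gets deg(w1) + 1 - ... : w1 had degree >= 3, loses x1 and k is moved to it, gains x2: fine): TC.
  T = {y,a,b,c}, d not in T (d /= y,a,b and d /= c by the first part): `IsGraft.con` gives T itself (if w1 = c too); 4 elements:
  `MinCx.false_of_graft`.  So w1, w2 in {a,b}, w1 /= w2.  Then {y,d} has all neighbours in {a,b}: `IsGr.sep` with X = {y,d}, Y = U -
  {y,d,a,b} (contains c): the set A of the 5 edges at y or d has lam(A) <= 1, the complement contains the >= 3 edges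
  at c (none of them is at y or d), contradiction to TC.
-/

namespace SEY

open Finset

variable {E : Type} [Fintype E] [DecidableEq E] {V : Type} [Fintype V] [DecidableEq V]
variable {r l : ℕ} {rows : Fin r → Fin l → ZMod 2} {M : BM E} {U : Finset V} {h t : E → V}
  {e k g1 g2 : E} {y a b c d : V}

omit [Fintype E] [DecidableEq E] [Fintype V] in
private lemma sitD_mem_star (S : Finset E) (h t : E → V) (v : V) (x : E) :
    x ∈ star S h t v ↔ x ∈ S ∧ (h x = v ∨ t x = v) := Finset.mem_filter

omit [Fintype E] [DecidableEq E] [Fintype V] [DecidableEq V] in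
private lemma sitD_Jn_end {h t : E → V} {x : E} {u v w : V} (hj : Jn h t x u v)
    (hw : h x = w ∨ t x = w) : w = u ∨ w = v := by
  rcases hj with ⟨q1, q2⟩ | ⟨q1, q2⟩ <;> rcases hw with hw | hw
  · exact Or.inl (hw.symm.trans q1)
  · exact Or.inr (hw.symm.trans q2)
  · exact Or.inr (hw.symm.trans q1)
  · exact Or.inl (hw.symm.trans q2)

omit [Fintype E] [DecidableEq E] [Fintype V] [DecidableEq V] in
private lemma sitD_Jn_left {h t : E → V} {x : E} {u v : V} (hj : Jn h t x u v) :
    h x = u ∨ t x = u := by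
  rcases hj with ⟨q1, _⟩ | ⟨_, q2⟩
  · exact Or.inl q1
  · exact Or.inr q2

omit [Fintype E] [DecidableEq E] [Fintype V] [DecidableEq V] in
private lemma sitD_Jn_right {h t : E → V} {x : E} {u v : V} (hj : Jn h t x u v) :
    h x = v ∨ t x = v := by
  rcases hj with ⟨_, q2⟩ | ⟨q1, _⟩
  · exact Or.inr q2
  · exact Or.inl q1

omit [Fintype V] in
private lemma sitD_mg_ne {u v w s : V} (hs : s ≠ v) (hm : mg u v w = s) : w = s := by
  unfold mg at hm
  by_cases hw : w = u
  · rw [if_pos hw] at hm
    exact absurd hm.symm hs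
  · rwa [if_neg hw] at hm

omit [Fintype V] in
private lemma sitD_mg_of_ne {u v w : V} (hw : w ≠ u) : mg u v w = w := if_neg hw

omit [Fintype V] in
private lemma sitD_mg_self (u v : V) : mg u v u = v := if_pos rfl

private lemma sitD_key (h0 : (ofRows rows).TC) (S : SitI rows M U h t e k g1 g2 y a b c d)
    (hcd : c ≠ d) {x1 x2 : E} {w : V} (hst : star (M.S \ {e}) h t d = {k, x1, x2})
    (h12 : x1 ≠ x2) (h1k : x1 ≠ k) (h2k : x2 ≠ k) (hj : Jn h t x1 d w) (hwa : w ≠ a)
    (hwb : w ≠ b) : False := by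
  have hya := S.ya
  have hyb := S.yb
  have hyc := S.yc
  have hyd := S.yd
  have hab := S.ab
  have hac := S.ac
  have hbc := S.bc
  have had := S.ad
  have hbd := S.bd
  have heS : e ∈ M.S := S.gr.mem
  have hkst : k ∈ star (M.S \ {e}) h t y := by rw [S.st]; simp
  have hg1st : g1 ∈ star (M.S \ {e}) h t y := by rw [S.st]; simp
  have hg2st : g2 ∈ star (M.S \ {e}) h t y := by rw [S.st]; simp
  have hx1st : x1 ∈ star (M.S \ {e}) h t d := by rw [hst]; simp
  have hx2st : x2 ∈ star (M.S \ {e}) h t d := by rw [hst]; simp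
  have hkS : k ∈ M.S \ {e} := ((sitD_mem_star _ _ _ _ _).1 hkst).1
  have hg1S : g1 ∈ M.S \ {e} := ((sitD_mem_star _ _ _ _ _).1 hg1st).1
  have hg2S : g2 ∈ M.S \ {e} := ((sitD_mem_star _ _ _ _ _).1 hg2st).1
  have hx1S : x1 ∈ M.S \ {e} := ((sitD_mem_star _ _ _ _ _).1 hx1st).1
  have hx2S : x2 ∈ M.S \ {e} := ((sitD_mem_star _ _ _ _ _).1 hx2st).1
  have hHsc : (M.del {e}).SC := ((TC_iff_SC _).1 S.tc).1
  have hends := S.gr.gr.ends
  have hwd : w ≠ d := by
    rintro rfl
    have h3 := (hends x1 hx1S).2.2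
    rcases hj with ⟨q1, q2⟩ | ⟨q1, q2⟩
    · exact h3 (q1.trans q2.symm)
    · exact h3 (q1.trans q2.symm)
  have hwy : w ≠ y := by
    rintro rfl
    have hj' : Jn h t k d w := by
      rcases S.jk with ⟨q1, q2⟩ | ⟨q1, q2⟩
      · exact Or.inr ⟨q1, q2⟩
      · exact Or.inl ⟨q1, q2⟩
    exact h1k (S.gr.gr.no_par hHsc hx1S hkS hj hj')
  have hx1g1 : g1 ≠ x1 := by
    rintro rfl
    rcases sitD_Jn_end hj (sitD_Jn_left S.j1) with q | q
    · exact hyd q
    · exact hwy q.symm
  have hx1g2 : g2 ≠ x1 := by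
    rintro rfl
    rcases sitD_Jn_end hj (sitD_Jn_left S.j2) with q | q
    · exact hyd q
    · exact hwy q.symm
  have hg1k : g1 ≠ k := by
    rintro rfl
    rcases sitD_Jn_end S.j1 (sitD_Jn_right S.jk) with q | q
    · exact hyd q.symm
    · exact had q.symm
  have hg2k : g2 ≠ k := by
    rintro rfl
    rcases sitD_Jn_end S.j2 (sitD_Jn_right S.jk) with q | q
    · exact hyd q.symm
    · exact hbd q.symm
  have hg12 : g1 ≠ g2 := by
    rintro rfl
    rcases sitD_Jn_end S.j1 (sitD_Jn_right S.j2) with q | q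
    · exact hyb q.symm
    · exact hab q.symm
  rw [Finset.mem_sdiff, Finset.mem_singleton] at hkS hg1S hg2S hx1S hx2S
  have hdU : d ∈ U := by
    have h3 := hends k (by simp [hkS.1, hkS.2])
    rcases S.jk with ⟨q1, q2⟩ | ⟨q1, q2⟩
    · rw [← q2]; exact h3.2.1
    · rw [← q1]; exact h3.1
  -- the graph `H0 = M.del {e, k}`
  have hdd : (M.del {e}).del {k} = M.del {e, k} := by
    rw [del_del]
    congr 1
  have hkS' : k ∈ (M.del {e}).S := by
    show k ∈ M.S \ {e}
    simp [hkS.1, hkS.2]
  have hgr0 : IsGr (M.del {e, k}) U h t := by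
    rw [← hdd]
    exact S.gr.gr.del hkS' (BM.TC.exists_cycle S.tc hkS')
  have htwo0 : (M.del {e, k}).Two := by
    rw [← hdd]
    exact TC.del_two S.tc hkS'
  have hx1H : x1 ∈ (M.del {e, k}).S := by
    show x1 ∈ M.S \ {e, k}
    simp [hx1S.1, hx1S.2, h1k]
  have hx2H : x2 ∈ (M.del {e, k}).S := by
    show x2 ∈ M.S \ {e, k}
    simp [hx2S.1, hx2S.2, h2k]
  have hst0 : star (M.del {e, k}).S h t d = {x2, x1} := by
    show star (M.S \ {e, k}) h t d = {x2, x1}
    ext x
    have h3 : x ∈ star (M.S \ {e}) h t d ↔ x ∈ ({k, x1, x2} : Finset E) := by rw [hst]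
    rw [sitD_mem_star] at h3
    rw [sitD_mem_star]
    simp only [Finset.mem_sdiff, Finset.mem_insert, Finset.mem_singleton] at h3 ⊢
    constructor
    · rintro ⟨⟨hx, hx2⟩, hx3⟩
      rw [not_or] at hx2
      rcases h3.1 ⟨⟨hx, hx2.1⟩, hx3⟩ with h4 | h4 | h4
      · exact absurd h4 hx2.2
      · exact Or.inr h4
      · exact Or.inl h4
    · intro h4
      have h5 : (x ∈ M.S ∧ ¬x = e) ∧ (h x = d ∨ t x = d) := h3.2 (by tauto)
      refine ⟨⟨h5.1.1, ?_⟩, h5.2⟩
      rintro (h6 | h6)
      · exact h5.1.2 h6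
      · rcases h4 with h4 | h4
        · exact h2k (h4.symm.trans h6)
        · exact h1k (h4.symm.trans h6)
  have hser : (M.del {e, k}).Ser x1 x2 :=
    (hgr0.star2 S.sc htwo0 hx1H hx2H h12).2 ⟨d, hdU, by rw [hst0, Finset.pair_comm]⟩
  have hcon := con_two hgr0 hdU hst0 h12.symm S.sc htwo0
  have hTcon : HasT rows ((M.del {e, k}).con {x1}) := HasT_con h0 hx1H hx2H h12 hser S.hasT
  have hcard : 4 ≤ M.S.card := S.cx.tc.1
  -- no parallel edges to `x1`
  have hnop : ∀ x ∈ M.S, x ≠ e → x ≠ x1 → ¬ Jn h t x d w := by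
    intro x hx hxe hxx hjx
    exact hxx (S.gr.gr.no_par hHsc (by show x ∈ M.S \ {e}; simp [hx, hxe])
      (by show x1 ∈ M.S \ {e}; simp [hx1S.1, hx1S.2]) hjx hj)
  have hgraft0 := S.gr.con hx1S.1 hx1S.2 hj hnop (by (clear * - hcard; omega))
  have hdT : d ∉ ({y, a, b, c} : Finset V) := by
    simp [hyd.symm, had.symm, hbd.symm, hcd.symm]
  rw [if_neg hdT] at hgraft0
  have hgN : IsGr ((M.con {x1}).del {e}) (U.erase d) (fun z => mg d w (h z))
      (fun z => mg d w (t z)) := hgraft0.gr
  -- deleting `k`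
  have hNk : ((M.con {x1}).del {e}).del {k} = (M.del {e, k}).con {x1} := by
    rw [del_del, con_del_comm M {x1} {e, k}]
    · rfl
    · rw [Finset.disjoint_singleton_left]
      simp [hx1S.2, h1k]
  have hkN : k ∈ ((M.con {x1}).del {e}).S := by
    show k ∈ (M.S \ {x1}) \ {e}
    simp [hkS.1, hkS.2, h1k.symm]
  have hgNk : IsGr (((M.con {x1}).del {e}).del {k}) (U.erase d) (fun z => mg d w (h z))
      (fun z => mg d w (t z)) := by
    rw [hNk]
    refine hgr0.con hx1H hj ?_ ?_
    · intro x hx hxx hjx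
      have hx' : x ∈ M.S \ {e, k} := hx
      rw [Finset.mem_sdiff, Finset.mem_insert, Finset.mem_singleton, not_or] at hx'
      exact hnop x hx'.1 hx'.2.1 hxx hjx
    · have h5 : ({x1, x2} : Finset E) ⊆ (M.del {e, k}).S := by
        intro x hx
        rw [Finset.mem_insert, Finset.mem_singleton] at hx
        rcases hx with rfl | rfl
        · exact hx1H
        · exact hx2H
      have h6 := Finset.card_le_card h5
      rw [Finset.card_pair h12] at h6
      exact h6
  have hscNk : (((M.con {x1}).del {e}).del {k}).SC := by rw [hNk]; exact hcon.1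
  have htwoNk : (((M.con {x1}).del {e}).del {k}).Two := by rw [hNk]; exact hcon.2
  -- edges at `y`
  have hxy : ∀ x ∈ M.S, x ≠ e → x ≠ k → (h x = y ∨ t x = y) → x = g1 ∨ x = g2 := by
    intro x hx h1 h2 h5
    have h6 : x ∈ star (M.S \ {e}) h t y := by
      rw [sitD_mem_star, Finset.mem_sdiff, Finset.mem_singleton]
      exact ⟨⟨hx, h1⟩, h5⟩
    rw [S.st, Finset.mem_insert, Finset.mem_insert, Finset.mem_singleton] at h6
    exact h6.resolve_left h2
  -- degrees
  have hdegs : ∀ s ∈ U, s ≠ d → s ≠ w → s ≠ y →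
      3 ≤ (star (M.S \ {e, k, x1}) (fun z => mg d w (h z)) (fun z => mg d w (t z)) s).card := by
    intro s hs hsd hsw hsy
    have h3 : 3 ≤ (star (M.S \ {e}) h t s).card := TC.three_le_deg S.tc S.gr.gr hs
    refine h3.trans (Finset.card_le_card ?_)
    intro x hx
    rw [sitD_mem_star, Finset.mem_sdiff, Finset.mem_singleton] at hx
    rw [sitD_mem_star, Finset.mem_sdiff, Finset.mem_insert, Finset.mem_insert,
      Finset.mem_singleton]
    refine ⟨⟨hx.1.1, ?_⟩, ?_⟩
    · rintro (h4 | h4 | h4)
      · exact hx.1.2 h4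
      · subst h4
        rcases sitD_Jn_end S.jk hx.2 with q | q
        · exact hsy q
        · exact hsd q
      · subst h4
        rcases sitD_Jn_end hj hx.2 with q | q
        · exact hsd q
        · exact hsw q
    · rcases hx.2 with q | q
      · left
        show mg d w (h x) = s
        rw [q, sitD_mg_of_ne hsd]
      · right
        show mg d w (t x) = s
        rw [q, sitD_mg_of_ne hsd]
  have hjk' : Jn (fun z => mg d w (h z)) (fun z => mg d w (t z)) k y w := by
    rcases S.jk with ⟨q1, q2⟩ | ⟨q1, q2⟩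
    · left
      constructor
      · show mg d w (h k) = y
        rw [q1, sitD_mg_of_ne hyd]
      · show mg d w (t k) = w
        rw [q2, sitD_mg_self]
    · right
      constructor
      · show mg d w (h k) = w
        rw [q1, sitD_mg_self]
      · show mg d w (t k) = y
        rw [q2, sitD_mg_of_ne hyd]
  have hgx := gext hkN hgN hgNk hscNk htwoNk hjk' (by
      intro x hx hxk hjx
      have hx' : x ∈ (M.S \ {x1}) \ {e} := hx
      rw [Finset.mem_sdiff, Finset.mem_sdiff, Finset.mem_singleton, Finset.mem_singleton] at hx'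
      have hy1 : h x = y ∨ t x = y := by
        rcases sitD_Jn_left hjx with q | q
        · exact Or.inl (sitD_mg_ne hwy.symm q)
        · exact Or.inr (sitD_mg_ne hwy.symm q)
      have hw1 : mg d w (h x) = w ∨ mg d w (t x) = w := sitD_Jn_right hjx
      rcases hxy x hx'.1.1 hx'.2 hxk hy1 with h4 | h4
      · subst h4
        rcases S.j1 with ⟨q1, q2⟩ | ⟨q1, q2⟩
        · rw [q1, q2, sitD_mg_of_ne hyd, sitD_mg_of_ne had] at hw1
          exact hw1.elim (fun q => hwy q.symm) (fun q => hwa q.symm)
        · rw [q1, q2, sitD_mg_of_ne hyd, sitD_mg_of_ne had] at hw1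
          exact hw1.elim (fun q => hwa q.symm) (fun q => hwy q.symm)
      · subst h4
        rcases S.j2 with ⟨q1, q2⟩ | ⟨q1, q2⟩
        · rw [q1, q2, sitD_mg_of_ne hyd, sitD_mg_of_ne hbd] at hw1
          exact hw1.elim (fun q => hwy q.symm) (fun q => hwb q.symm)
        · rw [q1, q2, sitD_mg_of_ne hyd, sitD_mg_of_ne hbd] at hw1
          exact hw1.elim (fun q => hwb q.symm) (fun q => hwy q.symm)) (by
      intro s hs hsy hsw p _ q _ hst' _ _
      have hs' := Finset.mem_erase.1 hs
      have h3 := hdegs s hs'.2 hs'.1 hsw hsy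
      have h4 : ((M.con {x1}).del {e}).S \ {k} = M.S \ {e, k, x1} := by
        show ((M.S \ {x1}) \ {e}) \ {k} = M.S \ {e, k, x1}
        ext x
        simp only [Finset.mem_sdiff, Finset.mem_singleton, Finset.mem_insert]
        tauto
      rw [← h4, hst'] at h3
      have h5 := Finset.card_le_two (a := p) (b := q)
      omega)
  have htc : ((M.con {x1}).del {e}).TC := by
    refine hgN.tc_of_deg hgx.1 hgx.2 ?_
    intro v hv
    have hv' := Finset.mem_erase.1 hv
    show 3 ≤ (star ((M.S \ {x1}) \ {e}) (fun z => mg d w (h z)) (fun z => mg d w (t z)) v).card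
    by_cases hvy : v = y
    · subst hvy
      have h5 : ({k, g1, g2} : Finset E) ⊆
          star ((M.S \ {x1}) \ {e}) (fun z => mg d w (h z)) (fun z => mg d w (t z)) v := by
        have aux : ∀ x, x ∈ M.S → x ≠ e → x ≠ x1 → (h x = v ∨ t x = v) →
            x ∈ star ((M.S \ {x1}) \ {e}) (fun z => mg d w (h z)) (fun z => mg d w (t z)) v := by
          intro x hx1 hx2 hx3 hx4
          rw [sitD_mem_star, Finset.mem_sdiff, Finset.mem_sdiff, Finset.mem_singleton,
            Finset.mem_singleton]
          refine ⟨⟨⟨hx1, hx3⟩, hx2⟩, ?_⟩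
          rcases hx4 with q | q
          · left
            show mg d w (h x) = v
            rw [q, sitD_mg_of_ne hyd]
          · right
            show mg d w (t x) = v
            rw [q, sitD_mg_of_ne hyd]
        intro x hx
        rw [Finset.mem_insert, Finset.mem_insert, Finset.mem_singleton] at hx
        rcases hx with rfl | rfl | rfl
        · exact aux _ hkS.1 hkS.2 h1k.symm (sitD_Jn_left S.jk)
        · exact aux _ hg1S.1 hg1S.2 hx1g1 (sitD_Jn_left S.j1)
        · exact aux _ hg2S.1 hg2S.2 hx1g2 (sitD_Jn_left S.j2)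
      have h6 := Finset.card_le_card h5
      rw [Finset.card_insert_of_notMem (by simp [hg1k.symm, hg2k.symm]),
        Finset.card_pair hg12] at h6
      exact h6
    · by_cases hvw : v = w
      · subst hvw
        have h3 : 3 ≤ (star (M.S \ {e}) h t v).card := TC.three_le_deg S.tc S.gr.gr hv'.2
        have h5 : insert k ((star (M.S \ {e}) h t v).erase x1) ⊆
            star ((M.S \ {x1}) \ {e}) (fun z => mg d v (h z)) (fun z => mg d v (t z)) v := by
          intro x hx
          rw [Finset.mem_insert, Finset.mem_erase, sitD_mem_star, Finset.mem_sdiff,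
            Finset.mem_singleton] at hx
          rw [sitD_mem_star, Finset.mem_sdiff, Finset.mem_sdiff, Finset.mem_singleton,
            Finset.mem_singleton]
          rcases hx with rfl | hx
          · exact ⟨⟨⟨hkS.1, h1k.symm⟩, hkS.2⟩, sitD_Jn_right hjk'⟩
          · refine ⟨⟨⟨hx.2.1.1, hx.1⟩, hx.2.1.2⟩, ?_⟩
            rcases hx.2.2 with q | q
            · left
              show mg d v (h x) = v
              rw [q, sitD_mg_of_ne hwd]
            · right
              show mg d v (t x) = v
              rw [q, sitD_mg_of_ne hwd]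
        have h6 := Finset.card_le_card h5
        have hknot : k ∉ (star (M.S \ {e}) h t v).erase x1 := by
          intro hk'
          have h7 := (sitD_mem_star _ _ _ _ _).1 (Finset.mem_erase.1 hk').2
          rcases sitD_Jn_end S.jk h7.2 with q | q
          · exact hwy q
          · exact hwd q
        rw [Finset.card_insert_of_notMem hknot] at h6
        have h8 := Finset.pred_card_le_card_erase (s := star (M.S \ {e}) h t v) (a := x1)
        omega
      · refine (hdegs v hv'.2 hv'.1 hvw hvy).trans (Finset.card_le_card ?_)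
        intro x hx
        rw [sitD_mem_star, Finset.mem_sdiff, Finset.mem_insert, Finset.mem_insert,
          Finset.mem_singleton] at hx
        rw [sitD_mem_star, Finset.mem_sdiff, Finset.mem_sdiff, Finset.mem_singleton,
          Finset.mem_singleton]
        exact ⟨⟨⟨hx.1.1, fun q => hx.1.2 (Or.inr (Or.inr q))⟩, fun q => hx.1.2 (Or.inl q)⟩, hx.2⟩
  have hT : HasT rows ((M.con {x1}).del {e}) := by
    refine HasT_of_del (D := {k}) ?_
    rw [hNk]
    exact hTcon
  have hlt : (M.con {x1}).S.card < M.S.card := by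
    show (M.S \ {x1}).card < M.S.card
    refine Finset.card_lt_card (Finset.ssubset_iff_subset_ne.2 ⟨Finset.sdiff_subset, ?_⟩)
    intro heq
    have h1 : x1 ∈ M.S \ {x1} := by rw [heq]; exact hx1S.1
    exact (Finset.mem_sdiff.1 h1).2 (Finset.mem_singleton_self x1)
  have h4 : 4 ≤ ({y, a, b, c} : Finset V).card := by
    rw [Finset.card_insert_of_notMem (by simp [hya, hyb, hyc]),
      Finset.card_insert_of_notMem (by simp [hab, hac]), Finset.card_pair hbc]
  exact S.cx.false_of_graft h0 (M.con {x1}) (Minor_con M {x1}) hlt hgraft0 htc hT h4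

theorem SitI.deg_d (h0 : (ofRows rows).TC) (S : SitI rows M U h t e k g1 g2 y a b c d)
    (hcd : c ≠ d) : 4 ≤ (star (M.S \ {e}) h t d).card := by
  by_contra hlt
  have hya := S.ya
  have hyb := S.yb
  have hyc := S.yc
  have hyd := S.yd
  have hab := S.ab
  have hac := S.ac
  have hbc := S.bc
  have had := S.ad
  have hbd := S.bd
  have hends := S.gr.gr.ends
  have hkst : k ∈ star (M.S \ {e}) h t y := by rw [S.st]; simp
  have hg1st : g1 ∈ star (M.S \ {e}) h t y := by rw [S.st]; simp
  have hg2st : g2 ∈ star (M.S \ {e}) h t y := by rw [S.st]; simp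
  have hkS : k ∈ M.S \ {e} := ((sitD_mem_star _ _ _ _ _).1 hkst).1
  have hdU : d ∈ U := by
    have h3 := hends k hkS
    rcases S.jk with ⟨q1, q2⟩ | ⟨q1, q2⟩
    · rw [← q2]; exact h3.2.1
    · rw [← q1]; exact h3.1
  have hyU : y ∈ U := by
    have h3 := hends k hkS
    rcases S.jk with ⟨q1, q2⟩ | ⟨q1, q2⟩
    · rw [← q1]; exact h3.1
    · rw [← q2]; exact h3.2.1
  have hcU : c ∈ U := S.gr.sub (by simp)
  have hkd : k ∈ star (M.S \ {e}) h t d := by
    rw [sitD_mem_star]
    exact ⟨hkS, sitD_Jn_right S.jk⟩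
  have h3 : 3 ≤ (star (M.S \ {e}) h t d).card := TC.three_le_deg S.tc S.gr.gr hdU
  have hcard : ((star (M.S \ {e}) h t d).erase k).card = 2 := by
    rw [Finset.card_erase_of_mem hkd]
    omega
  obtain ⟨x1, x2, h12, hx12⟩ := Finset.card_eq_two.1 hcard
  have hst : star (M.S \ {e}) h t d = {k, x1, x2} := by
    rw [← Finset.insert_erase hkd, hx12]
  have hx1 : x1 ∈ (star (M.S \ {e}) h t d).erase k := by rw [hx12]; simp
  have hx2 : x2 ∈ (star (M.S \ {e}) h t d).erase k := by rw [hx12]; simp
  have h1k := (Finset.mem_erase.1 hx1).1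
  have h2k := (Finset.mem_erase.1 hx2).1
  have hother : ∀ x, x ∈ star (M.S \ {e}) h t d → ∃ w, Jn h t x d w := by
    intro x hx
    rcases ((sitD_mem_star _ _ _ _ _).1 hx).2 with q | q
    · exact ⟨t x, Or.inl ⟨q, rfl⟩⟩
    · exact ⟨h x, Or.inr ⟨rfl, q⟩⟩
  obtain ⟨w1, hw1⟩ := hother x1 (Finset.mem_erase.1 hx1).2
  obtain ⟨w2, hw2⟩ := hother x2 (Finset.mem_erase.1 hx2).2
  have hw1ab : w1 = a ∨ w1 = b := by
    by_contra hcon
    rw [not_or] at hcon
    exact sitD_key h0 S hcd hst h12 h1k h2k hw1 hcon.1 hcon.2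
  have hw2ab : w2 = a ∨ w2 = b := by
    by_contra hcon
    rw [not_or] at hcon
    have hst' : star (M.S \ {e}) h t d = {k, x2, x1} := by
      rw [hst, Finset.pair_comm]
    exact sitD_key h0 S hcd hst' h12.symm h2k h1k hw2 hcon.1 hcon.2
  -- the separation
  have hno : ∀ x ∈ (M.del {e}).S, ∀ u ∈ ({y, d} : Finset V), ∀ v ∈ U \ {y, d, a, b},
      ¬ Jn h t x u v := by
    intro x hx u hu v hv hj
    have hx' : x ∈ M.S \ {e} := hx
    rw [Finset.mem_sdiff] at hv
    simp only [Finset.mem_insert, Finset.mem_singleton, not_or] at hv hu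
    obtain ⟨hvU, hvy, hvd, hva, hvb⟩ := hv
    rcases hu with rfl | rfl
    · have h6 : x ∈ star (M.S \ {e}) h t u := by
        rw [sitD_mem_star]
        exact ⟨hx', sitD_Jn_left hj⟩
      rw [S.st, Finset.mem_insert, Finset.mem_insert, Finset.mem_singleton] at h6
      rcases h6 with rfl | rfl | rfl
      · rcases sitD_Jn_end S.jk (sitD_Jn_right hj) with q | q
        · exact hvy q
        · exact hvd q
      · rcases sitD_Jn_end S.j1 (sitD_Jn_right hj) with q | q
        · exact hvy q
        · exact hva q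
      · rcases sitD_Jn_end S.j2 (sitD_Jn_right hj) with q | q
        · exact hvy q
        · exact hvb q
    · have h6 : x ∈ star (M.S \ {e}) h t u := by
        rw [sitD_mem_star]
        exact ⟨hx', sitD_Jn_left hj⟩
      rw [hst, Finset.mem_insert, Finset.mem_insert, Finset.mem_singleton] at h6
      rcases h6 with rfl | rfl | rfl
      · rcases sitD_Jn_end S.jk (sitD_Jn_right hj) with q | q
        · exact hvy q
        · exact hvd q
      · rcases sitD_Jn_end hw1 (sitD_Jn_right hj) with q | q
        · exact hvd q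
        · rcases hw1ab with q' | q'
          · exact hva (q.trans q')
          · exact hvb (q.trans q')
      · rcases sitD_Jn_end hw2 (sitD_Jn_right hj) with q | q
        · exact hvd q
        · rcases hw2ab with q' | q'
          · exact hva (q.trans q')
          · exact hvb (q.trans q')
  have hXU : ({y, d} : Finset V) ⊆ U := by
    intro v hv
    rw [Finset.mem_insert, Finset.mem_singleton] at hv
    rcases hv with rfl | rfl
    · exact hyU
    · exact hdU
  have hdisj : Disjoint ({y, d} : Finset V) (U \ {y, d, a, b}) := by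
    rw [Finset.disjoint_left]
    intro v hv hv2
    rw [Finset.mem_sdiff] at hv2
    simp only [Finset.mem_insert, Finset.mem_singleton, not_or] at hv hv2
    rcases hv with q | q
    · exact hv2.2.1 q
    · exact hv2.2.2.1 q
  have hcY : c ∈ U \ {y, d, a, b} := by
    rw [Finset.mem_sdiff]
    simp only [Finset.mem_insert, Finset.mem_singleton, not_or]
    exact ⟨hcU, hyc.symm, hcd, hac.symm, hbc.symm⟩
  have hsep := S.gr.gr.sep {y, d} (U \ {y, d, a, b}) hXU Finset.sdiff_subset hdisj
    ⟨y, by simp⟩ ⟨c, hcY⟩ hno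
  have hle2 : (U \ ({y, d} ∪ (U \ {y, d, a, b}))).card ≤ 2 := by
    refine (Finset.card_le_card (t := {a, b}) ?_).trans Finset.card_le_two
    intro v hv
    simp only [Finset.mem_sdiff, Finset.mem_union, Finset.mem_insert, Finset.mem_singleton] at hv ⊢
    tauto
  have hlam : (M.del {e}).lam ((M.del {e}).S.filter
      (fun x => h x ∈ ({y, d} : Finset V) ∨ t x ∈ ({y, d} : Finset V))) ≤ 1 := by omega
  have hsub : ((M.del {e}).S.filter
      (fun x => h x ∈ ({y, d} : Finset V) ∨ t x ∈ ({y, d} : Finset V))) ⊆ (M.del {e}).S :=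
    Finset.filter_subset _ _
  rcases (S.tc.2 _ hsub).2 hlam with hA | hA
  · have h5 : star (M.S \ {e}) h t d ⊆ ((M.del {e}).S.filter
        (fun x => h x ∈ ({y, d} : Finset V) ∨ t x ∈ ({y, d} : Finset V))) := by
      intro x hx
      rw [sitD_mem_star] at hx
      rw [Finset.mem_filter]
      refine ⟨hx.1, ?_⟩
      rcases hx.2 with q | q
      · left; rw [q]; simp
      · right; rw [q]; simp
    have h6 := Finset.card_le_card h5
    omega
  · have h5 : star (M.S \ {e}) h t c ⊆ (M.del {e}).S \ ((M.del {e}).S.filter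
        (fun x => h x ∈ ({y, d} : Finset V) ∨ t x ∈ ({y, d} : Finset V))) := by
      intro x hx
      rw [sitD_mem_star] at hx
      rw [Finset.mem_sdiff, Finset.mem_filter, not_and_or]
      refine ⟨hx.1, Or.inr ?_⟩
      rintro (q | q)
      · rcases hx.2 with q' | q'
        · rw [q'] at q
          exact (Finset.disjoint_left.1 hdisj q) hcY
        · exact hno x hx.1 (h x) q c hcY (Or.inl ⟨rfl, q'⟩)
      · rcases hx.2 with q' | q'
        · exact hno x hx.1 (t x) q c hcY (Or.inr ⟨q', rfl⟩)
        · rw [q'] at q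
          exact (Finset.disjoint_left.1 hdisj q) hcY
    have h6 := Finset.card_le_card h5
    have h7 : 3 ≤ (star (M.S \ {e}) h t c).card := TC.three_le_deg S.tc S.gr.gr hcU
    (clear * - U k a b hA h6 h7; omega)

end SEY

end

section

/-!
T3-Card5.
* `card5`: H a TC graph with HasT rows H, not iso to N0 (rows), N0 TC with at least 6 elements.  If
  |U| <= 4: no parallel edges (`IsGr.no_par`), so |S| <= 6; `Sub` with l >= 6 fibres inside A subset S: so |S| = l = 6,
  A = S, the fibres are singletons, H is iso to N0 (rows of H = vectors orthogonal to Z(H)), contradiction.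
-/

namespace SEY

open Finset

variable {E : Type} [Fintype E] [DecidableEq E] {V : Type} [Fintype V] [DecidableEq V]

/-- A subdivision with singleton fibres is an isomorphism. -/
private theorem card5_iso {r l : ℕ} {rows : Fin r → Fin l → ZMod 2} {M : BM E} {π : E → Fin l}
    (hS : Sub rows M M.S π) (hinj : ∀ a ∈ M.S, ∀ b ∈ M.S, π a = π b → a = b) :
    IsIso rows M := by
  obtain ⟨-, hsurj, hZ⟩ := hS
  choose φ hφ hπφ using hsurj
  have hφi : Function.Injective φ := by
    intro i j hij
    rw [← hπφ i, ← hπφ j, hij]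
  have hφπ : ∀ e ∈ M.S, φ (π e) = e := fun e he => hinj _ (hφ _) _ he (hπφ _)
  have hmem : ∀ e, e ∈ M.S ↔ ∃ i, φ i = e := by
    intro e
    constructor
    · intro he
      exact ⟨π e, hφπ e he⟩
    · rintro ⟨i, rfl⟩
      exact hφ i
  -- sums
  have hsum : ∀ (F : E → ZMod 2), (∀ e, e ∉ M.S → F e = 0) → ∑ e, F e = ∑ j, F (φ j) := by
    intro F hF
    have h1 : ∑ e, F e = ∑ e ∈ M.S, F e := by
      symm
      exact Finset.sum_subset (Finset.subset_univ _) (fun e _ he => hF e he)
    rw [h1]
    refine Finset.sum_bij' (fun e _ => π e) (fun j _ => φ j) (fun e _ => Finset.mem_univ _)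
      (fun j _ => hφ j) (fun e he => hφπ e he) (fun j _ => hπφ j) ?_
    intro e he
    rw [hφπ e he]
  refine ⟨φ, hφi, hmem, ?_, ?_⟩
  · intro i
    refine ⟨fun e => if e ∈ M.S then rows i (π e) else 0, ?_, ?_⟩
    · rw [M.mem_R_iff]
      refine ⟨fun e he => if_neg he, ?_⟩
      intro z hz
      obtain ⟨w, hw, hwz⟩ := (hZ z (fun e he => M.Z_supp hz he)).1 hz
      show ∑ e, (if e ∈ M.S then rows i (π e) else 0) * z e = 0
      rw [hsum _ (fun e he => by rw [if_neg he, zero_mul]), ← hw i]
      refine Finset.sum_congr rfl (fun j _ => ?_)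
      rw [if_pos (hφ j), hwz _ (hφ j), hπφ j]
    · intro j
      show (if φ j ∈ M.S then rows i (π (φ j)) else 0) = rows i j
      rw [if_pos (hφ j), hπφ j]
  · intro f hf
    have h1 : (fun j => f (φ j)) ∈ (ofRows rows).R := by
      rw [(ofRows rows).mem_R_iff]
      refine ⟨fun e he => absurd (Finset.mem_univ e) he, ?_⟩
      intro w hw
      have h2 := mem_ofRows_Z_iff.1 hw
      have h3 : (fun e => if e ∈ M.S then w (π e) else 0) ∈ M.Z := by
        rw [hZ _ (fun e he => if_neg he)]
        exact ⟨w, h2, fun e he => if_pos he⟩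
      have h4 := M.dot_eq_zero hf h3
      have h5 : dot f (fun e => if e ∈ M.S then w (π e) else 0) =
          ∑ j, f (φ j) * w j := by
        show ∑ e, f e * (if e ∈ M.S then w (π e) else 0) = _
        rw [hsum _ (fun e he => by rw [if_neg he, mul_zero])]
        refine Finset.sum_congr rfl (fun j _ => ?_)
        rw [if_pos (hφ j), hπφ j]
      rw [h5] at h4
      exact h4
    exact mem_ofRows.1 h1

/-- A 3-connected graph with at most four vertices has at most six edges. -/
private theorem card5_edges {M : BM E} (hM : M.TC) {U : Finset V} {h t : E → V}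
    (hg : IsGr M U h t) (hU : U.card ≤ 4) : M.S.card ≤ 6 := by
  have hsc : M.SC := ((TC_iff_SC M).1 hM).1
  have h1 : M.S.card ≤ (U.powersetCard 2).card := by
    refine Finset.card_le_card_of_injOn (fun e => ({h e, t e} : Finset V)) ?_ ?_
    · intro e he
      have h2 := hg.ends e he
      have h3 : ({h e, t e} : Finset V) ∈ U.powersetCard 2 := by
        rw [Finset.mem_powersetCard]
        refine ⟨?_, Finset.card_pair h2.2.2⟩
        intro v hv
        rw [Finset.mem_insert, Finset.mem_singleton] at hv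
        rcases hv with rfl | rfl
        · exact h2.1
        · exact h2.2.1
      exact h3
    · intro e he e' he' hee
      have hee' : ({h e, t e} : Finset V) = {h e', t e'} := hee
      refine hg.no_par hsc he he' (u := h e) (v := t e) (Or.inl ⟨rfl, rfl⟩) ?_
      have h2 := (hg.ends e he).2.2
      have h4 : h e ∈ ({h e', t e'} : Finset V) := by
        rw [← hee']
        exact Finset.mem_insert_self _ _
      have h5 : t e ∈ ({h e', t e'} : Finset V) := by
        rw [← hee']
        exact Finset.mem_insert_of_mem (Finset.mem_singleton_self _)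
      rw [Finset.mem_insert, Finset.mem_singleton] at h4 h5
      rcases h4 with h4 | h4 <;> rcases h5 with h5 | h5
      · exact absurd (h4.trans h5.symm) h2
      · exact Or.inl ⟨h4.symm, h5.symm⟩
      · exact Or.inr ⟨h5.symm, h4.symm⟩
      · exact absurd (h4.trans h5.symm) h2
  rw [Finset.card_powersetCard] at h1
  have h2 : U.card.choose 2 ≤ 6 := by
    have h3 := Nat.choose_le_choose 2 hU
    have h4 : Nat.choose 4 2 = 6 := by decide
    omega
  omega

theorem card5 {r l : ℕ} {rows : Fin r → Fin l → ZMod 2} (h0 : (ofRows rows).TC) (hl : 6 ≤ l)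
    {M : BM E} (hM : M.TC) {U : Finset V} {h t : E → V} (hg : IsGr M U h t)
    (hT : HasT rows M) (hI : ¬ IsIso rows M) : 5 ≤ U.card := by
  by_contra hU
  have h6 : M.S.card ≤ 6 := card5_edges hM hg (by omega)
  obtain ⟨A, π, hSub⟩ := hT
  have hAS : A ⊆ M.S := hSub.1
  have himg : A.image π = Finset.univ := by
    rw [Finset.eq_univ_iff_forall]
    intro i
    obtain ⟨e, he, rfl⟩ := hSub.2.1 i
    exact Finset.mem_image_of_mem π he
  have h7 : l ≤ A.card := by
    have h8 := Finset.card_image_le (s := A) (f := π)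
    rw [himg, Finset.card_univ, Fintype.card_fin] at h8
    exact h8
  have h9 := Finset.card_le_card hAS
  have hA : A = M.S := Finset.eq_of_subset_of_card_le hAS (by omega)
  subst hA
  apply hI
  refine card5_iso hSub ?_
  have h10 : (M.S.image π).card = M.S.card := by
    rw [himg, Finset.card_univ, Fintype.card_fin]
    omega
  have h11 := Finset.card_image_iff.1 h10
  intro a ha b hb hab
  exact h11 ha hb hab

end SEY

end

section

/-!
T3-Step0c.
T3-Step0.  See STEP 0 in /team-store/helper25_SEY.md.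

`IsGraft.swap_set`: swapping at all vertices of SS (SS inside T, all of degree 2 in the SC graph M.del {e}, Two): repeated
`IsGraft.swap`; the vertices of SS are pairwise not adjacent (`IsGr.deg2`: the neighbours have degree >= 3), so
the swaps do not interfere: the final graft set is swT (M.S - e) h t U T SS.
`step0_T`: each vertex s of degree 2 in M.del {e} is in T: its star {p,q} is a row of M.del {e}; if s is not in T
then {p,q} is a row of M (`IsGraft.star_mem`): a series pair in a 3-connected matroid.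
`step0_con`: for a vertex s of degree 2 (in M.del {e}, star {p,q}, p joins s u, q joins s w): contract p (merge s into u):
(M.con {p}) del {e} is SC, Two, HasT; graft set (T - s) + {u} (s in T); `MinCx.graft_graphic`: M.con {p} graphic; `crit`: SS inside the new
graft set, all of degree 2 in (M.del {e}).con {p}: these are the other vertices of degree 2 of M.del {e} (degrees of other
vertices do not change: u loses p and gains q); conclusion in terms of the OLD graph: the set
swT (M.S - e) h t U (symmDiff (T.erase s) {u}) SS has at most 2 elements, where SS is a set of vertices of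
degree 2, s not in SS (the neighbours of s' in SS are the same in the old and in the new graph: s is not adjacent to s').
-/

namespace SEY

open Finset

variable {E : Type} [Fintype E] [DecidableEq E] {V : Type} [Fintype V] [DecidableEq V]

lemma step0c_Jn_unique {h t : E → V} {x : E} {s u u' : V} (h1 : Jn h t x s u)
    (h2 : Jn h t x s u') : u = u' := by
  rcases h1 with ⟨a, b⟩ | ⟨a, b⟩ <;> rcases h2 with ⟨c, d⟩ | ⟨c, d⟩
  · rw [← b, ← d]
  · rw [← b, d, ← a, c]
  · rw [← a, c, ← b, d]
  · rw [← a, ← c]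

lemma step0c_mg_eq {s u v y : V} (hvs : v ≠ s) (hvu : v ≠ u) : mg s u y = v ↔ y = v := by
  unfold mg
  by_cases h : y = s
  · rw [if_pos h]
    constructor
    · intro h1; exact absurd h1.symm hvu
    · intro h1; exact absurd (h1.symm.trans h) hvs
  · rw [if_neg h]

lemma step0c_mg_u {s u y : V} : mg s u y = u ↔ y = u ∨ y = s := by
  unfold mg
  by_cases h : y = s
  · rw [if_pos h]; simp [h]
  · rw [if_neg h]; simp [h]

theorem step0_T {M : BM E} (hTC : M.TC) {e : E} {U : Finset V} {h t : E → V} {T : Finset V}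
    (hg : IsGraft M e U h t T) {s : V} (hs : s ∈ U) (hd : (star (M.S \ {e}) h t s).card = 2) :
    s ∈ T := by
  by_contra hsT
  have h1 := hg.star_mem hs
  rw [if_neg hsT] at h1
  have h2 : (ind (star (M.S \ {e}) h t s) : E → ZMod 2) ≠ 0 := by
    rw [Ne, ind_eq_zero]
    intro h0
    rw [h0] at hd
    simp at hd
  have h3 := hTC.row_weight h1 h2
  rw [spt_ind] at h3
  omega

theorem step0_con {r l : ℕ} {rows : Fin r → Fin l → ZMod 2} (h0 : (ofRows rows).TC)
    {M : BM E} (hM : MinCx rows M) {e : E} {U : Finset V} {h t : E → V} {T : Finset V}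
    (hg : IsGraft M e U h t T) (hsc : (M.del {e}).SC) (hT : HasT rows (M.del {e}))
    {s u w : V} {p q : E} (hs : s ∈ U) (hst : star (M.S \ {e}) h t s = {p, q}) (hpq : p ≠ q)
    (hp : Jn h t p s u) (hq : Jn h t q s w) :
    ∃ SS : Finset V, s ∉ SS ∧ SS ⊆ U ∧ (∀ s' ∈ SS, (star (M.S \ {e}) h t s').card = 2) ∧
      (swT (M.S \ {e}) h t U (symmDiff (T.erase s) {u}) SS).card ≤ 2 := by
  have he : e ∈ M.S := hg.mem
  have htwo : (M.del {e}).Two := TC.del_two hM.tc he
  have hcard2 : (star (M.S \ {e}) h t s).card = 2 := by rw [hst]; exact Finset.card_pair hpq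
  have hsT : s ∈ T := step0_T hM.tc hg hs hcard2
  have hpm : p ∈ star (M.S \ {e}) h t s := by rw [hst]; simp
  have hqm : q ∈ star (M.S \ {e}) h t s := by rw [hst]; simp
  have hpS' : p ∈ M.S \ {e} := (Finset.mem_filter.1 hpm).1
  have hqS' : q ∈ M.S \ {e} := (Finset.mem_filter.1 hqm).1
  have hpS : p ∈ M.S := (Finset.mem_sdiff.1 hpS').1
  have hpe : p ≠ e := by
    intro h'
    exact (Finset.mem_sdiff.1 hpS').2 (Finset.mem_singleton.2 h')
  have hqS : q ∈ M.S := (Finset.mem_sdiff.1 hqS').1
  have hqe : q ≠ e := by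
    intro h'
    exact (Finset.mem_sdiff.1 hqS').2 (Finset.mem_singleton.2 h')
  -- the neighbours
  obtain ⟨hws, hus, huw, hdu, hdw⟩ : w ≠ s ∧ u ≠ s ∧ u ≠ w ∧
      3 ≤ (star (M.S \ {e}) h t u).card ∧ 3 ≤ (star (M.S \ {e}) h t w).card := by
    obtain ⟨a, b, u', w', ha, hb, hab, hst', hja, hjb, -, -, huw', hus', hws', hdu', hdw', -, -⟩ :=
      hg.gr.deg2 hsc htwo hs hcard2
    have hst2 : ({a, b} : Finset E) = {p, q} := by
      rw [← hst]; exact hst'.symm
    have ha' : a = p ∨ a = q := by
      have : a ∈ ({p, q} : Finset E) := by rw [← hst2]; simp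
      simpa using this
    have hb' : b = p ∨ b = q := by
      have : b ∈ ({p, q} : Finset E) := by rw [← hst2]; simp
      simpa using this
    rcases ha' with rfl | rfl
    · rcases hb' with rfl | rfl
      · exact absurd rfl hab
      · have e1 : u' = u := step0c_Jn_unique hja hp
        have e2 : w' = w := step0c_Jn_unique hjb hq
        subst e1; subst e2
        exact ⟨hws', hus', huw', hdu', hdw'⟩
    · rcases hb' with rfl | rfl
      · have e1 : u' = w := step0c_Jn_unique hja hq
        have e2 : w' = u := step0c_Jn_unique hjb hp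
        subst e1; subst e2
        exact ⟨hus', hws', huw'.symm, hdw', hdu'⟩
      · exact absurd rfl hab
  -- edges at s
  have hats : ∀ x ∈ M.S \ {e}, (h x = s ∨ t x = s) → x = p ∨ x = q := by
    intro x hx hx'
    have : x ∈ star (M.S \ {e}) h t s := Finset.mem_filter.2 ⟨hx, hx'⟩
    rw [hst] at this
    simpa using this
  have hser : (M.del {e}).Ser p q :=
    (hg.gr.star2 hsc htwo hpS' hqS' hpq).2 ⟨s, hs, hst⟩
  have h3 : 3 ≤ M.S.card := by
    have h4 := hM.tc.1
    omega
  have hg' := hg.con (x := p) (u := s) (v := u) hpS hpe hp (by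
    intro y hy hye hyp hj
    have hy' : y ∈ M.S \ {e} := Finset.mem_sdiff.2 ⟨hy, by simpa using hye⟩
    rcases hats y hy' (by rcases hj with ⟨a, b⟩ | ⟨a, b⟩; exact Or.inl a; exact Or.inr b) with
      h' | h'
    · exact hyp h'
    · subst h'
      exact huw (step0c_Jn_unique hj hq)) h3
  rw [if_pos hsT] at hg'
  have hcomm : (M.con {p}).del {e} = (M.del {e}).con {p} := by
    rw [BM.del_con]
    rw [Finset.disjoint_singleton]
    exact hpe.symm
  obtain ⟨hsc1, hsc2⟩ := SC_con (M.del {e}) hsc p q hpS' hqS' hpq hser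
  have hsc' : ((M.con {p}).del {e}).SC := by rw [hcomm]; exact hsc1
  have htwo' : ((M.con {p}).del {e}).Two := by
    rw [hcomm]
    intro a ha b hb c hc hab hac
    have ha1 : a ∈ (M.del {e}).S := (Finset.mem_sdiff.1 ha).1
    have hb1 : b ∈ (M.del {e}).S := (Finset.mem_sdiff.1 hb).1
    have hc1 : c ∈ (M.del {e}).S := (Finset.mem_sdiff.1 hc).1
    have ha2 : a ≠ p := fun h' => (Finset.mem_sdiff.1 ha).2 (Finset.mem_singleton.2 h')
    have hb2 : b ≠ p := fun h' => (Finset.mem_sdiff.1 hb).2 (Finset.mem_singleton.2 h')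
    have hc2 : c ≠ p := fun h' => (Finset.mem_sdiff.1 hc).2 (Finset.mem_singleton.2 h')
    exact htwo a ha1 b hb1 c hc1 ((hsc2 a ha1 ha2 b hb1 hb2).1 hab)
      ((hsc2 a ha1 ha2 c hc1 hc2).1 hac)
  have hT' : HasT rows ((M.con {p}).del {e}) := by
    rw [hcomm]; exact HasT_con h0 hpS' hqS' hpq hser hT
  have hlt : (M.con {p}).S.card < M.S.card := by
    refine Finset.card_lt_card (Finset.ssubset_iff_subset_ne.2 ⟨Finset.sdiff_subset, ?_⟩)
    intro heq
    have h1 : p ∈ (M.con {p}).S := by rw [heq]; exact hpS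
    exact (Finset.mem_sdiff.1 h1).2 (Finset.mem_singleton_self p)
  have hG : Graphic (M.con {p}) :=
    hM.graft_graphic h0 _ (Minor_con M {p}) hlt hg' hsc' htwo' hT'
  obtain ⟨SS, hSS, hst', hcard'⟩ := crit hg' hsc' htwo' hG
  have hset : (M.con {p}).S \ {e} = (M.S \ {e}).erase p := by
    ext x
    simp only [BM.con_S, Finset.mem_sdiff, Finset.mem_singleton, Finset.mem_erase]
    tauto
  rw [hset] at hst' hcard'
  have hSSU : ∀ x ∈ SS, x ≠ s ∧ x ∈ U := by
    intro x hx
    have h1 := hg'.sub (hSS hx)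
    exact Finset.mem_erase.1 h1
  -- stars
  have hstar1 : ∀ x, x ≠ s → x ≠ u →
      star ((M.S \ {e}).erase p) (fun y => mg s u (h y)) (fun y => mg s u (t y)) x =
        star (M.S \ {e}) h t x := by
    intro x hxs hxu
    ext y
    simp only [star, Finset.mem_filter, Finset.mem_erase, step0c_mg_eq hxs hxu]
    constructor
    · rintro ⟨⟨h1, h2⟩, h4⟩
      exact ⟨h2, h4⟩
    · rintro ⟨h2, h4⟩
      refine ⟨⟨?_, h2⟩, h4⟩
      rintro rfl
      rcases hp with ⟨a, b⟩ | ⟨a, b⟩
      · rcases h4 with h4 | h4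
        · exact hxs (h4.symm.trans a)
        · exact hxu (h4.symm.trans b)
      · rcases h4 with h4 | h4
        · exact hxu (h4.symm.trans a)
        · exact hxs (h4.symm.trans b)
  have hqu : q ∉ star (M.S \ {e}) h t u := by
    intro h'
    have h1 := (Finset.mem_filter.1 h').2
    rcases hq with ⟨a, b⟩ | ⟨a, b⟩
    · rcases h1 with h1 | h1
      · exact hus (h1.symm.trans a)
      · exact huw (h1.symm.trans b)
    · rcases h1 with h1 | h1
      · exact huw (h1.symm.trans a)
      · exact hus (h1.symm.trans b)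
  have hpu : p ∈ star (M.S \ {e}) h t u := by
    refine Finset.mem_filter.2 ⟨hpS', ?_⟩
    rcases hp with ⟨a, b⟩ | ⟨a, b⟩
    · exact Or.inr b
    · exact Or.inl a
  have hstar2 : star ((M.S \ {e}).erase p) (fun y => mg s u (h y)) (fun y => mg s u (t y)) u =
        insert q ((star (M.S \ {e}) h t u).erase p) := by
    ext y
    simp only [star, Finset.mem_filter, Finset.mem_erase, step0c_mg_u, Finset.mem_insert]
    constructor
    · rintro ⟨⟨h1, h2⟩, h4⟩
      by_cases hyq : y = q
      · exact Or.inl hyq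
      · right
        have h5 : ¬ (h y = s ∨ t y = s) := fun h' => by
          rcases hats y h2 h' with h6 | h6
          · exact h1 h6
          · exact hyq h6
        refine ⟨h1, h2, ?_⟩
        tauto
    · rintro (rfl | ⟨h1, h2, h4⟩)
      · refine ⟨⟨hpq.symm, hqS'⟩, ?_⟩
        rcases hq with ⟨a, b⟩ | ⟨a, b⟩
        · exact Or.inl (Or.inr a)
        · exact Or.inr (Or.inr b)
      · exact ⟨⟨h1, h2⟩, by tauto⟩
  have hSSu : ∀ x ∈ SS, x ≠ u := by
    rintro x hx rfl
    have h1 := hst' x hx
    rw [hstar2, Finset.card_insert_of_notMem (fun h' => hqu (Finset.mem_erase.1 h').2),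
      Finset.card_erase_of_mem hpu] at h1
    omega
  have hSSd : ∀ x ∈ SS, (star (M.S \ {e}) h t x).card = 2 := by
    intro x hx
    rw [← hstar1 x (hSSU x hx).1 (hSSu x hx)]
    exact hst' x hx
  have hSSw : ∀ x ∈ SS, x ≠ w := by
    rintro x hx rfl
    have h1 := hSSd x hx
    omega
  -- no edge joins s to SS
  have hnoS : ∀ x ∈ SS, ∀ y ∈ M.S \ {e}, ¬ Jn h t y x s := by
    intro x hx y hy hj
    have hj' : Jn h t y s x := by
      rcases hj with ⟨a, b⟩ | ⟨a, b⟩
      · exact Or.inr ⟨a, b⟩
      · exact Or.inl ⟨a, b⟩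
    rcases hats y hy (by rcases hj' with ⟨a, b⟩ | ⟨a, b⟩; exact Or.inl a; exact Or.inr b) with
      h' | h'
    · subst h'
      exact hSSu x hx (step0c_Jn_unique hj' hp)
    · subst h'
      exact hSSw x hx (step0c_Jn_unique hj' hq)
  have hfil : ∀ x ∈ SS, ∀ v, v ≠ s →
      ((M.S \ {e}).erase p).filter
        (fun y => Jn (fun y => mg s u (h y)) (fun y => mg s u (t y)) y x v) =
      (M.S \ {e}).filter (fun y => Jn h t y x v) := by
    intro x hx v hvs
    have hxs := (hSSU x hx).1
    have hxu := hSSu x hx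
    ext y
    simp only [Finset.mem_filter, Finset.mem_erase]
    by_cases hvu : v = u
    · subst hvu
      constructor
      · rintro ⟨⟨h1, h2⟩, h4⟩
        refine ⟨h2, ?_⟩
        have h5 := hnoS x hx y h2
        unfold Jn at h4 h5 ⊢
        rw [step0c_mg_eq hxs hxu, step0c_mg_eq hxs hxu, step0c_mg_u, step0c_mg_u] at h4
        tauto
      · rintro ⟨h2, h4⟩
        refine ⟨⟨?_, h2⟩, ?_⟩
        · rintro rfl
          have h6 : Jn h t y v x := by
            rcases h4 with ⟨a, b⟩ | ⟨a, b⟩
            · exact Or.inr ⟨a, b⟩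
            · exact Or.inl ⟨a, b⟩
          have h7 : Jn h t y v s := by
            rcases hp with ⟨a, b⟩ | ⟨a, b⟩
            · exact Or.inr ⟨a, b⟩
            · exact Or.inl ⟨a, b⟩
          exact hxs (step0c_Jn_unique h6 h7)
        · unfold Jn at h4 ⊢
          rw [step0c_mg_eq hxs hxu, step0c_mg_eq hxs hxu, step0c_mg_u, step0c_mg_u]
          tauto
    · constructor
      · rintro ⟨⟨h1, h2⟩, h4⟩
        refine ⟨h2, ?_⟩
        unfold Jn at h4 ⊢
        rw [step0c_mg_eq hxs hxu, step0c_mg_eq hxs hxu, step0c_mg_eq hvs hvu,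
          step0c_mg_eq hvs hvu] at h4
        exact h4
      · rintro ⟨h2, h4⟩
        refine ⟨⟨?_, h2⟩, ?_⟩
        · rintro rfl
          rcases hp with ⟨a, b⟩ | ⟨a, b⟩
          · rcases h4 with ⟨c, d⟩ | ⟨c, d⟩
            · exact hxs (c.symm.trans a)
            · exact hvs (c.symm.trans a)
          · rcases h4 with ⟨c, d⟩ | ⟨c, d⟩
            · exact hxu (c.symm.trans a)
            · exact hxs (d.symm.trans b)
        · unfold Jn at h4 ⊢
          rw [step0c_mg_eq hxs hxu, step0c_mg_eq hxs hxu, step0c_mg_eq hvs hvu,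
            step0c_mg_eq hvs hvu]
          exact h4
  refine ⟨SS, fun h' => (hSSU s h').1 rfl, fun x hx => (hSSU x hx).2, hSSd, ?_⟩
  refine le_trans (Finset.card_le_card ?_) hcard'
  intro v hv
  rw [swT, Finset.mem_filter] at hv ⊢
  obtain ⟨hvU, hodd⟩ := hv
  have hvs : v ≠ s := by
    rintro rfl
    have h1 : v ∉ symmDiff (T.erase v) {u} := by
      rw [Finset.mem_symmDiff]
      rintro (⟨h2, -⟩ | ⟨h2, -⟩)
      · exact Finset.notMem_erase v T h2
      · exact hus (Finset.mem_singleton.1 h2).symm
    rw [if_neg h1, zero_add, Finset.sum_eq_zero] at hodd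
    · exact absurd hodd (by decide)
    · intro x hx
      rw [Finset.card_eq_zero, Finset.filter_eq_empty_iff]
      intro y hy
      exact hnoS x hx y hy
  refine ⟨Finset.mem_erase.2 ⟨hvs, hvU⟩, ?_⟩
  have h1 : ∑ x ∈ SS, (((M.S \ {e}).erase p).filter
        (fun y => Jn (fun y => mg s u (h y)) (fun y => mg s u (t y)) y x v)).card =
      ∑ x ∈ SS, ((M.S \ {e}).filter (fun y => Jn h t y x v)).card :=
    Finset.sum_congr rfl (fun x hx => by rw [hfil x hx v hvs])
  rw [h1]
  exact hodd

end SEY

end
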