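import Pool.Agent.Helper29.MFA.T27
import Pool.Agent.Helper29.MFA.T29
import Pool.Agent.Helper29.MFA.T30
import Pool.Agent.Helper29.MFA.T28
import Pool.Agent.Helper29.MFA.T31

section

/-!
T3-Step4F.
T3-Step4F: end of STEP 4.
`SitI.step4_A`: case A.  `step4_a`; in the a-case: if q = d then k2 joins a and d: Good with xc, xd = k2.  If q /= d: `step4_b`, `step4_c`.
The b-case: the same for `SitI.symm_ab` (M.del {e,k,k2}, M.del {e,k2} do not change).
`SitI.step4`: `step4_dich`.  First alternative: step4_A.  Second: star_H a = {g1,x1,k2}, x1 = ad.  Use S' := `SitI.symm_ek`: situation (k, e, g2, g1; y,a,b,d,c)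
with the new ends h' = exH h e g1 g2 y, t' = exT t e g1 g2 a b c: these agree with the old ones for x not in {e,g1,g2}; g1 joins y b, g2 joins y
a, e joins y c.  deg'(c) >= 4 by `SitI.deg_d` for S' (its c is d, its d is c).  `step4_dich` for S' and k2 (M.del {k,e,k2} =
M.del {e,k,k2}): either (M.del {k,k2}).SC: then step4_A for S' (hT same) gives Good for (k; g2 at a or g1 at b; d, c), i.e. star'
(M.S - k) a = {g2,x,x'} with x = ad, x' = ac; the star of a in H is obtained by replacing g2 by g1: Good M h t e g1 a c d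
(same for b).  Or star' a = {g2,x1',k2} with x1' joining a and c: but star' a = {g2,x1,k2}, x1 /= k2: x1' = x1 or x1' = ... x1 joins
a d, c /= d, and k2 joins a to something: {x1', k2} = {x1, k2} forces x1' = x1: contradiction.  Or star' b = {g1,x1',k2}: k2 is at
a and at b: k2 joins a and b, but H' has g1 joining a and b: parallel in H', contradiction.
Third alternative: symm_ab.
-/

namespace SEY

open Finset

variable {E : Type} [Fintype E] [DecidableEq E] {V : Type} [Fintype V] [DecidableEq V]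
variable {r l : ℕ} {rows : Fin r → Fin l → ZMod 2} {M : BM E} {U : Finset V} {h t : E → V}
  {e k g1 g2 : E} {y a b c d : V}

theorem SitI.step4_A (h0 : (ofRows rows).TC) (S : SitI rows M U h t e k g1 g2 y a b c d)
    (hcd : c ≠ d) (hd : 4 ≤ (star (M.S \ {e}) h t d).card) (hU : 6 ≤ U.card) {k2 : E}
    (hk : k2 ∈ M.S) (hke : k2 ≠ e) (hkk : k2 ≠ k) (hk1 : k2 ≠ g1) (hk2 : k2 ≠ g2)
    (hsc : (M.del {e, k, k2}).SC) (hT : HasT rows (M.del {e, k, k2}))
    (hsc' : (M.del {e, k2}).SC) :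
    Good M h t e g1 a c d ∨ Good M h t e g2 b c d := by
  rcases S.step4_a h0 hcd hd hU hk hke hkk hk1 hk2 hsc hT hsc' with
    ⟨xc, q, hst, hjc, hjq⟩ | ⟨xc, q, hst, hjc, hjq⟩
  · by_cases hq : q = d
    · rw [hq] at hjq
      exact Or.inl ⟨xc, k2, hst, hjc, hjq⟩
    · obtain ⟨x1, x2, h1, h2, h3⟩ :=
        S.step4_b h0 hcd hd hk hke hkk hk1 hk2 hsc hT hsc' hst hjc hjq hq
      exact (S.step4_c h0 hcd hd hk hke hkk hk1 hk2 hsc hT hst hjc hjq hq h1 h2 h3).elim
  · by_cases hq : q = d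
    · rw [hq] at hjq
      exact Or.inr ⟨xc, k2, hst, hjc, hjq⟩
    · obtain ⟨x1, x2, h1, h2, h3⟩ :=
        S.symm_ab.step4_b h0 hcd hd hk hke hkk hk2 hk1 hsc hT hsc' hst hjc hjq hq
      exact (S.symm_ab.step4_c h0 hcd hd hk hke hkk hk2 hk1 hsc hT hst hjc hjq hq h1 h2 h3).elim

/-- The elements of the star of `y`. -/
theorem SitI.step4F_ne (S : SitI rows M U h t e k g1 g2 y a b c d) :
    k ∈ M.S ∧ g1 ∈ M.S ∧ g2 ∈ M.S ∧ k ≠ e ∧ g1 ≠ e ∧ g2 ≠ e ∧ k ≠ g1 ∧ k ≠ g2 ∧ g1 ≠ g2 := by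
  have hk : k ∈ star (M.S \ {e}) h t y := by
    rw [S.st]; simp
  have h1 : g1 ∈ star (M.S \ {e}) h t y := by
    rw [S.st]; simp
  have h2 : g2 ∈ star (M.S \ {e}) h t y := by
    rw [S.st]; simp
  simp only [star, mem_filter, mem_sdiff, mem_singleton] at hk h1 h2
  refine ⟨hk.1.1, h1.1.1, h2.1.1, hk.1.2, h1.1.2, h2.1.2, ?_, ?_, ?_⟩
  · rintro rfl
    rcases S.jk with ⟨p, q⟩ | ⟨p, q⟩ <;> rcases S.j1 with ⟨p', q'⟩ | ⟨p', q'⟩
    · exact S.ad (q'.symm.trans q)
    · exact S.ya (p.symm.trans p')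
    · exact S.ya (q.symm.trans q')
    · exact S.ad (p'.symm.trans p)
  · rintro rfl
    rcases S.jk with ⟨p, q⟩ | ⟨p, q⟩ <;> rcases S.j2 with ⟨p', q'⟩ | ⟨p', q'⟩
    · exact S.bd (q'.symm.trans q)
    · exact S.yb (p.symm.trans p')
    · exact S.yb (q.symm.trans q')
    · exact S.bd (p'.symm.trans p)
  · rintro rfl
    rcases S.j1 with ⟨p, q⟩ | ⟨p, q⟩ <;> rcases S.j2 with ⟨p', q'⟩ | ⟨p', q'⟩
    · exact S.ab (q.symm.trans q')
    · exact S.yb (p.symm.trans p')
    · exact S.yb (q.symm.trans q')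
    · exact S.ab (p.symm.trans p')

theorem step4F_jn {x : E} {u v : V} (huy : u ≠ y) (hvy : v ≠ y)
    (hj : Jn (exH h e g1 g2 y) (exT t e g1 g2 a b c) x u v) :
    x ≠ e ∧ x ≠ g1 ∧ x ≠ g2 ∧ Jn h t x u v := by
  have hx : ¬ (x = e ∨ x = g1 ∨ x = g2) := by
    intro hx
    rcases hj with ⟨h1, -⟩ | ⟨h1, -⟩
    · rw [exH, if_pos hx] at h1
      exact huy h1.symm
    · rw [exH, if_pos hx] at h1
      exact hvy h1.symm
  have h1 : x ≠ e := fun h => hx (Or.inl h)
  have h2 : x ≠ g1 := fun h => hx (Or.inr (Or.inl h))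
  have h3 : x ≠ g2 := fun h => hx (Or.inr (Or.inr h))
  refine ⟨h1, h2, h3, ?_⟩
  have e1 : exH h e g1 g2 y x = h x := if_neg hx
  have e2 : exT t e g1 g2 a b c x = t x := by
    rw [exT, if_neg h1, if_neg h2, if_neg h3]
  unfold Jn at hj ⊢
  rw [e1, e2] at hj
  exact hj

theorem step4F_mem {x : E} (v : V) (h1 : x ≠ e) (h2 : x ≠ g1) (h3 : x ≠ g2) (h4 : x ≠ k) :
    x ∈ star (M.S \ {k}) (exH h e g1 g2 y) (exT t e g1 g2 a b c) v ↔
      x ∈ star (M.S \ {e}) h t v := by
  have hx : ¬ (x = e ∨ x = g1 ∨ x = g2) := by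
    rintro (h | h | h)
    · exact h1 h
    · exact h2 h
    · exact h3 h
  have e1 : exH h e g1 g2 y x = h x := if_neg hx
  have e2 : exT t e g1 g2 a b c x = t x := by
    rw [exT, if_neg h1, if_neg h2, if_neg h3]
  simp only [star, mem_filter, mem_sdiff, mem_singleton, e1, e2, h1, h4, not_false_eq_true,
    and_true]

theorem SitI.step4F_star (S : SitI rows M U h t e k g1 g2 y a b c d) {p q : E}
    (hp : p ≠ e ∧ p ≠ g1 ∧ p ≠ g2) (hq : q ≠ e ∧ q ≠ g1 ∧ q ≠ g2)
    (hst : star (M.S \ {k}) (exH h e g1 g2 y) (exT t e g1 g2 a b c) a = {g2, p, q}) :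
    star (M.S \ {e}) h t a = {g1, p, q} := by
  obtain ⟨mk, m1, m2, nke, n1e, n2e, nk1, nk2, n12⟩ := S.step4F_ne
  have hpk : p ≠ k := by
    have : p ∈ star (M.S \ {k}) (exH h e g1 g2 y) (exT t e g1 g2 a b c) a := by
      rw [hst]; simp
    simp only [star, mem_filter, mem_sdiff, mem_singleton] at this
    exact this.1.2
  have hqk : q ≠ k := by
    have : q ∈ star (M.S \ {k}) (exH h e g1 g2 y) (exT t e g1 g2 a b c) a := by
      rw [hst]; simp
    simp only [star, mem_filter, mem_sdiff, mem_singleton] at this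
    exact this.1.2
  ext x
  simp only [mem_insert, mem_singleton]
  by_cases x1 : x = g1
  · constructor
    · intro _
      exact Or.inl x1
    · intro _
      rw [x1]
      simp only [star, mem_filter, mem_sdiff, mem_singleton]
      refine ⟨⟨m1, n1e⟩, ?_⟩
      rcases S.j1 with ⟨_, h2⟩ | ⟨h2, _⟩
      · exact Or.inr h2
      · exact Or.inl h2
  by_cases x2 : x = g2
  · constructor
    · intro hx
      exfalso
      rw [x2] at hx
      simp only [star, mem_filter, mem_sdiff, mem_singleton] at hx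
      rcases S.j2 with ⟨h1, h2⟩ | ⟨h1, h2⟩ <;> rcases hx.2 with h3 | h3
      · exact S.ya (h1.symm.trans h3)
      · exact S.ab (h3.symm.trans h2)
      · exact S.ab (h3.symm.trans h1)
      · exact S.ya (h2.symm.trans h3)
    · rintro (h1 | h1 | h1)
      · exact absurd h1 x1
      · exact absurd (h1.symm.trans x2) hp.2.2
      · exact absurd (h1.symm.trans x2) hq.2.2
  by_cases xk : x = k
  · constructor
    · intro hx
      exfalso
      rw [xk] at hx
      simp only [star, mem_filter, mem_sdiff, mem_singleton] at hx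
      rcases S.jk with ⟨h1, h2⟩ | ⟨h1, h2⟩ <;> rcases hx.2 with h3 | h3
      · exact S.ya (h1.symm.trans h3)
      · exact S.ad (h3.symm.trans h2)
      · exact S.ad (h3.symm.trans h1)
      · exact S.ya (h2.symm.trans h3)
    · rintro (h1 | h1 | h1)
      · exact absurd h1 x1
      · exact absurd (h1.symm.trans xk) hpk
      · exact absurd (h1.symm.trans xk) hqk
  by_cases xe : x = e
  · constructor
    · intro hx
      exfalso
      simp only [star, mem_filter, mem_sdiff, mem_singleton] at hx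
      exact hx.1.2 xe
    · rintro (h1 | h1 | h1)
      · exact absurd h1 x1
      · exact absurd (h1.symm.trans xe) hp.1
      · exact absurd (h1.symm.trans xe) hq.1
  rw [← step4F_mem (M := M) (h := h) (t := t) (y := y) (a := a) (b := b) (c := c) a xe x1 x2 xk,
    hst]
  simp only [mem_insert, mem_singleton, x1, x2, false_or]

theorem SitI.step4F_good (S : SitI rows M U h t e k g1 g2 y a b c d)
    (hG : Good M (exH h e g1 g2 y) (exT t e g1 g2 a b c) k g2 a d c) :
    Good M h t e g1 a c d := by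
  obtain ⟨xc, xd, hst, hjc, hjd⟩ := hG
  obtain ⟨c1, c2, c3, c4⟩ := step4F_jn S.ya.symm S.yd.symm hjc
  obtain ⟨d1, d2, d3, d4⟩ := step4F_jn S.ya.symm S.yc.symm hjd
  refine ⟨xd, xc, ?_, d4, c4⟩
  refine S.step4F_star ⟨d1, d2, d3⟩ ⟨c1, c2, c3⟩ ?_
  rw [hst]
  ext x
  simp only [mem_insert, mem_singleton]
  tauto

/-- The exchanged ends do not depend on the order of `a` and `b`. -/
theorem step4F_ex (h12 : g1 ≠ g2) :
    exH h e g1 g2 y = exH h e g2 g1 y ∧ exT t e g1 g2 a b c = exT t e g2 g1 b a c := by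
  constructor
  · funext x
    unfold exH
    by_cases h1 : x = e ∨ x = g1 ∨ x = g2
    · rw [if_pos h1, if_pos (by tauto)]
    · rw [if_neg h1, if_neg (by tauto)]
  · funext x
    unfold exT
    by_cases h0 : x = e
    · rw [if_pos h0, if_pos h0]
    · rw [if_neg h0, if_neg h0]
      by_cases h1 : x = g1
      · rw [if_pos h1, if_neg (fun h => h12 (h1.symm.trans h)), if_pos h1]
      · by_cases h2 : x = g2
        · rw [if_neg h1, if_pos h2, if_pos h2]
        · rw [if_neg h1, if_neg h2, if_neg h2, if_neg h1]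

theorem step4F_jn_unique {x : E} {u v w : V} (hu : u ≠ v) (h1 : Jn h t x u v) (h2 : Jn h t x u w) :
    v = w := by
  rcases h1 with ⟨p, q⟩ | ⟨p, q⟩ <;> rcases h2 with ⟨p', q'⟩ | ⟨p', q'⟩
  · exact q.symm.trans q'
  · exact absurd (q'.symm.trans q) hu
  · exact absurd (p'.symm.trans p) hu
  · exact p.symm.trans p'

/-- No edge joins `a` and `b`. -/
theorem SitI.step4F_par (S : SitI rows M U h t e k g1 g2 y a b c d)
    (hd : 4 ≤ (star (M.S \ {e}) h t d).card) {k2 : E}
    (hk : k2 ∈ M.S) (hke : k2 ≠ e) (hkk : k2 ≠ k) (hk1 : k2 ≠ g1) (hk2 : k2 ≠ g2)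
    (hj : Jn h t k2 a b) : False := by
  obtain ⟨mk, m1, m2, nke, n1e, n2e, nk1, nk2, n12⟩ := S.step4F_ne
  have hsc := ((TC_iff_SC _).1 (S.hp_tc hd)).1
  apply hk1
  refine S.hp_gr.no_par hsc (x := k2) (y := g1) (u := a) (v := b) ?_ ?_ ?_ ?_
  · simp only [BM.del, BM.con, mem_sdiff, mem_insert, mem_singleton, not_or]
    exact ⟨⟨hk, hk2⟩, hke, hkk⟩
  · simp only [BM.del, BM.con, mem_sdiff, mem_insert, mem_singleton, not_or]
    exact ⟨⟨m1, n12⟩, n1e, fun h => nk1 h.symm⟩
  · have ha : mg y b a = a := if_neg S.ya.symm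
    have hb : mg y b b = b := if_neg S.yb.symm
    rcases hj with ⟨p, q⟩ | ⟨p, q⟩
    · left
      show mg y b (h k2) = a ∧ mg y b (t k2) = b
      rw [p, q]
      exact ⟨ha, hb⟩
    · right
      show mg y b (h k2) = b ∧ mg y b (t k2) = a
      rw [p, q]
      exact ⟨hb, ha⟩
  · have ha : mg y b a = a := if_neg S.ya.symm
    have hb : mg y b y = b := if_pos rfl
    rcases S.j1 with ⟨p, q⟩ | ⟨p, q⟩
    · right
      show mg y b (h g1) = b ∧ mg y b (t g1) = a
      rw [p, q]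
      exact ⟨hb, ha⟩
    · left
      show mg y b (h g1) = a ∧ mg y b (t g1) = b
      rw [p, q]
      exact ⟨ha, hb⟩

/-- Case B. -/
theorem SitI.step4F_B (h0 : (ofRows rows).TC) (S : SitI rows M U h t e k g1 g2 y a b c d)
    (hcd : c ≠ d) (hd : 4 ≤ (star (M.S \ {e}) h t d).card) (hU : 6 ≤ U.card) {k2 : E}
    (hk : k2 ∈ M.S) (hke : k2 ≠ e) (hkk : k2 ≠ k) (hk1 : k2 ≠ g1) (hk2 : k2 ≠ g2)
    (hsc : (M.del {e, k, k2}).SC) (hT : HasT rows (M.del {e, k, k2})) {x1 : E}
    (hst : star (M.S \ {e}) h t a = {g1, x1, k2}) (hj : Jn h t x1 a d) :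
    Good M h t e g1 a c d ∨ Good M h t e g2 b c d := by
  obtain ⟨mk, m1, m2, nke, n1e, n2e, nk1, nk2, n12⟩ := S.step4F_ne
  have S' := S.symm_ek hcd hd
  have hd' := S'.deg_d h0 hcd.symm
  have hset : ({k, e, k2} : Finset E) = {e, k, k2} := Finset.insert_comm _ _ _
  have hsc1 : (M.del {k, e, k2}).SC := by
    rw [hset]; exact hsc
  have hT1 : HasT rows (M.del {k, e, k2}) := by
    rw [hset]; exact hT
  have hk2a : k2 ∈ star (M.S \ {e}) h t a := by
    rw [hst]; simp
  have hx1a : x1 ∈ star (M.S \ {e}) h t a := by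
    rw [hst]; simp
  have x1e : x1 ≠ e := by
    simp only [star, mem_filter, mem_sdiff, mem_singleton] at hx1a
    exact hx1a.1.2
  have x1k : x1 ≠ k := by
    intro hh
    rw [hh] at hj
    exact S.ya (step4F_jn_unique (h := h) (t := t) (u := d) (v := y) (w := a) S.yd.symm S.jk.symm
      hj.symm)
  have x11 : x1 ≠ g1 := by
    intro hh
    rw [hh] at hj
    exact S.yd (step4F_jn_unique (h := h) (t := t) (u := a) (v := y) (w := d) S.ya.symm S.j1.symm hj)
  have x12 : x1 ≠ g2 := by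
    intro hh
    rw [hh] at hj
    rcases hj with ⟨p, q⟩ | ⟨p, q⟩ <;> rcases S.j2 with ⟨p', q'⟩ | ⟨p', q'⟩
    · exact S.ya (p'.symm.trans p)
    · exact S.ab (p.symm.trans p')
    · exact S.yd (p'.symm.trans p)
    · exact S.ya (q'.symm.trans q)
  rcases S'.step4_dich hd' hk hkk hke hk2 hk1 hsc1 with h1 | ⟨x1', h1, h2⟩ | ⟨x1', h1, h2⟩
  · rcases S'.step4_A h0 hcd.symm hd' hU hk hkk hke hk2 hk1 hsc1 hT1 h1 with h2 | h2
    · exact Or.inl (S.step4F_good h2)
    · right
      obtain ⟨e1, e2⟩ := step4F_ex (h := h) (t := t) (e := e) (y := y) (a := a) (b := b)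
        (c := c) n12
      rw [e1, e2] at h2
      exact S.symm_ab.step4F_good h2
  · exfalso
    obtain ⟨c1, c2, c3, c4⟩ := step4F_jn S.ya.symm S.yc.symm h2
    have hne : x1 ≠ x1' := by
      intro hh
      rw [hh] at hj
      exact hcd (step4F_jn_unique S.ac c4 hj)
    have h3 : x1 ∈ star (M.S \ {k}) (exH h e g1 g2 y) (exT t e g1 g2 a b c) a :=
      (step4F_mem a x1e x11 x12 x1k).2 hx1a
    rw [h1] at h3
    simp only [mem_insert, mem_singleton] at h3
    have h4 : x1 = k2 := by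
      rcases h3 with h3 | h3 | h3
      · exact absurd h3 x12
      · exact absurd h3 hne
      · exact h3
    have hx1'k : x1' ≠ k := by
      have h5 : x1' ∈ star (M.S \ {k}) (exH h e g1 g2 y) (exT t e g1 g2 a b c) a := by
        rw [h1]; simp
      simp only [star, mem_filter, mem_sdiff, mem_singleton] at h5
      exact h5.1.2
    have h5 : x1' ∈ star (M.S \ {e}) h t a := by
      rw [← step4F_mem (M := M) (h := h) (t := t) (y := y) (a := a) (b := b) (c := c) a
        c1 c2 c3 hx1'k, h1]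
      simp
    rw [hst] at h5
    simp only [mem_insert, mem_singleton] at h5
    rcases h5 with h5 | h5 | h5
    · exact c2 h5
    · exact hne h5.symm
    · exact hne (h4.trans h5.symm)
  · exfalso
    have h3 : k2 ∈ star (M.S \ {k}) (exH h e g1 g2 y) (exT t e g1 g2 a b c) b := by
      rw [h1]; simp
    rw [step4F_mem b hke hk1 hk2 hkk] at h3
    simp only [star, mem_filter, mem_sdiff, mem_singleton] at h3 hk2a
    have hends := S.gr.gr.ends k2 (by
      simp only [BM.del, mem_sdiff, mem_singleton]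
      exact ⟨hk, hke⟩)
    have hjab : Jn h t k2 a b := by
      rcases hk2a.2 with p | p <;> rcases h3.2 with q | q
      · exact absurd (p.symm.trans q) S.ab
      · exact Or.inl ⟨p, q⟩
      · exact Or.inr ⟨q, p⟩
      · exact absurd (p.symm.trans q) S.ab
    exact S.step4F_par hd hk hke hkk hk1 hk2 hjab

theorem SitI.step4 (h0 : (ofRows rows).TC) (S : SitI rows M U h t e k g1 g2 y a b c d)
    (hcd : c ≠ d) (hU : 6 ≤ U.card) {k2 : E}
    (hk : k2 ∈ M.S) (hke : k2 ≠ e) (hkk : k2 ≠ k) (hk1 : k2 ≠ g1) (hk2 : k2 ≠ g2)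
    (hsc : (M.del {e, k, k2}).SC) (hT : HasT rows (M.del {e, k, k2})) :
    Good M h t e g1 a c d ∨ Good M h t e g2 b c d := by
  have hd := S.deg_d h0 hcd
  rcases S.step4_dich hd hk hke hkk hk1 hk2 hsc with h1 | ⟨x1, h1, h2⟩ | ⟨x1, h1, h2⟩
  · exact S.step4_A h0 hcd hd hU hk hke hkk hk1 hk2 hsc hT h1
  · exact S.step4F_B h0 hcd hd hU hk hke hkk hk1 hk2 hsc hT h1 h2
  · exact (S.symm_ab.step4F_B h0 hcd hd hU hk hke hkk hk2 hk1 hsc hT h1 h2).symm

end SEY

end
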