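import Pool.Agent.Helper29.MFA.T33
import Pool.Agent.Helper29.MFA.T28

section

/-!
T3-Step3x.
T3-Step3 (k2 = f).  H' del f = M.del {e,k,g1,g2} (as in M.del {e,g1,g2} the element k is a pendant
edge at y: deleting = contracting) is assumed to be SC and HasT.

* `step3_x`: N(a) = {y,c,m}, N(b) = {y,d,m}: contract pm = the edge b m (merge b into m).
  K1 := (M.con {p4}).del {e,k,g1,g2} is SC, Two (`con_two` in H' del f: the star of b there is {p3,p4}), HasT.  Its graph: U - {y,b}.  In it a has the two edges p1 = ac,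
  p2 = am; p3 = (m,d).
  Add y with the ear {g1,k}: `gext2` (y, u = a, v = d): no edge joins a, d (a has only p1,p2 to c, m; d /= c, m), no
  vertex s of degree 2 has the neighbours a, d: s is adjacent to a so s = c or m (as edges of H'/..): degree 2 vertices of K1: only a (and
  those of H' del f are a, b).  So (M.con {p4}).del {e,g2} is SC, Two.  Add g2 = (y,m): `gext`: y has the
  edges g1, k to a, d (m /= a, d): not parallel; degree 2 vertices s /= y, m: none (a has g1,p1,p2).  So (M.con {p4}).del {e} is SC, Two and all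
  degrees are >= 3: TC, HasT by `HasT_of_del`.  T: b in T, m not in T: `IsGraft.con` (merge b into m): {y,a,c,m}: 4 elements (m /= y,a,c).
  No edge parallel to p4 in H.  `MinCx.false_of_graft`.
-/

namespace SEY

open Finset

variable {E : Type} [Fintype E] [DecidableEq E] {V : Type} [Fintype V] [DecidableEq V]
variable {r l : ℕ} {rows : Fin r → Fin l → ZMod 2} {M : BM E} {U : Finset V} {h t : E → V}
  {e k g1 g2 : E} {y a b c d : V}

omit [Fintype V] in
theorem step3x_mg {b m v w : V} (hvb : v ≠ b) (hvm : v ≠ m) : mg b m w = v ↔ w = v := by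
  unfold mg
  by_cases h1 : w = b
  · rw [if_pos h1, h1]
    exact ⟨fun h2 => absurd h2.symm hvm, fun h2 => absurd h2.symm hvb⟩
  · rw [if_neg h1]

omit [Fintype V] in
theorem step3x_mg_self {b m w : V} (hw : w ≠ b) : mg b m w = w := by
  rw [mg, if_neg hw]

omit [Fintype E] [Fintype V] in
theorem step3x_star {S : Finset E} {h t : E → V} {b m v : V} (hvb : v ≠ b) (hvm : v ≠ m) :
    star S (fun x => mg b m (h x)) (fun x => mg b m (t x)) v = star S h t v := by
  ext x
  simp only [star, Finset.mem_filter, step3x_mg hvb hvm]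

omit [Fintype E] [Fintype V] in
theorem step3x_star_m {S : Finset E} {h t : E → V} {b m : V} {x : E} (hx : x ∈ S)
    (hm : h x = b ∨ h x = m ∨ t x = b ∨ t x = m) :
    x ∈ star S (fun x => mg b m (h x)) (fun x => mg b m (t x)) m := by
  have h1 : mg b m b = m := by rw [mg, if_pos rfl]
  have h2 : mg b m m = m := by
    unfold mg
    split_ifs <;> rfl
  rw [star, Finset.mem_filter]
  refine ⟨hx, ?_⟩
  rcases hm with h3 | h3 | h3 | h3
  · left
    show mg b m (h x) = m
    rw [h3, h1]
  · left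
    show mg b m (h x) = m
    rw [h3, h2]
  · right
    show mg b m (t x) = m
    rw [h3, h1]
  · right
    show mg b m (t x) = m
    rw [h3, h2]

omit [Fintype E] [DecidableEq E] [Fintype V] in
theorem step3x_jn {h t : E → V} {b m u v : V} {x : E} (hj : Jn h t x u v) :
    Jn (fun x => mg b m (h x)) (fun x => mg b m (t x)) x (mg b m u) (mg b m v) := by
  rcases hj with ⟨h1, h2⟩ | ⟨h1, h2⟩
  · left
    exact ⟨by show mg b m (h x) = _; rw [h1], by show mg b m (t x) = _; rw [h2]⟩
  · right
    exact ⟨by show mg b m (h x) = _; rw [h1], by show mg b m (t x) = _; rw [h2]⟩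

omit [Fintype E] [Fintype V] in
theorem step3x_end {S : Finset E} {h t : E → V} {x : E} {u v w : V} (hj : Jn h t x u v)
    (h1 : w ≠ u) (h2 : w ≠ v) : x ∉ star S h t w := by
  intro hx
  rcases (Finset.mem_filter.1 hx).2 with h3 | h3 <;> rcases hj with ⟨h4, h5⟩ | ⟨h4, h5⟩
  · exact h1 (h3.symm.trans h4)
  · exact h2 (h3.symm.trans h4)
  · exact h2 (h3.symm.trans h5)
  · exact h1 (h3.symm.trans h5)

theorem step3x_pair {x p q : E} {A : Finset E} (hA : A = {p, q}) (h3 : 3 ≤ A.card) :
    False := by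
  have h1 := Finset.card_insert_le p {q}
  rw [Finset.card_singleton] at h1
  rw [hA] at h3
  omega

/-- The graph `H' del f` and its properties. -/
theorem SitI.step3x_base (S : SitI rows M U h t e k g1 g2 y a b c d)
    (hd : 4 ≤ (star (M.S \ {e}) h t d).card) :
    IsGr (M.del {e, k, g1, g2}) (U.erase y) h t ∧ (M.del {e, k, g1, g2}).Two := by
  have hmem : ∀ x ∈ ({k, g1, g2} : Finset E), x ∈ M.S ∧ x ≠ e := by
    intro x hx
    rw [← S.st] at hx
    have h1 := (Finset.mem_filter.1 hx).1
    rw [Finset.mem_sdiff, Finset.mem_singleton] at h1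
    exact h1
  have hkS := hmem k (by simp)
  have hg1S := hmem g1 (by simp)
  have hg2S := hmem g2 (by simp)
  have hyU : y ∈ U := S.gr.sub (by simp)
  have hkg1 : k ≠ g1 := by
    intro hk
    have := step3a_jn_inj S.yd.symm S.jk (hk ▸ S.j1)
    exact S.ad this
  have hkg2 : k ≠ g2 := by
    intro hk
    have := step3a_jn_inj S.yd.symm S.jk (hk ▸ S.j2)
    exact S.bd this
  have hg12 : g1 ≠ g2 := by
    intro hk
    have := step3a_jn_inj S.ya.symm S.j1 (hk ▸ S.j2)
    exact S.ab this.symm
  have hrow : ind ({e, k, g1, g2} : Finset E) ∈ M.R := by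
    have h1 := S.gr.star_mem hyU
    rw [if_pos (by simp), S.st] at h1
    exact h1
  have hEq : ((M.con {g2}).del {e, k}).del {g1} = M.del {e, k, g1, g2} := by
    rw [BM.del_del]
    have h2 := step3a_con_del (x := g2) (by simp) hrow
    rw [← h2, ← BM.con_del_sdiff M {g2} {e, k, g1, g2}]
    have h3 : ({e, k, g1, g2} : Finset E) \ {g2} = {e, k} ∪ {g1} := by
      ext x
      simp only [Finset.mem_union, Finset.mem_singleton, Finset.mem_sdiff, Finset.mem_insert]
      constructor
      · rintro ⟨h2 | h2 | h2 | h2, h3⟩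
        · exact Or.inl (Or.inl h2)
        · exact Or.inl (Or.inr h2)
        · exact Or.inr h2
        · exact absurd h2 h3
      · rintro ((rfl | rfl) | rfl)
        · exact ⟨Or.inl rfl, hg2S.2.symm⟩
        · exact ⟨Or.inr (Or.inl rfl), hkg2⟩
        · exact ⟨Or.inr (Or.inr (Or.inl rfl)), hg12⟩
    rw [h3]
  have hptc := S.hp_tc hd
  have hg1' : g1 ∈ ((M.con {g2}).del {e, k}).S := by
    simp [hg1S.1, hg1S.2, hkg1.symm, hg12]
  constructor
  · have h1 := S.hp_gr.del hg1' (BM.TC.exists_cycle hptc hg1')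
    rw [hEq] at h1
    refine h1.congr ?_
    intro x hx
    have hx' : x ∈ M.S ∧ x ≠ e ∧ x ≠ k ∧ x ≠ g1 ∧ x ≠ g2 := by
      simpa [not_or] using hx
    have hst : x ∉ star (M.S \ {e}) h t y := by
      rw [S.st]
      simp only [Finset.mem_insert, Finset.mem_singleton, not_or]
      exact hx'.2.2
    have hxS : x ∈ M.S \ {e} := by simp [hx'.1, hx'.2.1]
    have h2 : h x ≠ y := fun h3 => hst (Finset.mem_filter.2 ⟨hxS, Or.inl h3⟩)
    have h3 : t x ≠ y := fun h3 => hst (Finset.mem_filter.2 ⟨hxS, Or.inr h3⟩)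
    left
    exact ⟨step3x_mg_self h2, step3x_mg_self h3⟩
  · have h1 := TC.del_two hptc (e := g1) hg1'
    rw [hEq] at h1
    exact h1

theorem SitI.step3_x (h0 : (ofRows rows).TC) (S : SitI rows M U h t e k g1 g2 y a b c d)
    (hcd : c ≠ d) (hd : 4 ≤ (star (M.S \ {e}) h t d).card)
    (hsc : (M.del {e, k, g1, g2}).SC) (hT : HasT rows (M.del {e, k, g1, g2}))
    (hb : Bad3 M h t e g1 g2 a b c d) : False := by
  obtain ⟨p1, p2, p3, p4, m, hmc, hmd, hsta, hstb, hj1, hj2, hj3, hj4⟩ := hb
  obtain ⟨hN0gr, hN0two⟩ := S.step3x_base hd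
  have hH := S.gr.gr
  have htc := S.tc
  have hscH : (M.del {e}).SC := ((TC_iff_SC _).1 htc).1
  -- membership of edges
  have hmem : ∀ x ∈ ({k, g1, g2} : Finset E), x ∈ M.S ∧ x ≠ e := by
    intro x hx
    rw [← S.st] at hx
    have h1 := (Finset.mem_filter.1 hx).1
    rw [Finset.mem_sdiff, Finset.mem_singleton] at h1
    exact h1
  have hmema : ∀ x ∈ ({g1, p1, p2} : Finset E), x ∈ M.S ∧ x ≠ e := by
    intro x hx
    rw [← hsta] at hx
    have h1 := (Finset.mem_filter.1 hx).1
    rw [Finset.mem_sdiff, Finset.mem_singleton] at h1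
    exact h1
  have hmemb : ∀ x ∈ ({g2, p3, p4} : Finset E), x ∈ M.S ∧ x ≠ e := by
    intro x hx
    rw [← hstb] at hx
    have h1 := (Finset.mem_filter.1 hx).1
    rw [Finset.mem_sdiff, Finset.mem_singleton] at h1
    exact h1
  have hkS := hmem k (by simp)
  have hg1S := hmem g1 (by simp)
  have hg2S := hmem g2 (by simp)
  have hp1S := hmema p1 (by simp)
  have hp2S := hmema p2 (by simp)
  have hp3S := hmemb p3 (by simp)
  have hp4S := hmemb p4 (by simp)
  have inH : ∀ x, x ∈ M.S ∧ x ≠ e → x ∈ (M.del {e}).S := by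
    intro x hx
    exact Finset.mem_sdiff.2 ⟨hx.1, by rw [Finset.mem_singleton]; exact hx.2⟩
  have hyU : y ∈ U := S.gr.sub (by simp)
  have haU : a ∈ U := S.gr.sub (by simp)
  have hbU : b ∈ U := S.gr.sub (by simp)
  have hcU : c ∈ U := S.gr.sub (by simp)
  have hends : ∀ x, x ∈ M.S ∧ x ≠ e → ∀ u v, Jn h t x u v → u ∈ U ∧ v ∈ U ∧ u ≠ v := by
    intro x hx u v hj
    obtain ⟨q1, q2, q3⟩ := hH.ends x (inH x hx)
    rcases hj with ⟨q4, q5⟩ | ⟨q4, q5⟩
    · rw [q4] at q1 q3
      rw [q5] at q2 q3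
      exact ⟨q1, q2, q3⟩
    · rw [q4] at q1 q3
      rw [q5] at q2 q3
      exact ⟨q2, q1, q3.symm⟩
  have hdU : d ∈ U := (hends k hkS y d S.jk).2.1
  have hmU : m ∈ U := (hends p2 hp2S a m hj2).2.1
  have ham : a ≠ m := (hends p2 hp2S a m hj2).2.2
  have hbm : b ≠ m := (hends p4 hp4S b m hj4).2.2
  -- distinct edges
  have hkg1 : k ≠ g1 := by
    intro hk
    have := step3a_jn_inj S.yd.symm S.jk (hk ▸ S.j1)
    exact S.ad this
  have hkg2 : k ≠ g2 := by
    intro hk
    have := step3a_jn_inj S.yd.symm S.jk (hk ▸ S.j2)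
    exact S.bd this
  have hg12 : g1 ≠ g2 := by
    intro hk
    have := step3a_jn_inj S.ya.symm S.j1 (hk ▸ S.j2)
    exact S.ab this.symm
  have hda : 3 ≤ ({g1, p1, p2} : Finset E).card := by
    rw [← hsta]
    exact TC.three_le_deg htc hH haU
  have hdb : 3 ≤ ({g2, p3, p4} : Finset E).card := by
    rw [← hstb]
    exact TC.three_le_deg htc hH hbU
  have hthree : ∀ p q s : E, 3 ≤ ({p, q, s} : Finset E).card → p ≠ q ∧ p ≠ s ∧ q ≠ s := by
    intro p q s h3
    refine ⟨?_, ?_, ?_⟩
    · rintro rfl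
      rw [Finset.insert_idem] at h3
      exact step3x_pair (x := p) rfl h3
    · rintro rfl
      rw [Finset.insert_eq_of_mem (by simp)] at h3
      exact step3x_pair (x := p) rfl h3
    · rintro rfl
      rw [Finset.pair_eq_singleton] at h3
      exact step3x_pair (x := p) rfl h3
  obtain ⟨hg1p1, hg1p2, hp12⟩ := hthree _ _ _ hda
  obtain ⟨hg2p3, hg2p4, hp34⟩ := hthree _ _ _ hdb
  have hym : y ≠ m := by
    intro hym
    rw [← hym] at hj2
    exact hg1p2 (hH.no_par hscH (inH g1 hg1S) (inH p2 hp2S) S.j1 hj2.symm)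
  -- the edges at `b` are not at `y`, `a`
  have hp4k : p4 ≠ k := by
    intro h1
    have h2 : p4 ∉ star (M.S \ {e}) h t b := by
      rw [h1]
      exact step3x_end S.jk S.yb.symm S.bd
    exact h2 (by rw [hstb]; simp)
  have hp4g1 : p4 ≠ g1 := by
    intro h1
    have h2 : p4 ∉ star (M.S \ {e}) h t b := by
      rw [h1]
      exact step3x_end S.j1 S.yb.symm S.ab.symm
    exact h2 (by rw [hstb]; simp)
  have hp3k : p3 ≠ k := by
    intro h1
    have h2 : p3 ∉ star (M.S \ {e}) h t b := by
      rw [h1]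
      exact step3x_end S.jk S.yb.symm S.bd
    exact h2 (by rw [hstb]; simp)
  have hp3g1 : p3 ≠ g1 := by
    intro h1
    have h2 : p3 ∉ star (M.S \ {e}) h t b := by
      rw [h1]
      exact step3x_end S.j1 S.yb.symm S.ab.symm
    exact h2 (by rw [hstb]; simp)
  have hnota : ∀ x, x ∈ ({g1, p1, p2} : Finset E) → x ≠ p4 := by
    intro x hx h1
    rw [← hsta, h1] at hx
    exact step3x_end hj4 S.ab ham hx
  have hp1p4 : p1 ≠ p4 := hnota p1 (by simp)
  have hp2p4 : p2 ≠ p4 := hnota p2 (by simp)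
  have hnotag : ∀ x, x ∈ ({g1, p1, p2} : Finset E) → x ≠ g2 := by
    intro x hx h1
    rw [← hsta, h1] at hx
    exact step3x_end S.j2 S.ya.symm S.ab hx
  -- no edge parallel to `p4`
  have hnopar : ∀ x ∈ M.S, x ≠ e → x ≠ p4 → ¬ Jn h t x b m := by
    intro x hx hxe hxp hj
    exact hxp (hH.no_par hscH (inH x ⟨hx, hxe⟩) (inH p4 hp4S) hj hj4)
  -- the graph `K1`
  have hp4N : p4 ∈ (M.del {e, k, g1, g2}).S := by
    simp [hp4S.1, hp4S.2, hp4k, hp4g1, hg2p4.symm]
  have hp3N : p3 ∈ (M.del {e, k, g1, g2}).S := by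
    simp [hp3S.1, hp3S.2, hp3k, hp3g1, hg2p3.symm]
  have hbU' : b ∈ U.erase y := Finset.mem_erase.2 ⟨S.yb.symm, hbU⟩
  have hstb' : star (M.del {e, k, g1, g2}).S h t b = {p3, p4} := by
    have h1 : star (M.del {e, k, g1, g2}).S h t b =
        star (M.S \ {e}) h t b \ {k, g1, g2} := by
      ext x
      simp only [BM.del_S, star, Finset.mem_filter, Finset.mem_sdiff, Finset.mem_insert,
        Finset.mem_singleton]
      tauto
    rw [h1, hstb]
    ext x
    simp only [Finset.mem_sdiff, Finset.mem_insert, Finset.mem_singleton, not_or]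
    constructor
    · rintro ⟨h2 | h2 | h2, h3, h4, h5⟩
      · exact absurd h2 h5
      · exact Or.inl h2
      · exact Or.inr h2
    · rintro (rfl | rfl)
      · exact ⟨Or.inr (Or.inl rfl), hp3k, hp3g1, hg2p3.symm⟩
      · exact ⟨Or.inr (Or.inr rfl), hp4k, hp4g1, hg2p4.symm⟩
  have hdisj : Disjoint ({p4} : Finset E) {e, k, g1, g2} := by
    rw [Finset.disjoint_singleton_left]
    simp only [Finset.mem_insert, Finset.mem_singleton, not_or]
    exact ⟨hp4S.2, hp4k, hp4g1, hg2p4.symm⟩
  have hK1eq : (M.del {e, k, g1, g2}).con {p4} = (M.con {p4}).del {e, k, g1, g2} :=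
    con_del_comm M {p4} {e, k, g1, g2} hdisj
  obtain ⟨hK1sc, hK1two⟩ := con_two hN0gr hbU' hstb' hp34 hsc hN0two
  rw [hK1eq] at hK1sc hK1two
  have hK1gr : IsGr ((M.con {p4}).del {e, k, g1, g2}) ((U.erase b).erase y)
      (fun x => mg b m (h x)) (fun x => mg b m (t x)) := by
    have h1 := hN0gr.con hp4N hj4 (by
      intro x hx hxp
      have hx' : x ∈ M.S ∧ x ≠ e := by
        simp only [BM.del_S, Finset.mem_sdiff, Finset.mem_insert, not_or] at hx
        exact ⟨hx.1, hx.2.1⟩
      exact hnopar x hx'.1 hx'.2 hxp) (by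
      have h3 : ({p3, p4} : Finset E) ⊆ (M.del {e, k, g1, g2}).S := by
        intro x hx
        simp only [Finset.mem_insert, Finset.mem_singleton] at hx
        rcases hx with rfl | rfl
        · exact hp3N
        · exact hp4N
      have h4 := Finset.card_le_card h3
      rwa [Finset.card_pair hp34] at h4)
    rw [hK1eq, Finset.erase_right_comm] at h1
    exact h1
  have hK1T : HasT rows ((M.con {p4}).del {e, k, g1, g2}) := by
    have hs : (M.del {e, k, g1, g2}).Ser p4 p3 := by
      rw [hN0gr.star2 hsc hN0two hp4N hp3N hp34.symm]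
      exact ⟨b, hbU', by rw [hstb', Finset.pair_comm]⟩
    have h1 := HasT_con h0 hp4N hp3N hp34.symm hs hT
    rwa [hK1eq] at h1
  -- the graft
  have hgraft : IsGraft (M.con {p4}) e (U.erase b) (fun x => mg b m (h x))
      (fun x => mg b m (t x)) {y, a, c, m} := by
    have h1 := S.gr.con hp4S.1 hp4S.2 hj4 hnopar (by
      have h3 : ({g2, p3, p4} : Finset E) ⊆ M.S := fun x hx => (hmemb x hx).1
      have h4 := Finset.card_le_card h3
      omega)
    rw [if_pos (by simp)] at h1
    convert h1 using 1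
    ext x
    simp only [Finset.mem_insert, Finset.mem_singleton, Finset.mem_symmDiff, Finset.mem_erase]
    constructor
    · rintro (rfl | rfl | rfl | rfl)
      · exact Or.inl ⟨⟨S.yb, Or.inl rfl⟩, hym⟩
      · exact Or.inl ⟨⟨S.ab, Or.inr (Or.inl rfl)⟩, ham⟩
      · exact Or.inl ⟨⟨S.bc.symm, Or.inr (Or.inr (Or.inr rfl))⟩, hmc.symm⟩
      · refine Or.inr ⟨rfl, ?_⟩
        rintro ⟨h2, h3 | h3 | h3 | h3⟩
        · exact hym h3.symm
        · exact ham h3.symm
        · exact h2 h3
        · exact hmc h3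
    · rintro (⟨⟨h2, h3 | h3 | h3 | h3⟩, h4⟩ | ⟨h2, h3⟩)
      · exact Or.inl h3
      · exact Or.inr (Or.inl h3)
      · exact absurd h3 h2
      · exact Or.inr (Or.inr (Or.inl h3))
      · exact Or.inr (Or.inr (Or.inr h2))
  have hH1gr := hgraft.gr
  -- `K2`
  have hK2gr : IsGr ((M.con {p4}).del {e, g2}) (U.erase b) (fun x => mg b m (h x))
      (fun x => mg b m (t x)) := by
    have h1 := hH.del (inH g2 hg2S) (BM.TC.exists_cycle htc (inH g2 hg2S))
    rw [del_del] at h1
    have h1' : IsGr (M.del {e, g2}) U h t := h1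
    have hp4' : p4 ∈ (M.del {e, g2}).S := by simp [hp4S.1, hp4S.2, hg2p4.symm]
    have hp3' : p3 ∈ (M.del {e, g2}).S := by simp [hp3S.1, hp3S.2, hg2p3.symm]
    have h2 := h1'.con hp4' hj4 (by
      intro x hx hxp
      have hx' : x ∈ M.S ∧ x ≠ e := by
        simp only [BM.del_S, Finset.mem_sdiff, Finset.mem_insert, not_or] at hx
        exact ⟨hx.1, hx.2.1⟩
      exact hnopar x hx'.1 hx'.2 hxp) (by
      have h3 : ({p3, p4} : Finset E) ⊆ (M.del {e, g2}).S := by
        intro x hx
        simp only [Finset.mem_insert, Finset.mem_singleton] at hx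
        rcases hx with rfl | rfl
        · exact hp3'
        · exact hp4'
      have h4 := Finset.card_le_card h3
      rwa [Finset.card_pair hp34] at h4)
    rw [con_del_comm M {p4} {e, g2} (by
      rw [Finset.disjoint_singleton_left]
      simp only [Finset.mem_insert, Finset.mem_singleton, not_or]
      exact ⟨hp4S.2, hg2p4.symm⟩)] at h2
    exact h2
  -- degrees
  have hdegK : ∀ S' : Finset E,
      (∀ x ∈ M.S, x ≠ e → x ≠ k → x ≠ g1 → x ≠ g2 → x ≠ p4 → x ∈ S') →
      3 ≤ (star S' (fun x => mg b m (h x)) (fun x => mg b m (t x)) c).card ∧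
      3 ≤ (star S' (fun x => mg b m (h x)) (fun x => mg b m (t x)) m).card := by
    intro S' hS'
    constructor
    · rw [step3x_star S.bc.symm hmc.symm]
      refine le_trans (TC.three_le_deg htc hH hcU) (Finset.card_le_card ?_)
      intro x hx
      have hx1 := (Finset.mem_filter.1 hx).1
      have hx2 := (Finset.mem_filter.1 hx).2
      rw [BM.del_S, Finset.mem_sdiff, Finset.mem_singleton] at hx1
      refine Finset.mem_filter.2 ⟨hS' x hx1.1 hx1.2 ?_ ?_ ?_ ?_, hx2⟩
      · rintro rfl
        exact step3x_end S.jk S.yc.symm hcd hx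
      · rintro rfl
        exact step3x_end S.j1 S.yc.symm S.ac.symm hx
      · rintro rfl
        exact step3x_end S.j2 S.yc.symm S.bc.symm hx
      · rintro rfl
        exact step3x_end hj4 S.bc.symm hmc.symm hx
    · have h3 : 3 ≤ (star (M.S \ {e}) h t m).card := TC.three_le_deg htc hH hmU
      have h4 : p3 ∉ (star (M.S \ {e}) h t m).erase p4 := by
        intro hx
        exact step3x_end hj3 hbm.symm hmd (Finset.mem_of_mem_erase hx)
      have h5 : insert p3 ((star (M.S \ {e}) h t m).erase p4) ⊆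
          star S' (fun x => mg b m (h x)) (fun x => mg b m (t x)) m := by
        intro x hx
        rw [Finset.mem_insert] at hx
        rcases hx with rfl | hx
        · refine step3x_star_m (hS' x hp3S.1 hp3S.2 hp3k hp3g1 hg2p3.symm hp34) ?_
          rcases hj3 with ⟨q1, q2⟩ | ⟨q1, q2⟩
          · exact Or.inl q1
          · exact Or.inr (Or.inr (Or.inl q2))
        · rw [Finset.mem_erase] at hx
          have hx1 := (Finset.mem_filter.1 hx.2).1
          have hx2 := (Finset.mem_filter.1 hx.2).2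
          rw [Finset.mem_sdiff, Finset.mem_singleton] at hx1
          refine step3x_star_m (hS' x hx1.1 hx1.2 ?_ ?_ ?_ hx.1) ?_
          · rintro rfl
            exact step3x_end S.jk hym.symm hmd hx.2
          · rintro rfl
            exact step3x_end S.j1 hym.symm ham.symm hx.2
          · rintro rfl
            exact step3x_end S.j2 hym.symm hbm.symm hx.2
          · rcases hx2 with hx2 | hx2
            · exact Or.inr (Or.inl hx2)
            · exact Or.inr (Or.inr (Or.inr hx2))
      have h6 := Finset.card_le_card h5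
      rw [Finset.card_insert_of_notMem h4] at h6
      have h7 := Finset.pred_card_le_card_erase (s := star (M.S \ {e}) h t m) (a := p4)
      omega
  have hgen : ∀ (S' : Finset E) (v : V), v ≠ b → v ≠ m →
      (∀ x ∈ star (M.S \ {e}) h t v, x ∈ S') →
      (star (M.S \ {e}) h t v).card ≤
        (star S' (fun x => mg b m (h x)) (fun x => mg b m (t x)) v).card := by
    intro S' v hvb hvm hS'
    rw [step3x_star hvb hvm]
    refine Finset.card_le_card ?_
    intro x hx
    exact Finset.mem_filter.2 ⟨hS' x hx, (Finset.mem_filter.1 hx).2⟩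
  have hyb' : mg b m y = y := step3x_mg_self S.yb
  have hab' : mg b m a = a := step3x_mg_self S.ab
  have hdb' : mg b m d = d := step3x_mg_self S.bd.symm
  have hcb' : mg b m c = c := step3x_mg_self S.bc.symm
  have hmb' : mg b m m = m := step3x_mg_self hbm.symm
  have hbb' : mg b m b = m := by rw [mg, if_pos rfl]
  have jg1 : Jn (fun x => mg b m (h x)) (fun x => mg b m (t x)) g1 y a := by
    have h1 := step3x_jn (b := b) (m := m) S.j1
    rwa [hyb', hab'] at h1
  have jg1' : Jn (fun x => mg b m (h x)) (fun x => mg b m (t x)) g1 a y := Or.symm jg1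
  have jg2 : Jn (fun x => mg b m (h x)) (fun x => mg b m (t x)) g2 y m := by
    have h1 := step3x_jn (b := b) (m := m) S.j2
    rwa [hyb', hbb'] at h1
  have jk' : Jn (fun x => mg b m (h x)) (fun x => mg b m (t x)) k y d := by
    have h1 := step3x_jn (b := b) (m := m) S.jk
    rwa [hyb', hdb'] at h1
  have jp1 : Jn (fun x => mg b m (h x)) (fun x => mg b m (t x)) p1 a c := by
    have h1 := step3x_jn (b := b) (m := m) hj1
    rwa [hab', hcb'] at h1
  have jp2 : Jn (fun x => mg b m (h x)) (fun x => mg b m (t x)) p2 a m := by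
    have h1 := step3x_jn (b := b) (m := m) hj2
    rwa [hab', hmb'] at h1
  -- an edge joining `a` and `v` in the new graph
  have hjoina : ∀ x ∈ M.S, x ≠ e → ∀ v,
      Jn (fun x => mg b m (h x)) (fun x => mg b m (t x)) x a v →
      (x = g1 ∧ v = y) ∨ (x = p1 ∧ v = c) ∨ (x = p2 ∧ v = m) := by
    intro x hx hxe v hj
    have h1 : x ∈ star (M.S \ {e}) (fun x => mg b m (h x)) (fun x => mg b m (t x)) a :=
      step3a_jn_star (by simp [hx, hxe]) hj
    rw [step3x_star S.ab ham, hsta] at h1
    simp only [Finset.mem_insert, Finset.mem_singleton] at h1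
    rcases h1 with rfl | rfl | rfl
    · exact Or.inl ⟨rfl, step3a_jn_inj S.ya jg1' hj⟩
    · exact Or.inr (Or.inl ⟨rfl, step3a_jn_inj S.ac.symm jp1 hj⟩)
    · exact Or.inr (Or.inr ⟨rfl, step3a_jn_inj ham.symm jp2 hj⟩)
  have hjoiny : ∀ x ∈ M.S, x ≠ e → ∀ v,
      Jn (fun x => mg b m (h x)) (fun x => mg b m (t x)) x y v →
      (x = k ∧ v = d) ∨ (x = g1 ∧ v = a) ∨ (x = g2 ∧ v = m) := by
    intro x hx hxe v hj
    have h1 : x ∈ star (M.S \ {e}) (fun x => mg b m (h x)) (fun x => mg b m (t x)) y :=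
      step3a_jn_star (by simp [hx, hxe]) hj
    rw [step3x_star S.yb hym, S.st] at h1
    simp only [Finset.mem_insert, Finset.mem_singleton] at h1
    rcases h1 with rfl | rfl | rfl
    · exact Or.inl ⟨rfl, step3a_jn_inj S.yd.symm jk' hj⟩
    · exact Or.inr (Or.inl ⟨rfl, step3a_jn_inj S.ya.symm jg1 hj⟩)
    · exact Or.inr (Or.inr ⟨rfl, step3a_jn_inj hym.symm jg2 hj⟩)
  have hyU' : y ∈ U.erase b := Finset.mem_erase.2 ⟨S.yb, hyU⟩
  -- add the ear
  have hdel1 : ((M.con {p4}).del {e, g2}).del {g1, k} = (M.con {p4}).del {e, k, g1, g2} := by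
    rw [del_del]
    congr 1
    ext x
    simp only [Finset.mem_union, Finset.mem_insert, Finset.mem_singleton]
    tauto
  have hK2 : ((M.con {p4}).del {e, g2}).SC ∧ ((M.con {p4}).del {e, g2}).Two := by
    refine gext2 (p := g1) (q := k) (y := y) (u := a) (v := d) hK2gr hyU' ?_ hkg1.symm jg1 jk'
      S.ad ?_ ?_ ?_ ?_ ?_
    · rw [step3x_star S.yb hym]
      have h1 : star ((M.con {p4}).del {e, g2}).S h t y =
          star (M.S \ {e}) h t y \ {p4, g2} := by
        ext x
        simp only [BM.del_S, BM.con_S, star, Finset.mem_filter, Finset.mem_sdiff,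
          Finset.mem_insert, Finset.mem_singleton]
        tauto
      rw [h1, S.st]
      ext x
      simp only [Finset.mem_sdiff, Finset.mem_insert, Finset.mem_singleton, not_or]
      constructor
      · rintro ⟨h2 | h2 | h2, h3, h4⟩
        · exact Or.inr h2
        · exact Or.inl h2
        · exact absurd h2 h4
      · rintro (rfl | rfl)
        · exact ⟨Or.inr (Or.inl rfl), hp4g1.symm, hg12⟩
        · exact ⟨Or.inl rfl, hp4k.symm, hkg2⟩
    · rw [hdel1]
      exact hK1gr
    · rw [hdel1]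
      exact hK1sc
    · rw [hdel1]
      exact hK1two
    · intro x hx hj
      have hx' : x ∈ M.S ∧ x ≠ e := by
        simp only [BM.del_S, BM.con_S, Finset.mem_sdiff, Finset.mem_insert,
          Finset.mem_singleton, not_or] at hx
        exact ⟨hx.1.1, hx.2.1⟩
      rcases hjoina x hx'.1 hx'.2 d hj with ⟨-, h2⟩ | ⟨-, h2⟩ | ⟨-, h2⟩
      · exact S.yd h2.symm
      · exact hcd h2.symm
      · exact hmd h2.symm
    · intro s hs hsy p' hp' q' hq' hst' hjp hjq
      have hpm : p' ∈ star (((M.con {p4}).del {e, g2}).S \ {g1, k})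
          (fun x => mg b m (h x)) (fun x => mg b m (t x)) s := by
        rw [hst']
        simp
      have hp1' := (Finset.mem_filter.1 hpm).1
      have hp2' : (p' ∈ M.S ∧ p' ≠ e) ∧ p' ≠ g1 := by
        simp only [BM.del_S, BM.con_S, Finset.mem_sdiff, Finset.mem_insert,
          Finset.mem_singleton, not_or] at hp1'
        exact ⟨⟨hp1'.1.1.1, hp1'.1.2.1⟩, hp1'.2.1⟩
      obtain ⟨hdc, hdm⟩ := hdegK (((M.con {p4}).del {e, g2}).S \ {g1, k}) (by
        intro x hx h1 h2 h3 h4 h5
        simp [hx, h1, h2, h3, h4, h5])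
      rcases hjoina p' hp2'.1.1 hp2'.1.2 s hjp.symm with ⟨h2, -⟩ | ⟨-, h2⟩ | ⟨-, h2⟩
      · exact hp2'.2 h2
      · rw [h2] at hst'
        exact step3x_pair (x := p') hst' hdc
      · rw [h2] at hst'
        exact step3x_pair (x := p') hst' hdm
  -- add `g2`
  have hdel2 : ((M.con {p4}).del {e}).del {g2} = (M.con {p4}).del {e, g2} := by
    rw [del_del]
    rfl
  have hg2' : g2 ∈ ((M.con {p4}).del {e}).S := by
    simp [hg2S.1, hg2S.2, hg2p4]
  have hH1 : ((M.con {p4}).del {e}).SC ∧ ((M.con {p4}).del {e}).Two := by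
    refine gext (x := g2) (u := y) (v := m) hg2' hH1gr ?_ ?_ ?_ jg2 ?_ ?_
    · rw [hdel2]
      exact hK2gr
    · rw [hdel2]
      exact hK2.1
    · rw [hdel2]
      exact hK2.2
    · intro x hx hxg hj
      have hx' : x ∈ M.S ∧ x ≠ e := by
        simp only [BM.del_S, BM.con_S, Finset.mem_sdiff, Finset.mem_singleton] at hx
        exact ⟨hx.1.1, hx.2⟩
      rcases hjoiny x hx'.1 hx'.2 m hj with ⟨-, h2⟩ | ⟨-, h2⟩ | ⟨h2, -⟩
      · exact hmd h2
      · exact ham h2.symm
      · exact hxg h2
    · intro s hs hsy hsm p' hp' q' hq' hst' hjp hjq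
      have hpm : p' ∈ star (((M.con {p4}).del {e}).S \ {g2})
          (fun x => mg b m (h x)) (fun x => mg b m (t x)) s := by
        rw [hst']
        simp
      have hp1' := (Finset.mem_filter.1 hpm).1
      have hp2' : (p' ∈ M.S ∧ p' ≠ e) ∧ p' ≠ g2 := by
        simp only [BM.del_S, BM.con_S, Finset.mem_sdiff, Finset.mem_insert,
          Finset.mem_singleton, not_or] at hp1'
        exact ⟨⟨hp1'.1.1.1, hp1'.1.2⟩, hp1'.2⟩
      rcases hjoiny p' hp2'.1.1 hp2'.1.2 s hjp.symm with ⟨-, h2⟩ | ⟨-, h2⟩ | ⟨h2, -⟩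
      · rw [h2] at hst'
        have h3 := hgen (((M.con {p4}).del {e}).S \ {g2}) d S.bd.symm hmd.symm (by
          intro x hx
          have hx1 := (Finset.mem_filter.1 hx).1
          rw [Finset.mem_sdiff, Finset.mem_singleton] at hx1
          simp only [BM.del_S, BM.con_S, Finset.mem_sdiff, Finset.mem_singleton]
          refine ⟨⟨⟨hx1.1, ?_⟩, hx1.2⟩, ?_⟩
          · rintro rfl
            exact step3x_end hj4 S.bd.symm hmd.symm hx
          · rintro rfl
            exact step3x_end S.j2 S.yd.symm S.bd.symm hx)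
        exact step3x_pair (x := p') hst' (by omega)
      · rw [h2] at hst'
        have h3 := hgen (((M.con {p4}).del {e}).S \ {g2}) a S.ab ham (by
          intro x hx
          have hx1 := (Finset.mem_filter.1 hx).1
          rw [Finset.mem_sdiff, Finset.mem_singleton] at hx1
          simp only [BM.del_S, BM.con_S, Finset.mem_sdiff, Finset.mem_singleton]
          rw [hsta] at hx
          exact ⟨⟨⟨hx1.1, hnota x hx⟩, hx1.2⟩, hnotag x hx⟩)
        have h4 : 3 ≤ (star (M.S \ {e}) h t a).card := by rw [hsta]; exact hda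
        exact step3x_pair (x := p') hst' (by omega)
      · exact hp2'.2 h2
  -- 3-connected
  have hH1tc : ((M.con {p4}).del {e}).TC := by
    refine hH1gr.tc_of_deg hH1.1 hH1.2 ?_
    intro v hv
    rw [Finset.mem_erase] at hv
    by_cases hvm : v = m
    · rw [hvm]
      exact (hdegK ((M.con {p4}).del {e}).S (by
        intro x hx h1 h2 h3 h4 h5
        simp [hx, h1, h5])).2
    · refine le_trans (TC.three_le_deg htc hH hv.2) ?_
      refine hgen _ v hv.1 hvm ?_
      intro x hx
      have hx1 := (Finset.mem_filter.1 hx).1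
      rw [Finset.mem_sdiff, Finset.mem_singleton] at hx1
      simp only [BM.del_S, BM.con_S, Finset.mem_sdiff, Finset.mem_singleton]
      refine ⟨⟨hx1.1, ?_⟩, hx1.2⟩
      rintro rfl
      exact step3x_end hj4 hv.1 hvm hx
  have hH1T : HasT rows ((M.con {p4}).del {e}) := by
    refine HasT_of_del (D := {k, g1, g2}) ?_
    rw [del_del]
    exact hK1T
  refine S.cx.false_of_graft h0 (M.con {p4}) (Minor_con M {p4}) ?_ hgraft hH1tc hH1T ?_
  · refine Finset.card_lt_card ?_
    rw [Finset.ssubset_iff_of_subset (by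
      intro x hx
      exact (Finset.mem_sdiff.1 hx).1)]
    exact ⟨p4, hp4S.1, by simp⟩
  · rw [Finset.card_insert_of_notMem, Finset.card_insert_of_notMem, Finset.card_pair hmc.symm]
    · simp only [Finset.mem_insert, Finset.mem_singleton, not_or]
      exact ⟨S.ac, ham⟩
    · simp only [Finset.mem_insert, Finset.mem_singleton, not_or]
      exact ⟨S.ya, S.yc, hym⟩

end SEY

end
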