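import Pool.Agent.Helper29.MFA.T32
import Pool.Agent.Helper29.MFA.T34
import Pool.Agent.Helper29.MFA.T35
import Pool.Agent.Helper29.MFA.T27
import Pool.Agent.Helper29.MFA.T31
import Pool.Agent.Helper29.MFA.T10

section

/-!
T3-SitF (helper25): all outcomes of a situation `SitI`.
-/

namespace SEY

open Finset

variable {E : Type} [Fintype E] [DecidableEq E] {V : Type} [Fintype V] [DecidableEq V]

/-- Contracting an element is deleting it if some row through it is inside the deleted set. -/
lemma sitF_con_eq_del (M : BM E) (D : Finset E) (g : E) (hg : g ∉ D) (ρ : E → ZMod 2)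
    (hρ : ρ ∈ M.R) (h1 : ρ g = 1) (h0 : ∀ x, x ∉ insert g D → ρ x = 0) :
    (M.con {g}).del D = M.del (insert g D) := by
  apply BM.ext'
  · ext x
    simp only [BM.del_S, BM.con_S, Finset.mem_sdiff, Finset.mem_singleton, Finset.mem_insert]
    tauto
  · intro f
    rw [BM.mem_del', BM.mem_del']
    constructor
    · rintro ⟨h2, w, hw, h3⟩
      rw [BM.mem_con] at hw
      refine ⟨fun x hx => h2 x ?_, w, hw.1, fun x hx => h3 x ?_⟩
      · intro h4
        apply hx
        simp only [BM.con_S, Finset.mem_sdiff, Finset.mem_singleton, Finset.mem_insert] at h4 ⊢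
        tauto
      · simp only [BM.con_S, Finset.mem_sdiff, Finset.mem_singleton, Finset.mem_insert] at hx ⊢
        tauto
    · rintro ⟨h2, w, hw, h3⟩
      refine ⟨fun x hx => h2 x ?_, w + (w g) • ρ, ?_, fun x hx => ?_⟩
      · intro h4
        apply hx
        simp only [BM.con_S, Finset.mem_sdiff, Finset.mem_singleton, Finset.mem_insert] at h4 ⊢
        tauto
      · rw [BM.mem_con]
        refine ⟨M.R.add_mem hw (M.R.smul_mem _ hρ), fun x hx => ?_⟩
        rw [Finset.mem_singleton] at hx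
        subst hx
        simp only [Pi.add_apply, Pi.smul_apply, smul_eq_mul, h1, mul_one]
        exact z_add_self _
      · have hx' : x ∈ M.S \ insert g D := by
          simp only [BM.con_S, Finset.mem_sdiff, Finset.mem_singleton, Finset.mem_insert] at hx ⊢
          tauto
        have h5 : ρ x = 0 := h0 x (Finset.mem_sdiff.1 hx').2
        simp only [Pi.add_apply, Pi.smul_apply, smul_eq_mul, h5, mul_zero, add_zero]
        exact h3 x hx'

theorem SitI.out {n m : ℕ} (ends : Fin m → Fin n × Fin n)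
    (h0 : (ofRows (grRows ends)).TC)
    (hgr : IsGr (ofRows (grRows ends)) Finset.univ (fun j => (ends j).1) (fun j => (ends j).2))
    (hm : 6 ≤ m) {M : BM E} {U : Finset V} {h t : E → V} {e k g1 g2 : E} {y a b c d : V}
    (S : SitI (grRows ends) M U h t e k g1 g2 y a b c d) (h8 : 8 ≤ M.S.card)
    (hU : 5 ≤ U.card) :
    (∃ (f : Fin m) (c' d' : Fin n), c' ≠ d' ∧ c' ≠ (ends f).1 ∧ c' ≠ (ends f).2 ∧
      d' ≠ (ends f).1 ∧ d' ≠ (ends f).2 ∧ IsIso (O4rows ends f c' d') M) ∨
    (∃ a b : Fin 3 → E, WStr M a b ∧ ∃ z ∈ M.Z, z ≠ 0 ∧ ∀ i, z (a i) = 0 ∧ z (b i) = 0) := by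
  have hcd : c ≠ d := S.c_ne_d h8
  have hd := S.deg_d h0 hcd
  have htc := S.hp_tc hd
  by_cases hI : IsIso (grRows ends) ((M.con {g2}).del {e, k})
  · exact Or.inl (S.out_O4 ends h0 hgr hcd hd hI)
  right
  have hgr' := S.hp_gr
  have hT' := S.hp_T h0
  have hc5 := card5 h0 hm htc hgr' hT' hI
  -- basic facts on the elements
  have hyU : y ∈ U := S.gr.sub (by simp)
  have hU6 : 6 ≤ U.card := by
    rw [Finset.card_erase_of_mem hyU] at hc5
    omega
  have hst := S.st
  have hkS : k ∈ M.S \ {e} := by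
    have : k ∈ star (M.S \ {e}) h t y := by rw [hst]; simp
    exact (Finset.mem_filter.1 this).1
  have h1S : g1 ∈ M.S \ {e} := by
    have : g1 ∈ star (M.S \ {e}) h t y := by rw [hst]; simp
    exact (Finset.mem_filter.1 this).1
  have h2S : g2 ∈ M.S \ {e} := by
    have : g2 ∈ star (M.S \ {e}) h t y := by rw [hst]; simp
    exact (Finset.mem_filter.1 this).1
  have jcases : ∀ {x : E} {u v u' v' : V}, Jn h t x u v → Jn h t x u' v' → (u = u' ∧ v = v') ∨
      (u = v' ∧ v = u') := by
    intro x u v u' v' h1 h2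
    rcases h1 with ⟨h1, h1'⟩ | ⟨h1, h1'⟩ <;> rcases h2 with ⟨h2, h2'⟩ | ⟨h2, h2'⟩
    · left; exact ⟨h1.symm.trans h2, h1'.symm.trans h2'⟩
    · right; exact ⟨h1.symm.trans h2, h1'.symm.trans h2'⟩
    · right; exact ⟨h1'.symm.trans h2', h1.symm.trans h2⟩
    · left; exact ⟨h1'.symm.trans h2', h1.symm.trans h2⟩
  have h12 : g1 ≠ g2 := by
    intro hh
    have h1 := S.j1
    rw [hh] at h1
    rcases jcases h1 S.j2 with ⟨-, h2⟩ | ⟨h2, -⟩
    · exact S.ab h2
    · exact S.yb h2
  have hk1 : k ≠ g1 := by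
    intro hh
    have h1 := S.jk
    rw [hh] at h1
    rcases jcases h1 S.j1 with ⟨-, h2⟩ | ⟨h2, -⟩
    · exact S.ad h2.symm
    · exact S.ya h2
  have hk2 : k ≠ g2 := by
    intro hh
    have h1 := S.jk
    rw [hh] at h1
    rcases jcases h1 S.j2 with ⟨-, h2⟩ | ⟨h2, -⟩
    · exact S.bd h2.symm
    · exact S.yb h2
  have hke : k ≠ e := fun hh => (Finset.mem_sdiff.1 hkS).2 (by simp [hh])
  have h1e : g1 ≠ e := fun hh => (Finset.mem_sdiff.1 h1S).2 (by simp [hh])
  have h2e : g2 ≠ e := fun hh => (Finset.mem_sdiff.1 h2S).2 (by simp [hh])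
  -- the row {e, k, g1, g2}
  have hrow : ind ({e, k, g1, g2} : Finset E) ∈ M.R := by
    have h3 := S.gr.star_mem hyU
    rw [if_pos (by simp), hst] at h3
    exact h3
  have good_out : Good M h t e g1 a c d ∨ Good M h t e g2 b c d →
      ∃ a b : Fin 3 → E, WStr M a b ∧ ∃ z ∈ M.Z, z ≠ 0 ∧ ∀ i, z (a i) = 0 ∧ z (b i) = 0 := by
    rintro (hG | hG)
    · exact S.good_W hcd hU hG
    · exact S.symm_ab.good_W hcd hU hG
  obtain ⟨k2, hk2S, hsc, hT2⟩ := bg_has (grRows ends) h0 _ htc hT' hI
  have hk2S' : k2 ∈ M.S ∧ k2 ≠ g2 ∧ k2 ≠ e ∧ k2 ≠ k := by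
    simp only [BM.del_S, BM.con_S, Finset.mem_sdiff, Finset.mem_singleton,
      Finset.mem_insert] at hk2S
    tauto
  obtain ⟨hk2M, hk22, hk2e, hk2k⟩ := hk2S'
  rw [BM.del_del] at hsc hT2
  by_cases hkg : k2 = g1
  · -- STEP 3
    subst hkg
    have hD : ({e, k} ∪ {k2} : Finset E) = {e, k, k2} := by
      ext x
      simp only [Finset.mem_union, Finset.mem_insert, Finset.mem_singleton]
      tauto
    have hE : (M.con {g2}).del ({e, k} ∪ {k2}) = M.del {e, k, k2, g2} := by
      rw [hD]
      have := sitF_con_eq_del M {e, k, k2} g2 (by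
        simp only [Finset.mem_insert, Finset.mem_singleton, not_or]
        exact ⟨h2e, hk2.symm, h12.symm⟩) (ind ({e, k, k2, g2} : Finset E)) hrow
        (ind_of_mem (by simp)) (fun x hx => ind_of_notMem (fun h4 => hx (by
          simp only [Finset.mem_insert, Finset.mem_singleton] at h4 ⊢
          tauto)))
      rw [this]
      congr 1
      ext x
      simp only [Finset.mem_insert, Finset.mem_singleton]
      tauto
    rw [hE] at hsc hT2
    apply good_out
    rcases S.step3_crit h0 hcd hd hsc hT2 with h4 | h4 | h4 | h4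
    · exact Or.inl h4
    · exact Or.inr h4
    · exact (S.step3_x h0 hcd hd hsc hT2 h4).elim
    · have hE2 : ({e, k, k2, g2} : Finset E) = {e, k, g2, k2} := by
        ext x
        simp only [Finset.mem_insert, Finset.mem_singleton]
        tauto
      rw [hE2] at hsc hT2
      exact (S.symm_ab.step3_x h0 hcd hd hsc hT2 h4).elim
  · -- STEP 4
    have hD : ({e, k} ∪ {k2} : Finset E) = {e, k, k2} := by
      ext x
      simp only [Finset.mem_union, Finset.mem_insert, Finset.mem_singleton]
      tauto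
    rw [hD] at hsc hT2
    have hdisj : Disjoint ({e, k, k2} : Finset E) {g2} := by
      rw [Finset.disjoint_singleton_right]
      simp only [Finset.mem_insert, Finset.mem_singleton, not_or]
      exact ⟨h2e, hk2.symm, fun hh => hk22 hh.symm⟩
    have hE : (M.del {e, k, k2}).con {g2} = (M.con {g2}).del {e, k, k2} := BM.del_con _ hdisj
    have hser : (M.del {e, k, k2}).Ser g2 g1 := by
      intro z hz
      rw [BM.mem_Z_del] at hz
      have h3 := BM.dot_eq_zero M hrow hz.1
      rw [ind_dot] at h3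
      have h4 : z e = 0 := hz.2 e (by simp)
      have h5 : z k = 0 := hz.2 k (by simp)
      rw [Finset.sum_insert (by
          simp only [Finset.mem_insert, Finset.mem_singleton, not_or]
          exact ⟨hke.symm, h1e.symm, h2e.symm⟩),
        Finset.sum_insert (by
          simp only [Finset.mem_insert, Finset.mem_singleton, not_or]
          exact ⟨hk1, hk2⟩),
        Finset.sum_insert (by
          simp only [Finset.mem_singleton]
          exact h12), Finset.sum_singleton, h4, h5, zero_add, zero_add] at h3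
      exact (z_add_eq_zero.1 h3).symm
    have hg1m : g1 ∈ (M.del {e, k, k2}).S := by
      simp only [BM.del_S, Finset.mem_sdiff, Finset.mem_insert, Finset.mem_singleton, not_or]
      exact ⟨(Finset.mem_sdiff.1 h1S).1, h1e, hk1.symm, fun hh => hkg hh.symm⟩
    have hg2m : g2 ∈ (M.del {e, k, k2}).S := by
      simp only [BM.del_S, Finset.mem_sdiff, Finset.mem_insert, Finset.mem_singleton, not_or]
      exact ⟨(Finset.mem_sdiff.1 h2S).1, h2e, hk2.symm, fun hh => hk22 hh.symm⟩
    have hcl : ∃ z ∈ (M.del {e, k, k2}).Z, z g2 = 1 := by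
      have hg1m' : g1 ∈ ((M.con {g2}).del {e, k, k2}).S := by
        simp only [BM.del_S, BM.con_S, Finset.mem_sdiff, Finset.mem_insert, Finset.mem_singleton,
          not_or]
        exact ⟨⟨(Finset.mem_sdiff.1 h1S).1, h12⟩, h1e, hk1.symm, fun hh => hkg hh.symm⟩
      obtain ⟨z, hz, hz1⟩ := SC_not_coloop _ hsc g1 hg1m'
      rw [← hE, BM.mem_Z_con'] at hz
      obtain ⟨-, w, hw, hwz⟩ := hz
      refine ⟨w, hw, ?_⟩
      rw [hser w hw, hwz g1 (by
        rw [Finset.mem_sdiff, Finset.mem_singleton]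
        exact ⟨hg1m, h12⟩), hz1]
    have hsc4 : (M.del {e, k, k2}).SC := by
      rw [← hE] at hsc
      exact (SC_of_con _ g2 g1 hg2m hg1m h12.symm hser hcl hsc).1
    have hT4 : HasT (grRows ends) (M.del {e, k, k2}) := by
      rw [← hE] at hT2
      exact HasT_of_con h0 hg2m hg1m h12.symm hser hcl hT2
    exact good_out (S.step4 h0 hcd hU6 hk2M hk2e hk2k hkg hk22 hsc4 hT4)

end SEY

end
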