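import Mathlib
import Pool.Agent.Helper29.MFA.T37
import Pool.Agent.Helper29.MFA.T26
import Pool.Agent.Helper29.MFA.T25
import Pool.Agent.Helper29.MFA.T31

section

/-!
T3-OptM.
T3-Opt (STEP 1).  H = M del e is a 3-connected graph, k an edge of H with H del k SC and HasT.

The minor M del {k} of M: (M del {k}) del {e} = M del {e,k} is SC, Two (`TC.del_two` for H), HasT.  So
M del {k} is graphic (`MinCx.graft_graphic`; the graft structure of M del {k} is `IsGraft.del`, k is no coloop of H).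
`crit` gives SS inside T with |star| = 2 (in H del k) and swT(T, SS) has <= 2 elements; |T| >= 4
(`MinCx.four_le`), so SS is not empty.  A vertex of degree 2 in H del k has degree >= 3 in H
(`TC.three_le_deg`), so it is an end of k and has degree 3 in H: there are at most two of them.
* |SS| = 1, SS = {y}, star_H y = {k,g1,g2}, k = y d, g1 = y a, g2 = y b (a, b, d different: no parallel
  edges in H).  swT = T + {a,b} (mod 2) has <= 2 elements, |T| >= 4: a, b in T, T = {y,a,b,c}.
* |SS| = 2, k = y y', star y = {k,g1,g2}, star y' = {k,g3,g4}, neighbours a,b and a',b'; a,b,a',b' are not y, y'.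
  {a,b} /= {a',b'} by `IsGr.deg2` for H del k.  swT = T + {a,b} + {a',b'} contains y, y', so equals {y,y'}.  If
  {a,b}, {a',b'} are disjoint: T = {y,y',a,b,a',b'}; if they have one common element, say b = b': T = {y,y',a,a'}.
-/

namespace SEY

open Finset

variable {E : Type} [Fintype E] [DecidableEq E] {V : Type} [Fintype V] [DecidableEq V]

omit [Fintype E] [DecidableEq E] [Fintype V] [DecidableEq V] in
private theorem optM_jn_inj {h t : E → V} {x : E} {s u v : V} (hu : u ≠ s) (h1 : Jn h t x s u)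
    (h2 : Jn h t x s v) : v = u := by
  rcases h1 with ⟨a1, a2⟩ | ⟨a1, a2⟩ <;> rcases h2 with ⟨b1, b2⟩ | ⟨b1, b2⟩
  · rw [← a2, ← b2]
  · exact absurd (a2.symm.trans b2) hu
  · exact absurd (a1.symm.trans b1) hu
  · rw [← a1, ← b1]

omit [Fintype E] [DecidableEq E] [Fintype V] in
private theorem optM_jn_star {S : Finset E} {h t : E → V} {x : E} {s v : V} (hx : x ∈ S)
    (h1 : Jn h t x s v) : x ∈ star S h t s := by
  rw [star, Finset.mem_filter]
  refine ⟨hx, ?_⟩
  rcases h1 with ⟨a1, _⟩ | ⟨_, a2⟩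
  · exact Or.inl a1
  · exact Or.inr a2

omit [Fintype E] [Fintype V] in
private theorem optM_count {S : Finset E} {h t : E → V} {p q : E} {s u w : V} (hp : p ∈ S)
    (hq : q ∈ S) (hst : star S h t s = {p, q}) (h1 : Jn h t p s u) (h2 : Jn h t q s w)
    (huw : u ≠ w) (hus : u ≠ s) (hws : w ≠ s) (v : V) :
    (S.filter (fun x => Jn h t x s v)).card = (if v = u then 1 else 0) +
      (if v = w then 1 else 0) := by
  have key : S.filter (fun x => Jn h t x s v) =
      (if v = u then {p} else ∅) ∪ (if v = w then {q} else ∅) := by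
    ext x
    rw [Finset.mem_filter, Finset.mem_union]
    constructor
    · rintro ⟨hx, hj⟩
      have h3 : x ∈ ({p, q} : Finset E) := hst ▸ optM_jn_star hx hj
      rw [Finset.mem_insert, Finset.mem_singleton] at h3
      rcases h3 with rfl | rfl
      · left
        rw [if_pos (optM_jn_inj hus h1 hj)]
        exact Finset.mem_singleton_self _
      · right
        rw [if_pos (optM_jn_inj hws h2 hj)]
        exact Finset.mem_singleton_self _
    · rintro (h3 | h3)
      · by_cases hv : v = u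
        · rw [if_pos hv, Finset.mem_singleton] at h3
          rw [h3, hv]
          exact ⟨hp, h1⟩
        · rw [if_neg hv] at h3
          simp at h3
      · by_cases hv : v = w
        · rw [if_pos hv, Finset.mem_singleton] at h3
          rw [h3, hv]
          exact ⟨hq, h2⟩
        · rw [if_neg hv] at h3
          simp at h3
  rw [key]
  by_cases hv : v = u
  · rw [if_pos hv, if_pos hv, if_neg (fun h3 => huw (hv.symm.trans h3)),
      if_neg (fun h3 => huw (hv.symm.trans h3))]
    simp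
  · rw [if_neg hv, if_neg hv]
    by_cases hv' : v = w
    · rw [if_pos hv', if_pos hv']
      simp
    · rw [if_neg hv', if_neg hv']
      simp

/-- The data at a vertex `y` of degree 3 with the edges `k`, `g1`, `g2`. -/
private structure OptMD (S : Finset E) (h t : E → V) (U : Finset V) (k g1 g2 : E) (y a b : V) :
    Prop where
  st : star S h t y = {k, g1, g2}
  j1 : Jn h t g1 y a
  j2 : Jn h t g2 y b
  m1 : g1 ∈ S
  m2 : g2 ∈ S
  k1 : g1 ≠ k
  k2 : g2 ≠ k
  ab : a ≠ b
  ay : a ≠ y
  bY : b ≠ y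
  aU : a ∈ U
  bU : b ∈ U
  cnt : ∀ v, ((S \ {k}).filter (fun x => Jn h t x y v)).card = (if v = a then 1 else 0) +
      (if v = b then 1 else 0)

omit [Fintype E] [Fintype V] in
private theorem OptMD.sw {S : Finset E} {h t : E → V} {U : Finset V} {k g1 g2 : E} {y a b : V}
    (D : OptMD S h t U k g1 g2 y a b) : OptMD S h t U k g2 g1 y b a where
  st := by
    rw [D.st]
    ext x
    simp only [Finset.mem_insert, Finset.mem_singleton]
    tauto
  j1 := D.j2
  j2 := D.j1
  m1 := D.m2
  m2 := D.m1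
  k1 := D.k2
  k2 := D.k1
  ab := D.ab.symm
  ay := D.bY
  bY := D.ay
  aU := D.bU
  bU := D.aU
  cnt := fun v => by rw [D.cnt v, add_comm]

omit [Fintype E] [Fintype V] in
/-- An odd sum of indicators of `a`, `b`, `a'`, `b'` when `b = b'`. -/
private theorem optM_B {M : BM E} {e k : E} {U : Finset V} {h t : E → V} {T : Finset V}
    (hg : IsGraft M e U h t T) {g1 g2 g3 g4 : E} {y y' a b a' : V}
    (D : OptMD (M.S \ {e}) h t U k g1 g2 y a b) (D' : OptMD (M.S \ {e}) h t U k g3 g4 y' a' b)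
    (hjk : Jn h t k y y') (hyy : y ≠ y') (hyT : y ∈ T) (hyT' : y' ∈ T)
    (hay : a ≠ y') (hby : b ≠ y') (hay' : a' ≠ y) (haa : a ≠ a')
    (hT : ∀ v ∈ U, v ≠ y → v ≠ y' → ¬ Odd ((if v ∈ T then 1 else 0) +
      (((if v = a then 1 else 0) + (if v = b then 1 else 0)) +
        ((if v = a' then 1 else 0) + (if v = b then 1 else 0))))) :
    OptB M U h t e k g1 g2 g3 g4 y y' a a' b := by
  have hTe : T = {y, y', a, a'} := by
    ext v
    simp only [Finset.mem_insert, Finset.mem_singleton]
    constructor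
    · intro hv
      by_contra hcon
      push Not at hcon
      obtain ⟨h1, h2, h3, h4⟩ := hcon
      refine hT v (hg.sub hv) h1 h2 ?_
      rw [if_pos hv, if_neg h3, if_neg h4]
      by_cases h5 : v = b
      · rw [if_pos h5]
        exact ⟨1, by norm_num⟩
      · rw [if_neg h5]
        exact ⟨0, by norm_num⟩
    · rintro (rfl | rfl | rfl | rfl)
      · exact hyT
      · exact hyT'
      · by_contra hv
        refine hT v D.aU D.ay hay ?_
        rw [if_neg hv, if_pos rfl, if_neg D.ab, if_neg haa]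
        exact ⟨0, by norm_num⟩
      · by_contra hv
        refine hT v D'.aU hay' D'.ay ?_
        rw [if_neg hv, if_pos rfl, if_neg haa.symm, if_neg D'.ab]
        exact ⟨0, by norm_num⟩
  refine ⟨hTe ▸ hg, ?_, hjk, D.j1, D.j2, D'.j1, D'.j2, D.st, D'.st⟩
  have h1 := D.ab
  have h2 := D.ay
  have h3 := D.bY
  have h4 := D'.ab
  have h5 := D'.ay
  simp only [List.nodup_cons, List.mem_cons, List.not_mem_nil, or_false, not_or,
    List.nodup_nil, and_true, not_false_eq_true]
  exact ⟨⟨hyy, h2.symm, hay'.symm, h3.symm⟩, ⟨hay.symm, h5.symm, hby.symm⟩, ⟨haa, h1⟩, h4⟩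

theorem options {r l : ℕ} {rows : Fin r → Fin l → ZMod 2} (h0 : (ofRows rows).TC)
    {M : BM E} (hM : MinCx rows M) {e k : E} {U : Finset V} {h t : E → V} {T : Finset V}
    (hg : IsGraft M e U h t T) (htc : (M.del {e}).TC) (hk : k ∈ M.S) (hke : k ≠ e)
    (hsc : (M.del {e, k}).SC) (hT : HasT rows (M.del {e, k})) :
    (∃ (g1 g2 : E) (y a b c d : V), SitI rows M U h t e k g1 g2 y a b c d) ∨
    (∃ (g1 g2 g3 g4 : E) (y y' a b a' b' : V), OptA M U h t e k g1 g2 g3 g4 y y' a b a' b') ∨
    (∃ (g1 g2 g3 g4 : E) (y y' a a' b : V), OptB M U h t e k g1 g2 g3 g4 y y' a a' b) := by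
  have hkS : k ∈ M.S \ {e} := by simp [hk, hke]
  have hNe : (M.del {k}).del {e} = M.del {e, k} := by
    rw [BM.del_del]
    congr 1
    ext x
    simp only [Finset.mem_union, Finset.mem_singleton, Finset.mem_insert]
    tauto
  have hHk : (M.del {e}).del {k} = M.del {e, k} := by
    rw [BM.del_del]
    congr 1
  have hSS' : (M.del {k}).S \ {e} = (M.S \ {e}) \ {k} := by
    ext x
    simp only [BM.del_S, Finset.mem_sdiff, Finset.mem_singleton]
    tauto
  have hgN : IsGraft (M.del {k}) e U h t T := by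
    refine hg.del hk hke ?_
    exact htc.exists_cycle (e := k) hkS
  have hsc' : ((M.del {k}).del {e}).SC := by rw [hNe]; exact hsc
  have htwo : ((M.del {k}).del {e}).Two := by
    rw [hNe, ← hHk]
    exact TC.del_two htc hkS
  have hT' : HasT rows ((M.del {k}).del {e}) := by rw [hNe]; exact hT
  have hcard : (M.del {k}).S.card < M.S.card := by
    refine Finset.card_lt_card (Finset.ssubset_iff_subset_ne.2 ⟨Finset.sdiff_subset, ?_⟩)
    intro heq
    have h1 : k ∈ M.S \ {k} := by
      have h2 : k ∈ (M.del {k}).S := by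
        rw [heq]
        exact hk
      exact h2
    exact (Finset.mem_sdiff.1 h1).2 (Finset.mem_singleton_self k)
  have hG : Graphic (M.del {k}) :=
    hM.graft_graphic h0 (M.del {k}) (Minor_del M {k}) hcard hgN hsc' htwo hT'
  obtain ⟨SS, hSST, hSS2, hsw⟩ := crit hgN hsc' htwo hG
  rw [hSS'] at hSS2 hsw
  have h4 := hM.four_le hg
  have hHsc : (M.del {e}).SC := ((TC_iff_SC _).1 htc).1
  -- the ends of `k`
  have hkU := hg.gr.ends k hkS
  -- the data at the vertices of `SS`
  have hdata : ∀ s ∈ SS, (s = h k ∨ s = t k) ∧ ∃ g1 g2 a b,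
      OptMD (M.S \ {e}) h t U k g1 g2 s a b ∧
      (∀ s' ∈ SS, s' ≠ s → ∀ x ∈ (M.S \ {e}) \ {k}, ∀ z ∈ (M.S \ {e}) \ {k},
        Jn h t x s' a → ¬ Jn h t z s' b) := by
    intro s hs
    have hsU : s ∈ U := hg.sub (hSST hs)
    have h3 : 3 ≤ (star (M.S \ {e}) h t s).card := TC.three_le_deg htc hg.gr hsU
    have h2 := hSS2 s hs
    have hd2 := hgN.gr.deg2 hsc' htwo hsU (by
      rw [show ((M.del {k}).del {e}).S = (M.S \ {e}) \ {k} from hSS']
      exact h2)
    rw [show ((M.del {k}).del {e}).S = (M.S \ {e}) \ {k} from hSS'] at hd2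
    obtain ⟨g1, g2, a, b, m1, m2, h12, hst, j1, j2, haU, hbU, hab, has, hbs, -, -, -, hoth⟩ := hd2
    have hkst : k ∈ star (M.S \ {e}) h t s := by
      by_contra hcon
      have h5 : star (M.S \ {e}) h t s ⊆ star ((M.S \ {e}) \ {k}) h t s := by
        intro x hx
        have hx' := Finset.mem_filter.1 hx
        refine Finset.mem_filter.2 ⟨?_, hx'.2⟩
        refine Finset.mem_sdiff.2 ⟨hx'.1, ?_⟩
        rw [Finset.mem_singleton]
        rintro rfl
        exact hcon hx
      have h6 := Finset.card_le_card h5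
      omega
    have hst3 : star (M.S \ {e}) h t s = {k, g1, g2} := by
      have h5 : star (M.S \ {e}) h t s = insert k (star ((M.S \ {e}) \ {k}) h t s) := by
        ext x
        rw [Finset.mem_insert]
        constructor
        · intro hx
          by_cases hxk : x = k
          · exact Or.inl hxk
          · right
            have hx' := Finset.mem_filter.1 hx
            refine Finset.mem_filter.2 ⟨?_, hx'.2⟩
            refine Finset.mem_sdiff.2 ⟨hx'.1, ?_⟩
            rwa [Finset.mem_singleton]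
        · rintro (rfl | hx)
          · exact hkst
          · have hx' := Finset.mem_filter.1 hx
            exact Finset.mem_filter.2 ⟨(Finset.mem_sdiff.1 hx'.1).1, hx'.2⟩
      rw [h5, hst]
    refine ⟨?_, g1, g2, a, b, ?_, ?_⟩
    · rcases (Finset.mem_filter.1 hkst).2 with h5 | h5
      · exact Or.inl h5.symm
      · exact Or.inr h5.symm
    · have m1' := Finset.mem_sdiff.1 m1
      have m2' := Finset.mem_sdiff.1 m2
      rw [Finset.mem_singleton] at m1' m2'
      exact ⟨hst3, j1, j2, m1'.1, m2'.1, m1'.2, m2'.2, hab, has, hbs, haU, hbU,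
        optM_count m1 m2 hst j1 j2 hab has hbs⟩
    · intro s' hs' hne x hx z hz
      exact hoth s' (hg.sub (hSST hs')) hne (hSS2 s' hs') x hx z hz
  have hpar : ∀ g1 ∈ M.S \ {e}, g1 ≠ k → ∀ u v, Jn h t k u v → ¬ Jn h t g1 u v := by
    intro g1 hg1 hgk u v h1 h2
    exact hgk (hg.gr.no_par hHsc hg1 hkS h2 h1)
  -- membership in the swapped set
  have hX : ∀ v, v ∈ swT ((M.S \ {e}) \ {k}) h t U T SS ↔ v ∈ U ∧
      Odd ((if v ∈ T then 1 else 0) + ∑ s ∈ SS,
        (((M.S \ {e}) \ {k}).filter (fun x => Jn h t x s v)).card) := by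
    intro v
    rw [swT, Finset.mem_filter]
  by_cases hone : ∃ y, SS = {y}
  · -- one vertex
    obtain ⟨y, rfl⟩ := hone
    left
    obtain ⟨hyk, g1, g2, a, b, D, -⟩ := hdata y (Finset.mem_singleton_self y)
    have hyT : y ∈ T := hSST (Finset.mem_singleton_self y)
    obtain ⟨d, hjk, hyd⟩ : ∃ d, Jn h t k y d ∧ y ≠ d := by
      rcases hyk with rfl | rfl
      · exact ⟨t k, Or.inl ⟨rfl, rfl⟩, hkU.2.2⟩
      · exact ⟨h k, Or.inr ⟨rfl, rfl⟩, hkU.2.2.symm⟩
    have had : a ≠ d := by
      rintro rfl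
      exact hpar g1 D.m1 D.k1 y a hjk D.j1
    have hbd : b ≠ d := by
      rintro rfl
      exact hpar g2 D.m2 D.k2 y b hjk D.j2
    have hX' : ∀ v, v ∈ swT ((M.S \ {e}) \ {k}) h t U T {y} ↔ v ∈ U ∧
        Odd ((if v ∈ T then 1 else 0) + ((if v = a then 1 else 0) + (if v = b then 1 else 0))) := by
      intro v
      rw [hX v, Finset.sum_singleton, D.cnt v]
    have hTsub : (T.erase a).erase b ⊆ swT ((M.S \ {e}) \ {k}) h t U T {y} := by
      intro v hv
      rw [Finset.mem_erase, Finset.mem_erase] at hv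
      rw [hX', if_pos hv.2.2, if_neg hv.2.1, if_neg hv.1]
      exact ⟨hg.sub hv.2.2, ⟨0, by norm_num⟩⟩
    have h5 := Finset.card_le_card hTsub
    have haT : a ∈ T := by
      by_contra haT
      have h6 : insert a (T.erase b) ⊆ swT ((M.S \ {e}) \ {k}) h t U T {y} := by
        intro v hv
        rw [Finset.mem_insert, Finset.mem_erase] at hv
        rcases hv with rfl | hv
        · rw [hX', if_neg haT, if_pos rfl, if_neg D.ab]
          exact ⟨D.aU, ⟨0, by norm_num⟩⟩
        · rw [hX', if_pos hv.2, if_neg (show ¬ v = a from fun h7 => haT (h7 ▸ hv.2)), if_neg hv.1]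
          exact ⟨hg.sub hv.2, ⟨0, by norm_num⟩⟩
      have h7 := Finset.card_le_card h6
      rw [Finset.card_insert_of_notMem (fun h8 => haT (Finset.mem_of_mem_erase h8))] at h7
      have h8 := Finset.pred_card_le_card_erase (s := T) (a := b)
      omega
    have hbT : b ∈ T := by
      by_contra hbT
      have h6 : insert b (T.erase a) ⊆ swT ((M.S \ {e}) \ {k}) h t U T {y} := by
        intro v hv
        rw [Finset.mem_insert, Finset.mem_erase] at hv
        rcases hv with rfl | hv
        · rw [hX', if_neg hbT, if_pos rfl, if_neg D.ab.symm]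
          exact ⟨D.bU, ⟨0, by norm_num⟩⟩
        · rw [hX', if_pos hv.2, if_neg hv.1, if_neg (show ¬ v = b from fun h7 => hbT (h7 ▸ hv.2))]
          exact ⟨hg.sub hv.2, ⟨0, by norm_num⟩⟩
      have h7 := Finset.card_le_card h6
      rw [Finset.card_insert_of_notMem (fun h8 => hbT (Finset.mem_of_mem_erase h8))] at h7
      have h8 := Finset.pred_card_le_card_erase (s := T) (a := a)
      omega
    have hc1 : ((T.erase a).erase b).card = T.card - 1 - 1 := by
      rw [Finset.card_erase_of_mem (Finset.mem_erase.2 ⟨D.ab.symm, hbT⟩),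
        Finset.card_erase_of_mem haT]
    have hyE : y ∈ (T.erase a).erase b :=
      Finset.mem_erase.2 ⟨D.bY.symm, Finset.mem_erase.2 ⟨D.ay.symm, hyT⟩⟩
    have hc2 : (((T.erase a).erase b).erase y).card = 1 := by
      rw [Finset.card_erase_of_mem hyE, hc1]
      omega
    obtain ⟨c, hc⟩ := Finset.card_eq_one.1 hc2
    have hcE : c ∈ ((T.erase a).erase b).erase y := by
      rw [hc]
      exact Finset.mem_singleton_self c
    simp only [Finset.mem_erase] at hcE
    obtain ⟨hcy, hcb, hca, hcT⟩ := hcE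
    have hTe : T = {y, a, b, c} := by
      ext v
      simp only [Finset.mem_insert, Finset.mem_singleton]
      constructor
      · intro hv
        by_contra hcon
        push Not at hcon
        obtain ⟨h6, h7, h8, h9⟩ := hcon
        have h10 : v ∈ ((T.erase a).erase b).erase y := by
          simp only [Finset.mem_erase]
          exact ⟨h6, h8, h7, hv⟩
        rw [hc, Finset.mem_singleton] at h10
        exact h9 h10
      · rintro (rfl | rfl | rfl | rfl)
        · exact hyT
        · exact haT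
        · exact hbT
        · exact hcT
    exact ⟨g1, g2, y, a, b, c, d, hM, hTe ▸ hg, htc, D.ay.symm, D.bY.symm, hcy.symm, D.ab,
      hca.symm, hcb.symm, hyd, had, hbd, hjk, D.j1, D.j2, D.st, hsc, hT⟩
  · right
    -- `SS` is the set of the two ends of `k`
    have hSne : SS.Nonempty := by
      rw [Finset.nonempty_iff_ne_empty]
      rintro rfl
      have h5 : T ⊆ swT ((M.S \ {e}) \ {k}) h t U T ∅ := by
        intro v hv
        rw [hX, if_pos hv, Finset.sum_empty]
        exact ⟨hg.sub hv, odd_one⟩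
      have h6 := Finset.card_le_card h5
      omega
    have hSSe : SS = {h k, t k} := by
      obtain ⟨s, hs⟩ := hSne
      have h5 : ∃ s' ∈ SS, s' ≠ s := by
        by_contra hcon
        push Not at hcon
        apply hone
        refine ⟨s, ?_⟩
        ext v
        rw [Finset.mem_singleton]
        constructor
        · exact hcon v
        · rintro rfl
          exact hs
      obtain ⟨s', hs', hne⟩ := h5
      have h6 := (hdata s hs).1
      have h7 := (hdata s' hs').1
      have h8 : h k ∈ SS ∧ t k ∈ SS := by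
        rcases h6 with rfl | rfl <;> rcases h7 with rfl | rfl
        · exact absurd rfl hne
        · exact ⟨hs, hs'⟩
        · exact ⟨hs', hs⟩
        · exact absurd rfl hne
      ext v
      simp only [Finset.mem_insert, Finset.mem_singleton]
      constructor
      · intro hv
        exact (hdata v hv).1
      · rintro (rfl | rfl)
        · exact h8.1
        · exact h8.2
    generalize hy : h k = y at *
    generalize hy' : t k = y' at *
    have hjk : Jn h t k y y' := Or.inl ⟨hy, hy'⟩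
    have hjk' : Jn h t k y' y := Or.inr ⟨hy, hy'⟩
    have hyy : y ≠ y' := hkU.2.2
    have hyS : y ∈ SS := by rw [hSSe]; simp
    have hyS' : y' ∈ SS := by rw [hSSe]; simp
    have hyT : y ∈ T := hSST hyS
    have hyT' : y' ∈ T := hSST hyS'
    obtain ⟨-, g1, g2, a, b, D, hoth⟩ := hdata y hyS
    obtain ⟨-, g3, g4, a', b', D', -⟩ := hdata y' hyS'
    have hay : a ≠ y' := by
      rintro rfl
      exact hpar g1 D.m1 D.k1 y a hjk D.j1
    have hby : b ≠ y' := by
      rintro rfl
      exact hpar g2 D.m2 D.k2 y b hjk D.j2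
    have hay' : a' ≠ y := by
      rintro rfl
      exact hpar g3 D'.m1 D'.k1 y' a' hjk' D'.j1
    have hby' : b' ≠ y := by
      rintro rfl
      exact hpar g4 D'.m2 D'.k2 y' b' hjk' D'.j2
    have hX' : ∀ v, v ∈ swT ((M.S \ {e}) \ {k}) h t U T SS ↔ v ∈ U ∧
        Odd ((if v ∈ T then 1 else 0) + (((if v = a then 1 else 0) + (if v = b then 1 else 0)) +
          ((if v = a' then 1 else 0) + (if v = b' then 1 else 0)))) := by
      intro v
      rw [hX v, hSSe, Finset.sum_pair hyy, D.cnt v, D'.cnt v]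
    have hyX : y ∈ swT ((M.S \ {e}) \ {k}) h t U T SS := by
      rw [hX', if_pos hyT, if_neg D.ay.symm, if_neg D.bY.symm, if_neg hay'.symm,
        if_neg hby'.symm]
      exact ⟨hg.sub hyT, ⟨0, by norm_num⟩⟩
    have hyX' : y' ∈ swT ((M.S \ {e}) \ {k}) h t U T SS := by
      rw [hX', if_pos hyT', if_neg hay.symm, if_neg hby.symm, if_neg D'.ay.symm,
        if_neg D'.bY.symm]
      exact ⟨hg.sub hyT', ⟨0, by norm_num⟩⟩
    have hnX : ∀ v, v ≠ y → v ≠ y' → v ∉ swT ((M.S \ {e}) \ {k}) h t U T SS := by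
      intro v h5 h6 h7
      have h8 : ({v, y, y'} : Finset V) ⊆ swT ((M.S \ {e}) \ {k}) h t U T SS := by
        intro z hz
        simp only [Finset.mem_insert, Finset.mem_singleton] at hz
        rcases hz with rfl | rfl | rfl
        · exact h7
        · exact hyX
        · exact hyX'
      have h9 := Finset.card_le_card h8
      rw [Finset.card_eq_three.2 ⟨v, y, y', h5, h6, hyy, rfl⟩] at h9
      omega
    have hTv : ∀ v ∈ U, v ≠ y → v ≠ y' → ¬ Odd ((if v ∈ T then 1 else 0) +
        (((if v = a then 1 else 0) + (if v = b then 1 else 0)) +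
          ((if v = a' then 1 else 0) + (if v = b' then 1 else 0)))) := by
      intro v hv h5 h6 h7
      exact hnX v h5 h6 ((hX' v).2 ⟨hv, h7⟩)
    -- `{a, b} ≠ {a', b'}`
    have hm3 : g3 ∈ (M.S \ {e}) \ {k} := by
      rw [Finset.mem_sdiff, Finset.mem_singleton]
      exact ⟨D'.m1, D'.k1⟩
    have hm4 : g4 ∈ (M.S \ {e}) \ {k} := by
      rw [Finset.mem_sdiff, Finset.mem_singleton]
      exact ⟨D'.m2, D'.k2⟩
    have hn1 : ¬ (a = a' ∧ b = b') := by
      rintro ⟨rfl, rfl⟩
      exact hoth y' hyS' hyy.symm g3 hm3 g4 hm4 D'.j1 D'.j2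
    have hn2 : ¬ (a = b' ∧ b = a') := by
      rintro ⟨rfl, rfl⟩
      exact hoth y' hyS' hyy.symm g4 hm4 g3 hm3 D'.j2 D'.j1
    by_cases c1 : b = b'
    · right
      subst c1
      exact ⟨g1, g2, g3, g4, y, y', a, a', b,
        optM_B hg D D' hjk hyy hyT hyT' hay hby hay' (fun h5 => hn1 ⟨h5, rfl⟩) hTv⟩
    · by_cases c2 : b = a'
      · right
        subst c2
        refine ⟨g1, g2, g4, g3, y, y', a, b', b,
          optM_B hg D D'.sw hjk hyy hyT hyT' hay hby hby' (fun h5 => hn2 ⟨h5, rfl⟩) ?_⟩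
        intro v hv h5 h6
        rw [add_comm (if v = b' then 1 else 0) (if v = b then 1 else 0)]
        exact hTv v hv h5 h6
      · by_cases c3 : a = b'
        · right
          subst c3
          refine ⟨g2, g1, g3, g4, y, y', b, a', a,
            optM_B hg D.sw D' hjk hyy hyT hyT' hby hay hay' c2 ?_⟩
          intro v hv h5 h6
          rw [add_comm (if v = b then 1 else 0) (if v = a then 1 else 0)]
          exact hTv v hv h5 h6
        · by_cases c4 : a = a'
          · right
            subst c4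
            refine ⟨g2, g1, g4, g3, y, y', b, b', a,
              optM_B hg D.sw D'.sw hjk hyy hyT hyT' hby hay hby' c1 ?_⟩
            intro v hv h5 h6
            rw [add_comm (if v = b then 1 else 0) (if v = a then 1 else 0),
              add_comm (if v = b' then 1 else 0) (if v = a then 1 else 0)]
            exact hTv v hv h5 h6
          · left
            refine ⟨g1, g2, g3, g4, y, y', a, b, a', b', ?_, ?_, hjk, D.j1, D.j2, D'.j1, D'.j2,
              D.st, D'.st⟩
            · have hTe : T = {y, y', a, b, a', b'} := by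
                ext v
                simp only [Finset.mem_insert, Finset.mem_singleton]
                constructor
                · intro hv
                  by_contra hcon
                  push Not at hcon
                  obtain ⟨h5, h6, h7, h8, h9, h10⟩ := hcon
                  refine hTv v (hg.sub hv) h5 h6 ?_
                  rw [if_pos hv, if_neg h7, if_neg h8, if_neg h9, if_neg h10]
                  exact ⟨0, by norm_num⟩
                · rintro (rfl | rfl | rfl | rfl | rfl | rfl)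
                  · exact hyT
                  · exact hyT'
                  · by_contra hv
                    refine hTv v D.aU D.ay hay ?_
                    rw [if_neg hv, if_pos rfl, if_neg D.ab, if_neg c4, if_neg c3]
                    exact ⟨0, by norm_num⟩
                  · by_contra hv
                    refine hTv v D.bU D.bY hby ?_
                    rw [if_neg hv, if_neg D.ab.symm, if_pos rfl, if_neg c2, if_neg c1]
                    exact ⟨0, by norm_num⟩
                  · by_contra hv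
                    refine hTv v D'.aU hay' D'.ay ?_
                    rw [if_neg hv, if_neg (Ne.symm c4), if_neg (Ne.symm c2), if_pos rfl,
                      if_neg D'.ab]
                    exact ⟨0, by norm_num⟩
                  · by_contra hv
                    refine hTv v D'.bU hby' D'.bY ?_
                    rw [if_neg hv, if_neg (Ne.symm c3), if_neg (Ne.symm c1), if_neg D'.ab.symm,
                      if_pos rfl]
                    exact ⟨0, by norm_num⟩
              exact hTe ▸ hg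
            · simp only [List.nodup_cons, List.mem_cons, List.not_mem_nil, or_false, not_or,
                List.nodup_nil, and_true, not_false_eq_true]
              exact ⟨⟨hyy, D.ay.symm, D.bY.symm, hay'.symm, hby'.symm⟩,
                ⟨hay.symm, hby.symm, D'.ay.symm, D'.bY.symm⟩, ⟨D.ab, c4, c3⟩, ⟨c2, c1⟩, D'.ab⟩

end SEY

end

section

/-!
T3-Comb (STEP 0, combinatorial part).  `wt f` = number of v with f v /= 0, for f : V -> ZMod 2.
p i = delta (u i) + delta (w i).  Hypotheses: (N), (A), (B) of STEP 0 in /team-store/helper25_SEY.md.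
Proof there: (A) gives m <= 3 (if m >= 1: wt >= 0 and m - 1 <= 2).  m = 1, 2 contradictions, m = 3 triangle.  (`hev`: parity.)
m=1: |T0| >= 3, |T0+u| <= 2, |T0+w| <= 2 => |T0| = 3, u,w in T0, |T0+{u,w}| = 1, contradiction to (N).
m=2: |T0| even, all |T0+...| >= 2.  (A_0): T0' := T0 or T0+p_1 has |T0'+{u0}| <= 1, so T0' = {u0,x}.
  (B_0): T0' + {w0} or T0'+{w0}+p_1 has <= 1 (so = 1) elements.  First: T0'={u0,w0}, adding p_0
  gives 0, contradiction to (N).  Second: {u0,x}+{u1,w1} = {w0,z}.  Exactly one common element.  If u0 is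
  common, say u0=u1: {x,w1} = {w0,z}: x = w0 (as before) or w1 = w0 (p_0 = p_1, excluded).  If x is common, x = u1
  say: {u0,w1} = {w0,z}, w1 = w0: T0' = {u0,u1}, adding p_0+p_1 gives 0, contradiction.
m=3: (A_0),(B_0): T0+{u0}, T0+{w0} in span(p_1,p_2), so p_0 in span(p_1,p_2), so p_0 = p_1+p_2 (p_0 /= 0, p_1, p_2).
  So there are c 0, c 1, c 2 with p i = sum of the two c j, j /= i, and T0 is an odd subset of {c 0, c 1, c 2}.
-/

namespace SEY

open Finset

/-- The number of nonzero values. -/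
def wt {V : Type} [Fintype V] (f : V → ZMod 2) : ℕ := (Finset.univ.filter (fun v => f v ≠ 0)).card

theorem comb_cases (x : ZMod 2) : x = 0 ∨ x = 1 := by
  revert x
  decide

theorem comb_add_self {V : Type} (f : V → ZMod 2) : f + f = 0 := by
  funext v
  have : ∀ x : ZMod 2, x + x = 0 := by decide
  exact this _

theorem comb_ne_zero {x : ZMod 2} (h : x ≠ 0) : x = 1 := (comb_cases x).resolve_left h

theorem comb_wt_zero {V : Type} [Fintype V] {f : V → ZMod 2} (h : wt f = 0) : f = 0 := by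
  funext v
  by_contra hv
  have : v ∈ Finset.univ.filter (fun v => f v ≠ 0) := by
    rw [mem_filter]
    exact ⟨mem_univ v, hv⟩
  rw [wt, Finset.card_eq_zero] at h
  rw [h] at this
  exact Finset.notMem_empty _ this

theorem comb_wt_zero' {V : Type} [Fintype V] : wt (0 : V → ZMod 2) = 0 := by
  simp [wt]

theorem comb_wt_add {V : Type} [Fintype V] [DecidableEq V] (f : V → ZMod 2) (v : V) (h : f v = 0) :
    wt (f + Pi.single v 1) = wt f + 1 := by
  unfold wt
  have h1 : (Finset.univ.filter fun x => (f + Pi.single v 1 : V → ZMod 2) x ≠ 0) =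
      insert v (Finset.univ.filter fun x => f x ≠ 0) := by
    ext x
    rw [mem_filter, mem_insert, mem_filter, Pi.add_apply]
    by_cases hx : x = v
    · rw [hx, h, Pi.single_eq_same]
      simp
    · rw [Pi.single_eq_of_ne hx, add_zero]
      simp [hx]
  rw [h1, Finset.card_insert_of_notMem]
  rw [mem_filter]
  exact fun h2 => h2.2 h

theorem comb_wt_sub {V : Type} [Fintype V] [DecidableEq V] (f : V → ZMod 2) (v : V) (h : f v ≠ 0) :
    wt (f + Pi.single v 1) + 1 = wt f := by
  have h1 : (f + Pi.single v 1 : V → ZMod 2) v = 0 := by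
    rw [Pi.add_apply, Pi.single_eq_same, comb_ne_zero h]
    decide
  have h2 := comb_wt_add _ v h1
  rw [add_assoc, comb_add_self, add_zero] at h2
  exact h2.symm

theorem comb_wt_one {V : Type} [Fintype V] [DecidableEq V] {f : V → ZMod 2} (h : wt f = 1) :
    ∃ v, f = Pi.single v 1 := by
  have h0 : ∃ v, f v ≠ 0 := by
    by_contra hcon
    push Not at hcon
    have : f = 0 := funext hcon
    rw [this, comb_wt_zero'] at h
    exact absurd h (by decide)
  obtain ⟨v, hv⟩ := h0
  refine ⟨v, ?_⟩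
  have h1 := comb_wt_sub f v hv
  have h2 := comb_wt_zero (f := f + Pi.single v 1) (by omega)
  have h3 : f = (f + Pi.single v 1) + Pi.single v 1 := by
    rw [add_assoc, comb_add_self, add_zero]
  rw [h2, zero_add] at h3
  exact h3

/-- If `wt f ≥ 2` and `wt (f + δ_v) ≤ 1`, then `f = δ_v + δ_x` with `x ≠ v`. -/
theorem comb_two {V : Type} [Fintype V] [DecidableEq V] {f : V → ZMod 2} {v : V} (h : 2 ≤ wt f)
    (h1 : wt (f + Pi.single v 1) ≤ 1) :
    ∃ x, x ≠ v ∧ f = Pi.single v 1 + Pi.single x 1 := by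
  by_cases hv : f v = 0
  · rw [comb_wt_add f v hv] at h1
    omega
  · have h2 := comb_wt_sub f v hv
    obtain ⟨x, hx⟩ := comb_wt_one (f := f + Pi.single v 1) (by omega)
    have h3 : f = Pi.single v 1 + Pi.single x 1 := by
      rw [← hx, add_comm f, ← add_assoc, comb_add_self, zero_add]
    refine ⟨x, fun hxv => hv ?_, h3⟩
    rw [h3, hxv, comb_add_self]
    rfl

theorem comb_m1 {V : Type} [Fintype V] [DecidableEq V] (T : V → ZMod 2) (u w : V) (huw : u ≠ w)
    (h0 : 3 ≤ wt T) (h1 : 3 ≤ wt (T + (Pi.single u 1 + Pi.single w 1)))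
    (hA : wt (T + Pi.single u 1) ≤ 2) (hB : wt (T + Pi.single w 1) ≤ 2) : False := by
  have hu : T u ≠ 0 := fun h => by
    rw [comb_wt_add T u h] at hA
    omega
  have hw : T w ≠ 0 := fun h => by
    rw [comb_wt_add T w h] at hB
    omega
  have h2 := comb_wt_sub T u hu
  have h3 := comb_wt_sub (T + Pi.single u 1) w (by
    rw [Pi.add_apply, Pi.single_eq_of_ne huw.symm, add_zero]
    exact hw)
  rw [add_assoc] at h3
  omega

theorem comb_wt_pair_self {V : Type} [Fintype V] [DecidableEq V] {f : V → ZMod 2} (h : 2 ≤ wt f)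
    (h0 : f = 0) : False := by
  rw [h0, comb_wt_zero'] at h
  omega

theorem comb_m2a {V : Type} [Fintype V] [DecidableEq V] (T : V → ZMod 2) (u0 w0 u1 w1 x z : V)
    (h0 : u0 ≠ w0) (h1 : u1 ≠ w1) (hw : w0 = w1)
    (hne : (Pi.single u0 1 + Pi.single w0 1 : V → ZMod 2) ≠ Pi.single u1 1 + Pi.single w1 1)
    (hx : x ≠ u0) (hT : T = Pi.single u0 1 + Pi.single x 1)
    (hz : T + (Pi.single u1 1 + Pi.single w1 1) = Pi.single w0 1 + Pi.single z 1)
    (hN : 2 ≤ wt (T + ((Pi.single u0 1 + Pi.single w0 1) + (Pi.single u1 1 + Pi.single w1 1)))) :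
    False := by
  subst hw
  have hu : u0 ≠ u1 := fun h => hne (by rw [h])
  -- evaluate at `u0`
  have h2 := congrFun hz u0
  rw [hT] at h2
  simp only [Pi.add_apply, Pi.single_eq_same, Pi.single_eq_of_ne hx.symm, Pi.single_eq_of_ne hu,
    Pi.single_eq_of_ne h0, add_zero, zero_add] at h2
  have h3 : u0 = z := by
    by_contra h
    rw [Pi.single_eq_of_ne h] at h2
    exact one_ne_zero h2
  subst h3
  refine comb_wt_pair_self hN ?_
  have h4 : T + ((Pi.single u0 1 + Pi.single w0 1) + (Pi.single u1 1 + Pi.single w0 1)) =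
      (T + (Pi.single u1 1 + Pi.single w0 1)) + (Pi.single w0 1 + Pi.single u0 1) := by
    abel
  rw [h4, hz, comb_add_self]

theorem comb_m2 {V : Type} [Fintype V] [DecidableEq V] (T : V → ZMod 2) (u0 w0 u1 w1 : V)
    (h0 : u0 ≠ w0) (h1 : u1 ≠ w1)
    (hne : (Pi.single u0 1 + Pi.single w0 1 : V → ZMod 2) ≠ Pi.single u1 1 + Pi.single w1 1)
    (hT0 : 2 ≤ wt T) (hT1 : 2 ≤ wt (T + (Pi.single u0 1 + Pi.single w0 1)))
    (hT2 : 2 ≤ wt (T + (Pi.single u1 1 + Pi.single w1 1)))
    (hT3 : 2 ≤ wt (T + ((Pi.single u0 1 + Pi.single w0 1) + (Pi.single u1 1 + Pi.single w1 1))))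
    (hA : wt (T + Pi.single u0 1) ≤ 1)
    (hB : wt (T + Pi.single w0 1) ≤ 1 ∨
      wt (T + Pi.single w0 1 + (Pi.single u1 1 + Pi.single w1 1)) ≤ 1) : False := by
  obtain ⟨x, hx, hTx⟩ := comb_two hT0 hA
  rcases hB with hB | hB
  · obtain ⟨y, hy, hTy⟩ := comb_two hT0 hB
    have h2 := congrFun hTy w0
    rw [hTx] at h2
    simp only [Pi.add_apply, Pi.single_eq_same, Pi.single_eq_of_ne hy.symm,
      Pi.single_eq_of_ne h0.symm, add_zero, zero_add] at h2
    have h3 : w0 = x := by
      by_contra h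
      rw [Pi.single_eq_of_ne h] at h2
      exact zero_ne_one h2
    subst h3
    refine comb_wt_pair_self hT1 ?_
    rw [hTx, comb_add_self]
  · rw [add_assoc, add_comm (Pi.single w0 1), ← add_assoc] at hB
    obtain ⟨z, hz, hTz⟩ := comb_two hT2 hB
    have h2 := congrFun hTz w0
    rw [hTx] at h2
    have hxw : x ≠ w0 := by
      rintro rfl
      refine comb_wt_pair_self hT1 ?_
      rw [hTx, comb_add_self]
    simp only [Pi.add_apply, Pi.single_eq_same, Pi.single_eq_of_ne hz.symm,
      Pi.single_eq_of_ne h0.symm, Pi.single_eq_of_ne hxw.symm, add_zero, zero_add] at h2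
    by_cases hw1 : w0 = w1
    · exact comb_m2a T u0 w0 u1 w1 x z h0 h1 hw1 hne hx hTx hTz hT3
    · by_cases hu1 : w0 = u1
      · refine comb_m2a T u0 w0 w1 u1 x z h0 h1.symm hu1 ?_ hx hTx ?_ ?_
        · rwa [add_comm (Pi.single w1 1)]
        · rwa [add_comm (Pi.single w1 1)]
        · rwa [add_comm (Pi.single w1 1)]
      · rw [Pi.single_eq_of_ne hw1, Pi.single_eq_of_ne hu1, add_zero] at h2
        exact zero_ne_one h2

theorem comb_mem {V : Type} [DecidableEq V] {a b v : V} {q : V → ZMod 2} (hab : a ≠ b)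
    (hq : q = Pi.single a 1 + Pi.single b 1) (h : q v ≠ 0) :
    ∃ y, y ≠ v ∧ q = Pi.single v 1 + Pi.single y 1 := by
  by_cases ha : v = a
  · exact ⟨b, by rw [ha]; exact hab.symm, by rw [ha]; exact hq⟩
  · by_cases hb : v = b
    · exact ⟨a, by rw [hb]; exact hab, by rw [hb, hq, add_comm]⟩
    · exfalso
      apply h
      rw [hq, Pi.add_apply, Pi.single_eq_of_ne ha, Pi.single_eq_of_ne hb, add_zero]

/-- Three pairs with sum zero form a triangle, one orientation. -/
theorem comb_triA {V : Type} [DecidableEq V] (a b : V) (hab : a ≠ b) (p0 p1 p2 : V → ZMod 2)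
    (hp0 : p0 = Pi.single a 1 + Pi.single b 1)
    (hp1 : ∃ x y, x ≠ y ∧ p1 = Pi.single x 1 + Pi.single y 1)
    (hp2 : ∃ x y, x ≠ y ∧ p2 = Pi.single x 1 + Pi.single y 1)
    (h01 : p0 ≠ p1) (h : p0 = p1 + p2) (h1a : p1 a ≠ 0) :
    ∃ y, y ≠ a ∧ y ≠ b ∧ p1 = Pi.single a 1 + Pi.single y 1 ∧
      p2 = Pi.single b 1 + Pi.single y 1 := by
  obtain ⟨x1, y1, hxy1, hq1⟩ := hp1
  obtain ⟨x2, y2, hxy2, hq2⟩ := hp2
  obtain ⟨y, hya, hy⟩ := comb_mem hxy1 hq1 h1a
  have hyb : y ≠ b := fun hyb => h01 (by rw [hp0, hy, hyb])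
  have h1b : p1 b = 0 := by
    rw [hy, Pi.add_apply, Pi.single_eq_of_ne hab.symm, Pi.single_eq_of_ne hyb.symm, add_zero]
  have h0b : p0 b = 1 := by
    rw [hp0, Pi.add_apply, Pi.single_eq_same, Pi.single_eq_of_ne hab.symm, zero_add]
  have h2b : p2 b ≠ 0 := by
    intro h2
    have h3 := congrFun h b
    rw [h0b, Pi.add_apply, h1b, h2, add_zero] at h3
    exact one_ne_zero h3
  obtain ⟨y', -, hy'⟩ := comb_mem hxy2 hq2 h2b
  refine ⟨y, hya, hyb, hy, ?_⟩
  have h4 : (Pi.single y 1 : V → ZMod 2) = Pi.single y' 1 := by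
    rw [hp0, hy, hy'] at h
    have h5 : (Pi.single y 1 : V → ZMod 2) =
        Pi.single a 1 + (Pi.single a 1 + Pi.single b 1) + Pi.single b 1 + Pi.single y 1 := by
      rw [← add_assoc (Pi.single a 1) (Pi.single a 1), comb_add_self, zero_add, comb_add_self,
        zero_add]
    rw [h5, h]
    have h6 : (Pi.single a 1 + (Pi.single a 1 + Pi.single y 1 + (Pi.single b 1 +
        Pi.single y' 1)) + Pi.single b 1 + Pi.single y 1 : V → ZMod 2) =
        (Pi.single a 1 + Pi.single a 1) + (Pi.single y 1 + Pi.single y 1) +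
          (Pi.single b 1 + Pi.single b 1) + Pi.single y' 1 := by
      abel
    rw [h6, comb_add_self, comb_add_self, zero_add, zero_add, comb_add_self, zero_add]
  rw [hy', ← h4]

/-- Three pairs with sum zero form a triangle. -/
theorem comb_tri {V : Type} [DecidableEq V] (u w : Fin 3 → V) (huw : ∀ i, u i ≠ w i)
    (p : Fin 3 → V → ZMod 2) (hp : ∀ i, p i = Pi.single (u i) 1 + Pi.single (w i) 1)
    (hd : ∀ i j, i ≠ j → p i ≠ p j) (h : p 0 = p 1 + p 2) :
    ∃ c : Fin 3 → V, Function.Injective c ∧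
      p 0 = Pi.single (c 1) 1 + Pi.single (c 2) 1 ∧ p 1 = Pi.single (c 0) 1 + Pi.single (c 2) 1 ∧
      p 2 = Pi.single (c 0) 1 + Pi.single (c 1) 1 ∧ (c 1 = u 0 ∨ c 2 = u 0) := by
  have hinj : ∀ a b c : V, a ≠ b → a ≠ c → b ≠ c → Function.Injective ![a, b, c] := by
    intro a b c hab hac hbc i j hij
    fin_cases i <;> fin_cases j <;> simp_all
  by_cases h1 : p 1 (u 0) = 0
  · have h2 : p 2 (u 0) ≠ 0 := by
      intro h2
      have h3 := congrFun h (u 0)
      rw [Pi.add_apply, h1, h2, add_zero, hp 0, Pi.add_apply, Pi.single_eq_same,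
        Pi.single_eq_of_ne (huw 0), add_zero] at h3
      exact one_ne_zero h3
    obtain ⟨y, hya, hyb, e2, e1⟩ := comb_triA (u 0) (w 0) (huw 0) (p 0) (p 2) (p 1) (hp 0)
      ⟨_, _, huw 2, hp 2⟩ ⟨_, _, huw 1, hp 1⟩ (hd 0 2 (by decide)) (by rw [h, add_comm]) h2
    refine ⟨![y, u 0, w 0], hinj _ _ _ hya hyb (huw 0), ?_, ?_, ?_, Or.inl rfl⟩
    · exact hp 0
    · rw [e1, add_comm]
      rfl
    · rw [e2, add_comm]
      rfl
  · obtain ⟨y, hya, hyb, e1, e2⟩ := comb_triA (u 0) (w 0) (huw 0) (p 0) (p 1) (p 2) (hp 0)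
      ⟨_, _, huw 1, hp 1⟩ ⟨_, _, huw 2, hp 2⟩ (hd 0 1 (by decide)) h h1
    refine ⟨![y, w 0, u 0], hinj _ _ _ hyb hya (huw 0).symm, ?_, ?_, ?_, Or.inr rfl⟩
    · rw [hp 0, add_comm]
      rfl
    · rw [e1, add_comm]
      rfl
    · rw [e2, add_comm]
      rfl

theorem comb_fin3 (I : Finset (Fin 3)) (h : (0 : Fin 3) ∉ I) :
    I = ∅ ∨ I = {1} ∨ I = {2} ∨ I = {1, 2} := by
  revert I
  decide

theorem comb_m3 {V : Type} [Fintype V] [DecidableEq V] (u w : Fin 3 → V)
    (huw : ∀ i, u i ≠ w i) (p : Fin 3 → V → ZMod 2)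
    (hp : ∀ i, p i = Pi.single (u i) 1 + Pi.single (w i) 1)
    (hd : ∀ i j, i ≠ j → p i ≠ p j) (T0 : V → ZMod 2)
    (hA : ∃ I : Finset (Fin 3), 0 ∉ I ∧ T0 + Pi.single (u 0) 1 + ∑ j ∈ I, p j = 0)
    (hB : ∃ I : Finset (Fin 3), 0 ∉ I ∧ T0 + Pi.single (w 0) 1 + ∑ j ∈ I, p j = 0) :
    ∃ c : Fin 3 → V, Function.Injective c ∧
      (∀ i : Fin 3, p i = (∑ j, Pi.single (c j) 1) - Pi.single (c i) 1) ∧
      ((∃ j, T0 = Pi.single (c j) 1) ∨ T0 = ∑ j, Pi.single (c j) 1) := by
  obtain ⟨I, hI, hIs⟩ := hA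
  obtain ⟨J, hJ, hJs⟩ := hB
  have hfin : ∀ I : Finset (Fin 3), 0 ∉ I → ∑ j ∈ I, p j = 0 ∨ ∑ j ∈ I, p j = p 1 ∨
      ∑ j ∈ I, p j = p 2 ∨ ∑ j ∈ I, p j = p 1 + p 2 := by
    intro I hI
    rcases comb_fin3 I hI with h | h | h | h
    · left
      rw [h, Finset.sum_empty]
    · right; left
      rw [h, Finset.sum_singleton]
    · right; right; left
      rw [h, Finset.sum_singleton]
    · right; right; right
      rw [h, Finset.sum_pair (by decide)]
  have hsum : p 0 = (∑ j ∈ I, p j) + ∑ j ∈ J, p j := by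
    have h1 : p 0 = p 0 + ((T0 + Pi.single (u 0) 1 + ∑ j ∈ I, p j) +
        (T0 + Pi.single (w 0) 1 + ∑ j ∈ J, p j)) := by
      rw [hIs, hJs, add_zero, add_zero]
    rw [h1]
    have h2 : p 0 + ((T0 + Pi.single (u 0) 1 + ∑ j ∈ I, p j) +
        (T0 + Pi.single (w 0) 1 + ∑ j ∈ J, p j)) =
        (p 0 + (Pi.single (u 0) 1 + Pi.single (w 0) 1)) + (T0 + T0) +
          ((∑ j ∈ I, p j) + ∑ j ∈ J, p j) := by
      abel
    rw [h2, ← hp 0, comb_add_self, comb_add_self, zero_add, zero_add]
  have hp0 : p 0 ≠ 0 := by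
    intro h0
    have h1 := congrFun h0 (u 0)
    rw [hp 0, Pi.add_apply, Pi.single_eq_same, Pi.single_eq_of_ne (huw 0), add_zero] at h1
    exact one_ne_zero h1
  have hs11 := comb_add_self (p 1)
  have hs22 := comb_add_self (p 2)
  have h01 := hd 0 1 (by decide)
  have h02 := hd 0 2 (by decide)
  have h012 : p 0 = p 1 + p 2 := by
    have h121 : p 1 + p 2 + p 1 = p 2 := by
      rw [add_comm, ← add_assoc, hs11, zero_add]
    have h122 : p 1 + p 2 + p 2 = p 1 := by
      rw [add_assoc, hs22, add_zero]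
    have h112 : p 1 + (p 1 + p 2) = p 2 := by
      rw [← add_assoc, hs11, zero_add]
    have h212 : p 2 + (p 1 + p 2) = p 1 := by
      rw [add_comm, h122]
    rcases hfin I hI with h | h | h | h <;> rcases hfin J hJ with h' | h' | h' | h' <;>
      rw [h, h'] at hsum
    · exact absurd (by rw [hsum, add_zero]) hp0
    · exact absurd (by rw [hsum, zero_add]) h01
    · exact absurd (by rw [hsum, zero_add]) h02
    · rw [hsum, zero_add]
    · exact absurd (by rw [hsum, add_zero]) h01
    · exact absurd (by rw [hsum, hs11]) hp0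
    · exact hsum
    · exact absurd (by rw [hsum, h112]) h02
    · exact absurd (by rw [hsum, add_zero]) h02
    · rw [hsum, add_comm]
    · exact absurd (by rw [hsum, hs22]) hp0
    · exact absurd (by rw [hsum, h212]) h01
    · rw [hsum, add_zero]
    · exact absurd (by rw [hsum, h121]) h02
    · exact absurd (by rw [hsum, h122]) h01
    · exact absurd (by rw [hsum, comb_add_self]) hp0
  obtain ⟨c, hc, e0, e1, e2, hcu⟩ := comb_tri u w huw p hp hd h012
  refine ⟨c, hc, ?_, ?_⟩
  · intro i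
    rw [Fin.sum_univ_three]
    fin_cases i
    · change p 0 = _
      rw [e0]
      change _ = _ - Pi.single (c 0) 1
      abel
    · change p 1 = _
      rw [e1]
      change _ = _ - Pi.single (c 1) 1
      abel
    · change p 2 = _
      rw [e2]
      change _ = _ - Pi.single (c 2) 1
      abel
  · have hT : T0 = Pi.single (u 0) 1 + ∑ j ∈ I, p j := by
      have h1 : T0 = (T0 + Pi.single (u 0) 1 + ∑ j ∈ I, p j) +
          (Pi.single (u 0) 1 + ∑ j ∈ I, p j) := by
        rw [add_assoc T0, add_assoc, comb_add_self, add_zero]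
      rw [hIs, zero_add] at h1
      exact h1
    rw [Fin.sum_univ_three]
    have a0 := comb_add_self (Pi.single (c 0) 1 : V → ZMod 2)
    have a1 := comb_add_self (Pi.single (c 1) 1 : V → ZMod 2)
    have a2 := comb_add_self (Pi.single (c 2) 1 : V → ZMod 2)
    rcases hcu with hu | hu <;> rw [← hu] at hT <;> rcases hfin I hI with h | h | h | h <;>
      rw [h] at hT
    · exact Or.inl ⟨1, by rw [hT, add_zero]⟩
    · right
      rw [hT, e1]
      abel
    · left
      refine ⟨0, ?_⟩
      rw [hT, e2, add_comm, add_assoc, a1, add_zero]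
    · left
      refine ⟨2, ?_⟩
      rw [hT, ← h012, e0, ← add_assoc, a1, zero_add]
    · exact Or.inl ⟨2, by rw [hT, add_zero]⟩
    · left
      refine ⟨0, ?_⟩
      rw [hT, e1, add_comm, add_assoc, a2, add_zero]
    · right
      rw [hT, e2]
      abel
    · left
      refine ⟨1, ?_⟩
      rw [hT, ← h012, e0, add_comm, add_assoc, a2, add_zero]

theorem comb_fin2 (I : Finset (Fin 2)) (h : (0 : Fin 2) ∉ I) : I = ∅ ∨ I = {1} := by
  revert I
  decide

theorem comb_fin1 (I : Finset (Fin 1)) (h : (0 : Fin 1) ∉ I) : I = ∅ := by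
  revert I
  decide

theorem comb {V : Type} [Fintype V] [DecidableEq V] (m : ℕ) (u w : Fin m → V)
    (huw : ∀ i, u i ≠ w i) (p : Fin m → V → ZMod 2)
    (hp : ∀ i, p i = Pi.single (u i) 1 + Pi.single (w i) 1)
    (hd : ∀ i j, i ≠ j → p i ≠ p j) (T0 : V → ZMod 2) (hev : Even (wt T0 + m))
    (hN : ∀ I : Finset (Fin m), 4 ≤ wt (T0 + ∑ i ∈ I, p i) + m)
    (hA : ∀ i, ∃ I : Finset (Fin m), i ∉ I ∧
      wt (T0 + Pi.single (u i) 1 + ∑ j ∈ I, p j) + (m - 1) ≤ 2)
    (hB : ∀ i, ∃ I : Finset (Fin m), i ∉ I ∧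
      wt (T0 + Pi.single (w i) 1 + ∑ j ∈ I, p j) + (m - 1) ≤ 2) :
    m = 0 ∨ ∃ hm : m = 3, ∃ c : Fin 3 → V, Function.Injective c ∧
      (∀ i : Fin 3, p (Fin.cast hm.symm i) = (∑ j, Pi.single (c j) 1) - Pi.single (c i) 1) ∧
      ((∃ j, T0 = Pi.single (c j) 1) ∨ T0 = ∑ j, Pi.single (c j) 1) := by
  by_cases hm0 : m = 0
  · exact Or.inl hm0
  have hm3 : m ≤ 3 := by
    obtain ⟨I, -, hI⟩ := hA ⟨0, by omega⟩
    omega
  have hm : m = 1 ∨ m = 2 ∨ m = 3 := by omega
  rcases hm with rfl | rfl | rfl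
  · exfalso
    obtain ⟨I, hI, hA0⟩ := hA 0
    obtain ⟨J, hJ, hB0⟩ := hB 0
    rw [comb_fin1 I hI, Finset.sum_empty, add_zero] at hA0
    rw [comb_fin1 J hJ, Finset.sum_empty, add_zero] at hB0
    have h1 := hN ∅
    have h2 := hN {0}
    rw [Finset.sum_empty, add_zero] at h1
    rw [Finset.sum_singleton, hp 0] at h2
    exact comb_m1 T0 (u 0) (w 0) (huw 0) (by omega) (by omega) (by omega) (by omega)
  · exfalso
    obtain ⟨I, hI, hA0⟩ := hA 0
    obtain ⟨J, hJ, hB0⟩ := hB 0
    have h1 := hN ∅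
    have h2 := hN {0}
    have h3 := hN {1}
    have h4 := hN {0, 1}
    rw [Finset.sum_empty, add_zero] at h1
    rw [Finset.sum_singleton, hp 0] at h2
    rw [Finset.sum_singleton, hp 1] at h3
    rw [Finset.sum_pair (by decide), hp 0, hp 1] at h4
    have hne := hd 0 1 (by decide)
    rw [hp 0, hp 1] at hne
    have hB' : wt (T0 + Pi.single (w 0) 1) ≤ 1 ∨
        wt (T0 + Pi.single (w 0) 1 + (Pi.single (u 1) 1 + Pi.single (w 1) 1)) ≤ 1 := by
      rcases comb_fin2 J hJ with h | h
      · left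
        rw [h, Finset.sum_empty, add_zero] at hB0
        omega
      · right
        rw [h, Finset.sum_singleton, hp 1] at hB0
        omega
    rcases comb_fin2 I hI with h | h
    · rw [h, Finset.sum_empty, add_zero] at hA0
      exact comb_m2 T0 (u 0) (w 0) (u 1) (w 1) (huw 0) (huw 1) hne (by omega) (by omega)
        (by omega) (by omega) (by omega) hB'
    · rw [h, Finset.sum_singleton, hp 1] at hA0
      have hss := comb_add_self (Pi.single (u 1) 1 + Pi.single (w 1) 1 : V → ZMod 2)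
      have e1 : T0 + (Pi.single (u 1) 1 + Pi.single (w 1) 1) +
          (Pi.single (u 0) 1 + Pi.single (w 0) 1) =
          T0 + ((Pi.single (u 0) 1 + Pi.single (w 0) 1) +
            (Pi.single (u 1) 1 + Pi.single (w 1) 1)) := by
        abel
      have e2 : T0 + (Pi.single (u 1) 1 + Pi.single (w 1) 1) +
          (Pi.single (u 1) 1 + Pi.single (w 1) 1) = T0 := by
        rw [add_assoc, hss, add_zero]
      have e3 : T0 + (Pi.single (u 1) 1 + Pi.single (w 1) 1) +
          ((Pi.single (u 0) 1 + Pi.single (w 0) 1) +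
            (Pi.single (u 1) 1 + Pi.single (w 1) 1)) =
          T0 + (Pi.single (u 0) 1 + Pi.single (w 0) 1) := by
        rw [add_comm (Pi.single (u 0) 1 + Pi.single (w 0) 1), ← add_assoc, e2]
      have e4 : T0 + (Pi.single (u 1) 1 + Pi.single (w 1) 1) + Pi.single (u 0) 1 =
          T0 + Pi.single (u 0) 1 + (Pi.single (u 1) 1 + Pi.single (w 1) 1) := by
        abel
      have e5 : T0 + (Pi.single (u 1) 1 + Pi.single (w 1) 1) + Pi.single (w 0) 1 =
          T0 + Pi.single (w 0) 1 + (Pi.single (u 1) 1 + Pi.single (w 1) 1) := by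
        abel
      have e6 : T0 + (Pi.single (u 1) 1 + Pi.single (w 1) 1) + Pi.single (w 0) 1 +
          (Pi.single (u 1) 1 + Pi.single (w 1) 1) = T0 + Pi.single (w 0) 1 := by
        rw [e5, add_assoc, hss, add_zero]
      refine comb_m2 (T0 + (Pi.single (u 1) 1 + Pi.single (w 1) 1)) (u 0) (w 0) (u 1) (w 1)
        (huw 0) (huw 1) hne (by omega) ?_ ?_ ?_ ?_ ?_
      · rw [e1]
        omega
      · rw [e2]
        omega
      · rw [e3]
        omega
      · rw [e4]
        omega
      · rw [e6, e5]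
        exact hB'.symm
  · right
    refine ⟨rfl, ?_⟩
    have hz : ∀ f : V → ZMod 2, wt f + (3 - 1) ≤ 2 → f = 0 := fun f hf =>
      comb_wt_zero (by omega)
    obtain ⟨c, h1, h2, h3⟩ := comb_m3 u w huw p hp hd T0
      (by
        obtain ⟨I, hI, hA0⟩ := hA 0
        exact ⟨I, hI, hz _ hA0⟩)
      (by
        obtain ⟨I, hI, hB0⟩ := hB 0
        exact ⟨I, hI, hz _ hB0⟩)
    exact ⟨c, h1, fun i => h2 i, h3⟩

end SEY

end

section

/-!
T3-Step0t.
T3-Step0F: STEP 0, conclusion.

`step0_tri`: the triangle type.  M.del {e} has exactly the three vertices z 0, z 1, z 2 of degree 2; star (z i) = {p i, q i}; c 0, c 1, c 2 are three different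
vertices, z i is adjacent to the two c j with j /= i; T is the disjoint union of {z 0,z 1,z 2} and an odd subset T0 of {c 0,c 1,c 2}
(T0 = {c j} or all).  Choose for every i one x i in {c j : j /= i} with x 0 + x 1 + x 2 = T0 (mod 2): T0 = {c0,c1,c2}: x i = c (i+1); T0 = {c 0}: x = (c 1, c 0, c 1)
[x 0 in {c1,c2}, x 1 in {c0,c2}, x 2 in {c0,c1}], and similarly for T0 = {c 1}: (c 1, c 0, c 0), T0 = {c 2}: (c 1, c 2, c 1).
Let a i be the edge z i - x i, b i the other edge at z i.  Then f e = sum over T = sum of the z i + sum of the x i (mod 2) = sum f (a i); for b: the other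
neighbours x' i satisfy sum x i + sum x' i = sum over i of p_i = 2 (c0+c1+c2) = 0, so the same holds.  Rows {e, a i, b i}: lifted star of z i
(z i in T).  (M.del {e}).con {b 0,b 1,b 2}: contraction in three different 2-classes: SC with
singleton classes: TC (`SC_con` three times, `con_del_comm`, `con_con`); HasT by `HasT_con`.
`step0`: take e from `bg_has` (M is not iso to N0, as N0 is graphic: `Graphic_of_IsIso`), N = M.del {e} SC, HasT, graphic by
`MinCx.sc_graphic`, Two by `TC.del_two`; `exists_IsGr`, `exists_graft` (e is no coloop of the TC matroid M).  Let Z2 = {z i : i < m} be the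
vertices of degree 2 (enumerated), u i, w i, from `IsGr.deg2`; T0 v = 1 iff v in T and v not in Z2.  Z2 is inside T (`step0_T`).  Translate:
for I a set of indices, SS = z '' I: (swT ... T SS).card = wt (T0 + sum_I p) + m (z i stays: its neighbours are not in Z2; the vertices
outside Z2 are changed by the p i): (N) from `IsGraft.swap_set` and `MinCx.four_le`; (A), (B) from `step0_con` (for T.erase (z i) + {u i}:
m - 1 vertices of Z2 are left; the SS there is z '' I with i not in I).  `comb`: m = 0: no vertex of degree 2: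
N is TC (`IsGr.tc_of_deg`, `IsGr.two_le_deg`); or m = 3: `step0_tri`.
-/

namespace SEY

open Finset

variable {E : Type} [Fintype E] [DecidableEq E] {V : Type} [Fintype V] [DecidableEq V]

/-- The choice of one neighbour of every degree 2 vertex. -/
private theorem step0t_choice (p : Fin 3 → Prop) (hp : (∃ j, ∀ i, p i ↔ i = j) ∨ ∀ i, p i) :
    ∃ σ τ : Fin 3 → Fin 3, (∀ i, σ i ≠ i ∧ τ i ≠ i ∧ σ i ≠ τ i) ∧
      ∃ w : Fin 3 → ZMod 2, (∀ i, p i → w i = 1) ∧ (∀ i, ¬ p i → w i = 0) ∧
      (∀ q : Fin 3 → ZMod 2, ∑ i, q (σ i) = ∑ i, w i * q i) ∧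
      ∀ q : Fin 3 → ZMod 2, ∑ i, q (τ i) = ∑ i, w i * q i := by
  rcases hp with ⟨j, hj⟩ | hall
  · have hw1 : ∀ i, p i → (fun i => if i = j then (1 : ZMod 2) else 0) i = 1 := by
      intro i hi
      show (if i = j then (1 : ZMod 2) else 0) = 1
      rw [if_pos ((hj i).1 hi)]
    have hw0 : ∀ i, ¬ p i → (fun i => if i = j then (1 : ZMod 2) else 0) i = 0 := by
      intro i hi
      show (if i = j then (1 : ZMod 2) else 0) = 0
      rw [if_neg (fun h => hi ((hj i).2 h))]
    have h3 : ∀ j : Fin 3, j = 0 ∨ j = 1 ∨ j = 2 := by decide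
    rcases h3 j with h | h | h
    · subst h
      exact ⟨![1, 0, 1], ![2, 2, 0], by decide, _, hw1, hw0, by decide, by decide⟩
    · subst h
      exact ⟨![1, 0, 0], ![2, 2, 1], by decide, _, hw1, hw0, by decide, by decide⟩
    · subst h
      exact ⟨![1, 2, 1], ![2, 0, 0], by decide, _, hw1, hw0, by decide, by decide⟩
  · exact ⟨![1, 2, 0], ![2, 0, 1], by decide, fun _ => 1, fun _ _ => rfl,
      fun i hi => absurd (hall i) hi, by decide, by decide⟩

omit [Fintype E] [DecidableEq E] [Fintype V] [DecidableEq V] in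
private theorem step0t_Jn_inj {h t : E → V} {x : E} {s u v : V} (hu : Jn h t x s u)
    (hv : Jn h t x s v) : u = v := by
  rcases hu with ⟨h1, h2⟩ | ⟨h1, h2⟩ <;> rcases hv with ⟨h3, h4⟩ | ⟨h3, h4⟩
  · rw [← h2, ← h4]
  · rw [← h2, h4, ← h3, h1]
  · rw [← h1, h3, ← h4, h2]
  · rw [← h1, ← h3]

omit [Fintype E] [DecidableEq E] [Fintype V] in
private theorem step0t_mem_star {S : Finset E} {h t : E → V} {x : E} {s u : V} (hx : x ∈ S)
    (hu : Jn h t x s u) : x ∈ star S h t s := by
  refine Finset.mem_filter.2 ⟨hx, ?_⟩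
  rcases hu with ⟨h1, -⟩ | ⟨-, h2⟩
  · exact Or.inl h1
  · exact Or.inr h2

theorem step0_tri {r l : ℕ} {rows : Fin r → Fin l → ZMod 2} (h0 : (ofRows rows).TC)
    {M : BM E} (hTC : M.TC) {e : E} {U : Finset V} {h t : E → V} {T : Finset V}
    (hg : IsGraft M e U h t T) (hsc : (M.del {e}).SC) (hT : HasT rows (M.del {e}))
    (z c : Fin 3 → V) (hz : Function.Injective z) (hc : Function.Injective c)
    (hz2 : ∀ s ∈ U, (star (M.S \ {e}) h t s).card = 2 ↔ ∃ i, z i = s) (hzU : ∀ i, z i ∈ U)
    (hadj : ∀ i j, i ≠ j → ∃ x ∈ M.S \ {e}, Jn h t x (z i) (c j))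
    (hzT : ∀ i, z i ∈ T) (hTT : ∀ v ∈ T, (∃ i, z i = v) ∨ ∃ i, c i = v)
    (hcT : (∃ j, ∀ i, c i ∈ T ↔ i = j) ∨ ∀ i, c i ∈ T) :
    ∃ a b : Fin 3 → E, TriT rows M e a b := by
  have htwo : (M.del {e}).Two := TC.del_two hTC hg.mem
  have hgr : IsGr (M.del {e}) U h t := hg.gr
  choose X0 hX0 using hadj
  -- the third index
  have hX : ∀ i j, ∃ x, i ≠ j → x ∈ M.S \ {e} ∧ Jn h t x (z i) (c j) := by
    intro i j
    by_cases hij : i = j
    · exact ⟨e, fun h => absurd hij h⟩
    · exact ⟨X0 i j hij, fun _ => hX0 i j hij⟩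
  choose X hX using hX
  have hcz : ∀ j k, c j ≠ z k := by
    intro j k hjk
    have hex : ∀ j : Fin 3, ∃ i : Fin 3, i ≠ j := by decide
    obtain ⟨i, hij⟩ := hex j
    obtain ⟨a, b, u, w, ha, hb, hab, hst, hJa, hJb, hu, hw, huw, hus, hws, h3u, h3w, -, -⟩ :=
      hgr.deg2 hsc htwo (hzU i) ((hz2 (z i) (hzU i)).2 ⟨i, rfl⟩)
    have hmem : X i j ∈ star (M.del {e}).S h t (z i) := step0t_mem_star (hX i j hij).1 (hX i j hij).2
    have hJ := (hX i j hij).2
    rw [hst, Finset.mem_insert, Finset.mem_singleton] at hmem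
    have h2 : (star (M.S \ {e}) h t (z k)).card = 2 := (hz2 (z k) (hzU k)).2 ⟨k, rfl⟩
    rcases hmem with hm | hm
    · rw [hm] at hJ
      have hcu := step0t_Jn_inj hJ hJa
      rw [← hcu, hjk] at h3u
      have h3u' : 3 ≤ (star (M.S \ {e}) h t (z k)).card := h3u
      omega
    · rw [hm] at hJ
      have hcw := step0t_Jn_inj hJ hJb
      rw [← hcw, hjk] at h3w
      have h3w' : 3 ≤ (star (M.S \ {e}) h t (z k)).card := h3w
      omega
  -- an edge determines the indices
  have hXinj : ∀ i j i' j', i ≠ j → i' ≠ j' → X i j = X i' j' → i = i' ∧ j = j' := by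
    intro i j i' j' hij hij' heq
    have h1 := (hX i j hij).2
    have h2 := (hX i' j' hij').2
    rw [heq] at h1
    rcases h1 with ⟨h3, h4⟩ | ⟨h3, h4⟩ <;> rcases h2 with ⟨h5, h6⟩ | ⟨h5, h6⟩
    · exact ⟨hz (h3.symm.trans h5), hc (h4.symm.trans h6)⟩
    · exact absurd (h5.symm.trans h3) (hcz _ _)
    · exact absurd (h3.symm.trans h5) (hcz _ _)
    · exact ⟨hz (h4.symm.trans h6), hc (h3.symm.trans h5)⟩
  have hst : ∀ i j k, j ≠ i → k ≠ i → j ≠ k →
      star (M.S \ {e}) h t (z i) = {X i j, X i k} := by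
    intro i j k hji hki hjk
    symm
    apply Finset.eq_of_subset_of_card_le
    · intro x hx
      rw [Finset.mem_insert, Finset.mem_singleton] at hx
      rcases hx with rfl | rfl
      · exact step0t_mem_star (hX i j hji.symm).1 (hX i j hji.symm).2
      · exact step0t_mem_star (hX i k hki.symm).1 (hX i k hki.symm).2
    · rw [(hz2 (z i) (hzU i)).2 ⟨i, rfl⟩, Finset.card_pair]
      intro heq
      exact hjk (hXinj i j i k hji.symm hki.symm heq).2
  obtain ⟨σ, τ, hστ, w, hw1, hw0, hσ, hτ⟩ := step0t_choice (fun i => c i ∈ T) hcT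
  -- the sum over `T`
  have hsumT : ∀ π : V → ZMod 2, ∑ v ∈ T, π v = ∑ i, π (z i) + ∑ i, w i * π (c i) := by
    intro π
    have hT' : T = Finset.univ.image z ∪ (Finset.univ.filter fun i => c i ∈ T).image c := by
      ext v
      rw [Finset.mem_union, Finset.mem_image, Finset.mem_image]
      constructor
      · intro hv
        rcases hTT v hv with ⟨i, hi⟩ | ⟨i, hi⟩
        · exact Or.inl ⟨i, Finset.mem_univ _, hi⟩
        · exact Or.inr ⟨i, Finset.mem_filter.2 ⟨Finset.mem_univ _, by rw [hi]; exact hv⟩, hi⟩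
      · rintro (⟨i, -, rfl⟩ | ⟨i, hi, rfl⟩)
        · exact hzT i
        · exact (Finset.mem_filter.1 hi).2
    have hdis : Disjoint (Finset.univ.image z)
        ((Finset.univ.filter fun i => c i ∈ T).image c) := by
      rw [Finset.disjoint_left]
      intro v hv hv'
      obtain ⟨i, -, rfl⟩ := Finset.mem_image.1 hv
      obtain ⟨j, -, hj⟩ := Finset.mem_image.1 hv'
      exact hcz j i hj
    have h1 : ∑ v ∈ T, π v = ∑ v ∈ Finset.univ.image z ∪
        (Finset.univ.filter fun i => c i ∈ T).image c, π v := by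
      rw [← hT']
    rw [h1, Finset.sum_union hdis, Finset.sum_image (fun a _ b _ hab => hz hab),
      Finset.sum_image (fun a _ b _ hab => hc hab), Finset.sum_filter]
    congr 1
    refine Finset.sum_congr rfl fun i _ => ?_
    by_cases hi : c i ∈ T
    · rw [if_pos hi, hw1 i hi, one_mul]
    · rw [if_neg hi, hw0 i hi, zero_mul]
  have hne : ∀ i j, i ≠ j → X i j ≠ e := by
    intro i j hij heq
    have h1 := (Finset.mem_sdiff.1 (hX i j hij).1).2
    rw [heq] at h1
    exact h1 (Finset.mem_singleton_self e)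
  have hcyc : ∀ ρ : Fin 3 → Fin 3, (∀ i, ρ i ≠ i) →
      (∀ q : Fin 3 → ZMod 2, ∑ i, q (ρ i) = ∑ i, w i * q i) →
      ∀ f ∈ M.R, f e + f (X 0 (ρ 0)) + f (X 1 (ρ 1)) + f (X 2 (ρ 2)) = 0 := by
    intro ρ hρ hq f hf
    obtain ⟨π, rfl⟩ := (hg.rows f).1 hf
    have hval : ∀ i, (fun x => if x = e then ∑ v ∈ T, π v else cob (M.S \ {e}) h t π x)
        (X i (ρ i)) = π (z i) + π (c (ρ i)) := by
      intro i
      show (if X i (ρ i) = e then ∑ v ∈ T, π v else cob (M.S \ {e}) h t π (X i (ρ i))) = _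
      rw [if_neg (hne i (ρ i) (hρ i).symm)]
      unfold cob
      rw [if_pos (hX i (ρ i) (hρ i).symm).1]
      rcases (hX i (ρ i) (hρ i).symm).2 with ⟨h1, h2⟩ | ⟨h1, h2⟩
      · rw [h1, h2]
      · rw [h1, h2, add_comm]
    have hvale : (fun x => if x = e then ∑ v ∈ T, π v else cob (M.S \ {e}) h t π x) e =
        ∑ i, π (z i) + ∑ i, π (c (ρ i)) := by
      show (if e = e then ∑ v ∈ T, π v else cob (M.S \ {e}) h t π e) = _
      rw [if_pos rfl, hsumT π, hq (fun i => π (c i))]
    rw [hval 0, hval 1, hval 2, hvale, Fin.sum_univ_three, Fin.sum_univ_three]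
    have h2 := z_add_self (π (z 0) + π (z 1) + π (z 2) + (π (c (ρ 0)) + π (c (ρ 1)) + π (c (ρ 2))))
    rw [← h2]
    ring
  -- series classes of `M.del {e}`
  have hser : ∀ i, (M.del {e}).Ser (X i (τ i)) (X i (σ i)) := by
    intro i
    have hxy : X i (τ i) ≠ X i (σ i) := by
      intro heq
      exact (hστ i).2.2 (hXinj i (τ i) i (σ i) (hστ i).2.1.symm (hστ i).1.symm heq).2.symm
    refine (hgr.star2 hsc htwo (hX i (τ i) (hστ i).2.1.symm).1 (hX i (σ i) (hστ i).1.symm).1 hxy).2
      ⟨z i, hzU i, ?_⟩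
    exact hst i (τ i) (σ i) (hστ i).2.1 (hστ i).1 (hστ i).2.2.symm
  have hcls : ∀ x ∈ M.S \ {e}, ∀ y ∈ M.S \ {e}, (M.del {e}).Ser x y → x ≠ y →
      ∃ i, x = X i (τ i) ∨ y = X i (τ i) := by
    intro x hx y hy hs hxy
    obtain ⟨s, hsU, hs2⟩ := (hgr.star2 hsc htwo hx hy hxy).1 hs
    have hs2' : star (M.S \ {e}) h t s = {x, y} := hs2
    have hcard : (star (M.S \ {e}) h t s).card = 2 := by
      rw [hs2', Finset.card_pair hxy]
    obtain ⟨i, rfl⟩ := (hz2 s hsU).1 hcard
    refine ⟨i, ?_⟩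
    have hmem : X i (τ i) ∈ star (M.S \ {e}) h t (z i) :=
      step0t_mem_star (hX i (τ i) (hστ i).2.1.symm).1 (hX i (τ i) (hστ i).2.1.symm).2
    rw [hs2', Finset.mem_insert, Finset.mem_singleton] at hmem
    rcases hmem with h | h
    · exact Or.inl h.symm
    · exact Or.inr h.symm
  have hbS : ∀ i, X i (τ i) ∈ (M.del {e}).S := fun i => (hX i (τ i) (hστ i).2.1.symm).1
  have haS : ∀ i, X i (σ i) ∈ (M.del {e}).S := fun i => (hX i (σ i) (hστ i).1.symm).1
  have hbb : ∀ i j, i ≠ j → X i (τ i) ≠ X j (τ j) := fun i j hij heq =>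
    hij (hXinj i (τ i) j (τ j) (hστ i).2.1.symm (hστ j).2.1.symm heq).1
  have hab : ∀ i j, X i (σ i) ≠ X j (τ j) := by
    intro i j heq
    obtain ⟨h1, h2⟩ := hXinj i (σ i) j (τ j) (hστ i).1.symm (hστ j).2.1.symm heq
    subst h1
    exact (hστ i).2.2 h2
  have hb0 : ∀ {A : Finset E} {x y : E}, x ∈ A → x ≠ y → x ∈ A \ {y} := by
    intro A x y hx hxy
    exact Finset.mem_sdiff.2 ⟨hx, fun h => hxy (Finset.mem_singleton.1 h)⟩
  -- three contractions
  set b : Fin 3 → E := fun i => X i (τ i) with hb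
  set a : Fin 3 → E := fun i => X i (σ i) with ha
  have hB01 : b 0 ≠ b 1 := hbb 0 1 (by decide)
  have hB02 : b 0 ≠ b 2 := hbb 0 2 (by decide)
  have hB12 : b 1 ≠ b 2 := hbb 1 2 (by decide)
  have hN1 := SC_con (M.del {e}) hsc (b 0) (a 0) (hbS 0) (haS 0) (hab 0 0).symm (hser 0)
  have hT1 : HasT rows ((M.del {e}).con {b 0}) :=
    HasT_con h0 (hbS 0) (haS 0) (hab 0 0).symm (hser 0) hT
  have m1b1 : b 1 ∈ ((M.del {e}).con {b 0}).S := hb0 (hbS 1) hB01.symm
  have m1a1 : a 1 ∈ ((M.del {e}).con {b 0}).S := hb0 (haS 1) (hab 1 0)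
  have s1 : ((M.del {e}).con {b 0}).Ser (b 1) (a 1) :=
    (hN1.2 (b 1) (hbS 1) hB01.symm (a 1) (haS 1) (hab 1 0)).2 (hser 1)
  have hN2 := SC_con ((M.del {e}).con {b 0}) hN1.1 (b 1) (a 1) m1b1 m1a1 (hab 1 1).symm s1
  have hT2 : HasT rows (((M.del {e}).con {b 0}).con {b 1}) :=
    HasT_con h0 m1b1 m1a1 (hab 1 1).symm s1 hT1
  have m1b2 : b 2 ∈ ((M.del {e}).con {b 0}).S := hb0 (hbS 2) hB02.symm
  have m1a2 : a 2 ∈ ((M.del {e}).con {b 0}).S := hb0 (haS 2) (hab 2 0)
  have m2b2 : b 2 ∈ (((M.del {e}).con {b 0}).con {b 1}).S := hb0 m1b2 hB12.symm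
  have m2a2 : a 2 ∈ (((M.del {e}).con {b 0}).con {b 1}).S := hb0 m1a2 (hab 2 1)
  have s2 : (((M.del {e}).con {b 0}).con {b 1}).Ser (b 2) (a 2) :=
    (hN2.2 (b 2) m1b2 hB12.symm (a 2) m1a2 (hab 2 1)).2
      ((hN1.2 (b 2) (hbS 2) hB02.symm (a 2) (haS 2) (hab 2 0)).2 (hser 2))
  have hN3 := SC_con (((M.del {e}).con {b 0}).con {b 1}) hN2.1 (b 2) (a 2) m2b2 m2a2
    (hab 2 2).symm s2
  have hT3 : HasT rows ((((M.del {e}).con {b 0}).con {b 1}).con {b 2}) :=
    HasT_con h0 m2b2 m2a2 (hab 2 2).symm s2 hT2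
  have hccc : (((M.del {e}).con {b 0}).con {b 1}).con {b 2} =
      (M.del {e}).con {b 0, b 1, b 2} := by
    rw [BM.con_con, BM.con_con]
    congr 1
  refine ⟨a, b, ?_⟩
  constructor
  · exact ⟨hg.mem, fun i => (Finset.mem_sdiff.1 (haS i)).1, fun i => (Finset.mem_sdiff.1 (hbS i)).1⟩
  · refine ⟨?_, ?_, hab, fun i => (hne i (σ i) (hστ i).1.symm).symm,
      fun i => (hne i (τ i) (hστ i).2.1.symm).symm⟩
    · intro i j hij
      exact (hXinj i (σ i) j (σ j) (hστ i).1.symm (hστ j).1.symm hij).1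
    · intro i j hij
      exact (hXinj i (τ i) j (τ j) (hστ i).2.1.symm (hστ j).2.1.symm hij).1
  · intro i
    have h1 := hg.star_mem (hzU i)
    rw [if_pos (hzT i), hst i (σ i) (τ i) (hστ i).1 (hστ i).2.1 (hστ i).2.2] at h1
    exact h1
  · exact hcyc σ (fun i => (hστ i).1) hσ
  · exact hcyc τ (fun i => (hστ i).2.1) hτ
  · rw [← hccc, TC_iff_SC]
    refine ⟨hN3.1, ?_⟩
    intro x hx y hy hs
    have hx2 : x ∈ (((M.del {e}).con {b 0}).con {b 1}).S := (Finset.mem_sdiff.1 hx).1
    have hxb2 : x ≠ b 2 := fun h => (Finset.mem_sdiff.1 hx).2 (Finset.mem_singleton.2 h)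
    have hx1 : x ∈ ((M.del {e}).con {b 0}).S := (Finset.mem_sdiff.1 hx2).1
    have hxb1 : x ≠ b 1 := fun h => (Finset.mem_sdiff.1 hx2).2 (Finset.mem_singleton.2 h)
    have hx0 : x ∈ (M.del {e}).S := (Finset.mem_sdiff.1 hx1).1
    have hxb0 : x ≠ b 0 := fun h => (Finset.mem_sdiff.1 hx1).2 (Finset.mem_singleton.2 h)
    have hy2 : y ∈ (((M.del {e}).con {b 0}).con {b 1}).S := (Finset.mem_sdiff.1 hy).1
    have hyb2 : y ≠ b 2 := fun h => (Finset.mem_sdiff.1 hy).2 (Finset.mem_singleton.2 h)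
    have hy1 : y ∈ ((M.del {e}).con {b 0}).S := (Finset.mem_sdiff.1 hy2).1
    have hyb1 : y ≠ b 1 := fun h => (Finset.mem_sdiff.1 hy2).2 (Finset.mem_singleton.2 h)
    have hy0 : y ∈ (M.del {e}).S := (Finset.mem_sdiff.1 hy1).1
    have hyb0 : y ≠ b 0 := fun h => (Finset.mem_sdiff.1 hy1).2 (Finset.mem_singleton.2 h)
    have hsN : (M.del {e}).Ser x y :=
      (hN1.2 x hx0 hxb0 y hy0 hyb0).1 ((hN2.2 x hx1 hxb1 y hy1 hyb1).1
        ((hN3.2 x hx2 hxb2 y hy2 hyb2).1 hs))
    by_contra hxy
    obtain ⟨i, hi⟩ := hcls x hx0 y hy0 hsN hxy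
    have h3 : ∀ i : Fin 3, i = 0 ∨ i = 1 ∨ i = 2 := by decide
    rcases h3 i with rfl | rfl | rfl <;> rcases hi with hi | hi
    · exact hxb0 hi
    · exact hyb0 hi
    · exact hxb1 hi
    · exact hyb1 hi
    · exact hxb2 hi
    · exact hyb2 hi
  · rw [← hccc]
    exact hT3

end SEY

end

section

/-!
T3-Step0F.
T3-Step0F: STEP 0, conclusion.

`step0_tri`: the triangle type.  M.del {e} has exactly the three vertices z 0, z 1, z 2 of degree 2; star (z i) = {p i, q i}; c 0, c 1, c 2 are three different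
vertices, z i is adjacent to the two c j with j /= i; T is the disjoint union of {z 0,z 1,z 2} and an odd subset T0 of {c 0,c 1,c 2}
(T0 = {c j} or all).  Choose for every i one x i in {c j : j /= i} with x 0 + x 1 + x 2 = T0 (mod 2): T0 = {c0,c1,c2}: x i = c (i+1); T0 = {c 0}: x = (c 1, c 0, c 1)
[x 0 in {c1,c2}, x 1 in {c0,c2}, x 2 in {c0,c1}], and similarly for T0 = {c 1}: (c 1, c 0, c 0), T0 = {c 2}: (c 1, c 2, c 1).
Let a i be the edge z i - x i, b i the other edge at z i.  Then f e = sum over T = sum of the z i + sum of the x i (mod 2) = sum f (a i); for b: the other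
neighbours x' i satisfy sum x i + sum x' i = sum over i of p_i = 2 (c0+c1+c2) = 0, so the same holds.  Rows {e, a i, b i}: lifted star of z i
(z i in T).  (M.del {e}).con {b 0,b 1,b 2}: contraction in three different 2-classes: SC with
singleton classes: TC (`SC_con` three times, `con_del_comm`, `con_con`); HasT by `HasT_con`.
`step0`: take e from `bg_has` (M is not iso to N0, as N0 is graphic: `Graphic_of_IsIso`), N = M.del {e} SC, HasT, graphic by
`MinCx.sc_graphic`, Two by `TC.del_two`; `exists_IsGr`, `exists_graft` (e is no coloop of the TC matroid M).  Let Z2 = {z i : i < m} be the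
vertices of degree 2 (enumerated), u i, w i, from `IsGr.deg2`; T0 v = 1 iff v in T and v not in Z2.  Z2 is inside T (`step0_T`).  Translate:
for I a set of indices, SS = z '' I: (swT ... T SS).card = wt (T0 + sum_I p) + m (z i stays: its neighbours are not in Z2; the vertices
outside Z2 are changed by the p i): (N) from `IsGraft.swap_set` and `MinCx.four_le`; (A), (B) from `step0_con` (for T.erase (z i) + {u i}:
m - 1 vertices of Z2 are left; the SS there is z '' I with i not in I).  `comb`: m = 0: no vertex of degree 2: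
N is TC (`IsGr.tc_of_deg`, `IsGr.two_le_deg`); or m = 3: `step0_tri`.
-/

namespace SEY

open Finset

variable {E : Type} [Fintype E] [DecidableEq E] {V : Type} [Fintype V] [DecidableEq V]

omit [Fintype E] [DecidableEq E] [Fintype V] [DecidableEq V] in
theorem step0F_jn {h t : E → V} {x : E} {s u v : V} (h1 : Jn h t x s u) (h2 : Jn h t x s v) :
    u = v := by
  rcases h1 with ⟨h3, h4⟩ | ⟨h3, h4⟩ <;> rcases h2 with ⟨h5, h6⟩ | ⟨h5, h6⟩
  · exact h4.symm.trans h6
  · exact (h4.symm.trans h6).trans (h3.symm.trans h5)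
  · exact (h3.symm.trans h5).trans (h4.symm.trans h6)
  · exact h3.symm.trans h5

omit [Fintype E] [Fintype V] in
/-- The number of edges between a vertex of degree two and another vertex. -/
theorem step0F_count {S : Finset E} {h t : E → V} {s u w : V} {a b : E}
    (hst : star S h t s = {a, b}) (ha : Jn h t a s u) (hb : Jn h t b s w)
    (huw : u ≠ w) (v : V) :
    (((S.filter (fun x => Jn h t x s v)).card : ℕ) : ZMod 2) =
      (Pi.single u 1 + Pi.single w 1 : V → ZMod 2) v := by
  have hmem : ∀ x, x ∈ S.filter (fun x => Jn h t x s v) ↔ (x = a ∧ v = u) ∨ (x = b ∧ v = w) := by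
    intro x
    rw [mem_filter]
    constructor
    · rintro ⟨hx, hj⟩
      have h1 : x ∈ star S h t s := by
        rw [star, mem_filter]
        refine ⟨hx, ?_⟩
        rcases hj with ⟨h3, -⟩ | ⟨-, h4⟩
        · exact Or.inl h3
        · exact Or.inr h4
      rw [hst, mem_insert, mem_singleton] at h1
      rcases h1 with rfl | rfl
      · exact Or.inl ⟨rfl, step0F_jn hj ha⟩
      · exact Or.inr ⟨rfl, step0F_jn hj hb⟩
    · have ha' : a ∈ S := by
        have h1 : a ∈ star S h t s := by rw [hst]; simp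
        exact (mem_filter.1 h1).1
      have hb' : b ∈ S := by
        have h1 : b ∈ star S h t s := by rw [hst]; simp
        exact (mem_filter.1 h1).1
      rintro (⟨rfl, rfl⟩ | ⟨rfl, rfl⟩)
      · exact ⟨ha', ha⟩
      · exact ⟨hb', hb⟩
  by_cases hvu : v = u
  · have h1 : S.filter (fun x => Jn h t x s v) = {a} := by
      ext x
      rw [hmem, mem_singleton]
      constructor
      · rintro (⟨h1, -⟩ | ⟨-, h1⟩)
        · exact h1
        · exact absurd (hvu.symm.trans h1) huw
      · exact fun h1 => Or.inl ⟨h1, hvu⟩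
    rw [h1, card_singleton, Pi.add_apply, hvu, Pi.single_eq_same, Pi.single_eq_of_ne huw]
    rfl
  · by_cases hvw : v = w
    · have h1 : S.filter (fun x => Jn h t x s v) = {b} := by
        ext x
        rw [hmem, mem_singleton]
        constructor
        · rintro (⟨-, h1⟩ | ⟨h1, -⟩)
          · exact absurd h1 hvu
          · exact h1
        · exact fun h1 => Or.inr ⟨h1, hvw⟩
      rw [h1, card_singleton, Pi.add_apply, hvw, Pi.single_eq_same,
        Pi.single_eq_of_ne (Ne.symm huw)]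
      rfl
    · have h1 : S.filter (fun x => Jn h t x s v) = ∅ := by
        rw [eq_empty_iff_forall_notMem]
        intro x hx
        rw [hmem] at hx
        tauto
      rw [h1, card_empty, Pi.add_apply, Pi.single_eq_of_ne hvu, Pi.single_eq_of_ne hvw]
      rfl

omit [Fintype E] [Fintype V] in
/-- The set after swapping, as a support. -/
theorem step0F_swT {S : Finset E} {h t : E → V} {m : ℕ} {z u w : Fin m → V}
    {a b : Fin m → E} (hz : Function.Injective z)
    (hst : ∀ i, star S h t (z i) = {a i, b i}) (ha : ∀ i, Jn h t (a i) (z i) (u i))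
    (hb : ∀ i, Jn h t (b i) (z i) (w i)) (huw : ∀ i, u i ≠ w i)
    (U T : Finset V) (I : Finset (Fin m)) :
    swT S h t U T (I.image z) = U.filter (fun v => ((if v ∈ T then 1 else 0 : ZMod 2) +
      (∑ i ∈ I, (Pi.single (u i) 1 + Pi.single (w i) 1 : V → ZMod 2)) v) ≠ 0) := by
  unfold swT
  refine filter_congr fun v _ => ?_
  rw [← ZMod.natCast_ne_zero_iff_odd]
  push_cast
  rw [sum_image (fun i _ j _ hij => hz hij), Finset.sum_apply]
  have h1 : ∀ i ∈ I, (((S.filter (fun x => Jn h t x (z i) v)).card : ℕ) : ZMod 2) =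
      (Pi.single (u i) 1 + Pi.single (w i) 1 : V → ZMod 2) v := fun i _ =>
    step0F_count (hst i) (ha i) (hb i) (huw i) v
  rw [sum_congr rfl h1]

/-- Counting the support. -/
theorem step0F_card {g : V → ZMod 2} {W U : Finset V} (hW : W ⊆ U)
    (hgs : ∀ v, g v ≠ 0 → v ∈ U ∧ v ∉ W) :
    (U.filter (fun v => g v + (if v ∈ W then 1 else 0 : ZMod 2) ≠ 0)).card =
      wt g + W.card := by
  have h1 : U.filter (fun v => g v + (if v ∈ W then 1 else 0 : ZMod 2) ≠ 0) =
      (Finset.univ.filter (fun v => g v ≠ 0)) ∪ W := by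
    ext v
    rw [mem_filter, mem_union, mem_filter]
    by_cases hv : v ∈ W
    · have h0 : g v = 0 := by
        by_contra hne
        exact (hgs v hne).2 hv
      rw [if_pos hv, h0]
      simp only [zero_add]
      constructor
      · exact fun _ => Or.inr hv
      · exact fun _ => ⟨hW hv, one_ne_zero⟩
    · rw [if_neg hv, add_zero]
      constructor
      · rintro ⟨-, h2⟩
        exact Or.inl ⟨mem_univ _, h2⟩
      · rintro (⟨-, h2⟩ | h2)
        · exact ⟨(hgs v h2).1, h2⟩
        · exact absurd h2 hv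
  rw [h1, card_union_of_disjoint]
  · rfl
  · rw [Finset.disjoint_left]
    intro v hv hv'
    exact (hgs v (mem_filter.1 hv).2).2 hv'

theorem step0F_p {V : Type} [DecidableEq V] {u w u' w' : V} (huw : u ≠ w)
    (h : (Pi.single u 1 + Pi.single w 1 : V → ZMod 2) = Pi.single u' 1 + Pi.single w' 1) :
    (u = u' ∧ w = w') ∨ (u = w' ∧ w = u') := by
  have h1 : (Pi.single u 1 + Pi.single w 1 : V → ZMod 2) u = 1 := by
    rw [Pi.add_apply, Pi.single_eq_same, Pi.single_eq_of_ne huw, add_zero]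
  have h2 : (Pi.single u 1 + Pi.single w 1 : V → ZMod 2) w = 1 := by
    rw [Pi.add_apply, Pi.single_eq_same, Pi.single_eq_of_ne huw.symm, zero_add]
  rw [h] at h1 h2
  rw [Pi.add_apply] at h1 h2
  by_cases ha : u = u'
  · by_cases hb : w = w'
    · exact Or.inl ⟨ha, hb⟩
    · rw [Pi.single_eq_of_ne hb, add_zero] at h2
      by_cases hc : w = u'
      · exact absurd (ha.trans hc.symm) huw
      · rw [Pi.single_eq_of_ne hc] at h2
        exact absurd h2 zero_ne_one
  · rw [Pi.single_eq_of_ne ha, zero_add] at h1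
    by_cases hb : u = w'
    · by_cases hc : w = u'
      · exact Or.inr ⟨hb, hc⟩
      · rw [Pi.single_eq_of_ne hc, zero_add] at h2
        by_cases hd : w = w'
        · exact absurd (hb.trans hd.symm) huw
        · rw [Pi.single_eq_of_ne hd] at h2
          exact absurd h2 zero_ne_one
    · rw [Pi.single_eq_of_ne hb] at h1
      exact absurd h1 zero_ne_one

theorem step0F_main {r l : ℕ} {rows : Fin r → Fin l → ZMod 2} (h0 : (ofRows rows).TC)
    {M : BM E} (hM : MinCx rows M) {e : E} {U : Finset V} {h t : E → V} {T : Finset V}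
    (hg : IsGraft M e U h t T) (hsc : (M.del {e}).SC) (hT : HasT rows (M.del {e})) :
    (∃ a b : Fin 3 → E, TriT rows M e a b) ∨ (M.del {e}).TC := by
  have h2 : (M.del {e}).Two := TC.del_two hM.tc hg.mem
  obtain ⟨Z2, hZ2⟩ : ∃ Z2 : Finset V, Z2 = U.filter
    (fun s => (star (M.S \ {e}) h t s).card = 2) := ⟨_, rfl⟩
  have hmemZ : ∀ s, s ∈ Z2 ↔ s ∈ U ∧ (star (M.S \ {e}) h t s).card = 2 := by
    intro s; rw [hZ2, mem_filter]
  obtain ⟨m, hm⟩ : ∃ m, m = Z2.card := ⟨_, rfl⟩
  obtain ⟨z, hzinj, hzmem, hzsurj⟩ : ∃ z : Fin m → V, Function.Injective z ∧ (∀ i, z i ∈ Z2) ∧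
      ∀ s ∈ Z2, ∃ i, z i = s := by
    subst hm
    refine ⟨fun i => (Z2.equivFin.symm i).1,
      Subtype.val_injective.comp Z2.equivFin.symm.injective,
      fun i => (Z2.equivFin.symm i).2, fun s hs => ⟨Z2.equivFin ⟨s, hs⟩, ?_⟩⟩
    simp
  have hzU : ∀ i, z i ∈ U := fun i => ((hmemZ _).1 (hzmem i)).1
  have hz2 : ∀ i, (star (M.S \ {e}) h t (z i)).card = 2 := fun i => ((hmemZ _).1 (hzmem i)).2
  have hzT : ∀ i, z i ∈ T := fun i => step0_T hM.tc hg (hzU i) (hz2 i)
  have hZT : Z2 ⊆ T := by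
    intro s hs
    obtain ⟨i, rfl⟩ := hzsurj s hs
    exact hzT i
  have hZU : Z2 ⊆ U := hZT.trans hg.sub
  have hdeg : ∀ i, ∃ (a b : E) (u w : V), a ∈ (M.del {e}).S ∧ b ∈ (M.del {e}).S ∧ a ≠ b ∧
      star (M.del {e}).S h t (z i) = {a, b} ∧ Jn h t a (z i) u ∧
      Jn h t b (z i) w ∧ u ∈ U ∧ w ∈ U ∧ u ≠ w ∧ u ≠ z i ∧ w ≠ z i ∧
      3 ≤ (star (M.del {e}).S h t u).card ∧ 3 ≤ (star (M.del {e}).S h t w).card ∧
      (∀ x ∈ (M.del {e}).S, ¬ Jn h t x u w) ∧
      (∀ s' ∈ U, s' ≠ z i → (star (M.del {e}).S h t s').card = 2 →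
        ∀ x ∈ (M.del {e}).S, ∀ y ∈ (M.del {e}).S,
        Jn h t x s' u → ¬ Jn h t y s' w) :=
    fun i => hg.gr.deg2 hsc h2 (hzU i) (hz2 i)
  choose a b u w ha hb hab hst hja hjb huU hwU huw huz hwz hud hwd hnuw hsep using hdeg
  have huZ : ∀ i, u i ∉ Z2 := by
    intro i hi
    have h3 := ((hmemZ _).1 hi).2
    have h4 : 3 ≤ (star (M.S \ {e}) h t (u i)).card := hud i
    omega
  have hwZ : ∀ i, w i ∉ Z2 := by
    intro i hi
    have h3 := ((hmemZ _).1 hi).2
    have h4 : 3 ≤ (star (M.S \ {e}) h t (w i)).card := hwd i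
    omega
  obtain ⟨T0, hT0⟩ : ∃ T0 : V → ZMod 2, T0 = fun v => if v ∈ T ∧ v ∉ Z2 then 1 else 0 :=
    ⟨_, rfl⟩
  have hT0a : ∀ v, T0 v ≠ 0 → v ∈ T ∧ v ∉ Z2 := by
    intro v hv
    by_contra hn
    apply hv
    rw [hT0]
    exact if_neg hn
  have hTsplit : ∀ v, (if v ∈ T then 1 else 0 : ZMod 2) = T0 v + (if v ∈ Z2 then 1 else 0) := by
    intro v
    rw [hT0]
    by_cases h1 : v ∈ T
    · by_cases h3 : v ∈ Z2
      · simp [h1, h3]
      · simp [h1, h3]
    · have h3 : v ∉ Z2 := fun h3 => h1 (hZT h3)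
      simp [h1, h3]
  -- the support of `T0 + c + ∑ p`
  have hpsupp : ∀ (I : Finset (Fin m)) v,
      (∑ i ∈ I, (Pi.single (u i) 1 + Pi.single (w i) 1 : V → ZMod 2)) v ≠ 0 →
      v ∈ U ∧ v ∉ Z2 := by
    intro I v hv
    rw [Finset.sum_apply] at hv
    obtain ⟨i, -, hi⟩ := exists_ne_zero_of_sum_ne_zero hv
    rw [Pi.add_apply] at hi
    by_cases h3 : v = u i
    · rw [h3]; exact ⟨huU i, huZ i⟩
    · by_cases h4 : v = w i
      · rw [h4]; exact ⟨hwU i, hwZ i⟩
      · rw [Pi.single_eq_of_ne h3, Pi.single_eq_of_ne h4, add_zero] at hi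
        exact absurd rfl hi
  -- the neutral count
  have hcountN : ∀ I : Finset (Fin m), (swT (M.S \ {e}) h t U T (I.image z)).card =
      wt (T0 + ∑ i ∈ I, (Pi.single (u i) 1 + Pi.single (w i) 1 : V → ZMod 2)) + m := by
    intro I
    have hsupp : ∀ v, (T0 + ∑ i ∈ I, (Pi.single (u i) 1 + Pi.single (w i) 1 : V → ZMod 2)) v ≠ 0 →
        v ∈ U ∧ v ∉ Z2 := by
      intro v hv
      rw [Pi.add_apply] at hv
      by_cases h3 : T0 v = 0
      · rw [h3, zero_add] at hv
        exact hpsupp I v hv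
      · exact ⟨hg.sub (hT0a v h3).1, (hT0a v h3).2⟩
    have key := step0F_card hZU hsupp
    rw [← hm] at key
    rw [step0F_swT (S := M.S \ {e}) hzinj hst hja hjb huw U T I, ← key]
    congr 1
    refine filter_congr fun v _ => ?_
    rw [hTsplit v, Pi.add_apply]
    have h3 : T0 v + (if v ∈ Z2 then 1 else 0) +
        (∑ i ∈ I, (Pi.single (u i) 1 + Pi.single (w i) 1 : V → ZMod 2)) v =
        T0 v + (∑ i ∈ I, (Pi.single (u i) 1 + Pi.single (w i) 1 : V → ZMod 2)) v +
        (if v ∈ Z2 then 1 else 0) := by ring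
    rw [h3]
  -- the count with one vertex removed
  have hcountA : ∀ (I : Finset (Fin m)) (i : Fin m) (c : V), c ∈ U → c ∉ Z2 →
      (swT (M.S \ {e}) h t U (symmDiff (T.erase (z i)) {c}) (I.image z)).card =
      wt (T0 + Pi.single c 1 +
        ∑ j ∈ I, (Pi.single (u j) 1 + Pi.single (w j) 1 : V → ZMod 2)) + (m - 1) := by
    intro I i c hcU hcZ
    have hsupp : ∀ v, (T0 + (Pi.single c 1 : V → ZMod 2) +
        ∑ j ∈ I, (Pi.single (u j) 1 + Pi.single (w j) 1 : V → ZMod 2)) v ≠ 0 →
        v ∈ U ∧ v ∉ Z2.erase (z i) := by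
      intro v hv
      have h3 : v ∈ U ∧ v ∉ Z2 := by
        rw [Pi.add_apply, Pi.add_apply] at hv
        by_cases h3 : T0 v = 0
        · by_cases h4 : v = c
          · rw [h4]; exact ⟨hcU, hcZ⟩
          · rw [h3, Pi.single_eq_of_ne h4, zero_add, zero_add] at hv
            exact hpsupp I v hv
        · exact ⟨hg.sub (hT0a v h3).1, (hT0a v h3).2⟩
      exact ⟨h3.1, fun h4 => h3.2 (mem_of_mem_erase h4)⟩
    have key := step0F_card ((erase_subset (z i) Z2).trans hZU) hsupp
    rw [card_erase_of_mem (hzmem i), ← hm] at key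
    rw [step0F_swT (S := M.S \ {e}) hzinj hst hja hjb huw U _ I, ← key]
    congr 1
    refine filter_congr fun v _ => ?_
    have h3 : (if v ∈ symmDiff (T.erase (z i)) {c} then 1 else 0 : ZMod 2) =
        T0 v + (Pi.single c 1 : V → ZMod 2) v + (if v ∈ Z2.erase (z i) then 1 else 0) := by
      have h4 : (if v ∈ symmDiff (T.erase (z i)) {c} then 1 else 0 : ZMod 2) =
          (if v ∈ T.erase (z i) then 1 else 0) + (Pi.single c 1 : V → ZMod 2) v := by
        by_cases h5 : v = c
        · have h6 : (Pi.single c 1 : V → ZMod 2) v = 1 := by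
            rw [h5, Pi.single_eq_same]
          rw [h6]
          by_cases h7 : v ∈ T.erase (z i)
          · rw [if_pos h7, if_neg]
            · decide
            · rw [mem_symmDiff, mem_singleton]
              tauto
          · rw [if_neg h7, if_pos]
            · decide
            · rw [mem_symmDiff, mem_singleton]
              tauto
        · rw [Pi.single_eq_of_ne h5, add_zero]
          by_cases h7 : v ∈ T.erase (z i)
          · rw [if_pos h7, if_pos]
            rw [mem_symmDiff, mem_singleton]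
            tauto
          · rw [if_neg h7, if_neg]
            rw [mem_symmDiff, mem_singleton]
            tauto
      rw [h4]
      have h5 : (if v ∈ T.erase (z i) then 1 else 0 : ZMod 2) =
          T0 v + (if v ∈ Z2.erase (z i) then 1 else 0) := by
        by_cases h6 : v = z i
        · have h7 : T0 v = 0 := by
            by_contra h8
            exact (hT0a v h8).2 (h6 ▸ hzmem i)
          rw [h7, if_neg, if_neg, add_zero]
          · rw [h6]; exact notMem_erase _ _
          · rw [h6]; exact notMem_erase _ _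
        · have h7 := hTsplit v
          have h8 : v ∈ T.erase (z i) ↔ v ∈ T := by
            rw [mem_erase]; exact ⟨fun h => h.2, fun h => ⟨h6, h⟩⟩
          have h9 : v ∈ Z2.erase (z i) ↔ v ∈ Z2 := by
            rw [mem_erase]; exact ⟨fun h => h.2, fun h => ⟨h6, h⟩⟩
          simp only [h8, h9]
          exact h7
      rw [h5]
      ring
    rw [h3, Pi.add_apply, Pi.add_apply]
    have h4 : T0 v + (Pi.single c 1 : V → ZMod 2) v + (if v ∈ Z2.erase (z i) then 1 else 0) +
        (∑ i ∈ I, (Pi.single (u i) 1 + Pi.single (w i) 1 : V → ZMod 2)) v =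
        T0 v + (Pi.single c 1 : V → ZMod 2) v +
        (∑ i ∈ I, (Pi.single (u i) 1 + Pi.single (w i) 1 : V → ZMod 2)) v +
        (if v ∈ Z2.erase (z i) then 1 else 0) := by ring
    rw [h4]
  -- sets of vertices of degree two are images
  have himg : ∀ SS : Finset V, SS ⊆ U → (∀ s' ∈ SS, (star (M.S \ {e}) h t s').card = 2) →
      SS = (Finset.univ.filter (fun i => z i ∈ SS)).image z := by
    intro SS hSU hS2
    ext s
    rw [mem_image]
    constructor
    · intro hs
      obtain ⟨i, hi⟩ := hzsurj s ((hmemZ s).2 ⟨hSU hs, hS2 s hs⟩)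
      exact ⟨i, mem_filter.2 ⟨mem_univ _, hi ▸ hs⟩, hi⟩
    · rintro ⟨i, hi, rfl⟩
      exact (mem_filter.1 hi).2
  have hNN : ∀ I : Finset (Fin m),
      4 ≤ wt (T0 + ∑ i ∈ I, (Pi.single (u i) 1 + Pi.single (w i) 1 : V → ZMod 2)) + m := by
    intro I
    rw [← hcountN I]
    have hsub : I.image z ⊆ T := by
      intro s hs
      obtain ⟨i, -, rfl⟩ := mem_image.1 hs
      exact hzT i
    have hd : ∀ s ∈ I.image z, (star (M.S \ {e}) h t s).card = 2 := by
      intro s hs
      obtain ⟨i, -, rfl⟩ := mem_image.1 hs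
      exact hz2 i
    obtain ⟨h', t', hg'⟩ := hg.swap_set hsc h2 (I.image z) hsub hd
    exact hM.four_le hg'
  have hAA : ∀ i, ∃ I : Finset (Fin m), i ∉ I ∧
      wt (T0 + Pi.single (u i) 1 +
        ∑ j ∈ I, (Pi.single (u j) 1 + Pi.single (w j) 1 : V → ZMod 2)) + (m - 1) ≤ 2 := by
    intro i
    obtain ⟨SS, h3, h4, h5, h6⟩ := step0_con h0 hM hg hsc hT (hzU i) (hst i) (hab i) (hja i)
      (hjb i)
    refine ⟨Finset.univ.filter (fun i => z i ∈ SS), fun h7 => h3 (mem_filter.1 h7).2, ?_⟩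
    rw [← hcountA _ i (u i) (huU i) (huZ i), ← himg SS h4 h5]
    exact h6
  have hBB : ∀ i, ∃ I : Finset (Fin m), i ∉ I ∧
      wt (T0 + Pi.single (w i) 1 +
        ∑ j ∈ I, (Pi.single (u j) 1 + Pi.single (w j) 1 : V → ZMod 2)) + (m - 1) ≤ 2 := by
    intro i
    obtain ⟨SS, h3, h4, h5, h6⟩ := step0_con h0 hM hg hsc hT (hzU i)
      ((hst i).trans (pair_comm _ _)) (hab i).symm (hjb i) (hja i)
    refine ⟨Finset.univ.filter (fun i => z i ∈ SS), fun h7 => h3 (mem_filter.1 h7).2, ?_⟩
    rw [← hcountA _ i (w i) (hwU i) (hwZ i), ← himg SS h4 h5]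
    exact h6
  have hev : Even (wt T0 + m) := by
    have h3 := hcountN ∅
    rw [sum_empty, add_zero, image_empty] at h3
    rw [← h3]
    have h4 : swT (M.S \ {e}) h t U T ∅ = T := by
      ext v
      simp only [swT, Finset.mem_filter, Finset.sum_empty, add_zero]
      constructor
      · rintro ⟨-, hodd⟩
        by_contra hv
        rw [if_neg hv] at hodd
        exact absurd hodd (by decide)
      · intro hv
        refine ⟨hg.sub hv, ?_⟩
        rw [if_pos hv]
        exact odd_one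
    rw [h4]
    exact hg.even
  have hdd : ∀ i j, i ≠ j → (Pi.single (u i) 1 + Pi.single (w i) 1 : V → ZMod 2) ≠
      Pi.single (u j) 1 + Pi.single (w j) 1 := by
    intro i j hij heq
    have hzz : z j ≠ z i := fun h3 => hij (hzinj h3).symm
    rcases step0F_p (huw i) heq with ⟨h3, h4⟩ | ⟨h3, h4⟩
    · refine hsep i (z j) (hzU j) hzz (hz2 j) (a j) (ha j) (b j) (hb j) ?_ ?_
      · rw [h3]; exact hja j
      · rw [h4]; exact hjb j
    · refine hsep i (z j) (hzU j) hzz (hz2 j) (b j) (hb j) (a j) (ha j) ?_ ?_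
      · rw [h3]; exact hjb j
      · rw [h4]; exact hja j
  rcases comb m u w huw (fun i => Pi.single (u i) 1 + Pi.single (w i) 1) (fun i => rfl) hdd T0
    hev hNN hAA hBB with hm0 | ⟨hm3, c, hcinj, hpc, hTc⟩
  · right
    refine hg.gr.tc_of_deg hsc h2 fun v hv => ?_
    have h3 := hg.gr.two_le_deg hsc hv
    by_contra h4
    have h5 : (star (M.S \ {e}) h t v).card = 2 := by
      have h6 : 2 ≤ (star (M.S \ {e}) h t v).card := h3
      have h7 : ¬ 3 ≤ (star (M.S \ {e}) h t v).card := h4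
      omega
    have h6 : v ∈ Z2 := (hmemZ v).2 ⟨hv, h5⟩
    have h7 : 0 < Z2.card := card_pos.2 ⟨v, h6⟩
    omega
  · left
    subst hm3
    simp only [Fin.cast_eq_self] at hpc
    have hcj : ∀ i j : Fin 3, j ≠ i → (c j = u i ∨ c j = w i) := by
      intro i j hji
      have h3 := congrFun (hpc i) (c j)
      rw [Pi.sub_apply, Finset.sum_apply, Pi.single_eq_of_ne (fun h4 => hji (hcinj h4)),
        sub_zero] at h3
      have h4 : ∑ k, (Pi.single (c k) (1 : ZMod 2) : V → ZMod 2) (c j) = 1 := by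
        rw [sum_eq_single j]
        · exact Pi.single_eq_same _ _
        · intro k _ hk
          exact Pi.single_eq_of_ne (fun h5 => hk (hcinj h5).symm) _
        · intro h5; exact absurd (mem_univ _) h5
      rw [h4, Pi.add_apply] at h3
      by_contra hn
      push Not at hn
      rw [Pi.single_eq_of_ne hn.1, Pi.single_eq_of_ne hn.2, add_zero] at h3
      exact absurd h3 zero_ne_one
    have hcZ : ∀ j, c j ∉ Z2 := by
      intro j
      obtain ⟨i, hi⟩ : ∃ i : Fin 3, j ≠ i := by
        revert j; decide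
      rcases hcj i j hi with h3 | h3
      · rw [h3]; exact huZ i
      · rw [h3]; exact hwZ i
    have hcT0 : ∀ i, c i ∈ T ↔ T0 (c i) = 1 := by
      intro i
      rw [hT0]
      by_cases h3 : c i ∈ T
      · simp [h3, hcZ i]
      · simp [h3]
    refine step0_tri h0 hM.tc hg hsc hT z c hzinj hcinj ?_ hzU ?_ hzT ?_ ?_
    · intro s hs
      constructor
      · intro h3
        exact hzsurj s ((hmemZ s).2 ⟨hs, h3⟩)
      · rintro ⟨i, rfl⟩
        exact hz2 i
    · intro i j hij
      rcases hcj i j (Ne.symm hij) with h3 | h3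
      · exact ⟨a i, ha i, h3 ▸ hja i⟩
      · exact ⟨b i, hb i, h3 ▸ hjb i⟩
    · intro v hv
      by_cases h3 : v ∈ Z2
      · exact Or.inl (hzsurj v h3)
      · right
        have h4 : T0 v = 1 := by
          rw [hT0]
          exact if_pos ⟨hv, h3⟩
        by_contra hn
        push Not at hn
        rcases hTc with ⟨j, hj⟩ | hj
        · rw [hj, Pi.single_eq_of_ne (hn j).symm] at h4
          exact absurd h4 zero_ne_one
        · rw [hj, Finset.sum_apply] at h4
          rw [sum_eq_zero (fun k _ => Pi.single_eq_of_ne (hn k).symm _)] at h4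
          exact absurd h4 zero_ne_one
    · rcases hTc with ⟨j, hj⟩ | hj
      · left
        refine ⟨j, fun i => ?_⟩
        rw [hcT0, hj]
        constructor
        · intro h3
          by_contra hn
          rw [Pi.single_eq_of_ne (fun h4 => hn (hcinj h4))] at h3
          exact absurd h3 zero_ne_one
        · rintro rfl
          exact Pi.single_eq_same _ _
      · right
        intro i
        rw [hcT0, hj, Finset.sum_apply, sum_eq_single i]
        · exact Pi.single_eq_same _ _
        · intro k _ hk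
          exact Pi.single_eq_of_ne (fun h5 => hk (hcinj h5).symm) _
        · intro h5; exact absurd (mem_univ _) h5

theorem step0 {n m : ℕ} (ends : Fin m → Fin n × Fin n) (h0 : (ofRows (grRows ends)).TC)
    {M : BM E} (hM : MinCx (grRows ends) M) :
    ∃ e ∈ M.S, (M.del {e}).SC ∧ HasT (grRows ends) (M.del {e}) ∧
      ((∃ a b : Fin 3 → E, TriT (grRows ends) M e a b) ∨ (M.del {e}).TC) := by
  obtain ⟨e, he, hsc, hT⟩ := bg_has (grRows ends) h0 M hM.tc hM.hasT
    (fun h1 => hM.ng (Graphic_of_IsIso ends h1))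
  refine ⟨e, he, hsc, hT, ?_⟩
  have hlt : (M.del {e}).S.card < M.S.card := by
    show (M.S \ {e}).card < M.S.card
    refine Finset.card_lt_card (Finset.ssubset_iff_subset_ne.2 ⟨Finset.sdiff_subset, ?_⟩)
    intro heq
    have h1 : e ∈ M.S \ {e} := by rw [heq]; exact he
    exact (Finset.mem_sdiff.1 h1).2 (Finset.mem_singleton_self e)
  have hgr : Graphic (M.del {e}) :=
    hM.sc_graphic h0 (M.del {e}) (Minor_del M {e}) hlt hsc hT
  obtain ⟨V, _, _, U, h, t, hG⟩ := exists_IsGr hsc hgr
  obtain ⟨T, hg⟩ := exists_graft he hG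
    (SC_not_coloop M ((TC_iff_SC M).1 hM.tc).1 e he)
  exact step0F_main h0 hM hg hsc hT

end SEY

end
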