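import Pool.Agent.Helper29.MFA.T37
import Pool.Agent.Helper29.MFA.T26
import Pool.Agent.Helper29.MFA.T28
import Pool.Agent.Helper29.MFA.T10

section

/-!
T3-OptA.
* `optA_false` (II.6): contract g1 = y a, merging y into a.  N := M con {g1}, H/g1 = N del {e}.
  (M.con {g1}).del {e,k} is SC, Two: contraction in the 2-class {g1,g2} = star of y in H del k
  (`con_two`), HasT (`HasT_con`).  Add k = (a,y'): `gext`: not parallel (the other edges at y' are y'a', y'b', and a is not a', b'),
  the vertices of degree 2 of (H del k)/g1 are y' only (2-classes of H del k are the stars of y and y'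
  [vertices of degree 2 in H del k are ends of k], contraction of g1 keeps the other degrees), y' is an end of k, so the
  hypothesis on s is void.  So N del {e} is SC, Two; all degrees are >= 3 (y' has k, g3, g4), so TC by `IsGr.tc_of_deg`.
  `IsGraft.con`: y in T, so T becomes {y',b,a',b'} (y erased, a removed): 4 elements.
  `MinCx.false_of_graft`.
-/

namespace SEY

open Finset

variable {E : Type} [Fintype E] [DecidableEq E] {V : Type} [Fintype V] [DecidableEq V]

omit [Fintype E] [DecidableEq E] [Fintype V] in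
private lemma optA_mem_star (S : Finset E) (h t : E → V) (v : V) (x : E) :
    x ∈ star S h t v ↔ x ∈ S ∧ (h x = v ∨ t x = v) := Finset.mem_filter

omit [Fintype E] [DecidableEq E] [Fintype V] [DecidableEq V] in
private lemma optA_Jn_end {h t : E → V} {x : E} {u v w : V} (hj : Jn h t x u v)
    (hw : h x = w ∨ t x = w) : w = u ∨ w = v := by
  rcases hj with ⟨q1, q2⟩ | ⟨q1, q2⟩ <;> rcases hw with hw | hw
  · exact Or.inl (hw.symm.trans q1)
  · exact Or.inr (hw.symm.trans q2)
  · exact Or.inr (hw.symm.trans q1)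
  · exact Or.inl (hw.symm.trans q2)

omit [Fintype E] [DecidableEq E] [Fintype V] [DecidableEq V] in
private lemma optA_Jn_left {h t : E → V} {x : E} {u v : V} (hj : Jn h t x u v) :
    h x = u ∨ t x = u := by
  rcases hj with ⟨q1, _⟩ | ⟨_, q2⟩
  · exact Or.inl q1
  · exact Or.inr q2

omit [Fintype E] [DecidableEq E] [Fintype V] [DecidableEq V] in
private lemma optA_Jn_right {h t : E → V} {x : E} {u v : V} (hj : Jn h t x u v) :
    h x = v ∨ t x = v := by
  rcases hj with ⟨_, q2⟩ | ⟨q1, _⟩
  · exact Or.inr q2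
  · exact Or.inl q1

omit [Fintype V] in
private lemma optA_mg_ne {u v w s : V} (hs : s ≠ v) (hm : mg u v w = s) : w = s := by
  unfold mg at hm
  by_cases hw : w = u
  · rw [if_pos hw] at hm
    exact absurd hm.symm hs
  · rwa [if_neg hw] at hm

omit [Fintype V] in
private lemma optA_mg_of_ne {u v w : V} (hw : w ≠ u) : mg u v w = w := if_neg hw

omit [Fintype V] in
private lemma optA_mg_self (u v : V) : mg u v u = v := if_pos rfl

omit [Fintype E] [DecidableEq E] [Fintype V] [DecidableEq V] in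
private lemma optA_ne_edge {h t : E → V} {x z : E} {u v u' v' : V} (hj : Jn h t x u v)
    (hj' : Jn h t z u' v') (h1 : u' ≠ u) (h2 : u' ≠ v) : x ≠ z := by
  rintro rfl
  rcases optA_Jn_end hj (optA_Jn_left hj') with q | q
  · exact h1 q
  · exact h2 q

omit [Fintype E] [DecidableEq E] [Fintype V] [DecidableEq V] in
private lemma optA_ne_edge' {h t : E → V} {x z : E} {u v u' v' : V} (hj : Jn h t x u v)
    (hj' : Jn h t z u' v') (h1 : v' ≠ u) (h2 : v' ≠ v) : x ≠ z := by
  rintro rfl
  rcases optA_Jn_end hj (optA_Jn_right hj') with q | q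
  · exact h1 q
  · exact h2 q

theorem optA_false {r l : ℕ} {rows : Fin r → Fin l → ZMod 2} (h0 : (ofRows rows).TC)
    {M : BM E} (hM : MinCx rows M) {U : Finset V} {h t : E → V} {e k g1 g2 g3 g4 : E}
    {y y' a b a' b' : V} (hO : OptA M U h t e k g1 g2 g3 g4 y y' a b a' b')
    (htc : (M.del {e}).TC) (hsc : (M.del {e, k}).SC) (hT : HasT rows (M.del {e, k})) :
    False := by
  have hnd := hO.nd
  simp only [List.nodup_cons, List.mem_cons, List.not_mem_nil, or_false, not_or,
    not_false_eq_true, List.nodup_nil, and_true] at hnd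
  obtain ⟨⟨hyy', hya, hyb, hya', hyb'⟩, ⟨hy'a, hy'b, hy'a', hy'b'⟩, ⟨hab, haa', hab'⟩,
    ⟨hba', hbb'⟩, ha'b'⟩ := hnd
  have heS : e ∈ M.S := hO.gr.mem
  have hkst : k ∈ star (M.S \ {e}) h t y := by rw [hO.st]; simp
  have hg1st : g1 ∈ star (M.S \ {e}) h t y := by rw [hO.st]; simp
  have hg2st : g2 ∈ star (M.S \ {e}) h t y := by rw [hO.st]; simp
  have hg3st : g3 ∈ star (M.S \ {e}) h t y' := by rw [hO.st']; simp
  have hg4st : g4 ∈ star (M.S \ {e}) h t y' := by rw [hO.st']; simp
  have hkS : k ∈ M.S \ {e} := ((optA_mem_star _ _ _ _ _).1 hkst).1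
  have hg1S : g1 ∈ M.S \ {e} := ((optA_mem_star _ _ _ _ _).1 hg1st).1
  have hg2S : g2 ∈ M.S \ {e} := ((optA_mem_star _ _ _ _ _).1 hg2st).1
  have hg3S : g3 ∈ M.S \ {e} := ((optA_mem_star _ _ _ _ _).1 hg3st).1
  have hg4S : g4 ∈ M.S \ {e} := ((optA_mem_star _ _ _ _ _).1 hg4st).1
  have hHsc : (M.del {e}).SC := ((TC_iff_SC _).1 htc).1
  have hends := hO.gr.gr.ends
  have h1k : g1 ≠ k := (optA_ne_edge' hO.jk hO.j1 (fun q => hya q.symm) (fun q => hy'a q.symm)).symm
  have h2k : g2 ≠ k := (optA_ne_edge' hO.jk hO.j2 (fun q => hyb q.symm) (fun q => hy'b q.symm)).symm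
  have h3k : g3 ≠ k :=
    (optA_ne_edge' hO.jk hO.j3 (fun q => hya' q.symm) (fun q => hy'a' q.symm)).symm
  have h4k : g4 ≠ k :=
    (optA_ne_edge' hO.jk hO.j4 (fun q => hyb' q.symm) (fun q => hy'b' q.symm)).symm
  have h12 : g1 ≠ g2 := optA_ne_edge' hO.j1 hO.j2 (fun q => hyb q.symm) (fun q => hab q.symm)
  have h34 : g3 ≠ g4 := optA_ne_edge' hO.j3 hO.j4 (fun q => hy'b' q.symm) (fun q => ha'b' q.symm)
  have h31 : g3 ≠ g1 := (optA_ne_edge hO.j1 hO.j3 (fun q => hyy' q.symm) hy'a).symm
  have h41 : g4 ≠ g1 := (optA_ne_edge hO.j1 hO.j4 (fun q => hyy' q.symm) hy'a).symm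
  rw [Finset.mem_sdiff, Finset.mem_singleton] at hkS hg1S hg2S hg3S hg4S
  have hyU : y ∈ U := hO.gr.sub (by simp)
  have hdd : (M.del {e}).del {k} = M.del {e, k} := by
    rw [del_del]
    congr 1
  have hkS' : k ∈ (M.del {e}).S := by
    show k ∈ M.S \ {e}
    simp [hkS.1, hkS.2]
  have hgr0 : IsGr (M.del {e, k}) U h t := by
    rw [← hdd]
    exact hO.gr.gr.del hkS' (BM.TC.exists_cycle htc hkS')
  have htwo0 : (M.del {e, k}).Two := by
    rw [← hdd]
    exact TC.del_two htc hkS'
  have hx1H : g1 ∈ (M.del {e, k}).S := by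
    show g1 ∈ M.S \ {e, k}
    simp [hg1S.1, hg1S.2, h1k]
  have hx2H : g2 ∈ (M.del {e, k}).S := by
    show g2 ∈ M.S \ {e, k}
    simp [hg2S.1, hg2S.2, h2k]
  have hst0 : star (M.del {e, k}).S h t y = {g2, g1} := by
    show star (M.S \ {e, k}) h t y = {g2, g1}
    ext x
    have h3 : x ∈ star (M.S \ {e}) h t y ↔ x ∈ ({k, g1, g2} : Finset E) := by rw [hO.st]
    rw [optA_mem_star] at h3
    rw [optA_mem_star]
    simp only [Finset.mem_sdiff, Finset.mem_insert, Finset.mem_singleton] at h3 ⊢
    constructor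
    · rintro ⟨⟨hx, hx2⟩, hx3⟩
      rw [not_or] at hx2
      rcases h3.1 ⟨⟨hx, hx2.1⟩, hx3⟩ with h4 | h4 | h4
      · exact absurd h4 hx2.2
      · exact Or.inr h4
      · exact Or.inl h4
    · intro h4
      have h5 : (x ∈ M.S ∧ ¬x = e) ∧ (h x = y ∨ t x = y) := h3.2 (by tauto)
      refine ⟨⟨h5.1.1, ?_⟩, h5.2⟩
      rintro (h6 | h6)
      · exact h5.1.2 h6
      · rcases h4 with h4 | h4
        · exact h2k (h4.symm.trans h6)
        · exact h1k (h4.symm.trans h6)
  have hser : (M.del {e, k}).Ser g1 g2 :=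
    (hgr0.star2 hsc htwo0 hx1H hx2H h12).2 ⟨y, hyU, by rw [hst0, Finset.pair_comm]⟩
  have hcon := con_two hgr0 hyU hst0 h12.symm hsc htwo0
  have hTcon : HasT rows ((M.del {e, k}).con {g1}) := HasT_con h0 hx1H hx2H h12 hser hT
  have hcard : 4 ≤ M.S.card := hM.tc.1
  -- no parallel edges to `g1`
  have hnop : ∀ x ∈ M.S, x ≠ e → x ≠ g1 → ¬ Jn h t x y a := by
    intro x hx hxe hxx hjx
    exact hxx (hO.gr.gr.no_par hHsc (by show x ∈ M.S \ {e}; simp [hx, hxe])
      (by show g1 ∈ M.S \ {e}; simp [hg1S.1, hg1S.2]) hjx hO.j1)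
  have hgraft0 := hO.gr.con hg1S.1 hg1S.2 hO.j1 hnop (by omega)
  have hyT : y ∈ ({y, y', a, b, a', b'} : Finset V) := by simp
  rw [if_pos hyT] at hgraft0
  have hgN : IsGr ((M.con {g1}).del {e}) (U.erase y) (fun z => mg y a (h z))
      (fun z => mg y a (t z)) := hgraft0.gr
  -- deleting `k`
  have hNk : ((M.con {g1}).del {e}).del {k} = (M.del {e, k}).con {g1} := by
    rw [del_del, con_del_comm M {g1} {e, k}]
    · rfl
    · rw [Finset.disjoint_singleton_left]
      simp [hg1S.2, h1k]
  have hkN : k ∈ ((M.con {g1}).del {e}).S := by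
    show k ∈ (M.S \ {g1}) \ {e}
    simp [hkS.1, hkS.2, h1k.symm]
  have hgNk : IsGr (((M.con {g1}).del {e}).del {k}) (U.erase y) (fun z => mg y a (h z))
      (fun z => mg y a (t z)) := by
    rw [hNk]
    refine hgr0.con hx1H hO.j1 ?_ ?_
    · intro x hx hxx hjx
      have hx' : x ∈ M.S \ {e, k} := hx
      rw [Finset.mem_sdiff, Finset.mem_insert, Finset.mem_singleton, not_or] at hx'
      exact hnop x hx'.1 hx'.2.1 hxx hjx
    · have h5 : ({g1, g2} : Finset E) ⊆ (M.del {e, k}).S := by
        intro x hx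
        rw [Finset.mem_insert, Finset.mem_singleton] at hx
        rcases hx with rfl | rfl
        · exact hx1H
        · exact hx2H
      have h6 := Finset.card_le_card h5
      rw [Finset.card_pair h12] at h6
      exact h6
  have hscNk : (((M.con {g1}).del {e}).del {k}).SC := by rw [hNk]; exact hcon.1
  have htwoNk : (((M.con {g1}).del {e}).del {k}).Two := by rw [hNk]; exact hcon.2
  -- edges at `y'`
  have hxy : ∀ x ∈ M.S, x ≠ e → x ≠ k → (h x = y' ∨ t x = y') → x = g3 ∨ x = g4 := by
    intro x hx h1 h2 h5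
    have h6 : x ∈ star (M.S \ {e}) h t y' := by
      rw [optA_mem_star, Finset.mem_sdiff, Finset.mem_singleton]
      exact ⟨⟨hx, h1⟩, h5⟩
    rw [hO.st', Finset.mem_insert, Finset.mem_insert, Finset.mem_singleton] at h6
    exact h6.resolve_left h2
  have hy'y : y' ≠ y := fun q => hyy' q.symm
  -- degrees
  have hdegs : ∀ s ∈ U, s ≠ y → s ≠ a → s ≠ y' →
      3 ≤ (star (M.S \ {e, k, g1}) (fun z => mg y a (h z)) (fun z => mg y a (t z)) s).card := by
    intro s hs hsd hsw hsy
    have h3 : 3 ≤ (star (M.S \ {e}) h t s).card := TC.three_le_deg htc hO.gr.gr hs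
    refine h3.trans (Finset.card_le_card ?_)
    intro x hx
    rw [optA_mem_star, Finset.mem_sdiff, Finset.mem_singleton] at hx
    rw [optA_mem_star, Finset.mem_sdiff, Finset.mem_insert, Finset.mem_insert,
      Finset.mem_singleton]
    refine ⟨⟨hx.1.1, ?_⟩, ?_⟩
    · rintro (h4 | h4 | h4)
      · exact hx.1.2 h4
      · subst h4
        rcases optA_Jn_end hO.jk hx.2 with q | q
        · exact hsd q
        · exact hsy q
      · subst h4
        rcases optA_Jn_end hO.j1 hx.2 with q | q
        · exact hsd q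
        · exact hsw q
    · rcases hx.2 with q | q
      · left
        show mg y a (h x) = s
        rw [q, optA_mg_of_ne hsd]
      · right
        show mg y a (t x) = s
        rw [q, optA_mg_of_ne hsd]
  have hjk' : Jn (fun z => mg y a (h z)) (fun z => mg y a (t z)) k y' a := by
    rcases hO.jk with ⟨q1, q2⟩ | ⟨q1, q2⟩
    · right
      constructor
      · show mg y a (h k) = a
        rw [q1, optA_mg_self]
      · show mg y a (t k) = y'
        rw [q2, optA_mg_of_ne hy'y]
    · left
      constructor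
      · show mg y a (h k) = y'
        rw [q1, optA_mg_of_ne hy'y]
      · show mg y a (t k) = a
        rw [q2, optA_mg_self]
  have hgx := gext hkN hgN hgNk hscNk htwoNk hjk' (by
      intro x hx hxk hjx
      have hx' : x ∈ (M.S \ {g1}) \ {e} := hx
      rw [Finset.mem_sdiff, Finset.mem_sdiff, Finset.mem_singleton, Finset.mem_singleton] at hx'
      have hy1 : h x = y' ∨ t x = y' := by
        rcases optA_Jn_left hjx with q | q
        · exact Or.inl (optA_mg_ne hy'a q)
        · exact Or.inr (optA_mg_ne hy'a q)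
      have hw1 : mg y a (h x) = a ∨ mg y a (t x) = a := optA_Jn_right hjx
      rcases hxy x hx'.1.1 hx'.2 hxk hy1 with h4 | h4
      · subst h4
        rcases hO.j3 with ⟨q1, q2⟩ | ⟨q1, q2⟩
        · rw [q1, q2, optA_mg_of_ne hy'y, optA_mg_of_ne (fun q => hya' q.symm)] at hw1
          exact hw1.elim (fun q => hy'a q) (fun q => haa' q.symm)
        · rw [q1, q2, optA_mg_of_ne hy'y, optA_mg_of_ne (fun q => hya' q.symm)] at hw1
          exact hw1.elim (fun q => haa' q.symm) (fun q => hy'a q)
      · subst h4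
        rcases hO.j4 with ⟨q1, q2⟩ | ⟨q1, q2⟩
        · rw [q1, q2, optA_mg_of_ne hy'y, optA_mg_of_ne (fun q => hyb' q.symm)] at hw1
          exact hw1.elim (fun q => hy'a q) (fun q => hab' q.symm)
        · rw [q1, q2, optA_mg_of_ne hy'y, optA_mg_of_ne (fun q => hyb' q.symm)] at hw1
          exact hw1.elim (fun q => hab' q.symm) (fun q => hy'a q)) (by
      intro s hs hsy hsw p _ q _ hst' _ _
      have hs' := Finset.mem_erase.1 hs
      have h3 := hdegs s hs'.2 hs'.1 hsw hsy
      have h4 : ((M.con {g1}).del {e}).S \ {k} = M.S \ {e, k, g1} := by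
        show ((M.S \ {g1}) \ {e}) \ {k} = M.S \ {e, k, g1}
        ext x
        simp only [Finset.mem_sdiff, Finset.mem_singleton, Finset.mem_insert]
        tauto
      rw [← h4, hst'] at h3
      have h5 := Finset.card_le_two (a := p) (b := q)
      omega)
  have htcN : ((M.con {g1}).del {e}).TC := by
    refine hgN.tc_of_deg hgx.1 hgx.2 ?_
    intro v hv
    have hv' := Finset.mem_erase.1 hv
    show 3 ≤ (star ((M.S \ {g1}) \ {e}) (fun z => mg y a (h z)) (fun z => mg y a (t z)) v).card
    by_cases hvy : v = y'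
    · subst hvy
      have h5 : ({k, g3, g4} : Finset E) ⊆
          star ((M.S \ {g1}) \ {e}) (fun z => mg y a (h z)) (fun z => mg y a (t z)) v := by
        have aux : ∀ x, x ∈ M.S → x ≠ e → x ≠ g1 → (h x = v ∨ t x = v) →
            x ∈ star ((M.S \ {g1}) \ {e}) (fun z => mg y a (h z)) (fun z => mg y a (t z)) v := by
          intro x hx1 hx2 hx3 hx4
          rw [optA_mem_star, Finset.mem_sdiff, Finset.mem_sdiff, Finset.mem_singleton,
            Finset.mem_singleton]
          refine ⟨⟨⟨hx1, hx3⟩, hx2⟩, ?_⟩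
          rcases hx4 with q | q
          · left
            show mg y a (h x) = v
            rw [q, optA_mg_of_ne hy'y]
          · right
            show mg y a (t x) = v
            rw [q, optA_mg_of_ne hy'y]
        intro x hx
        rw [Finset.mem_insert, Finset.mem_insert, Finset.mem_singleton] at hx
        rcases hx with rfl | rfl | rfl
        · exact aux _ hkS.1 hkS.2 h1k.symm (optA_Jn_right hO.jk)
        · exact aux _ hg3S.1 hg3S.2 h31 (optA_Jn_left hO.j3)
        · exact aux _ hg4S.1 hg4S.2 h41 (optA_Jn_left hO.j4)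
      have h6 := Finset.card_le_card h5
      rw [Finset.card_insert_of_notMem (by simp [h3k.symm, h4k.symm]),
        Finset.card_pair h34] at h6
      exact h6
    · by_cases hvw : v = a
      · subst hvw
        have h3 : 3 ≤ (star (M.S \ {e}) h t v).card := TC.three_le_deg htc hO.gr.gr hv'.2
        have h5 : insert k ((star (M.S \ {e}) h t v).erase g1) ⊆
            star ((M.S \ {g1}) \ {e}) (fun z => mg y v (h z)) (fun z => mg y v (t z)) v := by
          intro x hx
          rw [Finset.mem_insert, Finset.mem_erase, optA_mem_star, Finset.mem_sdiff,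
            Finset.mem_singleton] at hx
          rw [optA_mem_star, Finset.mem_sdiff, Finset.mem_sdiff, Finset.mem_singleton,
            Finset.mem_singleton]
          rcases hx with rfl | hx
          · exact ⟨⟨⟨hkS.1, h1k.symm⟩, hkS.2⟩, optA_Jn_right hjk'⟩
          · refine ⟨⟨⟨hx.2.1.1, hx.1⟩, hx.2.1.2⟩, ?_⟩
            rcases hx.2.2 with q | q
            · left
              show mg y v (h x) = v
              rw [q, optA_mg_of_ne (fun q => hya q.symm)]
            · right
              show mg y v (t x) = v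
              rw [q, optA_mg_of_ne (fun q => hya q.symm)]
        have h6 := Finset.card_le_card h5
        have hknot : k ∉ (star (M.S \ {e}) h t v).erase g1 := by
          intro hk'
          have h7 := (optA_mem_star _ _ _ _ _).1 (Finset.mem_erase.1 hk').2
          rcases optA_Jn_end hO.jk h7.2 with q | q
          · exact hya q.symm
          · exact hy'a q.symm
        rw [Finset.card_insert_of_notMem hknot] at h6
        have h8 := Finset.pred_card_le_card_erase (s := star (M.S \ {e}) h t v) (a := g1)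
        omega
      · refine (hdegs v hv'.2 hv'.1 hvw hvy).trans (Finset.card_le_card ?_)
        intro x hx
        rw [optA_mem_star, Finset.mem_sdiff, Finset.mem_insert, Finset.mem_insert,
          Finset.mem_singleton] at hx
        rw [optA_mem_star, Finset.mem_sdiff, Finset.mem_sdiff, Finset.mem_singleton,
          Finset.mem_singleton]
        exact ⟨⟨⟨hx.1.1, fun q => hx.1.2 (Or.inr (Or.inr q))⟩, fun q => hx.1.2 (Or.inl q)⟩, hx.2⟩
  have hTN : HasT rows ((M.con {g1}).del {e}) := by
    refine HasT_of_del (D := {k}) ?_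
    rw [hNk]
    exact hTcon
  have hlt : (M.con {g1}).S.card < M.S.card := by
    show (M.S \ {g1}).card < M.S.card
    refine Finset.card_lt_card (Finset.ssubset_iff_subset_ne.2 ⟨Finset.sdiff_subset, ?_⟩)
    intro heq
    have h1 : g1 ∈ M.S \ {g1} := by rw [heq]; exact hg1S.1
    exact (Finset.mem_sdiff.1 h1).2 (Finset.mem_singleton_self g1)
  have h4 : 4 ≤ (symmDiff (({y, y', a, b, a', b'} : Finset V).erase y) {a}).card := by
    have hsub : ({y', b, a', b'} : Finset V) ⊆
        symmDiff (({y, y', a, b, a', b'} : Finset V).erase y) {a} := by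
      intro x hx
      rw [Finset.mem_insert, Finset.mem_insert, Finset.mem_insert, Finset.mem_singleton] at hx
      rw [Finset.mem_symmDiff, Finset.mem_erase, Finset.mem_singleton]
      left
      rcases hx with rfl | rfl | rfl | rfl
      · exact ⟨⟨hy'y, by simp⟩, hy'a⟩
      · exact ⟨⟨fun q => hyb q.symm, by simp⟩, fun q => hab q.symm⟩
      · exact ⟨⟨fun q => hya' q.symm, by simp⟩, fun q => haa' q.symm⟩
      · exact ⟨⟨fun q => hyb' q.symm, by simp⟩, fun q => hab' q.symm⟩
    refine le_trans ?_ (Finset.card_le_card hsub)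
    rw [Finset.card_insert_of_notMem (by simp [hy'b, hy'a', hy'b']),
      Finset.card_insert_of_notMem (by simp [hba', hbb']), Finset.card_pair ha'b']
  exact hM.false_of_graft h0 (M.con {g1}) (Minor_con M {g1}) hlt hgraft0 htcN hTN h4

end SEY

end

section

/-!
T3-OptB.
* `optB_W` (II.4): W-structure a := ![e, g1, g3], b := ![k, g2, g4].  f in M.R is given by pi (`IsGraft.rows`): f e = pi y + pi y' +
  pi a + pi a' , f g1 = pi y + pi a, f g3 = pi y' + pi a': sum 0.  f k + f g2 + f g4 = (y+y')+(y+b)+(y'+b) = 0.  Rows: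
  {e,k,g1,g2} = lifted star of y (`IsGraft.star_mem`, y in T), {e,k,g3,g4} = lifted star of y', {g1,g2,g3,g4} their sum.
  The cycle: `count_cycle` for H = M del {e}, vertices y, y' (U >= 5 by hypothesis): z vanishes on both stars, and at e.
-/

namespace SEY

open Finset

variable {E : Type} [Fintype E] [DecidableEq E] {V : Type} [Fintype V] [DecidableEq V]

omit [Fintype E] [DecidableEq E] [Fintype V] [DecidableEq V] in
/-- Edges with different pairs of ends are different. -/
private lemma optB_ne {h t : E → V} {x x' : E} {u v u' v' : V} (hj : Jn h t x u v)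
    (hj' : Jn h t x' u' v') (h1 : u ≠ u' ∨ v ≠ v') (h2 : u ≠ v' ∨ v ≠ u') : x ≠ x' := by
  rintro rfl
  rcases hj with ⟨p, q⟩ | ⟨p, q⟩ <;> rcases hj' with ⟨p', q'⟩ | ⟨p', q'⟩
  · have hu : u = u' := p.symm.trans p'
    have hv : v = v' := q.symm.trans q'
    rcases h1 with h | h
    · exact h hu
    · exact h hv
  · have hu : u = v' := p.symm.trans p'
    have hv : v = u' := q.symm.trans q'
    rcases h2 with h | h
    · exact h hu
    · exact h hv
  · have hu : v = u' := p.symm.trans p'
    have hv : u = v' := q.symm.trans q'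
    rcases h2 with h | h
    · exact h hv
    · exact h hu
  · have hu : v = v' := p.symm.trans p'
    have hv : u = u' := q.symm.trans q'
    rcases h1 with h | h
    · exact h hv
    · exact h hu

omit [Fintype E] [Fintype V] [DecidableEq V] in
private lemma optB_cob {S : Finset E} {h t : E → V} {x : E} {u v : V} (π : V → ZMod 2)
    (hx : x ∈ S) (hj : Jn h t x u v) : cob S h t π x = π u + π v := by
  unfold cob
  rw [if_pos hx]
  rcases hj with ⟨p, q⟩ | ⟨p, q⟩
  · rw [p, q]
  · rw [p, q, add_comm]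

omit [Fintype E] in
private lemma optB_ind_add {p q x1 x2 x3 x4 : E} (hp1 : p ≠ x1) (hp2 : p ≠ x2) (hp3 : p ≠ x3)
    (hp4 : p ≠ x4) (hq1 : q ≠ x1) (hq2 : q ≠ x2) (hq3 : q ≠ x3) (hq4 : q ≠ x4)
    (h13 : x1 ≠ x3) (h14 : x1 ≠ x4) (h23 : x2 ≠ x3) (h24 : x2 ≠ x4) :
    (ind {x1, x2, x3, x4} : E → ZMod 2) = ind {p, q, x1, x2} + ind {p, q, x3, x4} := by
  have h2 : (1 : ZMod 2) + 1 = 0 := by decide
  funext x
  simp only [ind, Pi.add_apply, mem_insert, mem_singleton]
  by_cases hxp : x = p
  · subst hxp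
    simp [hp1, hp2, hp3, hp4, h2]
  by_cases hxq : x = q
  · subst hxq
    simp [hq1, hq2, hq3, hq4, h2]
  by_cases hx1 : x = x1
  · subst hx1
    simp [hxp, hxq, h13, h14]
  by_cases hx2 : x = x2
  · subst hx2
    simp [hxp, hxq, h23, h24]
  simp [hxp, hxq, hx1, hx2]

theorem optB_W {M : BM E} {U : Finset V} {h t : E → V} {e k g1 g2 g3 g4 : E}
    {y y' a a' b : V} (hO : OptB M U h t e k g1 g2 g3 g4 y y' a a' b)
    (htc : (M.del {e}).TC) (hU : 5 ≤ U.card) :
    ∃ a b : Fin 3 → E, WStr M a b ∧ ∃ z ∈ M.Z, z ≠ 0 ∧ ∀ i, z (a i) = 0 ∧ z (b i) = 0 := by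
  classical
  have hnd := hO.nd
  simp only [List.nodup_cons, List.mem_cons, List.not_mem_nil, or_false, not_or,
    not_false_eq_true, List.nodup_nil, and_true] at hnd
  obtain ⟨⟨nyy', nya, nya', nyb⟩, ⟨ny'a, ny'a', ny'b⟩, ⟨naa', nab⟩, na'b⟩ := hnd
  have hsub1 : ∀ x ∈ star (M.S \ {e}) h t y, x ∈ M.S ∧ x ≠ e := by
    intro x hx
    have := (mem_filter.1 hx).1
    rw [mem_sdiff, mem_singleton] at this
    exact this
  have hsub2 : ∀ x ∈ star (M.S \ {e}) h t y', x ∈ M.S ∧ x ≠ e := by
    intro x hx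
    have := (mem_filter.1 hx).1
    rw [mem_sdiff, mem_singleton] at this
    exact this
  have ck := hsub1 k (by rw [hO.st]; simp)
  have c1 := hsub1 g1 (by rw [hO.st]; simp)
  have c2 := hsub1 g2 (by rw [hO.st]; simp)
  have c3 := hsub2 g3 (by rw [hO.st']; simp)
  have c4 := hsub2 g4 (by rw [hO.st']; simp)
  have nk1 : k ≠ g1 := optB_ne hO.jk hO.j1 (Or.inr ny'a) (Or.inl nya)
  have nk2 : k ≠ g2 := optB_ne hO.jk hO.j2 (Or.inr ny'b) (Or.inl nyb)
  have nk3 : k ≠ g3 := optB_ne hO.jk hO.j3 (Or.inl nyy') (Or.inl nya')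
  have nk4 : k ≠ g4 := optB_ne hO.jk hO.j4 (Or.inl nyy') (Or.inl nyb)
  have n12 : g1 ≠ g2 := optB_ne hO.j1 hO.j2 (Or.inr nab) (Or.inl nyb)
  have n13 : g1 ≠ g3 := optB_ne hO.j1 hO.j3 (Or.inl nyy') (Or.inl nya')
  have n14 : g1 ≠ g4 := optB_ne hO.j1 hO.j4 (Or.inl nyy') (Or.inl nyb)
  have n23 : g2 ≠ g3 := optB_ne hO.j2 hO.j3 (Or.inl nyy') (Or.inl nya')
  have n24 : g2 ≠ g4 := optB_ne hO.j2 hO.j4 (Or.inl nyy') (Or.inl nyb)
  have n34 : g3 ≠ g4 := optB_ne hO.j3 hO.j4 (Or.inr na'b) (Or.inl ny'b)
  have hyU : y ∈ U := hO.gr.sub (by simp)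
  have hy'U : y' ∈ U := hO.gr.sub (by simp)
  have hr1 : ind {e, k, g1, g2} ∈ M.R := by
    have := hO.gr.star_mem hyU
    rw [if_pos (by simp), hO.st] at this
    exact this
  have hr2 : ind {e, k, g3, g4} ∈ M.R := by
    have := hO.gr.star_mem hy'U
    rw [if_pos (by simp), hO.st'] at this
    exact this
  have hr3 : ind {g1, g2, g3, g4} ∈ M.R := by
    rw [optB_ind_add (p := e) (q := k) c1.2.symm c2.2.symm c3.2.symm c4.2.symm nk1 nk2 nk3 nk4
      n13 n14 n23 n24]
    exact M.R.add_mem hr1 hr2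
  have mS : ∀ x : E, x ∈ M.S ∧ x ≠ e → x ∈ M.S \ {e} := by
    intro x hx
    rw [mem_sdiff, mem_singleton]
    exact hx
  have two : ∀ x : ZMod 2, x + x = 0 := z_add_self
  refine ⟨![e, g1, g3], ![k, g2, g4], ⟨?_, ?_, ?_, ?_, ?_, ?_, ?_, ?_⟩, ?_⟩
  · intro i
    fin_cases i
    · exact hO.gr.mem
    · exact c1.1
    · exact c3.1
  · intro i
    fin_cases i
    · exact ck.1
    · exact c2.1
    · exact c4.1
  · intro i j hij
    fin_cases i <;> fin_cases j <;> simp_all
  · intro i j hij
    fin_cases i <;> fin_cases j <;> simp_all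
  · intro i j
    fin_cases i <;> fin_cases j
    · exact ck.2.symm
    · exact c2.2.symm
    · exact c4.2.symm
    · exact nk1.symm
    · exact n12
    · exact n14
    · exact nk3.symm
    · exact n23.symm
    · exact n34
  · intro f hf
    obtain ⟨π, rfl⟩ := (hO.gr.rows f).1 hf
    have e1 : ∑ v ∈ ({y, y', a, a'} : Finset V), π v = π y + (π y' + (π a + π a')) := by
      rw [sum_insert, sum_insert, sum_insert, sum_singleton]
      · simpa using naa'
      · simp only [mem_insert, mem_singleton, not_or]; exact ⟨ny'a, ny'a'⟩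
      · simp only [mem_insert, mem_singleton, not_or]; exact ⟨nyy', nya, nya'⟩
    have e2 := optB_cob π (mS g1 c1) hO.j1
    have e3 := optB_cob π (mS g3 c3) hO.j3
    show (if e = e then ∑ v ∈ ({y, y', a, a'} : Finset V), π v else cob (M.S \ {e}) h t π e)
      + (if g1 = e then ∑ v ∈ ({y, y', a, a'} : Finset V), π v else cob (M.S \ {e}) h t π g1)
      + (if g3 = e then ∑ v ∈ ({y, y', a, a'} : Finset V), π v else cob (M.S \ {e}) h t π g3) = 0
    rw [if_pos rfl, if_neg c1.2, if_neg c3.2, e1, e2, e3]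
    have : π y + (π y' + (π a + π a')) + (π y + π a) + (π y' + π a')
        = (π y + π y) + (π y' + π y') + (π a + π a) + (π a' + π a') := by ring
    rw [this, two (π y), two (π y'), two (π a), two (π a')]
    simp
  · intro f hf
    obtain ⟨π, rfl⟩ := (hO.gr.rows f).1 hf
    have e1 := optB_cob π (mS k ck) hO.jk
    have e2 := optB_cob π (mS g2 c2) hO.j2
    have e3 := optB_cob π (mS g4 c4) hO.j4
    show (if k = e then ∑ v ∈ ({y, y', a, a'} : Finset V), π v else cob (M.S \ {e}) h t π k)
      + (if g2 = e then ∑ v ∈ ({y, y', a, a'} : Finset V), π v else cob (M.S \ {e}) h t π g2)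
      + (if g4 = e then ∑ v ∈ ({y, y', a, a'} : Finset V), π v else cob (M.S \ {e}) h t π g4) = 0
    rw [if_neg ck.2, if_neg c2.2, if_neg c4.2, e1, e2, e3]
    have : π y + π y' + (π y + π b) + (π y' + π b)
        = (π y + π y) + (π y' + π y') + (π b + π b) := by ring
    rw [this, two (π y), two (π y'), two (π b)]
    simp
  · have q1 : ({g1, g2, e, k} : Finset E) = {e, k, g1, g2} := by
      ext x; simp only [mem_insert, mem_singleton]; tauto
    have q2 : ({g3, g4, e, k} : Finset E) = {e, k, g3, g4} := by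
      ext x; simp only [mem_insert, mem_singleton]; tauto
    have q3 : ({g3, g4, g1, g2} : Finset E) = {g1, g2, g3, g4} := by
      ext x; simp only [mem_insert, mem_singleton]; tauto
    intro i j hij
    fin_cases i <;> fin_cases j
    · exact absurd rfl hij
    · exact hr1
    · exact hr2
    · show ind {g1, g2, e, k} ∈ M.R
      rw [q1]; exact hr1
    · exact absurd rfl hij
    · exact hr3
    · show ind {g3, g4, e, k} ∈ M.R
      rw [q2]; exact hr2
    · show ind {g3, g4, g1, g2} ∈ M.R
      rw [q3]; exact hr3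
    · exact absurd rfl hij
  · have s1 : star (M.del {e}).S h t y = {k, g1, g2} := hO.st
    have s2 : star (M.del {e}).S h t y' = {k, g3, g4} := hO.st'
    obtain ⟨z, hz, hz0, hv⟩ := count_cycle htc hO.gr.gr hU hyU hy'U nyy'
      (by rw [s1, card_insert_of_notMem, card_insert_of_notMem, card_singleton]
          · simpa using n12
          · simp only [mem_insert, mem_singleton, not_or]; exact ⟨nk1, nk2⟩)
      (by rw [s2, card_insert_of_notMem, card_insert_of_notMem, card_singleton]
          · simpa using n34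
          · simp only [mem_insert, mem_singleton, not_or]; exact ⟨nk3, nk4⟩)
      (x := k) (mS k ck) hO.jk
    have hz' := (BM.mem_Z_del M).1 hz
    have ze : z e = 0 := hz'.2 e (mem_singleton_self e)
    have v1 : ∀ g ∈ ({k, g1, g2} : Finset E), z g = 0 := by
      intro g hg
      exact hv g (Or.inl (by rw [s1]; exact hg))
    have v2 : ∀ g ∈ ({k, g3, g4} : Finset E), z g = 0 := by
      intro g hg
      exact hv g (Or.inr (by rw [s2]; exact hg))
    refine ⟨z, hz'.1, hz0, ?_⟩
    intro i
    fin_cases i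
    · exact ⟨ze, v1 k (by simp)⟩
    · exact ⟨v1 g1 (by simp), v1 g2 (by simp)⟩
    · exact ⟨v2 g3 (by simp), v2 g4 (by simp)⟩

end SEY

end
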