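import Pool.Agent.Helper29.MFA.T36
import Pool.Agent.Helper29.MFA.T38
import Pool.Agent.Helper29.MFA.T39
import Pool.Agent.Helper29.MFA.T26
import Pool.Agent.Helper29.MFA.T10

section

/-!
Block T3 (helper25), section 3 of /team-store/helper25_SEY.md: the structure theorem.
-/

namespace SEY

open Finset

variable {E : Type} [Fintype E] [DecidableEq E]

/-- A 3-connected graph with at least five vertices has at least eight edges. -/
lemma t3_card {V : Type} [Fintype V] [DecidableEq V] {M : BM E} (hTC : M.TC) {U : Finset V}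
    {h t : E → V} (hg : IsGr M U h t) (hU : 5 ≤ U.card) : 8 ≤ M.S.card := by
  have h1 : ∑ v ∈ U, (star M.S h t v).card = ∑ e ∈ M.S, 2 := by
    have h2 := Finset.sum_card_bipartiteAbove_eq_sum_card_bipartiteBelow
      (s := U) (t := M.S) (fun v e => h e = v ∨ t e = v)
    have h3 : ∀ v, star M.S h t v = Finset.bipartiteAbove (fun v e => h e = v ∨ t e = v) M.S v := by
      intro v
      rfl
    rw [Finset.sum_congr rfl (fun v _ => by rw [h3 v]), h2]
    apply Finset.sum_congr rfl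
    intro e he
    obtain ⟨h4, h5, h6⟩ := hg.ends e he
    have h7 : Finset.bipartiteBelow (fun v e => h e = v ∨ t e = v) U e = {h e, t e} := by
      ext v
      simp only [Finset.bipartiteBelow, Finset.mem_filter, Finset.mem_insert,
        Finset.mem_singleton]
      constructor
      · rintro ⟨-, h8 | h8⟩
        · exact Or.inl h8.symm
        · exact Or.inr h8.symm
      · rintro (h8 | h8)
        · exact ⟨h8 ▸ h4, Or.inl h8.symm⟩
        · exact ⟨h8 ▸ h5, Or.inr h8.symm⟩
    rw [h7, Finset.card_pair h6]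
  have h2 : ∑ v ∈ U, 3 ≤ ∑ v ∈ U, (star M.S h t v).card :=
    Finset.sum_le_sum (fun v hv => TC.three_le_deg hTC hg hv)
  rw [h1, Finset.sum_const, Finset.sum_const] at h2
  simp only [smul_eq_mul] at h2
  omega

/-- The structure theorem, for `N0` given by its `ends` (used for `K4e` and `K33e`). -/
theorem T3 {n k : ℕ} (ends : Fin k → Fin n × Fin n) (h0 : (ofRows (grRows ends)).TC)
    (hgr : IsGr (ofRows (grRows ends)) Finset.univ (fun j => (ends j).1) (fun j => (ends j).2))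
    (hk : 6 ≤ k)
    (M : BM E) (hM : MinCx (grRows ends) M) :
    (∃ e ∈ M.S, IsIso (grRows ends) (M.del {e})) ∨
    (∃ (e : E) (a b : Fin 3 → E), TriT (grRows ends) M e a b) ∨
    (∃ (f : Fin k) (c d : Fin n), c ≠ d ∧ c ≠ (ends f).1 ∧ c ≠ (ends f).2 ∧ d ≠ (ends f).1 ∧
      d ≠ (ends f).2 ∧ IsIso (O4rows ends f c d) M) ∨
    (∃ a b : Fin 3 → E, WStr M a b ∧ ∃ z ∈ M.Z, z ≠ 0 ∧ ∀ i, z (a i) = 0 ∧ z (b i) = 0) := by
  obtain ⟨e, he, hsc, hT, hO⟩ := step0 ends h0 hM
  rcases hO with ⟨a, b, hab⟩ | htc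
  · exact Or.inr (Or.inl ⟨e, a, b, hab⟩)
  by_cases hI : IsIso (grRows ends) (M.del {e})
  · exact Or.inl ⟨e, he, hI⟩
  right
  right
  have hcard : (M.del {e}).S.card < M.S.card := by
    apply Finset.card_lt_card
    rw [BM.del_S]
    exact Finset.sdiff_ssubset (by simpa using he) (by simp)
  have hG : Graphic (M.del {e}) := hM.sc_graphic h0 _ (Minor_del M {e}) hcard hsc hT
  obtain ⟨V, hV1, hV2, U, hd, tl, hg⟩ := exists_IsGr hsc hG
  obtain ⟨T, hgT⟩ := exists_graft he hg (BM.TC.exists_cycle hM.tc he)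
  have hU := card5 h0 hk htc hg hT hI
  have h8 := t3_card htc hg hU
  obtain ⟨κ, hκ, hscκ, hTκ⟩ := bg_has (grRows ends) h0 _ htc hT hI
  rw [BM.del_del] at hscκ hTκ
  have hκS : κ ∈ M.S ∧ κ ≠ e := by
    simpa only [BM.del_S, Finset.mem_sdiff, Finset.mem_singleton] using hκ
  have hE : ({e} ∪ {κ} : Finset E) = {e, κ} := rfl
  rw [hE] at hscκ hTκ
  rcases options h0 hM hgT htc hκS.1 hκS.2 hscκ hTκ with
    ⟨g1, g2, y, a, b, c, d, hS⟩ | ⟨g1, g2, g3, g4, y, y', a, b, a', b', hS⟩ |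
    ⟨g1, g2, g3, g4, y, y', a, a', b, hS⟩
  · exact hS.out ends h0 hgr hk (by omega) hU
  · exact (optA_false h0 hM hS htc hscκ hTκ).elim
  · exact Or.inr (optB_W hS htc hU)

end SEY

end
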