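import Pool.Agent.Helper29.MFA.T10

section

/-!
Splitter lemma for binary matroids (R10_split, K5_split of project SEY): definitions.
-/

namespace SEY.Sp

open Finset BM

variable {E : Type} [Fintype E] [DecidableEq E] {r s k : ℕ}

/-- A labelled minor: `C` is contracted, everything outside `C` and the image of `φ` is deleted. -/
structure Lab (rows : Fin r → Fin k → ZMod 2) (M : BM E) (φ : Fin k → E) (C : Finset E) :
    Prop where
  inj : Function.Injective φ
  mem : ∀ i, φ i ∈ M.S
  sub : C ⊆ M.S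
  out : ∀ i, φ i ∉ C
  r1 : ∀ i, ∃ f ∈ M.R, (∀ c ∈ C, f c = 0) ∧ ∀ j, f (φ j) = rows i j
  r2 : ∀ f ∈ M.R, (∀ c ∈ C, f c = 0) → ∃ a : Fin r → ZMod 2, ∀ j, f (φ j) = ∑ i, a i * rows i j

omit [Fintype E] in
theorem hasMinor_iff {rows : Fin r → Fin k → ZMod 2} {M : BM E} :
    HasMinor rows M ↔ ∃ φ C, Lab rows M φ C := by
  constructor
  · rintro ⟨φ, C, h1, h2, h3, h4, h5, h6⟩
    exact ⟨φ, C, h1, h2, h3, h4, h5, h6⟩
  · rintro ⟨φ, C, h⟩
    exact ⟨φ, C, h.inj, h.mem, h.sub, h.out, h.r1, h.r2⟩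

/-- The deleted elements of a labelled minor. -/
def rest (M : BM E) (φ : Fin k → E) (C : Finset E) : Finset E := (M.S \ C) \ univ.image φ

omit [Fintype E] in
theorem mem_rest {M : BM E} {φ : Fin k → E} {C : Finset E} {e : E} :
    e ∈ rest M φ C ↔ e ∈ M.S ∧ e ∉ C ∧ ∀ i, φ i ≠ e := by
  unfold rest
  simp only [Finset.mem_sdiff, Finset.mem_image, Finset.mem_univ, true_and, not_exists]
  tauto

/-- One-element extension: the new column `v` (last). -/
def ext (rows : Fin r → Fin k → ZMod 2) (v : Fin r → ZMod 2) : Fin r → Fin (k + 1) → ZMod 2 :=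
  fun i => Fin.snoc (α := fun _ => ZMod 2) (rows i) (v i)

/-- The new element (last) is parallel to `n`. -/
def par (rows : Fin r → Fin k → ZMod 2) (n : Fin k) : Fin r → Fin (k + 1) → ZMod 2 :=
  ext rows (fun i => rows i n)

/-- `par rows n` together with a further element `c` (the last column) and the new row
`{j, e, c}`, where `e` (column `k`) is parallel to `n`. -/
def tri (rows : Fin r → Fin k → ZMod 2) (n j : Fin k) :
    Fin (r + 1) → Fin (k + 1 + 1) → ZMod 2 :=
  Fin.snoc (α := fun _ => Fin (k + 1 + 1) → ZMod 2)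
    (fun i => Fin.snoc (α := fun _ => ZMod 2) (par rows n i) 0)
    (Fin.snoc (α := fun _ => ZMod 2)
      (Fin.snoc (α := fun _ => ZMod 2) (fun x => if x = j then 1 else 0) 1) 1)

/-- `v` is a column of an extension of the (possibly dependent) rows. -/
def Cons (rows : Fin r → Fin k → ZMod 2) (v : Fin r → ZMod 2) : Prop :=
  ∀ a : Fin r → ZMod 2, (∀ j, ∑ i, a i * rows i j = 0) → ∑ i, a i * v i = 0

/-- In the class `P` the only one-element extensions of `rows` are loops and parallel elements. -/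
def EOK (rows : Fin r → Fin k → ZMod 2) (P : BM E → Prop) : Prop :=
  ∀ M : BM E, P M → ∀ v : Fin r → ZMod 2, Cons rows v → HasMinor (ext rows v) M →
    (∀ i, v i = 0) ∨ ∃ j, ∀ i, v i = rows i j

/-- For a triangle `n, j, l` the matroid `tri rows n j` is not a minor of a member of `P`. -/
def TOK (rows : Fin r → Fin k → ZMod 2) (P : BM E → Prop) : Prop :=
  ∀ M : BM E, P M → ∀ n j l : Fin k, n ≠ j → (∀ i, rows i n + rows i j = rows i l) →
    ¬ HasMinor (tri rows n j) M

/-- The pattern has no loops, no parallel pairs, no coloops, no series pairs. -/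
structure Nice (rows : Fin r → Fin k → ZMod 2) : Prop where
  col : ∀ n, ∃ i, rows i n ≠ 0
  sim : ∀ n j, n ≠ j → ∃ i, rows i n ≠ rows i j
  cos : ∀ a : Fin r → ZMod 2, (∀ j, ∑ i, a i * rows i j = 0) ∨
    3 ≤ (univ.filter fun j => ∑ i, a i * rows i j ≠ 0).card

/-- The conclusion of the parallel case: a set of connectivity at most 1 which contains `φ n`
and the last element and no other element of the pattern. -/
def Good (n : Fin k) (M : BM E) (φ : Fin (k + 1) → E) : Prop :=
  ∃ X ⊆ M.S, φ n.castSucc ∈ X ∧ φ (Fin.last k) ∈ X ∧ (∀ j, j ≠ n → φ j.castSucc ∉ X) ∧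
    M.lam X ≤ 1

/-- Induction hypothesis. -/
def IH (rows : Fin r → Fin k → ZMod 2) (P : BM E → Prop) (n : Fin k) (m : ℕ) : Prop :=
  ∀ M : BM E, P M → M.S.card < m → ∀ (φ : Fin (k + 1) → E) (C : Finset E),
    Lab (par rows n) M φ C → Good n M φ

end SEY.Sp

end

section

/-!
SP-3 (connectivity lemmas).

lam_zero_mask: `lam_add_dR`: `dR X + dR (S \ X) = rk`, the two subspaces `RIn X`, `RIn (S \ X)` of `R`
meet in `0`, so their sum is `R`; if `f = g + h` then `mask X f = g`.
lam_zero_of_mask: `R` is the sum of the two subspaces, `lam_add_dR`.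

uncross_B, uncross_A: `hR` says that no nonzero row is contained in `{d, m}`; so
`r (S \ {d}) = r (S \ {m}) = r (S \ {d, m}) = rk` (`r_add_dR_sdiff`, `dR_mono`).  Write everything in terms of
ranks with `lam_del_add` and `lam_add_rk`, and use `r_submod` for `X1, X2` and for the complements
`S \ {d} \ X1`, `S \ {m} \ X2`, as in the proof of `uncross`.
(B) `d, m` outside `X1` and `X2`: (complement 1) ∪ (complement 2) = `S \ (X1 ∩ X2)`, the intersection is
`(S \ {d, m}) \ (X1 ∪ X2)`.
(A) `d ∉ X1`, `m ∈ X1`, `d ∈ X2`, `m ∉ X2`: the union of the complements is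
`(S \ {d, m}) \ (X1 ∩ X2)`, their intersection is `S \ (X1 ∪ X2)`.

lam_con_series: `{c, m}` is a row, `c, m ∉ X`: `lam_con_add`; `r (X ∪ {c}) = r X + 1` because the row
`ind {c, m}` vanishes on `X` (and not at `c`), `r ((S \ X) ∪ {c}) = r (S \ X)`.
-/

namespace SEY.Sp

open Finset BM

variable {E : Type} [Fintype E] [DecidableEq E] (M : BM E)

private theorem sup_RIn {X : Finset E} :
    Module.finrank (ZMod 2) ↥(M.RIn X ⊔ M.RIn (M.S \ X)) = M.dR X + M.dR (M.S \ X) := by
  have h := Submodule.finrank_sup_add_finrank_inf_eq (M.RIn X) (M.RIn (M.S \ X))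
  rw [RIn_inf] at h
  have h1 : X ∩ (M.S \ X) = ∅ := by
    ext e
    simp
  rw [h1] at h
  have h2 : Module.finrank (ZMod 2) ↥(M.RIn ∅) = 0 := M.dR_empty
  rw [h2, add_zero] at h
  exact h

theorem lam_zero_mask {X : Finset E} (hX : X ⊆ M.S) (h : M.lam X = 0) :
    ∀ f ∈ M.R, mask X f ∈ M.R := by
  intro f hf
  have h1 := M.lam_add_dR X
  rw [h, zero_add] at h1
  have h2 : M.RIn X ⊔ M.RIn (M.S \ X) = M.R := by
    apply Submodule.eq_of_le_of_finrank_eq
    · exact sup_le (fun g hg => hg.1) (fun g hg => hg.1)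
    · rw [sup_RIn M, h1]
      rfl
  rw [← h2] at hf
  obtain ⟨g, hg, k, hk, rfl⟩ := Submodule.mem_sup.1 hf
  have h3 : mask X g = g := mask_eq_self hg.2
  have h4 : mask X k = 0 := by
    rw [mask_eq_zero_iff]
    intro e he
    apply hk.2
    intro h5
    exact (mem_sdiff.1 h5).2 he
  rw [map_add, h3, h4, add_zero]
  exact hg.1

theorem lam_zero_of_mask {X : Finset E} (hX : X ⊆ M.S) (h : ∀ f ∈ M.R, mask X f ∈ M.R) :
    M.lam X = 0 := by
  have h1 := M.lam_add_dR X
  have h2 : M.R ≤ M.RIn X ⊔ M.RIn (M.S \ X) := by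
    intro f hf
    rw [Submodule.mem_sup]
    refine ⟨mask X f, ⟨h f hf, fun e he => ?_⟩, f - mask X f,
      ⟨M.R.sub_mem hf (h f hf), fun e he => ?_⟩, by abel⟩
    · rw [mask_apply, if_neg he]
    · rw [Pi.sub_apply, mask_apply]
      by_cases heX : e ∈ X
      · rw [if_pos heX, sub_self]
      · rw [if_neg heX, sub_zero]
        exact M.supp f hf e (fun h3 => he (mem_sdiff.2 ⟨h3, heX⟩))
  have h3 := Submodule.finrank_mono h2
  rw [sup_RIn M] at h3
  have h4 : M.rk = Module.finrank (ZMod 2) M.R := rfl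
  omega

private theorem r_two {d m : E} (hd : d ∈ M.S) (hm : m ∈ M.S)
    (hR : ∀ f ∈ M.R, (∀ e, e ≠ d → e ≠ m → f e = 0) → f = 0) :
    M.r (M.S \ {d, m}) = M.rk ∧ M.r (M.S \ {d}) = M.rk ∧ M.r (M.S \ {m}) = M.rk := by
  have h0 : M.dR {d, m} = 0 := by
    rw [dR_eq_zero_iff]
    intro f hf h1
    refine hR f hf (fun e h2 h3 => h1 e ?_)
    rw [mem_insert, mem_singleton]
    tauto
  have h1 := M.r_add_dR_sdiff (M.S \ {d, m})
  have h2 : M.dR (M.S \ (M.S \ {d, m})) = M.dR {d, m} := by
    refine M.dR_congr ?_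
    ext e
    simp only [mem_inter, mem_sdiff]
    tauto
  have h3 : M.r (M.S \ {d, m}) = M.rk := by omega
  have h4 : M.r (M.S \ {d, m}) ≤ M.r (M.S \ {d}) := by
    apply M.r_mono
    intro e he
    simp only [mem_sdiff, mem_insert, mem_singleton] at he ⊢
    tauto
  have h5 : M.r (M.S \ {d, m}) ≤ M.r (M.S \ {m}) := by
    apply M.r_mono
    intro e he
    simp only [mem_sdiff, mem_insert, mem_singleton] at he ⊢
    tauto
  have h6 := M.r_le_rk (M.S \ {d})
  have h7 := M.r_le_rk (M.S \ {m})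
  omega

theorem uncross_B {d m : E} (hd : d ∈ M.S) (hm : m ∈ M.S) (hdm : d ≠ m)
    (hR : ∀ f ∈ M.R, (∀ e, e ≠ d → e ≠ m → f e = 0) → f = 0) {X1 X2 : Finset E}
    (h1 : X1 ⊆ M.S) (h2 : X2 ⊆ M.S) (hd1 : d ∉ X1) (hm1 : m ∉ X1) (hd2 : d ∉ X2)
    (hm2 : m ∉ X2) :
    (M.del {d, m}).lam (X1 ∪ X2) + M.lam (X1 ∩ X2) ≤ (M.del {d}).lam X1 + (M.del {m}).lam X2 := by
  obtain ⟨r1, r2, r3⟩ := r_two M hd hm hR
  have g1 := M.lam_del_add {d, m} (X1 ∪ X2)
  have g2 := M.lam_add_rk (X1 ∩ X2)
  have g3 := M.lam_del_add {d} X1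
  have g4 := M.lam_del_add {m} X2
  have s1 := M.r_submod (X1 \ {d}) (X2 \ {m})
  have s2 := M.r_submod ((M.S \ X1) \ {d}) ((M.S \ X2) \ {m})
  have e1 : (X1 \ {d}) ∪ (X2 \ {m}) = (X1 ∪ X2) \ {d, m} := by
    ext e
    simp only [mem_union, mem_sdiff, mem_insert, mem_singleton]
    by_cases ed : e = d
    · subst ed; tauto
    · by_cases em : e = m
      · subst em; tauto
      · tauto
  have e2 : (X1 \ {d}) ∩ (X2 \ {m}) = X1 ∩ X2 := by
    ext e
    simp only [mem_inter, mem_sdiff, mem_singleton]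
    by_cases ed : e = d
    · subst ed; tauto
    · by_cases em : e = m
      · subst em; tauto
      · tauto
  have e3 : ((M.S \ X1) \ {d}) ∪ ((M.S \ X2) \ {m}) = M.S \ (X1 ∩ X2) := by
    ext e
    simp only [mem_union, mem_inter, mem_sdiff, mem_singleton]
    by_cases ed : e = d
    · subst ed; tauto
    · by_cases em : e = m
      · subst em; tauto
      · tauto
  have e4 : ((M.S \ X1) \ {d}) ∩ ((M.S \ X2) \ {m}) = (M.S \ (X1 ∪ X2)) \ {d, m} := by
    ext e
    simp only [mem_union, mem_inter, mem_sdiff, mem_insert, mem_singleton]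
    tauto
  rw [e1, e2] at s1
  rw [e3, e4] at s2
  omega

theorem uncross_A {d m : E} (hd : d ∈ M.S) (hm : m ∈ M.S) (hdm : d ≠ m)
    (hR : ∀ f ∈ M.R, (∀ e, e ≠ d → e ≠ m → f e = 0) → f = 0) {X1 X2 : Finset E}
    (h1 : X1 ⊆ M.S) (h2 : X2 ⊆ M.S) (hd1 : d ∉ X1) (hm1 : m ∈ X1) (hd2 : d ∈ X2)
    (hm2 : m ∉ X2) :
    (M.del {d, m}).lam (X1 ∩ X2) + M.lam (X1 ∪ X2) ≤ (M.del {d}).lam X1 + (M.del {m}).lam X2 := by
  obtain ⟨r1, r2, r3⟩ := r_two M hd hm hR
  have g1 := M.lam_del_add {d, m} (X1 ∩ X2)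
  have g2 := M.lam_add_rk (X1 ∪ X2)
  have g3 := M.lam_del_add {d} X1
  have g4 := M.lam_del_add {m} X2
  have s1 := M.r_submod (X1 \ {d}) (X2 \ {m})
  have s2 := M.r_submod ((M.S \ X1) \ {d}) ((M.S \ X2) \ {m})
  have e1 : (X1 \ {d}) ∪ (X2 \ {m}) = X1 ∪ X2 := by
    ext e
    simp only [mem_union, mem_sdiff, mem_singleton]
    by_cases ed : e = d
    · subst ed; tauto
    · by_cases em : e = m
      · subst em; tauto
      · tauto
  have e2 : (X1 \ {d}) ∩ (X2 \ {m}) = (X1 ∩ X2) \ {d, m} := by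
    ext e
    simp only [mem_inter, mem_sdiff, mem_insert, mem_singleton]
    tauto
  have e3 : ((M.S \ X1) \ {d}) ∪ ((M.S \ X2) \ {m}) = (M.S \ (X1 ∩ X2)) \ {d, m} := by
    ext e
    simp only [mem_union, mem_inter, mem_sdiff, mem_insert, mem_singleton]
    by_cases ed : e = d
    · subst ed; tauto
    · by_cases em : e = m
      · subst em; tauto
      · tauto
  have e4 : ((M.S \ X1) \ {d}) ∩ ((M.S \ X2) \ {m}) = M.S \ (X1 ∪ X2) := by
    ext e
    simp only [mem_union, mem_inter, mem_sdiff, mem_singleton]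
    by_cases ed : e = d
    · subst ed; tauto
    · by_cases em : e = m
      · subst em; tauto
      · tauto
  rw [e1, e2] at s1
  rw [e3, e4] at s2
  omega

theorem lam_con_series {c m : E} (hc : c ∈ M.S) (hm : m ∈ M.S) (hcm : c ≠ m)
    (hrow : ind {c, m} ∈ M.R) {X : Finset E} (hX : X ⊆ M.S) (hcX : c ∉ X) (hmX : m ∉ X) :
    M.lam X = (M.con {c}).lam X := by
  have g1 := M.lam_con_add {c} X
  have g2 := M.lam_add_rk X
  have h0 : (ind {c, m} : E → ZMod 2) c ≠ 0 := by
    rw [ind_of_mem (by simp)]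
    exact one_ne_zero
  have h1 : M.r {c} = 1 := M.r_singleton_of_ne hrow h0
  have h2 : (M.S \ X) ∪ {c} = M.S \ X := by
    ext e
    simp only [mem_union, mem_sdiff, mem_singleton]
    constructor
    · rintro (h3 | rfl)
      · exact h3
      · exact ⟨hc, hcX⟩
    · exact fun h3 => Or.inl h3
  have h3 : M.r (X ∪ {c}) ≤ M.r X + 1 := by
    rw [union_comm, ← insert_eq]
    exact M.r_insert_le X c
  have h4 : M.dR (X ∪ {c})ᶜ < M.dR Xᶜ := by
    apply Submodule.finrank_lt_finrank_of_lt
    apply lt_of_le_of_ne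
    · apply M.RIn_mono
      intro e he
      simp only [mem_compl, mem_union, mem_singleton] at he ⊢
      tauto
    · intro he
      have h5 : ind {c, m} ∈ M.RIn Xᶜ := by
        refine ⟨hrow, fun e he' => ind_of_notMem ?_⟩
        intro h6
        rw [mem_insert, mem_singleton] at h6
        rw [mem_compl, not_not] at he'
        rcases h6 with rfl | rfl
        · exact hcX he'
        · exact hmX he'
      rw [← he] at h5
      exact h0 (h5.2 c (by simp))
  have h5 := M.r_add_dR X
  have h6 := M.r_add_dR (X ∪ {c})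
  rw [h2] at g1
  omega

end SEY.Sp

end

section

/-!
Certificates for minors of concrete matroids.
-/

set_option autoImplicit false
set_option linter.unusedSectionVars false

namespace SEY

open Finset

variable {E : Type} [Fintype E] [DecidableEq E]

/-- Certificate that the concrete matroid `small` is a minor of the concrete matroid `big`:
`φ` embeds the ground set, `C` is the contracted set, the rows of `small` are the sums of rows of
`big` given by `A`, the columns of `big` are the combinations of the columns of `small` and of the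
contracted columns given by `B` and `D`. -/
def Cert {r k r' k' : ℕ} (small : Fin r' → Fin k' → ZMod 2) (big : Fin r → Fin k → ZMod 2)
    (φ : Fin k' → Fin k) (C : Fin k → Bool) (A : Fin r' → Fin r → ZMod 2)
    (B : Fin r → Fin r' → ZMod 2) (D : Fin k → Fin k' → ZMod 2) : Prop :=
  (∀ i j, φ i = φ j → i = j) ∧ (∀ i, C (φ i) = false) ∧
    (∀ l c, C c = true → ∑ i, A l i * big i c = 0) ∧
    (∀ l j, ∑ i, A l i * big i (φ j) = small l j) ∧
    (∀ i j, big i (φ j) = ∑ l, B i l * small l j + ∑ c, if C c = true then big i c * D c j else 0)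

instance {r k r' k' : ℕ} (small : Fin r' → Fin k' → ZMod 2) (big : Fin r → Fin k → ZMod 2)
    (φ : Fin k' → Fin k) (C : Fin k → Bool) (A : Fin r' → Fin r → ZMod 2)
    (B : Fin r → Fin r' → ZMod 2) (D : Fin k → Fin k' → ZMod 2) :
    Decidable (Cert small big φ C A B D) := by
  unfold Cert
  infer_instance

theorem HasMinor.of_cert {r k r' k' : ℕ} {small : Fin r' → Fin k' → ZMod 2}
    {big : Fin r → Fin k → ZMod 2} {φ : Fin k' → Fin k} {C : Fin k → Bool}
    {A : Fin r' → Fin r → ZMod 2} {B : Fin r → Fin r' → ZMod 2} {D : Fin k → Fin k' → ZMod 2}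
    (hc : Cert small big φ C A B D) {M : BM E} (h : HasMinor big M) : HasMinor small M := by
  obtain ⟨hφ, hφC, hA1, hA2, hB⟩ := hc
  obtain ⟨ψ, C0, hψ, hψS, hC0, hψC, h1, h2⟩ := h
  choose g hg hg0 hgψ using h1
  refine ⟨fun i => ψ (φ i), C0 ∪ (univ.filter (fun c => C c = true)).image ψ, ?_, fun i => hψS _,
    ?_, ?_, ?_, ?_⟩
  · intro i j hij
    exact hφ i j (hψ hij)
  · intro e he
    rcases mem_union.1 he with he | he
    · exact hC0 he
    · obtain ⟨c, -, rfl⟩ := mem_image.1 he
      exact hψS c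
  · intro i hi
    rcases mem_union.1 hi with hi | hi
    · exact hψC _ hi
    · obtain ⟨c, hc, hcc⟩ := mem_image.1 hi
      have := hψ hcc
      rw [mem_filter] at hc
      rw [this] at hc
      rw [hφC i] at hc
      exact absurd hc.2 (by simp)
  · intro l
    refine ⟨∑ i, A l i • g i, M.R.sum_mem fun i _ => M.R.smul_mem _ (hg i), ?_, ?_⟩
    · intro c hc
      rw [Finset.sum_apply]
      rcases mem_union.1 hc with hc | hc
      · exact sum_eq_zero fun i _ => by rw [Pi.smul_apply, hg0 i c hc, smul_zero]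
      · obtain ⟨c', hc', rfl⟩ := mem_image.1 hc
        rw [← hA1 l c' (mem_filter.1 hc').2]
        exact sum_congr rfl fun i _ => by rw [Pi.smul_apply, hgψ, smul_eq_mul]
    · intro j
      rw [Finset.sum_apply, ← hA2 l j]
      exact sum_congr rfl fun i _ => by rw [Pi.smul_apply, hgψ, smul_eq_mul]
  · intro f hf hf0
    obtain ⟨c, hc⟩ := h2 f hf fun x hx => hf0 x (mem_union_left _ hx)
    refine ⟨fun l => ∑ i, c i * B i l, fun j => ?_⟩
    rw [hc (φ j)]
    have h3 : ∀ c', C c' = true → ∑ i, c i * big i c' = 0 := by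
      intro c' hc'
      rw [← hc c']
      exact hf0 _ (mem_union_right _ (mem_image_of_mem _ (mem_filter.2 ⟨mem_univ _, hc'⟩)))
    calc ∑ i, c i * big i (φ j)
        = ∑ i, c i * (∑ l, B i l * small l j + ∑ c', if C c' = true then big i c' * D c' j else 0) :=
          sum_congr rfl fun i _ => by rw [← hB i j]
      _ = ∑ i, ∑ l, c i * (B i l * small l j) +
          ∑ i, ∑ c', c i * (if C c' = true then big i c' * D c' j else 0) := by
          rw [← sum_add_distrib]
          exact sum_congr rfl fun i _ => by rw [mul_add, mul_sum, mul_sum]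
      _ = ∑ l, (∑ i, c i * B i l) * small l j + 0 := by
          congr 1
          · rw [sum_comm]
            refine sum_congr rfl fun l _ => ?_
            rw [sum_mul]
            exact sum_congr rfl fun i _ => by ring
          · rw [sum_comm]
            refine sum_eq_zero fun c' _ => ?_
            by_cases h : C c' = true
            · have : ∑ i, c i * (if C c' = true then big i c' * D c' j else 0) =
                  (∑ i, c i * big i c') * D c' j := by
                rw [sum_mul]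
                exact sum_congr rfl fun i _ => by rw [if_pos h]; ring
              rw [this, h3 c' h, zero_mul]
            · exact sum_eq_zero fun i _ => by rw [if_neg h, mul_zero]
      _ = _ := by rw [add_zero]

end SEY

end
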