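import Pool.Agent.Helper29.MFA.T42
import Pool.Agent.Helper29.MFA.T41

section

/-!
SP-2 (one-element extensions and coextensions of a labelled minor).

ext_dich: let `v i` be the value at `d` of a row `f i` with `f i|C = 0`, `f i ∘ φ = rows i`.  By `h0`
the value at `d` of any row `f` with `f|C = 0`, `f ∘ φ = ∑ a i rows i` is `∑ a i v i` (apply `h0` to
`f - ∑ a i f i`), and `Cons rows v` (apply `h0` to `∑ a i f i`).  So `Fin.snoc φ d` and `C` are a labelled
minor `ext rows v` and `EOK` applies.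

coext_dich: apply `ext_dich` to `M.dual`, the rows `duals`, the contracted set `D = rest M φ C` and
the element `c` (`lab_dual`).  Its hypothesis: let `z` be a cycle with `z|D = 0`, `z ∘ φ = 0`.  Then `z`
is zero outside `C`, and `0 = dot ρ z = z c` for the row `ρ` of the hypothesis.  Result: all cycles `z`
with `z|D = 0` have `z c = 0`, or for some `j` all such cycles have `z c = z (φ j)`.  Let
`w = ind {c}` or `w = ind {c, φ j}`.  `w` is zero on `D` and orthogonal to all cycles of `M.del D`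
(`mem_Z_del`), so `w ∈ (M.del D).R` (`BM.mem_R_iff`), that is, there is a row `ρ` of `M` which agrees
with `w` outside `D` (`mem_del'`).

exists_irr: first choose `C` of minimal cardinality with `Lab rows M φ C`: then each `c ∈ C` has a
row `ρ` as in (a) (otherwise all rows vanishing on `C.erase c` vanish at `c`, and `C.erase c` works).
Now among all `C` with `Lab rows M φ C` and (a) choose one of maximal cardinality.  (b): if
`d ∈ rest M φ C` and `f` is a row with `f|C = 0`, `f ∘ φ = 0`, `f d = 1` then `insert d C` works: the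
rows vanishing on it have the same restrictions to `φ` (add `f`), for `c ∈ C` take `ρ` or `ρ + f`, for
`d` take `f`.
-/

namespace SEY.Sp

open Finset BM

variable {E : Type} [Fintype E] [DecidableEq E] {r s k : ℕ} {rows : Fin r → Fin k → ZMod 2}
  {duals : Fin s → Fin k → ZMod 2} {M : BM E} {φ : Fin k → E} {C : Finset E} {P : BM E → Prop}

theorem ext_dich (hE : EOK rows P) (hM : P M) (h : Lab rows M φ C) {d : E} (hd : d ∈ M.S)
    (hdC : d ∉ C) (hd' : ∀ i, φ i ≠ d)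
    (h0 : ∀ f ∈ M.R, (∀ c ∈ C, f c = 0) → (∀ j, f (φ j) = 0) → f d = 0) :
    (∀ f ∈ M.R, (∀ c ∈ C, f c = 0) → f d = 0) ∨
      ∃ j, ∀ f ∈ M.R, (∀ c ∈ C, f c = 0) → f d = f (φ j) := by
  choose g hg hgC hgφ using h.r1
  have hsum : ∀ a : Fin r → ZMod 2, (∑ i, a i • g i) ∈ M.R := fun a =>
    Submodule.sum_mem _ fun i _ => M.R.smul_mem _ (hg i)
  have hsa : ∀ (a : Fin r → ZMod 2) (x : E), (∑ i, a i • g i) x = ∑ i, a i * g i x := by
    intro a x
    rw [Finset.sum_apply]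
    rfl
  have claim : ∀ f ∈ M.R, (∀ c ∈ C, f c = 0) → ∀ a : Fin r → ZMod 2,
      (∀ j, f (φ j) = ∑ i, a i * rows i j) → f d = ∑ i, a i * g i d := by
    intro f hf hfC a ha
    have h1 := h0 (f - ∑ i, a i • g i) (M.R.sub_mem hf (hsum a)) (fun c hc => by
      rw [Pi.sub_apply, hsa, hfC c hc, Finset.sum_eq_zero, sub_zero]
      intro i _
      rw [hgC i c hc, mul_zero]) (fun j => by
      rw [Pi.sub_apply, hsa, ha j, sub_eq_zero]
      exact Finset.sum_congr rfl fun i _ => by rw [hgφ])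
    rw [Pi.sub_apply, hsa, sub_eq_zero] at h1
    exact h1
  have hcons : Cons rows (fun i => g i d) := by
    intro a ha
    rw [← hsa]
    refine h0 _ (hsum a) (fun c hc => ?_) (fun j => ?_)
    · rw [hsa]
      exact Finset.sum_eq_zero fun i _ => by rw [hgC i c hc, mul_zero]
    · rw [hsa, ← ha j]
      exact Finset.sum_congr rfl fun i _ => by rw [hgφ]
  have hmin : HasMinor (ext rows (fun i => g i d)) M := by
    refine hasMinor_iff.2 ⟨Fin.snoc (α := fun _ => E) φ d, C, ?_, ?_, h.sub, ?_, ?_, ?_⟩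
    · intro x y
      refine Fin.lastCases ?_ (fun x => ?_) x <;> refine Fin.lastCases ?_ (fun y => ?_) y
      · intro _; rfl
      · rw [Fin.snoc_last, Fin.snoc_castSucc]
        intro h1
        exact absurd h1.symm (hd' y)
      · rw [Fin.snoc_last, Fin.snoc_castSucc]
        intro h1
        exact absurd h1 (hd' x)
      · rw [Fin.snoc_castSucc, Fin.snoc_castSucc]
        intro h1
        rw [h.inj h1]
    · intro i
      refine Fin.lastCases ?_ (fun x => ?_) i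
      · rw [Fin.snoc_last]; exact hd
      · rw [Fin.snoc_castSucc]; exact h.mem x
    · intro i
      refine Fin.lastCases ?_ (fun x => ?_) i
      · rw [Fin.snoc_last]; exact hdC
      · rw [Fin.snoc_castSucc]; exact h.out x
    · intro i
      refine ⟨g i, hg i, hgC i, fun j => ?_⟩
      unfold ext
      refine Fin.lastCases ?_ (fun x => ?_) j
      · rw [Fin.snoc_last, Fin.snoc_last]
      · rw [Fin.snoc_castSucc, Fin.snoc_castSucc, hgφ]
    · intro f hf hfC
      obtain ⟨a, ha⟩ := h.r2 f hf hfC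
      refine ⟨a, fun j => ?_⟩
      unfold ext
      refine Fin.lastCases ?_ (fun x => ?_) j
      · simp only [Fin.snoc_last]
        exact claim f hf hfC a ha
      · simp only [Fin.snoc_castSucc]
        exact ha x
  rcases hE M hM _ hcons hmin with h1 | ⟨j, h1⟩
  · left
    intro f hf hfC
    obtain ⟨a, ha⟩ := h.r2 f hf hfC
    rw [claim f hf hfC a ha]
    exact Finset.sum_eq_zero fun i _ => by rw [h1 i, mul_zero]
  · right
    refine ⟨j, fun f hf hfC => ?_⟩
    obtain ⟨a, ha⟩ := h.r2 f hf hfC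
    rw [claim f hf hfC a ha, ha j]
    exact Finset.sum_congr rfl fun i _ => by rw [h1 i]

theorem coext_dich (hc : Compl rows duals) (hE : EOK duals (fun N : BM E => P N.dual))
    (hM : P M) (h : Lab rows M φ C) {c : E} (hcC : c ∈ C)
    (h0 : ∃ ρ ∈ M.R, (∀ x ∈ C.erase c, ρ x = 0) ∧ ρ c = 1) :
    ∃ ρ ∈ M.R, (∀ x ∈ C.erase c, ρ x = 0) ∧ ρ c = 1 ∧
      ((∀ i, ρ (φ i) = 0) ∨ ∃ j, ∀ i, ρ (φ i) = if i = j then 1 else 0) := by
  have hcS : c ∈ M.S := h.sub hcC
  have hφc : ∀ i, φ i ≠ c := fun i hi => h.out i (hi ▸ hcC)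
  have hCD : ∀ x ∈ C, x ∉ rest M φ C := fun x hx hxD => (mem_rest.1 hxD).2.1 hx
  have hφD : ∀ i, φ i ∉ rest M φ C := fun i hi => (mem_rest.1 hi).2.2 i rfl
  -- the lifting
  have hlift : ∀ w : E → ZMod 2, (∀ e, e ∉ M.S \ rest M φ C → w e = 0) →
      (∀ z ∈ M.Z, (∀ e ∈ rest M φ C, z e = 0) → dot w z = 0) →
      ∃ ρ ∈ M.R, ∀ e ∈ M.S \ rest M φ C, ρ e = w e := by
    intro w hw hz
    have h1 : w ∈ (M.del (rest M φ C)).R := by
      refine (BM.mem_R_iff _).2 ⟨hw, fun z hzz => ?_⟩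
      obtain ⟨h2, h3⟩ := (M.mem_Z_del).1 hzz
      exact hz z h2 h3
    exact ((M.mem_del').1 h1).2
  have key := ext_dich (rows := duals) (M := M.dual) (P := fun N : BM E => P N.dual) hE
    (by rw [BM.dual_dual]; exact hM) (lab_dual hc h) (d := c) hcS (hCD c hcC) hφc
    (by
      intro z hz hzD hzφ
      obtain ⟨ρ, hρ, hρC, hρc⟩ := h0
      have hz' : z ∈ M.Z := hz
      have h1 := M.dot_eq_zero hρ hz'
      have h2 : dot ρ z = ∑ e ∈ ({c} : Finset E), ρ e * z e := by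
        unfold dot
        symm
        refine Finset.sum_subset (Finset.subset_univ _) fun e _ he => ?_
        rw [Finset.mem_singleton] at he
        by_cases heC : e ∈ C
        · rw [hρC e (Finset.mem_erase.2 ⟨he, heC⟩), zero_mul]
        · by_cases heS : e ∈ M.S
          · by_cases heφ : ∃ i, φ i = e
            · obtain ⟨i, rfl⟩ := heφ
              rw [hzφ i, mul_zero]
            · push Not at heφ
              rw [hzD e (mem_rest.2 ⟨heS, heC, heφ⟩), mul_zero]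
          · rw [hz'.1 e heS, mul_zero]
      rw [h2, Finset.sum_singleton, hρc, one_mul] at h1
      exact h1)
  rcases key with h1 | ⟨j, h1⟩
  · obtain ⟨ρ, hρ, hρw⟩ := hlift (ind {c}) (fun e he => ind_of_notMem fun h2 => he (by
        rw [Finset.mem_singleton] at h2
        rw [h2, Finset.mem_sdiff]
        exact ⟨hcS, hCD c hcC⟩)) (fun z hz hzD => by
        rw [ind_dot, Finset.sum_singleton]
        exact h1 z hz hzD)
    refine ⟨ρ, hρ, fun x hx => ?_, ?_, Or.inl fun i => ?_⟩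
    · rw [Finset.mem_erase] at hx
      rw [hρw x (Finset.mem_sdiff.2 ⟨h.sub hx.2, hCD x hx.2⟩),
        ind_of_notMem (by simpa using hx.1)]
    · rw [hρw c (Finset.mem_sdiff.2 ⟨hcS, hCD c hcC⟩), ind_of_mem (Finset.mem_singleton_self c)]
    · rw [hρw _ (Finset.mem_sdiff.2 ⟨h.mem i, hφD i⟩), ind_of_notMem (by simpa using hφc i)]
  · obtain ⟨ρ, hρ, hρw⟩ := hlift (ind {c, φ j}) (fun e he => ind_of_notMem fun h2 => he (by
        rw [Finset.mem_insert, Finset.mem_singleton] at h2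
        rw [Finset.mem_sdiff]
        rcases h2 with rfl | rfl
        · exact ⟨hcS, hCD _ hcC⟩
        · exact ⟨h.mem j, hφD j⟩)) (fun z hz hzD => by
        rw [ind_dot, Finset.sum_pair (hφc j).symm, h1 z hz hzD]
        exact z_add_self _)
    refine ⟨ρ, hρ, fun x hx => ?_, ?_, Or.inr ⟨j, fun i => ?_⟩⟩
    · rw [Finset.mem_erase] at hx
      rw [hρw x (Finset.mem_sdiff.2 ⟨h.sub hx.2, hCD x hx.2⟩), ind_of_notMem]
      rw [Finset.mem_insert, Finset.mem_singleton]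
      rintro (h2 | h2)
      · exact hx.1 h2
      · exact h.out j (h2 ▸ hx.2)
    · rw [hρw c (Finset.mem_sdiff.2 ⟨hcS, hCD c hcC⟩), ind_of_mem (Finset.mem_insert_self _ _)]
    · rw [hρw _ (Finset.mem_sdiff.2 ⟨h.mem i, hφD i⟩)]
      by_cases hij : i = j
      · rw [if_pos hij, hij, ind_of_mem]
        exact Finset.mem_insert_of_mem (Finset.mem_singleton_self _)
      · rw [if_neg hij, ind_of_notMem]
        rw [Finset.mem_insert, Finset.mem_singleton]
        rintro (h2 | h2)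
        · exact hφc i h2
        · exact hij (h.inj h2)

/-- The condition (a). -/
private def Irr (M : BM E) (C : Finset E) : Prop :=
  ∀ c ∈ C, ∃ ρ ∈ M.R, (∀ x ∈ C.erase c, ρ x = 0) ∧ ρ c = 1

theorem exists_irr (h : Lab rows M φ C) : ∃ C' : Finset E, Lab rows M φ C' ∧
    (∀ c ∈ C', ∃ ρ ∈ M.R, (∀ x ∈ C'.erase c, ρ x = 0) ∧ ρ c = 1) ∧
    (∀ d ∈ rest M φ C', ∀ f ∈ M.R, (∀ c ∈ C', f c = 0) → (∀ j, f (φ j) = 0) → f d = 0) := by
  classical
  -- step 1
  have step1 : ∃ C₁ : Finset E, Lab rows M φ C₁ ∧ Irr M C₁ := by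
    obtain ⟨C₁, hC₁, hmin⟩ := Finset.exists_min_image
      (Finset.univ.filter fun C : Finset E => Lab rows M φ C) Finset.card
      ⟨C, Finset.mem_filter.2 ⟨Finset.mem_univ _, h⟩⟩
    have hL := (Finset.mem_filter.1 hC₁).2
    refine ⟨C₁, hL, fun c hc => ?_⟩
    by_contra hno
    push Not at hno
    have h1 : Lab rows M φ (C₁.erase c) := by
      refine ⟨hL.inj, hL.mem, (Finset.erase_subset _ _).trans hL.sub,
        fun i hi => hL.out i (Finset.mem_of_mem_erase hi), fun i => ?_, fun f hf hfC => ?_⟩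
      · obtain ⟨f, hf, hfC, hfφ⟩ := hL.r1 i
        exact ⟨f, hf, fun x hx => hfC x (Finset.mem_of_mem_erase hx), hfφ⟩
      · refine hL.r2 f hf fun x hx => ?_
        by_cases hxc : x = c
        · rw [hxc]
          exact z_ne_one.1 (hno f hf hfC)
        · exact hfC x (Finset.mem_erase.2 ⟨hxc, hx⟩)
    have h2 := hmin _ (Finset.mem_filter.2 ⟨Finset.mem_univ _, h1⟩)
    rw [Finset.card_erase_of_mem hc] at h2
    have := Finset.card_pos.2 ⟨c, hc⟩
    omega
  obtain ⟨C₁, hL₁, hI₁⟩ := step1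
  obtain ⟨C₂, hC₂, hmax⟩ := Finset.exists_max_image
    (Finset.univ.filter fun C : Finset E => Lab rows M φ C ∧ Irr M C) Finset.card
    ⟨C₁, Finset.mem_filter.2 ⟨Finset.mem_univ _, hL₁, hI₁⟩⟩
  obtain ⟨hL, hI⟩ := (Finset.mem_filter.1 hC₂).2
  refine ⟨C₂, hL, hI, fun d hd f hf hfC hfφ => ?_⟩
  by_contra hfd
  replace hfd : f d = 1 := z_ne_zero.1 hfd
  obtain ⟨hdS, hdC, hdφ⟩ := mem_rest.1 hd
  have h1 : Lab rows M φ (insert d C₂) := by
    refine ⟨hL.inj, hL.mem, Finset.insert_subset hdS hL.sub, fun i hi => ?_, fun i => ?_,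
      fun g hg hgC => hL.r2 g hg fun x hx => hgC x (Finset.mem_insert_of_mem hx)⟩
    · rcases Finset.mem_insert.1 hi with h2 | h2
      · exact hdφ i h2
      · exact hL.out i h2
    · obtain ⟨g, hg, hgC, hgφ⟩ := hL.r1 i
      rcases zcases (g d) with h2 | h2
      · refine ⟨g, hg, fun x hx => ?_, hgφ⟩
        rcases Finset.mem_insert.1 hx with rfl | hx
        · exact h2
        · exact hgC x hx
      · refine ⟨g + f, M.R.add_mem hg hf, fun x hx => ?_, fun j => ?_⟩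
        · rcases Finset.mem_insert.1 hx with rfl | hx
          · rw [Pi.add_apply, h2, hfd]; exact z_add_self 1
          · rw [Pi.add_apply, hgC x hx, hfC x hx, add_zero]
        · rw [Pi.add_apply, hfφ j, add_zero, hgφ j]
  have h2 : Irr M (insert d C₂) := by
    intro c hc
    rcases Finset.mem_insert.1 hc with rfl | hc
    · refine ⟨f, hf, fun x hx => ?_, hfd⟩
      rw [Finset.mem_erase, Finset.mem_insert] at hx
      exact hfC x (hx.2.resolve_left hx.1)
    · obtain ⟨ρ, hρ, hρC, hρc⟩ := hI c hc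
      have hcd : c ≠ d := fun h3 => hdC (h3 ▸ hc)
      rcases zcases (ρ d) with h3 | h3
      · refine ⟨ρ, hρ, fun x hx => ?_, hρc⟩
        rw [Finset.mem_erase, Finset.mem_insert] at hx
        rcases hx.2 with rfl | hx2
        · exact h3
        · exact hρC x (Finset.mem_erase.2 ⟨hx.1, hx2⟩)
      · refine ⟨ρ + f, M.R.add_mem hρ hf, fun x hx => ?_, ?_⟩
        · rw [Finset.mem_erase, Finset.mem_insert] at hx
          rcases hx.2 with rfl | hx2
          · rw [Pi.add_apply, h3, hfd]; exact z_add_self 1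
          · rw [Pi.add_apply, hρC x (Finset.mem_erase.2 ⟨hx.1, hx2⟩), hfC x hx2, add_zero]
        · rw [Pi.add_apply, hρc, hfC c hc, add_zero]
  have h3 := hmax _ (Finset.mem_filter.2 ⟨Finset.mem_univ _, h1, h2⟩)
  rw [Finset.card_insert_of_notMem hdC] at h3
  omega

end SEY.Sp

end

section

/-!
SP-4 (parallel case, first half).  `φ : Fin (k + 1) → E`, the pattern is `par rows n`: the last
element `φ (Fin.last k)` is parallel to `φ n.castSucc`.  Write `e = φ (Fin.last k)`, `φ' = φ ∘ castSucc`.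

lab_init: (r1) and (r2) for `φ'` from those for `φ`: `par rows n i j.castSucc = rows i j`
(`Fin.snoc_castSucc`).
par_last: by (r2), `f e = ∑ a i * par rows n i (last k) = ∑ a i * rows i n = f (φ' n)`.
par_wt: by (r2) `f ∘ φ' = ∑ a i rows i`, and `Nice.cos`: if `f ∘ φ' ≠ 0` then it has at least 3
nonzero values; if it vanishes outside `{n, j}` it has at most 2, so `f ∘ φ' = 0`.

step_Q: `IH` for `M.del {v}` and `M.con {v}` (`P` is closed under `Minor`: `minor_del`, `minor_con`; the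
ground sets have one element less) gives `X1` with `(M.del {v}).lam X1 ≤ 1`, `X2` with
`(M.con {v}).lam X2 ≤ 1`, both contain `φ' n` and `e` and no other `φ' j`, and not `v`.  `uncross`
(Helper71/SEYApi): `M.lam (X1 ∩ X2) + M.lam (insert v (X1 ∪ X2)) ≤ 3`, so one of the two sets has
`lam ≤ 1`, and it is good (`v` is not `φ j`).

step_D: `d ∈ rest M φ C`.  Let `h0` be: every `f ∈ M.R` with `f|C = 0`, `f ∘ φ = 0` has `f d = 0`.  If `h0`
fails or all `f` with `f|C = 0` have `f d = 0` then `step_Q` with `lab_del`, `lab_con_of`.  Otherwise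
`ext_dich` (for `lab_init h`; its `h0` by `par_last`) gives `j : Fin k` with `f d = f (φ' j)` for all
`f|C = 0`.  Let `m = φ' j`.  `X1`: `IH` for `M.del {d}`, `φ`, `C` (`lab_del`).  `X2`: `IH` for
`M.del {m}`, `Function.update φ j.castSucc d`, `C` (`lab_update`, then `lab_del`).
hR of `uncross_A`/`uncross_B`: if `f ∈ M.R` vanishes outside `{d, m}` then `f|C = 0` and `f ∘ φ'` is
zero outside `j`, so by `par_wt` `f ∘ φ' = 0`, `f m = 0`, `f ∘ φ = 0` (`par_last`) and `f d = 0` by `h0`.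
* `j ≠ n`: `X1, X2` contain `φ' n`, `e` and not `d`, `m`, `φ' i` (`i ≠ n`).  `uncross_B`.  If
  `M.lam (X1 ∩ X2) ≤ 1`: good.  Otherwise `(M.del {d, m}).lam (X1 ∪ X2) = 0`.  Take `f` with
  `f|C = 0`, `f (φ' n) = 1` (`Nice.col`, (r1)).  By `lam_zero_mask` (for `M.del {d, m}` and the row
  `mask _ f`) there is `f' ∈ M.R` which agrees with `mask (X1 ∪ X2) f` outside `{d, m}`.  It
  vanishes on `C`, and `f' (φ' n) = 1`, `f' (φ' i) = 0` for `i ≠ n, j`: contradiction to `par_wt`.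
* `j = n`: `m = φ' n`.  `X1` contains `m`, `e`, not `d`; `X2` contains `d`, `e`, not `m`; both do not
  contain `φ' i` for `i ≠ n`.  `uncross_A`.  If `M.lam (X1 ∪ X2) ≤ 1`: good.  Otherwise
  `(M.del {d, m}).lam (X1 ∩ X2) = 0`, and `f` as before (`f e = 1`) gives `f' ∈ M.R` which vanishes on
  `C`, `f' e = 1`, `f' (φ' i) = 0` for `i ≠ n`: by `par_wt` `f' ∘ φ' = 0`, by `par_last` `f' e = 0`.
-/

namespace SEY.Sp

open Finset BM

variable {E : Type} [Fintype E] [DecidableEq E] {r s k : ℕ} {rows : Fin r → Fin k → ZMod 2}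
  {duals : Fin s → Fin k → ZMod 2} {M : BM E} {P : BM E → Prop} {n : Fin k}
  {φ : Fin (k + 1) → E} {C : Finset E}

theorem par_castSucc (rows : Fin r → Fin k → ZMod 2) (n : Fin k) (i : Fin r) (j : Fin k) :
    par rows n i j.castSucc = rows i j := by
  simp [par, ext]

theorem par_last' (rows : Fin r → Fin k → ZMod 2) (n : Fin k) (i : Fin r) :
    par rows n i (Fin.last k) = rows i n := by
  simp [par, ext]

theorem lab_init (h : Lab (par rows n) M φ C) : Lab rows M (fun j => φ j.castSucc) C := by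
  refine ⟨fun a b hab => Fin.castSucc_injective _ (h.inj hab), fun i => h.mem _, h.sub,
    fun i => h.out _, fun i => ?_, fun f hf hfC => ?_⟩
  · obtain ⟨f, hf, hfC, hfφ⟩ := h.r1 i
    exact ⟨f, hf, hfC, fun j => by rw [hfφ, par_castSucc]⟩
  · obtain ⟨a, ha⟩ := h.r2 f hf hfC
    refine ⟨a, fun j => ?_⟩
    rw [ha]
    exact Finset.sum_congr rfl (fun i _ => by rw [par_castSucc])

theorem par_last (h : Lab (par rows n) M φ C) :
    ∀ f ∈ M.R, (∀ c ∈ C, f c = 0) → f (φ (Fin.last k)) = f (φ n.castSucc) := by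
  intro f hf hfC
  obtain ⟨a, ha⟩ := h.r2 f hf hfC
  rw [ha, ha]
  exact Finset.sum_congr rfl (fun i _ => by rw [par_castSucc, par_last'])

theorem par_wt (hN : Nice rows) (h : Lab (par rows n) M φ C) (i j : Fin k) :
    ∀ f ∈ M.R, (∀ c ∈ C, f c = 0) → (∀ x, x ≠ i → x ≠ j → f (φ x.castSucc) = 0) →
      ∀ x, f (φ x) = 0 := by
  intro f hf hfC hfx
  have key : ∀ x : Fin k, f (φ x.castSucc) = 0 := by
    obtain ⟨a, ha⟩ := (lab_init h).r2 f hf hfC
    rcases hN.cos a with h1 | h1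
    · intro x
      rw [ha x]; exact h1 x
    · exfalso
      have hsub : (univ.filter fun x : Fin k => ∑ i, a i * rows i x ≠ 0) ⊆ {i, j} := by
        intro x hx
        rw [Finset.mem_filter] at hx
        rw [Finset.mem_insert, Finset.mem_singleton]
        by_contra hne
        push Not at hne
        exact hx.2 (by rw [← ha x]; exact hfx x hne.1 hne.2)
      have h2 := Finset.card_le_card hsub
      have h3 := Finset.card_le_two (a := i) (b := j)
      omega
  intro x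
  refine Fin.lastCases ?_ (fun x => key x) x
  rw [par_last h f hf hfC]
  exact key n

omit [Fintype E] in
theorem card_sdiff_lt {S : Finset E} {v : E} (hv : v ∈ S) : (S \ {v}).card < S.card := by
  refine Finset.card_lt_card ?_
  rw [Finset.ssubset_iff_of_subset Finset.sdiff_subset]
  exact ⟨v, hv, by simp⟩

theorem step_Q (hP : ∀ M N : BM E, P M → Minor N M → P N) (hM : P M)
    (hI : IH rows P n M.S.card) {v : E} (hv : v ∈ M.S) (hv' : ∀ i, φ i ≠ v) {C1 C2 : Finset E}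
    (h1 : Lab (par rows n) (M.del {v}) φ C1) (h2 : Lab (par rows n) (M.con {v}) φ C2) :
    Good n M φ := by
  obtain ⟨X1, s1, n1, l1, o1, m1⟩ :=
    hI (M.del {v}) (hP _ _ hM (minor_del M {v})) (card_sdiff_lt hv) φ C1 h1
  obtain ⟨X2, s2, n2, l2, o2, m2⟩ :=
    hI (M.con {v}) (hP _ _ hM (minor_con M {v})) (card_sdiff_lt hv) φ C2 h2
  have s1' : X1 ⊆ M.S \ {v} := s1
  have s2' : X2 ⊆ M.S \ {v} := s2
  have v1 : v ∉ X1 := fun hx => (Finset.mem_sdiff.1 (s1' hx)).2 (Finset.mem_singleton_self v)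
  have v2 : v ∉ X2 := fun hx => (Finset.mem_sdiff.1 (s2' hx)).2 (Finset.mem_singleton_self v)
  have hu := M.uncross hv v1 v2
  rcases Nat.lt_or_ge 1 (M.lam (X1 ∩ X2)) with hlt | hle
  · refine ⟨insert v (X1 ∪ X2), ?_, ?_, ?_, ?_, by omega⟩
    · intro x hx
      rw [Finset.mem_insert, Finset.mem_union] at hx
      rcases hx with rfl | hx | hx
      · exact hv
      · exact (Finset.mem_sdiff.1 (s1' hx)).1
      · exact (Finset.mem_sdiff.1 (s2' hx)).1
    · exact Finset.mem_insert_of_mem (Finset.mem_union_left _ n1)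
    · exact Finset.mem_insert_of_mem (Finset.mem_union_left _ l1)
    · intro j hj hx
      rw [Finset.mem_insert, Finset.mem_union] at hx
      rcases hx with hx | hx | hx
      · exact hv' _ hx
      · exact o1 j hj hx
      · exact o2 j hj hx
  · refine ⟨X1 ∩ X2, ?_, Finset.mem_inter.2 ⟨n1, n2⟩, Finset.mem_inter.2 ⟨l1, l2⟩, ?_, hle⟩
    · intro x hx
      exact (Finset.mem_sdiff.1 (s1' (Finset.mem_inter.1 hx).1)).1
    · intro j hj hx
      exact o1 j hj (Finset.mem_inter.1 hx).1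

theorem zero_mask_row {d m : E} {X : Finset E} (hX : X ⊆ M.S \ {d, m})
    (h : (M.del {d, m}).lam X = 0) {f : E → ZMod 2} (hf : f ∈ M.R) :
    ∃ g ∈ M.R, ∀ e ∈ M.S, e ≠ d → e ≠ m → g e = if e ∈ X then f e else 0 := by
  have h1 := lam_zero_mask (M.del {d, m}) (X := X) hX h (mask (M.S \ {d, m}) f) ⟨f, hf, rfl⟩
  rw [mem_del'] at h1
  obtain ⟨-, g, hg, hg'⟩ := h1
  refine ⟨g, hg, fun e he hd hm => ?_⟩
  have h2 : e ∈ M.S \ {d, m} := by
    rw [Finset.mem_sdiff, Finset.mem_insert, Finset.mem_singleton]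
    exact ⟨he, fun h => h.elim hd hm⟩
  rw [hg' e h2, mask_apply, mask_apply, if_pos h2]

theorem step_D (hP : ∀ M N : BM E, P M → Minor N M → P N) (hN : Nice rows) (hE : EOK rows P)
    (hM : P M) (hI : IH rows P n M.S.card) (h : Lab (par rows n) M φ C) {d : E}
    (hd : d ∈ rest M φ C) : Good n M φ := by
  rw [mem_rest] at hd
  obtain ⟨hdS, hdC, hd'⟩ := hd
  have hl := lab_del h hdC hd'
  by_cases hloop : ∀ f ∈ M.R, (∀ c ∈ C, f c = 0) → f d = 0
  · exact step_Q hP hM hI hdS hd' hl (lab_con_of h hdS hdC hd' (Or.inl hloop))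
  by_cases h0 : ∀ f ∈ M.R, (∀ c ∈ C, f c = 0) → (∀ j, f (φ j) = 0) → f d = 0
  swap
  · push Not at h0
    obtain ⟨f, hf, hfC, hfφ, hfd⟩ := h0
    exact step_Q hP hM hI hdS hd' hl
      (lab_con_of h hdS hdC hd' (Or.inr ⟨f, hf, hfC, z_ne_zero.1 hfd, hfφ⟩))
  have h0' : ∀ f ∈ M.R, (∀ c ∈ C, f c = 0) → (∀ j : Fin k, f (φ j.castSucc) = 0) → f d = 0 := by
    intro f hf hfC hφ
    refine h0 f hf hfC (fun j => ?_)
    refine Fin.lastCases ?_ (fun x => hφ x) j
    rw [par_last h f hf hfC]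
    exact hφ n
  rcases ext_dich hE hM (lab_init h) hdS hdC (fun i => hd' _) h0' with h1 | ⟨j, hj⟩
  · exact absurd h1 hloop
  have hmS : φ j.castSucc ∈ M.S := h.mem _
  have hmC : φ j.castSucc ∉ C := h.out _
  have hdm : d ≠ φ j.castSucc := fun he => hd' _ he.symm
  have hR : ∀ f ∈ M.R, (∀ e, e ≠ d → e ≠ φ j.castSucc → f e = 0) → f = 0 := by
    intro f hf hfe
    have hfC : ∀ c ∈ C, f c = 0 := fun c hc =>
      hfe c (fun he => hdC (he ▸ hc)) (fun he => hmC (he ▸ hc))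
    have hφ := par_wt hN h j j f hf hfC (fun x hx _ => hfe _ (hd' _)
      (fun he => hx (Fin.castSucc_injective _ (h.inj he))))
    funext e
    by_cases he1 : e = d
    · rw [he1]; exact h0 f hf hfC hφ
    by_cases he2 : e = φ j.castSucc
    · rw [he2]; exact hφ _
    · exact hfe e he1 he2
  have hu := lab_update h hdS hdC hd' (j := j.castSucc) hj
  have hu' : ∀ i, Function.update φ j.castSucc d i ≠ φ j.castSucc := by
    intro i
    by_cases hi : i = j.castSucc
    · rw [hi, Function.update_self]; exact hdm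
    · rw [Function.update_of_ne hi]; exact fun he => hi (h.inj he)
  have hu2 := lab_del hu hmC hu'
  obtain ⟨X1, s1, n1, l1, o1, m1⟩ :=
    hI (M.del {d}) (hP _ _ hM (minor_del M {d})) (card_sdiff_lt hdS) φ C hl
  obtain ⟨X2, s2, n2, l2, o2, m2⟩ :=
    hI (M.del {φ j.castSucc}) (hP _ _ hM (minor_del M {φ j.castSucc})) (card_sdiff_lt hmS) _ C hu2
  have s1' : X1 ⊆ M.S \ {d} := s1
  have s2' : X2 ⊆ M.S \ {φ j.castSucc} := s2
  have t1 : X1 ⊆ M.S := s1'.trans Finset.sdiff_subset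
  have t2 : X2 ⊆ M.S := s2'.trans Finset.sdiff_subset
  have d1 : d ∉ X1 := fun hx => (Finset.mem_sdiff.1 (s1' hx)).2 (Finset.mem_singleton_self _)
  have m2' : φ j.castSucc ∉ X2 :=
    fun hx => (Finset.mem_sdiff.1 (s2' hx)).2 (Finset.mem_singleton_self _)
  have hlj : Fin.last k ≠ j.castSucc := (Fin.castSucc_lt_last j).ne'
  rw [Function.update_of_ne hlj] at l2
  have o2' : ∀ i, i ≠ n → i ≠ j → φ i.castSucc ∉ X2 := by
    intro i hi hij hx
    refine o2 i hi ?_
    rw [Function.update_of_ne (fun he => hij (Fin.castSucc_injective _ he))]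
    exact hx
  obtain ⟨i0, hi0⟩ := hN.col n
  obtain ⟨f, hf, hfC, hfφ⟩ := (lab_init h).r1 i0
  have hfn : f (φ n.castSucc) ≠ 0 := by rw [hfφ]; exact hi0
  have hinj : ∀ x y : Fin k, x ≠ y → φ x.castSucc ≠ φ y.castSucc := fun x y hxy he =>
    hxy (Fin.castSucc_injective _ (h.inj he))
  -- the masked row vanishes on `C`
  have hgC : ∀ (X : Finset E) (g : E → ZMod 2),
      (∀ e ∈ M.S, e ≠ d → e ≠ φ j.castSucc → g e = if e ∈ X then f e else 0) →
      ∀ c ∈ C, g c = 0 := by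
    intro X g hg c hc
    rw [hg c (h.sub hc) (fun he => hdC (he ▸ hc)) (fun he => hmC (he ▸ hc)), hfC c hc, ite_self]
  by_cases hjn : j = n
  · subst hjn
    have m1' : φ j.castSucc ∈ X1 := n1
    have d2 : d ∈ X2 := by rw [Function.update_self] at n2; exact n2
    have hA := uncross_A M hdS hmS hdm hR t1 t2 d1 m1' d2 m2'
    rcases Nat.lt_or_ge 1 (M.lam (X1 ∪ X2)) with hlt | hle
    · exfalso
      have hz : (M.del {d, φ j.castSucc}).lam (X1 ∩ X2) = 0 := by omega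
      have hsub : X1 ∩ X2 ⊆ M.S \ {d, φ j.castSucc} := by
        intro x hx
        rw [Finset.mem_inter] at hx
        rw [Finset.mem_sdiff, Finset.mem_insert, Finset.mem_singleton]
        refine ⟨t1 hx.1, ?_⟩
        rintro (rfl | rfl)
        · exact d1 hx.1
        · exact m2' hx.2
      obtain ⟨g, hg, hg'⟩ := zero_mask_row hsub hz hf
      have hw := par_wt hN h j j g hg (hgC _ g hg') (fun x hx _ => by
        rw [hg' _ (h.mem _) (hd' _) (hinj x j hx), if_neg]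
        intro hx2
        exact o1 x hx (Finset.mem_inter.1 hx2).1) (Fin.last k)
      rw [hg' _ (h.mem _) (hd' _) (fun he => hlj (h.inj he)),
        if_pos (Finset.mem_inter.2 ⟨l1, l2⟩), par_last h f hf hfC] at hw
      exact hfn hw
    · refine ⟨X1 ∪ X2, Finset.union_subset t1 t2, Finset.mem_union_left _ m1',
        Finset.mem_union_left _ l1, ?_, hle⟩
      intro i hi hx
      rcases Finset.mem_union.1 hx with hx | hx
      · exact o1 i hi hx
      · exact o2' i hi hi hx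
  · have m1' : φ j.castSucc ∉ X1 := o1 j hjn
    have d2 : d ∉ X2 := by
      have := o2 j hjn
      rwa [Function.update_self] at this
    have hnj : n.castSucc ≠ j.castSucc := fun he => hjn (Fin.castSucc_injective _ he).symm
    rw [Function.update_of_ne hnj] at n2
    have hB := uncross_B M hdS hmS hdm hR t1 t2 d1 m1' d2 m2'
    rcases Nat.lt_or_ge 1 (M.lam (X1 ∩ X2)) with hlt | hle
    · exfalso
      have hz : (M.del {d, φ j.castSucc}).lam (X1 ∪ X2) = 0 := by omega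
      have hsub : X1 ∪ X2 ⊆ M.S \ {d, φ j.castSucc} := by
        intro x hx
        rw [Finset.mem_union] at hx
        rw [Finset.mem_sdiff, Finset.mem_insert, Finset.mem_singleton]
        refine ⟨hx.elim (fun hx => t1 hx) (fun hx => t2 hx), ?_⟩
        rintro (rfl | rfl)
        · exact hx.elim d1 d2
        · exact hx.elim m1' m2'
      obtain ⟨g, hg, hg'⟩ := zero_mask_row hsub hz hf
      have hw := par_wt hN h n j g hg (hgC _ g hg') (fun x hx hxj => by
        rw [hg' _ (h.mem _) (hd' _) (hinj x j hxj), if_neg]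
        intro hx2
        rcases Finset.mem_union.1 hx2 with hx2 | hx2
        · exact o1 x hx hx2
        · exact o2' x hx hxj hx2) n.castSucc
      rw [hg' _ (h.mem _) (hd' _) (hinj n j (Ne.symm hjn)),
        if_pos (Finset.mem_union_left _ n1)] at hw
      exact hfn hw
    · refine ⟨X1 ∩ X2, fun x hx => t1 (Finset.mem_inter.1 hx).1, Finset.mem_inter.2 ⟨n1, n2⟩,
        Finset.mem_inter.2 ⟨l1, l2⟩, ?_, hle⟩
      intro i hi hx
      exact o1 i hi (Finset.mem_inter.1 hx).1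

end SEY.Sp

end

section

/-!
SP-5 (parallel case, second half).  `e = φ (Fin.last k)`, `φ' = φ ∘ castSucc`, `rest M φ C = ∅`, so
`M.S` is the disjoint union of the image of `φ` and `C`.

lab_swap: `ρ ∈ M.R`, `ρ|(C.erase c) = 0`, `ρ c = 1`, `ρ ∘ φ = 1_j` (a row of a minor).  The rows `f` with
`f|C = 0` and the rows `f'` which vanish on `C' = insert (φ j) (C.erase c)` correspond:
`f' = f + f (φ j) ρ`, `f = f' + f' c ρ`; `f' c = f (φ j)`, `f' (φ i) = f (φ i)` for `i ≠ j`.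
tri_minor: `φ'' = Fin.snoc φ c`, contracted set `C.erase c`.  The rows `f i` of (r1) for `par rows n`
vanish at `c`; `ρ` is the last row.  (r2): `f + f c ρ` vanishes on `C`.

step_C: if some `c ∈ C` has: all `f ∈ M.R` with `f|(C.erase c) = 0` have `f c = 0`, or there is such an
`f` with `f c = 1`, `f ∘ φ = 0`, then `step_Q` with `v = c` (`lab_del_of` and `lab_con`).  Otherwise for
each `c ∈ C` `coext_dich` (for `lab_init h`) gives `ρ ∈ M.R`, `ρ|(C.erase c) = 0`, `ρ c = 1`, and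
`ρ ∘ φ' = 0` or `ρ ∘ φ' = 1_j`.
* `ρ ∘ φ' = 1_j`, `j ≠ n`, `ρ e = 0`: `ρ = ind {c, φ' j}`.  `IH` for `M.con {c}` (`lab_con`) gives `X1`,
  `φ' j ∉ X1`, and `M.lam X1 = (M.con {c}).lam X1` by `lam_con_series`.
* `ρ ∘ φ' = 1_j`, `j ≠ n`, `ρ e = 1`: `lab_swap` is applied to `ext rows`-labelling: with
  `φ'' = Function.update φ' j c`, `C' = insert (φ' j) (C.erase c)` one has `Lab rows M φ'' C'`, and
  `f' e = f' (φ'' n) + f' (φ'' j)` for the rows `f'` vanishing on `C'` (`f' = f + f (φ' j) ρ`,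
  `f e = f (φ' n)` by `par_last`), so `Lab (ext rows (fun i => rows i n + rows i j)) M
  (Fin.snoc φ'' e) C'` (this is `swap_ext`).  By `EOK` either `rows i n + rows i j = 0` for all `i`
  (contradiction to `Nice.sim`) or `rows i n + rows i j = rows i l` for all `i`, and `TOK`
  contradicts `tri_minor`.
* Otherwise for all `c ∈ C` the row `ρ_c` has support in `{φ' n, e, c}`.  `X = {φ' n, e} ∪ C`.
  The `ρ_c` are linearly independent elements of the space of rows contained in `X`, so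
  `|C| ≤ dR X`; the rows which vanish on `C` and at `φ' n` vanish on `X` (`par_last`) and form a
  subspace of codimension at most `|C| + 1` in `M.R`, so `dR (M.S \ X) ≥ rk - |C| - 1`.  By
  `lam_add_dR` `M.lam X ≤ 1` (this is `lam_fan`).

par_case: induction on `M.S.card`: `step_C` if `rest M φ C = ∅` and `step_D` otherwise.
-/

namespace SEY.Sp

open Finset BM

variable {E : Type} [Fintype E] [DecidableEq E] {r s k : ℕ} {rows : Fin r → Fin k → ZMod 2}
  {duals : Fin s → Fin k → ZMod 2} {M : BM E} {P : BM E → Prop} {n : Fin k}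
  {φ : Fin (k + 1) → E} {C : Finset E}

omit [Fintype E] [DecidableEq E] in
lemma p2_ext_castSucc (v : Fin r → ZMod 2) (i : Fin r) (x : Fin k) :
    ext rows v i x.castSucc = rows i x := by
  simp [ext]

omit [Fintype E] [DecidableEq E] in
lemma p2_ext_last (v : Fin r → ZMod 2) (i : Fin r) : ext rows v i (Fin.last k) = v i := by
  simp [ext]

omit [Fintype E] [DecidableEq E] in
lemma p2_par_castSucc (i : Fin r) (x : Fin k) : par rows n i x.castSucc = rows i x := by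
  simp [par, ext]

omit [Fintype E] [DecidableEq E] in
lemma p2_par_last (i : Fin r) : par rows n i (Fin.last k) = rows i n := by
  simp [par, ext]

theorem swap_ext (h : Lab (par rows n) M φ C) {c : E} (hc : c ∈ C) {j : Fin k} (hj : j ≠ n)
    {ρ : E → ZMod 2} (hρ : ρ ∈ M.R) (h1 : ∀ x ∈ C.erase c, ρ x = 0) (h2 : ρ c = 1)
    (h3 : ∀ i : Fin k, ρ (φ i.castSucc) = if i = j then 1 else 0) (h4 : ρ (φ (Fin.last k)) = 1) :
    HasMinor (ext rows (fun i => rows i n + rows i j)) M := by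
  have hcφ : ∀ i, φ i ≠ c := fun i hi => h.out i (hi ▸ hc)
  have hρj : ρ (φ j.castSucc) = 1 := by rw [h3, if_pos rfl]
  let ψ : Fin (k + 1) → E := Fin.snoc (α := fun _ => E)
    (Function.update (fun i : Fin k => φ i.castSucc) j c) (φ (Fin.last k))
  have ψl : ψ (Fin.last k) = φ (Fin.last k) := by
    show (Fin.snoc (α := fun _ => E)
      (Function.update (fun i : Fin k => φ i.castSucc) j c) (φ (Fin.last k)) : Fin (k + 1) → E)
      (Fin.last k) = _
    rw [Fin.snoc_last]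
  have ψj : ψ j.castSucc = c := by
    show (Fin.snoc (α := fun _ => E)
      (Function.update (fun i : Fin k => φ i.castSucc) j c) (φ (Fin.last k)) : Fin (k + 1) → E)
      j.castSucc = c
    rw [Fin.snoc_castSucc, Function.update_self]
  have ψi : ∀ i : Fin k, i ≠ j → ψ i.castSucc = φ i.castSucc := by
    intro i hi
    show (Fin.snoc (α := fun _ => E)
      (Function.update (fun i : Fin k => φ i.castSucc) j c) (φ (Fin.last k)) : Fin (k + 1) → E)
      i.castSucc = _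
    rw [Fin.snoc_castSucc, Function.update_of_ne hi]
  have hval : ∀ x : Fin (k + 1), (x = Fin.last k ∧ ψ x = φ x) ∨ (x = j.castSucc ∧ ψ x = c) ∨
      (∃ i : Fin k, i ≠ j ∧ x = i.castSucc ∧ ψ x = φ x) := by
    intro x
    refine Fin.lastCases ?_ (fun i => ?_) x
    · exact Or.inl ⟨rfl, ψl⟩
    · by_cases hi : i = j
      · subst hi
        exact Or.inr (Or.inl ⟨rfl, ψj⟩)
      · exact Or.inr (Or.inr ⟨i, hi, rfl, ψi i hi⟩)
  have hval2 : ∀ x : Fin (k + 1), x ≠ j.castSucc → ψ x = φ x := by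
    intro x hx
    rcases hval x with ⟨-, h5⟩ | ⟨h5, -⟩ | ⟨i, -, -, h5⟩
    · exact h5
    · exact absurd h5 hx
    · exact h5
  have hinj : Function.Injective ψ := by
    intro x y hxy
    by_cases hx : x = j.castSucc
    · by_cases hy : y = j.castSucc
      · rw [hx, hy]
      · rw [hx, ψj, hval2 y hy] at hxy
        exact absurd hxy.symm (hcφ y)
    · by_cases hy : y = j.castSucc
      · rw [hy, ψj, hval2 x hx] at hxy
        exact absurd hxy (hcφ x)
      · rw [hval2 x hx, hval2 y hy] at hxy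
        exact h.inj hxy
  refine hasMinor_iff.2 ⟨ψ, insert (φ j.castSucc) (C.erase c), hinj, ?_, ?_, ?_, ?_, ?_⟩
  · intro x
    by_cases hx : x = j.castSucc
    · rw [hx, ψj]; exact h.sub hc
    · rw [hval2 x hx]; exact h.mem x
  · exact Finset.insert_subset (h.mem _) ((Finset.erase_subset _ _).trans h.sub)
  · intro x hx'
    rw [Finset.mem_insert, Finset.mem_erase] at hx'
    by_cases hx : x = j.castSucc
    · rw [hx, ψj] at hx'
      rcases hx' with h5 | h5
      · exact hcφ _ h5.symm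
      · exact h5.1 rfl
    · rw [hval2 x hx] at hx'
      rcases hx' with h5 | h5
      · exact hx (h.inj h5)
      · exact h.out x h5.2
  · intro i
    obtain ⟨f, hf, hfC, hfφ⟩ := h.r1 i
    have hfj : f (φ j.castSucc) = rows i j := by rw [hfφ, p2_par_castSucc]
    refine ⟨f + rows i j • ρ, M.R.add_mem hf (M.R.smul_mem _ hρ), ?_, ?_⟩
    · intro x hx
      rw [Finset.mem_insert] at hx
      rw [Pi.add_apply, Pi.smul_apply, smul_eq_mul]
      rcases hx with rfl | hx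
      · rw [hfj, hρj, mul_one, z_add_self]
      · rw [hfC x (Finset.mem_of_mem_erase hx), h1 x hx, mul_zero, add_zero]
    · intro x
      rw [Pi.add_apply, Pi.smul_apply, smul_eq_mul]
      rcases hval x with ⟨h5, h6⟩ | ⟨h5, h6⟩ | ⟨i', h5, h7, h6⟩
      · rw [h6, h5, hfφ, p2_par_last, h4, mul_one, p2_ext_last]
      · rw [h6, h5, hfC c hc, h2, mul_one, zero_add, p2_ext_castSucc]
      · rw [h6, h7, hfφ, p2_par_castSucc, h3, if_neg h5, mul_zero, add_zero, p2_ext_castSucc]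
  · intro f hf hfC
    have hfj : f (φ j.castSucc) = 0 := hfC _ (by simp)
    have hfe : ∀ x ∈ C.erase c, f x = 0 := fun x hx => hfC x (by simp only [Finset.mem_insert, hx, or_true])
    obtain ⟨a, ha⟩ := h.r2 (f + f c • ρ) (M.R.add_mem hf (M.R.smul_mem _ hρ)) (fun x hx => by
      rw [Pi.add_apply, Pi.smul_apply, smul_eq_mul]
      by_cases hxc : x = c
      · rw [hxc, h2, mul_one, z_add_self]
      · have hx' : x ∈ C.erase c := Finset.mem_erase.2 ⟨hxc, hx⟩
        rw [hfe x hx', h1 x hx', mul_zero, add_zero])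
    have hcj : f c = ∑ i, a i * rows i j := by
      have h5 := ha j.castSucc
      rw [Pi.add_apply, Pi.smul_apply, smul_eq_mul, hfj, hρj, mul_one, zero_add] at h5
      rw [h5]
      exact Finset.sum_congr rfl (fun i _ => by rw [p2_par_castSucc])
    refine ⟨a, fun x => ?_⟩
    rcases hval x with ⟨h5, h6⟩ | ⟨h5, h6⟩ | ⟨i', h5, h7, h6⟩
    · have h8 := ha (Fin.last k)
      rw [Pi.add_apply, Pi.smul_apply, smul_eq_mul, h4, mul_one] at h8
      have h9 : f (φ (Fin.last k)) = (∑ i, a i * par rows n i (Fin.last k)) + f c := by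
        rw [← h8, add_assoc, z_add_self, add_zero]
      rw [h6, h5, h9, hcj, ← Finset.sum_add_distrib]
      refine Finset.sum_congr rfl (fun i _ => ?_)
      rw [p2_par_last, p2_ext_last, mul_add]
    · rw [h6, h5, hcj]
      exact Finset.sum_congr rfl (fun i _ => by rw [p2_ext_castSucc])
    · have h8 := ha i'.castSucc
      rw [Pi.add_apply, Pi.smul_apply, smul_eq_mul, h3, if_neg h5, mul_zero, add_zero] at h8
      rw [h6, h7, h8]
      exact Finset.sum_congr rfl (fun i _ => by rw [p2_ext_castSucc, p2_par_castSucc])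

theorem tri_minor (h : Lab (par rows n) M φ C) {c : E} (hc : c ∈ C) {j : Fin k}
    {ρ : E → ZMod 2} (hρ : ρ ∈ M.R) (h1 : ∀ x ∈ C.erase c, ρ x = 0) (h2 : ρ c = 1)
    (h3 : ∀ i : Fin k, ρ (φ i.castSucc) = if i = j then 1 else 0) (h4 : ρ (φ (Fin.last k)) = 1) :
    HasMinor (tri rows n j) M := by
  have hcφ : ∀ i, φ i ≠ c := fun i hi => h.out i (hi ▸ hc)
  let ψ : Fin (k + 1 + 1) → E := Fin.snoc (α := fun _ => E) φ c
  have ψl : ψ (Fin.last (k + 1)) = c := by simp [ψ]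
  have ψi : ∀ i : Fin (k + 1), ψ i.castSucc = φ i := by
    intro i
    simp [ψ]
  have hinj : Function.Injective ψ := by
    intro x y
    refine Fin.lastCases ?_ (fun i => ?_) x
    · refine Fin.lastCases ?_ (fun i' => ?_) y
      · intro _; rfl
      · intro hxy
        rw [ψl, ψi] at hxy
        exact absurd hxy.symm (hcφ i')
    · refine Fin.lastCases ?_ (fun i' => ?_) y
      · intro hxy
        rw [ψl, ψi] at hxy
        exact absurd hxy (hcφ i)
      · intro hxy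
        rw [ψi, ψi] at hxy
        rw [h.inj hxy]
  refine hasMinor_iff.2 ⟨ψ, C.erase c, hinj, ?_, (Finset.erase_subset _ _).trans h.sub, ?_, ?_, ?_⟩
  · intro x
    refine Fin.lastCases ?_ (fun i => ?_) x
    · rw [ψl]; exact h.sub hc
    · rw [ψi]; exact h.mem i
  · intro x
    refine Fin.lastCases ?_ (fun i => ?_) x
    · rw [ψl]; simp
    · rw [ψi]
      exact fun h' => h.out i (Finset.mem_of_mem_erase h')
  · intro i
    refine Fin.lastCases ?_ (fun i => ?_) i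
    · refine ⟨ρ, hρ, h1, fun x => ?_⟩
      refine Fin.lastCases ?_ (fun x' => ?_) x
      · rw [ψl, h2]; simp [tri]
      · rw [ψi]
        refine Fin.lastCases ?_ (fun y => ?_) x'
        · rw [h4]; simp [tri]
        · rw [h3]; simp [tri]
    · obtain ⟨f, hf, hfC, hfφ⟩ := h.r1 i
      refine ⟨f, hf, fun x hx => hfC x (Finset.mem_of_mem_erase hx), fun x => ?_⟩
      refine Fin.lastCases ?_ (fun x' => ?_) x
      · rw [ψl, hfC c hc]; simp [tri]
      · rw [ψi, hfφ]; simp [tri]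
  · intro f hf hfC
    obtain ⟨a, ha⟩ := h.r2 (f + f c • ρ) (M.R.add_mem hf (M.R.smul_mem _ hρ)) (fun x hx => by
      rw [Pi.add_apply, Pi.smul_apply, smul_eq_mul]
      by_cases hxc : x = c
      · rw [hxc, h2, mul_one, z_add_self]
      · have hx' : x ∈ C.erase c := Finset.mem_erase.2 ⟨hxc, hx⟩
        rw [hfC x hx', h1 x hx', mul_zero, add_zero])
    refine ⟨Fin.snoc (α := fun _ => ZMod 2) a (f c), fun x => ?_⟩
    rw [Fin.sum_univ_castSucc]
    simp only [Fin.snoc_castSucc, Fin.snoc_last]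
    refine Fin.lastCases ?_ (fun x' => ?_) x
    · rw [ψl]
      simp [tri]
    · have h8 := ha x'
      rw [Pi.add_apply, Pi.smul_apply, smul_eq_mul] at h8
      have h9 : f (φ x') = (∑ i, a i * par rows n i x') + f c * ρ (φ x') := by
        rw [← h8, add_assoc, z_add_self, add_zero]
      rw [ψi, h9]
      congr 1
      · refine Finset.sum_congr rfl (fun i _ => ?_)
        simp [tri]
      · congr 1
        refine Fin.lastCases ?_ (fun y => ?_) x'
        · rw [h4]; simp [tri]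
        · rw [h3]; simp [tri]

theorem lam_fan {C : Finset E} {a b : E} (hC : C ⊆ M.S) (ha : a ∈ M.S) (hb : b ∈ M.S)
    (haC : a ∉ C) (hbC : b ∉ C)
    (hab : ∀ f ∈ M.R, (∀ c ∈ C, f c = 0) → f b = f a)
    (hρ : ∀ c ∈ C, ∃ ρ ∈ M.R, ρ c = 1 ∧ ∀ x, x ≠ c → x ≠ a → x ≠ b → ρ x = 0) :
    M.lam (insert a (insert b C)) ≤ 1 := by
  have h1 := M.lam_add_dR_eq_r (insert a (insert b C))
  -- rank
  have h2 : M.r (insert a (insert b C)) = M.r (insert a C) := by
    have g1 := M.r_add_dR (insert a (insert b C))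
    have g2 := M.r_add_dR (insert a C)
    have g3 : M.RIn (insert a (insert b C))ᶜ = M.RIn (insert a C)ᶜ := by
      ext f
      rw [mem_RIn, mem_RIn]
      constructor
      · rintro ⟨hf, hf2⟩
        refine ⟨hf, fun e he => hf2 e ?_⟩
        simp only [Finset.mem_compl, not_not, Finset.mem_insert] at he ⊢
        tauto
      · rintro ⟨hf, hf2⟩
        refine ⟨hf, fun e he => ?_⟩
        simp only [Finset.mem_compl, not_not, Finset.mem_insert] at he hf2
        rcases he with rfl | rfl | he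
        · exact hf2 _ (Or.inl rfl)
        · rw [hab f hf (fun c hc => hf2 c (Or.inr hc))]
          exact hf2 _ (Or.inl rfl)
        · exact hf2 _ (Or.inr he)
    have g4 : M.dR (insert a (insert b C))ᶜ = M.dR (insert a C)ᶜ := by
      unfold BM.dR; rw [g3]
    omega
  have h3 := M.r_le_card (insert a C)
  rw [Finset.card_insert_of_notMem haC] at h3
  -- rows inside
  have h4 : C.card ≤ M.dR (insert a (insert b C)) := by
    choose! ρ hρ1 hρ2 hρ3 using hρ
    let v : C → M.RIn (insert a (insert b C)) := fun c => ⟨ρ c, hρ1 c c.2, fun e he => by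
      simp only [Finset.mem_insert, not_or] at he
      refine hρ3 c c.2 e (fun h5 => he.2.2 ?_) he.1 he.2.1
      rw [h5]; exact c.2⟩
    have hli : LinearIndependent (ZMod 2) v := by
      rw [Fintype.linearIndependent_iff]
      intro g hg c
      have h5 := congrArg (fun w : M.RIn (insert a (insert b C)) => (w : E → ZMod 2) c) hg
      simp only [Submodule.coe_sum, Submodule.coe_smul, Finset.sum_apply, Pi.smul_apply,
        smul_eq_mul, Submodule.coe_zero, Pi.zero_apply] at h5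
      rw [Finset.sum_eq_single c] at h5
      · have h6 : ((v c : E → ZMod 2)) c = 1 := hρ2 c c.2
        rw [h6, mul_one] at h5
        exact h5
      · intro c' _ hne
        have h6 : ((v c' : E → ZMod 2)) c = 0 := by
          refine hρ3 c' c'.2 c (fun h7 => hne (Subtype.ext h7.symm)) ?_ ?_
          · intro h7; exact haC (h7 ▸ c.2)
          · intro h7; exact hbC (h7 ▸ c.2)
        rw [h6, mul_zero]
      · intro h6; exact absurd (Finset.mem_univ _) h6
    have h5 := hli.fintype_card_le_finrank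
    rw [Fintype.card_coe] at h5
    exact h5
  omega

theorem step_C (hP : ∀ M N : BM E, P M → Minor N M → P N) (hc : Compl rows duals)
    (hN : Nice rows) (hE : EOK rows P) (hE' : EOK duals (fun N : BM E => P N.dual))
    (hT : TOK rows P) (hM : P M) (hI : IH rows P n M.S.card) (h : Lab (par rows n) M φ C)
    (hr : rest M φ C = ∅) : Good n M φ := by
  have hcover : ∀ x ∈ M.S, x ∈ C ∨ ∃ i, φ i = x := by
    intro x hx
    by_contra hcon
    push_neg at hcon
    have : x ∈ rest M φ C := mem_rest.2 ⟨hx, hcon.1, hcon.2⟩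
    rw [hr] at this
    simp at this
  have hne : ∀ c ∈ C, ∀ i, φ i ≠ c := fun c hc' i hi => h.out i (hi ▸ hc')
  by_cases hq : ∃ c ∈ C, (∀ f ∈ M.R, (∀ x ∈ C.erase c, f x = 0) → f c = 0) ∨
      ∃ f ∈ M.R, (∀ x ∈ C.erase c, f x = 0) ∧ f c = 1 ∧ ∀ j, f (φ j) = 0
  · obtain ⟨c, hcC, hl⟩ := hq
    exact step_Q hP hM hI (h.sub hcC) (hne c hcC) (lab_del_of h hcC hl) (lab_con h hcC)
  push_neg at hq
  have hex : ∀ c ∈ C, ∃ ρ ∈ M.R, (∀ x ∈ C.erase c, ρ x = 0) ∧ ρ c = 1 ∧
      ((∀ i : Fin k, ρ (φ i.castSucc) = 0) ∨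
        ∃ j : Fin k, ∀ i : Fin k, ρ (φ i.castSucc) = if i = j then 1 else 0) := by
    intro c hcC
    obtain ⟨f, hf, hf1, hf2⟩ := (hq c hcC).1
    exact coext_dich hc hE' hM (lab_init h) hcC ⟨f, hf, hf1, z_ne_zero.1 hf2⟩
  by_cases hj : ∃ c ∈ C, ∃ j : Fin k, j ≠ n ∧ ∃ ρ ∈ M.R, (∀ x ∈ C.erase c, ρ x = 0) ∧ ρ c = 1 ∧
      ∀ i : Fin k, ρ (φ i.castSucc) = if i = j then 1 else 0
  · obtain ⟨c, hcC, j, hjn, ρ, hρ, hρ1, hρ2, hρ3⟩ := hj
    rcases zcases (ρ (φ (Fin.last k))) with h0 | h0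
    · -- a series pair
      have hind : ρ = ind {c, φ j.castSucc} := by
        ext x
        by_cases hx : x ∈ M.S
        · rcases hcover x hx with hxC | ⟨i, rfl⟩
          · by_cases hxc : x = c
            · subst hxc
              rw [hρ2, ind_of_mem (by simp)]
            · rw [hρ1 x (Finset.mem_erase.2 ⟨hxc, hxC⟩), ind_of_notMem]
              rw [Finset.mem_insert, Finset.mem_singleton, not_or]
              exact ⟨hxc, fun h5 => hne x hxC _ h5.symm⟩
          · revert hx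
            refine Fin.lastCases ?_ (fun y => ?_) i
            · intro _
              rw [h0, ind_of_notMem]
              rw [Finset.mem_insert, Finset.mem_singleton, not_or]
              refine ⟨hne c hcC _, fun h5 => ?_⟩
              exact absurd (h.inj h5) (Fin.castSucc_lt_last j).ne'
            · intro _
              rw [hρ3]
              by_cases hy : y = j
              · subst hy
                rw [if_pos rfl, ind_of_mem (by simp)]
              · rw [if_neg hy, ind_of_notMem]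
                rw [Finset.mem_insert, Finset.mem_singleton, not_or]
                refine ⟨hne c hcC _, fun h5 => hy ?_⟩
                exact Fin.castSucc_injective k (h.inj h5)
        · rw [M.supp ρ hρ x hx, ind_of_notMem]
          rw [Finset.mem_insert, Finset.mem_singleton, not_or]
          exact ⟨fun h5 => hx (h5 ▸ h.sub hcC), fun h5 => hx (h5 ▸ h.mem _)⟩
      obtain ⟨X, hX, x1, x2, x3, x4⟩ := hI (M.con {c}) (hP M _ hM (minor_con M {c})) (by
        rw [BM.con_S, Finset.sdiff_singleton_eq_erase]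
        exact Finset.card_erase_lt_of_mem (h.sub hcC)) φ (C.erase c) (lab_con h hcC)
      rw [BM.con_S] at hX
      have hXS : X ⊆ M.S := hX.trans Finset.sdiff_subset
      refine ⟨X, hXS, x1, x2, x3, ?_⟩
      rw [lam_con_series M (h.sub hcC) (h.mem j.castSucc) (hne c hcC _).symm (hind ▸ hρ) hXS
        (fun h5 => by simpa using hX h5) (x3 j hjn)]
      exact x4
    · exfalso
      have hm := swap_ext h hcC hjn hρ hρ1 hρ2 hρ3 h0
      have hcons : Cons rows (fun i => rows i n + rows i j) := by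
        intro a ha
        simp only [mul_add, Finset.sum_add_distrib, ha, add_zero]
      rcases hE M hM _ hcons hm with h5 | ⟨l, h5⟩
      · obtain ⟨i, hi⟩ := hN.sim n j hjn.symm
        exact hi (z_add_eq_zero.1 (h5 i))
      · exact hT M hM n j l hjn.symm h5 (tri_minor h hcC hρ hρ1 hρ2 hρ3 h0)
  · push_neg at hj
    refine ⟨insert (φ n.castSucc) (insert (φ (Fin.last k)) C), ?_, by simp, by simp, ?_, ?_⟩
    · exact Finset.insert_subset (h.mem _) (Finset.insert_subset (h.mem _) h.sub)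
    · intro j hjn h5
      rw [Finset.mem_insert, Finset.mem_insert] at h5
      rcases h5 with h5 | h5 | h5
      · exact hjn (Fin.castSucc_injective k (h.inj h5))
      · exact absurd (h.inj h5) (Fin.castSucc_lt_last j).ne
      · exact h.out _ h5
    · refine lam_fan h.sub (h.mem _) (h.mem _) (h.out _) (h.out _) (par_last h) ?_
      intro c hcC
      obtain ⟨ρ, hρ, hρ1, hρ2, hρ3⟩ := hex c hcC
      refine ⟨ρ, hρ, hρ2, fun x hxc hxa hxb => ?_⟩
      by_cases hx : x ∈ M.S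
      · rcases hcover x hx with hxC | ⟨i, rfl⟩
        · exact hρ1 x (Finset.mem_erase.2 ⟨hxc, hxC⟩)
        · revert hxa hxb
          refine Fin.lastCases ?_ (fun y => ?_) i
          · intro _ hxb
            exact absurd rfl hxb
          · intro hxa _
            rcases hρ3 with h5 | ⟨j, h5⟩
            · exact h5 y
            · by_cases hjn : j = n
              · rw [h5, if_neg]
                rintro rfl
                exact hxa (by rw [hjn])
              · obtain ⟨i, hi⟩ := hj c hcC j hjn ρ hρ hρ1 hρ2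
                exact absurd (h5 i) hi
      · exact M.supp ρ hρ x hx

theorem par_case (hP : ∀ M N : BM E, P M → Minor N M → P N) (hc : Compl rows duals)
    (hN : Nice rows) (hE : EOK rows P) (hE' : EOK duals (fun N : BM E => P N.dual))
    (hT : TOK rows P) (hM : P M) (h : Lab (par rows n) M φ C) : Good n M φ := by
  have key : ∀ m : ℕ, ∀ M : BM E, P M → M.S.card < m → ∀ (φ : Fin (k + 1) → E) (C : Finset E),
      Lab (par rows n) M φ C → Good n M φ := by
    intro m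
    induction m with
    | zero => intro M _ hlt; omega
    | succ m ih =>
      intro M hM hlt φ C h
      have hI : IH rows P n M.S.card := by
        intro M' hM' hlt' φ' C' h'
        exact ih M' hM' (by omega) φ' C' h'
      by_cases hr : rest M φ C = ∅
      · exact step_C hP hc hN hE hE' hT hM hI h hr
      · obtain ⟨d, hd⟩ := Finset.nonempty_iff_ne_empty.2 hr
        exact step_D hP hN hE hM hI h hd
  exact key _ M hM (Nat.lt_succ_self _) φ C h

end SEY.Sp

end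

section

/-!
SP-6 (splitter theorem).  `exists_irr` gives `φ`, `C` with `Lab rows M φ C`, (a) and (b).
By `ext_dich` every `d ∈ rest M φ C` is a loop of the minor with `d` kept, or for some `n` one has
`f d = f (φ n)` for all `f ∈ M.R` with `f|C = 0`.

no_par: in the second case `Lab (par rows n) M (Fin.snoc φ d) C`; `par_case` gives `X` which contains
`φ n`, `d` and no other `φ j`, `M.lam X ≤ 1`; `X` has at least 2 elements and `M.S \ X` at least
`k - 1 ≥ 2`: contradiction to `TC.of_lam_one`.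

By `coext_dich` every `c ∈ C` has a row `ρ` with `ρ|(C.erase c) = 0`, `ρ c = 1`, `ρ ∘ φ = 0` or `1_n`.
In the second case apply `no_par` to `M.dual`, `duals`, `P' = fun N => P N.dual`, `φ`, `rest M φ C` and
`c` (`lab_dual`): for a cycle `z` with `z|D = 0` one has `0 = dot ρ z = z (φ n) + z c`.  (The
hypotheses for `M.dual`: `P' (M.dual)` by `dual_dual`; `P'` is closed under minors by
`minor_dual` below; `EOK rows (fun N => P' N.dual)` is `EOK rows P`.)

So all `d ∈ D` are loops and all `c ∈ C` have `ρ_c ∘ φ = 0`.  Let `I = univ.image φ`.  For `f ∈ M.R`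
the row `f + ∑ c ∈ C, f c • ρ_c` vanishes on `C`, hence on `D`, and agrees with `f` on `I`, so it is
`mask I f`.  So `M.lam I = 0` (`lam_zero_of_mask`) and `I = M.S` (`TC.of_lam_zero`), `C = ∅`, `D = ∅`:
`IsIso rows M`.
-/

namespace SEY.Sp

open Finset BM

variable {E : Type} [Fintype E] [DecidableEq E] {r s k : ℕ} {rows : Fin r → Fin k → ZMod 2}
  {duals : Fin s → Fin k → ZMod 2} {M : BM E} {P : BM E → Prop} {φ : Fin k → E} {C : Finset E}

theorem minor_dual {M N : BM E} (h : Minor N M) : Minor N.dual M.dual := Minor.dual h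

theorem SpSplit_lab (h : Lab rows M φ C) {d : E} (hd : d ∈ rest M φ C) (n : Fin k)
    (hp : ∀ f ∈ M.R, (∀ c ∈ C, f c = 0) → f d = f (φ n)) :
    Lab (par rows n) M (Fin.snoc (α := fun _ => E) φ d) C := by
  rw [mem_rest] at hd
  obtain ⟨hdS, hdC, hdφ⟩ := hd
  refine ⟨?_, ?_, h.sub, ?_, ?_, ?_⟩
  · intro a b hab
    induction a using Fin.lastCases with
    | last =>
      induction b using Fin.lastCases with
      | last => rfl
      | cast j =>
        rw [Fin.snoc_last, Fin.snoc_castSucc] at hab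
        exact absurd hab.symm (hdφ j)
    | cast i =>
      induction b using Fin.lastCases with
      | last =>
        rw [Fin.snoc_last, Fin.snoc_castSucc] at hab
        exact absurd hab (hdφ i)
      | cast j =>
        rw [Fin.snoc_castSucc, Fin.snoc_castSucc] at hab
        rw [h.inj hab]
  · intro i
    induction i using Fin.lastCases with
    | last => rw [Fin.snoc_last]; exact hdS
    | cast i => rw [Fin.snoc_castSucc]; exact h.mem i
  · intro i
    induction i using Fin.lastCases with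
    | last => rw [Fin.snoc_last]; exact hdC
    | cast i => rw [Fin.snoc_castSucc]; exact h.out i
  · intro i
    obtain ⟨f, hf, hfC, hfφ⟩ := h.r1 i
    refine ⟨f, hf, hfC, ?_⟩
    intro j
    unfold par ext
    induction j using Fin.lastCases with
    | last => rw [Fin.snoc_last, Fin.snoc_last, hp f hf hfC, hfφ]
    | cast j => rw [Fin.snoc_castSucc, Fin.snoc_castSucc, hfφ]
  · intro f hf hfC
    obtain ⟨a, ha⟩ := h.r2 f hf hfC
    refine ⟨a, ?_⟩
    intro j
    unfold par ext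
    induction j using Fin.lastCases with
    | last =>
      rw [Fin.snoc_last, hp f hf hfC, ha]
      exact Finset.sum_congr rfl (fun i _ => by rw [Fin.snoc_last])
    | cast j =>
      rw [Fin.snoc_castSucc, ha]
      exact Finset.sum_congr rfl (fun i _ => by rw [Fin.snoc_castSucc])

theorem no_par (hP : ∀ M N : BM E, P M → Minor N M → P N) (hc : Compl rows duals)
    (hN : Nice rows) (hE : EOK rows P) (hE' : EOK duals (fun N : BM E => P N.dual))
    (hT : TOK rows P) (hk : 3 ≤ k) (hTC : M.TC) (hM : P M) (h : Lab rows M φ C) {d : E}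
    (hd : d ∈ rest M φ C) (n : Fin k) :
    ¬ ∀ f ∈ M.R, (∀ c ∈ C, f c = 0) → f d = f (φ n) := by
  intro hp
  have hL := SpSplit_lab h hd n hp
  obtain ⟨X, hXS, hX1, hX2, hX3, hX4⟩ := par_case hP hc hN hE hE' hT hM hL
  rw [Fin.snoc_castSucc] at hX1
  rw [Fin.snoc_last] at hX2
  rw [mem_rest] at hd
  obtain ⟨hdS, hdC, hdφ⟩ := hd
  rcases hTC.of_lam_one hXS hX4 with h1 | h1
  · have h2 : ({φ n, d} : Finset E) ⊆ X := by
      intro x hx
      rw [Finset.mem_insert, Finset.mem_singleton] at hx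
      rcases hx with rfl | rfl
      · exact hX1
      · exact hX2
    have h3 := Finset.card_le_card h2
    rw [Finset.card_pair (hdφ n)] at h3
    omega
  · have h2 : (univ.erase n).image φ ⊆ M.S \ X := by
      intro x hx
      rw [Finset.mem_image] at hx
      obtain ⟨j, hj, rfl⟩ := hx
      rw [Finset.mem_erase] at hj
      rw [Finset.mem_sdiff]
      refine ⟨h.mem j, ?_⟩
      have h4 := hX3 j hj.1
      rwa [Fin.snoc_castSucc] at h4
    have h3 := Finset.card_le_card h2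
    rw [Finset.card_image_of_injective _ h.inj, Finset.card_erase_of_mem (Finset.mem_univ n),
      Finset.card_univ, Fintype.card_fin] at h3
    omega

theorem lam_image (h : Lab rows M φ C)
    (h1 : ∀ d ∈ rest M φ C, ∀ f ∈ M.R, (∀ c ∈ C, f c = 0) → f d = 0)
    (h2 : ∀ c ∈ C, ∃ ρ ∈ M.R, (∀ x ∈ C.erase c, ρ x = 0) ∧ ρ c = 1 ∧ ∀ i, ρ (φ i) = 0) :
    M.lam (univ.image φ) = 0 := by
  have hI : univ.image φ ⊆ M.S := by
    intro x hx
    rw [Finset.mem_image] at hx
    obtain ⟨i, -, rfl⟩ := hx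
    exact h.mem i
  apply lam_zero_of_mask M hI
  intro f hf
  choose! ρ hρR hρ0 hρ1 hρφ using h2
  have hgR : f + ∑ c ∈ C, f c • ρ c ∈ M.R :=
    M.R.add_mem hf (M.R.sum_mem (fun c hc => M.R.smul_mem _ (hρR c hc)))
  have hval : ∀ e, (f + ∑ c ∈ C, f c • ρ c) e = f e + ∑ c ∈ C, f c * ρ c e := by
    intro e
    rw [Pi.add_apply, Finset.sum_apply]
    rfl
  have hgC : ∀ c ∈ C, (f + ∑ c ∈ C, f c • ρ c) c = 0 := by
    intro c hc
    rw [hval, Finset.sum_eq_single_of_mem c hc, hρ1 c hc, mul_one, z_add_self]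
    intro b hb hbc
    rw [hρ0 b hb c (Finset.mem_erase.2 ⟨hbc.symm, hc⟩), mul_zero]
  have hgφ : ∀ i, (f + ∑ c ∈ C, f c • ρ c) (φ i) = f (φ i) := by
    intro i
    rw [hval, Finset.sum_eq_zero, add_zero]
    intro c hc
    rw [hρφ c hc i, mul_zero]
  have hmask : mask (univ.image φ) f = f + ∑ c ∈ C, f c • ρ c := by
    funext e
    rw [mask_apply]
    by_cases he : e ∈ univ.image φ
    · rw [if_pos he]
      rw [Finset.mem_image] at he
      obtain ⟨i, -, rfl⟩ := he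
      exact (hgφ i).symm
    · rw [if_neg he]
      symm
      by_cases heC : e ∈ C
      · exact hgC e heC
      · by_cases heS : e ∈ M.S
        · apply h1 e _ _ hgR hgC
          rw [mem_rest]
          refine ⟨heS, heC, fun i hi => he ?_⟩
          rw [Finset.mem_image]
          exact ⟨i, Finset.mem_univ i, hi⟩
        · exact M.supp _ hgR e heS
  rw [hmask]
  exact hgR

theorem splitter (hP : ∀ M N : BM E, P M → Minor N M → P N) (hc : Compl rows duals)
    (hN : Nice rows) (hN' : Nice duals) (hE : EOK rows P)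
    (hE' : EOK duals (fun N : BM E => P N.dual)) (hT : TOK rows P)
    (hT' : TOK duals (fun N : BM E => P N.dual)) (hk : 3 ≤ k) (hTC : M.TC) (hM : P M)
    (h : HasMinor rows M) : IsIso rows M := by
  obtain ⟨φ, C0, h0⟩ := hasMinor_iff.1 h
  obtain ⟨C, hL, ha, hb⟩ := exists_irr h0
  have h1 : ∀ d ∈ rest M φ C, ∀ f ∈ M.R, (∀ c ∈ C, f c = 0) → f d = 0 := by
    intro d hd
    have hd2 := mem_rest.1 hd
    rcases ext_dich hE hM hL hd2.1 hd2.2.1 hd2.2.2 (hb d hd) with h3 | ⟨j, h3⟩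
    · exact h3
    · exact absurd h3 (no_par hP hc hN hE hE' hT hk hTC hM hL hd j)
  have h2 : ∀ c ∈ C, ∃ ρ ∈ M.R, (∀ x ∈ C.erase c, ρ x = 0) ∧ ρ c = 1 ∧
      ∀ i, ρ (φ i) = 0 := by
    intro c hcC
    obtain ⟨ρ, hρ, hρ0, hρ1, h3 | ⟨j, h3⟩⟩ := coext_dich hc hE' hM hL hcC (ha c hcC)
    · exact ⟨ρ, hρ, hρ0, hρ1, h3⟩
    · exfalso
      have hE2 : EOK rows (fun N : BM E => P N.dual.dual) := by
        have h4 : (fun N : BM E => P N.dual.dual) = P := by
          funext N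
          rw [BM.dual_dual]
        rw [h4]
        exact hE
      have hM2 : P M.dual.dual := by
        rw [BM.dual_dual]
        exact hM
      have hcr : c ∈ rest M.dual φ (rest M φ C) := by
        rw [rest_rest hL]
        exact hcC
      refine no_par (P := fun N : BM E => P N.dual) (fun M N h5 h6 => hP _ _ h5 (minor_dual h6))
        hc.symm hN' hE' hE2 hT' hk hTC.dual hM2 (lab_dual hc hL) hcr j ?_
      intro z hz hzr
      rw [BM.dual_R] at hz
      have h5 : dot ρ z = 0 := M.dot_eq_zero hρ hz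
      have hcj : φ j ≠ c := fun h6 => hL.out j (h6 ▸ hcC)
      have h6 : ∀ e, ρ e * z e = (if e = c then z c else 0) + (if e = φ j then z (φ j) else 0) := by
        intro e
        by_cases he : e = c
        · subst he
          rw [if_pos rfl, if_neg hcj.symm, hρ1, one_mul, add_zero]
        · rw [if_neg he, zero_add]
          by_cases he2 : e = φ j
          · subst he2
            rw [if_pos rfl, h3 j, if_pos rfl, one_mul]
          · rw [if_neg he2]
            by_cases heC : e ∈ C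
            · rw [hρ0 e (Finset.mem_erase.2 ⟨he, heC⟩), zero_mul]
            · by_cases heS : e ∈ M.S
              · by_cases heI : ∃ i, φ i = e
                · obtain ⟨i, rfl⟩ := heI
                  rw [h3 i, if_neg (fun h7 => he2 (by rw [h7])), zero_mul]
                · rw [hzr e (mem_rest.2 ⟨heS, heC, fun i hi => heI ⟨i, hi⟩⟩), mul_zero]
              · rw [M.Z_supp hz heS, mul_zero]
      have h7 : dot ρ z = z c + z (φ j) := by
        unfold dot
        rw [Finset.sum_congr rfl (fun e _ => h6 e), Finset.sum_add_distrib,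
          Finset.sum_ite_eq' Finset.univ c (fun _ => z c),
          Finset.sum_ite_eq' Finset.univ (φ j) (fun _ => z (φ j)),
          if_pos (Finset.mem_univ _), if_pos (Finset.mem_univ _)]
      rw [h7] at h5
      exact z_add_eq_zero.1 h5
  have hlam := lam_image hL h1 h2
  have hI : univ.image φ ⊆ M.S := by
    intro x hx
    rw [Finset.mem_image] at hx
    obtain ⟨i, -, rfl⟩ := hx
    exact hL.mem i
  have hIS : univ.image φ = M.S := by
    rcases hTC.of_lam_zero hI hlam with h3 | h3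
    · exfalso
      have h4 : φ ⟨0, by (clear * - M hk φ; omega)⟩ ∈ univ.image φ := Finset.mem_image_of_mem _ (Finset.mem_univ _)
      rw [h3] at h4
      simp at h4
    · exact h3
  have hC : C = ∅ := by
    rw [Finset.eq_empty_iff_forall_notMem]
    intro c hcC
    have h3 := hL.sub hcC
    rw [← hIS, Finset.mem_image] at h3
    obtain ⟨i, -, rfl⟩ := h3
    exact hL.out i hcC
  subst hC
  refine ⟨φ, hL.inj, ?_, ?_, ?_⟩
  · intro e
    rw [← hIS, Finset.mem_image]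
    constructor
    · rintro ⟨i, -, hi⟩
      exact ⟨i, hi⟩
    · rintro ⟨i, hi⟩
      exact ⟨i, Finset.mem_univ i, hi⟩
  · intro i
    obtain ⟨f, hf, -, hfφ⟩ := hL.r1 i
    exact ⟨f, hf, hfφ⟩
  · intro f hf
    exact hL.r2 f hf (by simp)

end SEY.Sp

end

section

/-!
Splitter check: the one-element extensions of `R10` have a Fano minor.  The tables are computer generated certificates (`BM.HasMinor.of_finCert`).
-/

namespace SEY.Sp

open Finset BM

def r10V : Fin 21 → Fin 5 → ZMod 2 :=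
  ![![0, 0, 0, 1, 1],
    ![0, 0, 1, 0, 1],
    ![0, 0, 1, 1, 0],
    ![0, 1, 0, 0, 1],
    ![0, 1, 0, 1, 0],
    ![0, 1, 0, 1, 1],
    ![0, 1, 1, 0, 0],
    ![0, 1, 1, 0, 1],
    ![0, 1, 1, 1, 1],
    ![1, 0, 0, 0, 1],
    ![1, 0, 0, 1, 0],
    ![1, 0, 1, 0, 0],
    ![1, 0, 1, 0, 1],
    ![1, 0, 1, 1, 0],
    ![1, 0, 1, 1, 1],
    ![1, 1, 0, 0, 0],
    ![1, 1, 0, 1, 0],
    ![1, 1, 0, 1, 1],
    ![1, 1, 1, 0, 1],
    ![1, 1, 1, 1, 0],
    ![1, 1, 1, 1, 1]]

def r10Ph : Fin 21 → Fin 7 → Fin 11 :=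
  ![![2, 4, 7, 6, 9, 8, 10],
    ![3, 5, 6, 9, 7, 10, 8],
    ![2, 3, 4, 10, 6, 9, 8],
    ![0, 5, 6, 10, 7, 8, 9],
    ![2, 5, 7, 6, 10, 8, 9],
    ![3, 4, 5, 9, 10, 6, 7],
    ![1, 3, 6, 9, 10, 8, 7],
    ![3, 5, 6, 9, 7, 10, 8],
    ![3, 4, 5, 9, 10, 6, 7],
    ![1, 3, 5, 7, 10, 8, 9],
    ![4, 5, 7, 6, 8, 9, 10],
    ![1, 5, 6, 9, 10, 8, 7],
    ![3, 5, 6, 9, 7, 10, 8],
    ![2, 3, 4, 10, 6, 9, 8],
    ![0, 4, 6, 9, 7, 10, 8],
    ![2, 4, 5, 8, 9, 10, 6],
    ![2, 5, 7, 6, 10, 8, 9],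
    ![3, 4, 5, 9, 10, 6, 7],
    ![3, 5, 6, 9, 7, 10, 8],
    ![4, 5, 7, 6, 8, 9, 10],
    ![3, 4, 5, 9, 10, 6, 7]]

def r10C : Fin 21 → Finset (Fin 11) :=
  ![{1, 5},
    {0, 1},
    {0, 5},
    {2, 3},
    {0, 4},
    {0, 2},
    {4, 5},
    {0, 1},
    {0, 2},
    {2, 6},
    {1, 2},
    {3, 4},
    {0, 1},
    {0, 5},
    {1, 3},
    {3, 7},
    {0, 4},
    {0, 2},
    {0, 1},
    {1, 2},
    {0, 2}]

def r10A : Fin 21 → Fin 3 → Fin 5 → ZMod 2 :=
  ![![![0, 0, 1, 1, 0], ![1, 0, 0, 0, 1], ![0, 0, 0, 1, 0]],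
    ![![0, 0, 0, 1, 0], ![0, 0, 0, 0, 1], ![0, 0, 1, 0, 0]],
    ![![0, 0, 1, 0, 0], ![0, 0, 0, 1, 0], ![0, 1, 0, 0, 1]],
    ![![1, 1, 0, 0, 0], ![0, 0, 0, 0, 1], ![0, 1, 0, 0, 1]],
    ![![0, 0, 1, 1, 0], ![0, 1, 0, 1, 0], ![0, 0, 0, 1, 0]],
    ![![0, 0, 0, 1, 0], ![0, 1, 0, 0, 1], ![0, 1, 0, 0, 0]],
    ![![1, 1, 0, 0, 0], ![0, 0, 0, 1, 0], ![0, 0, 1, 0, 0]],
    ![![0, 0, 0, 1, 0], ![0, 0, 0, 0, 1], ![0, 0, 1, 0, 0]],
    ![![0, 0, 0, 1, 0], ![0, 1, 0, 0, 1], ![0, 1, 0, 0, 0]],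
    ![![1, 1, 0, 0, 0], ![0, 0, 0, 1, 0], ![0, 0, 0, 0, 1]],
    ![![1, 0, 0, 0, 1], ![1, 0, 0, 0, 0], ![0, 0, 0, 1, 0]],
    ![![1, 1, 0, 0, 0], ![1, 0, 1, 0, 0], ![0, 0, 1, 0, 0]],
    ![![0, 0, 0, 1, 0], ![0, 0, 0, 0, 1], ![0, 0, 1, 0, 0]],
    ![![0, 0, 1, 0, 0], ![0, 0, 0, 1, 0], ![0, 1, 0, 0, 1]],
    ![![1, 0, 1, 0, 0], ![0, 0, 0, 0, 1], ![0, 0, 1, 0, 0]],
    ![![1, 1, 1, 0, 0], ![1, 0, 0, 0, 1], ![1, 0, 0, 0, 0]],
    ![![0, 0, 1, 1, 0], ![0, 1, 0, 1, 0], ![0, 0, 0, 1, 0]],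
    ![![0, 0, 0, 1, 0], ![0, 1, 0, 0, 1], ![0, 1, 0, 0, 0]],
    ![![0, 0, 0, 1, 0], ![0, 0, 0, 0, 1], ![0, 0, 1, 0, 0]],
    ![![1, 0, 0, 0, 1], ![1, 0, 0, 0, 0], ![0, 0, 0, 1, 0]],
    ![![0, 0, 0, 1, 0], ![0, 1, 0, 0, 1], ![0, 1, 0, 0, 0]]]

def r10Z : Fin 21 → Fin 4 → Fin 11 → ZMod 2 :=
  ![![![0, 0, 1, 0, 1, 1, 1, 0, 0, 0, 0], ![0, 0, 1, 0, 0, 1, 0, 1, 0, 1, 0], ![0, 1, 0, 0, 1, 0, 0, 1, 1, 0, 0], ![0, 1, 1, 0, 1, 0, 0, 1, 0, 0, 1]],
    ![![0, 1, 0, 1, 0, 1, 0, 0, 0, 1, 0], ![1, 0, 0, 1, 0, 0, 1, 1, 0, 0, 0], ![0, 0, 0, 0, 0, 1, 1, 0, 0, 0, 1], ![0, 0, 0, 1, 0, 1, 1, 0, 1, 0, 0]],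
    ![![0, 0, 1, 1, 0, 0, 0, 0, 0, 0, 1], ![0, 0, 1, 0, 1, 1, 1, 0, 0, 0, 0], ![1, 0, 0, 1, 1, 0, 0, 0, 0, 1, 0], ![0, 0, 1, 1, 1, 0, 0, 0, 1, 0, 0]],
    ![![1, 0, 0, 0, 0, 1, 0, 0, 0, 0, 1], ![1, 0, 0, 1, 0, 0, 1, 1, 0, 0, 0], ![0, 0, 0, 1, 0, 1, 1, 0, 1, 0, 0], ![1, 0, 1, 1, 0, 1, 1, 0, 0, 1, 0]],
    ![![0, 0, 1, 0, 1, 1, 1, 0, 0, 0, 0], ![0, 0, 1, 0, 0, 0, 0, 1, 0, 0, 1], ![1, 0, 0, 0, 0, 1, 0, 1, 1, 0, 0], ![0, 0, 1, 0, 0, 1, 0, 1, 0, 1, 0]],
    ![![1, 0, 0, 1, 1, 0, 0, 0, 0, 1, 0], ![1, 0, 0, 1, 0, 1, 0, 0, 0, 0, 1], ![0, 0, 1, 0, 1, 1, 1, 0, 0, 0, 0], ![1, 0, 1, 1, 1, 1, 0, 1, 0, 0, 0]],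
    ![![0, 1, 0, 1, 0, 1, 0, 0, 0, 1, 0], ![0, 1, 0, 0, 1, 1, 1, 0, 0, 0, 1], ![0, 0, 0, 1, 0, 1, 1, 0, 1, 0, 0], ![0, 1, 0, 1, 1, 1, 1, 1, 0, 0, 0]],
    ![![0, 1, 0, 1, 0, 1, 0, 0, 0, 1, 0], ![1, 0, 0, 1, 0, 0, 1, 1, 0, 0, 0], ![0, 1, 0, 0, 0, 1, 1, 0, 0, 0, 1], ![0, 0, 0, 1, 0, 1, 1, 0, 1, 0, 0]],
    ![![1, 0, 0, 1, 1, 0, 0, 0, 0, 1, 0], ![1, 0, 1, 1, 0, 1, 0, 0, 0, 0, 1], ![0, 0, 1, 0, 1, 1, 1, 0, 0, 0, 0], ![1, 0, 1, 1, 1, 1, 0, 1, 0, 0, 0]],
    ![![0, 1, 1, 1, 0, 0, 0, 1, 0, 0, 0], ![0, 1, 0, 0, 0, 1, 0, 0, 0, 0, 1], ![0, 0, 0, 1, 0, 1, 1, 0, 1, 0, 0], ![0, 1, 0, 1, 0, 1, 0, 0, 0, 1, 0]],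
    ![![0, 0, 1, 0, 1, 1, 1, 0, 0, 0, 0], ![0, 1, 0, 0, 1, 0, 0, 1, 1, 0, 0], ![0, 0, 1, 0, 0, 1, 0, 1, 0, 1, 0], ![0, 0, 1, 0, 1, 1, 0, 1, 0, 0, 1]],
    ![![0, 1, 0, 1, 0, 1, 0, 0, 0, 1, 0], ![0, 1, 0, 0, 0, 0, 1, 0, 0, 0, 1], ![0, 0, 0, 1, 0, 1, 1, 0, 1, 0, 0], ![0, 1, 0, 1, 1, 1, 1, 1, 0, 0, 0]],
    ![![0, 1, 0, 1, 0, 1, 0, 0, 0, 1, 0], ![1, 0, 0, 1, 0, 0, 1, 1, 0, 0, 0], ![1, 0, 0, 0, 0, 1, 1, 0, 0, 0, 1], ![0, 0, 0, 1, 0, 1, 1, 0, 1, 0, 0]],
    ![![1, 0, 1, 1, 0, 0, 0, 0, 0, 0, 1], ![0, 0, 1, 0, 1, 1, 1, 0, 0, 0, 0], ![1, 0, 0, 1, 1, 0, 0, 0, 0, 1, 0], ![0, 0, 1, 1, 1, 0, 0, 0, 1, 0, 0]],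
    ![![1, 0, 0, 1, 1, 0, 0, 0, 0, 1, 0], ![1, 0, 0, 1, 0, 0, 1, 1, 0, 0, 0], ![0, 1, 0, 1, 1, 0, 1, 0, 0, 0, 1], ![1, 1, 0, 1, 1, 0, 1, 0, 1, 0, 0]],
    ![![0, 0, 1, 1, 1, 0, 0, 0, 1, 0, 0], ![0, 0, 1, 0, 0, 1, 0, 1, 0, 1, 0], ![0, 0, 0, 0, 1, 1, 0, 0, 0, 0, 1], ![0, 0, 1, 0, 1, 1, 1, 0, 0, 0, 0]],
    ![![0, 0, 1, 0, 1, 1, 1, 0, 0, 0, 0], ![1, 0, 1, 0, 0, 0, 0, 1, 0, 0, 1], ![1, 0, 0, 0, 0, 1, 0, 1, 1, 0, 0], ![0, 0, 1, 0, 0, 1, 0, 1, 0, 1, 0]],
    ![![1, 0, 0, 1, 1, 0, 0, 0, 0, 1, 0], ![0, 0, 0, 1, 0, 1, 0, 0, 0, 0, 1], ![0, 0, 1, 0, 1, 1, 1, 0, 0, 0, 0], ![1, 0, 1, 1, 1, 1, 0, 1, 0, 0, 0]],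
    ![![0, 1, 0, 1, 0, 1, 0, 0, 0, 1, 0], ![1, 0, 0, 1, 0, 0, 1, 1, 0, 0, 0], ![1, 1, 0, 0, 0, 1, 1, 0, 0, 0, 1], ![0, 0, 0, 1, 0, 1, 1, 0, 1, 0, 0]],
    ![![0, 0, 1, 0, 1, 1, 1, 0, 0, 0, 0], ![0, 1, 0, 0, 1, 0, 0, 1, 1, 0, 0], ![0, 0, 1, 0, 0, 1, 0, 1, 0, 1, 0], ![0, 1, 0, 0, 1, 1, 0, 1, 0, 0, 1]],
    ![![1, 0, 0, 1, 1, 0, 0, 0, 0, 1, 0], ![0, 0, 1, 1, 0, 1, 0, 0, 0, 0, 1], ![0, 0, 1, 0, 1, 1, 1, 0, 0, 0, 0], ![1, 0, 1, 1, 1, 1, 0, 1, 0, 0, 0]]]

theorem r10ok : ∀ i : Fin 21, FinCert F7 F7s (ext R10 (r10V i)) (r10Ph i)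
    (r10C i) (r10A i) (r10Z i) := by
  decide +kernel

theorem r10cov : ∀ v : Fin 5 → ZMod 2, (∀ i, v i = 0) ∨ (∃ j, ∀ i, v i = R10 i j) ∨
    ∃ i, v = r10V i := by
  decide +kernel

theorem eok_R10 {E : Type} [Fintype E] [DecidableEq E] :
    EOK R10 (fun M : BM E => NoF M) := by
  intro M hM v _ h
  rcases r10cov v with h1 | h1 | ⟨i, rfl⟩
  · exact Or.inl h1
  · exact Or.inr h1
  · exact absurd (h.of_finCert compl_F7 (r10ok i)) hM.1

end SEY.Sp

end

section

/-!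
Splitter check: the one-element extensions of `K5` have a Fano minor.  The tables are computer generated certificates (`BM.HasMinor.of_finCert`).
-/

namespace SEY.Sp

open Finset BM

def k5V : Fin 5 → Fin 5 → ZMod 2 :=
  ![![0, 1, 1, 1, 1],
    ![1, 0, 1, 1, 1],
    ![1, 1, 0, 1, 1],
    ![1, 1, 1, 0, 1],
    ![1, 1, 1, 1, 0]]

def k5Ph : Fin 5 → Fin 7 → Fin 11 :=
  ![![4, 5, 6, 7, 8, 9, 10],
    ![4, 5, 6, 7, 8, 9, 10],
    ![4, 5, 6, 7, 8, 9, 10],
    ![4, 5, 6, 7, 8, 9, 10],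
    ![4, 5, 6, 7, 8, 9, 10]]

def k5C : Fin 5 → Finset (Fin 11) :=
  ![{0},
    {0},
    {1},
    {2},
    {3}]

def k5A : Fin 5 → Fin 3 → Fin 5 → ZMod 2 :=
  ![![![0, 0, 1, 0, 0], ![0, 0, 0, 1, 0], ![1, 1, 1, 1, 0]],
    ![![0, 0, 1, 0, 0], ![0, 0, 0, 1, 0], ![1, 1, 1, 1, 0]],
    ![![1, 0, 1, 0, 0], ![0, 0, 0, 1, 0], ![1, 1, 1, 1, 0]],
    ![![0, 0, 1, 0, 0], ![1, 0, 0, 1, 0], ![1, 1, 1, 1, 0]],
    ![![0, 0, 1, 0, 0], ![0, 0, 0, 1, 0], ![0, 1, 1, 1, 0]]]

def k5Z : Fin 5 → Fin 4 → Fin 11 → ZMod 2 :=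
  ![![![0, 0, 0, 0, 1, 1, 0, 1, 0, 0, 0], ![0, 0, 0, 0, 1, 0, 1, 0, 1, 0, 0], ![0, 0, 0, 0, 0, 1, 1, 0, 0, 1, 0], ![0, 0, 0, 0, 1, 1, 1, 0, 0, 0, 1]],
    ![![0, 0, 0, 0, 1, 1, 0, 1, 0, 0, 0], ![0, 0, 0, 0, 1, 0, 1, 0, 1, 0, 0], ![0, 0, 0, 0, 0, 1, 1, 0, 0, 1, 0], ![1, 0, 0, 0, 1, 1, 1, 0, 0, 0, 1]],
    ![![0, 0, 0, 0, 1, 1, 0, 1, 0, 0, 0], ![0, 0, 0, 0, 1, 0, 1, 0, 1, 0, 0], ![0, 0, 0, 0, 0, 1, 1, 0, 0, 1, 0], ![0, 1, 0, 0, 1, 1, 1, 0, 0, 0, 1]],
    ![![0, 0, 0, 0, 1, 1, 0, 1, 0, 0, 0], ![0, 0, 0, 0, 1, 0, 1, 0, 1, 0, 0], ![0, 0, 0, 0, 0, 1, 1, 0, 0, 1, 0], ![0, 0, 1, 0, 1, 1, 1, 0, 0, 0, 1]],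
    ![![0, 0, 0, 0, 1, 1, 0, 1, 0, 0, 0], ![0, 0, 0, 0, 1, 0, 1, 0, 1, 0, 0], ![0, 0, 0, 0, 0, 1, 1, 0, 0, 1, 0], ![0, 0, 0, 1, 1, 1, 1, 0, 0, 0, 1]]]

theorem k5ok : ∀ i : Fin 5, FinCert F7 F7s (ext K5 (k5V i)) (k5Ph i)
    (k5C i) (k5A i) (k5Z i) := by
  decide +kernel

theorem k5cov : ∀ v : Fin 5 → ZMod 2, ∑ i, v i = 0 → (∀ i, v i = 0) ∨
    (∃ j, ∀ i, v i = K5 i j) ∨ ∃ i, v = k5V i := by
  decide +kernel

theorem eok_K5 {E : Type} [Fintype E] [DecidableEq E] :
    EOK K5 (fun M : BM E => NoF M ∧ ¬ HasMinor K33 M) := by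
  intro M hM v hv h
  have h0 : ∑ i, v i = 0 := by
    have := hv (fun _ => 1) (by decide)
    simpa using this
  rcases k5cov v h0 with h1 | h1 | ⟨i, rfl⟩
  · exact Or.inl h1
  · exact Or.inr h1
  · exact absurd (h.of_finCert compl_F7 (k5ok i)) hM.1.1

end SEY.Sp

end
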