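import Pool.Agent.Helper29.MFA.T41

section

/-!
Splitter check: the one-element extensions of `K5s` have a minor `F7` or `K33s`.  The tables are computer generated certificates (`BM.HasMinor.of_finCert`).
-/

namespace SEY.Sp

open Finset BM

def k5aV : Fin 38 → Fin 6 → ZMod 2 :=
  ![![0, 0, 0, 1, 1, 1],
    ![0, 0, 1, 1, 0, 0],
    ![0, 0, 1, 1, 0, 1],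
    ![0, 0, 1, 1, 1, 0],
    ![0, 0, 1, 1, 1, 1],
    ![0, 1, 0, 0, 1, 0],
    ![0, 1, 0, 0, 1, 1],
    ![0, 1, 0, 1, 1, 0],
    ![0, 1, 0, 1, 1, 1],
    ![0, 1, 1, 0, 0, 1],
    ![0, 1, 1, 0, 1, 0],
    ![0, 1, 1, 0, 1, 1],
    ![0, 1, 1, 1, 0, 0],
    ![0, 1, 1, 1, 0, 1],
    ![0, 1, 1, 1, 1, 1],
    ![1, 0, 0, 0, 0, 1],
    ![1, 0, 0, 0, 1, 1],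
    ![1, 0, 0, 1, 0, 1],
    ![1, 0, 0, 1, 1, 1],
    ![1, 0, 1, 0, 0, 1],
    ![1, 0, 1, 0, 1, 0],
    ![1, 0, 1, 0, 1, 1],
    ![1, 0, 1, 1, 0, 0],
    ![1, 0, 1, 1, 1, 0],
    ![1, 0, 1, 1, 1, 1],
    ![1, 1, 0, 0, 0, 1],
    ![1, 1, 0, 0, 1, 0],
    ![1, 1, 0, 1, 0, 0],
    ![1, 1, 0, 1, 0, 1],
    ![1, 1, 0, 1, 1, 0],
    ![1, 1, 0, 1, 1, 1],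
    ![1, 1, 1, 0, 0, 1],
    ![1, 1, 1, 0, 1, 0],
    ![1, 1, 1, 0, 1, 1],
    ![1, 1, 1, 1, 0, 0],
    ![1, 1, 1, 1, 0, 1],
    ![1, 1, 1, 1, 1, 0],
    ![1, 1, 1, 1, 1, 1]]

def k5aPh : Fin 38 → Fin 7 → Fin 11 :=
  ![![4, 5, 7, 6, 8, 9, 10],
    ![4, 5, 7, 6, 8, 9, 10],
    ![3, 4, 5, 10, 7, 6, 8],
    ![3, 4, 5, 7, 10, 6, 9],
    ![1, 2, 7, 3, 8, 9, 10],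
    ![4, 5, 7, 6, 8, 9, 10],
    ![3, 4, 5, 10, 7, 6, 8],
    ![2, 4, 5, 8, 9, 6, 10],
    ![1, 2, 7, 3, 8, 9, 10],
    ![4, 5, 7, 6, 8, 9, 10],
    ![3, 4, 7, 5, 10, 8, 9],
    ![3, 4, 5, 7, 10, 6, 9],
    ![2, 4, 7, 6, 9, 8, 10],
    ![2, 4, 5, 8, 9, 6, 10],
    ![1, 2, 7, 3, 8, 9, 10],
    ![4, 5, 7, 6, 8, 9, 10],
    ![3, 4, 5, 7, 10, 6, 9],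
    ![2, 4, 5, 8, 9, 6, 10],
    ![1, 2, 7, 3, 8, 9, 10],
    ![3, 4, 7, 5, 10, 8, 9],
    ![4, 5, 7, 6, 8, 9, 10],
    ![3, 4, 5, 10, 7, 6, 8],
    ![1, 5, 7, 6, 8, 9, 10],
    ![2, 4, 5, 8, 9, 6, 10],
    ![1, 2, 7, 3, 8, 9, 10],
    ![2, 4, 7, 6, 9, 8, 10],
    ![1, 5, 7, 6, 8, 9, 10],
    ![4, 5, 7, 6, 8, 9, 10],
    ![3, 4, 5, 10, 7, 6, 8],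
    ![3, 4, 5, 7, 10, 6, 9],
    ![1, 2, 7, 3, 8, 9, 10],
    ![0, 2, 5, 3, 6, 9, 10],
    ![2, 4, 7, 6, 9, 8, 10],
    ![0, 2, 5, 3, 6, 9, 10],
    ![3, 4, 7, 5, 10, 8, 9],
    ![0, 2, 5, 3, 6, 9, 10],
    ![0, 1, 4, 3, 6, 8, 10],
    ![4, 5, 7, 6, 8, 9, 10]]

def k5aC : Fin 38 → Finset (Fin 11) :=
  ![{0, 1, 2},
    {0, 1, 2},
    {0, 1, 9},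
    {0, 2, 8},
    {0, 4, 5},
    {0, 1, 2},
    {0, 1, 9},
    {0, 3, 7},
    {0, 4, 5},
    {0, 1, 2},
    {1, 2, 6},
    {0, 2, 8},
    {1, 3, 5},
    {0, 3, 7},
    {0, 4, 5},
    {0, 1, 2},
    {0, 2, 8},
    {0, 3, 7},
    {0, 4, 5},
    {1, 2, 6},
    {0, 1, 2},
    {0, 1, 9},
    {2, 3, 4},
    {0, 3, 7},
    {0, 4, 5},
    {1, 3, 5},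
    {2, 3, 4},
    {0, 1, 2},
    {0, 1, 9},
    {0, 2, 8},
    {0, 4, 5},
    {1, 4, 7},
    {1, 3, 5},
    {1, 4, 7},
    {1, 2, 6},
    {1, 4, 7},
    {2, 5, 7},
    {0, 1, 2}]

def k5aA : Fin 38 → Fin 3 → Fin 6 → ZMod 2 :=
  ![![![1, 0, 1, 0, 1, 0], ![0, 1, 1, 0, 0, 1], ![0, 0, 0, 1, 1, 1]],
    ![![1, 0, 1, 0, 1, 0], ![0, 1, 1, 0, 0, 1], ![0, 0, 0, 1, 1, 1]],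
    ![![0, 0, 0, 1, 1, 0], ![1, 0, 1, 0, 1, 0], ![0, 1, 1, 1, 1, 0]],
    ![![0, 0, 0, 1, 0, 1], ![1, 0, 1, 1, 0, 1], ![0, 1, 1, 0, 0, 1]],
    ![![0, 0, 0, 0, 1, 0], ![0, 0, 0, 0, 0, 1], ![0, 0, 0, 1, 1, 1]],
    ![![1, 0, 1, 0, 1, 0], ![0, 1, 1, 0, 0, 1], ![0, 0, 0, 1, 1, 1]],
    ![![0, 0, 0, 1, 1, 0], ![1, 0, 1, 0, 1, 0], ![0, 1, 1, 1, 1, 0]],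
    ![![0, 0, 0, 0, 1, 1], ![1, 0, 1, 0, 1, 0], ![0, 1, 1, 0, 0, 1]],
    ![![0, 0, 0, 0, 1, 0], ![0, 0, 0, 0, 0, 1], ![0, 0, 0, 1, 1, 1]],
    ![![1, 0, 1, 0, 1, 0], ![0, 1, 1, 0, 0, 1], ![0, 0, 0, 1, 1, 1]],
    ![![0, 1, 0, 0, 0, 1], ![1, 1, 0, 0, 1, 1], ![0, 0, 0, 1, 1, 1]],
    ![![0, 0, 0, 1, 0, 1], ![1, 0, 1, 1, 0, 1], ![0, 1, 1, 0, 0, 1]],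
    ![![0, 0, 1, 0, 0, 1], ![1, 0, 1, 0, 1, 0], ![0, 0, 0, 1, 1, 1]],
    ![![0, 0, 0, 0, 1, 1], ![1, 0, 1, 0, 1, 0], ![0, 1, 1, 0, 0, 1]],
    ![![0, 0, 0, 0, 1, 0], ![0, 0, 0, 0, 0, 1], ![0, 0, 0, 1, 1, 1]],
    ![![1, 0, 1, 0, 1, 0], ![0, 1, 1, 0, 0, 1], ![0, 0, 0, 1, 1, 1]],
    ![![0, 0, 0, 1, 0, 1], ![1, 0, 1, 1, 0, 1], ![0, 1, 1, 0, 0, 1]],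
    ![![0, 0, 0, 0, 1, 1], ![1, 0, 1, 0, 1, 0], ![0, 1, 1, 0, 0, 1]],
    ![![0, 0, 0, 0, 1, 0], ![0, 0, 0, 0, 0, 1], ![0, 0, 0, 1, 1, 1]],
    ![![0, 1, 0, 0, 0, 1], ![1, 1, 0, 0, 1, 1], ![0, 0, 0, 1, 1, 1]],
    ![![1, 0, 1, 0, 1, 0], ![0, 1, 1, 0, 0, 1], ![0, 0, 0, 1, 1, 1]],
    ![![0, 0, 0, 1, 1, 0], ![1, 0, 1, 0, 1, 0], ![0, 1, 1, 1, 1, 0]],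
    ![![0, 0, 1, 0, 1, 0], ![0, 1, 1, 0, 0, 1], ![0, 0, 0, 1, 1, 1]],
    ![![0, 0, 0, 0, 1, 1], ![1, 0, 1, 0, 1, 0], ![0, 1, 1, 0, 0, 1]],
    ![![0, 0, 0, 0, 1, 0], ![0, 0, 0, 0, 0, 1], ![0, 0, 0, 1, 1, 1]],
    ![![0, 0, 1, 0, 0, 1], ![1, 0, 1, 0, 1, 0], ![0, 0, 0, 1, 1, 1]],
    ![![0, 0, 1, 0, 1, 0], ![0, 1, 1, 0, 0, 1], ![0, 0, 0, 1, 1, 1]],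
    ![![1, 0, 1, 0, 1, 0], ![0, 1, 1, 0, 0, 1], ![0, 0, 0, 1, 1, 1]],
    ![![0, 0, 0, 1, 1, 0], ![1, 0, 1, 0, 1, 0], ![0, 1, 1, 1, 1, 0]],
    ![![0, 0, 0, 1, 0, 1], ![1, 0, 1, 1, 0, 1], ![0, 1, 1, 0, 0, 1]],
    ![![0, 0, 0, 0, 1, 0], ![0, 0, 0, 0, 0, 1], ![0, 0, 0, 1, 1, 1]],
    ![![0, 0, 1, 0, 0, 0], ![0, 0, 0, 0, 0, 1], ![0, 1, 1, 0, 0, 1]],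
    ![![0, 0, 1, 0, 0, 1], ![1, 0, 1, 0, 1, 0], ![0, 0, 0, 1, 1, 1]],
    ![![0, 0, 1, 0, 0, 0], ![0, 0, 0, 0, 0, 1], ![0, 1, 1, 0, 0, 1]],
    ![![0, 1, 0, 0, 0, 1], ![1, 1, 0, 0, 1, 1], ![0, 0, 0, 1, 1, 1]],
    ![![0, 0, 1, 0, 0, 0], ![0, 0, 0, 0, 0, 1], ![0, 1, 1, 0, 0, 1]],
    ![![0, 0, 1, 0, 0, 0], ![0, 0, 0, 0, 1, 0], ![1, 0, 1, 0, 1, 0]],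
    ![![1, 0, 1, 0, 1, 0], ![0, 1, 1, 0, 0, 1], ![0, 0, 0, 1, 1, 1]]]

def k5aZ : Fin 38 → Fin 4 → Fin 11 → ZMod 2 :=
  ![![![1, 0, 0, 0, 1, 1, 1, 0, 0, 0, 0], ![0, 1, 0, 0, 1, 0, 0, 1, 1, 0, 0], ![0, 0, 1, 0, 0, 1, 0, 1, 0, 1, 0], ![0, 1, 1, 0, 1, 1, 0, 1, 0, 0, 1]],
    ![![1, 0, 0, 0, 1, 1, 1, 0, 0, 0, 0], ![0, 1, 0, 0, 1, 0, 0, 1, 1, 0, 0], ![0, 0, 1, 0, 0, 1, 0, 1, 0, 1, 0], ![1, 0, 0, 0, 1, 1, 0, 1, 0, 0, 1]],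
    ![![0, 1, 0, 1, 1, 0, 0, 0, 0, 0, 1], ![1, 1, 0, 1, 0, 1, 0, 1, 0, 1, 0], ![1, 0, 0, 0, 1, 1, 1, 0, 0, 0, 0], ![1, 0, 0, 1, 1, 1, 0, 0, 1, 1, 0]],
    ![![1, 0, 1, 1, 1, 0, 0, 1, 1, 0, 0], ![0, 0, 1, 1, 0, 1, 0, 0, 0, 0, 1], ![1, 0, 0, 0, 1, 1, 1, 0, 0, 0, 0], ![1, 0, 0, 1, 1, 1, 0, 0, 1, 1, 0]],
    ![![1, 1, 1, 1, 0, 0, 0, 0, 0, 0, 0], ![0, 1, 0, 0, 1, 0, 0, 1, 1, 0, 0], ![0, 0, 1, 0, 0, 1, 0, 1, 0, 1, 0], ![1, 1, 1, 0, 0, 0, 0, 1, 0, 0, 1]],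
    ![![1, 0, 0, 0, 1, 1, 1, 0, 0, 0, 0], ![0, 1, 0, 0, 1, 0, 0, 1, 1, 0, 0], ![0, 0, 1, 0, 0, 1, 0, 1, 0, 1, 0], ![0, 1, 0, 0, 1, 1, 0, 1, 0, 0, 1]],
    ![![1, 0, 0, 1, 1, 0, 0, 0, 0, 0, 1], ![1, 1, 0, 1, 0, 1, 0, 1, 0, 1, 0], ![1, 0, 0, 0, 1, 1, 1, 0, 0, 0, 0], ![1, 0, 0, 1, 1, 1, 0, 0, 1, 1, 0]],
    ![![1, 0, 1, 1, 1, 0, 0, 1, 1, 0, 0], ![0, 0, 1, 0, 0, 1, 0, 1, 0, 1, 0], ![1, 0, 0, 0, 1, 1, 1, 0, 0, 0, 0], ![1, 0, 1, 1, 1, 1, 0, 0, 0, 0, 1]],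
    ![![1, 1, 1, 1, 0, 0, 0, 0, 0, 0, 0], ![0, 1, 0, 0, 1, 0, 0, 1, 1, 0, 0], ![0, 0, 1, 0, 0, 1, 0, 1, 0, 1, 0], ![0, 1, 1, 0, 1, 0, 0, 1, 0, 0, 1]],
    ![![1, 0, 0, 0, 1, 1, 1, 0, 0, 0, 0], ![0, 1, 0, 0, 1, 0, 0, 1, 1, 0, 0], ![0, 0, 1, 0, 0, 1, 0, 1, 0, 1, 0], ![1, 0, 1, 0, 1, 1, 0, 1, 0, 0, 1]],
    ![![0, 1, 1, 1, 1, 1, 1, 0, 0, 0, 0], ![0, 0, 1, 1, 0, 0, 0, 1, 0, 0, 1], ![0, 1, 0, 0, 1, 0, 0, 1, 1, 0, 0], ![0, 1, 0, 1, 1, 0, 1, 1, 0, 1, 0]],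
    ![![1, 0, 1, 1, 1, 0, 0, 1, 1, 0, 0], ![0, 0, 0, 1, 0, 1, 0, 0, 0, 0, 1], ![1, 0, 0, 0, 1, 1, 1, 0, 0, 0, 0], ![1, 0, 0, 1, 1, 1, 0, 0, 1, 1, 0]],
    ![![0, 1, 1, 1, 1, 1, 1, 0, 0, 0, 0], ![0, 0, 1, 0, 0, 1, 0, 1, 0, 1, 0], ![0, 1, 0, 0, 1, 0, 0, 1, 1, 0, 0], ![0, 1, 1, 1, 1, 0, 0, 1, 0, 0, 1]],
    ![![1, 0, 1, 1, 1, 0, 0, 1, 1, 0, 0], ![0, 0, 1, 0, 0, 1, 0, 1, 0, 1, 0], ![1, 0, 0, 0, 1, 1, 1, 0, 0, 0, 0], ![1, 0, 1, 0, 1, 1, 0, 0, 0, 0, 1]],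
    ![![1, 1, 1, 1, 0, 0, 0, 0, 0, 0, 0], ![0, 1, 0, 0, 1, 0, 0, 1, 1, 0, 0], ![0, 0, 1, 0, 0, 1, 0, 1, 0, 1, 0], ![1, 1, 1, 0, 0, 1, 0, 1, 0, 0, 1]],
    ![![1, 0, 0, 0, 1, 1, 1, 0, 0, 0, 0], ![0, 1, 0, 0, 1, 0, 0, 1, 1, 0, 0], ![0, 0, 1, 0, 0, 1, 0, 1, 0, 1, 0], ![0, 0, 1, 0, 1, 1, 0, 1, 0, 0, 1]],
    ![![1, 0, 1, 1, 1, 0, 0, 1, 1, 0, 0], ![1, 0, 0, 1, 0, 1, 0, 0, 0, 0, 1], ![1, 0, 0, 0, 1, 1, 1, 0, 0, 0, 0], ![1, 0, 0, 1, 1, 1, 0, 0, 1, 1, 0]],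
    ![![1, 0, 1, 1, 1, 0, 0, 1, 1, 0, 0], ![0, 0, 1, 0, 0, 1, 0, 1, 0, 1, 0], ![1, 0, 0, 0, 1, 1, 1, 0, 0, 0, 0], ![0, 0, 1, 0, 1, 1, 0, 0, 0, 0, 1]],
    ![![1, 1, 1, 1, 0, 0, 0, 0, 0, 0, 0], ![0, 1, 0, 0, 1, 0, 0, 1, 1, 0, 0], ![0, 0, 1, 0, 0, 1, 0, 1, 0, 1, 0], ![0, 1, 1, 0, 0, 1, 0, 1, 0, 0, 1]],
    ![![0, 1, 1, 1, 1, 1, 1, 0, 0, 0, 0], ![0, 1, 0, 1, 0, 0, 0, 1, 0, 0, 1], ![0, 1, 0, 0, 1, 0, 0, 1, 1, 0, 0], ![0, 1, 0, 1, 1, 0, 1, 1, 0, 1, 0]],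
    ![![1, 0, 0, 0, 1, 1, 1, 0, 0, 0, 0], ![0, 1, 0, 0, 1, 0, 0, 1, 1, 0, 0], ![0, 0, 1, 0, 0, 1, 0, 1, 0, 1, 0], ![1, 1, 0, 0, 1, 1, 0, 1, 0, 0, 1]],
    ![![0, 0, 0, 1, 1, 0, 0, 0, 0, 0, 1], ![1, 1, 0, 1, 0, 1, 0, 1, 0, 1, 0], ![1, 0, 0, 0, 1, 1, 1, 0, 0, 0, 0], ![1, 0, 0, 1, 1, 1, 0, 0, 1, 1, 0]],
    ![![0, 1, 1, 1, 1, 1, 1, 0, 0, 0, 0], ![0, 1, 0, 0, 1, 0, 0, 1, 1, 0, 0], ![0, 0, 1, 0, 0, 1, 0, 1, 0, 1, 0], ![0, 1, 1, 1, 0, 1, 0, 1, 0, 0, 1]],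
    ![![1, 0, 1, 1, 1, 0, 0, 1, 1, 0, 0], ![0, 0, 1, 0, 0, 1, 0, 1, 0, 1, 0], ![1, 0, 0, 0, 1, 1, 1, 0, 0, 0, 0], ![0, 0, 1, 1, 1, 1, 0, 0, 0, 0, 1]],
    ![![1, 1, 1, 1, 0, 0, 0, 0, 0, 0, 0], ![0, 1, 0, 0, 1, 0, 0, 1, 1, 0, 0], ![0, 0, 1, 0, 0, 1, 0, 1, 0, 1, 0], ![1, 1, 1, 0, 1, 0, 0, 1, 0, 0, 1]],
    ![![0, 1, 1, 1, 1, 1, 1, 0, 0, 0, 0], ![0, 0, 1, 0, 0, 1, 0, 1, 0, 1, 0], ![0, 1, 0, 0, 1, 0, 0, 1, 1, 0, 0], ![0, 0, 1, 0, 1, 0, 0, 1, 0, 0, 1]],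
    ![![0, 1, 1, 1, 1, 1, 1, 0, 0, 0, 0], ![0, 1, 0, 0, 1, 0, 0, 1, 1, 0, 0], ![0, 0, 1, 0, 0, 1, 0, 1, 0, 1, 0], ![0, 1, 0, 0, 0, 1, 0, 1, 0, 0, 1]],
    ![![1, 0, 0, 0, 1, 1, 1, 0, 0, 0, 0], ![0, 1, 0, 0, 1, 0, 0, 1, 1, 0, 0], ![0, 0, 1, 0, 0, 1, 0, 1, 0, 1, 0], ![0, 0, 0, 0, 1, 1, 0, 1, 0, 0, 1]],
    ![![1, 1, 0, 1, 1, 0, 0, 0, 0, 0, 1], ![1, 1, 0, 1, 0, 1, 0, 1, 0, 1, 0], ![1, 0, 0, 0, 1, 1, 1, 0, 0, 0, 0], ![1, 0, 0, 1, 1, 1, 0, 0, 1, 1, 0]],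
    ![![1, 0, 1, 1, 1, 0, 0, 1, 1, 0, 0], ![1, 0, 1, 1, 0, 1, 0, 0, 0, 0, 1], ![1, 0, 0, 0, 1, 1, 1, 0, 0, 0, 0], ![1, 0, 0, 1, 1, 1, 0, 0, 1, 1, 0]],
    ![![1, 1, 1, 1, 0, 0, 0, 0, 0, 0, 0], ![0, 1, 0, 0, 1, 0, 0, 1, 1, 0, 0], ![0, 0, 1, 0, 0, 1, 0, 1, 0, 1, 0], ![0, 1, 1, 0, 0, 0, 0, 1, 0, 0, 1]],
    ![![1, 1, 1, 1, 0, 0, 0, 0, 0, 0, 0], ![1, 0, 0, 0, 1, 1, 1, 0, 0, 0, 0], ![0, 0, 1, 0, 0, 1, 0, 1, 0, 1, 0], ![1, 0, 1, 0, 0, 1, 0, 1, 0, 0, 1]],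
    ![![0, 1, 1, 1, 1, 1, 1, 0, 0, 0, 0], ![0, 0, 1, 0, 0, 1, 0, 1, 0, 1, 0], ![0, 1, 0, 0, 1, 0, 0, 1, 1, 0, 0], ![0, 0, 1, 1, 1, 0, 0, 1, 0, 0, 1]],
    ![![1, 1, 1, 1, 0, 0, 0, 0, 0, 0, 0], ![1, 0, 0, 0, 1, 1, 1, 0, 0, 0, 0], ![0, 0, 1, 0, 0, 1, 0, 1, 0, 1, 0], ![1, 1, 1, 0, 1, 1, 0, 0, 0, 0, 1]],
    ![![0, 1, 1, 1, 1, 1, 1, 0, 0, 0, 0], ![0, 1, 1, 1, 0, 0, 0, 1, 0, 0, 1], ![0, 1, 0, 0, 1, 0, 0, 1, 1, 0, 0], ![0, 1, 0, 1, 1, 0, 1, 1, 0, 1, 0]],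
    ![![1, 1, 1, 1, 0, 0, 0, 0, 0, 0, 0], ![1, 0, 0, 0, 1, 1, 1, 0, 0, 0, 0], ![0, 0, 1, 0, 0, 1, 0, 1, 0, 1, 0], ![1, 0, 1, 0, 0, 1, 0, 0, 0, 0, 1]],
    ![![1, 1, 1, 1, 0, 0, 0, 0, 0, 0, 0], ![1, 0, 0, 0, 1, 1, 1, 0, 0, 0, 0], ![0, 1, 0, 0, 1, 0, 0, 1, 1, 0, 0], ![1, 1, 0, 0, 1, 0, 0, 0, 0, 0, 1]],
    ![![1, 0, 0, 0, 1, 1, 1, 0, 0, 0, 0], ![0, 1, 0, 0, 1, 0, 0, 1, 1, 0, 0], ![0, 0, 1, 0, 0, 1, 0, 1, 0, 1, 0], ![1, 1, 1, 0, 1, 1, 0, 1, 0, 0, 1]]]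

theorem k5aok : ∀ i : Fin 38, FinCert F7 F7s (ext K5s (k5aV i)) (k5aPh i)
    (k5aC i) (k5aA i) (k5aZ i) := by
  decide +kernel

def k5bV : Fin 15 → Fin 6 → ZMod 2 :=
  ![![0, 0, 0, 0, 1, 1],
    ![0, 0, 0, 1, 0, 1],
    ![0, 0, 0, 1, 1, 0],
    ![0, 0, 1, 0, 0, 1],
    ![0, 0, 1, 0, 1, 0],
    ![0, 1, 0, 0, 0, 1],
    ![0, 1, 0, 1, 0, 0],
    ![0, 1, 1, 0, 0, 0],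
    ![0, 1, 1, 1, 1, 0],
    ![1, 0, 0, 0, 1, 0],
    ![1, 0, 0, 1, 0, 0],
    ![1, 0, 1, 0, 0, 0],
    ![1, 0, 1, 1, 0, 1],
    ![1, 1, 0, 0, 0, 0],
    ![1, 1, 0, 0, 1, 1]]

def k5bPh : Fin 15 → Fin 9 → Fin 11 :=
  ![![1, 2, 3, 4, 5, 6, 8, 9, 10],
    ![1, 2, 3, 4, 5, 6, 7, 10, 9],
    ![1, 2, 3, 4, 5, 6, 10, 7, 8],
    ![0, 2, 3, 4, 7, 8, 6, 9, 10],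
    ![0, 1, 3, 5, 7, 9, 6, 8, 10],
    ![0, 2, 3, 4, 7, 8, 5, 10, 9],
    ![0, 1, 2, 5, 7, 10, 6, 8, 9],
    ![0, 2, 3, 4, 7, 8, 10, 5, 6],
    ![0, 1, 10, 5, 7, 2, 6, 8, 3],
    ![0, 1, 3, 4, 10, 8, 5, 7, 9],
    ![0, 1, 2, 4, 10, 7, 6, 8, 9],
    ![0, 1, 3, 5, 7, 9, 10, 4, 6],
    ![0, 2, 10, 4, 7, 1, 6, 9, 3],
    ![0, 1, 2, 6, 8, 9, 10, 4, 5],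
    ![0, 3, 10, 4, 8, 1, 5, 9, 2]]

def k5bC : Fin 15 → Finset (Fin 11) :=
  ![{0, 7},
    {0, 8},
    {0, 9},
    {1, 5},
    {2, 4},
    {1, 6},
    {3, 4},
    {1, 9},
    {4, 9},
    {2, 6},
    {3, 5},
    {2, 8},
    {5, 8},
    {3, 7},
    {6, 7}]

def k5bA : Fin 15 → Fin 4 → Fin 6 → ZMod 2 :=
  ![![![1, 1, 0, 0, 0, 0], ![1, 0, 1, 0, 0, 0], ![0, 0, 0, 0, 1, 1], ![0, 0, 0, 0, 1, 0]],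
    ![![1, 1, 0, 0, 0, 0], ![1, 0, 1, 0, 0, 0], ![0, 0, 0, 1, 0, 0], ![0, 0, 0, 1, 0, 1]],
    ![![1, 1, 0, 0, 0, 0], ![1, 0, 1, 0, 0, 0], ![0, 0, 0, 1, 0, 0], ![0, 0, 0, 0, 1, 0]],
    ![![1, 0, 0, 1, 0, 0], ![1, 0, 0, 0, 1, 0], ![0, 0, 1, 0, 0, 1], ![0, 0, 1, 0, 0, 0]],
    ![![0, 1, 0, 1, 0, 0], ![0, 1, 0, 0, 0, 1], ![0, 0, 1, 0, 1, 0], ![0, 0, 1, 0, 0, 0]],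
    ![![1, 0, 0, 1, 0, 0], ![1, 0, 0, 0, 1, 0], ![0, 1, 0, 0, 0, 0], ![0, 1, 0, 0, 0, 1]],
    ![![0, 1, 0, 1, 0, 0], ![0, 1, 0, 0, 0, 0], ![0, 0, 1, 0, 1, 0], ![0, 0, 1, 0, 0, 1]],
    ![![1, 0, 0, 1, 0, 0], ![1, 0, 0, 0, 1, 0], ![0, 1, 0, 0, 0, 0], ![0, 0, 1, 0, 0, 0]],
    ![![0, 1, 0, 1, 0, 0], ![0, 1, 0, 0, 0, 0], ![0, 0, 1, 0, 1, 0], ![0, 0, 1, 0, 0, 0]],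
    ![![1, 0, 0, 0, 0, 0], ![1, 0, 0, 0, 1, 0], ![0, 1, 0, 1, 0, 0], ![0, 1, 0, 0, 0, 1]],
    ![![1, 0, 0, 0, 0, 0], ![1, 0, 0, 1, 0, 0], ![0, 0, 1, 0, 1, 0], ![0, 0, 1, 0, 0, 1]],
    ![![0, 1, 0, 1, 0, 0], ![0, 1, 0, 0, 0, 1], ![1, 0, 0, 0, 0, 0], ![0, 0, 1, 0, 0, 0]],
    ![![1, 0, 0, 1, 0, 0], ![1, 0, 0, 0, 0, 0], ![0, 0, 1, 0, 0, 1], ![0, 0, 1, 0, 0, 0]],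
    ![![0, 0, 1, 0, 1, 0], ![0, 0, 1, 0, 0, 1], ![1, 0, 0, 0, 0, 0], ![0, 1, 0, 0, 0, 0]],
    ![![1, 0, 0, 0, 1, 0], ![1, 0, 0, 0, 0, 0], ![0, 1, 0, 0, 0, 1], ![0, 1, 0, 0, 0, 0]]]

def k5bZ : Fin 15 → Fin 6 → Fin 11 → ZMod 2 :=
  ![![![1, 1, 1, 1, 0, 0, 0, 0, 0, 0, 0], ![1, 0, 0, 0, 1, 1, 1, 0, 0, 0, 0], ![0, 0, 0, 0, 0, 0, 0, 0, 1, 1, 1], ![0, 1, 0, 0, 1, 0, 0, 1, 1, 0, 0], ![0, 0, 1, 0, 0, 1, 0, 1, 0, 1, 0], ![0, 0, 0, 1, 0, 0, 1, 0, 0, 0, 1]],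
    ![![1, 1, 1, 1, 0, 0, 0, 0, 0, 0, 0], ![1, 0, 0, 0, 1, 1, 1, 0, 0, 0, 0], ![0, 0, 0, 0, 0, 0, 0, 1, 0, 1, 1], ![0, 1, 0, 0, 1, 0, 0, 1, 1, 0, 0], ![0, 0, 1, 0, 0, 1, 0, 0, 0, 0, 1], ![0, 0, 0, 1, 0, 0, 1, 0, 1, 1, 0]],
    ![![1, 1, 1, 1, 0, 0, 0, 0, 0, 0, 0], ![1, 0, 0, 0, 1, 1, 1, 0, 0, 0, 0], ![0, 0, 0, 0, 0, 0, 0, 1, 1, 0, 1], ![0, 1, 0, 0, 1, 0, 0, 0, 0, 0, 1], ![0, 0, 1, 0, 0, 1, 0, 1, 0, 1, 0], ![0, 0, 0, 1, 0, 0, 1, 0, 1, 1, 0]],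
    ![![1, 1, 1, 1, 0, 0, 0, 0, 0, 0, 0], ![0, 1, 0, 0, 1, 0, 0, 1, 1, 0, 0], ![0, 0, 0, 0, 0, 0, 1, 0, 0, 1, 1], ![1, 0, 0, 0, 1, 1, 1, 0, 0, 0, 0], ![0, 0, 1, 0, 0, 1, 0, 1, 0, 1, 0], ![0, 0, 0, 1, 0, 0, 0, 0, 1, 0, 1]],
    ![![1, 1, 1, 1, 0, 0, 0, 0, 0, 0, 0], ![0, 0, 1, 0, 0, 1, 0, 1, 0, 1, 0], ![0, 0, 0, 0, 0, 0, 1, 0, 1, 0, 1], ![1, 0, 0, 0, 1, 1, 1, 0, 0, 0, 0], ![0, 1, 0, 0, 1, 0, 0, 1, 1, 0, 0], ![0, 0, 0, 1, 0, 0, 0, 0, 0, 1, 1]],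
    ![![1, 1, 1, 1, 0, 0, 0, 0, 0, 0, 0], ![0, 1, 0, 0, 1, 0, 0, 1, 1, 0, 0], ![0, 0, 0, 0, 0, 1, 0, 0, 0, 1, 1], ![1, 0, 0, 0, 1, 1, 1, 0, 0, 0, 0], ![0, 0, 1, 0, 0, 0, 0, 1, 0, 0, 1], ![0, 0, 0, 1, 0, 0, 1, 0, 1, 1, 0]],
    ![![1, 1, 1, 1, 0, 0, 0, 0, 0, 0, 0], ![0, 0, 0, 0, 0, 1, 0, 1, 0, 0, 1], ![0, 0, 0, 1, 0, 0, 1, 0, 1, 1, 0], ![1, 0, 0, 0, 1, 1, 1, 0, 0, 0, 0], ![0, 1, 0, 0, 1, 0, 0, 1, 1, 0, 0], ![0, 0, 1, 0, 0, 0, 0, 0, 0, 1, 1]],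
    ![![1, 1, 1, 1, 0, 0, 0, 0, 0, 0, 0], ![0, 1, 0, 0, 1, 0, 0, 1, 1, 0, 0], ![0, 0, 0, 0, 0, 1, 1, 0, 0, 0, 1], ![1, 0, 0, 0, 1, 0, 0, 0, 0, 0, 1], ![0, 0, 1, 0, 0, 1, 0, 1, 0, 1, 0], ![0, 0, 0, 1, 0, 0, 1, 0, 1, 1, 0]],
    ![![1, 1, 0, 0, 0, 0, 0, 0, 0, 0, 1], ![0, 0, 1, 0, 0, 1, 0, 1, 0, 1, 0], ![0, 0, 0, 1, 0, 0, 1, 0, 1, 1, 0], ![1, 0, 0, 0, 1, 1, 1, 0, 0, 0, 0], ![0, 1, 0, 0, 1, 0, 0, 1, 1, 0, 0], ![0, 0, 1, 1, 0, 0, 0, 0, 0, 0, 1]],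
    ![![1, 1, 1, 1, 0, 0, 0, 0, 0, 0, 0], ![0, 0, 0, 0, 1, 0, 0, 0, 1, 0, 1], ![0, 0, 1, 0, 0, 1, 0, 1, 0, 1, 0], ![1, 0, 0, 0, 1, 1, 1, 0, 0, 0, 0], ![0, 1, 0, 0, 0, 0, 0, 1, 0, 0, 1], ![0, 0, 0, 1, 0, 0, 1, 0, 1, 1, 0]],
    ![![1, 1, 1, 1, 0, 0, 0, 0, 0, 0, 0], ![0, 0, 0, 0, 1, 0, 0, 1, 0, 0, 1], ![0, 0, 0, 1, 0, 0, 1, 0, 1, 1, 0], ![1, 0, 0, 0, 1, 1, 1, 0, 0, 0, 0], ![0, 1, 0, 0, 0, 0, 0, 0, 1, 0, 1], ![0, 0, 1, 0, 0, 1, 0, 1, 0, 1, 0]],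
    ![![1, 1, 1, 1, 0, 0, 0, 0, 0, 0, 0], ![0, 0, 1, 0, 0, 1, 0, 1, 0, 1, 0], ![0, 0, 0, 0, 1, 0, 1, 0, 0, 0, 1], ![1, 0, 0, 0, 0, 1, 0, 0, 0, 0, 1], ![0, 1, 0, 0, 1, 0, 0, 1, 1, 0, 0], ![0, 0, 0, 1, 0, 0, 1, 0, 1, 1, 0]],
    ![![1, 0, 1, 0, 0, 0, 0, 0, 0, 0, 1], ![0, 1, 0, 0, 1, 0, 0, 1, 1, 0, 0], ![0, 0, 0, 1, 0, 0, 1, 0, 1, 1, 0], ![1, 0, 0, 0, 1, 1, 1, 0, 0, 0, 0], ![0, 0, 1, 0, 0, 1, 0, 1, 0, 1, 0], ![0, 1, 0, 1, 0, 0, 0, 0, 0, 0, 1]],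
    ![![1, 1, 1, 1, 0, 0, 0, 0, 0, 0, 0], ![0, 0, 0, 1, 0, 0, 1, 0, 1, 1, 0], ![0, 0, 0, 0, 1, 1, 0, 0, 0, 0, 1], ![1, 0, 0, 0, 0, 0, 1, 0, 0, 0, 1], ![0, 1, 0, 0, 1, 0, 0, 1, 1, 0, 0], ![0, 0, 1, 0, 0, 1, 0, 1, 0, 1, 0]],
    ![![1, 0, 0, 1, 0, 0, 0, 0, 0, 0, 1], ![0, 1, 0, 0, 1, 0, 0, 1, 1, 0, 0], ![0, 0, 1, 0, 0, 1, 0, 1, 0, 1, 0], ![1, 0, 0, 0, 1, 1, 1, 0, 0, 0, 0], ![0, 0, 0, 1, 0, 0, 1, 0, 1, 1, 0], ![0, 1, 1, 0, 0, 0, 0, 0, 0, 0, 1]]]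

theorem k5bok : ∀ i : Fin 15, FinCert K33s K33 (ext K5s (k5bV i)) (k5bPh i)
    (k5bC i) (k5bA i) (k5bZ i) := by
  decide +kernel

theorem k5scov : ∀ v : Fin 6 → ZMod 2, (∀ i, v i = 0) ∨ (∃ j, ∀ i, v i = K5s i j) ∨
    (∃ i, v = k5aV i) ∨ ∃ i, v = k5bV i := by
  decide +kernel

theorem eok_K5s {E : Type} [Fintype E] [DecidableEq E] :
    EOK K5s (fun M : BM E => NoF M.dual ∧ ¬ HasMinor K33 M.dual) := by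
  rintro M ⟨hM, hM'⟩ v _ h
  rw [noF_dual_iff] at hM
  rw [hasMinor_K33_dual] at hM'
  rcases k5scov v with h1 | h1 | ⟨i, rfl⟩ | ⟨i, rfl⟩
  · exact Or.inl h1
  · exact Or.inr h1
  · exact absurd (h.of_finCert compl_F7 (k5aok i)) hM.1
  · exact absurd (h.of_finCert compl_K33.symm (k5bok i)) hM'

end SEY.Sp

end
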