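import Pool.Agent.Helper29.MFA.T43
import Pool.Agent.Helper29.MFA.T44
import Pool.Agent.Helper29.MFA.T45
import Pool.Agent.Helper29.MFA.T46
import Pool.Agent.Helper29.MFA.T41
import Pool.Agent.Helper29.MFA.T42
import Pool.Agent.Helper29.MFA.T47
import Pool.Agent.Helper29.MFA.T09

section

/-!
Splitter theorem for `R10` and `K5`.
-/

namespace SEY.Sp

open Finset BM

/-- The dual rows of `R10` (see `compl_R10`). -/
def R10d : Fin 5 → Fin 10 → ZMod 2 := fun i e => R10 i (r10perm e)

theorem nice_R10 : Nice R10 :=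
  ⟨by decide +kernel, by decide +kernel, by decide +kernel⟩

theorem nice_R10d : Nice R10d :=
  ⟨by decide +kernel, by decide +kernel, by decide +kernel⟩

theorem nice_K5 : Nice K5 :=
  ⟨by decide +kernel, by decide +kernel, by decide +kernel⟩

theorem nice_K5s : Nice K5s :=
  ⟨by decide +kernel, by decide +kernel, by decide +kernel⟩

theorem notri_R10 : ∀ n j l : Fin 10, n ≠ j → ¬ ∀ i, R10 i n + R10 i j = R10 i l := by
  decide +kernel

theorem notri_R10d : ∀ n j l : Fin 10, n ≠ j → ¬ ∀ i, R10d i n + R10d i j = R10d i l := by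
  decide +kernel

theorem notri_K5s : ∀ n j l : Fin 10, n ≠ j → ¬ ∀ i, K5s i n + K5s i j = K5s i l := by
  decide +kernel

/-- `r10perm` with the last element fixed. -/
def r10perm' : Equiv.Perm (Fin 11) where
  toFun := ![0, 1, 3, 4, 7, 9, 8, 6, 5, 2, 10]
  invFun := ![0, 1, 9, 2, 3, 8, 7, 4, 6, 5, 10]
  left_inv := by decide
  right_inv := by decide

variable {E : Type} [Fintype E] [DecidableEq E]

theorem eok_R10d : EOK R10d (fun M : BM E => NoF M.dual) := by
  intro M hM v _ h
  rw [noF_dual_iff] at hM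
  have h1 : ext R10d v = fun i e => ext R10 v i (r10perm' e) := by
    funext i e
    revert e
    unfold ext R10d
    generalize v i = x
    revert i x
    decide +kernel
  rw [h1] at h
  have h2 := eok_R10 M hM v (fun a ha => ?_) (h.perm r10perm')
  · rcases h2 with h2 | ⟨j, hj⟩
    · exact Or.inl h2
    · exact Or.inr ⟨r10perm.symm j, fun i => by rw [hj i]; simp [R10d]⟩
  · have h3 : ∀ a : Fin 5 → ZMod 2, (∀ j, ∑ i, a i * R10 i j = 0) → ∀ i, a i = 0 := by
      decide +kernel
    exact Finset.sum_eq_zero (fun i _ => by rw [h3 a ha i, zero_mul])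

theorem R10_split' (M : BM E) (hTC : M.TC) (hF : NoF M) (h : HasMinor R10 M) :
    IsIso R10 M :=
  splitter (P := fun N : BM E => NoF N) (duals := R10d) (fun _ _ hM hN => hM.minor hN)
    compl_R10 nice_R10 nice_R10d eok_R10 eok_R10d
    (fun _ _ n j l hn h => absurd h (notri_R10 n j l hn))
    (fun _ _ n j l hn h => absurd h (notri_R10d n j l hn)) (by norm_num) hTC hF h

theorem K5_split' (M : BM E) (hTC : M.TC) (hF : NoF M) (hK : ¬ HasMinor K33 M)
    (h : HasMinor K5 M) : IsIso K5 M :=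
  splitter (P := fun N : BM E => NoF N ∧ ¬ HasMinor K33 N) (duals := K5s)
    (fun _ _ hM hN => ⟨hM.1.minor hN, fun h => hM.2 (h.of_minor hN)⟩)
    compl_K5 nice_K5 nice_K5s eok_K5 eok_K5s tok_K5
    (fun _ _ n j l hn h => absurd h (notri_K5s n j l hn)) (by norm_num) hTC ⟨hF, hK⟩ h

end SEY.Sp

end

section

/-!
IND-2 (the two uncrossing steps for R12).  `Lab`, `rest`, `lab_del`, `lab_update`, ... are those of
`Pool/Agent/Helper73/SEY` (use the stubs).

step_Q: `IH` for `M.del {v}` and `M.con {v}` (`NoF.del`, `NoF.con`; the ground sets `M.S \ {v}` have one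
element less) gives `X1` with `(M.del {v}).lam X1 ≤ 2` and `X2` with `(M.con {v}).lam X2 ≤ 2`, both
contain `φ i` for `i < 6`, do not contain `φ i` for `6 ≤ i`, and do not contain `v`.  `BM.uncross`
(Helper71/SEYApi): `M.lam (X1 ∩ X2) + M.lam (insert v (X1 ∪ X2)) ≤ 5`, so one of the two sets has
`lam ≤ 2`, and it is good (`v` is not `φ i`).

step_P: write `m = φ j`.  `X1`: `IH` for `M.del {d}`, `φ`, `C` (`lab_del`).  `X2`: `IH` for `M.del {m}`,
`Function.update φ j d`, `C` (`lab_update`, then `lab_del`, `m ∉ C`, and `m` is not a value of the updated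
function).  hR of `uncross_A`/`uncross_B` (Helper73/SEY/SpUncr): if `f ∈ M.R` vanishes outside `{d, m}`
then `f|C = 0`, `f (φ i) = 0` for `i ≠ j`; by r2 of `Lab` and `fin_row` `f m = 0`, by `hp` `f d = 0`; so `f = 0`.
* `j < 6`: `X1` contains `m`, not `d`; `X2` contains `d`, not `m`.  `uncross_A`:
  `(M.del {d, m}).lam (X1 ∩ X2) + M.lam (X1 ∪ X2) ≤ 4`, and `two_le_lam_del` for `Y = X1 ∩ X2` (it contains
  `φ i` for `i < 6`, `i ≠ j`) gives `M.lam (X1 ∪ X2) ≤ 2`; `X1 ∪ X2` contains all `φ i`, `i < 6`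
  (`m ∈ X1`), and no `φ i` with `6 ≤ i`.
* `6 ≤ j`: `X1`, `X2` contain neither `d` nor `m`.  `uncross_B`:
  `(M.del {d, m}).lam (X1 ∪ X2) + M.lam (X1 ∩ X2) ≤ 4`, `two_le_lam_del` for `Y = X1 ∪ X2`, so
  `M.lam (X1 ∩ X2) ≤ 2` and `X1 ∩ X2` is good.
-/

namespace SEY.Ind

open Finset BM SEY.Sp

variable {E : Type} [Fintype E] [DecidableEq E] {M : BM E} {φ : Fin 12 → E} {C : Finset E}

omit [Fintype E] in
private theorem card_sdiff_single {S : Finset E} {v : E} (hv : v ∈ S) :
    (S \ {v}).card < S.card := by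
  apply Finset.card_lt_card
  refine ⟨sdiff_subset, fun h => ?_⟩
  exact (mem_sdiff.1 (h hv)).2 (mem_singleton_self v)

theorem step_Q (hF : NoF M) (hI : IH E M.S.card) {v : E} (hv : v ∈ M.S) (hv' : ∀ i, φ i ≠ v)
    {C1 C2 : Finset E} (h1 : Lab R12 (M.del {v}) φ C1) (h2 : Lab R12 (M.con {v}) φ C2) :
    Good M φ := by
  have hcard : (M.S \ {v}).card < M.S.card := card_sdiff_single hv
  obtain ⟨X1, hX1, a1, b1, c1⟩ := hI (M.del {v}) (hF.del _) hcard φ C1 h1
  obtain ⟨X2, hX2, a2, b2, c2⟩ := hI (M.con {v}) (hF.con _) hcard φ C2 h2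
  have hX1' : X1 ⊆ M.S \ {v} := hX1
  have hX2' : X2 ⊆ M.S \ {v} := hX2
  have hv1 : v ∉ X1 := fun h => (mem_sdiff.1 (hX1' h)).2 (mem_singleton_self v)
  have hv2 : v ∉ X2 := fun h => (mem_sdiff.1 (hX2' h)).2 (mem_singleton_self v)
  have hu := M.uncross hv hv1 hv2
  by_cases hl : M.lam (X1 ∩ X2) ≤ 2
  · refine ⟨X1 ∩ X2, ?_, fun i hi => mem_inter.2 ⟨a1 i hi, a2 i hi⟩,
      fun i hi h => b1 i hi (mem_inter.1 h).1, hl⟩
    intro e he
    exact (mem_sdiff.1 (hX1' (mem_inter.1 he).1)).1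
  · refine ⟨insert v (X1 ∪ X2), ?_, fun i hi => ?_, fun i hi h => ?_, by omega⟩
    · intro e he
      rcases mem_insert.1 he with rfl | he
      · exact hv
      · rcases mem_union.1 he with he | he
        · exact (mem_sdiff.1 (hX1' he)).1
        · exact (mem_sdiff.1 (hX2' he)).1
    · exact mem_insert_of_mem (mem_union_left _ (a1 i hi))
    · rcases mem_insert.1 h with h | h
      · exact hv' i h
      · rcases mem_union.1 h with h | h
        · exact b1 i hi h
        · exact b2 i hi h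

theorem step_P (hF : NoF M) (hI : IH E M.S.card) (h : Lab R12 M φ C) {d : E}
    (hd : d ∈ rest M φ C) {j : Fin 12}
    (hp : ∀ f ∈ M.R, (∀ c ∈ C, f c = 0) → f d = f (φ j)) : Good M φ := by
  obtain ⟨hdS, hdC, hdφ⟩ := mem_rest.1 hd
  have hmS : φ j ∈ M.S := h.mem j
  have hmC : φ j ∉ C := h.out j
  have hdm : d ≠ φ j := fun h' => hdφ j h'.symm
  -- the two separations
  obtain ⟨X1, hX1, a1, b1, c1⟩ := hI (M.del {d}) (hF.del _) (card_sdiff_single hdS) φ C
    (lab_del h hdC hdφ)
  have hup := lab_update h hdS hdC hdφ hp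
  have hne : ∀ i, Function.update φ j d i ≠ φ j := by
    intro i
    by_cases hij : i = j
    · rw [hij, Function.update_self]
      exact hdm
    · rw [Function.update_of_ne hij]
      exact fun h' => hij (h.inj h')
  obtain ⟨X2, hX2, a2, b2, c2⟩ := hI (M.del {φ j}) (hF.del _) (card_sdiff_single hmS)
    (Function.update φ j d) C (lab_del hup hmC hne)
  have hX1' : X1 ⊆ M.S \ {d} := hX1
  have hX2' : X2 ⊆ M.S \ {φ j} := hX2
  have hX1S : X1 ⊆ M.S := hX1'.trans sdiff_subset
  have hX2S : X2 ⊆ M.S := hX2'.trans sdiff_subset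
  have hd1 : d ∉ X1 := fun h => (mem_sdiff.1 (hX1' h)).2 (mem_singleton_self d)
  have hm2 : φ j ∉ X2 := fun h => (mem_sdiff.1 (hX2' h)).2 (mem_singleton_self _)
  have a2' : ∀ i : Fin 12, i < 6 → i ≠ j → φ i ∈ X2 := by
    intro i hi hij
    have := a2 i hi
    rwa [Function.update_of_ne hij] at this
  have b2' : ∀ i : Fin 12, 6 ≤ i → i ≠ j → φ i ∉ X2 := by
    intro i hi hij
    have := b2 i hi
    rwa [Function.update_of_ne hij] at this
  -- no nonzero row is contained in the two elements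
  have hR : ∀ f ∈ M.R, (∀ e, e ≠ d → e ≠ φ j → f e = 0) → f = 0 := by
    intro f hf h0
    have hC0 : ∀ c ∈ C, f c = 0 := by
      intro c hc
      refine h0 c (fun h' => hdC (h' ▸ hc)) (fun h' => hmC (h' ▸ hc))
    have hi0 : ∀ i : Fin 12, i ≠ j → f (φ i) = 0 := by
      intro i hij
      exact h0 (φ i) (hdφ i) (fun h' => hij (h.inj h'))
    obtain ⟨w, hw⟩ := h.r2 f hf hC0
    have hj0 : f (φ j) = 0 := by
      rw [hw j]
      exact fin_row j w (fun i hij => by rw [← hw i]; exact hi0 i hij)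
    have hd0 : f d = 0 := by rw [hp f hf hC0, hj0]
    funext e
    by_cases h1 : e = d
    · rw [h1, hd0]
      rfl
    · by_cases h2 : e = φ j
      · rw [h2, hj0]
        rfl
      · exact h0 e h1 h2
  by_cases hj : j < 6
  · have hm1 : φ j ∈ X1 := a1 j hj
    have hd2 : d ∈ X2 := by
      have := a2 j hj
      rwa [Function.update_self] at this
    have hu := uncross_A M hdS hmS hdm hR hX1S hX2S hd1 hm1 hd2 hm2
    have h2 : 2 ≤ (M.del {d, φ j}).lam (X1 ∩ X2) := by
      refine two_le_lam_del h j hdC hdφ ?_ (fun i hi hij => mem_inter.2 ⟨a1 i hi, a2' i hi hij⟩)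
        (fun i hi _ h' => b1 i hi (mem_inter.1 h').1)
      intro e he
      rw [mem_inter] at he
      refine mem_sdiff.2 ⟨hX1S he.1, fun h' => ?_⟩
      rcases mem_insert.1 h' with rfl | h'
      · exact hd1 he.1
      · rw [mem_singleton] at h'
        exact hm2 (h' ▸ he.2)
    refine ⟨X1 ∪ X2, union_subset hX1S hX2S, fun i hi => mem_union_left _ (a1 i hi), ?_, by omega⟩
    intro i hi h'
    rcases mem_union.1 h' with h' | h'
    · exact b1 i hi h'
    · refine b2' i hi (fun hij => ?_) h'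
      rw [hij] at hi
      exact absurd hj (not_lt.2 hi)
  · rw [not_lt] at hj
    have hm1 : φ j ∉ X1 := b1 j hj
    have hd2 : d ∉ X2 := by
      have := b2 j hj
      rwa [Function.update_self] at this
    have hu := uncross_B M hdS hmS hdm hR hX1S hX2S hd1 hm1 hd2 hm2
    have h2 : 2 ≤ (M.del {d, φ j}).lam (X1 ∪ X2) := by
      refine two_le_lam_del h j hdC hdφ ?_ (fun i hi _ => mem_union_left _ (a1 i hi))
        (fun i hi hij h' => ?_)
      · intro e he
        rcases mem_union.1 he with he | he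
        · refine mem_sdiff.2 ⟨hX1S he, fun h' => ?_⟩
          rcases mem_insert.1 h' with rfl | h'
          · exact hd1 he
          · rw [mem_singleton] at h'
            exact hm1 (h' ▸ he)
        · refine mem_sdiff.2 ⟨hX2S he, fun h' => ?_⟩
          rcases mem_insert.1 h' with rfl | h'
          · exact hd2 he
          · rw [mem_singleton] at h'
            exact hm2 (h' ▸ he)
      · rcases mem_union.1 h' with h' | h'
        · exact b1 i hi h'
        · exact b2' i hi hij h'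
    refine ⟨X1 ∩ X2, inter_subset_left.trans hX1S, fun i hi => mem_inter.2 ⟨a1 i hi, ?_⟩,
      fun i hi h' => b1 i hi (mem_inter.1 h').1, by omega⟩
    refine a2' i hi (fun hij => ?_)
    rw [hij] at hi
    exact absurd hj (not_le.2 hi)

end SEY.Ind

end

section

/-!
IND-3 (the deleted elements of a minimal counterexample).

ext_minor: for `i : Fin 6` choose `F i ∈ M.R` with `F i|C = 0`, `F i (φ j) = R12 i j` (field r1) and put
`v i = F i d`.  (1) If `f ∈ M.R`, `f|C = 0` and `f (φ j) = ∑ i, a i * R12 i j` for all `j` then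
`f + ∑ i, a i • F i` is a row which vanishes on `C` and on the `φ j`, so by `h0` it vanishes at `d`:
`f d = ∑ i, a i * v i`.  (2) `HasMinor (ext R12 v) M` with the function `Fin.snoc φ d` and the set `C`:
injective since `φ i ≠ d`; the rows `F i` have the values `ext R12 v i`; for a row `f` with `f|C = 0`
take the coefficients of r2 and (1).  (`ext R12 v i` is `Fin.snoc (R12 i) (v i)`: `Fin.snoc_castSucc`,
`Fin.snoc_last`, and `Fin.lastCases`.)

dside: let `h0` be the hypothesis of `ext_minor`.  If `h0` fails there is `f ∈ M.R` with `f|C = 0`,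
`f ∘ φ = 0`, `f d = 1`: `step_Q` with `v = d`, `lab_del` and `lab_con_of` (second alternative) contradicts
`hG`.  If `h0` holds take `v` from `ext_minor`; `okcol` (IndCert): `v = 0`: all rows with `f|C = 0` have
`f d = 0` (r2 and `ext_minor`): `step_Q` with `lab_con_of` (first alternative).  `v` = column `j`:
`f d = ∑ a i * R12 i j = f (φ j)`: `step_P`.  `v` = sum of the columns `P1 t`, `P2 t`: the conclusion.
-/

namespace SEY.Ind

open Finset BM SEY.Sp

variable {E : Type} [Fintype E] [DecidableEq E] {M : BM E} {φ : Fin 12 → E} {C : Finset E}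

theorem ext_minor (h : Lab R12 M φ C) {d : E} (hd : d ∈ rest M φ C)
    (h0 : ∀ f ∈ M.R, (∀ c ∈ C, f c = 0) → (∀ j, f (φ j) = 0) → f d = 0) :
    ∃ v : Fin 6 → ZMod 2, HasMinor (ext R12 v) M ∧ ∀ f ∈ M.R, (∀ c ∈ C, f c = 0) →
      ∀ a : Fin 6 → ZMod 2, (∀ j, f (φ j) = ∑ i, a i * R12 i j) → f d = ∑ i, a i * v i := by
  obtain ⟨hdS, hdC, hdφ⟩ := mem_rest.1 hd
  choose F hFR hFC hFφ using h.r1
  have key : ∀ f ∈ M.R, (∀ c ∈ C, f c = 0) →
      ∀ a : Fin 6 → ZMod 2, (∀ j, f (φ j) = ∑ i, a i * R12 i j) →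
        f d = ∑ i, a i * F i d := by
    intro f hf hfC a ha
    have h1 : f + ∑ i, a i • F i ∈ M.R :=
      M.R.add_mem hf (Submodule.sum_mem _ fun i _ => M.R.smul_mem _ (hFR i))
    have h2 : ∀ e, (f + ∑ i, a i • F i) e = f e + ∑ i, a i * F i e := by
      intro e
      rw [Pi.add_apply, Finset.sum_apply]
      rfl
    have h3 := h0 _ h1 (fun c hc => by
        rw [h2, hfC c hc, zero_add]
        exact Finset.sum_eq_zero fun i _ => by rw [hFC i c hc, mul_zero])
      (fun j => by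
        rw [h2, ha j]
        simp only [hFφ]
        exact z_add_self _)
    rw [h2] at h3
    exact z_add_eq_zero.1 h3
  refine ⟨fun i => F i d, ?_, key⟩
  refine hasMinor_iff.2 ⟨Fin.snoc (α := fun _ => E) φ d, C, ?_, ?_, h.sub, ?_, ?_, ?_⟩
  · intro x y
    refine Fin.lastCases ?_ (fun i => ?_) x
    · refine Fin.lastCases (fun _ => rfl) (fun j => ?_) y
      intro hxy
      rw [Fin.snoc_last, Fin.snoc_castSucc] at hxy
      exact absurd hxy.symm (hdφ j)
    · refine Fin.lastCases ?_ (fun j => ?_) y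
      · intro hxy
        rw [Fin.snoc_last, Fin.snoc_castSucc] at hxy
        exact absurd hxy (hdφ i)
      · intro hxy
        rw [Fin.snoc_castSucc, Fin.snoc_castSucc] at hxy
        rw [h.inj hxy]
  · intro x
    refine Fin.lastCases ?_ (fun i => ?_) x
    · rw [Fin.snoc_last]
      exact hdS
    · rw [Fin.snoc_castSucc]
      exact h.mem i
  · intro x
    refine Fin.lastCases ?_ (fun i => ?_) x
    · rw [Fin.snoc_last]
      exact hdC
    · rw [Fin.snoc_castSucc]
      exact h.out i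
  · intro i
    refine ⟨F i, hFR i, hFC i, fun x => ?_⟩
    unfold SEY.Sp.ext
    refine Fin.lastCases ?_ (fun j => ?_) x
    · rw [Fin.snoc_last, Fin.snoc_last]
    · rw [Fin.snoc_castSucc, Fin.snoc_castSucc]
      exact hFφ i j
  · intro f hf hfC
    obtain ⟨a, ha⟩ := h.r2 f hf hfC
    refine ⟨a, fun x => ?_⟩
    unfold SEY.Sp.ext
    refine Fin.lastCases ?_ (fun j => ?_) x
    · simp only [Fin.snoc_last]
      exact key f hf hfC a ha
    · simp only [Fin.snoc_castSucc]
      exact ha j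

theorem dside (hF : NoF M) (hI : IH E M.S.card) (hG : ¬ Good M φ) (h : Lab R12 M φ C) {d : E}
    (hd : d ∈ rest M φ C) :
    ∃ t : Fin 4, ∀ f ∈ M.R, (∀ c ∈ C, f c = 0) → f d = f (φ (P1 t)) + f (φ (P2 t)) := by
  obtain ⟨hdS, hdC, hdφ⟩ := mem_rest.1 hd
  have hdel : Lab R12 (M.del {d}) φ C := lab_del h hdC hdφ
  by_cases h0 : ∀ f ∈ M.R, (∀ c ∈ C, f c = 0) → (∀ j, f (φ j) = 0) → f d = 0
  · obtain ⟨v, hv, hk⟩ := ext_minor h hd h0
    rcases okcol hF v hv with hz | ⟨j, hj⟩ | ⟨t, ht⟩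
    · refine absurd (step_Q hF hI hdS hdφ hdel
        (lab_con_of h hdS hdC hdφ (Or.inl fun f hf hfC => ?_))) hG
      obtain ⟨a, ha⟩ := h.r2 f hf hfC
      rw [hk f hf hfC a ha]
      exact Finset.sum_eq_zero fun i _ => by rw [hz i, mul_zero]
    · refine absurd (step_P hF hI h hd (j := j) fun f hf hfC => ?_) hG
      obtain ⟨a, ha⟩ := h.r2 f hf hfC
      rw [hk f hf hfC a ha, ha j]
      exact Finset.sum_congr rfl fun i _ => by rw [hj i]
    · refine ⟨t, fun f hf hfC => ?_⟩
      obtain ⟨a, ha⟩ := h.r2 f hf hfC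
      rw [hk f hf hfC a ha, ha (P1 t), ha (P2 t), ← Finset.sum_add_distrib]
      exact Finset.sum_congr rfl fun i _ => by rw [ht i, mul_add]
  · push Not at h0
    obtain ⟨f, hf, hfC, hfφ, hfd⟩ := h0
    exact absurd (step_Q hF hI hdS hdφ hdel
      (lab_con_of h hdS hdC hdφ (Or.inr ⟨f, hf, hfC, z_ne_zero.1 hfd, hfφ⟩))) hG

end SEY.Ind

end

section

/-!
IND-4 (the contracted elements of a minimal counterexample, by duality).  `r12perm` and `compl_R12` are
in `Pool/Agent/Helper71/SEYApi2.lean`: `r12perm` exchanges the two halves (`i ↦ i + 6` modulo 12) and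
`Compl R12 (fun i e => R12 i (r12perm e))`.

lab12_dual: `lab_dual compl_R12 h` (Helper73/SEY/SpLab) is
`Lab (fun i e => R12 i (r12perm e)) M.dual φ (rest M φ C)`.  Relabel: the fields for `fun i => φ (r12perm i)`
follow by applying them at `r12perm i` (`r12perm (r12perm e) = e`, by `decide`).

good_dual (all `φ i` in `M.S`): if `X` is good for `M.dual` and the exchanged labelling then `M.S \ X` is good for `M` and
`φ` (`lam_dual`, `lam_compl`; for `i < 6` `r12perm i ≥ 6` and conversely, by `decide`).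

rest_dual: `rest M.dual (φ ∘ r12perm) (rest M φ C) = C`, membership: `mem_rest` (or `rest_rest`; `φ ∘ r12perm`
has the same image), `C ⊆ M.S`, `φ i ∉ C`.

cside: apply `dside` to `M.dual` (`NoF.dual`, `M.dual.S = M.S` so `IH` is the same, `good_dual`), the
labelling `φ ∘ r12perm`, the set `rest M φ C` and `c` (`rest_dual`): there is `t` such that all
cycles `z ∈ M.Z` which vanish on `rest M φ C` have
`z c = z (φ (r12perm (P1 t))) + z (φ (r12perm (P2 t)))`, and `r12perm (P1 t) = Q1 t`, `r12perm (P2 t) = Q2 t`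
(`decide`).  Let `w = ind {c, φ (Q1 t), φ (Q2 t)}` (three distinct elements).  It is zero on
`rest M φ C` and outside `M.S`, and orthogonal to all cycles of `M.del (rest M φ C)` (`mem_Z_del`), so
`w ∈ (M.del (rest M φ C)).R` (`mem_R_iff`), and by `mem_del'` there is `ρ ∈ M.R` which agrees with `w` on
`M.S \ rest M φ C`, in particular on `C` and on the `φ i`.
-/

namespace SEY.Ind

open Finset BM SEY.Sp

variable {E : Type} [Fintype E] [DecidableEq E] {M : BM E} {φ : Fin 12 → E} {C : Finset E}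

private theorem pp (e : Fin 12) : r12perm (r12perm e) = e := by
  revert e; decide

private theorem pl (i : Fin 12) : (i < 6 → 6 ≤ r12perm i) ∧ (6 ≤ i → r12perm i < 6) := by
  revert i; decide

private theorem pq (t : Fin 4) : r12perm (P1 t) = Q1 t ∧ r12perm (P2 t) = Q2 t ∧ Q1 t ≠ Q2 t := by
  revert t; decide

theorem lab12_dual (h : Lab R12 M φ C) :
    Lab R12 M.dual (fun i => φ (r12perm i)) (rest M φ C) := by
  have h' := lab_dual compl_R12 h
  refine ⟨fun i j hij => r12perm.injective (h'.inj hij), fun i => h'.mem _, h'.sub,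
    fun i => h'.out _, ?_, ?_⟩
  · intro i
    obtain ⟨f, hf, hf1, hf2⟩ := h'.r1 i
    exact ⟨f, hf, hf1, fun j => by rw [hf2, pp]⟩
  · intro f hf hf1
    obtain ⟨a, ha⟩ := h'.r2 f hf hf1
    exact ⟨a, fun j => by rw [ha]; simp only [pp]⟩

theorem good_dual (hm : ∀ i, φ i ∈ M.S) (h : Good M.dual (fun i => φ (r12perm i))) :
    Good M φ := by
  obtain ⟨X, hX, h1, h2, h3⟩ := h
  refine ⟨M.S \ X, Finset.sdiff_subset, fun i hi => ?_, fun i hi => ?_, ?_⟩
  · refine Finset.mem_sdiff.2 ⟨hm i, ?_⟩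
    have := h2 (r12perm i) ((pl i).1 hi)
    simpa only [pp] using this
  · intro hc
    have := h1 (r12perm i) ((pl i).2 hi)
    simp only [pp] at this
    exact (Finset.mem_sdiff.1 hc).2 this
  · rw [lam_compl, ← lam_dual]
    exact h3

theorem rest_dual (h : Lab R12 M φ C) :
    rest M.dual (fun i => φ (r12perm i)) (rest M φ C) = C := by
  ext e
  rw [mem_rest]
  constructor
  · rintro ⟨h1, h2, h3⟩
    by_contra h4
    refine h2 (mem_rest.2 ⟨h1, h4, fun i hi => h3 (r12perm i) ?_⟩)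
    simp only [pp]
    exact hi
  · intro he
    refine ⟨h.sub he, fun h2 => (mem_rest.1 h2).2.1 he, fun i hi => ?_⟩
    exact h.out _ (hi ▸ he)

theorem cside (hF : NoF M) (hI : IH E M.S.card) (hG : ¬ Good M φ) (h : Lab R12 M φ C) {c : E}
    (hc : c ∈ C) :
    ∃ t : Fin 4, ∃ ρ ∈ M.R, (∀ x ∈ C.erase c, ρ x = 0) ∧ ρ c = 1 ∧
      ∀ i, ρ (φ i) = if i = Q1 t ∨ i = Q2 t then 1 else 0 := by
  have hL := lab12_dual h
  have hcr : c ∈ rest M.dual (fun i => φ (r12perm i)) (rest M φ C) := by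
    rw [rest_dual h]; exact hc
  obtain ⟨t, ht⟩ := dside (M := M.dual) hF.dual hI (fun hg => hG (good_dual h.mem hg)) hL hcr
  refine ⟨t, ?_⟩
  obtain ⟨q1, q2, q3⟩ := pq t
  rw [q1, q2] at ht
  have hcS : c ∈ M.S := h.sub hc
  have hc1 : ∀ i, φ i ≠ c := fun i hi => h.out i (hi ▸ hc)
  set w : E → ZMod 2 := ind {c, φ (Q1 t), φ (Q2 t)} with hw
  have hwapp : ∀ x, w x = if x = c ∨ x = φ (Q1 t) ∨ x = φ (Q2 t) then 1 else 0 := by
    intro x
    simp [hw]
  have hwm : w ∈ (M.del (rest M φ C)).R := by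
    rw [mem_R_iff]
    constructor
    · intro e he
      rw [hwapp, if_neg]
      rintro (rfl | rfl | rfl)
      · exact he (Finset.mem_sdiff.2 ⟨hcS, fun h2 => (mem_rest.1 h2).2.1 hc⟩)
      · exact he (Finset.mem_sdiff.2 ⟨h.mem _, fun h2 => (mem_rest.1 h2).2.2 _ rfl⟩)
      · exact he (Finset.mem_sdiff.2 ⟨h.mem _, fun h2 => (mem_rest.1 h2).2.2 _ rfl⟩)
    · intro z hz
      rw [mem_Z_del] at hz
      have h1 := ht z hz.1 hz.2
      rw [hw, ind_dot, Finset.sum_insert, Finset.sum_insert, Finset.sum_singleton]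
      · rw [z_add_eq_zero]
        exact h1
      · rw [Finset.mem_singleton]
        exact fun hq => q3 (h.inj hq)
      · simp only [Finset.mem_insert, Finset.mem_singleton, not_or]
        exact ⟨fun hq => hc1 _ hq.symm, fun hq => hc1 _ hq.symm⟩
  rw [mem_del'] at hwm
  obtain ⟨-, ρ, hρ, hρ2⟩ := hwm
  have hout : ∀ x ∈ C, x ∈ M.S \ rest M φ C := fun x hx =>
    Finset.mem_sdiff.2 ⟨h.sub hx, fun h2 => (mem_rest.1 h2).2.1 hx⟩
  have houtφ : ∀ i, φ i ∈ M.S \ rest M φ C := fun i =>
    Finset.mem_sdiff.2 ⟨h.mem i, fun h2 => (mem_rest.1 h2).2.2 _ rfl⟩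
  refine ⟨ρ, hρ, fun x hx => ?_, ?_, fun i => ?_⟩
  · have hx' := Finset.mem_erase.1 hx
    rw [hρ2 x (hout x hx'.2), hwapp, if_neg]
    rintro (h1 | h1 | h1)
    · exact hx'.1 h1
    · exact h.out _ (h1 ▸ hx'.2)
    · exact h.out _ (h1 ▸ hx'.2)
  · rw [hρ2 c (hout c hc), hwapp, if_pos (Or.inl rfl)]
  · rw [hρ2 _ (houtφ i), hwapp]
    have e1 : (φ i = c ∨ φ i = φ (Q1 t) ∨ φ i = φ (Q2 t)) ↔ (i = Q1 t ∨ i = Q2 t) := by
      constructor
      · rintro (h1 | h1 | h1)
        · exact absurd h1 (hc1 i)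
        · exact Or.inl (h.inj h1)
        · exact Or.inr (h.inj h1)
      · rintro (h1 | h1)
        · exact Or.inr (Or.inl (by rw [h1]))
        · exact Or.inr (Or.inr (by rw [h1]))
    simp only [e1]

end SEY.Ind

end

section

/-!
IND: the induced 3-separation of `R12`.
-/

namespace SEY.Ind

open Finset BM SEY.Sp

variable {E : Type} [Fintype E] [DecidableEq E]

theorem good_of_lab (m : ℕ) : ∀ M : BM E, NoF M → M.S.card < m →
    ∀ (φ : Fin 12 → E) (C : Finset E), Lab R12 M φ C → Good M φ := by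
  induction m with
  | zero => intro M _ h; omega
  | succ m ih =>
    intro M hF hm φ C h
    by_contra hG
    have hI : IH E M.S.card := fun M' hF' hm' φ' C' h' => ih M' hF' (by omega) φ' C' h'
    exact hG (assembly hF h (fun d hd => dside hF hI hG h hd) (fun c hc => cside hF hI hG h hc))

theorem R12_sep' (M : BM E) (hF : NoF M) (h : HasMinor R12 M) :
    ∃ A ⊆ M.S, 6 ≤ A.card ∧ 6 ≤ (M.S \ A).card ∧ M.lam A ≤ 2 := by
  obtain ⟨φ, C, h⟩ := hasMinor_iff.1 h
  obtain ⟨X, hX, h1, h2, h3⟩ := good_of_lab (M.S.card + 1) M hF (by omega) φ C h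
  refine ⟨X, hX, ?_, ?_, h3⟩
  · have h4 : (univ.filter (fun i : Fin 12 => i < 6)).image φ ⊆ X := by
      intro e he
      obtain ⟨i, hi, rfl⟩ := Finset.mem_image.1 he
      exact h1 i (Finset.mem_filter.1 hi).2
    have h5 := Finset.card_le_card h4
    rw [Finset.card_image_of_injective _ h.inj] at h5
    have h6 : (univ.filter (fun i : Fin 12 => i < 6)).card = 6 := by decide
    omega
  · have h4 : (univ.filter (fun i : Fin 12 => 6 ≤ i)).image φ ⊆ M.S \ X := by
      intro e he
      obtain ⟨i, hi, rfl⟩ := Finset.mem_image.1 he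
      exact Finset.mem_sdiff.2 ⟨h.mem i, h2 i (Finset.mem_filter.1 hi).2⟩
    have h5 := Finset.card_le_card h4
    rw [Finset.card_image_of_injective _ h.inj] at h5
    have h6 : (univ.filter (fun i : Fin 12 => 6 ≤ i)).card = 6 := by decide
    omega

end SEY.Ind

end

section

/-!
Block IND (helper35), section 5 of /team-store/helper25_SEY.md: induced separations.
-/

namespace SEY

open Finset

variable {E : Type} [Fintype E] [DecidableEq E]

theorem R12_sep (M : BM E) (hF : NoF M) (h : HasMinor R12 M) :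
    ∃ A ⊆ M.S, 6 ≤ A.card ∧ 6 ≤ (M.S \ A).card ∧ M.lam A ≤ 2 :=
  Ind.R12_sep' M hF h

theorem R10_split (M : BM E) (hTC : M.TC) (hF : NoF M) (h : HasMinor R10 M) : IsIso R10 M :=
  Sp.R10_split' M hTC hF h

theorem K5_split (M : BM E) (hTC : M.TC) (hF : NoF M) (hK : ¬ HasMinor K33 M)
    (h : HasMinor K5 M) : IsIso K5 M :=
  Sp.K5_split' M hTC hF hK h

end SEY

end
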