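import Pool.Agent.Helper29.MFA.T11
import Pool.Agent.Helper29.MFA.T10

section

/-!
LV-1 (project SEY, block LEVEL): small tools.

* `linIndep_tri`: if `sum c_j v_j = 0`, evaluate at `x i` for `i = m-1, ..., 0`: the terms `j < i`
  vanish by `h0`, the terms `j > i` have `c_j = 0` already, so `c_i = 0`.
* `lam_le`: with the API of helper71 (Pool/Agent/Helper71/SEYApi.lean) one has
  `r A + dim Z(A) = |A|` and `lam A + dim R(A) = r A` (`Z(A)`, `R(A)` the cycles, rows supported in
  `A`), so `lam A + dim Z(A) + dim R(A) = |A|`; independent families bound the dimensions.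
* `TC_two_le`: definition of `TC`.
* `TC_row_sep` (no parallel pair), `TC_cyc_sep` (no series pair), `TC_row_ne` (no loop),
  `TC_cyc_ne` (no coloop), `TC_row_card`, `TC_cyc_card`: in a 3-connected matroid a nonzero
  row or cycle `f` has at least three elements: otherwise for its support `A` (1 or 2 elements)
  `lam_le` gives `lam A + 1 <= |A|`, so `lam A <= |A| - 1`; if `|A| = 1` then `lam A = 0`, against
  `TC` (`|S| >= 4`); if `|A| = 2` then `lam A <= 1`, `|A| = 2`, `|S - A| >= 2`, against `TC`.  If all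
  rows agree on `x` and `y` then `ind {x, y}` is orthogonal to all rows, so it is a cycle with two
  elements.  If all cycles agree on `x`, `y` then `ind {x, y}` is in `(R^perp)^perp = R`
  (`BM.dual_dual`).  The cycle statements are the row statements for `M.dual` (`BM.TC.dual`).
-/

set_option autoImplicit false

namespace SEY

open Finset

variable {E : Type} [Fintype E] [DecidableEq E]

/-- Triangular families are linearly independent. -/
theorem linIndep_tri {m : ℕ} (v : Fin m → E → ZMod 2) (x : Fin m → E) (h1 : ∀ i, v i (x i) = 1)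
    (h0 : ∀ i j, j < i → v j (x i) = 0) : LinearIndependent (ZMod 2) v := by
  rw [Fintype.linearIndependent_iff]
  intro c hc
  -- strong induction from the top
  have key : ∀ k : ℕ, ∀ i : Fin m, m ≤ i.val + k → c i = 0 := by
    intro k
    induction k with
    | zero => intro i hi; exact absurd i.isLt (by omega)
    | succ k ih =>
      intro i hi
      have h2 := congrFun hc (x i)
      rw [Finset.sum_apply] at h2
      have h3 : ∑ j, (c j • v j) (x i) = c i := by
        rw [Finset.sum_eq_single i]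
        · simp [h1 i]
        · intro j _ hj
          rcases lt_or_gt_of_ne hj with hlt | hgt
          · simp [h0 i j hlt]
          · have : c j = 0 := ih j (by have := Fin.lt_def.1 hgt; omega)
            simp [this]
        · intro h; exact absurd (Finset.mem_univ i) h
      rw [h3] at h2
      simpa using h2
  intro i
  exact key m i (by omega)

omit [DecidableEq E] in
private theorem lv1_fin_le {m : ℕ} (v : Fin m → E → ZMod 2) (hv : LinearIndependent (ZMod 2) v)
    (p : Submodule (ZMod 2) (E → ZMod 2)) (hp : ∀ i, v i ∈ p) :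
    m ≤ Module.finrank (ZMod 2) p := by
  have h : LinearIndependent (ZMod 2) (fun i => (⟨v i, hp i⟩ : p)) := by
    apply LinearIndependent.of_comp p.subtype
    exact hv
  have := h.fintype_card_le_finrank
  simpa using this

/-- `lam A + (independent cycles inside A) + (independent rows inside A) ≤ |A|`. -/
theorem lam_le (M : BM E) (A : Finset E) (hA : A ⊆ M.S) {m n : ℕ} (z : Fin m → E → ZMod 2)
    (hz : ∀ i, z i ∈ M.Z) (hzA : ∀ i e, e ∉ A → z i e = 0) (hzi : LinearIndependent (ZMod 2) z)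
    (g : Fin n → E → ZMod 2) (hg : ∀ i, g i ∈ M.R) (hgA : ∀ i e, e ∉ A → g i e = 0)
    (hgi : LinearIndependent (ZMod 2) g) : M.lam A + m + n ≤ A.card := by
  have h1 : m ≤ M.dZ A := lv1_fin_le z hzi (M.ZIn A) (fun i => M.mem_ZIn.2 ⟨hz i, hzA i⟩)
  have h2 : n ≤ M.dR A := lv1_fin_le g hgi (M.RIn A) (fun i => M.mem_RIn.2 ⟨hg i, hgA i⟩)
  have h3 := M.r_add_dZ hA
  have h4 := M.lam_add_dR_eq_r A
  omega

theorem TC_two_le {M : BM E} (h : M.TC) {A : Finset E} (hA : A ⊆ M.S) (h2 : 2 ≤ A.card)
    (h2' : 2 ≤ (M.S \ A).card) : 2 ≤ M.lam A := by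
  by_contra h3
  rcases h.of_lam_one hA (by omega) with h4 | h4 <;> omega

theorem TC_cyc_card {M : BM E} (h : M.TC) {z : E → ZMod 2} (hz : z ∈ M.Z) (h0 : z ≠ 0) :
    3 ≤ (univ.filter (fun e => z e ≠ 0)).card := h.cycle_weight hz h0

theorem TC_row_sep {M : BM E} (h : M.TC) {x y : E} (hx : x ∈ M.S) (hy : y ∈ M.S) (hxy : x ≠ y) :
    ∃ f ∈ M.R, f x ≠ f y := by
  obtain ⟨f, hf, h1, h2⟩ := h.exists_row_ne hx hy hxy
  exact ⟨f, hf, by rw [h1, h2]; exact one_ne_zero⟩

theorem TC_cyc_sep {M : BM E} (h : M.TC) {x y : E} (hx : x ∈ M.S) (hy : y ∈ M.S) (hxy : x ≠ y) :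
    ∃ z ∈ M.Z, z x ≠ z y := by
  obtain ⟨f, hf, h1, h2⟩ := h.exists_cycle_ne hx hy hxy
  exact ⟨f, hf, by rw [h1, h2]; exact one_ne_zero⟩

theorem TC_cyc_ne {M : BM E} (h : M.TC) {x : E} (hx : x ∈ M.S) : ∃ z ∈ M.Z, z x = 1 :=
  h.exists_cycle hx

end SEY

end

section

/-!
LV-2 (project SEY, block LEVEL): reading off the three guts elements after the Delta lemma.

`K = {f in R : f = 0 on C}`.  The hypotheses `hd1 .. hd4` are the conclusion of `SEY.delta`.
For a set `P i` inside `W` write `s_i f = sum of f over P i`.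

PROOF.  Fix `i`.  On `K` the value `s_i f` depends only on `(f (d 0), f (d 1), f (d 2))`: if `f, f'` in
`K` agree on the `d j` then `f - f'` is in `K` and vanishes on the `d j`, by `hd3` it agrees on `W`
with some `g` in `R` supported in `W`, and `s_i g = 0` by `hPR`.  Let `f_j` in `K` (from `hd4`) have
`f_j (d j) = 0` and value 1 at the two other `d`'s (`j = 0, 1, 2`), `x_j = s_i f_j`.  `f_0 + f_1 + f_2`
vanishes on the `d`'s, so `x_0 + x_1 + x_2 = 0`.  Every `f` in `K` agrees on the `d`'s with `0` or with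
one `f_j` (`hd1`).  Not all `x_j` are 0: otherwise `s_i = 0` on `K`, so by `hd2` (every `f` in `R` agrees
on `W` with an element of `K`) `s_i = 0` on `R`, against `hPne`.  So exactly one `x_j` is 0; put
`sigma i = j`: then `s_i f = f (d j)` for `f = 0, f_0, f_1, f_2`, hence for all `f` in `K`.
Injectivity: if `sigma i = sigma i'` with `i <> i'`, then for the third index `i''`:
`s_{i''} f = s_i f + s_{i'} f = 0` for all `f` in `K` (`hP`), so for all `f` in `R` (by `hd2`), against
`hPne i''`.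
-/

set_option autoImplicit false

namespace SEY

open Finset

variable {E : Type} [Fintype E] [DecidableEq E]

theorem guts (M : BM E) (W C : Finset E) (d : Fin 3 → E)
    (hd1 : ∀ f ∈ M.R, (∀ c ∈ C, f c = 0) → f (d 0) + f (d 1) + f (d 2) = 0)
    (hd2 : ∀ f ∈ M.R, ∃ f' ∈ M.R, (∀ c ∈ C, f' c = 0) ∧ ∀ x ∈ W, f' x = f x)
    (hd3 : ∀ f ∈ M.R, (∀ c ∈ C, f c = 0) → (∀ i, f (d i) = 0) →
      ∃ g ∈ M.R, (∀ e, e ∉ W → g e = 0) ∧ ∀ x ∈ W, g x = f x)
    (hd4 : ∀ p : Fin 3 → ZMod 2, p 0 + p 1 + p 2 = 0 →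
      ∃ f ∈ M.R, (∀ c ∈ C, f c = 0) ∧ ∀ i, f (d i) = p i)
    (P : Fin 3 → Finset E) (hPW : ∀ i, P i ⊆ W)
    (hP : ∀ f ∈ M.R, ∑ x ∈ P 0, f x + ∑ x ∈ P 1, f x + ∑ x ∈ P 2, f x = 0)
    (hPR : ∀ g ∈ M.R, (∀ e, e ∉ W → g e = 0) → ∀ i, ∑ x ∈ P i, g x = 0)
    (hPne : ∀ i, ∃ f ∈ M.R, ∑ x ∈ P i, f x ≠ 0) :
    ∃ σ : Fin 3 → Fin 3, Function.Injective σ ∧
      ∀ f ∈ M.R, (∀ c ∈ C, f c = 0) → ∀ i, f (d (σ i)) = ∑ x ∈ P i, f x := by
  have hdep : ∀ f ∈ M.R, (∀ c ∈ C, f c = 0) → (∀ i, f (d i) = 0) →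
      ∀ i, ∑ x ∈ P i, f x = 0 := by
    intro f hf hfC hfd i
    obtain ⟨g, hg, hgW, hgf⟩ := hd3 f hf hfC hfd
    rw [← hPR g hg hgW i]
    exact Finset.sum_congr rfl (fun x hx => (hgf x (hPW i hx)).symm)
  obtain ⟨G0, hG0, hG0C, hG0d⟩ := hd4 ![1, 0, 1] (by decide)
  obtain ⟨G1, hG1, hG1C, hG1d⟩ := hd4 ![0, 1, 1] (by decide)
  have g00 : G0 (d 0) = 1 := hG0d 0
  have g01 : G0 (d 1) = 0 := hG0d 1
  have g02 : G0 (d 2) = 1 := hG0d 2
  have g10 : G1 (d 0) = 0 := hG1d 0
  have g11 : G1 (d 1) = 1 := hG1d 1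
  have g12 : G1 (d 2) = 1 := hG1d 2
  have hlin : ∀ f ∈ M.R, (∀ c ∈ C, f c = 0) → ∀ i,
      ∑ x ∈ P i, f x = f (d 0) * ∑ x ∈ P i, G0 x + f (d 1) * ∑ x ∈ P i, G1 x := by
    intro f hf hfC i
    have h2 : f (d 2) = f (d 0) + f (d 1) := by
      have h := hd1 f hf hfC
      generalize f (d 0) = a at h ⊢
      generalize f (d 1) = b at h ⊢
      generalize f (d 2) = c at h ⊢
      revert a b c
      decide
    have hmem : f - f (d 0) • G0 - f (d 1) • G1 ∈ M.R :=
      M.R.sub_mem (M.R.sub_mem hf (M.R.smul_mem _ hG0)) (M.R.smul_mem _ hG1)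
    have h0 := hdep _ hmem
      (fun c hc => by simp [hfC c hc, hG0C c hc, hG1C c hc])
      (fun k => by
        fin_cases k
        · simp [g00, g10]
        · simp [g01, g11]
        · simp [g02, g12, h2]) i
    simp only [Pi.sub_apply, Pi.smul_apply, smul_eq_mul, Finset.sum_sub_distrib,
      ← Finset.mul_sum] at h0
    rw [sub_sub, sub_eq_zero] at h0
    exact h0
  have hex : ∀ i, ∃ j, ∀ f ∈ M.R, (∀ c ∈ C, f c = 0) → f (d j) = ∑ x ∈ P i, f x := by
    intro i
    have hne : ¬ (∑ x ∈ P i, G0 x = 0 ∧ ∑ x ∈ P i, G1 x = 0) := by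
      rintro ⟨hu, hv⟩
      obtain ⟨f, hf, hfne⟩ := hPne i
      obtain ⟨f', hf', hfC', hfW⟩ := hd2 f hf
      apply hfne
      have h := hlin f' hf' hfC' i
      rw [hu, hv, mul_zero, mul_zero, add_zero] at h
      rw [← h]
      exact Finset.sum_congr rfl (fun x hx => (hfW x (hPW i hx)).symm)
    have hcase : ∀ a : ZMod 2, a = 0 ∨ a = 1 := by decide
    rcases hcase (∑ x ∈ P i, G0 x) with hu | hu <;> rcases hcase (∑ x ∈ P i, G1 x) with hv | hv
    · exact absurd ⟨hu, hv⟩ hne
    · refine ⟨1, fun f hf hfC => ?_⟩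
      rw [hlin f hf hfC i, hu, hv, mul_zero, mul_one, zero_add]
    · refine ⟨0, fun f hf hfC => ?_⟩
      rw [hlin f hf hfC i, hu, hv, mul_zero, mul_one, add_zero]
    · refine ⟨2, fun f hf hfC => ?_⟩
      rw [hlin f hf hfC i, hu, hv, mul_one, mul_one]
      have h := hd1 f hf hfC
      generalize f (d 0) = a at h ⊢
      generalize f (d 1) = b at h ⊢
      generalize f (d 2) = c at h ⊢
      revert a b c
      decide
  choose σ hσ using hex
  refine ⟨σ, ?_, fun f hf hfC i => hσ i f hf hfC⟩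
  have third : ∀ i i' : Fin 3, i ≠ i' → ∃ k : Fin 3, ∀ t : Fin 3 → ZMod 2,
      t 0 + t 1 + t 2 = 0 → t i = t i' → t k = 0 := by decide
  intro i i' hii
  by_contra hne
  obtain ⟨k, hk⟩ := third i i' hne
  obtain ⟨f, hf, hfne⟩ := hPne k
  apply hfne
  refine hk (fun j => ∑ x ∈ P j, f x) (hP f hf) ?_
  obtain ⟨f', hf', hfC', hfW⟩ := hd2 f hf
  have e1 : ∀ j, ∑ x ∈ P j, f x = ∑ x ∈ P j, f' x := fun j =>
    Finset.sum_congr rfl (fun x hx => (hfW x (hPW j hx)).symm)
  show ∑ x ∈ P i, f x = ∑ x ∈ P i', f x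
  rw [e1 i, e1 i', ← hσ i f' hf' hfC', ← hσ i' f' hf' hfC', hii]

end SEY

end

section

/-!
LV-3 (project SEY, block LEVEL): a `W`-structure with a cycle outside gives a `K33s` minor.

`W = {a i, b i}` (6 elements).  Write `q_{ij} = ind {a i, b i, a j, b j}` (rows), `A = ind {a i}`,
`B = ind {b i}` (cycles: orthogonal to all rows by `hW`).
* `WStr_lam`.  `lam W >= 2` by `TC_two_le` (`|S - W| >= 2`).  `lam_le` with the cycles `A`, `B` and the rows
  `q_01`, `q_02` (independent: `linIndep_tri`) gives `lam W + 2 + 2 <= 6`.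
* `WStr_rows`.  Let `g` be a row supported in `W` with `g (a i) <> g (b i)` for some `i`.  Then `g`,
  `q_01`, `q_02` are independent (the functional `f -> f (a i) + f (b i)` vanishes on the `q`'s), so
  `lam_le` gives `lam W + 2 + 3 <= 6`, against `TC_two_le`.
* `WStr_K33s`.  `z` has at least 3 elements (`TC_cyc_card`), all outside `W`, so `|S - W| >= 3` and
  `lam W = 2`.  Take `d, C` from `SEY.delta` (Link.lean).  Apply `guts` with `P i = {a i, b i}`:
  `hP`: the sum of all six values is 0 by the two cycles; `hPR`: `WStr_rows`; `hPne`: `TC_row_sep`.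
  Get `sigma` with `f (d (sigma i)) = f (a i) + f (b i)` on `K = {f in R : f|C = 0}`.
  HasMinor K33s: `phi = ![a 0, a 1, a 2, b 0, b 1, b 2, d (sigma 0), d (sigma 1), d (sigma 2)]` and `C`.
  Injective: `d` is injective and avoids `W`.
  Second condition: for `f` in `K` let `x = f o phi`; then `x0+x1+x2 = 0`, `x3+x4+x5 = 0`,
  `x6 = x0+x3`, `x7 = x1+x4`, `x8 = x2+x5`.  The coefficients are `c = ![x 4, x 5, x 7, x 8]`
  (rows of `K33s`: `{0,1,3,4}, {0,2,3,5}, {0,1,6,7}, {0,2,6,8}`).
  First condition: rows 0 and 1 of `K33s` are realised by `q_01`, `q_02` (supported in `W`, so they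
  vanish on `C` and on the `d`'s).  For row 2 (`x = {0,1,6,7}`) take by (D4) `f` in `K` with
  `f (d (sigma i)) = x_(6+i)`; then `f (a i) + f (b i) = x_(6+i)`; `f (b 0) + f (b 1) + f (b 2) = 0`, so
  adding to `f` one of `0, q_01, q_02, q_01 + q_02` we get `f (b i) = 0` for all `i` (add
  `f(b 1) q_01 + f(b 2) q_02`), hence `f (a i) = x_(6+i)`: this is row 2.  Same for row 3.
-/

set_option autoImplicit false

namespace SEY

open Finset

variable {E : Type} [Fintype E] [DecidableEq E]

/-- The six elements of a `W`-structure. -/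
def Wset (a b : Fin 3 → E) : Finset E := univ.image a ∪ univ.image b

private theorem lv3_mem {a b : Fin 3 → E} {e : E} : e ∈ Wset a b ↔ (∃ i, a i = e) ∨ ∃ i, b i = e := by
  simp [Wset]

private theorem lv3_sub {M : BM E} {a b : Fin 3 → E} (hW : WStr M a b) : Wset a b ⊆ M.S := by
  intro e he
  rcases lv3_mem.1 he with ⟨i, rfl⟩ | ⟨i, rfl⟩
  · exact hW.1 i
  · exact hW.2.1 i

private theorem lv3_card {M : BM E} {a b : Fin 3 → E} (hW : WStr M a b) : (Wset a b).card = 6 := by
  obtain ⟨-, -, ha, hb, hab, -, -, -⟩ := hW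
  unfold Wset
  rw [Finset.card_union_of_disjoint, Finset.card_image_of_injective _ ha,
    Finset.card_image_of_injective _ hb]
  · simp
  · rw [Finset.disjoint_left]
    intro e he he'
    obtain ⟨i, -, rfl⟩ := Finset.mem_image.1 he
    obtain ⟨j, -, hj⟩ := Finset.mem_image.1 he'
    exact hab i j hj.symm

private theorem lv3_sum3 {c : Fin 3 → E} (hc : Function.Injective c) (f : E → ZMod 2) :
    ∑ e ∈ univ.image c, f e = f (c 0) + f (c 1) + f (c 2) := by
  rw [Finset.sum_image (fun i _ j _ h => hc h), Fin.sum_univ_three]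

private theorem lv3_cyc {M : BM E} {c : Fin 3 → E} (hS : ∀ i, c i ∈ M.S)
    (hc : Function.Injective c) (h : ∀ f ∈ M.R, f (c 0) + f (c 1) + f (c 2) = 0) :
    (ind (univ.image c) : E → ZMod 2) ∈ M.Z := by
  refine ⟨fun e he => ?_, fun f hf => ?_⟩
  · apply ind_of_notMem
    intro h1
    obtain ⟨i, -, rfl⟩ := Finset.mem_image.1 h1
    exact he (hS i)
  · rw [dot_ind, lv3_sum3 hc]
    exact h f hf

/-- the quads as rows -/
private def lv3_q (a b : Fin 3 → E) (k : Fin 3) : E → ZMod 2 := ind {a 0, b 0, a k, b k}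

private theorem lv3_qR {M : BM E} {a b : Fin 3 → E} (hW : WStr M a b) (k : Fin 3) (hk : 0 ≠ k) :
    lv3_q a b k ∈ M.R := hW.2.2.2.2.2.2.2 0 k hk

private theorem lv3_qa {M : BM E} {a b : Fin 3 → E} (hW : WStr M a b) (k i : Fin 3) :
    lv3_q a b k (a i) = if i = 0 ∨ i = k then 1 else 0 := by
  obtain ⟨-, -, ha, hb, hab, -, -, -⟩ := hW
  have h : a i ∈ ({a 0, b 0, a k, b k} : Finset E) ↔ (i = 0 ∨ i = k) := by
    simp only [Finset.mem_insert, Finset.mem_singleton]
    constructor
    · rintro (h | h | h | h)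
      · exact Or.inl (ha h)
      · exact absurd h (hab _ _)
      · exact Or.inr (ha h)
      · exact absurd h (hab _ _)
    · rintro (rfl | rfl)
      · exact Or.inl rfl
      · exact Or.inr (Or.inr (Or.inl rfl))
  unfold lv3_q ind
  simp only [h]

private theorem lv3_qb {M : BM E} {a b : Fin 3 → E} (hW : WStr M a b) (k i : Fin 3) :
    lv3_q a b k (b i) = if i = 0 ∨ i = k then 1 else 0 := by
  obtain ⟨-, -, ha, hb, hab, -, -, -⟩ := hW
  have h : b i ∈ ({a 0, b 0, a k, b k} : Finset E) ↔ (i = 0 ∨ i = k) := by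
    simp only [Finset.mem_insert, Finset.mem_singleton]
    constructor
    · rintro (h | h | h | h)
      · exact absurd h.symm (hab _ _)
      · exact Or.inl (hb h)
      · exact absurd h.symm (hab _ _)
      · exact Or.inr (hb h)
    · rintro (rfl | rfl)
      · exact Or.inr (Or.inl rfl)
      · exact Or.inr (Or.inr (Or.inr rfl))
  unfold lv3_q ind
  simp only [h]

private theorem lv3_qout (a b : Fin 3 → E) (k : Fin 3) {e : E} (he : e ∉ Wset a b) :
    lv3_q a b k e = 0 := by
  apply ind_of_notMem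
  simp only [Finset.mem_insert, Finset.mem_singleton]
  rintro (rfl | rfl | rfl | rfl)
  · exact he (lv3_mem.2 (Or.inl ⟨_, rfl⟩))
  · exact he (lv3_mem.2 (Or.inr ⟨_, rfl⟩))
  · exact he (lv3_mem.2 (Or.inl ⟨_, rfl⟩))
  · exact he (lv3_mem.2 (Or.inr ⟨_, rfl⟩))

private theorem lv3_cycs {M : BM E} {a b : Fin 3 → E} (hW : WStr M a b) {n : ℕ}
    (g : Fin n → E → ZMod 2) (hg : ∀ i, g i ∈ M.R) (hgA : ∀ i e, e ∉ Wset a b → g i e = 0)
    (hgi : LinearIndependent (ZMod 2) g) : M.lam (Wset a b) + 2 + n ≤ 6 := by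
  rw [← lv3_card hW]
  have hW' := hW
  obtain ⟨haS, hbS, ha, hb, hab, hA, hB, -⟩ := hW'
  have hAa : ∀ i, (ind (univ.image a) : E → ZMod 2) (a i) = 1 := fun i =>
    ind_of_mem (Finset.mem_image_of_mem _ (Finset.mem_univ _))
  have hBb : ∀ i, (ind (univ.image b) : E → ZMod 2) (b i) = 1 := fun i =>
    ind_of_mem (Finset.mem_image_of_mem _ (Finset.mem_univ _))
  have hAb : ∀ i, (ind (univ.image a) : E → ZMod 2) (b i) = 0 := fun i => by
    apply ind_of_notMem
    intro h
    obtain ⟨j, -, hj⟩ := Finset.mem_image.1 h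
    exact hab j i hj
  refine lam_le M (Wset a b) (lv3_sub hW) (m := 2)
    ![ind (univ.image a), ind (univ.image b)] ?_ ?_ ?_ g hg hgA hgi
  · intro i
    fin_cases i
    · exact lv3_cyc haS ha hA
    · exact lv3_cyc hbS hb hB
  · intro i e he
    fin_cases i
    · apply ind_of_notMem
      intro h
      obtain ⟨j, -, rfl⟩ := Finset.mem_image.1 h
      exact he (lv3_mem.2 (Or.inl ⟨_, rfl⟩))
    · apply ind_of_notMem
      intro h
      obtain ⟨j, -, rfl⟩ := Finset.mem_image.1 h
      exact he (lv3_mem.2 (Or.inr ⟨_, rfl⟩))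
  · refine linIndep_tri _ ![a 0, b 0] ?_ ?_
    · intro i
      fin_cases i
      · exact hAa 0
      · exact hBb 0
    · intro i j hij
      fin_cases i <;> fin_cases j
      · exact absurd hij (by decide)
      · exact absurd hij (by decide)
      · exact hAb 0
      · exact absurd hij (by decide)

private theorem lv3_two {M : BM E} (h : M.TC) {a b : Fin 3 → E} (hW : WStr M a b)
    (hc : 8 ≤ M.S.card) : 2 ≤ M.lam (Wset a b) := by
  have h1 := lv3_card hW
  have h2 := Finset.card_sdiff_add_card_eq_card (lv3_sub hW)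
  exact TC_two_le h (lv3_sub hW) (by omega) (by omega)

theorem WStr_lam (M : BM E) (h : M.TC) (a b : Fin 3 → E) (hW : WStr M a b)
    (hc : 8 ≤ M.S.card) : M.lam (Wset a b) = 2 := by
  have h1 := lv3_two h hW hc
  have h2 := lv3_cycs hW (n := 2) ![lv3_q a b 1, lv3_q a b 2] ?_ ?_ ?_
  · omega
  · intro i
    fin_cases i
    · exact lv3_qR hW 1 (by decide)
    · exact lv3_qR hW 2 (by decide)
  · intro i e he
    fin_cases i
    · exact lv3_qout a b 1 he
    · exact lv3_qout a b 2 he
  · refine linIndep_tri _ ![a 1, a 2] ?_ ?_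
    · intro i
      fin_cases i
      · show lv3_q a b 1 (a 1) = 1
        rw [lv3_qa hW]; rfl
      · show lv3_q a b 2 (a 2) = 1
        rw [lv3_qa hW]; rfl
    · intro i j hij
      fin_cases i <;> fin_cases j
      · exact absurd hij (by decide)
      · exact absurd hij (by decide)
      · show lv3_q a b 1 (a 2) = 0
        rw [lv3_qa hW]; rfl
      · exact absurd hij (by decide)

/-- normalise a row on the `b i` -/
private theorem lv3_norm {M : BM E} {a b : Fin 3 → E} (hW : WStr M a b) {g : E → ZMod 2}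
    (hg : g ∈ M.R) : ∃ g' ∈ M.R, (∀ i, g' (b i) = 0) ∧ (∀ e, e ∉ Wset a b → g' e = g e) ∧
      ∀ i, g' (a i) = g (a i) + g (b i) := by
  have hB := hW.2.2.2.2.2.2.1 g hg
  have hA := hW.2.2.2.2.2.1 g hg
  refine ⟨g + g (b 1) • lv3_q a b 1 + g (b 2) • lv3_q a b 2,
    M.R.add_mem (M.R.add_mem hg (M.R.smul_mem _ (lv3_qR hW 1 (by decide))))
      (M.R.smul_mem _ (lv3_qR hW 2 (by decide))), ?_, ?_, ?_⟩
  · intro i
    simp only [Pi.add_apply, Pi.smul_apply, smul_eq_mul, lv3_qb hW]
    fin_cases i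
    · simpa using hB
    · simp [z_add_self]
    · simp [z_add_self]
  · intro e he
    simp only [Pi.add_apply, Pi.smul_apply, smul_eq_mul, lv3_qout a b _ he, mul_zero, add_zero]
  · intro i
    simp only [Pi.add_apply, Pi.smul_apply, smul_eq_mul, lv3_qa hW]
    fin_cases i
    · have h2 : g (b 1) + g (b 2) = g (b 0) := by
        generalize g (b 0) = x at hB ⊢
        generalize g (b 1) = y at hB ⊢
        generalize g (b 2) = z at hB ⊢
        revert x y z
        decide
      simp [add_assoc, h2]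
    · simp
    · simp

theorem WStr_rows (M : BM E) (h : M.TC) (a b : Fin 3 → E) (hW : WStr M a b)
    (hc : 8 ≤ M.S.card) (g : E → ZMod 2) (hg : g ∈ M.R) (hg0 : ∀ e, e ∉ Wset a b → g e = 0)
    (i : Fin 3) : g (a i) = g (b i) := by
  by_contra hne
  obtain ⟨g', hg', hb, hout, ha⟩ := lv3_norm hW hg
  have h1 : g' (a i) = 1 := by
    rw [ha i]
    rcases zcases (g (a i)) with h1 | h1 <;> rcases zcases (g (b i)) with h2 | h2
    · exact absurd (h1.trans h2.symm) hne
    · rw [h1, h2]; rfl
    · rw [h1, h2]; rfl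
    · exact absurd (h1.trans h2.symm) hne
  have h2 := lv3_two h hW hc
  have h3 := lv3_cycs hW (n := 3) ![g', lv3_q a b 1, lv3_q a b 2] ?_ ?_ ?_
  · omega
  · intro j
    fin_cases j
    · exact hg'
    · exact lv3_qR hW 1 (by decide)
    · exact lv3_qR hW 2 (by decide)
  · intro j e he
    fin_cases j
    · show g' e = 0
      rw [hout e he]; exact hg0 e he
    · exact lv3_qout a b 1 he
    · exact lv3_qout a b 2 he
  · refine linIndep_tri _ ![a i, b 1, b 2] ?_ ?_
    · intro j
      fin_cases j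
      · exact h1
      · show lv3_q a b 1 (b 1) = 1
        rw [lv3_qb hW]; rfl
      · show lv3_q a b 2 (b 2) = 1
        rw [lv3_qb hW]; rfl
    · intro j k hjk
      fin_cases j <;> fin_cases k
      · exact absurd hjk (by decide)
      · exact absurd hjk (by decide)
      · exact absurd hjk (by decide)
      · exact hb 1
      · exact absurd hjk (by decide)
      · exact absurd hjk (by decide)
      · exact hb 2
      · show lv3_q a b 1 (b 2) = 0
        rw [lv3_qb hW]; rfl
      · exact absurd hjk (by decide)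

theorem WStr_K33s (M : BM E) (h : M.TC) (a b : Fin 3 → E) (hW : WStr M a b)
    (hz : ∃ z ∈ M.Z, z ≠ 0 ∧ ∀ i, z (a i) = 0 ∧ z (b i) = 0) : HasMinor K33s M := by
  have hWS := lv3_sub hW
  have hWc := lv3_card hW
  -- the number of elements
  have hc : 8 ≤ M.S.card := by
    obtain ⟨z, hz, h0, hzab⟩ := hz
    have h1 := TC_cyc_card h hz h0
    have h2 : Disjoint (Wset a b) (univ.filter (fun e => z e ≠ 0)) := by
      rw [Finset.disjoint_left]
      intro e he he'
      have h3 := (Finset.mem_filter.1 he').2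
      rcases lv3_mem.1 he with ⟨i, rfl⟩ | ⟨i, rfl⟩
      · exact h3 (hzab i).1
      · exact h3 (hzab i).2
    have h3 : Wset a b ∪ univ.filter (fun e => z e ≠ 0) ⊆ M.S := by
      apply Finset.union_subset hWS
      intro e he
      by_contra hne
      exact (Finset.mem_filter.1 he).2 (hz.1 e hne)
    have h4 := Finset.card_le_card h3
    rw [Finset.card_union_of_disjoint h2] at h4
    omega
  have hlam := WStr_lam M h a b hW hc
  obtain ⟨d, C, hd, hdS, hCS, hCW, D1, D2, D3, D4⟩ := delta M h (Wset a b) hWS hlam (by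
    obtain ⟨z, hz, h0, hzab⟩ := hz
    refine ⟨z, hz, h0, fun e he => ?_⟩
    rcases lv3_mem.1 he with ⟨i, rfl⟩ | ⟨i, rfl⟩
    · exact (hzab i).1
    · exact (hzab i).2)
  have hW' := hW
  obtain ⟨haS, hbS, ha, hb, hab, hA, hB, -⟩ := hW'
  have haW : ∀ i, a i ∈ Wset a b := fun i => lv3_mem.2 (Or.inl ⟨i, rfl⟩)
  have hbW : ∀ i, b i ∈ Wset a b := fun i => lv3_mem.2 (Or.inr ⟨i, rfl⟩)
  have hpair : ∀ (i : Fin 3) (f : E → ZMod 2), ∑ x ∈ ({a i, b i} : Finset E), f x = f (a i) + f (b i) :=
    fun i f => Finset.sum_pair (hab i i)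
  obtain ⟨σ, hσ, hσf⟩ := guts M (Wset a b) C d D1 D2 D3 D4 (fun i => {a i, b i})
    (by
      intro i e he
      simp only [Finset.mem_insert, Finset.mem_singleton] at he
      rcases he with rfl | rfl
      · exact haW i
      · exact hbW i)
    (by
      intro f hf
      simp only [hpair]
      have h1 := hA f hf
      have h2 := hB f hf
      have h3 : f (a 0) + f (b 0) + (f (a 1) + f (b 1)) + (f (a 2) + f (b 2))
          = (f (a 0) + f (a 1) + f (a 2)) + (f (b 0) + f (b 1) + f (b 2)) := by ring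
      rw [h3, h1, h2, add_zero])
    (by
      intro g hg hg0 i
      simp only [hpair]
      rw [WStr_rows M h a b hW hc g hg hg0 i, z_add_self])
    (by
      intro i
      obtain ⟨f, hf, hne⟩ := TC_row_sep h (haS i) (hbS i) (hab i i)
      refine ⟨f, hf, ?_⟩
      simp only [hpair]
      rw [Ne, z_add_eq_zero]
      exact hne)
  simp only [hpair] at hσf
  -- realise all values on the guts
  have hreal : ∀ p : Fin 3 → ZMod 2, p 0 + p 1 + p 2 = 0 → ∃ f ∈ M.R, (∀ c ∈ C, f c = 0) ∧
      (∀ i, f (d (σ i)) = p i) ∧ (∀ i, f (a i) = p i) ∧ ∀ i, f (b i) = 0 := by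
    intro p hp
    let s : Fin 3 ≃ Fin 3 := Equiv.ofBijective σ (Finite.injective_iff_bijective.1 hσ)
    obtain ⟨f, hf, hfC, hfd⟩ := D4 (fun i => p (s.symm i)) (by
      rw [← Fin.sum_univ_three (fun i => p (s.symm i)), Equiv.sum_comp s.symm p,
        Fin.sum_univ_three]
      exact hp)
    have hfd' : ∀ i, f (d (σ i)) = p i := by
      intro i
      rw [hfd (σ i)]
      show p (s.symm (s i)) = p i
      rw [Equiv.symm_apply_apply]
    obtain ⟨f', hf', hb', hout, ha'⟩ := lv3_norm hW hf
    refine ⟨f', hf', ?_, ?_, ?_, hb'⟩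
    · intro c hcC
      rw [hout c (fun h => Finset.disjoint_left.1 hCW hcC h)]
      exact hfC c hcC
    · intro i
      rw [hout _ (hdS (σ i)).2.1]
      exact hfd' i
    · intro i
      rw [ha' i, ← hσf f hf hfC i]
      exact hfd' i
  have haC : ∀ i, a i ∉ C := fun i hi => Finset.disjoint_left.1 hCW hi (haW i)
  have hbC : ∀ i, b i ∉ C := fun i hi => Finset.disjoint_left.1 hCW hi (hbW i)
  have had : ∀ i j, a i ≠ d (σ j) := fun i j hij => (hdS (σ j)).2.1 (hij ▸ haW i)
  have hbd : ∀ i j, b i ≠ d (σ j) := fun i j hij => (hdS (σ j)).2.1 (hij ▸ hbW i)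
  have hdd : Function.Injective (fun i => d (σ i)) := hd.comp hσ
  refine ⟨![a 0, a 1, a 2, b 0, b 1, b 2, d (σ 0), d (σ 1), d (σ 2)], C, ?_, ?_, hCS, ?_, ?_, ?_⟩
  · have e1 : ∀ i j : Fin 3, a i = a j → i = j := fun i j h => ha h
    have e2 : ∀ i j : Fin 3, b i = b j → i = j := fun i j h => hb h
    have e3 : ∀ i j : Fin 3, d (σ i) = d (σ j) → i = j := fun i j h => hdd h
    have e4 : ∀ i j : Fin 3, b j ≠ a i := fun i j h => hab i j h.symm
    have e5 : ∀ i j : Fin 3, d (σ j) ≠ a i := fun i j h => had i j h.symm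
    have e6 : ∀ i j : Fin 3, d (σ j) ≠ b i := fun i j h => hbd i j h.symm
    intro x y hxy
    fin_cases x <;> fin_cases y <;>
      first
      | rfl
      | exact absurd (e1 _ _ hxy) (by decide)
      | exact absurd (e2 _ _ hxy) (by decide)
      | exact absurd (e3 _ _ hxy) (by decide)
      | exact absurd hxy (hab _ _)
      | exact absurd hxy (had _ _)
      | exact absurd hxy (hbd _ _)
      | exact absurd hxy (e4 _ _)
      | exact absurd hxy (e5 _ _)
      | exact absurd hxy (e6 _ _)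
  · intro x
    fin_cases x
    · exact haS 0
    · exact haS 1
    · exact haS 2
    · exact hbS 0
    · exact hbS 1
    · exact hbS 2
    · exact (hdS (σ 0)).1
    · exact (hdS (σ 1)).1
    · exact (hdS (σ 2)).1
  · intro x
    fin_cases x
    · exact haC 0
    · exact haC 1
    · exact haC 2
    · exact hbC 0
    · exact hbC 1
    · exact hbC 2
    · exact (hdS (σ 0)).2.2
    · exact (hdS (σ 1)).2.2
    · exact (hdS (σ 2)).2.2
  · have hq : ∀ k : Fin 3, k ≠ 0 → lv3_q a b k ∈ M.R ∧ (∀ c ∈ C, lv3_q a b k c = 0) ∧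
        ∀ j, lv3_q a b k (d (σ j)) = 0 := fun k hk =>
      ⟨lv3_qR hW k hk.symm, fun c hcC => lv3_qout a b k (fun h => Finset.disjoint_left.1 hCW hcC h),
        fun j => lv3_qout a b k (hdS (σ j)).2.1⟩
    intro x
    fin_cases x
    · obtain ⟨h1, h2, h3⟩ := hq 1 (by decide)
      refine ⟨_, h1, h2, fun j => ?_⟩
      fin_cases j
      · show lv3_q a b 1 (a 0) = 1
        rw [lv3_qa hW]; rfl
      · show lv3_q a b 1 (a 1) = 1
        rw [lv3_qa hW]; rfl
      · show lv3_q a b 1 (a 2) = 0
        rw [lv3_qa hW]; rfl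
      · show lv3_q a b 1 (b 0) = 1
        rw [lv3_qb hW]; rfl
      · show lv3_q a b 1 (b 1) = 1
        rw [lv3_qb hW]; rfl
      · show lv3_q a b 1 (b 2) = 0
        rw [lv3_qb hW]; rfl
      · exact h3 0
      · exact h3 1
      · exact h3 2
    · obtain ⟨h1, h2, h3⟩ := hq 2 (by decide)
      refine ⟨_, h1, h2, fun j => ?_⟩
      fin_cases j
      · show lv3_q a b 2 (a 0) = 1
        rw [lv3_qa hW]; rfl
      · show lv3_q a b 2 (a 1) = 0
        rw [lv3_qa hW]; rfl
      · show lv3_q a b 2 (a 2) = 1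
        rw [lv3_qa hW]; rfl
      · show lv3_q a b 2 (b 0) = 1
        rw [lv3_qb hW]; rfl
      · show lv3_q a b 2 (b 1) = 0
        rw [lv3_qb hW]; rfl
      · show lv3_q a b 2 (b 2) = 1
        rw [lv3_qb hW]; rfl
      · exact h3 0
      · exact h3 1
      · exact h3 2
    · obtain ⟨f, hf, hfC, hfd, hfa, hfb⟩ := hreal ![1, 1, 0] (by decide)
      refine ⟨f, hf, hfC, fun j => ?_⟩
      fin_cases j
      · exact hfa 0
      · exact hfa 1
      · exact hfa 2
      · exact hfb 0
      · exact hfb 1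
      · exact hfb 2
      · exact hfd 0
      · exact hfd 1
      · exact hfd 2
    · obtain ⟨f, hf, hfC, hfd, hfa, hfb⟩ := hreal ![1, 0, 1] (by decide)
      refine ⟨f, hf, hfC, fun j => ?_⟩
      fin_cases j
      · exact hfa 0
      · exact hfa 1
      · exact hfa 2
      · exact hfb 0
      · exact hfb 1
      · exact hfb 2
      · exact hfd 0
      · exact hfd 1
      · exact hfd 2
  · intro f hf hfC
    have r0 : f (a 0) = f (a 1) + f (a 2) := by
      have h1 := hA f hf
      generalize f (a 0) = x at h1 ⊢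
      generalize f (a 1) = y at h1 ⊢
      generalize f (a 2) = z at h1 ⊢
      revert x y z
      decide
    have r3 : f (b 0) = f (b 1) + f (b 2) := by
      have h1 := hB f hf
      generalize f (b 0) = x at h1 ⊢
      generalize f (b 1) = y at h1 ⊢
      generalize f (b 2) = z at h1 ⊢
      revert x y z
      decide
    have r6 := hσf f hf hfC 0
    have r7 := hσf f hf hfC 1
    have r8 := hσf f hf hfC 2
    refine ⟨![f (b 1), f (b 2), f (d (σ 1)), f (d (σ 2))], fun j => ?_⟩
    have key : ∀ x1 x2 x4 x5 : ZMod 2, ∀ j : Fin 9,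
        (![x1 + x2, x1, x2, x4 + x5, x4, x5, x1 + x2 + (x4 + x5), x1 + x4, x2 + x5] : Fin 9 → ZMod 2) j
          = ∑ i, (![x4, x5, x1 + x4, x2 + x5] : Fin 4 → ZMod 2) i * K33s i j := by
      decide
    have h1 := key (f (a 1)) (f (a 2)) (f (b 1)) (f (b 2)) j
    rw [r7, r8]
    rw [← h1]
    fin_cases j
    · exact r0
    · rfl
    · rfl
    · exact r3
    · rfl
    · rfl
    · show f (d (σ 0)) = _
      rw [r6, r0, r3]
      rfl
    · exact r7
    · exact r8

end SEY

end

section

/-!
LV-9 (project SEY, block LEVEL): the `W`-structures of `M` and of `M.dual` are disjoint.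

`W = {a i, b i}`: cycles `{a i}`, `{b i}`, rows `{a i, b i, a j, b j}` of `M`.  `W' = {y i, z i}` is a
`W`-structure of `M.dual`, i.e. `{y i}`, `{z i}` are rows of `M` (they are orthogonal to all cycles;
use `BM.dual_dual`), `{y i, z i, y j, z j}` are cycles of `M`.
Encode the coincidences: enumerate `W` as `u : Fin 6 -> E` (`u = ![a 0, a 1, a 2, b 0, b 1, b 2]`) and `W'` as
`u' : Fin 6 -> E` (`![y 0, y 1, y 2, z 0, z 1, z 2]`), and define `m : Fin 6 -> Fin 7` by `m j = i` if
`u' j = u i` and `m j = 6` if `u' j` is not in `W`.  `m` is injective away from the value 6.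
Every row is orthogonal to every cycle:
 (P1) for each row `{u i : i in I}`, `I` one of `{0,3,1,4}, {0,3,2,5}, {1,4,2,5}`, and each cycle
      `{u' j : j in J}`, `J` one of the same three sets: `#{j in J : m j in I}` is even;
 (P2) for each row `{u' j : j in J}`, `J = {0,1,2}` or `{3,4,5}`, and each cycle `{u i : i in I}`,
      `I = {0,1,2}` or `{3,4,5}`: `#{j in J : m j in I}` is even.
FINITE CHECK (computer: 108 solutions `m` besides the constant 6): if `m` is not constant 6 and satisfies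
(P1), (P2) and injectivity then exactly four `m j` are different from 6 (so `W cup W'` has 8
elements), and the four rows `R1 = {u 0, u 3, u 1, u 4}`, `R2 = {u 0, u 3, u 2, u 5}`, `R3 = {u' 0, u' 1, u' 2}`,
`R4 = {u' 3, u' 4, u' 5}` are independent and the four cycles `{u 0, u 1, u 2}`, `{u 3, u 4, u 5}`,
`{u' 0, u' 3, u' 1, u' 4}`, `{u' 0, u' 3, u' 2, u' 5}` are independent (as subsets of
`Fin 6 + {j : m j = 6}`).  This can be decided by the kernel: choose `(m 0, m 1, m 2)` first
(343 cases, (P2) for `J = {0,1,2}`), then `(m 3, m 4, m 5)`; encode sets as bit masks (12 bits: bit `i` for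
`u i`, bit `6 + j` for `u' j` if `m j = 6`), independence of four vectors = the 15 nonempty xor's are
nonzero.
Then `lam_le` for `A = W cup W'` (8 elements, 4 independent cycles, 4 independent rows) gives
`lam A + 4 + 4 <= 8`, so `lam A = 0`, but `A` is neither empty nor `S` (`|S| >= 9`): contradiction to `TC`.
-/

set_option autoImplicit false

namespace SEY

open Finset

namespace Disj

def tb (I : ℕ) (x : ℕ) : Bool := Nat.testBit I x
/-- parity of the coincidences: three/four indices -/
def par3 (I a b c : ℕ) : Bool := xor (tb I a) (xor (tb I b) (tb I c))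
def par4 (I a b c d : ℕ) : Bool := xor (xor (tb I a) (tb I b)) (xor (tb I c) (tb I d))
def inj3 (a b c : ℕ) : Bool := (a != b || a == 6) && (a != c || a == 6) && (b != c || b == 6)
def c1 (a b c : ℕ) : Bool := inj3 a b c && !(par3 7 a b c) && !(par3 56 a b c)
def c2 (a b c d e f : ℕ) : Bool :=
  (a != d || a == 6) && (a != e || a == 6) && (a != f || a == 6) &&
  (b != d || b == 6) && (b != e || b == 6) && (b != f || b == 6) &&
  (c != d || c == 6) && (c != e || c == 6) && (c != f || c == 6) &&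
  !(par4 27 a b d e) && !(par4 45 a b d e) && !(par4 54 a b d e) &&
  !(par4 27 a c d f) && !(par4 45 a c d f) && !(par4 54 a c d f) &&
  !(par4 27 b c e f) && !(par4 45 b c e f) && !(par4 54 b c e f)
def six (a : ℕ) : ℕ := if a = 6 then 1 else 0
/-- the value at `u' k` -/
def ev (I1 I2 J1 J2 : ℕ) (g0 g1 g2 g3 : Bool) (mk k : ℕ) : Bool :=
  xor (xor (g0 && tb I1 mk) (g1 && tb I2 mk)) (xor (g2 && tb J1 k) (g3 && tb J2 k))
def evu (I1 I2 : ℕ) (g0 g1 : Bool) (i : ℕ) : Bool := xor (g0 && tb I1 i) (g1 && tb I2 i)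
def notin (i a b c d e f : ℕ) : Bool :=
  a != i && b != i && c != i && d != i && e != i && f != i
def hyp (I1 I2 J1 J2 : ℕ) (g0 g1 g2 g3 : Bool) (a b c d e f : ℕ) : Bool :=
  !(ev I1 I2 J1 J2 g0 g1 g2 g3 a 0) && !(ev I1 I2 J1 J2 g0 g1 g2 g3 b 1) &&
  !(ev I1 I2 J1 J2 g0 g1 g2 g3 c 2) && !(ev I1 I2 J1 J2 g0 g1 g2 g3 d 3) &&
  !(ev I1 I2 J1 J2 g0 g1 g2 g3 e 4) && !(ev I1 I2 J1 J2 g0 g1 g2 g3 f 5) &&
  (!(notin 0 a b c d e f) || !(evu I1 I2 g0 g1 0)) &&
  (!(notin 1 a b c d e f) || !(evu I1 I2 g0 g1 1)) &&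
  (!(notin 2 a b c d e f) || !(evu I1 I2 g0 g1 2)) &&
  (!(notin 3 a b c d e f) || !(evu I1 I2 g0 g1 3)) &&
  (!(notin 4 a b c d e f) || !(evu I1 I2 g0 g1 4)) &&
  (!(notin 5 a b c d e f) || !(evu I1 I2 g0 g1 5))
def concl (I1 I2 J1 J2 : ℕ) (a b c d e f : ℕ) : Bool :=
  [false, true].all fun g0 => [false, true].all fun g1 => [false, true].all fun g2 =>
    [false, true].all fun g3 => !(hyp I1 I2 J1 J2 g0 g1 g2 g3 a b c d e f) ||
      (!g0 && !g1 && !g2 && !g3)
def fin (a b c d e f : ℕ) : Bool :=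
  (a == 6 && b == 6 && c == 6 && d == 6 && e == 6 && f == 6) ||
    (six a + six b + six c + six d + six e + six f == 2 &&
      concl 27 45 7 56 a b c d e f && concl 7 56 27 45 a b c d e f)
def st3 (a b c : ℕ) : Bool :=
  (List.range 7).all fun d => (List.range 7).all fun e => (List.range 7).all fun f =>
    !(c1 d e f) || !(c2 a b c d e f) || fin a b c d e f
def all6 : Bool :=
  (List.range 7).all fun a => (List.range 7).all fun b => (List.range 7).all fun c =>
    !(c1 a b c) || st3 a b c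
theorem all6_true : all6 = true := by decide +kernel
theorem core (a b c d e f : ℕ) (ha : a < 7) (hb : b < 7) (hc : c < 7) (hd : d < 7) (he : e < 7)
    (hf : f < 7) (h1 : c1 a b c = true) (h2 : c1 d e f = true) (h3 : c2 a b c d e f = true) :
    fin a b c d e f = true := by
  have h := all6_true
  simp only [all6, st3, List.all_eq_true, List.mem_range, Bool.or_eq_true, Bool.not_eq_true'] at h
  have := h a ha b hb c hc
  rcases this with this | this
  · rw [h1] at this; exact absurd this (by decide)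
  · rcases this d hd e he f hf with (this | this) | this
    · rw [h2] at this; exact absurd this (by decide)
    · rw [h3] at this; exact absurd this (by decide)
    · exact this

end Disj

variable {E : Type} [Fintype E] [DecidableEq E]

namespace Disj

/-- Boolean values as elements of `ZMod 2`. -/
def bz (b : Bool) : ZMod 2 := if b then 1 else 0

lemma bz_xor (a b : Bool) : bz (xor a b) = bz a + bz b := by
  cases a <;> cases b <;> decide

lemma bz_and (a b : Bool) : bz (a && b) = bz a * bz b := by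
  cases a <;> cases b <;> decide

lemma bz_eq_zero {a : Bool} : bz a = 0 ↔ a = false := by
  cases a <;> simp [bz]

lemma exists_bz (x : ZMod 2) : ∃ b, x = bz b := by
  rcases zcases x with h | h
  · exact ⟨false, by rw [h]; rfl⟩
  · exact ⟨true, by rw [h]; rfl⟩

/-- the subset of the range of `u` given by a bit mask -/
def st (u : Fin 6 → E) (I : ℕ) : Finset E := (univ.filter fun i : Fin 6 => tb I i.val = true).image u

omit [Fintype E] in
lemma ind_st_self (u : Fin 6 → E) (hu : Function.Injective u) (I : ℕ) (i : Fin 6) :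
    ind (st u I) (u i) = bz (tb I i) := by
  by_cases h : tb I i = true
  · rw [ind_of_mem, h]; rfl
    exact mem_image.2 ⟨i, by simpa using h, rfl⟩
  · rw [ind_of_notMem]
    · simp only [Bool.not_eq_true] at h
      rw [h]; rfl
    · intro hm
      obtain ⟨j, hj, hji⟩ := mem_image.1 hm
      rw [hu hji] at hj
      exact h (by simpa using hj)

omit [Fintype E] in
lemma ind_st_out (u : Fin 6 → E) (I : ℕ) (e : E) (he : ∀ i, u i ≠ e) : ind (st u I) e = 0 := by
  rw [ind_of_notMem]
  intro hm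
  obtain ⟨j, -, hj⟩ := mem_image.1 hm
  exact he j hj

/-- `m` encodes the coincidences of `u'` with `u` -/
structure Enc (u u' : Fin 6 → E) (m : Fin 6 → ℕ) : Prop where
  lt : ∀ j, m j < 7
  eq : ∀ j (i : Fin 6), m j = i ↔ u' j = u i

omit [Fintype E] in
lemma exists_enc (u u' : Fin 6 → E) (hu : Function.Injective u) : ∃ m, Enc u u' m := by
  classical
  refine ⟨fun j => if h : ∃ i, u' j = u i then (h.choose : ℕ) else 6, ?_, ?_⟩
  · intro j
    by_cases h : ∃ i, u' j = u i
    · simp only [h, dif_pos]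
      have := h.choose.isLt
      omega
    · simp [h]
  · intro j i
    by_cases h : ∃ i, u' j = u i
    · simp only [h, dif_pos]
      have hs := h.choose_spec
      constructor
      · intro h1
        have : h.choose = i := Fin.ext h1
        rw [← this]; exact hs
      · intro h1
        have : h.choose = i := hu (hs.symm.trans h1)
        rw [this]
    · simp only [h, dif_neg, not_false_eq_true]
      constructor
      · intro h1
        have := i.isLt
        omega
      · intro h1
        exact absurd ⟨i, h1⟩ h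

omit [Fintype E] in
lemma Enc.val {u u' : Fin 6 → E} {m : Fin 6 → ℕ} (hm : Enc u u' m) (hu : Function.Injective u)
    {I : ℕ} (hI : tb I 6 = false) (j : Fin 6) : ind (st u I) (u' j) = bz (tb I (m j)) := by
  by_cases h : m j = 6
  · rw [ind_st_out, h, hI]; rfl
    intro i hi
    have := (hm.eq j i).2 hi.symm
    have := i.isLt
    omega
  · have hlt : m j < 6 := by have := hm.lt j; omega
    have h1 := (hm.eq j ⟨m j, hlt⟩).1 rfl
    rw [h1, ind_st_self u hu]

omit [Fintype E] in
/-- evaluation of a primed set at an unprimed element which is not hit -/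
lemma Enc.out {u u' : Fin 6 → E} {m : Fin 6 → ℕ} (hm : Enc u u' m) {J : ℕ} (i : Fin 6)
    (h : ∀ j, m j ≠ i) : ind (st u' J) (u i) = 0 := by
  apply ind_st_out
  intro j hj
  exact h j ((hm.eq j i).2 hj)

lemma dot_st (f : E → ZMod 2) (u' : Fin 6 → E) (hu' : Function.Injective u') (J : ℕ) :
    dot f (ind (st u' J)) = ∑ j, bz (tb J j.val) * f (u' j) := by
  rw [dot_ind, st, sum_image (fun x _ y _ h => hu' h), sum_filter]
  refine sum_congr rfl fun j _ => ?_
  by_cases h : tb J j.val = true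
  · simp [h, bz]
  · simp [h, bz]

lemma dot_st_st {u u' : Fin 6 → E} {m : Fin 6 → ℕ} (hm : Enc u u' m) (hu : Function.Injective u)
    (hu' : Function.Injective u') {I J : ℕ} (hI : tb I 6 = false)
    (h : dot (ind (st u I)) (ind (st u' J)) = 0) :
    ∑ j : Fin 6, bz (tb J j.val) * bz (tb I (m j)) = 0 := by
  rw [dot_st _ u' hu'] at h
  rw [← h]
  exact sum_congr rfl fun j _ => by rw [hm.val hu hI]

omit [Fintype E] in
lemma linInd_of_concl {u u' : Fin 6 → E} {m : Fin 6 → ℕ} (hm : Enc u u' m)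
    (hu : Function.Injective u) (hu' : Function.Injective u') {I1 I2 J1 J2 : ℕ}
    (h1 : tb I1 6 = false) (h2 : tb I2 6 = false)
    (hc : concl I1 I2 J1 J2 (m 0) (m 1) (m 2) (m 3) (m 4) (m 5) = true) :
    LinearIndependent (ZMod 2)
      ![(ind (st u I1) : E → ZMod 2), ind (st u I2), ind (st u' J1), ind (st u' J2)] := by
  rw [Fintype.linearIndependent_iff]
  intro g hg
  obtain ⟨g0, h0⟩ := exists_bz (g 0)
  obtain ⟨g1, h1'⟩ := exists_bz (g 1)
  obtain ⟨g2, h2'⟩ := exists_bz (g 2)
  obtain ⟨g3, h3⟩ := exists_bz (g 3)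
  have hev : ∀ e : E, bz g0 * ind (st u I1) e + bz g1 * ind (st u I2) e +
      bz g2 * ind (st u' J1) e + bz g3 * ind (st u' J2) e = 0 := by
    intro e
    have := congrFun hg e
    simp only [Fin.sum_univ_four, Matrix.cons_val_zero, Matrix.cons_val_one,
      Matrix.cons_val, Pi.add_apply, Pi.smul_apply, smul_eq_mul, Pi.zero_apply, h0, h1', h2',
      h3] at this
    exact this
  have e1 : ∀ k : Fin 6, ev I1 I2 J1 J2 g0 g1 g2 g3 (m k) k = false := by
    intro k
    have := hev (u' k)
    rw [hm.val hu h1, hm.val hu h2, ind_st_self u' hu', ind_st_self u' hu'] at this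
    rw [← bz_eq_zero, ev]
    simp only [bz_xor, bz_and]
    rw [← this]
    ring
  have e2 : ∀ i : Fin 6, (∀ j, m j ≠ i) → evu I1 I2 g0 g1 i = false := by
    intro i hi
    have := hev (u i)
    rw [ind_st_self u hu, ind_st_self u hu, hm.out i hi, hm.out i hi] at this
    rw [← bz_eq_zero, evu]
    simp only [bz_xor, bz_and]
    rw [← this]
    ring
  have e2' : ∀ i : Fin 6, (notin i (m 0) (m 1) (m 2) (m 3) (m 4) (m 5) = false ∨
      evu I1 I2 g0 g1 i = false) := by
    intro i
    by_cases h : ∀ j, m j ≠ i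
    · exact Or.inr (e2 i h)
    · left
      push Not at h
      obtain ⟨j, hj⟩ := h
      fin_cases j <;> simp_all [notin]
  have hh : hyp I1 I2 J1 J2 g0 g1 g2 g3 (m 0) (m 1) (m 2) (m 3) (m 4) (m 5) = true := by
    have t0 := e1 0
    have t1 := e1 1
    have t2 := e1 2
    have t3 := e1 3
    have t4 := e1 4
    have t5 := e1 5
    have s0 := e2' 0
    have s1 := e2' 1
    have s2 := e2' 2
    have s3 := e2' 3
    have s4 := e2' 4
    have s5 := e2' 5
    simp only [Fin.val_zero, Fin.val_one, Fin.val_two, show ((3 : Fin 6) : ℕ) = 3 from rfl,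
      show ((4 : Fin 6) : ℕ) = 4 from rfl, show ((5 : Fin 6) : ℕ) = 5 from rfl] at t0 t1 t2 t3 t4 t5 s0 s1 s2 s3 s4 s5
    simp only [hyp, t0, t1, t2, t3, t4, t5, Bool.and_eq_true, Bool.or_eq_true, Bool.not_eq_true',
      Bool.not_false, true_and]
    exact ⟨⟨⟨⟨⟨s0, s1⟩, s2⟩, s3⟩, s4⟩, s5⟩
  have hfin : g0 = false ∧ g1 = false ∧ g2 = false ∧ g3 = false := by
    simp only [concl, List.all_cons, List.all_nil, Bool.and_true, Bool.and_eq_true] at hc
    revert hc hh
    clear e2' e2 e1 hev h0 h1' h2' h3 hg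
    generalize hyp I1 I2 J1 J2 false false false false (m 0) (m 1) (m 2) (m 3) (m 4) (m 5) = q0
    cases g0 <;> cases g1 <;> cases g2 <;> cases g3 <;> simp_all
  intro i
  fin_cases i
  · show g 0 = 0
    rw [h0, hfin.1]; rfl
  · show g 1 = 0
    rw [h1', hfin.2.1]; rfl
  · show g 2 = 0
    rw [h2', hfin.2.2.1]; rfl
  · show g 3 = 0
    rw [h3, hfin.2.2.2]; rfl

/-- the six elements in order -/
def sx (a b : Fin 3 → E) : Fin 6 → E := ![a 0, a 1, a 2, b 0, b 1, b 2]

omit [Fintype E] [DecidableEq E] in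
lemma sx_inj {a b : Fin 3 → E} (ha : Function.Injective a) (hb : Function.Injective b)
    (hab : ∀ i j, a i ≠ b j) : Function.Injective (sx a b) := by
  have hba : ∀ i j, b i ≠ a j := fun i j => (hab j i).symm
  intro i j h
  fin_cases i <;> fin_cases j <;>
    simp [sx, ha.eq_iff, hb.eq_iff, hab, hba] at h ⊢

/-- the properties of a `W`-structure in terms of the bit masks -/
lemma WStr_st {M : BM E} {a b : Fin 3 → E} (hW : WStr M a b) :
    Function.Injective (sx a b) ∧ (∀ i, sx a b i ∈ M.S) ∧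
    ind (st (sx a b) 27) ∈ M.R ∧ ind (st (sx a b) 45) ∈ M.R ∧ ind (st (sx a b) 54) ∈ M.R ∧
    ind (st (sx a b) 7) ∈ M.Z ∧ ind (st (sx a b) 56) ∈ M.Z := by
  obtain ⟨haS, hbS, ha, hb, hab, hca, hcb, hq⟩ := hW
  have hinj := sx_inj ha hb hab
  have hS : ∀ i, sx a b i ∈ M.S := by
    intro i
    fin_cases i
    · exact haS 0
    · exact haS 1
    · exact haS 2
    · exact hbS 0
    · exact hbS 1
    · exact hbS 2
  have hsup : ∀ I e, e ∉ M.S → ind (st (sx a b) I) e = 0 := by
    intro I e he
    apply ind_st_out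
    rintro i rfl
    exact he (hS i)
  refine ⟨hinj, hS, ?_, ?_, ?_, ?_, ?_⟩
  · have h1 : st (sx a b) 27 = {a 0, b 0, a 1, b 1} := by
      have : (univ.filter fun i : Fin 6 => tb 27 i.val = true) = {0, 3, 1, 4} := by decide
      rw [st, this]
      simp [image_insert, sx]
    rw [h1]; exact hq 0 1 (by decide)
  · have h1 : st (sx a b) 45 = {a 0, b 0, a 2, b 2} := by
      have : (univ.filter fun i : Fin 6 => tb 45 i.val = true) = {0, 3, 2, 5} := by decide
      rw [st, this]
      simp [image_insert, sx]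
    rw [h1]; exact hq 0 2 (by decide)
  · have h1 : st (sx a b) 54 = {a 1, b 1, a 2, b 2} := by
      have : (univ.filter fun i : Fin 6 => tb 54 i.val = true) = {1, 4, 2, 5} := by decide
      rw [st, this]
      simp [image_insert, sx]
    rw [h1]; exact hq 1 2 (by decide)
  · refine ⟨hsup 7, fun f hf => ?_⟩
    rw [dot_st _ _ hinj, Fin.sum_univ_six, ← hca f hf]
    simp [bz, tb, sx, Nat.testBit]
  · refine ⟨hsup 56, fun f hf => ?_⟩
    rw [dot_st _ _ hinj, Fin.sum_univ_six, ← hcb f hf]
    simp [bz, tb, sx, Nat.testBit]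

end Disj

theorem WW_disjoint (M : BM E) (h : M.TC) (hc : 9 ≤ M.S.card) (a b : Fin 3 → E)
    (hW : WStr M a b) (y z : Fin 3 → E) (hW' : WStr M.dual y z) :
    Disjoint (Wset a b) (Wset y z) := by
  classical
  obtain ⟨hu, huS, hq1, hq2, hq3, hA, hB⟩ := Disj.WStr_st hW
  obtain ⟨hu', huS', hq1', hq2', hq3', hA', hB'⟩ := Disj.WStr_st hW'
  rw [BM.dual_R] at hq1' hq2' hq3'
  rw [BM.dual_Z] at hA' hB'
  obtain ⟨m, hm⟩ := Disj.exists_enc (Disj.sx a b) (Disj.sx y z) hu
  have hrz : ∀ f ∈ M.R, ∀ g ∈ M.Z, dot f g = 0 := fun f hf g hg => hg.2 f hf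
  have key : ∀ I J : ℕ, Disj.tb I 6 = false →
      dot (ind (Disj.st (Disj.sx a b) I)) (ind (Disj.st (Disj.sx y z) J)) = 0 →
      ∑ j : Fin 6, Disj.bz (Disj.tb J j.val) * Disj.bz (Disj.tb I (m j)) = 0 :=
    fun I J hI h => Disj.dot_st_st hm hu hu' hI h
  have hP : ∀ I J : ℕ, Disj.tb I 6 = false →
      dot (ind (Disj.st (Disj.sx a b) I)) (ind (Disj.st (Disj.sx y z) J)) = 0 →
      xor (xor (xor (Disj.tb J 0 && Disj.tb I (m 0)) (Disj.tb J 1 && Disj.tb I (m 1)))
        (xor (Disj.tb J 2 && Disj.tb I (m 2)) (Disj.tb J 3 && Disj.tb I (m 3))))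
        (xor (Disj.tb J 4 && Disj.tb I (m 4)) (Disj.tb J 5 && Disj.tb I (m 5))) = false := by
    intro I J hI h
    have h1 := key I J hI h
    rw [Fin.sum_univ_six] at h1
    rw [← Disj.bz_eq_zero]
    simp only [Disj.bz_xor, Disj.bz_and]
    rw [← h1]
    simp only [Fin.val_zero, Fin.val_one, Fin.val_two, show ((3 : Fin 6) : ℕ) = 3 from rfl,
      show ((4 : Fin 6) : ℕ) = 4 from rfl, show ((5 : Fin 6) : ℕ) = 5 from rfl]
    ring
  have e7 : Disj.tb 7 6 = false := by decide
  have e56 : Disj.tb 56 6 = false := by decide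
  have e27 : Disj.tb 27 6 = false := by decide
  have e45 : Disj.tb 45 6 = false := by decide
  have e54 : Disj.tb 54 6 = false := by decide
  have f1 := hP 7 7 e7 (by rw [dot_comm]; exact hrz _ hA' _ hA)
  have f2 := hP 56 7 e56 (by rw [dot_comm]; exact hrz _ hA' _ hB)
  have f3 := hP 7 56 e7 (by rw [dot_comm]; exact hrz _ hB' _ hA)
  have f4 := hP 56 56 e56 (by rw [dot_comm]; exact hrz _ hB' _ hB)
  have g1 := hP 27 27 e27 (hrz _ hq1 _ hq1')
  have g2 := hP 45 27 e45 (hrz _ hq2 _ hq1')
  have g3 := hP 54 27 e54 (hrz _ hq3 _ hq1')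
  have g4 := hP 27 45 e27 (hrz _ hq1 _ hq2')
  have g5 := hP 45 45 e45 (hrz _ hq2 _ hq2')
  have g6 := hP 54 45 e54 (hrz _ hq3 _ hq2')
  have g7 := hP 27 54 e27 (hrz _ hq1 _ hq3')
  have g8 := hP 45 54 e45 (hrz _ hq2 _ hq3')
  have g9 := hP 54 54 e54 (hrz _ hq3 _ hq3')
  have hinj : ∀ i j : Fin 6, i ≠ j → (m i != m j || m i == 6) = true := by
    intro i j hij
    by_cases h6 : m i = 6
    · simp [h6]
    · have hlt : m i < 6 := by have := hm.lt i; omega
      have : m i ≠ m j := by
        intro h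
        have h1 := (hm.eq i ⟨m i, hlt⟩).1 rfl
        have h2 := (hm.eq j ⟨m i, hlt⟩).1 h.symm
        exact hij (hu' (h1.trans h2.symm))
      simp [this]
  have c1a : Disj.c1 (m 0) (m 1) (m 2) = true := by
    have hi : Disj.inj3 (m 0) (m 1) (m 2) = true := by
      rw [Disj.inj3, hinj 0 1 (by decide), hinj 0 2 (by decide), hinj 1 2 (by decide)]; rfl
    have ha : Disj.par3 7 (m 0) (m 1) (m 2) = false := by
      simpa [Disj.par3, Disj.tb, Nat.testBit] using f1
    have hb : Disj.par3 56 (m 0) (m 1) (m 2) = false := by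
      simpa [Disj.par3, Disj.tb, Nat.testBit] using f2
    rw [Disj.c1, hi, ha, hb]; rfl
  have c1b : Disj.c1 (m 3) (m 4) (m 5) = true := by
    have hi : Disj.inj3 (m 3) (m 4) (m 5) = true := by
      rw [Disj.inj3, hinj 3 4 (by decide), hinj 3 5 (by decide), hinj 4 5 (by decide)]; rfl
    have ha : Disj.par3 7 (m 3) (m 4) (m 5) = false := by
      simpa [Disj.par3, Disj.tb, Nat.testBit, Bool.xor_assoc] using f3
    have hb : Disj.par3 56 (m 3) (m 4) (m 5) = false := by
      simpa [Disj.par3, Disj.tb, Nat.testBit, Bool.xor_assoc] using f4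
    rw [Disj.c1, hi, ha, hb]; rfl
  have hp1 : Disj.par4 27 (m 0) (m 1) (m 3) (m 4) = false := by
    simpa [Disj.par4, Disj.tb, Nat.testBit, Bool.xor_assoc] using g1
  have hp2 : Disj.par4 45 (m 0) (m 1) (m 3) (m 4) = false := by
    simpa [Disj.par4, Disj.tb, Nat.testBit, Bool.xor_assoc] using g2
  have hp3 : Disj.par4 54 (m 0) (m 1) (m 3) (m 4) = false := by
    simpa [Disj.par4, Disj.tb, Nat.testBit, Bool.xor_assoc] using g3
  have hp4 : Disj.par4 27 (m 0) (m 2) (m 3) (m 5) = false := by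
    simpa [Disj.par4, Disj.tb, Nat.testBit, Bool.xor_assoc] using g4
  have hp5 : Disj.par4 45 (m 0) (m 2) (m 3) (m 5) = false := by
    simpa [Disj.par4, Disj.tb, Nat.testBit, Bool.xor_assoc] using g5
  have hp6 : Disj.par4 54 (m 0) (m 2) (m 3) (m 5) = false := by
    simpa [Disj.par4, Disj.tb, Nat.testBit, Bool.xor_assoc] using g6
  have hp7 : Disj.par4 27 (m 1) (m 2) (m 4) (m 5) = false := by
    simpa [Disj.par4, Disj.tb, Nat.testBit, Bool.xor_assoc] using g7
  have hp8 : Disj.par4 45 (m 1) (m 2) (m 4) (m 5) = false := by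
    simpa [Disj.par4, Disj.tb, Nat.testBit, Bool.xor_assoc] using g8
  have hp9 : Disj.par4 54 (m 1) (m 2) (m 4) (m 5) = false := by
    simpa [Disj.par4, Disj.tb, Nat.testBit, Bool.xor_assoc] using g9
  have c2a : Disj.c2 (m 0) (m 1) (m 2) (m 3) (m 4) (m 5) = true := by
    rw [Disj.c2, hinj 0 3 (by decide), hinj 0 4 (by decide), hinj 0 5 (by decide),
      hinj 1 3 (by decide), hinj 1 4 (by decide), hinj 1 5 (by decide),
      hinj 2 3 (by decide), hinj 2 4 (by decide), hinj 2 5 (by decide),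
      hp1, hp2, hp3, hp4, hp5, hp6, hp7, hp8, hp9]
    rfl
  have hfin := Disj.core _ _ _ _ _ _ (hm.lt 0) (hm.lt 1) (hm.lt 2) (hm.lt 3) (hm.lt 4) (hm.lt 5)
    c1a c1b c2a
  rw [Disj.fin, Bool.or_eq_true] at hfin
  rcases hfin with hfin | hfin
  · -- no coincidences
    simp only [Bool.and_eq_true, beq_iff_eq] at hfin
    obtain ⟨⟨⟨⟨⟨h0, h1⟩, h2⟩, h3⟩, h4⟩, h5⟩ := hfin
    have hall : ∀ j, m j = 6 := by
      intro j
      fin_cases j
      · exact h0
      · exact h1
      · exact h2
      · exact h3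
      · exact h4
      · exact h5
    have hne : ∀ i j : Fin 6, Disj.sx a b i ≠ Disj.sx y z j := by
      intro i j h
      have := (hm.eq j i).2 h.symm
      have h6 := hall j
      have := i.isLt
      omega
    rw [Finset.disjoint_left]
    intro e he he'
    have r1 : ∃ i, Disj.sx a b i = e := by
      rcases mem_union.1 he with h | h
      · obtain ⟨i, -, rfl⟩ := mem_image.1 h
        fin_cases i
        · exact ⟨0, rfl⟩
        · exact ⟨1, rfl⟩
        · exact ⟨2, rfl⟩
      · obtain ⟨i, -, rfl⟩ := mem_image.1 h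
        fin_cases i
        · exact ⟨3, rfl⟩
        · exact ⟨4, rfl⟩
        · exact ⟨5, rfl⟩
    have r2 : ∃ i, Disj.sx y z i = e := by
      rcases mem_union.1 he' with h | h
      · obtain ⟨i, -, rfl⟩ := mem_image.1 h
        fin_cases i
        · exact ⟨0, rfl⟩
        · exact ⟨1, rfl⟩
        · exact ⟨2, rfl⟩
      · obtain ⟨i, -, rfl⟩ := mem_image.1 h
        fin_cases i
        · exact ⟨3, rfl⟩
        · exact ⟨4, rfl⟩
        · exact ⟨5, rfl⟩
    obtain ⟨i, hi⟩ := r1
    obtain ⟨j, hj⟩ := r2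
    exact hne i j (hi.trans hj.symm)
  · exfalso
    simp only [Bool.and_eq_true, beq_iff_eq] at hfin
    obtain ⟨⟨hsix, hc1⟩, hc2⟩ := hfin
    have hR := Disj.linInd_of_concl hm hu hu' e27 e45 hc1
    have hZ := Disj.linInd_of_concl hm hu hu' e7 e56 hc2
    set A : Finset E := univ.image (Disj.sx a b) ∪
      (univ.filter (fun j => m j = 6)).image (Disj.sx y z) with hAdef
    have hAS : A ⊆ M.S := by
      intro e he
      rcases mem_union.1 he with h | h
      · obtain ⟨i, -, rfl⟩ := mem_image.1 h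
        exact huS i
      · obtain ⟨i, -, rfl⟩ := mem_image.1 h
        exact huS' i
    have hmem1 : ∀ i, Disj.sx a b i ∈ A := fun i =>
      mem_union_left _ (mem_image_of_mem _ (mem_univ i))
    have hmem2 : ∀ j, Disj.sx y z j ∈ A := by
      intro j
      by_cases h6 : m j = 6
      · exact mem_union_right _ (mem_image_of_mem _ (by simpa using h6))
      · have hlt : m j < 6 := by have := hm.lt j; omega
        rw [(hm.eq j ⟨m j, hlt⟩).1 rfl]
        exact hmem1 _
    have hout1 : ∀ I e, e ∉ A → ind (Disj.st (Disj.sx a b) I) e = 0 := by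
      intro I e he
      apply Disj.ind_st_out
      rintro i rfl
      exact he (hmem1 i)
    have hout2 : ∀ I e, e ∉ A → ind (Disj.st (Disj.sx y z) I) e = 0 := by
      intro I e he
      apply Disj.ind_st_out
      rintro i rfl
      exact he (hmem2 i)
    have hcard : A.card ≤ 8 := by
      have h1 : (univ.image (Disj.sx a b)).card ≤ 6 := by
        simpa using card_image_le (s := (univ : Finset (Fin 6))) (f := Disj.sx a b)
      have h2 : ((univ.filter (fun j => m j = 6)).image (Disj.sx y z)).card ≤ 2 := by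
        refine card_image_le.trans ?_
        have : (univ.filter (fun j : Fin 6 => m j = 6)).card = 2 := by
          rw [card_filter, Fin.sum_univ_six]
          exact hsix
        exact this.le
      exact (card_union_le _ _).trans (by omega)
    have hlam := lam_le M A hAS (m := 4) (n := 4)
      ![ind (Disj.st (Disj.sx a b) 7), ind (Disj.st (Disj.sx a b) 56),
        ind (Disj.st (Disj.sx y z) 27), ind (Disj.st (Disj.sx y z) 45)]
      (by
        intro i
        fin_cases i
        · exact hA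
        · exact hB
        · exact hq1'
        · exact hq2')
      (by
        intro i e he
        fin_cases i
        · exact hout1 7 e he
        · exact hout1 56 e he
        · exact hout2 27 e he
        · exact hout2 45 e he)
      hZ
      ![ind (Disj.st (Disj.sx a b) 27), ind (Disj.st (Disj.sx a b) 45),
        ind (Disj.st (Disj.sx y z) 7), ind (Disj.st (Disj.sx y z) 56)]
      (by
        intro i
        fin_cases i
        · exact hq1
        · exact hq2
        · exact hA'
        · exact hB')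
      (by
        intro i e he
        fin_cases i
        · exact hout1 27 e he
        · exact hout1 45 e he
        · exact hout2 7 e he
        · exact hout2 56 e he)
      hR
    have hl0 : M.lam A = 0 := by omega
    rcases (h.2 A hAS).1 hl0 with h1 | h1
    · have := hmem1 0
      rw [h1] at this
      exact absurd this (by simp)
    · rw [h1] at hcard
      omega

end SEY

end
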