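import Pool.Agent.Helper29.MFA.T15
import Pool.Agent.Helper29.MFA.T10
import Pool.Agent.Helper29.MFA.T01
import Pool.Agent.Helper29.MFA.T02
import Pool.Agent.Helper29.MFA.T51

section

/-!
LV-7a (project SEY, block LEVEL): the grid is 3-connected; connectivity under labelled minors.

* `K33s_tc`: `(ofRows K33).TC` is `K33_tc` (Sc.lean); `ofRows K33s = (ofRows K33).dual` (the row space of
  `K33s` is the orthogonal complement of the row space of `K33`: finite check, e.g. with the
  duality lemmas of Pool/Agent/Helper71/SEYApi.lean), and `TC` is self-dual.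
* `lam_minor`.  `N0 = ofRows rows` on `Fin k`, `X0 = {j : phi j in X}`.  Restricting along `phi` the rows
  `f in R` with `f = 0` on `C` gives exactly the rows of `N0` (`h1`, `h2`).  With `D = S - C - phi(Fin k)`
  the matroid `N = (M.con C).del D` has ground set `phi (Fin k)` and `N0` is its copy, so
  `lam_{N0} X0 = lam_N (X n phi(Fin k)) <= lam_M X` (`lam` does not increase under con and del: API of
  helper71, `BM.lam_con_le`, `BM.lam_del_le` or similar).
-/

set_option autoImplicit false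

namespace SEY

open Finset

variable {E : Type} [Fintype E] [DecidableEq E]

theorem lamMinor_ofRows_dual {r s k : ℕ} {rows : Fin r → Fin k → ZMod 2} {duals : Fin s → Fin k → ZMod 2}
    (hc : Compl rows duals) : (ofRows rows).dual = ofRows duals := by
  refine BM.ext' rfl (fun g => ?_)
  have h1 : g ∈ (ofRows rows).dual.R ↔ ∀ j, ∑ e, g e * rows j e = 0 := by
    constructor
    · intro hg j
      have h := hg.2 (rows j) (Submodule.subset_span ⟨j, rfl⟩)
      unfold dot at h
      rw [← h]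
      exact Finset.sum_congr rfl (fun e _ => mul_comm _ _)
    · intro h
      refine ⟨fun e he => absurd (Finset.mem_univ e) he, fun f hf => ?_⟩
      have hf' : f ∈ Submodule.span (ZMod 2) (Set.range rows) := hf
      induction hf' using Submodule.span_induction with
      | mem x hx =>
        obtain ⟨j, rfl⟩ := hx
        unfold dot
        rw [← h j]
        exact Finset.sum_congr rfl (fun e _ => mul_comm _ _)
      | zero => simp
      | add x y hx hy h1 h2 => rw [dot_add_left, h1 hx, h2 hy, add_zero]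
      | smul c x hx h1 => rw [dot_smul_left, h1 hx, mul_zero]
  have h2 : g ∈ (ofRows duals).R ↔ ∃ c : Fin s → ZMod 2, ∀ e, g e = ∑ i, c i * duals i e := by
    change g ∈ Submodule.span (ZMod 2) (Set.range duals) ↔ _
    rw [Submodule.mem_span_range_iff_exists_fun]
    constructor
    · rintro ⟨c, rfl⟩
      refine ⟨c, fun e => ?_⟩
      simp [Finset.sum_apply]
    · rintro ⟨c, h⟩
      refine ⟨c, ?_⟩
      funext e
      rw [h e]
      simp [Finset.sum_apply]
  rw [h1, h2, hc.symm.span g]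

theorem K33s_tc : (ofRows K33s).TC := by
  rw [← lamMinor_ofRows_dual compl_K33]
  exact K33_tc.dual

/-- Extension by zero along `φ`. -/
def lamMinorExt {k : ℕ} (φ : Fin k → E) : (Fin k → ZMod 2) →ₗ[ZMod 2] (E → ZMod 2) where
  toFun g := fun e => ∑ i, if φ i = e then g i else 0
  map_add' f g := by
    funext e
    simp only [Pi.add_apply]
    rw [← Finset.sum_add_distrib]
    refine Finset.sum_congr rfl (fun i _ => ?_)
    by_cases h : φ i = e <;> simp [h]
  map_smul' c f := by
    funext e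
    simp only [Pi.smul_apply, smul_eq_mul, RingHom.id_apply]
    rw [Finset.mul_sum]
    refine Finset.sum_congr rfl (fun i _ => ?_)
    by_cases h : φ i = e <;> simp [h]

theorem lamMinor_r_pull {k : ℕ} {φ : Fin k → E} (hφ : Function.Injective φ) (N : BM E) (N0 : BM (Fin k))
    (hR : N0.R = N.R.map (LinearMap.funLeft (ZMod 2) (ZMod 2) φ)) (A : Finset E) :
    N0.r (univ.filter (fun j => φ j ∈ A)) = N.r (A ∩ univ.image φ) := by
  unfold BM.r
  rw [hR]
  have e1 : (N.R.map (LinearMap.funLeft (ZMod 2) (ZMod 2) φ)).map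
      (mask (univ.filter (fun j => φ j ∈ A))) =
      (N.R.map (mask (A ∩ univ.image φ))).map (LinearMap.funLeft (ZMod 2) (ZMod 2) φ) := by
    rw [← Submodule.map_comp, ← Submodule.map_comp]
    congr 1
    ext f j
    simp [LinearMap.funLeft_apply, mask_apply]
  have e2 : N.R.map (mask (A ∩ univ.image φ)) =
      ((N.R.map (LinearMap.funLeft (ZMod 2) (ZMod 2) φ)).map
      (mask (univ.filter (fun j => φ j ∈ A)))).map (lamMinorExt φ) := by
    rw [← Submodule.map_comp, ← Submodule.map_comp]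
    congr 1
    refine LinearMap.ext (fun f => ?_)
    funext e
    simp only [LinearMap.comp_apply, mask_apply]
    change _ = ∑ i, if φ i = e then
      (mask (univ.filter (fun j => φ j ∈ A)) (LinearMap.funLeft (ZMod 2) (ZMod 2) φ f)) i else 0
    by_cases he : ∃ i, φ i = e
    · obtain ⟨i, rfl⟩ := he
      rw [Finset.sum_eq_single i]
      · simp [mask_apply, LinearMap.funLeft_apply]
      · intro b _ hb
        rw [if_neg (fun h => hb (hφ h))]
      · intro h
        exact absurd (Finset.mem_univ i) h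
    · rw [if_neg, Finset.sum_eq_zero]
      · intro i _
        rw [if_neg (fun h => he ⟨i, h⟩)]
      · intro h
        rw [Finset.mem_inter, Finset.mem_image] at h
        obtain ⟨_, i, _, hi⟩ := h
        exact he ⟨i, hi⟩
  apply le_antisymm
  · rw [e1]
    exact Submodule.finrank_map_le _ _
  · rw [e2]
    exact Submodule.finrank_map_le _ _

/-- The connectivity function does not increase under minors. -/
theorem lam_minor {r k : ℕ} (rows : Fin r → Fin k → ZMod 2) (M : BM E) (φ : Fin k → E)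
    (C : Finset E) (hφ : Function.Injective φ) (hφS : ∀ i, φ i ∈ M.S) (hCS : C ⊆ M.S)
    (hφC : ∀ i, φ i ∉ C)
    (h1 : ∀ i, ∃ f ∈ M.R, (∀ c ∈ C, f c = 0) ∧ ∀ j, f (φ j) = rows i j)
    (h2 : ∀ f ∈ M.R, (∀ c ∈ C, f c = 0) → ∃ c : Fin r → ZMod 2, ∀ j, f (φ j) = ∑ i, c i * rows i j)
    (X : Finset E) (hX : X ⊆ M.S) :
    (ofRows rows).lam (univ.filter (fun j => φ j ∈ X)) ≤ M.lam X := by
  have hR : (ofRows rows).R =
      (M.con C).R.map (LinearMap.funLeft (ZMod 2) (ZMod 2) φ) := by
    apply le_antisymm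
    · change Submodule.span (ZMod 2) (Set.range rows) ≤ _
      rw [Submodule.span_le]
      rintro _ ⟨i, rfl⟩
      obtain ⟨f, hf, hf1, hf2⟩ := h1 i
      exact ⟨f, ⟨hf, hf1⟩, funext hf2⟩
    · rintro _ ⟨f, hf, rfl⟩
      obtain ⟨c, hc⟩ := h2 f hf.1 hf.2
      change _ ∈ Submodule.span (ZMod 2) (Set.range rows)
      rw [Submodule.mem_span_range_iff_exists_fun]
      refine ⟨c, ?_⟩
      funext j
      rw [LinearMap.funLeft_apply, hc j]
      simp [Finset.sum_apply]
  set I : Finset E := univ.image φ with hI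
  have hmI : ∀ j, φ j ∈ I := fun j => Finset.mem_image_of_mem φ (Finset.mem_univ j)
  have hIS : I ⊆ M.S \ C := by
    intro e he
    rw [hI, Finset.mem_image] at he
    obtain ⟨i, _, rfl⟩ := he
    exact Finset.mem_sdiff.2 ⟨hφS i, hφC i⟩
  have hN : Minor ((M.con C).del Iᶜ) M := ⟨C, Iᶜ, rfl⟩
  refine le_trans (le_of_eq ?_) (hN.lam_le X)
  have hS : ((M.con C).del Iᶜ).S = I := by
    ext e
    simp only [BM.del_S, BM.con_S, Finset.mem_sdiff, Finset.mem_compl, not_not]
    constructor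
    · exact fun h => h.2
    · exact fun h => ⟨Finset.mem_sdiff.1 (hIS h), h⟩
  have key : ∀ A : Finset E, (ofRows rows).r (univ.filter (fun j => φ j ∈ A)) =
      ((M.con C).del Iᶜ).r A := by
    intro A
    rw [BM.r_del, lamMinor_r_pull hφ (M.con C) (ofRows rows) hR A]
    congr 1
    ext e
    simp [hI]
  have k1 := key X
  have k2 := key (I \ X)
  have k3 := key I
  have u1 : univ.filter (fun j => φ j ∈ I) = (ofRows rows).S := by
    ext j
    simp [hmI, ofRows]
  have u2 : univ.filter (fun j => φ j ∈ I \ X) =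
      (ofRows rows).S \ univ.filter (fun j => φ j ∈ X) := by
    ext j
    simp [hmI, ofRows]
  rw [u1] at k3
  rw [u2] at k2
  unfold BM.lam
  rw [k1, k2, k3, hS]

end SEY

end

section

/-!
Block INTER (UB-1).  The binary matroid of a unimodular family of vectors.

`fns v` are the value vectors of linear functionals, `deps v` the linear dependencies,
`bm v` is the binary matroid whose rows are the reductions modulo 2 of the integral vectors in
`fns v`.
-/

set_option autoImplicit false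

namespace SEY.UB

open Submodule Module

variable {E V : Type} [Fintype E] [DecidableEq E] [AddCommGroup V] [Module ℚ V]

omit [Fintype E] [DecidableEq E] in
/-- The value vectors of the linear functionals. -/
def fns (v : E → V) : Submodule ℚ (E → ℚ) where
  carrier := {p | ∃ f : V →ₗ[ℚ] ℚ, ∀ e, p e = f (v e)}
  add_mem' := by
    rintro p q ⟨f, hf⟩ ⟨g, hg⟩
    exact ⟨f + g, fun e => by simp [hf e, hg e]⟩
  zero_mem' := ⟨0, fun e => by simp⟩
  smul_mem' := by
    rintro c p ⟨f, hf⟩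
    exact ⟨c • f, fun e => by simp [hf e]⟩

omit [DecidableEq E] in
/-- The linear dependencies. -/
def deps (v : E → V) : Submodule ℚ (E → ℚ) where
  carrier := {q | ∑ e, q e • v e = 0}
  add_mem' := by
    intro p q hp hq
    simp only [Set.mem_ofPred_eq, Pi.add_apply, add_smul, Finset.sum_add_distrib] at *
    rw [hp, hq, add_zero]
  zero_mem' := by simp
  smul_mem' := by
    intro c p hp
    simp only [Set.mem_ofPred_eq, Pi.smul_apply, smul_eq_mul, mul_smul] at *
    rw [← Finset.smul_sum, hp, smul_zero]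

/-- `p` has entries `0, 1, -1` and support `d`. -/
def Sgn (p : E → ℚ) (d : E → ZMod 2) : Prop :=
  ∀ e, (d e = 0 ∧ p e = 0) ∨ (d e = 1 ∧ (p e = 1 ∨ p e = -1))

/-- The binary matroid of `v`. -/
def bm (v : E → V) : BM E where
  S := Finset.univ
  R :=
    { carrier := {d | ∃ p ∈ fns v, ∃ h : E → ℤ, (∀ e, p e = h e) ∧ ∀ e, d e = (h e : ZMod 2)}
      add_mem' := by
        rintro c d ⟨p, hp, h, h1, h2⟩ ⟨q, hq, k, h3, h4⟩
        exact ⟨p + q, (fns v).add_mem hp hq, h + k, fun e => by simp [h1 e, h3 e],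
          fun e => by simp [h2 e, h4 e]⟩
      zero_mem' := ⟨0, (fns v).zero_mem, 0, fun e => by simp, fun e => by simp⟩
      smul_mem' := by
        rintro c d ⟨p, hp, h, h1, h2⟩
        rcases zcases c with rfl | rfl
        · exact ⟨0, (fns v).zero_mem, 0, fun e => by simp, fun e => by simp⟩
        · exact ⟨p, hp, h, h1, fun e => by simp [h2 e]⟩ }
  supp := fun _ _ e he => absurd (Finset.mem_univ e) he

omit [DecidableEq E] in
theorem mem_deps {v : E → V} {q : E → ℚ} : q ∈ deps v ↔ ∑ e, q e • v e = 0 := Iff.rfl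

@[simp] theorem bm_S (v : E → V) : (bm v).S = Finset.univ := rfl

omit [DecidableEq E] in
/-- Functionals and dependencies are orthogonal. -/
theorem fns_deps {v : E → V} {p q : E → ℚ} (hp : p ∈ fns v) (hq : q ∈ deps v) :
    ∑ e, p e * q e = 0 := by
  obtain ⟨f, hf⟩ := hp
  have h : f (∑ e, q e • v e) = 0 := by rw [mem_deps.1 hq, map_zero]
  rw [map_sum] at h
  rw [← h]
  exact Finset.sum_congr rfl (fun e _ => by rw [map_smul, hf e, smul_eq_mul, mul_comm])

omit [Fintype E] [DecidableEq E] in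
/-- The integral vector with support `d` behind a signed vector. -/
theorem Sgn.int {p : E → ℚ} {d : E → ZMod 2} (h : Sgn p d) :
    ∃ k : E → ℤ, (∀ e, p e = k e) ∧ ∀ e, d e = (k e : ZMod 2) := by
  have key : ∀ e, ∃ k : ℤ, p e = k ∧ d e = (k : ZMod 2) := by
    intro e
    rcases h e with ⟨h1, h2⟩ | ⟨h1, h2 | h2⟩
    · exact ⟨0, by rw [h2]; simp, by rw [h1]; simp⟩
    · exact ⟨1, by rw [h2]; simp, by rw [h1]; simp⟩
    · exact ⟨-1, by rw [h2]; simp, by rw [h1]; decide⟩
  choose k hk using key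
  exact ⟨k, fun e => (hk e).1, fun e => (hk e).2⟩

omit [Fintype E] [DecidableEq E] in
/-- The support of a vector with entries `0, 1, -1`. -/
theorem exists_sgn {p : E → ℚ} (h : ∀ e, p e = 0 ∨ p e = 1 ∨ p e = -1) :
    Sgn p (fun e => if p e = 0 then 0 else 1) := by
  intro e
  rcases h e with h | h | h
  · left; simp [h]
  · right
    refine ⟨?_, Or.inl h⟩
    show (if p e = 0 then (0 : ZMod 2) else 1) = 1
    rw [if_neg (by rw [h]; norm_num)]
  · right
    refine ⟨?_, Or.inr h⟩
    show (if p e = 0 then (0 : ZMod 2) else 1) = 1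
    rw [if_neg (by rw [h]; norm_num)]

/-- The supports of signed functionals are rows. -/
theorem row_of_fn {v : E → V} {p : E → ℚ} (hp : p ∈ fns v) {d : E → ZMod 2} (h : Sgn p d) :
    d ∈ (bm v).R := by
  obtain ⟨k, h1, h2⟩ := h.int
  exact ⟨p, hp, k, h1, h2⟩

/-- The supports of signed dependencies are cycles. -/
theorem cycle_of_dep {v : E → V} {q : E → ℚ} (hq : q ∈ deps v) {d : E → ZMod 2} (h : Sgn q d) :
    d ∈ (bm v).Z := by
  obtain ⟨k, h1, h2⟩ := h.int
  refine ⟨fun e he => absurd (Finset.mem_univ e) he, ?_⟩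
  rintro c ⟨p, hp, m, h3, h4⟩
  have h5 := fns_deps hp hq
  have h6 : (∑ e, m e * k e : ℤ) = 0 := by
    have : ((∑ e, m e * k e : ℤ) : ℚ) = 0 := by
      push_cast
      rw [← h5]
      exact Finset.sum_congr rfl (fun e _ => by rw [h1, h3])
    exact_mod_cast this
  have h7 : ((∑ e, m e * k e : ℤ) : ZMod 2) = 0 := by rw [h6]; simp
  unfold dot
  rw [← h7]
  push_cast
  exact Finset.sum_congr rfl (fun e _ => by rw [h2, h4])

omit [DecidableEq E] in
/-- Functionals with values `0, 1, -1` separating an element from a set. -/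
theorem exists_fn {v : E → V} (hU : RC.Uni (Set.range v)) (A : Set E) (i : E)
    (hi : v i ∉ span ℚ (v '' A)) :
    ∃ p ∈ fns v, (∀ e ∈ A, p e = 0) ∧ p i = 1 ∧ ∀ e, p e = 0 ∨ p e = 1 ∨ p e = -1 := by
  classical
  obtain ⟨T, hTA, -, hT1, hT2⟩ :=
    exists_linearIndepOn_extension (linearIndepOn_empty ℚ v) (Set.empty_subset A)
  have hspan : span ℚ (v '' A) ≤ span ℚ (v '' T) := span_le.2 hT1
  have hiT : v i ∉ span ℚ (v '' T) := fun h => hi (span_mono (Set.image_mono hTA) h)
  have hins := hT2.insert hiT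
  obtain ⟨B, -, hTB, hB1, hB2⟩ := exists_linearIndepOn_extension hins (Set.subset_univ _)
  have hiB : i ∈ B := hTB (Set.mem_insert _ _)
  -- the coordinate functional
  have hli : LinearIndependent ℚ (fun b : B => v b) := hB2
  obtain ⟨f, hf⟩ := LinearMap.exists_extend ((Basis.span hli).constr ℚ
    (fun b : B => if (b : E) = i then (1 : ℚ) else 0))
  have hfb : ∀ b : B, f (v b) = if (b : E) = i then (1 : ℚ) else 0 := by
    intro b
    have h1 := LinearMap.congr_fun hf (Basis.span hli b)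
    rw [Basis.constr_basis] at h1
    rw [← h1, LinearMap.comp_apply, Submodule.subtype_apply, Basis.span_apply]
  have hfT : ∀ y ∈ span ℚ (v '' T), f y = 0 := by
    intro y hy
    have : span ℚ (v '' T) ≤ LinearMap.ker f := by
      rw [span_le]
      rintro _ ⟨t, ht, rfl⟩
      rw [SetLike.mem_coe, LinearMap.mem_ker]
      have h1 := hfb ⟨t, hTB (Set.mem_insert_of_mem _ ht)⟩
      simp only at h1
      rw [h1, if_neg]
      rintro rfl
      exact hiT (subset_span ⟨t, ht, rfl⟩)
    exact this hy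
  refine ⟨fun e => f (v e), ⟨f, fun e => rfl⟩, fun e he => ?_, ?_, fun e => ?_⟩
  · exact hfT _ (hspan (subset_span ⟨e, he, rfl⟩))
  · have h1 := hfb ⟨i, hiB⟩
    simpa using h1
  · have he : v e ∈ span ℚ (v '' B) := hB1 ⟨e, Set.mem_univ _, rfl⟩
    have hBf : B = ((B.toFinset : Finset E) : Set E) := by simp
    rw [hBf, Submodule.mem_span_image_finset_iff_exists_fun] at he
    obtain ⟨c, hc⟩ := he
    let c' : E → ℚ := fun b => if h : b ∈ B.toFinset then c ⟨b, h⟩ else 0
    have hc' : ∑ b ∈ B.toFinset, c' b • v b = v e := by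
      rw [← hc, ← Finset.sum_coe_sort]
      refine Finset.sum_congr rfl (fun b _ => ?_)
      simp only [c']
      rw [dif_pos b.2]
    have h2 := RC.uni_coord hU v B.toFinset (fun b _ => ⟨b, rfl⟩) (by rw [← hBf]; exact hB2) c'
      (by rw [hc']; exact ⟨e, rfl⟩) i (by simpa using hiB)
    have h3 : f (v e) = c' i := by
      rw [← hc', map_sum, Finset.sum_eq_single i]
      · rw [map_smul]
        have h1 : f (v i) = 1 := by
          have h1 := hfb ⟨i, hiB⟩
          simpa using h1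
        rw [h1, smul_eq_mul, mul_one]
      · intro b hb hbi
        rw [map_smul]
        have h1 : f (v b) = 0 := by
          have h1 := hfb ⟨b, by simpa using hb⟩
          simpa [hbi] using h1
        rw [h1, smul_zero]
      · intro h
        exact absurd (by simpa using hiB) h
    show f (v e) = 0 ∨ f (v e) = 1 ∨ f (v e) = -1
    rw [h3]
    exact h2

/-- The same on the level of rows. -/
theorem exists_row {v : E → V} (hU : RC.Uni (Set.range v)) (A : Set E) (i : E)
    (hi : v i ∉ span ℚ (v '' A)) :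
    ∃ d ∈ (bm v).R, ∃ p ∈ fns v, Sgn p d ∧ (∀ e ∈ A, d e = 0) ∧ d i = 1 := by
  obtain ⟨p, hp, hA, h1, h2⟩ := exists_fn hU A i hi
  refine ⟨_, row_of_fn hp (exists_sgn h2), p, hp, exists_sgn h2, fun e he => ?_, ?_⟩
  · simp [hA e he]
  · simp [h1]

/-- A row vanishing on a set vanishes on its closure. -/
theorem row_closure {v : E → V} (hU : RC.Uni (Set.range v)) {d : E → ZMod 2}
    (hd : d ∈ (bm v).R) (A : Set E) (hA : ∀ e ∈ A, d e = 0) {i : E}
    (hi : v i ∈ span ℚ (v '' A)) : d i = 0 := by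
  classical
  obtain ⟨p, ⟨f, hf⟩, h, h1, h2⟩ := hd
  obtain ⟨T, hTA, -, hT1, hT2⟩ :=
    exists_linearIndepOn_extension (linearIndepOn_empty ℚ v) (Set.empty_subset A)
  have he : v i ∈ span ℚ (v '' T) := (span_le.2 hT1) hi
  have hBf : T = ((T.toFinset : Finset E) : Set E) := by simp
  rw [hBf, Submodule.mem_span_image_finset_iff_exists_fun] at he
  obtain ⟨c, hc⟩ := he
  let c' : E → ℚ := fun b => if h : b ∈ T.toFinset then c ⟨b, h⟩ else 0
  have hc' : ∑ b ∈ T.toFinset, c' b • v b = v i := by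
    rw [← hc, ← Finset.sum_coe_sort]
    refine Finset.sum_congr rfl (fun b _ => ?_)
    simp only [c']
    rw [dif_pos b.2]
  have h3 := RC.uni_coord hU v T.toFinset (fun b _ => ⟨b, rfl⟩) (by rw [← hBf]; exact hT2) c'
    (by rw [hc']; exact ⟨i, rfl⟩)
  -- integral coefficients
  have h4 : ∀ b : E, ∃ k : ℤ, b ∈ T.toFinset → c' b = k := by
    intro b
    by_cases hb : b ∈ T.toFinset
    · rcases h3 b hb with h | h | h
      · exact ⟨0, fun _ => by rw [h]; simp⟩
      · exact ⟨1, fun _ => by rw [h]; simp⟩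
      · exact ⟨-1, fun _ => by rw [h]; simp⟩
    · exact ⟨0, fun h => absurd h hb⟩
  choose k hk using h4
  have h5 : (h i : ℤ) = ∑ b ∈ T.toFinset, k b * h b := by
    have : (h i : ℚ) = ((∑ b ∈ T.toFinset, k b * h b : ℤ) : ℚ) := by
      rw [← h1 i, hf i, ← hc', map_sum]
      push_cast
      refine Finset.sum_congr rfl (fun b hb => ?_)
      rw [map_smul, smul_eq_mul, ← hf b, h1 b, hk b hb]
    exact_mod_cast this
  rw [h2 i, h5]
  push_cast
  refine Finset.sum_eq_zero (fun b hb => ?_)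
  rw [← h2 b, hA b (hTA (by simpa using hb)), mul_zero]

end SEY.UB

end

section

/-!
Block INTER (UB-2).  Minimal rows and minimal cycles of `bm v` are signed by functionals and
dependencies; the same for minors.
-/

set_option autoImplicit false

namespace SEY.UB

open Submodule Module

variable {E V : Type} [Fintype E] [DecidableEq E] [AddCommGroup V] [Module ℚ V]

/-- Minimal rows are signed by functionals. -/
theorem isMin_row {v : E → V} (hU : RC.Uni (Set.range v)) {d : E → ZMod 2}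
    (hd : IsMin (bm v).R d) : ∃ p ∈ fns v, Sgn p d := by
  obtain ⟨h1, h2, h3⟩ := hd
  obtain ⟨i, hi⟩ : ∃ i, d i ≠ 0 := by
    by_contra hcon
    push Not at hcon
    exact h2 (funext hcon)
  have hcl : v i ∉ span ℚ (v '' {e | d e = 0}) :=
    fun h => hi (row_closure hU h1 {e | d e = 0} (fun e he => he) h)
  obtain ⟨d', hd', p, hp, hs, hA, h4⟩ := exists_row hU {e | d e = 0} i hcl
  have h5 : d' = d := by
    refine h3 d' hd' ?_ ?_
    · rintro rfl
      simp at h4
    · intro e he
      rw [mem_spt] at he ⊢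
      intro h
      exact he (hA e h)
  rw [← h5]
  exact ⟨p, hp, hs⟩

/-- A signed dependency gives a cycle. -/
theorem exists_cycle_of_dep {v : E → V} (hU : RC.Uni (Set.range v)) (T : Finset E)
    (hT : ¬ LinearIndepOn ℚ v (T : Set E)) :
    ∃ q ∈ deps v, ∃ z, Sgn q z ∧ z ≠ 0 ∧ spt z ⊆ T := by
  -- a minimal dependent subset
  have key : ∀ n : ℕ, ∀ T : Finset E, T.card = n → ¬ LinearIndepOn ℚ v (T : Set E) →
      ∃ S ⊆ T, ¬ LinearIndepOn ℚ v (S : Set E) ∧
        ∀ i ∈ S, LinearIndepOn ℚ v ((S.erase i : Finset E) : Set E) := by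
    intro n
    induction n with
    | zero =>
      intro T hT h
      rw [Finset.card_eq_zero] at hT
      subst hT
      exact absurd (by simp) h
    | succ n ih =>
      intro T hT h
      by_cases hmin : ∀ i ∈ T, LinearIndepOn ℚ v ((T.erase i : Finset E) : Set E)
      · exact ⟨T, Finset.Subset.refl _, h, hmin⟩
      · push Not at hmin
        obtain ⟨i, hi, hi2⟩ := hmin
        obtain ⟨S, hS, hS2, hS3⟩ := ih (T.erase i) (by rw [Finset.card_erase_of_mem hi, hT]; rfl) hi2
        exact ⟨S, hS.trans (Finset.erase_subset _ _), hS2, hS3⟩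
  obtain ⟨S, hST, hS, hmin⟩ := key T.card T rfl hT
  rw [linearIndepOn_finset_iff] at hS
  push Not at hS
  obtain ⟨c, hc0, i0, hi0, hci0⟩ := hS
  have hcirc := RC.uni_circ hU v S (fun i _ => ⟨i, rfl⟩) hmin c hc0 ⟨i0, hi0, hci0⟩
  let q : E → ℚ := fun e => if e ∈ S then c e / c i0 else 0
  have hq : ∀ e, q e = 0 ∨ q e = 1 ∨ q e = -1 := by
    intro e
    by_cases he : e ∈ S
    · have h1 : q e = c e / c i0 := if_pos he
      rw [h1]
      rcases (hcirc e he).2 i0 hi0 with h | h
      · right; left; rw [h, div_self hci0]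
      · right; right; rw [h, neg_div, div_self hci0]
    · left; exact if_neg he
  refine ⟨q, ?_, _, exists_sgn hq, ?_, ?_⟩
  · rw [mem_deps]
    have h1 : ∑ e, q e • v e = ∑ e ∈ S, (c e / c i0) • v e := by
      rw [← Finset.sum_subset (Finset.subset_univ S) (fun e _ he => by
        simp only [q]; rw [if_neg he, zero_smul])]
      exact Finset.sum_congr rfl (fun e he => by simp only [q]; rw [if_pos he])
    rw [h1]
    have h2 : ∑ e ∈ S, (c e / c i0) • v e = (c i0)⁻¹ • ∑ e ∈ S, c e • v e := by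
      rw [Finset.smul_sum]
      exact Finset.sum_congr rfl (fun e _ => by rw [smul_smul, div_eq_inv_mul])
    rw [h2, hc0, smul_zero]
  · intro h
    have h1 := congrFun h i0
    have h2 : q i0 = 1 := by simp only [q]; rw [if_pos hi0, div_self hci0]
    simp only [Pi.zero_apply] at h1
    rw [if_neg (by rw [h2]; norm_num)] at h1
    exact one_ne_zero h1
  · refine Finset.Subset.trans ?_ hST
    intro e he
    by_contra heS
    rw [mem_spt] at he
    apply he
    have : q e = 0 := if_neg heS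
    simp [this]

/-- Minimal cycles are signed by dependencies. -/
theorem isMin_cycle {v : E → V} (hU : RC.Uni (Set.range v)) {z : E → ZMod 2}
    (hz : IsMin (bm v).Z z) : ∃ q ∈ deps v, Sgn q z := by
  obtain ⟨h1, h2, h3⟩ := hz
  have hdep : ¬ LinearIndepOn ℚ v ((spt z : Finset E) : Set E) := by
    intro hli
    obtain ⟨i, hi⟩ : ∃ i, z i ≠ 0 := by
      by_contra hcon
      push Not at hcon
      exact h2 (funext hcon)
    have his : i ∈ spt z := mem_spt.2 hi
    have hcl : v i ∉ span ℚ (v '' (((spt z).erase i : Finset E) : Set E)) := by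
      have h4 := (linearIndepOn_insert (K := ℚ) (f := v) (s := (((spt z).erase i : Finset E) : Set E))
        (a := i) (by simp)).1 (by
          rw [← Finset.coe_insert, Finset.insert_erase his]; exact hli)
      exact h4.2
    obtain ⟨d, hd, -, -, -, hA, h4⟩ := exists_row hU _ i hcl
    have h5 := (bm v).dot_eq_zero hd h1
    rw [dot_eq_sum_right (A := spt z) (fun e he => notMem_spt.1 he),
      ← Finset.add_sum_erase _ _ his] at h5
    rw [Finset.sum_eq_zero (fun e he => by rw [hA e he, zero_mul]), add_zero, h4, one_mul] at h5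
    exact hi h5
  obtain ⟨q, hq, z', hs, hz0, hz1⟩ := exists_cycle_of_dep hU _ hdep
  have h5 : z' = z := h3 z' (cycle_of_dep hq hs) hz0 hz1
  rw [← h5]
  exact ⟨q, hq, hs⟩

/-- The minor of `bm v` on the elements `φ j` obtained by contracting `C` is the matroid on
`Fin k` spanned by `rows`. -/
structure Mn (v : E → V) {r k : ℕ} (rows : Fin r → Fin k → ZMod 2) (φ : Fin k → E)
    (C : Finset E) : Prop where
  lift : ∀ i, ∃ f ∈ (bm v).R, (∀ c ∈ C, f c = 0) ∧ ∀ j, f (φ j) = rows i j
  comb : ∀ f ∈ (bm v).R, (∀ c ∈ C, f c = 0) →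
    ∃ c : Fin r → ZMod 2, ∀ j, f (φ j) = ∑ i, c i * rows i j

theorem mn_of_hasMinor {v : E → V} {r k : ℕ} {rows : Fin r → Fin k → ZMod 2}
    (h : HasMinor rows (bm v)) : ∃ (φ : Fin k → E) (C : Finset E), Mn v rows φ C := by
  obtain ⟨φ, C, -, -, -, -, h1, h2⟩ := h
  exact ⟨φ, C, h1, h2⟩

theorem mn_of_isIso {v : E → V} {r k : ℕ} {rows : Fin r → Fin k → ZMod 2}
    (h : IsIso rows (bm v)) : ∃ φ : Fin k → E, (∀ e, ∃ i, φ i = e) ∧ Mn v rows φ ∅ := by
  obtain ⟨φ, -, h0, h1, h2⟩ := h
  refine ⟨φ, fun e => (h0 e).1 (Finset.mem_univ e), fun i => ?_, fun f hf _ => h2 f hf⟩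
  obtain ⟨f, hf, h3⟩ := h1 i
  exact ⟨f, hf, by simp, h3⟩

/-- Minimal combinations of the rows are signed by functionals. -/
theorem Mn.sgn {v : E → V} (hU : RC.Uni (Set.range v)) {r k : ℕ}
    {rows : Fin r → Fin k → ZMod 2} {φ : Fin k → E} {C : Finset E} (h : Mn v rows φ C)
    (c : Fin r → ZMod 2) (hne : ∃ j, ∑ i, c i * rows i j ≠ 0)
    (hmin : ∀ c' : Fin r → ZMod 2, (∃ j, ∑ i, c' i * rows i j ≠ 0) →
      (∀ j, ∑ i, c i * rows i j = 0 → ∑ i, c' i * rows i j = 0) →
        ∀ j, ∑ i, c' i * rows i j = ∑ i, c i * rows i j) :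
    ∃ p ∈ fns v, (∀ e ∈ C, p e = 0) ∧
      ∀ j, (∑ i, c i * rows i j = 0 ∧ p (φ j) = 0) ∨
        (∑ i, c i * rows i j = 1 ∧ (p (φ j) = 1 ∨ p (φ j) = -1)) := by
  obtain ⟨j0, hj0⟩ := hne
  choose f hf hfC hfφ using h.lift
  let d0 : E → ZMod 2 := ∑ i, c i • f i
  have hd0 : d0 ∈ (bm v).R := Submodule.sum_mem _ (fun i _ => (bm v).R.smul_mem _ (hf i))
  have hd0C : ∀ e ∈ C, d0 e = 0 := by
    intro e he
    simp only [d0, Finset.sum_apply, Pi.smul_apply, smul_eq_mul]
    exact Finset.sum_eq_zero (fun i _ => by rw [hfC i e he, mul_zero])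
  have hd0φ : ∀ j, d0 (φ j) = ∑ i, c i * rows i j := by
    intro j
    simp only [d0, Finset.sum_apply, Pi.smul_apply, smul_eq_mul]
    exact Finset.sum_congr rfl (fun i _ => by rw [hfφ])
  have hcl : v (φ j0) ∉ span ℚ (v '' {e | d0 e = 0}) := fun h1 =>
    hj0 (by rw [← hd0φ]; exact row_closure hU hd0 {e | d0 e = 0} (fun e he => he) h1)
  obtain ⟨d, hd, p, hp, hs, hA, h4⟩ := exists_row hU {e | d0 e = 0} (φ j0) hcl
  obtain ⟨c', hc'⟩ := h.comb d hd (fun e he => hA e (hd0C e he))
  have h5 := hmin c' ⟨j0, by rw [← hc', h4]; exact one_ne_zero⟩ (fun j hj => by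
    rw [← hc']; exact hA (φ j) (by rw [← hd0φ] at hj; exact hj))
  refine ⟨p, hp, fun e he => ?_, fun j => ?_⟩
  · rcases hs e with h6 | h6
    · exact h6.2
    · exfalso
      have := hA e (hd0C e he)
      rw [this] at h6
      exact zero_ne_one h6.1
  · rw [← h5 j, ← hc' j]
    exact hs (φ j)

/-- A functional vanishing on `C` and on a spanning set vanishes. -/
theorem Mn.vanish {v : E → V} (hU : RC.Uni (Set.range v)) {r k : ℕ}
    {rows : Fin r → Fin k → ZMod 2} {φ : Fin k → E} {C : Finset E} (h : Mn v rows φ C)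
    (B : Finset (Fin k)) (hB : ∀ c : Fin r → ZMod 2, (∀ b ∈ B, ∑ i, c i * rows i b = 0) →
      ∀ j, ∑ i, c i * rows i j = 0)
    {p : E → ℚ} (hp : p ∈ fns v) (hC : ∀ e ∈ C, p e = 0) (hpB : ∀ b ∈ B, p (φ b) = 0) :
    ∀ j, p (φ j) = 0 := by
  intro j
  obtain ⟨f, hf⟩ := hp
  have hcl : v (φ j) ∈ span ℚ (v '' ((C : Set E) ∪ φ '' (B : Set (Fin k)))) := by
    by_contra hcon
    obtain ⟨d, hd, -, -, -, hA, h4⟩ := exists_row hU _ (φ j) hcon
    obtain ⟨c, hc⟩ := h.comb d hd (fun e he => hA e (Or.inl he))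
    have h5 := hB c (fun b hb => by
      rw [← hc]; exact hA (φ b) (Or.inr ⟨b, hb, rfl⟩)) j
    rw [← hc, h4] at h5
    exact one_ne_zero h5
  rw [hf]
  have hle : span ℚ (v '' ((C : Set E) ∪ φ '' (B : Set (Fin k)))) ≤ LinearMap.ker f := by
    rw [span_le]
    rintro _ ⟨e, he | ⟨b, hb, rfl⟩, rfl⟩
    · rw [SetLike.mem_coe, LinearMap.mem_ker, ← hf]
      exact hC e he
    · rw [SetLike.mem_coe, LinearMap.mem_ker, ← hf]
      exact hpB b hb
  exact hle hcl

end SEY.UB

end

section

/-!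
Block INTER (UB-3).  `bm v` has no Fano and no dual Fano minor.

Let `h : HasMinor F7 (bm v)`; `mn_of_hasMinor` gives `φ`, `C` and `Mn v F7 φ C`.  `Mn.sgn` (the
side conditions are closed by `decide` after giving the explicit coefficients `c`) gives
functionals `p` vanishing on `C` whose values at `φ 0, ..., φ 6` are `0, 1, -1` with support a given
nonzero row combination: `f0, f1, f2` for the three rows (supports 0346, 1356, 2456) and `g01`,
`g02`, `g12`, `g012` for their sums (supports 0145, 0235, 1234, 0126).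
By `Mn.vanish` with `B = {0, 1, 2}` every `p` in `fns v` vanishing on `C` with
`p (φ b) = 0` for `b = 0, 1, 2` vanishes at all `φ j`; apply it to
`g - (g 0 / f0 0) • f0 - (g 1 / f1 1) • f1 - (g 2 / f2 2) • f2`.  So for all `j`
`g j = x * f0 j + y * f1 j + z * f2 j` with `x = g 0 / f0 0` and so on.  With all values `1, -1`
on the supports (write `a j = f0 j`, `b j = f1 j`, `c j = f2 j`):
`g01` at 3, 6: `x a3 + y b3 = 0`, `x a6 + y b6 = 0`, so `a3 b3 = a6 b6`;
`g02` at 4, 6: `a4 c4 = a6 c6`;  `g12` at 5, 6: `b5 c5 = b6 c6`;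
so the product of `a3 b3`, `a4 c4`, `b5 c5` is `1`.
`g012` at 3, 4, 5: `a3 b3 = - x y`, `a4 c4 = - x z`, `b5 c5 = - y z`, product `-1`.  Contradiction.

For `F7s` (rows `f0 = 013`, `f1 = 024`, `f2 = 125`, `f3 = 0126`; basis `B = {3, 4, 5, 6}`): the
minimal combinations are `0 + 3` (236), `1 + 3` (146), `2 + 3` (056), `0 + 1 + 2` (345), and the rows
themselves.  With `a j = f0 j`, `b j = f1 j`, `c j = f2 j`, `d j = f3 j`:
`0 + 3` at 0, 1: `a0 d0 = a1 d1`;  `1 + 3` at 0, 2: `b0 d0 = b2 d2`;  `2 + 3` at 1, 2: `c1 d1 = c2 d2`;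
product: `a0 a1 b0 b2 c1 c2 = 1`.
`0 + 1 + 2` at 0, 1, 2: `a0 b0 = - x y`, `a1 c1 = - x z`, `b2 c2 = - y z`, product `-1`.
-/

set_option autoImplicit false

namespace SEY.UB

open Submodule Module

variable {E V : Type} [Fintype E] [DecidableEq E] [AddCommGroup V] [Module ℚ V]

/-- A functional vanishing on `C` with values `0, 1, -1` and support `s` on the `φ j`. -/
def Sv (v : E → V) {k : ℕ} (φ : Fin k → E) (C : Finset E) (s : Fin k → ZMod 2)
    (p : E → ℚ) : Prop :=
  p ∈ fns v ∧ (∀ e ∈ C, p e = 0) ∧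
    ∀ j, (s j = 0 ∧ p (φ j) = 0) ∨ (s j = 1 ∧ p (φ j) * p (φ j) = 1)

omit [Fintype E] [DecidableEq E] in
theorem Sv.zero {v : E → V} {k : ℕ} {φ : Fin k → E} {C : Finset E} {s : Fin k → ZMod 2}
    {p : E → ℚ} (h : Sv v φ C s p) (j : Fin k) (hj : s j = 0) : p (φ j) = 0 := by
  rcases h.2.2 j with h1 | h1
  · exact h1.2
  · rw [hj] at h1
    exact absurd h1.1 (by decide)

omit [Fintype E] [DecidableEq E] in
theorem Sv.one {v : E → V} {k : ℕ} {φ : Fin k → E} {C : Finset E} {s : Fin k → ZMod 2}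
    {p : E → ℚ} (h : Sv v φ C s p) (j : Fin k) (hj : s j = 1) : p (φ j) * p (φ j) = 1 := by
  rcases h.2.2 j with h1 | h1
  · rw [hj] at h1
    exact absurd h1.1 (by decide)
  · exact h1.2

theorem Mn.sv {v : E → V} (hU : RC.Uni (Set.range v)) {r k : ℕ}
    {rows : Fin r → Fin k → ZMod 2} {φ : Fin k → E} {C : Finset E} (h : Mn v rows φ C)
    (c : Fin r → ZMod 2) (s : Fin k → ZMod 2) (hs : ∀ j, ∑ i, c i * rows i j = s j)
    (hne : ∃ j, s j ≠ 0)
    (hmin : ∀ c' : Fin r → ZMod 2, (∃ j, ∑ i, c' i * rows i j ≠ 0) →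
      (∀ j, s j = 0 → ∑ i, c' i * rows i j = 0) →
        ∀ j, ∑ i, c' i * rows i j = s j) : ∃ p, Sv v φ C s p := by
  obtain ⟨p, hp, hC, h1⟩ := h.sgn hU c (by simpa only [hs] using hne)
    (by simpa only [hs] using hmin)
  refine ⟨p, hp, hC, fun j => ?_⟩
  rw [← hs j]
  rcases h1 j with h2 | ⟨h2, h3 | h3⟩
  · exact Or.inl h2
  · exact Or.inr ⟨h2, by rw [h3]; norm_num⟩
  · exact Or.inr ⟨h2, by rw [h3]; norm_num⟩

theorem sq_prod {x y a b : ℚ} (hx : x * x = 1) (hb : b * b = 1) (h : x * a + y * b = 0) :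
    a * b = -(x * y) := by
  linear_combination (x * b) * h - (a * b) * hx - (x * y) * hb

theorem sq_mul {x a : ℚ} (hx : x * x = 1) (ha : a * a = 1) : (x * a) * (x * a) = 1 := by
  linear_combination (a * a) * hx + ha

theorem noF7 {v : E → V} (hU : RC.Uni (Set.range v)) : ¬ HasMinor F7 (bm v) := by
  intro hcon
  obtain ⟨φ, C, h⟩ := mn_of_hasMinor hcon
  obtain ⟨f0, h0⟩ := h.sv hU ![1, 0, 0] ![1, 0, 0, 1, 1, 0, 1] (by decide) (by decide) (by decide)
  obtain ⟨f1, h1⟩ := h.sv hU ![0, 1, 0] ![0, 1, 0, 1, 0, 1, 1] (by decide) (by decide) (by decide)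
  obtain ⟨f2, h2⟩ := h.sv hU ![0, 0, 1] ![0, 0, 1, 0, 1, 1, 1] (by decide) (by decide) (by decide)
  have comb : ∀ g ∈ fns v, (∀ e ∈ C, g e = 0) → ∀ j, g (φ j) =
      (g (φ 0) * f0 (φ 0)) * f0 (φ j) + (g (φ 1) * f1 (φ 1)) * f1 (φ j) +
        (g (φ 2) * f2 (φ 2)) * f2 (φ j) := by
    intro g hg hgC j
    have hmem : g - ((g (φ 0) * f0 (φ 0)) • f0 + (g (φ 1) * f1 (φ 1)) • f1 +
        (g (φ 2) * f2 (φ 2)) • f2) ∈ fns v :=
      (fns v).sub_mem hg ((fns v).add_mem ((fns v).add_mem ((fns v).smul_mem _ h0.1)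
        ((fns v).smul_mem _ h1.1)) ((fns v).smul_mem _ h2.1))
    have hv := h.vanish hU {0, 1, 2} (by decide) hmem (fun e he => by
      simp [hgC e he, h0.2.1 e he, h1.2.1 e he, h2.2.1 e he]) (fun b hb => by
      have e00 := h0.one 0 rfl
      have e01 := h0.zero 1 rfl
      have e02 := h0.zero 2 rfl
      have e10 := h1.zero 0 rfl
      have e11 := h1.one 1 rfl
      have e12 := h1.zero 2 rfl
      have e20 := h2.zero 0 rfl
      have e21 := h2.zero 1 rfl
      have e22 := h2.one 2 rfl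
      simp only [Finset.mem_insert, Finset.mem_singleton] at hb
      rcases hb with rfl | rfl | rfl
      · simp only [Pi.sub_apply, Pi.add_apply, Pi.smul_apply, smul_eq_mul, e10, e20]
        linear_combination (-g (φ 0)) * e00
      · simp only [Pi.sub_apply, Pi.add_apply, Pi.smul_apply, smul_eq_mul, e01, e21]
        linear_combination (-g (φ 1)) * e11
      · simp only [Pi.sub_apply, Pi.add_apply, Pi.smul_apply, smul_eq_mul, e02, e12]
        linear_combination (-g (φ 2)) * e22) j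
    simp only [Pi.sub_apply, Pi.add_apply, Pi.smul_apply, smul_eq_mul] at hv
    linear_combination hv
  -- `0 + 1`
  have k01 : f0 (φ 3) * f1 (φ 3) = f0 (φ 6) * f1 (φ 6) := by
    obtain ⟨g, hg⟩ := h.sv hU ![1, 1, 0] ![1, 1, 0, 0, 1, 1, 0] (by decide) (by decide) (by decide)
    have c3 := comb g hg.1 hg.2.1 3
    have c6 := comb g hg.1 hg.2.1 6
    rw [hg.zero 3 rfl, hg.zero 2 rfl] at c3
    rw [hg.zero 6 rfl, hg.zero 2 rfl] at c6
    have hx := sq_mul (hg.one 0 rfl) (h0.one 0 rfl)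
    rw [sq_prod hx (h1.one 3 rfl) (y := g (φ 1) * f1 (φ 1)) (by linear_combination -c3),
      sq_prod hx (h1.one 6 rfl) (y := g (φ 1) * f1 (φ 1)) (by linear_combination -c6)]
  have k02 : f0 (φ 4) * f2 (φ 4) = f0 (φ 6) * f2 (φ 6) := by
    obtain ⟨g, hg⟩ := h.sv hU ![1, 0, 1] ![1, 0, 1, 1, 0, 1, 0] (by decide) (by decide) (by decide)
    have c3 := comb g hg.1 hg.2.1 4
    have c6 := comb g hg.1 hg.2.1 6
    rw [hg.zero 4 rfl, hg.zero 1 rfl] at c3
    rw [hg.zero 6 rfl, hg.zero 1 rfl] at c6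
    have hx := sq_mul (hg.one 0 rfl) (h0.one 0 rfl)
    rw [sq_prod hx (h2.one 4 rfl) (y := g (φ 2) * f2 (φ 2)) (by linear_combination -c3),
      sq_prod hx (h2.one 6 rfl) (y := g (φ 2) * f2 (φ 2)) (by linear_combination -c6)]
  have k12 : f1 (φ 5) * f2 (φ 5) = f1 (φ 6) * f2 (φ 6) := by
    obtain ⟨g, hg⟩ := h.sv hU ![0, 1, 1] ![0, 1, 1, 1, 1, 0, 0] (by decide) (by decide) (by decide)
    have c3 := comb g hg.1 hg.2.1 5
    have c6 := comb g hg.1 hg.2.1 6
    rw [hg.zero 5 rfl, hg.zero 0 rfl] at c3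
    rw [hg.zero 6 rfl, hg.zero 0 rfl] at c6
    have hx := sq_mul (hg.one 1 rfl) (h1.one 1 rfl)
    rw [sq_prod hx (h2.one 5 rfl) (y := g (φ 2) * f2 (φ 2)) (by linear_combination -c3),
      sq_prod hx (h2.one 6 rfl) (y := g (φ 2) * f2 (φ 2)) (by linear_combination -c6)]
  obtain ⟨g, hg⟩ := h.sv hU ![1, 1, 1] ![1, 1, 1, 0, 0, 0, 1] (by decide) (by decide) (by decide)
  have c3 := comb g hg.1 hg.2.1 3
  have c4 := comb g hg.1 hg.2.1 4
  have c5 := comb g hg.1 hg.2.1 5
  rw [hg.zero 3 rfl, h2.zero 3 rfl] at c3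
  rw [hg.zero 4 rfl, h1.zero 4 rfl] at c4
  rw [hg.zero 5 rfl, h0.zero 5 rfl] at c5
  have hx := sq_mul (hg.one 0 rfl) (h0.one 0 rfl)
  have hy := sq_mul (hg.one 1 rfl) (h1.one 1 rfl)
  have hz := sq_mul (hg.one 2 rfl) (h2.one 2 rfl)
  have l01 := sq_prod hx (h1.one 3 rfl) (a := f0 (φ 3)) (y := g (φ 1) * f1 (φ 1))
    (by linear_combination -c3)
  have l02 := sq_prod hx (h2.one 4 rfl) (a := f0 (φ 4)) (y := g (φ 2) * f2 (φ 2))
    (by linear_combination -c4)
  have l12 := sq_prod hy (h2.one 5 rfl) (a := f1 (φ 5)) (y := g (φ 2) * f2 (φ 2))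
    (by linear_combination -c5)
  have hP : (f0 (φ 3) * f1 (φ 3)) * (f0 (φ 4) * f2 (φ 4)) * (f1 (φ 5) * f2 (φ 5)) = 1 := by
    rw [k01, k02, k12]
    calc _ = (f0 (φ 6) * f0 (φ 6)) * (f1 (φ 6) * f1 (φ 6)) * (f2 (φ 6) * f2 (φ 6)) := by ring
      _ = 1 := by rw [h0.one 6 rfl, h1.one 6 rfl, h2.one 6 rfl]; norm_num
  have hN : (f0 (φ 3) * f1 (φ 3)) * (f0 (φ 4) * f2 (φ 4)) * (f1 (φ 5) * f2 (φ 5)) = -1 := by
    rw [l01, l02, l12]
    calc _ = -(((g (φ 0) * f0 (φ 0)) * (g (φ 0) * f0 (φ 0))) *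
          ((g (φ 1) * f1 (φ 1)) * (g (φ 1) * f1 (φ 1))) *
          ((g (φ 2) * f2 (φ 2)) * (g (φ 2) * f2 (φ 2)))) := by ring
      _ = -1 := by rw [hx, hy, hz]; norm_num
  rw [hP] at hN
  norm_num at hN

theorem noF7s {v : E → V} (hU : RC.Uni (Set.range v)) : ¬ HasMinor F7s (bm v) := by
  intro hcon
  obtain ⟨φ, C, h⟩ := mn_of_hasMinor hcon
  obtain ⟨f0, h0⟩ := h.sv hU ![1, 0, 0, 0] ![1, 1, 0, 1, 0, 0, 0] (by decide) (by decide)
    (by decide)
  obtain ⟨f1, h1⟩ := h.sv hU ![0, 1, 0, 0] ![1, 0, 1, 0, 1, 0, 0] (by decide) (by decide)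
    (by decide)
  obtain ⟨f2, h2⟩ := h.sv hU ![0, 0, 1, 0] ![0, 1, 1, 0, 0, 1, 0] (by decide) (by decide)
    (by decide)
  obtain ⟨f3, h3⟩ := h.sv hU ![0, 0, 0, 1] ![1, 1, 1, 0, 0, 0, 1] (by decide) (by decide)
    (by decide)
  have comb : ∀ g ∈ fns v, (∀ e ∈ C, g e = 0) → ∀ j, g (φ j) =
      (g (φ 3) * f0 (φ 3)) * f0 (φ j) + (g (φ 4) * f1 (φ 4)) * f1 (φ j) +
        (g (φ 5) * f2 (φ 5)) * f2 (φ j) + (g (φ 6) * f3 (φ 6)) * f3 (φ j) := by
    intro g hg hgC j
    have hmem : g - ((g (φ 3) * f0 (φ 3)) • f0 + (g (φ 4) * f1 (φ 4)) • f1 +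
        (g (φ 5) * f2 (φ 5)) • f2 + (g (φ 6) * f3 (φ 6)) • f3) ∈ fns v :=
      (fns v).sub_mem hg ((fns v).add_mem ((fns v).add_mem ((fns v).add_mem
        ((fns v).smul_mem _ h0.1) ((fns v).smul_mem _ h1.1)) ((fns v).smul_mem _ h2.1))
          ((fns v).smul_mem _ h3.1))
    have hv := h.vanish hU {3, 4, 5, 6} (by decide) hmem (fun e he => by
      simp [hgC e he, h0.2.1 e he, h1.2.1 e he, h2.2.1 e he, h3.2.1 e he]) (fun b hb => by
      simp only [Finset.mem_insert, Finset.mem_singleton] at hb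
      rcases hb with rfl | rfl | rfl | rfl
      · simp only [Pi.sub_apply, Pi.add_apply, Pi.smul_apply, smul_eq_mul, h1.zero 3 rfl,
          h2.zero 3 rfl, h3.zero 3 rfl]
        linear_combination (-g (φ 3)) * h0.one 3 rfl
      · simp only [Pi.sub_apply, Pi.add_apply, Pi.smul_apply, smul_eq_mul, h0.zero 4 rfl,
          h2.zero 4 rfl, h3.zero 4 rfl]
        linear_combination (-g (φ 4)) * h1.one 4 rfl
      · simp only [Pi.sub_apply, Pi.add_apply, Pi.smul_apply, smul_eq_mul, h0.zero 5 rfl,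
          h1.zero 5 rfl, h3.zero 5 rfl]
        linear_combination (-g (φ 5)) * h2.one 5 rfl
      · simp only [Pi.sub_apply, Pi.add_apply, Pi.smul_apply, smul_eq_mul, h0.zero 6 rfl,
          h1.zero 6 rfl, h2.zero 6 rfl]
        linear_combination (-g (φ 6)) * h3.one 6 rfl) j
    simp only [Pi.sub_apply, Pi.add_apply, Pi.smul_apply, smul_eq_mul] at hv
    linear_combination hv
  have k0 : f0 (φ 0) * f3 (φ 0) = f0 (φ 1) * f3 (φ 1) := by
    obtain ⟨g, hg⟩ := h.sv hU ![1, 0, 0, 1] ![0, 0, 1, 1, 0, 0, 1] (by decide) (by decide)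
      (by decide)
    have c3 := comb g hg.1 hg.2.1 0
    have c6 := comb g hg.1 hg.2.1 1
    rw [hg.zero 0 rfl, hg.zero 4 rfl, hg.zero 5 rfl] at c3
    rw [hg.zero 1 rfl, hg.zero 4 rfl, hg.zero 5 rfl] at c6
    have hx := sq_mul (hg.one 3 rfl) (h0.one 3 rfl)
    rw [sq_prod hx (h3.one 0 rfl) (y := g (φ 6) * f3 (φ 6)) (by linear_combination -c3),
      sq_prod hx (h3.one 1 rfl) (y := g (φ 6) * f3 (φ 6)) (by linear_combination -c6)]
  have k1 : f1 (φ 0) * f3 (φ 0) = f1 (φ 2) * f3 (φ 2) := by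
    obtain ⟨g, hg⟩ := h.sv hU ![0, 1, 0, 1] ![0, 1, 0, 0, 1, 0, 1] (by decide) (by decide)
      (by decide)
    have c3 := comb g hg.1 hg.2.1 0
    have c6 := comb g hg.1 hg.2.1 2
    rw [hg.zero 0 rfl, hg.zero 3 rfl, hg.zero 5 rfl] at c3
    rw [hg.zero 2 rfl, hg.zero 3 rfl, hg.zero 5 rfl] at c6
    have hx := sq_mul (hg.one 4 rfl) (h1.one 4 rfl)
    rw [sq_prod hx (h3.one 0 rfl) (y := g (φ 6) * f3 (φ 6)) (by linear_combination -c3),
      sq_prod hx (h3.one 2 rfl) (y := g (φ 6) * f3 (φ 6)) (by linear_combination -c6)]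
  have k2 : f2 (φ 1) * f3 (φ 1) = f2 (φ 2) * f3 (φ 2) := by
    obtain ⟨g, hg⟩ := h.sv hU ![0, 0, 1, 1] ![1, 0, 0, 0, 0, 1, 1] (by decide) (by decide)
      (by decide)
    have c3 := comb g hg.1 hg.2.1 1
    have c6 := comb g hg.1 hg.2.1 2
    rw [hg.zero 1 rfl, hg.zero 3 rfl, hg.zero 4 rfl] at c3
    rw [hg.zero 2 rfl, hg.zero 3 rfl, hg.zero 4 rfl] at c6
    have hx := sq_mul (hg.one 5 rfl) (h2.one 5 rfl)
    rw [sq_prod hx (h3.one 1 rfl) (y := g (φ 6) * f3 (φ 6)) (by linear_combination -c3),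
      sq_prod hx (h3.one 2 rfl) (y := g (φ 6) * f3 (φ 6)) (by linear_combination -c6)]
  obtain ⟨g, hg⟩ := h.sv hU ![1, 1, 1, 0] ![0, 0, 0, 1, 1, 1, 0] (by decide) (by decide)
    (by decide)
  have c0 := comb g hg.1 hg.2.1 0
  have c1 := comb g hg.1 hg.2.1 1
  have c2 := comb g hg.1 hg.2.1 2
  rw [hg.zero 0 rfl, hg.zero 6 rfl, h2.zero 0 rfl] at c0
  rw [hg.zero 1 rfl, hg.zero 6 rfl, h1.zero 1 rfl] at c1
  rw [hg.zero 2 rfl, hg.zero 6 rfl, h0.zero 2 rfl] at c2
  have hx := sq_mul (hg.one 3 rfl) (h0.one 3 rfl)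
  have hy := sq_mul (hg.one 4 rfl) (h1.one 4 rfl)
  have hz := sq_mul (hg.one 5 rfl) (h2.one 5 rfl)
  have l01 := sq_prod hx (h1.one 0 rfl) (a := f0 (φ 0)) (y := g (φ 4) * f1 (φ 4))
    (by linear_combination -c0)
  have l02 := sq_prod hx (h2.one 1 rfl) (a := f0 (φ 1)) (y := g (φ 5) * f2 (φ 5))
    (by linear_combination -c1)
  have l12 := sq_prod hy (h2.one 2 rfl) (a := f1 (φ 2)) (y := g (φ 5) * f2 (φ 5))
    (by linear_combination -c2)
  have hN : (f0 (φ 0) * f1 (φ 0)) * (f0 (φ 1) * f2 (φ 1)) * (f1 (φ 2) * f2 (φ 2)) = -1 := by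
    rw [l01, l02, l12]
    calc _ = -(((g (φ 3) * f0 (φ 3)) * (g (φ 3) * f0 (φ 3))) *
          ((g (φ 4) * f1 (φ 4)) * (g (φ 4) * f1 (φ 4))) *
          ((g (φ 5) * f2 (φ 5)) * (g (φ 5) * f2 (φ 5)))) := by ring
      _ = -1 := by rw [hx, hy, hz]; norm_num
  have hP : (f0 (φ 0) * f1 (φ 0)) * (f0 (φ 1) * f2 (φ 1)) * (f1 (φ 2) * f2 (φ 2)) = 1 := by
    calc _ = (f0 (φ 0) * f3 (φ 0)) * (f0 (φ 1) * f3 (φ 1)) *
          ((f1 (φ 0) * f3 (φ 0)) * (f1 (φ 2) * f3 (φ 2))) *
          ((f2 (φ 1) * f3 (φ 1)) * (f2 (φ 2) * f3 (φ 2))) := by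
          have e0 := h3.one 0 rfl
          have e1 := h3.one 1 rfl
          have e2 := h3.one 2 rfl
          calc _ = (f0 (φ 0) * f1 (φ 0)) * (f0 (φ 1) * f2 (φ 1)) * (f1 (φ 2) * f2 (φ 2)) *
                (1 * 1 * 1) := by ring
            _ = (f0 (φ 0) * f1 (φ 0)) * (f0 (φ 1) * f2 (φ 1)) * (f1 (φ 2) * f2 (φ 2)) *
                ((f3 (φ 0) * f3 (φ 0)) * (f3 (φ 1) * f3 (φ 1)) * (f3 (φ 2) * f3 (φ 2))) := by
                rw [e0, e1, e2]
            _ = _ := by ring
      _ = ((f0 (φ 1) * f0 (φ 1)) * (f3 (φ 1) * f3 (φ 1))) *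
          ((f1 (φ 2) * f1 (φ 2)) * (f3 (φ 2) * f3 (φ 2))) *
          ((f2 (φ 2) * f2 (φ 2)) * (f3 (φ 2) * f3 (φ 2))) := by
          rw [k0, k1, k2]; ring
      _ = 1 := by
          rw [h0.one 1 rfl, h1.one 2 rfl, h2.one 2 rfl, h3.one 1 rfl, h3.one 2 rfl]; norm_num
  rw [hP] at hN
  norm_num at hN

theorem noF {v : E → V} (hU : RC.Uni (Set.range v)) : NoF (bm v) := ⟨noF7 hU, noF7s hU⟩

end SEY.UB

end

section

/-!
Block INTER (UB-4).  Ranks.

`finrank_eq_card`: the restriction `R → (T → K)` is a linear bijection (injective by `h1`,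
surjective by `h2`: the element `∑ t, c t • f t`).

`exists_base`: `exists_linearIndepOn_extension (linearIndepOn_empty ..) (empty_subset A)`.

`r_eq`: with a base `T` of `A`, both sides are `T.card`: the left side by `finrank_eq_card` for
`(bm v).R.map (mask A)` (`h1`: `row_closure`; `h2`: `exists_row` for `T.erase t` and `t`, masked),
the right side since `span ℚ (v '' A) = span ℚ (v '' T)` (`finrank_span_eq_card` or
`linearIndepOn` + `finrank_span_finset_eq_card` for the image; `v` is injective on `T`).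

`lam_eq`: `(bm v).lam A = r A + r (univ \ A) - r univ` and
`Submodule.finrank_sup_add_finrank_inf_eq` (the sup is `span ℚ (v '' univ)`).

`finrank_fns`: `finrank_eq_card` over `ℚ` with a base `T` of `univ` (`h1`: a functional vanishing on
`v '' T` vanishes on the span; `h2`: `exists_fn` for `T.erase t` and `t`).
`finrank_deps`: `deps v` is the kernel of the linear map `c ↦ ∑ e, c e • v e` with range
`span ℚ (Set.range v)`, so `finrank (deps v) + finrank (span ..) = card E`
(`LinearMap.finrank_range_add_finrank_ker`, `Fintype.range_linearCombination`); on the binary side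
`rk + nul = card` (see `SEYApi`, e.g. `rk_add_nul` or the like; `(bm v).dual.r univ` is the rank of the dual,
the nullity of `bm v`).
-/

set_option autoImplicit false

namespace SEY.UB

open Submodule Module

variable {E V : Type} [Fintype E] [DecidableEq E] [AddCommGroup V] [Module ℚ V]

omit [DecidableEq E] in
theorem finrank_eq_card {K : Type} [Field K] (R : Submodule K (E → K)) (T : Finset E)
    (h1 : ∀ f ∈ R, (∀ t ∈ T, f t = 0) → f = 0)
    (h2 : ∀ t ∈ T, ∃ f ∈ R, f t = 1 ∧ ∀ s ∈ T, s ≠ t → f s = 0) : finrank K R = T.card := by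
  classical
  let L : R →ₗ[K] (T → K) :=
    { toFun := fun f t => f.1 t.1
      map_add' := fun _ _ => rfl
      map_smul' := fun _ _ => rfl }
  have hinj : Function.Injective L := by
    rw [← LinearMap.ker_eq_bot, LinearMap.ker_eq_bot']
    intro f hf
    apply Subtype.ext
    exact h1 f.1 f.2 (fun t ht => congrFun hf ⟨t, ht⟩)
  have hsurj : Function.Surjective L := by
    intro c
    choose! g hg h1g h0g using h2
    refine ⟨⟨∑ t : T, c t • g t.1, Submodule.sum_mem _ (fun t _ => R.smul_mem _ (hg t.1 t.2))⟩, ?_⟩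
    funext s
    show (∑ t : T, c t • g t.1) s.1 = c s
    rw [Finset.sum_apply, Finset.sum_eq_single s]
    · rw [Pi.smul_apply, h1g s.1 s.2, smul_eq_mul, mul_one]
    · intro t _ hts
      rw [Pi.smul_apply, h0g t.1 t.2 s.1 s.2 (fun h => hts (Subtype.ext h.symm)), smul_zero]
    · intro h
      exact absurd (Finset.mem_univ _) h
  rw [(LinearEquiv.ofBijective L ⟨hinj, hsurj⟩).finrank_eq]
  simp

omit [DecidableEq E] in
theorem exists_base (v : E → V) (A : Finset E) : ∃ T ⊆ A, LinearIndepOn ℚ v (T : Set E) ∧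
    ∀ i ∈ A, v i ∈ span ℚ (v '' (T : Set E)) := by
  classical
  obtain ⟨T, hTA, -, hT1, hT2⟩ :=
    exists_linearIndepOn_extension (linearIndepOn_empty ℚ v) (Set.empty_subset (A : Set E))
  refine ⟨T.toFinset, ?_, ?_, ?_⟩
  · intro x hx
    exact hTA (by simpa using hx)
  · rw [Set.coe_toFinset]; exact hT2
  · intro i hi
    rw [Set.coe_toFinset]
    exact hT1 ⟨i, hi, rfl⟩

omit [Fintype E] in
/-- An element of an independent set is not spanned by the others. -/
theorem notMem_span_erase {v : E → V} {T : Finset E} (hT : LinearIndepOn ℚ v (T : Set E)) {t : E}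
    (ht : t ∈ T) : v t ∉ span ℚ (v '' ((T.erase t : Finset E) : Set E)) := by
  have h4 := (linearIndepOn_insert (K := ℚ) (f := v) (s := ((T.erase t : Finset E) : Set E))
    (a := t) (by simp)).1 (by
      rw [← Finset.coe_insert, Finset.insert_erase ht]; exact hT)
  exact h4.2

omit [Fintype E] [DecidableEq E] in
theorem finrank_of_base {v : E → V} {A T : Finset E} (hTA : T ⊆ A)
    (hT : LinearIndepOn ℚ v (T : Set E)) (hs : ∀ i ∈ A, v i ∈ span ℚ (v '' (T : Set E))) :
    finrank ℚ (span ℚ (v '' (A : Set E))) = T.card := by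
  have h1 : span ℚ (v '' (A : Set E)) = span ℚ (v '' (T : Set E)) := by
    apply le_antisymm
    · rw [span_le]
      rintro _ ⟨i, hi, rfl⟩
      exact hs i hi
    · exact span_mono (Set.image_mono (by exact_mod_cast hTA))
  rw [h1]
  have h2 : LinearIndependent ℚ (fun t : (T : Set E) => v t) := hT
  have h3 := finrank_span_eq_card h2
  have h5 : Fintype.card (T : Set E) = T.card := by simp
  rw [h5, ← Set.image_eq_range] at h3
  exact h3

theorem r_eq {v : E → V} (hU : RC.Uni (Set.range v)) (A : Finset E) :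
    (bm v).r A = finrank ℚ (span ℚ (v '' (A : Set E))) := by
  obtain ⟨T, hTA, hT, hs⟩ := exists_base v A
  rw [finrank_of_base hTA hT hs]
  refine finrank_eq_card _ T ?_ ?_
  · rintro _ ⟨g, hg, rfl⟩ h0
    rw [mask_eq_zero_iff]
    intro e he
    refine row_closure hU hg (T : Set E) (fun t ht => ?_) (hs e he)
    have := h0 t ht
    rwa [mask_apply, if_pos (hTA ht)] at this
  · intro t ht
    obtain ⟨d, hd, -, -, -, hA, h4⟩ := exists_row hU _ t (notMem_span_erase hT ht)
    refine ⟨mask A d, ⟨d, hd, rfl⟩, ?_, fun s hs' hst => ?_⟩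
    · rw [mask_apply, if_pos (hTA ht), h4]
    · rw [mask_apply, if_pos (hTA hs')]
      exact hA s (by simp [hst, hs'])

theorem lam_eq {v : E → V} (hU : RC.Uni (Set.range v)) (A : Finset E) :
    (bm v).lam A = finrank ℚ (span ℚ (v '' (A : Set E)) ⊓
      span ℚ (v '' ((Finset.univ \ A : Finset E) : Set E)) : Submodule ℚ V) := by
  unfold BM.lam
  rw [bm_S, r_eq hU, r_eq hU, r_eq hU]
  have f1 : FiniteDimensional ℚ (span ℚ (v '' (A : Set E))) :=
    FiniteDimensional.span_of_finite ℚ (Set.toFinite _)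
  have f2 : FiniteDimensional ℚ (span ℚ (v '' ((Finset.univ \ A : Finset E) : Set E))) :=
    FiniteDimensional.span_of_finite ℚ (Set.toFinite _)
  have h := Submodule.finrank_sup_add_finrank_inf_eq (span ℚ (v '' (A : Set E)))
    (span ℚ (v '' ((Finset.univ \ A : Finset E) : Set E)))
  rw [← span_union, ← Set.image_union, ← Finset.coe_union,
    Finset.union_sdiff_of_subset (Finset.subset_univ A)] at h
  omega

theorem finrank_fns {v : E → V} (hU : RC.Uni (Set.range v)) :
    finrank ℚ (fns v) = (bm v).r Finset.univ := by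
  obtain ⟨T, hTA, hT, hs⟩ := exists_base v Finset.univ
  rw [r_eq hU, finrank_of_base hTA hT hs]
  refine finrank_eq_card _ T ?_ ?_
  · rintro p ⟨f, hf⟩ h0
    have hle : span ℚ (v '' (T : Set E)) ≤ LinearMap.ker f := by
      rw [span_le]
      rintro _ ⟨t, ht, rfl⟩
      rw [SetLike.mem_coe, LinearMap.mem_ker, ← hf]
      exact h0 t ht
    funext e
    rw [hf e]
    exact hle (hs e (Finset.mem_univ e))
  · intro t ht
    obtain ⟨p, hp, hA, h1, -⟩ := exists_fn hU _ t (notMem_span_erase hT ht)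
    exact ⟨p, hp, h1, fun s hs' hst => hA s (by simp [hst, hs'])⟩

theorem finrank_deps {v : E → V} (hU : RC.Uni (Set.range v)) :
    finrank ℚ (deps v) = (bm v).dual.r Finset.univ := by
  have h1 := (bm v).dual_r_add_rk (A := Finset.univ) (Finset.Subset.refl _)
  have h2 : (bm v).r ((bm v).S \ Finset.univ) = 0 := by
    rw [bm_S, Finset.sdiff_self, BM.r_empty]
  rw [h2, add_zero, ← BM.r_S, bm_S, r_eq hU] at h1
  have h3 := LinearMap.finrank_range_add_finrank_ker (Fintype.linearCombination ℚ v)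
  rw [Fintype.range_linearCombination] at h3
  have h4 : LinearMap.ker (Fintype.linearCombination ℚ v) = deps v := by
    ext q
    rw [LinearMap.mem_ker, Fintype.linearCombination_apply, mem_deps]
  rw [h4] at h3
  have h5 : finrank ℚ (E → ℚ) = Fintype.card E := by simp
  rw [h5] at h3
  rw [Finset.coe_univ, Set.image_univ] at h1
  rw [Finset.card_univ] at h1
  omega

end SEY.UB

end

section

/-!
Block INTER (UB-7).  The graphic and the cographic case.

`dec_graphic`: for `w : W` the vector `e ↦ s e * (Pi.single w 1 (h e) - Pi.single w 1 (t e))` is in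
`fns v`, so there is a functional `g w` with these values; let `φ = LinearMap.pi g`.  Then
`φ (v e) = s e • (Pi.single (h e) 1 - Pi.single (t e) 1)`, which is a difference of unit vectors.
`φ` is injective on the span: if `y ∈ span ℚ (range v)`, `y ≠ 0`, take a functional `f` with
`f y ≠ 0` (`exists_dual` in RG/Small or `Module.forall_dual_apply_eq_zero_iff`); `f ∘ v = s e * (π (h e) - π (t e))`
for some `π`, so `f` and `∑ w, π w • g w` agree on the span and `f y = ∑ w, π w * (φ y) w = 0`.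
Use `Dec.graphic`.

`dec_cographic`: `Dec.cographic` for `X' = Set.range (fun e => s e • v e)` with `u e = s e • v e`: a
vector `a` is a dependency of `u` iff `a e * s e` is a dependency of `v`, iff
`a e * s e = s e * (π (h e) - π (t e))`, iff `a e = π (h e) - π (t e)` (`s e * s e = 1`).  Then
`dec_sub` (`v e` is `u e` or `- u e`).
-/

set_option autoImplicit false

namespace SEY.UB

open Submodule Module

variable {E V : Type} [Fintype E] [DecidableEq E] [AddCommGroup V] [Module ℚ V]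
variable {W : Type} [Fintype W] [DecidableEq W]

theorem sum_single_diff (π : W → ℚ) (a b : W) (c : ℚ) :
    ∑ w, π w * (c * ((Pi.single w 1 : W → ℚ) a - (Pi.single w 1 : W → ℚ) b)) = c * (π a - π b) := by
  have h1 : ∀ w, π w * (c * ((Pi.single w 1 : W → ℚ) a - (Pi.single w 1 : W → ℚ) b)) =
      c * ((if a = w then π w else 0) - (if b = w then π w else 0)) := by
    intro w
    rw [Pi.single_apply, Pi.single_apply]
    split_ifs <;> ring
  rw [Finset.sum_congr rfl (fun w _ => h1 w), ← Finset.mul_sum, Finset.sum_sub_distrib]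
  simp

theorem dec_graphic (v : E → V) (h t : E → W) (s : E → ℚ) (hs : ∀ e, s e = 1 ∨ s e = -1)
    (hP : ∀ p : E → ℚ, p ∈ fns v ↔ ∃ π : W → ℚ, ∀ e, p e = s e * (π (h e) - π (t e))) :
    RC.Dec V (Set.range v) := by
  have hex : ∀ w : W, ∃ g : V →ₗ[ℚ] ℚ, ∀ e,
      s e * ((Pi.single w 1 : W → ℚ) (h e) - (Pi.single w 1 : W → ℚ) (t e)) = g (v e) :=
    fun w => (hP _).2 ⟨Pi.single w 1, fun e => rfl⟩
  choose g hg using hex
  refine RC.Dec.graphic (Set.range v) W (LinearMap.pi g) ?_ ?_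
  · intro y hy h0
    by_contra hne
    obtain ⟨f, hf⟩ := RC.Gut.exists_dual hne
    obtain ⟨π, hπ⟩ := (hP (fun e => f (v e))).1 ⟨f, fun e => rfl⟩
    have hker : span ℚ (Set.range v) ≤ LinearMap.ker (f - ∑ w, π w • g w) := by
      rw [span_le]
      rintro _ ⟨e, rfl⟩
      rw [SetLike.mem_coe, LinearMap.mem_ker, LinearMap.sub_apply, LinearMap.sum_apply]
      have h1 : ∑ w, (π w • g w) (v e) = s e * (π (h e) - π (t e)) := by
        rw [← sum_single_diff π (h e) (t e) (s e)]
        exact Finset.sum_congr rfl (fun w _ => by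
          rw [LinearMap.smul_apply, smul_eq_mul, hg w e])
      rw [h1, ← hπ e, sub_self]
    have h2 := hker hy
    rw [LinearMap.mem_ker, LinearMap.sub_apply, LinearMap.sum_apply, hf] at h2
    have h3 : ∑ w, (π w • g w) y = 0 := by
      refine Finset.sum_eq_zero (fun w _ => ?_)
      have h4 := congrFun h0 w
      rw [LinearMap.pi_apply, Pi.zero_apply] at h4
      rw [LinearMap.smul_apply, h4, smul_zero]
    rw [h3, sub_zero] at h2
    exact one_ne_zero h2
  · rintro _ ⟨e, rfl⟩
    have h1 : (LinearMap.pi g) (v e) = s e • ((Pi.single (h e) 1 : W → ℚ) - Pi.single (t e) 1) := by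
      funext w
      rw [LinearMap.pi_apply, ← hg w e, Pi.smul_apply, Pi.sub_apply, smul_eq_mul]
      simp only [Pi.single_apply, eq_comm]
    rcases hs e with h2 | h2
    · exact ⟨h e, t e, by rw [h1, h2, one_smul]⟩
    · exact ⟨t e, h e, by rw [h1, h2, neg_one_smul, neg_sub]⟩

theorem dec_cographic (v : E → V) (h t : E → W) (s : E → ℚ) (hs : ∀ e, s e = 1 ∨ s e = -1)
    (hP : ∀ p : E → ℚ, p ∈ deps v ↔ ∃ π : W → ℚ, ∀ e, p e = s e * (π (h e) - π (t e))) :
    RC.Dec V (Set.range v) := by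
  have hss : ∀ e, s e * s e = 1 := by
    intro e
    rcases hs e with h1 | h1 <;> rw [h1] <;> norm_num
  have h1 : RC.Dec V (Set.range (fun e => s e • v e)) := by
    refine RC.Dec.cographic _ E W (fun e => s e • v e) h t ?_ ?_
    · intro a
      have h2 : (∑ e, a e • s e • v e = 0) ↔ (fun e => a e * s e) ∈ deps v := by
        rw [mem_deps]
        have h3 : ∀ e, a e • s e • v e = (a e * s e) • v e := fun e => smul_smul _ _ _
        simp only [h3]
      rw [h2, hP]
      constructor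
      · rintro ⟨π, hπ⟩
        refine ⟨π, fun e => ?_⟩
        have h4 : a e * s e = s e * (π (h e) - π (t e)) := hπ e
        calc a e = (a e * s e) * s e := by rw [mul_assoc, hss, mul_one]
          _ = (s e * s e) * (π (h e) - π (t e)) := by rw [h4]; ring
          _ = _ := by rw [hss, one_mul]
      · rintro ⟨π, hπ⟩
        exact ⟨π, fun e => by rw [hπ e]; ring⟩
    · rintro _ ⟨e, rfl⟩
      exact ⟨e, rfl⟩
  refine RC.Gut.dec_sub h1 ?_
  rintro _ ⟨e, rfl⟩
  right
  rcases hs e with h2 | h2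
  · left
    exact ⟨e, by simp only [h2, one_smul]⟩
  · right
    exact ⟨e, by simp only [h2, neg_one_smul]⟩

end SEY.UB

end

section

/-!
Block INTER (UB-8).  The `R10` case.

`mn_of_isIso` gives `φ : Fin 10 → E` (surjective) and `Mn v R10 φ ∅`.  `Mn.sgn` (with explicit
coefficients; the side conditions are closed by `decide`, all row combinations of weight 4 are
minimal) gives functionals `f 0, ..., f 4` signing the rows
`0: 0569, 1: 1567, 2: 2678, 3: 3789, 4: 4589` (the entries are the elements `φ j`); multiplying by `-1` we may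
assume `f i (φ i) = 1`.  `Mn.vanish` with `B = {0, 1, 2, 3, 4}`: every `p ∈ fns v` is
`∑ i, p (φ i) • f i` on all elements.

Let `a i j = f i (φ j)` for `j = 5, ..., 9` (nonzero, `1` or `-1`, exactly on the supports above).
The sums `i + (i + 1)` of adjacent rows have weight 4 and are signed by some
`g = x f i + y f (i + 1)`, `x, y = 1, -1`, which vanishes on the two common elements `j, k` of the two
rows: `x a i j + y a (i+1) j = 0`, same for `k`, so
`a i j * a (i+1) j = a i k * a (i+1) k = - x y`.  (common elements: rows 0, 1: 5, 6; rows 1, 2: 6, 7;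
rows 2, 3: 7, 8; rows 3, 4: 8, 9; rows 4, 0: 5, 9.)  The sum of the rows 0, 1, 3 has support 0138: it
is signed by `g = x f 0 + y f 1 + z f 3` which vanishes on 5, 6, 7, 9, so
`a 0 5 * a 1 5 = - x y`, `a 1 7 * a 3 7 = - y z`, `a 0 9 * a 3 9 = - x z` and the product of these
three is `-1`.

Let `b i j = a i j * (RC.R10 j i)` (`RC.R10 j i = 1, -1` on the supports).  The entries of `RC.R10` satisfy
the same relations, so `b` satisfies: for adjacent rows `b i j * b (i+1) j = b i k * b (i+1) k`, and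
`b 0 5 * b 1 5 * b 1 7 * b 3 7 * b 0 9 * b 3 9 = 1`.  Hence there are signs `r i`, `s j` with
`b i j = r i * s j`: `r 1 = 1`, `s 5 = b 1 5`, `s 6 = b 1 6`, `s 7 = b 1 7`, `r 0 = b 0 5 * s 5`,
`r 2 = b 2 6 * s 6`, `r 3 = b 3 7 * s 7`, `r 4 = b 4 5 * s 5`, `s 8 = b 2 8 * r 2`,
`s 9 = b 0 9 * r 0`.  (Checks: 06 by rows 0, 1; 27 by rows 1, 2; 38 by rows 2, 3; 49 by rows 4, 0; 39 by the
last relation; 48 by rows 3, 4.)

Let `ψ : V →ₗ (Fin 5 → ℚ)`, `ψ x i = r i * F i x` where `F i` is the functional of `f i`.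
For `j ≥ 5`: `ψ (v (φ j)) i = r i * a i j = r i * b i j * RC.R10 j i = s j * RC.R10 j i`
(`RC.R10 j i` is `1, -1` on the support), and `ψ (v (φ i)) = r i • RC.R10 i` for `i < 5`.  So each
`ψ (v e)` is `RC.R10 j` or `- RC.R10 j` for some `j`.  `ψ` is injective on the span: for
`y` in the span, `y ≠ 0`, take a functional `f` with `f y ≠ 0`; `f = ∑ i, f (v (φ i)) • F i` on the span.

The target follows from `Dec.emb` with `f = ψ`, `Y = Set.range RC.R10` and `Dec.r10` (`φ = id`) for
`Y`.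
-/

set_option autoImplicit false

namespace SEY.UB

open Submodule Module

variable {E V : Type} [Fintype E] [DecidableEq E] [AddCommGroup V] [Module ℚ V]

/-- The coefficient vectors of the rows, of the sums of adjacent rows and of the sum of the rows
`0, 1, 3`. -/
def cs : Fin 11 → Fin 5 → ZMod 2 :=
  ![![1, 0, 0, 0, 0], ![0, 1, 0, 0, 0], ![0, 0, 1, 0, 0], ![0, 0, 0, 1, 0], ![0, 0, 0, 0, 1],
    ![1, 1, 0, 0, 0], ![0, 1, 1, 0, 0], ![0, 0, 1, 1, 0], ![0, 0, 0, 1, 1], ![1, 0, 0, 0, 1],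
    ![1, 1, 0, 1, 0]]

theorem cs_ne : ∀ k : Fin 11, ∃ j : Fin 10, ∑ i, cs k i * R10 i j ≠ 0 := by decide +kernel

theorem cs_min : ∀ k : Fin 11, ∀ c' : Fin 5 → ZMod 2, (∃ j : Fin 10, ∑ i, c' i * R10 i j ≠ 0) →
    (∀ j : Fin 10, ∑ i, cs k i * R10 i j = 0 → ∑ i, c' i * R10 i j = 0) →
      ∀ j : Fin 10, ∑ i, c' i * R10 i j = ∑ i, cs k i * R10 i j := by decide +kernel

theorem r10_span : ∀ c : Fin 5 → ZMod 2,
    (∀ b ∈ ({0, 1, 2, 3, 4} : Finset (Fin 10)), ∑ i, c i * R10 i b = 0) →
      ∀ j, ∑ i, c i * R10 i j = 0 := by decide +kernel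

theorem rel2 {x y a b : ℚ} (hy : y * y = 1) (ha : a * a = 1)
    (e : 0 = x * a + y * b) : a * b = -(x * y) := by
  linear_combination -(a * y) * e - x * y * ha - a * b * hy

theorem r10_signs (A : Fin 5 → Fin 10 → ℚ) (h0 : ∀ i j, R10 i j = 0 → A i j = 0)
    (h1 : ∀ i j, R10 i j = 1 → A i j * A i j = 1)
    (d0 : A 0 0 = 1) (d1 : A 1 1 = 1) (d2 : A 2 2 = 1) (d3 : A 3 3 = 1) (d4 : A 4 4 = 1)
    (e01 : A 0 5 * A 1 5 = A 0 6 * A 1 6) (e12 : A 1 6 * A 2 6 = A 1 7 * A 2 7)
    (e23 : A 2 7 * A 3 7 = A 2 8 * A 3 8) (e34 : A 3 8 * A 4 8 = A 3 9 * A 4 9)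
    (e40 : A 4 5 * A 0 5 = A 4 9 * A 0 9)
    (e013 : (A 0 5 * A 1 5) * (A 1 7 * A 3 7) * (A 0 9 * A 3 9) = -1) :
    ∃ (r : Fin 5 → ℚ) (s : Fin 10 → ℚ), (∀ i, r i * r i = 1) ∧ (∀ j, s j * s j = 1) ∧
      ∀ i j, r i * A i j = s j * RC.R10 j i := by
  have q05 := h1 0 5 (by decide)
  have q06 := h1 0 6 (by decide)
  have q09 := h1 0 9 (by decide)
  have q15 := h1 1 5 (by decide)
  have q16 := h1 1 6 (by decide)
  have q17 := h1 1 7 (by decide)
  have q26 := h1 2 6 (by decide)
  have q27 := h1 2 7 (by decide)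
  have q28 := h1 2 8 (by decide)
  have q37 := h1 3 7 (by decide)
  have q38 := h1 3 8 (by decide)
  have q39 := h1 3 9 (by decide)
  have q45 := h1 4 5 (by decide)
  have q48 := h1 4 8 (by decide)
  have q49 := h1 4 9 (by decide)
  have c06 : A 0 5 * A 1 5 * A 0 6 = A 1 6 := by
    linear_combination (A 0 6) * e01 + (A 1 6) * q06
  have c27 : A 2 6 * A 1 6 * A 2 7 = A 1 7 := by
    linear_combination (A 2 7) * e12 + (A 1 7) * q27
  have c38 : A 3 7 * A 1 7 * A 3 8 = A 2 8 * A 2 6 * A 1 6 := by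
    linear_combination (A 2 7 * A 3 8 * A 1 7) * e23 - A 3 7 * A 1 7 * A 3 8 * q27
      + A 2 8 * A 2 7 * A 1 7 * q38 - A 2 8 * e12
  have c49 : A 4 5 * A 1 5 * A 4 9 = A 0 9 * A 0 5 * A 1 5 := by
    linear_combination A 1 5 * ((A 4 9 * A 0 5) * e40 - A 4 9 * A 4 5 * q05 + A 0 5 * A 0 9 * q49)
  have c39 : A 3 7 * A 1 7 * A 3 9 = -(A 0 9 * A 0 5 * A 1 5) := by
    linear_combination (A 0 5 * A 1 5 * A 0 9) * e013
      - A 3 7 * A 1 7 * A 3 9 * (A 1 5 ^ 2 * A 0 9 ^ 2 * q05 + A 0 9 ^ 2 * q15 + q09)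
  have c48 : A 4 5 * A 1 5 * A 4 8 = -(A 2 8 * A 2 6 * A 1 6) := by
    linear_combination A 4 5 * A 1 5 * A 3 8 * e34 - A 4 5 * A 1 5 * A 4 8 * q38
      + A 3 8 * A 3 9 * c49 + A 3 8 * A 3 9 * c39 - A 3 8 * A 3 7 * A 1 7 * q39 - c38
  have sq2 : ∀ {a b : ℚ}, a * a = 1 → b * b = 1 → (a * b) * (a * b) = 1 := by
    intro a b ha hb
    linear_combination b * b * ha + hb
  have sqn : ∀ {a : ℚ}, a * a = 1 → (-a) * (-a) = 1 := by
    intro a ha
    linear_combination ha
  have r0 := sqn (sq2 q05 q15)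
  have r2 := sqn (sq2 q26 q16)
  have r3 := sq2 q37 q17
  have r4 := sq2 q45 q15
  refine ⟨![-(A 0 5 * A 1 5), 1, -(A 2 6 * A 1 6), A 3 7 * A 1 7, A 4 5 * A 1 5],
    ![-(A 0 5 * A 1 5), 1, -(A 2 6 * A 1 6), A 3 7 * A 1 7, A 4 5 * A 1 5,
      A 1 5, -A 1 6, A 1 7, -(A 2 8 * A 2 6 * A 1 6), -(A 0 9 * A 0 5 * A 1 5)], ?_, ?_, ?_⟩
  · intro i
    fin_cases i
    · exact r0
    · exact one_mul 1
    · exact r2
    · exact r3
    · exact r4
  · intro j
    fin_cases j
    · exact r0
    · exact one_mul 1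
    · exact r2
    · exact r3
    · exact r4
    · exact q15
    · exact sqn q16
    · exact q17
    · exact sqn (sq2 (sq2 q28 q26) q16)
    · exact sqn (sq2 (sq2 q09 q05) q15)
  · have zz : ∀ (i : Fin 5) (j : Fin 10), R10 i j = 0 → RC.R10 j i = 0 := by decide +kernel
    intro i j
    by_cases hz : R10 i j = 0
    · rw [h0 i j hz, zz i j hz, mul_zero, mul_zero]
    · fin_cases i <;> fin_cases j <;> first
        | exact absurd (by decide) hz
        | skip
      · show -(A 0 5 * A 1 5) * A 0 0 = -(A 0 5 * A 1 5) * 1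
        rw [d0]
      · show -(A 0 5 * A 1 5) * A 0 5 = A 1 5 * (-1)
        linear_combination -(A 1 5) * q05
      · show -(A 0 5 * A 1 5) * A 0 6 = -A 1 6 * 1
        linear_combination -c06
      · show -(A 0 5 * A 1 5) * A 0 9 = -(A 0 9 * A 0 5 * A 1 5) * 1
        ring
      · show (1 : ℚ) * A 1 1 = 1 * 1
        rw [d1]
      · show (1 : ℚ) * A 1 5 = A 1 5 * 1
        ring
      · show (1 : ℚ) * A 1 6 = -A 1 6 * (-1)
        ring
      · show (1 : ℚ) * A 1 7 = A 1 7 * 1
        ring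
      · show -(A 2 6 * A 1 6) * A 2 2 = -(A 2 6 * A 1 6) * 1
        rw [d2]
      · show -(A 2 6 * A 1 6) * A 2 6 = -A 1 6 * 1
        linear_combination -(A 1 6) * q26
      · show -(A 2 6 * A 1 6) * A 2 7 = A 1 7 * (-1)
        linear_combination -c27
      · show -(A 2 6 * A 1 6) * A 2 8 = -(A 2 8 * A 2 6 * A 1 6) * 1
        ring
      · show A 3 7 * A 1 7 * A 3 3 = A 3 7 * A 1 7 * 1
        rw [d3]
      · show A 3 7 * A 1 7 * A 3 7 = A 1 7 * 1
        linear_combination A 1 7 * q37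
      · show A 3 7 * A 1 7 * A 3 8 = -(A 2 8 * A 2 6 * A 1 6) * (-1)
        linear_combination c38
      · show A 3 7 * A 1 7 * A 3 9 = -(A 0 9 * A 0 5 * A 1 5) * 1
        linear_combination c39
      · show A 4 5 * A 1 5 * A 4 4 = A 4 5 * A 1 5 * 1
        rw [d4]
      · show A 4 5 * A 1 5 * A 4 5 = A 1 5 * 1
        linear_combination A 1 5 * q45
      · show A 4 5 * A 1 5 * A 4 8 = -(A 2 8 * A 2 6 * A 1 6) * 1
        linear_combination c48
      · show A 4 5 * A 1 5 * A 4 9 = -(A 0 9 * A 0 5 * A 1 5) * (-1)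
        linear_combination c49

/-- The positions of the unit vectors. -/
def ib : Fin 5 → Fin 10 := ![0, 1, 2, 3, 4]

theorem dec_r10 {v : E → V} (hU : RC.Uni (Set.range v)) (hiso : IsIso R10 (bm v)) :
    RC.Dec V (Set.range v) := by
  obtain ⟨φ, hφ, hM⟩ := mn_of_isIso hiso
  have hG : ∀ k : Fin 11, ∃ G : V →ₗ[ℚ] ℚ, ∀ j, (∑ i, cs k i * R10 i j = 0 ∧ G (v (φ j)) = 0) ∨
      (∑ i, cs k i * R10 i j = 1 ∧ (G (v (φ j)) = 1 ∨ G (v (φ j)) = -1)) := by
    intro k
    obtain ⟨p, ⟨f, hf⟩, -, hp⟩ := hM.sgn hU (cs k) (cs_ne k) (cs_min k)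
    exact ⟨f, fun j => by rw [← hf]; exact hp j⟩
  choose G hG using hG
  have hG0 : ∀ k j, ∑ i, cs k i * R10 i j = 0 → G k (v (φ j)) = 0 := by
    intro k j h
    rcases hG k j with h1 | h1
    · exact h1.2
    · rw [h] at h1
      exact absurd h1.1 (by decide)
  have hG1 : ∀ k j, ∑ i, cs k i * R10 i j = 1 → G k (v (φ j)) * G k (v (φ j)) = 1 := by
    intro k j h
    rcases hG k j with h1 | h1
    · rw [h] at h1
      exact absurd h1.1 (by decide)
    · rcases h1.2 with h2 | h2 <;> rw [h2] <;> norm_num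
  let kk : Fin 5 → Fin 11 := ![0, 1, 2, 3, 4]
  have hkk : ∀ (i : Fin 5) (j : Fin 10), ∑ l, cs (kk i) l * R10 l j = R10 i j := by
    decide +kernel
  have hib : ∀ i l : Fin 5, R10 i (ib l) = if i = l then 1 else 0 := by decide +kernel
  let F : Fin 5 → (V →ₗ[ℚ] ℚ) := fun i => (G (kk i) (v (φ (ib i)))) • G (kk i)
  have hF0 : ∀ i j, R10 i j = 0 → F i (v (φ j)) = 0 := by
    intro i j h
    simp only [F, LinearMap.smul_apply, smul_eq_mul]
    rw [hG0 (kk i) j (by rw [hkk]; exact h), mul_zero]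
  have hgi : ∀ i, G (kk i) (v (φ (ib i))) * G (kk i) (v (φ (ib i))) = 1 := fun i =>
    hG1 (kk i) (ib i) (by rw [hkk, hib, if_pos rfl])
  have hF1 : ∀ i j, R10 i j = 1 → F i (v (φ j)) * F i (v (φ j)) = 1 := by
    intro i j h
    simp only [F, LinearMap.smul_apply, smul_eq_mul]
    have h1 := hG1 (kk i) j (by rw [hkk]; exact h)
    have h2 := hgi i
    linear_combination G (kk i) (v (φ j)) * G (kk i) (v (φ j)) * h2 + h1
  have hFd : ∀ i, F i (v (φ (ib i))) = 1 := by
    intro i
    simp only [F, LinearMap.smul_apply, smul_eq_mul]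
    exact hgi i
  have hexp : ∀ (g : V →ₗ[ℚ] ℚ) (j : Fin 10),
      g (v (φ j)) = ∑ i, g (v (φ (ib i))) * F i (v (φ j)) := by
    intro g j
    have h1 := hM.vanish hU {0, 1, 2, 3, 4} r10_span
      (p := fun e => (g - ∑ i, g (v (φ (ib i))) • F i) (v e)) ⟨_, fun e => rfl⟩ (by simp) ?_ j
    · simp only [LinearMap.sub_apply, LinearMap.sum_apply, LinearMap.smul_apply,
        smul_eq_mul] at h1
      (clear * - h1; linarith)
    · intro b hb
      obtain ⟨l, rfl⟩ : ∃ l, ib l = b := by
        revert b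
        decide +kernel
      simp only [LinearMap.sub_apply, LinearMap.sum_apply, LinearMap.smul_apply, smul_eq_mul]
      rw [Finset.sum_eq_single l, hFd, mul_one, sub_self]
      · intro i _ hi
        rw [hF0 i (ib l) (by rw [hib, if_neg hi]), mul_zero]
      · intro h
        exact absurd (Finset.mem_univ l) h
  have hexp5 : ∀ (g : V →ₗ[ℚ] ℚ) (j : Fin 10), g (v (φ j)) = g (v (φ 0)) * F 0 (v (φ j)) +
      g (v (φ 1)) * F 1 (v (φ j)) + g (v (φ 2)) * F 2 (v (φ j)) + g (v (φ 3)) * F 3 (v (φ j)) +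
      g (v (φ 4)) * F 4 (v (φ j)) := by
    intro g j
    have h1 := hexp g j
    rw [Fin.sum_univ_five] at h1
    exact h1
  have e01 : F 0 (v (φ 5)) * F 1 (v (φ 5)) = F 0 (v (φ 6)) * F 1 (v (φ 6)) := by
    have z2 := hG0 5 2 (by decide +kernel)
    have z3 := hG0 5 3 (by decide +kernel)
    have z4 := hG0 5 4 (by decide +kernel)
    have x2 := hG1 5 0 (by decide +kernel)
    have y2 := hG1 5 1 (by decide +kernel)
    have ej := hexp5 (G 5) 5
    have el := hexp5 (G 5) 6
    rw [hG0 5 5 (by decide +kernel)] at ej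
    rw [hG0 5 6 (by decide +kernel)] at el
    have a1 := hF1 0 5 (by decide +kernel)
    have a2 := hF1 0 6 (by decide +kernel)
    simp only [z2, z3, z4, zero_mul, zero_add, add_zero] at ej el
    have b1 := rel2 y2 a1 (show 0 = G 5 (v (φ 0)) * F 0 (v (φ 5)) + G 5 (v (φ 1)) * F 1 (v (φ 5)) by (clear * - ej; linarith))
    have b2 := rel2 y2 a2 (show 0 = G 5 (v (φ 0)) * F 0 (v (φ 6)) + G 5 (v (φ 1)) * F 1 (v (φ 6)) by (clear * - el; linarith))
    rw [b1, b2]
  have e12 : F 1 (v (φ 6)) * F 2 (v (φ 6)) = F 1 (v (φ 7)) * F 2 (v (φ 7)) := by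
    have z0 := hG0 6 0 (by decide +kernel)
    have z3 := hG0 6 3 (by decide +kernel)
    have z4 := hG0 6 4 (by decide +kernel)
    have x2 := hG1 6 1 (by decide +kernel)
    have y2 := hG1 6 2 (by decide +kernel)
    have ej := hexp5 (G 6) 6
    have el := hexp5 (G 6) 7
    rw [hG0 6 6 (by decide +kernel)] at ej
    rw [hG0 6 7 (by decide +kernel)] at el
    have a1 := hF1 1 6 (by decide +kernel)
    have a2 := hF1 1 7 (by decide +kernel)
    simp only [z0, z3, z4, zero_mul, zero_add, add_zero] at ej el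
    have b1 := rel2 y2 a1 (show 0 = G 6 (v (φ 1)) * F 1 (v (φ 6)) + G 6 (v (φ 2)) * F 2 (v (φ 6)) by (clear * - ej; linarith))
    have b2 := rel2 y2 a2 (show 0 = G 6 (v (φ 1)) * F 1 (v (φ 7)) + G 6 (v (φ 2)) * F 2 (v (φ 7)) by (clear * - el; linarith))
    rw [b1, b2]
  have e23 : F 2 (v (φ 7)) * F 3 (v (φ 7)) = F 2 (v (φ 8)) * F 3 (v (φ 8)) := by
    have z0 := hG0 7 0 (by decide +kernel)
    have z1 := hG0 7 1 (by decide +kernel)
    have z4 := hG0 7 4 (by decide +kernel)
    have x2 := hG1 7 2 (by decide +kernel)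
    have y2 := hG1 7 3 (by decide +kernel)
    have ej := hexp5 (G 7) 7
    have el := hexp5 (G 7) 8
    rw [hG0 7 7 (by decide +kernel)] at ej
    rw [hG0 7 8 (by decide +kernel)] at el
    have a1 := hF1 2 7 (by decide +kernel)
    have a2 := hF1 2 8 (by decide +kernel)
    simp only [z0, z1, z4, zero_mul, zero_add, add_zero] at ej el
    have b1 := rel2 y2 a1 (show 0 = G 7 (v (φ 2)) * F 2 (v (φ 7)) + G 7 (v (φ 3)) * F 3 (v (φ 7)) by (clear * - ej; linarith))
    have b2 := rel2 y2 a2 (show 0 = G 7 (v (φ 2)) * F 2 (v (φ 8)) + G 7 (v (φ 3)) * F 3 (v (φ 8)) by (clear * - el; linarith))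
    rw [b1, b2]
  have e34 : F 3 (v (φ 8)) * F 4 (v (φ 8)) = F 3 (v (φ 9)) * F 4 (v (φ 9)) := by
    have z0 := hG0 8 0 (by decide +kernel)
    have z1 := hG0 8 1 (by decide +kernel)
    have z2 := hG0 8 2 (by decide +kernel)
    have x2 := hG1 8 3 (by decide +kernel)
    have y2 := hG1 8 4 (by decide +kernel)
    have ej := hexp5 (G 8) 8
    have el := hexp5 (G 8) 9
    rw [hG0 8 8 (by decide +kernel)] at ej
    rw [hG0 8 9 (by decide +kernel)] at el
    have a1 := hF1 3 8 (by decide +kernel)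
    have a2 := hF1 3 9 (by decide +kernel)
    simp only [z0, z1, z2, zero_mul, zero_add, add_zero] at ej el
    have b1 := rel2 y2 a1 (show 0 = G 8 (v (φ 3)) * F 3 (v (φ 8)) + G 8 (v (φ 4)) * F 4 (v (φ 8)) by (clear * - ej; linarith))
    have b2 := rel2 y2 a2 (show 0 = G 8 (v (φ 3)) * F 3 (v (φ 9)) + G 8 (v (φ 4)) * F 4 (v (φ 9)) by (clear * - el; linarith))
    rw [b1, b2]
  have e40 : F 4 (v (φ 5)) * F 0 (v (φ 5)) = F 4 (v (φ 9)) * F 0 (v (φ 9)) := by
    have z1 := hG0 9 1 (by decide +kernel)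
    have z2 := hG0 9 2 (by decide +kernel)
    have z3 := hG0 9 3 (by decide +kernel)
    have x2 := hG1 9 4 (by decide +kernel)
    have y2 := hG1 9 0 (by decide +kernel)
    have ej := hexp5 (G 9) 5
    have el := hexp5 (G 9) 9
    rw [hG0 9 5 (by decide +kernel)] at ej
    rw [hG0 9 9 (by decide +kernel)] at el
    have a1 := hF1 4 5 (by decide +kernel)
    have a2 := hF1 4 9 (by decide +kernel)
    simp only [z1, z2, z3, zero_mul, zero_add, add_zero] at ej el
    have b1 := rel2 y2 a1 (show 0 = G 9 (v (φ 4)) * F 4 (v (φ 5)) + G 9 (v (φ 0)) * F 0 (v (φ 5)) by (clear * - ej; linarith))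
    have b2 := rel2 y2 a2 (show 0 = G 9 (v (φ 4)) * F 4 (v (φ 9)) + G 9 (v (φ 0)) * F 0 (v (φ 9)) by (clear * - el; linarith))
    rw [b1, b2]
  have e013 : (F 0 (v (φ 5)) * F 1 (v (φ 5))) * (F 1 (v (φ 7)) * F 3 (v (φ 7))) *
      (F 0 (v (φ 9)) * F 3 (v (φ 9))) = -1 := by
    have z2 := hG0 10 2 (by decide +kernel)
    have z4 := hG0 10 4 (by decide +kernel)
    have x2 := hG1 10 0 (by decide +kernel)
    have y2 := hG1 10 1 (by decide +kernel)
    have w2 := hG1 10 3 (by decide +kernel)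
    have g5 := hexp5 (G 10) 5
    have g7 := hexp5 (G 10) 7
    have g9 := hexp5 (G 10) 9
    rw [hG0 10 5 (by decide +kernel), z2, z4, hF0 3 5 (by decide +kernel)] at g5
    rw [hG0 10 7 (by decide +kernel), z2, z4, hF0 0 7 (by decide +kernel)] at g7
    rw [hG0 10 9 (by decide +kernel), z2, z4, hF0 1 9 (by decide +kernel)] at g9
    have b5 := rel2 y2 (hF1 0 5 (by decide +kernel))
      (show 0 = G 10 (v (φ 0)) * F 0 (v (φ 5)) + G 10 (v (φ 1)) * F 1 (v (φ 5)) by (clear * - g5; linarith))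
    have b7 := rel2 w2 (hF1 1 7 (by decide +kernel))
      (show 0 = G 10 (v (φ 1)) * F 1 (v (φ 7)) + G 10 (v (φ 3)) * F 3 (v (φ 7)) by (clear * - g7; linarith))
    have b9 := rel2 w2 (hF1 0 9 (by decide +kernel))
      (show 0 = G 10 (v (φ 0)) * F 0 (v (φ 9)) + G 10 (v (φ 3)) * F 3 (v (φ 9)) by (clear * - g9; linarith))
    rw [b5, b7, b9]
    linear_combination -(G 10 (v (φ 1)) * G 10 (v (φ 1)) * G 10 (v (φ 3)) * G 10 (v (φ 3))) * x2
      - (G 10 (v (φ 3)) * G 10 (v (φ 3))) * y2 - w2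
  obtain ⟨r, s, hr, hs, hrs⟩ := r10_signs (fun i j => F i (v (φ j))) hF0 hF1 (hFd 0) (hFd 1)
    (hFd 2) (hFd 3) (hFd 4) e01 e12 e23 e34 e40 e013
  refine RC.Dec.emb (Set.range v) (Set.range RC.R10) (LinearMap.pi (fun i => r i • F i)) ?_ ?_
    (RC.Dec.r10 _ LinearMap.id (fun y _ h => h) (by
      rintro _ ⟨j, rfl⟩
      exact ⟨j, rfl⟩))
  · intro y hy h0
    by_contra hne
    obtain ⟨f, hf⟩ := RC.Gut.exists_dual hne
    have hker : span ℚ (Set.range v) ≤
        LinearMap.ker (f - ∑ i, f (v (φ (ib i))) • F i) := by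
      rw [span_le]
      rintro _ ⟨e, rfl⟩
      obtain ⟨j, rfl⟩ := hφ e
      rw [SetLike.mem_coe, LinearMap.mem_ker, LinearMap.sub_apply, LinearMap.sum_apply,
        sub_eq_zero, hexp f j]
      exact Finset.sum_congr rfl (fun i _ => rfl)
    have h2 := hker hy
    rw [LinearMap.mem_ker, LinearMap.sub_apply, LinearMap.sum_apply, hf] at h2
    have h3 : ∑ i, (f (v (φ (ib i))) • F i) y = 0 := by
      refine Finset.sum_eq_zero (fun i _ => ?_)
      have h4 := congrFun h0 i
      rw [LinearMap.pi_apply, Pi.zero_apply, LinearMap.smul_apply, smul_eq_mul] at h4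
      have h5 : F i y = 0 := by
        have h6 := hr i
        have : (r i * r i) * F i y = 0 := by rw [mul_assoc, h4, mul_zero]
        rwa [h6, one_mul] at this
      rw [LinearMap.smul_apply, h5, smul_zero]
    rw [h3, sub_zero] at h2
    exact one_ne_zero h2
  · rintro _ ⟨e, rfl⟩
    obtain ⟨j, rfl⟩ := hφ e
    have h1 : (LinearMap.pi (fun i => r i • F i)) (v (φ j)) = s j • RC.R10 j := by
      funext i
      rw [LinearMap.pi_apply, LinearMap.smul_apply, smul_eq_mul, Pi.smul_apply, smul_eq_mul]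
      exact hrs i j
    rw [h1]
    right
    rcases mul_self_eq_one_iff.1 (hs j) with h2 | h2
    · left
      exact ⟨j, by rw [h2, one_smul]⟩
    · right
      exact ⟨j, by rw [h2, neg_one_smul, neg_neg]⟩

end SEY.UB

end

section

/-!
Separations of unimodular sets.  Definitions.

`T` is a finite set of vectors (one side of a separation), `U` a subspace of `span T` (the guts).
`Bs U T T1`: `T1 ⊆ T` is a basis of `span T` modulo `U`.  `Re U T T1` is the set of the vectors
of `U` which are congruent to elements of `T` modulo `span T1` (the trace of `T` on `U` after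
contracting `T1`).
-/

namespace RC.Gut

open Submodule Module

variable {V : Type} [AddCommGroup V] [Module ℚ V]

/-- A basis of `span T` modulo `U`. -/
structure Bs (U : Submodule ℚ V) (T : Set V) (T1 : Finset V) : Prop where
  sub : (T1 : Set V) ⊆ T
  li : LinearIndepOn ℚ id (T1 : Set V)
  inf : span ℚ (T1 : Set V) ⊓ U = ⊥
  sup : span ℚ T ≤ U ⊔ span ℚ (T1 : Set V)

/-- The vectors of `U` realised by `T1`. -/
def Re (U : Submodule ℚ V) (T : Set V) (T1 : Finset V) : Set V :=
  {u | u ∈ U ∧ ∃ t ∈ T, t - u ∈ span ℚ (T1 : Set V)}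

/-- The pair `d, d'` is realised up to signs by one basis. -/
def Pr (U : Submodule ℚ V) (T : Set V) (d d' : V) : Prop :=
  ∃ T1 : Finset V, Bs U T T1 ∧ (d ∈ Re U T T1 ∨ -d ∈ Re U T T1) ∧
    (d' ∈ Re U T T1 ∨ -d' ∈ Re U T T1)

/-- All three pairs of a triangle of `U` are realised. -/
def Good (U : Submodule ℚ V) (T : Set V) : Prop :=
  ∃ p q : V, LinearIndependent ℚ ![p, q] ∧ span ℚ {p, q} = U ∧ Pr U T p q ∧ Pr U T p (p + q) ∧
    Pr U T q (p + q)

end RC.Gut

end

section

/-!
Module RG-2.  Bases modulo `U`.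

`exists_bs`: take a maximal finite set `T1` with `C ⊆ T1 ⊆ T`, independent, with
`span T1 ⊓ U = ⊥` (`T` is finite).  If some `t ∈ T` is not in `U ⊔ span T1`, then
`insert t T1` has the same properties; so `T ⊆ U ⊔ span T1`.

`bs_proj`: `U` and `span T1` are disjoint, so there is a linear map `P` on `V` with `P = id` on
`U` and `P = 0` on `span T1`: for instance, `U ⊔ span T1` has a complement in `V`
(`Submodule.exists_isCompl`), hence `U` has a complement `K` containing `span T1`; let `P` be the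
projection onto `U` along `K`.  An element `y` of `span T ≤ U ⊔ span T1` is `u + s`, `P y = u`.

`bs_coeff`: choose `S0 ⊆ S` independent with `span S0 = span S` (`exists_linearIndependent`).
`span T1 ⊓ span S = ⊥` because `span T1 ≤ span T` and `h.inf`; so `S0 ∪ T1` is independent.
Let `γ` be the coordinate at `z` of a linear functional extending the dual basis element: `γ z = 1`,
`γ = 0` on `span S` and on `T1.erase z` (exists because `z ∉ span S ⊔ span (T1.erase z)`:
`Submodule.exists_le_ker_of_lt_top` or `Submodule.exists_dual_map_eq_bot_of_notMem`, normalised).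
For `y ∈ T`: `y ∈ span T ≤ span S ⊔ span T1 = span (S0 ∪ T1)`, so `y` is a finite combination of
elements of `S0` and of `T1`; its coefficient at `z` is `γ y`, and it is `0, 1, -1` by `uni_coord`
for `X = S ∪ T`.

`bs_exchange`: `x = u + s + c • z` with `u ∈ U`, `s ∈ span (T1.erase z)`, `c ≠ 0`.  The set
`T1' = insert x (T1.erase z)` is in `T`; it is independent and meets `U` in `⊥`: an element of
`span T1'` in `U` is `d • x + s'` with `s' ∈ span (T1.erase z)`, `d • (u + s + c • z) + s' ∈ U`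
gives `d • s + d c • z + s' ∈ U ⊓ span T1 = ⊥`, so `d c = 0` by independence of `T1`, `d = 0`, and
then `s' = 0`.  Independence: `x ∉ span (T1.erase z)`.  `z ∈ U ⊔ span T1'`, so
`span T ≤ U ⊔ span T1 ≤ U ⊔ span T1'`.

`bs_span`: `u ∈ U` is in `span T`, so it is a combination of elements `t` of `T`, and for the
projection `P` of `bs_proj`, `u = P u` is the combination of the `P t ∈ Re U T T1`.
-/

namespace RC.Gut

open Submodule Module

variable {V : Type} [AddCommGroup V] [Module ℚ V]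

private theorem ins_li {U E : Submodule ℚ V} {T1 : Finset V} {t : V}
    (li : LinearIndepOn ℚ id (T1 : Set V)) (hE : span ℚ (T1 : Set V) = E) (h0 : E ⊓ U = ⊥)
    (ht : t ∉ U ⊔ E) [DecidableEq V] :
    LinearIndepOn ℚ id ((insert t T1 : Finset V) : Set V) ∧
      span ℚ ((insert t T1 : Finset V) : Set V) ⊓ U = ⊥ := by
  subst hE
  refine ⟨?_, ?_⟩
  · rw [Finset.coe_insert]
    refine li.id_insert ?_
    intro hmem
    exact ht (Submodule.mem_sup_right hmem)
  · rw [eq_bot_iff]
    rintro y ⟨hy, hyU⟩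
    have hy' : y ∈ span ℚ (insert t (T1 : Set V)) := by
      rw [← Finset.coe_insert]
      exact hy
    obtain ⟨c, s, hs, rfl⟩ := mem_span_insert.1 hy'
    by_cases hc : c = 0
    · rw [hc, zero_smul, zero_add] at hyU ⊢
      rw [← h0]
      exact ⟨hs, hyU⟩
    · exfalso
      apply ht
      have h1 : t = c⁻¹ • (c • t + s) + -(c⁻¹ • s) := by
        rw [smul_add, smul_smul, inv_mul_cancel₀ hc, one_smul]
        abel
      rw [h1]
      exact Submodule.add_mem_sup (U.smul_mem _ hyU) (neg_mem (smul_mem _ _ hs))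

private theorem split_z {T1 : Finset V} [DecidableEq V] {z y : V} (hz : z ∈ T1)
    (hy : y ∈ span ℚ (T1 : Set V)) :
    ∃ (c : ℚ) (w : V), w ∈ span ℚ ((T1.erase z : Finset V) : Set V) ∧ y = c • z + w := by
  have h1 : (T1 : Set V) = insert z ((T1.erase z : Finset V) : Set V) := by
    rw [← Finset.coe_insert, Finset.insert_erase hz]
  rw [h1] at hy
  obtain ⟨c, w, hw, h⟩ := mem_span_insert.1 hy
  exact ⟨c, w, hw, h⟩

theorem exists_bs {U : Submodule ℚ V} {T : Set V} (hT : T.Finite) (C : Finset V)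
    (hC : (C : Set V) ⊆ T) (li : LinearIndepOn ℚ id (C : Set V))
    (h0 : span ℚ (C : Set V) ⊓ U = ⊥) : ∃ T1 : Finset V, Bs U T T1 ∧ C ⊆ T1 := by
  classical
  set Q : Finset (Finset V) := hT.toFinset.powerset.filter (fun T1 => C ⊆ T1 ∧
    LinearIndepOn ℚ id (T1 : Set V) ∧ span ℚ (T1 : Set V) ⊓ U = ⊥) with hQ
  have hmem : ∀ T1 : Finset V, T1 ∈ Q ↔ (T1 : Set V) ⊆ T ∧ C ⊆ T1 ∧
      LinearIndepOn ℚ id (T1 : Set V) ∧ span ℚ (T1 : Set V) ⊓ U = ⊥ := by
    intro T1
    rw [hQ, Finset.mem_filter, Finset.mem_powerset]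
    constructor
    · rintro ⟨h1, h2⟩
      refine ⟨fun x hx => ?_, h2⟩
      exact (Set.Finite.mem_toFinset hT).1 (h1 hx)
    · rintro ⟨h1, h2⟩
      exact ⟨fun x hx => (Set.Finite.mem_toFinset hT).2 (h1 hx), h2⟩
  obtain ⟨T1, hT1, hmax⟩ := Finset.exists_max_image Q Finset.card
    ⟨C, (hmem C).2 ⟨hC, Finset.Subset.refl C, li, h0⟩⟩
  obtain ⟨hsub, hCT, hli, hinf⟩ := (hmem T1).1 hT1
  refine ⟨T1, ⟨hsub, hli, hinf, ?_⟩, hCT⟩
  rw [span_le]
  intro t ht
  by_contra hcon
  obtain ⟨h1, h2⟩ := ins_li hli rfl hinf hcon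
  have h3 : insert t T1 ∈ Q := by
    rw [hmem]
    refine ⟨?_, hCT.trans (Finset.subset_insert _ _), h1, h2⟩
    rw [Finset.coe_insert]
    exact Set.insert_subset ht hsub
  have h4 := hmax _ h3
  have h5 : t ∉ T1 := fun h => hcon (Submodule.mem_sup_right (subset_span h))
  rw [Finset.card_insert_of_notMem h5] at h4
  omega

theorem bs_proj {U : Submodule ℚ V} {T : Set V} {T1 : Finset V} (h : Bs U T T1) :
    ∃ P : V →ₗ[ℚ] V, (∀ u ∈ U, P u = u) ∧ (∀ y ∈ span ℚ (T1 : Set V), P y = 0) ∧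
      ∀ y ∈ span ℚ T, P y ∈ U ∧ y - P y ∈ span ℚ (T1 : Set V) := by
  have hdis : Disjoint (span ℚ (T1 : Set V)) U := disjoint_iff.2 h.inf
  obtain ⟨K, hK, hKU⟩ := hdis.exists_isCompl
  have hc : IsCompl U K := hKU.symm
  let P : V →ₗ[ℚ] V := U.subtype ∘ₗ Submodule.projectionOnto U K hc
  have h1 : ∀ u ∈ U, P u = u := by
    intro u hu
    show ((Submodule.projectionOnto U K hc u : U) : V) = u
    have := Submodule.linearProjOfIsCompl_apply_left hc ⟨u, hu⟩
    exact congrArg Subtype.val this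
  have h2 : ∀ y ∈ span ℚ (T1 : Set V), P y = 0 := by
    intro y hy
    show ((Submodule.projectionOnto U K hc y : U) : V) = 0
    have := (Submodule.linearProjOfIsCompl_apply_eq_zero_iff hc).2 (hK hy)
    exact congrArg Subtype.val this
  refine ⟨P, h1, h2, fun y hy => ?_⟩
  obtain ⟨u, hu, s, hs, rfl⟩ := Submodule.mem_sup.1 (h.sup hy)
  rw [map_add, h1 u hu, h2 s hs, add_zero, add_sub_cancel_left]
  exact ⟨hu, hs⟩

open Classical in
theorem bs_coeff {S T : Set V} (hX : Uni (S ∪ T)) {T1 : Finset V}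
    (h : Bs (span ℚ S ⊓ span ℚ T) T T1) {z : V} (hz : z ∈ T1) :
    ∃ γ : V →ₗ[ℚ] ℚ, γ z = 1 ∧ (∀ y ∈ span ℚ S, γ y = 0) ∧ (∀ s ∈ T1, s ≠ z → γ s = 0) ∧
      ∀ y ∈ T, γ y = 0 ∨ γ y = 1 ∨ γ y = -1 := by
  set W : Submodule ℚ V := span ℚ (S ∪ ((T1.erase z : Finset V) : Set V)) with hW
  have hE : span ℚ ((T1.erase z : Finset V) : Set V) ≤ span ℚ (T1 : Set V) :=
    span_mono (Finset.coe_subset.2 (Finset.erase_subset z T1))
  have hT1T : span ℚ (T1 : Set V) ≤ span ℚ T := span_mono h.sub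
  have hzW : z ∉ W := by
    intro hmem
    rw [hW, span_union] at hmem
    obtain ⟨s, hs, w, hw, hsw⟩ := Submodule.mem_sup.1 hmem
    have h1 : s ∈ span ℚ (T1 : Set V) := by
      have : s = z - w := by rw [← hsw]; abel
      rw [this]
      exact sub_mem (subset_span hz) (hE hw)
    have h2 : s ∈ (⊥ : Submodule ℚ V) := by
      rw [← h.inf]
      exact ⟨h1, hs, hT1T h1⟩
    rw [Submodule.mem_bot] at h2
    rw [h2, zero_add] at hsw
    have h4 : (T1 : Set V) = insert z ((T1.erase z : Finset V) : Set V) := by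
      rw [← Finset.coe_insert, Finset.insert_erase hz]
    have h5 := h.li
    rw [h4] at h5
    have h3 := h5.notMem_span_of_insert (by simp)
    apply h3
    rw [Set.image_id, id]
    have h6 : ∀ z' : V, w = z' → z' ∈ span ℚ ((T1.erase z : Finset V) : Set V) := by
      intro z' hz'
      rw [← hz']
      exact hw
    exact h6 z hsw
  obtain ⟨f, hf1, hf2⟩ := Submodule.exists_dual_map_eq_bot_of_notMem hzW inferInstance
  have hfW : ∀ y ∈ W, f y = 0 := by
    intro y hy
    have h1 : f y ∈ W.map f := Submodule.mem_map_of_mem hy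
    rw [hf2, Submodule.mem_bot] at h1
    exact h1
  have hSW : span ℚ S ≤ W := span_mono Set.subset_union_left
  have hEW : span ℚ ((T1.erase z : Finset V) : Set V) ≤ W := span_mono Set.subset_union_right
  refine ⟨(f z)⁻¹ • f, ?_, ?_, ?_, ?_⟩
  · rw [LinearMap.smul_apply, smul_eq_mul, inv_mul_cancel₀ hf1]
  · intro y hy
    rw [LinearMap.smul_apply, hfW y (hSW hy), smul_zero]
  · intro s hs hsz
    rw [LinearMap.smul_apply, hfW s (hEW (subset_span (Finset.mem_coe.2
      (Finset.mem_erase.2 ⟨hsz, hs⟩)))), smul_zero]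
  · intro y hy
    obtain ⟨u, hu, s, hs, hus⟩ := Submodule.mem_sup.1 (h.sup (subset_span hy))
    obtain ⟨c, w, hw, hcw⟩ := split_z hz hs
    have h1 : u + w ∈ W := add_mem (hSW hu.1) (hEW hw)
    have h2 : y = c • z + (u + w) := by
      rw [← hus, hcw]
      abel
    have h3 : ((f z)⁻¹ • f) y = c := by
      rw [h2, LinearMap.smul_apply, map_add, map_smul, hfW _ h1, add_zero, smul_eq_mul,
        smul_eq_mul]
      (clear * - hf1; field_simp)
    rw [h3]
    have hA : S ∪ ((T1.erase z : Finset V) : Set V) ⊆ S ∪ T := by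
      refine Set.union_subset_union_right S ?_
      exact (Finset.coe_subset.2 (Finset.erase_subset z T1)).trans h.sub
    refine uni_cut_coord hX hA (Or.inr (h.sub hz)) hzW h1 c ?_
    rw [← h2]
    exact Or.inr hy

open Classical in
theorem bs_exchange {U : Submodule ℚ V} {T : Set V} {T1 : Finset V} (h : Bs U T T1) {z x : V}
    (hz : z ∈ T1) (hx : x ∈ T) (hn : x ∉ U ⊔ span ℚ ((T1.erase z : Finset V) : Set V)) :
    Bs U T (insert x (T1.erase z)) := by
  have hE : span ℚ ((T1.erase z : Finset V) : Set V) ≤ span ℚ (T1 : Set V) :=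
    span_mono (Finset.coe_subset.2 (Finset.erase_subset z T1))
  have hli : LinearIndepOn ℚ id ((T1.erase z : Finset V) : Set V) :=
    h.li.mono (Finset.coe_subset.2 (Finset.erase_subset z T1))
  have hinf : span ℚ ((T1.erase z : Finset V) : Set V) ⊓ U = ⊥ := by
    rw [eq_bot_iff, ← h.inf]
    exact inf_le_inf_right U hE
  obtain ⟨h1, h2⟩ := ins_li hli rfl hinf hn
  refine ⟨?_, h1, h2, ?_⟩
  · rw [Finset.coe_insert]
    refine Set.insert_subset hx ?_
    exact (Finset.coe_subset.2 (Finset.erase_subset z T1)).trans h.sub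
  · have hxs : x ∈ span ℚ ((insert x (T1.erase z) : Finset V) : Set V) :=
      subset_span (Finset.mem_coe.2 (Finset.mem_insert_self _ _))
    have hEs : span ℚ ((T1.erase z : Finset V) : Set V) ≤
        span ℚ ((insert x (T1.erase z) : Finset V) : Set V) :=
      span_mono (Finset.coe_subset.2 (Finset.subset_insert _ _))
    have hzs : z ∈ U ⊔ span ℚ ((insert x (T1.erase z) : Finset V) : Set V) := by
      obtain ⟨u, hu, s, hs, hus⟩ := Submodule.mem_sup.1 (h.sup (subset_span hx))
      obtain ⟨c, w, hw, hcw⟩ := split_z hz hs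
      have hc : c ≠ 0 := by
        rintro rfl
        apply hn
        rw [← hus, hcw, zero_smul, zero_add]
        exact Submodule.add_mem_sup hu hw
      have h3 : z = -(c⁻¹ • u) + c⁻¹ • (x - w) := by
        have h4 : x - w = u + c • z := by
          rw [← hus, hcw]
          abel
        rw [h4, smul_add, smul_smul, inv_mul_cancel₀ hc, one_smul]
        abel
      have h5 : -(c⁻¹ • u) + c⁻¹ • (x - w) ∈
          U ⊔ span ℚ ((insert x (T1.erase z) : Finset V) : Set V) :=
        Submodule.add_mem_sup (neg_mem (U.smul_mem _ hu)) (smul_mem _ _ (sub_mem hxs (hEs hw)))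
      have h6 : ∀ z' : V, z' = -(c⁻¹ • u) + c⁻¹ • (x - w) →
          z' ∈ U ⊔ span ℚ ((insert x (T1.erase z) : Finset V) : Set V) := by
        intro z' hz'
        rw [hz']
        exact h5
      exact h6 z h3
    refine h.sup.trans (sup_le le_sup_left ?_)
    intro y hy
    obtain ⟨c, w, hw, rfl⟩ := split_z hz hy
    exact add_mem (smul_mem _ _ hzs) (Submodule.mem_sup_right (hEs hw))

theorem bs_span {U : Submodule ℚ V} {T : Set V} {T1 : Finset V} (h : Bs U T T1)
    (hU : U ≤ span ℚ T) : U ≤ span ℚ (Re U T T1) := by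
  obtain ⟨P, hP1, -, hP3⟩ := bs_proj h
  have h1 : ∀ y ∈ span ℚ T, P y ∈ span ℚ (Re U T T1) := by
    have h2 : span ℚ T ≤ (span ℚ (Re U T T1)).comap P := by
      rw [span_le]
      intro t ht
      obtain ⟨h3, h4⟩ := hP3 t (subset_span ht)
      exact subset_span ⟨h3, t, ht, h4⟩
    exact h2
  intro u hu
  rw [← hP1 u hu]
  exact h1 u (hU hu)

end RC.Gut

end

section

/-!
Module RG-1.  Projection of one side, 2-sums.

`uni_proj`: let `f = mkQ (span T1) : V → V ⧸ span T1`.  By `uni_con` (with the set `T1`)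
`f '' (S ∪ T)` is unimodular.  For `u` in the second set, `f u = f t` with `t ∈ T`.  So
`f '' (S ∪ R)` is a subset of `f '' (S ∪ T)`, unimodular by `uni_mono`.  `span (S ∪ R) = span S`, and
`f` is injective on it, because `ker f = span T1` meets `span S` in `⊥`.  Use `uni_of_map`.

`two_sum`: let `W = span S ⊓ span T`, `finrank W = 1`.  Choose a basis `T1` of `span T` modulo `W`
with elements of `T`, that is `T1 ⊆ T`, `span T1 ⊓ W = ⊥`, `span T ≤ W ⊔ span T1` (for instance: a
maximal subset `T1` of `T`, independent and with `span T1 ⊓ W = ⊥`; `exists_bs` of module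
`Bases.lean` may be used).  Since `W ≤ span T` and `W ≠ ⊥`, not all elements of `T` are in
`span T1`; so there is `t ∈ T` with `t = u + s`, `u ∈ W`, `u ≠ 0`, `s ∈ span T1`.
`span T1 ⊓ span S ≤ span T1 ⊓ W = ⊥`, so `S ∪ {u}` is unimodular by `uni_proj`.  In the same way
there is `u' ∈ W`, `u' ≠ 0`, with `T ∪ {u'}` unimodular, more precisely `u' - s' ∈ S` with
`s' ∈ span S1`.  Now `{u} ∪ S` is unimodular; apply `uni_proj` to it with the contracted set `S1`:
`{u} ∪ {w ∈ span {u} | ∃ t ∈ S, t - w ∈ span S1}` is unimodular and contains `u, u'`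
(`W = span {u}`).  By `uni_par` `u' = ± u`.  So `T ∪ {u}` is unimodular (`uni_mono`), `p = u`.
-/

namespace RC.Gut

open Submodule Module

variable {V : Type} [AddCommGroup V] [Module ℚ V]

theorem uni_proj {S T T1 : Set V} (hX : Uni (S ∪ T)) (hT : T1 ⊆ T)
    (h0 : span ℚ T1 ⊓ span ℚ S = ⊥) :
    Uni (S ∪ {u : V | u ∈ span ℚ S ∧ ∃ t ∈ T, t - u ∈ span ℚ T1}) := by
  have hcon : Uni ((span ℚ T1).mkQ '' (S ∪ T)) := by
    refine uni_con (span ℚ T1).mkQ hX (S := T1) (hT.trans Set.subset_union_right) ?_ ?_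
    · intro s hs
      rw [← LinearMap.mem_ker, Submodule.ker_mkQ]
      exact subset_span hs
    · intro y _ hy
      rwa [← LinearMap.mem_ker, Submodule.ker_mkQ] at hy
  refine uni_of_map (span ℚ T1).mkQ ?_ (uni_mono hcon ?_)
  · intro y hy hfy
    rw [← LinearMap.mem_ker, Submodule.ker_mkQ] at hfy
    have hle : span ℚ (S ∪ {u : V | u ∈ span ℚ S ∧ ∃ t ∈ T, t - u ∈ span ℚ T1}) ≤ span ℚ S := by
      rw [span_le]
      rintro x (hx | hx)
      · exact subset_span hx
      · exact hx.1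
    have h1 : y ∈ span ℚ T1 ⊓ span ℚ S := ⟨hfy, hle hy⟩
    rwa [h0, Submodule.mem_bot] at h1
  · rintro x ⟨y, hy | hy, rfl⟩
    · exact Or.inr (Or.inl ⟨y, Or.inl hy, rfl⟩)
    · obtain ⟨_, t, ht, htu⟩ := hy
      refine Or.inr (Or.inl ⟨t, Or.inr ht, ?_⟩)
      rw [← sub_eq_zero, ← map_sub, ← LinearMap.mem_ker, Submodule.ker_mkQ]
      exact htu

/-- One side: a vector of the intersection line realised by contracting elements of `T`. -/
theorem one_side {S T : Set V} (hT : T.Finite) (hne : span ℚ S ⊓ span ℚ T ≠ ⊥) :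
    ∃ (u : V) (T1 : Set V), T1 ⊆ T ∧ u ≠ 0 ∧ u ∈ span ℚ S ∧ u ∈ span ℚ T ∧
      span ℚ T1 ⊓ span ℚ S = ⊥ ∧ ∃ t ∈ T, t - u ∈ span ℚ T1 := by
  have hfin : {A : Set V | A ⊆ T ∧ span ℚ A ⊓ (span ℚ S ⊓ span ℚ T) = ⊥}.Finite :=
    hT.finite_subsets.subset fun A hA => hA.1
  obtain ⟨T1, hT1⟩ := hfin.exists_maximal
    ⟨∅, Set.empty_subset _, by rw [span_empty, bot_inf_eq]⟩
  have hsub : T1 ⊆ T := hT1.prop.1
  have hbot : span ℚ T1 ⊓ (span ℚ S ⊓ span ℚ T) = ⊥ := hT1.prop.2
  have hexT : ∃ t ∈ T, t ∉ span ℚ T1 := by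
    by_contra hcon
    push Not at hcon
    apply hne
    have h1 : span ℚ T ≤ span ℚ T1 := span_le.2 hcon
    rw [eq_bot_iff, ← hbot]
    exact le_inf (inf_le_right.trans h1) le_rfl
  obtain ⟨t, htT, ht⟩ := hexT
  have hins : span ℚ (insert t T1) ⊓ (span ℚ S ⊓ span ℚ T) ≠ ⊥ := by
    intro h1
    have h2 : insert t T1 ⊆ T1 :=
      hT1.le_of_ge ⟨Set.insert_subset htT hsub, h1⟩ (Set.subset_insert t T1)
    exact ht (subset_span (h2 (Set.mem_insert t T1)))
  obtain ⟨w, ⟨hw1, hwS, hwT⟩, hw0⟩ := Submodule.exists_mem_ne_zero_of_ne_bot hins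
  obtain ⟨a, s, hs, rfl⟩ := mem_span_insert.1 hw1
  have ha : a ≠ 0 := by
    rintro rfl
    apply hw0
    have h1 : (0 : ℚ) • t + s ∈ span ℚ T1 ⊓ (span ℚ S ⊓ span ℚ T) := by
      refine ⟨?_, hwS, hwT⟩
      rw [zero_smul, zero_add]
      exact hs
    rwa [hbot, Submodule.mem_bot] at h1
  refine ⟨a⁻¹ • (a • t + s), T1, hsub, smul_ne_zero (inv_ne_zero ha) hw0,
    Submodule.smul_mem _ _ hwS, Submodule.smul_mem _ _ hwT, ?_, t, htT, ?_⟩
  · rw [eq_bot_iff, ← hbot]
    exact le_inf inf_le_left (le_inf inf_le_right (inf_le_left.trans (span_mono hsub)))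
  · have h1 : t - a⁻¹ • (a • t + s) = -(a⁻¹ • s) := by
      rw [smul_add, smul_smul, inv_mul_cancel₀ ha, one_smul]
      abel
    rw [h1]
    exact Submodule.neg_mem _ (Submodule.smul_mem _ _ hs)

theorem two_sum {S T : Set V} (hS : S.Finite) (hT : T.Finite) (hX : Uni (S ∪ T))
    (h1 : finrank ℚ (span ℚ S ⊓ span ℚ T : Submodule ℚ V) = 1) :
    ∃ p : V, p ≠ 0 ∧ span ℚ S ⊓ span ℚ T = span ℚ {p} ∧ Uni (S ∪ {p}) ∧ Uni (T ∪ {p}) := by
  have hne : span ℚ S ⊓ span ℚ T ≠ ⊥ := by
    intro h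
    rw [h, finrank_bot] at h1
    exact absurd h1 (by norm_num)
  obtain ⟨u, T1, hT1, hu0, huS, huT, hT1S, t, htT, htu⟩ := one_side (S := S) hT hne
  obtain ⟨u', S1, hS1, hu'0, hu'T, hu'S, hS1T, s, hsS, hsu⟩ :=
    one_side (S := T) (T := S) hS (by rwa [inf_comm])
  have hW : span ℚ S ⊓ span ℚ T = span ℚ {u} := by
    apply le_antisymm
    · intro x hx
      have h2 := (finrank_eq_one_iff_of_nonzero' (⟨u, huS, huT⟩ :
        (span ℚ S ⊓ span ℚ T : Submodule ℚ V)) (fun h => hu0 (congrArg Subtype.val h))).1 h1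
        ⟨x, hx⟩
      obtain ⟨c, hc⟩ := h2
      have h3 : c • u = x := congrArg Subtype.val hc
      rw [← h3]
      exact Submodule.smul_mem _ _ (mem_span_singleton_self u)
    · rw [span_singleton_le_iff_mem]
      exact ⟨huS, huT⟩
  have hUS : Uni (S ∪ {u}) := by
    refine uni_mono (uni_proj hX hT1 hT1S) ?_
    rintro x (hx | hx)
    · exact Or.inr (Or.inl (Or.inl hx))
    · rw [Set.mem_singleton_iff] at hx
      rw [hx]
      exact Or.inr (Or.inl (Or.inr ⟨huS, t, htT, htu⟩))
  have hUT : Uni (T ∪ {u'}) := by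
    refine uni_mono (uni_proj (S := T) (T := S) (by rwa [Set.union_comm]) hS1 hS1T) ?_
    rintro x (hx | hx)
    · exact Or.inr (Or.inl (Or.inl hx))
    · rw [Set.mem_singleton_iff] at hx
      rw [hx]
      exact Or.inr (Or.inl (Or.inr ⟨hu'T, s, hsS, hsu⟩))
  have hu'u : u' ∈ span ℚ {u} := by
    rw [← hW]
    exact ⟨hu'S, hu'T⟩
  have hUU : Uni ({u} ∪ {w : V | w ∈ span ℚ {u} ∧ ∃ t ∈ S, t - w ∈ span ℚ S1}) := by
    refine uni_proj (S := {u}) (T := S) (by rwa [Set.union_comm]) hS1 ?_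
    rw [eq_bot_iff, ← hS1T]
    refine inf_le_inf_left _ ?_
    rw [span_singleton_le_iff_mem]
    exact huT
  have hpar : u' = u ∨ u' = -u := by
    refine uni_par hUU (Or.inl rfl) (Or.inr ⟨hu'u, s, hsS, hsu⟩) hu0 hu'0 ?_
    rw [LinearIndependent.pair_iff' hu0]
    push Not
    exact mem_span_singleton.1 hu'u
  refine ⟨u, hu0, hW, hUS, uni_mono hUT ?_⟩
  rintro x (hx | hx)
  · exact Or.inr (Or.inl (Or.inl hx))
  · rw [Set.mem_singleton_iff] at hx
    rw [hx]
    rcases hpar with h | h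
    · exact Or.inr (Or.inl (Or.inr (by rw [h]; rfl)))
    · refine Or.inr (Or.inr (Or.inr ?_))
      rw [h]
      rfl

end RC.Gut

end

section

/-!
Module RG-3.  The exchange lemma.  `U = span S ⊓ span T`.

`adj`: let `P` be the projection for `T1` (`bs_proj`), `γ` the coefficient at `z` (`bs_coeff`).
`P x = ux`, `P y = uy`, `γ x ≠ 0`, `γ y ≠ 0` (an element `w` of `span T` with `γ w = 0` is in
`U ⊔ span (T1.erase z)`), so `γ x, γ y ∈ {1, -1}`; `ρ = γ y / γ x = ± 1`.
Let `p = - ρ • ux`, `q = uy`; `p + q = uy - ρ • ux`; `p, q` are independent and span `U`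
(`finrank U = 2`).  `p = ± ux`.
* `Pr p q`: `T1`, `x`, `y`.
* `T1' = insert x (T1.erase z)` is a basis (`bs_exchange`): `y - ρ • x` has coefficient `0` at `z`, so
  `y - ρ • x - (uy - ρ • ux) ∈ span (T1.erase z)`, and `y - (uy - ρ • ux) ∈ span T1'`: `p + q` is
  realised.  `z - (γ x)⁻¹ • x + (γ x)⁻¹ • ux ∈ span (T1.erase z)`: `-(γ x)⁻¹ • ux = ± p` is realised
  by `z`.  So `Pr p (p + q)`.
* `T1'' = insert y (T1.erase z)`: `z` realises `-(γ y)⁻¹ • uy = ± q`, and `x` realises
  `ux - ρ⁻¹ • uy = -ρ⁻¹ • (uy - ρ • ux) = ± (p + q)`.  So `Pr q (p + q)`.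

`dir_step`: let `T1' = insert x (T1.erase z)`; `u ∈ Re T1` by `y ∈ T`, `P y = u`.  If the
coefficient of `y` at `z` is `0`, then `y - u ∈ span (T1.erase z) ≤ span T1'` and `u' = u`.
If `P x = 0`, then `x ∈ span T1`, `span T1' = span T1` (`≤`, and `z ∈ span T1'` since the coefficient
of `x` at `z` is not `0`), and `u' = u`.  Otherwise `P x` and `u` are dependent by `adj` (else
`Good`), so `P x ∈ span {u}`, and `u' = -(γ x)⁻¹ • P x` is realised by `z ∈ T`.

`dir_all`: induction on the number of elements of `T2 \ T1`.  If `T2 ⊆ T1` then `T2 = T1`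
(`span T1 ≤ U ⊔ span T2`; an element of `T1 \ T2` would be in `U ⊔ span T2`, so
`z - s ∈ U ⊓ span T1 = ⊥`, `z ∈ span T2` with `T2 ⊆ T1.erase z`, against independence).  Otherwise
let `x ∈ T2 \ T1`.  There is `z ∈ T1 \ T2` with `x ∉ U ⊔ span (T1.erase z)`: otherwise (coordinates
of `x` modulo `U` in `T1`) `x ∈ U ⊔ span (T1 ∩ T2)`, so `x - s ∈ U ⊓ span T2 = ⊥` for some
`s ∈ span (T1 ∩ T2)`, against independence of `T2`.  `T1' = insert x (T1.erase z)` is a basis
(`bs_exchange`), `T2 \ T1'` is smaller; `dir_step` and the induction hypothesis.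
-/

namespace RC.Gut

open Submodule Module

variable {V : Type} [AddCommGroup V] [Module ℚ V]

private theorem pm_sq {a : ℚ} (h : a = 1 ∨ a = -1) : a * a = 1 := by
  rcases h with rfl | rfl <;> norm_num

open Classical in
/-- removing the multiple of `z` -/
private theorem erase_coord {T1 : Finset V} {z : V} (hz : z ∈ T1) (γ : V →ₗ[ℚ] ℚ) (h1 : γ z = 1)
    (h0 : ∀ s ∈ T1, s ≠ z → γ s = 0) :
    (∀ s ∈ span ℚ ((T1.erase z : Finset V) : Set V), γ s = 0) ∧
      ∀ s ∈ span ℚ (T1 : Set V), s - γ s • z ∈ span ℚ ((T1.erase z : Finset V) : Set V) := by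
  have hE : ∀ s ∈ span ℚ ((T1.erase z : Finset V) : Set V), γ s = 0 := by
    intro s hs
    have h2 : span ℚ ((T1.erase z : Finset V) : Set V) ≤ LinearMap.ker γ := by
      rw [span_le]
      intro t ht
      have ht' := Finset.mem_erase.1 (Finset.mem_coe.1 ht)
      exact LinearMap.mem_ker.2 (h0 t ht'.2 ht'.1)
    exact LinearMap.mem_ker.1 (h2 hs)
  refine ⟨hE, fun s hs => ?_⟩
  rw [← Finset.insert_erase hz, Finset.coe_insert, mem_span_insert] at hs
  obtain ⟨a, s', hs', rfl⟩ := hs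
  rw [map_add, map_smul, h1, hE s' hs', smul_eq_mul, mul_one, add_zero, add_sub_cancel_left]
  exact hs'

open Classical in
private theorem erase_li {T1 : Finset V} (h : LinearIndepOn ℚ id (T1 : Set V)) {z : V}
    (hz : z ∈ T1) : z ∉ span ℚ ((T1.erase z : Finset V) : Set V) := by
  intro hs
  have h1 : z ∉ ((T1.erase z : Finset V) : Set V) := by simp
  have h2 := (linearIndepOn_id_insert (K := ℚ) h1).1 (by
    rw [← Finset.coe_insert, Finset.insert_erase hz]
    exact h)
  exact h2.2 hs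

private theorem span_pair_eq {U : Submodule ℚ V} (h2 : finrank ℚ U = 2) {p q : V}
    (li : LinearIndependent ℚ ![p, q]) (hp : p ∈ U) (hq : q ∈ U) : span ℚ {p, q} = U := by
  have hf : FiniteDimensional ℚ U := Module.finite_of_finrank_pos (by omega)
  refine Submodule.eq_of_le_of_finrank_eq ?_ ?_
  · rw [span_le]
    rintro w (rfl | hw)
    · exact hp
    · rw [Set.mem_singleton_iff.1 hw]
      exact hq
  · have h3 := finrank_span_eq_card li
    rw [Matrix.range_cons, Matrix.range_cons, Matrix.range_empty, Set.union_empty,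
      Set.singleton_union, Fintype.card_fin] at h3
    rw [h3, h2]

open Classical in
theorem adj {S T : Set V} (hX : Uni (S ∪ T))
    (h2 : finrank ℚ (span ℚ S ⊓ span ℚ T : Submodule ℚ V) = 2) {T1 : Finset V}
    (h : Bs (span ℚ S ⊓ span ℚ T) T T1) {z x y ux uy : V} (hz : z ∈ T1) (hx : x ∈ T) (hy : y ∈ T)
    (hux : ux ∈ span ℚ S ⊓ span ℚ T) (huy : uy ∈ span ℚ S ⊓ span ℚ T)
    (dx : x - ux ∈ span ℚ (T1 : Set V)) (dy : y - uy ∈ span ℚ (T1 : Set V))
    (nx : x ∉ (span ℚ S ⊓ span ℚ T) ⊔ span ℚ ((T1.erase z : Finset V) : Set V))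
    (ny : y ∉ (span ℚ S ⊓ span ℚ T) ⊔ span ℚ ((T1.erase z : Finset V) : Set V))
    (li : LinearIndependent ℚ ![ux, uy]) : Good (span ℚ S ⊓ span ℚ T) T := by
  obtain ⟨γ, hγz, hγS, hγ0, hγT⟩ := bs_coeff hX h hz
  obtain ⟨hE0, hEc⟩ := erase_coord hz γ hγz hγ0
  set U : Submodule ℚ V := span ℚ S ⊓ span ℚ T with hU
  set E : Submodule ℚ V := span ℚ ((T1.erase z : Finset V) : Set V) with hE
  have hγU : ∀ w ∈ U, γ w = 0 := fun w hw => hγS w (mem_inf.1 hw).1
  have hne : ∀ {w uw : V}, uw ∈ U → w - uw ∈ span ℚ (T1 : Set V) → w ∉ U ⊔ E →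
      w - uw - γ w • z ∈ E ∧ γ w ≠ 0 := by
    intro w uw huw dw nw
    have h1 := hEc _ dw
    rw [map_sub, hγU uw huw, sub_zero] at h1
    refine ⟨h1, fun h3 => nw ?_⟩
    rw [h3, zero_smul, sub_zero] at h1
    have h4 : w = uw + (w - uw) := by abel
    rw [h4]
    exact add_mem (mem_sup_left huw) (mem_sup_right h1)
  obtain ⟨ex, hax⟩ := hne hux dx nx
  obtain ⟨ey, hbx⟩ := hne huy dy ny
  have ha : γ x = 1 ∨ γ x = -1 := (hγT x hx).resolve_left hax
  have hb : γ y = 1 ∨ γ y = -1 := (hγT y hy).resolve_left hbx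
  set a : ℚ := γ x with hadef
  set b : ℚ := γ y with hbdef
  have haa := pm_sq ha
  have hbb := pm_sq hb
  have hab : a * b = 1 ∨ a * b = -1 := by
    rcases ha with h1 | h1 <;> rcases hb with h3 | h3 <;> rw [h1, h3] <;> norm_num
  have habab := pm_sq hab
  have hab0 : a * b ≠ 0 := by
    intro h0
    rw [h0] at habab
    norm_num at habab
  have hpU : -(a * b) • ux ∈ U := U.smul_mem _ hux
  have lip : LinearIndependent ℚ ![-(a * b) • ux, uy] := by
    rw [LinearIndependent.pair_iff] at li ⊢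
    intro s t hst
    have h1 := li (s * -(a * b)) t (by rw [← hst, smul_smul])
    refine ⟨?_, h1.2⟩
    rcases mul_eq_zero.1 h1.1 with h3 | h3
    · exact h3
    · exact absurd (neg_eq_zero.1 h3) hab0
  have inE : ∀ {w e : V}, e ∈ E → e ∈ span ℚ ((insert w (T1.erase z) : Finset V) : Set V) := by
    intro w e he
    refine span_mono ?_ he
    rw [Finset.coe_insert]
    exact Set.subset_insert _ _
  have inw : ∀ w : V, w ∈ span ℚ ((insert w (T1.erase z) : Finset V) : Set V) := fun w =>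
    subset_span (by rw [Finset.coe_insert]; exact Set.mem_insert _ _)
  have zT : z ∈ T := h.sub hz
  refine ⟨-(a * b) • ux, uy, lip, span_pair_eq h2 lip hpU huy, ?_, ?_, ?_⟩
  · refine ⟨T1, h, ?_, Or.inl ⟨huy, y, hy, dy⟩⟩
    rcases hab with h1 | h1
    · right
      rw [h1, neg_smul, one_smul, neg_neg]
      exact ⟨hux, x, hx, dx⟩
    · left
      rw [h1, neg_neg, one_smul]
      exact ⟨hux, x, hx, dx⟩
  · refine ⟨insert x (T1.erase z), bs_exchange h hz hx nx, ?_, Or.inl ⟨add_mem hpU huy, y, hy, ?_⟩⟩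
    · have hw : -a • ux ∈ Re U T (insert x (T1.erase z)) := by
        refine ⟨U.smul_mem _ hux, z, zT, ?_⟩
        have h1 : z - -a • ux = a • x - a • (x - ux - a • z) := by
          have h3 : z = (a * a) • z := by rw [haa, one_smul]
          calc z - -a • ux = (a * a) • z - -a • ux := by rw [haa, one_smul]
            _ = a • x - a • (x - ux - a • z) := by module
        rw [h1]
        exact sub_mem (Submodule.smul_mem _ _ (inw x)) (Submodule.smul_mem _ _ (inE ex))
      rcases hb with h1 | h1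
      · left
        rw [h1, mul_one]
        exact hw
      · right
        rw [h1]
        have h3 : -(-(a * -1) • ux) = -a • ux := by module
        rw [h3]
        exact hw
    · have h1 : y - (-(a * b) • ux + uy) =
          (y - uy - b • z) - (a * b) • (x - ux - a • z) + (a * b) • x := by
        have h3 : b • z = ((a * b) * a) • z := by
          congr 1
          linear_combination (-b) * haa
        calc y - (-(a * b) • ux + uy) = y - uy - b • z + (a * b) • ux + b • z := by module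
          _ = y - uy - b • z + (a * b) • ux + ((a * b) * a) • z := by rw [← h3]
          _ = (y - uy - b • z) - (a * b) • (x - ux - a • z) + (a * b) • x := by module
      rw [h1]
      exact add_mem (sub_mem (inE ey) (Submodule.smul_mem _ _ (inE ex)))
        (Submodule.smul_mem _ _ (inw x))
  · refine ⟨insert y (T1.erase z), bs_exchange h hz hy ny, ?_, ?_⟩
    · have hw : -b • uy ∈ Re U T (insert y (T1.erase z)) := by
        refine ⟨U.smul_mem _ huy, z, zT, ?_⟩
        have h1 : z - -b • uy = b • y - b • (y - uy - b • z) := by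
          calc z - -b • uy = (b * b) • z - -b • uy := by rw [hbb, one_smul]
            _ = b • y - b • (y - uy - b • z) := by module
        rw [h1]
        exact sub_mem (Submodule.smul_mem _ _ (inw y)) (Submodule.smul_mem _ _ (inE ey))
      rcases hb with h1 | h1
      · right
        rw [h1, neg_smul, one_smul] at hw
        exact hw
      · left
        rw [h1, neg_neg, one_smul] at hw
        exact hw
    · have hw : ux - (a * b) • uy ∈ Re U T (insert y (T1.erase z)) := by
        refine ⟨sub_mem hux (U.smul_mem _ huy), x, hx, ?_⟩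
        have h1 : x - (ux - (a * b) • uy) =
            (x - ux - a • z) - (a * b) • (y - uy - b • z) + (a * b) • y := by
          have h3 : a • z = ((a * b) * b) • z := by
            congr 1
            linear_combination (-a) * hbb
          calc x - (ux - (a * b) • uy) = x - ux - a • z + (a * b) • uy + a • z := by module
            _ = x - ux - a • z + (a * b) • uy + ((a * b) * b) • z := by rw [← h3]
            _ = (x - ux - a • z) - (a * b) • (y - uy - b • z) + (a * b) • y := by module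
        rw [h1]
        exact add_mem (sub_mem (inE ex) (Submodule.smul_mem _ _ (inE ey)))
          (Submodule.smul_mem _ _ (inw y))
      rcases hab with h1 | h1
      · right
        rw [h1] at hw ⊢
        have h3 : -(-(1 : ℚ) • ux + uy) = ux - (1 : ℚ) • uy := by module
        rw [h3]
        exact hw
      · left
        rw [h1] at hw ⊢
        have h3 : -(-1 : ℚ) • ux + uy = ux - (-1 : ℚ) • uy := by module
        rw [h3]
        exact hw

open Classical in
theorem dir_step {S T : Set V} (hX : Uni (S ∪ T))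
    (h2 : finrank ℚ (span ℚ S ⊓ span ℚ T : Submodule ℚ V) = 2)
    (hG : ¬ Good (span ℚ S ⊓ span ℚ T) T) {T1 : Finset V}
    (h : Bs (span ℚ S ⊓ span ℚ T) T T1) {z x : V} (hz : z ∈ T1) (hx : x ∈ T)
    (hn : x ∉ (span ℚ S ⊓ span ℚ T) ⊔ span ℚ ((T1.erase z : Finset V) : Set V)) {u : V}
    (hu : u ∈ Re (span ℚ S ⊓ span ℚ T) T T1) (hu0 : u ≠ 0) :
    ∃ u' ∈ Re (span ℚ S ⊓ span ℚ T) T (insert x (T1.erase z)), u' ≠ 0 ∧ u' ∈ span ℚ {u} := by
  obtain ⟨γ, hγz, hγS, hγ0, hγT⟩ := bs_coeff hX h hz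
  obtain ⟨hE0, hEc⟩ := erase_coord hz γ hγz hγ0
  obtain ⟨P, _, _, hP⟩ := bs_proj h
  obtain ⟨hPxU, hPx⟩ := hP x (subset_span hx)
  obtain ⟨huU, y, hy, dy⟩ := hu
  have hγU : ∀ w ∈ span ℚ S ⊓ span ℚ T, γ w = 0 := fun w hw => hγS w (mem_inf.1 hw).1
  have inE : ∀ {e : V}, e ∈ span ℚ ((T1.erase z : Finset V) : Set V) →
      e ∈ span ℚ ((insert x (T1.erase z) : Finset V) : Set V) := by
    intro e he
    refine span_mono ?_ he
    rw [Finset.coe_insert]
    exact Set.subset_insert _ _
  have inx : x ∈ span ℚ ((insert x (T1.erase z) : Finset V) : Set V) :=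
    subset_span (by rw [Finset.coe_insert]; exact Set.mem_insert _ _)
  have ex := hEc _ hPx
  rw [map_sub, hγU _ hPxU, sub_zero] at ex
  have hax : γ x ≠ 0 := by
    intro h3
    apply hn
    rw [h3, zero_smul, sub_zero] at ex
    have h4 : x = P x + (x - P x) := by abel
    rw [h4]
    exact add_mem (mem_sup_left hPxU) (mem_sup_right ex)
  have ha : γ x = 1 ∨ γ x = -1 := (hγT x hx).resolve_left hax
  have haa := pm_sq ha
  have ey := hEc _ dy
  rw [map_sub, hγU _ huU, sub_zero] at ey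
  have self : u ∈ span ℚ ({u} : Set V) := mem_span_singleton_self u
  by_cases hby : γ y = 0
  · rw [hby, zero_smul, sub_zero] at ey
    exact ⟨u, ⟨huU, y, hy, inE ey⟩, hu0, self⟩
  · by_cases hux : P x = 0
    · rw [hux, sub_zero] at ex
      have hzs : z ∈ span ℚ ((insert x (T1.erase z) : Finset V) : Set V) := by
        have h1 : γ x • x - γ x • (x - γ x • z) = z := by
          calc γ x • x - γ x • (x - γ x • z) = (γ x * γ x) • z := by module
            _ = z := by rw [haa, one_smul]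
        have h3 := sub_mem (Submodule.smul_mem _ (γ x) inx) (Submodule.smul_mem _ (γ x) (inE ex))
        rw [h1] at h3
        exact h3
      refine ⟨u, ⟨huU, y, hy, ?_⟩, hu0, self⟩
      have h1 : y - u = (y - u - γ y • z) + γ y • z := by abel
      rw [h1]
      exact add_mem (inE ey) (Submodule.smul_mem _ _ hzs)
    · have ny : y ∉ (span ℚ S ⊓ span ℚ T) ⊔ span ℚ ((T1.erase z : Finset V) : Set V) := by
        intro hy'
        obtain ⟨w, hw, e, he, hwe⟩ := mem_sup.1 hy'
        apply hby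
        rw [← hwe, map_add, hγU w hw, hE0 e he, add_zero]
      by_cases hli : LinearIndependent ℚ ![P x, u]
      · exact absurd (adj hX h2 h hz hx hy hPxU huU hPx dy hn ny hli) hG
      · rw [LinearIndependent.pair_iff' hux] at hli
        push Not at hli
        obtain ⟨c, hc⟩ := hli
        have hc0 : c ≠ 0 := by
          rintro rfl
          rw [zero_smul] at hc
          exact hu0 hc.symm
        have hxu : P x = c⁻¹ • u := by
          rw [← hc, smul_smul, inv_mul_cancel₀ hc0, one_smul]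
        refine ⟨-γ x • P x, ⟨Submodule.smul_mem _ _ hPxU, z, h.sub hz, ?_⟩, ?_, ?_⟩
        · have h1 : z - -γ x • P x = γ x • x - γ x • (x - P x - γ x • z) := by
            calc z - -γ x • P x = (γ x * γ x) • z - -γ x • P x := by rw [haa, one_smul]
              _ = γ x • x - γ x • (x - P x - γ x • z) := by module
          rw [h1]
          exact sub_mem (Submodule.smul_mem _ _ inx) (Submodule.smul_mem _ _ (inE ex))
        · exact smul_ne_zero (neg_ne_zero.2 hax) hux
        · rw [hxu]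
          exact Submodule.smul_mem _ _ (Submodule.smul_mem _ _ self)

/-- an element of the span which is in the span of all `T1.erase z`, `z ∉ T2`, is in the span of the
common elements -/
private theorem span_common {T1 T2 : Finset V} (h : LinearIndepOn ℚ id (T1 : Set V)) {s : V}
    (hs : s ∈ span ℚ (T1 : Set V))
    (hz : ∀ z ∈ T1, z ∉ T2 → s ∈ span ℚ ((T1 : Set V) \ {z})) :
    s ∈ span ℚ ((T1 : Set V) ∩ (T2 : Set V)) := by
  classical
  obtain ⟨f, _, hf⟩ := mem_span_finset.1 hs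
  have hf0 : ∀ z ∈ T1, z ∉ T2 → f z = 0 := by
    intro z hz1 hz2
    have h1 := hz z hz1 hz2
    rw [← Finset.coe_singleton, ← Finset.coe_sdiff] at h1
    obtain ⟨g, hg, hgs⟩ := mem_span_finset.1 h1
    have hgz : g z = 0 := by
      by_contra h3
      have h4 := hg (Function.mem_support.2 h3)
      rw [Finset.mem_coe, Finset.mem_sdiff, Finset.mem_singleton] at h4
      exact h4.2 rfl
    have h5 : ∑ a ∈ T1, g a • a = s := by
      rw [← hgs]
      symm
      refine Finset.sum_subset Finset.sdiff_subset ?_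
      intro a ha ha'
      rw [Finset.mem_sdiff, not_and, not_not, Finset.mem_singleton] at ha'
      rw [ha' ha, hgz, zero_smul]
    have h6 := (linearIndepOn_finset_iff.1 h) (fun a => f a - g a) (by
      simp only [id, sub_smul]
      rw [Finset.sum_sub_distrib, hf, h5, sub_self]) z hz1
    rw [hgz, sub_zero] at h6
    exact h6
  rw [← hf]
  refine Submodule.sum_mem _ fun a ha => ?_
  by_cases h2 : a ∈ T2
  · exact Submodule.smul_mem _ _ (subset_span ⟨ha, h2⟩)
  · rw [hf0 a ha h2, zero_smul]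
    exact Submodule.zero_mem _

theorem dir_all {S T : Set V} (hX : Uni (S ∪ T))
    (h2 : finrank ℚ (span ℚ S ⊓ span ℚ T : Submodule ℚ V) = 2)
    (hG : ¬ Good (span ℚ S ⊓ span ℚ T) T) {T1 T2 : Finset V}
    (h : Bs (span ℚ S ⊓ span ℚ T) T T1) (h' : Bs (span ℚ S ⊓ span ℚ T) T T2) {u : V}
    (hu : u ∈ Re (span ℚ S ⊓ span ℚ T) T T1) (hu0 : u ≠ 0) :
    ∃ u' ∈ Re (span ℚ S ⊓ span ℚ T) T T2, u' ≠ 0 ∧ u' ∈ span ℚ {u} := by
  classical
  obtain ⟨n, hn⟩ : ∃ n, (T2 \ T1).card = n := ⟨_, rfl⟩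
  induction n generalizing T1 u with
  | zero =>
    have hsub : T2 ⊆ T1 := Finset.sdiff_eq_empty_iff_subset.1 (Finset.card_eq_zero.1 hn)
    have heq : T2 = T1 := by
      refine Finset.Subset.antisymm hsub ?_
      intro z hz
      by_contra hz2
      obtain ⟨w, hw, s, hs, hws⟩ := mem_sup.1 (h'.sup (subset_span (h.sub hz)))
      have h1 : z - s ∈ span ℚ (T1 : Set V) ⊓ (span ℚ S ⊓ span ℚ T) := by
        refine mem_inf.2 ⟨sub_mem (subset_span hz) (span_mono (Finset.coe_subset.2 hsub) hs), ?_⟩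
        rw [← hws, add_sub_cancel_right]
        exact hw
      rw [h.inf, mem_bot, sub_eq_zero] at h1
      refine erase_li h.li hz ?_
      rw [h1]
      refine span_mono ?_ hs
      intro t ht
      rw [Finset.coe_erase]
      exact ⟨hsub ht, fun h3 => hz2 (h1 ▸ (Set.mem_singleton_iff.1 h3) ▸ ht)⟩
    subst heq
    exact ⟨u, hu, hu0, mem_span_singleton_self u⟩
  | succ n ih =>
    obtain ⟨x, hx⟩ := Finset.card_pos.1 (by omega : 0 < (T2 \ T1).card)
    rw [Finset.mem_sdiff] at hx
    have hxT : x ∈ T := h'.sub hx.1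
    have hex : ∃ z ∈ T1, z ∉ T2 ∧
        x ∉ (span ℚ S ⊓ span ℚ T) ⊔ span ℚ ((T1.erase z : Finset V) : Set V) := by
      by_contra hno
      push Not at hno
      obtain ⟨w, hw, s, hs, hws⟩ := mem_sup.1 (h.sup (subset_span hxT))
      have hsc : s ∈ span ℚ ((T1 : Set V) ∩ (T2 : Set V)) := by
        refine span_common h.li hs ?_
        intro z hz1 hz2
        obtain ⟨w', hw', s', hs', hws'⟩ := mem_sup.1 (hno z hz1 hz2)
        have hs'T : s' ∈ span ℚ (T1 : Set V) := by
          refine span_mono ?_ hs'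
          rw [Finset.coe_erase]
          exact Set.sdiff_subset
        have h1 : s - s' ∈ span ℚ (T1 : Set V) ⊓ (span ℚ S ⊓ span ℚ T) := by
          refine mem_inf.2 ⟨sub_mem hs hs'T, ?_⟩
          have h3 : s - s' = w' - w := by
            have h4 : w + s = w' + s' := hws.trans hws'.symm
            rw [sub_eq_sub_iff_add_eq_add, add_comm s w, h4]
          rw [h3]
          exact sub_mem hw' hw
        rw [h.inf, mem_bot, sub_eq_zero] at h1
        rw [h1]
        rw [Finset.coe_erase] at hs'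
        exact hs'
      have h1 : x - s ∈ span ℚ (T2 : Set V) ⊓ (span ℚ S ⊓ span ℚ T) := by
        refine mem_inf.2 ⟨sub_mem (subset_span hx.1) (span_mono Set.inter_subset_right hsc), ?_⟩
        rw [← hws, add_sub_cancel_right]
        exact hw
      rw [h'.inf, mem_bot, sub_eq_zero] at h1
      refine erase_li h'.li hx.1 ?_
      rw [← h1] at hsc
      refine span_mono ?_ hsc
      intro t ht
      rw [Finset.coe_erase]
      refine ⟨ht.2, fun h3 => hx.2 ?_⟩
      rw [← Set.mem_singleton_iff.1 h3]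
      exact ht.1
    obtain ⟨z, hz1, hz2, hzx⟩ := hex
    obtain ⟨u1, hu1, hu10, hu1s⟩ := dir_step hX h2 hG h hz1 hxT hzx hu hu0
    have hcard : (T2 \ insert x (T1.erase z)).card = n := by
      have h3 : T2 \ insert x (T1.erase z) = (T2 \ T1).erase x := by
        ext t
        rw [Finset.mem_sdiff, Finset.mem_erase, Finset.mem_sdiff, Finset.mem_insert,
          Finset.mem_erase, not_or, not_and]
        constructor
        · rintro ⟨ht, ht1, ht2⟩
          exact ⟨ht1, ht, ht2 fun h4 => hz2 (h4 ▸ ht)⟩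
        · rintro ⟨ht1, ht, ht2⟩
          exact ⟨ht, ht1, fun _ => ht2⟩
      rw [h3, Finset.card_erase_of_mem (Finset.mem_sdiff.2 hx), hn]
      omega
    obtain ⟨u2, hu2, hu20, hu2s⟩ := ih (bs_exchange h hz1 hxT hzx) hu1 hu10 hcard
    refine ⟨u2, hu2, hu20, ?_⟩
    have h4 : span ℚ ({u1} : Set V) ≤ span ℚ {u} := by
      rw [span_singleton_le_iff_mem]
      exact hu1s
    exact h4 hu2s

end RC.Gut

end

section

/-!
Module RG-5.  The dichotomy for one side of a separation.  `U = span S ⊓ span T`, `finrank U = 2`.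

`third`: choose `C' ⊆ C` minimal such that `b := a' - ρ • a ∈ span C'` (`a' ∈ span (C ∪ {a})`, so
`a' = ρ • a + c`, `c ∈ span C`; `ρ ≠ 0` because `a' ∉ span C`).  `b ≠ 0` (`a, a'` independent),
`b ∉ span {a}`, `b ∉ span {a'}`.  `C'` is independent (minimality) and not empty; let `s ∈ C'`,
`C'' = C'.erase s`; `b ∉ span C''`.  `span C' ⊓ U` contains `b` and does not contain `a`, so it is
`span {b}` (`finrank U = 2`); hence `span C'' ⊓ U = ⊥`.  By `exists_bs` there is a basis `T1 ⊇ C''`.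
`b = μ • s + c''` with `c'' ∈ span C''`, `μ ≠ 0`, so `s - μ⁻¹ • b ∈ span C'' ≤ span T1`:
`u = μ⁻¹ • b` is realised by `s ∈ T`.

`dich`: assume `¬ Good U T`.  Let `T0` be a basis of `T` modulo `U` (`exists_bs` with `C = ∅`).
`Re U T T0` spans `U` (`bs_span`), so it contains two independent vectors `a, a'`; they span `U`.
(1) Every nonzero `u ∈ Re U T T0` is in `span {a}` or `span {a'}`: `S ∪ Re U T T0` is unimodular
    (`uni_proj`: `span T0 ⊓ span S ≤ span T0 ⊓ U = ⊥`), so by `uni_coord` `u = α • a + β • a'` with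
    `α, β ∈ {0, 1, -1}`.  If `α, β ≠ 0` let `p = α • a = ± a`, `q = β • a' = ± a'`, `p + q = u`: all
    pairs are realised by `T0`, so `Good U T`.
(2) `split_or` for `a, a'` and `T` (as a finset).  In the first case `third` gives a basis `T1` and
    `u ∈ Re U T T1`, `u ≠ 0`, not in `span {a}`, `span {a'}`; by `dir_all` there is
    `u' ∈ Re U T T0`, `u' ≠ 0`, `u' ∈ span {u}`; by (1) `u' ∈ span {a}` or `span {a'}`, so
    `u ∈ span {a}` or `span {a'}`, contradiction.
(3) In the second case `span T' ⊓ span T'' = ⊥`.  `a ∈ span T = span T' ⊔ span T''`, `a = w + w'`;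
    `a - w = w' ∈ span (T' ∪ {a}) ⊓ span (T'' ∪ {a'}) = ⊥`, so `a = w ∈ span T'`.  In the same way
    `a' ∈ span T''`.
-/

namespace RC.Gut

open Submodule Module

variable {V : Type} [AddCommGroup V] [Module ℚ V]

/-- A vector `b ≠ 0` of `span C` is in the span of an independent subset `C'` of `C`, but not in the
span of `C'` without `s`. -/
theorem exists_min_span (C : Finset V) {b : V} (hb : b ∈ span ℚ (C : Set V)) (hb0 : b ≠ 0) :
    ∃ (C' : Finset V) (s : V), C' ⊆ C ∧ s ∈ C' ∧ b ∈ span ℚ (C' : Set V) ∧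
      LinearIndepOn ℚ id (C' : Set V) ∧ b ∉ span ℚ ((C' : Set V) \ {s}) := by
  classical
  obtain ⟨B, hBC, hBs, hBl⟩ := exists_linearIndependent ℚ (C : Set V)
  rw [← hBs, mem_span_set] at hb
  obtain ⟨e, he1, he2⟩ := hb
  have hli : LinearIndepOn ℚ id (e.support : Set V) := by
    have h1 : LinearIndepOn ℚ id B := hBl
    exact h1.mono he1
  have hne : e.support.Nonempty := by
    rw [Finset.nonempty_iff_ne_empty]
    intro h0
    apply hb0
    rw [← he2, Finsupp.sum, h0, Finset.sum_empty]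
  obtain ⟨s, hs⟩ := hne
  refine ⟨e.support, s, ?_, hs, ?_, hli, ?_⟩
  · intro x hx
    exact Finset.mem_coe.1 (hBC (he1 (Finset.mem_coe.2 hx)))
  · rw [← he2]
    exact Submodule.sum_mem _ fun x hx => Submodule.smul_mem _ _ (subset_span hx)
  · intro hbs
    have h1 : e s • s ∈ span ℚ ((e.support : Set V) \ {s}) := by
      have h2 : b = e s • s + ∑ x ∈ e.support.erase s, e x • x := by
        rw [← he2, Finsupp.sum, Finset.add_sum_erase _ (fun x => e x • x) hs]
      have h3 : e s • s = b - ∑ x ∈ e.support.erase s, e x • x := by rw [h2]; abel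
      rw [h3]
      refine Submodule.sub_mem _ hbs (Submodule.sum_mem _ fun x hx =>
        Submodule.smul_mem _ _ (subset_span ?_))
      rw [Finset.mem_erase] at hx
      exact ⟨Finset.mem_coe.2 hx.2, hx.1⟩
    have h4 : s ∈ span ℚ ((e.support : Set V) \ {s}) := by
      have h5 := Submodule.smul_mem _ (e s)⁻¹ h1
      rwa [smul_smul, inv_mul_cancel₀ (Finsupp.mem_support_iff.1 hs), one_smul] at h5
    have h6 := linearIndepOn_iff_notMem_span.1 hli s (Finset.mem_coe.2 hs)
    rw [Set.image_id] at h6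
    exact h6 h4

theorem third {U : Submodule ℚ V} (h2 : finrank ℚ U = 2) {T : Set V} (hT : T.Finite) {a a' : V}
    (ha : a ∈ U) (ha' : a' ∈ U) (li : LinearIndependent ℚ ![a, a']) (C : Finset V)
    (hC : (C : Set V) ⊆ T) (h1 : a ∉ span ℚ (C : Set V)) (h1' : a' ∉ span ℚ (C : Set V))
    (h3 : a' ∈ span ℚ ((C : Set V) ∪ {a})) :
    ∃ (T1 : Finset V) (u : V), Bs U T T1 ∧ u ∈ Re U T T1 ∧ u ≠ 0 ∧ u ∉ span ℚ {a} ∧
      u ∉ span ℚ {a'} := by
  classical
  have li' := LinearIndependent.pair_iff.1 li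
  rw [span_union, mem_sup] at h3
  obtain ⟨b, hb, y, hy, hby⟩ := h3
  obtain ⟨ρ, rfl⟩ := mem_span_singleton.1 hy
  have hb' : b = a' - ρ • a := by rw [← hby]; abel
  have hbU : b ∈ U := by
    rw [hb']
    exact Submodule.sub_mem _ ha' (Submodule.smul_mem _ _ ha)
  have hρ : ρ ≠ 0 := by
    rintro rfl
    apply h1'
    rw [← hby]
    simpa using hb
  have hb0 : b ≠ 0 := by
    intro h0
    have h4 := li' (-ρ) 1 (by rw [← h0, hb']; module)
    exact one_ne_zero h4.2
  obtain ⟨C', s, hC'C, hs, hbC', hli, hbs⟩ := exists_min_span C hb hb0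
  have : Module.Finite ℚ U := Module.finite_of_finrank_pos (by rw [h2]; norm_num)
  have hspan : span ℚ {a, a'} = U := by
    apply Submodule.eq_of_le_of_finrank_eq
    · rw [span_le]
      rintro x (rfl | rfl)
      · exact ha
      · exact ha'
    · rw [h2]
      have h5 := finrank_span_eq_card li
      rw [Matrix.range_cons, Matrix.range_cons, Matrix.range_empty, Set.union_empty,
        Set.singleton_union] at h5
      rw [h5]
      simp
  have herase : ((C'.erase s : Finset V) : Set V) = (C' : Set V) \ {s} := Finset.coe_erase s C'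
  have hinf : span ℚ ((C'.erase s : Finset V) : Set V) ⊓ U = ⊥ := by
    rw [eq_bot_iff]
    rintro w ⟨hw1, hw2⟩
    rw [← hspan] at hw2
    obtain ⟨x, y, rfl⟩ := mem_span_pair.1 hw2
    have hw3 : x • a + y • a' ∈ span ℚ (C : Set V) := by
      refine span_mono ?_ hw1
      rw [herase]
      exact fun z hz => Finset.mem_coe.2 (hC'C (Finset.mem_coe.1 hz.1))
    have h5 : (x + y * ρ) • a ∈ span ℚ (C : Set V) := by
      have h6 : (x + y * ρ) • a = (x • a + y • a') - y • b := by rw [hb']; module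
      rw [h6]
      exact Submodule.sub_mem _ hw3 (Submodule.smul_mem _ _ hb)
    have hz : x + y * ρ = 0 := by
      by_contra hne
      apply h1
      have h7 := Submodule.smul_mem _ (x + y * ρ)⁻¹ h5
      rwa [smul_smul, inv_mul_cancel₀ hne, one_smul] at h7
    have hwb : x • a + y • a' = y • b := by
      have h8 : x = -(y * ρ) := by (clear * - hz; linarith)
      rw [hb', h8]
      module
    rw [hwb] at hw1 ⊢
    by_cases hy0 : y = 0
    · rw [hy0, zero_smul]
      exact Submodule.zero_mem _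
    · exfalso
      apply hbs
      have h7 := Submodule.smul_mem _ y⁻¹ hw1
      rw [smul_smul, inv_mul_cancel₀ hy0, one_smul, herase] at h7
      exact h7
  obtain ⟨T1, hT1, hsub⟩ := exists_bs hT (C'.erase s)
    (fun z hz => hC (Finset.mem_coe.2 (hC'C (Finset.mem_of_mem_erase (Finset.mem_coe.1 hz)))))
    (hli.mono (by rw [herase]; exact Set.sdiff_subset)) hinf
  have hb2 : b ∈ span ℚ (insert s ((C'.erase s : Finset V) : Set V)) := by
    rw [← Finset.coe_insert, Finset.insert_erase hs]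
    exact hbC'
  obtain ⟨μ, c, hc, hbc⟩ := mem_span_insert.1 hb2
  have hμ : μ ≠ 0 := by
    rintro rfl
    apply hbs
    rw [hbc, ← herase]
    simpa using hc
  refine ⟨T1, μ⁻¹ • b, hT1, ⟨Submodule.smul_mem _ _ hbU, s, hC (Finset.mem_coe.2 (hC'C hs)), ?_⟩,
    smul_ne_zero (inv_ne_zero hμ) hb0, ?_, ?_⟩
  · have h5 : s - μ⁻¹ • b = -(μ⁻¹ • c) := by
      rw [hbc, smul_add, smul_smul, inv_mul_cancel₀ hμ, one_smul]
      abel
    rw [h5]
    exact Submodule.neg_mem _ (Submodule.smul_mem _ _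
      (span_mono (Finset.coe_subset.2 hsub) hc))
  · intro h
    obtain ⟨t, ht⟩ := mem_span_singleton.1 h
    rw [hb'] at ht
    have h4 := li' (t + μ⁻¹ * ρ) (-μ⁻¹) (by
      have h6 : (t + μ⁻¹ * ρ) • a + (-μ⁻¹) • a' = t • a - μ⁻¹ • (a' - ρ • a) := by module
      rw [h6, ht, sub_self])
    exact inv_ne_zero hμ (neg_eq_zero.1 h4.2)
  · intro h
    obtain ⟨t, ht⟩ := mem_span_singleton.1 h
    rw [hb'] at ht
    have h4 := li' (μ⁻¹ * ρ) (t - μ⁻¹) (by
      have h6 : (μ⁻¹ * ρ) • a + (t - μ⁻¹) • a' = t • a' - μ⁻¹ • (a' - ρ • a) := by module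
      rw [h6, ht, sub_self])
    exact mul_ne_zero (inv_ne_zero hμ) hρ h4.1

theorem dich {S T : Set V} (hT : T.Finite) (hX : Uni (S ∪ T))
    (h2 : finrank ℚ (span ℚ S ⊓ span ℚ T : Submodule ℚ V) = 2) :
    Good (span ℚ S ⊓ span ℚ T) T ∨
      ∃ (T' T'' : Set V) (a a' : V), T' ∪ T'' = T ∧ Disjoint T' T'' ∧
        LinearIndependent ℚ ![a, a'] ∧ a ∈ span ℚ S ⊓ span ℚ T ∧ a' ∈ span ℚ S ⊓ span ℚ T ∧
        a ∈ span ℚ T' ∧ a' ∈ span ℚ T'' ∧ span ℚ T' ⊓ span ℚ T'' = ⊥ := by
  classical
  by_cases hG : Good (span ℚ S ⊓ span ℚ T) T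
  · exact Or.inl hG
  right
  have : Module.Finite ℚ (span ℚ S ⊓ span ℚ T : Submodule ℚ V) :=
    Module.finite_of_finrank_pos (by rw [h2]; norm_num)
  obtain ⟨T0, hT0, -⟩ := exists_bs (U := span ℚ S ⊓ span ℚ T) hT ∅ (by simp) (by simp) (by simp)
  have hsp : span ℚ S ⊓ span ℚ T ≤ span ℚ (Re (span ℚ S ⊓ span ℚ T) T T0) :=
    bs_span hT0 inf_le_right
  obtain ⟨a, haR, ha0⟩ : ∃ a ∈ Re (span ℚ S ⊓ span ℚ T) T T0, a ≠ 0 := by
    by_contra hcon
    push Not at hcon
    have h3 : span ℚ S ⊓ span ℚ T ≤ ⊥ :=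
      hsp.trans (span_le.2 (fun u hu => by rw [hcon u hu]; exact Submodule.zero_mem _))
    rw [le_bot_iff.1 h3, finrank_bot] at h2
    exact absurd h2 (by norm_num)
  obtain ⟨a', ha'R, ha'n⟩ : ∃ a' ∈ Re (span ℚ S ⊓ span ℚ T) T T0, a' ∉ span ℚ {a} := by
    by_contra hcon
    push Not at hcon
    have h3 : span ℚ S ⊓ span ℚ T ≤ span ℚ {a} := hsp.trans (span_le.2 hcon)
    have h4 := Submodule.finrank_mono h3
    rw [h2, finrank_span_singleton ha0] at h4
    exact absurd h4 (by norm_num)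
  have haU := haR.1
  have ha'U := ha'R.1
  have li : LinearIndependent ℚ ![a, a'] := by
    rw [LinearIndependent.pair_iff' ha0]
    intro t ht
    exact ha'n (mem_span_singleton.2 ⟨t, ht⟩)
  have li' := LinearIndependent.pair_iff.1 li
  have hspan : span ℚ {a, a'} = span ℚ S ⊓ span ℚ T := by
    apply Submodule.eq_of_le_of_finrank_eq
    · rw [span_le]
      rintro x (rfl | rfl)
      · exact haU
      · exact ha'U
    · rw [h2]
      have h5 := finrank_span_eq_card li
      rw [Matrix.range_cons, Matrix.range_cons, Matrix.range_empty, Set.union_empty,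
        Set.singleton_union] at h5
      rw [h5]
      simp
  have hdis : span ℚ (T0 : Set V) ⊓ span ℚ S = ⊥ := by
    rw [eq_bot_iff]
    rintro w ⟨hw1, hw2⟩
    rw [← hT0.inf]
    exact ⟨hw1, hw2, span_mono hT0.sub hw1⟩
  have hUR := uni_proj hX hT0.sub hdis
  have hRR : Re (span ℚ S ⊓ span ℚ T) T T0 ⊆
      S ∪ {u : V | u ∈ span ℚ S ∧ ∃ t ∈ T, t - u ∈ span ℚ (T0 : Set V)} :=
    fun u hu => Or.inr ⟨hu.1.1, hu.2⟩
  -- (1) the realised vectors are on two lines
  have key1 : ∀ u ∈ Re (span ℚ S ⊓ span ℚ T) T T0, u ≠ 0 →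
      u ∈ span ℚ {a} ∨ u ∈ span ℚ {a'} := by
    intro u hu hu0
    have hu1 : u ∈ span ℚ {a, a'} := by rw [hspan]; exact hu.1
    obtain ⟨α, β, hαβ⟩ := mem_span_pair.1 hu1
    have h5 := uni_coord hUR ![a, a'] Finset.univ
      (by
        intro i _
        fin_cases i
        · exact hRR haR
        · exact hRR ha'R)
      (by rw [Finset.coe_univ, linearIndepOn_univ_iff]; exact li) ![α, β]
      (by
        simp only [Fin.sum_univ_two, Matrix.cons_val_zero, Matrix.cons_val_one]
        rw [hαβ]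
        exact hRR hu)
    have hα := h5 0 (Finset.mem_univ _)
    have hβ := h5 1 (Finset.mem_univ _)
    simp only [Matrix.cons_val_zero, Matrix.cons_val_one] at hα hβ
    by_cases hα0 : α = 0
    · right
      rw [← hαβ, hα0, zero_smul, zero_add]
      exact mem_span_singleton.2 ⟨β, rfl⟩
    by_cases hβ0 : β = 0
    · left
      rw [← hαβ, hβ0, zero_smul, add_zero]
      exact mem_span_singleton.2 ⟨α, rfl⟩
    exfalso
    apply hG
    have hα1 : α = 1 ∨ α = -1 := hα.resolve_left hα0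
    have hβ1 : β = 1 ∨ β = -1 := hβ.resolve_left hβ0
    have hr1 : α • a ∈ Re (span ℚ S ⊓ span ℚ T) T T0 ∨
        -(α • a) ∈ Re (span ℚ S ⊓ span ℚ T) T T0 := by
      rcases hα1 with h | h
      · left; rw [h, one_smul]; exact haR
      · right; rw [h, neg_smul, one_smul, neg_neg]; exact haR
    have hr2 : β • a' ∈ Re (span ℚ S ⊓ span ℚ T) T T0 ∨
        -(β • a') ∈ Re (span ℚ S ⊓ span ℚ T) T T0 := by
      rcases hβ1 with h | h
      · left; rw [h, one_smul]; exact ha'R
      · right; rw [h, neg_smul, one_smul, neg_neg]; exact ha'R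
    have hr3 : α • a + β • a' ∈ Re (span ℚ S ⊓ span ℚ T) T T0 ∨
        -(α • a + β • a') ∈ Re (span ℚ S ⊓ span ℚ T) T T0 := by
      left; rw [hαβ]; exact hu
    refine ⟨α • a, β • a', ?_, ?_, ⟨T0, hT0, hr1, hr2⟩, ⟨T0, hT0, hr1, hr3⟩,
      ⟨T0, hT0, hr2, hr3⟩⟩
    · rw [LinearIndependent.pair_iff]
      intro s t hst
      rw [smul_smul, smul_smul] at hst
      have h6 := li' (s * α) (t * β) hst
      exact ⟨(mul_eq_zero.1 h6.1).resolve_right hα0, (mul_eq_zero.1 h6.2).resolve_right hβ0⟩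
    · rw [← hspan]
      apply le_antisymm
      · rw [span_le]
        rintro x (rfl | rfl)
        · exact Submodule.smul_mem _ _ (subset_span (by simp))
        · exact Submodule.smul_mem _ _ (subset_span (by simp))
      · rw [span_le]
        rintro x (rfl | rfl)
        · have h7 := Submodule.smul_mem (span ℚ {α • x, β • a'}) α⁻¹
            (subset_span (Set.mem_insert _ _))
          rwa [smul_smul, inv_mul_cancel₀ hα0, one_smul] at h7
        · have h7 := Submodule.smul_mem (span ℚ {α • a, β • x}) β⁻¹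
            (subset_span (Set.mem_insert_of_mem _ (Set.mem_singleton _)))
          rwa [smul_smul, inv_mul_cancel₀ hβ0, one_smul] at h7
  -- a vector on the line of `u' ≠ 0`
  have line : ∀ u u' : V, ∀ d : V, u' ∈ span ℚ {u} → u' ≠ 0 → u' ∈ span ℚ {d} →
      u ∈ span ℚ {d} := by
    intro u u' d h5 h6 h7
    obtain ⟨t, ht⟩ := mem_span_singleton.1 h5
    have ht0 : t ≠ 0 := by
      rintro rfl
      exact h6 (by rw [← ht, zero_smul])
    have h8 : u = t⁻¹ • u' := by
      rw [← ht, smul_smul, inv_mul_cancel₀ ht0, one_smul]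
    rw [h8]
    exact Submodule.smul_mem _ _ h7
  have hTc : ((hT.toFinset : Finset V) : Set V) = T := hT.coe_toFinset
  rcases split_or a a' hT.toFinset with ⟨C, hCT, hC1, hC2, hC3⟩ | ⟨T', T'', hun, hdj, hin⟩
  · exfalso
    have hCT' : (C : Set V) ⊆ T := by
      rw [← hTc]
      exact Finset.coe_subset.2 hCT
    obtain ⟨T1, u, hT1, huR, hu0, hua, hua'⟩ :=
      third h2 hT haU ha'U li C hCT' hC1 hC2 hC3
    obtain ⟨u', hu'R, hu'0, hu'u⟩ := dir_all hX h2 hG hT1 hT0 huR hu0
    rcases key1 u' hu'R hu'0 with h | h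
    · exact hua (line u u' a hu'u hu'0 h)
    · exact hua' (line u u' a' hu'u hu'0 h)
  · have hunT : (T' : Set V) ∪ (T'' : Set V) = T := by
      rw [← hTc, ← hun, Finset.coe_union]
    have hst : span ℚ T = span ℚ (T' : Set V) ⊔ span ℚ (T'' : Set V) := by
      rw [← hunT, span_union]
    have hm1 : ∀ w ∈ span ℚ (T' : Set V), w ∈ span ℚ ((T' : Set V) ∪ {a}) := fun w hw =>
      span_mono Set.subset_union_left hw
    have hm2 : ∀ w ∈ span ℚ (T'' : Set V), w ∈ span ℚ ((T'' : Set V) ∪ {a'}) := fun w hw =>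
      span_mono Set.subset_union_left hw
    have hm3 : a ∈ span ℚ ((T' : Set V) ∪ {a}) :=
      subset_span (Set.mem_union_right _ (Set.mem_singleton _))
    have hm4 : a' ∈ span ℚ ((T'' : Set V) ∪ {a'}) :=
      subset_span (Set.mem_union_right _ (Set.mem_singleton _))
    have hbot : ∀ w, w ∈ span ℚ ((T' : Set V) ∪ {a}) → w ∈ span ℚ ((T'' : Set V) ∪ {a'}) →
        w = 0 := by
      intro w h5 h6
      have h7 : w ∈ span ℚ ((T' : Set V) ∪ {a}) ⊓ span ℚ ((T'' : Set V) ∪ {a'}) := ⟨h5, h6⟩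
      rw [hin] at h7
      exact (Submodule.mem_bot ℚ).1 h7
    refine ⟨(T' : Set V), (T'' : Set V), a, a', hunT, Finset.disjoint_coe.2 hdj, li, haU, ha'U,
      ?_, ?_, ?_⟩
    · have h5 : a ∈ span ℚ T := haU.2
      rw [hst, mem_sup] at h5
      obtain ⟨w, hw, w', hw', hww⟩ := h5
      have h6 : w' = 0 := hbot w' (by
        have h7 : w' = a - w := by rw [← hww]; abel
        rw [h7]
        exact Submodule.sub_mem _ hm3 (hm1 w hw)) (hm2 w' hw')
      rw [h6, add_zero] at hww
      rw [← hww]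
      exact hw
    · have h5 : a' ∈ span ℚ T := ha'U.2
      rw [hst, mem_sup] at h5
      obtain ⟨w, hw, w', hw', hww⟩ := h5
      have h6 : w = 0 := hbot w (hm1 w hw) (by
        have h7 : w = a' - w' := by rw [← hww]; abel
        rw [h7]
        exact Submodule.sub_mem _ hm4 (hm2 w' hw'))
      rw [h6, zero_add] at hww
      rw [← hww]
      exact hw'
    · rw [eq_bot_iff]
      rintro w ⟨hw1, hw2⟩
      rw [Submodule.mem_bot]
      exact hbot w (hm1 w hw1) (hm2 w hw2)

end RC.Gut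

end

section

/-!
Module RG-6.  3-sums.  `U = span S ⊓ span T`, `finrank U = 2`.

`uni_pairs`: let a finite independent `s ⊆ X ∪ {p, q, p + q}` and `x = ∑ c a • a` in this set
be given.  At most two of `p, q, p + q` are in `s` (they are dependent).  If `x` is one of `p, q, p + q`
and the two others are in `s`, then by independence of `s` the coefficients are `± 1` and `0`.
If `x ∈ {p, q, p + q}` is itself in `s`: the coefficients are `0, 1`.  In all other cases `s ∪ {x}` is
contained in `X ∪ {d, d'}` for two of the three, and the definition of `Uni` for this set gives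
the claim.

`compat`: let `T1` realise `d1, d2` up to signs (`Pr U T d1 d2`) and `S1` realise `e1, e2`
(`Pr U S e1 e2`).  By `uni_proj` `S ∪ Re U T T1` is unimodular (`span T1 ⊓ span S ≤ span T1 ⊓ U`
`= ⊥`).  `span (Re U T T1) = U` (`bs_span`).  Apply `uni_proj` to the sets `Re U T T1` and `S` with
the contracted set `S1` (`span S1 ⊓ U = ⊥`): `Re U T T1 ∪ {u ∈ U | ∃ s ∈ S, s - u ∈ span S1}` is
unimodular, and it contains `d1, d2, e1, e2` up to signs; `uni_mono`.

`three_sum`: let `p, q` be the triangle for `T` and `p', q'` the triangle for `S`.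
(1) `S ∪ {d, d'}` is unimodular for all pairs from `p, q, p + q` (`uni_proj`, `uni_mono`), so
    `S ∪ {p, q, p + q}` is unimodular (`uni_pairs`).  In the same way (`Set.union_comm`, `inf_comm`)
    `T ∪ {p', q', p' + q'}` is unimodular.
(2) `{p, q, p + q} ∪ {p', q', p' + q'}` is unimodular: by `compat` every union of a pair from the
    first and a pair from the second triangle is unimodular; apply `uni_pairs` twice (for
    `X = {e, e'}` a pair from the second, then for `X = {p, q, p + q}`).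
(3) By `uni_plane` (basis `p', q'`) each of `p, q, p + q` is `±` one of `p', q', p' + q'` (they are
    nonzero), so `T ∪ {p, q, p + q}` is unimodular by `uni_mono`.
-/

namespace RC.Gut

open Submodule Module

variable {V : Type} [AddCommGroup V] [Module ℚ V]

theorem uni_pairs {X : Set V} {p q : V} (h1 : Uni (X ∪ {p, q})) (h2 : Uni (X ∪ {p, p + q}))
    (h3 : Uni (X ∪ {q, p + q})) : Uni (X ∪ {p, q, p + q}) := by
  classical
  intro s c hs hli hx
  have hli0 := linearIndepOn_finset_iff.1 hli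
  have hne : ∀ b ∈ s, b ≠ 0 := fun b hb => hli.ne_zero (Finset.mem_coe.2 hb)
  have uniq : ∀ d : V → ℚ, ∑ a ∈ s, c a • a = ∑ a ∈ s, d a • a → ∀ a ∈ s, c a = d a := by
    intro d hd a ha
    have h := hli0 (fun a => c a - d a) (by
      simp only [id, sub_smul, Finset.sum_sub_distrib]
      rw [hd, sub_self]) a ha
    exact sub_eq_zero.1 h
  have single : ∀ d ∈ s, ∑ a ∈ s, (if a = d then (1 : ℚ) else 0) • a = d := by
    intro d hd
    simp [ite_smul, hd]
  have hmem : ∀ y ∈ X ∪ {p, q, p + q}, y ∈ X ∨ y = p ∨ y = q ∨ y = p + q := by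
    intro y hy
    rcases hy with hy | hy
    · exact Or.inl hy
    · right
      simpa using hy
  by_cases hx0 : ∑ a ∈ s, c a • a = 0
  · intro a ha
    left
    have h := uniq (fun _ => 0) (by rw [hx0]; simp) a ha
    exact h
  by_cases hA : p ∉ s ∧ ∑ a ∈ s, c a • a ≠ p
  · refine h3 s c ?_ hli ?_
    · intro a ha
      rcases hmem a (hs ha) with h | h | h | h
      · exact Or.inl h
      · exact absurd (h ▸ Finset.mem_coe.1 ha) hA.1
      · exact Or.inr (by simp [h])
      · exact Or.inr (by simp [h])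
    · rcases hmem _ hx with h | h | h | h
      · exact Or.inl h
      · exact absurd h hA.2
      · exact Or.inr (by rw [h]; simp)
      · exact Or.inr (by rw [h]; simp)
  by_cases hB : q ∉ s ∧ ∑ a ∈ s, c a • a ≠ q
  · refine h2 s c ?_ hli ?_
    · intro a ha
      rcases hmem a (hs ha) with h | h | h | h
      · exact Or.inl h
      · exact Or.inr (by simp [h])
      · exact absurd (h ▸ Finset.mem_coe.1 ha) hB.1
      · exact Or.inr (by simp [h])
    · rcases hmem _ hx with h | h | h | h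
      · exact Or.inl h
      · exact Or.inr (by rw [h]; simp)
      · exact absurd h hB.2
      · exact Or.inr (by rw [h]; simp)
  by_cases hC : p + q ∉ s ∧ ∑ a ∈ s, c a • a ≠ p + q
  · refine h1 s c ?_ hli ?_
    · intro a ha
      rcases hmem a (hs ha) with h | h | h | h
      · exact Or.inl h
      · exact Or.inr (by simp [h])
      · exact Or.inr (by simp [h])
      · exact absurd (h ▸ Finset.mem_coe.1 ha) hC.1
    · rcases hmem _ hx with h | h | h | h
      · exact Or.inl h
      · exact Or.inr (by rw [h]; simp)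
      · exact Or.inr (by rw [h]; simp)
      · exact absurd h hC.2
  have hA' : p ∈ s ∨ ∑ a ∈ s, c a • a = p := by
    by_contra hcon
    push Not at hcon
    exact hA hcon
  have hB' : q ∈ s ∨ ∑ a ∈ s, c a • a = q := by
    by_contra hcon
    push Not at hcon
    exact hB hcon
  have hC' : p + q ∈ s ∨ ∑ a ∈ s, c a • a = p + q := by
    by_contra hcon
    push Not at hcon
    exact hC hcon
  have hp0 : p ≠ 0 := by
    rcases hA' with h | h
    · exact hne p h
    · rw [← h]; exact hx0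
  have hq0 : q ≠ 0 := by
    rcases hB' with h | h
    · exact hne q h
    · rw [← h]; exact hx0
  have hpq : p ≠ q := by
    intro h
    subst h
    have h4 := uni_coord h2 (fun _ : Unit => p) {()} (fun _ _ => Or.inr (by simp))
      (by
        rw [linearIndepOn_finset_iff]
        intro f hf i _
        simp only [Finset.sum_singleton] at hf
        rcases smul_eq_zero.1 hf with h5 | h5
        · exact h5
        · exact absurd h5 hp0) (fun _ => 2)
      (by
        simp only [Finset.sum_singleton]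
        exact Or.inr (by rw [two_smul]; simp)) () (Finset.mem_singleton_self _)
    norm_num at h4
  have h5 : p ≠ p + q := by
    intro h
    exact hq0 (by simpa using h)
  have h6 : q ≠ p + q := by
    intro h
    exact hp0 (by simpa using h)
  have hall : ¬ (p ∈ s ∧ q ∈ s ∧ p + q ∈ s) := by
    rintro ⟨hp, hq, hpq'⟩
    have h7 := hli0 (fun a => (if a = p then (1 : ℚ) else 0) + (if a = q then (1 : ℚ) else 0)
      - (if a = p + q then (1 : ℚ) else 0)) (by
        simp only [id, sub_smul, add_smul, Finset.sum_sub_distrib, Finset.sum_add_distrib]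
        rw [single p hp, single q hq, single (p + q) hpq', sub_self]) (p + q) hpq'
    simp only [if_neg h5.symm, if_neg h6.symm, if_true] at h7
    norm_num at h7
  have hcase : (∑ a ∈ s, c a • a = p ∧ q ∈ s ∧ p + q ∈ s) ∨
      (∑ a ∈ s, c a • a = q ∧ p ∈ s ∧ p + q ∈ s) ∨
      (∑ a ∈ s, c a • a = p + q ∧ p ∈ s ∧ q ∈ s) := by
    rcases hA' with ha | ha
    · rcases hB' with hb | hb
      · rcases hC' with hc | hc
        · exact absurd ⟨ha, hb, hc⟩ hall
        · exact Or.inr (Or.inr ⟨hc, ha, hb⟩)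
      · rcases hC' with hc | hc
        · exact Or.inr (Or.inl ⟨hb, ha, hc⟩)
        · exact absurd (hb.symm.trans hc) h6
    · rcases hB' with hb | hb
      · rcases hC' with hc | hc
        · exact Or.inl ⟨ha, hb, hc⟩
        · exact absurd (ha.symm.trans hc) h5
      · exact absurd (ha.symm.trans hb) hpq
  rcases hcase with ⟨hxe, hs1, hs2⟩ | ⟨hxe, hs1, hs2⟩ | ⟨hxe, hs1, hs2⟩
  · intro a ha
    have h8 := uniq (fun a => (if a = p + q then (1 : ℚ) else 0) - (if a = q then (1 : ℚ) else 0))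
      (by
        simp only [sub_smul, Finset.sum_sub_distrib]
        rw [single _ hs1, single _ hs2, hxe]
        abel) a ha
    rw [h8]
    split_ifs <;> norm_num
  · intro a ha
    have h8 := uniq (fun a => (if a = p + q then (1 : ℚ) else 0) - (if a = p then (1 : ℚ) else 0))
      (by
        simp only [sub_smul, Finset.sum_sub_distrib]
        rw [single _ hs1, single _ hs2, hxe]
        abel) a ha
    rw [h8]
    split_ifs <;> norm_num
  · intro a ha
    have h8 := uniq (fun a => (if a = p then (1 : ℚ) else 0) + (if a = q then (1 : ℚ) else 0))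
      (by
        simp only [add_smul, Finset.sum_add_distrib]
        rw [single _ hs1, single _ hs2, hxe]) a ha
    rw [h8]
    by_cases h9 : a = p
    · have h10 : a ≠ q := by rw [h9]; exact hpq
      rw [if_pos h9, if_neg h10]
      norm_num
    · rw [if_neg h9]
      split_ifs <;> norm_num

theorem re_sub {U : Submodule ℚ V} {T : Set V} {T1 : Finset V} : Re U T T1 ⊆ (U : Set V) :=
  fun _ hu => hu.1

theorem bs_disj {S T : Set V} {T1 : Finset V} (h : Bs (span ℚ S ⊓ span ℚ T) T T1) :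
    span ℚ (T1 : Set V) ⊓ span ℚ S = ⊥ := by
  rw [eq_bot_iff, ← h.inf]
  refine le_inf inf_le_left (le_inf inf_le_right ?_)
  exact inf_le_left.trans (span_mono h.sub)

theorem uni_re {S T : Set V} (hX : Uni (S ∪ T)) {T1 : Finset V}
    (h : Bs (span ℚ S ⊓ span ℚ T) T T1) : Uni (S ∪ Re (span ℚ S ⊓ span ℚ T) T T1) := by
  refine uni_mono (uni_proj hX h.sub (bs_disj h)) ?_
  intro x hx
  right
  left
  rcases hx with hx | hx
  · exact Or.inl hx
  · exact Or.inr ⟨hx.1.1, hx.2⟩

theorem proj_pair {S T : Set V} (hX : Uni (S ∪ T)) {d d' : V}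
    (h : Pr (span ℚ S ⊓ span ℚ T) T d d') : Uni (S ∪ {d, d'}) := by
  obtain ⟨T1, hT1, h1, h2⟩ := h
  refine uni_mono (uni_re hX hT1) ?_
  intro x hx
  right
  rcases hx with hx | hx | hx
  · exact Or.inl (Or.inl hx)
  · rw [hx]
    rcases h1 with h1 | h1
    · exact Or.inl (Or.inr h1)
    · exact Or.inr (Or.inr h1)
  · rw [Set.mem_singleton_iff.1 hx]
    rcases h2 with h2 | h2
    · exact Or.inl (Or.inr h2)
    · exact Or.inr (Or.inr h2)

theorem compat {S T : Set V} (hX : Uni (S ∪ T)) {d1 d2 e1 e2 : V}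
    (hT : Pr (span ℚ S ⊓ span ℚ T) T d1 d2) (hS : Pr (span ℚ S ⊓ span ℚ T) S e1 e2) :
    Uni ({d1, d2} ∪ {e1, e2} : Set V) := by
  obtain ⟨T1, hT1, hd1, hd2⟩ := hT
  obtain ⟨S1, hS1, he1, he2⟩ := hS
  have hu := uni_re hX hT1
  rw [Set.union_comm] at hu
  have hR : span ℚ (Re (span ℚ S ⊓ span ℚ T) T T1) ≤ span ℚ S ⊓ span ℚ T :=
    span_le.2 re_sub
  have h0 : span ℚ (S1 : Set V) ⊓ span ℚ (Re (span ℚ S ⊓ span ℚ T) T T1) = ⊥ := by
    rw [eq_bot_iff, ← hS1.inf]
    exact inf_le_inf_left _ hR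
  have hsp : span ℚ S ⊓ span ℚ T ≤ span ℚ (Re (span ℚ S ⊓ span ℚ T) T T1) :=
    bs_span hT1 inf_le_right
  have hv := uni_proj hu hS1.sub h0
  have hR2 : ∀ u ∈ Re (span ℚ S ⊓ span ℚ T) S S1,
      u ∈ {u : V | u ∈ span ℚ (Re (span ℚ S ⊓ span ℚ T) T T1) ∧
        ∃ t ∈ S, t - u ∈ span ℚ (S1 : Set V)} := fun u hu => ⟨hsp hu.1, hu.2⟩
  refine uni_mono hv ?_
  intro x hx
  right
  rcases hx with (hx | hx) | (hx | hx)
  · rw [hx]
    exact hd1.imp Or.inl Or.inl
  · rw [Set.mem_singleton_iff.1 hx]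
    exact hd2.imp Or.inl Or.inl
  · rw [hx]
    exact he1.imp (fun h => Or.inr (hR2 _ h)) (fun h => Or.inr (hR2 _ h))
  · rw [Set.mem_singleton_iff.1 hx]
    exact he2.imp (fun h => Or.inr (hR2 _ h)) (fun h => Or.inr (hR2 _ h))

theorem three_sum {S T : Set V} (hX : Uni (S ∪ T))
    (h2 : finrank ℚ (span ℚ S ⊓ span ℚ T : Submodule ℚ V) = 2)
    (hS : Good (span ℚ S ⊓ span ℚ T) S) (hT : Good (span ℚ S ⊓ span ℚ T) T) :
    ∃ p q : V, LinearIndependent ℚ ![p, q] ∧ span ℚ S ⊓ span ℚ T = span ℚ {p, q} ∧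
      Uni (S ∪ {p, q, p + q}) ∧ Uni (T ∪ {p, q, p + q}) := by
  obtain ⟨p, q, li, hsp, t1, t2, t3⟩ := hT
  obtain ⟨p', q', li', hsp', s1, s2, s3⟩ := hS
  have hSp : Uni (S ∪ {p, q, p + q}) :=
    uni_pairs (proj_pair hX t1) (proj_pair hX t2) (proj_pair hX t3)
  have hX' : Uni (T ∪ S) := by rw [Set.union_comm]; exact hX
  have hTp' : Uni (T ∪ {p', q', p' + q'}) := by
    have s1' := s1
    have s2' := s2
    have s3' := s3
    rw [inf_comm] at s1' s2' s3'
    exact uni_pairs (proj_pair hX' s1') (proj_pair hX' s2') (proj_pair hX' s3')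
  have hpair : ∀ e1 e2 : V, Pr (span ℚ S ⊓ span ℚ T) S e1 e2 →
      Uni ({p, q, p + q} ∪ {e1, e2} : Set V) := by
    intro e1 e2 he
    rw [Set.union_comm]
    refine uni_pairs ?_ ?_ ?_
    · rw [Set.union_comm]; exact compat hX t1 he
    · rw [Set.union_comm]; exact compat hX t2 he
    · rw [Set.union_comm]; exact compat hX t3 he
  have hall : Uni ({p, q, p + q} ∪ {p', q', p' + q'} : Set V) :=
    uni_pairs (hpair _ _ s1) (hpair _ _ s2) (hpair _ _ s3)
  have hp : p ∈ span ℚ {p', q'} := by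
    rw [hsp', ← hsp]
    exact subset_span (by simp)
  have hq : q ∈ span ℚ {p', q'} := by
    rw [hsp', ← hsp]
    exact subset_span (by simp)
  have key : ∀ x ∈ ({p, q, p + q} : Set V), x ∈ span ℚ {p', q'} →
      x = 0 ∨ x ∈ T ∪ {p', q', p' + q'} ∨ -x ∈ T ∪ {p', q', p' + q'} := by
    intro x hx hxs
    have h := uni_plane hall (p := p') (q := q') (x := x) (Or.inr (by simp)) (Or.inr (by simp))
      (Or.inr (by simp)) li' (Or.inl hx) hxs
    rcases h with h | h | h | h | h | h | h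
    · exact Or.inl h
    · exact Or.inr (Or.inl (Or.inr (by simp [h])))
    · exact Or.inr (Or.inr (Or.inr (by simp [h])))
    · exact Or.inr (Or.inl (Or.inr (by simp [h])))
    · exact Or.inr (Or.inr (Or.inr (by simp [h])))
    · exact Or.inr (Or.inl (Or.inr (by simp [h])))
    · exact Or.inr (Or.inr (Or.inr (by rw [h, neg_neg]; simp)))
  refine ⟨p, q, li, hsp.symm, hSp, uni_mono hTp' ?_⟩
  intro x hx
  rcases hx with hx | hx
  · exact Or.inr (Or.inl (Or.inl hx))
  · refine key x hx ?_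
    rcases hx with hx | hx | hx
    · rw [hx]; exact hp
    · rw [hx]; exact hq
    · rw [Set.mem_singleton_iff.1 hx]; exact Submodule.add_mem _ hp hq

end RC.Gut

end

section

/-!
Module RG-9.  The induction for the decomposition theorem: 1-, 2- and 3-separations.
-/

namespace RC.Gut

open Submodule Module

variable {V : Type} [AddCommGroup V] [Module ℚ V]

/-- Finite unimodular sets without zero and without parallel elements. -/
structure Nice (X : Set V) : Prop where
  fin : X.Finite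
  uni : Uni X
  ne : (0 : V) ∉ X
  par : ∀ x ∈ X, -x ∉ X

/-- No 1-separation and no 2-separation. -/
def Conn3 (X : Set V) : Prop :=
  ∀ A B : Set V, A ∪ B = X → Disjoint A B →
    (finrank ℚ (span ℚ A ⊓ span ℚ B : Submodule ℚ V) = 0 → A = ∅ ∨ B = ∅) ∧
    (finrank ℚ (span ℚ A ⊓ span ℚ B : Submodule ℚ V) = 1 → A.ncard ≤ 1 ∨ B.ncard ≤ 1)

theorem exists_clean {X : Set V} (hX : X.Finite) :
    ∃ X' ⊆ X, (0 : V) ∉ X' ∧ (∀ x ∈ X', -x ∉ X') ∧ ∀ x ∈ X, x = 0 ∨ x ∈ X' ∨ -x ∈ X' := by
  induction X, hX using Set.Finite.induction_on with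
  | empty => exact ⟨∅, subset_rfl, by simp, by simp, by simp⟩
  | @insert a s ha hs ih =>
    obtain ⟨X', h1, h2, h3, h4⟩ := ih
    by_cases hc : a = 0 ∨ a ∈ X' ∨ -a ∈ X'
    · refine ⟨X', h1.trans (Set.subset_insert _ _), h2, h3, ?_⟩
      rintro x (rfl | hx)
      · exact hc
      · exact h4 x hx
    · push Not at hc
      obtain ⟨c1, c2, c3⟩ := hc
      have hne : a ≠ -a := fun h => c1 (by
        have : (2 : ℚ) • a = 0 := by
          rw [two_smul]
          nth_rewrite 1 [h]
          rw [neg_add_cancel]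
        exact (smul_eq_zero.1 this).resolve_left (by norm_num))
      refine ⟨insert a X', Set.insert_subset_insert h1, ?_, ?_, ?_⟩
      · rintro (h | h)
        · exact c1 h.symm
        · exact h2 h
      · rintro x (rfl | hx)
        · rintro (h | h)
          · exact hne h.symm
          · exact c3 h
        · rintro (h | h)
          · exact c3 (by rw [← h, neg_neg]; exact hx)
          · exact h3 x hx h
      · rintro x (rfl | hx)
        · exact Or.inr (Or.inl (Set.mem_insert _ _))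
        · rcases h4 x hx with h | h | h
          · exact Or.inl h
          · exact Or.inr (Or.inl (Set.mem_insert_of_mem _ h))
          · exact Or.inr (Or.inr (Set.mem_insert_of_mem _ h))

theorem finrank_singleton_inf {U : Submodule ℚ V} {a : V} (ha : a ≠ 0) (h : U = span ℚ {a}) :
    finrank ℚ U = 1 := by
  rw [h]
  exact finrank_span_singleton ha

/-- A split side of a separation gives a 2-separation. -/
theorem split_inf {T' T'' B : Set V} {a a' : V} (haa : span ℚ {a, a'} = span ℚ B ⊓ span ℚ (T' ∪ T''))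
    (ha : a ∈ span ℚ T') (ha' : a' ∈ span ℚ T'') (h0 : span ℚ T' ⊓ span ℚ T'' = ⊥) :
    span ℚ T' ⊓ span ℚ (T'' ∪ B) = span ℚ {a} := by
  have haB : a ∈ span ℚ B := by
    have : a ∈ span ℚ B ⊓ span ℚ (T' ∪ T'') := by
      rw [← haa]; exact subset_span (by simp)
    exact this.1
  apply le_antisymm
  · rintro y ⟨hy1, hy2⟩
    rw [span_union] at hy2
    obtain ⟨w, hw, b, hb, hwb⟩ := mem_sup.1 hy2
    have hbT : b ∈ span ℚ (T' ∪ T'') := by
      have hy' : y ∈ span ℚ (T' ∪ T'') := span_mono Set.subset_union_left hy1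
      have hw' : w ∈ span ℚ (T' ∪ T'') := span_mono Set.subset_union_right hw
      have : b = y - w := by rw [← hwb]; abel
      rw [this]
      exact sub_mem hy' hw'
    have hbU : b ∈ span ℚ ({a, a'} : Set V) := by rw [haa]; exact ⟨hb, hbT⟩
    obtain ⟨s, t, rfl⟩ := mem_span_pair.1 hbU
    have h1 : y - s • a = w + t • a' := by rw [← hwb]; abel
    have h2 : y - s • a ∈ span ℚ T' ⊓ span ℚ T'' := by
      refine ⟨sub_mem hy1 (smul_mem _ _ ha), ?_⟩
      rw [h1]
      exact add_mem hw (smul_mem _ _ ha')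
    rw [h0, mem_bot, sub_eq_zero] at h2
    rw [h2]
    exact smul_mem _ _ (mem_span_singleton_self a)
  · rw [span_le]
    rintro y (rfl : y = a)
    exact ⟨ha, span_mono Set.subset_union_right haB⟩

theorem good_of_conn {A B : Set V} (hA : A.Finite) (hB : B.Finite) (hX : Uni (A ∪ B))
    (hd : Disjoint A B) (hc : Conn3 (A ∪ B)) (h3 : 3 ≤ A.ncard) (h2 : 2 ≤ B.ncard)
    (hf : finrank ℚ (span ℚ B ⊓ span ℚ A : Submodule ℚ V) = 2) :
    Good (span ℚ B ⊓ span ℚ A) A := by
  rcases dich (S := B) (T := A) hA (by rw [Set.union_comm]; exact hX) hf with h | h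
  · exact h
  · exfalso
    obtain ⟨T', T'', a, a', hT, hdT, li, haU, haU', ha, ha', h0⟩ := h
    have hfd : FiniteDimensional ℚ (span ℚ B ⊓ span ℚ A : Submodule ℚ V) := by
      have : FiniteDimensional ℚ (span ℚ A) := FiniteDimensional.span_of_finite ℚ hA
      exact Submodule.finiteDimensional_inf_right _ _
    have hspan : span ℚ ({a, a'} : Set V) = span ℚ B ⊓ span ℚ A := by
      refine Submodule.eq_of_le_of_finrank_eq ?_ ?_
      · rw [span_le]
        rintro y (rfl | rfl)
        · exact haU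
        · exact haU'
      · rw [hf]
        have h1 := finrank_span_eq_card li
        rw [Fintype.card_fin, Matrix.range_cons, Matrix.range_cons, Matrix.range_empty,
          Set.union_empty, Set.singleton_union] at h1
        exact h1
    have hTf' : T'.Finite := hA.subset (by rw [← hT]; exact Set.subset_union_left)
    have hTf'' : T''.Finite := hA.subset (by rw [← hT]; exact Set.subset_union_right)
    have hcard : T'.ncard + T''.ncard = A.ncard := by
      rw [← hT, Set.ncard_union_eq hdT hTf' hTf'']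
    have hdA' : Disjoint T' B := hd.mono_left (by rw [← hT]; exact Set.subset_union_left)
    have hdA'' : Disjoint T'' B := hd.mono_left (by rw [← hT]; exact Set.subset_union_right)
    have hane : a ≠ 0 := by simpa using li.ne_zero 0
    have hane' : a' ≠ 0 := by simpa using li.ne_zero 1
    have hle : ∀ T : Set V, T.Finite → 2 ≤ (T ∪ B).ncard := by
      intro T hTf
      exact h2.trans (Set.ncard_le_ncard Set.subset_union_right (hTf.union hB))
    rcases le_or_gt 2 T'.ncard with h | h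
    · have e1 : span ℚ T' ⊓ span ℚ (T'' ∪ B) = span ℚ {a} :=
        split_inf (by rw [hspan, hT]) ha ha' h0
      have e2 := (hc T' (T'' ∪ B) (by rw [← Set.union_assoc, hT])
        (Set.disjoint_union_right.2 ⟨hdT, hdA'⟩)).2 (finrank_singleton_inf hane e1)
      have := hle T'' hTf''
      omega
    · have e1 : span ℚ T'' ⊓ span ℚ (T' ∪ B) = span ℚ {a'} :=
        split_inf (a := a') (a' := a)
          (by rw [Set.pair_comm, hspan, Set.union_comm T'' T', hT]) ha' ha
          (by rw [inf_comm]; exact h0)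
      have e2 := (hc T'' (T' ∪ B)
        (by rw [← Set.union_assoc, Set.union_comm T'' T', hT])
        (Set.disjoint_union_right.2 ⟨hdT.symm, hdA''⟩)).2 (finrank_singleton_inf hane' e1)
      have := hle T' hTf'
      omega

/-- Sets with at most three elements. -/
theorem dec_small {X : Set V} (hN : Nice X) (hc : Conn3 X) (h : X.ncard ≤ 3) : Dec V X := by
  have hne : ∀ x ∈ X, x ≠ 0 := fun x hx h0 => hN.ne (h0 ▸ hx)
  have hli : ∀ x ∈ X, ∀ y ∈ X, x ≠ y → LinearIndependent ℚ ![x, y] := by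
    intro x hx y hy hxy
    by_contra hcon
    rcases uni_par hN.uni hx hy (hne x hx) (hne y hy) hcon with h1 | h1
    · exact hxy h1.symm
    · exact hN.par x hx (h1 ▸ hy)
  have h' : X.ncard = 0 ∨ X.ncard = 1 ∨ X.ncard = 2 ∨ X.ncard = 3 := by omega
  rcases h' with h' | h' | h' | h'
  · rw [Set.ncard_eq_zero hN.fin] at h'
    rw [h']
    exact dec_empty
  · obtain ⟨x, rfl⟩ := Set.ncard_eq_one.1 h'
    exact dec_single (hne x rfl)
  · exfalso
    obtain ⟨x, y, hxy, rfl⟩ := Set.ncard_eq_two.1 h'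
    have li := hli x (by simp) y (by simp) hxy
    have h0 : span ℚ ({x} : Set V) ⊓ span ℚ {y} = ⊥ := by
      rw [eq_bot_iff]
      rintro w ⟨h1, h2⟩
      obtain ⟨s, rfl⟩ := mem_span_singleton.1 h1
      obtain ⟨t, ht⟩ := mem_span_singleton.1 h2
      have := (LinearIndependent.pair_iff.1 li) s (-t) (by rw [← ht]; module)
      rw [this.1, zero_smul]
      exact zero_mem _
    have := (hc {x} {y} (by rw [Set.singleton_union]) (by simpa using hxy)).1
      (by rw [h0]; exact finrank_bot ℚ V)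
    simp at this
  · obtain ⟨x, y, z, hxy, hxz, hyz, rfl⟩ := Set.ncard_eq_three.1 h'
    have li := hli x (by simp) y (by simp) hxy
    by_cases hz : z ∈ span ℚ ({x, y} : Set V)
    · obtain ⟨s, t, hst⟩ := mem_span_pair.1 hz
      have hu := uni_coord hN.uni ![x, y] Finset.univ
        (by intro i _; fin_cases i <;> simp)
        (by rw [Finset.coe_univ, linearIndepOn_univ_iff]; exact li) ![s, t]
        (by
          have : ∑ i : Fin 2, ![s, t] i • ![x, y] i = z := by
            rw [Fin.sum_univ_two]; simpa using hst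
          rw [this]; simp)
      have hs := hu 0 (Finset.mem_univ _)
      have ht := hu 1 (Finset.mem_univ _)
      simp only [Matrix.cons_val_zero, Matrix.cons_val_one] at hs ht
      have hs0 : s ≠ 0 := by
        rintro rfl
        rw [zero_smul, zero_add] at hst
        rcases ht with rfl | rfl | rfl
        · exact hne z (by simp) (by rw [← hst, zero_smul])
        · exact hyz (by rw [← hst, one_smul])
        · exact hN.par y (by simp) (by rw [neg_one_smul] at hst; rw [hst]; simp)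
      have ht0 : t ≠ 0 := by
        rintro rfl
        rw [zero_smul, add_zero] at hst
        rcases hs with rfl | rfl | rfl
        · exact hs0 rfl
        · exact hxz (by rw [← hst, one_smul])
        · exact hN.par x (by simp) (by rw [neg_one_smul] at hst; rw [hst]; simp)
      have hs' := hs.resolve_left hs0
      have ht' := ht.resolve_left ht0
      have li' : LinearIndependent ℚ ![s • x, t • y] := by
        rw [LinearIndependent.pair_iff] at li ⊢
        intro a b hab
        have := li (a * s) (b * t) (by rw [← hab]; module)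
        exact ⟨(mul_eq_zero.1 this.1).resolve_right hs0, (mul_eq_zero.1 this.2).resolve_right ht0⟩
      refine dec_sub (dec_tri li') ?_
      rintro w (rfl | rfl | rfl)
      · right
        rcases hs' with rfl | rfl
        · left; simp
        · right; simp
      · right
        rcases ht' with rfl | rfl
        · left; simp
        · right; simp
      · right; left
        rw [← hst]
        simp
    · exfalso
      have h0 : span ℚ ({x, y} : Set V) ⊓ span ℚ {z} = ⊥ := by
        rw [eq_bot_iff]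
        rintro w ⟨h1, h2⟩
        obtain ⟨t, rfl⟩ := mem_span_singleton.1 h2
        by_cases ht : t = 0
        · rw [ht, zero_smul]; exact zero_mem _
        · exfalso
          apply hz
          have h3 := smul_mem (span ℚ ({x, y} : Set V)) t⁻¹ h1
          rwa [smul_smul, inv_mul_cancel₀ ht, one_smul] at h3
      have := (hc {x, y} {z} (by ext w; simp; tauto) (by
        rw [Set.disjoint_singleton_right]
        simp [hxz.symm, hyz.symm])).1 (by rw [h0]; exact finrank_bot ℚ V)
      rcases this with h1 | h1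
      · exact absurd h1 (Set.insert_nonempty _ _).ne_empty
      · exact absurd h1 (Set.singleton_nonempty _).ne_empty

/-- The induction. -/
theorem uni_dec_of
    (H : ∀ X : Set V, Nice X → Conn3 X → 4 ≤ X.ncard → Dec V X ∨ ∃ A B : Set V, A ∪ B = X ∧
      Disjoint A B ∧ 6 ≤ A.ncard ∧ 6 ≤ B.ncard ∧
      finrank ℚ (span ℚ A ⊓ span ℚ B : Submodule ℚ V) ≤ 2) (n : ℕ) :
    ∀ X : Set V, X.Finite → Uni X → X.ncard ≤ n → Dec V X := by
  induction n using Nat.strong_induction_on with
  | _ n ih =>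
    intro X hfin hU hn
    obtain ⟨X', h1, h2, h3, h4⟩ := exists_clean hfin
    refine dec_sub ?_ h4
    have hN : Nice X' := ⟨hfin.subset h1, uni_mono hU (fun x hx => Or.inr (Or.inl (h1 hx))), h2, h3⟩
    have hn' : X'.ncard ≤ n := (Set.ncard_le_ncard h1 hfin).trans hn
    have hsubf : ∀ A B : Set V, A ∪ B = X' → A.Finite ∧ B.Finite := by
      intro A B hAB
      exact ⟨hN.fin.subset (by rw [← hAB]; exact Set.subset_union_left),
        hN.fin.subset (by rw [← hAB]; exact Set.subset_union_right)⟩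
    have hsubu : ∀ A B : Set V, A ∪ B = X' → Uni A ∧ Uni B := by
      intro A B hAB
      exact ⟨uni_mono hN.uni (fun x hx => Or.inr (Or.inl (by rw [← hAB]; exact Or.inl hx))),
        uni_mono hN.uni (fun x hx => Or.inr (Or.inl (by rw [← hAB]; exact Or.inr hx)))⟩
    have hcard : ∀ A B : Set V, A ∪ B = X' → Disjoint A B → A.ncard + B.ncard = X'.ncard := by
      intro A B hAB hd
      rw [← hAB, Set.ncard_union_eq hd (hsubf A B hAB).1 (hsubf A B hAB).2]
    by_cases c1 : ∃ A B : Set V, A ∪ B = X' ∧ Disjoint A B ∧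
        finrank ℚ (span ℚ A ⊓ span ℚ B : Submodule ℚ V) = 0 ∧ A.Nonempty ∧ B.Nonempty
    · obtain ⟨A, B, hAB, hd, hf, hA, hB⟩ := c1
      have f1 := hsubf A B hAB
      have u1 := hsubu A B hAB
      have k1 := hcard A B hAB hd
      have p1 := (Set.ncard_pos f1.1).2 hA
      have p2 := (Set.ncard_pos f1.2).2 hB
      have hfd : FiniteDimensional ℚ (span ℚ A ⊓ span ℚ B : Submodule ℚ V) := by
        have : FiniteDimensional ℚ (span ℚ A) := FiniteDimensional.span_of_finite ℚ f1.1
        exact Submodule.finiteDimensional_inf_left _ _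
      rw [← hAB]
      exact dec_sum0 (Submodule.finrank_eq_zero.1 hf)
        (ih A.ncard (by omega) A f1.1 u1.1 le_rfl) (ih B.ncard (by omega) B f1.2 u1.2 le_rfl)
    by_cases c2 : ∃ A B : Set V, A ∪ B = X' ∧ Disjoint A B ∧
        finrank ℚ (span ℚ A ⊓ span ℚ B : Submodule ℚ V) = 1 ∧ 2 ≤ A.ncard ∧ 2 ≤ B.ncard
    · obtain ⟨A, B, hAB, hd, hf, hA, hB⟩ := c2
      have f1 := hsubf A B hAB
      have k1 := hcard A B hAB hd
      obtain ⟨p, hp0, hp, uA, uB⟩ := two_sum f1.1 f1.2 (by rw [hAB]; exact hN.uni) hf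
      have l1 : (A ∪ {p}).ncard ≤ A.ncard + 1 := by
        have := Set.ncard_union_le A {p}
        rwa [Set.ncard_singleton] at this
      have l2 : (B ∪ {p}).ncard ≤ B.ncard + 1 := by
        have := Set.ncard_union_le B {p}
        rwa [Set.ncard_singleton] at this
      rw [← hAB]
      exact dec_sum1 hp
        (ih (A ∪ {p}).ncard (by omega) _ (f1.1.union (Set.finite_singleton p)) uA le_rfl)
        (ih (B ∪ {p}).ncard (by omega) _ (f1.2.union (Set.finite_singleton p)) uB le_rfl)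
    have hc : Conn3 X' := by
      intro A B hAB hd
      constructor
      · intro hf
        by_contra hcon
        push Not at hcon
        exact c1 ⟨A, B, hAB, hd, hf, hcon.1, hcon.2⟩
      · intro hf
        by_contra hcon
        push Not at hcon
        exact c2 ⟨A, B, hAB, hd, hf, hcon.1, hcon.2⟩
    rcases le_or_gt 4 X'.ncard with hlt | hlt
    swap
    · exact dec_small hN hc (by omega)
    rcases H X' hN hc hlt with hD | ⟨A, B, hAB, hd, hA6, hB6, hf⟩
    · exact hD
    have f1 := hsubf A B hAB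
    have k1 := hcard A B hAB hd
    have hf' : finrank ℚ (span ℚ A ⊓ span ℚ B : Submodule ℚ V) = 2 := by
      have e0 := (hc A B hAB hd).1
      have e1 := (hc A B hAB hd).2
      have n0 : finrank ℚ (span ℚ A ⊓ span ℚ B : Submodule ℚ V) ≠ 0 := by
        intro h0
        rcases e0 h0 with h | h
        · rw [h, Set.ncard_empty] at hA6; omega
        · rw [h, Set.ncard_empty] at hB6; omega
      have n1 : finrank ℚ (span ℚ A ⊓ span ℚ B : Submodule ℚ V) ≠ 1 := by
        intro h0
        rcases e1 h0 with h | h <;> omega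
      omega
    have uX : Uni (A ∪ B) := by rw [hAB]; exact hN.uni
    have cX : Conn3 (A ∪ B) := by rw [hAB]; exact hc
    have gA : Good (span ℚ A ⊓ span ℚ B) A := by
      rw [inf_comm]
      exact good_of_conn f1.1 f1.2 uX hd cX (by omega) (by omega) (by rw [inf_comm]; exact hf')
    have gB : Good (span ℚ A ⊓ span ℚ B) B :=
      good_of_conn f1.2 f1.1 (by rw [Set.union_comm]; exact uX) hd.symm
        (by rw [Set.union_comm]; exact cX) (by omega) (by omega) hf'
    obtain ⟨p, q, li, hpq, uA, uB⟩ := three_sum uX hf' gA gB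
    have hfin3 : ({p, q, p + q} : Set V).Finite := Set.toFinite _
    have h3c : ({p, q, p + q} : Set V).ncard ≤ 3 := by
      have e1 := Set.ncard_insert_le p ({q, p + q} : Set V)
      have e2 := Set.ncard_insert_le q ({p + q} : Set V)
      rw [Set.ncard_singleton] at e2
      omega
    have l1 : (A ∪ {p, q, p + q}).ncard ≤ A.ncard + 3 :=
      (Set.ncard_union_le _ _).trans (by omega)
    have l2 : (B ∪ {p, q, p + q}).ncard ≤ B.ncard + 3 :=
      (Set.ncard_union_le _ _).trans (by omega)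
    rw [← hAB]
    exact dec_sum2 li hpq
      (ih _ (by omega) _ (f1.1.union hfin3) uA le_rfl)
      (ih _ (by omega) _ (f1.2.union hfin3) uB le_rfl)

end RC.Gut

end
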