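import Pool.Agent.Helper29.MFA.T15
import Pool.Agent.Helper29.MFA.T20
import Pool.Agent.Helper29.MFA.T21
import Pool.Agent.Helper29.MFA.T19
import Pool.Agent.Helper29.MFA.T22
import Pool.Agent.Helper29.MFA.T23
import Pool.Agent.Helper29.MFA.T24
import Pool.Agent.Helper29.MFA.T10
import Pool.Agent.Helper29.MFA.T50
import Pool.Agent.Helper29.MFA.T52

section

/-!
LV-5 (project SEY, block LEVEL): `K33s` is not graphic and `K33` is not cographic.

* `Graphic_ofRows`: let `M` be graphic (vertex set `V`, ends `h`, `t`) and let `phi, C` be as in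
  `HasMinor rows M`.  Use `Graphic_con` (Frame.lean) to replace `M` by `M.con C` (so `C` is empty), and
  `Graphic_del` if convenient.  Then the matroid `ofRows rows` on `Fin k` is graphic with the same `V` and
  the ends `h o phi`, `t o phi`: a row of `ofRows rows` is a sum of rows `rows i`, each equal to
  `f o phi` for some `f in M.R`, so it is `cob M.S h t pi o phi = cob univ (h o phi) (t o phi) pi`;
  conversely `cob M.S h t pi` is in `M.R`, so its composition with `phi` is a sum of the `rows i`.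
* `K33s_ng0`: let `V, h, t` represent `ofRows K33s`.  All nonzero elements of the row space of `K33s`
  (16 elements) have weight at least 4 (decide).  For `v in V` let `D v = cob univ h t (Pi.single v 1)`, a
  row, `N = {v : D v <> 0}`.  `D v j <> 0` implies `h j = v` or `t j = v`, so every `j` is in the support
  of at most two `D v`: `4 |N| <= sum_v |supp (D v)| <= 2 * 9`, so `|N| <= 4`.  Every row is
  `cob pi = sum_v pi v • D v = sum over v in N`, and `sum over N of D v = cob 1 = 0`.  So the row space is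
  spanned by the `D v` with `v in N` without one of them (if `N` is nonempty): at most `2 ^ 3 = 8`
  elements.  But it has `16` elements (or: finrank 4, the rows are independent).  Contradiction.
* `K33s_ng`: `Graphic_ofRows` and `K33s_ng0`.
* `K33_ncg`: `HasMinor K33 M` implies `HasMinor K33s M.dual` (`HasMinor.dual` of helper71's API,
  Pool/Agent/Helper71/SEYApi.lean; if its name is different, look there).
-/

set_option autoImplicit false

namespace SEY

open Finset

variable {E : Type} [Fintype E] [DecidableEq E]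

theorem Graphic_ofRows {r k : ℕ} {rows : Fin r → Fin k → ZMod 2} {M : BM E} (hG : Graphic M)
    (h : HasMinor rows M) : Graphic (ofRows rows) := by
  obtain ⟨φ, C, hφ, hφS, hC, hφC, h1, h2⟩ := h
  obtain ⟨V, hV, hd, tl, hR⟩ := Graphic_con hG C
  have hmem : ∀ j, φ j ∈ (M.con C).S := fun j => Finset.mem_sdiff.2 ⟨hφS j, hφC j⟩
  refine ⟨V, hV, fun j => hd (φ j), fun j => tl (φ j), ?_⟩
  intro f
  constructor
  · intro hf
    have hf' : f ∈ Submodule.span (ZMod 2) (Set.range rows) := hf
    rw [Submodule.mem_span_range_iff_exists_fun] at hf'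
    obtain ⟨c, rfl⟩ := hf'
    choose g hg1 hg2 hg3 using h1
    have hgR : ∑ i, c i • g i ∈ (M.con C).R := by
      refine Submodule.sum_mem _ fun i _ => Submodule.smul_mem _ _ ?_
      exact ⟨hg1 i, hg2 i⟩
    obtain ⟨π, hπ⟩ := (hR _).1 hgR
    refine ⟨π, ?_⟩
    funext j
    have h3 := congrFun hπ (φ j)
    simp only [cob, if_pos (hmem j), Finset.sum_apply, Pi.smul_apply, smul_eq_mul] at h3
    have h4 : j ∈ (ofRows rows).S := Finset.mem_univ j
    simp only [cob, if_pos h4, Finset.sum_apply, Pi.smul_apply, smul_eq_mul]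
    rw [← h3]
    exact Finset.sum_congr rfl fun i _ => by rw [hg3 i j]
  · rintro ⟨π, rfl⟩
    have hgR : cob (M.con C).S hd tl π ∈ (M.con C).R := (hR _).2 ⟨π, rfl⟩
    obtain ⟨c, hc⟩ := h2 _ hgR.1 hgR.2
    have h5 : cob (ofRows rows).S (fun j => hd (φ j)) (fun j => tl (φ j)) π =
        ∑ i, c i • rows i := by
      funext j
      have h3 := hc j
      simp only [cob, if_pos (hmem j)] at h3
      have h4 : j ∈ (ofRows rows).S := Finset.mem_univ j
      simp only [cob, if_pos h4, Finset.sum_apply, Pi.smul_apply, smul_eq_mul]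
      exact h3
    rw [h5]
    refine Submodule.sum_mem _ fun i _ => Submodule.smul_mem _ _ ?_
    exact Submodule.subset_span ⟨i, rfl⟩

private lemma ng_weight : ∀ c : Fin 4 → ZMod 2, (∃ j, ∑ i, c i * K33s i j ≠ 0) →
    4 ≤ (Finset.univ.filter (fun j => ∑ i, c i * K33s i j ≠ 0)).card := by
  decide

private lemma ng_rank : Module.finrank (ZMod 2) (ofRows K33s).R = 4 := by
  have hli : LinearIndependent (ZMod 2) K33s := by
    rw [Fintype.linearIndependent_iff]
    intro g hg
    have h4 := congrFun hg 4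
    have h5 := congrFun hg 5
    have h7 := congrFun hg 7
    have h8 := congrFun hg 8
    simp [Fin.sum_univ_four, K33s] at h4 h5 h7 h8
    intro i
    fin_cases i
    · exact h4
    · exact h5
    · exact h7
    · exact h8
  have h1 := finrank_span_eq_card hli
  rw [Fintype.card_fin] at h1
  exact h1

theorem K33s_ng0 : ¬ Graphic (ofRows K33s) := by
  rintro ⟨V, hV, h, t, hR⟩
  classical
  let D : V → (Fin 9 → ZMod 2) := fun v => cob (ofRows K33s).S h t (Pi.single v 1)
  have hS : ∀ j, j ∈ (ofRows K33s).S := fun j => Finset.mem_univ j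
  have hD : ∀ v j, D v j = (if h j = v then 1 else 0) + (if t j = v then 1 else 0) := by
    intro v j
    simp only [D, cob, if_pos (hS j), Pi.single_apply]
  have hDR : ∀ v, D v ∈ (ofRows K33s).R := fun v => (hR _).2 ⟨_, rfl⟩
  have hcob : ∀ π : V → ZMod 2, cob (ofRows K33s).S h t π = ∑ v, π v • D v := by
    intro π
    funext j
    simp only [cob, if_pos (hS j), Finset.sum_apply, Pi.smul_apply, smul_eq_mul, hD, mul_add,
      Finset.sum_add_distrib]
    simp
  let N : Finset V := Finset.univ.filter (fun v => D v ≠ 0)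
  have hw : ∀ v ∈ N, 4 ≤ (Finset.univ.filter (fun j => D v j ≠ 0)).card := by
    intro v hv
    have hne : D v ≠ 0 := (Finset.mem_filter.1 hv).2
    have h1 : D v ∈ Submodule.span (ZMod 2) (Set.range K33s) := hDR v
    rw [Submodule.mem_span_range_iff_exists_fun] at h1
    obtain ⟨c, hc⟩ := h1
    have h2 : ∀ j, D v j = ∑ i, c i * K33s i j := by
      intro j
      rw [← hc]
      simp only [Finset.sum_apply, Pi.smul_apply, smul_eq_mul]
    have h3 := ng_weight c (by
      by_contra hcon
      push Not at hcon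
      exact hne (by funext j; rw [h2 j, hcon j]; rfl))
    simpa only [h2] using h3
  have hN : N.card ≤ 4 := by
    have h1 := Finset.sum_card_bipartiteAbove_eq_sum_card_bipartiteBelow
      (s := N) (t := (Finset.univ : Finset (Fin 9))) (fun v j => D v j ≠ 0)
    have h2 : 4 * N.card ≤ ∑ v ∈ N, (Finset.bipartiteAbove (fun v j => D v j ≠ 0)
        (Finset.univ : Finset (Fin 9)) v).card := by
      rw [mul_comm, ← smul_eq_mul]
      exact Finset.card_nsmul_le_sum _ _ _ (fun v hv => hw v hv)
    have h3 : ∑ j ∈ (Finset.univ : Finset (Fin 9)),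
        (Finset.bipartiteBelow (fun v j => D v j ≠ 0) N j).card ≤ 9 * 2 := by
      have h4 : ∀ j ∈ (Finset.univ : Finset (Fin 9)),
          (Finset.bipartiteBelow (fun v j => D v j ≠ 0) N j).card ≤ 2 := by
        intro j _
        have h5 : Finset.bipartiteBelow (fun v j => D v j ≠ 0) N j ⊆ {h j, t j} := by
          intro v hv
          rw [Finset.mem_bipartiteBelow] at hv
          by_contra hcon
          rw [Finset.mem_insert, Finset.mem_singleton, not_or] at hcon
          apply hv.2
          rw [hD, if_neg (fun h => hcon.1 h.symm), if_neg (fun h => hcon.2 h.symm), add_zero]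
        exact (Finset.card_le_card h5).trans (Finset.card_le_two)
      have h6 := Finset.sum_le_card_nsmul _ _ _ h4
      simpa using h6
    omega
  have hfin : ∀ T : Finset V, (∀ f ∈ (ofRows K33s).R,
      f ∈ Submodule.span (ZMod 2) ((T.image D : Finset (Fin 9 → ZMod 2)) :
        Set (Fin 9 → ZMod 2))) → 4 ≤ T.card := by
    intro T hT
    have h1 : (ofRows K33s).R ≤ Submodule.span (ZMod 2)
      ((T.image D : Finset (Fin 9 → ZMod 2)) : Set (Fin 9 → ZMod 2)) := fun f hf => hT f hf
    have h2 := Submodule.finrank_mono h1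
    rw [ng_rank] at h2
    have h3 := finrank_span_finset_le_card (R := ZMod 2) (T.image D)
    have h4 := Finset.card_image_le (s := T) (f := D)
    have h5 : Module.finrank (ZMod 2) (Submodule.span (ZMod 2)
      ((T.image D : Finset (Fin 9 → ZMod 2)) : Set (Fin 9 → ZMod 2))) ≤ (T.image D).card := h3
    omega
  rcases N.eq_empty_or_nonempty with hN0 | ⟨v0, hv0⟩
  · have h1 := hfin ∅ (by
      intro f hf
      obtain ⟨π, rfl⟩ := (hR f).1 hf
      rw [hcob]
      refine Submodule.sum_mem _ fun v _ => ?_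
      have h2 : D v = 0 := by
        by_contra hcon
        have : v ∈ N := Finset.mem_filter.2 ⟨Finset.mem_univ _, hcon⟩
        rw [hN0] at this
        exact absurd this (Finset.notMem_empty _)
      rw [h2, smul_zero]
      exact Submodule.zero_mem _)
    simp at h1
  · have h1 := hfin (N.erase v0) (by
      intro f hf
      obtain ⟨π, rfl⟩ := (hR f).1 hf
      have h2 : cob (ofRows K33s).S h t π = cob (ofRows K33s).S h t (fun v => π v - π v0) := by
        funext j
        simp only [cob, if_pos (hS j)]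
        have h3 : π v0 + π v0 = 0 := z_add_self _
        linear_combination h3
      rw [h2, hcob]
      refine Submodule.sum_mem _ fun v _ => ?_
      by_cases hv : v = v0
      · rw [hv, sub_self, zero_smul]
        exact Submodule.zero_mem _
      by_cases hv2 : v ∈ N
      · refine Submodule.smul_mem _ _ (Submodule.subset_span ?_)
        rw [Finset.coe_image]
        exact ⟨v, Finset.mem_coe.2 (Finset.mem_erase.2 ⟨hv, hv2⟩), rfl⟩
      · have h4 : D v = 0 := by
          by_contra hcon
          exact hv2 (Finset.mem_filter.2 ⟨Finset.mem_univ _, hcon⟩)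
        rw [h4, smul_zero]
        exact Submodule.zero_mem _)
    rw [Finset.card_erase_of_mem hv0] at h1
    omega

theorem K33s_ng {M : BM E} (h : HasMinor K33s M) : ¬ Graphic M :=
  fun hG => K33s_ng0 (Graphic_ofRows hG h)

/-- Duality for minors. -/
theorem ng_dual {r k r' : ℕ} {rows : Fin r → Fin k → ZMod 2} {rows' : Fin r' → Fin k → ZMod 2}
    (ho : ∀ i i', ∑ j, rows i j * rows' i' j = 0)
    (hc : ∀ w : Fin k → ZMod 2, (∀ i, ∑ j, rows i j * w j = 0) →
      ∃ c : Fin r' → ZMod 2, ∀ j, w j = ∑ i, c i * rows' i j)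
    {M : BM E} (h : HasMinor rows M) : HasMinor rows' M.dual := by
  classical
  obtain ⟨φ, C, hφ, hφS, hC, hφC, h1, h2⟩ := h
  have hsum : ∀ (f z : E → ZMod 2), (∀ e ∈ C, f e = 0) →
      (∀ e, e ∉ C → (∀ j, φ j ≠ e) → z e = 0) → dot f z = ∑ j, f (φ j) * z (φ j) := by
    intro f z hf hz
    unfold dot
    rw [← Finset.sum_image (s := Finset.univ) (g := φ) (f := fun e => f e * z e)
      (fun a _ b _ hab => hφ hab)]
    symm
    apply Finset.sum_subset (Finset.subset_univ _)
    intro e _ he
    by_cases heC : e ∈ C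
    · rw [hf e heC, zero_mul]
    · rw [hz e heC (fun j hj => he (Finset.mem_image.2 ⟨j, Finset.mem_univ _, hj⟩)), mul_zero]
  refine ⟨φ, M.S \ (C ∪ Finset.univ.image φ), hφ, hφS, Finset.sdiff_subset, ?_, ?_, ?_⟩
  · intro i hi
    rw [Finset.mem_sdiff, Finset.mem_union, not_or] at hi
    exact hi.2.2 (Finset.mem_image.2 ⟨i, Finset.mem_univ _, rfl⟩)
  · intro i
    let w : E → ZMod 2 := fun e => ∑ j, if φ j = e then rows' i j else 0
    have hwφ : ∀ j, w (φ j) = rows' i j := by
      intro j
      simp only [w]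
      rw [Finset.sum_eq_single j]
      · rw [if_pos rfl]
      · intro b _ hb
        rw [if_neg (fun hh => hb (hφ hh))]
      · intro hh
        exact absurd (Finset.mem_univ j) hh
    have hw0 : ∀ e, (∀ j, φ j ≠ e) → w e = 0 := by
      intro e he
      simp only [w]
      refine Finset.sum_eq_zero fun j _ => ?_
      rw [if_neg (he j)]
    have hwZ : w ∈ (M.con C).Z := by
      refine ⟨?_, ?_⟩
      · intro e he
        apply hw0
        intro j hj
        apply he
        rw [← hj]
        exact Finset.mem_sdiff.2 ⟨hφS j, hφC j⟩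
      · intro f hf
        rw [hsum f w hf.2 (fun e _ he => hw0 e he)]
        obtain ⟨c, hc'⟩ := h2 f hf.1 hf.2
        have h3 : ∑ j, f (φ j) * w (φ j) = ∑ i', c i' * ∑ j, rows i' j * rows' i j := by
          simp only [hc', hwφ, Finset.mul_sum, Finset.sum_mul]
          rw [Finset.sum_comm]
          refine Finset.sum_congr rfl fun a _ => Finset.sum_congr rfl fun b _ => ?_
          ring
        rw [h3]
        refine Finset.sum_eq_zero fun i' _ => ?_
        rw [ho, mul_zero]
    obtain ⟨w', hw'Z, hw'⟩ := (M.mem_Z_con).1 hwZ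
    have hval : ∀ e ∈ M.S \ C, w' e = w e := by
      intro e he
      rw [← hw', mask_apply, if_pos he]
    refine ⟨w', hw'Z, ?_, ?_⟩
    · intro e he
      rw [Finset.mem_sdiff, Finset.mem_union, not_or] at he
      rw [hval e (Finset.mem_sdiff.2 ⟨he.1, he.2.1⟩)]
      exact hw0 e (fun j hj => he.2.2 (Finset.mem_image.2 ⟨j, Finset.mem_univ _, hj⟩))
    · intro j
      rw [hval _ (Finset.mem_sdiff.2 ⟨hφS j, hφC j⟩), hwφ]
  · intro z hz hz0
    refine hc (fun j => z (φ j)) ?_
    intro i
    obtain ⟨f, hf, hf0, hfr⟩ := h1 i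
    have h3 : dot f z = 0 := hz.2 f hf
    rw [hsum f z hf0 ?_] at h3
    · simpa only [hfr] using h3
    · intro e heC he
      by_cases heS : e ∈ M.S
      · apply hz0
        rw [Finset.mem_sdiff, Finset.mem_union, not_or]
        refine ⟨heS, heC, ?_⟩
        intro hh
        obtain ⟨j, _, hj⟩ := Finset.mem_image.1 hh
        exact he j hj
      · exact hz.1 e heS

private lemma ng_orth : ∀ i i', ∑ j, K33 i j * K33s i' j = 0 := by
  decide

private lemma ng_compl (w : Fin 9 → ZMod 2) (hw : ∀ i, ∑ j, K33 i j * w j = 0) :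
    ∃ c : Fin 4 → ZMod 2, ∀ j, w j = ∑ i, c i * K33s i j := by
  refine ⟨![w 4, w 5, w 7, w 8], ?_⟩
  have h0 := hw 0
  have h1 := hw 1
  have h2 := hw 2
  have h3 := hw 3
  have h4 := hw 4
  have h5 := hw 5
  simp [K33, grRows, K33e, Fin.sum_univ_succ] at h0 h1 h2 h3 h4 h5
  intro j
  fin_cases j <;> simp [K33s, Fin.sum_univ_four]
  · rw [z_add_eq_zero.1 h3, z_add_eq_zero.1 h1, z_add_eq_zero.1 h2]
    ring
  · exact z_add_eq_zero.1 h4
  · exact z_add_eq_zero.1 h5
  · exact z_add_eq_zero.1 h1
  · exact z_add_eq_zero.1 h2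

theorem K33_ncg {M : BM E} (h : HasMinor K33 M) : ¬ Graphic M.dual :=
  K33s_ng (ng_dual ng_orth ng_compl h)

end SEY

end

section

/-!
LV-10 (project SEY, block LEVEL): disjoint `W`-structures of `M` and of `M.dual` give an `R12` minor.

`W = {a i, b i}`, `W' = {y i, z i}` disjoint; `A = {a i}`, `B = {b i}` cycles, `q_ij = {a i, b i, a j, b j}` rows;
`Y = {y i}`, `Z' = {z i}` rows, `{y i, z i, y j, z j}` cycles (from `hW'` and `BM.dual_dual`).
`|S| >= 12`.  `lam W = 2` (`WStr_lam`), `lam W' = 2` (`WStr_lam` for `M.dual`, `lam` is self-dual).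
1. For `W <= A' <= S - W'` we have `|A'| >= 6`, `|S - A'| >= 6`, so `lam A' >= 2` (`TC_two_le`).
   `linking` (Link.lean) with `X = W`, `Y = W'`, `k = 2`: disjoint `C, D`, `S = W u W' u C u D`,
   `M' = (M.con C).del D`, `lam_{M'} W >= 2`.  `lam_{M'} W' = lam_{M'} W` (`M'.S = W u W'`, symmetry).
   `preserve` for `W` and for `W'`: (a) each `f in R` has `f' in R`, `f' = 0` on `C`, `f' = f` on `W`;
   same for `W'`; (b) a vector supported in `W` which is a row of `M'` is in `R`; same for `W'`.
   `K = {f in R : f = 0 on C}`; rows of `M'` = the restrictions to `W u W'` of the elements of `K`.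
2. Put for `f in K`: `p_i f = f (a i) + f (b i)`, `s_0 f = f (y 1) + f (y 2)`, `s_1 f = f (y 0) + f (y 2)`,
   `s_2 f = f (y 0) + f (y 1)`.  By the cycles: `p_0 + p_1 + p_2 = 0`, `f (y i) + f (z i)` does not depend
   on `i`, so also `s_0 f = f (z 1) + f (z 2)` etc.
   Claim: if `f in K` and `s_j f = 0` for all `j` then `p_i f = 0` for all `i`.  `f` is constant (`= s`) on the
   `y`'s and constant (`= t`) on the `z`'s, so `f + s Y + t Z'` (in `K`: `Y`, `Z'` are supported in `W'`)
   vanishes on `W'`; its restriction to `W` is a row of `M'` supported in `W`, so by (b) it is an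
   element `g` of `R` supported in `W`, `WStr_rows` gives `g (a i) = g (b i)`, so
   `p_i f = p_i (f + s Y + t Z') = p_i g = 0`.
   The possible values of `(s_0, s_1, s_2)` on `K` are among `000, 011, 101, 110`.  As in `guts`:
   `p_i` is a function of `(s_0, s_1, s_2)` by the claim (additive); `p_i <> 0` on `K` (by (a) and
   `TC_row_sep` for `a i, b i`).  All three nonzero patterns of `s` occur on `K`: by (a) for `W'` it
   is enough that they occur on `R`; `s_j <> 0` on `R` for each `j` (`TC_row_sep` for two `y`'s), and if only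
   one nonzero pattern occurred, one of the `s_j` would vanish on `R`; two nonzero patterns give the
   third by addition.  So there is a bijection `sigma : Fin 3 -> Fin 3` with `p_i = s_(sigma i)` on `K`
   (as in the proof of `guts`, which may be applied directly: `W` there is `W`, the `d`'s there are
   not available here, so repeat the short argument).
   Re-index `a, b` by `sigma`: we may assume `p_i = s_i` on `K` (put `a' j = a (tau j)`,
   `b' j = b (tau j)`, `tau = sigma^-1`; `WStr M a' b'` holds).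
3. HasMinor R12 M with `C` and `phi = ![a 0, a 1, a 2, b 0, b 1, b 2, y 0, y 1, y 2, z 0, z 1, z 2]`
   (after re-indexing).  The row space of `R12` is the set of all `x : Fin 12 -> ZMod 2` with
   `x0+x1+x2 = 0`, `x3+x4+x5 = 0`, `x0+x3 = x7+x8`, `x1+x4 = x6+x8`, `x2+x5 = x6+x7`,
   `x6+x9 = x7+x10 = x8+x11`; the coefficients of the six rows of `R12` are
   `c = ![x 0, x 1, x 0 + x 3, x 1 + x 4, x 6, x 9]` (checked).
   Second condition: `f in K` satisfies the relations.  First condition: each row of `R12` satisfies the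
   relations; given such an `x` find `f in K` with `f o phi = x`: by 2 there is `f in K` with
   `s_j f = ` the value prescribed by `x`; then `p_i f` is right too; adding `Y`, `Z'` (they do not
   change `s`, `p`) we get `f (y 0) = x 6`, `f (z 0) = x 9`, hence `f = x` on `W'` (cycles); adding
   `q_01`, `q_02` we get `f (b 1) = x 4`, `f (b 2) = x 5`, hence `f (b 0) = x 3` (cycle `B`),
   `f (a i) = p_i f + f (b i)` is right.
-/

set_option autoImplicit false

namespace SEY

open Finset

variable {E : Type} [Fintype E] [DecidableEq E]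

/-- the combinatorial core: three functionals `p` factoring through three functionals `s` -/
lemma ww_core {V : Type} [AddCommGroup V] [Module (ZMod 2) V] (K : Submodule (ZMod 2) V)
    (p s : Fin 3 → V →ₗ[ZMod 2] ZMod 2)
    (hs : ∀ f ∈ K, s 0 f + s 1 f + s 2 f = 0) (hp : ∀ f ∈ K, p 0 f + p 1 f + p 2 f = 0)
    (hker : ∀ f ∈ K, (∀ j, s j f = 0) → ∀ i, p i f = 0)
    (hpn : ∀ i, ∃ f ∈ K, p i f ≠ 0) (hsn : ∀ j, ∃ f ∈ K, s j f ≠ 0) :
    (∃ σ : Fin 3 → Fin 3, Function.Injective σ ∧ ∀ f ∈ K, ∀ i, p i f = s (σ i) f) ∧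
      ∀ t : Fin 3 → ZMod 2, t 0 + t 1 + t 2 = 0 → ∃ f ∈ K, ∀ j, s j f = t j := by
  have hall : ∀ t : Fin 3 → ZMod 2, t 0 + t 1 + t 2 = 0 → ∃ f ∈ K, ∀ j, s j f = t j := by
    intro t ht
    obtain ⟨f0, hf0, h0⟩ := hsn 0
    obtain ⟨f1, hf1, h1⟩ := hsn 1
    obtain ⟨f2, hf2, h2⟩ := hsn 2
    have e0 := hs f0 hf0
    have e1 := hs f1 hf1
    have e2 := hs f2 hf2
    have key : ∀ a0 b0 c0 a1 b1 c1 a2 b2 c2 x y w : ZMod 2, a0 ≠ 0 → b1 ≠ 0 → c2 ≠ 0 →
        a0 + b0 + c0 = 0 → a1 + b1 + c1 = 0 → a2 + b2 + c2 = 0 → x + y + w = 0 →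
        ∃ u0 u1 u2 : ZMod 2, u0 * a0 + u1 * a1 + u2 * a2 = x ∧
          u0 * b0 + u1 * b1 + u2 * b2 = y ∧ u0 * c0 + u1 * c1 + u2 * c2 = w := by
      have key' : ∀ b0 a1 a2 x y : ZMod 2, ∃ u0 u1 u2 : ZMod 2,
          u0 * 1 + u1 * a1 + u2 * a2 = x ∧ u0 * b0 + u1 * 1 + u2 * (a2 + 1) = y := by
        decide
      intro a0 b0 c0 a1 b1 c1 a2 b2 c2 x y w g1 g2 g3 g4 g5 g6 g7
      have g1' : a0 = 1 := z_ne_zero.1 g1
      have g2' : b1 = 1 := z_ne_zero.1 g2
      have g3' : c2 = 1 := z_ne_zero.1 g3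
      subst g1' g2' g3'
      obtain ⟨u0, u1, u2, k1, k2⟩ := key' b0 a1 a2 x y
      refine ⟨u0, u1, u2, k1, ?_, ?_⟩ <;> grind
    obtain ⟨u0, u1, u2, k0, k1, k2⟩ := key _ _ _ _ _ _ _ _ _ _ _ _ h0 h1 h2 e0 e1 e2 ht
    refine ⟨u0 • f0 + u1 • f1 + u2 • f2, K.add_mem (K.add_mem (K.smul_mem _ hf0)
      (K.smul_mem _ hf1)) (K.smul_mem _ hf2), fun j => ?_⟩
    simp only [map_add, map_smul, smul_eq_mul]
    fin_cases j
    · exact k0
    · exact k1
    · exact k2
  refine ⟨?_, hall⟩
  obtain ⟨g0, hg0, k0⟩ := hall ![0, 1, 1] (by decide)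
  obtain ⟨g1, hg1, k1⟩ := hall ![1, 0, 1] (by decide)
  have hform : ∀ i, ∀ f ∈ K, p i f = s 1 f * p i g0 + s 0 f * p i g1 := by
    intro i f hf
    have h1 := hker (f + s 1 f • g0 + s 0 f • g1)
      (K.add_mem (K.add_mem hf (K.smul_mem _ hg0)) (K.smul_mem _ hg1)) (by
        intro j
        have h3 := hs f hf
        have a0 := k0 0
        have a1 := k0 1
        have a2 := k0 2
        have b0 := k1 0
        have b1 := k1 1
        have b2 := k1 2
        simp at a0 a1 a2 b0 b1 b2
        fin_cases j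
        · simp [a0, a1, a2, b0, b1, b2]; grind
        · simp [a0, a1, a2, b0, b1, b2]; grind
        · simp [a0, a1, a2, b0, b1, b2]; grind) i
    simp only [map_add, map_smul, smul_eq_mul] at h1
    grind
  have hex : ∀ i, ∃ j, ∀ f ∈ K, p i f = s j f := by
    intro i
    have h1 := hform i
    rcases zcases (p i g0) with h2 | h2 <;> rcases zcases (p i g1) with h3 | h3
    · exfalso
      obtain ⟨f, hf, h4⟩ := hpn i
      apply h4
      rw [h1 f hf, h2, h3]
      simp
    · refine ⟨0, fun f hf => ?_⟩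
      rw [h1 f hf, h2, h3]
      simp
    · refine ⟨1, fun f hf => ?_⟩
      rw [h1 f hf, h2, h3]
      simp
    · refine ⟨2, fun f hf => ?_⟩
      have := hs f hf
      rw [h1 f hf, h2, h3]
      grind
  choose σ hσ using hex
  refine ⟨σ, ?_, fun f hf i => hσ i f hf⟩
  have hne : ∀ i i' i'' : Fin 3, (∀ f ∈ K, p i f + p i' f + p i'' f = 0) → σ i ≠ σ i' := by
    intro i i' i'' h1 h2
    obtain ⟨f, hf, h4⟩ := hpn i''
    apply h4
    have h5 := h1 f hf
    rw [hσ i f hf, hσ i' f hf, h2] at h5
    grind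
  have n01 := hne 0 1 2 hp
  have n02 := hne 0 2 1 (fun f hf => by have := hp f hf; grind)
  have n12 := hne 1 2 0 (fun f hf => by have := hp f hf; grind)
  intro i j hij
  fin_cases i <;> fin_cases j <;> first
    | rfl
    | exact absurd hij n01
    | exact absurd hij n02
    | exact absurd hij n12
    | exact absurd hij.symm n01
    | exact absurd hij.symm n02
    | exact absurd hij.symm n12

omit [Fintype E] in
lemma wstr_perm {M : BM E} {a b : Fin 3 → E} (h : WStr M a b) (τ : Equiv.Perm (Fin 3)) :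
    WStr M (fun i => a (τ i)) (fun i => b (τ i)) := by
  obtain ⟨h1, h2, h3, h4, h5, h6, h7, h8⟩ := h
  refine ⟨fun i => h1 _, fun i => h2 _, h3.comp τ.injective, h4.comp τ.injective,
    fun i j => h5 _ _, fun f hf => ?_, fun f hf => ?_,
    fun i j hij => h8 _ _ (fun h => hij (τ.injective h))⟩
  · have := h6 f hf
    rw [← Fin.sum_univ_three (fun i => f (a i))] at this
    rw [← Fin.sum_univ_three (fun i => f (a (τ i))), ← this]
    exact Equiv.sum_comp τ (fun i => f (a i))
  · have := h7 f hf
    rw [← Fin.sum_univ_three (fun i => f (b i))] at this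
    rw [← Fin.sum_univ_three (fun i => f (b (τ i))), ← this]
    exact Equiv.sum_comp τ (fun i => f (b i))

/-- the relations satisfied by a row of `R12` -/
def R12rel (x : Fin 12 → ZMod 2) : Prop :=
  x 0 + x 1 + x 2 = 0 ∧ x 3 + x 4 + x 5 = 0 ∧ x 0 + x 3 = x 7 + x 8 ∧ x 1 + x 4 = x 6 + x 8 ∧
    x 2 + x 5 = x 6 + x 7 ∧ x 6 + x 9 = x 7 + x 10 ∧ x 6 + x 9 = x 8 + x 11

lemma R12_rel (i : Fin 6) : R12rel (R12 i) := by
  unfold R12rel
  revert i
  decide

lemma R12_coeff (x : Fin 12 → ZMod 2) (hx : R12rel x) :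
    ∀ j, x j = ∑ i, (![x 0, x 1, x 0 + x 3, x 1 + x 4, x 6, x 9] : Fin 6 → ZMod 2) i * R12 i j := by
  obtain ⟨h1, h2, h3, h4, h5, h6, h7⟩ := hx
  intro j
  fin_cases j <;> simp [Fin.sum_univ_succ, R12] <;> grind

/-- the last step, after re-indexing -/
lemma ww_final (M : BM E) (a b y z : Fin 3 → E) (hW : WStr M a b) (hW' : WStr M.dual y z)
    (hd : Disjoint (Wset a b) (Wset y z)) (C : Finset E) (hC : C ⊆ M.S)
    (hCW : Disjoint C (Wset a b ∪ Wset y z))
    (hp : ∀ f ∈ M.R, (∀ c ∈ C, f c = 0) → f (a 0) + f (b 0) = f (y 1) + f (y 2) ∧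
      f (a 1) + f (b 1) = f (y 0) + f (y 2) ∧ f (a 2) + f (b 2) = f (y 0) + f (y 1))
    (hs : ∀ t : Fin 3 → ZMod 2, t 0 + t 1 + t 2 = 0 → ∃ f ∈ M.R, (∀ c ∈ C, f c = 0) ∧
      f (y 1) + f (y 2) = t 0 ∧ f (y 0) + f (y 2) = t 1 ∧ f (y 0) + f (y 1) = t 2) :
    HasMinor R12 M := by
  classical
  obtain ⟨haS, hbS, hai, hbi, hab, hA, hB, hq⟩ := hW
  obtain ⟨hyS, hzS, hyi, hzi, hyz, hY, hZ, hc⟩ := hW'
  have hmW : ∀ i, a i ∈ Wset a b ∧ b i ∈ Wset a b := fun i => by simp [Wset]
  have hmW' : ∀ i, y i ∈ Wset y z ∧ z i ∈ Wset y z := fun i => by simp [Wset]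
  have hay : ∀ i j, a i ≠ y j := fun i j h =>
    Finset.disjoint_left.1 hd (hmW i).1 (h ▸ (hmW' j).1)
  have haz : ∀ i j, a i ≠ z j := fun i j h =>
    Finset.disjoint_left.1 hd (hmW i).1 (h ▸ (hmW' j).2)
  have hby : ∀ i j, b i ≠ y j := fun i j h =>
    Finset.disjoint_left.1 hd (hmW i).2 (h ▸ (hmW' j).1)
  have hbz : ∀ i j, b i ≠ z j := fun i j h =>
    Finset.disjoint_left.1 hd (hmW i).2 (h ▸ (hmW' j).2)
  have hCa : ∀ i, a i ∉ C := fun i h =>
    Finset.disjoint_left.1 hCW h (Finset.mem_union_left _ (hmW i).1)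
  have hCb : ∀ i, b i ∉ C := fun i h =>
    Finset.disjoint_left.1 hCW h (Finset.mem_union_left _ (hmW i).2)
  have hCy : ∀ i, y i ∉ C := fun i h =>
    Finset.disjoint_left.1 hCW h (Finset.mem_union_right _ (hmW' i).1)
  have hCz : ∀ i, z i ∉ C := fun i h =>
    Finset.disjoint_left.1 hCW h (Finset.mem_union_right _ (hmW' i).2)
  -- the rows `Y` and `Z`
  have hYR : ind {y 0, y 1, y 2} ∈ M.R := by
    rw [M.mem_R_iff]
    refine ⟨fun e he => ?_, fun w hw => ?_⟩
    · rw [ind_of_notMem]
      simp only [Finset.mem_insert, Finset.mem_singleton]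
      rintro (rfl | rfl | rfl)
      · exact he (hyS 0)
      · exact he (hyS 1)
      · exact he (hyS 2)
    · have h1 := hY w hw
      rw [ind_dot, Finset.sum_insert, Finset.sum_insert, Finset.sum_singleton]
      · rw [← h1]; ring
      · simp [hyi.eq_iff]
      · simp [hyi.eq_iff]
  have hZR : ind {z 0, z 1, z 2} ∈ M.R := by
    rw [M.mem_R_iff]
    refine ⟨fun e he => ?_, fun w hw => ?_⟩
    · rw [ind_of_notMem]
      simp only [Finset.mem_insert, Finset.mem_singleton]
      rintro (rfl | rfl | rfl)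
      · exact he (hzS 0)
      · exact he (hzS 1)
      · exact he (hzS 2)
    · have h1 := hZ w hw
      rw [ind_dot, Finset.sum_insert, Finset.sum_insert, Finset.sum_singleton]
      · rw [← h1]; ring
      · simp [hzi.eq_iff]
      · simp [hzi.eq_iff]
  have hcyc : ∀ f ∈ M.R, ∀ i j, i ≠ j → f (y i) + f (z i) = f (y j) + f (z j) := by
    intro f hf i j hij
    have h1 := M.dot_eq_zero hf (hc i j hij)
    rw [dot_ind, Finset.sum_insert, Finset.sum_insert, Finset.sum_insert,
      Finset.sum_singleton] at h1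
    · grind
    · simp only [Finset.mem_singleton]; exact hyz j j
    · simp only [Finset.mem_insert, Finset.mem_singleton, not_or]
      exact ⟨fun h => hyz j i h.symm, fun h => hij (hzi h)⟩
    · simp only [Finset.mem_insert, Finset.mem_singleton, not_or]
      exact ⟨hyz i i, fun h => hij (hyi h), hyz i j⟩
  set φ : Fin 12 → E := ![a 0, a 1, a 2, b 0, b 1, b 2, y 0, y 1, y 2, z 0, z 1, z 2] with hφ
  have hφcases : ∀ j, (∃ i, φ j = a i) ∨ (∃ i, φ j = b i) ∨ (∃ i, φ j = y i) ∨
      ∃ i, φ j = z i := by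
    intro j
    fin_cases j
    · exact Or.inl ⟨0, rfl⟩
    · exact Or.inl ⟨1, rfl⟩
    · exact Or.inl ⟨2, rfl⟩
    · exact Or.inr (Or.inl ⟨0, rfl⟩)
    · exact Or.inr (Or.inl ⟨1, rfl⟩)
    · exact Or.inr (Or.inl ⟨2, rfl⟩)
    · exact Or.inr (Or.inr (Or.inl ⟨0, rfl⟩))
    · exact Or.inr (Or.inr (Or.inl ⟨1, rfl⟩))
    · exact Or.inr (Or.inr (Or.inl ⟨2, rfl⟩))
    · exact Or.inr (Or.inr (Or.inr ⟨0, rfl⟩))
    · exact Or.inr (Or.inr (Or.inr ⟨1, rfl⟩))
    · exact Or.inr (Or.inr (Or.inr ⟨2, rfl⟩))
  have hba : ∀ i j, b i ≠ a j := fun i j h => hab j i h.symm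
  have hya : ∀ i j, y i ≠ a j := fun i j h => hay j i h.symm
  have hza : ∀ i j, z i ≠ a j := fun i j h => haz j i h.symm
  have hyb : ∀ i j, y i ≠ b j := fun i j h => hby j i h.symm
  have hzb : ∀ i j, z i ≠ b j := fun i j h => hbz j i h.symm
  have hzy : ∀ i j, z i ≠ y j := fun i j h => hyz j i h.symm
  have hφi : Function.Injective φ := by
    intro i j hij
    fin_cases i <;> fin_cases j <;>
      simp [hφ, hai.eq_iff, hbi.eq_iff, hyi.eq_iff, hzi.eq_iff, hab, hay, haz, hba, hby, hbz, hya,
        hyb, hyz, hza, hzb, hzy] at hij ⊢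
  refine ⟨φ, C, hφi, ?_, hC, ?_, ?_, ?_⟩
  · intro j
    rcases hφcases j with ⟨i, hi⟩ | ⟨i, hi⟩ | ⟨i, hi⟩ | ⟨i, hi⟩ <;> rw [hi]
    · exact haS i
    · exact hbS i
    · exact hyS i
    · exact hzS i
  · intro j
    rcases hφcases j with ⟨i, hi⟩ | ⟨i, hi⟩ | ⟨i, hi⟩ | ⟨i, hi⟩ <;> rw [hi]
    · exact hCa i
    · exact hCb i
    · exact hCy i
    · exact hCz i
  · -- realisation of the rows
    have hreal : ∀ x : Fin 12 → ZMod 2, R12rel x →
        ∃ f ∈ M.R, (∀ c ∈ C, f c = 0) ∧ ∀ j, f (φ j) = x j := by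
      rintro x ⟨r1, r2, r3, r4, r5, r6, r7⟩
      obtain ⟨f, hf, hfC, s0, s1, s2⟩ := hs ![x 7 + x 8, x 6 + x 8, x 6 + x 7] (by
        simp only [Matrix.cons_val_zero, Matrix.cons_val_one, Matrix.cons_val]
        grind)
      simp only [Matrix.cons_val_zero, Matrix.cons_val_one, Matrix.cons_val] at s0 s1 s2
      obtain ⟨p0, p1, p2⟩ := hp f hf hfC
      have c1 := hcyc f hf 0 1 (by decide)
      have c2 := hcyc f hf 0 2 (by decide)
      have b0 := hB f hf
      refine ⟨f + (f (y 0) + x 6) • ind {y 0, y 1, y 2} + (f (z 0) + x 9) • ind {z 0, z 1, z 2} +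
        (f (b 1) + x 4) • ind {a 0, b 0, a 1, b 1} + (f (b 2) + x 5) • ind {a 0, b 0, a 2, b 2},
        ?_, ?_, ?_⟩
      · refine M.R.add_mem (M.R.add_mem (M.R.add_mem (M.R.add_mem hf (M.R.smul_mem _ hYR))
          (M.R.smul_mem _ hZR)) (M.R.smul_mem _ (hq 0 1 (by decide))))
          (M.R.smul_mem _ (hq 0 2 (by decide)))
      · intro c hcC
        have n1 : ∀ i, c ≠ a i := fun i h => hCa i (h ▸ hcC)
        have n2 : ∀ i, c ≠ b i := fun i h => hCb i (h ▸ hcC)
        have n3 : ∀ i, c ≠ y i := fun i h => hCy i (h ▸ hcC)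
        have n4 : ∀ i, c ≠ z i := fun i h => hCz i (h ▸ hcC)
        simp [hfC c hcC, n1, n2, n3, n4]
      · intro j
        fin_cases j <;>
          simp [hφ, hai.eq_iff, hbi.eq_iff, hyi.eq_iff, hzi.eq_iff, hab, hay, haz, hba, hby, hbz,
            hya, hyb, hyz, hza, hzb, hzy] <;> grind
    exact fun i => hreal _ (R12_rel i)
  · intro f hf hfC
    refine ⟨_, R12_coeff (fun j => f (φ j)) ?_⟩
    obtain ⟨p0, p1, p2⟩ := hp f hf hfC
    exact ⟨hA f hf, hB f hf, p0, p1, p2, hcyc f hf 0 1 (by decide), hcyc f hf 0 2 (by decide)⟩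

theorem WW_R12 (M : BM E) (h : M.TC) (a b : Fin 3 → E) (hW : WStr M a b) (y z : Fin 3 → E)
    (hW' : WStr M.dual y z) (hd : Disjoint (Wset a b) (Wset y z)) : HasMinor R12 M := by

  classical
  have hW0 := hW
  have hW0' := hW'
  obtain ⟨haS, hbS, hai, hbi, hab, hA, hB, hq⟩ := hW
  obtain ⟨hyS, hzS, hyi, hzi, hyz, hY, hZ, hc⟩ := hW'
  have hWS : Wset a b ⊆ M.S := by
    intro e he
    simp only [Wset, Finset.mem_union, Finset.mem_image, Finset.mem_univ, true_and] at he
    rcases he with ⟨i, rfl⟩ | ⟨i, rfl⟩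
    · exact haS i
    · exact hbS i
  have hWS' : Wset y z ⊆ M.S := by
    intro e he
    simp only [Wset, Finset.mem_union, Finset.mem_image, Finset.mem_univ, true_and] at he
    rcases he with ⟨i, rfl⟩ | ⟨i, rfl⟩
    · exact hyS i
    · exact hzS i
  have hcard : ∀ u v : Fin 3 → E, Function.Injective u → Function.Injective v →
      (∀ i j, u i ≠ v j) → (Wset u v).card = 6 := by
    intro u v hu hv huv
    rw [Wset, Finset.card_union_of_disjoint, Finset.card_image_of_injective _ hu,
      Finset.card_image_of_injective _ hv, Finset.card_univ, Fintype.card_fin]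
    rw [Finset.disjoint_left]
    intro e he he'
    simp only [Finset.mem_image, Finset.mem_univ, true_and] at he he'
    obtain ⟨i, hi⟩ := he
    obtain ⟨j, hj⟩ := he'
    exact huv i j (hi.trans hj.symm)
  have hc6 := hcard a b hai hbi hab
  have hc6' := hcard y z hyi hzi hyz
  have hc12 : 12 ≤ M.S.card := by
    have h1 := Finset.card_le_card (Finset.union_subset hWS hWS')
    rw [Finset.card_union_of_disjoint hd] at h1
    omega
  have hlam := WStr_lam M h a b hW0 (by omega)
  have hlam' := WStr_lam M.dual h.dual y z hW0' (by rw [BM.dual_S]; omega)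
  rw [BM.lam_dual] at hlam'
  obtain ⟨C, D, hCD, hCW, hDW, hun, hk⟩ := linking M (Wset a b) (Wset y z) hWS hWS' hd 2 (by
    intro A h1 h2 h3
    refine TC_two_le h h2 ?_ ?_
    · have := Finset.card_le_card h1
      omega
    · have h4 : Wset y z ⊆ M.S \ A := fun e he =>
        Finset.mem_sdiff.2 ⟨hWS' he, fun h5 => Finset.disjoint_left.1 h3 h5 he⟩
      have := Finset.card_le_card h4
      omega)
  have hMS : ((M.con C).del D).S = Wset a b ∪ Wset y z := by
    ext e
    rw [BM.del_S, BM.con_S, Finset.mem_sdiff, Finset.mem_sdiff, ← hun]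
    simp only [Finset.mem_union]
    constructor
    · rintro ⟨⟨((h1 | h1) | h1) | h1, h2⟩, h3⟩
      · exact Or.inl h1
      · exact Or.inr h1
      · exact absurd h1 h2
      · exact absurd h1 h3
    · intro h1
      refine ⟨⟨Or.inl (Or.inl h1), fun h2 => ?_⟩, fun h2 => ?_⟩
      · exact Finset.disjoint_left.1 hCW h2 (Finset.mem_union.2 h1)
      · exact Finset.disjoint_left.1 hDW h2 (Finset.mem_union.2 h1)
  have hk' : ((M.con C).del D).lam (Wset y z) = ((M.con C).del D).lam (Wset a b) := by
    rw [← BM.lam_compl _ (Wset a b), hMS, Finset.union_sdiff_cancel_left hd]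
  have hCS : C ⊆ M.S := by
    intro e he
    rw [← hun]
    simp only [Finset.mem_union]
    exact Or.inl (Or.inr he)
  have hC1 : Disjoint C (Wset a b) := hCW.mono_right Finset.subset_union_left
  have hC2 : Disjoint C (Wset y z) := hCW.mono_right Finset.subset_union_right
  obtain ⟨pa, pb⟩ := preserve M (Wset a b) C D hWS hCS hC1
    (hDW.mono_right Finset.subset_union_left) (by rw [hlam]; exact hk)
  obtain ⟨pa', pb'⟩ := preserve M (Wset y z) C D hWS' hCS hC2
    (hDW.mono_right Finset.subset_union_right) (by rw [hlam', hk']; exact hk)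
  have hmW : ∀ i, a i ∈ Wset a b ∧ b i ∈ Wset a b := fun i => by simp [Wset]
  have hmW' : ∀ i, y i ∈ Wset y z ∧ z i ∈ Wset y z := fun i => by simp [Wset]
  have hnW' : ∀ e ∈ Wset a b, ∀ i, e ≠ y i ∧ e ≠ z i := fun e he i =>
    ⟨fun h1 => Finset.disjoint_left.1 hd he (h1 ▸ (hmW' i).1),
      fun h1 => Finset.disjoint_left.1 hd he (h1 ▸ (hmW' i).2)⟩
  have hnC : ∀ e ∈ C, ∀ i, e ≠ y i ∧ e ≠ z i := fun e he i =>
    ⟨fun h1 => Finset.disjoint_left.1 hC2 he (h1 ▸ (hmW' i).1),
      fun h1 => Finset.disjoint_left.1 hC2 he (h1 ▸ (hmW' i).2)⟩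
  -- the rows `Y` and `Z`
  have hrow : ∀ u : Fin 3 → E, Function.Injective u → (∀ i, u i ∈ M.S) →
      (∀ f ∈ M.Z, f (u 0) + f (u 1) + f (u 2) = 0) → ind {u 0, u 1, u 2} ∈ M.R := by
    intro u hu huS hu0
    rw [M.mem_R_iff]
    refine ⟨fun e he => ?_, fun w hw => ?_⟩
    · rw [ind_of_notMem]
      simp only [Finset.mem_insert, Finset.mem_singleton]
      rintro (rfl | rfl | rfl)
      · exact he (huS 0)
      · exact he (huS 1)
      · exact he (huS 2)
    · have h1 := hu0 w hw
      rw [ind_dot, Finset.sum_insert, Finset.sum_insert, Finset.sum_singleton]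
      · rw [← h1]; ring
      · simp [hu.eq_iff]
      · simp [hu.eq_iff]
  have hYR := hrow y hyi hyS hY
  have hZR := hrow z hzi hzS hZ
  have hcyc : ∀ f ∈ M.R, ∀ i j, i ≠ j → f (y i) + f (z i) = f (y j) + f (z j) := by
    intro f hf i j hij
    have h1 := M.dot_eq_zero hf (hc i j hij)
    rw [dot_ind, Finset.sum_insert, Finset.sum_insert, Finset.sum_insert,
      Finset.sum_singleton] at h1
    · grind
    · simp only [Finset.mem_singleton]; exact hyz j j
    · simp only [Finset.mem_insert, Finset.mem_singleton, not_or]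
      exact ⟨fun h => hyz j i h.symm, fun h => hij (hzi h)⟩
    · simp only [Finset.mem_insert, Finset.mem_singleton, not_or]
      exact ⟨hyz i i, fun h => hij (hyi h), hyz i j⟩
  -- the functionals
  let ev : E → (E → ZMod 2) →ₗ[ZMod 2] ZMod 2 := fun e => LinearMap.proj e
  let p : Fin 3 → (E → ZMod 2) →ₗ[ZMod 2] ZMod 2 := fun i => ev (a i) + ev (b i)
  let s : Fin 3 → (E → ZMod 2) →ₗ[ZMod 2] ZMod 2 :=
    ![ev (y 1) + ev (y 2), ev (y 0) + ev (y 2), ev (y 0) + ev (y 1)]
  have hpv : ∀ i f, p i f = f (a i) + f (b i) := fun i f => rfl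
  have hs0 : ∀ f, s 0 f = f (y 1) + f (y 2) := fun f => rfl
  have hs1 : ∀ f, s 1 f = f (y 0) + f (y 2) := fun f => rfl
  have hs2 : ∀ f, s 2 f = f (y 0) + f (y 1) := fun f => rfl
  have hcore := ww_core (M.con C).R p s
    (fun f _ => by rw [hs0, hs1, hs2]; grind)
    (fun f hf => by
      have h1 := hA f hf.1
      have h2 := hB f hf.1
      rw [hpv, hpv, hpv]
      grind)
    (fun f hf hsf i => by
      obtain ⟨hfR, hfC⟩ := hf
      have e0 := hsf 0
      have e1 := hsf 1
      have e2 := hsf 2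
      rw [hs0] at e0
      rw [hs1] at e1
      rw [hs2] at e2
      have c1 := hcyc f hfR 0 1 (by decide)
      have c2 := hcyc f hfR 0 2 (by decide)
      -- subtract the constants
      obtain ⟨g, hg⟩ : ∃ g : E → ZMod 2, g = f + f (y 0) • ind {y 0, y 1, y 2} +
        f (z 0) • ind {z 0, z 1, z 2} := ⟨_, rfl⟩
      have hgR : g ∈ M.R := by
        rw [hg]
        exact M.R.add_mem (M.R.add_mem hfR (M.R.smul_mem _ hYR)) (M.R.smul_mem _ hZR)
      have hgC : ∀ c ∈ C, g c = 0 := by
        intro c hcC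
        rw [hg]
        simp [hfC c hcC, fun i => (hnC c hcC i).1, fun i => (hnC c hcC i).2]
      have hgW : ∀ e ∈ Wset a b, g e = f e := by
        intro e he
        rw [hg]
        simp [fun i => (hnW' e he i).1, fun i => (hnW' e he i).2]
      have hzy : ∀ i j, z i ≠ y j := fun i j h => hyz j i h.symm
      have hgy : ∀ i, g (y i) = 0 := by
        intro i
        rw [hg]
        fin_cases i <;> simp [hyi.eq_iff, hyz] <;> grind
      have hgz : ∀ i, g (z i) = 0 := by
        intro i
        rw [hg]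
        fin_cases i <;> simp [hzi.eq_iff, hzy] <;> grind
      have hgM : mask ((M.con C).S \ D) g ∈ ((M.con C).del D).R := ⟨g, ⟨hgR, hgC⟩, rfl⟩
      have hsupp : ∀ e, e ∉ Wset a b → mask ((M.con C).S \ D) g e = 0 := by
        intro e he
        rw [mask_apply]
        split_ifs with h1
        · have h2 : e ∈ Wset a b ∪ Wset y z := by rw [← hMS]; exact h1
          rcases Finset.mem_union.1 h2 with h2 | h2
          · exact absurd h2 he
          · simp only [Wset, Finset.mem_union, Finset.mem_image, Finset.mem_univ,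
              true_and] at h2
            rcases h2 with ⟨i, rfl⟩ | ⟨i, rfl⟩
            · exact hgy i
            · exact hgz i
        · rfl
      have hin := pb _ hsupp hgM
      have hrows := WStr_rows M h a b hW0 (by omega) _ hin hsupp i
      have hin1 : ∀ e ∈ Wset a b, e ∈ (M.con C).S \ D := fun e he => by
        have : e ∈ ((M.con C).del D).S := by
          rw [hMS]; exact Finset.mem_union_left _ he
        exact this
      rw [mask_apply, mask_apply, if_pos (hin1 _ (hmW i).1), if_pos (hin1 _ (hmW i).2),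
        hgW _ (hmW i).1, hgW _ (hmW i).2] at hrows
      rw [hpv, hrows]
      exact z_add_self _)
    (fun i => by
      obtain ⟨f, hf, hne⟩ := TC_row_sep h (haS i) (hbS i) (hab i i)
      obtain ⟨f', hf', hC', heq⟩ := pa f hf
      refine ⟨f', ⟨hf', hC'⟩, ?_⟩
      rw [hpv, heq _ (hmW i).1, heq _ (hmW i).2]
      exact fun h0 => hne (z_add_eq_zero.1 h0))
    (fun j => by
      have hgen : ∀ i i' : Fin 3, i ≠ i' → ∃ f ∈ (M.con C).R, f (y i) + f (y i') ≠ 0 := by
        intro i i' hii
        obtain ⟨f, hf, hne⟩ := TC_row_sep h (hyS i) (hyS i') (fun h0 => hii (hyi h0))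
        obtain ⟨f', hf', hC', heq⟩ := pa' f hf
        refine ⟨f', ⟨hf', hC'⟩, ?_⟩
        rw [heq _ (hmW' i).1, heq _ (hmW' i').1]
        exact fun h0 => hne (z_add_eq_zero.1 h0)
      fin_cases j
      · exact hgen 1 2 (by decide)
      · exact hgen 0 2 (by decide)
      · exact hgen 0 1 (by decide))
  obtain ⟨⟨σ, hσi, hσ⟩, hall⟩ := hcore
  -- re-index
  let σe : Equiv.Perm (Fin 3) := Equiv.ofBijective σ (Finite.injective_iff_bijective.1 hσi)
  have hτ : ∀ j, σ (σe.symm j) = j := fun j => σe.apply_symm_apply j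
  have hWτ := wstr_perm hW0 σe.symm
  have hset : Wset (fun i => a (σe.symm i)) (fun i => b (σe.symm i)) = Wset a b := by
    have h1 : ∀ u : Fin 3 → E, univ.image (fun i => u (σe.symm i)) = univ.image u := by
      intro u
      ext e
      simp only [Finset.mem_image, Finset.mem_univ, true_and]
      constructor
      · rintro ⟨i, rfl⟩
        exact ⟨_, rfl⟩
      · rintro ⟨i, rfl⟩
        exact ⟨σe i, by rw [Equiv.symm_apply_apply]⟩
    unfold Wset
    rw [h1, h1]
  refine ww_final M _ _ y z hWτ hW0' (by rw [hset]; exact hd) C hCS (by rw [hset]; exact hCW)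
    ?_ ?_
  · intro f hf hfC
    have h1 : ∀ j, f (a (σe.symm j)) + f (b (σe.symm j)) = s j f := by
      intro j
      have h2 := hσ f ⟨hf, hfC⟩ (σe.symm j)
      rw [hτ, hpv] at h2
      exact h2
    exact ⟨h1 0, h1 1, h1 2⟩
  · intro t ht
    obtain ⟨f, ⟨hf, hfC⟩, h1⟩ := hall t ht
    exact ⟨f, hf, hfC, h1 0, h1 1, h1 2⟩

end SEY

end

section

/-!
Block INTER (UB-5).  In a 3-connected graph the vertex stars are minimal rows.

`ind (star M.S h t u)` is a row by `IsGr.star_mem`, nonzero by `hg.ne`.  Let `w = cob M.S h t π` be a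
nonzero row with support inside the star of `u`.  Adding the constant `π u` (`cob` of a constant
is zero) we may assume `π u = 0`.  Put `X = {x ∈ U | π x = 1}`, `Y = {x ∈ U | x ≠ u, π x = 0}`.  An
edge joining `X` and `Y` would be in the support of `w` but not in the star of `u`.  `X` is nonempty
since `w ≠ 0`.  If `Y` is empty then `π x = 1` for all `x ∈ U`, `x ≠ u`, and `w` is the indicator of
the star of `u` (the ends of an edge are different and lie in `U`).  If `Y` is nonempty,
`IsGr.sep` with `U \ (X ∪ Y) = {u}` gives `lam A + 1 ≤ 1` for the set `A` of edges meeting `X`, so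
`lam A = 0`; by `TC.of_lam_zero` `A = ∅` (contradiction with `hg.ne` at a vertex of `X`) or
`A = M.S` (contradiction with `hg.ne` at a vertex of `Y`: this edge would join `X` and `Y`).
-/

set_option autoImplicit false

namespace SEY.UB

open Finset

variable {E : Type} [Fintype E] [DecidableEq E] {W : Type} [Fintype W] [DecidableEq W]

theorem star_isMin {M : BM E} (hTC : M.TC) {U : Finset W} {h t : E → W} (hg : IsGr M U h t)
    {u : W} (hu : u ∈ U) : IsMin M.R (ind (star M.S h t u)) := by
  refine ⟨hg.star_mem hu, ?_, ?_⟩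
  · rw [Ne, ind_eq_zero]
    obtain ⟨e, he, hue⟩ := hg.ne u hu
    intro h0
    have : e ∈ star M.S h t u := mem_star.2 ⟨he, hue⟩
    rw [h0] at this
    simp at this
  · intro w hw hw0 hws
    rw [spt_ind] at hws
    obtain ⟨A, hAU, huA, rfl⟩ := hg.exists_indV_notMem u hw
    have hA0 : A.Nonempty := by
      rw [Finset.nonempty_iff_ne_empty]
      rintro rfl
      apply hw0
      have : (indV (∅ : Finset W) : W → ZMod 2) = 0 := by
        funext v
        exact indV_notMem (by simp)
      rw [this, cob_zero]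
    have hno : ∀ x ∈ M.S, ∀ a ∈ A, ∀ b ∈ U \ insert u A, ¬ Jn h t x a b := by
      intro x hx a ha b hb hj
      rw [Finset.mem_sdiff, Finset.mem_insert, not_or] at hb
      have hia : Inc h t a x := by
        rcases hj with ⟨h1, h2⟩ | ⟨h1, h2⟩
        · exact Or.inl h1
        · exact Or.inr h2
      have hib : Inc h t b x := by
        rcases hj with ⟨h1, h2⟩ | ⟨h1, h2⟩
        · exact Or.inr h2
        · exact Or.inl h1
      have h1 : cob M.S h t (indV A) x = 1 := cob_indV_one hx ha hb.2.2 hia hib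
      have h2 : x ∈ star M.S h t u := hws (mem_spt'.2 h1)
      have h3 := (mem_star.1 h2).2
      have hab : a ≠ b := by
        rintro rfl
        exact hb.2.2 ha
      rcases inc_le hia hib h3 hab with h4 | h4
      · exact huA (h4 ▸ ha)
      · exact hb.2.1 h4.symm
    by_cases hY : (U \ insert u A).Nonempty
    · exfalso
      have hsep := hg.sep A (U \ insert u A) hAU Finset.sdiff_subset (by
        rw [Finset.disjoint_left]
        intro x hx hx'
        rw [Finset.mem_sdiff, Finset.mem_insert, not_or] at hx'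
        exact hx'.2.2 hx) hA0 hY hno
      have hcard : (U \ (A ∪ (U \ insert u A))).card ≤ 1 := by
        have : U \ (A ∪ (U \ insert u A)) ⊆ {u} := by
          intro x hx
          simp only [Finset.mem_sdiff, Finset.mem_union, Finset.mem_insert, not_or, not_and,
            not_not, Finset.mem_singleton] at hx ⊢
          obtain ⟨h1, h2, h3⟩ := hx
          by_contra h4
          exact h2 (h3 h1 h4)
        exact (Finset.card_le_card this).trans (by simp)
      have hlam : M.lam (M.S.filter (fun x => h x ∈ A ∨ t x ∈ A)) = 0 := by omega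
      rcases hTC.of_lam_zero (Finset.filter_subset _ _) hlam with h1 | h1
      · obtain ⟨a, ha⟩ := hA0
        obtain ⟨e, he, hae⟩ := hg.ne a (hAU ha)
        have : e ∈ M.S.filter (fun x => h x ∈ A ∨ t x ∈ A) := by
          rw [Finset.mem_filter]
          refine ⟨he, ?_⟩
          rcases hae with h2 | h2
          · exact Or.inl (h2 ▸ ha)
          · exact Or.inr (h2 ▸ ha)
        rw [h1] at this
        simp at this
      · obtain ⟨b, hb⟩ := hY
        obtain ⟨e, he, hbe⟩ := hg.ne b (Finset.sdiff_subset hb)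
        have h2 : e ∈ M.S.filter (fun x => h x ∈ A ∨ t x ∈ A) := by rw [h1]; exact he
        rw [Finset.mem_filter] at h2
        have hbA : b ∉ A := by
          rw [Finset.mem_sdiff, Finset.mem_insert, not_or] at hb
          exact hb.2.2
        rcases hbe with h3 | h3
        · rcases h2.2 with h4 | h4
          · exact hbA (h3 ▸ h4)
          · exact hno e he _ h4 b hb (Or.inr ⟨h3, rfl⟩)
        · rcases h2.2 with h4 | h4
          · exact hno e he _ h4 b hb (Or.inl ⟨rfl, h3⟩)
          · exact hbA (h3 ▸ h4)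
    · rw [Finset.not_nonempty_iff_eq_empty, Finset.sdiff_eq_empty_iff_subset] at hY
      have hA : A = U \ {u} := by
        ext x
        simp only [Finset.mem_sdiff, Finset.mem_singleton]
        constructor
        · intro hx
          exact ⟨hAU hx, fun h' => huA (h' ▸ hx)⟩
        · rintro ⟨h1, h2⟩
          rcases Finset.mem_insert.1 (hY h1) with h3 | h3
          · exact absurd h3 h2
          · exact h3
      rw [hA, hg.cob_sdiff, hg.cob_singleton]

end SEY.UB

end

section

/-!
Block INTER (UB-6).  Orienting a 3-connected graph.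

`P` is a space of rational vectors such that minimal rows of the cycle matroid `M` of the graph are
signed by vectors of `P` (`h1`) and conversely the supports of signed vectors of `P` are rows
(`h3`), with the right dimension.  Then, for suitable signs `s e`, `P` is the space of the vectors
`s e * (π (h e) - π (t e))`.

Proof.  For `u ∈ U` let `f u ∈ P` sign the star of `u` (`star_isMin`, `h1`); for an edge `e` the
values `f (h e) e` and `f (t e) e` are `1, -1` and `f u e = 0` for all other `u ∈ U`.  Let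
`F = (1/2) • ∑ u ∈ U, f u ∈ P`; `F e = (f (h e) e + f (t e) e) / 2` is `0, 1, -1`.  By `h3` the support
`τ` of `F` (`τ e = 0` iff `f (h e) e = - f (t e) e`) is a row, so `τ = cob M.S h t ε`
(`hg.rows`).  Put `g u = (-1) ^ (ε u) f u` (that is `f u` if `ε u = 0`, else `- f u`); then
`g (h e) e = - g (t e) e` for all `e`.  Put `s e = g (h e) e`.  Then for `π : W → ℚ` the vector
`∑ u ∈ U, π u • g u` has the value `s e * (π (h e) - π (t e))` at `e`.  So all these vectors are in
`P`.  They form a subspace `G`, the range of a linear map from `W → ℚ` or `U → ℚ`; from `U → ℚ` the kernel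
has dimension at most `1`: if `π (h e) = π (t e)` for all `e`, then `π` is constant on `U` (apply `hg.conn`
to the indicator of `{x | π x = π a}`).  So `finrank G + 1 ≥ U.card = M.r M.S + 1`
(`IsGr.card_U`), and `G = P` by `Submodule.eq_of_le_of_finrank_le`.
-/

set_option autoImplicit false

namespace SEY.UB

open Finset Module

variable {E : Type} [Fintype E] [DecidableEq E] {W : Type} [Fintype W] [DecidableEq W]

theorem orient {M : BM E} (hTC : M.TC) (hS : M.S = univ) {U : Finset W} {h t : E → W}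
    (hg : IsGr M U h t) (P : Submodule ℚ (E → ℚ)) (h1 : ∀ d, IsMin M.R d → ∃ p ∈ P, Sgn p d)
    (h3 : ∀ p ∈ P, ∀ d, Sgn p d → d ∈ M.R) (hdim : finrank ℚ P = M.r univ) :
    ∃ s : E → ℚ, (∀ e, s e = 1 ∨ s e = -1) ∧
      ∀ p : E → ℚ, p ∈ P ↔ ∃ π : W → ℚ, ∀ e, p e = s e * (π (h e) - π (t e)) := by
  classical
  have hSne : M.S.Nonempty := by
    rw [← Finset.card_pos]
    have := hTC.1
    omega
  have hmS : ∀ e, e ∈ M.S := fun e => by rw [hS]; exact Finset.mem_univ e
  have hends := fun e => hg.ends e (hmS e)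
  have hf0 : ∀ u, ∃ p : E → ℚ, p ∈ P ∧ (u ∈ U → Sgn p (ind (star M.S h t u))) := by
    intro u
    by_cases hu : u ∈ U
    · obtain ⟨p, hp, hs⟩ := h1 _ (star_isMin hTC hg hu)
      exact ⟨p, hp, fun _ => hs⟩
    · exact ⟨0, P.zero_mem, fun h => absurd h hu⟩
  choose f hfP hfS using hf0
  -- values of `f`
  have hval : ∀ u ∈ U, ∀ e, (h e = u ∨ t e = u) → f u e = 1 ∨ f u e = -1 := by
    intro u hu e he
    have hmem : e ∈ star M.S h t u := by
      rw [star, Finset.mem_filter]
      exact ⟨hmS e, he⟩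
    rcases hfS u hu e with ⟨h1', -⟩ | ⟨-, h2⟩
    · rw [ind, if_pos hmem] at h1'
      exact absurd h1' one_ne_zero
    · exact h2
  have hzero : ∀ u ∈ U, ∀ e, h e ≠ u → t e ≠ u → f u e = 0 := by
    intro u hu e he1 he2
    have hmem : e ∉ star M.S h t u := by
      rw [star, Finset.mem_filter]
      rintro ⟨-, h3 | h3⟩
      · exact he1 h3
      · exact he2 h3
    rcases hfS u hu e with ⟨-, h2⟩ | ⟨h1', -⟩
    · exact h2
    · rw [ind, if_neg hmem] at h1'
      exact absurd h1' zero_ne_one
  have hsum : ∀ (c : W → ℚ) (e : E),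
      ∑ u ∈ U, c u * f u e = c (h e) * f (h e) e + c (t e) * f (t e) e := by
    intro c e
    obtain ⟨h4, h5, h6⟩ := hends e
    refine Finset.sum_eq_add (h e) (t e) h6 ?_ (fun hn => absurd h4 hn) (fun hn => absurd h5 hn)
    rintro u hu ⟨h7, h8⟩
    rw [hzero u hu e (Ne.symm h7) (Ne.symm h8), mul_zero]
  -- the half sum
  let F : E → ℚ := (1 / 2 : ℚ) • ∑ u ∈ U, f u
  have hF : ∀ e, F e = (f (h e) e + f (t e) e) / 2 := by
    intro e
    have h7 := hsum (fun _ => 1) e
    simp only [one_mul] at h7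
    change (1 / 2 : ℚ) * (∑ u ∈ U, f u) e = _
    rw [Finset.sum_apply, h7]
    ring
  have hFP : F ∈ P := P.smul_mem _ (P.sum_mem (fun u _ => hfP u))
  have hh : ∀ e, f (h e) e = 1 ∨ f (h e) e = -1 := fun e => hval _ (hends e).1 e (Or.inl rfl)
  have ht : ∀ e, f (t e) e = 1 ∨ f (t e) e = -1 := fun e => hval _ (hends e).2.1 e (Or.inr rfl)
  have hF3 : ∀ e, F e = 0 ∨ F e = 1 ∨ F e = -1 := by
    intro e
    rw [hF e]
    rcases hh e with h7 | h7 <;> rcases ht e with h8 | h8 <;> rw [h7, h8] <;> norm_num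
  have hτ := h3 F hFP _ (exists_sgn hF3)
  obtain ⟨ε, hε⟩ := (hg.rows _).1 hτ
  have hε' : ∀ e, (if F e = 0 then (0 : ZMod 2) else 1) = ε (h e) + ε (t e) := by
    intro e
    have h7 := congrFun hε e
    rw [cob, if_pos (hmS e)] at h7
    exact h7
  let σ : W → ℚ := fun u => if ε u = 0 then 1 else -1
  have hσ : ∀ u, σ u = 1 ∨ σ u = -1 := by
    intro u
    by_cases h7 : ε u = 0
    · left; simp [σ, h7]
    · right; simp [σ, h7]
  have z2 : ∀ x : ZMod 2, x = 0 ∨ x = 1 := by decide
  have hopp : ∀ e, σ (t e) * f (t e) e = -(σ (h e) * f (h e) e) := by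
    intro e
    have h7 := hε' e
    by_cases h8 : F e = 0
    · rw [if_pos h8] at h7
      have h9 : ε (h e) = ε (t e) := by
        rcases z2 (ε (h e)) with ha | ha <;> rcases z2 (ε (t e)) with hb | hb
        · rw [ha, hb]
        · rw [ha, hb] at h7
          exact absurd h7 (by decide)
        · rw [ha, hb] at h7
          exact absurd h7 (by decide)
        · rw [ha, hb]
      have h10 : σ (h e) = σ (t e) := by simp only [σ, h9]
      rw [hF e] at h8
      have h11 : f (t e) e = - f (h e) e := by (clear * - h8; linarith)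
      rw [← h10, h11]
      ring
    · rw [if_neg h8] at h7
      have h10 : σ (t e) = - σ (h e) := by
        rcases z2 (ε (h e)) with ha | ha <;> rcases z2 (ε (t e)) with hb | hb
        · rw [ha, hb] at h7; simp at h7
        · simp [σ, ha, hb]
        · simp [σ, ha, hb]
        · rw [ha, hb] at h7; exact absurd h7 (by decide)
      have h11 : f (t e) e = f (h e) e := by
        rw [hF e] at h8
        rcases hh e with h12 | h12 <;> rcases ht e with h13 | h13 <;> rw [h12, h13] at h8 ⊢ <;>
          norm_num at h8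
      rw [h10, h11]
      ring
  let s : E → ℚ := fun e => σ (h e) * f (h e) e
  have hs : ∀ e, s e = 1 ∨ s e = -1 := by
    intro e
    change σ (h e) * f (h e) e = 1 ∨ σ (h e) * f (h e) e = -1
    rcases hσ (h e) with h7 | h7 <;> rcases hh e with h8 | h8 <;> rw [h7, h8] <;> norm_num
  have hvec : ∀ (π : W → ℚ), (fun e => s e * (π (h e) - π (t e))) ∈ P := by
    intro π
    have h7 : (fun e => s e * (π (h e) - π (t e))) = ∑ u ∈ U, (π u * σ u) • f u := by
      funext e
      rw [Finset.sum_apply]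
      have h8 := hsum (fun u => π u * σ u) e
      simp only [Pi.smul_apply, smul_eq_mul]
      rw [h8]
      have h9 := hopp e
      change σ (h e) * f (h e) e * (π (h e) - π (t e)) = _
      rw [mul_assoc (π (t e)), h9]
      ring
    rw [h7]
    exact P.sum_mem (fun u _ => P.smul_mem _ (hfP u))
  -- the linear map from the functions on `U`
  let A : (U → ℚ) →ₗ[ℚ] (E → ℚ) :=
    { toFun := fun π e => s e * (π ⟨h e, (hends e).1⟩ - π ⟨t e, (hends e).2.1⟩)
      map_add' := by
        intro π ρ
        funext e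
        simp only [Pi.add_apply]
        ring
      map_smul' := by
        intro c π
        funext e
        simp only [Pi.smul_apply, smul_eq_mul, RingHom.id_apply]
        ring }
  have hA : ∀ π e, A π e = s e * (π ⟨h e, (hends e).1⟩ - π ⟨t e, (hends e).2.1⟩) :=
    fun π e => rfl
  have hAP : LinearMap.range A ≤ P := by
    rintro _ ⟨π, rfl⟩
    have h7 := hvec (fun w => if hw : w ∈ U then π ⟨w, hw⟩ else 0)
    have h8 : A π = (fun e => s e * ((fun w => if hw : w ∈ U then π ⟨w, hw⟩ else 0) (h e) -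
        (fun w => if hw : w ∈ U then π ⟨w, hw⟩ else 0) (t e))) := by
      funext e
      rw [hA]
      simp only [dif_pos (hends e).1, dif_pos (hends e).2.1]
    rw [h8]
    exact h7
  obtain ⟨e0, -⟩ := hSne
  have hker : LinearMap.ker A ≤ Submodule.span ℚ {(fun _ => (1 : ℚ) : U → ℚ)} := by
    intro π hπ
    rw [LinearMap.mem_ker] at hπ
    have h7 : ∀ e, π ⟨h e, (hends e).1⟩ = π ⟨t e, (hends e).2.1⟩ := by
      intro e
      have h8 := congrFun hπ e
      rw [hA, Pi.zero_apply] at h8
      have h9 : s e ≠ 0 := by rcases hs e with h10 | h10 <;> rw [h10] <;> norm_num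
      have h11 := (mul_eq_zero.1 h8).resolve_left h9
      (clear * - h11; linarith)
    let a : U := ⟨h e0, (hends e0).1⟩
    let ρ : W → ZMod 2 := fun w => if ∃ hw : w ∈ U, π ⟨w, hw⟩ = π a then 1 else 0
    have hρ : ∀ (w : W) (hw : w ∈ U), ρ w = if π ⟨w, hw⟩ = π a then 1 else 0 := by
      intro w hw
      simp only [ρ]
      by_cases h8 : π ⟨w, hw⟩ = π a
      · rw [if_pos h8, if_pos ⟨hw, h8⟩]
      · rw [if_neg h8, if_neg (fun h9 => h8 h9.2)]
    have hc : cob M.S h t ρ = 0 := by
      funext e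
      rw [cob, if_pos (hmS e), hρ _ (hends e).1, hρ _ (hends e).2.1, h7 e, Pi.zero_apply]
      split_ifs <;> decide
    have h8 := hg.conn ρ hc
    rw [Submodule.mem_span_singleton]
    refine ⟨π a, ?_⟩
    funext x
    have h9 := h8 x.1 x.2 a.1 a.2
    rw [hρ _ x.2, hρ _ a.2, if_pos rfl] at h9
    simp only [Pi.smul_apply, smul_eq_mul, mul_one]
    by_contra h10
    have h11 : ¬ π ⟨x.1, x.2⟩ = π a := fun h12 => h10 h12.symm
    rw [if_neg h11] at h9
    exact zero_ne_one h9
  have hk1 : finrank ℚ (LinearMap.ker A) ≤ 1 := by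
    refine le_trans (Submodule.finrank_mono hker) ?_
    refine le_trans (finrank_span_le_card _) ?_
    simp
  have hrn := LinearMap.finrank_range_add_finrank_ker A
  rw [Module.finrank_fintype_fun_eq_card, Fintype.card_coe] at hrn
  have hcU := hg.card_U ⟨e0, hmS e0⟩
  rw [hS] at hcU
  have hEq : LinearMap.range A = P := by
    refine Submodule.eq_of_le_of_finrank_le hAP ?_
    rw [hdim]
    omega
  refine ⟨s, hs, fun p => ⟨fun hp => ?_, ?_⟩⟩
  · rw [← hEq] at hp
    obtain ⟨π, rfl⟩ := hp
    refine ⟨fun w => if hw : w ∈ U then π ⟨w, hw⟩ else 0, fun e => ?_⟩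
    rw [hA]
    simp only [dif_pos (hends e).1, dif_pos (hends e).2.1]
  · rintro ⟨π, hπ⟩
    have h7 : p = (fun e => s e * (π (h e) - π (t e))) := funext hπ
    rw [h7]
    exact hvec π

end SEY.UB

end
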