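import Pool.Agent.Helper29.MFA.T40
import Pool.Agent.Helper29.MFA.T50
import Pool.Agent.Helper29.MFA.T10
import Pool.Agent.Helper29.MFA.T52

section

/-!
LV-4a (project SEY, block LEVEL): outcome O2 (`TriT`), connectivity, rows and cycles inside `W7`.

`W7 = {e, a i, b i}` (7 elements, distinct by `hT.inj`).  Cycles `zA = ind {e, a 0, a 1, a 2}`,
`zB = ind {e, b 0, b 1, b 2}` (orthogonal to all rows by `cyca`, `cycb`), rows `q_i = ind {e, a i, b i}`.
* `TriT_lam`: `lam >= 2` by `TC_two_le` (`|S - W7| >= 2`); `lam_le` with the cycles `zA, zB` and the rows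
  `q_0, q_1, q_2` (independent, `linIndep_tri`) gives `lam + 2 + 3 <= 7`.
* `TriT_cyc`: a cycle `z` supported in `W7` has `z (a i) = z (a j)`: otherwise `z, zA, zB` are
  independent (`z -> z (a i) + z (a j)` vanishes on `zA, zB`) and `lam_le` gives `lam + 3 + 3 <= 7`, so
  `lam <= 1`, against `TC_two_le`.
* `TriT_row`: a row `g` supported in `W7` has `g (a i) = g (b i)`: otherwise `g, q_0, q_1, q_2` are
  independent (`g -> g (a i) + g (b i)` vanishes on the `q`'s) and `lam_le` gives `lam + 2 + 4 <= 7`.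
-/

set_option autoImplicit false

namespace SEY

open Finset

variable {E : Type} [Fintype E] [DecidableEq E]

/-- The seven elements of outcome O2. -/
def W7 (e : E) (a b : Fin 3 → E) : Finset E := insert e (univ.image a ∪ univ.image b)

namespace TriLamAux

variable {r k : ℕ} {rows : Fin r → Fin k → ZMod 2} {M : BM E} {e : E} {a b : Fin 3 → E}

omit [Fintype E] in
theorem mem_W7 {x : E} : x ∈ W7 e a b ↔ x = e ∨ (∃ i, a i = x) ∨ ∃ i, b i = x := by
  simp [W7]

theorem W7_sub (hT : TriT rows M e a b) : W7 e a b ⊆ M.S := by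
  intro x hx
  rcases mem_W7.1 hx with rfl | ⟨i, rfl⟩ | ⟨i, rfl⟩
  · exact hT.mem.1
  · exact hT.mem.2.1 i
  · exact hT.mem.2.2 i

theorem W7_card (hT : TriT rows M e a b) : (W7 e a b).card = 7 := by
  obtain ⟨ia, ib, hab, hea, heb⟩ := hT.inj
  have h1 : e ∉ (univ.image a ∪ univ.image b) := by
    simp only [Finset.mem_union, Finset.mem_image, Finset.mem_univ, true_and, not_or, not_exists]
    exact ⟨fun i h => hea i h.symm, fun i h => heb i h.symm⟩
  have h2 : Disjoint (univ.image a) (univ.image b) := by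
    rw [Finset.disjoint_left]
    intro x hx hx'
    simp only [Finset.mem_image, Finset.mem_univ, true_and] at hx hx'
    obtain ⟨i, rfl⟩ := hx
    obtain ⟨j, hj⟩ := hx'
    exact hab i j hj.symm
  unfold W7
  rw [Finset.card_insert_of_notMem h1, Finset.card_union_of_disjoint h2,
    Finset.card_image_of_injective _ ia, Finset.card_image_of_injective _ ib]
  simp

theorem two_le (hT : TriT rows M e a b) (h : M.TC) (hc : 9 ≤ M.S.card) :
    2 ≤ M.lam (W7 e a b) := by
  have h1 := W7_card hT
  have h2 := Finset.card_sdiff_add_card_eq_card (W7_sub hT)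
  exact TC_two_le h (W7_sub hT) (by omega) (by omega)

/-- The cycles. -/
def zc (e : E) (a : Fin 3 → E) : E → ZMod 2 := ind {e, a 0, a 1, a 2}

omit [Fintype E] in
theorem zc_self (i : Fin 3) : zc e a (a i) = 1 := by
  unfold zc
  apply ind_of_mem
  fin_cases i <;> simp

omit [Fintype E] in
theorem zc_ne {x : E} (h : x ≠ e) (h' : ∀ i, x ≠ a i) : zc e a x = 0 := by
  unfold zc
  apply ind_of_notMem
  simp [h, h']

theorem zc_mem (he : e ∈ M.S) (ha : ∀ i, a i ∈ M.S) (ia : Function.Injective a)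
    (hea : ∀ i, e ≠ a i) (hcyc : ∀ f ∈ M.R, f e + f (a 0) + f (a 1) + f (a 2) = 0) :
    zc e a ∈ M.Z := by
  refine ⟨fun x hx => ?_, fun f hf => ?_⟩
  · apply zc_ne
    · rintro rfl
      exact hx he
    · rintro i rfl
      exact hx (ha i)
  · unfold zc
    rw [dot_ind]
    have h01 : a 0 ≠ a 1 := fun h => absurd (ia h) (by decide)
    have h02 : a 0 ≠ a 2 := fun h => absurd (ia h) (by decide)
    have h12 : a 1 ≠ a 2 := fun h => absurd (ia h) (by decide)
    rw [Finset.sum_insert (by simp [hea]), Finset.sum_insert (by simp [h01, h02]),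
      Finset.sum_insert (by simp [h12]), Finset.sum_singleton, ← hcyc f hf]
    ring

theorem zA_mem (hT : TriT rows M e a b) : zc e a ∈ M.Z :=
  zc_mem hT.mem.1 hT.mem.2.1 hT.inj.1 hT.inj.2.2.2.1 hT.cyca

theorem zB_mem (hT : TriT rows M e a b) : zc e b ∈ M.Z :=
  zc_mem hT.mem.1 hT.mem.2.2 hT.inj.2.1 hT.inj.2.2.2.2 hT.cycb

omit [Fintype E] in
theorem zA_out {x : E} (hx : x ∉ W7 e a b) : zc e a x = 0 :=
  zc_ne (fun h => hx (mem_W7.2 (Or.inl h))) fun i h => hx (mem_W7.2 (Or.inr (Or.inl ⟨i, h.symm⟩)))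

omit [Fintype E] in
theorem zB_out {x : E} (hx : x ∉ W7 e a b) : zc e b x = 0 :=
  zc_ne (fun h => hx (mem_W7.2 (Or.inl h))) fun i h => hx (mem_W7.2 (Or.inr (Or.inr ⟨i, h.symm⟩)))

omit [Fintype E] in
theorem q_out (i : Fin 3) {x : E} (hx : x ∉ W7 e a b) : ind {e, a i, b i} x = 0 := by
  apply ind_of_notMem
  simp only [Finset.mem_insert, Finset.mem_singleton, not_or]
  exact ⟨fun h => hx (mem_W7.2 (Or.inl h)), fun h => hx (mem_W7.2 (Or.inr (Or.inl ⟨i, h.symm⟩))),
    fun h => hx (mem_W7.2 (Or.inr (Or.inr ⟨i, h.symm⟩)))⟩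

theorem q_a (hT : TriT rows M e a b) (i j : Fin 3) :
    ind {e, a i, b i} (a j) = if j = i then 1 else 0 := by
  obtain ⟨ia, ib, hab, hea, heb⟩ := hT.inj
  by_cases h : j = i
  · subst h
    rw [if_pos rfl]
    exact ind_of_mem (by simp)
  · rw [if_neg h]
    apply ind_of_notMem
    simp only [Finset.mem_insert, Finset.mem_singleton, not_or]
    exact ⟨(hea j).symm, fun h' => h (ia h'), hab j i⟩

theorem q_b (hT : TriT rows M e a b) (i j : Fin 3) :
    ind {e, a i, b i} (b j) = if j = i then 1 else 0 := by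
  obtain ⟨ia, ib, hab, hea, heb⟩ := hT.inj
  by_cases h : j = i
  · subst h
    rw [if_pos rfl]
    exact ind_of_mem (by simp)
  · rw [if_neg h]
    apply ind_of_notMem
    simp only [Finset.mem_insert, Finset.mem_singleton, not_or]
    exact ⟨(heb j).symm, (hab i j).symm, fun h' => h (ib h')⟩

theorem q_li (hT : TriT rows M e a b) :
    LinearIndependent (ZMod 2) (fun i : Fin 3 => (ind {e, a i, b i} : E → ZMod 2)) := by
  refine linIndep_tri _ a (fun i => ?_) (fun i j hij => ?_)
  · rw [q_a hT, if_pos rfl]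
  · rw [q_a hT, if_neg (ne_of_gt hij)]

theorem zA_b (hT : TriT rows M e a b) (i : Fin 3) : zc e a (b i) = 0 :=
  zc_ne (hT.inj.2.2.2.2 i).symm fun j h => hT.inj.2.2.1 j i h.symm

theorem zB_a (hT : TriT rows M e a b) (i : Fin 3) : zc e b (a i) = 0 :=
  zc_ne (hT.inj.2.2.2.1 i).symm fun j h => hT.inj.2.2.1 i j h

theorem z_li (hT : TriT rows M e a b) :
    LinearIndependent (ZMod 2) (![zc e a, zc e b] : Fin 2 → E → ZMod 2) := by
  refine linIndep_tri _ ![a 0, b 0] (fun i => ?_) (fun i j hij => ?_)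
  · fin_cases i
    · exact zc_self 0
    · exact zc_self 0
  · fin_cases i <;> fin_cases j
    · exact absurd hij (by decide)
    · exact absurd hij (by decide)
    · exact zA_b hT 0
    · exact absurd hij (by decide)

end TriLamAux

open TriLamAux

theorem TriT_lam {r k : ℕ} (rows : Fin r → Fin k → ZMod 2) (M : BM E) (h : M.TC) (e : E)
    (a b : Fin 3 → E) (hT : TriT rows M e a b) (hc : 9 ≤ M.S.card) : M.lam (W7 e a b) = 2 := by
  have h2 := two_le hT h hc
  have h3 := lam_le M (W7 e a b) (W7_sub hT) ![zc e a, zc e b]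
    (by
      intro i
      fin_cases i
      · exact zA_mem hT
      · exact zB_mem hT)
    (by
      intro i x hx
      fin_cases i
      · exact zA_out hx
      · exact zB_out hx)
    (z_li hT) (fun i : Fin 3 => (ind {e, a i, b i} : E → ZMod 2)) (fun i => hT.row i)
    (fun i x hx => q_out i hx) (q_li hT)
  rw [W7_card hT] at h3
  omega

theorem TriT_cyc {r k : ℕ} (rows : Fin r → Fin k → ZMod 2) (M : BM E) (h : M.TC) (e : E)
    (a b : Fin 3 → E) (hT : TriT rows M e a b) (hc : 9 ≤ M.S.card) (z : E → ZMod 2)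
    (hz : z ∈ M.Z) (hz0 : ∀ x, x ∉ W7 e a b → z x = 0) (i j : Fin 3) : z (a i) = z (a j) := by
  by_contra hne
  have hij : z (a i) + z (a j) = 1 := by
    rcases zcases (z (a i)) with h1 | h1 <;> rcases zcases (z (a j)) with h2 | h2 <;>
      rw [h1, h2] at hne ⊢
    · exact absurd rfl hne
    · decide
    · decide
    · exact absurd rfl hne
  set w : E → ZMod 2 := z + z (a j) • zc e a + z (b 0) • zc e b with hw
  have hwZ : w ∈ M.Z := M.Z.add_mem (M.Z.add_mem hz (M.Z.smul_mem _ (zA_mem hT)))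
    (M.Z.smul_mem _ (zB_mem hT))
  have hw0 : ∀ x, x ∉ W7 e a b → w x = 0 := by
    intro x hx
    simp [hw, hz0 x hx, zA_out hx, zB_out hx]
  have hwi : w (a i) = 1 := by
    simp [hw, zc_self, zB_a hT, hij]
  have hwj : w (a j) = 0 := by
    simp [hw, zc_self, zB_a hT, z_add_self]
  have hwb : w (b 0) = 0 := by
    simp [hw, zc_self, zA_b hT, z_add_self]
  have hli : LinearIndependent (ZMod 2) (![w, zc e a, zc e b] : Fin 3 → E → ZMod 2) := by
    refine linIndep_tri _ ![a i, a j, b 0] (fun l => ?_) (fun l l' hl => ?_)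
    · fin_cases l
      · exact hwi
      · exact zc_self j
      · exact zc_self 0
    · fin_cases l <;> fin_cases l'
      · exact absurd hl (by decide)
      · exact absurd hl (by decide)
      · exact absurd hl (by decide)
      · exact hwj
      · exact absurd hl (by decide)
      · exact absurd hl (by decide)
      · exact hwb
      · exact zA_b hT 0
      · exact absurd hl (by decide)
  have h2 := two_le hT h hc
  have h3 := lam_le M (W7 e a b) (W7_sub hT) ![w, zc e a, zc e b]
    (by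
      intro l
      fin_cases l
      · exact hwZ
      · exact zA_mem hT
      · exact zB_mem hT)
    (by
      intro l x hx
      fin_cases l
      · exact hw0 x hx
      · exact zA_out hx
      · exact zB_out hx)
    hli (fun i : Fin 3 => (ind {e, a i, b i} : E → ZMod 2)) (fun i => hT.row i)
    (fun i x hx => q_out i hx) (q_li hT)
  rw [W7_card hT] at h3
  omega

theorem TriT_row {r k : ℕ} (rows : Fin r → Fin k → ZMod 2) (M : BM E) (h : M.TC) (e : E)
    (a b : Fin 3 → E) (hT : TriT rows M e a b) (hc : 9 ≤ M.S.card) (g : E → ZMod 2)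
    (hg : g ∈ M.R) (hg0 : ∀ x, x ∉ W7 e a b → g x = 0) (i : Fin 3) : g (a i) = g (b i) := by
  by_contra hne
  have hij : g (b i) + g (a i) = 1 := by
    rcases zcases (g (a i)) with h1 | h1 <;> rcases zcases (g (b i)) with h2 | h2 <;>
      rw [h1, h2] at hne ⊢
    · exact absurd rfl hne
    · decide
    · decide
    · exact absurd rfl hne
  set q : Fin 3 → E → ZMod 2 := fun l => ind {e, a l, b l} with hq
  set w : E → ZMod 2 := g + ∑ l, g (a l) • q l with hw
  have hwR : w ∈ M.R := M.R.add_mem hg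
    (M.R.sum_mem fun l _ => M.R.smul_mem _ (hT.row l))
  have hw0 : ∀ x, x ∉ W7 e a b → w x = 0 := by
    intro x hx
    simp only [hw, hq, Pi.add_apply, Finset.sum_apply, Pi.smul_apply, smul_eq_mul,
      q_out _ hx, hg0 x hx, mul_zero, Finset.sum_const_zero, add_zero]
  have hwa : ∀ l, w (a l) = 0 := by
    intro l
    simp only [hw, hq, Pi.add_apply, Finset.sum_apply, Pi.smul_apply, smul_eq_mul, q_a hT]
    simp [z_add_self]
  have hwb : w (b i) = 1 := by
    simp only [hw, hq, Pi.add_apply, Finset.sum_apply, Pi.smul_apply, smul_eq_mul, q_b hT]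
    simp [hij]
  have hli : LinearIndependent (ZMod 2) (Fin.cons w q : Fin 4 → E → ZMod 2) := by
    refine linIndep_tri _ (Fin.cons (b i) a) (fun l => ?_) (fun l l' hl => ?_)
    · refine Fin.cases ?_ (fun l => ?_) l
      · simpa using hwb
      · simp only [Fin.cons_succ]
        simp only [hq, q_a hT, if_true]
    · revert hl
      refine Fin.cases ?_ (fun l => ?_) l
      · intro hl
        exact absurd hl (by simp)
      · refine Fin.cases ?_ (fun l' => ?_) l'
        · intro _
          simpa using hwa l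
        · intro hl
          simp only [Fin.cons_succ]
          simp only [hq, q_a hT]
          rw [if_neg]
          exact ne_of_gt (Fin.succ_lt_succ_iff.1 hl)
  have h2 := two_le hT h hc
  have h3 := lam_le M (W7 e a b) (W7_sub hT) ![zc e a, zc e b]
    (by
      intro l
      fin_cases l
      · exact zA_mem hT
      · exact zB_mem hT)
    (by
      intro l x hx
      fin_cases l
      · exact zA_out hx
      · exact zB_out hx)
    (z_li hT) (Fin.cons w q : Fin 4 → E → ZMod 2)
    (by
      intro l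
      refine Fin.cases ?_ (fun l => ?_) l
      · simpa using hwR
      · simpa [hq] using hT.row l)
    (by
      intro l x hx
      refine Fin.cases ?_ (fun l => ?_) l
      · simpa using hw0 x hx
      · simp only [Fin.cons_succ]
        exact q_out l hx) hli
  rw [W7_card hT] at h3
  omega

end SEY

end

section

/-!
LV-4b (project SEY, block LEVEL): outcome O2 (`TriT`) for `K4`: a nonzero row vanishing on `W7`.

`M0 = (M.del {e}).con {b 0, b 1, b 2}` has ground set `S - {e, b i}`, `HasT K4 M0` gives `A` in `M0.S` and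
`pi` onto `Fin 6`, so `|M0.S| >= 6`, `|S| >= 10`.
If `|S - W7| >= 4` use `exists_cycle_outside` (Link.lean) for `M.dual` (`M.dual` is TC, `lam` is self-dual,
`M.dual.Z = R`) and `TriT_lam`.
Otherwise `|S| = 10`, `|M0.S| = 6`, `A = M0.S` and `pi` is a bijection from `M0.S` to `Fin 6`.
`ind {a 0, a 1, a 2}` is a cycle of `M0` (a row `f` of `M0` comes from `f'` in `R`, `f' (b i) = 0`, `f' = f` off
`e`; `cycb` gives `f' e = 0`, `cyca` gives `f (a 0) + f (a 1) + f (a 2) = 0`), so by `Sub` there is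
`w : Fin 6 -> ZMod 2` orthogonal to the rows of `K4` with `w (pi x) = 1` exactly for `x = a i` (`x` in
`M0.S`); `w` has weight 3.  Finite check (decide on `Fin 6 -> ZMod 2`, 64 vectors): for each `w` of
weight 3 orthogonal to the rows of `K4`, the complement `1 - w` is orthogonal to all `w'` which are
orthogonal to the rows of `K4`.  So `f0 = ind (M0.S - {a i})` is orthogonal to all cycles of `M0` (by
`Sub`), so it is a row of `M0` (`BM.dual_dual`), so it comes from a row `f'` of `M` with `f' (b i) = 0`,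
`f' = f0` off `e`, and `f' e = f'(a 0) + f'(a 1) + f'(a 2) = 0` by `cyca`.  `f' <> 0` (three elements).
API of helper71: Pool/Agent/Helper71/SEYApi.lean.
-/

set_option autoImplicit false

namespace SEY

open Finset

variable {E : Type} [Fintype E] [DecidableEq E]

theorem triOut_par {w : Fin 6 → ZMod 2} (h : ∀ i, ∑ j, K4 i j * w j = 0) :
    w 2 = w 0 + w 1 ∧ w 4 = w 0 + w 3 ∧ w 5 = w 1 + w 3 := by
  have h0 := h 0
  have h1 := h 1
  have h2 := h 2
  simp [K4, grRows, K4e, Fin.sum_univ_succ] at h0 h1 h2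
  revert h0 h1 h2
  generalize w 0 = x0
  generalize w 1 = x1
  generalize w 2 = x2
  generalize w 3 = x3
  generalize w 4 = x4
  generalize w 5 = x5
  revert x0 x1 x2 x3 x4 x5
  decide

theorem triOut_check {w w' : Fin 6 → ZMod 2} (h : ∀ i, ∑ j, K4 i j * w j = 0)
    (h1 : ∑ j, w j = 1) (h' : ∀ i, ∑ j, K4 i j * w' j = 0) : ∑ j, (1 + w j) * w' j = 0 := by
  obtain ⟨a2, a4, a5⟩ := triOut_par h
  obtain ⟨b2, b4, b5⟩ := triOut_par h'
  have e1 : ∑ j, w j = w 0 + w 1 + w 2 + w 3 + w 4 + w 5 := Fin.sum_univ_six _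
  have e2 : ∑ j, (1 + w j) * w' j = (1 + w 0) * w' 0 + (1 + w 1) * w' 1 + (1 + w 2) * w' 2 +
      (1 + w 3) * w' 3 + (1 + w 4) * w' 4 + (1 + w 5) * w' 5 := Fin.sum_univ_six _
  rw [e1, a2, a4, a5] at h1
  rw [e2, a2, a4, a5, b2, b4, b5]
  revert h1
  generalize w 0 = x0
  generalize w 1 = x1
  generalize w 3 = x3
  generalize w' 0 = y0
  generalize w' 1 = y1
  generalize w' 3 = y3
  revert x0 x1 x3 y0 y1 y3
  decide

theorem triOut_card {e : E} {a b : Fin 3 → E} (hai : Function.Injective a)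
    (hbi : Function.Injective b) (hab : ∀ i j, a i ≠ b j) (hea : ∀ i, e ≠ a i)
    (heb : ∀ i, e ≠ b i) : (W7 e a b).card = 7 := by
  unfold W7
  rw [card_insert_of_notMem, card_union_of_disjoint, card_image_of_injective _ hai,
    card_image_of_injective _ hbi]
  · simp
  · rw [disjoint_left]
    intro x hx hx'
    rw [mem_image] at hx hx'
    obtain ⟨i, -, rfl⟩ := hx
    obtain ⟨j, -, hj⟩ := hx'
    exact hab i j hj.symm
  · intro hx
    rw [mem_union, mem_image, mem_image] at hx
    rcases hx with ⟨i, -, hi⟩ | ⟨i, -, hi⟩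
    · exact hea i hi.symm
    · exact heb i hi.symm

theorem TriT_outside (M : BM E) (h : M.TC) (e : E) (a b : Fin 3 → E)
    (hT : TriT K4 M e a b) : ∃ f ∈ M.R, f ≠ 0 ∧ ∀ x ∈ W7 e a b, f x = 0 := by
  obtain ⟨heS, haS, hbS⟩ := hT.mem
  obtain ⟨hai, hbi, hab, hea, heb⟩ := hT.inj
  obtain ⟨A, π, hAS, hsurj, hsub⟩ := hT.hasT
  have hW : W7 e a b ⊆ M.S := by
    intro x hx
    simp only [W7, mem_insert, mem_union, mem_image, mem_univ, true_and] at hx
    rcases hx with rfl | ⟨i, rfl⟩ | ⟨i, rfl⟩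
    · exact heS
    · exact haS i
    · exact hbS i
  have hWc := triOut_card hai hbi hab hea heb
  have hS0 : ∀ x, x ∈ (((M.del {e}).con {b 0, b 1, b 2}).S) ↔
      x ∈ M.S ∧ x ≠ e ∧ x ≠ b 0 ∧ x ≠ b 1 ∧ x ≠ b 2 := by
    intro x
    simp only [BM.con_S, BM.del_S, mem_sdiff, mem_singleton, mem_insert, not_or]
    tauto
  have h4 : ({e, b 0, b 1, b 2} : Finset E).card = 4 := by
    rw [card_insert_of_notMem, card_insert_of_notMem, card_insert_of_notMem, card_singleton]
    · rw [mem_singleton]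
      exact fun h1 => absurd (hbi h1) (by decide)
    · simp only [mem_insert, mem_singleton, not_or]
      exact ⟨fun h1 => absurd (hbi h1) (by decide), fun h1 => absurd (hbi h1) (by decide)⟩
    · simp only [mem_insert, mem_singleton, not_or]
      exact ⟨heb 0, heb 1, heb 2⟩
  have hS0c : (((M.del {e}).con {b 0, b 1, b 2}).S).card + 4 = M.S.card := by
    have h1 : ((M.del {e}).con {b 0, b 1, b 2}).S = M.S \ {e, b 0, b 1, b 2} := by
      ext x
      rw [hS0]
      simp only [mem_sdiff, mem_insert, mem_singleton, not_or]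
    rw [h1, card_sdiff_of_subset, h4]
    · have h2 : ({e, b 0, b 1, b 2} : Finset E) ⊆ M.S := by
        intro x hx
        simp only [mem_insert, mem_singleton] at hx
        rcases hx with rfl | rfl | rfl | rfl
        · exact heS
        · exact hbS 0
        · exact hbS 1
        · exact hbS 2
      have h3 := card_le_card h2
      rw [h4] at h3
      omega
    · intro x hx
      simp only [mem_insert, mem_singleton] at hx
      rcases hx with rfl | rfl | rfl | rfl
      · exact heS
      · exact hbS 0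
      · exact hbS 1
      · exact hbS 2
  have himg : A.image π = univ := by
    rw [eq_univ_iff_forall]
    intro i
    obtain ⟨x, hx, hxi⟩ := hsurj i
    exact mem_image.mpr ⟨x, hx, hxi⟩
  have hA6 : 6 ≤ A.card := by
    have h1 : (A.image π).card ≤ A.card := card_image_le
    rw [himg] at h1
    simpa using h1
  have hAc := card_le_card hAS
  have hS10 : 10 ≤ M.S.card := by omega
  by_cases hc : 4 ≤ (M.S \ W7 e a b).card
  · have h1 := exists_cycle_outside M.dual h.dual (W7 e a b) hW
      (by rw [BM.lam_dual]; exact TriT_lam K4 M h e a b hT (by omega)) hc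
    obtain ⟨z, hz, hz0, hz1⟩ := h1
    rw [BM.dual_Z] at hz
    exact ⟨z, hz, hz0, hz1⟩
  · have hSW := card_sdiff_add_card_eq_card hW
    have hAeq : A = ((M.del {e}).con {b 0, b 1, b 2}).S :=
      eq_of_subset_of_card_le hAS (by omega)
    have hA6' : A.card = 6 := by rw [hAeq]; omega
    have hinj : Set.InjOn π A := by
      rw [← card_image_iff, himg, hA6']
      rfl
    have hsum : ∀ g : Fin 6 → ZMod 2, ∑ j, g j = ∑ x ∈ A, g (π x) := by
      intro g
      rw [← himg, sum_image (fun x hx y hy hxy => hinj hx hy hxy)]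
    have haA : ∀ i, a i ∈ A := by
      intro i
      rw [hAeq, hS0]
      exact ⟨haS i, (hea i).symm, hab i 0, hab i 1, hab i 2⟩
    have hTA : ({a 0, a 1, a 2} : Finset E) ⊆ A := by
      intro x hx
      simp only [mem_insert, mem_singleton] at hx
      rcases hx with rfl | rfl | rfl
      · exact haA 0
      · exact haA 1
      · exact haA 2
    have hTc : ({a 0, a 1, a 2} : Finset E).card = 3 := by
      rw [card_insert_of_notMem, card_insert_of_notMem, card_singleton]
      · rw [mem_singleton]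
        exact fun h1 => absurd (hai h1) (by decide)
      · simp only [mem_insert, mem_singleton, not_or]
        exact ⟨fun h1 => absurd (hai h1) (by decide), fun h1 => absurd (hai h1) (by decide)⟩
    have hsumT : ∀ f : E → ZMod 2, ∑ x ∈ ({a 0, a 1, a 2} : Finset E), f x =
        f (a 0) + f (a 1) + f (a 2) := by
      intro f
      rw [sum_insert, sum_insert, sum_singleton, add_assoc]
      · rw [mem_singleton]
        exact fun h1 => absurd (hai h1) (by decide)
      · simp only [mem_insert, mem_singleton, not_or]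
        exact ⟨fun h1 => absurd (hai h1) (by decide), fun h1 => absurd (hai h1) (by decide)⟩
    have hmem : ∀ f ∈ M.R, f (b 0) = 0 → f (b 1) = 0 → f (b 2) = 0 → f e = 0 := by
      intro f hf h0 h1 h2
      have h3 := hT.cycb f hf
      rw [h0, h1, h2] at h3
      simpa using h3
    have hcyc : ind {a 0, a 1, a 2} ∈ ((M.del {e}).con {b 0, b 1, b 2}).Z := by
      rw [BM.mem_Z]
      refine ⟨fun x hx => ind_of_notMem (fun h1 => hx (hAeq ▸ hTA h1)), ?_⟩
      intro f hf
      rw [dot_ind, hsumT]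
      rw [BM.mem_con, BM.mem_del'] at hf
      obtain ⟨⟨_, g, hg, hgf⟩, hb0⟩ := hf
      have hgb : ∀ i, g (b i) = f (b i) := fun i =>
        hgf _ (mem_sdiff.mpr ⟨hbS i, fun h1 => heb i (mem_singleton.mp h1).symm⟩)
      have hga : ∀ i, g (a i) = f (a i) := fun i =>
        hgf _ (mem_sdiff.mpr ⟨haS i, fun h1 => hea i (mem_singleton.mp h1).symm⟩)
      have hge := hmem g hg (by rw [hgb]; exact hb0 _ (by simp))
        (by rw [hgb]; exact hb0 _ (by simp)) (by rw [hgb]; exact hb0 _ (by simp))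
      have h1 := hT.cyca g hg
      rw [hge, zero_add, hga, hga, hga] at h1
      exact h1
    obtain ⟨w, hw1, hw2⟩ := (hsub (ind {a 0, a 1, a 2})
      (fun x hx => ind_of_notMem (fun h1 => hx (hTA h1)))).1 hcyc
    have hwsum : ∑ j, w j = 1 := by
      rw [hsum, ← sum_congr rfl hw2]
      rw [show ∑ x ∈ A, (ind {a 0, a 1, a 2} : E → ZMod 2) x =
        dot (ind {a 0, a 1, a 2}) (ind A) from (dot_ind _ _).symm, dot_ind_ind,
        inter_eq_left.mpr hTA, hTc]
      decide
    have hrow : ind (A \ {a 0, a 1, a 2}) ∈ ((M.del {e}).con {b 0, b 1, b 2}).R := by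
      rw [BM.mem_R_iff]
      refine ⟨fun x hx => ind_of_notMem (fun h1 => hx (hAeq ▸ (mem_sdiff.mp h1).1)), ?_⟩
      intro z hz
      have hzA : ∀ x, x ∉ A → z x = 0 := fun x hx => BM.Z_supp _ hz (hAeq ▸ hx)
      obtain ⟨w', hw1', hw2'⟩ := (hsub z hzA).1 hz
      rw [dot_eq_sum_right hzA, ← triOut_check hw1 hwsum hw1', hsum]
      apply sum_congr rfl
      intro x hx
      rw [hw2' x hx, ← hw2 x hx]
      congr 1
      by_cases hxT : x ∈ ({a 0, a 1, a 2} : Finset E)
      · rw [ind_of_notMem (fun h1 => (mem_sdiff.mp h1).2 hxT), ind_of_mem hxT]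
        decide
      · rw [ind_of_mem (mem_sdiff.mpr ⟨hx, hxT⟩), ind_of_notMem hxT]
        decide
    rw [BM.mem_con, BM.mem_del'] at hrow
    obtain ⟨⟨_, g, hg, hgf⟩, _⟩ := hrow
    have hgb : ∀ i, g (b i) = 0 := by
      intro i
      rw [hgf _ (mem_sdiff.mpr ⟨hbS i, fun h1 => heb i (mem_singleton.mp h1).symm⟩)]
      apply ind_of_notMem
      intro h1
      have h2 := (mem_sdiff.mp h1).1
      rw [hAeq, hS0] at h2
      obtain ⟨_, _, h20, h21, h22⟩ := h2
      fin_cases i
      · exact h20 rfl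
      · exact h21 rfl
      · exact h22 rfl
    have hga : ∀ i, g (a i) = 0 := by
      intro i
      rw [hgf _ (mem_sdiff.mpr ⟨haS i, fun h1 => hea i (mem_singleton.mp h1).symm⟩)]
      apply ind_of_notMem
      intro h1
      apply (mem_sdiff.mp h1).2
      fin_cases i <;> simp
    refine ⟨g, hg, ?_, ?_⟩
    · intro hg0
      have h1 : (A \ {a 0, a 1, a 2}).card = 3 := by
        rw [card_sdiff_of_subset hTA, hTc, hA6']
      obtain ⟨x, hx⟩ := card_pos.mp (by omega : 0 < (A \ {a 0, a 1, a 2}).card)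
      have hxA := (mem_sdiff.mp hx).1
      rw [hAeq, hS0] at hxA
      have h2 := hgf x (mem_sdiff.mpr ⟨hxA.1, fun h3 => hxA.2.1 (mem_singleton.mp h3)⟩)
      rw [hg0, ind_of_mem hx, Pi.zero_apply] at h2
      exact absurd h2 (by decide)
    · intro x hx
      simp only [W7, mem_insert, mem_union, mem_image, mem_univ, true_and] at hx
      rcases hx with rfl | ⟨i, rfl⟩ | ⟨i, rfl⟩
      · exact hmem g hg (hgb 0) (hgb 1) (hgb 2)
      · exact hga i
      · exact hgb i

end SEY

end

section

/-!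
LV-4c (project SEY, block LEVEL): outcome O2 (`TriT`) for `K4` gives a `K5` minor of the dual.

Notation as in TriLam.lean.  Apply `SEY.delta` to `M.dual` and `W7` (its rows are the cycles of `M`;
`M.dual` TC, `lam` self-dual, `TriT_lam`, `TriT_outside` with `M.dual.Z = M.R` (`BM.dual_dual`)): `d, C` and
`K = {z in Z : z = 0 on C}`.  `guts` for `M.dual` with `P 0 = {a 1, a 2}`, `P 1 = {a 0, a 2}`,
`P 2 = {a 0, a 1}` (`hP` clear, `hPR` = `TriT_cyc`, `hPne` = `TC_cyc_sep`) gives `sigma` with
`z (d (sigma 2)) = z (a 0) + z (a 1)` etc. on `K`.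
HasMinor K5 (M.dual) with `C` and (edges 01,02,03,04,12,13,14,23,24,34 of `K5e`)
`phi = ![a 0, a 1, a 2, e, d (sigma 2), d (sigma 1), b 0, d (sigma 0), b 1, b 2]`.
Second condition: for `z` in `K` put `x = z o phi`: `x 6 = x 0 + x 3`, `x 8 = x 1 + x 3`,
`x 9 = x 2 + x 3` (rows `q_i`), `x 4 = x 0 + x 1`, `x 5 = x 0 + x 2`, `x 7 = x 1 + x 2`; the coefficients
of the five vertex stars are `c = ![0, x 0, x 1, x 2, x 3]`.
First condition: given the star row `y` of a vertex, take by (D4) `z` in `K` with the right values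
at the `d`'s; then `z (a i) + z (a j) = y_i + y_j`, so `z (a i) = y_i + s` with a constant `s`;
replace `z` by `z + s zA` (`zA` vanishes on `C` and on the `d`'s), so `z (a i) = y_i`; then add `zB`
if necessary to get `z e = y 3`; the values at `b i` follow from the rows `q_i`.
-/

set_option autoImplicit false

namespace SEY

open Finset

variable {E : Type} [Fintype E] [DecidableEq E]

private theorem TriT_card (M : BM E) (e : E) (a b : Fin 3 → E) (hT : TriT K4 M e a b) :
    10 ≤ M.S.card := by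
  obtain ⟨A, π, hA, hπ, -⟩ := hT.hasT
  have h6 : 6 ≤ A.card := by
    have h1 : (Finset.univ : Finset (Fin 6)) ⊆ A.image π := by
      intro i _
      obtain ⟨x, hx, hxi⟩ := hπ i
      exact Finset.mem_image.2 ⟨x, hx, hxi⟩
    have h2 := Finset.card_le_card h1
    have h3 : (A.image π).card ≤ A.card := Finset.card_image_le
    have h4 : (Finset.univ : Finset (Fin 6)).card = 6 := by simp
    omega
  have hd : Disjoint A ({e, b 0, b 1, b 2} : Finset E) := by
    rw [Finset.disjoint_left]
    intro x hx hx2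
    have h1 := hA hx
    rw [BM.con_S, BM.del_S, Finset.mem_sdiff, Finset.mem_sdiff, Finset.mem_singleton] at h1
    rw [Finset.mem_insert] at hx2
    rcases hx2 with h2 | h2
    · exact h1.1.2 h2
    · exact h1.2 h2
  have hsub : A ∪ ({e, b 0, b 1, b 2} : Finset E) ⊆ M.S := by
    intro x hx
    rw [Finset.mem_union] at hx
    rcases hx with hx | hx
    · have h1 := hA hx
      rw [BM.con_S, BM.del_S, Finset.mem_sdiff, Finset.mem_sdiff] at h1
      exact h1.1.1
    · simp only [Finset.mem_insert, Finset.mem_singleton] at hx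
      rcases hx with rfl | rfl | rfl | rfl
      · exact hT.mem.1
      · exact hT.mem.2.2 0
      · exact hT.mem.2.2 1
      · exact hT.mem.2.2 2
  have h4 : ({e, b 0, b 1, b 2} : Finset E).card = 4 := by
    have hb := hT.inj.2.1
    have he := hT.inj.2.2.2.2
    rw [Finset.card_insert_of_notMem, Finset.card_insert_of_notMem, Finset.card_insert_of_notMem,
      Finset.card_singleton]
    · rw [Finset.mem_singleton]
      exact fun h => absurd (hb h) (by decide)
    · rw [Finset.mem_insert, Finset.mem_singleton, not_or]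
      exact ⟨fun h => absurd (hb h) (by decide), fun h => absurd (hb h) (by decide)⟩
    · rw [Finset.mem_insert, Finset.mem_insert, Finset.mem_singleton, not_or, not_or]
      exact ⟨he 0, he 1, he 2⟩
  have h5 := Finset.card_le_card hsub
  rw [Finset.card_union_of_disjoint hd, h4] at h5
  omega

omit [Fintype E] in
private theorem sum_four {x : E} {c : Fin 3 → E} (hc : Function.Injective c) (hx : ∀ i, x ≠ c i)
    (f : E → ZMod 2) : ∑ y ∈ ({x, c 0, c 1, c 2} : Finset E), f y = f x + f (c 0) + f (c 1) + f (c 2) := by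
  rw [Finset.sum_insert, Finset.sum_insert, Finset.sum_insert, Finset.sum_singleton]
  · ring
  · rw [Finset.mem_singleton]
    exact fun h => absurd (hc h) (by decide)
  · rw [Finset.mem_insert, Finset.mem_singleton, not_or]
    exact ⟨fun h => absurd (hc h) (by decide), fun h => absurd (hc h) (by decide)⟩
  · rw [Finset.mem_insert, Finset.mem_insert, Finset.mem_singleton, not_or, not_or]
    exact ⟨hx 0, hx 1, hx 2⟩

omit [Fintype E] in
private theorem mem_W7 {e : E} {a b : Fin 3 → E} {x : E} :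
    x ∈ W7 e a b ↔ x = e ∨ (∃ i, a i = x) ∨ ∃ i, b i = x := by
  unfold W7
  rw [Finset.mem_insert, Finset.mem_union, Finset.mem_image, Finset.mem_image]
  simp only [Finset.mem_univ, true_and]

theorem TriT_K5 (M : BM E) (h : M.TC) (e : E) (a b : Fin 3 → E)
    (hT : TriT K4 M e a b) : HasMinor K5 M.dual := by
  have hc10 := TriT_card M e a b hT
  have hc9 : 9 ≤ M.S.card := by omega
  have hT' := hT
  obtain ⟨⟨heS, haS, hbS⟩, ⟨hai, hbi, hab, hea, heb⟩, hrow, hcyca, hcycb, -, -⟩ := hT
  have hWS : W7 e a b ⊆ M.S := by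
    intro x hx
    rcases mem_W7.1 hx with rfl | ⟨i, rfl⟩ | ⟨i, rfl⟩
    · exact heS
    · exact haS i
    · exact hbS i
  have heW : e ∈ W7 e a b := mem_W7.2 (Or.inl rfl)
  have haW : ∀ i, a i ∈ W7 e a b := fun i => mem_W7.2 (Or.inr (Or.inl ⟨i, rfl⟩))
  have hbW : ∀ i, b i ∈ W7 e a b := fun i => mem_W7.2 (Or.inr (Or.inr ⟨i, rfl⟩))
  have hlam : M.dual.lam (W7 e a b) = 2 := by
    rw [BM.lam_dual]
    exact TriT_lam K4 M h e a b hT' hc9
  obtain ⟨d, C, hdi, hd, hCS, hCW, hD1, hD2, hD3, hD4⟩ := delta M.dual h.dual (W7 e a b) hWS hlam (by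
    rw [BM.dual_Z]
    exact TriT_outside M h e a b hT')
  have hpair : ∀ i j : Fin 3, i ≠ j → ∀ f : E → ZMod 2,
      ∑ x ∈ ({a i, a j} : Finset E), f x = f (a i) + f (a j) := by
    intro i j hij f
    rw [Finset.sum_insert, Finset.sum_singleton]
    rw [Finset.mem_singleton]
    exact fun h => hij (hai h)
  obtain ⟨σ, hσi, hσ⟩ := guts M.dual (W7 e a b) C d hD1 hD2 hD3 hD4
    (![{a 1, a 2}, {a 0, a 2}, {a 0, a 1}])
    (by
      intro i
      fin_cases i <;> (intro x hx; simp only [Fin.zero_eta, Fin.mk_one, Fin.reduceFinMk,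
        Matrix.cons_val_zero, Matrix.cons_val_one, Matrix.cons_val, Finset.mem_insert,
        Finset.mem_singleton] at hx; rcases hx with rfl | rfl <;> exact haW _))
    (by
      intro f _
      simp only [Matrix.cons_val_zero, Matrix.cons_val_one, Matrix.cons_val]
      rw [hpair 1 2 (by decide), hpair 0 2 (by decide), hpair 0 1 (by decide)]
      generalize f (a 0) = x
      generalize f (a 1) = y
      generalize f (a 2) = z
      revert x y z
      decide)
    (by
      intro g hg hg0 i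
      have hcyc : ∀ i j : Fin 3, g (a i) = g (a j) := fun i j =>
        TriT_cyc K4 M h e a b hT' hc9 g hg hg0 i j
      fin_cases i <;> simp only [Fin.zero_eta, Fin.mk_one, Fin.reduceFinMk,
        Matrix.cons_val_zero, Matrix.cons_val_one, Matrix.cons_val]
      · rw [hpair 1 2 (by decide), hcyc 1 2]
        exact z_add_self _
      · rw [hpair 0 2 (by decide), hcyc 0 2]
        exact z_add_self _
      · rw [hpair 0 1 (by decide), hcyc 0 1]
        exact z_add_self _)
    (by
      have key : ∀ i j : Fin 3, i ≠ j → ∃ f ∈ M.Z, f (a i) + f (a j) ≠ 0 := by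
        intro i j hij
        obtain ⟨z, hz, hne⟩ := TC_cyc_sep h (haS i) (haS j) (fun h => hij (hai h))
        exact ⟨z, hz, fun h => hne (z_add_eq_zero.1 h)⟩
      intro i
      fin_cases i <;> simp only [Fin.zero_eta, Fin.mk_one, Fin.reduceFinMk,
        Matrix.cons_val_zero, Matrix.cons_val_one, Matrix.cons_val]
      · obtain ⟨f, hf, hf'⟩ := key 1 2 (by decide)
        exact ⟨f, hf, by rw [hpair 1 2 (by decide)]; exact hf'⟩
      · obtain ⟨f, hf, hf'⟩ := key 0 2 (by decide)
        exact ⟨f, hf, by rw [hpair 0 2 (by decide)]; exact hf'⟩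
      · obtain ⟨f, hf, hf'⟩ := key 0 1 (by decide)
        exact ⟨f, hf, by rw [hpair 0 1 (by decide)]; exact hf'⟩)
  have hσ0 : ∀ f ∈ M.Z, (∀ c ∈ C, f c = 0) → f (d (σ 0)) = f (a 1) + f (a 2) := by
    intro f hf hf0
    rw [hσ f hf hf0 0]
    simp only [Matrix.cons_val_zero]
    exact hpair 1 2 (by decide) f
  have hσ1 : ∀ f ∈ M.Z, (∀ c ∈ C, f c = 0) → f (d (σ 1)) = f (a 0) + f (a 2) := by
    intro f hf hf0
    rw [hσ f hf hf0 1]
    simp only [Matrix.cons_val_one, Matrix.cons_val_zero]
    exact hpair 0 2 (by decide) f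
  have hσ2 : ∀ f ∈ M.Z, (∀ c ∈ C, f c = 0) → f (d (σ 2)) = f (a 0) + f (a 1) := by
    intro f hf hf0
    rw [hσ f hf hf0 2]
    simp only [Matrix.cons_val]
    exact hpair 0 1 (by decide) f
  -- the rows q_i
  have hq : ∀ f ∈ M.Z, ∀ i, f (b i) = f e + f (a i) := by
    intro f hf i
    have h1 := hf.2 _ (hrow i)
    rw [ind_dot, Finset.sum_insert, Finset.sum_insert, Finset.sum_singleton] at h1
    · revert h1
      generalize f e = x
      generalize f (a i) = y
      generalize f (b i) = z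
      revert x y z
      decide
    · rw [Finset.mem_singleton]
      exact hab i i
    · rw [Finset.mem_insert, Finset.mem_singleton, not_or]
      exact ⟨hea i, heb i⟩
  -- the cycles zA, zB
  have hzA : ind ({e, a 0, a 1, a 2} : Finset E) ∈ M.Z := by
    refine ⟨fun x hx => ind_of_notMem fun hx' => hx ?_, fun f hf => ?_⟩
    · simp only [Finset.mem_insert, Finset.mem_singleton] at hx'
      rcases hx' with rfl | rfl | rfl | rfl
      · exact heS
      · exact haS _
      · exact haS _
      · exact haS _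
    · rw [dot_ind, sum_four hai hea]
      exact hcyca f hf
  have hzB : ind ({e, b 0, b 1, b 2} : Finset E) ∈ M.Z := by
    refine ⟨fun x hx => ind_of_notMem fun hx' => hx ?_, fun f hf => ?_⟩
    · simp only [Finset.mem_insert, Finset.mem_singleton] at hx'
      rcases hx' with rfl | rfl | rfl | rfl
      · exact heS
      · exact hbS _
      · exact hbS _
      · exact hbS _
    · rw [dot_ind, sum_four hbi heb]
      exact hcycb f hf
  have hzAC : ∀ c ∈ C, (ind ({e, a 0, a 1, a 2} : Finset E) : E → ZMod 2) c = 0 := by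
    intro c hc
    refine ind_of_notMem fun hc' => Finset.disjoint_left.1 hCW hc ?_
    simp only [Finset.mem_insert, Finset.mem_singleton] at hc'
    rcases hc' with rfl | rfl | rfl | rfl
    · exact heW
    · exact haW _
    · exact haW _
    · exact haW _
  have hzBC : ∀ c ∈ C, (ind ({e, b 0, b 1, b 2} : Finset E) : E → ZMod 2) c = 0 := by
    intro c hc
    refine ind_of_notMem fun hc' => Finset.disjoint_left.1 hCW hc ?_
    simp only [Finset.mem_insert, Finset.mem_singleton] at hc'
    rcases hc' with rfl | rfl | rfl | rfl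
    · exact heW
    · exact hbW _
    · exact hbW _
    · exact hbW _
  have hzAa : ∀ i, (ind ({e, a 0, a 1, a 2} : Finset E) : E → ZMod 2) (a i) = 1 := by
    intro i
    refine ind_of_mem ?_
    simp only [Finset.mem_insert, Finset.mem_singleton]
    fin_cases i
    · exact Or.inr (Or.inl rfl)
    · exact Or.inr (Or.inr (Or.inl rfl))
    · exact Or.inr (Or.inr (Or.inr rfl))
  have hzBa : ∀ i, (ind ({e, b 0, b 1, b 2} : Finset E) : E → ZMod 2) (a i) = 0 := by
    intro i
    refine ind_of_notMem ?_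
    simp only [Finset.mem_insert, Finset.mem_singleton, not_or]
    exact ⟨(hea i).symm, hab i 0, hab i 1, hab i 2⟩
  have hzBe : (ind ({e, b 0, b 1, b 2} : Finset E) : E → ZMod 2) e = 1 :=
    ind_of_mem (Finset.mem_insert_self _ _)
  -- all values on a 0, a 1, a 2, e occur
  have hX : ∀ t : Fin 4 → ZMod 2, ∃ z ∈ M.Z, (∀ c ∈ C, z c = 0) ∧ z (a 0) = t 0 ∧
      z (a 1) = t 1 ∧ z (a 2) = t 2 ∧ z e = t 3 := by
    intro t
    let τ : Fin 3 ≃ Fin 3 := Equiv.ofBijective σ (Finite.injective_iff_bijective.1 hσi)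
    let s : Fin 3 → ZMod 2 := ![t 1 + t 2, t 0 + t 2, t 0 + t 1]
    obtain ⟨z, hz, hz0, hzd⟩ := hD4 (fun j => s (τ.symm j)) (by
      have h1 : ∑ j, s (τ.symm j) = ∑ j, s j := Equiv.sum_comp τ.symm s
      rw [Fin.sum_univ_three, Fin.sum_univ_three] at h1
      rw [h1]
      show t 1 + t 2 + (t 0 + t 2) + (t 0 + t 1) = 0
      generalize t 0 = x
      generalize t 1 = y
      generalize t 2 = w
      revert x y w
      decide)
    have hzs : ∀ i, z (d (σ i)) = s i := by
      intro i
      rw [hzd (σ i)]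
      show s (τ.symm (τ i)) = s i
      rw [Equiv.symm_apply_apply]
    have e0 : z (a 1) + z (a 2) = t 1 + t 2 := (hσ0 z hz hz0).symm.trans (hzs 0)
    have e1 : z (a 0) + z (a 2) = t 0 + t 2 := (hσ1 z hz hz0).symm.trans (hzs 1)
    refine ⟨z + (z (a 0) + t 0) • ind ({e, a 0, a 1, a 2} : Finset E) +
      ((z + (z (a 0) + t 0) • ind ({e, a 0, a 1, a 2} : Finset E)) e + t 3) •
        ind ({e, b 0, b 1, b 2} : Finset E), ?_, ?_, ?_, ?_, ?_, ?_⟩
    · exact M.Z.add_mem (M.Z.add_mem hz (M.Z.smul_mem _ hzA)) (M.Z.smul_mem _ hzB)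
    · intro c hc
      simp only [Pi.add_apply, Pi.smul_apply, smul_eq_mul]
      rw [hz0 c hc, hzAC c hc, hzBC c hc]
      ring
    · simp only [Pi.add_apply, Pi.smul_apply, smul_eq_mul]
      rw [hzAa 0, hzBa 0]
      generalize z (a 0) = x
      generalize t 0 = y
      rw [mul_zero, mul_one, add_zero]
      revert x y
      decide
    · simp only [Pi.add_apply, Pi.smul_apply, smul_eq_mul]
      rw [hzAa 1, hzBa 1]
      rw [mul_zero, mul_one, add_zero]
      revert e0 e1
      generalize z (a 0) = x0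
      generalize z (a 1) = x1
      generalize z (a 2) = x2
      generalize t 0 = y0
      generalize t 1 = y1
      generalize t 2 = y2
      revert x0 x1 x2 y0 y1 y2
      decide
    · simp only [Pi.add_apply, Pi.smul_apply, smul_eq_mul]
      rw [hzAa 2, hzBa 2]
      rw [mul_zero, mul_one, add_zero]
      revert e0 e1
      generalize z (a 0) = x0
      generalize z (a 1) = x1
      generalize z (a 2) = x2
      generalize t 0 = y0
      generalize t 1 = y1
      generalize t 2 = y2
      revert x0 x1 x2 y0 y1 y2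
      decide
    · rw [Pi.add_apply, Pi.smul_apply, hzBe, smul_eq_mul, mul_one]
      generalize (z + (z (a 0) + t 0) • ind ({e, a 0, a 1, a 2} : Finset E)) e = x
      generalize t 3 = y
      revert x y
      decide
  -- coordinates of the elements of K
  have hcoord : ∀ z ∈ M.Z, (∀ c ∈ C, z c = 0) → ∀ c : Fin 5 → ZMod 2,
      z (a 0) = c 0 + c 1 → z (a 1) = c 0 + c 2 → z (a 2) = c 0 + c 3 → z e = c 0 + c 4 →
      ∀ j, z ((![a 0, a 1, a 2, e, d (σ 2), d (σ 1), b 0, d (σ 0), b 1, b 2] : Fin 10 → E) j)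
        = ∑ i, c i * K5 i j := by
    intro z hz hz0 c h0 h1 h2 h3 j
    have e0 := hσ0 z hz hz0
    have e1 := hσ1 z hz hz0
    have e2 := hσ2 z hz hz0
    have q0 := hq z hz 0
    have q1 := hq z hz 1
    have q2 := hq z hz 2
    rw [h1, h2] at e0
    rw [h0, h2] at e1
    rw [h0, h1] at e2
    rw [h3, h0] at q0
    rw [h3, h1] at q1
    rw [h3, h2] at q2
    rw [Fin.sum_univ_five]
    fin_cases j
    · show z (a 0) = c 0 * K5 0 0 + c 1 * K5 1 0 + c 2 * K5 2 0 + c 3 * K5 3 0 + c 4 * K5 4 0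
      rw [h0]
      generalize c 0 = c0
      generalize c 1 = c1
      generalize c 2 = c2
      generalize c 3 = c3
      generalize c 4 = c4
      revert c0 c1 c2 c3 c4
      decide
    · show z (a 1) = c 0 * K5 0 1 + c 1 * K5 1 1 + c 2 * K5 2 1 + c 3 * K5 3 1 + c 4 * K5 4 1
      rw [h1]
      generalize c 0 = c0
      generalize c 1 = c1
      generalize c 2 = c2
      generalize c 3 = c3
      generalize c 4 = c4
      revert c0 c1 c2 c3 c4
      decide
    · show z (a 2) = c 0 * K5 0 2 + c 1 * K5 1 2 + c 2 * K5 2 2 + c 3 * K5 3 2 + c 4 * K5 4 2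
      rw [h2]
      generalize c 0 = c0
      generalize c 1 = c1
      generalize c 2 = c2
      generalize c 3 = c3
      generalize c 4 = c4
      revert c0 c1 c2 c3 c4
      decide
    · show z e = c 0 * K5 0 3 + c 1 * K5 1 3 + c 2 * K5 2 3 + c 3 * K5 3 3 + c 4 * K5 4 3
      rw [h3]
      generalize c 0 = c0
      generalize c 1 = c1
      generalize c 2 = c2
      generalize c 3 = c3
      generalize c 4 = c4
      revert c0 c1 c2 c3 c4
      decide
    · show z (d (σ 2)) = c 0 * K5 0 4 + c 1 * K5 1 4 + c 2 * K5 2 4 + c 3 * K5 3 4 + c 4 * K5 4 4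
      rw [e2]
      generalize c 0 = c0
      generalize c 1 = c1
      generalize c 2 = c2
      generalize c 3 = c3
      generalize c 4 = c4
      revert c0 c1 c2 c3 c4
      decide
    · show z (d (σ 1)) = c 0 * K5 0 5 + c 1 * K5 1 5 + c 2 * K5 2 5 + c 3 * K5 3 5 + c 4 * K5 4 5
      rw [e1]
      generalize c 0 = c0
      generalize c 1 = c1
      generalize c 2 = c2
      generalize c 3 = c3
      generalize c 4 = c4
      revert c0 c1 c2 c3 c4
      decide
    · show z (b 0) = c 0 * K5 0 6 + c 1 * K5 1 6 + c 2 * K5 2 6 + c 3 * K5 3 6 + c 4 * K5 4 6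
      rw [q0]
      generalize c 0 = c0
      generalize c 1 = c1
      generalize c 2 = c2
      generalize c 3 = c3
      generalize c 4 = c4
      revert c0 c1 c2 c3 c4
      decide
    · show z (d (σ 0)) = c 0 * K5 0 7 + c 1 * K5 1 7 + c 2 * K5 2 7 + c 3 * K5 3 7 + c 4 * K5 4 7
      rw [e0]
      generalize c 0 = c0
      generalize c 1 = c1
      generalize c 2 = c2
      generalize c 3 = c3
      generalize c 4 = c4
      revert c0 c1 c2 c3 c4
      decide
    · show z (b 1) = c 0 * K5 0 8 + c 1 * K5 1 8 + c 2 * K5 2 8 + c 3 * K5 3 8 + c 4 * K5 4 8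
      rw [q1]
      generalize c 0 = c0
      generalize c 1 = c1
      generalize c 2 = c2
      generalize c 3 = c3
      generalize c 4 = c4
      revert c0 c1 c2 c3 c4
      decide
    · show z (b 2) = c 0 * K5 0 9 + c 1 * K5 1 9 + c 2 * K5 2 9 + c 3 * K5 3 9 + c 4 * K5 4 9
      rw [q2]
      generalize c 0 = c0
      generalize c 1 = c1
      generalize c 2 = c2
      generalize c 3 = c3
      generalize c 4 = c4
      revert c0 c1 c2 c3 c4
      decide
  have hdW : ∀ i, d i ∉ W7 e a b := fun i => (hd i).2.1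
  have hda : ∀ i j, d i ≠ a j := fun i j h => hdW i (h ▸ haW j)
  have hdb : ∀ i j, d i ≠ b j := fun i j h => hdW i (h ▸ hbW j)
  have hde : ∀ i, d i ≠ e := fun i h => hdW i (h ▸ heW)
  have hσ01 : d (σ 0) ≠ d (σ 1) := fun h => absurd (hσi (hdi h)) (by decide)
  have hσ02 : d (σ 0) ≠ d (σ 2) := fun h => absurd (hσi (hdi h)) (by decide)
  have hσ12 : d (σ 1) ≠ d (σ 2) := fun h => absurd (hσi (hdi h)) (by decide)
  have ha01 : a 0 ≠ a 1 := fun h => absurd (hai h) (by decide)
  have ha02 : a 0 ≠ a 2 := fun h => absurd (hai h) (by decide)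
  have ha12 : a 1 ≠ a 2 := fun h => absurd (hai h) (by decide)
  have hb01 : b 0 ≠ b 1 := fun h => absurd (hbi h) (by decide)
  have hb02 : b 0 ≠ b 2 := fun h => absurd (hbi h) (by decide)
  have hb12 : b 1 ≠ b 2 := fun h => absurd (hbi h) (by decide)
  refine ⟨![a 0, a 1, a 2, e, d (σ 2), d (σ 1), b 0, d (σ 0), b 1, b 2], C, ?_, ?_, hCS, ?_, ?_, ?_⟩
  · rw [← List.nodup_ofFn]
    simp only [List.ofFn_succ, List.ofFn_zero, Matrix.cons_val_zero, Matrix.cons_val_succ,
      List.nodup_cons, List.mem_cons, List.not_mem_nil, or_false, not_or, List.nodup_nil,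
      not_false_eq_true, and_true]
    exact ⟨⟨ha01, ha02, (hea 0).symm, (hda _ _).symm, (hda _ _).symm, hab _ _, (hda _ _).symm,
        hab _ _, hab _ _⟩,
      ⟨ha12, (hea 1).symm, (hda _ _).symm, (hda _ _).symm, hab _ _, (hda _ _).symm,
        hab _ _, hab _ _⟩,
      ⟨(hea 2).symm, (hda _ _).symm, (hda _ _).symm, hab _ _, (hda _ _).symm,
        hab _ _, hab _ _⟩,
      ⟨(hde _).symm, (hde _).symm, heb _, (hde _).symm, heb _, heb _⟩,
      ⟨hσ12.symm, hdb _ _, hσ02.symm, hdb _ _, hdb _ _⟩,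
      ⟨hdb _ _, hσ01.symm, hdb _ _, hdb _ _⟩,
      ⟨(hdb _ _).symm, hb01, hb02⟩,
      ⟨hdb _ _, hdb _ _⟩,
      hb12⟩
  · intro j
    fin_cases j
    · exact haS 0
    · exact haS 1
    · exact haS 2
    · exact heS
    · exact (hd (σ 2)).1
    · exact (hd (σ 1)).1
    · exact hbS 0
    · exact (hd (σ 0)).1
    · exact hbS 1
    · exact hbS 2
  · have hCn : ∀ x ∈ W7 e a b, x ∉ C := fun x hx hxC => Finset.disjoint_left.1 hCW hxC hx
    intro j
    fin_cases j
    · exact hCn _ (haW 0)
    · exact hCn _ (haW 1)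
    · exact hCn _ (haW 2)
    · exact hCn _ heW
    · exact (hd (σ 2)).2.2
    · exact (hd (σ 1)).2.2
    · exact hCn _ (hbW 0)
    · exact (hd (σ 0)).2.2
    · exact hCn _ (hbW 1)
    · exact hCn _ (hbW 2)
  · intro i
    let c : Fin 5 → ZMod 2 := Pi.single i 1
    obtain ⟨z, hz, hz0, z0, z1, z2, z3⟩ := hX ![c 0 + c 1, c 0 + c 2, c 0 + c 3, c 0 + c 4]
    refine ⟨z, hz, hz0, fun j => ?_⟩
    rw [hcoord z hz hz0 c z0 z1 z2 z3 j]
    rw [Finset.sum_eq_single i]
    · rw [show c i = 1 from Pi.single_eq_same i 1, one_mul]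
    · intro k _ hk
      rw [show c k = 0 from Pi.single_eq_of_ne hk 1, zero_mul]
    · intro hi
      exact absurd (Finset.mem_univ i) hi
  · intro z hz hz0
    refine ⟨![0, z (a 0), z (a 1), z (a 2), z e], ?_⟩
    refine hcoord z hz hz0 _ ?_ ?_ ?_ ?_
    · show z (a 0) = 0 + z (a 0)
      rw [zero_add]
    · show z (a 1) = 0 + z (a 1)
      rw [zero_add]
    · show z (a 2) = 0 + z (a 2)
      rw [zero_add]
    · show z e = 0 + z e
      rw [zero_add]

end SEY

end

section

/-!
LV-6 (project SEY, block LEVEL): in outcome O2 (`TriT`) contracting `e` gives the grid `K33s` on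
`{a i, b i, d i}`.

`|S - W7| >= 4`, so `exists_cycle_outside` (Link.lean) and `TriT_lam` give a cycle outside, and
`SEY.delta` for `W7` gives `d, C` with (D1)-(D4); `K = {f in R : f = 0 on C}`.  `guts` with
`P i = {a i, b i}`: `hP`: `sum_i (f (a i) + f (b i)) = f e + f e = 0` by `cyca`, `cycb`; `hPR`: `TriT_row`; `hPne`:
`TC_row_sep`.  So there is an injective `sigma` with `f (d (sigma i)) = f (a i) + f (b i)` on `K`.
Put `phi = ![a 0, a 1, a 2, b 0, b 1, b 2, d (sigma 0), d (sigma 1), d (sigma 2)]`, `C` as it is.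
(`C` avoids `W7`, in particular `e`, and `d i <> e`.)
Rows of `M.con {e}` = rows `f` of `M` with `f e = 0`.
Second condition: `f in K`, `f e = 0`, `x = f o phi`: `x0+x1+x2 = 0`, `x3+x4+x5 = 0`, `x6 = x0+x3`,
`x7 = x1+x4`, `x8 = x2+x5`: coefficients `![x 4, x 5, x 7, x 8]`.
First condition: let `y` be a row of `K33s` (or any `y` with these five relations).  Take by (D4) `f in K`
with `f (d (sigma i)) = y_(6+i) = y_i + y_(3+i)`.  Put `c_i = f (a i) + y_i` and
`f' = f + sum_i c_i ind {e, a i, b i}`; then `f' (a i) = y_i`,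
`f' (b i) = f (b i) + f (a i) + y_i = y_(3+i)`, the values on `C` and at the `d`'s are unchanged, and
`f' e = f' (a 0) + f' (a 1) + f' (a 2) = y_0 + y_1 + y_2 = 0` by `cyca`.
-/

set_option autoImplicit false

namespace SEY

open Finset

variable {E : Type} [Fintype E] [DecidableEq E]

namespace TriConAux

theorem key : ∀ a1 a2 b1 b2 : ZMod 2, ∀ j : Fin 9,
    (![a1 + a2, a1, a2, b1 + b2, b1, b2, (a1 + a2) + (b1 + b2), a1 + b1, a2 + b2] :
      Fin 9 → ZMod 2) j = ∑ i, (![b1, b2, a1 + b1, a2 + b2] : Fin 4 → ZMod 2) i * K33s i j := by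
  decide

theorem rel : ∀ i : Fin 4, K33s i 0 + K33s i 1 + K33s i 2 = 0 ∧
    K33s i 3 + K33s i 4 + K33s i 5 = 0 ∧ K33s i 6 = K33s i 0 + K33s i 3 ∧
    K33s i 7 = K33s i 1 + K33s i 4 ∧ K33s i 8 = K33s i 2 + K33s i 5 := by
  decide

theorem eq_add {x y z : ZMod 2} (h : x + y + z = 0) : x = y + z := by
  revert x y z
  decide

theorem eq_three {w x y z : ZMod 2} (h : w + x + y + z = 0) (h' : w = 0) : x = y + z := by
  subst h'
  rw [zero_add] at h
  exact eq_add h

/-- nine distinct elements -/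
theorem inj9 {α : Type} (a b c : Fin 3 → α) (ha : Function.Injective a)
    (hb : Function.Injective b) (hc : Function.Injective c) (hab : ∀ i j, a i ≠ b j)
    (hac : ∀ i j, a i ≠ c j) (hbc : ∀ i j, b i ≠ c j) :
    Function.Injective (![a 0, a 1, a 2, b 0, b 1, b 2, c 0, c 1, c 2] : Fin 9 → α) := by
  have hψ : ∀ i : Fin 9, (![a 0, a 1, a 2, b 0, b 1, b 2, c 0, c 1, c 2] : Fin 9 → α) i =
      (![a, b, c] : Fin 3 → Fin 3 → α) ⟨i.1 / 3, by omega⟩ ⟨i.1 % 3, by omega⟩ := by
    intro i
    fin_cases i <;> rfl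
  have h2 : ∀ p p' q q' : Fin 3, (![a, b, c] : Fin 3 → Fin 3 → α) p q =
      (![a, b, c] : Fin 3 → Fin 3 → α) p' q' → p = p' ∧ q = q' := by
    intro p p' q q' h
    fin_cases p <;> fin_cases p'
    · exact ⟨rfl, ha h⟩
    · exact absurd h (hab q q')
    · exact absurd h (hac q q')
    · exact absurd h.symm (hab q' q)
    · exact ⟨rfl, hb h⟩
    · exact absurd h (hbc q q')
    · exact absurd h.symm (hac q' q)
    · exact absurd h.symm (hbc q' q)
    · exact ⟨rfl, hc h⟩
  intro i j hij
  rw [hψ i, hψ j] at hij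
  obtain ⟨h3, h4⟩ := h2 _ _ _ _ hij
  have h5 : i.1 / 3 = j.1 / 3 := congrArg Fin.val h3
  have h6 : i.1 % 3 = j.1 % 3 := congrArg Fin.val h4
  apply Fin.ext
  omega

theorem all9 {α : Type} (a b c : Fin 3 → α) (P : α → Prop) (ha : ∀ i, P (a i))
    (hb : ∀ i, P (b i)) (hc : ∀ i, P (c i)) (i : Fin 9) :
    P ((![a 0, a 1, a 2, b 0, b 1, b 2, c 0, c 1, c 2] : Fin 9 → α) i) := by
  fin_cases i
  · exact ha 0
  · exact ha 1
  · exact ha 2
  · exact hb 0
  · exact hb 1
  · exact hb 2
  · exact hc 0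
  · exact hc 1
  · exact hc 2

end TriConAux

open TriConAux TriLamAux

theorem TriT_grid {r k : ℕ} (rows : Fin r → Fin k → ZMod 2) (M : BM E) (h : M.TC) (e : E)
    (a b : Fin 3 → E) (hT : TriT rows M e a b) (hc : 11 ≤ M.S.card) :
    ∃ (d : Fin 3 → E) (C : Finset E),
      let φ : Fin 9 → E := ![a 0, a 1, a 2, b 0, b 1, b 2, d 0, d 1, d 2]
      Function.Injective φ ∧ (∀ i, φ i ∈ (M.con {e}).S) ∧ C ⊆ (M.con {e}).S ∧
        (∀ i, φ i ∉ C) ∧
        (∀ i, ∃ f ∈ (M.con {e}).R, (∀ c ∈ C, f c = 0) ∧ ∀ j, f (φ j) = K33s i j) ∧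
        (∀ f ∈ (M.con {e}).R, (∀ c ∈ C, f c = 0) →
          ∃ c : Fin 4 → ZMod 2, ∀ j, f (φ j) = ∑ i, c i * K33s i j) := by
  obtain ⟨ia, ib, hab, hea, heb⟩ := hT.inj
  have hWS := W7_sub hT
  have hWc := W7_card hT
  have hlam : M.lam (W7 e a b) = 2 := TriT_lam rows M h e a b hT (by omega)
  have hout : 4 ≤ (M.S \ W7 e a b).card := by
    have := Finset.card_sdiff_add_card_eq_card hWS
    omega
  obtain ⟨d, C, hdi, hdS, hCS, hCW, hd1, hd2, hd3, hd4⟩ :=
    delta M h (W7 e a b) hWS hlam (exists_cycle_outside M h (W7 e a b) hWS hlam hout)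
  have haW : ∀ i, a i ∈ W7 e a b := fun i => mem_W7.2 (Or.inr (Or.inl ⟨i, rfl⟩))
  have hbW : ∀ i, b i ∈ W7 e a b := fun i => mem_W7.2 (Or.inr (Or.inr ⟨i, rfl⟩))
  have heW : e ∈ W7 e a b := mem_W7.2 (Or.inl rfl)
  have hsum : ∀ (f : E → ZMod 2) i, ∑ x ∈ ({a i, b i} : Finset E), f x = f (a i) + f (b i) :=
    fun f i => Finset.sum_pair (hab i i)
  obtain ⟨σ, hσ, hσd⟩ := guts M (W7 e a b) C d hd1 hd2 hd3 hd4 (fun i => {a i, b i})
    (by
      intro i x hx
      simp only [Finset.mem_insert, Finset.mem_singleton] at hx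
      rcases hx with rfl | rfl
      · exact haW i
      · exact hbW i)
    (by
      intro f hf
      simp only [hsum]
      linear_combination (hT.cyca f hf) + (hT.cycb f hf) - z_add_self (f e))
    (by
      intro g hg hg0 i
      simp only [hsum]
      rw [TriT_row rows M h e a b hT (by omega) g hg hg0 i]
      exact z_add_self _)
    (by
      intro i
      obtain ⟨f, hf, hne⟩ := TC_row_sep h (hT.mem.2.1 i) (hT.mem.2.2 i) (hab i i)
      refine ⟨f, hf, ?_⟩
      simp only [hsum]
      intro h0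
      exact hne (z_add_eq_zero.1 h0))
  have hD : ∀ f ∈ M.R, (∀ c ∈ C, f c = 0) → ∀ i, f (d (σ i)) = f (a i) + f (b i) := by
    intro f hf hfC i
    rw [hσd f hf hfC i]
    exact hsum f i
  have hdW : ∀ i, d i ∉ W7 e a b := fun i => (hdS i).2.1
  refine ⟨fun i => d (σ i), C, ?_⟩
  intro φ
  have hφinj : Function.Injective φ :=
    inj9 a b (fun i => d (σ i)) ia ib (fun i j hij => hσ (hdi hij)) hab
      (fun i j hij => hdW (σ j) (hij ▸ haW i)) (fun i j hij => hdW (σ j) (hij ▸ hbW i))
  refine ⟨hφinj, ?_, ?_, ?_, ?_, ?_⟩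
  · refine all9 a b (fun i => d (σ i)) (fun x => x ∈ (M.con {e}).S) ?_ ?_ ?_
    · intro i
      exact Finset.mem_sdiff.2 ⟨hT.mem.2.1 i, by
        rw [Finset.mem_singleton]; exact (hea i).symm⟩
    · intro i
      exact Finset.mem_sdiff.2 ⟨hT.mem.2.2 i, by
        rw [Finset.mem_singleton]; exact (heb i).symm⟩
    · intro i
      refine Finset.mem_sdiff.2 ⟨(hdS (σ i)).1, ?_⟩
      rw [Finset.mem_singleton]
      intro h0
      exact hdW (σ i) (h0 ▸ heW)
  · intro x hx
    refine Finset.mem_sdiff.2 ⟨hCS hx, ?_⟩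
    rw [Finset.mem_singleton]
    rintro rfl
    exact Finset.disjoint_left.1 hCW hx heW
  · exact all9 a b (fun i => d (σ i)) (fun x => x ∉ C)
      (fun i hi => Finset.disjoint_left.1 hCW hi (haW i))
      (fun i hi => Finset.disjoint_left.1 hCW hi (hbW i)) (fun i => (hdS (σ i)).2.2)
  · intro i0
    obtain ⟨r1, r2, r3, r4, r5⟩ := rel i0
    obtain ⟨y, hy⟩ : ∃ y : Fin 9 → ZMod 2, y = K33s i0 := ⟨_, rfl⟩
    rw [← hy] at r1 r2 r3 r4 r5 ⊢
    obtain ⟨yA, hyA⟩ : ∃ yA : Fin 3 → ZMod 2, yA = ![y 0, y 1, y 2] := ⟨_, rfl⟩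
    obtain ⟨yB, hyB⟩ : ∃ yB : Fin 3 → ZMod 2, yB = ![y 3, y 4, y 5] := ⟨_, rfl⟩
    have hs0 : ∑ i, (yA i + yB i) = 0 := by
      rw [Fin.sum_univ_three, hyA, hyB]
      simp only [Matrix.cons_val_zero, Matrix.cons_val_one, Matrix.cons_val]
      linear_combination r1 + r2
    obtain ⟨p, hp⟩ : ∃ p : Fin 3 → ZMod 2, ∀ i, p (σ i) = yA i + yB i := by
      refine ⟨fun j => (fun i => yA i + yB i)
        ((Equiv.ofBijective σ (Finite.injective_iff_bijective.1 hσ)).symm j), fun i => ?_⟩
      have h1 : (Equiv.ofBijective σ (Finite.injective_iff_bijective.1 hσ)).symm (σ i) = i := by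
        rw [Equiv.symm_apply_eq]
        rfl
      simp only [h1]
    have hp0 : p 0 + p 1 + p 2 = 0 := by
      rw [← Fin.sum_univ_three, ← hs0]
      have h1 := Equiv.sum_comp (Equiv.ofBijective σ (Finite.injective_iff_bijective.1 hσ)) p
      rw [← h1]
      exact Finset.sum_congr rfl fun i _ => hp i
    obtain ⟨f, hf, hfC, hfd⟩ := hd4 p hp0
    have hfab : ∀ i, f (a i) + f (b i) = yA i + yB i := by
      intro i
      rw [← hD f hf hfC i, hfd, hp]
    obtain ⟨f', hf'⟩ : ∃ f' : E → ZMod 2, f' = f + ∑ i, (f (a i) + yA i) •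
        (ind {e, a i, b i} : E → ZMod 2) := ⟨_, rfl⟩
    have hf'R : f' ∈ M.R := by
      rw [hf']
      exact M.R.add_mem hf (M.R.sum_mem fun i _ => M.R.smul_mem _ (hT.row i))
    have hf'a : ∀ j, f' (a j) = yA j := by
      intro j
      rw [hf']
      simp only [Pi.add_apply, Finset.sum_apply, Pi.smul_apply, smul_eq_mul, q_a hT, mul_ite,
        mul_one, mul_zero, Finset.sum_ite_eq, Finset.mem_univ, if_true]
      linear_combination z_add_self (f (a j))
    have hf'b : ∀ j, f' (b j) = yB j := by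
      intro j
      rw [hf']
      simp only [Pi.add_apply, Finset.sum_apply, Pi.smul_apply, smul_eq_mul, q_b hT, mul_ite,
        mul_one, mul_zero, Finset.sum_ite_eq, Finset.mem_univ, if_true]
      linear_combination hfab j + z_add_self (yA j)
    have hf'o : ∀ x, x ∉ W7 e a b → f' x = f x := by
      intro x hx
      rw [hf']
      simp only [Pi.add_apply, Finset.sum_apply, Pi.smul_apply, smul_eq_mul, q_out _ hx,
        mul_zero, Finset.sum_const_zero, add_zero]
    have hf'C : ∀ c ∈ C, f' c = 0 := by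
      intro c hc'
      rw [hf'o c (fun hcW => Finset.disjoint_left.1 hCW hc' hcW)]
      exact hfC c hc'
    have hf'e : f' e = 0 := by
      have h1 := hT.cyca f' hf'R
      rw [hf'a, hf'a, hf'a, hyA] at h1
      simp only [Matrix.cons_val_zero, Matrix.cons_val_one, Matrix.cons_val] at h1
      linear_combination h1 - r1
    refine ⟨f', ⟨hf'R, fun x hx => ?_⟩, hf'C, ?_⟩
    · rw [Finset.mem_singleton.1 hx]
      exact hf'e
    · have hdd : ∀ i, f' (d (σ i)) = yA i + yB i := by
        intro i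
        rw [hf'o _ (hdW (σ i)), hfd, hp]
      intro j
      fin_cases j
      · exact (hf'a 0).trans (by rw [hyA]; rfl)
      · exact (hf'a 1).trans (by rw [hyA]; rfl)
      · exact (hf'a 2).trans (by rw [hyA]; rfl)
      · exact (hf'b 0).trans (by rw [hyB]; rfl)
      · exact (hf'b 1).trans (by rw [hyB]; rfl)
      · exact (hf'b 2).trans (by rw [hyB]; rfl)
      · exact (hdd 0).trans (by rw [hyA, hyB]; exact r3.symm)
      · exact (hdd 1).trans (by rw [hyA, hyB]; exact r4.symm)
      · exact (hdd 2).trans (by rw [hyA, hyB]; exact r5.symm)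
  · rintro f ⟨hf, hfe⟩ hfC
    have he0 : f e = 0 := hfe e (Finset.mem_singleton_self e)
    have h1 : f (a 0) = f (a 1) + f (a 2) := eq_three (hT.cyca f hf) he0
    have h2 : f (b 0) = f (b 1) + f (b 2) := eq_three (hT.cycb f hf) he0
    refine ⟨![f (b 1), f (b 2), f (a 1) + f (b 1), f (a 2) + f (b 2)], fun j => ?_⟩
    rw [← key (f (a 1)) (f (a 2)) (f (b 1)) (f (b 2)) j]
    fin_cases j
    · exact h1
    · rfl
    · rfl
    · exact h2
    · rfl
    · rfl
    · exact (hD f hf hfC 0).trans (by rw [h1, h2]; rfl)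
    · exact hD f hf hfC 1
    · exact hD f hf hfC 2

theorem TriT_con_K33s {r k : ℕ} (rows : Fin r → Fin k → ZMod 2) (M : BM E) (h : M.TC) (e : E)
    (a b : Fin 3 → E) (hT : TriT rows M e a b) (hc : 11 ≤ M.S.card) :
    HasMinor K33s (M.con {e}) := by
  obtain ⟨d, C, h1⟩ := TriT_grid rows M h e a b hT hc
  exact ⟨_, C, h1⟩

end SEY

end

section

/-!
LV-7b (project SEY, block LEVEL): in outcome O2 (`TriT`) the matroid `M.con {e}` is 3-connected.

`N := M.con {e}`, ground set `S - e`.  API: Pool/Agent/Helper71/SEYApi.lean (rank and `lam` formulas,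
`lam` under con, `lam` symmetric).  For `A` in `S - e`: `r_N A = r_M (A + e) - r_M {e}`, `r_M {e} = 1`.
Step 0 (`grid_side`).  Let `X` be a subset of `N.S` with `lam_N X <= 1`, `Y = N.S - X`.  Then `X` or `Y`
contains at most one of the nine elements `phi j` of `TriT_grid`.  Proof: the matroid on `Fin 9` with
rows `K33s` has `lam <= 1` for the set `{j : phi j in X}` by `lam_minor`, and it is TC by `K33s_tc`.
Only the following consequence is needed: one of `X`, `Y`, call it `Y`, contains at most one element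
of `W = {a i, b i}`.
Step 1.  We may also assume `|X| >= 2`, `|Y| >= 2` (else nothing to show for `lam <= 1`; for `lam_N = 0`
and `|Y| = 1`, `Y = {y}`: `y` would be a loop or a coloop of `N`: `y` loop of `N` means `y` parallel to `e` in
`M` (or a loop), a coloop of `N` is a coloop of `M`; both are impossible by `TC_row_sep`, `TC_cyc_ne`).
Also `N.S` has at least 4 elements.
Step 2.  Suppose `w in W`, `w in Y`, say `w = a 0` (the other two `a`'s are in `X`).  `{a 0, a 1, a 2}` is a
cycle of `N` (`cyca`), so `w` is in the span of `X`: `r_N (X + w) = r_N X`, hence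
`lam_N (Y - w) <= lam_N Y <= 1`.  If `|Y - w| >= 2` continue with `Y - w`.  Otherwise `Y = {w, y}`, `y <> w`,
`y` not in `W`.  If `r_N Y = 2` then `r_N X <= r_N (N.S) - 1` and, as `w` is in the span of `X`, `y` is a
coloop of `N`, impossible.  So `r_N Y <= 1`: all rows of `N` agree on `w` and `y` (no loops in `N`), so
`ind {w, y}` or `ind {e, w, y}` is a cycle of `M`; it is not `ind {w, y}` (`TC_row_sep`); and
`ind {e, w, y}` is not orthogonal to the row `ind {e, a 1, b 1}` (common element `e` only, as `y` is not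
in `W` and `w = a 0`).  Contradiction.  (In the same way for `w = b i`, `w = a i`.)
Step 3.  Now `Y` is disjoint from `W`, `|Y| >= 2`, `lam_N Y <= 1`, `W` is contained in `X`.  `e` is not in the
span of `Y` in `M` (the row `ind {e, a 0, b 0}` vanishes on `Y` and is 1 at `e`): `r_M (Y + e) = r_M Y + 1`;
`e` is in the span of `X` (`cyca`): `r_M (X + e)` is `r_M` of `S - Y`.  So `lam_N Y = (r_M (Y + e) - 1) +
(r_M (X + e) - 1) - (r_M S - 1) = r_M Y + r_M (S - Y) - r_M S = lam_M Y`, so `lam_M Y <= 1` with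
`|Y| >= 2` and `|S - Y| >= 2`: contradiction to `TC`.
-/

set_option autoImplicit false

namespace SEY

open Finset

variable {E : Type} [Fintype E] [DecidableEq E]

theorem TriT_con_TC {r k : ℕ} (rows : Fin r → Fin k → ZMod 2) (M : BM E) (h : M.TC) (e : E)
    (a b : Fin 3 → E) (hT : TriT rows M e a b) (hc : 11 ≤ M.S.card) : (M.con {e}).TC := by

  classical
  obtain ⟨heS, haS, hbS⟩ := hT.mem
  obtain ⟨hai, hbi, hab, hea, heb⟩ := hT.inj
  -- connectivity of the contraction
  have key : ∀ A ⊆ (M.con {e}).S, M.r (insert e A) = M.r A + 1 → (M.con {e}).lam A = M.lam A := by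
    intro A hA h1
    have g1 := M.lam_con_add {e} A
    have g2 := M.lam_add_rk A
    have g3 := h.r_singleton heS
    have h2 : A ∪ {e} = insert e A := by ext x; simp
    have h3 : (M.S \ A) ∪ {e} = M.S \ A := by
      ext x
      simp only [Finset.mem_union, Finset.mem_sdiff, Finset.mem_singleton]
      constructor
      · rintro (h4 | h4)
        · exact h4
        · subst h4
          exact ⟨heS, fun h5 => by
            have := hA h5
            simp at this⟩
      · exact Or.inl
    rw [h2, h3] at g1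
    omega
  have key1 : ∀ A ⊆ (M.con {e}).S, (∃ f ∈ M.R, f e = 1 ∧ ∀ x ∈ A, f x = 0) →
      M.r (insert e A) = M.r A + 1 := by
    rintro A hA ⟨f, hf, hfe, hfA⟩
    have g1 := M.r_insert_le A e
    have g2 := M.r_mono (Finset.subset_insert e A)
    rcases Nat.lt_or_ge (M.r A) (M.r (insert e A)) with g3 | g3
    · omega
    · exfalso
      have heA : e ∉ A := fun h5 => by
        have := hA h5
        simp at this
      have hAS : A ⊆ M.S := fun x hx => by
        have := hA hx
        rw [BM.con_S, Finset.mem_sdiff] at this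
        exact this.1
      obtain ⟨z, hz, hze, hz0⟩ := (M.r_insert_eq_iff hAS heS heA).1 (by omega)
      have h6 := M.dot_eq_zero hf hz
      rw [dot_eq_sum_right (A := insert e A) hz0, Finset.sum_insert heA, hfe, hze,
        Finset.sum_eq_zero (fun x hx => by rw [hfA x hx, zero_mul])] at h6
      revert h6
      decide
  have key2 : ∀ A ⊆ (M.con {e}).S, ∀ i, a i ∉ A → b i ∉ A → M.r (insert e A) = M.r A + 1 := by
    intro A hA i hi hi'
    refine key1 A hA ⟨_, hT.row i, by simp, fun x hx => ?_⟩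
    have h5 : x ≠ e := by
      rintro rfl
      have := hA hx
      simp at this
    have h6 : x ≠ a i := by rintro rfl; exact hi hx
    have h7 : x ≠ b i := by rintro rfl; exact hi' hx
    simp [h5, h6, h7]
  have key3 : ∀ A ⊆ (M.con {e}).S, ∀ i, a i ∉ A → b i ∉ A → (M.con {e}).lam A ≤ 1 →
      A.card ≤ 1 ∨ ((M.con {e}).S \ A).card ≤ 1 := by
    intro A hA i hi hi' h1
    rw [key A hA (key2 A hA i hi hi')] at h1
    have hAS : A ⊆ M.S := fun x hx => by
      have := hA hx
      rw [BM.con_S, Finset.mem_sdiff] at this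
      exact this.1
    rcases (h.2 A hAS).2 h1 with h2 | h2
    · exact Or.inl h2
    · right
      refine le_trans (Finset.card_le_card ?_) h2
      intro x hx
      simp only [BM.con_S, Finset.mem_sdiff, Finset.mem_singleton] at hx ⊢
      exact ⟨hx.1.1, hx.2⟩
  have key4 : ∀ A ⊆ (M.con {e}).S, (M.con {e}).lam A ≤ 1 →
      A.card ≤ 1 ∨ ((M.con {e}).S \ A).card ≤ 1 := by
    intro A hA h1
    by_cases hc1 : ∃ i, a i ∉ A ∧ b i ∉ A
    · obtain ⟨i, hi, hi'⟩ := hc1
      exact key3 A hA i hi hi' h1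
    by_cases hc2 : ∃ i, a i ∈ A ∧ b i ∈ A
    · obtain ⟨i, hi, hi'⟩ := hc2
      have := key3 ((M.con {e}).S \ A) Finset.sdiff_subset i (fun h' => (Finset.mem_sdiff.1 h').2 hi)
        (fun h' => (Finset.mem_sdiff.1 h').2 hi') (by rw [BM.lam_compl]; exact h1)
      rw [Finset.sdiff_sdiff_eq_self hA] at this
      exact this.symm
    exfalso
    push Not at hc1 hc2
    obtain ⟨d, C, hφ, hφS, hCS, hφC, g1, g2⟩ := TriT_grid rows M h e a b hT hc
    have g3 := lam_minor K33s (M.con {e}) _ C hφ hφS hCS hφC g1 g2 A hA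
    have g4 := (K33s_tc.2 _ (Finset.subset_univ _)).2 (g3.trans h1)
    set φ : Fin 9 → E := ![a 0, a 1, a 2, b 0, b 1, b 2, d 0, d 1, d 2] with hφdef
    have hval : ∀ i : Fin 3, φ (Fin.castLE (by norm_num) i) = a i ∧
        φ ⟨3 + i.val, by omega⟩ = b i := by
      intro i
      fin_cases i <;> exact ⟨rfl, rfl⟩
    -- in both sides there are three elements
    have h3 : ∀ i : Fin 3, ∃ j ∈ univ.filter (fun j => φ j ∈ A), (j : ℕ) = i ∨ (j : ℕ) = 3 + i := by
      intro i
      by_cases h5 : a i ∈ A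
      · exact ⟨Fin.castLE (by norm_num) i, by
          rw [Finset.mem_filter, (hval i).1]; exact ⟨Finset.mem_univ _, h5⟩, Or.inl rfl⟩
      · exact ⟨⟨3 + i.val, by omega⟩, by
          rw [Finset.mem_filter, (hval i).2]; exact ⟨Finset.mem_univ _, hc1 i h5⟩, Or.inr rfl⟩
    have h4 : ∀ i : Fin 3, ∃ j ∈ (univ : Finset (Fin 9)) \ univ.filter (fun j => φ j ∈ A),
        (j : ℕ) = i ∨ (j : ℕ) = 3 + i := by
      intro i
      by_cases h5 : a i ∈ A
      · exact ⟨⟨3 + i.val, by omega⟩, by
          rw [Finset.mem_sdiff, Finset.mem_filter, (hval i).2]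
          exact ⟨Finset.mem_univ _, fun h6 => hc2 i h5 h6.2⟩, Or.inr rfl⟩
      · exact ⟨Fin.castLE (by norm_num) i, by
          rw [Finset.mem_sdiff, Finset.mem_filter, (hval i).1]
          exact ⟨Finset.mem_univ _, fun h6 => h5 h6.2⟩, Or.inl rfl⟩
    rcases g4 with g4 | g4
    · obtain ⟨j0, hj0, hj0'⟩ := h3 0
      obtain ⟨j1, hj1, hj1'⟩ := h3 1
      have := Finset.card_le_one.1 g4 _ hj0 _ hj1
      subst this
      simp at hj0' hj1'
      omega
    · obtain ⟨j0, hj0, hj0'⟩ := h4 0
      obtain ⟨j1, hj1, hj1'⟩ := h4 1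
      have := Finset.card_le_one.1 g4 _ hj0 _ hj1
      subst this
      simp at hj0' hj1'
      omega
  have key5 : ∀ A ⊆ (M.con {e}).S, (M.con {e}).lam A = 0 → A.card ≤ 1 → A = ∅ := by
    intro A hA h1 h2
    by_contra h3
    obtain ⟨x, hx⟩ := Finset.nonempty_iff_ne_empty.2 h3
    have h4 : A = {x} := Finset.eq_singleton_iff_unique_mem.2
      ⟨hx, fun y hy => Finset.card_le_one.1 h2 _ hy _ hx⟩
    subst h4
    have hx' := hA hx
    rw [BM.con_S, Finset.mem_sdiff, Finset.mem_singleton] at hx'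
    have h5 := key {x} hA (by
      rw [h.r_singleton hx'.1]
      exact h.r_pair heS hx'.1 (fun h' => hx'.2 h'.symm))
    rw [h.lam_singleton hx'.1] at h5
    omega
  refine ⟨?_, fun A hA => ⟨fun h1 => ?_, key4 A hA⟩⟩
  · rw [BM.con_S, Finset.card_sdiff_of_subset (Finset.singleton_subset_iff.2 heS),
      Finset.card_singleton]
    omega
  · rcases key4 A hA (by omega) with h2 | h2
    · exact Or.inl (key5 A hA h1 h2)
    · right
      have h3 := key5 _ Finset.sdiff_subset (by rw [BM.lam_compl]; exact h1) h2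
      exact Finset.Subset.antisymm hA (Finset.sdiff_eq_empty_iff_subset.1 h3)

end SEY

end

section

/-!
LV-8 (project SEY, block LEVEL): in outcome O2 (`TriT`) for `K33` the matroid `M.con {e}` has `K33` as a
topological minor.

`M0 = (M.del {e}).con {b 0, b 1, b 2}` and `N = M.con {e}`.
Claim (`TriT_minor`): `M0 = (N.con {b 0, b 1}).del {b 2}`.  Both have ground set `S - {e, b 0, b 1, b 2}`.
Rows of `(N.con {b 0, b 1}).del {b 2}`: the restrictions to `S - {e, b i}` of the rows `f` of `M` with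
`f e = f (b 0) = f (b 1) = 0`.  Rows of `M0`: the restrictions to `S - {e, b i}` of the rows `f` of `M` with
`f (b 0) = f (b 1) = f (b 2) = 0`.  By `cycb` (`f e + f (b 0) + f (b 1) + f (b 2) = 0`) both conditions say
`f e = f (b i) = 0`.
So: `HasT K33 M0` gives `HasMinor K33 M0` (`HasMinor_of_HasT`, Sc.lean), hence `HasMinor K33 N`
(minors of minors, API of helper71: Pool/Agent/Helper71/SEYApi.lean), `NoF N` (NoF is inherited by
minors), and `conv_K33` (Conv.lean) gives `HasT K33 N`.
-/

set_option autoImplicit false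

namespace SEY

open Finset

variable {E : Type} [Fintype E] [DecidableEq E]

theorem TriT_minor {r k : ℕ} (rows : Fin r → Fin k → ZMod 2) (M : BM E) (e : E)
    (a b : Fin 3 → E) (hT : TriT rows M e a b) :
    (M.del {e}).con {b 0, b 1, b 2} = ((M.con {e}).con {b 0, b 1}).del {b 2} := by
  obtain ⟨-, -, -, -, heb⟩ := hT.inj
  obtain ⟨-, -, hbS⟩ := hT.mem
  refine BM.ext' ?_ (fun f => ?_)
  · ext x
    simp only [BM.del_S, BM.con_S, mem_sdiff, mem_insert, mem_singleton]
    tauto
  · rw [BM.mem_con, BM.mem_del', BM.mem_del']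
    simp only [BM.mem_con, BM.con_S, mem_sdiff, mem_insert, mem_singleton, forall_eq_or_imp,
      forall_eq]
    constructor
    · rintro ⟨⟨h1, g, hg, h2⟩, h30, h31, h32⟩
      have k0 : g (b 0) = 0 := by rw [h2 _ ⟨hbS 0, fun h => heb 0 h.symm⟩, h30]
      have k1 : g (b 1) = 0 := by rw [h2 _ ⟨hbS 1, fun h => heb 1 h.symm⟩, h31]
      have k2 : g (b 2) = 0 := by rw [h2 _ ⟨hbS 2, fun h => heb 2 h.symm⟩, h32]
      have ke : g e = 0 := by
        have h := hT.cycb g hg
        rw [k0, k1, k2] at h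
        simpa using h
      refine ⟨fun x hx => ?_, g, ⟨⟨hg, ke⟩, k0, k1⟩, fun x hx => h2 x hx.1.1⟩
      by_cases x0 : x = b 0
      · rw [x0, h30]
      by_cases x1 : x = b 1
      · rw [x1, h31]
      by_cases x2 : x = b 2
      · rw [x2, h32]
      exact h1 x (fun h => hx ⟨⟨h, fun h' => h'.elim x0 x1⟩, x2⟩)
    · rintro ⟨h1, g, ⟨⟨hg, ke⟩, k0, k1⟩, h2⟩
      have k2 : g (b 2) = 0 := by
        have h := hT.cycb g hg
        rw [k0, k1, ke] at h
        simpa using h
      have f0 : f (b 0) = 0 := h1 _ (fun h => h.1.2 (Or.inl rfl))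
      have f1 : f (b 1) = 0 := h1 _ (fun h => h.1.2 (Or.inr rfl))
      have f2 : f (b 2) = 0 := h1 _ (fun h => h.2 rfl)
      refine ⟨⟨fun x hx => h1 x (fun h => hx h.1.1), g, hg, fun x hx => ?_⟩, f0, f1, f2⟩
      by_cases x0 : x = b 0
      · rw [x0, k0, f0]
      by_cases x1 : x = b 1
      · rw [x1, k1, f1]
      by_cases x2 : x = b 2
      · rw [x2, k2, f2]
      exact h2 x ⟨⟨hx, fun h' => h'.elim x0 x1⟩, x2⟩

theorem TriT_con_HasT (M : BM E) (hF : NoF M) (e : E)
    (a b : Fin 3 → E) (hT : TriT K33 M e a b) : HasT K33 (M.con {e}) := by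
  have h := HasMinor_of_HasT hT.hasT
  rw [TriT_minor K33 M e a b hT] at h
  exact conv_K33 (M.con {e}) (hF.con {e}) ((h.of_del {b 2}).of_con {b 0, b 1})

end SEY

end
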