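import Pool.Agent.Helper29.MFA.T49
import Pool.Agent.Helper29.MFA.T50
import Pool.Agent.Helper29.MFA.T54
import Pool.Agent.Helper29.MFA.T48
import Pool.Agent.Helper29.MFA.T53

section

/-!
Outcomes O1 and O4.
-/

set_option autoImplicit false

namespace SEY

open Finset

variable {E : Type} [Fintype E] [DecidableEq E]

theorem O1_K4 (M : BM E) (hTC : M.TC) (hF : NoF M) (hG : ¬ Graphic M) (e : E) (he : e ∈ M.S)
    (h : IsIso (grRows K4e) (M.del {e})) : False := by
  obtain ⟨t, ht, hI⟩ := O1_lift K4e M e he (TC_cyc_ne hTC he) h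
  rcases even4 t ht with ⟨u, v, huv⟩ | rfl
  · exact hG (graft_graphic K4e t M hI u v huv)
  · exact hF.1 (HasMinor.of_cert good_F7 hI.hasMinor)

theorem O1_K33 (M : BM E) (hTC : M.TC) (hF : NoF M) (hG : ¬ Graphic M) (e : E) (he : e ∈ M.S)
    (h : IsIso (grRows K33e) (M.del {e})) : HasMinor R10 M := by
  obtain ⟨t, ht, hI⟩ := O1_lift K33e M e he (TC_cyc_ne hTC he) h
  rcases even6 t ht with ⟨u, v, huv⟩ | rfl | h7
  · exact absurd (graft_graphic K33e t M hI u v huv) hG
  · exact HasMinor.of_cert good_R10 hI.hasMinor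
  · exact absurd (HasMinor.of_cert h7 hI.hasMinor) hF.1

theorem O4_K4 (M : BM E) (f : Fin 6) (c d : Fin 4) (hcd : c ≠ d) (hc1 : c ≠ (K4e f).1)
    (hc2 : c ≠ (K4e f).2) (hd1 : d ≠ (K4e f).1) (hd2 : d ≠ (K4e f).2)
    (h : IsIso (O4rows K4e f c d) M) : HasMinor K33s M :=
  HasMinor.of_cert (good_K4 f c d hcd hc1 hc2 hd1 hd2) h.hasMinor

theorem O4_K33 (M : BM E) (hF : NoF M) (f : Fin 9) (c d : Fin 6) (hcd : c ≠ d)
    (hc1 : c ≠ (K33e f).1) (hc2 : c ≠ (K33e f).2) (hd1 : d ≠ (K33e f).1) (hd2 : d ≠ (K33e f).2)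
    (h : IsIso (O4rows K33e f c d) M) : HasMinor R12 M := by
  rcases good_K33 f c d hcd hc1 hc2 hd1 hd2 with h7 | h12
  · exact absurd (HasMinor.of_cert h7 h.hasMinor) hF.1
  · exact HasMinor.of_cert h12 h.hasMinor

end SEY

end

section

/-!
Minimal nongraphic matroids and level 1.
-/

set_option autoImplicit false

namespace SEY

open Finset

variable {E : Type} [Fintype E] [DecidableEq E]

/-- A minimal nongraphic 3-connected minor with the topological minor `rows`. -/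
theorem exists_minCx {r k : ℕ} (rows : Fin r → Fin k → ZMod 2) (M : BM E) (hTC : M.TC)
    (hF : NoF M) (hT : HasT rows M) (hG : ¬ Graphic M) :
    ∃ M1 : BM E, Minor M1 M ∧ MinCx rows M1 := by
  classical
  have hex : ∃ m : ℕ, ∃ M1 : BM E, Minor M1 M ∧ M1.S.card = m ∧ M1.TC ∧ HasT rows M1 ∧
      ¬ Graphic M1 := ⟨_, M, Minor.refl M, rfl, hTC, hT, hG⟩
  obtain ⟨M1, h1, hc, h2, h3, h4⟩ := Nat.find_spec hex
  refine ⟨M1, h1, h2, hF.minor h1, h3, h4, fun N hN hlt hNTC hNT => ?_⟩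
  by_contra hNG
  have := Nat.find_min' hex ⟨N, hN.trans h1, rfl, hNTC, hNT, hNG⟩
  omega

/-- Level 1. -/
theorem level1' (M : BM E) (hTC : M.TC) (hF : NoF M) (hG : ¬ Graphic M) :
    HasMinor K33s M ∨ HasMinor K5s M := by
  obtain ⟨M1, h1, hM⟩ := exists_minCx K4 M hTC hF (K4_start M hTC hF.2) hG
  rcases T3 K4e K4_tc K4_gr le_rfl M1 hM with ⟨e, he, hI⟩ | ⟨e, a, b, hT⟩ |
    ⟨f, c, d, hcd, hc1, hc2, hd1, hd2, hI⟩ | ⟨a, b, hW, hz⟩
  · exact (O1_K4 M1 hM.tc hM.nof hM.ng e he hI).elim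
  · exact Or.inr ((hasMinor_K5_dual.1 (TriT_K5 M1 hM.tc e a b hT)).of_minor h1)
  · exact Or.inl ((O4_K4 M1 f c d hcd hc1 hc2 hd1 hd2 hI).of_minor h1)
  · exact Or.inl ((WStr_K33s M1 hM.tc a b hW hz).of_minor h1)

end SEY

end

section

/-!
Level 2 and Seymour's theorem for 3-connected matroids.
-/

set_option autoImplicit false

namespace SEY

open Finset BM

variable {E : Type} [Fintype E] [DecidableEq E]

theorem HasT.le_card {r k : ℕ} {rows : Fin r → Fin k → ZMod 2} {M : BM E} (h : HasT rows M) :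
    k ≤ M.S.card := by
  obtain ⟨A, π, hA, hπ, -⟩ := h
  choose x hx hxi using hπ
  have h1 : Function.Injective x := by
    intro i j hij
    rw [← hxi i, ← hxi j, hij]
  have h2 : (univ.image x).card = k := by
    rw [card_image_of_injective _ h1, card_univ, Fintype.card_fin]
  rw [← h2]
  apply card_le_card
  intro y hy
  obtain ⟨i, -, rfl⟩ := mem_image.1 hy
  exact hA (hx i)

theorem has_K33 (M : BM E) (hTC : M.TC) (hF : NoF M) (hG : ¬ Graphic M)
    (hG' : ¬ Graphic M.dual) : HasMinor K33 M := by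
  rcases level1' M.dual hTC.dual hF.dual hG' with h | h
  · exact hasMinor_K33s_dual.1 h
  · by_contra hK
    have h5 : IsIso K5 M := K5_split M hTC hF hK (hasMinor_K5s_dual.1 h)
    exact hG (Graphic_of_IsIso K5e h5)

theorem no_tri (M : BM E) (hM : MinCx K33 M) (e : E) (a b : Fin 3 → E)
    (hT : TriT K33 M e a b) : False := by
  have hc : 11 ≤ M.S.card := by
    have h1 := hT.hasT.le_card
    have h2 : ((M.del {e}).con {b 0, b 1, b 2}).S ⊆ (M.S.erase e).erase (b 0) := by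
      intro x hx
      simp only [BM.con, BM.del, mem_sdiff, mem_singleton, mem_insert, not_or] at hx
      simp only [mem_erase]
      exact ⟨hx.2.1, hx.1.2, hx.1.1⟩
    have h3 := card_le_card h2
    have h4 : (M.S.erase e).card + 1 = M.S.card := card_erase_add_one hT.mem.1
    have h5 : ((M.S.erase e).erase (b 0)).card + 1 = (M.S.erase e).card :=
      card_erase_add_one (mem_erase.2 ⟨(hT.inj.2.2.2.2 0).symm, hT.mem.2.2 0⟩)
    omega
  have h1 : Graphic (M.con {e}) := by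
    refine hM.min _ (minor_con M {e}) ?_ (TriT_con_TC K33 M hM.tc e a b hT hc)
      (TriT_con_HasT M hM.nof e a b hT)
    have : (M.con {e}).S = M.S.erase e := by
      ext x
      simp [BM.con, and_comm]
    rw [this]
    exact card_erase_lt_of_mem hT.mem.1
  exact K33s_ng (TriT_con_K33s K33 M hM.tc e a b hT hc) h1

theorem MinCx.dual {M : BM E} (hM : MinCx K33 M) : MinCx K33 M.dual := by
  have hng : ¬ Graphic M.dual := K33_ncg (HasMinor_of_HasT hM.hasT)
  refine ⟨hM.tc.dual, hM.nof.dual, ?_, hng, ?_⟩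
  · exact conv_K33 _ hM.nof.dual (has_K33 _ hM.tc.dual hM.nof.dual hng
      (by rw [M.dual_dual]; exact hM.ng))
  · intro N hN hlt hNTC hNT
    by_contra hNG
    have h1 : ¬ Graphic N.dual := K33_ncg (HasMinor_of_HasT hNT)
    have hNF : NoF N := hM.nof.dual.minor hN
    have h2 : HasT K33 N.dual := conv_K33 _ hNF.dual (has_K33 _ hNTC.dual hNF.dual h1
      (by rw [N.dual_dual]; exact hNG))
    have h3 : Minor N.dual M := by
      have := hN.dual
      rwa [M.dual_dual] at this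
    exact h1 (hM.min N.dual h3 hlt hNTC.dual h2)

/-- Outcomes of the structure theorem for `K33`. -/
theorem out_K33 (M : BM E) (hM : MinCx K33 M) : HasMinor R10 M ∨ HasMinor R12 M ∨
    ∃ a b : Fin 3 → E, WStr M a b := by
  rcases T3 K33e K33_tc K33_gr (by norm_num) M hM with ⟨e, he, hI⟩ | ⟨e, a, b, hT⟩ |
    ⟨f, c, d, hcd, hc1, hc2, hd1, hd2, hI⟩ | ⟨a, b, hW, -⟩
  · exact Or.inl (O1_K33 M hM.tc hM.nof hM.ng e he hI)
  · exact (no_tri M hM e a b hT).elim
  · exact Or.inr (Or.inl (O4_K33 M hM.nof f c d hcd hc1 hc2 hd1 hd2 hI))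
  · exact Or.inr (Or.inr ⟨a, b, hW⟩)

/-- Level 2. -/
theorem level2' (M : BM E) (hTC : M.TC) (hF : NoF M) (hG : ¬ Graphic M)
    (hG' : ¬ Graphic M.dual) : HasMinor R10 M ∨ HasMinor R12 M := by
  obtain ⟨M1, h1, hM⟩ := exists_minCx K33 M hTC hF
    (conv_K33 M hF (has_K33 M hTC hF hG hG')) hG
  suffices h : HasMinor R10 M1 ∨ HasMinor R12 M1 from
    h.imp (fun h => h.of_minor h1) (fun h => h.of_minor h1)
  rcases out_K33 M1 hM with h | h | ⟨a, b, hW⟩
  · exact Or.inl h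
  · exact Or.inr h
  · rcases out_K33 M1.dual hM.dual with h | h | ⟨y, z, hW'⟩
    · exact Or.inl (hasMinor_R10_dual.1 h)
    · exact Or.inr (hasMinor_R12_dual.1 h)
    · exact Or.inr (WW_R12 M1 hM.tc a b hW y z hW'
        (WW_disjoint M1 hM.tc hM.hasT.le_card a b hW y z hW'))

/-- Seymour's theorem for 3-connected binary matroids without Fano and dual Fano minors. -/
theorem seymour' (M : BM E) (hTC : M.TC) (hF : NoF M) :
    Graphic M ∨ Graphic M.dual ∨ IsIso R10 M ∨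
      ∃ A ⊆ M.S, 6 ≤ A.card ∧ 6 ≤ (M.S \ A).card ∧ M.lam A ≤ 2 := by
  by_cases hG : Graphic M
  · exact Or.inl hG
  by_cases hG' : Graphic M.dual
  · exact Or.inr (Or.inl hG')
  rcases level2' M hTC hF hG hG' with h | h
  · exact Or.inr (Or.inr (Or.inl (R10_split M hTC hF h)))
  · exact Or.inr (Or.inr (Or.inr (R12_sep M hF h)))

end SEY

end
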