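import Pool.Agent.Helper29.MFA.T40
import Pool.Agent.Helper29.MFA.T48
import Pool.Agent.Helper29.MFA.T55

section

/-!
Block LEVEL (helper70), section 4 of /team-store/helper25_SEY.md.
-/

namespace SEY

open Finset

variable {E : Type} [Fintype E] [DecidableEq E]

/-- Seymour's theorem for 3-connected binary matroids without Fano and dual Fano minors. -/
theorem seymour (M : BM E) (hTC : M.TC) (hF : NoF M) :
    Graphic M ∨ Graphic M.dual ∨ IsIso R10 M ∨
      ∃ A ⊆ M.S, 6 ≤ A.card ∧ 6 ≤ (M.S \ A).card ∧ M.lam A ≤ 2 :=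
  seymour' M hTC hF

end SEY

end
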