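import Pool.Agent.Helper29.MFA.T52
import Pool.Agent.Helper29.MFA.T53
import Pool.Agent.Helper29.MFA.T56
import Pool.Agent.Helper29.MFA.T15
import Pool.Agent.Helper29.MFA.T20
import Pool.Agent.Helper29.MFA.T21
import Pool.Agent.Helper29.MFA.T19
import Pool.Agent.Helper29.MFA.T22
import Pool.Agent.Helper29.MFA.T23
import Pool.Agent.Helper29.MFA.T24

section

/-!
Block INTER (UB-9).  Assembly: a 3-connected finite unimodular set without parallel elements and
with at least four elements is graphic, cographic, `R10` or has a 3-separation with at least six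
elements on both sides.
-/

set_option autoImplicit false

namespace SEY.UB

open Submodule Module

variable {V : Type} [AddCommGroup V] [Module ℚ V]

omit [AddCommGroup V] [Module ℚ V] in
/-- Complementary subsets of a finite set of vectors. -/
theorem img_parts {X : Set V} [Fintype X] [DecidableEq X] (A : Finset X) :
    (Subtype.val '' (A : Set X)) ∪ (Subtype.val '' ((Finset.univ \ A : Finset X) : Set X)) = X ∧
    Disjoint (Subtype.val '' (A : Set X))
      (Subtype.val '' ((Finset.univ \ A : Finset X) : Set X)) := by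
  constructor
  · rw [← Set.image_union, ← Finset.coe_union,
      Finset.union_sdiff_of_subset (Finset.subset_univ A), Finset.coe_univ, Set.image_univ,
      Subtype.range_coe]
  · rw [Set.disjoint_image_iff Subtype.val_injective]
    rw [Finset.disjoint_coe]
    exact Finset.disjoint_sdiff

omit [AddCommGroup V] [Module ℚ V] in
theorem ncard_img {X : Set V} [Fintype X] (A : Finset X) :
    (Subtype.val '' (A : Set X)).ncard = A.card := by
  rw [Set.ncard_image_of_injective _ Subtype.val_injective, Set.ncard_coe_finset]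

theorem bm_tc {X : Set V} [Fintype X] [DecidableEq X] (hN : RC.Gut.Nice X)
    (hC : RC.Gut.Conn3 X) (h4 : 4 ≤ X.ncard) : (bm (Subtype.val : X → V)).TC := by
  have hU : RC.Uni (Set.range (Subtype.val : X → V)) := by
    rw [Subtype.range_coe]; exact hN.uni
  refine ⟨?_, fun A _ => ?_⟩
  · have h5 : X.ncard = Fintype.card X := by
      rw [← Nat.card_coe_set_eq, Nat.card_eq_fintype_card]
    rw [bm_S, Finset.card_univ, ← h5]
    exact h4
  · obtain ⟨h1, h2⟩ := img_parts A
    have h3 := hC _ _ h1 h2
    rw [← lam_eq hU A, ncard_img, ncard_img] at h3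
    rw [bm_S]
    have h5 : (bm (Subtype.val : X → V)).lam A = 0 → A = ∅ ∨ A = Finset.univ := by
      intro h
      rcases h3.1 h with h6 | h6
      · left
        rw [Set.image_eq_empty, Finset.coe_eq_empty] at h6
        exact h6
      · right
        rw [Set.image_eq_empty, Finset.coe_eq_empty, Finset.sdiff_eq_empty_iff_subset] at h6
        exact Finset.eq_univ_iff_forall.2 (fun x => h6 (Finset.mem_univ x))
    refine ⟨h5, fun h => ?_⟩
    by_cases h0 : (bm (Subtype.val : X → V)).lam A = 0
    · rcases h5 h0 with h6 | h6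
      · left; rw [h6]; simp
      · right; rw [h6]; simp
    · exact h3.2 (by omega)

theorem main (X : Set V) (hN : RC.Gut.Nice X) (hC : RC.Gut.Conn3 X) (h4 : 4 ≤ X.ncard) :
    RC.Dec V X ∨ ∃ A B : Set V, A ∪ B = X ∧ Disjoint A B ∧ 6 ≤ A.ncard ∧ 6 ≤ B.ncard ∧
      finrank ℚ (span ℚ A ⊓ span ℚ B : Submodule ℚ V) ≤ 2 := by
  classical
  have : Fintype X := hN.fin.fintype
  have hTC := bm_tc hN hC h4
  have hrg : Set.range (Subtype.val : X → V) = X := Subtype.range_coe
  have hU : RC.Uni (Set.range (Subtype.val : X → V)) := by rw [hrg]; exact hN.uni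
  rcases seymour (bm (Subtype.val : X → V)) hTC (noF hU) with h | h | h | h
  · left
    obtain ⟨W, hW1, hW2, U, hd, tl, hg⟩ := exists_IsGr ((TC_iff_SC _).1 hTC).1 h
    obtain ⟨s, hs, hP⟩ := orient hTC rfl hg (fns Subtype.val) (fun d hd => isMin_row hU hd)
      (fun p hp d hs => row_of_fn hp hs) (finrank_fns hU)
    have := dec_graphic (Subtype.val : X → V) hd tl s hs hP
    rwa [hrg] at this
  · left
    have hTC' := hTC.dual
    obtain ⟨W, hW1, hW2, U, hd, tl, hg⟩ := exists_IsGr ((TC_iff_SC _).1 hTC').1 h
    obtain ⟨s, hs, hP⟩ := orient hTC' rfl hg (deps Subtype.val) (fun d hd => isMin_cycle hU hd)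
      (fun p hp d hs => cycle_of_dep hp hs) (finrank_deps hU)
    have := dec_cographic (Subtype.val : X → V) hd tl s hs hP
    rwa [hrg] at this
  · left
    have := dec_r10 hU h
    rwa [hrg] at this
  · right
    obtain ⟨A, -, h6, h6', hl⟩ := h
    obtain ⟨h1, h2⟩ := img_parts A
    refine ⟨_, _, h1, h2, ?_, ?_, ?_⟩
    · rw [ncard_img]; exact h6
    · rw [ncard_img]; exact h6'
    · rw [← lam_eq hU A]; exact hl

/-- Every finite unimodular set is decomposable. -/
theorem uni_dec (X : Set V) (hfin : X.Finite) (hU : RC.Uni X) : RC.Dec V X :=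
  RC.Gut.uni_dec_of main X.ncard X hfin hU le_rfl

end SEY.UB

end
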