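import Pool.Agent.Helper29.MFA.T08
import Pool.Agent.Helper29.MFA.T02
import Pool.Agent.Helper29.MFA.T58

section

/-!
The theorem for all regular matroids.
-/

namespace RC

open Submodule Module

theorem gc_uni (n : ℕ) : GC (fun V _ _ X => Uni X) n := by
  intro ι κ V _ _ v c E hs hn
  refine gc_dec n ι κ V v c E ⟨?_, hs.ne, hs.two, hs.par, hs.rank⟩ hn
  exact SEY.uni_dec _ ((Finset.finite_toSet E).image v) hs.cls

/-- The full answer: regular matroids, given by a totally unimodular matrix over the reals. -/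
theorem rainbow_regular {n : ℕ} (hn : 2 ≤ n) {α : Type*} (M : Matroid α) [M.Finite]
    (hreg : ∃ (m : ℕ) (A : Matrix (Fin m) α ℝ), A.IsTotallyUnimodular ∧
      ∀ S ⊆ M.E, (M.Indep S ↔ LinearIndepOn ℝ (fun e i => A i e) S))
    (hs : ∀ D, M.IsCircuit D → 3 ≤ D.encard) (hr : M.eRank = ((n - 1 : ℕ) : ℕ∞)) (c : α → Fin n)
    (hc : ∀ i, 2 ≤ (M.E ∩ c ⁻¹' {i}).encard) :
    ∃ D, M.IsCircuit D ∧ Set.InjOn c D ∧ D.encard ≤ ((n + 1) / 2 : ℕ) := by
  classical
  obtain ⟨m, A, hA, hI⟩ := hreg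
  obtain ⟨B, hB, hAB⟩ := exists_rat A hA
  have hfin : M.E.Finite := M.ground_finite
  have hcols : Uni ((fun e i => B i e : α → Fin m → ℚ) '' M.E) := by
    have : Fintype M.E := hfin.fintype
    let e : Fin (Fintype.card M.E) ≃ M.E := (Fintype.equivFin M.E).symm
    have h1 := uni_of_TU (B.submatrix id (fun k => (e k : α))) (hB.submatrix _ _)
    refine uni_mono h1 ?_
    rintro _ ⟨x, hx, rfl⟩
    refine Or.inr (Or.inl ⟨e.symm ⟨x, hx⟩, ?_⟩)
    funext i
    simp
  refine rainbow_gen cls_uni (gc_uni n) (fun e i => B i e) M hcols ?_ hs ?_ c ?_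
  · intro S hS
    rw [hI S hS]
    have h2 : (fun e i => A i e) = fun (e : α) (i : Fin m) => ((B i e : ℚ) : ℝ) := by
      funext e i
      exact hAB i e
    rw [h2]
    exact li_real_iff (fun x : S => fun i => B i x)
  · rw [hr]
    have h1 : (n - 1 : ℕ) + 1 = n := by omega
    exact_mod_cast h1.le
  · intro i
    obtain ⟨e, f, he, hf, hef⟩ := Set.one_lt_encard_iff.1
      (lt_of_lt_of_le (by norm_num : (1 : ℕ∞) < 2) (hc i))
    exact ⟨e, he.1, f, hf.1, hef, by simpa using he.2, by simpa using hf.2⟩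

end RC

end
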